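import Pool.Agent.DMB.Api

/-!
Squad DMB, module AFF: affine maps and the coordinatewise sorted matrix.
-/

namespace Pool.Agent.DMB

open MeasureTheory Set Metric Filter Topology
open scoped ENNReal

open Classical in
theorem aff_proof : Stmt_AFF := by
  intro K n a
  constructor
  · intro c b hc
    funext i l
    have hm : Monotone ((fun k => (c • a k + b) l) ∘ Tuple.sort (fun k => a k l)) := by
      intro i j hij
      have h := (Tuple.monotone_sort (fun k => a k l)) hij
      simp only [Function.comp_apply] at h
      simp only [Function.comp_apply, PiLp.add_apply, PiLp.smul_apply, smul_eq_mul]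
      have := mul_le_mul_of_nonneg_left h hc
      linarith
    have h2 := Tuple.unique_monotone (Tuple.monotone_sort (fun k => (c • a k + b) l)) hm
    have h3 := congrFun h2 i
    simp only [Function.comp_apply, PiLp.add_apply, PiLp.smul_apply, smul_eq_mul] at h3
    simpa [xi] using h3
  · funext i l
    have hm : Monotone ((fun k => (-(a k)) l) ∘
        (Fin.revPerm.trans (Tuple.sort (fun k => a k l)))) := by
      intro i j hij
      have h := (Tuple.monotone_sort (fun k => a k l)) (Fin.rev_le_rev.2 hij)
      simp only [Function.comp_apply] at h
      simp only [Function.comp_apply, PiLp.neg_apply, Equiv.trans_apply, Fin.revPerm_apply]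
      linarith
    have h2 := Tuple.unique_monotone (Tuple.monotone_sort (fun k => (-(a k)) l)) hm
    have h3 := congrFun h2 i
    simp only [Function.comp_apply, PiLp.neg_apply, Equiv.trans_apply, Fin.revPerm_apply] at h3
    simpa [xi] using h3

end Pool.Agent.DMB
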