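import Pool.Agent.DMB.Api

/-!
# Squad DMB (MP_71cfa6_an): module ALG
-/

set_option autoImplicit false

namespace Pool.Agent.DMB

open MeasureTheory Set Metric Filter Topology

open scoped ENNReal

namespace ALG_

/-- the last step -/
theorem last {β p q D' : ℝ} (hβ0 : 0 < β) (hβ : β ≤ 1 / 4) (hp : 0 ≤ p) (hq : 0 ≤ q)
    (h1 : D' ≤ p * q) (h2 : D' ≤ (1 - β) * p ^ 2) :
    D' ≤ (1 - β ^ 2 / 4) * (q ^ 2 + p ^ 2) / 2 := by
  rcases le_total q ((1 - β) * p) with h | h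
  · refine h1.trans ?_
    have h3 : β * p ≤ p - q := by linarith
    have h4 : (β * p) ^ 2 ≤ (p - q) ^ 2 := pow_le_pow_left₀ (by positivity) h3 2
    have h5 : q ≤ p := by
      have : 0 ≤ β * p := by positivity
      linarith
    have h6 : q ^ 2 ≤ p ^ 2 := pow_le_pow_left₀ hq h5 2
    have h7 : β ^ 2 / 4 * (q ^ 2 + p ^ 2) ≤ β ^ 2 / 4 * (p ^ 2 + p ^ 2) := by
      refine mul_le_mul_of_nonneg_left (by linarith) (by positivity)
    have h8 : 0 ≤ (β * p) ^ 2 := by positivity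
    have h9 : β ^ 2 / 4 * (p ^ 2 + p ^ 2) = (β * p) ^ 2 / 2 := by ring
    have h10 : (1 - β ^ 2 / 4) * (q ^ 2 + p ^ 2) / 2 - p * q =
      ((p - q) ^ 2 - β ^ 2 / 4 * (q ^ 2 + p ^ 2)) / 2 := by ring
    linarith
  · refine h2.trans ?_
    have h3 : ((1 - β) * p) ^ 2 ≤ q ^ 2 :=
      pow_le_pow_left₀ (mul_nonneg (by linarith) hp) h 2
    have h4 : 0 ≤ 1 - β ^ 2 / 4 := by nlinarith
    have h5 : (1 - β ^ 2 / 4) * (((1 - β) * p) ^ 2 + p ^ 2) ≤
        (1 - β ^ 2 / 4) * (q ^ 2 + p ^ 2) :=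
      mul_le_mul_of_nonneg_left (by linarith) h4
    have h6 : (1 - β ^ 2 / 4) * (((1 - β) * p) ^ 2 + p ^ 2) / 2 - (1 - β) * p ^ 2 =
        p ^ 2 * β ^ 2 * (1 / 4 + β / 4 - β ^ 2 / 8) := by ring
    have h7 : 0 ≤ 1 / 4 + β / 4 - β ^ 2 / 8 := by nlinarith
    have h8 : 0 ≤ p ^ 2 * β ^ 2 * (1 / 4 + β / 4 - β ^ 2 / 8) := by positivity
    linarith

theorem point {a b w v p q : ℝ} (hw : (w - 2 * a) ^ 2 ≤ Real.pi * p)
    (hv : (v - 2 * b) ^ 2 ≤ Real.pi * q) :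
    2 * (a - b) ^ 2 - 2 * Real.pi * (p + q) ≤ (w - v) ^ 2 := by
  have h1 : (w - v) ^ 2 - 2 * (a - b) ^ 2 + 2 * (w - 2 * a) ^ 2 + 2 * (v - 2 * b) ^ 2 =
      (2 * (a - b) + 2 * ((w - 2 * a) - (v - 2 * b))) ^ 2 / 2 +
        ((w - 2 * a) + (v - 2 * b)) ^ 2 := by ring
  have h2 : 0 ≤ (2 * (a - b) + 2 * ((w - 2 * a) - (v - 2 * b))) ^ 2 / 2 := by positivity
  have h3 : 0 ≤ ((w - 2 * a) + (v - 2 * b)) ^ 2 := by positivity
  linarith

/-- the averaged inequality -/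
theorem avg {K k n : ℕ} (hk : 0 < k) (hkK : k ≤ K) (a w p : Fin K → Fin n → ℝ)
    (b v q : Fin k → Fin n → ℝ) (hp : ∀ i l, 0 ≤ p i l) (hq : ∀ j l, 0 ≤ q j l)
    (hw : ∀ i l, (w i l - 2 * a i l) ^ 2 ≤ Real.pi * p i l)
    (hv : ∀ j l, (v j l - 2 * b j l) ^ 2 ≤ Real.pi * q j l)
    (hs : ∀ l, ∑ i, a i l + ∑ j, b j l = 0) (X : ℝ)
    (hX : ∀ i j, X ≤ -(1 / (4 * Real.pi)) * ∑ l, (w i l - v j l) ^ 2) :
    X ≤ -(1 / (2 * Real.pi * K)) * (∑ i, ∑ l, a i l ^ 2 + ∑ j, ∑ l, b j l ^ 2) +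
      (1 / 2) * (∑ i, ∑ l, p i l + ∑ j, ∑ l, q j l) := by
  have hK : 0 < K := lt_of_lt_of_le hk hkK
  have hKr : (1 : ℝ) ≤ K := by exact_mod_cast hK
  have hkr : (1 : ℝ) ≤ k := by exact_mod_cast hk
  have hkKr : (k : ℝ) ≤ K := by exact_mod_cast hkK
  have hpi : 0 < Real.pi := Real.pi_pos
  set A := ∑ i, ∑ l, a i l ^ 2 with hA
  set B := ∑ j, ∑ l, b j l ^ 2 with hB
  set P := ∑ i, ∑ l, p i l with hP
  set Q := ∑ j, ∑ l, q j l with hQ
  have hA0 : 0 ≤ A := Finset.sum_nonneg fun i _ => Finset.sum_nonneg fun l _ => sq_nonneg _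
  have hB0 : 0 ≤ B := Finset.sum_nonneg fun i _ => Finset.sum_nonneg fun l _ => sq_nonneg _
  have hP0 : 0 ≤ P := Finset.sum_nonneg fun i _ => Finset.sum_nonneg fun l _ => hp i l
  have hQ0 : 0 ≤ Q := Finset.sum_nonneg fun i _ => Finset.sum_nonneg fun l _ => hq i l
  -- sum over all pairs
  have h1 : ∀ i j, 4 * Real.pi * X ≤
      -∑ l, (2 * (a i l - b j l) ^ 2 - 2 * Real.pi * (p i l + q j l)) := by
    intro i j
    have h2 := mul_le_mul_of_nonneg_left (hX i j) (by positivity : (0 : ℝ) ≤ 4 * Real.pi)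
    have h3 : 4 * Real.pi * (-(1 / (4 * Real.pi)) * ∑ l, (w i l - v j l) ^ 2) =
        -∑ l, (w i l - v j l) ^ 2 := by
      field_simp
    have h4 : ∑ l, (2 * (a i l - b j l) ^ 2 - 2 * Real.pi * (p i l + q j l)) ≤
        ∑ l, (w i l - v j l) ^ 2 :=
      Finset.sum_le_sum fun l _ => point (hw i l) (hv j l)
    linarith
  have h2 : (K : ℝ) * k * (4 * Real.pi * X) ≤
      ∑ i : Fin K, ∑ j : Fin k,
        -∑ l, (2 * (a i l - b j l) ^ 2 - 2 * Real.pi * (p i l + q j l)) := by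
    have h3 : (K : ℝ) * k * (4 * Real.pi * X) = ∑ i : Fin K, ∑ j : Fin k, 4 * Real.pi * X := by
      simp [mul_assoc]
    rw [h3]
    exact Finset.sum_le_sum fun i _ => Finset.sum_le_sum fun j _ => h1 i j
  have h3 : ∑ i : Fin K, ∑ j : Fin k,
        -∑ l, (2 * (a i l - b j l) ^ 2 - 2 * Real.pi * (p i l + q j l)) =
      -(2 * (k * A + K * B - 2 * ∑ l, (∑ i, a i l) * (∑ j, b j l))) +
        2 * Real.pi * (k * P + K * Q) := by
    have e1 : ∀ i : Fin K, ∀ j : Fin k,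
        -∑ l, (2 * (a i l - b j l) ^ 2 - 2 * Real.pi * (p i l + q j l)) =
        -2 * (∑ l, a i l ^ 2) - 2 * (∑ l, b j l ^ 2) + 4 * (∑ l, a i l * b j l) +
          2 * Real.pi * (∑ l, p i l) + 2 * Real.pi * (∑ l, q j l) := by
      intro i j
      rw [← Finset.sum_neg_distrib, Finset.mul_sum, Finset.mul_sum, Finset.mul_sum,
        Finset.mul_sum, Finset.mul_sum, ← Finset.sum_sub_distrib, ← Finset.sum_add_distrib,
        ← Finset.sum_add_distrib, ← Finset.sum_add_distrib]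
      exact Finset.sum_congr rfl fun l _ => by ring
    have e2 : ∑ l, (∑ i, a i l) * (∑ j, b j l) = ∑ i, ∑ j, ∑ l, a i l * b j l := by
      simp_rw [Finset.sum_mul_sum]
      rw [Finset.sum_comm]
      refine Finset.sum_congr rfl fun i _ => ?_
      rw [Finset.sum_comm]
    rw [e2]
    simp_rw [e1, Finset.sum_add_distrib, Finset.sum_sub_distrib, ← Finset.mul_sum,
      Finset.sum_const, Finset.card_univ, Fintype.card_fin, nsmul_eq_mul]
    rw [hA, hB, hP, hQ]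
    simp_rw [← Finset.mul_sum]
    ring
  have h4 : ∑ l, (∑ i, a i l) * (∑ j, b j l) ≤ 0 := by
    refine Finset.sum_nonpos fun l _ => ?_
    have h5 : ∑ j, b j l = -∑ i, a i l := by linarith [hs l]
    rw [h5]
    nlinarith [sq_nonneg (∑ i, a i l)]
  have h5 : (K : ℝ) * k * (4 * Real.pi * X) ≤
      -(2 * (k * A + K * B)) + 2 * Real.pi * (k * P + K * Q) := by linarith
  have hKk : (0 : ℝ) < K * k := by positivity
  have h6 : X ≤ (-(2 * (k * A + K * B)) + 2 * Real.pi * (k * P + K * Q)) /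
      ((K : ℝ) * k * (4 * Real.pi)) := by
    rw [le_div_iff₀ (by positivity)]
    linarith
  refine h6.trans ?_
  have h7 : (-(2 * (k * A + K * B)) + 2 * Real.pi * (k * P + K * Q)) /
      ((K : ℝ) * k * (4 * Real.pi)) =
      -(1 / (2 * Real.pi * K)) * A - (1 / (2 * Real.pi * k)) * B +
        (1 / 2) * ((1 / K) * P + (1 / k) * Q) := by
    have hK' : (K : ℝ) ≠ 0 := by positivity
    have hk' : (k : ℝ) ≠ 0 := by positivity
    field_simp
    ring
  rw [h7]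
  have h8 : (1 / (2 * Real.pi * K)) * B ≤ (1 / (2 * Real.pi * k)) * B := by
    refine mul_le_mul_of_nonneg_right ?_ hB0
    refine one_div_le_one_div_of_le (by positivity) ?_
    exact mul_le_mul_of_nonneg_left hkKr (by positivity)
  have h9 : (1 / (K : ℝ)) * P ≤ P := by
    have : 1 / (K : ℝ) ≤ 1 := by rw [div_le_one (by positivity)]; exact hKr
    nlinarith
  have h10 : (1 / (k : ℝ)) * Q ≤ Q := by
    have : 1 / (k : ℝ) ≤ 1 := by rw [div_le_one (by positivity)]; exact hkr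
    nlinarith
  have h11 : -(1 / (2 * Real.pi * K)) * (A + B) =
      -(1 / (2 * Real.pi * K)) * A - (1 / (2 * Real.pi * K)) * B := by ring
  rw [h11]
  linarith

end ALG_

open ALG_

theorem alg_proof (hWIR : Stmt_WIR) : Stmt_ALG := by
  intro K k n hk hkK
  have hK : 0 < K := lt_of_lt_of_le hk hkK
  have hKr : (1 : ℝ) ≤ K := by exact_mod_cast hK
  have hpi : 0 < Real.pi := Real.pi_pos
  have hpi3 : 3 < Real.pi := Real.pi_gt_three
  set β : ℝ := 1 / (Real.pi ^ 2 * K) with hβ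
  have hβ0 : 0 < β := by positivity
  have hβ4 : β ≤ 1 / 4 := by
    rw [hβ]
    refine one_div_le_one_div_of_le (by norm_num) ?_
    nlinarith
  refine ⟨β ^ 2 / 4, by positivity, by nlinarith, ?_⟩
  intro f f' g g' D ν t e hf hg hs hν he ht h1 h2
  -- abbreviations
  have hWf := fun i l => hWIR _ _ (hf i l)
  have hWg := fun j l => hWIR _ _ (hg j l)
  set H := (∑ i, ∑ l, l2 (f i l)) + (∑ j, ∑ l, l2 (g j l)) with hH
  set S := (∑ i, ∑ l, sc (f i l) ^ 2) + (∑ j, ∑ l, sc (g j l) ^ 2) with hS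
  set P := (∑ i, ∑ l, (l2 (f i l) - (Real.pi / 2) * sc (f i l) ^ 2)) +
    (∑ j, ∑ l, (l2 (g j l) - (Real.pi / 2) * sc (g j l) ^ 2)) with hP
  have hHP : H = (Real.pi / 2) * S + P := by
    rw [hH, hS, hP]
    simp_rw [Finset.sum_sub_distrib, ← Finset.mul_sum]
    ring
  have hP0 : 0 ≤ P := by
    refine add_nonneg ?_ ?_
    · exact Finset.sum_nonneg fun i _ => Finset.sum_nonneg fun l _ => by
        linarith [(hWf i l).1]
    · exact Finset.sum_nonneg fun i _ => Finset.sum_nonneg fun l _ => by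
        linarith [(hWg i l).1]
  have hS0 : 0 ≤ S := by
    refine add_nonneg ?_ ?_ <;>
    exact Finset.sum_nonneg fun i _ => Finset.sum_nonneg fun l _ => sq_nonneg _
  have hT : H + 3 * P ≤ t := by
    refine le_trans ?_ ht
    have e1 : H + 3 * P = (∑ i, ∑ l, (l2 (f i l) + 3 * (l2 (f i l) -
        (Real.pi / 2) * sc (f i l) ^ 2))) + (∑ j, ∑ l, (l2 (g j l) + 3 * (l2 (g j l) -
        (Real.pi / 2) * sc (g j l) ^ 2))) := by
      rw [hH, hP]
      simp_rw [Finset.sum_add_distrib, ← Finset.mul_sum]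
      ring
    rw [e1]
    refine add_le_add ?_ ?_
    · exact Finset.sum_le_sum fun i _ => Finset.sum_le_sum fun l _ => (hWf i l).2.1
    · exact Finset.sum_le_sum fun i _ => Finset.sum_le_sum fun l _ => (hWg i l).2.1
  have h3 : D - e - (1 / 2) * (H + t) ≤
      -(1 / (2 * Real.pi * K)) * S + (1 / 2) * P := by
    refine avg hk hkK (fun i l => sc (f i l)) (fun i l => ∫ θ in (0 : ℝ)..Real.pi, f i l θ)
      (fun i l => l2 (f i l) - (Real.pi / 2) * sc (f i l) ^ 2)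
      (fun j l => sc (g j l)) (fun j l => ∫ θ in (0 : ℝ)..Real.pi, g j l θ)
      (fun j l => l2 (g j l) - (Real.pi / 2) * sc (g j l) ^ 2)
      (fun i l => by linarith [(hWf i l).1]) (fun j l => by linarith [(hWg j l).1])
      (fun i l => (hWf i l).2.2) (fun j l => (hWg j l).2.2) hs _ ?_
    intro i j
    have := h2 i j
    linarith
  have h4 : D - e ≤ (1 - β) * t := by
    have e1 : 1 / (2 * Real.pi * K) = (Real.pi / 2) * β := by
      rw [hβ]
      field_simp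
    rw [e1] at h3
    have h5 : (1 / 2 - β) * (H + 3 * P) ≤ (1 / 2 - β) * t :=
      mul_le_mul_of_nonneg_left hT (by linarith)
    have h6 : (1 / 2 - β) * (H + 3 * P) = (1 / 2) * H + P * (3 / 2 - 4 * β) -
      β * ((Real.pi / 2) * S) := by rw [hHP]; ring
    have h7 : (1 / 2) * P ≤ P * (3 / 2 - 4 * β) := by nlinarith
    have h8 : -(Real.pi / 2 * β) * S = -(β * ((Real.pi / 2) * S)) := by ring
    rw [h8] at h3
    linarith
  have hH0 : 0 ≤ H := by
    rw [hHP]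
    positivity
  have ht0 : 0 ≤ t := by linarith
  have h5 : D - e ≤ Real.sqrt t * Real.sqrt ν := by
    rw [← Real.sqrt_mul ht0]
    have : Real.sqrt (H * ν) ≤ Real.sqrt (t * ν) :=
      Real.sqrt_le_sqrt (mul_le_mul_of_nonneg_right (by linarith) hν)
    linarith
  have h6 := last hβ0 hβ4 (Real.sqrt_nonneg t) (Real.sqrt_nonneg ν) h5
    (by rw [Real.sq_sqrt ht0]; exact h4)
  rw [Real.sq_sqrt ht0, Real.sq_sqrt hν] at h6
  linarith

end Pool.Agent.DMB
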