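import Pool.Agent.DMB.Stmts

/-!
Elementary algebra of matrices of sheets.
-/

namespace Pool.Agent.DMB

open MeasureTheory Set Metric Filter Topology
open scoped ENNReal

variable {K n : ℕ}

theorem nsq_eq_dt (v : Mat K n) : nsq v = dt v v := by
  simp [nsq, dt, sq]

theorem nsq_nonneg (v : Mat K n) : 0 ≤ nsq v :=
  Finset.sum_nonneg fun _ _ => Finset.sum_nonneg fun _ _ => sq_nonneg _

theorem vsq_nonneg (v : Fin n → ℝ) : 0 ≤ vsq v := Finset.sum_nonneg fun _ _ => sq_nonneg _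

theorem dt_comm (v w : Mat K n) : dt v w = dt w v := by
  simp [dt, mul_comm]

theorem dt_add_left (u v w : Mat K n) : dt (u + v) w = dt u w + dt v w := by
  simp [dt, add_mul, Finset.sum_add_distrib]

theorem dt_add_right (u v w : Mat K n) : dt u (v + w) = dt u v + dt u w := by
  simp [dt, mul_add, Finset.sum_add_distrib]

theorem dt_smul_left (c : ℝ) (v w : Mat K n) : dt (c • v) w = c * dt v w := by
  simp [dt, mul_assoc, Finset.mul_sum]

theorem dt_smul_right (c : ℝ) (v w : Mat K n) : dt v (c • w) = c * dt v w := by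
  rw [dt_comm, dt_smul_left, dt_comm]

theorem dt_neg_left (v w : Mat K n) : dt (-v) w = -dt v w := by
  simp [dt, Finset.sum_neg_distrib]

theorem dt_neg_right (v w : Mat K n) : dt v (-w) = -dt v w := by
  simp [dt, Finset.sum_neg_distrib]

theorem dt_sub_left (u v w : Mat K n) : dt (u - v) w = dt u w - dt v w := by
  rw [sub_eq_add_neg, dt_add_left, dt_neg_left]; ring

theorem dt_sub_right (u v w : Mat K n) : dt u (v - w) = dt u v - dt u w := by
  rw [sub_eq_add_neg, dt_add_right, dt_neg_right]; ring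

theorem nsq_add (v w : Mat K n) : nsq (v + w) = nsq v + 2 * dt v w + nsq w := by
  rw [nsq_eq_dt, nsq_eq_dt, nsq_eq_dt, dt_add_left, dt_add_right, dt_add_right, dt_comm w v]; ring

theorem nsq_sub (v w : Mat K n) : nsq (v - w) = nsq v - 2 * dt v w + nsq w := by
  rw [nsq_eq_dt, nsq_eq_dt, nsq_eq_dt, dt_sub_left, dt_sub_right, dt_sub_right, dt_comm w v]; ring

theorem nsq_neg (v : Mat K n) : nsq (-v) = nsq v := by simp [nsq]

theorem nsq_smul (c : ℝ) (v : Mat K n) : nsq (c • v) = c ^ 2 * nsq v := by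
  simp [nsq, mul_pow, Finset.mul_sum]

theorem nsq_zero : nsq (0 : Mat K n) = 0 := by simp [nsq]

theorem two_dt_le (v w : Mat K n) : 2 * dt v w ≤ nsq v + nsq w := by
  have := nsq_nonneg (v - w); rw [nsq_sub] at this; linarith

theorem two_abs_dt_le (v w : Mat K n) : 2 * |dt v w| ≤ nsq v + nsq w := by
  rcases abs_cases (dt v w) with ⟨h, _⟩ | ⟨h, _⟩
  · rw [h]; exact two_dt_le v w
  · rw [h]; have := two_dt_le (-v) w; rw [dt_neg_left, nsq_neg] at this; linarith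

/-- Cauchy-Schwarz -/
theorem dt_sq_le (v w : Mat K n) : dt v w ^ 2 ≤ nsq v * nsq w := by
  have h : ∀ t : ℝ, 0 ≤ nsq w * (t * t) + (2 * dt v w) * t + nsq v := by
    intro t
    have := nsq_nonneg (v + t • w)
    rw [nsq_add, dt_smul_right, nsq_smul] at this
    nlinarith
  have := discrim_le_zero h
  rw [discrim] at this
  nlinarith

theorem abs_dt_le (v w : Mat K n) : |dt v w| ≤ Real.sqrt (nsq v) * Real.sqrt (nsq w) := by
  rw [← Real.sqrt_mul (nsq_nonneg v), ← Real.sqrt_sq_eq_abs]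
  exact Real.sqrt_le_sqrt (dt_sq_le v w)

theorem sqrt_nsq_add_le (v w : Mat K n) :
    Real.sqrt (nsq (v + w)) ≤ Real.sqrt (nsq v) + Real.sqrt (nsq w) := by
  apply Real.sqrt_le_iff.mpr
  refine ⟨by positivity, ?_⟩
  have h := (abs_le.mp (abs_dt_le v w)).2
  have h1 := Real.sq_sqrt (nsq_nonneg v)
  have h2 := Real.sq_sqrt (nsq_nonneg w)
  rw [nsq_add]; nlinarith

theorem vdt_sq_le (v w : Fin n → ℝ) : vdt v w ^ 2 ≤ vsq v * vsq w := by
  simpa [vdt, vsq] using Finset.sum_mul_sq_le_sq_mul_sq Finset.univ v w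

theorem sm_add (v w : Mat K n) : sm (v + w) = sm v + sm w := by
  funext l; simp [sm, Finset.sum_add_distrib]

theorem sm_sub (v w : Mat K n) : sm (v - w) = sm v - sm w := by
  funext l; simp [sm, Finset.sum_sub_distrib]

theorem sm_smul (c : ℝ) (v : Mat K n) : sm (c • v) = c • sm v := by
  funext l; simp [sm, Finset.mul_sum]

theorem sm_sh (v : Mat K n) (b : Fin n → ℝ) : sm (sh v b) = sm v - (K : ℝ) • b := by
  funext l; simp [sm, sh, Finset.sum_sub_distrib]

theorem sm_ad (v : Mat K n) (b : Fin n → ℝ) : sm (ad v b) = sm v + (K : ℝ) • b := by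
  funext l; simp [sm, ad, Finset.sum_add_distrib]

theorem dt_rw (v : Mat K n) (b : Fin n → ℝ) : dt v (rw' K b) = vdt (sm v) b := by
  simp only [dt, rw', vdt, sm, Finset.sum_mul]
  exact Finset.sum_comm

theorem nsq_rw (b : Fin n → ℝ) : nsq (rw' K b) = K * vsq b := by
  simp [nsq, rw', vsq]

theorem sh_eq (v : Mat K n) (b : Fin n → ℝ) : sh v b = v - rw' K b := rfl

theorem ad_eq (v : Mat K n) (b : Fin n → ℝ) : ad v b = v + rw' K b := rfl

theorem nsq_sh (v : Mat K n) (b : Fin n → ℝ) :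
    nsq (sh v b) = nsq v - 2 * vdt (sm v) b + K * vsq b := by
  rw [sh_eq, nsq_sub, dt_rw, nsq_rw]

theorem nsq_ad (v : Mat K n) (b : Fin n → ℝ) :
    nsq (ad v b) = nsq v + 2 * vdt (sm v) b + K * vsq b := by
  rw [ad_eq, nsq_add, dt_rw, nsq_rw]

/-- `|∑ rows|² ≤ K |v|²` -/
theorem vsq_sm_le (v : Mat K n) : vsq (sm v) ≤ K * nsq v := by
  have : ∀ l, (∑ i, v i l) ^ 2 ≤ K * ∑ i, v i l ^ 2 := fun l => by
    simpa using sq_sum_le_card_mul_sum_sq (s := (Finset.univ : Finset (Fin K))) (f := fun i => v i l)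
  calc vsq (sm v) = ∑ l, (∑ i, v i l) ^ 2 := rfl
    _ ≤ ∑ l, K * ∑ i, v i l ^ 2 := Finset.sum_le_sum fun l _ => this l
    _ = K * nsq v := by rw [← Finset.mul_sum, nsq, Finset.sum_comm]

theorem K_smul_mn (v : Mat K n) : (K : ℝ) • mn v = sm v := by
  funext l
  rcases Nat.eq_zero_or_pos K with h | h
  · subst h; simp [mn, sm]
  · have : (K : ℝ) ≠ 0 := by positivity
    simp only [Pi.smul_apply, mn, sm, smul_eq_mul]; field_simp

theorem sm_sh_mn (v : Mat K n) : sm (sh v (mn v)) = 0 := by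
  rw [sm_sh, K_smul_mn, sub_self]

theorem dev_eq (v : Mat K n) : dev v = nsq v - K * vsq (mn v) := by
  have h : vdt (sm v) (mn v) = K * vsq (mn v) := by
    rw [← K_smul_mn]
    simp only [vdt, vsq, Pi.smul_apply, smul_eq_mul, Finset.mul_sum]
    exact Finset.sum_congr rfl fun _ _ => by ring
  rw [dev, nsq_sh, h]; ring

theorem dev_nonneg (v : Mat K n) : 0 ≤ dev v := nsq_nonneg _

/-- the mean is the best constant -/
theorem dev_le (v : Mat K n) (b : Fin n → ℝ) : dev v ≤ nsq (sh v b) := by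
  have h : sh v b = sh v (mn v) + rw' K (mn v - b) := by
    funext i l; simp [sh, rw']
  rw [h, nsq_add, dt_rw, sm_sh_mn, nsq_rw]
  have h0 : vdt (0 : Fin n → ℝ) (mn v - b) = 0 := by simp [vdt]
  have := vsq_nonneg (mn v - b)
  rw [h0, dev]
  have hK : (0 : ℝ) ≤ K := by positivity
  nlinarith [mul_nonneg hK this]

theorem dev_le_nsq (v : Mat K n) : dev v ≤ nsq v := by
  have := dev_le v 0
  have h : sh v 0 = v := by funext i l; simp [sh]
  rwa [h] at this

theorem nsq_rd_add_nsq_tg (θ : ℝ) (X Y : Mat K n) :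
    nsq (Flat.rd θ X Y) + nsq (Flat.tg θ X Y) = nsq X + nsq Y := by
  have h := Real.sin_sq_add_cos_sq θ
  rw [Flat.rd, Flat.tg, nsq_add, nsq_add, nsq_smul, nsq_smul, nsq_smul, nsq_smul, dt_smul_left,
    dt_smul_right, dt_smul_left, dt_smul_right]
  have e : Real.cos θ ^ 2 * nsq X + 2 * (Real.cos θ * (Real.sin θ * dt X Y)) +
      Real.sin θ ^ 2 * nsq Y + ((-Real.sin θ) ^ 2 * nsq X +
      2 * (-Real.sin θ * (Real.cos θ * dt X Y)) + Real.cos θ ^ 2 * nsq Y) =
      (Real.sin θ ^ 2 + Real.cos θ ^ 2) * (nsq X + nsq Y) := by ring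
  rw [e, h, one_mul]

/-- coefficients close to the identity: quadratic form -/
theorem qd_close (a : Fin 3 → ℝ) (δ : ℝ) (h0 : |a 0 - 1| ≤ δ) (h1 : |a 1| ≤ δ)
    (h2 : |a 2 - 1| ≤ δ) (X Y : Mat K n) :
    |qd a X Y - (nsq X + nsq Y)| ≤ 2 * δ * (nsq X + nsq Y) := by
  have hX := nsq_nonneg X
  have hY := nsq_nonneg Y
  have hd := two_abs_dt_le X Y
  have e : qd a X Y - (nsq X + nsq Y) = (a 0 - 1) * nsq X + a 1 * (2 * dt X Y) +
      (a 2 - 1) * nsq Y := by rw [qd]; ring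
  have hδ : 0 ≤ δ := le_trans (abs_nonneg _) h1
  calc |qd a X Y - (nsq X + nsq Y)| ≤ |(a 0 - 1) * nsq X| + |a 1 * (2 * dt X Y)| +
        |(a 2 - 1) * nsq Y| := by rw [e]; exact abs_add_three _ _ _
    _ = |a 0 - 1| * nsq X + |a 1| * (2 * |dt X Y|) + |a 2 - 1| * nsq Y := by
        rw [abs_mul, abs_mul (a 1), abs_mul (a 2 - 1), abs_of_nonneg hX, abs_of_nonneg hY,
          abs_mul (2 : ℝ), abs_two]
    _ ≤ δ * nsq X + δ * (nsq X + nsq Y) + δ * nsq Y := by
        have i1 := mul_le_mul_of_nonneg_right h0 hX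
        have i2 := mul_le_mul h1 hd (by positivity) hδ
        have i3 := mul_le_mul_of_nonneg_right h2 hY
        linarith
    _ = 2 * δ * (nsq X + nsq Y) := by ring

/-- coefficients close to the identity: bilinear form -/
theorem bl_close (a : Fin 3 → ℝ) (δ : ℝ) (h0 : |a 0 - 1| ≤ δ) (h1 : |a 1| ≤ δ)
    (h2 : |a 2 - 1| ≤ δ) (X Y X' Y' : Mat K n) :
    |bl a X Y X' Y' - (dt X X' + dt Y Y')| ≤
      2 * δ * (Real.sqrt (nsq X + nsq Y) * Real.sqrt (nsq X' + nsq Y')) := by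
  have hδ : 0 ≤ δ := le_trans (abs_nonneg _) h1
  set A := Real.sqrt (nsq X + nsq Y)
  set B := Real.sqrt (nsq X' + nsq Y')
  have hx := nsq_nonneg X
  have hy := nsq_nonneg Y
  have hx' := nsq_nonneg X'
  have hy' := nsq_nonneg Y'
  set x := Real.sqrt (nsq X)
  set y := Real.sqrt (nsq Y)
  set x' := Real.sqrt (nsq X')
  set y' := Real.sqrt (nsq Y')
  have sx : x ^ 2 = nsq X := Real.sq_sqrt hx
  have sy : y ^ 2 = nsq Y := Real.sq_sqrt hy
  have sx' : x' ^ 2 = nsq X' := Real.sq_sqrt hx'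
  have sy' : y' ^ 2 = nsq Y' := Real.sq_sqrt hy'
  have px : 0 ≤ x := Real.sqrt_nonneg _
  have py : 0 ≤ y := Real.sqrt_nonneg _
  have px' : 0 ≤ x' := Real.sqrt_nonneg _
  have py' : 0 ≤ y' := Real.sqrt_nonneg _
  have d1 := abs_dt_le X X'
  have d2 := abs_dt_le X Y'
  have d3 := abs_dt_le Y X'
  have d4 := abs_dt_le Y Y'
  have e : bl a X Y X' Y' - (dt X X' + dt Y Y') = (a 0 - 1) * dt X X' + a 1 * (dt X Y' + dt Y X') +
      (a 2 - 1) * dt Y Y' := by rw [bl]; ring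
  have hAB : x * x' + (x * y' + y * x') + y * y' ≤ 2 * (A * B) := by
    have : x * x' + (x * y' + y * x') + y * y' = (x + y) * (x' + y') := by ring
    rw [this]
    have hA : x + y ≤ Real.sqrt 2 * A := by
      rw [← Real.sqrt_mul (by norm_num)]
      apply Real.le_sqrt_of_sq_le
      nlinarith [sq_nonneg (x - y)]
    have hB : x' + y' ≤ Real.sqrt 2 * B := by
      rw [← Real.sqrt_mul (by norm_num)]
      apply Real.le_sqrt_of_sq_le
      nlinarith [sq_nonneg (x' - y')]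
    calc (x + y) * (x' + y') ≤ (Real.sqrt 2 * A) * (Real.sqrt 2 * B) := by gcongr
      _ = (Real.sqrt 2 * Real.sqrt 2) * (A * B) := by ring
      _ = 2 * (A * B) := by rw [Real.mul_self_sqrt (by norm_num)]
  calc |bl a X Y X' Y' - (dt X X' + dt Y Y')|
      ≤ |(a 0 - 1) * dt X X'| + |a 1 * (dt X Y' + dt Y X')| + |(a 2 - 1) * dt Y Y'| := by
        rw [e]; exact abs_add_three _ _ _
    _ = |a 0 - 1| * |dt X X'| + |a 1| * |dt X Y' + dt Y X'| + |a 2 - 1| * |dt Y Y'| := by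
        rw [abs_mul, abs_mul, abs_mul]
    _ ≤ δ * (x * x') + δ * (x * y' + y * x') + δ * (y * y') := by
        have a1 : |dt X Y' + dt Y X'| ≤ x * y' + y * x' :=
          le_trans (abs_add_le _ _) (add_le_add d2 d3)
        have i1 := mul_le_mul h0 d1 (abs_nonneg _) hδ
        have i2 := mul_le_mul h1 a1 (abs_nonneg _) hδ
        have i3 := mul_le_mul h2 d4 (abs_nonneg _) hδ
        linarith
    _ = δ * (x * x' + (x * y' + y * x') + y * y') := by ring
    _ ≤ δ * (2 * (A * B)) := mul_le_mul_of_nonneg_left hAB hδ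
    _ = 2 * δ * (A * B) := by ring

/-! ### Same -/

theorem Same.refl' (a : Tup K n) : Same a a := ⟨Equiv.refl _, rfl⟩

theorem Same.symm' {a b : Tup K n} (h : Same a b) : Same b a := by
  obtain ⟨σ, rfl⟩ := h
  exact ⟨σ⁻¹, by funext i; simp⟩

theorem Same.trans' {a b c : Tup K n} (h : Same a b) (h' : Same b c) : Same a c := by
  obtain ⟨σ, rfl⟩ := h
  obtain ⟨τ, rfl⟩ := h'
  exact ⟨σ.trans τ, by funext i; simp⟩

theorem Same.mem {a b : Tup K n} (h : Same a b) (i : Fin K) : ∃ j, a i = b j := by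
  obtain ⟨σ, rfl⟩ := h
  exact ⟨σ i, rfl⟩

theorem sqd_nonneg (a b : Tup K n) : 0 ≤ sqd a b := Finset.sum_nonneg fun _ _ => sq_nonneg _

theorem E_norm_sq (v : E n) : ‖v‖ ^ 2 = ∑ l, v l ^ 2 := by
  rw [EuclideanSpace.norm_sq_eq]; simp

theorem sqd_eq_nsq (a b : Tup K n) : sqd a b = nsq (mt a - mt b) := by
  simp [sqd, nsq, mt, E_norm_sq]

/-! ### half discs -/

theorem HD_subset_HDc (q R : ℝ) : HD q R ⊆ HDc q R := fun _ h => ⟨h.1.le, h.2⟩

theorem isOpen_HD (q R : ℝ) : IsOpen (HD q R) := by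
  have h : HD q R = {z : ℂ | 0 < z.im} ∩ ball (q : ℂ) R := by
    ext z; simp [HD, dist_eq_norm]
  rw [h]
  exact (isOpen_lt continuous_const Complex.continuous_im).inter isOpen_ball

theorem HD_mono {q r s : ℝ} (h : r ≤ s) : HD q r ⊆ HD q s := fun _ hz => ⟨hz.1, hz.2.trans_le h⟩

theorem HD_sub {q r R : ℝ} (h : |q| + r ≤ R) : HD q r ⊆ HD 0 R := fun z hz => by
  refine ⟨hz.1, ?_⟩
  have h1 : ‖(q : ℂ)‖ = |q| := by simp
  calc ‖z - ((0 : ℝ) : ℂ)‖ = ‖(z - q) + q‖ := by simp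
    _ ≤ ‖z - q‖ + ‖(q : ℂ)‖ := norm_add_le _ _
    _ < r + |q| := by rw [h1]; linarith [hz.2]
    _ ≤ R := by linarith

theorem convex_HD (q R : ℝ) : Convex ℝ (HD q R) := by
  have h : HD q R = {z : ℂ | 0 < z.im} ∩ ball (q : ℂ) R := by
    ext z; simp [HD, dist_eq_norm]
  rw [h]
  exact (convex_halfSpace_im_gt 0).inter (convex_ball _ _)

theorem cm_sub (q ρ θ : ℝ) : cm q ρ θ - q = ρ * Complex.exp (θ * Complex.I) := by
  simp [cm]

theorem norm_cm_sub (q ρ θ : ℝ) : ‖cm q ρ θ - q‖ = |ρ| := by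
  rw [cm_sub, norm_mul, Complex.norm_exp_ofReal_mul_I]; simp

theorem cm_re (q ρ θ : ℝ) : (cm q ρ θ).re = q + ρ * Real.cos θ := by
  simp [cm, Complex.exp_ofReal_mul_I_re]

theorem cm_im (q ρ θ : ℝ) : (cm q ρ θ).im = ρ * Real.sin θ := by
  simp [cm, Complex.exp_ofReal_mul_I_im]

end Pool.Agent.DMB
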