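import Pool.Agent.DMB.PRI

/-!
Module BAR: a barrier argument.  A nonnegative function with weakly subharmonic logarithm which
vanishes on a boundary set of positive length vanishes on an open set.
-/

set_option autoImplicit false

namespace Pool.Agent.DMB

open MeasureTheory Set Metric Filter Topology
open scoped ENNReal

namespace BAR_

open PRI_

variable {Φ : ℂ → ℂ} {c1 : ℝ → ℂ} {R C : ℝ}

/-! ### integrals against the Laplacian of a test function -/

theorem lap_cont {ζ : ℂ → ℝ} (h : ContDiff ℝ (⊤ : ℕ∞) ζ) : Continuous (lap ζ) := by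
  have h1 : ContDiff ℝ (⊤ : ℕ∞) (fderiv ℝ ζ) := h.fderiv_right (by simp)
  have h2 : ∀ v : ℂ, ContDiff ℝ (⊤ : ℕ∞) (fun w => fderiv ℝ ζ w v) := fun v =>
    h1.clm_apply contDiff_const
  have h3 : ∀ v : ℂ, Continuous (fun z => fderiv ℝ (fun w => fderiv ℝ ζ w v) z v) := fun v =>
    ((h2 v).continuous_fderiv (by simp)).clm_apply continuous_const
  exact (h3 1).add (h3 Complex.I)

theorem lap_supp {ζ : ℂ → ℝ} {z : ℂ} (hz : z ∉ tsupport ζ) : lap ζ z = 0 := by
  have h1 : ζ =ᶠ[𝓝 z] 0 := notMem_tsupport_iff_eventuallyEq.mp hz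
  have h2 : ∀ v : ℂ, (fun w => fderiv ℝ ζ w v) =ᶠ[𝓝 z] 0 := fun v => by
    filter_upwards [h1.fderiv (𝕜 := ℝ)] with w hw
    rw [hw]; simp
  have h3 : ∀ v : ℂ, fderiv ℝ (fun w => fderiv ℝ ζ w v) z v = 0 := fun v => by
    rw [(h2 v).fderiv_eq]; simp
  rw [lap, h3, h3, add_zero]

theorem integrable_lap {U : Set ℂ} {g ζ : ℂ → ℝ} (hg : ContinuousOn g U) (hζ : TF U ζ) :
    Integrable (fun z => g z * lap ζ z) := by
  obtain ⟨h1, h2, h3⟩ := hζ
  have hc : ContinuousOn (fun z => g z * lap ζ z) (tsupport ζ) :=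
    (hg.mono h3).mul (lap_cont h1).continuousOn
  have h4 : IntegrableOn (fun z => g z * lap ζ z) (tsupport ζ) := hc.integrableOn_compact h2
  refine (integrableOn_iff_integrable_of_support_subset ?_).mp h4
  intro z hz
  by_contra hn
  exact hz (by simp [lap_supp hn])

/-! ### the rectangles -/

/-- infinite distance to the real set -/
noncomputable def dd (E2 : Set ℝ) (z : ℂ) : ℝ := infDist z (re' E2)

theorem dd_cont (E2 : Set ℝ) : Continuous (dd E2) := continuous_infDist_pt _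

/-- the open rectangle minus a neighbourhood -/
def Dr (E2 : Set ℝ) (q0 l δ : ℝ) : Set ℂ :=
  {z | 0 < z.im ∧ z.im < 2 * l ∧ |z.re - q0| < 3 * l ∧ δ < dd E2 z}

/-- the closed one -/
def Drc (E2 : Set ℝ) (q0 l δ : ℝ) : Set ℂ :=
  {z | 0 ≤ z.im ∧ z.im ≤ 2 * l ∧ |z.re - q0| ≤ 3 * l ∧ δ ≤ dd E2 z}

/-- closed rectangle -/
def Qc (q0 l : ℝ) : Set ℂ := {z | 0 ≤ z.im ∧ z.im ≤ 2 * l ∧ |z.re - q0| ≤ 3 * l}

theorem abs_cont (q0 : ℝ) : Continuous fun z : ℂ => |z.re - q0| :=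
  (Complex.continuous_re.sub continuous_const).abs

theorem Dr_open (E2 : Set ℝ) (q0 l δ : ℝ) : IsOpen (Dr E2 q0 l δ) := by
  have : Dr E2 q0 l δ = {z : ℂ | 0 < z.im} ∩ ({z : ℂ | z.im < 2 * l} ∩
      ({z : ℂ | |z.re - q0| < 3 * l} ∩ {z : ℂ | δ < dd E2 z})) := rfl
  rw [this]
  exact (isOpen_lt continuous_const Complex.continuous_im).inter
    ((isOpen_lt Complex.continuous_im continuous_const).inter
    ((isOpen_lt (abs_cont q0) continuous_const).inter (isOpen_lt continuous_const (dd_cont E2))))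

theorem Drc_closed (E2 : Set ℝ) (q0 l δ : ℝ) : IsClosed (Drc E2 q0 l δ) := by
  have : Drc E2 q0 l δ = {z : ℂ | 0 ≤ z.im} ∩ ({z : ℂ | z.im ≤ 2 * l} ∩
      ({z : ℂ | |z.re - q0| ≤ 3 * l} ∩ {z : ℂ | δ ≤ dd E2 z})) := rfl
  rw [this]
  exact (isClosed_le continuous_const Complex.continuous_im).inter
    ((isClosed_le Complex.continuous_im continuous_const).inter
    ((isClosed_le (abs_cont q0) continuous_const).inter
      (isClosed_le continuous_const (dd_cont E2))))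

theorem Qc_closed (q0 l : ℝ) : IsClosed (Qc q0 l) := by
  have : Qc q0 l = {z : ℂ | 0 ≤ z.im} ∩ ({z : ℂ | z.im ≤ 2 * l} ∩
      {z : ℂ | |z.re - q0| ≤ 3 * l}) := rfl
  rw [this]
  exact (isClosed_le continuous_const Complex.continuous_im).inter
    ((isClosed_le Complex.continuous_im continuous_const).inter
    (isClosed_le (abs_cont q0) continuous_const))

theorem Dr_closure (E2 : Set ℝ) (q0 l δ : ℝ) : closure (Dr E2 q0 l δ) ⊆ Drc E2 q0 l δ :=
  closure_minimal (fun _ h => ⟨h.1.le, h.2.1.le, h.2.2.1.le, h.2.2.2.le⟩) (Drc_closed E2 q0 l δ)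

theorem Qc_HDc {E1 : Set ℝ} {r0 q0 l : ℝ} {E2 : Set ℝ} (L : Loc R C E1 r0 q0 l E2) :
    Qc q0 l ⊆ HDc 0 R := fun _ h => mem_HDc L.R h.1 h.2.1 h.2.2

theorem Drc_Qc (E2 : Set ℝ) (q0 l δ : ℝ) : Drc E2 q0 l δ ⊆ Qc q0 l := fun _ h =>
  ⟨h.1, h.2.1, h.2.2.1⟩

theorem Qc_bdd {E1 : Set ℝ} {r0 q0 l : ℝ} {E2 : Set ℝ} (L : Loc R C E1 r0 q0 l E2) :
    Bornology.IsBounded (Qc q0 l) := by
  refine (Metric.isBounded_ball (x := (0 : ℂ)) (r := R)).subset ?_
  intro z hz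
  have := (Qc_HDc L hz).2
  simpa using this

theorem Qc_cpt {E1 : Set ℝ} {r0 q0 l : ℝ} {E2 : Set ℝ} (L : Loc R C E1 r0 q0 l E2) :
    IsCompact (Qc q0 l) := isCompact_of_isClosed_isBounded (Qc_closed q0 l) (Qc_bdd L)

theorem re_Qc {E1 : Set ℝ} {r0 q0 l : ℝ} {E2 : Set ℝ} (L : Loc R C E1 r0 q0 l E2) :
    re' E2 ⊆ Qc q0 l := by
  rintro _ ⟨t, ht, rfl⟩
  have h1 := L.near t ht
  have h2 := L.hl
  exact ⟨by simp, by simpa using h2.le, by simpa using h1.trans (by linarith)⟩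

/-- the main estimate -/
theorem main (hCAU : Stmt_CAU) (hFLP : Stmt_FLP) (hMAX : Stmt_MAX) (hHWK : Stmt_HWK)
    (h : HChart Φ c1 R C) {f : ℂ → ℝ} (hf0 : ∀ z, 0 ≤ f z)
    (hfc : ContinuousOn f (Φ '' HDc 0 R)) {E1 : Set ℝ} {r0 q0 l : ℝ} {E2 : Set ℝ}
    (hE1 : E1 ⊆ Ioo (-R) R) (L : Loc R C E1 r0 q0 l E2) (hf1 : ∀ x ∈ E1, f (Φ x) = 0)
    {M : ℝ} (hM1 : 1 ≤ M) (hM : ∀ z ∈ Qc q0 l, f (Φ z) ≤ M) {ε : ℝ} (hε : 0 < ε) (hε1 : ε ≤ 1)
    (hW : WSub (Φ '' HD 0 R) (fun z => Real.log (f z + ε)))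
    {z : ℂ} (hz : z ∈ Dr E2 q0 l 0) :
    Real.log (f (Φ z) + ε) ≤ Real.log (M + ε) -
      Real.log ((M + ε) / (2 * ε)) * ((CI c1 Φ E2 (Φ z)).im - 9 / 16) := by
  set A := Real.log ((M + ε) / (2 * ε)) with hA
  have hA0 : 0 ≤ A := by
    apply Real.log_nonneg
    rw [le_div_iff₀ (by positivity)]; linarith
  have hAeq : A = Real.log (M + ε) - Real.log (2 * ε) := by
    rw [hA, Real.log_div (by positivity) (by positivity)]
  -- choose `δ`
  have hcomp : ContinuousOn (fun z => f (Φ z)) (Qc q0 l) :=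
    hfc.comp ((cont h).mono (Qc_HDc L)) fun w hw => ⟨w, Qc_HDc L hw, rfl⟩
  have huc := (Qc_cpt L).uniformContinuousOn_of_continuous hcomp
  obtain ⟨δ', hδ', hδ1⟩ := Metric.uniformContinuousOn_iff.mp huc ε hε
  have hzd : 0 < dd E2 z := hz.2.2.2
  obtain ⟨δ, hδ0, hδa, hδb⟩ : ∃ δ > 0, δ < δ' ∧ δ < dd E2 z := by
    refine ⟨min δ' (dd E2 z) / 2, by have := lt_min hδ' hzd; positivity, ?_, ?_⟩
    · have := min_le_left δ' (dd E2 z); have h2 := lt_min hδ' hzd; linarith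
    · have := min_le_right δ' (dd E2 z); have h2 := lt_min hδ' hzd; linarith
  have hcptE : IsCompact (re' E2) := L.cpt.image Complex.continuous_ofReal
  have hneE : (re' E2).Nonempty := ⟨_, q0, L.hq, rfl⟩
  have hsmall : ∀ z ∈ Qc q0 l, dd E2 z ≤ δ → f (Φ z) ≤ ε := by
    intro w hw hwd
    obtain ⟨v, hv, hvd⟩ := hcptE.exists_infDist_eq_dist hneE w
    have h1 : dist w v < δ' := by
      rw [← hvd]; exact lt_of_le_of_lt hwd hδa
    have h2 := hδ1 w hw v (re_Qc L hv) h1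
    obtain ⟨t, ht, rfl⟩ := hv
    simp only [hf1 t (L.sub ht), Real.dist_eq, sub_zero] at h2
    exact (le_abs_self _).trans h2.le
  -- geometry
  have hQ := Qc_HDc L
  have hDHD : Dr E2 q0 l δ ⊆ HD 0 R := fun w hw =>
    ⟨hw.1, (hQ (Drc_Qc E2 q0 l δ (Dr_closure E2 q0 l δ (subset_closure hw)))).2⟩
  have hcl : closure (Dr E2 q0 l δ) ⊆ HDc 0 R := fun w hw =>
    hQ (Drc_Qc E2 q0 l δ (Dr_closure E2 q0 l δ hw))
  have hbdd : Bornology.IsBounded (Dr E2 q0 l δ) := (Qc_bdd L).subset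
    fun w hw => Drc_Qc E2 q0 l δ (Dr_closure E2 q0 l δ (subset_closure hw))
  have hopen : IsOpen (Φ '' Dr E2 q0 l δ) := h.opn _ hDHD (Dr_open E2 q0 l δ)
  have hnE : ∀ w, δ ≤ dd E2 w → w ∉ re' E2 := by
    intro w hw hwE
    have : dd E2 w = 0 := infDist_zero_of_mem hwE
    linarith
  have hbim : Bornology.IsBounded (Φ '' Dr E2 q0 l δ) := by
    have hcpt : IsCompact (closure (Dr E2 q0 l δ)) := hbdd.isCompact_closure
    exact (hcpt.image_of_continuousOn ((cont h).mono hcl)).isBounded.subset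
      (image_mono subset_closure)
  -- the two functions
  set w1 : ℂ → ℝ := fun w => Real.log (f w + ε) with hw1
  set w2 : ℂ → ℝ := fun w => Real.log (M + ε) - A * ((CI c1 Φ E2 w).im - 9 / 16) with hw2
  have hc1 : ContinuousOn w1 (Φ '' HDc 0 R) :=
    (hfc.add continuousOn_const).log fun w _ => by
      have h1 := hf0 w
      have h2 : 0 < f w + ε := by linarith
      exact h2.ne'
  have hP : ∀ w ∈ closure (Dr E2 q0 l δ), DifferentiableAt ℂ (CI c1 Φ E2) (Φ w) := fun w hw =>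
    P_cont hCAU h hE1 L (hcl hw) (hnE w (Dr_closure E2 q0 l δ hw).2.2.2)
  have hc2 : ∀ w ∈ closure (Dr E2 q0 l δ), ContinuousAt w2 (Φ w) := by
    intro w hw
    have h1 : ContinuousAt (fun w => (CI c1 Φ E2 w).im) (Φ w) :=
      Complex.continuous_im.continuousAt.comp (hP w hw).continuousAt
    exact continuousAt_const.sub (continuousAt_const.mul (h1.sub continuousAt_const))
  have hcon : ContinuousOn (fun w => w1 w - w2 w) (closure (Φ '' Dr E2 q0 l δ)) := by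
    intro w hw
    obtain ⟨v, hv, rfl⟩ := closure_image h hcl hbdd hw
    refine ContinuousWithinAt.sub ?_ (hc2 v hv).continuousWithinAt
    refine (hc1 (Φ v) ⟨v, hcl hv, rfl⟩).mono ?_
    exact (closure_image h hcl hbdd).trans (image_mono hcl)
  have hharm : ∀ w ∈ Φ '' Dr E2 q0 l δ, InnerProductSpace.HarmonicAt w2 w := by
    rintro w ⟨v, hv, rfl⟩
    have hn : v ∉ re' E2 := hnE v hv.2.2.2.le
    have ho : IsOpen (Φ '' re' E2)ᶜ := (closed_im h L).isOpen_compl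
    have hm := not_mem_im h L (hcl (subset_closure hv)) hn
    have ha : AnalyticAt ℂ (CI c1 Φ E2) (Φ v) :=
      (P_diff hCAU h hE1 L).analyticAt (ho.mem_nhds hm)
    have hb : AnalyticAt ℂ (fun w => Complex.I * ((Real.log (M + ε) + A * (9 / 16) : ℝ) : ℂ) -
        (A : ℂ) * CI c1 Φ E2 w) (Φ v) := by
      fun_prop
    have hc := hb.harmonicAt_im
    have heq : (fun w => (Complex.I * ((Real.log (M + ε) + A * (9 / 16) : ℝ) : ℂ) -
        (A : ℂ) * CI c1 Φ E2 w).im) = w2 := by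
      funext w
      simp only [hw2, Complex.sub_im, Complex.mul_im, Complex.I_re, Complex.I_im,
        Complex.ofReal_re, Complex.ofReal_im]
      ring
    rwa [heq] at hc
  have hws : WSub (Φ '' Dr E2 q0 l δ) (fun w => w1 w - w2 w) := by
    intro ζ hζ hζ0
    have hζ' : TF (Φ '' HD 0 R) ζ := ⟨hζ.1, hζ.2.1, hζ.2.2.trans (image_mono hDHD)⟩
    have i1 := hW ζ hζ' hζ0
    have i2 := hHWK (Φ '' Dr E2 q0 l δ) w2 hopen hharm ζ hζ
    have j1 : Integrable (fun z => w1 z * lap ζ z) :=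
      integrable_lap (hc1.mono (image_mono (hDHD.trans HD_subc))) hζ
    have j2 : Integrable (fun z => w2 z * lap ζ z) := by
      refine integrable_lap ?_ hζ
      rintro _ ⟨v, hv, rfl⟩
      exact (hc2 v (subset_closure hv)).continuousWithinAt
    have : ∫ z, (w1 z - w2 z) * lap ζ z = (∫ z, w1 z * lap ζ z) - ∫ z, w2 z * lap ζ z := by
      rw [← integral_sub j1 j2]
      congr 1; funext z; ring
    rw [this, i2, sub_zero]
    exact i1
  -- the frontier
  have hfr : ∀ w ∈ frontier (Φ '' Dr E2 q0 l δ), w1 w - w2 w ≤ 0 := by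
    intro w hw
    obtain ⟨v, ⟨hv1, hv2⟩, rfl⟩ := frontier_image h (Dr_open E2 q0 l δ) hDHD hcl hbdd hw
    have hvc := Dr_closure E2 q0 l δ hv1
    have hvQ := Drc_Qc E2 q0 l δ hvc
    have hvH := hQ hvQ
    have hn := hnE v hvc.2.2.2
    have hfM := hM v hvQ
    have hf0' := hf0 (Φ v)
    have hclose := (abs_le.mp (P_close hCAU h hE1 L hvH hn)).2
    have hfl := hFLP E2 L.cpt.measurableSet L.cpt.measure_lt_top
    have hl := L.hl
    have hvol := L.vol
    have hpi := Real.pi_gt_three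
    -- away from `E2`
    have caseA : (CI c1 Φ E2 (Φ v)).im ≤ 9 / 16 → w1 (Φ v) - w2 (Φ v) ≤ 0 := by
      intro hle
      have h1 : w1 (Φ v) ≤ Real.log (M + ε) := Real.log_le_log (by linarith) (by linarith)
      have h2 : A * ((CI c1 Φ E2 (Φ v)).im - 9 / 16) ≤ 0 :=
        mul_nonpos_of_nonneg_of_nonpos hA0 (by linarith)
      simp only [hw2]; linarith
    rcases hvc.1.lt_or_eq with him | him
    swap
    · apply caseA
      have : PI E2 v = 0 := by simp [PI, ← him]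
      linarith
    rcases hvc.2.1.lt_or_eq with him2 | him2
    swap
    · apply caseA
      have h1 := hfl.2.2.1 v him
      have h2 : (volume E2).toReal / (Real.pi * v.im) ≤ 1 / 2 := by
        rw [him2, div_le_iff₀ (by positivity)]
        nlinarith
      linarith
    rcases hvc.2.2.1.lt_or_eq with hre | hre
    swap
    · apply caseA
      have h1 := hfl.2.2.2.1 v (2 * l) (by linarith) (fun t ht => by
        have h1 := L.near t ht
        have h2 : |v.re - q0| ≤ |v.re - t| + |t - q0| := abs_sub_le _ _ _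
        linarith) hvc.1
      have h2 : (volume E2).toReal / (2 * Real.pi * (2 * l)) ≤ 1 / 2 := by
        rw [div_le_iff₀ (by positivity)]
        nlinarith
      linarith
    -- near `E2`
    have hdd : dd E2 v ≤ δ := by
      by_contra hcon
      exact hv2 ⟨him, him2, hre, not_le.mp hcon⟩
    have hfe := hsmall v hvQ hdd
    have hP2 := P_le hCAU hFLP h hE1 L hvH hn
    have h1 : w1 (Φ v) ≤ Real.log (2 * ε) := Real.log_le_log (by linarith) (by linarith)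
    have h2 : A * ((CI c1 Φ E2 (Φ v)).im - 9 / 16) ≤ A * 1 :=
      mul_le_mul_of_nonneg_left (by linarith) hA0
    simp only [hw2]; linarith
  have hfin := hMAX (Φ '' Dr E2 q0 l δ) (fun w => w1 w - w2 w) 0 hopen hbim hcon hws hfr (Φ z)
    ⟨z, ⟨hz.1, hz.2.1, hz.2.2.1, hδb⟩, rfl⟩
  simp only [hw1, hw2] at hfin
  linarith

end BAR_

open PRI_ BAR_ in
theorem bar_proof (hCAU : Stmt_CAU) (hFLP : Stmt_FLP) (hDEN : Stmt_DEN) (hMAX : Stmt_MAX)
    (hHWK : Stmt_HWK) : Stmt_BAR := by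
  intro Φ c1 R C h f hf0 hfc hW E1 hE hE1 hv hf1
  obtain ⟨q0, l, E2, L⟩ := exists_loc hDEN R C h.hC E1 1 one_pos hE hE1 hv
  have hl := L.hl
  have hSo : IsOpen (Dr E2 q0 l 0) := Dr_open E2 q0 l 0
  have hcptE : IsCompact (re' E2) := L.cpt.image Complex.continuous_ofReal
  have hneE : (re' E2).Nonempty := ⟨_, q0, L.hq, rfl⟩
  have hpos : ∀ z : ℂ, 0 < z.im → 0 < dd E2 z := by
    intro z hz
    refine (hcptE.isClosed.notMem_iff_infDist_pos hneE).mp ?_
    rw [mem_re']; rintro ⟨h, _⟩; exact hz.ne' h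
  have hSH : Dr E2 q0 l 0 ⊆ HD 0 R := fun w hw => ⟨hw.1, (Qc_HDc L
    ⟨hw.1.le, hw.2.1.le, hw.2.2.1.le⟩).2⟩
  obtain ⟨V, hVo, hVn, hVs, hV⟩ := exists_large hCAU hFLP h hE1 L (Dr E2 q0 l 0) hSo hSH
    ⟨2 * l, by linarith, fun y hy0 hy1 =>
      ⟨hy0, hy1, by simpa using hl, hpos _ hy0⟩⟩
  refine ⟨V, hVo, hVn, hVs.trans (image_mono hSH), fun w hw => ?_⟩
  obtain ⟨z, hz, rfl⟩ := hVs hw
  have hcomp : ContinuousOn (fun z => f (Φ z)) (Qc q0 l) :=
    hfc.comp ((cont h).mono (Qc_HDc L)) fun w hw => ⟨w, Qc_HDc L hw, rfl⟩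
  obtain ⟨M0, hM0⟩ := (Qc_cpt L).bddAbove_image hcomp
  obtain ⟨M, hM1, hM⟩ : ∃ M : ℝ, 1 ≤ M ∧ ∀ z ∈ Qc q0 l, f (Φ z) ≤ M :=
    ⟨max 1 M0, le_max_left _ _, fun z hz => (hM0 ⟨z, hz, rfl⟩).trans (le_max_right _ _)⟩
  by_contra hne
  have hfp : 0 < f (Φ z) := lt_of_le_of_ne (hf0 _) (Ne.symm hne)
  have hlim : Tendsto (fun ε : ℝ => Real.log (2 * ε)) (𝓝[>] 0) atBot := by
    refine Real.tendsto_log_nhdsGT_zero.comp ?_
    refine tendsto_nhdsWithin_iff.mpr ⟨?_, ?_⟩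
    · have : Tendsto (fun ε : ℝ => 2 * ε) (𝓝 0) (𝓝 (2 * 0)) := tendsto_id.const_mul 2
      rw [mul_zero] at this
      exact this.mono_left nhdsWithin_le_nhds
    · filter_upwards [self_mem_nhdsWithin] with ε hε
      have : (0 : ℝ) < ε := hε
      exact mul_pos two_pos this
  obtain ⟨ε, hε1, hε2⟩ := ((hlim.eventually_lt_atBot
    (4 * (Real.log (f (Φ z)) - Real.log (M + 1)) + 3 * 0)).and
    (Ioo_mem_nhdsGT (zero_lt_one' ℝ))).exists
  have hmain := main hCAU hFLP hMAX hHWK h hf0 hfc hE1 L hf1 hM1 hM hε2.1 hε2.2.le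
    (hW ε hε2.1) hz
  have hbig := hV _ hw
  have hA0 : 0 ≤ Real.log ((M + ε) / (2 * ε)) := by
    apply Real.log_nonneg
    rw [le_div_iff₀ (by have := hε2.1; positivity)]; linarith [hε2.2]
  have hAeq : Real.log ((M + ε) / (2 * ε)) = Real.log (M + ε) - Real.log (2 * ε) := by
    have := hε2.1
    rw [Real.log_div (by positivity) (by positivity)]
  have h1 : Real.log ((M + ε) / (2 * ε)) * (1 / 4) ≤
      Real.log ((M + ε) / (2 * ε)) * ((CI c1 Φ E2 (Φ z)).im - 9 / 16) :=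
    mul_le_mul_of_nonneg_left (by linarith) hA0
  have h2 : Real.log (f (Φ z)) ≤ Real.log (f (Φ z) + ε) :=
    Real.log_le_log hfp (by linarith [hε2.1])
  have h3 : Real.log (M + ε) ≤ Real.log (M + 1) :=
    Real.log_le_log (by linarith [hε2.1]) (by linarith [hε2.2])
  have h4 : 0 ≤ Real.log (M + 1) := Real.log_nonneg (by linarith)
  linarith

end Pool.Agent.DMB
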