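import Pool.Agent.DMB.Api

/-!
# Squad DMB (MP_71cfa6_an): module BIL
-/

set_option autoImplicit false

namespace Pool.Agent.DMB

open MeasureTheory Set Metric Filter Topology

open scoped ENNReal

theorem bil_proof : Stmt_BIL := by
  intro Φ c1 R C hΦ z ρ hρ hsub
  have hC : 0 < C := lt_of_lt_of_le one_pos hΦ.hC
  have hzm : z ∈ HDc 0 R := HD_subset_HDc _ _ (hsub (mem_closedBall_self hρ.le))
  have hcont : ContinuousOn Φ (closedBall z ρ) := by
    have h1 : LipschitzOnWith (Real.toNNReal C) Φ (closedBall z ρ) := by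
      refine LipschitzOnWith.of_dist_le_mul fun x hx y hy => ?_
      rw [dist_eq_norm, dist_eq_norm, Real.coe_toNNReal C hC.le]
      exact hΦ.lip x (HD_subset_HDc _ _ (hsub hx)) y (HD_subset_HDc _ _ (hsub hy))
    exact h1.continuousOn
  have hcomp : IsCompact (Φ '' closedBall z ρ) := (isCompact_closedBall z ρ).image_of_continuousOn hcont
  have hopen : IsOpen (Φ '' ball z ρ) :=
    hΦ.opn _ (ball_subset_closedBall.trans hsub) isOpen_ball
  have hpre : IsPreconnected (ball (Φ z) (ρ / C)) := (convex_ball _ _).isPreconnected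
  refine hpre.subset_of_closure_inter_subset hopen ?_ ?_
  · exact ⟨Φ z, mem_ball_self (by positivity), mem_image_of_mem _ (mem_ball_self hρ)⟩
  · rintro w ⟨hw1, hw2⟩
    have h1 : closure (Φ '' ball z ρ) ⊆ Φ '' closedBall z ρ :=
      closure_minimal (image_mono ball_subset_closedBall) hcomp.isClosed
    obtain ⟨z', hz', rfl⟩ := h1 hw1
    refine ⟨z', ?_, rfl⟩
    rw [mem_ball, dist_eq_norm] at hw2 ⊢
    have h2 := hΦ.alip z' (HD_subset_HDc _ _ (hsub hz')) z hzm
    have h3 : C * ‖Φ z' - Φ z‖ < C * (ρ / C) := mul_lt_mul_of_pos_left hw2 hC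
    rw [mul_div_cancel₀ _ hC.ne'] at h3
    linarith

end Pool.Agent.DMB
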