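import Pool.Agent.DMB.Api

set_option autoImplicit false

namespace Pool.Agent.DMB

open MeasureTheory Set Metric Filter Topology
open scoped ENNReal

namespace CAT_

/-- the block permutation -/
def blk {K L : ℕ} (s : Equiv.Perm (Fin K)) (t : Equiv.Perm (Fin L)) : Equiv.Perm (Fin (K + L)) :=
  finSumFinEquiv.symm.trans ((Equiv.Perm.sumCongr s t).trans finSumFinEquiv)

theorem append_blk {K L n : ℕ} (a : Tup K n) (b : Tup L n) (s : Equiv.Perm (Fin K))
    (t : Equiv.Perm (Fin L)) :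
    (Fin.append a b) ∘ (blk s t) = Fin.append (a ∘ s) (b ∘ t) := by
  funext i
  refine Fin.addCases (fun i => ?_) (fun i => ?_) i
  · simp [blk, Fin.append_left]
  · simp [blk, Fin.append_right]

theorem sqd_append {K L n : ℕ} (a a' : Tup K n) (b b' : Tup L n) :
    sqd (Fin.append a b) (Fin.append a' b') = sqd a a' + sqd b b' := by
  unfold sqd
  rw [Fin.sum_univ_add]
  simp [Fin.append_left, Fin.append_right]

theorem sqd_nonneg {K n : ℕ} (a b : Tup K n) : 0 ≤ sqd a b :=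
  Finset.sum_nonneg fun _ _ => sq_nonneg _

theorem norm_lt_of {K n : ℕ} (a b : Tup K n) (δ : ℝ) (h : Real.sqrt (sqd a b) < δ) (i : Fin K) :
    ‖a i - b i‖ < δ := by
  refine lt_of_le_of_lt ?_ h
  apply Real.le_sqrt_of_sq_le
  exact Finset.single_le_sum (f := fun i => ‖a i - b i‖ ^ 2) (fun _ _ => sq_nonneg _)
    (Finset.mem_univ i)

end CAT_

open CAT_ in
theorem cat_proof (hMET : Stmt_MET) (hXIL : Stmt_XIL) (hISO : Stmt_ISO) : Stmt_CAT := by
  intro K L n a b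
  constructor
  · intro a' b'
    obtain ⟨-, -, -, -, ⟨s, hs⟩, -, -⟩ := hMET K n a a' a'
    obtain ⟨-, -, -, -, ⟨t, ht⟩, -, -⟩ := hMET L n b b' b'
    obtain ⟨h0, -, -, -, -, hle, -⟩ := hMET (K + L) n (Fin.append a b) (Fin.append a' b')
      (Fin.append a' b')
    have h1 := hle (blk s t)
    rw [append_blk, sqd_append] at h1
    calc dG (Fin.append a b) (Fin.append a' b') ^ 2
        ≤ Real.sqrt (sqd a (a' ∘ s) + sqd b (b' ∘ t)) ^ 2 := pow_le_pow_left₀ h0 h1 2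
      _ = sqd a (a' ∘ s) + sqd b (b' ∘ t) :=
          Real.sq_sqrt (add_nonneg (sqd_nonneg _ _) (sqd_nonneg _ _))
      _ = dG a a' ^ 2 + dG b b' ^ 2 := by
          rw [hs, ht, Real.sq_sqrt (sqd_nonneg _ _), Real.sq_sqrt (sqd_nonneg _ _)]
  · obtain ⟨δ0, hδ0, H0⟩ := hISO (K + L) n (Fin.append a b)
    obtain ⟨δ1, hδ1, H1⟩ := hISO K n a
    obtain ⟨δ2, hδ2, H2⟩ := hISO L n b
    refine ⟨min δ0 (min δ1 δ2), lt_min hδ0 (lt_min hδ1 hδ2), ?_⟩
    intro a' b' ha hb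
    obtain ⟨-, -, -, -, ⟨s, hs⟩, -, hSa⟩ := hMET K n a a' a'
    obtain ⟨-, -, -, -, ⟨t, ht⟩, -, hSb⟩ := hMET L n b b' b'
    have ha1 : ∀ i, ‖a i - (a' ∘ s) i‖ < min δ0 (min δ1 δ2) := by
      intro i
      rw [hs] at ha
      exact norm_lt_of _ _ _ ha i
    have hb1 : ∀ i, ‖b i - (b' ∘ t) i‖ < min δ0 (min δ1 δ2) := by
      intro i
      rw [ht] at hb
      exact norm_lt_of _ _ _ hb i
    have hc1 : ∀ i, ‖Fin.append a b i - (Fin.append (a' ∘ s) (b' ∘ t)) i‖ < δ0 := by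
      intro i
      refine Fin.addCases (fun i => ?_) (fun i => ?_) i
      · rw [Fin.append_left, Fin.append_left]
        exact lt_of_lt_of_le (ha1 i) (min_le_left _ _)
      · rw [Fin.append_right, Fin.append_right]
        exact lt_of_lt_of_le (hb1 i) (min_le_left _ _)
    have Sa : Same (a' ∘ s) a' := ⟨s, rfl⟩
    have Sb : Same (b' ∘ t) b' := ⟨t, rfl⟩
    have Sc : Same (Fin.append (a' ∘ s) (b' ∘ t)) (Fin.append a' b') :=
      ⟨blk s t, (append_blk a' b' s t).symm⟩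
    have Xa : xi (a' ∘ s) = xi a' := (hXIL K n _ _).2.1 Sa
    have Xb : xi (b' ∘ t) = xi b' := (hXIL L n _ _).2.1 Sb
    have Xc : xi (Fin.append (a' ∘ s) (b' ∘ t)) = xi (Fin.append a' b') :=
      (hXIL (K + L) n _ _).2.1 Sc
    have rfl' : ∀ {K : ℕ} (x : Tup K n), Same x x := fun x => ⟨1, rfl⟩
    have Gc : dG (Fin.append a b) (Fin.append (a' ∘ s) (b' ∘ t)) =
        dG (Fin.append a b) (Fin.append a' b') := by
      obtain ⟨-, -, -, -, -, -, h⟩ := hMET (K + L) n (Fin.append a b)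
        (Fin.append (a' ∘ s) (b' ∘ t)) (Fin.append a b)
      exact h _ _ (rfl' _) Sc
    have Ga : dG a (a' ∘ s) = dG a a' := by
      obtain ⟨-, -, -, -, -, -, h⟩ := hMET K n a (a' ∘ s) a
      exact h _ _ (rfl' _) Sa
    have Gb : dG b (b' ∘ t) = dG b b' := by
      obtain ⟨-, -, -, -, -, -, h⟩ := hMET L n b (b' ∘ t) b
      exact h _ _ (rfl' _) Sb
    obtain ⟨c1, c2⟩ := (H0 _).1 hc1
    obtain ⟨a1, a2⟩ := (H1 (a' ∘ s)).1 (fun i => lt_of_lt_of_le (ha1 i)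
      ((min_le_right _ _).trans (min_le_left _ _)))
    obtain ⟨b1, b2⟩ := (H2 (b' ∘ t)).1 (fun i => lt_of_lt_of_le (hb1 i)
      ((min_le_right _ _).trans (min_le_right _ _)))
    rw [Xc] at c1
    rw [Gc] at c2
    rw [Xa] at a1
    rw [Ga] at a2
    rw [Xb] at b1
    rw [Gb] at b2
    rw [sqd_append] at c1 c2
    exact ⟨by rw [c1, a1, b1], by rw [c2, a2, b2]⟩

end Pool.Agent.DMB
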