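import Pool.Agent.DMB.Api

/-!
Module CAU: Cauchy integrals along a chart.
-/

namespace Pool.Agent.DMB

open MeasureTheory Set Metric Filter Topology
open scoped ENNReal

namespace CAU_

theorem mem_HDc {R : ℝ} {E1 : Set ℝ} (hE : E1 ⊆ Ioo (-R) R) {t : ℝ} (ht : t ∈ E1) :
    (t : ℂ) ∈ HDc 0 R := by
  have := hE ht
  refine ⟨by simp, ?_⟩
  simp only [Complex.ofReal_zero, sub_zero, Complex.norm_real, Real.norm_eq_abs]
  exact abs_lt.mpr this

theorem contPhi {Φ : ℂ → ℂ} {c1 : ℝ → ℂ} {R C : ℝ} (h : HChart Φ c1 R C) {E1 : Set ℝ}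
    (hE : E1 ⊆ Ioo (-R) R) : ContinuousOn (fun t : ℝ => Φ (t : ℂ)) E1 := by
  have hC : 0 ≤ C := le_trans zero_le_one h.hC
  have hL : LipschitzOnWith ⟨C, hC⟩ (fun t : ℝ => Φ (t : ℂ)) E1 := by
    apply LipschitzOnWith.of_dist_le_mul
    intro x hx y hy
    have := h.lip _ (mem_HDc hE hx) _ (mem_HDc hE hy)
    rw [dist_eq_norm, dist_eq_norm]
    rw [← Complex.ofReal_sub, Complex.norm_real] at this
    exact this
  exact hL.continuousOn

theorem inv_im (z : ℂ) (t : ℝ) : (1 / ((t : ℂ) - z)).im = z.im / ((z.re - t) ^ 2 + z.im ^ 2) := by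
  rw [one_div, Complex.inv_im, Complex.normSq_apply]
  simp only [Complex.sub_re, Complex.ofReal_re, Complex.sub_im, Complex.ofReal_im, zero_sub,
    neg_neg]
  congr 1
  ring

theorem int_im {f : ℝ → ℂ} {E1 : Set ℝ} (hf : IntegrableOn f E1) :
    (∫ t in E1, f t).im = ∫ t in E1, (f t).im := by
  have := integral_im (μ := volume.restrict E1) hf
  exact this.symm

theorem cont_div {f g : ℝ → ℂ} {E1 : Set ℝ} (hf : ContinuousOn f E1) (hg : ContinuousOn g E1)
    (h : ∀ t ∈ E1, g t ≠ 0) : ContinuousOn (fun t => f t / g t) E1 := ContinuousOn.div hf hg h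

theorem cont_sub {f : ℝ → ℂ} {E1 : Set ℝ} (hf : ContinuousOn f E1) (w : ℂ) :
    ContinuousOn (fun t => f t - w) E1 := ContinuousOn.sub hf continuousOn_const

theorem der (a b w : ℂ) (h : b - w ≠ 0) :
    HasDerivAt (fun w : ℂ => a / (b - w)) (a / (b - w) ^ 2) w := by
  have hd : HasDerivAt (fun w : ℂ => b - w) (-1) w := by
    simpa using (hasDerivAt_id w).const_sub b
  have h2 := (hd.inv h).const_mul a
  have h3 : a * (-(-1) / (b - w) ^ 2) = a / (b - w) ^ 2 := by ring
  rw [h3] at h2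
  have h4 : (fun w : ℂ => a / (b - w)) = fun w => a * (fun w : ℂ => b - w)⁻¹ w := by
    funext x
    simp [div_eq_mul_inv]
  rw [h4]
  exact h2

end CAU_

open CAU_ in
theorem cau_proof : Stmt_CAU := by
  intro Φ c1 R C h E1 hK hE
  have hC1 : 1 ≤ C := h.hC
  have hΦ := contPhi h hE
  have hc : ContinuousOn c1 E1 := h.c1c.mono hE
  have hmeas : MeasurableSet E1 := hK.measurableSet
  constructor
  · intro w0 hw0
    apply DifferentiableAt.differentiableWithinAt
    have hKc : IsCompact (Φ '' ((fun t : ℝ => (t : ℂ)) '' E1)) := by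
      rw [image_image]
      exact hK.image_of_continuousOn hΦ
    have hop : IsOpen (Φ '' ((fun t : ℝ => (t : ℂ)) '' E1))ᶜ := hKc.isClosed.isOpen_compl
    obtain ⟨ε, hε, hball⟩ := Metric.isOpen_iff.mp hop w0 hw0
    obtain ⟨M, hM⟩ := hK.exists_bound_of_continuousOn hc
    have hlow : ∀ t ∈ E1, ∀ w ∈ ball w0 (ε / 2), ε / 2 ≤ ‖Φ (t : ℂ) - w‖ := by
      intro t ht w hw
      have h1 : ε ≤ ‖Φ (t : ℂ) - w0‖ := by
        by_contra hcon
        push Not at hcon
        have : Φ (t : ℂ) ∈ ball w0 ε := by rw [mem_ball, dist_eq_norm]; exact hcon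
        exact hball this ⟨_, ⟨t, ht, rfl⟩, rfl⟩
      rw [mem_ball, dist_eq_norm] at hw
      have h2 : ‖Φ (t : ℂ) - w0‖ ≤ ‖Φ (t : ℂ) - w‖ + ‖w - w0‖ :=
        norm_sub_le_norm_sub_add_norm_sub _ _ _
      linarith
    have hne : ∀ t ∈ E1, ∀ w ∈ ball w0 (ε / 2), Φ (t : ℂ) - w ≠ 0 := by
      intro t ht w hw h0
      have := hlow t ht w hw
      rw [h0, norm_zero] at this
      linarith
    have hself : w0 ∈ ball w0 (ε / 2) := mem_ball_self (by linarith)
    have hcont : ∀ w ∈ ball w0 (ε / 2), ContinuousOn (fun t : ℝ => c1 t / (Φ t - w)) E1 := by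
      intro w hw
      exact cont_div hc (cont_sub hΦ w) fun t ht => hne t ht w hw
    have hcont' : ContinuousOn (fun t : ℝ => c1 t / (Φ t - w0) ^ 2) E1 := by
      exact cont_div hc ((cont_sub hΦ w0).pow 2) fun t ht => pow_ne_zero 2 (hne t ht w0 hself)
    have key := hasDerivAt_integral_of_dominated_loc_of_deriv_le (μ := volume.restrict E1)
      (F := fun (w : ℂ) (t : ℝ) => c1 t / (Φ t - w)) (x₀ := w0) (s := ball w0 (ε / 2))
      (bound := fun _ => M / (ε / 2) ^ 2)
      (F' := fun (w : ℂ) (t : ℝ) => c1 t / (Φ t - w) ^ 2)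
      (ball_mem_nhds _ (by linarith))
      (by
        filter_upwards [ball_mem_nhds w0 (show 0 < ε / 2 by linarith)] with w hw
        exact (hcont w hw).aestronglyMeasurable hmeas)
      ((hcont w0 hself).integrableOn_compact hK)
      (hcont'.aestronglyMeasurable hmeas)
      (by
        rw [ae_restrict_iff' hmeas]
        refine Eventually.of_forall fun t ht w hw => ?_
        have h1 := hlow t ht w hw
        have h2 := hM t ht
        rw [norm_div, norm_pow]
        have h3 : (ε / 2) ^ 2 ≤ ‖Φ (t : ℂ) - w‖ ^ 2 := by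
          apply pow_le_pow_left₀ (by linarith) h1
        exact div_le_div₀ (le_trans (norm_nonneg _) h2) h2 (by positivity) h3)
      (by
        have : IsFiniteMeasure (volume.restrict E1) := ⟨by
          rw [Measure.restrict_apply_univ]; exact hK.measure_lt_top⟩
        exact integrable_const _)
      (by
        rw [ae_restrict_iff' hmeas]
        refine Eventually.of_forall fun t ht w hw => ?_
        exact der _ _ _ (hne t ht w hw))
    have := (key.2.differentiableAt.const_mul (1 / (Real.pi : ℂ)))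
    exact this
  · intro z hz hzE
    have hC0 : 0 < C := by linarith
    have hne : ∀ t ∈ E1, (t : ℂ) - z ≠ 0 := by
      intro t ht h0
      exact hzE ⟨t, ht, sub_eq_zero.mp h0⟩
    have hpos : ∀ t ∈ E1, 0 < ‖(t : ℂ) - z‖ := fun t ht => norm_pos_iff.mpr (hne t ht)
    have hlow : ∀ t ∈ E1, ‖(t : ℂ) - z‖ ≤ C * ‖Φ (t : ℂ) - Φ z‖ := fun t ht =>
      h.alip _ (mem_HDc hE ht) _ hz
    have hneΦ : ∀ t ∈ E1, Φ (t : ℂ) - Φ z ≠ 0 := by
      intro t ht h0
      have h1 := hlow t ht
      rw [h0, norm_zero, mul_zero] at h1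
      linarith [hpos t ht]
    have hi1 : IntegrableOn (fun t : ℝ => c1 t / (Φ t - Φ z)) E1 :=
      (cont_div hc (cont_sub hΦ _) hneΦ).integrableOn_compact hK
    have hi2 : IntegrableOn (fun t : ℝ => 1 / ((t : ℂ) - z)) E1 :=
      (cont_div continuousOn_const (cont_sub Complex.continuous_ofReal.continuousOn _)
        hne).integrableOn_compact hK
    have hPI : PI E1 z = (1 / Real.pi) * (∫ t in E1, 1 / ((t : ℂ) - z)).im := by
      rw [PI, int_im hi2]
      congr 1
      apply integral_congr_ae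
      refine Eventually.of_forall fun t => ?_
      exact (inv_im z t).symm
    have hCI : (CI c1 Φ E1 (Φ z)).im = (1 / Real.pi) * (∫ t in E1, c1 t / (Φ t - Φ z)).im := by
      rw [CI]
      have : (1 / (Real.pi : ℂ)) = ((1 / Real.pi : ℝ) : ℂ) := by push_cast; rfl
      rw [this, Complex.im_ofReal_mul]
    have hb : ‖∫ t in E1, (c1 t / (Φ t - Φ z) - 1 / ((t : ℂ) - z))‖ ≤
        C ^ 2 * (volume E1).toReal := by
      apply norm_setIntegral_le_of_norm_le_const hK.measure_lt_top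
      intro t ht
      have e : c1 t / (Φ t - Φ z) - 1 / ((t : ℂ) - z) =
          (Φ z - Φ t - c1 t * (z - t)) / ((Φ t - Φ z) * ((t : ℂ) - z)) := by
        rw [div_sub_div _ _ (hneΦ t ht) (hne t ht)]
        congr 1
        ring
      rw [e, norm_div, norm_mul, div_le_iff₀ (mul_pos (norm_pos_iff.mpr (hneΦ t ht)) (hpos t ht))]
      have h1 := h.ker t (abs_lt.mpr (hE ht)) z hz
      have h2 := hlow t ht
      have h3 : ‖z - t‖ = ‖(t : ℂ) - z‖ := norm_sub_rev _ _
      rw [h3] at h1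
      have h4 := hpos t ht
      calc ‖Φ z - Φ t - c1 t * (z - t)‖ ≤ C * ‖(t : ℂ) - z‖ ^ 2 := h1
        _ = C * (‖(t : ℂ) - z‖ * ‖(t : ℂ) - z‖) := by ring
        _ ≤ C * ((C * ‖Φ (t : ℂ) - Φ z‖) * ‖(t : ℂ) - z‖) := by gcongr
        _ = C ^ 2 * (‖Φ (t : ℂ) - Φ z‖ * ‖(t : ℂ) - z‖) := by ring
    rw [integral_sub hi1 hi2] at hb
    rw [hCI, hPI, ← mul_sub, ← Complex.sub_im, abs_mul]
    have hpi : |1 / Real.pi| ≤ 1 := by
      rw [abs_of_pos (by positivity), div_le_one Real.pi_pos]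
      linarith [Real.pi_gt_three]
    have h5 := le_trans (Complex.abs_im_le_norm _) hb
    calc _ ≤ 1 * (C ^ 2 * (volume E1).toReal) := by
          apply mul_le_mul hpi h5 (abs_nonneg _) zero_le_one
      _ = _ := one_mul _

end Pool.Agent.DMB
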