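import Pool.Agent.DMB.Api

/-!
Module CHA: local parametrisation of the interface.
-/

namespace Pool.Agent.DMB

open MeasureTheory Set Metric Filter Topology
open scoped ENNReal

namespace CHA_

/-- multiplication by a non-zero complex number as a real linear equivalence -/
noncomputable def mulE (w : ℂ) (hw : w ≠ 0) : ℂ ≃L[ℝ] ℂ :=
  (ContinuousLinearEquiv.unitsEquivAut ℂ (Units.mk0 w hw)).restrictScalars ℝ

theorem mulE_apply (w : ℂ) (hw : w ≠ 0) (z : ℂ) : mulE w hw z = z * w := rfl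

theorem clm_apply (L : ℂ →L[ℝ] ℝ) (z : ℂ) : L z = z.re * L 1 + z.im * L Complex.I := by
  conv_lhs => rw [← Complex.re_add_im z]
  have h1 : ((z.re : ℂ)) = z.re • (1 : ℂ) := by simp
  have h2 : (z.im : ℂ) * Complex.I = z.im • Complex.I := by simp
  rw [h1, h2, map_add, map_smul, map_smul, smul_eq_mul, smul_eq_mul]

/-- the auxiliary map -/
noncomputable def Psi (f : ℂ → ℝ) (w : ℂ) (z : ℂ) : ℂ := ((z * w).re : ℂ) + (f z : ℂ) * Complex.I

theorem hasFDerivAt_Psi {f : ℂ → ℝ} {p : ℂ} (hf : DifferentiableAt ℝ f p) (w : ℂ) (hw : w ≠ 0)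
    (hL : ∀ z, fderiv ℝ f p z = (z * w).im) :
    HasFDerivAt (Psi f w) ((mulE w hw : ℂ ≃L[ℝ] ℂ) : ℂ →L[ℝ] ℂ) p := by
  have h1 : HasFDerivAt (fun z : ℂ => (((z * w).re : ℝ) : ℂ))
      (Complex.ofRealCLM.comp (Complex.reCLM.comp ((mulE w hw : ℂ ≃L[ℝ] ℂ) : ℂ →L[ℝ] ℂ))) p :=
    (Complex.ofRealCLM.comp (Complex.reCLM.comp
      ((mulE w hw : ℂ ≃L[ℝ] ℂ) : ℂ →L[ℝ] ℂ))).hasFDerivAt
  have h2 : HasFDerivAt (fun z : ℂ => ((f z : ℝ) : ℂ)) (Complex.ofRealCLM.comp (fderiv ℝ f p)) p :=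
    Complex.ofRealCLM.hasFDerivAt.comp p hf.hasFDerivAt
  have h3 := h1.add (h2.mul_const Complex.I)
  refine h3.congr_fderiv ?_
  ext z
  simp only [_root_.add_apply, _root_.smul_apply,
    ContinuousLinearMap.comp_apply, ContinuousLinearEquiv.coe_coe, mulE_apply, hL,
    Complex.ofRealCLM_apply, Complex.reCLM_apply, smul_eq_mul]
  apply Complex.ext <;> simp

end CHA_

open CHA_ in
theorem cha_proof : Stmt_CHA := by
  intro U f p hU hp hf hfp hdf
  have hfa : ContDiffAt ℝ 3 f p := hf.contDiffAt (hU.mem_nhds hp)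
  set L := fderiv ℝ f p with hLdef
  set w : ℂ := ⟨L Complex.I, L 1⟩ with hwdef
  have hL : ∀ z, L z = (z * w).im := by
    intro z
    rw [clm_apply L z, Complex.mul_im]
  have hw : w ≠ 0 := by
    intro h
    apply hdf
    ext z
    rw [hL, h]; simp
  have hdiff : DifferentiableAt ℝ f p := hfa.differentiableAt (by norm_num)
  have hF := hasFDerivAt_Psi hdiff w hw hL
  have hPs : ContDiffAt ℝ 3 (Psi f w) p := by
    unfold Psi
    refine ContDiffAt.add ?_ ?_
    · exact (Complex.ofRealCLM.comp (Complex.reCLM.comp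
        ((mulE w hw : ℂ ≃L[ℝ] ℂ) : ℂ →L[ℝ] ℂ))).contDiff.contDiffAt
    · exact (Complex.ofRealCLM.contDiff.contDiffAt.comp p hfa).mul contDiffAt_const
  have h3 : (3 : WithTop ℕ∞) ≠ 0 := by norm_num
  set g := hPs.localInverse hF h3 with hg
  have hgp : g (Psi f w p) = p := hPs.localInverse_apply_image hF h3
  have hgc : ContDiffAt ℝ 3 g (Psi f w p) := hPs.to_localInverse hF h3
  have hri : ∀ᶠ y in 𝓝 (Psi f w p), Psi f w (g y) = y :=
    (hPs.hasStrictFDerivAt' hF h3).eventually_right_inverse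
  set c : ℝ → ℂ := fun t => g (Psi f w p + (t : ℂ)) with hc
  have hin : ContDiff ℝ 3 (fun t : ℝ => Psi f w p + (t : ℂ)) :=
    contDiff_const.add Complex.ofRealCLM.contDiff
  have hc0 : c 0 = p := by simp [hc, hgp]
  have hcc : ContDiffAt ℝ 3 c 0 := by
    refine ContDiffAt.comp (0 : ℝ) ?_ hin.contDiffAt
    rw [Complex.ofReal_zero, add_zero]
    exact hgc
  have htd : Tendsto (fun t : ℝ => Psi f w p + (t : ℂ)) (𝓝 0) (𝓝 (Psi f w p)) := by
    have := hin.continuous.tendsto 0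
    simpa using this
  have e1 : ∀ᶠ t : ℝ in 𝓝 0, Psi f w (c t) = Psi f w p + (t : ℂ) := htd.eventually hri
  have e2 : ∀ᶠ t : ℝ in 𝓝 0, ∀ᶠ s : ℝ in 𝓝 t, Psi f w (c s) = Psi f w p + (s : ℂ) :=
    e1.eventually_nhds
  have e3 : ∀ᶠ t : ℝ in 𝓝 0, ContDiffAt ℝ 3 c t := hcc.eventually (by simp)
  have e4 : ∀ᶠ t : ℝ in 𝓝 0, c t ∈ U := by
    have : Tendsto c (𝓝 0) (𝓝 p) := by
      have := hcc.continuousAt.tendsto
      rwa [hc0] at this
    exact this.eventually (hU.mem_nhds hp)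
  have key : ∀ t : ℝ, ContDiffAt ℝ 3 c t → (∀ᶠ s : ℝ in 𝓝 t, Psi f w (c s) = Psi f w p + (s : ℂ)) →
      (deriv c t * w).re = 1 := by
    intro t h1 h2
    have hd : HasDerivAt c (deriv c t) t := (h1.differentiableAt (by norm_num)).hasDerivAt
    have hd2 : HasDerivAt (fun s => (c s * w).re) ((deriv c t * w).re) t := by
      have := (Complex.reCLM.hasFDerivAt (x := c t * w)).comp_hasDerivAt t (hd.mul_const w)
      exact this
    have hd3 : HasDerivAt (fun s => (c s * w).re) 1 t := by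
      have h4 : HasDerivAt (fun s : ℝ => (Psi f w p).re + s) 1 t := by
        simpa using (hasDerivAt_id t).const_add (Psi f w p).re
      refine h4.congr_of_eventuallyEq ?_
      filter_upwards [h2] with s hs
      have := congrArg Complex.re hs
      simpa [Psi] using this
    exact hd2.unique hd3
  have hfz : ∀ t : ℝ, Psi f w (c t) = Psi f w p + (t : ℂ) → f (c t) = 0 := by
    intro t ht
    have := congrArg Complex.im ht
    simpa [Psi, hfp] using this
  have hd0 : HasDerivAt c (deriv c 0) 0 := (hcc.differentiableAt (by norm_num)).hasDerivAt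
  have hder0 : deriv c 0 * w = 1 := by
    have h5 : HasDerivAt (fun s => Psi f w (c s)) (deriv c 0 * w) 0 := by
      have hF' : HasFDerivAt (Psi f w) ((mulE w hw : ℂ ≃L[ℝ] ℂ) : ℂ →L[ℝ] ℂ) (c 0) := by
        rw [hc0]; exact hF
      exact hF'.comp_hasDerivAt (0 : ℝ) hd0
    have h6 : HasDerivAt (fun s => Psi f w (c s)) 1 0 := by
      have h7 : HasDerivAt (fun s : ℝ => Psi f w p + (s : ℂ)) 1 0 := by
        have := (Complex.ofRealCLM.hasDerivAt (x := (0 : ℝ))).const_add (Psi f w p)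
        simpa using this
      exact h7.congr_of_eventuallyEq e1
    exact h5.unique h6
  have e5 : ∀ᶠ t : ℝ in 𝓝 0, 0 < fderiv ℝ f (c t) (Complex.I * deriv c t) := by
    have hcd : ContinuousAt (deriv c) 0 := by
      have h8 : ContinuousAt (fderiv ℝ c) 0 := hcc.continuousAt_fderiv (by norm_num)
      have h9 : deriv c = fun t => fderiv ℝ c t 1 := by
        funext t; rw [← fderiv_apply_one_eq_deriv]
      rw [h9]
      exact h8.clm_apply continuousAt_const
    have hfd : ContinuousAt (fun t => fderiv ℝ f (c t)) 0 := by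
      have h8 : ContinuousAt (fderiv ℝ f) (c 0) := by
        rw [hc0]; exact hfa.continuousAt_fderiv (by norm_num)
      exact ContinuousAt.comp (f := c) (g := fderiv ℝ f) h8 hcc.continuousAt
    have hG : ContinuousAt (fun t => fderiv ℝ f (c t) (Complex.I * deriv c t)) 0 :=
      hfd.clm_apply (continuousAt_const.mul hcd)
    have hG0 : fderiv ℝ f (c 0) (Complex.I * deriv c 0) = 1 := by
      rw [hc0, ← hLdef, hL, mul_assoc, hder0]
      simp
    refine hG.eventually (lt_mem_nhds ?_)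
    show 0 < fderiv ℝ f (c 0) (Complex.I * deriv c 0)
    rw [hG0]; exact one_pos
  obtain ⟨ρ, hρ, hall⟩ := Metric.eventually_nhds_iff_ball.1
    (((e1.and e2).and (e3.and e4)).and e5)
  have hmem : ∀ t ∈ Ioo (-ρ) ρ, t ∈ ball (0 : ℝ) ρ := by
    intro t ht
    rw [Real.ball_eq_Ioo]
    simpa using ht
  refine ⟨c, ρ, hρ, ?_, hc0, ?_⟩
  · intro t ht
    exact (hall t (hmem t ht)).1.2.1.contDiffWithinAt
  · intro t ht
    obtain ⟨⟨⟨h1, h2⟩, h3', h4⟩, h5⟩ := hall t (hmem t ht)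
    refine ⟨h4, hfz t h1, ?_, h5⟩
    intro h0
    have := key t h3' h2
    rw [h0] at this
    simp at this

end Pool.Agent.DMB
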