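import Pool.Agent.DMB.Api

/-!
The chart of the interface.
-/

set_option autoImplicit false

namespace Pool.Agent.DMB

open MeasureTheory Set Metric Filter Topology
open scoped ENNReal NNReal

namespace CHB_

/-- the chart -/
noncomputable def Ph (c : ℝ → ℂ) (z : ℂ) : ℂ :=
  c z.re + (Complex.I * (z.im : ℂ)) * deriv c z.re -
    ((z.im : ℂ) ^ 2 * (1 / 2)) * deriv (deriv c) z.re

/-- its `x`-derivative -/
noncomputable def PX (c : ℝ → ℂ) (z : ℂ) : ℂ :=
  deriv c z.re + (Complex.I * (z.im : ℂ)) * deriv (deriv c) z.re -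
    ((z.im : ℂ) ^ 2 * (1 / 2)) * deriv (deriv (deriv c)) z.re

/-- its `y`-derivative -/
noncomputable def PY (c : ℝ → ℂ) (z : ℂ) : ℂ :=
  Complex.I * deriv c z.re - (z.im : ℂ) * deriv (deriv c) z.re

variable {c : ℝ → ℂ} {ρ : ℝ}

lemma cd1 (hc : ContDiffOn ℝ 3 c (Ioo (-ρ) ρ)) : ContDiffOn ℝ 2 (deriv c) (Ioo (-ρ) ρ) :=
  hc.deriv_of_isOpen isOpen_Ioo (by norm_num)

lemma cd2 (hc : ContDiffOn ℝ 3 c (Ioo (-ρ) ρ)) : ContDiffOn ℝ 1 (deriv (deriv c)) (Ioo (-ρ) ρ) :=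
  (cd1 hc).deriv_of_isOpen isOpen_Ioo (by norm_num)

lemma cd3 (hc : ContDiffOn ℝ 3 c (Ioo (-ρ) ρ)) :
    ContinuousOn (deriv (deriv (deriv c))) (Ioo (-ρ) ρ) :=
  (cd2 hc).continuousOn_deriv_of_isOpen isOpen_Ioo le_rfl

lemma hd {n : WithTop ℕ∞} {g : ℝ → ℂ} (hg : ContDiffOn ℝ n g (Ioo (-ρ) ρ)) (hn : 1 ≤ n) {x : ℝ}
    (hx : x ∈ Ioo (-ρ) ρ) : HasDerivAt g (deriv g x) x :=
  ((hg.differentiableOn (by
    intro h
    rw [h] at hn
    exact absurd hn (by simp))).differentiableAt (isOpen_Ioo.mem_nhds hx)).hasDerivAt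

lemma hre {g : ℝ → ℂ} {g' : ℂ} {z : ℂ} (h : HasDerivAt g g' z.re) :
    HasFDerivAt (fun z : ℂ => g z.re) (Complex.reCLM.smulRight g') z := by
  have h1 : HasFDerivAt (fun z : ℂ => z.re) Complex.reCLM z := Complex.reCLM.hasFDerivAt
  have := h.hasFDerivAt.comp z h1
  refine this.congr_fderiv ?_
  ext <;> simp

lemma hasF (hc : ContDiffOn ℝ 3 c (Ioo (-ρ) ρ)) {z : ℂ} (hz : z.re ∈ Ioo (-ρ) ρ) :
    HasFDerivAt (Ph c) (Complex.reCLM.smulRight (PX c z) + Complex.imCLM.smulRight (PY c z)) z := by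
  have h0 := hre (hd hc (by norm_num) hz)
  have h1 := hre (hd (cd1 hc) (by norm_num) hz)
  have h2 := hre (hd (cd2 hc) (by norm_num) hz)
  have him : HasFDerivAt (fun z : ℂ => (z.im : ℂ)) (Complex.ofRealCLM.comp Complex.imCLM) z :=
    (Complex.ofRealCLM.comp Complex.imCLM).hasFDerivAt
  have h3 := (him.const_mul Complex.I).mul h1
  have h4 := ((him.pow 2).mul_const (1 / 2)).mul h2
  have h5 := (h0.add h3).sub h4
  refine h5.congr_fderiv ?_
  ext <;> simp [PX, PY] <;> ring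

lemma px_eq (hc : ContDiffOn ℝ 3 c (Ioo (-ρ) ρ)) {z : ℂ} (hz : z.re ∈ Ioo (-ρ) ρ) :
    px (Ph c) z = PX c z := by
  rw [px, (hasF hc hz).fderiv]; simp

lemma py_eq (hc : ContDiffOn ℝ 3 c (Ioo (-ρ) ρ)) {z : ℂ} (hz : z.re ∈ Ioo (-ρ) ρ) :
    py (Ph c) z = PY c z := by
  rw [py, (hasF hc hz).fderiv]; simp

/-- the strip -/
def St (ρ : ℝ) : Set ℂ := {z | z.re ∈ Ioo (-ρ) ρ}

lemma isOpen_St (ρ : ℝ) : IsOpen (St ρ) := isOpen_Ioo.preimage Complex.continuous_re

lemma co_re {g : ℝ → ℂ} (hg : ContinuousOn g (Ioo (-ρ) ρ)) :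
    ContinuousOn (fun z : ℂ => g z.re) (St ρ) :=
  hg.comp Complex.continuous_re.continuousOn fun _ hz => hz

lemma cPX (hc : ContDiffOn ℝ 3 c (Ioo (-ρ) ρ)) : ContinuousOn (PX c) (St ρ) := by
  have h1 := co_re (cd1 hc).continuousOn
  have h2 := co_re (cd2 hc).continuousOn
  have h3 := co_re (cd3 hc)
  have hi : ContinuousOn (fun z : ℂ => (z.im : ℂ)) (St ρ) :=
    (Complex.continuous_ofReal.comp Complex.continuous_im).continuousOn
  exact (h1.add ((continuousOn_const.mul hi).mul h2)).sub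
    (((hi.pow 2).mul continuousOn_const).mul h3)

lemma cPY (hc : ContDiffOn ℝ 3 c (Ioo (-ρ) ρ)) : ContinuousOn (PY c) (St ρ) := by
  have h1 := co_re (cd1 hc).continuousOn
  have h2 := co_re (cd2 hc).continuousOn
  have hi : ContinuousOn (fun z : ℂ => (z.im : ℂ)) (St ρ) :=
    (Complex.continuous_ofReal.comp Complex.continuous_im).continuousOn
  exact (continuousOn_const.mul h1).sub (hi.mul h2)

lemma cdPh (hc : ContDiffOn ℝ 3 c (Ioo (-ρ) ρ)) : ContDiffOn ℝ 1 (Ph c) (St ρ) := by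
  have hr : ContDiffOn ℝ 1 (fun z : ℂ => z.re) (St ρ) := Complex.reCLM.contDiff.contDiffOn
  have h0 : ContDiffOn ℝ 1 (fun z : ℂ => c z.re) (St ρ) :=
    (hc.of_le (by norm_num)).comp hr fun _ hz => hz
  have h1 : ContDiffOn ℝ 1 (fun z : ℂ => deriv c z.re) (St ρ) :=
    ((cd1 hc).of_le (by norm_num)).comp hr fun _ hz => hz
  have h2 : ContDiffOn ℝ 1 (fun z : ℂ => deriv (deriv c) z.re) (St ρ) :=
    (cd2 hc).comp hr fun _ hz => hz
  have hi : ContDiffOn ℝ 1 (fun z : ℂ => (z.im : ℂ)) (St ρ) :=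
    (Complex.ofRealCLM.comp Complex.imCLM).contDiff.contDiffOn
  exact (h0.add ((contDiffOn_const.mul hi).mul h1)).sub
    (((hi.pow 2).mul contDiffOn_const).mul h2)

/-- Taylor estimate -/
lemma taylor {M : ℝ} (hc : ContDiffOn ℝ 3 c (Ioo (-ρ) ρ)) {x t r : ℝ} (hr : r < ρ)
    (hx : x ∈ Icc (-r) r) (ht : t ∈ Icc (-r) r)
    (h2 : ∀ s ∈ Icc (-r) r, ‖deriv (deriv c) s‖ ≤ M) :
    ‖deriv c x - deriv c t‖ ≤ M * |x - t| ∧
    ‖c x - c t - deriv c t * (x - t)‖ ≤ M * |x - t| ^ 2 := by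
  have hsub : ∀ s ∈ Icc (-r) r, s ∈ Ioo (-ρ) ρ := fun s hs =>
    ⟨by linarith [hs.1], by linarith [hs.2]⟩
  have key : ∀ s ∈ Icc (-r) r, ‖deriv c s - deriv c t‖ ≤ M * |s - t| := by
    intro s hs
    have := (convex_Icc (-r) r).norm_image_sub_le_of_norm_hasDerivWithin_le
      (f := deriv c) (f' := deriv (deriv c)) (C := M)
      (fun w hw => (hd (cd1 hc) (by norm_num) (hsub w hw)).hasDerivWithinAt) h2 ht hs
    simpa [Real.norm_eq_abs] using this
  refine ⟨key x hx, ?_⟩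
  have hseg : uIcc t x ⊆ Icc (-r) r := ordConnected_Icc.uIcc_subset ht hx
  have hder : ∀ s ∈ uIcc t x, HasDerivWithinAt (fun s : ℝ => c s - deriv c t * s)
      (deriv c s - deriv c t) (uIcc t x) s := by
    intro s hs
    have h1 := hd hc (by norm_num) (hsub s (hseg hs))
    have h3 : HasDerivAt (fun s : ℝ => (deriv c t) * (s : ℂ)) (deriv c t) s := by
      simpa using (Complex.ofRealCLM.hasDerivAt (x := s)).const_mul (deriv c t)
    exact (h1.sub h3).hasDerivWithinAt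
  have hb : ∀ s ∈ uIcc t x, ‖deriv c s - deriv c t‖ ≤ M * |x - t| := by
    intro s hs
    have hM : 0 ≤ M := (norm_nonneg _).trans (h2 x hx)
    exact (key s (hseg hs)).trans (mul_le_mul_of_nonneg_left (abs_sub_left_of_mem_uIcc hs) hM)
  have := (convex_uIcc t x).norm_image_sub_le_of_norm_hasDerivWithin_le hder hb
    left_mem_uIcc right_mem_uIcc
  have e : c x - deriv c t * x - (c t - deriv c t * t) = c x - c t - deriv c t * (x - t) := by ring
  rw [e, Real.norm_eq_abs] at this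
  rw [pow_two, ← mul_assoc]
  exact this

/-- the sign of `f` along vertical lines -/
lemma sign {g g' : ℝ → ℝ} {y : ℝ} (hg : ∀ s ∈ Icc (-|y|) |y|, HasDerivAt g (g' s) s)
    (hp : ∀ s ∈ Icc (-|y|) |y|, 0 < g' s) (h0 : g 0 = 0) :
    (0 < g y ↔ 0 < y) ∧ (g y < 0 ↔ y < 0) ∧ (g y = 0 ↔ y = 0) := by
  have hm : StrictMonoOn g (Icc (-|y|) |y|) := by
    apply strictMonoOn_of_deriv_pos (convex_Icc _ _)
    · exact fun s hs => (hg s hs).continuousAt.continuousWithinAt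
    · intro s hs
      rw [interior_Icc] at hs
      have hs' := Ioo_subset_Icc_self hs
      rw [(hg s hs').deriv]
      exact hp s hs'
  have a0 : (0 : ℝ) ∈ Icc (-|y|) |y| := ⟨by linarith [abs_nonneg y], abs_nonneg y⟩
  have ay : y ∈ Icc (-|y|) |y| := ⟨neg_abs_le y, le_abs_self y⟩
  refine ⟨?_, ?_, ?_⟩
  · have := hm.lt_iff_lt a0 ay
    rwa [h0] at this
  · have := hm.lt_iff_lt ay a0
    rwa [h0] at this
  · have := hm.injOn.eq_iff ay a0
    rwa [h0] at this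

lemma line (hc : ContDiffOn ℝ 3 c (Ioo (-ρ) ρ)) {x : ℝ} (hx : x ∈ Ioo (-ρ) ρ) (s : ℝ) :
    HasDerivAt (fun s : ℝ => Ph c ⟨x, s⟩) (PY c ⟨x, s⟩) s := by
  have h1 : HasDerivAt (fun s : ℝ => (⟨x, s⟩ : ℂ)) Complex.I s := by
    have h : HasDerivAt (fun s : ℝ => (x : ℂ) + (s : ℂ) * Complex.I) Complex.I s := by
      simpa using ((Complex.ofRealCLM.hasDerivAt (x := s)).mul_const Complex.I).const_add (x : ℂ)
    refine h.congr_of_eventuallyEq (Eventually.of_forall fun s => ?_)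
    apply Complex.ext <;> simp
  have h2 := (hasF hc (z := ⟨x, s⟩) hx).comp_hasDerivAt s h1
  have h3 : (Complex.reCLM.smulRight (PX c ⟨x, s⟩) + Complex.imCLM.smulRight (PY c ⟨x, s⟩))
      Complex.I = PY c ⟨x, s⟩ := by simp
  rw [h3] at h2
  exact h2

end CHB_

open CHB_

theorem chb_proof : Stmt_CHB := by
  intro Op Omi ga U f c ρ hU hf hside hρ hc hcc
  have h00 : (0 : ℝ) ∈ Ioo (-ρ) ρ := ⟨by linarith, hρ⟩
  obtain ⟨hc0U, hfc0, hne, hpos0⟩ := hcc 0 h00
  set a := deriv c 0 with ha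
  have hna : 0 < ‖a‖ := norm_pos_iff.2 hne
  -- bound on the derivatives
  obtain ⟨M, hM0, hM2, hM3⟩ : ∃ M : ℝ, 0 ≤ M ∧
      (∀ s ∈ Icc (-(ρ / 2)) (ρ / 2), ‖deriv (deriv c) s‖ ≤ M) ∧
      (∀ s ∈ Icc (-(ρ / 2)) (ρ / 2), ‖deriv (deriv (deriv c)) s‖ ≤ M) := by
    have hsub : Icc (-(ρ / 2)) (ρ / 2) ⊆ Ioo (-ρ) ρ := fun s hs =>
      ⟨by linarith [hs.1], by linarith [hs.2]⟩
    obtain ⟨M1, h1⟩ := isCompact_Icc.exists_bound_of_continuousOn
      ((cd2 hc).continuousOn.mono hsub)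
    obtain ⟨M2, h2⟩ := isCompact_Icc.exists_bound_of_continuousOn ((cd3 hc).mono hsub)
    refine ⟨max 0 (max M1 M2), le_max_left _ _, fun s hs => ?_, fun s hs => ?_⟩
    · exact (h1 s hs).trans ((le_max_left _ _).trans (le_max_right _ _))
    · exact (h2 s hs).trans ((le_max_right _ _).trans (le_max_right _ _))
  have z0 : (0 : ℂ) ∈ St ρ := by simpa [St] using h00
  have hSt : St ρ ∈ 𝓝 (0 : ℂ) := (isOpen_St ρ).mem_nhds z0
  have hP0 : Ph c 0 = c 0 := by simp [Ph]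
  have hPX0 : PX c 0 = a := by simp [PX, ha]
  have hPY0 : PY c 0 = Complex.I * a := by simp [PY, ha]
  -- linear approximation
  set L : ℂ →L[ℝ] ℂ := Complex.reCLM.smulRight (PX c 0) + Complex.imCLM.smulRight (PY c 0) with hL
  have hLv : ∀ v : ℂ, L v = a * v := by
    intro v
    simp only [hL, hPX0, hPY0, _root_.add_apply, ContinuousLinearMap.smulRight_apply,
      Complex.reCLM_apply, Complex.imCLM_apply, Complex.real_smul]
    conv_rhs => rw [← Complex.re_add_im v]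
    ring
  have hstrict : HasStrictFDerivAt (Ph c) L 0 := by
    have h1 : ContDiffAt ℝ 1 (Ph c) 0 := (cdPh hc).contDiffAt hSt
    have h2 := h1.hasStrictFDerivAt (by norm_num)
    rwa [(hasF hc (z := 0) z0).fderiv] at h2
  obtain ⟨s, hs, happ⟩ := hstrict.approximates_deriv_on_nhds (c := ‖a‖₊ / 2)
    (Or.inr (half_pos (nnnorm_pos.2 hne)))
  have happ' : ∀ x ∈ s, ∀ y ∈ s, ‖Ph c x - Ph c y - a * (x - y)‖ ≤ ‖a‖ / 2 * ‖x - y‖ := by
    intro x hx y hy
    have := happ x hx y hy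
    rw [hLv] at this
    simpa using this
  -- jacobian
  have hjac : ∀ᶠ z in 𝓝 (0 : ℂ), ‖a‖ ^ 2 / 2 < (starRingEnd ℂ (PX c z) * PY c z).im := by
    have hcont : ContinuousAt (fun z => (starRingEnd ℂ (PX c z) * PY c z).im) 0 := by
      have h1 := (cPX hc).continuousAt hSt
      have h2 := (cPY hc).continuousAt hSt
      exact Complex.continuous_im.continuousAt.comp
        ((Complex.continuous_conj.continuousAt.comp h1).mul h2)
    have h3 : ‖a‖ ^ 2 / 2 < (starRingEnd ℂ (PX c 0) * PY c 0).im := by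
      rw [hPX0, hPY0]
      have : starRingEnd ℂ a * (Complex.I * a) = Complex.I * ((‖a‖ ^ 2 : ℝ) : ℂ) := by
        rw [← mul_assoc, mul_comm (starRingEnd ℂ a) Complex.I, mul_assoc, Complex.conj_mul']
        push_cast
        rfl
      rw [this]
      simp only [Complex.mul_im, Complex.I_re, Complex.ofReal_im, mul_zero, Complex.I_im,
        Complex.ofReal_re, one_mul, zero_add]
      nlinarith [sq_nonneg ‖a‖, pow_pos hna 2]
    exact hcont.eventually (lt_mem_nhds h3)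
  -- values in `U` and sign of the vertical derivative
  have hcPh : ContinuousAt (Ph c) 0 := ((cdPh hc).continuousOn).continuousAt hSt
  have hUev : ∀ᶠ z in 𝓝 (0 : ℂ), Ph c z ∈ U := by
    apply hcPh.eventually
    rw [hP0]
    exact hU.mem_nhds hc0U
  have hfd : ContinuousOn (fderiv ℝ f) U := hf.continuousOn_fderiv_of_isOpen hU (by norm_num)
  have hvert : ∀ᶠ z in 𝓝 (0 : ℂ), 0 < fderiv ℝ f (Ph c z) (PY c z) := by
    have h1 : ContinuousAt (fun z => fderiv ℝ f (Ph c z)) 0 := by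
      have : ContinuousAt (fderiv ℝ f) (Ph c 0) := by
        rw [hP0]; exact hfd.continuousAt (hU.mem_nhds hc0U)
      exact this.comp hcPh
    have h2 := (cPY hc).continuousAt hSt
    have h3 : ContinuousAt (fun z => fderiv ℝ f (Ph c z) (PY c z)) 0 := h1.clm_apply h2
    apply h3.eventually
    apply lt_mem_nhds
    change 0 < fderiv ℝ f (Ph c 0) (PY c 0)
    rw [hP0, hPY0]
    exact hpos0
  obtain ⟨R0, hR0, hball⟩ := Metric.mem_nhds_iff.1
    (Filter.inter_mem hs (Filter.inter_mem hjac (Filter.inter_mem hUev hvert)))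
  set R := min R0 (ρ / 2) with hRdef
  have hR : 0 < R := lt_min hR0 (by linarith)
  have hRρ : R ≤ ρ / 2 := min_le_right _ _
  have hb : ∀ z ∈ ball (0 : ℂ) R, z ∈ s ∧ ‖a‖ ^ 2 / 2 < (starRingEnd ℂ (PX c z) * PY c z).im ∧
      Ph c z ∈ U ∧ 0 < fderiv ℝ f (Ph c z) (PY c z) := fun z hz =>
    hball (ball_subset_ball (min_le_left _ _) hz)
  have hre : ∀ z ∈ ball (0 : ℂ) R, z.re ∈ Icc (-(ρ / 2)) (ρ / 2) := by
    intro z hz
    rw [mem_ball_zero_iff] at hz
    have := Complex.abs_re_le_norm z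
    exact abs_le.1 (by linarith)
  have hre' : ∀ z ∈ ball (0 : ℂ) R, z.re ∈ Ioo (-ρ) ρ := by
    intro z hz
    have := hre z hz
    exact ⟨by linarith [this.1], by linarith [this.2]⟩
  have hreal : ∀ t : ℝ, Ph c (t : ℂ) = c t := by intro t; simp [Ph]
  set C := 1 + 2 * ‖a‖ + 2 / ‖a‖ + 2 / ‖a‖ ^ 2 + 2 * M with hCdef
  have q1 : 0 ≤ 2 * ‖a‖ := by positivity
  have q2 : 0 ≤ 2 / ‖a‖ := by positivity
  have q3 : 0 ≤ 2 / ‖a‖ ^ 2 := by positivity
  have q4 : 0 ≤ 2 * M := by positivity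
  refine ⟨Ph c, R, C, by linarith, ?_, fun t _ => hreal t⟩
  constructor
  · exact hR
  · linarith
  · exact (cdPh hc).mono fun z hz => hre' z hz
  · -- lip
    intro z hz w hw
    have h1 := happ' z (hb z hz).1 w (hb w hw).1
    have h2 : ‖Ph c z - Ph c w‖ ≤ ‖Ph c z - Ph c w - a * (z - w)‖ + ‖a * (z - w)‖ := by
      have := norm_add_le (Ph c z - Ph c w - a * (z - w)) (a * (z - w))
      simpa using this
    rw [norm_mul] at h2
    have h3 : ‖Ph c z - Ph c w‖ ≤ (2 * ‖a‖) * ‖z - w‖ := by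
      nlinarith [norm_nonneg (z - w), mul_nonneg hna.le (norm_nonneg (z - w))]
    exact h3.trans (mul_le_mul_of_nonneg_right (by linarith) (norm_nonneg _))
  · -- alip
    intro z hz w hw
    have h1 := happ' z (hb z hz).1 w (hb w hw).1
    have h2 : ‖a * (z - w)‖ ≤ ‖Ph c z - Ph c w‖ + ‖Ph c z - Ph c w - a * (z - w)‖ := by
      have := norm_sub_le (Ph c z - Ph c w) (Ph c z - Ph c w - a * (z - w))
      simpa using this
    rw [norm_mul] at h2
    have h3 : ‖z - w‖ ≤ (2 / ‖a‖) * ‖Ph c z - Ph c w‖ := by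
      rw [div_mul_eq_mul_div, le_div_iff₀ hna]
      nlinarith
    exact h3.trans (mul_le_mul_of_nonneg_right (by linarith) (norm_nonneg _))
  · -- jacobian
    intro z hz
    rw [jac, px_eq hc (hre' z hz), py_eq hc (hre' z hz)]
    have h1 := (hb z hz).2.1
    have h2 : C⁻¹ ≤ (2 / ‖a‖ ^ 2)⁻¹ := by
      apply inv_anti₀ (by positivity)
      linarith
    rw [inv_div] at h2
    linarith
  · -- open
    intro V hV hVo
    have hVs : V ⊆ s := fun z hz => (hb z (hV hz)).1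
    let NR : L.NonlinearRightInverse :=
      { toFun := fun w => a⁻¹ * w
        nnnorm := ‖a‖₊⁻¹
        bound' := fun w => by simp
        right_inv' := fun w => by
          rw [hLv, ← mul_assoc, mul_inv_cancel₀ hne, one_mul] }
    refine (happ.mono_set hVs).open_image NR hVo (Or.inr ?_)
    change ‖a‖₊ / 2 < (‖a‖₊⁻¹)⁻¹
    rw [inv_inv]
    exact NNReal.half_lt_self (by simpa using hne)
  · -- sides
    intro z hz
    have hzU := (hb z hz).2.2.1
    have hx := hre' z hz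
    have hin : ∀ s ∈ Icc (-|z.im|) |z.im|, (⟨z.re, s⟩ : ℂ) ∈ ball (0 : ℂ) R := by
      intro s hs
      rw [mem_ball_zero_iff] at hz ⊢
      refine lt_of_le_of_lt ?_ hz
      rw [← Real.sqrt_sq (norm_nonneg (⟨z.re, s⟩ : ℂ)), ← Real.sqrt_sq (norm_nonneg z),
        Complex.sq_norm, Complex.sq_norm]
      apply Real.sqrt_le_sqrt
      rw [Complex.normSq_apply, Complex.normSq_apply]
      have : |s| ≤ |z.im| := abs_le.2 hs
      have := sq_le_sq.2 this
      simp only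
      nlinarith
    have hder : ∀ s ∈ Icc (-|z.im|) |z.im|, HasDerivAt (fun s : ℝ => f (Ph c ⟨z.re, s⟩))
        (fderiv ℝ f (Ph c ⟨z.re, s⟩) (PY c ⟨z.re, s⟩)) s := by
      intro s hs
      have hU' := (hb _ (hin s hs)).2.2.1
      have hfd' : HasFDerivAt f (fderiv ℝ f (Ph c ⟨z.re, s⟩)) (Ph c ⟨z.re, s⟩) :=
        ((hf.differentiableOn (by norm_num)).differentiableAt (hU.mem_nhds hU')).hasFDerivAt
      exact hfd'.comp_hasDerivAt s (line hc hx s)
    have h0 : f (Ph c ⟨z.re, 0⟩) = 0 := by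
      have e : (⟨z.re, 0⟩ : ℂ) = ((z.re : ℝ) : ℂ) := by apply Complex.ext <;> simp
      rw [e, hreal]
      exact (hcc z.re hx).2.1
    have hs := sign (g := fun s : ℝ => f (Ph c ⟨z.re, s⟩)) hder
      (fun s hs => (hb _ (hin s hs)).2.2.2) h0
    have e : (⟨z.re, z.im⟩ : ℂ) = z := Complex.eta z
    simp only [e] at hs
    obtain ⟨s1, s2, s3⟩ := hside _ hzU
    exact ⟨s1.trans hs.1, s2.trans hs.2.1, s3.trans hs.2.2⟩
  · -- conformality
    intro z hz
    rw [px_eq hc (hre' z hz), py_eq hc (hre' z hz)]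
    have e : PY c z - Complex.I * PX c z =
        Complex.I * ((z.im : ℂ) ^ 2 * (1 / 2)) * deriv (deriv (deriv c)) z.re := by
      rw [PX, PY]
      ring_nf
      rw [Complex.I_sq]
      ring
    rw [e, norm_mul, norm_mul, norm_mul, Complex.norm_I, one_mul, norm_pow, Complex.norm_real,
      Real.norm_eq_abs, sq_abs]
    have h3 := hM3 z.re (hre z hz)
    have h4 : ‖(1 / 2 : ℂ)‖ = 1 / 2 := by simp
    rw [h4]
    have h5 : 0 ≤ z.im ^ 2 := sq_nonneg _
    have h6 : z.im ^ 2 * (1 / 2) * ‖deriv (deriv (deriv c)) z.re‖ ≤ z.im ^ 2 * (1 / 2) * M :=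
      mul_le_mul_of_nonneg_left h3 (by positivity)
    nlinarith
  · exact (cd1 hc).continuousOn.mono fun t ht => ⟨by linarith [ht.1], by linarith [ht.2]⟩
  · -- kernel
    intro t ht z hz
    have ht' : t ∈ Icc (-(ρ / 2)) (ρ / 2) := abs_le.1 (by linarith)
    obtain ⟨k1, k2⟩ := taylor hc (by linarith : ρ / 2 < ρ) (hre z hz) ht' hM2
    have k3 := hM2 z.re (hre z hz)
    rw [hreal]
    have e : Ph c z - c t - deriv c t * (z - t) =
        (c z.re - c t - deriv c t * (z.re - t)) +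
        ((Complex.I * (z.im : ℂ)) * (deriv c z.re - deriv c t) -
        ((z.im : ℂ) ^ 2 * (1 / 2)) * deriv (deriv c) z.re) := by
      have e0 : (z - t : ℂ) = ((z.re : ℂ) - t) + Complex.I * z.im := by
        apply Complex.ext <;> simp
      rw [Ph, e0]
      ring
    rw [e]
    have n1 : ‖(Complex.I * (z.im : ℂ)) * (deriv c z.re - deriv c t)‖ ≤ |z.im| * (M * |z.re - t|) := by
      rw [norm_mul, norm_mul, Complex.norm_I, one_mul, Complex.norm_real, Real.norm_eq_abs]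
      exact mul_le_mul_of_nonneg_left k1 (abs_nonneg _)
    have n2 : ‖((z.im : ℂ) ^ 2 * (1 / 2)) * deriv (deriv c) z.re‖ ≤ z.im ^ 2 * (1 / 2) * M := by
      rw [norm_mul, norm_mul, norm_pow, Complex.norm_real, Real.norm_eq_abs, sq_abs]
      have h4 : ‖(1 / 2 : ℂ)‖ = 1 / 2 := by simp
      rw [h4]
      exact mul_le_mul_of_nonneg_left k3 (by positivity)
    have n3 := norm_add_le (c z.re - c t - deriv c t * (z.re - t))
      ((Complex.I * (z.im : ℂ)) * (deriv c z.re - deriv c t) -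
        ((z.im : ℂ) ^ 2 * (1 / 2)) * deriv (deriv c) z.re)
    have n4 := norm_sub_le ((Complex.I * (z.im : ℂ)) * (deriv c z.re - deriv c t))
      (((z.im : ℂ) ^ 2 * (1 / 2)) * deriv (deriv c) z.re)
    have n5 : ‖z - t‖ ^ 2 = |z.re - t| ^ 2 + |z.im| ^ 2 := by
      rw [Complex.sq_norm, Complex.normSq_apply]
      simp only [Complex.sub_re, Complex.ofReal_re, Complex.sub_im, Complex.ofReal_im, sub_zero,
        sq_abs]
      ring
    have n6 : z.im ^ 2 = |z.im| ^ 2 := (sq_abs _).symm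
    rw [n6] at n2
    have n7 : ‖(c z.re - c t - deriv c t * (z.re - t)) +
        ((Complex.I * (z.im : ℂ)) * (deriv c z.re - deriv c t) -
        ((z.im : ℂ) ^ 2 * (1 / 2)) * deriv (deriv c) z.re)‖ ≤ (2 * M) * ‖z - t‖ ^ 2 := by
      rw [n5]
      have n8 : 0 ≤ M * (|z.re - t| - |z.im|) ^ 2 := mul_nonneg hM0 (sq_nonneg _)
      have n9 : 0 ≤ M * |z.re - t| ^ 2 := by positivity
      have n10 : 0 ≤ M * |z.im| ^ 2 := by positivity
      nlinarith
    exact n7.trans (mul_le_mul_of_nonneg_right (by linarith) (sq_nonneg _))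

end Pool.Agent.DMB
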