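import Pool.Agent.DMB.Api

namespace Pool.Agent.DMB

open MeasureTheory Set Metric Filter Topology

namespace CHC_

/-- first three derivatives of a `C^3` function on an interval -/
lemma three {g : ℝ → ℝ} {ρ : ℝ} (hg : ContDiffOn ℝ 3 g (Ioo (-ρ) ρ)) :
    DifferentiableOn ℝ g (Ioo (-ρ) ρ) ∧
    ContDiffOn ℝ 1 g (Ioo (-ρ) ρ) ∧
    DifferentiableOn ℝ (deriv g) (Ioo (-ρ) ρ) ∧
    DifferentiableOn ℝ (deriv (deriv g)) (Ioo (-ρ) ρ) ∧
    ContDiffOn ℝ 1 (deriv (deriv g)) (Ioo (-ρ) ρ) ∧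
    ContinuousOn (deriv (deriv (deriv g))) (Ioo (-ρ) ρ) := by
  have e3 : (3 : WithTop ℕ∞) = 2 + 1 := by norm_num
  have e2 : (2 : WithTop ℕ∞) = 1 + 1 := by norm_num
  have e1 : (1 : WithTop ℕ∞) = 0 + 1 := by norm_num
  rw [e3] at hg
  obtain ⟨h1, -, h2⟩ := (contDiffOn_succ_iff_deriv_of_isOpen isOpen_Ioo).1 hg
  rw [e2] at h2
  obtain ⟨h3, -, h4⟩ := (contDiffOn_succ_iff_deriv_of_isOpen isOpen_Ioo).1 h2
  have h4' := h4
  rw [e1] at h4
  obtain ⟨h5, -, h6⟩ := (contDiffOn_succ_iff_deriv_of_isOpen isOpen_Ioo).1 h4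
  exact ⟨h1, hg.of_le (by norm_num), h3, h5, h4', contDiffOn_zero.1 h6⟩

/-- uniform Taylor estimates -/
lemma taylor {g : ℝ → ℝ} {ρ R : ℝ} (hR : 0 < R) (hRρ : R < ρ)
    (hg : ContDiffOn ℝ 3 g (Ioo (-ρ) ρ)) :
    ∃ M : ℝ, 0 ≤ M ∧ ∀ x ∈ Icc (-R) R, ∀ q ∈ Icc (-R) R,
      |deriv g q| ≤ M ∧ |deriv (deriv g) q| ≤ M ∧ |deriv (deriv (deriv g)) x| ≤ M ∧
      |deriv (deriv g) x - deriv (deriv g) q| ≤ M * |x - q| ∧
      |deriv g x - (deriv g q + (x - q) * deriv (deriv g) q)| ≤ M * (x - q) ^ 2 := by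
  obtain ⟨h1, -, h3, h5, -, h6⟩ := three hg
  have hsub : Icc (-R) R ⊆ Ioo (-ρ) ρ := fun x hx => ⟨by linarith [hx.1], by linarith [hx.2]⟩
  obtain ⟨M1, hM1⟩ := isCompact_Icc.exists_bound_of_continuousOn (h3.continuousOn.mono hsub)
  obtain ⟨M2, hM2⟩ := isCompact_Icc.exists_bound_of_continuousOn (h5.continuousOn.mono hsub)
  obtain ⟨M3, hM3⟩ := isCompact_Icc.exists_bound_of_continuousOn (h6.mono hsub)
  have h0 : (0 : ℝ) ∈ Icc (-R) R := ⟨by linarith, hR.le⟩
  have p1 : 0 ≤ M1 := (norm_nonneg _).trans (hM1 0 h0)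
  have p2 : 0 ≤ M2 := (norm_nonneg _).trans (hM2 0 h0)
  have p3 : 0 ≤ M3 := (norm_nonneg _).trans (hM3 0 h0)
  have k2 : ∀ x ∈ Icc (-R) R, ∀ q ∈ Icc (-R) R,
      |deriv (deriv g) x - deriv (deriv g) q| ≤ M3 * |x - q| := by
    intro x hx q hq
    have := (convex_Icc (-R) R).norm_image_sub_le_of_norm_deriv_le (f := deriv (deriv g)) (C := M3)
      (fun t ht => (h5 t (hsub ht)).differentiableAt (isOpen_Ioo.mem_nhds (hsub ht)))
      (fun t ht => hM3 t ht) hq hx
    simpa [Real.norm_eq_abs] using this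
  have k1 : ∀ x ∈ Icc (-R) R, ∀ q ∈ Icc (-R) R,
      |deriv g x - (deriv g q + (x - q) * deriv (deriv g) q)| ≤ M3 * (x - q) ^ 2 := by
    intro x hx q hq
    have hs : uIcc q x ⊆ Icc (-R) R := uIcc_subset_Icc hq hx
    have hd : ∀ t ∈ uIcc q x, HasDerivWithinAt
        (fun t => deriv g t - (deriv g q + (t - q) * deriv (deriv g) q))
        (deriv (deriv g) t - deriv (deriv g) q) (uIcc q x) t := by
      intro t ht
      have a1 : HasDerivAt (deriv g) (deriv (deriv g) t) t :=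
        ((h3 t (hsub (hs ht))).differentiableAt
          (isOpen_Ioo.mem_nhds (hsub (hs ht)))).hasDerivAt
      have a2 : HasDerivAt (fun t => deriv g t - (deriv g q + (t - q) * deriv (deriv g) q))
          (deriv (deriv g) t - (0 + (1 - 0) * deriv (deriv g) q)) t := by
        refine a1.sub ((hasDerivAt_const t _).add ?_)
        exact (((hasDerivAt_id t).sub (hasDerivAt_const t q)).mul_const _)
      have e : deriv (deriv g) t - (0 + (1 - 0) * deriv (deriv g) q) =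
          deriv (deriv g) t - deriv (deriv g) q := by ring
      rw [← e]
      exact a2.hasDerivWithinAt
    have := (convex_uIcc q x).norm_image_sub_le_of_norm_hasDerivWithin_le
      (C := M3 * |x - q|) hd (fun t ht => ?_) left_mem_uIcc right_mem_uIcc
    · simp only [Real.norm_eq_abs, sub_self, zero_mul, add_zero, sub_zero] at this
      calc _ ≤ M3 * |x - q| * |x - q| := this
        _ = M3 * (x - q) ^ 2 := by rw [mul_assoc, ← abs_mul, ← sq, abs_of_nonneg (sq_nonneg _)]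
    · rw [Real.norm_eq_abs]
      refine (k2 t (hs ht) q hq).trans ?_
      refine mul_le_mul_of_nonneg_left ?_ p3
      exact abs_sub_left_of_mem_uIcc ht
  refine ⟨M1 + M2 + M3, by positivity, fun x hx q hq => ⟨?_, ?_, ?_, ?_, ?_⟩⟩
  · have := hM1 q hq
    rw [Real.norm_eq_abs] at this; linarith
  · have := hM2 q hq
    rw [Real.norm_eq_abs] at this; linarith
  · have := hM3 x hx
    rw [Real.norm_eq_abs] at this; linarith
  · refine (k2 x hx q hq).trans ?_
    exact mul_le_mul_of_nonneg_right (by linarith) (abs_nonneg _)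
  · refine (k1 x hx q hq).trans ?_
    exact mul_le_mul_of_nonneg_right (by linarith) (sq_nonneg _)

/-- scalar extension -/
noncomputable def exn (g : ℝ → ℝ) (z : ℂ) : ℝ := g z.re - z.im ^ 2 / 2 * deriv (deriv g) z.re

lemma ball_re {R : ℝ} {z : ℂ} (hz : z ∈ ball (0 : ℂ) R) : z.re ∈ Ioo (-R) R := by
  have h1 : ‖z‖ < R := by simpa using hz
  have h2 := (Complex.abs_re_le_norm z).trans_lt h1
  exact abs_lt.1 h2

lemma exn_contDiffOn {g : ℝ → ℝ} {ρ R : ℝ} (hRρ : R < ρ)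
    (hg : ContDiffOn ℝ 3 g (Ioo (-ρ) ρ)) : ContDiffOn ℝ 1 (exn g) (ball 0 R) := by
  obtain ⟨-, h2, -, -, h5, -⟩ := three hg
  have hm : MapsTo (fun z : ℂ => z.re) (ball 0 R) (Ioo (-ρ) ρ) := fun z hz =>
    ⟨by linarith [(ball_re hz).1], by linarith [(ball_re hz).2]⟩
  have hre : ContDiffOn ℝ 1 (fun z : ℂ => z.re) (ball 0 R) :=
    Complex.reCLM.contDiff.contDiffOn
  have him : ContDiffOn ℝ 1 (fun z : ℂ => z.im) (ball 0 R) :=
    Complex.imCLM.contDiff.contDiffOn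
  have a1 := h2.comp hre hm
  have a2 := h5.comp hre hm
  exact a1.sub (((him.pow 2).div_const 2).mul a2)

lemma exn_fderiv {g : ℝ → ℝ} {ρ R : ℝ} (hRρ : R < ρ)
    (hg : ContDiffOn ℝ 3 g (Ioo (-ρ) ρ)) {z : ℂ} (hz : z ∈ ball (0 : ℂ) R) :
    fderiv ℝ (exn g) z 1 = deriv g z.re - z.im ^ 2 / 2 * deriv (deriv (deriv g)) z.re ∧
    fderiv ℝ (exn g) z Complex.I = - z.im * deriv (deriv g) z.re := by
  obtain ⟨h1, -, -, h5, -, -⟩ := three hg
  have hr := ball_re hz
  have hm : z.re ∈ Ioo (-ρ) ρ := ⟨by linarith [hr.1], by linarith [hr.2]⟩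
  have d1 : HasDerivAt g (deriv g z.re) z.re :=
    ((h1 _ hm).differentiableAt (isOpen_Ioo.mem_nhds hm)).hasDerivAt
  have d2 : HasDerivAt (deriv (deriv g)) (deriv (deriv (deriv g)) z.re) z.re :=
    ((h5 _ hm).differentiableAt (isOpen_Ioo.mem_nhds hm)).hasDerivAt
  have f1 : HasFDerivAt (fun z : ℂ => g z.re) ((deriv g z.re) • Complex.reCLM) z :=
    d1.comp_hasFDerivAt z Complex.reCLM.hasFDerivAt
  have f2 : HasFDerivAt (fun z : ℂ => deriv (deriv g) z.re)
      ((deriv (deriv (deriv g)) z.re) • Complex.reCLM) z :=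
    d2.comp_hasFDerivAt z Complex.reCLM.hasFDerivAt
  have f3 : HasFDerivAt (fun z : ℂ => z.im ^ 2 / 2) (z.im • Complex.imCLM) z := by
    have e : HasDerivAt (fun t : ℝ => t ^ 2 / 2) z.im z.im := by
      have h := ((hasDerivAt_id z.im).pow 2).div_const 2
      have e : ((2 : ℕ) : ℝ) * id z.im ^ (2 - 1) * 1 / 2 = z.im := by simp
      rw [e] at h
      exact h
    exact e.comp_hasFDerivAt z Complex.imCLM.hasFDerivAt
  have f4 := f1.sub (f3.mul f2)
  have f5 : fderiv ℝ (exn g) z = _ := f4.fderiv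
  rw [f5]
  constructor
  · simp
  · simp
    ring

end CHC_

open CHC_ in
theorem chc_proof (hGC1 : Stmt_GC1) : Stmt_CHC := by
  intro n φ ψ U c ρ R Φ hU hψ hR hRρ hc hcU hφ
  set g : Fin n → ℝ → ℝ := fun l t => ψ (c t) l with hgdef
  have hg : ∀ l, ContDiffOn ℝ 3 (g l) (Ioo (-ρ) ρ) := by
    intro l
    have h1 : ContDiffOn ℝ 3 (fun t => ψ (c t)) (Ioo (-ρ) ρ) := hψ.comp hc hcU
    exact (contDiffOn_euclidean.1 h1) l
  choose M hM0 hM using fun l => taylor hR hRρ (hg l)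
  have hMle : ∀ l, M l ≤ ∑ j, M j := fun l =>
    Finset.single_le_sum (f := M) (fun j _ => hM0 j) (Finset.mem_univ l)
  refine ⟨∑ j, M j, fun z l => exn (g l) z, fun z l => fderiv ℝ (exn (g l)) z 1,
    fun z l => fderiv ℝ (exn (g l)) z Complex.I, ⟨?_, ?_, ?_, ?_⟩⟩
  · intro l
    exact hGC1 (ball 0 R) (exn (g l)) isOpen_ball (exn_contDiffOn hRρ (hg l))
  · intro x hx l
    rw [hφ x hx]
    simp [exn, hgdef]
  · intro z hz
    funext l
    simp [exn]
  · intro q hq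
    have hq' : q ∈ Icc (-R) R := ⟨(abs_lt.1 hq).1.le, (abs_lt.1 hq).2.le⟩
    refine ⟨fun l => deriv (g l) q, fun l => deriv (deriv (g l)) q, fun l => ?_, fun l => ?_, ?_⟩
    · exact ((hM l q hq' q hq').1).trans (hMle l)
    · exact ((hM l q hq' q hq').2.1).trans (hMle l)
    · intro z hz l
      have hz' : z.re ∈ Icc (-R) R := Ioo_subset_Icc_self (ball_re hz)
      obtain ⟨-, -, b3, b4, b5⟩ := hM l z.re hz' q hq'
      obtain ⟨e1, e2⟩ := exn_fderiv hRρ (hg l) hz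
      have hn : ‖z - q‖ ^ 2 = (z.re - q) ^ 2 + z.im ^ 2 := by
        rw [← Complex.normSq_eq_norm_sq, Complex.normSq_apply]
        simp
        ring
      have hnn : (0 : ℝ) ≤ ‖z - q‖ ^ 2 := sq_nonneg _
      refine ⟨?_, ?_⟩
      · refine le_trans ?_ (mul_le_mul_of_nonneg_right (hMle l) hnn)
        dsimp only
        rw [e1, hn]
        have : deriv (g l) z.re - z.im ^ 2 / 2 * deriv (deriv (deriv (g l))) z.re -
            (deriv (g l) q + (z.re - q) * deriv (deriv (g l)) q) =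
            (deriv (g l) z.re - (deriv (g l) q + (z.re - q) * deriv (deriv (g l)) q)) -
            z.im ^ 2 / 2 * deriv (deriv (deriv (g l))) z.re := by ring
        rw [this]
        refine (abs_sub _ _).trans ?_
        rw [abs_mul, abs_of_nonneg (by positivity : (0 : ℝ) ≤ z.im ^ 2 / 2)]
        have b6 : z.im ^ 2 / 2 * |deriv (deriv (deriv (g l))) z.re| ≤ z.im ^ 2 / 2 * M l :=
          mul_le_mul_of_nonneg_left b3 (by positivity)
        nlinarith [mul_nonneg (hM0 l) (sq_nonneg z.im)]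
      · refine le_trans ?_ (mul_le_mul_of_nonneg_right (hMle l) hnn)
        dsimp only
        rw [e2, hn]
        have : -z.im * deriv (deriv (g l)) z.re + z.im * deriv (deriv (g l)) q =
            -(z.im * (deriv (deriv (g l)) z.re - deriv (deriv (g l)) q)) := by ring
        rw [this, abs_neg, abs_mul]
        have c1 : |z.im| * |deriv (deriv (g l)) z.re - deriv (deriv (g l)) q| ≤
            |z.im| * (M l * |z.re - q|) := mul_le_mul_of_nonneg_left b4 (abs_nonneg _)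
        have c2 : |z.im| * |z.re - q| ≤ (z.re - q) ^ 2 + z.im ^ 2 := by
          nlinarith [sq_abs z.im, sq_abs (z.re - q), sq_nonneg (|z.im| - |z.re - q|),
            sq_nonneg (|z.im| + |z.re - q|)]
        nlinarith [mul_le_mul_of_nonneg_left c2 (hM0 l)]

end Pool.Agent.DMB
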