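import Pool.Agent.DMB.Api

/-!
Module CL1: local decomposition of a continuous multivalued function into two clusters.
-/

set_option autoImplicit false

namespace Pool.Agent.DMB

open MeasureTheory Set Metric Filter Topology
open scoped ENNReal

namespace CL1_

theorem msSum {K n : ℕ} (a : Tup K n) : ms a = ∑ i, ({a i} : Multiset (E n)) := by
  have h := Finset.sum_multiset_singleton (Finset.univ : Finset (Fin K))
  have h2 := map_sum (Multiset.mapAddMonoidHom a) (fun i : Fin K => ({i} : Multiset (Fin K)))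
    Finset.univ
  rw [h] at h2
  simpa [ms] using h2

theorem msComp {K n : ℕ} (a : Tup K n) (τ : Equiv.Perm (Fin K)) : ms (a ∘ τ) = ms a := by
  rw [msSum, msSum]
  exact Equiv.sum_comp τ fun i => ({a i} : Multiset (E n))

theorem msSplit {K n : ℕ} (a : Tup K n) (q : Fin K → Prop) (m1 m2 : ℕ)
    (e1 : Fin m1 ≃ {i // q i}) (e2 : Fin m2 ≃ {i // ¬ q i}) :
    ms a = ms (fun j => a (e1 j)) + ms (fun j => a (e2 j)) := by
  classical
  rw [msSum, msSum, msSum, ← Fintype.sum_subtype_add_sum_subtype q,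
    ← Equiv.sum_comp e1, ← Equiv.sum_comp e2]

theorem restr {K n m : ℕ} (a b : Tup K n) (σ : Equiv.Perm (Fin K)) (q : Fin K → Prop)
    (e : Fin m ≃ {i // q i}) (h : ∀ i, q (σ i) ↔ q i) :
    dG (fun j => a (e j)) (fun j => b (e j)) ≤ Real.sqrt (sqd a (b ∘ σ)) := by
  classical
  set τ : Equiv.Perm (Fin m) := (e.trans (σ.subtypePerm h)).trans e.symm with hτ
  have h1 : dG (fun j => a (e j)) (fun j => b (e j)) ≤
      Real.sqrt (sqd (fun j => a (e j)) ((fun j => b (e j)) ∘ τ)) :=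
    ciInf_le ⟨0, by rintro _ ⟨ρ, rfl⟩; exact Real.sqrt_nonneg _⟩ τ
  refine h1.trans (Real.sqrt_le_sqrt ?_)
  have h2 : sqd (fun j => a (e j)) ((fun j => b (e j)) ∘ τ) =
      ∑ x : {i // q i}, ‖a x - b (σ x)‖ ^ 2 := by
    rw [← Equiv.sum_comp e]
    simp [sqd, hτ]
  rw [h2, sqd, ← Fintype.sum_subtype_add_sum_subtype q]
  have : 0 ≤ ∑ x : {i // ¬ q i}, ‖a x - (b ∘ σ) x‖ ^ 2 :=
    Finset.sum_nonneg fun _ _ => sq_nonneg _
  simp only [Function.comp_apply] at this ⊢
  linarith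

theorem entry {K n : ℕ} (a b : Tup K n) {r : ℝ} (h : Real.sqrt (sqd a b) < r) (i : Fin K) :
    ‖a i - b i‖ < r := by
  refine lt_of_le_of_lt ?_ h
  apply Real.le_sqrt_of_sq_le
  exact Finset.single_le_sum (f := fun i => ‖a i - b i‖ ^ 2) (fun _ _ => sq_nonneg _)
    (Finset.mem_univ i)

end CL1_

open CL1_ in
theorem cl1_proof (hMET : Stmt_MET) : Stmt_CL1 := by
  classical
  intro K n A u p P δ hu hp hδ hsep
  have hq0 : ∀ i, ¬ (u p i = P) → 3 * δ < ‖u p i - P‖ := fun i hi =>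
    (hsep i).resolve_left hi
  obtain ⟨ρ, hρ, hρ2⟩ : ∃ ρ > 0, ∀ z ∈ A ∩ ball p ρ, dG (u z) (u p) < δ := by
    have := (hu p hp).eventually (gt_mem_nhds hδ)
    rw [eventually_nhdsWithin_iff, Metric.eventually_nhds_iff_ball] at this
    obtain ⟨ρ, hρ, h⟩ := this
    exact ⟨ρ, hρ, fun z hz => h z hz.2 hz.1⟩
  -- relabelling
  have hτ : ∀ z, ∃ τ : Equiv.Perm (Fin K), z ∈ A ∩ ball p ρ → ∀ i, ‖u z (τ i) - u p i‖ < δ := by
    intro z
    by_cases hz : z ∈ A ∩ ball p ρ
    · obtain ⟨σ, hσ⟩ := (hMET K n (u z) (u p) (u p)).2.2.2.2.1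
      refine ⟨σ.symm, fun _ i => ?_⟩
      have h1 := hρ2 z hz
      rw [hσ] at h1
      have := entry _ _ h1 (σ.symm i)
      simpa using this
    · exact ⟨1, fun h => absurd h hz⟩
  choose τ hτ using hτ
  set v : ℂ → Tup K n := fun z => u z ∘ τ z with hv
  have hvs : ∀ z, Same (v z) (u z) := fun z => ⟨τ z, rfl⟩
  have hvd : ∀ w z, dG (v w) (v z) = dG (u w) (u z) := fun w z =>
    (hMET K n (v w) (v z) (v z)).2.2.2.2.2.2 _ _ (hvs w) (hvs z)
  have hnear : ∀ z ∈ A ∩ ball p ρ, ∀ i, u p i = P → ‖v z i - P‖ < δ := by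
    intro z hz i hi
    have := hτ z hz i
    rw [hi] at this
    exact this
  have hfar : ∀ z ∈ A ∩ ball p ρ, ∀ i, ¬ (u p i = P) → 2 * δ < ‖v z i - P‖ := by
    intro z hz i hi
    have h1 := hτ z hz i
    have h2 := hq0 i hi
    have h3 : ‖u p i - P‖ ≤ ‖v z i - P‖ + ‖v z i - u p i‖ := by
      have : u p i - P = (v z i - P) - (v z i - u p i) := by abel
      rw [this]
      exact norm_sub_le _ _
    have h4 : ‖v z i - u p i‖ < δ := h1
    linarith
  -- the key step
  have hkey : ∀ w ∈ A ∩ ball p ρ, ∀ z ∈ A ∩ ball p ρ, ∀ σ : Equiv.Perm (Fin K),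
      Real.sqrt (sqd (v w) (v z ∘ σ)) < δ → ∀ i, u p (σ i) = P ↔ u p i = P := by
    intro w hw z hz σ hs i
    have h1 := entry _ _ hs i
    have h1' : ‖v w i - v z (σ i)‖ < δ := h1
    constructor
    · intro h
      by_contra h'
      have h2 := hnear z hz _ h
      have h3 := hfar w hw _ h'
      have h4 : ‖v w i - P‖ ≤ ‖v w i - v z (σ i)‖ + ‖v z (σ i) - P‖ := by
        have : v w i - P = (v w i - v z (σ i)) + (v z (σ i) - P) := by abel
        rw [this]
        exact norm_add_le _ _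
      linarith
    · intro h
      by_contra h'
      have h2 := hnear w hw _ h
      have h3 := hfar z hz _ h'
      have h4 : ‖v z (σ i) - P‖ ≤ ‖v w i - P‖ + ‖v w i - v z (σ i)‖ := by
        have : v z (σ i) - P = (v w i - P) - (v w i - v z (σ i)) := by abel
        rw [this]
        exact norm_sub_le _ _
      linarith
  -- continuity of a cluster
  have hcont : ∀ (q : Fin K → Prop), (∀ i j, (u p i = P ↔ u p j = P) → (q i ↔ q j)) →
      ∀ (m : ℕ) (e : Fin m ≃ {i // q i}), ContG (A ∩ ball p ρ) (fun z j => v z (e j)) := by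
    intro q hq m e z hz
    have hlim : Tendsto (fun w => dG (u w) (u z)) (𝓝[A ∩ ball p ρ] z) (𝓝 0) :=
      (hu z hz.1).mono_left (nhdsWithin_mono _ inter_subset_left)
    refine tendsto_of_tendsto_of_tendsto_of_le_of_le' tendsto_const_nhds hlim ?_ ?_
    · exact Filter.Eventually.of_forall fun w => (hMET m n _ _ (fun j => v z (e j))).1
    · filter_upwards [hlim.eventually (gt_mem_nhds hδ), self_mem_nhdsWithin] with w hw1 hw2
      obtain ⟨σ, hσ⟩ := (hMET K n (v w) (v z) (v z)).2.2.2.2.1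
      rw [← hvd, hσ] at hw1 ⊢
      exact restr _ _ σ q e fun i => hq _ _ (hkey w hw2 z hz σ hw1 i)
  have c1 : Fintype.card {i // u p i = P} = Fintype.card {i // u p i = P} := rfl
  let e1 : Fin (Fintype.card {i // u p i = P}) ≃ {i // u p i = P} :=
    (Fintype.equivFin {i // u p i = P}).symm
  let e2 : Fin (Fintype.card {i // ¬ u p i = P}) ≃ {i // ¬ u p i = P} :=
    (Fintype.equivFin {i // ¬ u p i = P}).symm
  refine ⟨ρ, hρ, Fintype.card {i // u p i = P}, Fintype.card {i // ¬ u p i = P},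
    fun z j => v z (e1 j), fun z j => v z (e2 j), ?_, ?_, ?_, ?_, ?_⟩
  · have h1 := Fintype.card_congr (Equiv.sumCompl fun i => u p i = P)
    rw [Fintype.card_sum] at h1
    simpa using h1
  · rw [Nat.card_eq_fintype_card]
  · exact hcont (fun i => u p i = P) (fun i j h => h) _ e1
  · exact hcont (fun i => ¬ u p i = P) (fun i j h => not_congr h) _ e2
  · intro z hz
    refine ⟨?_, fun i => hnear z hz _ (e1 i).2, fun j => hfar z hz _ (e2 j).2⟩
    rw [← msSplit (v z) (fun i => u p i = P) _ _ e1 e2, hv]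
    exact (msComp _ _).symm

end Pool.Agent.DMB
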