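import Pool.Agent.DMB.Api

/-!
Squad DMB, module CLM: a cluster of a decomposed minimising system is minimising.
-/

set_option autoImplicit false

namespace Pool.Agent.DMB

open MeasureTheory Set Metric Filter Topology
open scoped ENNReal

namespace CLM_

theorem hasGrad_mono {U V : Set ℂ} {f fx fy : ℂ → ℝ} (hVU : V ⊆ U) (h : HasGrad U f fx fy) :
    HasGrad V f fx fy where
  cont := h.cont.mono hVU
  mx := h.mx.mono_set hVU
  my := h.my.mono_set hVU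
  loc := fun C hC hc => h.loc C (hC.trans hVU) hc
  hor := by
    filter_upwards [h.hor] with y hy a b hab hs
    exact hy a b hab fun t ht => hVU (hs t ht)
  ver := by
    filter_upwards [h.ver] with y hy a b hab hs
    exact hy a b hab fun t ht => hVU (hs t ht)

theorem en_mono_lt (hEND : Stmt_END) {K n : ℕ} {U W : Set ℂ} (u : ℂ → Tup K n) (hU : IsOpen U)
    (hW : IsOpen W) (hWU : W ⊆ U) (h : en U u < ⊤) : en W u < ⊤ := by
  obtain ⟨X, Y, hXY, -, -⟩ := (hEND K n U u hU).2.1 h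
  have h1 := (hEND K n U u hU).1 X Y hXY
  have h2 : HasGradV W (fun z => xi (u z)) X Y := fun i l => hasGrad_mono hWU (hXY i l)
  rw [(hEND K n W u hW).1 X Y h2]
  refine lt_of_le_of_lt (lintegral_mono_set hWU) ?_
  rw [← h1]
  exact h

theorem ms_cast {K L n : ℕ} (h : K = L) (a : Tup L n) :
    ms (fun i : Fin K => a (Fin.cast h i)) = ms a := by
  subst h; rfl

theorem dG_cast {K L n : ℕ} (h : K = L) (a b : Tup L n) :
    dG (fun i : Fin K => a (Fin.cast h i)) (fun i : Fin K => b (Fin.cast h i)) = dG a b := by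
  subst h; rfl

theorem ms_const {n : ℕ} (d : ℕ) (c : E n) : ms (fun _ : Fin d => c) = Multiset.replicate d c := by
  unfold ms
  rw [Multiset.map_const']
  simp

open Classical in
/-- one side of the glueing -/
theorem side (hMET : Stmt_MET) (hSYB : Stmt_SYB) (hCAT : Stmt_CAT) (hEND : Stmt_END)
    (hENE : Stmt_ENE) (hENF : Stmt_ENF) {K K1 K2 n : ℕ} (hK : K = K1 + K2) (A O B C : Set ℂ)
    (u : ℂ → Tup K n) (u1 v : ℂ → Tup K1 n) (u2 : ℂ → Tup K2 n) (hO : IsOpen O) (hOA : O ⊆ A)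
    (hB : IsOpen B) (hCB : C ⊆ B) (hC : IsCompact C) (cu : ContG A u) (cu1 : ContG (A ∩ B) u1)
    (cv : ContG (A ∩ B) v) (cu2 : ContG (A ∩ B) u2)
    (hms : ∀ z ∈ B ∩ A, ms (u z) = ms (u1 z) + ms (u2 z))
    (hsame : ∀ z ∈ (A ∩ B) \ C, Same (v z) (u1 z)) (hfu : en O u < ⊤)
    (hfv : en (O ∩ B) v < ⊤) :
    en (O ∩ B) u1 < ⊤ ∧ ∃ V : ℂ → Tup K n,
      (∀ z ∈ B, ms (V z) = ms (v z) + ms (u2 z)) ∧ (∀ z, z ∉ B → V z = u z) ∧
      ContG A V ∧ en O V < ⊤ ∧ (∀ z ∈ A \ C, Same (V z) (u z)) ∧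
      en O V + en (O ∩ B) u1 = en O u + en (O ∩ B) v := by
  have hOB : IsOpen (O ∩ B) := hO.inter hB
  have hOBA : O ∩ B ⊆ A ∩ B := inter_subset_inter_left _ hOA
  have mono : ∀ {L : ℕ} {w : ℂ → Tup L n}, ContG (A ∩ B) w → ContG (O ∩ B) w :=
    fun {L w} h z hz => (h z (hOBA hz)).mono_left (nhdsWithin_mono _ hOBA)
  have hnn : ∀ {L : ℕ} (x y : Tup L n), 0 ≤ dG x y := fun x y => (hMET _ n x y y).1
  -- energies of the two clusters
  have e1 : en (O ∩ B) u = en (O ∩ B) u1 + en (O ∩ B) u2 := by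
    rw [← (hENE K1 K2 n (O ∩ B) u1 u2 hOB (mono cu1) (mono cu2)).2.2]
    refine (hEND K n (O ∩ B) u hOB).2.2 _ _ fun z hz => ?_
    rw [(hSYB n).2.2.2.2]
    exact hms z ⟨hz.2, hOA hz.1⟩
  have hfuB : en (O ∩ B) u < ⊤ := en_mono_lt hEND u hO hOB inter_subset_left hfu
  rw [e1, ENNReal.add_lt_top] at hfuB
  obtain ⟨hf1, hf2⟩ := hfuB
  refine ⟨hf1, ?_⟩
  let V : ℂ → Tup K n := fun z =>
    if z ∈ B then (fun i => Fin.append (v z) (u2 z) (Fin.cast hK i)) else u z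
  have V1 : ∀ z ∈ B, V z = fun i => Fin.append (v z) (u2 z) (Fin.cast hK i) := fun z hz =>
    if_pos hz
  have V2 : ∀ z, z ∉ B → V z = u z := fun z hz => if_neg hz
  have V3 : ∀ z ∈ B, ms (V z) = ms (v z) + ms (u2 z) := fun z hz => by
    rw [V1 z hz, ms_cast, (hSYB n).2.2.2.2]
  have V4 : ∀ z ∈ A \ C, Same (V z) (u z) := by
    intro z hz
    by_cases hzB : z ∈ B
    · rw [(hSYB n).2.2.2.1, V3 z hzB, hms z ⟨hzB, hz.1⟩]
      have := hsame z ⟨⟨hz.1, hzB⟩, hz.2⟩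
      rw [(hSYB n).2.2.2.1] at this
      rw [this]
    · rw [V2 z hzB]
      exact Same.refl' _
  have V5 : ContG A V := by
    intro z hz
    by_cases hzB : z ∈ B
    · have hnh : 𝓝[A] z = 𝓝[A ∩ B] z := by
        rw [nhdsWithin_inter_of_mem']
        exact mem_nhdsWithin_of_mem_nhds (hB.mem_nhds hzB)
      rw [hnh]
      have t1 := cv z ⟨hz, hzB⟩
      have t2 := cu2 z ⟨hz, hzB⟩
      have t3 : Tendsto (fun w => Real.sqrt (dG (v w) (v z) ^ 2 + dG (u2 w) (u2 z) ^ 2))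
          (𝓝[A ∩ B] z) (𝓝 0) := by
        have := ((t1.pow 2).add (t2.pow 2)).sqrt
        simpa using this
      refine tendsto_of_tendsto_of_tendsto_of_le_of_le' tendsto_const_nhds t3
        (Eventually.of_forall fun w => hnn _ _) ?_
      filter_upwards [self_mem_nhdsWithin] with w hw
      rw [V1 z hzB, V1 w hw.2, dG_cast]
      apply Real.le_sqrt_of_sq_le
      have := (hCAT K1 K2 n (v w) (u2 w)).1 (v z) (u2 z)
      exact this
    · have hzC : z ∉ C := fun h => hzB (hCB h)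
      have t := cu z hz
      refine t.congr' ?_
      filter_upwards [self_mem_nhdsWithin,
        mem_nhdsWithin_of_mem_nhds (hC.isClosed.isOpen_compl.mem_nhds hzC)] with w hw hwC
      exact (hMET K n (u w) (u z) (u z)).2.2.2.2.2.2 _ _ (V4 w ⟨hw, hwC⟩).symm'
        (V4 z ⟨hz, hzC⟩).symm'
  have e2 : en (O ∩ B) V = en (O ∩ B) v + en (O ∩ B) u2 := by
    rw [← (hENE K1 K2 n (O ∩ B) v u2 hOB (mono cv) (mono cu2)).2.2]
    refine (hEND K n (O ∩ B) V hOB).2.2 _ _ fun z hz => ?_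
    rw [(hSYB n).2.2.2.2]
    exact V3 z hz.2
  have hopen : IsOpen (O \ (C ∩ O)) := by
    have : O \ (C ∩ O) = O ∩ Cᶜ := by
      ext z
      simp only [Set.mem_sdiff, mem_inter_iff, mem_compl_iff]
      tauto
    rw [this]
    exact hO.inter hC.isClosed.isOpen_compl
  have hfV : en (O ∩ B) V < ⊤ := by
    rw [e2, ENNReal.add_lt_top]
    exact ⟨hfv, hf2⟩
  obtain ⟨-, g2, g3⟩ := hENF K n O (O ∩ B) (C ∩ O) u V hO hOB inter_subset_left
    (fun z hz => ⟨hz.2, hCB hz.1⟩) hopen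
    (fun z hz => V4 z ⟨hOA hz.1, fun h => hz.2 ⟨h, hz.1⟩⟩) hfu hfV
  refine ⟨V, V3, V2, V5, g2, V4, ?_⟩
  rw [e1, e2, ← add_assoc, ← add_assoc] at g3
  exact (ENNReal.add_left_inj hf2.ne).1 g3

end CLM_

open CLM_ in
theorem clm_proof (hMET : Stmt_MET) (hSYB : Stmt_SYB) (hCAT : Stmt_CAT) (hEND : Stmt_END)
    (hENE : Stmt_ENE) (hENF : Stmt_ENF) : Stmt_CLM := by
  intro k d k1 d1 k2 d2 n Om Op Omi ga B φ up um up1 um1 up2 um2 hk hd hsp hmin hB hBOm cup1 cum1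
    cup2 cum2 hmsp hmsm hbd1 hbd2
  subst hk hd
  obtain ⟨hsys, hmin⟩ := hmin
  have hsub1 : Op ∩ B ∪ ga ∩ B = (Op ∪ ga) ∩ B := (union_inter_distrib_right _ _ _).symm
  have hsub2 : Omi ∩ B ∪ ga ∩ B = (Omi ∪ ga) ∩ B := (union_inter_distrib_right _ _ _).symm
  have hK : k1 + k2 + (d1 + d2) = (k1 + d1) + (k2 + d2) := by omega
  have F1 := fun (v : ℂ → Tup (k1 + d1) n) (C : Set ℂ) (hCB : C ⊆ B) (hC : IsCompact C) =>
    side hMET hSYB hCAT hEND hENE hENF hK (Op ∪ ga) Op B C up up1 v up2 hsp.openOp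
      subset_union_left hB hCB hC hsys.cp cup1
  have F2 := fun (v : ℂ → Tup k1 n) (C : Set ℂ) (hCB : C ⊆ B) (hC : IsCompact C) =>
    side hMET hSYB hCAT hEND hENE hENF rfl (Omi ∪ ga) Omi B C um um1 v um2 hsp.openOmi
      subset_union_left hB hCB hC hsys.cm cum1
  have hen : ∀ {K K1 K2 : ℕ} (O A : Set ℂ) (u : ℂ → Tup K n) (u1 : ℂ → Tup K1 n)
      (u2 : ℂ → Tup K2 n), IsOpen O → O ⊆ A → ContG (A ∩ B) u1 → ContG (A ∩ B) u2 →
      (∀ z ∈ B ∩ A, ms (u z) = ms (u1 z) + ms (u2 z)) → en O u < ⊤ → en (O ∩ B) u1 < ⊤ := by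
    intro K K1 K2 O A u u1 u2 hO hOA c1 c2 hms hf
    have hOB : IsOpen (O ∩ B) := hO.inter hB
    have hOBA : O ∩ B ⊆ A ∩ B := inter_subset_inter_left _ hOA
    have mono : ∀ {L : ℕ} {w : ℂ → Tup L n}, ContG (A ∩ B) w → ContG (O ∩ B) w :=
      fun {L w} h z hz => (h z (hOBA hz)).mono_left (nhdsWithin_mono _ hOBA)
    have e1 : en (O ∩ B) u = en (O ∩ B) u1 + en (O ∩ B) u2 := by
      rw [← (hENE K1 K2 n (O ∩ B) u1 u2 hOB (mono c1) (mono c2)).2.2]
      refine (hEND K n (O ∩ B) u hOB).2.2 _ _ fun z hz => ?_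
      rw [(hSYB n).2.2.2.2]
      exact hms z ⟨hz.2, hOA hz.1⟩
    have := en_mono_lt hEND u hO hOB inter_subset_left hf
    rw [e1, ENNReal.add_lt_top] at this
    exact this.1
  refine ⟨⟨?_, ?_, ?_, ?_, ?_⟩, ?_⟩
  · rw [hsub1]; exact cup1
  · rw [hsub2]; exact cum1
  · exact fun z hz => hbd1 z ⟨hz.2, hz.1⟩
  · exact hen Op (Op ∪ ga) up up1 up2 hsp.openOp subset_union_left cup1 cup2 hmsp hsys.fp
  · exact hen Omi (Omi ∪ ga) um um1 um2 hsp.openOmi subset_union_left cum1 cum2 hmsm hsys.fm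
  · rintro vp vm hv ⟨C, hCB, hC, hsp1, hsm1⟩
    have cvp := hv.cp
    have cvm := hv.cm
    rw [hsub1] at cvp hsp1
    rw [hsub2] at cvm hsm1
    obtain ⟨-, Vp, p1, p2, p3, p4, p5, p6⟩ := F1 vp C hCB hC cvp cup2 hmsp hsp1 hsys.fp hv.fp
    obtain ⟨-, Vm, m1, m2, m3, m4, m5, m6⟩ := F2 vm C hCB hC cvm cum2 hmsm hsm1 hsys.fm hv.fm
    have hV : Sys (k1 + k2) (d1 + d2) n Op Omi ga φ Vp Vm := by
      refine ⟨p3, m3, fun z hz => ?_, p4, m4⟩
      by_cases hzB : z ∈ B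
      · rw [(hSYB n).2.2.2.1, p1 z hzB, (hSYB n).2.2.2.2, m1 z hzB]
        have b1 := hv.bd z ⟨hz, hzB⟩
        have b2 := hbd2 z ⟨hzB, hz⟩
        rw [(hSYB n).2.2.2.1, (hSYB n).2.2.2.2] at b1 b2
        rw [b1, b2, ms_const, ms_const, ms_const, Multiset.replicate_add]
        abel
      · rw [p2 z hzB, m2 z hzB]
        exact hsys.bd z hz
    have key := hmin Vp Vm hV ⟨C, hCB.trans hBOm, hC, p5, m5⟩
    have key2 : (en Op up + en Omi um) + (en (Op ∩ B) up1 + en (Omi ∩ B) um1) ≤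
        (en Op up + en Omi um) + (en (Op ∩ B) vp + en (Omi ∩ B) vm) := by
      calc (en Op up + en Omi um) + (en (Op ∩ B) up1 + en (Omi ∩ B) um1)
          ≤ (en Op Vp + en Omi Vm) + (en (Op ∩ B) up1 + en (Omi ∩ B) um1) := by gcongr
        _ = (en Op Vp + en (Op ∩ B) up1) + (en Omi Vm + en (Omi ∩ B) um1) := by
          rw [add_add_add_comm]
        _ = (en Op up + en (Op ∩ B) vp) + (en Omi um + en (Omi ∩ B) vm) := by rw [p6, m6]
        _ = (en Op up + en Omi um) + (en (Op ∩ B) vp + en (Omi ∩ B) vm) := by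
          rw [add_add_add_comm]
    have hfin : en Op up + en Omi um ≠ ⊤ := (ENNReal.add_lt_top.2 ⟨hsys.fp, hsys.fm⟩).ne
    exact (ENNReal.add_le_add_iff_left hfin).1 key2

end Pool.Agent.DMB
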