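import Pool.Agent.DMB.Api

/-!
DMB, module CLU: at a point of the interface where the sheets do not all coincide the minimising
system splits into two smaller minimising systems.
-/

namespace Pool.Agent.DMB

open MeasureTheory Set Metric Filter Topology
open scoped ENNReal

namespace CLU_

variable {K n : ℕ}

theorem ms_card (a : Tup K n) : Multiset.card (ms a) = K := by simp [ms]

theorem mem_ms {a : Tup K n} {x : E n} : x ∈ ms a ↔ ∃ i, a i = x := by
  simp [ms]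

theorem split_eq {near : E n → Prop} {A1 A2 B1 B2 : Multiset (E n)} (h : A1 + A2 = B1 + B2)
    (hA1 : ∀ x ∈ A1, near x) (hA2 : ∀ x ∈ A2, ¬ near x) (hB1 : ∀ x ∈ B1, near x)
    (hB2 : ∀ x ∈ B2, ¬ near x) : A1 = B1 ∧ A2 = B2 := by
  classical
  have e1 : A1 = B1 := by
    have h1 := congrArg (Multiset.filter near) h
    rw [Multiset.filter_add, Multiset.filter_add, Multiset.filter_eq_self.2 hA1,
      Multiset.filter_eq_self.2 hB1, Multiset.filter_eq_nil.2 hA2, Multiset.filter_eq_nil.2 hB2,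
      add_zero, add_zero] at h1
    exact h1
  refine ⟨e1, ?_⟩
  rw [e1] at h
  exact add_left_cancel h

theorem exists_delta (a : Tup K n) (P : E n) :
    ∃ δ > 0, ∀ i, a i = P ∨ 3 * δ < ‖a i - P‖ := by
  have h : ∀ᶠ δ : ℝ in 𝓝[>] 0, ∀ i, a i = P ∨ 3 * δ < ‖a i - P‖ := by
    rw [Filter.eventually_all]
    intro i
    by_cases hi : a i = P
    · exact Filter.Eventually.of_forall fun _ => Or.inl hi
    · have h0 : 0 < ‖a i - P‖ := norm_pos_iff.2 (sub_ne_zero.2 hi)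
      have h1 : Tendsto (fun δ : ℝ => 3 * δ) (𝓝[>] 0) (𝓝 (3 * 0)) :=
        ((continuous_const.mul continuous_id).tendsto 0).mono_left nhdsWithin_le_nhds
      rw [mul_zero] at h1
      filter_upwards [h1.eventually_lt_const h0] with δ hδ
      exact Or.inr hδ
  obtain ⟨δ, h1, h2⟩ := (h.and self_mem_nhdsWithin).exists
  exact ⟨δ, h2, h1⟩

theorem contG_mono {A A' : Set ℂ} {u : ℂ → Tup K n} (h : ContG A u) (hA : A' ⊆ A) :
    ContG A' u := fun z hz => (h z (hA hz)).mono_left (nhdsWithin_mono z hA)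

end CLU_

open CLU_ in
theorem clu_proof (_hMET : Stmt_MET) (hSYB : Stmt_SYB) (hCL1 : Stmt_CL1) (hCLM : Stmt_CLM) :
    Stmt_CLU := by
  intro k d n Om Op Omi ga φ up um p _hd hS hφ hmin hp hne
  obtain ⟨-, -, -, hsame, happ⟩ := hSYB n
  have hsys := hmin.1
  -- the multiset identity on the interface
  have hbd : ∀ z ∈ ga, ms (up z) = ms (um z) + ms (fun _ : Fin d => φ z) := by
    intro z hz
    rw [← happ]
    exact (hsame _ _ _).1 (hsys.bd z hz)
  -- the point `P`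
  obtain ⟨P, ⟨i0, hi0⟩, hPφ⟩ : ∃ P, (∃ i, up p i = P) ∧ (0 < d → P = φ p) := by
    rcases Nat.eq_zero_or_pos d with h0 | h0
    · have : ∃ i : Fin (k + d), True := by
        by_contra hcon
        apply hne
        intro i
        exact absurd ⟨i, trivial⟩ hcon
      obtain ⟨i, -⟩ := this
      exact ⟨up p i, ⟨i, rfl⟩, fun h => absurd h (by omega)⟩
    · refine ⟨φ p, ?_, fun _ => rfl⟩
      have : φ p ∈ ms (up p) := by
        rw [hbd p hp, Multiset.mem_add]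
        exact Or.inr (mem_ms.2 ⟨⟨0, h0⟩, rfl⟩)
      exact mem_ms.1 this
  obtain ⟨δ, hδ, hgap⟩ := exists_delta (up p) P
  have hgapm : ∀ i, um p i = P ∨ 3 * δ < ‖um p i - P‖ := by
    intro i
    have : um p i ∈ ms (up p) := by
      rw [hbd p hp, Multiset.mem_add]
      exact Or.inl (mem_ms.2 ⟨i, rfl⟩)
    obtain ⟨j, hj⟩ := mem_ms.1 this
    rw [← hj]
    exact hgap j
  obtain ⟨ρ1, hρ1, K1, K2, u1, u2, hK, -, hu1, hu2, hu⟩ :=
    hCL1 (k + d) n (Op ∪ ga) up p P δ hsys.cp (Or.inr hp) hδ hgap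
  obtain ⟨ρ2, hρ2, k1, k2, w1, w2, hk, -, hw1, hw2, hw⟩ :=
    hCL1 k n (Omi ∪ ga) um p P δ hsys.cm (Or.inr hp) hδ hgapm
  have hpOm : p ∈ Om := by rw [hS.union]; exact Or.inl (Or.inr hp)
  obtain ⟨ρ3, hρ3, hball⟩ := Metric.isOpen_iff.1 hS.openOm p hpOm
  obtain ⟨ρ4, hρ4, hφc⟩ : ∃ ρ4 > 0, ∀ z ∈ ga ∩ ball p ρ4, ‖φ z - φ p‖ < δ := by
    have h1 := (Metric.continuousWithinAt_iff.1 (hφ p hp)) δ hδ
    obtain ⟨ρ4, h2, h3⟩ := h1
    refine ⟨ρ4, h2, fun z hz => ?_⟩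
    rw [← dist_eq_norm]
    exact h3 hz.1 hz.2
  set ρ := min (min ρ1 ρ2) (min ρ3 ρ4) with hρdef
  have hρ : 0 < ρ := lt_min (lt_min hρ1 hρ2) (lt_min hρ3 hρ4)
  have hb1 : ball p ρ ⊆ ball p ρ1 := ball_subset_ball ((min_le_left _ _).trans (min_le_left _ _))
  have hb2 : ball p ρ ⊆ ball p ρ2 := ball_subset_ball ((min_le_left _ _).trans (min_le_right _ _))
  have hb3 : ball p ρ ⊆ ball p ρ3 := ball_subset_ball ((min_le_right _ _).trans (min_le_left _ _))
  have hb4 : ball p ρ ⊆ ball p ρ4 := ball_subset_ball ((min_le_right _ _).trans (min_le_right _ _))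
  have hpB : p ∈ ball p ρ := mem_ball_self hρ
  -- facts in the ball
  have hU : ∀ z ∈ ball p ρ ∩ (Op ∪ ga), ms (up z) = ms (u1 z) + ms (u2 z) ∧
      (∀ i, ‖u1 z i - P‖ < δ) ∧ (∀ j, 2 * δ < ‖u2 z j - P‖) :=
    fun z hz => hu z ⟨hz.2, hb1 hz.1⟩
  have hW : ∀ z ∈ ball p ρ ∩ (Omi ∪ ga), ms (um z) = ms (w1 z) + ms (w2 z) ∧
      (∀ i, ‖w1 z i - P‖ < δ) ∧ (∀ j, 2 * δ < ‖w2 z j - P‖) :=
    fun z hz => hw z ⟨hz.2, hb2 hz.1⟩
  have hsplit : ∀ z ∈ ball p ρ ∩ ga, ms (u1 z) = ms (w1 z) + ms (fun _ : Fin d => φ z) ∧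
      ms (u2 z) = ms (w2 z) := by
    intro z hz
    obtain ⟨a1, a2, a3⟩ := hU z ⟨hz.1, Or.inr hz.2⟩
    obtain ⟨b1, b2, b3⟩ := hW z ⟨hz.1, Or.inr hz.2⟩
    have e : ms (u1 z) + ms (u2 z) = (ms (w1 z) + ms (fun _ : Fin d => φ z)) + ms (w2 z) := by
      rw [← a1, hbd z hz.2, b1]
      abel
    refine split_eq (near := fun x => ‖x - P‖ < δ) e ?_ ?_ ?_ ?_
    · intro x hx
      obtain ⟨i, rfl⟩ := mem_ms.1 hx
      exact a2 i
    · intro x hx
      obtain ⟨i, rfl⟩ := mem_ms.1 hx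
      have := a3 i
      linarith
    · intro x hx
      rcases Multiset.mem_add.1 hx with hx | hx
      · obtain ⟨i, rfl⟩ := mem_ms.1 hx
        exact b2 i
      · obtain ⟨i, rfl⟩ := mem_ms.1 hx
        have h0 : 0 < d := i.pos
        rw [hPφ h0]
        exact hφc z ⟨hz.2, hb4 hz.1⟩
    · intro x hx
      obtain ⟨i, rfl⟩ := mem_ms.1 hx
      have := b3 i
      linarith
  -- dimensions
  have hK1 : K1 = k1 + d := by
    have h := congrArg Multiset.card (hsplit p ⟨hpB, hp⟩).1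
    rw [Multiset.card_add, ms_card, ms_card, ms_card] at h
    exact h
  have hK2 : K2 = k2 := by
    have h := congrArg Multiset.card (hsplit p ⟨hpB, hp⟩).2
    rw [ms_card, ms_card] at h
    exact h
  obtain ⟨a1, a2, a3⟩ := hU p ⟨hpB, Or.inr hp⟩
  have hK1pos : 0 < K1 := by
    have hmem : P ∈ ms (up p) := mem_ms.2 ⟨i0, hi0⟩
    rw [a1, Multiset.mem_add] at hmem
    rcases hmem with h | h
    · obtain ⟨i, -⟩ := mem_ms.1 h
      exact i.pos
    · obtain ⟨j, hj⟩ := mem_ms.1 h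
      have := a3 j
      rw [hj, sub_self, norm_zero] at this
      linarith
  have hK2pos : 0 < K2 := by
    have : ∃ i, up p i ≠ P := by
      by_contra hcon
      push Not at hcon
      exact hne fun i j => (hcon i).trans (hcon j).symm
    obtain ⟨i, hi⟩ := this
    have hmem : up p i ∈ ms (up p) := mem_ms.2 ⟨i, rfl⟩
    rw [a1, Multiset.mem_add] at hmem
    rcases hmem with h | h
    · obtain ⟨j, hj⟩ := mem_ms.1 h
      have h1 := a2 j
      rw [hj] at h1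
      rcases hgap i with h2 | h2
      · exact absurd h2 hi
      · linarith
    · obtain ⟨j, -⟩ := mem_ms.1 h
      exact j.pos
  subst hK1
  subst hK2
  have hcu1 : ContG ((Op ∪ ga) ∩ ball p ρ) u1 :=
    contG_mono hu1 (inter_subset_inter_right _ hb1)
  have hcu2 : ContG ((Op ∪ ga) ∩ ball p ρ) u2 :=
    contG_mono hu2 (inter_subset_inter_right _ hb1)
  have hcw1 : ContG ((Omi ∪ ga) ∩ ball p ρ) w1 :=
    contG_mono hw1 (inter_subset_inter_right _ hb2)
  have hcw2 : ContG ((Omi ∪ ga) ∩ ball p ρ) w2 :=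
    contG_mono hw2 (inter_subset_inter_right _ hb2)
  have hBOm : ball p ρ ⊆ Om := hb3.trans hball
  have hs1 : ∀ z ∈ ball p ρ ∩ ga, Same (u1 z) (Fin.append (w1 z) (fun _ : Fin d => φ z)) := by
    intro z hz
    rw [hsame, happ]
    exact (hsplit z hz).1
  have hs2 : ∀ z ∈ ball p ρ ∩ ga,
      Same (n := n) (K := K2 + 0) (u2 z) (Fin.append (w2 z) (fun _ : Fin 0 => φ z)) := by
    intro z hz
    refine (hsame (K2 + 0) _ _).2 ?_
    rw [happ]
    have h0 : ms (fun _ : Fin 0 => φ z) = 0 := by simp [ms]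
    rw [h0]
    exact (hsplit z hz).2.trans (add_zero _).symm
  refine ⟨ρ, hρ, hBOm, k1, d, K2, 0, hk, by omega, by omega, by omega, u1, w1, u2, w2, ?_, ?_,
    ?_, ?_⟩
  · exact hCLM k d k1 d K2 0 n Om Op Omi ga (ball p ρ) φ up um u1 w1 u2 w2 hk (by omega) hS hmin
      isOpen_ball hBOm hcu1 hcw1 hcu2 hcw2 (fun z hz => (hU z hz).1) (fun z hz => (hW z hz).1)
      hs1 hs2
  · exact hCLM k d K2 0 k1 d n Om Op Omi ga (ball p ρ) φ up um u2 w2 u1 w1 (by omega) (by omega)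
      hS hmin isOpen_ball hBOm hcu2 hcw2 hcu1 hcw1
      (fun z hz => by rw [(hU z hz).1]; exact add_comm (ms (u1 z)) (ms (u2 z)))
      (fun z hz => by rw [(hW z hz).1]; exact add_comm (ms (w1 z)) (ms (w2 z)))
      hs2 hs1
  · intro z hz
    refine ⟨(hU z hz).1, fun i j hij => ?_⟩
    have h1 := (hU z hz).2.1 i
    have h2 := (hU z hz).2.2 j
    rw [hij] at h1
    linarith
  · intro z hz
    refine ⟨(hW z hz).1, fun i j hij => ?_⟩
    have h1 := (hW z hz).2.1 i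
    have h2 := (hW z hz).2.2 j
    rw [hij] at h1
    linarith

end Pool.Agent.DMB
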