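import Pool.Agent.DMB.Api

namespace Pool.Agent.DMB

open MeasureTheory Set Metric Filter Topology
open scoped ENNReal

namespace CMP_

variable {K n : ℕ}

theorem nsq_sub_le (v w : Mat K n) : nsq (v - w) ≤ 2 * (nsq v + nsq w) := by
  rw [nsq_sub]
  have h := two_abs_dt_le v w
  have h2 := neg_abs_le (dt v w)
  linarith

theorem nsq_add_le (v w : Mat K n) : nsq (v + w) ≤ 2 * (nsq v + nsq w) := by
  rw [nsq_add]
  have h := two_dt_le v w
  linarith

theorem qd_add (a : Fin 3 → ℝ) (X Y X' Y' : Mat K n) :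
    qd a (X + X') (Y + Y') = qd a X Y + 2 * bl a X Y X' Y' + qd a X' Y' := by
  unfold qd bl
  rw [nsq_add, nsq_add, dt_add_left, dt_add_right, dt_add_right, dt_comm X' Y]
  ring

theorem bl_sub_left (a : Fin 3 → ℝ) (X Y X' Y' U V : Mat K n) :
    bl a (X - X') (Y - Y') U V = bl a X Y U V - bl a X' Y' U V := by
  unfold bl
  rw [dt_sub_left, dt_sub_left, dt_sub_left, dt_sub_left]
  ring

theorem rw_sub (a b : Fin n → ℝ) : rw' K (fun j => a j - b j) = rw' K a - rw' K b := rfl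

theorem side1 (s c M : ℝ) (hs : 0 < s) (U : Mat K n) (e h : Fin n → ℝ)
    (heh : ∀ j, |e j - h j| ≤ c * s) :
    2 * dt U (rw' K e) ≤ 2 * dt U (rw' K h) + s * nsq U + K * n * c ^ 2 * s := by
  have h1 := two_dt_le (s • U) (rw' K (fun j => e j - h j))
  rw [dt_smul_left, nsq_smul, rw_sub, dt_sub_right, ← rw_sub, nsq_rw] at h1
  have h2 : vsq (fun j => e j - h j) ≤ n * (c ^ 2 * s ^ 2) := by
    unfold vsq
    calc ∑ l, (e l - h l) ^ 2 ≤ ∑ _l : Fin n, (c * s) ^ 2 := by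
          apply Finset.sum_le_sum
          intro j _
          rw [← sq_abs (e j - h j)]
          exact pow_le_pow_left₀ (abs_nonneg _) (heh j) 2
      _ = n * (c ^ 2 * s ^ 2) := by simp [mul_pow]
  have h3 : (K : ℝ) * vsq (fun j => e j - h j) ≤ K * (n * (c ^ 2 * s ^ 2)) :=
    mul_le_mul_of_nonneg_left h2 (by positivity)
  have h4 : s * (2 * dt U (rw' K e)) ≤
      s * (2 * dt U (rw' K h) + s * nsq U + K * n * c ^ 2 * s) := by
    nlinarith
  exact le_of_mul_le_mul_left h4 hs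

theorem side (a : Fin 3 → ℝ) (C s V1 : ℝ) (hC : 0 ≤ C) (hs : 0 < s) (h0 : |a 0 - 1| ≤ C * s)
    (h1 : |a 1| ≤ C * s) (h2 : |a 2 - 1| ≤ C * s)
    (P Q P' Q' : Mat K n) (ex ey hx hy : Fin n → ℝ) (hex : ∀ j, |ex j - hx j| ≤ C * s)
    (hey : ∀ j, |ey j - hy j| ≤ C * s) (hV : K * (vsq ex + vsq ey) ≤ V1) :
    qd a (P' + rw' K ex) (Q' + rw' K ey) - qd a (P + rw' K ex) (Q + rw' K ey) ≤
      (1 + (6 * C + 2) * s) * (nsq P' + nsq Q') - (1 - (6 * C + 2) * s) * (nsq P + nsq Q) +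
      2 * (dt (P' - P) (rw' K hx) + dt (Q' - Q) (rw' K hy)) +
      s * (2 * C * V1 + 2 * K * n * C ^ 2) := by
  have e1 : qd a (P' + rw' K ex) (Q' + rw' K ey) - qd a (P + rw' K ex) (Q + rw' K ey) =
      qd a P' Q' - qd a P Q + 2 * bl a (P' - P) (Q' - Q) (rw' K ex) (rw' K ey) := by
    rw [qd_add, qd_add, bl_sub_left]; ring
  have h3 := (abs_le.mp (qd_close a (C * s) h0 h1 h2 P' Q')).2
  have h4 := (abs_le.mp (qd_close a (C * s) h0 h1 h2 P Q)).1
  have h5 := (abs_le.mp (bl_close a (C * s) h0 h1 h2 (P' - P) (Q' - Q) (rw' K ex)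
    (rw' K ey))).2
  have hu0 : 0 ≤ nsq (P' - P) + nsq (Q' - Q) := add_nonneg (nsq_nonneg _) (nsq_nonneg _)
  have hv0 : 0 ≤ nsq (rw' K ex) + nsq (rw' K ey) := add_nonneg (nsq_nonneg _) (nsq_nonneg _)
  have h6 : Real.sqrt (nsq (P' - P) + nsq (Q' - Q)) * Real.sqrt (nsq (rw' K ex) + nsq (rw' K ey))
      ≤ ((nsq (P' - P) + nsq (Q' - Q)) + (nsq (rw' K ex) + nsq (rw' K ey))) / 2 := by
    have := two_mul_le_add_sq (Real.sqrt (nsq (P' - P) + nsq (Q' - Q)))
      (Real.sqrt (nsq (rw' K ex) + nsq (rw' K ey)))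
    rw [Real.sq_sqrt hu0, Real.sq_sqrt hv0] at this
    linarith
  have h7 : nsq (rw' K ex) + nsq (rw' K ey) ≤ V1 := by
    rw [nsq_rw, nsq_rw]; linarith
  have h8 := side1 s C 0 hs (P' - P) ex hx hex
  have h9 := side1 s C 0 hs (Q' - Q) ey hy hey
  have h10 := nsq_sub_le P' P
  have h11 := nsq_sub_le Q' Q
  have hCs : 0 ≤ C * s := by positivity
  have h12 : 2 * (C * s) * (Real.sqrt (nsq (P' - P) + nsq (Q' - Q)) *
      Real.sqrt (nsq (rw' K ex) + nsq (rw' K ey))) ≤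
      C * s * (2 * (nsq P' + nsq P + (nsq Q' + nsq Q)) + V1) := by
    have : 2 * (C * s) * (Real.sqrt (nsq (P' - P) + nsq (Q' - Q)) *
      Real.sqrt (nsq (rw' K ex) + nsq (rw' K ey))) ≤ 2 * (C * s) *
        ((2 * (nsq P' + nsq P + (nsq Q' + nsq Q)) + V1) / 2) := by
      apply mul_le_mul_of_nonneg_left _ (by positivity)
      linarith
    linarith
  have h13 : s * nsq (P' - P) ≤ s * (2 * (nsq P' + nsq P)) := mul_le_mul_of_nonneg_left h10 hs.le
  have h14 : s * nsq (Q' - Q) ≤ s * (2 * (nsq Q' + nsq Q)) := mul_le_mul_of_nonneg_left h11 hs.le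
  rw [e1]
  nlinarith

/-! ### square integrable fields -/

structure L2 (U : Set ℂ) (X : ℂ → Mat K n) : Prop where
  m : ∀ i l, AEStronglyMeasurable (fun z => X z i l) (volume.restrict U)
  i : IntegrableOn (fun z => nsq (X z)) U

variable {U : Set ℂ} {X Y : ℂ → Mat K n}

theorem dtm (hX : ∀ i l, AEStronglyMeasurable (fun z => X z i l) (volume.restrict U))
    (hY : ∀ i l, AEStronglyMeasurable (fun z => Y z i l) (volume.restrict U)) :
    AEStronglyMeasurable (fun z => dt (X z) (Y z)) (volume.restrict U) := by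
  unfold dt
  apply Finset.aestronglyMeasurable_fun_sum
  intro i _
  apply Finset.aestronglyMeasurable_fun_sum
  intro l _
  exact (hX i l).mul (hY i l)

theorem nsm (hX : ∀ i l, AEStronglyMeasurable (fun z => X z i l) (volume.restrict U)) :
    AEStronglyMeasurable (fun z => nsq (X z)) (volume.restrict U) := by
  have := dtm hX hX
  simpa only [← nsq_eq_dt] using this

theorem L2.mono {V : Set ℂ} (h : L2 U X) (hV : V ⊆ U) : L2 V X :=
  ⟨fun i l => (h.m i l).mono_set hV, h.i.mono_set hV⟩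

theorem L2.dti (hX : L2 U X) (hY : L2 U Y) : IntegrableOn (fun z => dt (X z) (Y z)) U := by
  apply Integrable.mono' ((hX.i.add hY.i).div_const 2) (dtm hX.m hY.m)
  filter_upwards with z
  have := two_abs_dt_le (X z) (Y z)
  rw [Real.norm_eq_abs]
  simp only [Pi.add_apply]
  linarith

theorem L2.add (hX : L2 U X) (hY : L2 U Y) : L2 U (fun z => X z + Y z) := by
  have hm : ∀ i l, AEStronglyMeasurable (fun z => (X z + Y z) i l) (volume.restrict U) :=
    fun i l => (hX.m i l).add (hY.m i l)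
  refine ⟨hm, ?_⟩
  apply Integrable.mono' ((hX.i.add hY.i).const_mul 2) (nsm hm)
  filter_upwards with z
  rw [Real.norm_eq_abs, abs_of_nonneg (nsq_nonneg _)]
  exact nsq_add_le _ _

theorem L2.sub (hX : L2 U X) (hY : L2 U Y) : L2 U (fun z => X z - Y z) := by
  have hm : ∀ i l, AEStronglyMeasurable (fun z => (X z - Y z) i l) (volume.restrict U) :=
    fun i l => (hX.m i l).sub (hY.m i l)
  refine ⟨hm, ?_⟩
  apply Integrable.mono' ((hX.i.add hY.i).const_mul 2) (nsm hm)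
  filter_upwards with z
  rw [Real.norm_eq_abs, abs_of_nonneg (nsq_nonneg _)]
  exact nsq_sub_le _ _

theorem L2.row {e : ℂ → Fin n → ℝ} (hU : MeasurableSet U) (hUf : volume U < ⊤)
    (he : ∀ j, AEStronglyMeasurable (fun z => e z j) (volume.restrict U)) (M : ℝ)
    (hM : ∀ z ∈ U, ∀ j, |e z j| ≤ M) : L2 U (fun z => rw' K (e z)) := by
  have hm : ∀ i l, AEStronglyMeasurable (fun z => rw' K (e z) i l) (volume.restrict U) :=
    fun i l => he l
  refine ⟨hm, ?_⟩
  have hc : IntegrableOn (fun _ : ℂ => (K : ℝ) * (n * M ^ 2)) U :=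
    integrableOn_const hUf.ne enorm_ne_top
  apply Integrable.mono' hc (nsm hm)
  filter_upwards [ae_restrict_mem hU] with z hz
  rw [Real.norm_eq_abs, abs_of_nonneg (nsq_nonneg _), nsq_rw]
  apply mul_le_mul_of_nonneg_left _ (by positivity)
  unfold vsq
  calc ∑ l, (e z l) ^ 2 ≤ ∑ _l : Fin n, M ^ 2 := by
        apply Finset.sum_le_sum
        intro j _
        rw [← sq_abs (e z j)]
        exact pow_le_pow_left₀ (abs_nonneg _) (hM z hz j) 2
    _ = n * M ^ 2 := by simp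

theorem L2.cdt {a : ℂ → ℝ} (hU : MeasurableSet U) (ha : Measurable a) (M : ℝ)
    (hM : ∀ z ∈ U, |a z| ≤ M) (hX : L2 U X) (hY : L2 U Y) :
    IntegrableOn (fun z => a z * dt (X z) (Y z)) U := by
  apply Integrable.bdd_mul (c := M) (hX.dti hY) ha.aestronglyMeasurable
  filter_upwards [ae_restrict_mem hU] with z hz
  exact hM z hz

theorem L2.qdi {a : ℂ → Fin 3 → ℝ} (hU : MeasurableSet U) (ha : ∀ j, Measurable (fun z => a z j))
    (M : ℝ) (hM : ∀ z ∈ U, ∀ j, |a z j| ≤ M) (hX : L2 U X) (hY : L2 U Y) :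
    IntegrableOn (fun z => qd (a z) (X z) (Y z)) U := by
  have h1 := hX.cdt hU (ha 0) M (fun z hz => hM z hz 0) hX
  have h2 := hX.cdt hU (ha 1) M (fun z hz => hM z hz 1) hY
  have h3 := hY.cdt hU (ha 2) M (fun z hz => hM z hz 2) hY
  have e : (fun z => qd (a z) (X z) (Y z)) = fun z => (a z 0 * dt (X z) (X z) +
      2 * (a z 1 * dt (X z) (Y z))) + a z 2 * dt (Y z) (Y z) := by
    funext z
    rw [qd, nsq_eq_dt, nsq_eq_dt]; ring
  rw [e]
  exact (h1.add (h2.const_mul 2)).add h3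

/-! ### continuity -/

theorem xi_abs (hMET : Stmt_MET) (hXIL : Stmt_XIL) (a b : Tup K n) (i : Fin K) (l : Fin n) :
    |xi a i l - xi b i l| ≤ dG a b := by
  have h1 := (hXIL K n a b).1
  have h2 : (xi a i l - xi b i l) ^ 2 ≤ nsq (xi a - xi b) := by
    unfold nsq
    calc (xi a i l - xi b i l) ^ 2 ≤ ∑ l, ((xi a - xi b) i l) ^ 2 :=
          Finset.single_le_sum (f := fun l => ((xi a - xi b) i l) ^ 2)
            (fun _ _ => sq_nonneg _) (Finset.mem_univ l)
      _ ≤ ∑ i, ∑ l, ((xi a - xi b) i l) ^ 2 :=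
          Finset.single_le_sum (f := fun i => ∑ l, ((xi a - xi b) i l) ^ 2)
            (fun _ _ => Finset.sum_nonneg fun _ _ => sq_nonneg _) (Finset.mem_univ i)
  exact abs_le_of_sq_le_sq (h2.trans h1) (hMET K n a b a).1

theorem xi_cont (hMET : Stmt_MET) (hXIL : Stmt_XIL) {A : Set ℂ} {u : ℂ → Tup K n}
    (hu : ContG A u) (i : Fin K) (l : Fin n) : ContinuousOn (fun z => xi (u z) i l) A := by
  intro z hz
  have h := hu z hz
  rw [ContinuousWithinAt, tendsto_iff_norm_sub_tendsto_zero]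
  apply squeeze_zero (fun _ => norm_nonneg _) _ h
  intro w
  exact xi_abs hMET hXIL _ _ _ _

theorem sm_cont (hMET : Stmt_MET) (hXIL : Stmt_XIL) {A : Set ℂ} {u : ℂ → Tup K n}
    (hu : ContG A u) (l : Fin n) : ContinuousOn (fun z => sm (xi (u z)) l) A := by
  unfold sm
  exact continuousOn_finsetSum _ fun i _ => xi_cont hMET hXIL hu i l

theorem sum_grad (hGAL : Stmt_GAL) {U : Set ℂ} (hU : IsOpen U) {ι : Type} (t : Finset ι)
    (f fx fy : ι → ℂ → ℝ) (h : ∀ i, HasGrad U (f i) (fx i) (fy i)) :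
    HasGrad U (fun z => ∑ i ∈ t, f i z) (fun z => ∑ i ∈ t, fx i z) (fun z => ∑ i ∈ t, fy i z) := by
  classical
  induction t using Finset.induction_on with
  | empty => simpa using (hGAL U hU).2.1 0
  | insert a t ha ih =>
    have := (hGAL U hU).2.2.1 _ _ _ _ _ _ (h a) ih
    simpa only [Finset.sum_insert ha] using this

theorem sm_grad (hGAL : Stmt_GAL) {U : Set ℂ} (hU : IsOpen U) {s X Y : ℂ → Mat K n}
    (h : HasGradV U s X Y) (l : Fin n) :
    HasGrad U (fun z => sm (s z) l) (fun z => sm (X z) l) (fun z => sm (Y z) l) :=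
  sum_grad hGAL hU Finset.univ (fun i z => s z i l) (fun i z => X z i l) (fun i z => Y z i l)
    (fun i => h i l)

theorem sub_grad (hGAL : Stmt_GAL) {U : Set ℂ} (hU : IsOpen U) {f fx fy g gx gy : ℂ → ℝ}
    (hf : HasGrad U f fx fy) (hg : HasGrad U g gx gy) :
    HasGrad U (fun z => f z - g z) (fun z => fx z - gx z) (fun z => fy z - gy z) := by
  have h1 := (hGAL U hU).2.2.2.1 (-1) g gx gy hg
  have h2 := (hGAL U hU).2.2.1 _ _ _ _ _ _ hf h1
  simpa only [neg_mul, one_mul, ← sub_eq_add_neg] using h2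

theorem sm_sq_le (v : Mat K n) (l : Fin n) : (sm v l) ^ 2 ≤ K * nsq v := by
  refine le_trans ?_ (vsq_sm_le v)
  unfold vsq
  exact Finset.single_le_sum (f := fun l => sm v l ^ 2) (fun _ _ => sq_nonneg _)
    (Finset.mem_univ l)

/-- the harmonic identities on one side -/
theorem hl (hMET : Stmt_MET) (hXIL : Stmt_XIL) (hGAL : Stmt_GAL) (hHLF : Stmt_HLF) {R q r : ℝ}
    (hr : 0 < r) (hqr : |q| + r < R) {u u' : ℂ → Tup K n} {X Y X' Y' : ℂ → Mat K n}
    (hu : ContG (HDc 0 R) u) (hu' : ContG (HDc 0 R) u')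
    (hg : HasGradV (HD 0 R) (fun z => xi (u z)) X Y)
    (hg' : HasGradV (HD 0 R) (fun z => xi (u' z)) X' Y') (hX : L2 (HD 0 R) X)
    (hY : L2 (HD 0 R) Y) (hX' : L2 (HD 0 R) X') (hY' : L2 (HD 0 R) Y')
    (heq : ∀ z ∈ HDc 0 R, r ≤ ‖z - q‖ → Same (u' z) (u z)) (j : Fin n) :
    IntegrableOn (fun z => sm (X' z - X z) j) (HD 0 R) ∧
    IntegrableOn (fun z => sm (Y' z - Y z) j) (HD 0 R) ∧
    ∫ z in HD 0 R, sm (X' z - X z) j = 0 ∧
    ∫ z in HD 0 R, (sm (X' z - X z) j * (z.re - q) - sm (Y' z - Y z) j * z.im) = 0 ∧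
    ∫ z in HD 0 R, sm (Y' z - Y z) j = -∫ x in (-R)..R, (∑ i, u' x i j - ∑ i, u x i j) := by
  have hV := isOpen_HD 0 R
  have hc : ContinuousOn (fun z => sm (xi (u' z)) j - sm (xi (u z)) j) (HDc 0 R) :=
    (sm_cont hMET hXIL hu' j).sub (sm_cont hMET hXIL hu j)
  have hgr := sub_grad hGAL hV (sm_grad hGAL hV hg' j) (sm_grad hGAL hV hg j)
  have ex : (fun z => sm (X' z) j - sm (X z) j) = fun z => sm (X' z - X z) j := by
    funext z; rw [sm_sub]; rfl
  have ey : (fun z => sm (Y' z) j - sm (Y z) j) = fun z => sm (Y' z - Y z) j := by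
    funext z; rw [sm_sub]; rfl
  rw [ex, ey] at hgr
  have hdx := hX'.sub hX
  have hdy := hY'.sub hY
  have hi : IntegrableOn (fun z => (sm (X' z - X z) j) ^ 2 + (sm (Y' z - Y z) j) ^ 2)
      (HD 0 R) := by
    apply Integrable.mono' ((hdx.i.add hdy.i).const_mul (K : ℝ))
    · exact (hgr.mx.pow 2).add (hgr.my.pow 2)
    · filter_upwards with z
      rw [Real.norm_eq_abs, abs_of_nonneg (by positivity)]
      have h1 := sm_sq_le (X' z - X z) j
      have h2 := sm_sq_le (Y' z - Y z) j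
      simp only [Pi.add_apply]
      linarith
  have h0 : ∀ z ∈ HDc 0 R, r ≤ ‖z - q‖ → sm (xi (u' z)) j - sm (xi (u z)) j = 0 := by
    intro z hz hzr
    rw [(hXIL K n _ _).2.1 (heq z hz hzr), sub_self]
  obtain ⟨a1, a2, -, a4, a5, a6⟩ := hHLF R q r _ _ _ hr hqr hc hgr hi h0
  refine ⟨a1, a2, a4, a5, ?_⟩
  rw [a6]
  congr 1
  apply intervalIntegral.integral_congr
  intro x _
  have h1 := (hXIL K n (u' x) (u' x)).2.2.1 j
  have h2 := (hXIL K n (u x) (u x)).2.2.1 j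
  simp only [sm]
  rw [h1, h2]

/-- the fields agree outside the half disc -/
theorem ag (hXIL : Stmt_XIL) (hGAL : Stmt_GAL) (hGUN : Stmt_GUN) {R q r : ℝ}
    {u u' : ℂ → Tup K n} {X Y X' Y' : ℂ → Mat K n}
    (hg : HasGradV (HD 0 R) (fun z => xi (u z)) X Y)
    (hg' : HasGradV (HD 0 R) (fun z => xi (u' z)) X' Y')
    (heq : ∀ z ∈ HDc 0 R, r ≤ ‖z - q‖ → Same (u' z) (u z)) :
    ∀ᵐ z : ℂ, z ∈ HD 0 R → z ∉ HD q r → X' z = X z ∧ Y' z = Y z := by
  set W : Set ℂ := HD 0 R ∩ {z | r < ‖z - q‖} with hW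
  have hWo : IsOpen W := by
    apply (isOpen_HD 0 R).inter
    exact isOpen_lt continuous_const (by fun_prop)
  have hWV : W ⊆ HD 0 R := inter_subset_left
  have h1 : ∀ i l, ∀ᵐ z : ℂ, z ∈ W → X' z i l = X z i l ∧ Y' z i l = Y z i l := by
    intro i l
    have a1 := (hGAL _ (isOpen_HD 0 R)).1 W _ _ _ hWo hWV (hg i l)
    have a2 := (hGAL _ (isOpen_HD 0 R)).1 W _ _ _ hWo hWV (hg' i l)
    have a3 := (hGAL W hWo).2.2.2.2 _ _ _ (fun z => xi (u z) i l) (fun z => X' z i l)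
      (fun z => Y' z i l) a2 (by
        intro z hz
        have := (hXIL K n _ _).2.1 (heq z (HD_subset_HDc _ _ hz.1) hz.2.le)
        show xi (u z) i l = xi (u' z) i l
        rw [this]) (ae_eq_refl _) (ae_eq_refl _)
    obtain ⟨b1, b2⟩ := hGUN W _ _ _ _ _ hWo a3 a1
    rw [Filter.EventuallyEq, ae_restrict_iff' hWo.measurableSet] at b1 b2
    filter_upwards [b1, b2] with z c1 c2 hz
    exact ⟨c1 hz, c2 hz⟩
  have h2 : ∀ᵐ z : ℂ, z ∉ sphere (q : ℂ) r := by
    rw [ae_iff]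
    simp only [not_not, setOf_mem_eq]
    exact Measure.addHaar_sphere _ _ _
  have h3 : ∀ᵐ z : ℂ, ∀ i l, z ∈ W → X' z i l = X z i l ∧ Y' z i l = Y z i l := by
    rw [ae_all_iff]; intro i; rw [ae_all_iff]; intro l; exact h1 i l
  filter_upwards [h2, h3] with z c2 c3 hz hnz
  have hzW : z ∈ W := by
    refine ⟨hz, ?_⟩
    have d1 : ¬ ‖z - q‖ < r := fun h => hnz ⟨hz.1, h⟩
    have d2 : ‖z - q‖ ≠ r := fun h => c2 (by rw [mem_sphere, dist_eq_norm]; exact h)
    exact lt_of_le_of_ne (not_lt.mp d1) (Ne.symm d2)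
  exact ⟨by funext i l; exact (c3 i l hzW).1, by funext i l; exact (c3 i l hzW).2⟩

theorem sum_bd {k d n : ℕ} {a : Tup (k + d) n} {b : Tup k n}
    (h : Same a (Fin.append (fun i => -(b i)) (fun _ : Fin d => 0))) (j : Fin n) :
    ∑ i, a i j = -∑ i, b i j := by
  obtain ⟨σ, rfl⟩ := h
  simp only [Function.comp_apply]
  rw [Equiv.sum_comp σ (fun i => (Fin.append (fun i => -(b i)) (fun _ : Fin d => (0 : E n)) i) j),
    Fin.sum_univ_add]
  simp [Fin.append_left, Fin.append_right]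

theorem vol_HD (q R : ℝ) : volume (HD q R) < ⊤ := by
  apply lt_of_le_of_lt (measure_mono (t := ball (q : ℂ) R) _) measure_ball_lt_top
  intro z hz
  rw [mem_ball, dist_eq_norm]
  exact hz.2

theorem L2.rowc {e : ℂ → Fin n → ℝ} (he : Continuous e) (R : ℝ) :
    L2 (HD 0 R) (fun z => rw' K (e z)) := by
  obtain ⟨M, hM⟩ := (isCompact_closedBall (0 : ℂ) R).exists_bound_of_continuousOn he.continuousOn
  apply L2.row (isOpen_HD 0 R).measurableSet (vol_HD 0 R) (M := M)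
  · intro j
    exact ((continuous_apply j).comp he).aestronglyMeasurable
  · intro z hz j
    have hz' : z ∈ closedBall (0 : ℂ) R := by
      rw [mem_closedBall, dist_eq_norm]
      have := hz.2.le
      simpa using this
    exact (norm_le_pi_norm (e z) j).trans (hM z hz')

section
variable {k d n : ℕ} {F : Flat k d n} {q r : ℝ} {p' : ℂ → Tup (k + d) n} {l' : ℂ → Tup k n}
  {X Y : ℂ → Mat (k + d) n} {X' Y' : ℂ → Mat k n}

/-- the linear term -/
noncomputable def gf (F : Flat k d n) (q : ℝ) (X Y : ℂ → Mat (k + d) n) (X' Y' : ℂ → Mat k n)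
    (a b α : Fin n → ℝ) (z : ℂ) : ℝ :=
  dt (X z - F.Px z) (rw' (k + d) (fun j => a j + (z.re - q) * b j)) +
    dt (Y z - F.Py z) (rw' (k + d) (fun j => -(z.im * b j) + α j)) +
  (dt (X' z - F.Lx z) (rw' k (fun j => -(a j + (z.re - q) * b j))) +
    dt (Y' z - F.Ly z) (rw' k (fun j => z.im * b j + α j)))

theorem L2_of {K : ℕ} {U : Set ℂ} {s X Y : ℂ → Mat K n} (h : HasGradV U s X Y)
    (hi : IntegrableOn (ed X Y) U) : L2 U X ∧ L2 U Y := by
  have mx : ∀ i l, AEStronglyMeasurable (fun z => X z i l) (volume.restrict U) :=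
    fun i l => (h i l).mx
  have my : ∀ i l, AEStronglyMeasurable (fun z => Y z i l) (volume.restrict U) :=
    fun i l => (h i l).my
  refine ⟨⟨mx, ?_⟩, ⟨my, ?_⟩⟩
  · apply Integrable.mono' hi (nsm mx)
    filter_upwards with z
    rw [Real.norm_eq_abs, abs_of_nonneg (nsq_nonneg _)]
    have := nsq_nonneg (Y z)
    simp only [ed]; linarith
  · apply Integrable.mono' hi (nsm my)
    filter_upwards with z
    rw [Real.norm_eq_abs, abs_of_nonneg (nsq_nonneg _)]
    have := nsq_nonneg (X z)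
    simp only [ed]; linarith

theorem gint (hMET : Stmt_MET) (hXIL : Stmt_XIL) (hGAL : Stmt_GAL) (hHLF : Stmt_HLF)
    (hF : F.Ok0) (hr : 0 < r) (hqr : |q| + r < F.R) (hcp : F.Cp q r p' l' X Y X' Y')
    (a b α : Fin n → ℝ) :
    IntegrableOn (gf F q X Y X' Y' a b α) (HD 0 F.R) ∧
      ∫ z in HD 0 F.R, gf F q X Y X' Y' a b α z = 0 := by
  obtain ⟨lX, lY⟩ := L2_of hcp.pg hcp.pI
  obtain ⟨lX', lY'⟩ := L2_of hcp.lg hcp.lI
  obtain ⟨lPx, lPy⟩ := L2_of hF.pg hF.pI
  obtain ⟨lLx, lLy⟩ := L2_of hF.lg hF.lI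
  have r1 : L2 (HD 0 F.R) (fun z => rw' (k + d) (fun j => a j + (z.re - q) * b j)) :=
    L2.rowc (by fun_prop) _
  have r2 : L2 (HD 0 F.R) (fun z => rw' (k + d) (fun j => -(z.im * b j) + α j)) :=
    L2.rowc (by fun_prop) _
  have r3 : L2 (HD 0 F.R) (fun z => rw' k (fun j => -(a j + (z.re - q) * b j))) :=
    L2.rowc (by fun_prop) _
  have r4 : L2 (HD 0 F.R) (fun z => rw' k (fun j => z.im * b j + α j)) :=
    L2.rowc (by fun_prop) _
  refine ⟨(((lX.sub lPx).dti r1).add ((lY.sub lPy).dti r2)).add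
    (((lX'.sub lLx).dti r3).add ((lY'.sub lLy).dti r4)), ?_⟩
  have hp := hl hMET hXIL hGAL hHLF hr hqr hF.pc hcp.pc hF.pg hcp.pg lPx lPy lX lY
    (fun z hz hzr => (hcp.eq z hz hzr).1)
  have hq := hl hMET hXIL hGAL hHLF hr hqr hF.lc hcp.lc hF.lg hcp.lg lLx lLy lX' lY'
    (fun z hz hzr => (hcp.eq z hz hzr).2)
  have hbd1 : ∀ z ∈ HD 0 F.R, ‖z.re - q‖ ≤ F.R + |q| := by
    intro z hz
    have h1 := hz.2
    have h2 := Complex.abs_re_le_norm z
    simp only [Complex.ofReal_zero, sub_zero] at h1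
    rw [Real.norm_eq_abs]
    have h3 := abs_sub z.re q
    linarith
  have hbd2 : ∀ z ∈ HD 0 F.R, ‖z.im‖ ≤ F.R := by
    intro z hz
    have h1 := hz.2
    have h2 := Complex.abs_im_le_norm z
    simp only [Complex.ofReal_zero, sub_zero] at h1
    rw [Real.norm_eq_abs]
    linarith
  have hB : ∀ f g : ℂ → ℝ, IntegrableOn f (HD 0 F.R) → IntegrableOn g (HD 0 F.R) →
      IntegrableOn (fun z => f z * (z.re - q) - g z * z.im) (HD 0 F.R) := by
    intro f g hf hg
    have m1 : AEStronglyMeasurable (fun z : ℂ => z.re - q) (volume.restrict (HD 0 F.R)) :=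
      (by fun_prop : Continuous (fun z : ℂ => z.re - q)).aestronglyMeasurable
    have m2 : AEStronglyMeasurable (fun z : ℂ => z.im) (volume.restrict (HD 0 F.R)) :=
      Complex.continuous_im.aestronglyMeasurable
    have i1 := Integrable.bdd_mul hf m1
      (by filter_upwards [ae_restrict_mem (isOpen_HD 0 F.R).measurableSet] with z hz
          exact hbd1 z hz)
    have i2 := Integrable.bdd_mul hg m2
      (by filter_upwards [ae_restrict_mem (isOpen_HD 0 F.R).measurableSet] with z hz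
          exact hbd2 z hz)
    have := i1.sub i2
    refine this.congr ?_
    filter_upwards with z
    simp only [Pi.sub_apply]
    ring
  have e : ∀ z, gf F q X Y X' Y' a b α z = ∑ j, ((a j * sm (X z - F.Px z) j -
      a j * sm (X' z - F.Lx z) j) +
      (b j * (sm (X z - F.Px z) j * (z.re - q) - sm (Y z - F.Py z) j * z.im) -
      b j * (sm (X' z - F.Lx z) j * (z.re - q) - sm (Y' z - F.Ly z) j * z.im)) +
      (α j * sm (Y z - F.Py z) j + α j * sm (Y' z - F.Ly z) j)) := by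
    intro z
    rw [gf, dt_rw, dt_rw, dt_rw, dt_rw]
    unfold vdt
    rw [← Finset.sum_add_distrib, ← Finset.sum_add_distrib, ← Finset.sum_add_distrib]
    apply Finset.sum_congr rfl
    intro j _
    ring
  have hsum : ∀ j, ∫ x in (-F.R)..F.R, (∑ i, p' x i j - ∑ i, F.p x i j) =
      -∫ x in (-F.R)..F.R, (∑ i, l' x i j - ∑ i, F.l x i j) := by
    intro j
    rw [← intervalIntegral.integral_neg]
    apply intervalIntegral.integral_congr_ae
    have hne : ∀ᵐ x : ℝ, x ≠ F.R := by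
      rw [ae_iff]; simp
    filter_upwards [hne] with x hx hxI
    rw [uIoc_of_le (by linarith [hF.hR])] at hxI
    have hxR : |x| < F.R := abs_lt.mpr ⟨hxI.1, lt_of_le_of_ne hxI.2 hx⟩
    rw [sum_bd (hcp.bd x hxR) j, sum_bd (hF.bd x hxR) j]
    ring
  simp only [e]
  rw [integral_finset_sum]
  · apply Finset.sum_eq_zero
    intro j _
    obtain ⟨x1, x2, x3, x4, x5⟩ := hp j
    obtain ⟨y1, y2, y3, y4, y5⟩ := hq j
    rw [integral_add, integral_add, integral_sub, integral_sub, integral_add,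
      integral_const_mul, integral_const_mul, integral_const_mul, integral_const_mul,
      integral_const_mul, integral_const_mul, x3, x4, x5, y3, y4, y5, hsum j]
    · ring
    · exact x2.const_mul _
    · exact y2.const_mul _
    · exact (hB _ _ x1 x2).const_mul _
    · exact (hB _ _ y1 y2).const_mul _
    · exact x1.const_mul _
    · exact y1.const_mul _
    · exact (x1.const_mul _).sub (y1.const_mul _)
    · exact ((hB _ _ x1 x2).const_mul _).sub ((hB _ _ y1 y2).const_mul _)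
    · exact ((x1.const_mul _).sub (y1.const_mul _)).add
        (((hB _ _ x1 x2).const_mul _).sub ((hB _ _ y1 y2).const_mul _))
    · exact (x2.const_mul _).add (y2.const_mul _)
  · intro j _
    obtain ⟨x1, x2, -⟩ := hp j
    obtain ⟨y1, y2, -⟩ := hq j
    exact (((x1.const_mul _).sub (y1.const_mul _)).add
        (((hB _ _ x1 x2).const_mul _).sub ((hB _ _ y1 y2).const_mul _))).add
        ((x2.const_mul _).add (y2.const_mul _))

/-- energy density with the interface function -/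
noncomputable def eo (F : Flat k d n) (X Y : ℂ → Mat (k + d) n) (X' Y' : ℂ → Mat k n)
    (z : ℂ) : ℝ :=
  qd (F.A z) (ad (X z) (F.ηx z)) (ad (Y z) (F.ηy z)) +
    qd (F.B z) (sh (X' z) (F.ηx z)) (sh (Y' z) (F.ηy z))

/-- tilted energy density -/
noncomputable def nn (α : Fin n → ℝ) (X Y : ℂ → Mat (k + d) n) (X' Y' : ℂ → Mat k n)
    (z : ℂ) : ℝ :=
  nsq (X z) + nsq (sh (Y z) α) + (nsq (X' z) + nsq (sh (Y' z) α))

theorem abs3 (hF : F.Ok0) {z : ℂ} (hz : z ∈ HD 0 F.R) : ∀ j, |F.A z j| ≤ 2 ∧ |F.B z j| ≤ 2 := by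
  have hA := hF.Ab z hz
  have hB := hF.Bb z hz
  have h1 : F.C * z.im ^ 2 ≤ 1 / 4 := by
    refine le_trans ?_ hF.small
    apply mul_le_mul_of_nonneg_left _ hF.hC.le
    have h2 := Complex.abs_im_le_norm z
    have h3 := hz.2
    simp only [Complex.ofReal_zero, sub_zero] at h3
    rw [← sq_abs]
    exact pow_le_pow_left₀ (abs_nonneg _) (by linarith) 2
  intro j
  have key : ∀ x : ℝ, |x - 1| ≤ F.C * z.im ^ 2 → |x| ≤ 2 := by
    intro x hx
    have := abs_le.mp hx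
    rw [abs_le]; constructor <;> linarith
  fin_cases j
  · exact ⟨key _ hA.1, key _ hB.1⟩
  · exact ⟨by have := hA.2.1; simp only [Fin.mk_one]; linarith,
      by have := hB.2.1; simp only [Fin.mk_one]; linarith⟩
  · exact ⟨key _ hA.2.2, key _ hB.2.2⟩

theorem eta_L2 (hF : F.Ok0) (K : ℕ) :
    L2 (HD 0 F.R) (fun z => rw' K (F.ηx z)) ∧ L2 (HD 0 F.R) (fun z => rw' K (F.ηy z)) := by
  obtain ⟨a, b, ha, hb, hab⟩ := hF.ηb 0 (by simpa using hF.hR)
  have hV := (isOpen_HD 0 F.R).measurableSet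
  have hCR : 0 ≤ F.C * F.R := (mul_pos hF.hC hF.hR).le
  have hn : ∀ z ∈ HD 0 F.R, ‖z - ((0 : ℝ) : ℂ)‖ ^ 2 ≤ F.R ^ 2 := fun z hz =>
    pow_le_pow_left₀ (norm_nonneg _) hz.2.le 2
  have hz1 : ∀ z ∈ HD 0 F.R, |z.re| ≤ F.R := by
    intro z hz
    have h2 := Complex.abs_re_le_norm z
    have h3 := hz.2
    simp only [Complex.ofReal_zero, sub_zero] at h3
    linarith
  have hz2 : ∀ z ∈ HD 0 F.R, |z.im| ≤ F.R := by
    intro z hz
    have h2 := Complex.abs_im_le_norm z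
    have h3 := hz.2
    simp only [Complex.ofReal_zero, sub_zero] at h3
    linarith
  constructor
  · apply L2.row hV (vol_HD 0 F.R) (fun j => (hF.ηg j).mx) (F.C + F.R * F.C + F.C * F.R ^ 2)
    intro z hz j
    have h1 := abs_le.mp (hab z hz j).1
    have h2 : F.C * ‖z - ((0 : ℝ) : ℂ)‖ ^ 2 ≤ F.C * F.R ^ 2 :=
      mul_le_mul_of_nonneg_left (hn z hz) hF.hC.le
    have h3 := abs_le.mp (ha j)
    have h4 : |(z.re - 0) * b j| ≤ F.R * F.C := by
      rw [abs_mul, sub_zero]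
      exact mul_le_mul (hz1 z hz) (hb j) (abs_nonneg _) hF.hR.le
    have h5 := abs_le.mp h4
    rw [abs_le]; constructor <;> linarith
  · apply L2.row hV (vol_HD 0 F.R) (fun j => (hF.ηg j).my) (F.C + F.R * F.C + F.C * F.R ^ 2)
    intro z hz j
    have h1 := abs_le.mp (hab z hz j).2
    have h2 : F.C * ‖z - ((0 : ℝ) : ℂ)‖ ^ 2 ≤ F.C * F.R ^ 2 :=
      mul_le_mul_of_nonneg_left (hn z hz) hF.hC.le
    have h4 : |z.im * b j| ≤ F.R * F.C := by
      rw [abs_mul]
      exact mul_le_mul (hz2 z hz) (hb j) (abs_nonneg _) hF.hR.le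
    have h5 := abs_le.mp h4
    have hC := hF.hC
    rw [abs_le]; constructor <;> linarith

theorem eo_int (hF : F.Ok0) (lX : L2 (HD 0 F.R) X) (lY : L2 (HD 0 F.R) Y)
    (lX' : L2 (HD 0 F.R) X') (lY' : L2 (HD 0 F.R) Y') :
    IntegrableOn (eo F X Y X' Y') (HD 0 F.R) := by
  have hV := (isOpen_HD 0 F.R).measurableSet
  obtain ⟨e1, e2⟩ := eta_L2 hF (k + d)
  obtain ⟨e3, e4⟩ := eta_L2 hF k
  exact ((lX.add e1).qdi hV hF.Am 2 (fun z hz j => (abs3 hF hz j).1) (lY.add e2)).add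
    ((lX'.sub e3).qdi hV hF.Bm 2 (fun z hz j => (abs3 hF hz j).2) (lY'.sub e4))

theorem sh_const (hV : volume (HD q r) < ⊤) {K : ℕ} {Z : ℂ → Mat K n} (α : Fin n → ℝ)
    (h : L2 (HD q r) Z) : L2 (HD q r) (fun z => sh (Z z) α) := by
  have h1 : L2 (HD q r) (fun _ => rw' K α) := by
    apply L2.row (e := fun _ => α) (isOpen_HD q r).measurableSet hV
      (fun j => aestronglyMeasurable_const) ‖α‖
    intro z _ j
    exact norm_le_pi_norm α j
  exact h.sub h1

theorem nn_int (hV : volume (HD q r) < ⊤) (α : Fin n → ℝ) (lX : L2 (HD q r) X)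
    (lY : L2 (HD q r) Y) (lX' : L2 (HD q r) X') (lY' : L2 (HD q r) Y') :
    IntegrableOn (nn α X Y X' Y') (HD q r) :=
  (lX.i.add (sh_const hV α lY).i).add (lX'.i.add (sh_const hV α lY').i)

theorem ad_split {K : ℕ} (v : Mat K n) (b α : Fin n → ℝ) :
    ad v b = sh v α + rw' K (fun j => b j + α j) := by
  funext i l
  simp only [ad, sh, rw', Pi.add_apply]; ring

theorem sh_split {K : ℕ} (v : Mat K n) (b α : Fin n → ℝ) :
    sh v b = sh v α + rw' K (fun j => -b j + α j) := by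
  funext i l
  simp only [sh, rw', Pi.add_apply]; ring

theorem sh_split0 {K : ℕ} (v : Mat K n) (b : Fin n → ℝ) :
    sh v b = v + rw' K (fun j => -b j) := by
  funext i l
  simp only [sh, rw', Pi.add_apply]; ring

theorem sh_sub_sh {K : ℕ} (v w : Mat K n) (α : Fin n → ℝ) : sh v α - sh w α = v - w := by
  funext i l
  simp only [sh, Pi.sub_apply]; ring

theorem vsq_bd (e α : Fin n → ℝ) (M : ℝ) (h : ∀ j, |e j| ≤ M) :
    vsq (fun j => e j + α j) ≤ 2 * n * M ^ 2 + 2 * vsq α := by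
  unfold vsq
  calc ∑ j, (e j + α j) ^ 2 ≤ ∑ j : Fin n, (2 * M ^ 2 + 2 * α j ^ 2) := by
        apply Finset.sum_le_sum
        intro j _
        have h1 : e j ^ 2 ≤ M ^ 2 := by
          rw [← sq_abs]; exact pow_le_pow_left₀ (abs_nonneg _) (h j) 2
        nlinarith [sq_nonneg (e j - α j)]
    _ = 2 * n * M ^ 2 + 2 * ∑ j, α j ^ 2 := by
        rw [Finset.sum_add_distrib, ← Finset.mul_sum, ← Finset.mul_sum, Finset.sum_const]
        simp only [Finset.card_univ, Fintype.card_fin, nsmul_eq_mul]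
        ring

theorem vsq_bd0 (e : Fin n → ℝ) (M : ℝ) (h : ∀ j, |e j| ≤ M) : vsq e ≤ n * M ^ 2 := by
  unfold vsq
  calc ∑ j, (e j) ^ 2 ≤ ∑ _j : Fin n, M ^ 2 := by
        apply Finset.sum_le_sum
        intro j _
        rw [← sq_abs]; exact pow_le_pow_left₀ (abs_nonneg _) (h j) 2
    _ = n * M ^ 2 := by simp

/-- the pointwise inequality -/
theorem pt (hF : F.Ok0) (hr : 0 < r) (hr1 : r ≤ 1) (hqr : |q| + r < F.R) (α a b : Fin n → ℝ)
    (ha : ∀ j, |a j| ≤ F.C) (hb : ∀ j, |b j| ≤ F.C)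
    (hab : ∀ z ∈ HD 0 F.R, ∀ j, |F.ηx z j - (a j + (z.re - q) * b j)| ≤ F.C * ‖z - q‖ ^ 2 ∧
      |F.ηy z j + z.im * b j| ≤ F.C * ‖z - q‖ ^ 2) {z : ℂ} (hz : z ∈ HD q r) :
    eo F X Y X' Y' z - eo F F.Px F.Py F.Lx F.Ly z ≤
      (1 + (6 * F.C + 2) * r ^ 2) * nn α X Y X' Y' z -
      (1 - (6 * F.C + 2) * r ^ 2) * nn α F.Px F.Py F.Lx F.Ly z +
      2 * gf F q X Y X' Y' a b α z +
      r ^ 2 * ((((k + d : ℕ) : ℝ) + k) *
        (2 * F.C * (17 * n * F.C ^ 2 + 2 * vsq α) + 2 * n * F.C ^ 2)) := by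
  have hzR : z ∈ HD 0 F.R := HD_sub hqr.le hz
  have hC := hF.hC
  have hs : 0 < r ^ 2 := by positivity
  have hzq : ‖z - q‖ ^ 2 ≤ r ^ 2 := pow_le_pow_left₀ (norm_nonneg _) hz.2.le 2
  have hCr : F.C * ‖z - q‖ ^ 2 ≤ F.C * r ^ 2 := mul_le_mul_of_nonneg_left hzq hC.le
  have him : |z.im| ≤ ‖z - q‖ := by
    have := Complex.abs_im_le_norm (z - q)
    simpa using this
  have hre : |z.re - q| ≤ ‖z - q‖ := by
    have := Complex.abs_re_le_norm (z - q)
    simpa using this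
  have him2 : F.C * z.im ^ 2 ≤ F.C * r ^ 2 := by
    apply mul_le_mul_of_nonneg_left _ hC.le
    rw [← sq_abs]
    exact pow_le_pow_left₀ (abs_nonneg _) (him.trans hz.2.le) 2
  obtain ⟨A0, A1, A2⟩ := hF.Ab z hzR
  obtain ⟨B0, B1, B2⟩ := hF.Bb z hzR
  have hr2 : r ^ 2 ≤ 1 := pow_le_one₀ hr.le hr1
  have hCr2 : F.C * r ^ 2 ≤ F.C := by nlinarith
  have hηx : ∀ j, |F.ηx z j| ≤ 3 * F.C := by
    intro j
    have h1 := abs_le.mp ((hab z hzR j).1.trans (hCr.trans hCr2))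
    have h2 := abs_le.mp (ha j)
    have h3 : |(z.re - q) * b j| ≤ 1 * F.C := by
      rw [abs_mul]
      exact mul_le_mul (by linarith [hz.2]) (hb j) (abs_nonneg _) (by norm_num)
    have h4 := abs_le.mp h3
    rw [abs_le]; constructor <;> linarith
  have hηy : ∀ j, |F.ηy z j| ≤ 2 * F.C := by
    intro j
    have h1 := abs_le.mp ((hab z hzR j).2.trans (hCr.trans hCr2))
    have h3 : |z.im * b j| ≤ 1 * F.C := by
      rw [abs_mul]
      exact mul_le_mul (by linarith [hz.2]) (hb j) (abs_nonneg _) (by norm_num)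
    have h4 := abs_le.mp h3
    rw [abs_le]; constructor <;> linarith
  have hηx' : ∀ j, |-F.ηx z j| ≤ 3 * F.C := fun j => by rw [abs_neg]; exact hηx j
  have hηy' : ∀ j, |-F.ηy z j| ≤ 2 * F.C := fun j => by rw [abs_neg]; exact hηy j
  have v1 := vsq_bd0 (F.ηx z) _ hηx
  have v2 := vsq_bd (F.ηy z) α _ hηy
  have v3 := vsq_bd0 (fun j => -F.ηx z j) _ hηx'
  have v4 := vsq_bd (fun j => -F.ηy z j) α _ hηy'
  have V1 : ((k + d : ℕ) : ℝ) * (vsq (F.ηx z) + vsq (fun j => F.ηy z j + α j)) ≤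
      ((k + d : ℕ) : ℝ) * (17 * n * F.C ^ 2 + 2 * vsq α) := by
    apply mul_le_mul_of_nonneg_left _ (by positivity)
    linarith
  have V2 : (k : ℝ) * (vsq (fun j => -F.ηx z j) + vsq (fun j => -F.ηy z j + α j)) ≤
      (k : ℝ) * (17 * n * F.C ^ 2 + 2 * vsq α) := by
    apply mul_le_mul_of_nonneg_left _ (by positivity)
    linarith
  have s1 := side (F.A z) F.C (r ^ 2) _ hC.le hs (A0.trans him2) (A1.trans him2) (A2.trans him2)
    (F.Px z) (sh (F.Py z) α) (X z) (sh (Y z) α) (F.ηx z) (fun j => F.ηy z j + α j)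
    (fun j => a j + (z.re - q) * b j) (fun j => -(z.im * b j) + α j)
    (fun j => (hab z hzR j).1.trans hCr)
    (fun j => by
      have := (hab z hzR j).2.trans hCr
      have e : F.ηy z j + α j - (-(z.im * b j) + α j) = F.ηy z j + z.im * b j := by ring
      rwa [e]) V1
  have s2 := side (F.B z) F.C (r ^ 2) _ hC.le hs (B0.trans him2) (B1.trans him2) (B2.trans him2)
    (F.Lx z) (sh (F.Ly z) α) (X' z) (sh (Y' z) α) (fun j => -F.ηx z j)
    (fun j => -F.ηy z j + α j)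
    (fun j => -(a j + (z.re - q) * b j)) (fun j => z.im * b j + α j)
    (fun j => by
      have := (hab z hzR j).1.trans hCr
      have e : -F.ηx z j - -(a j + (z.re - q) * b j) =
        -(F.ηx z j - (a j + (z.re - q) * b j)) := by ring
      rwa [e, abs_neg])
    (fun j => by
      have := (hab z hzR j).2.trans hCr
      have e : -F.ηy z j + α j - (z.im * b j + α j) = -(F.ηy z j + z.im * b j) := by ring
      rwa [e, abs_neg]) V2
  rw [sh_sub_sh] at s1 s2
  have t1 : eo F X Y X' Y' z - eo F F.Px F.Py F.Lx F.Ly z =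
      (qd (F.A z) (X z + rw' (k + d) (F.ηx z)) (sh (Y z) α +
        rw' (k + d) (fun j => F.ηy z j + α j)) -
      qd (F.A z) (F.Px z + rw' (k + d) (F.ηx z)) (sh (F.Py z) α +
        rw' (k + d) (fun j => F.ηy z j + α j))) +
      (qd (F.B z) (X' z + rw' k (fun j => -F.ηx z j)) (sh (Y' z) α +
        rw' k (fun j => -F.ηy z j + α j)) -
      qd (F.B z) (F.Lx z + rw' k (fun j => -F.ηx z j)) (sh (F.Ly z) α +
        rw' k (fun j => -F.ηy z j + α j))) := by
    rw [eo, eo, ad_split (Y z) (F.ηy z) α, ad_split (F.Py z) (F.ηy z) α,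
      sh_split (Y' z) (F.ηy z) α, sh_split (F.Ly z) (F.ηy z) α, sh_split0 (X' z) (F.ηx z),
      sh_split0 (F.Lx z) (F.ηx z), ad_eq, ad_eq]
    ring
  rw [t1]
  have t2 : gf F q X Y X' Y' a b α z =
    (dt (X z - F.Px z) (rw' (k + d) (fun j => a j + (z.re - q) * b j)) +
      dt (Y z - F.Py z) (rw' (k + d) (fun j => -(z.im * b j) + α j))) +
    (dt (X' z - F.Lx z) (rw' k (fun j => -(a j + (z.re - q) * b j))) +
      dt (Y' z - F.Ly z) (rw' k (fun j => z.im * b j + α j))) := rfl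
  rw [t2, nn, nn]
  linarith

theorem fin_alg (x D D' E' : ℝ) (hx0 : 0 ≤ x) (hx : x ≤ 1 / 2) (hD' : 0 ≤ D') (hE : 0 ≤ E')
    (h : (1 - x) * D ≤ (1 + x) * D' + E') : D ≤ (1 + 4 * x) * D' + 2 * E' := by
  have h1 : (1 - x) * D ≤ (1 - x) * ((1 + 4 * x) * D' + 2 * E') := by
    have h2 : (1 + x) * D' ≤ (1 - x) * ((1 + 4 * x) * D') := by
      have : (1 + x) ≤ (1 - x) * (1 + 4 * x) := by nlinarith
      calc (1 + x) * D' ≤ ((1 - x) * (1 + 4 * x)) * D' := mul_le_mul_of_nonneg_right this hD'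
        _ = (1 - x) * ((1 + 4 * x) * D') := by ring
    have h3 : E' ≤ (1 - x) * (2 * E') := by nlinarith
    linarith
  exact le_of_mul_le_mul_left h1 (by linarith)

end

end CMP_

open CMP_ in
theorem cmp_proof (hMET : Stmt_MET) (hXIL : Stmt_XIL) (hGAL : Stmt_GAL) (hGUN : Stmt_GUN)
    (hHLF : Stmt_HLF) : Stmt_CMP := by
  intro k d n F hF
  have hC := hF.hC
  set S : ℝ := 6 * F.C + 2 with hS
  have hSp : 2 ≤ S := by rw [hS]; linarith
  set C6 : ℝ := (((k + d : ℕ) : ℝ) + k) * (2 * F.C * (17 * n * F.C ^ 2 + 2) + 2 * n * F.C ^ 2)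
    with hC6
  have hC6p : 0 ≤ C6 := by rw [hC6]; positivity
  refine ⟨4 * S + 2 * (Real.pi * C6), by positivity, 1 / (2 * S), by positivity, ?_⟩
  intro q r hr hr0 hqr p' l' X Y X' Y' hcp α
  have hr1 : r ≤ 1 := by
    have : 1 / (2 * S) ≤ 1 := by
      rw [div_le_one (by positivity)]; linarith
    linarith
  have hSr : S * r ^ 2 ≤ 1 / 2 := by
    rw [lt_div_iff₀ (by positivity)] at hr0
    nlinarith
  have hqR : |q| < F.R := by linarith
  obtain ⟨a, b, ha, hb, hab⟩ := hF.ηb q hqR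
  have hsub : HD q r ⊆ HD 0 F.R := HD_sub hqr.le
  have hVm := (isOpen_HD q r).measurableSet
  have hVf := vol_HD q r
  obtain ⟨lX, lY⟩ := L2_of hcp.pg hcp.pI
  obtain ⟨lX', lY'⟩ := L2_of hcp.lg hcp.lI
  obtain ⟨lPx, lPy⟩ := L2_of hF.pg hF.pI
  obtain ⟨lLx, lLy⟩ := L2_of hF.lg hF.lI
  have i0 := eo_int hF.toOk0 lPx lPy lLx lLy
  have i1 := eo_int hF.toOk0 lX lY lX' lY'
  obtain ⟨ig, hg0⟩ := gint hMET hXIL hGAL hHLF hF.toOk0 hr hqr hcp a b α
  have a1 := ag hXIL hGAL hGUN hF.pg hcp.pg (fun z hz hzr => (hcp.eq z hz hzr).1)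
  have a2 := ag hXIL hGAL hGUN hF.lg hcp.lg (fun z hz hzr => (hcp.eq z hz hzr).2)
  -- the competitor for the centre 0
  have hcp0 : F.Cp 0 (|q| + r) p' l' X Y X' Y' := by
    refine ⟨hcp.pc, hcp.lc, hcp.pg, hcp.lg, hcp.pI, hcp.lI, hcp.bd, ?_⟩
    intro z hz hzr
    apply hcp.eq z hz
    have h1 : ‖(q : ℂ)‖ = |q| := by simp
    have h2 := norm_sub_norm_le z (q : ℂ)
    simp only [Complex.ofReal_zero, sub_zero] at hzr
    linarith
  have hmin := hF.min (|q| + r) (by positivity) hqr p' l' X Y X' Y' hcp0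
  have hE0 : F.En F.Px F.Py F.Lx F.Ly = ∫ z in HD 0 F.R, eo F F.Px F.Py F.Lx F.Ly z := rfl
  have hE1 : F.En X Y X' Y' = ∫ z in HD 0 F.R, eo F X Y X' Y' z := rfl
  rw [hE0, hE1] at hmin
  have hdiff : 0 ≤ ∫ z in HD q r, (eo F X Y X' Y' z - eo F F.Px F.Py F.Lx F.Ly z) := by
    rw [← setIntegral_eq_of_subset_of_ae_diff_eq_zero
      (isOpen_HD 0 F.R).measurableSet.nullMeasurableSet hsub, integral_sub i1 i0]
    · linarith
    · filter_upwards [a1, a2] with z b1 b2 hz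
      obtain ⟨c1, c2⟩ := b1 hz.1 hz.2
      obtain ⟨c3, c4⟩ := b2 hz.1 hz.2
      rw [eo, eo, c1, c2, c3, c4, sub_self]
  have hgr : ∫ z in HD q r, gf F q X Y X' Y' a b α z = 0 := by
    rw [← setIntegral_eq_of_subset_of_ae_diff_eq_zero
      (isOpen_HD 0 F.R).measurableSet.nullMeasurableSet hsub, hg0]
    filter_upwards [a1, a2] with z b1 b2 hz
    obtain ⟨c1, c2⟩ := b1 hz.1 hz.2
    obtain ⟨c3, c4⟩ := b2 hz.1 hz.2
    rw [gf, c1, c2, c3, c4, sub_self, sub_self, sub_self, sub_self, dt_rw, dt_rw, dt_rw, dt_rw]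
    simp [sm, vdt]
  have n1 := nn_int hVf α (lX.mono hsub) (lY.mono hsub) (lX'.mono hsub) (lY'.mono hsub)
  have n0 := nn_int hVf α (lPx.mono hsub) (lPy.mono hsub) (lLx.mono hsub) (lLy.mono hsub)
  set c0 : ℝ := r ^ 2 * ((((k + d : ℕ) : ℝ) + k) *
        (2 * F.C * (17 * n * F.C ^ 2 + 2 * vsq α) + 2 * n * F.C ^ 2)) with hc0
  have ic : IntegrableOn (fun _ : ℂ => c0) (HD q r) := integrableOn_const hVf.ne enorm_ne_top
  have hle : ∫ z in HD q r, (eo F X Y X' Y' z - eo F F.Px F.Py F.Lx F.Ly z) ≤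
      ∫ z in HD q r, ((1 + S * r ^ 2) * nn α X Y X' Y' z -
      (1 - S * r ^ 2) * nn α F.Px F.Py F.Lx F.Ly z +
      2 * gf F q X Y X' Y' a b α z + c0) := by
    apply setIntegral_mono_on ((i1.mono_set hsub).sub (i0.mono_set hsub)) _ hVm
    · intro z hz
      exact pt hF.toOk0 hr hr1 hqr α a b ha hb hab hz
    · exact (((n1.const_mul _).sub (n0.const_mul _)).add
        ((ig.mono_set hsub).const_mul 2)).add ic
  have hval : ∫ z in HD q r, ((1 + S * r ^ 2) * nn α X Y X' Y' z -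
      (1 - S * r ^ 2) * nn α F.Px F.Py F.Lx F.Ly z +
      2 * gf F q X Y X' Y' a b α z + c0) =
      (1 + S * r ^ 2) * (∫ z in HD q r, nn α X Y X' Y' z) -
      (1 - S * r ^ 2) * (∫ z in HD q r, nn α F.Px F.Py F.Lx F.Ly z) +
      volume.real (HD q r) * c0 := by
    rw [integral_add, integral_add, integral_sub, integral_const_mul, integral_const_mul,
      integral_const_mul, hgr, setIntegral_const, smul_eq_mul]
    · ring
    · exact n1.const_mul _
    · exact n0.const_mul _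
    · exact (n1.const_mul _).sub (n0.const_mul _)
    · exact (ig.mono_set hsub).const_mul 2
    · exact ((n1.const_mul _).sub (n0.const_mul _)).add ((ig.mono_set hsub).const_mul 2)
    · exact ic
  have hvol : volume.real (HD q r) ≤ Real.pi * r ^ 2 := by
    rw [Measure.real]
    apply ENNReal.toReal_le_of_le_ofReal (by positivity)
    calc volume (HD q r) ≤ volume (ball (q : ℂ) r) := by
          apply measure_mono
          intro z hz
          rw [mem_ball, dist_eq_norm]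
          exact hz.2
      _ = ENNReal.ofReal (Real.pi * r ^ 2) := by
          rw [Complex.volume_ball, mul_comm, ENNReal.ofReal_mul Real.pi_pos.le,
            ENNReal.ofReal_pow hr.le]
          congr 1
          exact (ENNReal.ofReal_coe_nnreal (p := NNReal.pi)).symm
  have hva := vsq_nonneg α
  have hc0le : c0 ≤ r ^ 2 * (C6 * (1 + vsq α)) := by
    rw [hc0, hC6]
    apply mul_le_mul_of_nonneg_left _ (by positivity)
    rw [mul_assoc (((k + d : ℕ) : ℝ) + k)]
    apply mul_le_mul_of_nonneg_left _ (by positivity)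
    have h1 : 0 ≤ 2 * F.C * (17 * n * F.C ^ 2) * vsq α := by positivity
    have h2 : 0 ≤ 2 * n * F.C ^ 2 * vsq α := by positivity
    have h3 : 0 ≤ 4 * F.C := by positivity
    nlinarith
  have hc0p : 0 ≤ c0 := by rw [hc0]; positivity
  have hD0 : F.D q r α = ∫ z in HD q r, nn α F.Px F.Py F.Lx F.Ly z := rfl
  have hD1 : (∫ z in HD q r, (nsq (X z) + nsq (sh (Y z) α) +
      (nsq (X' z) + nsq (sh (Y' z) α)))) = ∫ z in HD q r, nn α X Y X' Y' z := rfl
  have hD'0 : 0 ≤ ∫ z in HD q r, nn α X Y X' Y' z := by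
    apply setIntegral_nonneg hVm
    intro z _
    rw [nn]
    have h1 := nsq_nonneg (X z)
    have h2 := nsq_nonneg (sh (Y z) α)
    have h3 := nsq_nonneg (X' z)
    have h4 := nsq_nonneg (sh (Y' z) α)
    linarith
  rw [hD0, hD1]
  have hEr : volume.real (HD q r) * c0 ≤ Real.pi * C6 * (1 + vsq α) * r ^ 4 := by
    calc volume.real (HD q r) * c0 ≤ (Real.pi * r ^ 2) * (r ^ 2 * (C6 * (1 + vsq α))) := by
          apply mul_le_mul hvol hc0le hc0p (by positivity)
      _ = Real.pi * C6 * (1 + vsq α) * r ^ 4 := by ring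
  have hfin := fin_alg (S * r ^ 2) (∫ z in HD q r, nn α F.Px F.Py F.Lx F.Ly z)
    (∫ z in HD q r, nn α X Y X' Y' z) (Real.pi * C6 * (1 + vsq α) * r ^ 4) (by positivity) hSr
    hD'0 (by positivity) (by linarith)
  have hpos1 : 0 ≤ 2 * (Real.pi * C6) * r ^ 2 * ∫ z in HD q r, nn α X Y X' Y' z := by
    apply mul_nonneg _ hD'0
    positivity
  have hpos2 : 0 ≤ 4 * S * (1 + vsq α) * r ^ 4 := by positivity
  nlinarith

end Pool.Agent.DMB
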