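import Pool.Agent.DMB.Api

/-!
Module COA: almost every collapsed point of the interface is locally collapsed.
-/

namespace Pool.Agent.DMB

open MeasureTheory Set Metric Filter Topology
open scoped ENNReal

namespace COA_

/-! ### gradients of sums and of deviations from the mean -/

theorem hasGrad_sum (hGAL : Stmt_GAL) {U : Set ℂ} (hU : IsOpen U) {ι : Type} (S : Finset ι)
    (f fx fy : ι → ℂ → ℝ) (h : ∀ i, HasGrad U (f i) (fx i) (fy i)) :
    HasGrad U (fun z => ∑ i ∈ S, f i z) (fun z => ∑ i ∈ S, fx i z)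
      (fun z => ∑ i ∈ S, fy i z) := by
  classical
  obtain ⟨-, hc, ha, -, -⟩ := hGAL U hU
  induction S using Finset.induction_on with
  | empty => simpa using hc 0
  | insert i S hi ih =>
    have := ha _ _ _ _ _ _ (h i) ih
    simpa [Finset.sum_insert hi] using this

theorem sh_mn_apply {K n : ℕ} (v : Mat K n) (i : Fin K) (l : Fin n) :
    sh v (mn v) i l = v i l + (-(1 / (K : ℝ))) * ∑ j, v j l := by
  simp only [sh, mn]; ring

theorem hasGradV_dev (hGAL : Stmt_GAL) {U : Set ℂ} (hU : IsOpen U) {K n : ℕ}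
    {s X Y : ℂ → Mat K n} (h : HasGradV U s X Y) :
    HasGradV U (fun z => sh (s z) (mn (s z))) (fun z => sh (X z) (mn (X z)))
      (fun z => sh (Y z) (mn (Y z))) := by
  intro i l
  obtain ⟨-, -, ha, hm, -⟩ := hGAL U hU
  have h1 := hasGrad_sum hGAL hU Finset.univ (fun j z => s z j l) (fun j z => X z j l)
    (fun j z => Y z j l) (fun j => h j l)
  have h2 := hm (-(1 / (K : ℝ))) _ _ _ h1
  have h3 := ha _ _ _ _ _ _ (h i l) h2
  simpa only [sh_mn_apply] using h3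

theorem dev_eq_nsq {K n : ℕ} (v : Mat K n) : dev v = nsq (sh v (mn v)) := rfl

/-! ### integrability -/

theorem aesm_nsq {K n : ℕ} {U : Set ℂ} {X : ℂ → Mat K n}
    (h : ∀ i l, AEStronglyMeasurable (fun z => X z i l) (volume.restrict U)) :
    AEStronglyMeasurable (fun z => nsq (X z)) (volume.restrict U) := by
  unfold nsq
  refine Finset.aestronglyMeasurable_fun_sum _ fun i _ => ?_
  refine Finset.aestronglyMeasurable_fun_sum _ fun l _ => ?_
  exact (h i l).pow 2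

theorem nsq_sh_le {K n : ℕ} (v : Mat K n) (b : Fin n → ℝ) :
    nsq (sh v b) ≤ 2 * nsq v + 2 * (K * vsq b) := by
  rw [sh_eq, nsq_sub, nsq_rw]
  have := two_dt_le (-v) (rw' K b)
  rw [dt_neg_left, nsq_neg, nsq_rw] at this
  linarith

theorem volume_HD_lt_top (q r : ℝ) : volume (HD q r) < ⊤ := by
  have h : HD q r ⊆ ball (q : ℂ) r := fun z hz => by simpa [dist_eq_norm] using hz.2
  exact lt_of_le_of_lt (measure_mono h) measure_ball_lt_top

theorem integrable_tilt {K n : ℕ} {U : Set ℂ} {s X Y : ℂ → Mat K n}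
    (h : HasGradV U s X Y) (hI : IntegrableOn (ed X Y) U) {q r : ℝ} (hs : HD q r ⊆ U)
    (α : Fin n → ℝ) :
    IntegrableOn (fun z => nsq (X z) + nsq (sh (Y z) α)) (HD q r) := by
  have hX : AEStronglyMeasurable (fun z => nsq (X z)) (volume.restrict (HD q r)) :=
    aesm_nsq fun i l => (h i l).mx.mono_measure (Measure.restrict_mono hs le_rfl)
  have hY : AEStronglyMeasurable (fun z => nsq (sh (Y z) α)) (volume.restrict (HD q r)) := by
    refine aesm_nsq fun i l => ?_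
    exact ((h i l).my.mono_measure (Measure.restrict_mono hs le_rfl)).sub
      aestronglyMeasurable_const
  have hb : IntegrableOn (fun z => 2 * ed X Y z + 2 * ((K : ℝ) * vsq α)) (HD q r) := by
    refine Integrable.add ((hI.mono_set hs).const_mul 2) ?_
    exact (integrableOn_const_iff (by finiteness)).mpr (Or.inr (volume_HD_lt_top q r))
  refine Integrable.mono' hb (hX.add hY) (ae_of_all _ fun z => ?_)
  have h1 := nsq_nonneg (X z)
  have h2 := nsq_nonneg (sh (Y z) α)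
  have h3 := nsq_sh_le (Y z) α
  rw [Real.norm_eq_abs, abs_of_nonneg (by positivity)]
  simp only [ed]
  linarith

/-! ### images under translated charts -/

theorem image_shift (Φ : ℂ → ℂ) (a x0 r : ℝ) :
    (fun z => Φ (z + x0)) '' HD a r = Φ '' HD (a + x0) r := by
  ext w
  constructor
  · rintro ⟨z, ⟨hz1, hz2⟩, rfl⟩
    refine ⟨z + x0, ⟨by simpa using hz1, ?_⟩, rfl⟩
    have : z + (x0 : ℂ) - ((a + x0 : ℝ) : ℂ) = z - a := by push_cast; ring
    rw [this]; exact hz2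
  · rintro ⟨z, ⟨hz1, hz2⟩, rfl⟩
    refine ⟨z - x0, ⟨by simpa using hz1, ?_⟩, by simp⟩
    have : z - (x0 : ℂ) - (a : ℂ) = z - ((a + x0 : ℝ) : ℂ) := by push_cast; ring
    rw [this]; exact hz2

theorem image_shift_c (Φ : ℂ → ℂ) (a x0 r : ℝ) :
    (fun z => Φ (z + x0)) '' HDc a r = Φ '' HDc (a + x0) r := by
  ext w
  constructor
  · rintro ⟨z, ⟨hz1, hz2⟩, rfl⟩
    refine ⟨z + x0, ⟨by simpa using hz1, ?_⟩, rfl⟩
    have : z + (x0 : ℂ) - ((a + x0 : ℝ) : ℂ) = z - a := by push_cast; ring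
    rw [this]; exact hz2
  · rintro ⟨z, ⟨hz1, hz2⟩, rfl⟩
    refine ⟨z - x0, ⟨by simpa using hz1, ?_⟩, by simp⟩
    have : z - (x0 : ℂ) - (a : ℂ) = z - ((a + x0 : ℝ) : ℂ) := by push_cast; ring
    rw [this]; exact hz2

theorem HDc_sub_ball {q r R : ℝ} (h : |q| + r ≤ R) : HDc q r ⊆ ball (0 : ℂ) R := fun z hz => by
  have h1 : ‖(q : ℂ)‖ = |q| := by simp
  rw [mem_ball, dist_eq_norm, sub_zero]
  calc ‖z‖ = ‖(z - q) + q‖ := by simp
    _ ≤ ‖z - q‖ + ‖(q : ℂ)‖ := norm_add_le _ _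
    _ < r + |q| := by rw [h1]; linarith [hz.2]
    _ ≤ R := by linarith

theorem HD_sub_ball {q r R : ℝ} (h : |q| + r ≤ R) : HD q r ⊆ ball (0 : ℂ) R :=
  (HD_subset_HDc q r).trans (HDc_sub_ball h)

/-! ### one side -/

theorem nsq_perm {K n : ℕ} (v : Mat K n) (π : Equiv.Perm (Fin K)) (ε : ℝ) (hε : ε ^ 2 = 1) :
    nsq (fun i l => ε * v (π i) l) = nsq v := by
  simp only [nsq, mul_pow, hε, one_mul]
  exact Equiv.sum_comp π (fun i => ∑ l, v i l ^ 2)

/-- the comparison of the deviations of the gradients in the chart -/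
theorem chart_dev (hGAL : Stmt_GAL) (hGUN : Stmt_GUN) (hFLB : Stmt_FLB) (hFLA : Stmt_FLA)
    {K n : ℕ} (hK : 0 < K) {Op Omi ga : Set ℂ} {Φ : ℂ → ℂ} {c1 : ℝ → ℂ} {R C : ℝ}
    (hch : Chart Op Omi ga Φ c1 R C) (hOp : IsOpen Op) {u : ℂ → Tup K n} {X Y : ℂ → Mat K n}
    (hXY : HasGradV Op (fun z => xi (u z)) X Y)
    {R' : ℝ} (hR' : R' ≤ R) {P : ℂ → Tup K n} {Px Py : ℂ → Mat K n} {η : ℂ → Fin n → ℝ}
    (hP : HasGradV (HD 0 R') (fun z => xi (P z)) Px Py)
    {ε : ℝ} (hε : ε ^ 2 = 1) (π : Equiv.Perm (Fin K))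
    (hrel : ∀ z ∈ HD 0 R', ∀ i l, xi (P z) i l = ε * xi (u (Φ z)) (π i) l + η z l) :
    ∃ M : ℝ, 0 < M ∧ ∀ᵐ z : ℂ, z ∈ HD 0 R' →
      jac Φ z * (dev (X (Φ z)) + dev (Y (Φ z))) ≤ M * (dev (Px z) + dev (Py z)) := by
  have hVb : HD 0 R' ⊆ ball (0 : ℂ) R := HD_sub_ball (by simpa using hR')
  have hVo := isOpen_HD 0 R'
  have hVOp : Φ '' HD 0 R' ⊆ Op := by
    rintro _ ⟨z, hz, rfl⟩
    exact (hch.side z (hVb hz)).1.mpr hz.1
  have hVop := hch.opn _ hVb hVo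
  obtain ⟨hres, -, -, hmul, hcongr⟩ := hGAL Op hOp
  have hX1 : HasGradV (Φ '' HD 0 R') (fun z => xi (u z)) X Y := fun i l =>
    hres _ _ _ _ hVop hVOp (hXY i l)
  have hS := hasGradV_dev hGAL hVop hX1
  obtain ⟨X', Y', hX'Y', hid⟩ := (hFLB K n Op Omi ga Φ c1 R C hch _ hVb hVo _).1 _ _ hS
  have hPd := hasGradV_dev hGAL hVo hP
  have hKR : (K : ℝ) ≠ 0 := by positivity
  have hSrel : ∀ z ∈ HD 0 R', ∀ i l, sh (xi (P z)) (mn (xi (P z))) i l =
      ε * sh (xi (u (Φ z))) (mn (xi (u (Φ z)))) (π i) l := by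
    intro z hz i l
    simp only [sh, mn]
    rw [hrel z hz i l]
    have : ∑ j, xi (P z) j l = ε * (∑ j, xi (u (Φ z)) j l) + K * η z l := by
      rw [Finset.sum_congr rfl fun j _ => hrel z hz j l, Finset.sum_add_distrib, ← Finset.mul_sum,
        Equiv.sum_comp π (fun j => xi (u (Φ z)) j l)]
      simp
    rw [this]
    field_simp
    ring
  obtain ⟨-, -, -, hmul', hcongr'⟩ := hGAL (HD 0 R') hVo
  have hae : ∀ i l, (fun z => sh (Px z) (mn (Px z)) i l) =ᵐ[volume.restrict (HD 0 R')]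
      (fun z => ε * X' z (π i) l) ∧ (fun z => sh (Py z) (mn (Py z)) i l)
      =ᵐ[volume.restrict (HD 0 R')] (fun z => ε * Y' z (π i) l) := by
    intro i l
    have h1 := hmul' ε _ _ _ (hX'Y' (π i) l)
    have h2 := hcongr' _ _ _ (fun z => sh (xi (P z)) (mn (xi (P z))) i l) _ _ h1
      (fun z hz => hSrel z hz i l) (ae_eq_refl _) (ae_eq_refl _)
    exact hGUN _ _ _ _ _ _ hVo (hPd i l) h2
  have hae2 : ∀ᵐ z : ℂ, z ∈ HD 0 R' → dev (Px z) = nsq (X' z) ∧ dev (Py z) = nsq (Y' z) := by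
    rw [← ae_restrict_iff' hVo.measurableSet]
    have h1 : ∀ᵐ z ∂(volume.restrict (HD 0 R')), ∀ i l,
        sh (Px z) (mn (Px z)) i l = ε * X' z (π i) l := by
      rw [ae_all_iff]; intro i; rw [ae_all_iff]; intro l; exact (hae i l).1
    have h2 : ∀ᵐ z ∂(volume.restrict (HD 0 R')), ∀ i l,
        sh (Py z) (mn (Py z)) i l = ε * Y' z (π i) l := by
      rw [ae_all_iff]; intro i; rw [ae_all_iff]; intro l; exact (hae i l).2
    filter_upwards [h1, h2] with z h1 h2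
    constructor
    · rw [dev_eq_nsq, ← nsq_perm (X' z) π ε hε]
      congr 1; funext i l; exact h1 i l
    · rw [dev_eq_nsq, ← nsq_perm (Y' z) π ε hε]
      congr 1; funext i l; exact h2 i l
  obtain ⟨-, C', hC', hA⟩ := hFLA Op Omi ga Φ c1 R C hch
  refine ⟨1 + 2 * (C' * R ^ 2), by have := hch.hR; positivity, ?_⟩
  filter_upwards [hae2] with z hz hzV
  obtain ⟨e1, e2⟩ := hz hzV
  obtain ⟨a0, a1, a2⟩ := hA z (hVb hzV)
  have him : z.im ^ 2 ≤ R ^ 2 := by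
    have h1 : |z.im| ≤ ‖z‖ := Complex.abs_im_le_norm z
    have h2 : ‖z‖ < R := by simpa using hVb hzV
    have h3 : |z.im| ≤ R := by linarith
    exact sq_le_sq.mpr (by rwa [abs_of_pos hch.hR])
  have hle : C' * z.im ^ 2 ≤ C' * R ^ 2 := mul_le_mul_of_nonneg_left him hC'.le
  have hq := qd_close (cA Φ z) (C' * R ^ 2) (a0.trans hle) (a1.trans hle) (a2.trans hle)
    (X' z) (Y' z)
  have hid' := hid z hzV
  simp only [ed] at hid'
  rw [dev_eq_nsq (X (Φ z)), dev_eq_nsq (Y (Φ z)), hid', e1, e2]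
  have := (abs_le.mp hq).2
  linarith

theorem vol_E1 {Z : Set ℝ} {x0 ρ : ℝ} (h : volume (Z ∩ Ioo (x0 - ρ) (x0 + ρ)) ≠ 0) :
    volume {x : ℝ | x ∈ Ioo (-ρ) ρ ∧ x + x0 ∈ Z} ≠ 0 := by
  have : {x : ℝ | x ∈ Ioo (-ρ) ρ ∧ x + x0 ∈ Z} = (fun x => x + x0) ⁻¹'
      (Z ∩ Ioo (x0 - ρ) (x0 + ρ)) := by
    ext x
    simp only [mem_ofPred_eq, mem_Ioo, mem_preimage, mem_inter_iff]
    constructor
    · rintro ⟨⟨h1, h2⟩, h3⟩; exact ⟨h3, by linarith, by linarith⟩
    · rintro ⟨h3, h1, h2⟩; exact ⟨⟨by linarith, by linarith⟩, h3⟩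
  rw [this, measure_preimage_add_right]
  exact h

theorem one (hGAL : Stmt_GAL) (hGUN : Stmt_GUN) (hEND : Stmt_END) (hJCV : Stmt_JCV)
    (hFLB : Stmt_FLB) (hFLA : Stmt_FLA) (hIM2 : Stmt_IM2) (hHCH : Stmt_HCH) (hUNQ : Stmt_UNQ)
    {K n : ℕ} (hK : 0 < K) {Op Omi ga : Set ℂ} {Φ : ℂ → ℂ} {c1 : ℝ → ℂ} {R C : ℝ}
    (hch : Chart Op Omi ga Φ c1 R C) (hOp : IsOpen Op)
    {u : ℂ → Tup K n} (hmin : IntMin Op u) (hcont : ContG (Op ∪ ga) u)
    {R' : ℝ} (hR' : R' ≤ R) {P : ℂ → Tup K n} {Px Py : ℂ → Mat K n} {η : ℂ → Fin n → ℝ}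
    (hP : HasGradV (HD 0 R') (fun z => xi (P z)) Px Py)
    (hI : IntegrableOn (ed Px Py) (HD 0 R'))
    {ε : ℝ} (hε : ε ^ 2 = 1) (π : Equiv.Perm (Fin K))
    (hrel : ∀ z ∈ HD 0 R', ∀ i l, xi (P z) i l = ε * xi (u (Φ z)) (π i) l + η z l)
    {κ : ℝ} (hκ : 0 < κ) {Z : Set ℝ}
    (hZc : ∀ q ∈ Z, ∀ i j, u (Φ q) i = u (Φ q) j)
    (hZd : ∀ q ∈ Z, ∃ N r0 : ℝ, 0 < r0 ∧ |q| + r0 < R' ∧ ∀ r, 0 < r → r < r0 →
      ∃ α : Fin n → ℝ, ∫ z in HD q r, (nsq (Px z) + nsq (sh (Py z) α)) ≤ N * r ^ (2 + κ))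
    {x0 : ℝ} (hx0 : |x0| < R')
    (hpos : ∀ ρ > 0, volume (Z ∩ Ioo (x0 - ρ) (x0 + ρ)) ≠ 0) :
    ∃ r > 0, ∀ w ∈ ball (Φ x0) r ∩ Op, ∀ i j, u w i = u w j := by
  obtain ⟨X, Y, hXY, -, -⟩ := (hEND K n Op u hOp).2.1 hmin.2.1
  obtain ⟨M, hM, hMae⟩ := chart_dev hGAL hGUN hFLB hFLA hK hch hOp hXY hR' hP hε π hrel
  set ρ : ℝ := R' - |x0| with hρ
  have hρ0 : 0 < ρ := by rw [hρ]; linarith
  have hρR : |x0| + ρ ≤ R := by rw [hρ]; linarith
  have hH := (hHCH Op Omi ga Φ c1 R C x0 ρ hch hρ0 hρR).1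
  have hVb : HD x0 ρ ⊆ ball (0 : ℂ) R := HD_sub_ball hρR
  have e1 : (fun z => Φ (z + x0)) '' HD 0 ρ = Φ '' HD x0 ρ := by
    rw [image_shift, zero_add]
  have e2 : (fun z => Φ (z + x0)) '' HDc 0 ρ = Φ '' HDc x0 ρ := by
    rw [image_shift_c, zero_add]
  have hop : IsOpen (Φ '' HD x0 ρ) := hch.opn _ hVb (isOpen_HD _ _)
  have hsub : Φ '' HD x0 ρ ⊆ Op := by
    rintro _ ⟨z, hz, rfl⟩
    exact (hch.side z (hVb hz)).1.mpr hz.1
  have hsubc : Φ '' HDc x0 ρ ⊆ Op ∪ ga := by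
    rintro _ ⟨z, hz, rfl⟩
    have hs := hch.side z (HDc_sub_ball hρR hz)
    rcases hz.1.lt_or_eq with h | h
    · exact Or.inl (hs.1.mpr h)
    · exact Or.inr (hs.2.2.mpr h.symm)
  have key := hUNQ K n (fun z => Φ (z + x0)) (fun t => c1 (t + x0)) ρ C κ u X Y hK hH
    (by rw [e1]; exact hIM2 K n Op _ u hOp hop hsub hmin)
    (by
      rw [e2]
      intro z hz
      exact (hcont z (hsubc hz)).mono_left (nhdsWithin_mono _ hsubc))
    (by
      rw [e1]
      intro i l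
      exact (hGAL Op hOp).1 _ _ _ _ hop hsub (hXY i l))
    hκ {x : ℝ | x ∈ Ioo (-ρ) ρ ∧ x + x0 ∈ Z} (fun x hx => hx.1) (vol_E1 (hpos ρ hρ0)) ?_
  · -- conclusion
    have hball : IsOpen (Φ '' ball (x0 : ℂ) ρ) := by
      refine hch.opn _ ?_ isOpen_ball
      intro z hz
      have h1 : ‖(x0 : ℂ)‖ = |x0| := by simp
      have h2 : ‖z - x0‖ < ρ := by simpa [dist_eq_norm] using hz
      rw [mem_ball, dist_eq_norm, sub_zero]
      calc ‖z‖ = ‖(z - x0) + x0‖ := by simp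
        _ ≤ ‖z - x0‖ + ‖(x0 : ℂ)‖ := norm_add_le _ _
        _ < ρ + |x0| := by rw [h1]; linarith
        _ ≤ R := by linarith
    obtain ⟨r, hr, hrb⟩ := Metric.isOpen_iff.mp hball (Φ x0) ⟨x0, mem_ball_self hρ0, rfl⟩
    refine ⟨r, hr, ?_⟩
    rintro w ⟨hw, hwOp⟩ i j
    obtain ⟨z, hz, rfl⟩ := hrb hw
    have hzn : ‖z - x0‖ < ρ := by simpa [dist_eq_norm] using hz
    have hzb : z ∈ ball (0 : ℂ) R := by
      have h1 : ‖(x0 : ℂ)‖ = |x0| := by simp
      rw [mem_ball, dist_eq_norm, sub_zero]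
      calc ‖z‖ = ‖(z - x0) + x0‖ := by simp
        _ ≤ ‖z - x0‖ + ‖(x0 : ℂ)‖ := norm_add_le _ _
        _ < ρ + |x0| := by rw [h1]; linarith
        _ ≤ R := by linarith
    have him : 0 < z.im := (hch.side z hzb).1.mp hwOp
    exact key (Φ z) (by rw [e1]; exact ⟨z, ⟨him, hzn⟩, rfl⟩) i j
  · -- decay
    rintro x ⟨hxρ, hxZ⟩
    have hcx : ((x : ℂ) + (x0 : ℂ)) = ((x + x0 : ℝ) : ℂ) := by push_cast; ring
    refine ⟨fun i j => by simp only [hcx]; exact hZc _ hxZ i j, ?_⟩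
    obtain ⟨N, r0, hr0, hq, hdec⟩ := hZd _ hxZ
    refine ⟨M * N, r0, hr0, fun r hr hrr => ?_⟩
    obtain ⟨α, hα⟩ := hdec r hr hrr
    set q := x + x0 with hqd
    have hsubq : HD q r ⊆ HD 0 R' := HD_sub (by linarith)
    have hsubb : HD q r ⊆ ball (0 : ℂ) R := HD_sub_ball (by linarith)
    have hinj : InjOn Φ (ball (0 : ℂ) R) := by
      intro z hz w hw hzw
      have := hch.alip z hz w hw
      rw [hzw, sub_self, norm_zero, mul_zero] at this
      exact sub_eq_zero.mp (norm_le_zero_iff.mp this)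
    have hCpos : 0 < C := by linarith [hch.hC]
    have hjac : ∀ z ∈ ball (0 : ℂ) R, 0 < jac Φ z := fun z hz =>
      lt_of_lt_of_le (by positivity) (hch.jacp z hz)
    have hJ := (hJCV (ball 0 R) Φ isOpen_ball hch.smooth hinj hjac (HD q r) hsubb
      (isOpen_HD _ _).measurableSet).1 (fun w => ENNReal.ofReal (dev (X w) + dev (Y w)))
    have hint := integrable_tilt hP hI hsubq α
    calc ∫⁻ w in (fun z => Φ (z + x0)) '' (HD x r ∩ HD 0 ρ),
          ENNReal.ofReal (dev (X w) + dev (Y w))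
        ≤ ∫⁻ w in Φ '' HD q r, ENNReal.ofReal (dev (X w) + dev (Y w)) := by
          refine lintegral_mono_set ?_
          rw [hqd, ← image_shift]
          exact image_mono inter_subset_left
      _ = ∫⁻ z in HD q r, ENNReal.ofReal (jac Φ z) *
            ENNReal.ofReal (dev (X (Φ z)) + dev (Y (Φ z))) := hJ
      _ ≤ ∫⁻ z in HD q r, ENNReal.ofReal (M * (nsq (Px z) + nsq (sh (Py z) α))) := by
          refine lintegral_mono_ae ((ae_restrict_iff' (isOpen_HD _ _).measurableSet).mpr ?_)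
          filter_upwards [hMae] with z hz hzq
          rw [← ENNReal.ofReal_mul (hjac z (hsubb hzq)).le]
          refine ENNReal.ofReal_le_ofReal ((hz (hsubq hzq)).trans ?_)
          exact mul_le_mul_of_nonneg_left (add_le_add (dev_le_nsq _) (dev_le _ _)) hM.le
      _ = ENNReal.ofReal (∫ z in HD q r, M * (nsq (Px z) + nsq (sh (Py z) α))) := by
          rw [ofReal_integral_eq_lintegral_ofReal (hint.const_mul M)]
          exact ae_of_all _ fun z => mul_nonneg hM.le (add_nonneg (nsq_nonneg _) (nsq_nonneg _))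
      _ ≤ ENNReal.ofReal (M * N * r ^ (2 + κ)) := by
          refine ENNReal.ofReal_le_ofReal ?_
          rw [integral_const_mul, mul_assoc]
          exact mul_le_mul_of_nonneg_left hα hM.le

/-! ### the reflected chart -/

theorem fderiv_refl (Φ : ℂ → ℂ) (z v : ℂ) :
    fderiv ℝ (fun w => starRingEnd ℂ (Φ (starRingEnd ℂ w))) z v =
      starRingEnd ℂ (fderiv ℝ Φ (starRingEnd ℂ z) (starRingEnd ℂ v)) := by
  have e : (fun w => starRingEnd ℂ (Φ (starRingEnd ℂ w))) =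
      (Complex.conjCLE ∘ (Φ ∘ Complex.conjCLE)) := by
    funext w; simp
  rw [e, ContinuousLinearEquiv.comp_fderiv, ContinuousLinearEquiv.comp_right_fderiv]
  simp

theorem px_refl (Φ : ℂ → ℂ) (z : ℂ) :
    px (fun w => starRingEnd ℂ (Φ (starRingEnd ℂ w))) z =
      starRingEnd ℂ (px Φ (starRingEnd ℂ z)) := by
  rw [px, fderiv_refl, px, map_one]

theorem py_refl (Φ : ℂ → ℂ) (z : ℂ) :
    py (fun w => starRingEnd ℂ (Φ (starRingEnd ℂ w))) z =
      -starRingEnd ℂ (py Φ (starRingEnd ℂ z)) := by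
  rw [py, fderiv_refl, py, Complex.conj_I, map_neg, map_neg]

theorem jac_refl (Φ : ℂ → ℂ) (z : ℂ) :
    jac (fun w => starRingEnd ℂ (Φ (starRingEnd ℂ w))) z = jac Φ (starRingEnd ℂ z) := by
  rw [jac, px_refl, py_refl, jac]
  simp only [Complex.mul_im, Complex.conj_re, Complex.conj_im, Complex.neg_re, Complex.neg_im]
  ring

theorem conj_mem_ball {R : ℝ} {z : ℂ} (hz : z ∈ ball (0 : ℂ) R) :
    starRingEnd ℂ z ∈ ball (0 : ℂ) R := by
  simpa using hz

theorem chart_refl {Op Omi ga : Set ℂ} {Φ : ℂ → ℂ} {c1 : ℝ → ℂ} {R C : ℝ}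
    (hch : Chart Op Omi ga Φ c1 R C) :
    Chart {z | starRingEnd ℂ z ∈ Omi} {z | starRingEnd ℂ z ∈ Op} {z | starRingEnd ℂ z ∈ ga}
      (fun w => starRingEnd ℂ (Φ (starRingEnd ℂ w))) (fun t => starRingEnd ℂ (c1 t)) R C where
  hR := hch.hR
  hC := hch.hC
  smooth := by
    have e : (fun w => starRingEnd ℂ (Φ (starRingEnd ℂ w))) =
        (Complex.conjCLE ∘ (Φ ∘ Complex.conjCLE)) := by
      funext w; simp
    rw [e]
    refine Complex.conjCLE.contDiff.comp_contDiffOn ?_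
    exact hch.smooth.comp Complex.conjCLE.contDiff.contDiffOn fun z hz => by
      simpa using hz
  lip := fun z hz w hw => by
    have h := hch.lip _ (conj_mem_ball hz) _ (conj_mem_ball hw)
    rw [← map_sub (starRingEnd ℂ) z w, Complex.norm_conj] at h
    rw [← map_sub, Complex.norm_conj]
    exact h
  alip := fun z hz w hw => by
    have := hch.alip _ (conj_mem_ball hz) _ (conj_mem_ball hw)
    rwa [← map_sub, Complex.norm_conj, ← Complex.norm_conj (Φ _ - Φ _), map_sub] at this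
  jacp := fun z hz => by
    rw [jac_refl]; exact hch.jacp _ (conj_mem_ball hz)
  opn := fun V hV hVo => by
    have hV' : IsOpen {z : ℂ | starRingEnd ℂ z ∈ V} := hVo.preimage Complex.continuous_conj
    have h1 := hch.opn {z : ℂ | starRingEnd ℂ z ∈ V}
      (fun z hz => by simpa using conj_mem_ball (hV hz)) hV'
    have h2 : IsOpen ((starRingEnd ℂ) ⁻¹' (Φ '' {z : ℂ | starRingEnd ℂ z ∈ V})) :=
      h1.preimage Complex.continuous_conj
    convert h2 using 1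
    ext w
    constructor
    · rintro ⟨z, hz, rfl⟩
      exact ⟨starRingEnd ℂ z, by simpa using hz, by simp⟩
    · rintro ⟨z, hz, hzw⟩
      exact ⟨starRingEnd ℂ z, hz, by simp [hzw]⟩
  side := fun z hz => by
    have h := hch.side _ (conj_mem_ball hz)
    simp only [mem_ofPred_eq, Complex.conj_conj]
    refine ⟨h.2.1.trans ?_, h.1.trans ?_, h.2.2.trans ?_⟩ <;> simp
  conf := fun z hz => by
    have h := hch.conf _ (conj_mem_ball hz)
    rw [px_refl, py_refl]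
    have e : -(starRingEnd ℂ) (py Φ ((starRingEnd ℂ) z)) -
        Complex.I * (starRingEnd ℂ) (px Φ ((starRingEnd ℂ) z)) =
        -(starRingEnd ℂ) (py Φ ((starRingEnd ℂ) z) - Complex.I * px Φ ((starRingEnd ℂ) z)) := by
      simp only [map_sub, map_mul, Complex.conj_I]; ring
    rw [e, norm_neg, Complex.norm_conj]
    simpa using h
  c1c := Complex.continuous_conj.comp_continuousOn hch.c1c
  ker := fun t ht z hz => by
    have h := hch.ker t ht _ (conj_mem_ball hz)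
    rw [← Complex.norm_conj] at h
    have e2 : ‖(starRingEnd ℂ) z - (t : ℂ)‖ = ‖z - t‖ := by
      rw [← Complex.norm_conj, map_sub, Complex.conj_conj, Complex.conj_ofReal]
    rw [e2] at h
    simpa using h

/-! ### collapsed points -/

theorem mem_HDc_real {R x : ℝ} (hx : |x| < R) : (x : ℂ) ∈ HDc 0 R := by
  refine ⟨by simp, ?_⟩
  simpa using hx

theorem xi_zero_iff (hXIL : Stmt_XIL) {K n : ℕ} (a : Tup K n) :
    (∀ i, a i = 0) ↔ xi a = 0 := by
  rw [(hXIL K n a a).2.2.2.2 0]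
  constructor
  · intro h; funext i l; simpa using h i l
  · intro h i l; rw [h]; simp

theorem measurable_Z (hXIL : Stmt_XIL) {k d n : ℕ} (F : Flat k d n)
    (hl : ContG (HDc 0 F.R) F.l) : MeasurableSet F.Z := by
  have hc : ContinuousOn (fun x : ℝ => xi (F.l x)) (Ioo (-F.R) F.R) := by
    intro x hx
    have hx' : |x| < F.R := abs_lt.mpr hx
    have h1 : Tendsto (fun y : ℝ => dG (F.l y) (F.l x)) (𝓝[Ioo (-F.R) F.R] x) (𝓝 0) := by
      refine (hl x (mem_HDc_real hx')).comp ?_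
      refine tendsto_nhdsWithin_iff.mpr ⟨?_, ?_⟩
      · exact (Complex.continuous_ofReal.tendsto x).mono_left nhdsWithin_le_nhds
      · filter_upwards [self_mem_nhdsWithin] with y hy
        exact mem_HDc_real (abs_lt.mpr hy)
    rw [ContinuousWithinAt, tendsto_pi_nhds]
    intro i
    rw [tendsto_pi_nhds]
    intro l
    rw [tendsto_iff_norm_sub_tendsto_zero]
    refine squeeze_zero (fun _ => norm_nonneg _) (fun y => ?_) h1
    have h2 := (hXIL k n (F.l y) (F.l x)).1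
    have h0 : 0 ≤ dG (F.l y) (F.l x) := Real.iInf_nonneg fun _ => Real.sqrt_nonneg _
    have h3 : (xi (F.l y) i l - xi (F.l x) i l) ^ 2 ≤ nsq (xi (F.l y) - xi (F.l x)) := by
      have e1 : (xi (F.l y) i l - xi (F.l x) i l) ^ 2 ≤
          ∑ l', (xi (F.l y) - xi (F.l x)) i l' ^ 2 :=
        Finset.single_le_sum (f := fun l' => (xi (F.l y) - xi (F.l x)) i l' ^ 2)
          (fun _ _ => sq_nonneg _) (Finset.mem_univ l)
      exact e1.trans (Finset.single_le_sum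
        (f := fun i' => ∑ l', (xi (F.l y) - xi (F.l x)) i' l' ^ 2)
        (fun _ _ => Finset.sum_nonneg fun _ _ => sq_nonneg _) (Finset.mem_univ i))
    rw [Real.norm_eq_abs]
    exact abs_le_of_sq_le_sq (h3.trans h2) h0
  have e : F.Z = Ioo (-F.R) F.R ∩ (fun x : ℝ => xi (F.l x)) ⁻¹' {0} := by
    ext x
    simp only [Flat.Z, mem_ofPred_eq, mem_inter_iff, mem_preimage, mem_singleton_iff]
    rw [xi_zero_iff hXIL, abs_lt, mem_Ioo]
  have ho := hc.isOpen_inter_preimage isOpen_Ioo (t := {(0 : Mat k n)}ᶜ)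
    isOpen_compl_singleton
  have e2 : F.Z = Ioo (-F.R) F.R \ (Ioo (-F.R) F.R ∩ (fun x : ℝ => xi (F.l x)) ⁻¹' {0}ᶜ) := by
    rw [e]
    ext x
    simp only [mem_inter_iff, mem_preimage, mem_singleton_iff, Set.mem_sdiff, mem_compl_iff]
    tauto
  rw [e2]
  exact measurableSet_Ioo.diff ho.measurableSet

theorem dens_pos {Z0 Z : Set ℝ}
    (hnull : volume (Z0 \ Z) = 0) {x0 : ℝ} (hd : Dens Z0 x0) :
    ∀ ρ > 0, volume (Z ∩ Ioo (x0 - ρ) (x0 + ρ)) ≠ 0 := by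
  intro ρ hρ h0
  obtain ⟨r1, hr1, hr⟩ := hd (1 / 2) (by norm_num)
  set r := min ρ r1 / 2 with hrd
  have hr0 : 0 < r := by rw [hrd]; positivity
  have hrr1 : r < r1 := by
    rw [hrd]; have := min_le_right ρ r1; linarith
  have hrρ : r < ρ := by
    rw [hrd]; have := min_le_left ρ r1; linarith
  have h1 := hr r hr0 hrr1
  have h2 : volume (Z0 ∩ Ioo (x0 - ρ) (x0 + ρ)) = 0 := by
    refine measure_mono_null (t := (Z0 \ Z) ∪ (Z ∩ Ioo (x0 - ρ) (x0 + ρ))) ?_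
      (measure_union_null hnull h0)
    rintro x ⟨hx, hx'⟩
    by_cases hxZ : x ∈ Z
    · exact Or.inr ⟨hxZ, hx'⟩
    · exact Or.inl ⟨hx, hxZ⟩
  have h3 : volume (Ioo 0 r ∩ {t : ℝ | x0 + t ∈ Z0 ∧ x0 - t ∈ Z0}) = 0 := by
    have h4 : volume ((fun t => x0 + t) ⁻¹' (Z0 ∩ Ioo (x0 - ρ) (x0 + ρ))) = 0 := by
      rw [measure_preimage_add]; exact h2
    refine measure_mono_null ?_ h4
    rintro t ⟨ht, ht', -⟩
    exact ⟨ht', by show x0 - ρ < x0 + t; linarith [ht.1], by show x0 + t < x0 + ρ; linarith [ht.2]⟩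
  have h5 : volume (Ioo (0 : ℝ) r) ≤ ENNReal.ofReal (1 / 2 * r) := by
    calc volume (Ioo (0 : ℝ) r) ≤ volume (Ioo 0 r ∩ {t : ℝ | x0 + t ∈ Z0 ∧ x0 - t ∈ Z0}) +
          volume (Ioo 0 r \ {t : ℝ | x0 + t ∈ Z0 ∧ x0 - t ∈ Z0}) := measure_le_inter_add_sdiff _ _ _
      _ ≤ ENNReal.ofReal (1 / 2 * r) := by rw [h3, zero_add]; exact h1
  rw [Real.volume_Ioo, sub_zero, ENNReal.ofReal_le_ofReal_iff (by positivity)] at h5
  linarith

end COA_

open COA_ in
theorem coa_proof (_hMET : Stmt_MET) (hXIL : Stmt_XIL) (hAFF : Stmt_AFF) (hGAL : Stmt_GAL)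
    (hGUN : Stmt_GUN) (hEND : Stmt_END) (hJCV : Stmt_JCV) (hFLB : Stmt_FLB) (hFLA : Stmt_FLA)
    (hIM1 : Stmt_IM1) (hIM2 : Stmt_IM2) (hREF : Stmt_REF) (hHCH : Stmt_HCH) (hDEN : Stmt_DEN)
    (hDCY : Stmt_DCY) (hUNQ : Stmt_UNQ) : Stmt_COA := by
  intro k d n Om Op Omi ga φ up um Φ c1 R C F hk hsplit hsm hch hF hFR hrel
  have hZm := measurable_Z hXIL F hF.lc
  obtain ⟨κ, hκ, hdcy⟩ := hDCY k d n hk
  have hdens := hDEN F.Z hZm
  obtain ⟨imp, imm⟩ := hIM1 k d n Om Op Omi ga φ up um hsplit hsm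
  set Z : Set ℝ := {x | x ∈ F.Z ∧ Dens F.Z x} with hZ
  have hnull : volume (F.Z \ Z) = 0 := by
    refine measure_mono_null ?_ (ae_iff.mp hdens)
    rintro x ⟨hx, hx'⟩
    simp only [mem_ofPred_eq]
    intro hc
    exact hx' ⟨hx, hc hx⟩
  have hcollp : ∀ q ∈ F.Z, ∀ i, F.p q i = 0 := by
    intro q hq i
    obtain ⟨j, hj⟩ := (hF.bd q hq.1).mem i
    rw [hj]
    refine Fin.addCases (fun i' => ?_) (fun j' => ?_) j
    · rw [Fin.append_left, hq.2 i', neg_zero]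
    · rw [Fin.append_right]
  filter_upwards [hdens] with x0 hx0d hx0
  have hx0R : |x0| < F.R := hx0.1
  have hpos := dens_pos hnull (hx0d hx0)
  have hintp : ∀ q r : ℝ, |q| + r < F.R → ∀ α : Fin n → ℝ,
      IntegrableOn (fun z => nsq (F.Px z) + nsq (sh (F.Py z) α)) (HD q r) ∧
      IntegrableOn (fun z => nsq (F.Lx z) + nsq (sh (F.Ly z) α)) (HD q r) := fun q r h α =>
    ⟨integrable_tilt hF.pg hF.pI (HD_sub h.le) α, integrable_tilt hF.lg hF.lI (HD_sub h.le) α⟩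
  have hdec : ∀ q ∈ Z, ∃ N r0 : ℝ, 0 < r0 ∧ |q| + r0 < F.R ∧ ∀ r, 0 < r → r < r0 →
      ∃ α : Fin n → ℝ, ∫ z in HD q r, (nsq (F.Px z) + nsq (sh (F.Py z) α)) ≤ N * r ^ (2 + κ) ∧
        ∫ z in HD q r, (nsq (F.Lx z) + nsq (sh (F.Ly z) α)) ≤ N * r ^ (2 + κ) := by
    intro q hq
    obtain ⟨N, r0, hr0, hqr, h⟩ := hdcy F hF q hq.1.1 hq.2
    refine ⟨N, r0, hr0, hqr, fun r hr hrr => ?_⟩
    obtain ⟨α, hα⟩ := h r hr hrr
    obtain ⟨i1, i2⟩ := hintp q r (by linarith) α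
    refine ⟨α, le_trans ?_ hα, le_trans ?_ hα⟩
    · refine integral_mono i1 (i1.add i2) fun z => ?_
      have h1 := nsq_nonneg (F.Lx z)
      have h2 := nsq_nonneg (sh (F.Ly z) α)
      show _ ≤ _ + (_ + _)
      linarith
    · refine integral_mono i2 (i1.add i2) fun z => ?_
      have h1 := nsq_nonneg (F.Px z)
      have h2 := nsq_nonneg (sh (F.Py z) α)
      show _ ≤ _ + (_ + _)
      linarith
  -- upper side
  have hup := one hGAL hGUN hEND hJCV hFLB hFLA hIM2 hHCH hUNQ (K := k + d) (n := n) (by omega)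
    hch hsplit.openOp imp hsm.1.cp hFR hF.pg hF.pI (ε := 1) (by norm_num) (Equiv.refl _)
    (η := fun z l => -F.η z l) ?_ hκ (Z := Z) ?_ ?_ hx0R hpos
  rotate_left
  · intro z hz i l
    have hz' := HD_subset_HDc _ _ hz
    have e : F.p z = fun i => (1 : ℝ) • up (Φ z) i + WithLp.toLp 2 (fun l => -F.η z l) := by
      funext i
      ext l
      rw [(hrel z hz').1 i l]
      simp [sub_eq_add_neg]
    have := (hAFF (k + d) n (up (Φ z))).1 1 (WithLp.toLp 2 (fun l => -F.η z l)) zero_le_one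
    rw [e, this]
    simp
  · intro q hq i j
    have hqz := mem_HDc_real hq.1.1
    ext l
    have h1 := (hrel q hqz).1 i l
    have h2 := (hrel q hqz).1 j l
    rw [hcollp q hq.1] at h1 h2
    simp only [PiLp.zero_apply] at h1 h2
    linarith
  · intro q hq
    obtain ⟨N, r0, hr0, hqr, h⟩ := hdec q hq
    refine ⟨N, r0, hr0, hqr, fun r hr hrr => ?_⟩
    obtain ⟨α, hα, -⟩ := h r hr hrr
    exact ⟨α, hα⟩
  -- lower side
  have hOmi' : IsOpen {z : ℂ | starRingEnd ℂ z ∈ Omi} :=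
    hsplit.openOmi.preimage Complex.continuous_conj
  have hlow := one hGAL hGUN hEND hJCV hFLB hFLA hIM2 hHCH hUNQ (K := k) (n := n) hk
    (chart_refl hch) hOmi' (u := fun z => um (starRingEnd ℂ z))
    ((hREF k n Omi um hsplit.openOmi).1 imm)
    ((hREF k n Omi um hsplit.openOmi).2.2.1 _ hsm.1.cm) hFR hF.lg hF.lI (ε := -1) (by norm_num)
    Fin.revPerm (η := F.η) ?_ hκ (Z := Z) ?_ ?_ hx0R hpos
  rotate_left
  · intro z hz i l
    have hz' := HD_subset_HDc _ _ hz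
    have e : F.l z = fun i => (1 : ℝ) • (fun i => -(um (Φ (starRingEnd ℂ z)) i)) i +
        WithLp.toLp 2 (fun l => F.η z l) := by
      funext i
      ext l
      rw [(hrel z hz').2 i l]
      simp [sub_eq_add_neg, add_comm]
    have h1 := (hAFF k n (fun i => -(um (Φ (starRingEnd ℂ z)) i))).1 1
      (WithLp.toLp 2 (fun l => F.η z l)) zero_le_one
    rw [e, h1, (hAFF k n (um (Φ (starRingEnd ℂ z)))).2]
    simp
  · intro q hq i j
    have hqz := mem_HDc_real hq.1.1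
    ext l
    have h1 := (hrel q hqz).2 i l
    have h2 := (hrel q hqz).2 j l
    rw [hq.1.2 i] at h1
    rw [hq.1.2 j] at h2
    simp only [PiLp.zero_apply, Complex.conj_ofReal] at h1 h2
    simp only [Complex.conj_ofReal, Complex.conj_conj]
    linarith
  · intro q hq
    obtain ⟨N, r0, hr0, hqr, h⟩ := hdec q hq
    refine ⟨N, r0, hr0, hqr, fun r hr hrr => ?_⟩
    obtain ⟨α, -, hα⟩ := h r hr hrr
    exact ⟨α, hα⟩
  obtain ⟨r1, hr1, h1⟩ := hup
  obtain ⟨r2, hr2, h2⟩ := hlow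
  refine ⟨min r1 r2, lt_min hr1 hr2, ?_, ?_⟩
  · rintro w ⟨hw, hwO⟩
    exact h1 w ⟨ball_subset_ball (min_le_left _ _) hw, hwO⟩
  · rintro w ⟨hw, hwO⟩
    have h3 := h2 (starRingEnd ℂ w) ⟨?_, by simpa using hwO⟩
    · simpa using h3
    · have hw' : ‖w - Φ x0‖ < r2 := by
        have := ball_subset_ball (min_le_right _ _) hw
        simpa [dist_eq_norm] using this
      rw [mem_ball, dist_eq_norm, ← map_sub, Complex.norm_conj, Complex.conj_ofReal]
      exact hw'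

end Pool.Agent.DMB
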