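import Pool.Agent.DMB.Api

set_option autoImplicit false

namespace Pool.Agent.DMB

open MeasureTheory Set Metric Filter Topology
open scoped ENNReal

theorem col_proof (hCHA : Stmt_CHA) (hCHB : Stmt_CHB) (hCHC : Stmt_CHC) (hFL1 : Stmt_FL1)
    (hFL2 : Stmt_FL2) (hCOA : Stmt_COA) : Stmt_COL := by
  intro k d n Om Op Omi ga φ up um hk hsp hC3 hmin p hp
  obtain ⟨U1, hU1, hpU1, f, hf, hfp, hside⟩ := hsp.loc p hp
  obtain ⟨U2, hU2, hpU2, ψ, hψ, hφψ⟩ := hC3 p hp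
  have hfp0 : f p = 0 := (hside p hpU1).2.2.1 hp
  have hUo : IsOpen (U1 ∩ U2) := hU1.inter hU2
  have hfU : ContDiffOn ℝ 3 f (U1 ∩ U2) := hf.mono inter_subset_left
  have hψU : ContDiffOn ℝ 3 ψ (U1 ∩ U2) := hψ.mono inter_subset_right
  have hsideU : ∀ z ∈ U1 ∩ U2, (z ∈ Op ↔ 0 < f z) ∧ (z ∈ Omi ↔ f z < 0) ∧ (z ∈ ga ↔ f z = 0) :=
    fun z hz => hside z hz.1
  obtain ⟨c, ρ, hρ, hc, hc0, hct⟩ := hCHA (U1 ∩ U2) f p hUo ⟨hpU1, hpU2⟩ hfU hfp0 hfp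
  obtain ⟨Φ, R, C, hRρ, hch, hΦc⟩ := hCHB Op Omi ga (U1 ∩ U2) f c ρ hUo hfU hsideU hρ hc hct
  have hval : ∀ t : ℝ, |t| < R → φ (Φ t) = ψ (c t) := by
    intro t ht
    have ht' : t ∈ Ioo (-ρ) ρ := by
      rw [abs_lt] at ht
      exact ⟨by linarith [ht.1], by linarith [ht.2]⟩
    obtain ⟨h1, h2, -, -⟩ := hct t ht'
    rw [hΦc t ht]
    exact hφψ (c t) ⟨h1.2, (hsideU _ h1).2.2.2 h2⟩
  obtain ⟨C', η, ηx, ηy, hchφ⟩ := hCHC n φ ψ (U1 ∩ U2) c ρ R Φ hUo hψU hch.hR hRρ hc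
    (fun t ht => (hct t ht).1) hval
  obtain ⟨F, hok0, hFR, hcoef, hrel⟩ := hFL1 k d n Op Omi ga φ up um Φ (deriv c) R C C' η ηx ηy
    hsp.openOp hsp.openOmi hmin.1 hch hchφ
  have hok := hFL2 k d n Om Op Omi ga φ up um Φ (deriv c) R C C' η ηx ηy F hsp hmin hch hchφ hok0
    hFR hcoef hrel
  have hae := hCOA k d n Om Op Omi ga φ up um Φ (deriv c) R C F hk hsp hmin hch hok hFR.le hrel
  have hsub : ball (0 : ℂ) F.R ⊆ ball 0 R := ball_subset_ball hFR.le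
  have hopen : IsOpen (Φ '' ball 0 F.R) := hch.opn _ hsub isOpen_ball
  have hΦ0 : Φ 0 = p := by
    have h1 := hΦc 0 (by rw [abs_zero]; exact hch.hR)
    rw [hc0] at h1
    exact_mod_cast h1
  have hpm : p ∈ Φ '' ball 0 F.R := ⟨0, mem_ball_self hok0.hR, hΦ0⟩
  obtain ⟨ρ0, hρ0, hball⟩ := Metric.isOpen_iff.1 hopen p hpm
  refine ⟨ρ0, hρ0, ?_⟩
  -- the null set of reals
  obtain ⟨N, hN⟩ : ∃ N : Set ℝ, N = {x | ¬ (x ∈ F.Z → LC Op Omi up um (Φ x))} := ⟨_, rfl⟩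
  have hN0 : volume N = 0 := by
    rw [hN]; exact ae_iff.1 hae
  have hcov : {z | z ∈ ball p ρ0 ∩ ga ∧ (∀ i, um z i = φ z) ∧ ¬ LC Op Omi up um z} ⊆
      (fun x : ℝ => Φ x) '' (N ∩ Ioo (-F.R) F.R) := by
    rintro z ⟨⟨hz, hzga⟩, hum, hlc⟩
    obtain ⟨w, hw, rfl⟩ := hball hz
    have hwim : w.im = 0 := (hch.side w (hsub hw)).2.2.1 hzga
    have hwre : ((w.re : ℝ) : ℂ) = w := by
      apply Complex.ext
      · simp
      · simp [hwim]
    have hwabs : |w.re| < F.R := by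
      have h1 : ‖w‖ < F.R := by simpa using hw
      exact lt_of_le_of_lt (Complex.abs_re_le_norm w) h1
    have hwR : |w.re| < R := hwabs.trans hFR
    refine ⟨w.re, ⟨?_, abs_lt.1 hwabs⟩, ?_⟩
    · rw [hN]
      show ¬ (w.re ∈ F.Z → LC Op Omi up um (Φ (w.re : ℂ)))
      rw [hwre]
      intro h1
      refine hlc (h1 ⟨hwabs, ?_⟩)
      intro i
      have hmem : ((w.re : ℝ) : ℂ) ∈ HDc 0 F.R := by
        rw [hwre]
        refine ⟨hwim.ge, ?_⟩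
        simpa using hw
      have hconj : starRingEnd ℂ ((w.re : ℝ) : ℂ) = ((w.re : ℝ) : ℂ) := Complex.conj_ofReal _
      ext j
      have h2 := (hrel _ hmem).2 i j
      have h3 := hchφ.val w.re hwR j
      rw [h2, hcoef.1, hconj, h3, hwre, hum i, sub_self]
      rfl
    · show Φ ((w.re : ℝ) : ℂ) = Φ w
      rw [hwre]
  have hlip : LipschitzOnWith (Real.toNNReal C) (fun x : ℝ => Φ x) (N ∩ Ioo (-F.R) F.R) := by
    refine LipschitzOnWith.of_dist_le_mul ?_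
    intro x hx y hy
    have hx' : ((x : ℝ) : ℂ) ∈ ball (0 : ℂ) R := by
      rw [mem_ball_zero_iff, Complex.norm_real, Real.norm_eq_abs]
      exact (abs_lt.2 hx.2).trans hFR
    have hy' : ((y : ℝ) : ℂ) ∈ ball (0 : ℂ) R := by
      rw [mem_ball_zero_iff, Complex.norm_real, Real.norm_eq_abs]
      exact (abs_lt.2 hy.2).trans hFR
    have h1 := hch.lip _ hx' _ hy'
    have hC0 : 0 ≤ C := le_trans zero_le_one hch.hC
    rw [Real.coe_toNNReal C hC0, dist_eq_norm, Real.dist_eq]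
    have h2 : ‖((x : ℝ) : ℂ) - ((y : ℝ) : ℂ)‖ = |x - y| := by
      rw [← Complex.ofReal_sub, Complex.norm_real, Real.norm_eq_abs]
    rwa [h2] at h1
  have hH : Measure.hausdorffMeasure 1 ((fun x : ℝ => Φ x) '' (N ∩ Ioo (-F.R) F.R)) = 0 := by
    have h1 := hlip.hausdorffMeasure_image_le (d := 1) zero_le_one
    rw [MeasureTheory.hausdorffMeasure_real] at h1
    have h2 : volume (N ∩ Ioo (-F.R) F.R) = 0 := measure_mono_null inter_subset_left hN0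
    rw [h2, mul_zero] at h1
    exact le_antisymm h1 (by simp)
  exact measure_mono_null hcov hH

end Pool.Agent.DMB
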