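import Pool.Agent.DMB.Api

namespace Pool.Agent.DMB

open MeasureTheory Set Metric Filter Topology
open scoped ENNReal

namespace CON_

theorem sub_im (z : ℂ) (q : ℝ) : (z - q).im = z.im := by simp

theorem arg_mem {q r : ℝ} {z : ℂ} (hz : z ∈ HD q r) :
    0 < Complex.arg (z - q) ∧ Complex.arg (z - q) < Real.pi := by
  have h : 0 < (z - q).im := by rw [sub_im]; exact hz.1
  constructor
  · rcases (Complex.arg_nonneg_iff.mpr h.le).lt_or_eq with h1 | h1
    · exact h1
    · exact absurd (Complex.arg_eq_zero_iff.mp h1.symm).2 h.ne'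
  · exact Complex.arg_lt_pi_iff.mpr (Or.inr h.ne')

theorem arg_mem' {q : ℝ} {z : ℂ} (hz : 0 ≤ z.im) :
    Complex.arg (z - q) ∈ Icc 0 Real.pi := by
  have h : 0 ≤ (z - q).im := by rw [sub_im]; exact hz
  exact ⟨Complex.arg_nonneg_iff.mpr h, Complex.arg_le_pi _⟩

theorem ne_of_mem {q r : ℝ} {z : ℂ} (hz : z ∈ HD q r) : z - q ≠ 0 := by
  intro h
  have h1 := hz.1
  rw [← sub_im z q, h] at h1
  simp at h1

theorem slit_of_mem {q r : ℝ} {z : ℂ} (hz : z ∈ HD q r) : z - q ∈ Complex.slitPlane := by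
  refine Complex.mem_slitPlane_iff.mpr (Or.inr ?_)
  rw [sub_im]
  exact hz.1.ne'

/-- continuity of the cone -/
theorem cone_cont {q r A : ℝ} {f : ℝ → ℝ} (hf : ContinuousOn f (Icc 0 Real.pi)) :
    ContinuousOn (cone q r A f) {z | 0 ≤ z.im ∧ ‖z - q‖ ≤ r} := by
  intro z hz
  have hn : ContinuousWithinAt (fun z : ℂ => ‖z - q‖ / r) {z | 0 ≤ z.im ∧ ‖z - q‖ ≤ r} z := by
    have : Continuous fun z : ℂ => ‖z - q‖ / r := by fun_prop
    exact this.continuousWithinAt
  have h2 : ContinuousWithinAt (fun z : ℂ => (1 - ‖z - q‖ / r) * A)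
      {z | 0 ≤ z.im ∧ ‖z - q‖ ≤ r} z := by
    have : Continuous fun z : ℂ => (1 - ‖z - q‖ / r) * A := by fun_prop
    exact this.continuousWithinAt
  refine ContinuousWithinAt.add ?_ h2
  by_cases h0 : z - q = 0
  · obtain ⟨B, hB⟩ := isCompact_Icc.exists_bound_of_continuousOn hf
    have hv : (‖z - q‖ / r) * f (Complex.arg (z - q)) = 0 := by simp [h0]
    have ht : Tendsto (fun w : ℂ => (‖w - q‖ / r) * f (Complex.arg (w - q)))
        (𝓝[{z | 0 ≤ z.im ∧ ‖z - q‖ ≤ r}] z) (𝓝 0) := by
      have h3 : Tendsto (fun w : ℂ => ‖w - q‖ / r) (𝓝[{z | 0 ≤ z.im ∧ ‖z - q‖ ≤ r}] z) (𝓝 0) := by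
        have := hn
        unfold ContinuousWithinAt at this
        simpa [h0] using this
      refine h3.zero_mul_isBoundedUnder_le ?_
      refine ⟨B, ?_⟩
      rw [eventually_map]
      filter_upwards [self_mem_nhdsWithin] with w hw
      exact hB _ (arg_mem' hw.1)
    unfold ContinuousWithinAt
    beta_reduce
    rw [hv]
    exact ht
  · refine hn.mul ?_
    have harg : ContinuousWithinAt (fun w : ℂ => Complex.arg (w - q))
        {z | 0 ≤ z.im ∧ ‖z - q‖ ≤ r} z := by
      have hsub : Tendsto (fun w : ℂ => w - q) (𝓝[{z | 0 ≤ z.im ∧ ‖z - q‖ ≤ r}] z)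
          (𝓝[{z | 0 ≤ z.im}] (z - q)) := by
        refine tendsto_nhdsWithin_of_tendsto_nhds_of_eventually_within _ ?_ ?_
        · have : Continuous fun w : ℂ => w - q := by fun_prop
          exact this.continuousWithinAt
        · filter_upwards [self_mem_nhdsWithin] with w hw
          show 0 ≤ (w - q).im
          rw [sub_im]; exact hw.1
      have him : 0 ≤ (z - q).im := by rw [sub_im]; exact hz.1
      by_cases hs : z - q ∈ Complex.slitPlane
      · exact ((Complex.continuousAt_arg hs).tendsto.mono_left nhdsWithin_le_nhds).comp hsub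
      · rw [Complex.mem_slitPlane_iff] at hs
        have hs1 := not_or.mp hs
        have h4 : (z - q).im = 0 := not_not.mp hs1.2
        have h5 : (z - q).re < 0 := by
          rcases (not_lt.mp hs1.1).lt_or_eq with h6 | h6
          · exact h6
          · exact absurd (Complex.ext h6 h4) h0
        exact (Complex.continuousWithinAt_arg_of_re_neg_of_im_zero h5 h4).tendsto.comp hsub
    have h7 : ContinuousWithinAt f (Icc 0 Real.pi) ((fun w : ℂ => Complex.arg (w - q)) z) :=
      hf _ (arg_mem' hz.1)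
    exact ContinuousWithinAt.comp (g := f) (f := fun w : ℂ => Complex.arg (w - q))
      (t := Icc 0 Real.pi) h7 harg fun w hw => arg_mem' hw.1

/-- the cone in logarithmic coordinates -/
noncomputable def F0 (r A : ℝ) (f : ℝ → ℝ) (w : ℂ) : ℝ :=
  (Real.exp w.re / r) * f w.im + (1 - Real.exp w.re / r) * A

theorem fint {g : ℝ → ℝ} (hg : Measurable g)
    (hg2 : IntegrableOn (fun θ => g θ ^ 2) (Ioc 0 Real.pi)) : IntegrableOn g (Ioc 0 Real.pi) := by
  have h1 : IntegrableOn (fun θ => 1 + g θ ^ 2) (Ioc 0 Real.pi) := by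
    refine Integrable.add ?_ hg2
    exact integrableOn_const (by simp)
  refine h1.mono' hg.aestronglyMeasurable (ae_of_all _ fun θ => ?_)
  rw [Real.norm_eq_abs]
  have h3 := sq_nonneg (|g θ| - 1)
  have h4 := sq_abs (g θ)
  nlinarith [sq_nonneg (g θ)]

theorem f_cont {f g : ℝ → ℝ} (hgi : IntegrableOn g (Ioc 0 Real.pi))
    (hf : ∀ θ ∈ Icc 0 Real.pi, f θ = f 0 + ∫ t in (0 : ℝ)..θ, g t) :
    ContinuousOn f (Icc 0 Real.pi) := by
  have h1 : IntervalIntegrable g volume 0 Real.pi :=
    (intervalIntegrable_iff_integrableOn_Ioc_of_le Real.pi_pos.le).mpr hgi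
  have h2 : ContinuousOn (fun θ => f 0 + ∫ t in (0 : ℝ)..θ, g t) (Icc 0 Real.pi) := by
    have h3 := intervalIntegral.continuousOn_primitive_interval' h1 left_mem_uIcc
    rw [uIcc_of_le Real.pi_pos.le] at h3
    exact continuousOn_const.add h3
  exact h2.congr hf

/-- the logarithmic strip -/
def St : Set ℂ := {w | 0 < w.im ∧ w.im < Real.pi}

theorem isOpen_St : IsOpen St :=
  (isOpen_lt continuous_const Complex.continuous_im).inter
    (isOpen_lt Complex.continuous_im continuous_const)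

/-- local integrability of a function of the imaginary part -/
theorem im_int {h : ℝ → ℝ} (hi : IntegrableOn h (Ioc 0 Real.pi))
    {C : Set ℂ} (hC : C ⊆ St) (hC' : IsCompact C) : IntegrableOn (fun w : ℂ => h w.im) C := by
  obtain ⟨M, hM⟩ := hC'.isBounded.exists_norm_le
  have hsub : C ⊆ Complex.measurableEquivRealProd ⁻¹' ((Icc (-M) M) ×ˢ (Ioc 0 Real.pi)) := by
    intro w hw
    have h1 := hC hw
    have h2 := (Complex.abs_re_le_norm w).trans (hM w hw)
    refine ⟨abs_le.mp h2, h1.1, h1.2.le⟩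
  have h3 : IntegrableOn (fun p : ℝ × ℝ => (1 : ℝ) * h p.2) ((Icc (-M) M) ×ˢ (Ioc 0 Real.pi)) := by
    rw [IntegrableOn, Measure.volume_eq_prod, ← Measure.prod_restrict]
    exact Integrable.mul_prod (f := fun _ => (1 : ℝ)) (integrableOn_const (by simp)) hi
  have h4 := (Complex.volume_preserving_equiv_real_prod.integrableOn_comp_preimage
    Complex.measurableEquivRealProd.measurableEmbedding).mpr h3
  refine (h4.mono_set hsub).congr (ae_of_all _ fun w => ?_)
  simp

theorem F0_grad {r A : ℝ} {f g : ℝ → ℝ} (hg : Measurable g)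
    (hg2 : IntegrableOn (fun θ => g θ ^ 2) (Ioc 0 Real.pi))
    (hf : ∀ θ ∈ Icc 0 Real.pi, f θ = f 0 + ∫ t in (0 : ℝ)..θ, g t) :
    HasGrad St (F0 r A f) (fun w => (Real.exp w.re / r) * (f w.im - A))
      (fun w => (Real.exp w.re / r) * g w.im) := by
  have hgi := fint hg hg2
  have hfc := f_cont hgi hf
  have hf1 : ContinuousOn (fun w : ℂ => f w.im) St :=
    ContinuousOn.comp (t := Icc 0 Real.pi) hfc Complex.continuous_im.continuousOn
      fun w hw => ⟨hw.1.le, hw.2.le⟩
  have hex : Continuous fun w : ℂ => Real.exp w.re / r := by fun_prop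
  have hxc : ContinuousOn (fun w : ℂ => (Real.exp w.re / r) * (f w.im - A)) St :=
    hex.continuousOn.mul (hf1.sub continuousOn_const)
  have hym : Measurable fun w : ℂ => (Real.exp w.re / r) * g w.im :=
    hex.measurable.mul (hg.comp Complex.measurable_im)
  refine ⟨?_, ?_, ?_, ?_, ?_, ?_⟩
  · exact (hex.continuousOn.mul hf1).add
      ((continuous_const.sub hex).mul continuous_const).continuousOn
  · exact hxc.aestronglyMeasurable isOpen_St.measurableSet
  · exact hym.aestronglyMeasurable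
  · intro C hC hC'
    have hxi : IntegrableOn (fun w : ℂ => ((Real.exp w.re / r) * (f w.im - A)) ^ 2) C :=
      ((hxc.mono hC).pow 2).integrableOn_compact hC'
    refine hxi.add ?_
    obtain ⟨B, hB⟩ := hC'.exists_bound_of_continuousOn (f := fun w : ℂ => (Real.exp w.re / r) ^ 2)
      (by fun_prop)
    have h1 := (im_int hg2 hC hC').const_mul B
    refine h1.mono' (hym.pow_const 2).aestronglyMeasurable ?_
    rw [ae_restrict_iff' hC'.measurableSet]
    refine ae_of_all _ fun w hw => ?_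
    have h2 := hB w hw
    rw [Real.norm_eq_abs, abs_of_nonneg (sq_nonneg _)] at h2 ⊢
    rw [mul_pow]
    exact mul_le_mul_of_nonneg_right h2 (sq_nonneg _)
  · refine ae_of_all _ fun y a b hab _ => ?_
    constructor
    · show IntervalIntegrable (fun t => Real.exp t / r * (f y - A)) volume a b
      exact (Continuous.intervalIntegrable (by fun_prop) _ _)
    · simp only [F0]
      have : (∫ t in a..b, Real.exp t / r * (f y - A)) =
          (Real.exp b - Real.exp a) / r * (f y - A) := by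
        rw [intervalIntegral.integral_mul_const, intervalIntegral.integral_div, integral_exp]
      rw [this]
      ring
  · refine ae_of_all _ fun x a b hab hseg => ?_
    have ha := hseg a (left_mem_Icc.mpr hab)
    have hb := hseg b (right_mem_Icc.mpr hab)
    have ha' : a ∈ Icc 0 Real.pi := ⟨ha.1.le, ha.2.le⟩
    have hb' : b ∈ Icc 0 Real.pi := ⟨hb.1.le, hb.2.le⟩
    have hi : ∀ c ∈ Icc 0 Real.pi, IntervalIntegrable g volume 0 c := fun c hc => by
      rw [intervalIntegrable_iff_integrableOn_Ioc_of_le hc.1]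
      exact hgi.mono_set (Ioc_subset_Ioc_right hc.2)
    have hab' : IntervalIntegrable g volume a b := (hi a ha').symm.trans (hi b hb')
    constructor
    · show IntervalIntegrable (fun t => Real.exp x / r * g t) volume a b
      exact hab'.const_mul _
    · simp only [F0]
      rw [intervalIntegral.integral_const_mul, ← intervalIntegral.integral_interval_sub_left
        (hi b hb') (hi a ha'), hf b hb', hf a ha']
      ring

/-- finiteness of the integral of a function of the argument -/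
theorem polar_fin {q r : ℝ} {H : ℝ → ℝ≥0∞} (hm : AEMeasurable H (volume.restrict (Ioo 0 Real.pi)))
    (hH : ∫⁻ θ in Ioo 0 Real.pi, H θ < ⊤) :
    ∫⁻ z in HD q r, H (Complex.arg (z - q)) < ⊤ := by
  have hmeas : ∀ q : ℝ, MeasurableSet (HD q r) := fun q => (isOpen_HD q r).measurableSet
  have e1 : ∫⁻ z in HD q r, H (Complex.arg (z - q)) =
      ∫⁻ w, (HD 0 r).indicator (fun w => H (Complex.arg w)) w := by
    rw [← lintegral_indicator (hmeas q),
      ← lintegral_sub_right_eq_self (μ := volume) (fun w : ℂ => (HD 0 r).indicator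
        (fun w => H (Complex.arg w)) w) (q : ℂ)]
    refine lintegral_congr fun z => ?_
    by_cases hz : z ∈ HD q r
    · have hz' : z - q ∈ HD 0 r := by
        refine ⟨?_, ?_⟩
        · rw [sub_im]; exact hz.1
        · simpa using hz.2
      rw [indicator_of_mem hz, indicator_of_mem hz']
    · have hz' : z - q ∉ HD 0 r := by
        intro h
        refine hz ⟨?_, ?_⟩
        · rw [← sub_im z q]; exact h.1
        · simpa using h.2
      rw [indicator_of_notMem hz, indicator_of_notMem hz']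
  rw [e1, ← Complex.lintegral_comp_polarCoord_symm]
  have e2 : ∫⁻ p in polarCoord.target, ENNReal.ofReal p.1 •
      (HD 0 r).indicator (fun w => H (Complex.arg w)) (Complex.polarCoord.symm p) ≤
      ∫⁻ p in (Ioo 0 r) ×ˢ (Ioo 0 Real.pi), ENNReal.ofReal p.1 * H p.2 := by
    have hsm : MeasurableSet ((Ioo 0 r) ×ˢ (Ioo 0 Real.pi) : Set (ℝ × ℝ)) :=
      measurableSet_Ioo.prod measurableSet_Ioo
    have htm : MeasurableSet (polarCoord.target) := polarCoord.open_target.measurableSet
    rw [← lintegral_indicator htm, ← lintegral_indicator hsm]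
    refine lintegral_mono fun p => ?_
    by_cases hp : p ∈ polarCoord.target
    · rw [indicator_of_mem hp]
      rw [polarCoord_target] at hp
      have hp1 : 0 < p.1 := hp.1
      have hp2 : p.2 ∈ Ioo (-Real.pi) Real.pi := hp.2
      have harg : Complex.arg (Complex.polarCoord.symm p) = p.2 := by
        rw [Complex.polarCoord_symm_apply, Complex.ofReal_cos, Complex.ofReal_sin]
        exact Complex.arg_mul_cos_add_sin_mul_I hp1 ⟨hp2.1, hp2.2.le⟩
      by_cases hw : Complex.polarCoord.symm p ∈ HD 0 r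
      · have hmem : p ∈ (Ioo 0 r) ×ˢ (Ioo 0 Real.pi) := by
          have h1 := arg_mem hw
          have h2 : Complex.polarCoord.symm p - ((0 : ℝ) : ℂ) = Complex.polarCoord.symm p := by
            simp
          rw [h2, harg] at h1
          have h3 := hw.2
          rw [h2, Complex.norm_polarCoord_symm, abs_of_pos hp1] at h3
          exact ⟨⟨hp1, h3⟩, h1⟩
        rw [indicator_of_mem hmem, indicator_of_mem hw, harg, smul_eq_mul]
      · rw [indicator_of_notMem hw, smul_zero]
        exact bot_le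
    · rw [indicator_of_notMem hp]
      exact bot_le
  refine e2.trans_lt ?_
  rw [Measure.volume_eq_prod, ← Measure.prod_restrict,
    lintegral_prod_mul (f := fun x => ENNReal.ofReal x) (g := H)
      ENNReal.measurable_ofReal.aemeasurable hm]
  refine ENNReal.mul_lt_top ?_ hH
  have h4 : ∫⁻ x in Ioo 0 r, ENNReal.ofReal x ≤ ∫⁻ x in Ioo 0 r, ENNReal.ofReal r := by
    refine setLIntegral_mono' measurableSet_Ioo fun x hx => ENNReal.ofReal_le_ofReal hx.2.le
  refine h4.trans_lt ?_
  rw [setLIntegral_const]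
  exact ENNReal.mul_lt_top ENNReal.ofReal_lt_top (by simp)

theorem logd {q r : ℝ} {z : ℂ} (hz : z ∈ HD q r) :
    HasDerivAt (fun z : ℂ => Complex.log (z - q)) (z - q)⁻¹ z := by
  have h1 : HasDerivAt (fun z : ℂ => z - (q : ℂ)) 1 z := (hasDerivAt_id z).sub_const _
  have h2 := h1.clog (slit_of_mem hz)
  rwa [one_div] at h2

theorem px_log {q r : ℝ} {z : ℂ} (hz : z ∈ HD q r) :
    px (fun z : ℂ => Complex.log (z - q)) z = (z - q)⁻¹ ∧
    py (fun z : ℂ => Complex.log (z - q)) z = Complex.I * (z - q)⁻¹ := by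
  have h1 := ((logd hz).hasFDerivAt.restrictScalars ℝ).fderiv
  constructor
  · unfold px
    rw [h1]
    simp
  · unfold py
    rw [h1]
    simp

theorem cosarg {q r : ℝ} {z : ℂ} (hz : z ∈ HD q r) :
    (z - q).re = ‖z - q‖ * Real.cos (Complex.arg (z - q)) ∧
    (z - q).im = ‖z - q‖ * Real.sin (Complex.arg (z - q)) := by
  have h0 := ne_of_mem hz
  have h1 : ‖z - q‖ ≠ 0 := norm_ne_zero_iff.mpr h0
  constructor
  · rw [Complex.cos_arg h0]
    field_simp
  · rw [Complex.sin_arg]
    field_simp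

theorem inv_re {q r : ℝ} {z : ℂ} (hz : z ∈ HD q r) :
    ((z - q)⁻¹).re = Real.cos (Complex.arg (z - q)) / ‖z - q‖ ∧
    ((z - q)⁻¹).im = -(Real.sin (Complex.arg (z - q)) / ‖z - q‖) := by
  have h0 := ne_of_mem hz
  have h1 : ‖z - q‖ ≠ 0 := norm_ne_zero_iff.mpr h0
  have h2 := cosarg hz
  have h3 : Complex.normSq (z - q) = ‖z - q‖ ^ 2 := Complex.normSq_eq_norm_sq _
  constructor
  · rw [Complex.inv_re, h3, h2.1]
    field_simp
  · rw [Complex.inv_im, h3, h2.2]
    field_simp

theorem cone_grad (hGAL : Stmt_GAL) (hGCO : Stmt_GCO) {q r A : ℝ} {f g : ℝ → ℝ}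
    (hr : 0 < r) (hg : Measurable g)
    (hg2 : IntegrableOn (fun θ => g θ ^ 2) (Ioc 0 Real.pi))
    (hf : ∀ θ ∈ Icc 0 Real.pi, f θ = f 0 + ∫ t in (0 : ℝ)..θ, g t) :
    HasGrad (HD q r) (cone q r A f)
      (fun z => ((f (Complex.arg (z - q)) - A) * Real.cos (Complex.arg (z - q)) -
        g (Complex.arg (z - q)) * Real.sin (Complex.arg (z - q))) / r)
      (fun z => ((f (Complex.arg (z - q)) - A) * Real.sin (Complex.arg (z - q)) +
        g (Complex.arg (z - q)) * Real.cos (Complex.arg (z - q))) / r) := by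
  have h0 := F0_grad (r := r) (A := A) hg hg2 hf
  have hcd : ContDiffOn ℝ 1 (fun z : ℂ => Complex.log (z - q)) (HD q r) := by
    intro z hz
    have h1 : ContDiffAt ℂ 1 Complex.log (z - q) := Complex.contDiffAt_log (slit_of_mem hz)
    have h2 : ContDiffAt ℂ 1 (fun z : ℂ => Complex.log (z - q)) z :=
      ContDiffAt.comp z h1 (contDiffAt_id.sub contDiffAt_const)
    exact (h2.restrict_scalars ℝ).contDiffWithinAt
  have hmt : MapsTo (fun z : ℂ => Complex.log (z - q)) (HD q r) St := by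
    intro z hz
    have h1 := arg_mem hz
    refine ⟨?_, ?_⟩
    · rw [Complex.log_im]; exact h1.1
    · rw [Complex.log_im]; exact h1.2
  have hinj : InjOn (fun z : ℂ => Complex.log (z - q)) (HD q r) := by
    intro z hz w hw h
    have h1 := congrArg Complex.exp h
    simp only [Complex.exp_log (ne_of_mem hz), Complex.exp_log (ne_of_mem hw)] at h1
    exact sub_left_injective h1
  have hjac : ∀ z ∈ HD q r, jac (fun z : ℂ => Complex.log (z - q)) z ≠ 0 := by
    intro z hz
    have h1 := px_log hz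
    unfold jac
    rw [h1.1, h1.2]
    have h2 : (z - (q : ℂ))⁻¹ ≠ 0 := inv_ne_zero (ne_of_mem hz)
    have h3 : (starRingEnd ℂ) (z - (q : ℂ))⁻¹ * (Complex.I * (z - (q : ℂ))⁻¹) =
        Complex.I * (Complex.normSq (z - (q : ℂ))⁻¹ : ℂ) := by
      rw [Complex.normSq_eq_conj_mul_self]
      ring
    rw [h3, Complex.I_mul_im, Complex.ofReal_re]
    exact Complex.normSq_eq_zero.not.mpr h2
  have h1 := hGCO St (HD q r) _ _ _ _ isOpen_St (isOpen_HD q r) hcd hmt hinj hjac h0
  refine (hGAL (HD q r) (isOpen_HD q r)).2.2.2.2 _ _ _ _ _ _ h1 ?_ ?_ ?_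
  · intro z hz
    have hn : 0 < ‖z - q‖ := norm_pos_iff.mpr (ne_of_mem hz)
    simp only [F0, cone, Complex.log_re, Complex.log_im, Real.exp_log hn]
  · refine (ae_restrict_iff' (isOpen_HD q r).measurableSet).mpr (ae_of_all _ fun z hz => ?_)
    have hn : 0 < ‖z - q‖ := norm_pos_iff.mpr (ne_of_mem hz)
    have h2 := px_log hz
    have h3 := inv_re hz
    simp only [h2.1, h3.1, h3.2, Complex.log_re, Complex.log_im, Real.exp_log hn]
    field_simp
    ring
  · refine (ae_restrict_iff' (isOpen_HD q r).measurableSet).mpr (ae_of_all _ fun z hz => ?_)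
    have hn : 0 < ‖z - q‖ := norm_pos_iff.mpr (ne_of_mem hz)
    have h2 := px_log hz
    have h3 := inv_re hz
    simp only [h2.2, Complex.I_mul_re, Complex.I_mul_im, h3.1, h3.2, Complex.log_re,
      Complex.log_im, Real.exp_log hn]
    field_simp

/-- the boundary integrand -/
noncomputable def HH (r A α : ℝ) (f g : ℝ → ℝ) (θ : ℝ) : ℝ :=
  (f θ - A - α * r * Real.sin θ) ^ 2 + (g θ - α * r * Real.cos θ) ^ 2

theorem HH_int {r A : ℝ} {f g : ℝ → ℝ} (hg : Measurable g)
    (hg2 : IntegrableOn (fun θ => g θ ^ 2) (Ioc 0 Real.pi))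
    (hfc : ContinuousOn f (Icc 0 Real.pi)) (α : ℝ) :
    IntegrableOn (HH r A α f g) (Ioc 0 Real.pi) := by
  have h1 : IntegrableOn (fun θ => (f θ - A - α * r * Real.sin θ) ^ 2) (Ioc 0 Real.pi) := by
    have h2 : ContinuousOn (fun θ => (f θ - A - α * r * Real.sin θ) ^ 2) (Icc 0 Real.pi) := by
      fun_prop
    exact (h2.integrableOn_compact isCompact_Icc).mono_set Ioc_subset_Icc_self
  refine h1.add ?_
  have h3 : IntegrableOn (fun θ => 2 * g θ ^ 2 + 2 * (α * r) ^ 2) (Ioc 0 Real.pi) := by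
    refine Integrable.add (hg2.const_mul 2) ?_
    exact integrableOn_const (by simp)
  refine h3.mono' (by fun_prop) (ae_of_all _ fun θ => ?_)
  rw [Real.norm_eq_abs, abs_of_nonneg (sq_nonneg _)]
  have h4 := sq_nonneg (g θ + α * r * Real.cos θ)
  have h5 : (α * r * Real.cos θ) ^ 2 ≤ (α * r) ^ 2 := by
    rw [mul_pow]
    have h6 : Real.cos θ ^ 2 ≤ 1 := by
      have := Real.sin_sq_add_cos_sq θ
      nlinarith [sq_nonneg (Real.sin θ)]
    nlinarith [sq_nonneg (α * r)]
  nlinarith

theorem arg_cm {q ρ θ : ℝ} (hρ : 0 < ρ) (hθ : θ ∈ Ioc 0 Real.pi) :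
    Complex.arg (cm q ρ θ - q) = θ := by
  have h1 : cm q ρ θ - q = (ρ : ℂ) * (Complex.cos θ + Complex.sin θ * Complex.I) := by
    unfold cm
    rw [Complex.exp_mul_I]
    ring
  rw [h1]
  exact Complex.arg_mul_cos_add_sin_mul_I hρ ⟨by linarith [hθ.1, Real.pi_pos], hθ.2⟩

theorem main (hGAL : Stmt_GAL) (hGCO : Stmt_GCO) (hPOL : Stmt_POL) {q r A : ℝ} {f g : ℝ → ℝ}
    (hr : 0 < r) (hg : Measurable g)
    (hg2 : IntegrableOn (fun θ => g θ ^ 2) (Ioc 0 Real.pi))
    (hf : ∀ θ ∈ Icc 0 Real.pi, f θ = f 0 + ∫ t in (0 : ℝ)..θ, g t) :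
    ∃ wx wy : ℂ → ℝ, HasGrad (HD q r) (cone q r A f) wx wy ∧
    IntegrableOn (fun z => wx z ^ 2 + wy z ^ 2) (HD q r) ∧
    ∀ α : ℝ, ∫ z in HD q r, (wx z ^ 2 + (wy z - α) ^ 2) =
      (1 / 2) * ∫ θ in (0 : ℝ)..Real.pi, HH r A α f g θ := by
  have hfc := f_cont (fint hg hg2) hf
  have hG := cone_grad hGAL hGCO (q := q) (A := A) hr hg hg2 hf
  set wx : ℂ → ℝ := fun z => ((f (Complex.arg (z - q)) - A) * Real.cos (Complex.arg (z - q)) -
        g (Complex.arg (z - q)) * Real.sin (Complex.arg (z - q))) / r with hwx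
  set wy : ℂ → ℝ := fun z => ((f (Complex.arg (z - q)) - A) * Real.sin (Complex.arg (z - q)) +
        g (Complex.arg (z - q)) * Real.cos (Complex.arg (z - q))) / r with hwy
  have hid : ∀ (α : ℝ) (z : ℂ), wx z ^ 2 + (wy z - α) ^ 2 =
      HH r A α f g (Complex.arg (z - q)) / r ^ 2 := by
    intro α z
    have h1 := Real.sin_sq_add_cos_sq (Complex.arg (z - q))
    simp only [hwx, hwy, HH]
    generalize Real.sin (Complex.arg (z - q)) = s at *
    generalize Real.cos (Complex.arg (z - q)) = c at *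
    generalize f (Complex.arg (z - q)) = a at *
    generalize g (Complex.arg (z - q)) = b at *
    field_simp
    have h2 : c ^ 2 = 1 - s ^ 2 := by linarith
    ring_nf
    rw [h2]
    ring
  have hint : ∀ α : ℝ, IntegrableOn (fun z => wx z ^ 2 + (wy z - α) ^ 2) (HD q r) := by
    intro α
    refine ⟨(hG.mx.pow 2).add ((hG.my.sub aestronglyMeasurable_const).pow 2), ?_⟩
    have h1 := (HH_int (r := r) (A := A) hg hg2 hfc α).div_const (r ^ 2)
    have h2 : IntegrableOn (fun θ => HH r A α f g θ / r ^ 2) (Ioo 0 Real.pi) :=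
      IntegrableOn.mono_set h1 Ioo_subset_Ioc_self
    have h3 := polar_fin (q := q) (r := r) (H := fun θ => ‖HH r A α f g θ / r ^ 2‖ₑ)
      h2.1.enorm h2.2
    unfold HasFiniteIntegral
    refine lt_of_eq_of_lt ?_ h3
    refine lintegral_congr fun z => ?_
    simp only [hid]
  refine ⟨wx, wy, hG, ?_, ?_⟩
  · have := hint 0
    simpa using this
  · intro α
    have h1 := (hPOL q r _ hr (hint α)).2.2 r ⟨hr.le, le_rfl⟩
    rw [h1]
    have h2 : ∫ ρ in (0 : ℝ)..r, ρ * ∫ θ in (0 : ℝ)..Real.pi,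
        (wx (cm q ρ θ) ^ 2 + (wy (cm q ρ θ) - α) ^ 2) =
        ∫ ρ in (0 : ℝ)..r, ρ * ((∫ θ in (0 : ℝ)..Real.pi, HH r A α f g θ) / r ^ 2) := by
      rw [intervalIntegral.integral_of_le hr.le, intervalIntegral.integral_of_le hr.le]
      refine setIntegral_congr_fun measurableSet_Ioc fun ρ hρ => ?_
      have h3 : (∫ θ in (0 : ℝ)..Real.pi, (wx (cm q ρ θ) ^ 2 + (wy (cm q ρ θ) - α) ^ 2)) =
          (∫ θ in (0 : ℝ)..Real.pi, HH r A α f g θ) / r ^ 2 := by
        rw [← intervalIntegral.integral_div, intervalIntegral.integral_of_le Real.pi_pos.le,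
          intervalIntegral.integral_of_le Real.pi_pos.le]
        refine setIntegral_congr_fun measurableSet_Ioc fun θ hθ => ?_
        simp only [hid, arg_cm hρ.1 hθ]
      simp only [h3]
    rw [h2, intervalIntegral.integral_mul_const, integral_id]
    field_simp
    ring

end CON_

theorem con_proof (hGAL : Stmt_GAL) (_hGMU : Stmt_GMU) (hGCO : Stmt_GCO) (hPOL : Stmt_POL) :
    Stmt_CON := by
  intro q r A f f' hr hm h2 hf
  have hgm : Measurable (hm.mk f') := hm.stronglyMeasurable_mk.measurable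
  have hae : f' =ᵐ[volume.restrict (Ioc 0 Real.pi)] hm.mk f' := hm.ae_eq_mk
  set g : ℝ → ℝ := hm.mk f' with hgdef
  have h2' : IntegrableOn (fun θ => f' θ ^ 2) (Ioc 0 Real.pi) :=
    (intervalIntegrable_iff_integrableOn_Ioc_of_le Real.pi_pos.le).mp h2
  have hg2 : IntegrableOn (fun θ => g θ ^ 2) (Ioc 0 Real.pi) := by
    refine Integrable.congr h2' ?_
    filter_upwards [hae] with θ hθ
    rw [hθ]
  have hf' : ∀ θ ∈ Icc 0 Real.pi, f θ = f 0 + ∫ t in (0 : ℝ)..θ, g t := by
    intro θ hθ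
    rw [hf θ hθ, intervalIntegral.integral_of_le hθ.1, intervalIntegral.integral_of_le hθ.1]
    congr 1
    exact integral_congr_ae (ae_restrict_of_ae_restrict_of_subset
      (Ioc_subset_Ioc_right hθ.2) hae)
  refine ⟨CON_.cone_cont (CON_.f_cont (CON_.fint hgm hg2) hf'), ?_⟩
  obtain ⟨wx, wy, h3, h4, h5⟩ := CON_.main hGAL hGCO hPOL (q := q) (A := A) hr hgm hg2 hf'
  refine ⟨wx, wy, h3, h4, fun α => ?_⟩
  rw [h5 α]
  congr 1
  rw [intervalIntegral.integral_of_le Real.pi_pos.le,
    intervalIntegral.integral_of_le Real.pi_pos.le]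
  refine integral_congr_ae ?_
  filter_upwards [hae] with θ hθ
  simp only [CON_.HH, hθ]

end Pool.Agent.DMB


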