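import Pool.Agent.DMB.Api

/-!
Squad DMB, module COU: a continuous curve of tuples is controlled by its sorted matrix.
-/

set_option autoImplicit false

namespace Pool.Agent.DMB

open MeasureTheory Set Metric Filter Topology
open scoped ENNReal

namespace COU_

variable {K n : ℕ}

theorem nsq_sub_comm (v w : Mat K n) : nsq (v - w) = nsq (w - v) := by
  unfold nsq
  refine Finset.sum_congr rfl fun i _ => Finset.sum_congr rfl fun l _ => ?_
  simp only [Pi.sub_apply]
  ring

end COU_

open COU_ in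
theorem cou_proof (hMET : Stmt_MET) (_hXIL : Stmt_XIL) (hISO : Stmt_ISO) : Stmt_COU := by
  intro K n u g a b hab hu hg hs
  have hnn : ∀ x y : Tup K n, 0 ≤ dG x y := fun x y => (hMET K n x y y).1
  have hcm : ∀ x y : Tup K n, dG x y = dG y x := fun x y => (hMET K n x y y).2.1
  have htri : ∀ x y z : Tup K n, dG x z ≤ dG x y + dG y z := fun x y z => (hMET K n x y z).2.2.1
  have hself : ∀ x : Tup K n, dG x x = 0 := fun x =>
    (hMET K n x x x).2.2.2.1.2 ⟨1, rfl⟩
  set F : ℝ → ℝ := fun t => dG (u a) (u t) - ∫ x in a..t, g x with hF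
  have hmem : ∀ t ∈ Icc a b, t ∈ uIcc a b := fun t ht => by rwa [uIcc_of_le hab]
  have hint : ∀ s ∈ Icc a b, ∀ t ∈ Icc a b, IntervalIntegrable g volume s t := by
    intro s hs' t ht'
    exact hg.mono_set (uIcc_subset_uIcc (hmem s hs') (hmem t ht'))
  have hc1 : ContinuousOn (fun t => dG (u a) (u t)) (Icc a b) := by
    intro t ht
    have h1 := hu t ht
    rw [ContinuousWithinAt, tendsto_iff_dist_tendsto_zero]
    refine squeeze_zero (fun _ => dist_nonneg) (fun s => ?_) h1
    rw [Real.dist_eq, abs_le]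
    have t1 := htri (u a) (u t) (u s)
    have t2 := htri (u a) (u s) (u t)
    rw [hcm (u t) (u s)] at t1
    constructor <;> linarith
  have hc2 : ContinuousOn (fun t => ∫ x in a..t, g x) (Icc a b) := by
    have := intervalIntegral.continuousOn_primitive_interval'
      (μ := volume) (f := g) (b₁ := a) (b₂ := b) (a := a) hg left_mem_uIcc
    rwa [uIcc_of_le hab] at this
  have hc : ContinuousOn F (Icc a b) := hc1.sub hc2
  have hclosed : IsClosed ({t | F t ≤ 0} ∩ Icc a b) := by
    have := hc.preimage_isClosed_of_isClosed isClosed_Icc (isClosed_Iic (a := (0 : ℝ)))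
    rw [inter_comm]
    exact this
  have hstart : a ∈ {t | F t ≤ 0} := by
    simp [hF, hself]
  have hsub : Icc a b ⊆ {t | F t ≤ 0} := by
    refine hclosed.Icc_subset_of_forall_mem_nhdsWithin hstart ?_
    rintro x ⟨hx, hxI⟩
    have hxI' : x ∈ Icc a b := ⟨hxI.1, hxI.2.le⟩
    obtain ⟨δ, hδ, hiso⟩ := hISO K n (u x)
    have h1 := hu x hxI'
    have h2 : ∀ᶠ s in 𝓝[Icc a b] x, dG (u s) (u x) < δ := h1.eventually (gt_mem_nhds hδ)
    have h3 : ∀ᶠ s in 𝓝[>] x, dG (u s) (u x) < δ := by
      have h4 : 𝓝[>] x ≤ 𝓝[Icc a b] x := by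
        rw [← nhdsWithin_Ioc_eq_nhdsGT hxI.2]
        exact nhdsWithin_mono _ fun t ht => ⟨hxI.1.trans ht.1.le, ht.2⟩
      exact h4 h2
    filter_upwards [h3, Ioc_mem_nhdsGT hxI.2] with t ht htI
    have htI' : t ∈ Icc a b := ⟨hxI.1.trans htI.1.le, htI.2⟩
    have h5 := (hiso (u t)).2 (by rw [hcm]; exact ht)
    have h6 := hs x hxI' t htI' htI.1.le
    rw [nsq_sub_comm, h5, Real.sqrt_sq (hnn _ _)] at h6
    have h7 := htri (u a) (u x) (u t)
    have h8 := intervalIntegral.integral_add_adjacent_intervals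
      (hint a (left_mem_Icc.2 hab) x hxI') (hint x hxI' t htI')
    have h9 : F x ≤ 0 := hx
    simp only [hF] at h9
    change F t ≤ 0
    simp only [hF]
    linarith
  have := hsub (right_mem_Icc.2 hab)
  have h9 : F b ≤ 0 := this
  simp only [hF] at h9
  linarith

end Pool.Agent.DMB
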