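import Pool.Agent.DMB.Api

/-!
Module CPT: the competitor made of cones.
-/

set_option autoImplicit false

namespace Pool.Agent.DMB

open MeasureTheory Set Metric Filter Topology
open scoped ENNReal

namespace CPT_

theorem entry_sq_le {K n : ℕ} (v : Mat K n) (i : Fin K) (l : Fin n) : v i l ^ 2 ≤ nsq v := by
  have h1 : v i l ^ 2 ≤ ∑ l, v i l ^ 2 :=
    Finset.single_le_sum (f := fun l => v i l ^ 2) (fun _ _ => sq_nonneg _) (Finset.mem_univ l)
  have h2 : ∑ l, v i l ^ 2 ≤ ∑ i, ∑ l, v i l ^ 2 :=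
    Finset.single_le_sum (f := fun i => ∑ l, v i l ^ 2)
      (fun _ _ => Finset.sum_nonneg fun _ _ => sq_nonneg _) (Finset.mem_univ i)
  exact h1.trans h2

theorem contG_cont (hMET : Stmt_MET) (hXIL : Stmt_XIL) {K n : ℕ} {A : Set ℂ} {u : ℂ → Tup K n}
    (h : ContG A u) (i : Fin K) (l : Fin n) : ContinuousOn (fun z => xi (u z) i l) A := by
  intro z hz
  have h1 := h z hz
  refine tendsto_iff_dist_tendsto_zero.2 ?_
  refine squeeze_zero (fun _ => dist_nonneg) (fun w => ?_) h1
  rw [Real.dist_eq]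
  have h2 := (hXIL K n (u w) (u z)).1
  have h3 : (xi (u w) i l - xi (u z) i l) ^ 2 ≤ nsq (xi (u w) - xi (u z)) :=
    entry_sq_le (xi (u w) - xi (u z)) i l
  exact abs_le_of_sq_le_sq (h3.trans h2) (hMET K n (u w) (u z) (u z)).1

theorem contG_of_cont (hMET : Stmt_MET) {K n : ℕ} {A : Set ℂ} {v : ℂ → Tup K n}
    (h : ∀ i, ∀ l, ContinuousOn (fun z => v z i l) A) : ContG A v := by
  intro z hz
  have h1 : Tendsto (fun w => Real.sqrt (sqd (v w) (v z))) (𝓝[A] z) (𝓝 0) := by
    have h2 : Tendsto (fun w => sqd (v w) (v z)) (𝓝[A] z) (𝓝 0) := by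
      have h3 : (fun w => sqd (v w) (v z)) = fun w => ∑ i, ∑ l, (v w i l - v z i l) ^ 2 := by
        funext w; rw [sqd_eq_nsq]; rfl
      rw [h3]
      have h4 : (0 : ℝ) = ∑ i : Fin K, ∑ l : Fin n, (v z i l - v z i l) ^ 2 := by simp
      rw [h4]
      exact tendsto_finsetSum _ fun i _ => tendsto_finsetSum _ fun l _ =>
        (Tendsto.sub (h i l z hz) tendsto_const_nhds).pow 2
    have h5 := h2.sqrt
    simpa using h5
  refine squeeze_zero (fun w => (hMET K n _ _ (v z)).1) (fun w => ?_) h1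
  have := (hMET K n (v w) (v z) (v z)).2.2.2.2.2.1 (Equiv.refl _)
  simpa using this

theorem fin1 (q r y : ℝ) : {t : ℝ | (⟨t, y⟩ : ℂ) ∈ sphere (q : ℂ) r}.Finite := by
  refine Set.Finite.subset
    (Set.toFinite {q + Real.sqrt (r ^ 2 - y ^ 2), q - Real.sqrt (r ^ 2 - y ^ 2)}) ?_
  intro t ht
  have h1 : ‖(⟨t, y⟩ : ℂ) - q‖ = r := by simpa [dist_eq_norm] using ht
  have h2 : (t - q) ^ 2 + y ^ 2 = r ^ 2 := by
    rw [← h1, Complex.sq_norm, Complex.normSq_apply]
    simp; ring
  have h3 : (t - q) ^ 2 = r ^ 2 - y ^ 2 := by linarith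
  have h4 : Real.sqrt (r ^ 2 - y ^ 2) = |t - q| := by rw [← h3, Real.sqrt_sq_eq_abs]
  rcases abs_cases (t - q) with ⟨h, _⟩ | ⟨h, _⟩
  · left; rw [h4, h]; ring
  · right; rw [mem_singleton_iff, h4, h]; ring

theorem fin2 (q r x : ℝ) : {t : ℝ | (⟨x, t⟩ : ℂ) ∈ sphere (q : ℂ) r}.Finite := by
  refine Set.Finite.subset
    (Set.toFinite {Real.sqrt (r ^ 2 - (x - q) ^ 2), -Real.sqrt (r ^ 2 - (x - q) ^ 2)}) ?_
  intro t ht
  have h1 : ‖(⟨x, t⟩ : ℂ) - q‖ = r := by simpa [dist_eq_norm] using ht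
  have h2 : (x - q) ^ 2 + t ^ 2 = r ^ 2 := by
    rw [← h1, Complex.sq_norm, Complex.normSq_apply]
    simp; ring
  have h3 : t ^ 2 = r ^ 2 - (x - q) ^ 2 := by linarith
  have h4 : Real.sqrt (r ^ 2 - (x - q) ^ 2) = |t| := by rw [← h3, Real.sqrt_sq_eq_abs]
  rcases abs_cases t with ⟨h, _⟩ | ⟨h, _⟩
  · left; rw [h4, h]
  · right; rw [mem_singleton_iff, h4, h]; ring

/-- gluing of labelled functions -/
noncomputable def glue {β : Type*} (q r : ℝ) (a b : ℂ → β) (z : ℂ) : β :=
  if ‖z - q‖ < r then a z else b z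

theorem glue_contG (hMET : Stmt_MET) {K n : ℕ} (q r R : ℝ) (u v : ℂ → Tup K n)
    (hu : ContG (HDc 0 R) u) (hv : ContG {z | 0 ≤ z.im ∧ ‖z - q‖ ≤ r} v)
    (he : ∀ z ∈ HDc 0 R, ‖z - q‖ = r → Same (v z) (u z)) : ContG (HDc 0 R) (glue q r v u) := by
  intro z hz
  have hcov : HDc 0 R = (HDc 0 R ∩ {z | ‖z - q‖ ≤ r}) ∪ (HDc 0 R ∩ {z | r ≤ ‖z - q‖}) := by
    ext w
    constructor
    · intro hw
      rcases le_total ‖w - q‖ r with h | h
      · exact Or.inl ⟨hw, h⟩
      · exact Or.inr ⟨hw, h⟩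
    · rintro (h | h)
      · exact h.1
      · exact h.1
  have s1 : ∀ w ∈ HDc 0 R ∩ {z | ‖z - q‖ ≤ r}, Same (glue q r v u w) (v w) := by
    intro w hw
    by_cases h : ‖w - q‖ < r
    · rw [glue, if_pos h]; exact Same.refl' _
    · rw [glue, if_neg h]
      exact (he w hw.1 (le_antisymm hw.2 (not_lt.1 h))).symm'
  have s2 : ∀ w ∈ HDc 0 R ∩ {z | r ≤ ‖z - q‖}, Same (glue q r v u w) (u w) := by
    intro w hw
    rw [glue, if_neg (not_lt.2 hw.2)]; exact Same.refl' _
  have cl1 : IsClosed {z : ℂ | ‖z - q‖ ≤ r} :=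
    isClosed_le (by fun_prop) continuous_const
  have cl2 : IsClosed {z : ℂ | r ≤ ‖z - q‖} :=
    isClosed_le continuous_const (by fun_prop)
  rw [hcov, nhdsWithin_union, tendsto_sup]
  constructor
  · by_cases h : ‖z - q‖ ≤ r
    · have h1 := (hv z ⟨hz.1, h⟩).mono_left
        (nhdsWithin_mono z (show HDc 0 R ∩ {z | ‖z - q‖ ≤ r} ⊆ {z | 0 ≤ z.im ∧ ‖z - q‖ ≤ r} from
          fun w hw => ⟨hw.1.1, hw.2⟩))
      refine h1.congr' ?_
      filter_upwards [self_mem_nhdsWithin] with w hw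
      exact ((hMET K n (glue q r v u w) (glue q r v u z) (v z)).2.2.2.2.2.2 _ _ (s1 w hw)
        (s1 z ⟨hz, h⟩)).symm
    · have h2 : 𝓝[HDc 0 R ∩ {z | ‖z - q‖ ≤ r}] z = ⊥ := by
        rw [← notMem_closure_iff_nhdsWithin_eq_bot]
        intro h3
        exact h (cl1.closure_subset_iff.2 inter_subset_right h3)
      rw [h2]; exact tendsto_bot
  · by_cases h : r ≤ ‖z - q‖
    · have h1 := (hu z hz).mono_left
        (nhdsWithin_mono z (show HDc 0 R ∩ {z | r ≤ ‖z - q‖} ⊆ HDc 0 R from inter_subset_left))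
      refine h1.congr' ?_
      filter_upwards [self_mem_nhdsWithin] with w hw
      exact ((hMET K n (glue q r v u w) (glue q r v u z) (v z)).2.2.2.2.2.2 _ _ (s2 w hw)
        (s2 z ⟨hz, h⟩)).symm
    · have h2 : 𝓝[HDc 0 R ∩ {z | r ≤ ‖z - q‖}] z = ⊥ := by
        rw [← notMem_closure_iff_nhdsWithin_eq_bot]
        intro h3
        exact h (cl2.closure_subset_iff.2 inter_subset_right h3)
      rw [h2]; exact tendsto_bot

theorem ball_inter_HD {q r R : ℝ} (h : |q| + r ≤ R) :
    ball (q : ℂ) r ∩ HD 0 R = HD q r := by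
  ext z
  constructor
  · rintro ⟨h1, h2⟩
    exact ⟨h2.1, by simpa [dist_eq_norm] using h1⟩
  · intro hz
    exact ⟨by simpa [dist_eq_norm] using hz.2, HD_sub h hz⟩

theorem glue_eq_piecewise {β : Type*} (q r : ℝ) (a b : ℂ → β)
    [∀ z, Decidable (z ∈ ball (q : ℂ) r)] :
    glue q r a b = (ball (q : ℂ) r).piecewise a b := by
  funext z
  by_cases h : ‖z - q‖ < r
  · rw [glue, if_pos h, piecewise_eq_of_mem]
    simpa [dist_eq_norm] using h
  · rw [glue, if_neg h, piecewise_eq_of_notMem]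
    simpa [dist_eq_norm] using h

open Classical in
theorem glue_int {q r R : ℝ} (h : |q| + r ≤ R) (a b : ℂ → ℝ) (ha : IntegrableOn a (HD q r))
    (hb : IntegrableOn b (HD 0 R)) : IntegrableOn (glue q r a b) (HD 0 R) := by
  rw [glue_eq_piecewise]
  refine Integrable.piecewise measurableSet_ball ?_ ?_
  · rw [IntegrableOn, Measure.restrict_restrict measurableSet_ball, ball_inter_HD h]
    exact ha
  · exact hb.integrableOn

open Classical in
theorem glue_meas {q r R : ℝ} (h : |q| + r ≤ R) (a b : ℂ → ℝ)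
    (ha : AEStronglyMeasurable a (volume.restrict (HD q r)))
    (hb : AEStronglyMeasurable b (volume.restrict (HD 0 R))) :
    AEStronglyMeasurable (glue q r a b) (volume.restrict (HD 0 R)) := by
  rw [glue_eq_piecewise]
  refine AEStronglyMeasurable.piecewise measurableSet_ball ?_ ?_
  · rw [Measure.restrict_restrict measurableSet_ball, ball_inter_HD h]
    exact ha
  · exact hb.restrict

theorem ed_glue {K n : ℕ} (q r : ℝ) (X Y X' Y' : ℂ → Mat K n) :
    ed (glue q r X X') (glue q r Y Y') = glue q r (ed X Y) (ed X' Y') := by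
  funext z
  by_cases h : ‖z - q‖ < r
  · simp only [ed, glue, if_pos h]
  · simp only [ed, glue, if_neg h]

theorem glue_grad (hMET : Stmt_MET) (hXIL : Stmt_XIL) (hGAL : Stmt_GAL) (hGLO : Stmt_GLO)
    (hGGL : Stmt_GGL) {K n : ℕ} (q r R : ℝ) (hR : |q| + r ≤ R) (u v : ℂ → Tup K n)
    (Ux Uy Vx Vy : ℂ → Mat K n)
    (hc : ContG (HDc 0 R) (glue q r v u))
    (hu : HasGradV (HD 0 R) (fun z => xi (u z)) Ux Uy)
    (hv : HasGradV (HD q r) (fun z => xi (v z)) Vx Vy)
    (hui : IntegrableOn (ed Ux Uy) (HD 0 R)) (hvi : IntegrableOn (ed Vx Vy) (HD q r)) :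
    HasGradV (HD 0 R) (fun z => xi (glue q r v u z)) (glue q r Vx Ux) (glue q r Vy Uy) ∧
    IntegrableOn (ed (glue q r Vx Ux) (glue q r Vy Uy)) (HD 0 R) := by
  have hI : IntegrableOn (ed (glue q r Vx Ux) (glue q r Vy Uy)) (HD 0 R) := by
    rw [ed_glue]; exact glue_int hR _ _ hvi hui
  refine ⟨fun i l => ?_, hI⟩
  have gx : (fun z => glue q r Vx Ux z i l) =
      glue q r (fun z => Vx z i l) (fun z => Ux z i l) := by
    funext z; simp only [glue]; split_ifs <;> rfl
  have gy : (fun z => glue q r Vy Uy z i l) =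
      glue q r (fun z => Vy z i l) (fun z => Uy z i l) := by
    funext z; simp only [glue]; split_ifs <;> rfl
  have mx : AEStronglyMeasurable (fun z => glue q r Vx Ux z i l) (volume.restrict (HD 0 R)) := by
    rw [gx]; exact glue_meas hR _ _ (hv i l).mx (hu i l).mx
  have my : AEStronglyMeasurable (fun z => glue q r Vy Uy z i l) (volume.restrict (HD 0 R)) := by
    rw [gy]; exact glue_meas hR _ _ (hv i l).my (hu i l).my
  have hii : IntegrableOn (fun z => glue q r Vx Ux z i l ^ 2 + glue q r Vy Uy z i l ^ 2)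
      (HD 0 R) := by
    refine Integrable.mono' hI ((mx.pow 2).add (my.pow 2)) ?_
    refine Filter.Eventually.of_forall fun z => ?_
    rw [Real.norm_of_nonneg (by positivity)]
    exact add_le_add (entry_sq_le _ i l) (entry_sq_le _ i l)
  refine hGGL (HD 0 R) (sphere (q : ℂ) r) _ _ _ (isOpen_HD 0 R) isClosed_sphere
    (Filter.Eventually.of_forall fun y => fin1 q r y)
    (Filter.Eventually.of_forall fun x => fin2 q r x)
    ((contG_cont hMET hXIL hc i l).mono (HD_subset_HDc 0 R))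
    (fun C hC _ => hii.mono_set hC) ?_
  have hop : IsOpen (HD 0 R \ sphere (q : ℂ) r) := (isOpen_HD 0 R).sdiff isClosed_sphere
  refine hGLO _ _ _ _ hop ?_
  intro z hz
  by_cases hzr : ‖z - q‖ < r
  · refine ⟨HD q r, isOpen_HD q r, ⟨hz.1.1, hzr⟩, ?_, ?_⟩
    · intro w hw
      refine ⟨HD_sub hR hw, ?_⟩
      intro hs
      have : ‖w - q‖ = r := by simpa [dist_eq_norm] using hs
      exact absurd hw.2 (by rw [this]; exact lt_irrefl _)
    · refine (hGAL (HD q r) (isOpen_HD q r)).2.2.2.2 _ _ _ _ _ _ (hv i l) ?_ ?_ ?_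
      · intro w hw
        simp only [glue, if_pos hw.2]
      · filter_upwards [ae_restrict_mem (isOpen_HD q r).measurableSet] with w hw
        simp only [glue, if_pos hw.2]
      · filter_upwards [ae_restrict_mem (isOpen_HD q r).measurableSet] with w hw
        simp only [glue, if_pos hw.2]
  · have hop2 : IsOpen (HD 0 R ∩ {w | r < ‖w - q‖}) :=
      (isOpen_HD 0 R).inter (isOpen_lt continuous_const (by fun_prop))
    refine ⟨HD 0 R ∩ {w | r < ‖w - q‖}, hop2, ⟨hz.1, ?_⟩, ?_, ?_⟩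
    · have : ‖z - q‖ ≠ r := by
        intro h; exact hz.2 (by simpa [dist_eq_norm] using h)
      exact lt_of_le_of_ne (not_lt.1 hzr) (Ne.symm this)
    · intro w hw
      refine ⟨hw.1, ?_⟩
      intro hs
      have : ‖w - q‖ = r := by simpa [dist_eq_norm] using hs
      have hw2 : r < ‖w - q‖ := hw.2
      exact absurd hw2 (by rw [this]; exact lt_irrefl _)
    · have hu' := (hGAL (HD 0 R) (isOpen_HD 0 R)).1 _ _ _ _ hop2 inter_subset_left (hu i l)
      refine (hGAL (HD 0 R ∩ {w | r < ‖w - q‖}) hop2).2.2.2.2 _ _ _ _ _ _ hu' ?_ ?_ ?_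
      · intro w hw
        have hw2 : r < ‖w - q‖ := hw.2
        simp only [glue, if_neg (not_lt.2 hw2.le)]
      · filter_upwards [ae_restrict_mem hop2.measurableSet] with w hw
        have hw2 : r < ‖w - q‖ := hw.2
        simp only [glue, if_neg (not_lt.2 hw2.le)]
      · filter_upwards [ae_restrict_mem hop2.measurableSet] with w hw
        have hw2 : r < ‖w - q‖ := hw.2
        simp only [glue, if_neg (not_lt.2 hw2.le)]

/-- the labelled cone over `f` with vertex `A` -/
noncomputable def cn {K n : ℕ} (q r : ℝ) (A : Mat K n) (f : ℝ → Tup K n) (z : ℂ) : Tup K n :=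
  fun i => WithLp.toLp 2 (fun l => cone q r (A i l) (fun θ => f θ i l) z)

theorem cn_apply {K n : ℕ} (q r : ℝ) (A : Mat K n) (f : ℝ → Tup K n) (z : ℂ) (i : Fin K)
    (l : Fin n) : cn q r A f z i l = cone q r (A i l) (fun θ => f θ i l) z := rfl

theorem cn_eq {K n : ℕ} {q r : ℝ} (hr : 0 < r) (A : Mat K n) (f : ℝ → Tup K n) (z : ℂ)
    (hz : ‖z - q‖ = r) : cn q r A f z = f (Complex.arg (z - q)) := by
  funext i
  ext l
  rw [cn_apply, cone, hz, div_self hr.ne']; ring

theorem arg_mem {q : ℝ} {z : ℂ} (hz : 0 ≤ z.im) : Complex.arg (z - q) ∈ Icc 0 Real.pi := by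
  refine ⟨Complex.arg_nonneg_iff.2 (by simpa using hz), Complex.arg_le_pi _⟩

theorem cm_arg (q : ℝ) (z : ℂ) : cm q ‖z - q‖ (Complex.arg (z - q)) = z := by
  rw [cm, Complex.norm_mul_exp_arg_mul_I]; ring

section
variable {K n : ℕ} {u : ℝ → Tup K n} {T : ℝ → Mat K n} {f : ℝ → Tup K n} {f' : ℝ → Mat K n}

theorem lift_sq (h : Lift u T f f') (i : Fin K) (l : Fin n) :
    IntervalIntegrable (fun θ => f' θ i l ^ 2) volume 0 Real.pi := by
  rw [intervalIntegrable_iff_integrableOn_Ioc_of_le Real.pi_pos.le]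
  have h1 := h.int
  rw [intervalIntegrable_iff_integrableOn_Ioc_of_le Real.pi_pos.le] at h1
  refine Integrable.mono' h1 ((h.meas i l).pow 2) (Filter.Eventually.of_forall fun θ => ?_)
  rw [Real.norm_of_nonneg (sq_nonneg _)]
  exact entry_sq_le _ i l

theorem lift_1 (h : Lift u T f f') (i : Fin K) (l : Fin n) :
    IntervalIntegrable (fun θ => f' θ i l) volume 0 Real.pi := by
  have h1 := lift_sq h i l
  rw [intervalIntegrable_iff_integrableOn_Ioc_of_le Real.pi_pos.le] at h1 ⊢
  have h2 : IntegrableOn (fun _ : ℝ => (1 : ℝ)) (Ioc 0 Real.pi) := by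
    rw [← intervalIntegrable_iff_integrableOn_Ioc_of_le Real.pi_pos.le]
    exact intervalIntegrable_const
  refine Integrable.mono' (h1.add h2) (h.meas i l) (Filter.Eventually.of_forall fun θ => ?_)
  simp only [Pi.add_apply, Real.norm_eq_abs]
  nlinarith [sq_nonneg (|f' θ i l| - 1), sq_abs (f' θ i l), abs_nonneg (f' θ i l)]

theorem lift_cont (h : Lift u T f f') (i : Fin K) (l : Fin n) :
    ContinuousOn (fun θ => f θ i l) (Icc 0 Real.pi) := by
  have h1 := intervalIntegral.continuousOn_primitive_interval' (lift_1 h i l)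
    (left_mem_uIcc : (0 : ℝ) ∈ uIcc 0 Real.pi)
  rw [uIcc_of_le Real.pi_pos.le] at h1
  exact h1.congr fun θ hθ => h.ftc i l θ hθ

theorem lift_ii (h : Lift u T f f') (i : Fin K) (l : Fin n) :
    IntervalIntegrable (fun θ => f θ i l) volume 0 Real.pi :=
  (lift_cont h i l).intervalIntegrable_of_Icc Real.pi_pos.le

theorem lift_int (h : Lift u T f f') (i : Fin K) (l : Fin n) (a b c : ℝ) :
    IntervalIntegrable (fun θ => (f θ i l - a - b * Real.sin θ) ^ 2 +
      (f' θ i l - c * Real.cos θ) ^ 2) volume 0 Real.pi := by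
  have h1 : ContinuousOn (fun θ => (f θ i l - a - b * Real.sin θ) ^ 2) (Icc 0 Real.pi) := by
    refine (((lift_cont h i l).sub continuousOn_const).sub ?_).pow 2
    fun_prop
  have h2 : IntervalIntegrable (fun θ => (f' θ i l - c * Real.cos θ) ^ 2) volume 0 Real.pi := by
    have e : (fun θ => (f' θ i l - c * Real.cos θ) ^ 2) = fun θ =>
        f' θ i l ^ 2 - (f' θ i l * (2 * c * Real.cos θ)) + (c * Real.cos θ) ^ 2 := by
      funext θ; ring
    rw [e]
    refine ((lift_sq h i l).sub ((lift_1 h i l).mul_continuousOn ?_)).add ?_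
    · fun_prop
    · exact (by fun_prop : Continuous fun θ => (c * Real.cos θ) ^ 2).intervalIntegrable _ _
  exact (h1.intervalIntegrable_of_Icc Real.pi_pos.le).add h2

/-- the cone over a lift -/
theorem cone_lift (hMET : Stmt_MET) (hTUP : Stmt_TUP) (hCON : Stmt_CON) (h : Lift u T f f')
    {q r : ℝ} (hr : 0 < r) (A : Mat K n) :
    ContG {z | 0 ≤ z.im ∧ ‖z - q‖ ≤ r} (cn q r A f) ∧
    ∃ Vx Vy : ℂ → Mat K n, HasGradV (HD q r) (fun z => xi (cn q r A f z)) Vx Vy ∧
      IntegrableOn (ed Vx Vy) (HD q r) ∧ ∀ α : Fin n → ℝ,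
      IntegrableOn (fun z => nsq (Vx z) + nsq (sh (Vy z) α)) (HD q r) ∧
      ∫ z in HD q r, (nsq (Vx z) + nsq (sh (Vy z) α)) = (1 / 2) * ∫ θ in (0 : ℝ)..Real.pi,
        (nsq (sh (mt (f θ) - A) ((r * Real.sin θ) • α)) +
          nsq (sh (f' θ) ((r * Real.cos θ) • α))) := by
  have hz0 : ∀ i l, f 0 i l = 0 := by intro i l; rw [h.z0]; rfl
  have hC := fun (i : Fin K) (l : Fin n) => hCON q r (A i l) (fun θ => f θ i l)
    (fun θ => f' θ i l) hr (h.meas i l) (lift_sq h i l)
    (fun θ hθ => by rw [h.ftc i l θ hθ, hz0, zero_add])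
  refine ⟨contG_of_cont hMET fun i l => (hC i l).1, ?_⟩
  choose wx wy hg hi he using fun (i : Fin K) (l : Fin n) => (hC i l).2
  obtain ⟨Vx, Vy, hV, hae⟩ := (hTUP K n (HD q r) (cn q r A f) (fun z i l => wx i l z)
    (fun z i l => wy i l z) (isOpen_HD q r) (fun i l => hg i l)).2
  have hfin : volume (HD q r) < ⊤ := by
    refine lt_of_le_of_lt (measure_mono (?_ : HD q r ⊆ ball (q : ℂ) r)) measure_ball_lt_top
    intro z hz
    simpa [dist_eq_norm] using hz.2
  have hterm : ∀ (c : ℝ) (i : Fin K) (l : Fin n),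
      IntegrableOn (fun z => wx i l z ^ 2 + (wy i l z - c) ^ 2) (HD q r) := by
    intro c i l
    have hconst : IntegrableOn (fun _ : ℂ => 2 * c ^ 2) (HD q r) :=
      integrableOn_const hfin.ne
    refine Integrable.mono' (((hi i l).const_mul 2).add hconst)
      (((hg i l).mx.pow 2).add (((hg i l).my.sub aestronglyMeasurable_const).pow 2))
      (Filter.Eventually.of_forall fun z => ?_)
    rw [Real.norm_of_nonneg (by positivity)]
    simp only [Pi.add_apply]
    nlinarith [sq_nonneg (wy i l z + c), sq_nonneg (wx i l z)]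
  have hsum : ∀ (α : Fin n → ℝ) (z : ℂ),
      nsq (fun i l => wx i l z) + nsq (sh (fun i l => wy i l z) α) =
        ∑ i, ∑ l, (wx i l z ^ 2 + (wy i l z - α l) ^ 2) := by
    intro α z
    simp only [nsq, sh, ← Finset.sum_add_distrib]
  have haeq : ∀ α : Fin n → ℝ, (fun z => nsq (Vx z) + nsq (sh (Vy z) α))
      =ᵐ[volume.restrict (HD q r)]
      fun z => ∑ i, ∑ l, (wx i l z ^ 2 + (wy i l z - α l) ^ 2) := by
    intro α
    rw [Filter.EventuallyEq, ae_restrict_iff' (isOpen_HD q r).measurableSet]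
    filter_upwards [hae] with z hz hzH
    obtain ⟨h1, h2, -, h4⟩ := hz hzH
    rw [← hsum, h1, nsq_sh, nsq_sh, h2, h4]
  have hint : ∀ α : Fin n → ℝ,
      IntegrableOn (fun z => nsq (Vx z) + nsq (sh (Vy z) α)) (HD q r) := by
    intro α
    refine Integrable.congr ?_ (haeq α).symm
    exact integrable_finsetSum _ fun i _ => integrable_finsetSum _ fun l _ => hterm (α l) i l
  refine ⟨Vx, Vy, hV, ?_, fun α => ⟨hint α, ?_⟩⟩
  · have h0 := hint 0
    have e : (fun z => nsq (Vx z) + nsq (sh (Vy z) 0)) = ed Vx Vy := by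
      funext z
      have : sh (Vy z) 0 = Vy z := by funext i l; simp [sh]
      rw [ed, this]
    rwa [e] at h0
  · rw [integral_congr_ae (haeq α), integral_finsetSum _ fun i _ =>
      integrable_finsetSum _ fun l _ => hterm (α l) i l]
    have e1 : ∀ i : Fin K, ∫ z in HD q r, ∑ l, (wx i l z ^ 2 + (wy i l z - α l) ^ 2) =
        ∑ l, ∫ z in HD q r, (wx i l z ^ 2 + (wy i l z - α l) ^ 2) := fun i =>
      integral_finsetSum _ fun l _ => hterm (α l) i l
    simp only [e1]
    have e2 : ∀ (i : Fin K) (l : Fin n),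
        ∫ z in HD q r, (wx i l z ^ 2 + (wy i l z - α l) ^ 2) =
        (1 / 2) * ∫ θ in (0 : ℝ)..Real.pi, ((f θ i l - A i l - (α l * r) * Real.sin θ) ^ 2 +
          (f' θ i l - (α l * r) * Real.cos θ) ^ 2) := fun i l => he i l (α l)
    simp only [e2, ← Finset.mul_sum]
    congr 1
    have e3 : (fun θ => nsq (sh (mt (f θ) - A) ((r * Real.sin θ) • α)) +
          nsq (sh (f' θ) ((r * Real.cos θ) • α))) = fun θ => ∑ i, ∑ l,
        ((f θ i l - A i l - (α l * r) * Real.sin θ) ^ 2 +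
          (f' θ i l - (α l * r) * Real.cos θ) ^ 2) := by
      funext θ
      simp only [nsq, sh, ← Finset.sum_add_distrib, mt, Pi.sub_apply, Pi.smul_apply, smul_eq_mul]
      refine Finset.sum_congr rfl fun i _ => Finset.sum_congr rfl fun l _ => ?_
      ring
    rw [e3, intervalIntegral.integral_finsetSum fun i _ => ?_]
    · refine Finset.sum_congr rfl fun i _ => ?_
      rw [intervalIntegral.integral_finsetSum fun l _ => ?_]
      exact lift_int h i l _ _ _
    · have e4 := IntervalIntegrable.sum (μ := volume) (a := 0) (b := Real.pi) Finset.univ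
        (f := fun (l : Fin n) θ => (f θ i l - A i l - (α l * r) * Real.sin θ) ^ 2 +
          (f' θ i l - (α l * r) * Real.cos θ) ^ 2) (fun l _ => lift_int h i l _ _ _)
      rwa [Finset.sum_fn] at e4

end

theorem lift_intA {K n : ℕ} {u : ℝ → Tup K n} {T : ℝ → Mat K n} {f : ℝ → Tup K n}
    {f' : ℝ → Mat K n} (h : Lift u T f f') (r : ℝ) (A : Mat K n) (α : Fin n → ℝ) :
    IntervalIntegrable (fun θ => nsq (sh (mt (f θ) - A) ((r * Real.sin θ) • α)) +
      nsq (sh (f' θ) ((r * Real.cos θ) • α))) volume 0 Real.pi := by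
  have e3 : (fun θ => nsq (sh (mt (f θ) - A) ((r * Real.sin θ) • α)) +
        nsq (sh (f' θ) ((r * Real.cos θ) • α))) = fun θ => ∑ i, ∑ l,
      ((f θ i l - A i l - (α l * r) * Real.sin θ) ^ 2 +
        (f' θ i l - (α l * r) * Real.cos θ) ^ 2) := by
    funext θ
    simp only [nsq, sh, ← Finset.sum_add_distrib, mt, Pi.sub_apply, Pi.smul_apply, smul_eq_mul]
    refine Finset.sum_congr rfl fun i _ => Finset.sum_congr rfl fun l _ => ?_
    ring
  rw [e3, intervalIntegrable_iff_integrableOn_Ioc_of_le Real.pi_pos.le]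
  refine integrable_finsetSum _ fun i _ => integrable_finsetSum _ fun l _ => ?_
  have := lift_int h i l (A i l) (α l * r) (α l * r)
  rwa [intervalIntegrable_iff_integrableOn_Ioc_of_le Real.pi_pos.le] at this

theorem same_single {k d n : ℕ} (i0 : Fin (k + d)) (j0 : Fin k) (v : E n) :
    Same (Pi.single i0 v : Tup (k + d) n)
      (Fin.append (fun i => -((Pi.single j0 (-v) : Tup k n) i)) (fun _ : Fin d => 0)) := by
  have h1 : Fin.append (fun i => -((Pi.single j0 (-v) : Tup k n) i)) (fun _ : Fin d => (0 : E n)) =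
      (Pi.single (Fin.castAdd d j0) v : Tup (k + d) n) := by
    funext i
    refine Fin.addCases (fun a => ?_) (fun b => ?_) i
    · rw [Fin.append_left]
      by_cases h : a = j0
      · subst h; simp
      · rw [Pi.single_eq_of_ne h, Pi.single_eq_of_ne (fun h' => h (Fin.castAdd_injective _ _ h'))]
        simp
    · rw [Fin.append_right, Pi.single_eq_of_ne]
      intro h'
      have := congrArg Fin.val h'
      simp at this
      omega
  rw [h1]
  refine ⟨Equiv.swap i0 (Fin.castAdd d j0), ?_⟩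
  funext i
  simp only [Function.comp_apply]
  by_cases h : i = i0
  · subst h; simp
  · rw [Pi.single_eq_of_ne h]
    by_cases h2 : i = Fin.castAdd d j0
    · subst h2
      rw [Equiv.swap_apply_right, Pi.single_eq_of_ne (Ne.symm h)]
    · rw [Equiv.swap_apply_of_ne_of_ne h h2, Pi.single_eq_of_ne h2]

theorem cn_real {K n : ℕ} {q r : ℝ} (A0 : Fin n → ℝ) (i0 : Fin K) (f : ℝ → Tup K n)
    (h0 : f 0 = 0) (hp : f Real.pi = 0) (x : ℝ) :
    cn q r (Pi.single i0 A0) f x =
      Pi.single i0 (WithLp.toLp 2 (fun l => (1 - ‖(x : ℂ) - q‖ / r) * A0 l)) := by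
  have harg : f (Complex.arg ((x : ℂ) - q)) = 0 := by
    rcases le_total q x with h | h
    · have : Complex.arg ((x : ℂ) - q) = 0 := by
        rw [← Complex.ofReal_sub]; exact Complex.arg_ofReal_of_nonneg (by linarith)
      rw [this, h0]
    · rcases eq_or_lt_of_le h with h | h
      · subst h; simp [h0]
      · have : Complex.arg ((x : ℂ) - q) = Real.pi := by
          rw [← Complex.ofReal_sub]; exact Complex.arg_ofReal_of_neg (by linarith)
        rw [this, hp]
  funext i
  ext l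
  rw [cn_apply, cone, harg]
  by_cases h : i = i0
  · subst h; simp
  · rw [Pi.single_eq_of_ne h, Pi.single_eq_of_ne h]; simp

theorem sheet_sum {K n : ℕ} (v : Mat K n) (A0 β : Fin n → ℝ) (i0 : Fin K) :
    nsq (sh (v - Pi.single i0 A0) β) = nsq (sh v β) - 2 * vdt A0 (fun l => v i0 l - β l) +
      vsq A0 := by
  have e : sh (v - Pi.single i0 A0) β = sh v β - Pi.single i0 A0 := by
    funext i l; simp [sh]; ring
  rw [e, nsq_sub]
  have h1 : dt (sh v β) (Pi.single i0 A0) = vdt A0 (fun l => v i0 l - β l) := by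
    rw [dt, Finset.sum_eq_single i0]
    · simp only [Pi.single_eq_same, vdt, sh]
      exact Finset.sum_congr rfl fun l _ => mul_comm _ _
    · intro b _ hb
      simp [Pi.single_eq_of_ne hb]
    · simp
  have h2 : nsq (Pi.single i0 A0 : Mat K n) = vsq A0 := by
    rw [nsq, Finset.sum_eq_single i0]
    · simp [vsq]
    · intro b _ hb
      simp [Pi.single_eq_of_ne hb]
    · simp
  rw [h1, h2]

end CPT_

open CPT_ in
theorem cpt_proof (hMET : Stmt_MET) (hXIL : Stmt_XIL) (hGAL : Stmt_GAL) (_hGUN : Stmt_GUN)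
    (hGLO : Stmt_GLO) (hGGL : Stmt_GGL) (hTUP : Stmt_TUP) (hCON : Stmt_CON) : Stmt_CPT := by
  intro k d n F hF q r hr hqr T T' f f' g g' hf hg i0 j0
  have hπ := Real.pi_pos
  set A0 : Fin n → ℝ := fun l =>
    (1 / (2 * Real.pi)) * ∫ θ in (0 : ℝ)..Real.pi, (f θ i0 l - g θ j0 l) with hA0
  obtain ⟨hpc, Px, Py, hpg, hpi, hpe⟩ := cone_lift hMET hTUP hCON hf (q := q) hr
    (Pi.single i0 A0)
  obtain ⟨hlc, Lx, Ly, hlg, hli, hle⟩ := cone_lift hMET hTUP hCON hg (q := q) hr
    (Pi.single j0 (-A0))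
  set vp := cn q r (Pi.single i0 A0) f with hvp
  set vl := cn q r (Pi.single j0 (-A0)) g with hvl
  have hbp : ∀ z ∈ HDc 0 F.R, ‖z - q‖ = r → Same (vp z) (F.p z) := by
    intro z hz hzr
    rw [hvp, cn_eq hr _ _ _ hzr]
    have h1 := hf.same _ (arg_mem (q := q) hz.1)
    have h2 : cm q r (Complex.arg (z - q)) = z := by rw [← hzr]; exact cm_arg q z
    simpa only [h2] using h1
  have hbl : ∀ z ∈ HDc 0 F.R, ‖z - q‖ = r → Same (vl z) (F.l z) := by
    intro z hz hzr
    rw [hvl, cn_eq hr _ _ _ hzr]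
    have h1 := hg.same _ (arg_mem (q := q) hz.1)
    have h2 : cm q r (Complex.arg (z - q)) = z := by rw [← hzr]; exact cm_arg q z
    simpa only [h2] using h1
  have hgp := glue_contG hMET q r F.R F.p vp hF.pc hpc hbp
  have hgl := glue_contG hMET q r F.R F.l vl hF.lc hlc hbl
  obtain ⟨gp, gpi⟩ := glue_grad hMET hXIL hGAL hGLO hGGL q r F.R hqr.le F.p vp F.Px F.Py Px Py hgp
    hF.pg hpg hF.pI hpi
  obtain ⟨gl, gli⟩ := glue_grad hMET hXIL hGAL hGLO hGGL q r F.R hqr.le F.l vl F.Lx F.Ly Lx Ly hgl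
    hF.lg hlg hF.lI hli
  refine ⟨glue q r vp F.p, glue q r vl F.l, glue q r Px F.Px, glue q r Py F.Py,
    glue q r Lx F.Lx, glue q r Ly F.Ly, ⟨hgp, hgl, gp, gl, gpi, gli, ?_, ?_⟩, fun α => ?_⟩
  · intro x hx
    by_cases h : ‖(x : ℂ) - q‖ < r
    · simp only [glue, if_pos h]
      rw [hvp, hvl, cn_real A0 i0 f hf.z0 hf.zp x, cn_real (-A0) j0 g hg.z0 hg.zp x]
      have e : (WithLp.toLp 2 (fun l => (1 - ‖(x : ℂ) - q‖ / r) * (-A0) l) : E n) =
          -(WithLp.toLp 2 (fun l => (1 - ‖(x : ℂ) - q‖ / r) * A0 l) : E n) := by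
        ext l; simp
      rw [e]
      exact same_single i0 j0 _
    · simp only [glue, if_neg h]
      exact hF.bd x hx
  · intro z hz hzr
    simp only [glue, if_neg (not_lt.2 hzr)]
    exact ⟨Same.refl' _, Same.refl' _⟩
  · have hL : ∫ z in HD q r, (nsq (glue q r Px F.Px z) + nsq (sh (glue q r Py F.Py z) α) +
        (nsq (glue q r Lx F.Lx z) + nsq (sh (glue q r Ly F.Ly z) α))) =
        (∫ z in HD q r, (nsq (Px z) + nsq (sh (Py z) α))) +
        ∫ z in HD q r, (nsq (Lx z) + nsq (sh (Ly z) α)) := by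
      rw [← integral_add (hpe α).1 (hle α).1]
      refine setIntegral_congr_fun (isOpen_HD q r).measurableSet fun z hz => ?_
      simp only [glue, if_pos hz.2]
    rw [hL, (hpe α).2, (hle α).2]
    set β : ℝ → Fin n → ℝ := fun θ => (r * Real.sin θ) • α with hβ
    have ha := lift_intA hf r (Pi.single i0 A0) α
    have hb := lift_intA hg r (Pi.single j0 (-A0)) α
    have hcf : IntervalIntegrable (fun θ => cI r α f f' θ) volume 0 Real.pi := by
      have := lift_intA hf r 0 α
      simpa only [sub_zero, cI] using this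
    have hcg : IntervalIntegrable (fun θ => cI r α g g' θ) volume 0 Real.pi := by
      have := lift_intA hg r 0 α
      simpa only [sub_zero, cI] using this
    have hfg : ∀ l, IntervalIntegrable (fun θ => f θ i0 l - g θ j0 l) volume 0 Real.pi :=
      fun l => (lift_ii hf i0 l).sub (lift_ii hg j0 l)
    have hX : ∀ l, ∫ θ in (0 : ℝ)..Real.pi, (f θ i0 l - g θ j0 l) = 2 * Real.pi * A0 l := by
      intro l
      rw [hA0]
      field_simp
    have hs : ∫ θ in (0 : ℝ)..Real.pi, (∑ l, 2 * A0 l * (f θ i0 l - g θ j0 l) - 2 * vsq A0) =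
        2 * Real.pi * vsq A0 := by
      have h1 : IntervalIntegrable (fun θ => ∑ l, 2 * A0 l * (f θ i0 l - g θ j0 l)) volume 0
          Real.pi := by
        rw [intervalIntegrable_iff_integrableOn_Ioc_of_le Real.pi_pos.le]
        refine integrable_finsetSum _ fun l _ => ?_
        have := (hfg l).const_mul (2 * A0 l)
        rwa [intervalIntegrable_iff_integrableOn_Ioc_of_le Real.pi_pos.le] at this
      rw [intervalIntegral.integral_sub h1 intervalIntegrable_const,
        intervalIntegral.integral_finsetSum fun l _ => (hfg l).const_mul (2 * A0 l)]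
      simp only [intervalIntegral.integral_const_mul, hX, intervalIntegral.integral_const,
        smul_eq_mul, sub_zero]
      have h2 : ∑ l, 2 * A0 l * (2 * Real.pi * A0 l) = 4 * Real.pi * vsq A0 := by
        rw [vsq, Finset.mul_sum]
        exact Finset.sum_congr rfl fun l _ => by ring
      rw [h2]; ring
    have hab : (∫ θ in (0 : ℝ)..Real.pi, (nsq (sh (mt (f θ) - Pi.single i0 A0) (β θ)) +
          nsq (sh (f' θ) ((r * Real.cos θ) • α)))) +
        (∫ θ in (0 : ℝ)..Real.pi, (nsq (sh (mt (g θ) - Pi.single j0 (-A0)) (β θ)) +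
          nsq (sh (g' θ) ((r * Real.cos θ) • α)))) =
        (∫ θ in (0 : ℝ)..Real.pi, (cI r α f f' θ + cI r α g g' θ)) -
          2 * Real.pi * vsq A0 := by
      rw [← intervalIntegral.integral_add ha hb, ← hs, ← intervalIntegral.integral_sub]
      · refine intervalIntegral.integral_congr fun θ _ => ?_
        simp only [cI]
        rw [sheet_sum, sheet_sum]
        have e1 : vdt A0 (fun l => mt (f θ) i0 l - β θ l) = ∑ l, A0 l * (f θ i0 l - β θ l) := rfl
        have e2 : vdt (-A0) (fun l => mt (g θ) j0 l - β θ l) =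
            -∑ l, A0 l * (g θ j0 l - β θ l) := by
          rw [vdt, ← Finset.sum_neg_distrib]
          exact Finset.sum_congr rfl fun l _ => by simp only [Pi.neg_apply, mt]; ring
        have e3 : vsq (-A0) = vsq A0 := by simp [vsq]
        have e4 : ∑ l, 2 * A0 l * (f θ i0 l - g θ j0 l) =
            2 * ∑ l, A0 l * (f θ i0 l - β θ l) - 2 * ∑ l, A0 l * (g θ j0 l - β θ l) := by
          rw [Finset.mul_sum, Finset.mul_sum, ← Finset.sum_sub_distrib]
          exact Finset.sum_congr rfl fun l _ => by ring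
        rw [e1, e2, e3, e4, hβ]; ring
      · exact hcf.add hcg
      · refine IntervalIntegrable.sub ?_ intervalIntegrable_const
        rw [intervalIntegrable_iff_integrableOn_Ioc_of_le Real.pi_pos.le]
        refine integrable_finsetSum _ fun l _ => ?_
        have := (hfg l).const_mul (2 * A0 l)
        rwa [intervalIntegrable_iff_integrableOn_Ioc_of_le Real.pi_pos.le] at this
    have hv : vsq (fun l => ∫ θ in (0 : ℝ)..Real.pi, (f θ i0 l - g θ j0 l)) =
        4 * Real.pi ^ 2 * vsq A0 := by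
      simp only [hX]
      rw [vsq, vsq, Finset.mul_sum]
      exact Finset.sum_congr rfl fun l _ => by ring
    rw [hv, ← mul_add, hab]
    apply le_of_eq
    field_simp

end Pool.Agent.DMB
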