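import Pool.Agent.DMB.Api

/-!
Module DCY: decay of the tilted energy at density points of the collapsed set.
-/

namespace Pool.Agent.DMB

open MeasureTheory Set Metric Filter Topology
open scoped ENNReal

namespace DCY_

variable {k d n : ℕ}

theorem dG_zero (a : Tup k n) : dG (0 : Tup k n) a = Real.sqrt (∑ i, ‖a i‖ ^ 2) := by
  unfold dG
  have h : ∀ σ : Equiv.Perm (Fin k), Real.sqrt (sqd (0 : Tup k n) (a ∘ σ)) =
      Real.sqrt (∑ i, ‖a i‖ ^ 2) := by
    intro σ
    unfold sqd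
    congr 1
    rw [← Equiv.sum_comp σ (fun i => ‖a i‖ ^ 2)]
    simp
  simp only [h]
  exact ciInf_const

theorem measurable_Z (F : Flat k d n) (hF : F.Ok) : MeasurableSet F.Z := by
  have hopen : IsOpen {x : ℝ | |x| < F.R ∧ ¬ ∀ i, F.l x i = 0} := by
    rw [Metric.isOpen_iff]
    rintro x ⟨hx, hne⟩
    have hmem : (x : ℂ) ∈ HDc 0 F.R := by
      refine ⟨by simp, ?_⟩
      simpa using hx
    have h1 := hF.lc x hmem
    set S := Real.sqrt (∑ i, ‖F.l x i‖ ^ 2) with hS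
    have hSpos : 0 < S := by
      push Not at hne
      obtain ⟨i, hi⟩ := hne
      rw [hS]
      apply Real.sqrt_pos.2
      refine lt_of_lt_of_le ?_ (Finset.single_le_sum (f := fun i => ‖F.l x i‖ ^ 2)
        (fun _ _ => sq_nonneg _) (Finset.mem_univ i))
      have : 0 < ‖F.l x i‖ := norm_pos_iff.2 hi
      positivity
    have h2 : ∀ᶠ w in 𝓝[HDc 0 F.R] (x : ℂ), dG (F.l w) (F.l x) < S :=
      h1.eventually (gt_mem_nhds hSpos)
    have h3 : Tendsto (fun y : ℝ => (y : ℂ)) (𝓝[{y : ℝ | |y| < F.R}] x)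
        (𝓝[HDc 0 F.R] (x : ℂ)) := by
      refine tendsto_nhdsWithin_iff.2 ⟨?_, ?_⟩
      · exact (Complex.continuous_ofReal.tendsto x).mono_left nhdsWithin_le_nhds
      · filter_upwards [self_mem_nhdsWithin] with y hy
        refine ⟨by simp, ?_⟩
        simpa using hy
    have hopen2 : IsOpen {y : ℝ | |y| < F.R} := isOpen_lt continuous_abs continuous_const
    have h4 := h3.eventually h2
    rw [hopen2.nhdsWithin_eq hx] at h4
    have h40 : ∀ᶠ y : ℝ in 𝓝 x, |y| < F.R := hopen2.mem_nhds hx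
    have h5 : ∀ᶠ y : ℝ in 𝓝 x, |y| < F.R ∧ dG (F.l y) (F.l x) < S := h40.and h4
    obtain ⟨ε, hε, hball⟩ := Metric.eventually_nhds_iff_ball.1 h5
    refine ⟨ε, hε, fun y hy => ?_⟩
    obtain ⟨hy1, hy2⟩ := hball y hy
    refine ⟨hy1, fun hz => ?_⟩
    have h6 : F.l y = 0 := by
      funext i
      exact hz i
    rw [h6, dG_zero] at hy2
    exact lt_irrefl _ hy2
  have e : F.Z = {x : ℝ | |x| < F.R} \ {x : ℝ | |x| < F.R ∧ ¬ ∀ i, F.l x i = 0} := by
    ext x
    simp only [Flat.Z, mem_ofPred_eq, Set.mem_sdiff]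
    tauto
  rw [e]
  exact (isOpen_lt continuous_abs continuous_const).measurableSet.diff hopen.measurableSet

theorem nu_nonneg (F : Flat k d n) (q r : ℝ) (α : Fin n → ℝ) : 0 ≤ F.nu q r α := by
  unfold Flat.nu
  refine mul_nonneg (sq_nonneg r) ?_
  exact intervalIntegral.integral_nonneg Real.pi_pos.le fun θ _ =>
    add_nonneg (nsq_nonneg _) (nsq_nonneg _)

theorem t_nonneg (F : Flat k d n) (q r : ℝ) (α : Fin n → ℝ) : 0 ≤ F.t q r α := by
  unfold Flat.t
  refine mul_nonneg (sq_nonneg r) ?_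
  exact intervalIntegral.integral_nonneg Real.pi_pos.le fun θ _ =>
    add_nonneg (nsq_nonneg _) (nsq_nonneg _)

end DCY_

open DCY_ in
theorem dcy_proof (hGRI : Stmt_GRI) (hODE : Stmt_ODE) (hENV : Stmt_ENV) : Stmt_DCY := by
  intro k d n hk
  obtain ⟨c, hc0, hc1, hG⟩ := hGRI k d n hk
  refine ⟨c / 2, by positivity, fun F hF q hq hDens => ?_⟩
  obtain ⟨C', hC', r0, hr0, hgri⟩ := hG F hF
  obtain ⟨henv1, henv2, henv3⟩ := hENV k d n F hk hF q hq
  set G : Set ℝ := {ρ | q + ρ ∈ F.Z ∧ q - ρ ∈ F.Z} with hGdef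
  have hGm : MeasurableSet G := by
    have hZ := measurable_Z F hF
    have h1 : MeasurableSet {ρ : ℝ | q + ρ ∈ F.Z} := (measurable_const_add q) hZ
    have h2 : MeasurableSet {ρ : ℝ | q - ρ ∈ F.Z} := (measurable_const.sub measurable_id) hZ
    exact h1.inter h2
  have hqR : 0 < F.R - |q| := by linarith
  -- step 1
  obtain ⟨ε1, hε1, hode1⟩ := hODE (51 / 100) 4 (19 / 10) (by norm_num) (by norm_num) (by norm_num)
    (by norm_num)
  set R1 : ℝ := min (min r0 (F.R - |q|)) (min 1 (1 / (100 * C'))) with hR1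
  have hR1pos : 0 < R1 := lt_min (lt_min hr0 hqR) (lt_min one_pos (by positivity))
  have hR1a : ∀ r : ℝ, r < R1 → r < r0 ∧ |q| + r < F.R ∧ r < 1 ∧ r < 1 / (100 * C') := by
    intro r hr
    have h1 := hr.trans_le (min_le_left _ _)
    have h2 := hr.trans_le (min_le_right _ _)
    refine ⟨h1.trans_le (min_le_left _ _), ?_, h2.trans_le (min_le_left _ _),
      h2.trans_le (min_le_right _ _)⟩
    have := h1.trans_le (min_le_right _ _)
    linarith
  have hCr : ∀ r : ℝ, 0 < r → r < R1 → C' * r ^ 2 ≤ 1 / 100 := by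
    intro r hr hrR
    obtain ⟨-, -, h1, h2⟩ := hR1a r hrR
    rw [lt_div_iff₀ (by positivity)] at h2
    have h3 : r ^ 2 ≤ r := by nlinarith
    have h4 : C' * r ^ 2 ≤ C' * r := mul_le_mul_of_nonneg_left h3 hC'.le
    nlinarith
  obtain ⟨N1, ρ1, hρ1, hρ1R, hN1⟩ := hode1 (fun r => F.D q r 0) G R1 C' hR1pos hC'.le
    (fun r hr => by
      obtain ⟨h1, h2, -⟩ := henv1 r hr.1 (hR1a r hr.2).2.1
      exact h1.trans (h2 0))
    (fun r hr s hs hrs => henv2 r s hr.1 hrs (hR1a s hs.2).2.1 0) hGm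
    (hDens ε1 hε1) (by
      filter_upwards [hgri q hq, henv3] with r h1 h2 hrG hr
      obtain ⟨h3, h4, -, -⟩ := hR1a r hr.2
      refine ⟨_, (h2 hr.1 h4).2, ?_⟩
      have h5 := (h1 hr.1 h3 h4 hrG.1 hrG.2).1
      have hr0' : r ≠ 0 := hr.1.ne'
      have h6 : 51 / 100 * r * ((F.nu q r 0 + F.t q r 0) / r) =
          51 / 100 * (F.nu q r 0 + F.t q r 0) := by
        field_simp
      rw [h6]
      have h7 : r ^ (4 : ℝ) = r ^ 4 := by
        rw [show (4 : ℝ) = ((4 : ℕ) : ℝ) by norm_num, Real.rpow_natCast]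
      rw [h7]
      have h8 := hCr r hr.1 hr.2
      have h9 := add_nonneg (nu_nonneg F q r 0) (t_nonneg F q r 0)
      nlinarith)
  -- step 2
  have hN1' : ∀ r : ℝ, 0 < r → r < ρ1 → F.D q r 0 ≤ |N1| * r ^ (19 / 10 : ℝ) := by
    intro r hr hr1
    refine (hN1 r hr hr1).trans ?_
    exact mul_le_mul_of_nonneg_right (le_abs_self _) (Real.rpow_nonneg hr.le _)
  have hkd : (0 : ℝ) < 2 * k + d := by
    have : (0 : ℝ) < k := by exact_mod_cast hk
    positivity
  set N2 : ℝ := 2 * |N1| / ((2 * k + d) * Real.pi) with hN2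
  have hN2nn : 0 ≤ N2 := by
    rw [hN2]
    have := Real.pi_pos
    positivity
  obtain ⟨ε2, hε2, hode2⟩ := hODE (1 / 2 - c / 4) (39 / 10) (2 + c / 2) (by linarith)
    (by linarith) (by linarith) (by nlinarith)
  set R2 : ℝ := min (min R1 ρ1) (c / (4 * C')) with hR2
  have hR2pos : 0 < R2 := lt_min (lt_min hR1pos hρ1) (by positivity)
  have hR2a : ∀ r : ℝ, r < R2 → r < R1 ∧ r < ρ1 ∧ r < c / (4 * C') := by
    intro r hr
    have h1 := hr.trans_le (min_le_left _ _)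
    exact ⟨h1.trans_le (min_le_left _ _), h1.trans_le (min_le_right _ _),
      hr.trans_le (min_le_right _ _)⟩
  have hmono : ∀ r s : ℝ, 0 < r → r ≤ s → |q| + s < F.R → F.M q r ≤ F.M q s := by
    intro r s hr hrs hs
    have h1 := (henv1 r hr (by linarith)).2.1 (F.as q s)
    have h2 := henv2 r s hr hrs hs (F.as q s)
    exact h1.trans h2
  obtain ⟨N3, ρ2, hρ2, hρ2R, hN3⟩ := hode2 (fun r => F.M q r) G R2 (C' * (1 + N2)) hR2pos
    (mul_nonneg hC'.le (by linarith))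
    (fun r hr => (henv1 r hr.1 (hR1a r (hR2a r hr.2).1).2.1).1)
    (fun r hr s hs hrs => hmono r s hr.1 hrs (hR1a s (hR2a s hs.2).1).2.1) hGm
    (hDens ε2 hε2) (by
      filter_upwards [hgri q hq, henv3] with r h1 h2 hrG hr
      obtain ⟨h10, h11, h12⟩ := hR2a r hr.2
      obtain ⟨h3, h4, hr1, -⟩ := hR1a r h10
      refine ⟨_, (h2 hr.1 h4).1, ?_⟩
      have h5 := (h1 hr.1 h3 h4 hrG.1 hrG.2).2
      have hr0' : r ≠ 0 := hr.1.ne'
      set V := F.nu q r (F.as q r) + F.t q r (F.as q r) with hV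
      have h6 : (1 / 2 - c / 4) * r * (V / r) = (1 / 2 - c / 4) * V := by
        field_simp
      rw [h6]
      have h9 : 0 ≤ V := add_nonneg (nu_nonneg F q r _) (t_nonneg F q r _)
      have h8 : C' * r ^ 2 ≤ c / 4 := by
        rw [lt_div_iff₀ (by positivity)] at h12
        have h3 : r ^ 2 ≤ r := by nlinarith [hr.1]
        have h4 : C' * r ^ 2 ≤ C' * r := mul_le_mul_of_nonneg_left h3 hC'.le
        nlinarith
      have h13 : ((1 - c) / 2 + C' * r ^ 2) * V ≤ (1 / 2 - c / 4) * V :=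
        mul_le_mul_of_nonneg_right (by linarith) h9
      have h14 : (1 + vsq (F.as q r)) * r ^ 4 ≤ (1 + N2) * r ^ (39 / 10 : ℝ) := by
        have hrpos := hr.1
        have e4 : r ^ 4 = r ^ (4 : ℝ) := by
          rw [show (4 : ℝ) = ((4 : ℕ) : ℝ) by norm_num, Real.rpow_natCast]
        have h15 : r ^ (4 : ℝ) ≤ r ^ (39 / 10 : ℝ) :=
          Real.rpow_le_rpow_of_exponent_ge hrpos hr1.le (by norm_num)
        have h16 : vsq (F.as q r) * r ^ 4 ≤ N2 * r ^ (39 / 10 : ℝ) := by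
          have h17 := (henv1 r hrpos h4).2.2.1
          have h18 := hN1' r hrpos h11
          have h19 : r ^ (39 / 10 : ℝ) = r ^ (19 / 10 : ℝ) * r ^ 2 := by
            rw [show (39 / 10 : ℝ) = 19 / 10 + ((2 : ℕ) : ℝ) by norm_num, Real.rpow_add hrpos,
              Real.rpow_natCast]
          rw [h19]
          have hpi := Real.pi_pos
          calc vsq (F.as q r) * r ^ 4
              ≤ (2 * F.D q r 0 / ((2 * k + d) * Real.pi * r ^ 2)) * r ^ 4 :=
                mul_le_mul_of_nonneg_right h17 (by positivity)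
            _ = (2 / ((2 * k + d) * Real.pi)) * F.D q r 0 * r ^ 2 := by
                field_simp
            _ ≤ (2 / ((2 * k + d) * Real.pi)) * (|N1| * r ^ (19 / 10 : ℝ)) * r ^ 2 := by
                gcongr
            _ = N2 * (r ^ (19 / 10 : ℝ) * r ^ 2) := by
                rw [hN2]; ring
        calc (1 + vsq (F.as q r)) * r ^ 4 = r ^ 4 + vsq (F.as q r) * r ^ 4 := by ring
          _ ≤ r ^ (39 / 10 : ℝ) + N2 * r ^ (39 / 10 : ℝ) := by
              rw [e4] at h16 ⊢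
              exact add_le_add h15 h16
          _ = (1 + N2) * r ^ (39 / 10 : ℝ) := by ring
      have h20 : C' * (1 + vsq (F.as q r)) * r ^ 4 ≤ C' * (1 + N2) * r ^ (39 / 10 : ℝ) := by
        rw [mul_assoc, mul_assoc]
        exact mul_le_mul_of_nonneg_left h14 hC'.le
      show F.M q r ≤ (1 / 2 - c / 4) * V + C' * (1 + N2) * r ^ (39 / 10 : ℝ)
      linarith)
  refine ⟨N3, ρ2, hρ2, (hR1a ρ2 (hR2a ρ2 hρ2R).1).2.1, fun r hr hr2 => ⟨F.as q r, ?_⟩⟩
  exact hN3 r hr hr2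

end Pool.Agent.DMB
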