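import Pool.Agent.DMB.Api

/-!
Almost every point of a measurable set is a two sided density point.
-/

namespace Pool.Agent.DMB

open MeasureTheory Set Metric Filter Topology
open scoped ENNReal

theorem den_proof : Stmt_DEN := by
  intro S hS
  have h := Besicovitch.ae_tendsto_measure_inter_div_of_measurableSet (volume : Measure ℝ)
    hS.compl
  filter_upwards [h] with q hq hqS
  have h0 : (Sᶜ : Set ℝ).indicator (1 : ℝ → ℝ≥0∞) q = 0 := by
    rw [indicator_of_notMem]
    simpa using hqS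
  rw [h0] at hq
  intro ε hε
  have h1 : ∀ᶠ r in 𝓝[>] (0 : ℝ),
      volume (Sᶜ ∩ closedBall q r) / volume (closedBall q r) < ENNReal.ofReal (ε / 4) := by
    exact hq.eventually (gt_mem_nhds (by simpa using (by positivity : 0 < ε / 4)))
  rw [eventually_nhdsWithin_iff, Metric.eventually_nhds_iff] at h1
  obtain ⟨r1, hr1, h2⟩ := h1
  refine ⟨r1, hr1, ?_⟩
  intro r hr hrr
  have h3 := h2 (y := r) (by rw [Real.dist_eq, sub_zero, abs_of_pos hr]; exact hrr) hr
  have h4 : volume (closedBall q r) = ENNReal.ofReal (2 * r) := Real.volume_closedBall q r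
  rw [h4] at h3
  have h5 : volume (Sᶜ ∩ closedBall q r) ≤ ENNReal.ofReal (ε / 4) * ENNReal.ofReal (2 * r) := by
    have h6 : ENNReal.ofReal (2 * r) ≠ 0 := by
      rw [Ne, ENNReal.ofReal_eq_zero, not_le]; positivity
    exact (ENNReal.div_le_iff h6 ENNReal.ofReal_ne_top).1 h3.le
  rw [← ENNReal.ofReal_mul (by positivity)] at h5
  set A := Sᶜ ∩ closedBall q r with hA
  have e1 : volume ((fun ρ => q + ρ) ⁻¹' A) = volume A := by
    exact measure_preimage_add volume q A
  have e2 : volume ((fun ρ => q - ρ) ⁻¹' A) = volume A := by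
    have := ((volume : Measure ℝ).measurePreserving_sub_left q).measure_preimage
      (s := A) (hS.compl.inter measurableSet_closedBall).nullMeasurableSet
    exact this
  have hsub : Ioo 0 r \ {ρ | q + ρ ∈ S ∧ q - ρ ∈ S} ⊆
      ((fun ρ => q + ρ) ⁻¹' A) ∪ ((fun ρ => q - ρ) ⁻¹' A) := by
    intro ρ hρ
    obtain ⟨⟨h6, h7⟩, h8⟩ := hρ
    by_cases h9 : q + ρ ∈ S
    · right
      refine ⟨fun h10 => h8 ⟨h9, h10⟩, ?_⟩
      simp only [mem_closedBall, Real.dist_eq]
      rw [abs_le]
      constructor <;> linarith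
    · left
      refine ⟨h9, ?_⟩
      simp only [mem_closedBall, Real.dist_eq]
      rw [abs_le]
      constructor <;> linarith
  calc volume (Ioo 0 r \ {ρ | q + ρ ∈ S ∧ q - ρ ∈ S})
      ≤ volume (((fun ρ => q + ρ) ⁻¹' A) ∪ ((fun ρ => q - ρ) ⁻¹' A)) := measure_mono hsub
    _ ≤ volume ((fun ρ => q + ρ) ⁻¹' A) + volume ((fun ρ => q - ρ) ⁻¹' A) :=
        measure_union_le _ _
    _ = volume A + volume A := by rw [e1, e2]
    _ ≤ ENNReal.ofReal (ε / 4 * (2 * r)) + ENNReal.ofReal (ε / 4 * (2 * r)) := by gcongr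
    _ = ENNReal.ofReal (ε / 4 * (2 * r) + ε / 4 * (2 * r)) := by
        rw [ENNReal.ofReal_add (by positivity) (by positivity)]
    _ = ENNReal.ofReal (ε * r) := by congr 1; ring

end Pool.Agent.DMB
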