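import Pool.Agent.DMB.Thm

/-!
Internal definitions (labelled tuples, gradients along lines, flattened systems).
-/

namespace Pool.Agent.DMB

open MeasureTheory Set Metric Filter Topology
open scoped ENNReal

/-! ### labelled tuples -/

/-- labelled `K`-tuples of points of `ℝⁿ` -/
abbrev Tup (K n : ℕ) := Fin K → E n

/-- `K × n` matrices: sheets and their derivatives -/
abbrev Mat (K n : ℕ) := Fin K → Fin n → ℝ

/-- the multiset of entries -/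
def ms {K n : ℕ} (a : Tup K n) : Multiset (E n) := Multiset.map a Finset.univ.val

/-- squared distance of labelled tuples -/
noncomputable def sqd {K n : ℕ} (a b : Tup K n) : ℝ := ∑ i, ‖a i - b i‖ ^ 2

/-- the metric `𝒢` on labelled tuples -/
noncomputable def dG {K n : ℕ} (a b : Tup K n) : ℝ :=
  ⨅ σ : Equiv.Perm (Fin K), Real.sqrt (sqd a (b ∘ σ))

/-- equality up to order -/
def Same {K n : ℕ} (a b : Tup K n) : Prop := ∃ σ : Equiv.Perm (Fin K), a = b ∘ σ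

/-- the coordinatewise sorted matrix of a tuple: `xi a i l` is the `i`-th smallest of the numbers
`a k l`, `k < K` -/
noncomputable def xi {K n : ℕ} (a : Tup K n) : Mat K n :=
  fun i l => a (Tuple.sort (fun k => a k l) i) l

/-- `𝒢`-continuity of a labelled function on a set -/
def ContG {K n : ℕ} (A : Set ℂ) (u : ℂ → Tup K n) : Prop :=
  ∀ z ∈ A, Tendsto (fun w => dG (u w) (u z)) (𝓝[A] z) (𝓝 0)

/-! ### matrices -/

/-- inner product of matrices -/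
def dt {K n : ℕ} (v w : Mat K n) : ℝ := ∑ i, ∑ l, v i l * w i l

/-- squared norm of a matrix -/
def nsq {K n : ℕ} (v : Mat K n) : ℝ := ∑ i, ∑ l, v i l ^ 2

/-- subtract the vector `b` from every row -/
def sh {K n : ℕ} (v : Mat K n) (b : Fin n → ℝ) : Mat K n := fun i l => v i l - b l

/-- add the vector `b` to every row -/
def ad {K n : ℕ} (v : Mat K n) (b : Fin n → ℝ) : Mat K n := fun i l => v i l + b l

/-- sum of the rows -/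
def sm {K n : ℕ} (v : Mat K n) : Fin n → ℝ := fun l => ∑ i, v i l

/-- mean of the rows -/
noncomputable def mn {K n : ℕ} (v : Mat K n) : Fin n → ℝ := fun l => (∑ i, v i l) / K

/-- deviation from the mean: `∑ᵢ |vᵢ - mean|²` -/
noncomputable def dev {K n : ℕ} (v : Mat K n) : ℝ := nsq (sh v (mn v))

/-- squared norm of a vector -/
def vsq {n : ℕ} (v : Fin n → ℝ) : ℝ := ∑ l, v l ^ 2

/-- inner product of vectors -/
def vdt {n : ℕ} (v w : Fin n → ℝ) : ℝ := ∑ l, v l * w l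

/-! ### gradients along almost every line -/

/-- `f` is continuous on `U` and has the locally square integrable gradient `(fx, fy)`
(absolute continuity on almost every horizontal and vertical segment). -/
structure HasGrad (U : Set ℂ) (f fx fy : ℂ → ℝ) : Prop where
  cont : ContinuousOn f U
  mx : AEStronglyMeasurable fx (volume.restrict U)
  my : AEStronglyMeasurable fy (volume.restrict U)
  loc : ∀ C : Set ℂ, C ⊆ U → IsCompact C → IntegrableOn (fun z => fx z ^ 2 + fy z ^ 2) C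
  hor : ∀ᵐ y : ℝ, ∀ a b : ℝ, a ≤ b → (∀ t ∈ Icc a b, (⟨t, y⟩ : ℂ) ∈ U) →
    IntervalIntegrable (fun t : ℝ => fx ⟨t, y⟩) volume a b ∧
    f ⟨b, y⟩ - f ⟨a, y⟩ = ∫ t in a..b, fx ⟨t, y⟩
  ver : ∀ᵐ x : ℝ, ∀ a b : ℝ, a ≤ b → (∀ t ∈ Icc a b, (⟨x, t⟩ : ℂ) ∈ U) →
    IntervalIntegrable (fun t : ℝ => fy ⟨x, t⟩) volume a b ∧
    f ⟨x, b⟩ - f ⟨x, a⟩ = ∫ t in a..b, fy ⟨x, t⟩

/-- matrix valued version -/
def HasGradV {K n : ℕ} (U : Set ℂ) (s X Y : ℂ → Mat K n) : Prop :=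
  ∀ i l, HasGrad U (fun z => s z i l) (fun z => X z i l) (fun z => Y z i l)

/-- vector valued version -/
def HasGradW {n : ℕ} (U : Set ℂ) (s X Y : ℂ → Fin n → ℝ) : Prop :=
  ∀ l, HasGrad U (fun z => s z l) (fun z => X z l) (fun z => Y z l)

/-- energy density -/
def ed {K n : ℕ} (X Y : ℂ → Mat K n) (z : ℂ) : ℝ := nsq (X z) + nsq (Y z)

/-- the Dirichlet energy of a labelled function -/
noncomputable def en {K n : ℕ} (U : Set ℂ) (u : ℂ → Tup K n) : ℝ≥0∞ :=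
  ⨅ (X : ℂ → Mat K n) (Y : ℂ → Mat K n) (_ : HasGradV U (fun z => xi (u z)) X Y),
    ∫⁻ z in U, ENNReal.ofReal (ed X Y z)

/-! ### systems -/

/-- a system of type `(k, d)`: `k + d` sheets above, `k` sheets below, `up = um + d⟦φ⟧` on `ga` -/
structure Sys (k d n : ℕ) (Op Omi ga : Set ℂ) (φ : ℂ → E n) (up : ℂ → Tup (k + d) n)
    (um : ℂ → Tup k n) : Prop where
  cp : ContG (Op ∪ ga) up
  cm : ContG (Omi ∪ ga) um
  bd : ∀ z ∈ ga, Same (up z) (Fin.append (um z) (fun _ : Fin d => φ z))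
  fp : en Op up < ⊤
  fm : en Omi um < ⊤

/-- minimising system -/
def SysMin (k d n : ℕ) (Om Op Omi ga : Set ℂ) (φ : ℂ → E n) (up : ℂ → Tup (k + d) n)
    (um : ℂ → Tup k n) : Prop :=
  Sys k d n Op Omi ga φ up um ∧ ∀ (vp : ℂ → Tup (k + d) n) (vm : ℂ → Tup k n),
    Sys k d n Op Omi ga φ vp vm →
    (∃ C ⊆ Om, IsCompact C ∧ (∀ z ∈ (Op ∪ ga) \ C, Same (vp z) (up z)) ∧
      (∀ z ∈ (Omi ∪ ga) \ C, Same (vm z) (um z))) →
    en Op up + en Omi um ≤ en Op vp + en Omi vm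

/-- interior minimiser on the open set `H` -/
def IntMin {K n : ℕ} (H : Set ℂ) (u : ℂ → Tup K n) : Prop :=
  ContG H u ∧ en H u < ⊤ ∧ ∀ v : ℂ → Tup K n, ContG H v →
    (∃ C ⊆ H, IsCompact C ∧ ∀ z ∈ H \ C, Same (v z) (u z)) → en H u ≤ en H v

/-- regular point of a system -/
def Reg (k d n : ℕ) (Op Omi ga : Set ℂ) (up : ℂ → Tup (k + d) n) (um : ℂ → Tup k n)
    (p : ℂ) : Prop :=
  ∃ r > 0, ball p r ⊆ Op ∪ ga ∪ Omi ∧ ∃ (u : Fin k → ℂ → E n) (w : Fin d → ℂ → E n),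
    (∀ i, ContinuousOn (u i) (ball p r)) ∧ (∀ j, ContinuousOn (w j) (ball p r ∩ (Op ∪ ga))) ∧
    (∀ z ∈ ball p r ∩ (Op ∪ ga), Same (up z) (Fin.append (fun i => u i z) (fun j => w j z))) ∧
    (∀ z ∈ ball p r ∩ (Omi ∪ ga), Same (um z) (fun i => u i z)) ∧
    (∀ i j, (∀ z ∈ ball p r, u i z = u j z) ∨ (∀ z ∈ ball p r, u i z ≠ u j z)) ∧
    (∀ i j, (∀ z ∈ ball p r ∩ (Op ∪ ga), w j z = u i z) ∨
      (∀ z ∈ ball p r ∩ (Op ∪ ga), w j z ≠ u i z))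

/-- locally collapsed point: near `z` all upper sheets agree and all lower sheets agree -/
def LC {K k n : ℕ} (Op Omi : Set ℂ) (up : ℂ → Tup K n) (um : ℂ → Tup k n) (z : ℂ) : Prop :=
  ∃ r > 0, (∀ w ∈ ball z r ∩ Op, ∀ i j, up w i = up w j) ∧
    (∀ w ∈ ball z r ∩ Omi, ∀ i j, um w i = um w j)

/-! ### half discs and charts -/

/-- open upper half disc about the real point `q` -/
def HD (q R : ℝ) : Set ℂ := {z | 0 < z.im ∧ ‖z - q‖ < R}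

/-- the same, including the diameter -/
def HDc (q R : ℝ) : Set ℂ := {z | 0 ≤ z.im ∧ ‖z - q‖ < R}

/-- the point `q + ρ e^{iθ}` -/
noncomputable def cm (q ρ θ : ℝ) : ℂ := q + ρ * Complex.exp (θ * Complex.I)

/-- partial derivatives of a map of the plane -/
noncomputable def px (Φ : ℂ → ℂ) (z : ℂ) : ℂ := fderiv ℝ Φ z 1
noncomputable def py (Φ : ℂ → ℂ) (z : ℂ) : ℂ := fderiv ℝ Φ z Complex.I

/-- Jacobian -/
noncomputable def jac (Φ : ℂ → ℂ) (z : ℂ) : ℝ := (starRingEnd ℂ (px Φ z) * py Φ z).im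

/-- coefficients (11, 12, 22) of the pulled back Dirichlet integral -/
noncomputable def cA (Φ : ℂ → ℂ) (z : ℂ) : Fin 3 → ℝ :=
  ![‖py Φ z‖ ^ 2 / jac Φ z, -(px Φ z * starRingEnd ℂ (py Φ z)).re / jac Φ z,
    ‖px Φ z‖ ^ 2 / jac Φ z]

/-- chart at a point of the interface: `Φ` maps the disc onto a neighbourhood, real points to
`ga`, and is conformal up to second order at real points -/
structure Chart (Op Omi ga : Set ℂ) (Φ : ℂ → ℂ) (c1 : ℝ → ℂ) (R C : ℝ) : Prop where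
  hR : 0 < R
  hC : 1 ≤ C
  smooth : ContDiffOn ℝ 1 Φ (ball 0 R)
  lip : ∀ z ∈ ball (0 : ℂ) R, ∀ w ∈ ball (0 : ℂ) R, ‖Φ z - Φ w‖ ≤ C * ‖z - w‖
  alip : ∀ z ∈ ball (0 : ℂ) R, ∀ w ∈ ball (0 : ℂ) R, ‖z - w‖ ≤ C * ‖Φ z - Φ w‖
  jacp : ∀ z ∈ ball (0 : ℂ) R, C⁻¹ ≤ jac Φ z
  opn : ∀ V : Set ℂ, V ⊆ ball 0 R → IsOpen V → IsOpen (Φ '' V)
  side : ∀ z ∈ ball (0 : ℂ) R,
    (Φ z ∈ Op ↔ 0 < z.im) ∧ (Φ z ∈ Omi ↔ z.im < 0) ∧ (Φ z ∈ ga ↔ z.im = 0)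
  conf : ∀ z ∈ ball (0 : ℂ) R, ‖py Φ z - Complex.I * px Φ z‖ ≤ C * z.im ^ 2
  c1c : ContinuousOn c1 (Ioo (-R) R)
  ker : ∀ t : ℝ, |t| < R → ∀ z ∈ ball (0 : ℂ) R, ‖Φ z - Φ t - c1 t * (z - t)‖ ≤ C * ‖z - t‖ ^ 2

/-- extension of the interface function in a chart -/
structure ChartPhi {n : ℕ} (φ : ℂ → E n) (Φ : ℂ → ℂ) (R C : ℝ) (η ηx ηy : ℂ → Fin n → ℝ) :
    Prop where
  grad : HasGradW (ball 0 R) η ηx ηy
  val : ∀ x : ℝ, |x| < R → ∀ l, η x l = φ (Φ x) l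
  even : ∀ z ∈ ball (0 : ℂ) R, η (starRingEnd ℂ z) = η z
  bd : ∀ q : ℝ, |q| < R → ∃ a b : Fin n → ℝ, (∀ l, |a l| ≤ C) ∧ (∀ l, |b l| ≤ C) ∧
    ∀ z ∈ ball (0 : ℂ) R, ∀ l, |ηx z l - (a l + (z.re - q) * b l)| ≤ C * ‖z - q‖ ^ 2 ∧
      |ηy z l + z.im * b l| ≤ C * ‖z - q‖ ^ 2

/-- one sided chart (only what the uniqueness part needs) -/
structure HChart (Φ : ℂ → ℂ) (c1 : ℝ → ℂ) (R C : ℝ) : Prop where
  hR : 0 < R
  hC : 1 ≤ C
  lip : ∀ z ∈ HDc 0 R, ∀ w ∈ HDc 0 R, ‖Φ z - Φ w‖ ≤ C * ‖z - w‖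
  alip : ∀ z ∈ HDc 0 R, ∀ w ∈ HDc 0 R, ‖z - w‖ ≤ C * ‖Φ z - Φ w‖
  opn : ∀ V : Set ℂ, V ⊆ HD 0 R → IsOpen V → IsOpen (Φ '' V)
  c1c : ContinuousOn c1 (Ioo (-R) R)
  ker : ∀ t : ℝ, |t| < R → ∀ z ∈ HDc 0 R, ‖Φ z - Φ t - c1 t * (z - t)‖ ≤ C * ‖z - t‖ ^ 2

/-! ### the flattened system on the upper half disc -/

/-- quadratic form with coefficients `a` -/
def qd {K n : ℕ} (a : Fin 3 → ℝ) (X Y : Mat K n) : ℝ :=
  a 0 * nsq X + 2 * a 1 * dt X Y + a 2 * nsq Y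

/-- polarised form -/
def bl {K n : ℕ} (a : Fin 3 → ℝ) (X Y X' Y' : Mat K n) : ℝ :=
  a 0 * dt X X' + a 1 * (dt X Y' + dt Y X') + a 2 * dt Y Y'

/-- constant rows -/
def rw' (K : ℕ) {n : ℕ} (b : Fin n → ℝ) : Mat K n := fun _ l => b l

/-- data of a flattened system: `p` = upper sheets minus `η`; `l` = minus (reflected lower sheets
minus `η`) -/
structure Flat (k d n : ℕ) where
  R : ℝ
  C : ℝ
  A : ℂ → Fin 3 → ℝ
  B : ℂ → Fin 3 → ℝ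
  η : ℂ → Fin n → ℝ
  ηx : ℂ → Fin n → ℝ
  ηy : ℂ → Fin n → ℝ
  p : ℂ → Tup (k + d) n
  l : ℂ → Tup k n
  Px : ℂ → Mat (k + d) n
  Py : ℂ → Mat (k + d) n
  Lx : ℂ → Mat k n
  Ly : ℂ → Mat k n

namespace Flat
variable {k d n : ℕ}

/-- competitors: equal to `p, l` outside the closed half disc of radius `r` about `q` -/
structure Cp (F : Flat k d n) (q r : ℝ) (p' : ℂ → Tup (k + d) n) (l' : ℂ → Tup k n)
    (X Y : ℂ → Mat (k + d) n) (X' Y' : ℂ → Mat k n) : Prop where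
  pc : ContG (HDc 0 F.R) p'
  lc : ContG (HDc 0 F.R) l'
  pg : HasGradV (HD 0 F.R) (fun z => xi (p' z)) X Y
  lg : HasGradV (HD 0 F.R) (fun z => xi (l' z)) X' Y'
  pI : IntegrableOn (ed X Y) (HD 0 F.R)
  lI : IntegrableOn (ed X' Y') (HD 0 F.R)
  bd : ∀ x : ℝ, |x| < F.R → Same (p' x) (Fin.append (fun i => -(l' x i)) (fun _ : Fin d => 0))
  eq : ∀ z ∈ HDc 0 F.R, r ≤ ‖z - q‖ → Same (p' z) (F.p z) ∧ Same (l' z) (F.l z)

/-- the energy of a competitor -/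
noncomputable def En (F : Flat k d n) (X Y : ℂ → Mat (k + d) n) (X' Y' : ℂ → Mat k n) : ℝ :=
  ∫ z in HD 0 F.R, (qd (F.A z) (ad (X z) (F.ηx z)) (ad (Y z) (F.ηy z)) +
    qd (F.B z) (sh (X' z) (F.ηx z)) (sh (Y' z) (F.ηy z)))

/-- properties of a flattened system except minimality -/
structure Ok0 (F : Flat k d n) : Prop where
  hR : 0 < F.R
  hC : 0 < F.C
  small : F.C * F.R ^ 2 ≤ 1 / 4
  Am : ∀ j, Measurable (fun z => F.A z j)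
  Bm : ∀ j, Measurable (fun z => F.B z j)
  Ab : ∀ z ∈ HD 0 F.R, |F.A z 0 - 1| ≤ F.C * z.im ^ 2 ∧ |F.A z 1| ≤ F.C * z.im ^ 2 ∧
    |F.A z 2 - 1| ≤ F.C * z.im ^ 2
  Bb : ∀ z ∈ HD 0 F.R, |F.B z 0 - 1| ≤ F.C * z.im ^ 2 ∧ |F.B z 1| ≤ F.C * z.im ^ 2 ∧
    |F.B z 2 - 1| ≤ F.C * z.im ^ 2
  ηg : HasGradW (HD 0 F.R) F.η F.ηx F.ηy
  ηc : ∀ j, ContinuousOn (fun z => F.η z j) (HDc 0 F.R)
  ηb : ∀ q : ℝ, |q| < F.R → ∃ a b : Fin n → ℝ, (∀ j, |a j| ≤ F.C) ∧ (∀ j, |b j| ≤ F.C) ∧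
    ∀ z ∈ HD 0 F.R, ∀ j, |F.ηx z j - (a j + (z.re - q) * b j)| ≤ F.C * ‖z - q‖ ^ 2 ∧
      |F.ηy z j + z.im * b j| ≤ F.C * ‖z - q‖ ^ 2
  pc : ContG (HDc 0 F.R) F.p
  lc : ContG (HDc 0 F.R) F.l
  pg : HasGradV (HD 0 F.R) (fun z => xi (F.p z)) F.Px F.Py
  lg : HasGradV (HD 0 F.R) (fun z => xi (F.l z)) F.Lx F.Ly
  pI : IntegrableOn (ed F.Px F.Py) (HD 0 F.R)
  lI : IntegrableOn (ed F.Lx F.Ly) (HD 0 F.R)
  bd : ∀ x : ℝ, |x| < F.R → Same (F.p x) (Fin.append (fun i => -(F.l x i)) (fun _ : Fin d => 0))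

/-- flattened minimising system -/
structure Ok (F : Flat k d n) : Prop extends F.Ok0 where
  min : ∀ r : ℝ, 0 < r → r < F.R → ∀ (p' : ℂ → Tup (k + d) n) (l' : ℂ → Tup k n)
    (X Y : ℂ → Mat (k + d) n) (X' Y' : ℂ → Mat k n), F.Cp 0 r p' l' X Y X' Y' →
    F.En F.Px F.Py F.Lx F.Ly ≤ F.En X Y X' Y'

/-- tilted energy `D_α(q, r)` -/
noncomputable def D (F : Flat k d n) (q r : ℝ) (α : Fin n → ℝ) : ℝ :=
  ∫ z in HD q r, (nsq (F.Px z) + nsq (sh (F.Py z) α) + (nsq (F.Lx z) + nsq (sh (F.Ly z) α)))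

/-- radial and angular components of a gradient -/
noncomputable def rd {K n : ℕ} (θ : ℝ) (X Y : Mat K n) : Mat K n :=
  Real.cos θ • X + Real.sin θ • Y
noncomputable def tg {K n : ℕ} (θ : ℝ) (X Y : Mat K n) : Mat K n :=
  (-Real.sin θ) • X + Real.cos θ • Y

/-- `h_α(q, r) = ∫ |s_α|² dθ` on the half circle -/
noncomputable def h (F : Flat k d n) (q r : ℝ) (α : Fin n → ℝ) : ℝ :=
  ∫ θ in (0 : ℝ)..Real.pi, (nsq (sh (xi (F.p (cm q r θ))) ((r * Real.sin θ) • α)) +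
    nsq (sh (xi (F.l (cm q r θ))) ((r * Real.sin θ) • α)))

/-- `ν_α(q, r) = r² ∫ |∂_ρ s_α|² dθ` -/
noncomputable def nu (F : Flat k d n) (q r : ℝ) (α : Fin n → ℝ) : ℝ :=
  r ^ 2 * ∫ θ in (0 : ℝ)..Real.pi,
    (nsq (rd θ (F.Px (cm q r θ)) (sh (F.Py (cm q r θ)) α)) +
      nsq (rd θ (F.Lx (cm q r θ)) (sh (F.Ly (cm q r θ)) α)))

/-- `t_α(q, r) = ∫ |∂_θ s_α|² dθ` -/
noncomputable def t (F : Flat k d n) (q r : ℝ) (α : Fin n → ℝ) : ℝ :=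
  r ^ 2 * ∫ θ in (0 : ℝ)..Real.pi,
    (nsq (tg θ (F.Px (cm q r θ)) (sh (F.Py (cm q r θ)) α)) +
      nsq (tg θ (F.Lx (cm q r θ)) (sh (F.Ly (cm q r θ)) α)))

/-- the flux `Y(q, r) = ∫ ∂_y (∑ P + ∑ L)` -/
noncomputable def Y (F : Flat k d n) (q r : ℝ) : Fin n → ℝ :=
  fun j => ∫ z in HD q r, (sm (F.Py z) j + sm (F.Ly z) j)

/-- collapsed real points -/
def Z (F : Flat k d n) : Set ℝ := {x | |x| < F.R ∧ ∀ i, F.l x i = 0}

end Flat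

/-- lift of a curve of unordered tuples on `[0, π]` vanishing at the end points -/
structure Lift {K n : ℕ} (u : ℝ → Tup K n) (T : ℝ → Mat K n) (f : ℝ → Tup K n)
    (f' : ℝ → Mat K n) : Prop where
  same : ∀ θ ∈ Icc 0 Real.pi, Same (f θ) (u θ)
  z0 : f 0 = 0
  zp : f Real.pi = 0
  meas : ∀ i l, AEStronglyMeasurable (fun θ => f' θ i l) (volume.restrict (Ioc 0 Real.pi))
  int : IntervalIntegrable (fun θ => nsq (f' θ)) volume 0 Real.pi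
  ftc : ∀ i l, ∀ θ ∈ Icc 0 Real.pi, f θ i l = ∫ t in (0 : ℝ)..θ, f' t i l
  le : ∀ᵐ θ : ℝ, θ ∈ Ioo 0 Real.pi → nsq (f' θ) ≤ nsq (T θ)

/-- two sided density points -/
def Dens (S : Set ℝ) (q : ℝ) : Prop :=
  ∀ ε > 0, ∃ r1 > 0, ∀ r, 0 < r → r < r1 →
    volume (Ioo 0 r \ {ρ | q + ρ ∈ S ∧ q - ρ ∈ S}) ≤ ENNReal.ofReal (ε * r)

/-! ### weak Laplacian -/

/-- pointwise Laplacian through iterated first derivatives -/
noncomputable def lap (ζ : ℂ → ℝ) (z : ℂ) : ℝ :=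
  fderiv ℝ (fun w => fderiv ℝ ζ w 1) z 1 +
    fderiv ℝ (fun w => fderiv ℝ ζ w Complex.I) z Complex.I

/-- test functions on `U` -/
def TF (U : Set ℂ) (ζ : ℂ → ℝ) : Prop :=
  ContDiff ℝ (⊤ : ℕ∞) ζ ∧ HasCompactSupport ζ ∧ tsupport ζ ⊆ U

/-- weakly subharmonic on `U` -/
def WSub (U : Set ℂ) (g : ℂ → ℝ) : Prop :=
  ∀ ζ, TF U ζ → (∀ z, 0 ≤ ζ z) → 0 ≤ ∫ z, g z * lap ζ z

end Pool.Agent.DMB
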