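import Pool.Agent.DMB.Api

/-!
From distributional bounds to bounds on almost every line (module ENA).
-/

set_option autoImplicit false

namespace Pool.Agent.DMB

open MeasureTheory Set Metric Filter Topology
open scoped ENNReal Convolution

namespace ENA_

/-- smooth cut-off, `0` outside `(p, s)` and `1` on `[q, r]` -/
noncomputable def cut (p q r s x : ℝ) : ℝ :=
  Real.smoothTransition ((x - p) / (q - p)) * Real.smoothTransition ((s - x) / (s - r))

theorem cut_contDiff (p q r s : ℝ) : ContDiff ℝ (⊤ : ℕ∞) (cut p q r s) := by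
  unfold cut
  exact (Real.smoothTransition.contDiff.comp (by fun_prop)).mul
    (Real.smoothTransition.contDiff.comp (by fun_prop))

theorem cut_nonneg (p q r s x : ℝ) : 0 ≤ cut p q r s x :=
  mul_nonneg (Real.smoothTransition.nonneg _) (Real.smoothTransition.nonneg _)

theorem cut_le_one (p q r s x : ℝ) : cut p q r s x ≤ 1 :=
  mul_le_one₀ (Real.smoothTransition.le_one _) (Real.smoothTransition.nonneg _)
    (Real.smoothTransition.le_one _)

section
variable {p q r s : ℝ} (hpq : p < q) (hqr : q < r) (hrs : r < s)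
include hpq in
theorem cut_left {x : ℝ} (h : x ≤ p) : cut p q r s x = 0 := by
  unfold cut
  rw [Real.smoothTransition.zero_of_nonpos
    (div_nonpos_of_nonpos_of_nonneg (by linarith) (by linarith)), zero_mul]

include hrs in
theorem cut_right {x : ℝ} (h : s ≤ x) : cut p q r s x = 0 := by
  unfold cut
  rw [Real.smoothTransition.zero_of_nonpos (x := (s - x) / (s - r))
    (div_nonpos_of_nonpos_of_nonneg (by linarith) (by linarith)), mul_zero]

include hrs in
theorem cut_eq_left {x : ℝ} (h : x ≤ r) :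
    cut p q r s x = Real.smoothTransition ((x - p) / (q - p)) := by
  unfold cut
  rw [Real.smoothTransition.one_of_one_le (x := (s - x) / (s - r))
    ((one_le_div (by linarith)).2 (by linarith)), mul_one]

include hpq in
theorem cut_eq_right {x : ℝ} (h : q ≤ x) :
    cut p q r s x = Real.smoothTransition ((s - x) / (s - r)) := by
  unfold cut
  rw [Real.smoothTransition.one_of_one_le (x := (x - p) / (q - p))
    ((one_le_div (by linarith)).2 (by linarith)), one_mul]

include hpq hrs in
theorem cut_mid {x : ℝ} (h : q ≤ x) (h' : x ≤ r) : cut p q r s x = 1 := by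
  rw [cut_eq_left hrs h', Real.smoothTransition.one_of_one_le
    ((one_le_div (by linarith)).2 (by linarith))]

include hpq hrs in
theorem deriv_cut_nonneg {x : ℝ} (h : x < r) : 0 ≤ deriv (cut p q r s) x := by
  have h1 : MonotoneOn (cut p q r s) (Iic r) := by
    intro y hy z hz hyz
    rw [cut_eq_left hrs hy, cut_eq_left hrs hz]
    apply Real.smoothTransition.monotone
    have : 0 < q - p := by linarith
    gcongr
  have h2 := h1.derivWithin_nonneg (x := x)
  rwa [derivWithin_of_mem_nhds (Iic_mem_nhds h)] at h2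

include hpq hrs in
theorem deriv_cut_nonpos {x : ℝ} (h : q < x) : deriv (cut p q r s) x ≤ 0 := by
  have h1 : AntitoneOn (cut p q r s) (Ici q) := by
    intro y hy z hz hyz
    rw [cut_eq_right hpq hy, cut_eq_right hpq hz]
    apply Real.smoothTransition.monotone
    have : 0 < s - r := by linarith
    gcongr
  have h2 := h1.derivWithin_nonpos (x := x)
  rwa [derivWithin_of_mem_nhds (Ici_mem_nhds h)] at h2

theorem deriv_cut_zero {x : ℝ} (h : cut p q r s x = 0) : deriv (cut p q r s) x = 0 := by
  have : IsLocalMin (cut p q r s) x :=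
    Eventually.of_forall fun y => by rw [h]; exact cut_nonneg _ _ _ _ _
  exact this.deriv_eq_zero

theorem deriv_cut_one {x : ℝ} (h : cut p q r s x = 1) : deriv (cut p q r s) x = 0 := by
  have : IsLocalMax (cut p q r s) x :=
    Eventually.of_forall fun y => by rw [h]; exact cut_le_one _ _ _ _ _
  exact this.deriv_eq_zero

theorem continuous_deriv_cut : Continuous (deriv (cut p q r s)) :=
  (cut_contDiff p q r s).continuous_deriv (by simp)

theorem integral_deriv_cut (a b : ℝ) :
    ∫ x in a..b, deriv (cut p q r s) x = cut p q r s b - cut p q r s a := by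
  refine intervalIntegral.integral_deriv_eq_sub (fun x _ => ?_)
    (continuous_deriv_cut.intervalIntegrable _ _)
  exact ((cut_contDiff p q r s).differentiable (by simp)).differentiableAt

include hpq hqr hrs in
theorem integral_cut_close {F : ℝ → ℝ} {A B ε : ℝ} (hF : ContinuousOn F (Icc p s))
    (h1 : ∀ x ∈ Icc p q, |F x - A| ≤ ε) (h2 : ∀ x ∈ Icc r s, |F x - B| ≤ ε) :
    |(∫ x, F x * deriv (cut p q r s) x) - (A - B)| ≤ 2 * ε := by
  have hsupp : Function.support (fun x => F x * deriv (cut p q r s) x) ⊆ Ioc p s := by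
    intro x hx
    by_contra hcon
    apply hx
    rw [mem_Ioc, not_and_or, not_lt, not_le] at hcon
    rcases hcon with h | h
    · simp [deriv_cut_zero (cut_left (r := r) (s := s) hpq h)]
    · simp [deriv_cut_zero (cut_right (p := p) (q := q) hrs h.le)]
  rw [← intervalIntegral.integral_eq_integral_of_support_subset hsupp]
  have hc : ContinuousOn (fun x => F x * deriv (cut p q r s) x) (Icc p s) :=
    hF.mul continuous_deriv_cut.continuousOn
  have i1 : IntervalIntegrable (fun x => F x * deriv (cut p q r s) x) volume p q :=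
    (hc.mono (by rw [uIcc_of_le hpq.le]; exact Icc_subset_Icc_right (by linarith))).intervalIntegrable
  have sub2 : uIcc q r ⊆ Icc p s := by
    rw [uIcc_of_le hqr.le]
    exact Icc_subset_Icc hpq.le hrs.le
  have i2 : IntervalIntegrable (fun x => F x * deriv (cut p q r s) x) volume q r :=
    (hc.mono sub2).intervalIntegrable
  have i3 : IntervalIntegrable (fun x => F x * deriv (cut p q r s) x) volume r s :=
    (hc.mono (by rw [uIcc_of_le hrs.le]; exact Icc_subset_Icc_left (by linarith))).intervalIntegrable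
  rw [← intervalIntegral.integral_add_adjacent_intervals (i1.trans i2) i3,
    ← intervalIntegral.integral_add_adjacent_intervals i1 i2]
  have hmid : ∫ x in q..r, F x * deriv (cut p q r s) x = 0 := by
    rw [intervalIntegral.integral_congr (g := fun _ => (0 : ℝ))]
    · simp
    · intro x hx
      rw [uIcc_of_le hqr.le] at hx
      simp [deriv_cut_one (cut_mid hpq hrs hx.1 hx.2)]
  have hd1 : ∫ x in p..q, deriv (cut p q r s) x = 1 := by
    rw [integral_deriv_cut, cut_mid hpq hrs le_rfl hqr.le, cut_left hpq le_rfl, sub_zero]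
  have hd3 : ∫ x in r..s, deriv (cut p q r s) x = -1 := by
    rw [integral_deriv_cut, cut_mid hpq hrs hqr.le le_rfl, cut_right hrs le_rfl, zero_sub]
  have ic : ∀ c a b : ℝ, IntervalIntegrable (fun x => c * deriv (cut p q r s) x) volume a b :=
    fun c a b => (continuous_const.mul continuous_deriv_cut).intervalIntegrable _ _
  have e1 : |(∫ x in p..q, F x * deriv (cut p q r s) x) - A| ≤ ε := by
    have : (∫ x in p..q, F x * deriv (cut p q r s) x) - A =
        ∫ x in p..q, (F x - A) * deriv (cut p q r s) x := by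
      simp only [sub_mul]
      rw [intervalIntegral.integral_sub i1 (ic _ _ _),
        intervalIntegral.integral_const_mul, hd1, mul_one]
    rw [this]
    calc |∫ x in p..q, (F x - A) * deriv (cut p q r s) x|
        = ‖∫ x in p..q, (F x - A) * deriv (cut p q r s) x‖ := rfl
      _ ≤ ∫ x in p..q, ε * deriv (cut p q r s) x := by
          refine intervalIntegral.norm_integral_le_of_norm_le hpq.le
            (Eventually.of_forall fun x hx => ?_)
            ((continuous_const.mul continuous_deriv_cut).intervalIntegrable _ _)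
          have h3 := deriv_cut_nonneg hpq hrs (x := x) (by linarith [hx.2])
          rw [Real.norm_eq_abs, abs_mul, abs_of_nonneg h3]
          exact mul_le_mul_of_nonneg_right (h1 x (Ioc_subset_Icc_self hx)) h3
      _ = ε := by rw [intervalIntegral.integral_const_mul, hd1, mul_one]
  have e3 : |(∫ x in r..s, F x * deriv (cut p q r s) x) + B| ≤ ε := by
    have : (∫ x in r..s, F x * deriv (cut p q r s) x) + B =
        ∫ x in r..s, (F x - B) * deriv (cut p q r s) x := by
      simp only [sub_mul]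
      rw [intervalIntegral.integral_sub i3 (ic _ _ _),
        intervalIntegral.integral_const_mul, hd3]
      ring
    rw [this]
    calc |∫ x in r..s, (F x - B) * deriv (cut p q r s) x|
        = ‖∫ x in r..s, (F x - B) * deriv (cut p q r s) x‖ := rfl
      _ ≤ ∫ x in r..s, ε * (-deriv (cut p q r s) x) := by
          refine intervalIntegral.norm_integral_le_of_norm_le hrs.le
            (Eventually.of_forall fun x hx => ?_)
            ((continuous_const.mul continuous_deriv_cut.neg).intervalIntegrable _ _)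
          have h3 := deriv_cut_nonpos hpq hrs (x := x) (by linarith [hx.1])
          rw [Real.norm_eq_abs, abs_mul, abs_of_nonpos h3]
          exact mul_le_mul_of_nonneg_right (h2 x (Ioc_subset_Icc_self hx)) (by linarith)
      _ = ε := by rw [intervalIntegral.integral_const_mul, intervalIntegral.integral_neg, hd3]; ring
  rw [hmid]
  rw [abs_le] at e1 e3 ⊢
  constructor <;> linarith [e1.1, e1.2, e3.1, e3.2]

end

/-- one dimensional conclusion -/
theorem oneD {F : ℝ → ℝ} {a b : ℝ} {L : ℝ≥0∞} (hab : a ≤ b) (hF : ContinuousOn F (Icc a b))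
    (h : ∀ p q r s : ℚ, a < p → (p : ℝ) < q → (q : ℝ) < r → (r : ℝ) < s → (s : ℝ) < b →
      ENNReal.ofReal |∫ x, F x * deriv (cut p q r s) x| ≤ L) :
    ENNReal.ofReal |F b - F a| ≤ L := by
  rcases hab.eq_or_lt with rfl | hlt
  · simp
  by_cases hL : L = ⊤
  · rw [hL]; exact le_top
  rw [ENNReal.ofReal_le_iff_le_toReal hL]
  refine le_of_forall_pos_le_add fun ε hε => ?_
  have ha := (Metric.continuousOn_iff.1 hF) a ⟨le_rfl, hab⟩ (ε / 2) (by positivity)
  have hb := (Metric.continuousOn_iff.1 hF) b ⟨hab, le_rfl⟩ (ε / 2) (by positivity)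
  obtain ⟨η1, hη1, h1⟩ := ha
  obtain ⟨η2, hη2, h2⟩ := hb
  obtain ⟨q, hq1, hq2⟩ := exists_rat_btwn (show a < min (a + η1) ((a + b) / 2) from
    lt_min (by linarith) (by linarith))
  obtain ⟨p, hp1, hp2⟩ := exists_rat_btwn hq1
  obtain ⟨r, hr1, hr2⟩ := exists_rat_btwn (show max (b - η2) ((a + b) / 2) < b from
    max_lt (by linarith) (by linarith))
  obtain ⟨s, hs1, hs2⟩ := exists_rat_btwn hr2
  have hq3 : (q : ℝ) < a + η1 := hq2.trans_le (min_le_left _ _)
  have hq4 : (q : ℝ) < (a + b) / 2 := hq2.trans_le (min_le_right _ _)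
  have hr3 : b - η2 < r := (le_max_left _ _).trans_lt hr1
  have hr4 : (a + b) / 2 < r := (le_max_right _ _).trans_lt hr1
  have hqr : (q : ℝ) < r := hq4.trans hr4
  have h3 := h p q r s hp1 hp2 hqr hs1 hs2
  rw [ENNReal.ofReal_le_iff_le_toReal hL] at h3
  have h4 := integral_cut_close (F := F) (A := F a) (B := F b) (ε := ε / 2) hp2 hqr hs1
    (hF.mono (Icc_subset_Icc hp1.le hs2.le)) (fun x hx => by
      have := h1 x ⟨hp1.le.trans hx.1, by linarith [hx.2]⟩ (by
        rw [Real.dist_eq, abs_of_nonneg (by linarith [hx.1])]; linarith [hx.2])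
      rw [Real.dist_eq] at this
      exact this.le) (fun x hx => by
      have := h2 x ⟨by linarith [hx.1], hx.2.trans hs2.le⟩ (by
        rw [Real.dist_eq, abs_of_nonpos (by linarith [hx.2])]; linarith [hx.1])
      rw [Real.dist_eq] at this
      exact this.le)
  have h5 : |F b - F a| ≤ |∫ x, F x * deriv (cut p q r s) x| + ε := by
    have : F b - F a = -(∫ x, F x * deriv (cut p q r s) x) +
      ((∫ x, F x * deriv (cut p q r s) x) - (F a - F b)) := by ring
    rw [this]
    refine (abs_add_le _ _).trans ?_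
    rw [abs_neg]
    linarith
  linarith


/-! two dimensional part -/

/-- coordinates of the plane -/
structure Co (v : ℂ) (e : ℝ → ℝ → ℂ) (c1 c2 : ℂ →L[ℝ] ℝ) : Prop where
  c1e : ∀ x y, c1 (e x y) = x
  c2e : ∀ x y, c2 (e x y) = y
  ec : ∀ z, e (c1 z) (c2 z) = z
  c1v : c1 v = 1
  c2v : c2 v = 0
  cont : Continuous (fun p : ℝ × ℝ => e p.1 p.2)
  mp : MeasurePreserving (fun p : ℝ × ℝ => e p.1 p.2) (volume.prod volume) volume

variable {v : ℂ} {e : ℝ → ℝ → ℂ} {c1 c2 : ℂ →L[ℝ] ℝ}

theorem Co.emb (co : Co v e c1 c2) : MeasurableEmbedding (fun p : ℝ × ℝ => e p.1 p.2) := by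
  refine co.cont.measurableEmbedding fun p q hpq => ?_
  have h1 := congrArg c1 hpq
  have h2 := congrArg c2 hpq
  simp only [co.c1e, co.c2e] at h1 h2
  exact Prod.ext h1 h2

theorem Co.integral (co : Co v e c1 c2) {F : ℂ → ℝ} (hF : Integrable F) :
    ∫ z, F z = ∫ y, ∫ x, F (e x y) := by
  rw [← co.mp.integral_comp co.emb, integral_prod_symm]
  exact (co.mp.integrable_comp_emb co.emb).2 hF

theorem Co.lintegral (co : Co v e c1 c2) {F : ℂ → ℝ≥0∞} (hF : Measurable F) :
    ∫⁻ z, F z = ∫⁻ y, ∫⁻ x, F (e x y) := by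
  rw [← co.mp.lintegral_comp hF, lintegral_prod_symm']
  exact hF.comp co.cont.measurable

theorem L2 (co : Co v e c1 c2) {U : Set ℂ} {f : ℂ → ℝ} {h : ℂ → ℝ≥0∞}
    (hf : ContinuousOn f U) (hh : Measurable h)
    (hloc : ∀ C : Set ℂ, C ⊆ U → IsCompact C → ∫⁻ z in C, h z < ⊤) (hD : DerivBound U v f h)
    {A : ℝ → ℝ} {p s c d : ℝ} (hA : ContDiff ℝ (⊤ : ℕ∞) A) (hA0 : ∀ x, x ∉ Icc p s → A x = 0)
    (hK : ∀ x ∈ Icc p s, ∀ y ∈ Icc c d, e x y ∈ U) :
    ∀ᵐ y : ℝ, y ∈ Ioo c d → ENNReal.ofReal |∫ x, f (e x y) * deriv A x| ≤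
      ∫⁻ x, h (e x y) * ENNReal.ofReal |A x| := by
  set C : Set ℂ := (fun p : ℝ × ℝ => e p.1 p.2) '' (Icc p s ×ˢ Icc c d) with hC
  have hCc : IsCompact C := (isCompact_Icc.prod isCompact_Icc).image co.cont
  have hCm : MeasurableSet C := hCc.measurableSet
  have hCU : C ⊆ U := by
    rintro _ ⟨⟨x, y⟩, ⟨hx, hy⟩, rfl⟩
    exact hK x hx y hy
  have hmem : ∀ x y, e x y ∈ C ↔ x ∈ Icc p s ∧ y ∈ Icc c d := by
    intro x y
    constructor
    · rintro ⟨⟨x', y'⟩, ⟨hx, hy⟩, hxy⟩
      have h1 := congrArg c1 hxy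
      have h2 := congrArg c2 hxy
      simp only [co.c1e, co.c2e] at h1 h2
      subst h1 h2
      exact ⟨hx, hy⟩
    · rintro ⟨hx, hy⟩
      exact ⟨(x, y), ⟨hx, hy⟩, rfl⟩
  have hAd : ∀ x, x ∉ Icc p s → deriv A x = 0 := by
    intro x hx
    have h1 : A =ᶠ[𝓝 x] fun _ => 0 := by
      filter_upwards [isClosed_Icc.isOpen_compl.mem_nhds hx] with y hy
      exact hA0 y hy
    rw [h1.deriv_eq]
    simp
  have hAcs : HasCompactSupport A := HasCompactSupport.intro isCompact_Icc hA0
  obtain ⟨MA, hMA⟩ := hAcs.exists_bound_of_continuous hA.continuous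
  have hAdc : Continuous (deriv A) := hA.continuous_deriv (by simp)
  have hAdcs : HasCompactSupport (deriv A) := HasCompactSupport.intro isCompact_Icc hAd
  obtain ⟨MD, hMD⟩ := hAdcs.exists_bound_of_continuous hAdc
  -- truncations
  set f' : ℂ → ℝ := C.indicator f with hf'
  set h' : ℂ → ℝ≥0∞ := C.indicator h with hh'
  have hf'i : Integrable f' := by
    rw [hf', integrable_indicator_iff hCm]
    exact (hf.mono hCU).integrableOn_compact hCc
  have hh'm : Measurable h' := hh.indicator hCm
  have hh'i : ∫⁻ z, h' z < ⊤ := by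
    rw [hh', lintegral_indicator hCm]
    exact hloc C hCU hCc
  set F1 : ℂ → ℝ := fun z => f' z * deriv A (c1 z) with hF1
  have hF1i : Integrable F1 :=
    hf'i.mul_bdd (c := MD) (hAdc.comp c1.continuous).aestronglyMeasurable
      (Eventually.of_forall fun z => hMD _)
  set F2 : ℂ → ℝ≥0∞ := fun z => h' z * ENNReal.ofReal |A (c1 z)| with hF2
  have hF2m : Measurable F2 :=
    hh'm.mul ((hA.continuous.comp c1.continuous).abs.measurable.ennreal_ofReal)
  have hF2i : ∫⁻ z, F2 z < ⊤ := by
    have h1 : ∫⁻ z, F2 z ≤ ∫⁻ z, h' z * ENNReal.ofReal MA := by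
      refine lintegral_mono fun z => ?_
      exact mul_le_mul_right (ENNReal.ofReal_le_ofReal (hMA _)) _
    refine h1.trans_lt ?_
    rw [lintegral_mul_const _ hh'm]
    exact ENNReal.mul_lt_top hh'i ENNReal.ofReal_lt_top
  set g1 : ℝ → ℝ := fun y => ∫ x, F1 (e x y) with hg1
  set G2 : ℝ → ℝ≥0∞ := fun y => ∫⁻ x, F2 (e x y) with hG2
  have hg1i : Integrable g1 := by
    have h1 : Integrable (fun p : ℝ × ℝ => F1 (e p.1 p.2)) (volume.prod volume) :=
      (co.mp.integrable_comp_emb co.emb).2 hF1i
    exact h1.integral_prod_right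
  have hG2m : Measurable G2 := by
    have h1 : Measurable (fun p : ℝ × ℝ => F2 (e p.1 p.2)) := hF2m.comp co.cont.measurable
    exact h1.lintegral_prod_left'
  have hG2i : ∫⁻ y, G2 y < ⊤ := by
    rw [hG2, ← co.lintegral hF2m]
    exact hF2i
  set g2 : ℝ → ℝ := fun y => (G2 y).toReal with hg2
  have hg2i : Integrable g2 := integrable_toReal_of_lintegral_ne_top hG2m.aemeasurable hG2i.ne
  have hG2f : ∀ᵐ y, G2 y < ⊤ := ae_lt_top hG2m hG2i.ne
  -- the bumps
  let φ : ℕ → ContDiffBump (0 : ℝ) := fun i =>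
    ⟨1 / (2 * ((i : ℝ) + 1)), 1 / ((i : ℝ) + 1), by positivity, by
      apply one_div_lt_one_div_of_lt (by positivity)
      have : (0 : ℝ) < (i : ℝ) + 1 := by positivity
      linarith⟩
  have hφ : Tendsto (fun i => (φ i).rOut) atTop (𝓝 0) := tendsto_one_div_add_atTop_nhds_zero_nat
  have hφ' : ∀ᶠ i in atTop, (φ i).rOut ≤ 2 * (φ i).rIn := by
    refine Eventually.of_forall fun i => ?_
    change 1 / ((i : ℝ) + 1) ≤ 2 * (1 / (2 * ((i : ℝ) + 1)))
    have : (0 : ℝ) < (i : ℝ) + 1 := by positivity
    apply le_of_eq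
    field_simp
  have lim1 := ContDiffBump.ae_convolution_tendsto_right_of_locallyIntegrable (μ := volume)
    hφ hφ' hg1i.locallyIntegrable
  have lim2 := ContDiffBump.ae_convolution_tendsto_right_of_locallyIntegrable (μ := volume)
    hφ hφ' hg2i.locallyIntegrable
  filter_upwards [lim1, lim2, hG2f] with y0 hy1 hy2 hy3 hy0
  have hev : ∀ᶠ i in atTop, (φ i).rOut < min (y0 - c) (d - y0) :=
    hφ.eventually_lt_const (lt_min (by linarith [hy0.1]) (by linarith [hy0.2]))
  have key : ∀ᶠ i in atTop,
      |((φ i).normed volume ⋆[ContinuousLinearMap.lsmul ℝ ℝ, volume] g1) y0| ≤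
        ((φ i).normed volume ⋆[ContinuousLinearMap.lsmul ℝ ℝ, volume] g2) y0 := by
    filter_upwards [hev] with i hi
    set B : ℝ → ℝ := fun y => (φ i).normed volume (y0 - y) with hB
    have hBcd : ContDiff ℝ (⊤ : ℕ∞) B :=
      ((φ i).contDiff_normed (n := (⊤ : ℕ∞))).comp (contDiff_const.sub contDiff_id)
    have hB0 : ∀ y, 0 ≤ B y := fun y => (φ i).nonneg_normed _
    have hBz : ∀ y, y ∉ Icc c d → B y = 0 := by
      intro y hy
      have h1 : y0 - y ∉ Function.support ((φ i).normed volume) := by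
        rw [(φ i).support_normed_eq, mem_ball_zero_iff, Real.norm_eq_abs, not_lt]
        rw [mem_Icc, not_and_or, not_le, not_le] at hy
        rcases hy with h | h
        · rw [abs_of_nonneg (by linarith [hy0.1])]
          linarith [min_le_left (y0 - c) (d - y0)]
        · rw [abs_of_nonpos (by linarith [hy0.2])]
          linarith [min_le_right (y0 - c) (d - y0)]
      simpa using h1
    set ζ : ℂ → ℝ := fun z => A (c1 z) * B (c2 z) with hζ
    have hζ0 : ∀ z, z ∉ C → ζ z = 0 := by
      intro z hz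
      rw [← co.ec z, hmem, not_and_or] at hz
      rcases hz with h1 | h1
      · simp [hζ, hA0 _ h1]
      · simp [hζ, hBz _ h1]
    have hζcd : ContDiff ℝ (⊤ : ℕ∞) ζ :=
      (hA.comp c1.contDiff).mul (hBcd.comp c2.contDiff)
    have hζcs : HasCompactSupport ζ := HasCompactSupport.intro hCc hζ0
    have hζt : tsupport ζ ⊆ U := by
      refine (closure_minimal ?_ hCc.isClosed).trans hCU
      intro z hz
      by_contra hcon
      exact hz (hζ0 z hcon)
    have hζd : ∀ z, fderiv ℝ ζ z v = deriv A (c1 z) * B (c2 z) := by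
      intro z
      have h1 : HasFDerivAt (fun z => A (c1 z)) (deriv A (c1 z) • c1) z :=
        ((hA.differentiable (by simp)).differentiableAt.hasDerivAt.comp_hasFDerivAt z
          c1.hasFDerivAt)
      have h2 : HasFDerivAt (fun z => B (c2 z)) (deriv B (c2 z) • c2) z :=
        ((hBcd.differentiable (by simp)).differentiableAt.hasDerivAt.comp_hasFDerivAt z
          c2.hasFDerivAt)
      have h3 := (h1.mul h2).fderiv
      have h4 : fderiv ℝ ζ z = _ := h3
      rw [h4]
      simp [co.c1v, co.c2v, mul_comm]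
    have hDz := hD ζ hζcd hζcs hζt
    have hL : ∫ z, f z * fderiv ℝ ζ z v =
        ((φ i).normed volume ⋆[ContinuousLinearMap.lsmul ℝ ℝ, volume] g1) y0 := by
      rw [convolution_lsmul_swap]
      have h1 : (fun z => f z * fderiv ℝ ζ z v) = fun z => F1 z * B (c2 z) := by
        funext z
        rw [hζd]
        by_cases hz : z ∈ C
        · simp only [hF1, hf', indicator_of_mem hz]
          ring
        · have hz' := hz
          rw [← co.ec z, hmem, not_and_or] at hz'
          simp only [hF1, hf', indicator_of_notMem hz]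
          rcases hz' with h1 | h1
          · simp [hAd _ h1]
          · simp [hBz _ h1]
      rw [h1]
      obtain ⟨MB, hMB⟩ := (HasCompactSupport.intro isCompact_Icc hBz).exists_bound_of_continuous
        hBcd.continuous
      have h2 : Integrable (fun z => F1 z * B (c2 z)) :=
        hF1i.mul_bdd (c := MB) (hBcd.continuous.comp c2.continuous).aestronglyMeasurable
          (Eventually.of_forall fun z => hMB _)
      rw [co.integral h2]
      refine integral_congr_ae (Eventually.of_forall fun y => ?_)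
      simp only [co.c2e, smul_eq_mul]
      rw [integral_mul_const, mul_comm]
    have hR : ∫⁻ z, h z * ENNReal.ofReal |ζ z| = ENNReal.ofReal
        (((φ i).normed volume ⋆[ContinuousLinearMap.lsmul ℝ ℝ, volume] g2) y0) := by
      rw [convolution_lsmul_swap]
      have h1 : (fun z => h z * ENNReal.ofReal |ζ z|) =
          fun z => F2 z * ENNReal.ofReal (B (c2 z)) := by
        funext z
        by_cases hz : z ∈ C
        · simp only [hF2, hh', indicator_of_mem hz, hζ]
          rw [abs_mul, abs_of_nonneg (hB0 _), ENNReal.ofReal_mul (abs_nonneg _), mul_assoc]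
        · simp [hζ0 z hz, hF2, hh', indicator_of_notMem hz]
      rw [h1]
      have h2 : Measurable (fun z => F2 z * ENNReal.ofReal (B (c2 z))) :=
        hF2m.mul ((hBcd.continuous.comp c2.continuous).measurable.ennreal_ofReal)
      rw [co.lintegral h2]
      rw [ofReal_integral_eq_lintegral_ofReal]
      · refine lintegral_congr_ae ?_
        filter_upwards [hG2f] with y hy
        simp only [co.c2e, smul_eq_mul]
        have hm : Measurable (fun x => F2 (e x y)) := hF2m.comp (co.cont.measurable.comp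
          (measurable_id.prodMk measurable_const))
        rw [lintegral_mul_const _ hm, mul_comm, ENNReal.ofReal_mul ((φ i).nonneg_normed _), hg2, ENNReal.ofReal_toReal hy.ne]
      · obtain ⟨MB, hMB⟩ := (HasCompactSupport.intro isCompact_Icc hBz).exists_bound_of_continuous
          hBcd.continuous
        exact hg2i.bdd_mul (c := MB) hBcd.continuous.aestronglyMeasurable
          (Eventually.of_forall fun z => hMB _)
      · exact Eventually.of_forall fun y =>
          mul_nonneg ((φ i).nonneg_normed _) ENNReal.toReal_nonneg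
    rw [hL, hR] at hDz
    have hnn : 0 ≤ ((φ i).normed volume ⋆[ContinuousLinearMap.lsmul ℝ ℝ, volume] g2) y0 := by
      rw [convolution_lsmul_swap]
      exact integral_nonneg fun y => mul_nonneg ((φ i).nonneg_normed _) ENNReal.toReal_nonneg
    exact (ENNReal.ofReal_le_ofReal_iff hnn).1 hDz
  have hfin : |g1 y0| ≤ g2 y0 := le_of_tendsto_of_tendsto hy1.abs hy2 key
  have e1 : ∫ x, f (e x y0) * deriv A x = g1 y0 := by
    refine integral_congr_ae (Eventually.of_forall fun x => ?_)
    simp only [hF1, hf', co.c1e]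
    by_cases hx : x ∈ Icc p s
    · rw [indicator_of_mem ((hmem x y0).2 ⟨hx, Ioo_subset_Icc_self hy0⟩)]
    · simp [hAd x hx]
  have e2 : ∫⁻ x, h (e x y0) * ENNReal.ofReal |A x| = G2 y0 := by
    refine lintegral_congr fun x => ?_
    simp only [hF2, hh', co.c1e]
    by_cases hx : x ∈ Icc p s
    · rw [indicator_of_mem ((hmem x y0).2 ⟨hx, Ioo_subset_Icc_self hy0⟩)]
    · simp [hA0 x hx]
  rw [e1, e2]
  refine (ENNReal.ofReal_le_ofReal hfin).trans ?_
  rw [hg2]
  exact ENNReal.ofReal_toReal_le

theorem L1 (co : Co v e c1 c2) {U : Set ℂ} {f : ℂ → ℝ} {h : ℂ → ℝ≥0∞} (hU : IsOpen U)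
    (hf : ContinuousOn f U) (hh : Measurable h)
    (hloc : ∀ C : Set ℂ, C ⊆ U → IsCompact C → ∫⁻ z in C, h z < ⊤) (hD : DerivBound U v f h)
    {A : ℝ → ℝ} {p s : ℝ} (hA : ContDiff ℝ (⊤ : ℕ∞) A) (hA0 : ∀ x, x ∉ Icc p s → A x = 0) :
    ∀ᵐ y : ℝ, (∀ x ∈ Icc p s, e x y ∈ U) → ENNReal.ofReal |∫ x, f (e x y) * deriv A x| ≤
      ∫⁻ x, h (e x y) * ENNReal.ofReal |A x| := by
  have h1 : ∀ c d : ℚ, ∀ᵐ y : ℝ, (∀ x ∈ Icc p s, ∀ y ∈ Icc (c : ℝ) d, e x y ∈ U) →
      y ∈ Ioo (c : ℝ) d → ENNReal.ofReal |∫ x, f (e x y) * deriv A x| ≤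
      ∫⁻ x, h (e x y) * ENNReal.ofReal |A x| := by
    intro c d
    by_cases hK : ∀ x ∈ Icc p s, ∀ y ∈ Icc (c : ℝ) d, e x y ∈ U
    · filter_upwards [L2 co hf hh hloc hD hA hA0 hK] with y hy _ hy'
      exact hy hy'
    · exact Eventually.of_forall fun y hy => absurd hy hK
  have h2 := ae_all_iff.2 fun c => ae_all_iff.2 fun d => h1 c d
  filter_upwards [h2] with y hy hseg
  have hopen : IsOpen ((fun p : ℝ × ℝ => e p.1 p.2) ⁻¹' U) := hU.preimage co.cont
  obtain ⟨u, w, -, hw, hu1, hw1, huw⟩ := generalized_tube_lemma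
    (isCompact_Icc (a := p) (b := s)) (isCompact_singleton (x := y)) hopen (by
      rintro ⟨x, y'⟩ ⟨hx, hy'⟩
      simp only [mem_singleton_iff] at hy'
      subst hy'
      exact hseg x hx)
  obtain ⟨η, hη, hball⟩ := Metric.isOpen_iff.1 hw y (hw1 rfl)
  obtain ⟨c, hc1, hc2⟩ := exists_rat_btwn (show y - η < y by linarith)
  obtain ⟨d, hd1, hd2⟩ := exists_rat_btwn (show y < y + η by linarith)
  refine hy c d (fun x hx y' hy' => ?_) ⟨hc2, hd1⟩
  refine huw (a := (x, y')) ⟨hu1 hx, hball ?_⟩
  rw [mem_ball, Real.dist_eq, abs_lt]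
  constructor <;> linarith [hy'.1, hy'.2]

theorem L0 (co : Co v e c1 c2) {U : Set ℂ} {f : ℂ → ℝ} {h : ℂ → ℝ≥0∞} (hU : IsOpen U)
    (hf : ContinuousOn f U) (hh : Measurable h)
    (hloc : ∀ C : Set ℂ, C ⊆ U → IsCompact C → ∫⁻ z in C, h z < ⊤) (hD : DerivBound U v f h) :
    ∀ᵐ y : ℝ, ∀ a b : ℝ, a ≤ b → (∀ t ∈ Icc a b, e t y ∈ U) →
      ENNReal.ofReal |f (e b y) - f (e a y)| ≤ ∫⁻ t in Icc a b, h (e t y) := by
  have h1 : ∀ p q r s : ℚ, ∀ᵐ y : ℝ, (p : ℝ) < q → (q : ℝ) < r → (r : ℝ) < s →
      (∀ x ∈ Icc (p : ℝ) s, e x y ∈ U) →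
      ENNReal.ofReal |∫ x, f (e x y) * deriv (cut p q r s) x| ≤
      ∫⁻ x, h (e x y) * ENNReal.ofReal |cut p q r s x| := by
    intro p q r s
    by_cases hpq : (p : ℝ) < q
    · by_cases hrs : (r : ℝ) < s
      · have hA0 : ∀ x, x ∉ Icc (p : ℝ) s → cut p q r s x = 0 := by
          intro x hx
          rw [mem_Icc, not_and_or, not_le, not_le] at hx
          rcases hx with h | h
          · exact cut_left hpq h.le
          · exact cut_right hrs h.le
        filter_upwards [L1 co hU hf hh hloc hD (cut_contDiff p q r s) hA0] with y hy _ _ _ h3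
        exact hy h3
      · exact Eventually.of_forall fun y _ _ h3 => absurd h3 hrs
    · exact Eventually.of_forall fun y h3 => absurd h3 hpq
  have h2 := ae_all_iff.2 fun p => ae_all_iff.2 fun q => ae_all_iff.2 fun r =>
    ae_all_iff.2 fun s => h1 p q r s
  filter_upwards [h2] with y hy a b hab hseg
  have hec : Continuous (fun t : ℝ => e t y) :=
    co.cont.comp (continuous_id.prodMk continuous_const)
  refine oneD (F := fun x => f (e x y)) hab (hf.comp hec.continuousOn hseg) ?_
  intro p q r s hap hpq hqr hrs hsb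
  refine (hy p q r s hpq hqr hrs fun x hx => hseg x ⟨hap.le.trans hx.1, hx.2.trans hsb.le⟩).trans
    ?_
  rw [← lintegral_indicator measurableSet_Icc]
  refine lintegral_mono fun x => ?_
  by_cases hx : x ∈ Icc a b
  · rw [indicator_of_mem hx]
    calc h (e x y) * ENNReal.ofReal |cut p q r s x| ≤ h (e x y) * 1 := by
          refine mul_le_mul_right ?_ _
          rw [abs_of_nonneg (cut_nonneg _ _ _ _ _)]
          exact ENNReal.ofReal_le_one.2 (cut_le_one _ _ _ _ _)
      _ = h (e x y) := mul_one _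
  · have h0 : cut p q r s x = 0 := by
      rw [mem_Icc, not_and_or, not_le, not_le] at hx
      rcases hx with h | h
      · exact cut_left hpq (by linarith)
      · exact cut_right hrs (by linarith)
    simp [h0]

theorem co1 : Co 1 (fun x y => (⟨x, y⟩ : ℂ)) Complex.reCLM Complex.imCLM where
  c1e _ _ := rfl
  c2e _ _ := rfl
  ec _ := rfl
  c1v := rfl
  c2v := rfl
  cont := Complex.equivRealProdCLM.symm.continuous
  mp := Complex.volume_preserving_equiv_real_prod.symm

theorem co2 : Co Complex.I (fun y x => (⟨x, y⟩ : ℂ)) Complex.imCLM Complex.reCLM where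
  c1e _ _ := rfl
  c2e _ _ := rfl
  ec _ := rfl
  c1v := by simp
  c2v := by simp
  cont := Complex.equivRealProdCLM.symm.continuous.comp continuous_swap
  mp := Complex.volume_preserving_equiv_real_prod.symm.comp Measure.measurePreserving_swap

end ENA_

open ENA_ in
theorem ena_proof : Stmt_ENA := by
  intro U f h hU hf hh hloc
  exact ⟨fun hD => L0 co1 hU hf hh hloc hD, fun hD => L0 co2 hU hf hh hloc hD⟩

end Pool.Agent.DMB
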