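import Pool.Agent.DMB.Api

/-!
Squad DMB (MP_71cfa6_an), module ENB: a bound along lines gives a bound of the distributional
derivative.
-/

namespace Pool.Agent.DMB

open MeasureTheory Set Metric Filter Topology
open scoped ENNReal NNReal

namespace ENB_

/-- the translated test function has its support in the thickening -/
lemma mem_C {K : Set ℂ} {δ τ s : ℝ} {e w : ℂ} (he : ‖e‖ ≤ 1) (hs0 : 0 ≤ s) (hsτ : s ≤ τ)
    (hτ : τ ≤ δ) (hw : w ∈ K) : w + s • e ∈ cthickening δ K := by
  refine mem_cthickening_of_dist_le (w + s • e) w δ K hw ?_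
  rw [dist_eq_norm, add_sub_cancel_left, norm_smul, Real.norm_of_nonneg hs0]
  have h1 : s * ‖e‖ ≤ s * 1 := mul_le_mul_of_nonneg_left he hs0
  linarith

theorem core (U : Set ℂ) (f : ℂ → ℝ) (h : ℂ → ℝ≥0∞) (hU : IsOpen U) (hf : ContinuousOn f U)
    (hh : Measurable h) (hloc : ∀ C : Set ℂ, C ⊆ U → IsCompact C → ∫⁻ z in C, h z < ⊤)
    (e : ℂ) (he : ‖e‖ ≤ 1)
    (hP : ∀ᵐ z : ℂ, ∀ τ : ℝ, 0 ≤ τ → (∀ s ∈ Icc (0 : ℝ) τ, z + s • e ∈ U) →
      ENNReal.ofReal |f (z + τ • e) - f z| ≤ ∫⁻ s in Icc (0 : ℝ) τ, h (z + s • e)) :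
    DerivBound U e f h := by
  intro ζ hζ hcs hsub
  have hK : IsCompact (tsupport ζ) := hcs
  obtain ⟨δ, hδ, hCU⟩ := hK.exists_cthickening_subset_open hU hsub
  set C : Set ℂ := cthickening δ (tsupport ζ) with hCdef
  have hCc : IsCompact C := hK.cthickening
  have hCm : MeasurableSet C := hCc.measurableSet
  have hKC : tsupport ζ ⊆ C := self_subset_cthickening _
  -- the bounded function `F`
  have hfC : ContinuousOn f C := hf.mono hCU
  obtain ⟨B, hB⟩ := hCc.exists_bound_of_continuousOn hfC
  set F : ℂ → ℝ := C.indicator f with hFdef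
  have hFint : Integrable F := by
    rw [hFdef, integrable_indicator_iff hCm]
    exact hfC.integrableOn_compact hCc
  have hFC : ∀ z ∈ C, F z = f z := fun z hz => indicator_of_mem hz f
  -- `ζ` is Lipschitz
  obtain ⟨L, hL⟩ := hζ.lipschitzWith_of_hasCompactSupport hcs (by simp)
  have hζc : Continuous ζ := hζ.continuous
  have hζ0 : ∀ z, z ∉ C → ζ z = 0 := fun z hz => image_eq_zero_of_notMem_tsupport
    fun h1 => hz (hKC h1)
  -- translated zero
  have hζs : ∀ (τ s : ℝ) (z : ℂ), 0 ≤ s → s ≤ τ → τ ≤ δ → z ∉ C → ζ (z - s • e) = 0 := by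
    intro τ s z h0 h1 h2 hz
    refine image_eq_zero_of_notMem_tsupport fun h3 => hz ?_
    have := mem_C he h0 h1 h2 h3
    rwa [sub_add_cancel] at this
  obtain ⟨Bζ, hBζ⟩ := hcs.exists_bound_of_continuous hζc
  set H : ℝ≥0∞ := ∫⁻ z in C, h z with hH
  have hHtop : H ≠ ⊤ := (hloc C hCU hCc).ne
  set A : ℝ≥0∞ := ∫⁻ z, h z * ENNReal.ofReal |ζ z| with hA
  -- difference quotients
  set Q : ℝ → ℝ := fun τ => ∫ z, F z * ((ζ z - ζ (z - τ • e)) / τ) with hQ
  -- the bound for the difference quotients
  have hbound : ∀ τ : ℝ, 0 < τ → τ ≤ δ →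
      ENNReal.ofReal |Q τ| ≤ A + ENNReal.ofReal (L * τ) * H := by
    intro τ hτ hτδ
    have hi1 : Integrable (fun z => F z * ζ z) :=
      hFint.mul_bdd (c := Bζ) hζc.aestronglyMeasurable (Eventually.of_forall hBζ)
    have hi2 : Integrable (fun z => F z * ζ (z - τ • e)) :=
      hFint.mul_bdd (c := Bζ) (by fun_prop) (Eventually.of_forall fun z => hBζ _)
    have hi3 : Integrable (fun z => F (z + τ • e) * ζ z) := by
      have := hi2.comp_add_right (τ • e)
      simpa using this
    have e1 : Q τ = ∫ z, (F z - F (z + τ • e)) / τ * ζ z := by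
      have e2 : ∫ z, F z * ζ (z - τ • e) = ∫ z, F (z + τ • e) * ζ z := by
        have := integral_add_right_eq_self (μ := (volume : Measure ℂ))
          (fun z => F z * ζ (z - τ • e)) (τ • e)
        simp only [add_sub_cancel_right] at this
        exact this.symm
      have e3 : Q τ = (∫ z, F z * ζ z) / τ - (∫ z, F z * ζ (z - τ • e)) / τ := by
        rw [← integral_div, ← integral_div, ← integral_sub (hi1.div_const τ) (hi2.div_const τ)]
        refine integral_congr_ae (Eventually.of_forall fun z => ?_)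
        simp only
        ring
      rw [e3, e2, ← integral_div, ← integral_div,
        ← integral_sub (hi1.div_const τ) (hi3.div_const τ)]
      refine integral_congr_ae (Eventually.of_forall fun z => ?_)
      simp only
      ring
    have e4 : ENNReal.ofReal |Q τ| = ‖Q τ‖ₑ := by
      rw [Real.enorm_eq_ofReal_abs]
    rw [e4, e1]
    refine (enorm_integral_le_lintegral_enorm _).trans ?_
    -- pointwise bound
    have h1 : ∀ᵐ z : ℂ, ‖(F z - F (z + τ • e)) / τ * ζ z‖ₑ ≤
        ENNReal.ofReal (1 / τ) * ∫⁻ s in Icc (0 : ℝ) τ,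
          h (z + s • e) * ENNReal.ofReal |ζ z| := by
      filter_upwards [hP] with z hz
      by_cases hz0 : ζ z = 0
      · rw [hz0, mul_zero, enorm_zero]
        exact zero_le
      · have hzK : z ∈ tsupport ζ := subset_tsupport ζ hz0
        have hseg : ∀ s ∈ Icc (0 : ℝ) τ, z + s • e ∈ C := fun s hs =>
          mem_C he hs.1 hs.2 hτδ hzK
        have h2 := hz τ hτ.le fun s hs => hCU (hseg s hs)
        have h3 : F (z + τ • e) = f (z + τ • e) := hFC _ (hseg τ ⟨hτ.le, le_rfl⟩)
        have h4 : F z = f z := hFC z (hKC hzK)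
        rw [h3, h4, Real.enorm_eq_ofReal_abs, abs_mul, abs_div, abs_of_pos hτ,
          ENNReal.ofReal_mul (by positivity), div_eq_mul_one_div,
          ENNReal.ofReal_mul (abs_nonneg _), lintegral_mul_const _ (by fun_prop)]
        rw [abs_sub_comm]
        calc ENNReal.ofReal |f (z + τ • e) - f z| * ENNReal.ofReal (1 / τ) *
              ENNReal.ofReal |ζ z|
            ≤ (∫⁻ s in Icc (0 : ℝ) τ, h (z + s • e)) * ENNReal.ofReal (1 / τ) *
              ENNReal.ofReal |ζ z| := by gcongr
          _ = _ := by ring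
    refine (lintegral_mono_ae h1).trans ?_
    rw [lintegral_const_mul' _ _ ENNReal.ofReal_ne_top]
    have hmeas : Measurable (Function.uncurry fun (z : ℂ) (s : ℝ) =>
        h (z + s • e) * ENNReal.ofReal |ζ z|) := by
      have : Continuous fun p : ℂ × ℝ => p.1 + p.2 • e := by fun_prop
      have h5 : Measurable fun p : ℂ × ℝ => h (p.1 + p.2 • e) := hh.comp this.measurable
      have h6 : Measurable fun p : ℂ × ℝ => ENNReal.ofReal |ζ p.1| := by
        have : Measurable fun p : ℂ × ℝ => |ζ p.1| :=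
          (hζc.comp continuous_fst).abs.measurable
        exact this.ennreal_ofReal
      exact h5.mul h6
    rw [lintegral_lintegral_swap hmeas.aemeasurable]
    -- the inner integral
    have h7 : ∀ s ∈ Icc (0 : ℝ) τ, ∫⁻ z, h (z + s • e) * ENNReal.ofReal |ζ z| ≤
        A + ENNReal.ofReal (L * τ) * H := by
      intro s hs
      have e5 : ∫⁻ z, h (z + s • e) * ENNReal.ofReal |ζ z| =
          ∫⁻ w, h w * ENNReal.ofReal |ζ (w - s • e)| := by
        have := lintegral_add_right_eq_self (μ := (volume : Measure ℂ))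
          (fun w => h w * ENNReal.ofReal |ζ (w - s • e)|) (s • e)
        simp only [add_sub_cancel_right] at this
        exact this
      rw [e5, hA, hH, ← lintegral_indicator hCm,
        ← lintegral_const_mul' _ _ ENNReal.ofReal_ne_top,
        ← lintegral_add_left (by fun_prop)]
      refine lintegral_mono fun w => ?_
      by_cases hw : w ∈ C
      · rw [indicator_of_mem hw, mul_comm (ENNReal.ofReal (L * τ)), ← mul_add,
          ← ENNReal.ofReal_add (abs_nonneg _) (by positivity)]
        gcongr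
        have h8 := hL.dist_le_mul (w - s • e) w
        rw [Real.dist_eq, dist_eq_norm] at h8
        have h9 : ‖w - s • e - w‖ ≤ τ := by
          rw [sub_sub_cancel_left, norm_neg, norm_smul, Real.norm_of_nonneg hs.1]
          have : s * ‖e‖ ≤ s * 1 := mul_le_mul_of_nonneg_left he hs.1
          linarith [hs.2]
        have h10 : |ζ (w - s • e)| - |ζ w| ≤ |ζ (w - s • e) - ζ w| := abs_sub_abs_le_abs_sub _ _
        have h11 : (L : ℝ) * ‖w - s • e - w‖ ≤ L * τ := by gcongr
        linarith
      · rw [hζs τ s w hs.1 hs.2 hτδ hw, abs_zero, ENNReal.ofReal_zero, mul_zero]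
        exact zero_le
    calc ENNReal.ofReal (1 / τ) * ∫⁻ s in Icc (0 : ℝ) τ,
          ∫⁻ z, h (z + s • e) * ENNReal.ofReal |ζ z|
        ≤ ENNReal.ofReal (1 / τ) * ∫⁻ _s in Icc (0 : ℝ) τ, (A + ENNReal.ofReal (L * τ) * H) := by
          exact mul_le_mul_right (setLIntegral_mono' measurableSet_Icc h7) _
      _ = A + ENNReal.ofReal (L * τ) * H := by
          rw [setLIntegral_const, Real.volume_Icc, sub_zero, mul_comm _ (ENNReal.ofReal τ),
            ← mul_assoc, ← ENNReal.ofReal_mul (by positivity), one_div_mul_cancel hτ.ne',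
            ENNReal.ofReal_one, one_mul]
  -- the limit of the difference quotients
  have hlim : Tendsto Q (𝓝[>] 0) (𝓝 (∫ z, F z * fderiv ℝ ζ z e)) := by
    refine tendsto_integral_filter_of_dominated_convergence (fun z => ‖F z‖ * L) ?_ ?_ ?_ ?_
    · refine Eventually.of_forall fun τ => ?_
      have : Continuous fun z => (ζ z - ζ (z - τ • e)) / τ := by fun_prop
      exact hFint.aestronglyMeasurable.mul this.aestronglyMeasurable
    · filter_upwards [self_mem_nhdsWithin] with τ hτ
      have hτ0 : (0 : ℝ) < τ := hτ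
      refine Eventually.of_forall fun z => ?_
      rw [norm_mul]
      refine mul_le_mul_of_nonneg_left ?_ (norm_nonneg _)
      rw [norm_div, Real.norm_of_nonneg hτ0.le, div_le_iff₀ hτ0]
      have h8 := hL.dist_le_mul z (z - τ • e)
      rw [dist_eq_norm, dist_eq_norm, sub_sub_cancel, norm_smul, Real.norm_of_nonneg hτ0.le] at h8
      refine h8.trans ?_
      have : τ * ‖e‖ ≤ τ * 1 := mul_le_mul_of_nonneg_left he hτ0.le
      calc (L : ℝ) * (τ * ‖e‖) ≤ L * (τ * 1) := mul_le_mul_of_nonneg_left this L.2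
        _ = L * τ := by ring
    · exact hFint.norm.mul_const _
    · refine Eventually.of_forall fun z => ?_
      refine Tendsto.const_mul _ ?_
      have hd : HasFDerivAt ζ (fderiv ℝ ζ z) z :=
        ((hζ.differentiable (by simp)) z).hasFDerivAt
      have hd' : HasDerivAt (fun t : ℝ => ζ (z - t • e)) (-(fderiv ℝ ζ z e)) 0 := by
        have h12 : HasDerivAt (fun t : ℝ => z - t • e) (-e) 0 := by
          have := ((hasDerivAt_id (0 : ℝ)).smul_const e).const_sub z
          simpa using this
        have h13 : HasFDerivAt ζ (fderiv ℝ ζ z) (z - (0 : ℝ) • e) := by simpa using hd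
        have h18 : HasDerivAt (ζ ∘ fun t : ℝ => z - t • e) (fderiv ℝ ζ z (-e)) 0 :=
          h13.comp_hasDerivAt (0 : ℝ) h12
        rw [map_neg] at h18
        exact h18
      have h14 := hd'.tendsto_slope_zero_right
      simp only [zero_add, zero_smul, sub_zero, smul_eq_mul] at h14
      have h15 := h14.neg
      rw [neg_neg] at h15
      refine h15.congr fun τ => ?_
      ring
  have hgoal : ∫ z, f z * fderiv ℝ ζ z e = ∫ z, F z * fderiv ℝ ζ z e := by
    refine integral_congr_ae (Eventually.of_forall fun z => ?_)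
    simp only
    by_cases hz : z ∈ C
    · rw [hFC z hz]
    · have : fderiv ℝ ζ z = 0 := by
        refine image_eq_zero_of_notMem_tsupport fun h1 => hz (hKC ?_)
        exact (tsupport_fderiv_subset ℝ) h1
      rw [this]
      simp
  rw [hgoal]
  have hlim2 : Tendsto (fun τ => ENNReal.ofReal |Q τ|) (𝓝[>] 0)
      (𝓝 (ENNReal.ofReal |∫ z, F z * fderiv ℝ ζ z e|)) :=
    (ENNReal.continuous_ofReal.tendsto _).comp hlim.abs
  have hlim3 : Tendsto (fun τ : ℝ => A + ENNReal.ofReal (L * τ) * H) (𝓝[>] 0) (𝓝 (A + 0)) := by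
    refine tendsto_const_nhds.add ?_
    have h16 : Tendsto (fun τ : ℝ => ENNReal.ofReal (L * τ)) (𝓝[>] 0) (𝓝 0) := by
      have : Tendsto (fun τ : ℝ => ENNReal.ofReal (L * τ)) (𝓝 0)
          (𝓝 (ENNReal.ofReal (L * 0))) :=
        (ENNReal.continuous_ofReal.comp (continuous_const.mul continuous_id)).tendsto 0
      rw [mul_zero, ENNReal.ofReal_zero] at this
      exact this.mono_left nhdsWithin_le_nhds
    have h17 := ENNReal.Tendsto.mul_const (b := H) h16 (Or.inr hHtop)
    rwa [zero_mul] at h17
  rw [add_zero] at hlim3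
  refine le_of_tendsto_of_tendsto hlim2 hlim3 ?_
  filter_upwards [Ioc_mem_nhdsGT hδ] with τ hτ
  exact hbound τ hτ.1 hτ.2

lemma ae_im {p : ℝ → Prop} (h : ∀ᵐ y : ℝ, p y) : ∀ᵐ z : ℂ, p z.im := by
  have h1 : Measure.QuasiMeasurePreserving Complex.im (volume : Measure ℂ) volume := by
    have h2 := Complex.volume_preserving_equiv_real_prod.quasiMeasurePreserving
    have h3 : Measure.QuasiMeasurePreserving (Prod.snd : ℝ × ℝ → ℝ) volume volume :=
      Measure.quasiMeasurePreserving_snd
    exact h3.comp h2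
  exact h1.ae h

lemma ae_re {p : ℝ → Prop} (h : ∀ᵐ y : ℝ, p y) : ∀ᵐ z : ℂ, p z.re := by
  have h1 : Measure.QuasiMeasurePreserving Complex.re (volume : Measure ℂ) volume := by
    have h2 := Complex.volume_preserving_equiv_real_prod.quasiMeasurePreserving
    have h3 : Measure.QuasiMeasurePreserving (Prod.fst : ℝ × ℝ → ℝ) volume volume :=
      Measure.quasiMeasurePreserving_fst
    exact h3.comp h2
  exact h1.ae h

lemma shift (g : ℝ → ℝ≥0∞) (x τ : ℝ) :
    ∫⁻ t in Icc x (x + τ), g t = ∫⁻ s in Icc (0 : ℝ) τ, g (x + s) := by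
  rw [← lintegral_indicator measurableSet_Icc, ← lintegral_indicator measurableSet_Icc,
    ← lintegral_add_left_eq_self _ x]
  refine lintegral_congr fun s => ?_
  by_cases hs : s ∈ Icc (0 : ℝ) τ
  · rw [indicator_of_mem hs, indicator_of_mem]
    exact ⟨by linarith [hs.1], by linarith [hs.2]⟩
  · rw [indicator_of_notMem hs, indicator_of_notMem]
    exact fun h => hs ⟨by linarith [h.1], by linarith [h.2]⟩

end ENB_

open ENB_ in
theorem enb_proof : Stmt_ENB := by
  intro U f h hU hf hh hloc
  constructor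
  · intro hl
    refine core U f h hU hf hh hloc 1 (by simp) ?_
    filter_upwards [ae_im hl] with z hz τ hτ hseg
    have e1 : ∀ s : ℝ, z + s • (1 : ℂ) = ⟨z.re + s, z.im⟩ := by
      intro s
      apply Complex.ext <;> simp
    have h1 := hz z.re (z.re + τ) (by linarith) (by
      intro t ht
      have := hseg (t - z.re) ⟨by linarith [ht.1], by linarith [ht.2]⟩
      rw [e1] at this
      simpa using this)
    rw [shift (fun t => h ⟨t, z.im⟩)] at h1
    simp only [e1]
    simpa using h1
  · intro hl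
    refine core U f h hU hf hh hloc Complex.I (by simp) ?_
    filter_upwards [ae_re hl] with z hz τ hτ hseg
    have e1 : ∀ s : ℝ, z + s • Complex.I = ⟨z.re, z.im + s⟩ := by
      intro s
      apply Complex.ext <;> simp
    have h1 := hz z.im (z.im + τ) (by linarith) (by
      intro t ht
      have := hseg (t - z.im) ⟨by linarith [ht.1], by linarith [ht.2]⟩
      rw [e1] at this
      simpa using this)
    rw [shift (fun t => h ⟨z.re, t⟩)] at h1
    simp only [e1]
    simpa using h1

end Pool.Agent.DMB
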