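import Pool.Agent.DMB.Api

/-!
Squad DMB, module ENC: the energy of Almgren's definition is the energy of the sorted matrix.
-/

set_option autoImplicit false

namespace Pool.Agent.DMB

open MeasureTheory Set Metric Filter Topology
open scoped ENNReal

namespace ENC_

theorem ae_lines {p : ℂ → Prop} (h : ∀ᵐ z : ℂ, p z) :
    (∀ᵐ y : ℝ, ∀ᵐ t : ℝ, p ⟨t, y⟩) ∧ (∀ᵐ x : ℝ, ∀ᵐ t : ℝ, p ⟨x, t⟩) := by
  have h1 : ∀ᵐ w : ℝ × ℝ, p (Complex.measurableEquivRealProd.symm w) :=
    (Complex.volume_preserving_equiv_real_prod.symm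
      Complex.measurableEquivRealProd).quasiMeasurePreserving.ae h
  have h2 : ∀ᵐ w : ℝ × ℝ ∂((volume : Measure ℝ).prod volume),
      p (Complex.measurableEquivRealProd.symm w) := h1
  have h3 : ∀ᵐ w : ℝ × ℝ ∂((volume : Measure ℝ).prod volume),
      p (Complex.measurableEquivRealProd.symm w.swap) := by
    have := (Measure.measurePreserving_swap (μ := (volume : Measure ℝ))
      (ν := (volume : Measure ℝ))).quasiMeasurePreserving.ae h2
    exact this
  refine ⟨?_, ?_⟩
  · have := Measure.ae_ae_of_ae_prod h3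
    filter_upwards [this] with y hy
    filter_upwards [hy] with t ht
    exact ht
  · have := Measure.ae_ae_of_ae_prod h2
    filter_upwards [this] with y hy
    filter_upwards [hy] with t ht
    exact ht

variable {K n : ℕ}

theorem sq_le_nsq (v : Mat K n) (i : Fin K) (l : Fin n) : v i l ^ 2 ≤ nsq v := by
  calc v i l ^ 2 ≤ ∑ l, v i l ^ 2 :=
        Finset.single_le_sum (f := fun l => v i l ^ 2) (fun _ _ => sq_nonneg _) (Finset.mem_univ l)
    _ ≤ nsq v := Finset.single_le_sum (f := fun i => ∑ l, v i l ^ 2)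
        (fun _ _ => Finset.sum_nonneg fun _ _ => sq_nonneg _) (Finset.mem_univ i)

theorem sqrt_nsq_le_sum (v : Mat K n) : Real.sqrt (nsq v) ≤ ∑ i, ∑ l, |v i l| := by
  apply Real.sqrt_le_iff.2
  have h0 : 0 ≤ ∑ i, ∑ l, |v i l| :=
    Finset.sum_nonneg fun _ _ => Finset.sum_nonneg fun _ _ => abs_nonneg _
  refine ⟨h0, ?_⟩
  have h1 : ∀ i l, |v i l| ≤ ∑ i, ∑ l, |v i l| := fun i l =>
    (Finset.single_le_sum (f := fun l => |v i l|) (fun _ _ => abs_nonneg _)
      (Finset.mem_univ l)).trans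
      (Finset.single_le_sum (f := fun i => ∑ l, |v i l|)
        (fun _ _ => Finset.sum_nonneg fun _ _ => abs_nonneg _) (Finset.mem_univ i))
  calc nsq v = ∑ i, ∑ l, |v i l| * |v i l| := by
        unfold nsq
        refine Finset.sum_congr rfl fun i _ => Finset.sum_congr rfl fun l _ => ?_
        rw [abs_mul_abs_self, sq]
    _ ≤ ∑ i, ∑ l, |v i l| * ∑ i, ∑ l, |v i l| := by
        refine Finset.sum_le_sum fun i _ => Finset.sum_le_sum fun l _ => ?_
        exact mul_le_mul_of_nonneg_left (h1 i l) (abs_nonneg _)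
    _ = (∑ i, ∑ l, |v i l|) ^ 2 := by
        rw [sq]
        simp only [← Finset.sum_mul]

theorem aesm_sqrt_nsq {μ : Measure ℝ} {T : ℝ → Mat K n}
    (h : ∀ i l, AEStronglyMeasurable (fun t => T t i l) μ) :
    AEStronglyMeasurable (fun t => Real.sqrt (nsq (T t))) μ := by
  have h1 : AEStronglyMeasurable (fun t => nsq (T t)) μ := by
    unfold nsq
    exact Finset.aestronglyMeasurable_fun_sum _ fun i _ =>
      Finset.aestronglyMeasurable_fun_sum _ fun l _ => (h i l).pow 2
  exact Real.continuous_sqrt.comp_aestronglyMeasurable h1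

theorem ii_sqrt_nsq {T : ℝ → Mat K n} {a b : ℝ}
    (h : ∀ i l, IntervalIntegrable (fun t => T t i l) volume a b) :
    IntervalIntegrable (fun t => Real.sqrt (nsq (T t))) volume a b := by
  have h1 : IntervalIntegrable (fun t => ∑ i, ∑ l, |T t i l|) volume a b := by
    have := IntervalIntegrable.sum (Finset.univ : Finset (Fin K))
      (f := fun i t => ∑ l, |T t i l|) fun i _ => by
        have := IntervalIntegrable.sum (Finset.univ : Finset (Fin n))
          (f := fun l t => |T t i l|) fun l _ => (h i l).abs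
        refine this.congr ?_
        exact fun t _ => by simp
    refine this.congr ?_
    exact fun t _ => by simp
  refine h1.mono_fun ?_ ?_
  · exact aesm_sqrt_nsq fun i l => (h i l).def'.aestronglyMeasurable
  · refine Eventually.of_forall fun t => ?_
    change ‖Real.sqrt (nsq (T t))‖ ≤ ‖∑ i, ∑ l, |T t i l|‖
    rw [Real.norm_of_nonneg (Real.sqrt_nonneg _)]
    exact (sqrt_nsq_le_sum _).trans (le_abs_self _)

/-- the norm of an integral -/
theorem norm_integral {T : ℝ → Mat K n} {v : Mat K n} {a b : ℝ} (hab : a ≤ b)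
    (h : ∀ i l, IntervalIntegrable (fun t => T t i l) volume a b)
    (hv : ∀ i l, v i l = ∫ t in a..b, T t i l) :
    Real.sqrt (nsq v) ≤ ∫ t in a..b, Real.sqrt (nsq (T t)) := by
  have hS := ii_sqrt_nsq h
  have h0 : 0 ≤ ∫ t in a..b, Real.sqrt (nsq (T t)) :=
    intervalIntegral.integral_nonneg hab fun _ _ => Real.sqrt_nonneg _
  have h1 : nsq v = ∫ t in a..b, dt v (T t) := by
    unfold nsq dt
    rw [intervalIntegral.integral_finsetSum]
    · refine Finset.sum_congr rfl fun i _ => ?_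
      rw [intervalIntegral.integral_finsetSum]
      · refine Finset.sum_congr rfl fun l _ => ?_
        rw [intervalIntegral.integral_const_mul, ← hv i l, sq]
      · exact fun l _ => (h i l).const_mul _
    · intro i _
      have := IntervalIntegrable.sum (Finset.univ : Finset (Fin n))
        (f := fun l t => v i l * T t i l) fun l _ => (h i l).const_mul _
      refine this.congr ?_
      exact fun t _ => by simp
  have h1i : IntervalIntegrable (fun t => dt v (T t)) volume a b := by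
    unfold dt
    have := IntervalIntegrable.sum (Finset.univ : Finset (Fin K))
      (f := fun i t => ∑ l, v i l * T t i l) fun i _ => by
        have := IntervalIntegrable.sum (Finset.univ : Finset (Fin n))
          (f := fun l t => v i l * T t i l) fun l _ => (h i l).const_mul _
        refine this.congr ?_
        exact fun t _ => by simp
    refine this.congr ?_
    exact fun t _ => by simp
  have h2 : nsq v ≤ Real.sqrt (nsq v) * ∫ t in a..b, Real.sqrt (nsq (T t)) := by
    calc nsq v = ∫ t in a..b, dt v (T t) := h1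
      _ ≤ ∫ t in a..b, Real.sqrt (nsq v) * Real.sqrt (nsq (T t)) := by
          refine intervalIntegral.integral_mono_on hab h1i (hS.const_mul _) fun t _ => ?_
          exact (le_abs_self _).trans (abs_dt_le _ _)
      _ = _ := intervalIntegral.integral_const_mul _ _
  rcases (Real.sqrt_nonneg (nsq v)).eq_or_lt with h3 | h3
  · rw [← h3]; exact h0
  · have h4 : Real.sqrt (nsq v) * Real.sqrt (nsq v) ≤
        Real.sqrt (nsq v) * ∫ t in a..b, Real.sqrt (nsq (T t)) := by
      rw [Real.mul_self_sqrt (nsq_nonneg v)]; exact h2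
    exact le_of_mul_le_mul_left h4 h3

theorem dG_sub_le (hMET : Stmt_MET) (a b c : Tup K n) : |dG a c - dG b c| ≤ dG a b := by
  have t1 := (hMET K n a b c).2.2.1
  have t2 := (hMET K n b a c).2.2.1
  have t3 := (hMET K n a b c).2.1
  rw [abs_le]
  constructor <;> linarith

theorem le_one_add_sq (x : ℝ≥0∞) : x ≤ 1 + x ^ 2 := by
  rcases le_total x 1 with h | h
  · exact h.trans le_self_add
  · calc x = x * 1 := (mul_one x).symm
      _ ≤ x * x := by gcongr
      _ = x ^ 2 := (sq x).symm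
      _ ≤ 1 + x ^ 2 := le_add_self

/-- the direction `energy ≤ en` on lines -/
theorem dirLE (hCOU : Stmt_COU) {U : Set ℂ} {u : ℂ → Tup K n}
    (cu : ContG U u) (γ : ℝ → ℝ → ℂ) (hγc : ∀ y, Continuous (γ y))
    (hγ : ∀ p : ℂ → Prop, (∀ᵐ z : ℂ, p z) → ∀ᵐ y : ℝ, ∀ᵐ t : ℝ, p (γ y t))
    {X X' : ℂ → Mat K n} (hX' : ∀ᵐ z : ℂ, z ∈ U → X' z = X z)
    (hl : ∀ i l, ∀ᵐ y : ℝ, ∀ a b : ℝ, a ≤ b → (∀ t ∈ Icc a b, γ y t ∈ U) →
      IntervalIntegrable (fun t : ℝ => X (γ y t) i l) volume a b ∧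
      xi (u (γ y b)) i l - xi (u (γ y a)) i l = ∫ t in a..b, X (γ y t) i l) :
    ∀ᵐ y : ℝ, ∀ a b : ℝ, a ≤ b → (∀ t ∈ Icc a b, γ y t ∈ U) →
      ENNReal.ofReal (dG (u (γ y a)) (u (γ y b))) ≤
        ∫⁻ t in Icc a b, U.indicator (fun z => ENNReal.ofReal (Real.sqrt (nsq (X' z)))) (γ y t) := by
  have hl' : ∀ᵐ y : ℝ, ∀ i l, ∀ a b : ℝ, a ≤ b → (∀ t ∈ Icc a b, γ y t ∈ U) →
      IntervalIntegrable (fun t : ℝ => X (γ y t) i l) volume a b ∧
      xi (u (γ y b)) i l - xi (u (γ y a)) i l = ∫ t in a..b, X (γ y t) i l := by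
    rw [eventually_all]
    intro i
    rw [eventually_all]
    exact fun l => hl i l
  filter_upwards [hl', hγ _ hX'] with y hy hy2 a b hab hseg
  have hii : IntervalIntegrable (fun t => Real.sqrt (nsq (X (γ y t)))) volume a b :=
    ii_sqrt_nsq fun i l => (hy i l a b hab hseg).1
  have h1 : dG (u (γ y a)) (u (γ y b)) ≤ ∫ t in a..b, Real.sqrt (nsq (X (γ y t))) := by
    refine hCOU K n (fun t => u (γ y t)) _ a b hab ?_ hii ?_
    · intro t ht
      have h := cu (γ y t) (hseg t ht)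
      have h2 : Tendsto (γ y) (𝓝[Icc a b] t) (𝓝[U] (γ y t)) := by
        refine tendsto_nhdsWithin_of_tendsto_nhds_of_eventually_within _
          ((hγc y).continuousAt.mono_left nhdsWithin_le_nhds) ?_
        filter_upwards [self_mem_nhdsWithin] with s hs
        exact hseg s hs
      exact h.comp h2
    · intro s hs t ht hst
      have hseg' : ∀ x ∈ Icc s t, γ y x ∈ U := fun x hx =>
        hseg x ⟨hs.1.trans hx.1, hx.2.trans ht.2⟩
      refine norm_integral hst (fun i l => (hy i l s t hst hseg').1) fun i l => ?_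
      exact (hy i l s t hst hseg').2
  have h2 : ENNReal.ofReal (∫ t in a..b, Real.sqrt (nsq (X (γ y t)))) =
      ∫⁻ t in Icc a b, ENNReal.ofReal (Real.sqrt (nsq (X (γ y t)))) := by
    rw [intervalIntegral.integral_of_le hab, ofReal_integral_eq_lintegral_ofReal,
      restrict_Ioc_eq_restrict_Icc]
    · exact (intervalIntegrable_iff_integrableOn_Ioc_of_le hab).1 hii
    · exact Eventually.of_forall fun t => Real.sqrt_nonneg _
  refine (ENNReal.ofReal_le_ofReal h1).trans ?_
  rw [h2]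
  refine le_of_eq (setLIntegral_congr_fun_ae measurableSet_Icc ?_)
  filter_upwards [hy2] with t ht htI
  rw [indicator_of_mem (hseg t htI), ht (hseg t htI)]

/-- the direction `en ≤ energy` on lines -/
theorem dirGE (hMET : Stmt_MET) (hXIL : Stmt_XIL) (hSYB : Stmt_SYB) {U : Set ℂ}
    {g : ℂ → AQ n K} {u : ℂ → Tup K n} (hug : ∀ z ∈ U, tup (u z) = g z) (γ : ℝ → ℝ → ℂ)
    {h : ℂ → ℝ≥0∞}
    (hb : ∀ T : AQ n K, ∀ᵐ y : ℝ, ∀ a b : ℝ, a ≤ b → (∀ t ∈ Icc a b, γ y t ∈ U) →
      ENNReal.ofReal |GG (g (γ y b)) T - GG (g (γ y a)) T| ≤ ∫⁻ t in Icc a b, h (γ y t)) :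
    ∀ᵐ y : ℝ, ∀ a b : ℝ, a ≤ b → (∀ t ∈ Icc a b, γ y t ∈ U) →
      ENNReal.ofReal (Real.sqrt (nsq (xi (u (γ y b)) - xi (u (γ y a))))) ≤
        ∫⁻ t in Icc a b, h (γ y t) := by
  obtain ⟨S, hSc, hSd⟩ := TopologicalSpace.exists_countable_dense (Tup K n)
  have hb' : ∀ᵐ y : ℝ, ∀ T ∈ S, ∀ a b : ℝ, a ≤ b → (∀ t ∈ Icc a b, γ y t ∈ U) →
      ENNReal.ofReal |GG (g (γ y b)) (tup T) - GG (g (γ y a)) (tup T)| ≤
        ∫⁻ t in Icc a b, h (γ y t) :=
    (ae_ball_iff hSc).2 fun T _ => hb (tup T)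
  filter_upwards [hb'] with y hy a b hab hseg
  have ha := hseg a (left_mem_Icc.2 hab)
  have hbb := hseg b (right_mem_Icc.2 hab)
  refine ENNReal.le_of_forall_pos_le_add fun ε hε _ => ?_
  have hcont : Continuous fun T : Tup K n => Real.sqrt (sqd (u (γ y a)) T) := by
    unfold sqd
    fun_prop
  have hopen : IsOpen {T : Tup K n | Real.sqrt (sqd (u (γ y a)) T) < ε / 2} :=
    isOpen_lt hcont continuous_const
  obtain ⟨T, hT2, hT1⟩ := hSd.exists_mem_open hopen ⟨u (γ y a), by simp [sqd, hε]⟩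
  have h1 := hy T hT2 a b hab hseg
  rw [← hug _ ha, ← hug _ hbb, ((hSYB n).1 K _ _).1, ((hSYB n).1 K _ _).1] at h1
  have h2 : dG (u (γ y a)) T < ε / 2 := by
    have := (hMET K n (u (γ y a)) T T).2.2.2.2.2.1 1
    exact lt_of_le_of_lt this hT1
  have h3 : Real.sqrt (nsq (xi (u (γ y b)) - xi (u (γ y a)))) ≤ dG (u (γ y b)) (u (γ y a)) := by
    refine Real.sqrt_le_iff.2 ⟨(hMET K n _ _ (u (γ y a))).1, (hXIL K n _ _).1⟩
  have h4 := (hMET K n (u (γ y b)) T (u (γ y a))).2.2.1
  have h5 := (hMET K n T (u (γ y a)) T).2.1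
  have h6 := le_abs_self (dG (u (γ y b)) T - dG (u (γ y a)) T)
  have h7 : Real.sqrt (nsq (xi (u (γ y b)) - xi (u (γ y a)))) ≤
      |dG (u (γ y b)) T - dG (u (γ y a)) T| + ε := by linarith
  calc ENNReal.ofReal (Real.sqrt (nsq (xi (u (γ y b)) - xi (u (γ y a)))))
      ≤ ENNReal.ofReal (|dG (u (γ y b)) T - dG (u (γ y a)) T| + ε) := ENNReal.ofReal_le_ofReal h7
    _ = ENNReal.ofReal (|dG (u (γ y b)) T - dG (u (γ y a)) T|) + ENNReal.ofReal ε :=
        ENNReal.ofReal_add (abs_nonneg _) (NNReal.coe_nonneg ε)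
    _ ≤ _ := by
        rw [ENNReal.ofReal_coe_nnreal]
        gcongr

theorem ofReal_sqrt_sq {a : ℝ} (ha : 0 ≤ a) :
    ENNReal.ofReal (Real.sqrt a) ^ 2 = ENNReal.ofReal a := by
  rw [← ENNReal.ofReal_pow (Real.sqrt_nonneg _), Real.sq_sqrt ha]

end ENC_

open ENC_ in
theorem enc_proof (hMET : Stmt_MET) (hXIL : Stmt_XIL) (hCOU : Stmt_COU) (hSYB : Stmt_SYB)
    (_hGAL : Stmt_GAL) (_hGUN : Stmt_GUN) (hGAB : Stmt_GAB) (hENA : Stmt_ENA) (hENB : Stmt_ENB)
    (_hEND : Stmt_END) : Stmt_ENC := by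
  intro n Q U g u hU hg hug
  have cu : ContG U u := by
    intro z hz
    refine (hg z hz).congr' ?_
    filter_upwards [self_mem_nhdsWithin] with w hw
    rw [← hug z hz, ← hug w hw, ((hSYB n).1 Q _ _).1]
  -- continuity of the functions `GG (g ·) T`
  have cT : ∀ T : AQ n Q, ContinuousOn (fun z => GG (g z) T) U := by
    intro T z hz
    obtain ⟨t, rfl⟩ := (hSYB n).2.1 Q T
    rw [ContinuousWithinAt, tendsto_iff_dist_tendsto_zero]
    refine tendsto_of_tendsto_of_tendsto_of_le_of_le' tendsto_const_nhds (cu z hz)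
      (Eventually.of_forall fun w => dist_nonneg) ?_
    filter_upwards [self_mem_nhdsWithin] with w hw
    rw [Real.dist_eq, ← hug z hz, ← hug w hw, ((hSYB n).1 Q _ _).1, ((hSYB n).1 Q _ _).1]
    exact dG_sub_le hMET _ _ _
  -- continuity of the sorted matrix
  have cxi : ∀ i l, ContinuousOn (fun z => xi (u z) i l) U := by
    intro i l z hz
    rw [ContinuousWithinAt, tendsto_iff_dist_tendsto_zero]
    refine tendsto_of_tendsto_of_tendsto_of_le_of_le' tendsto_const_nhds (cu z hz)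
      (Eventually.of_forall fun w => dist_nonneg) ?_
    filter_upwards with w
    rw [Real.dist_eq]
    refine abs_le_of_sq_le_sq ?_ (hMET Q n _ _ (u z)).1
    exact (sq_le_nsq (xi (u w) - xi (u z)) i l).trans (hXIL Q n _ _).1
  have line1 := fun (p : ℂ → Prop) (h : ∀ᵐ z : ℂ, p z) => (ae_lines h).1
  have line2 := fun (p : ℂ → Prop) (h : ∀ᵐ z : ℂ, p z) => (ae_lines h).2
  have cl1 : ∀ y : ℝ, Continuous (fun t : ℝ => (⟨t, y⟩ : ℂ)) := fun y => by
    have : (fun t : ℝ => (⟨t, y⟩ : ℂ)) = fun t : ℝ => (t : ℂ) + y * Complex.I := by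
      funext t; exact Complex.mk_eq_add_mul_I _ _
    rw [this]; fun_prop
  have cl2 : ∀ x : ℝ, Continuous (fun t : ℝ => (⟨x, t⟩ : ℂ)) := fun y => by
    have : (fun t : ℝ => (⟨y, t⟩ : ℂ)) = fun t : ℝ => (y : ℂ) + t * Complex.I := by
      funext t; exact Complex.mk_eq_add_mul_I _ _
    rw [this]; fun_prop
  refine le_antisymm ?_ ?_
  · -- `energy ≤ en`
    unfold en
    refine le_iInf fun X => le_iInf fun Y => le_iInf fun hXY => ?_
    let X' : ℂ → Mat Q n := fun z i l => (hXY i l).mx.mk _ z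
    let Y' : ℂ → Mat Q n := fun z i l => (hXY i l).my.mk _ z
    have mX : ∀ i l, Measurable (fun z => X' z i l) := fun i l =>
      (hXY i l).mx.stronglyMeasurable_mk.measurable
    have mY : ∀ i l, Measurable (fun z => Y' z i l) := fun i l =>
      (hXY i l).my.stronglyMeasurable_mk.measurable
    have eX : ∀ᵐ z : ℂ, z ∈ U → X' z = X z := by
      have : ∀ᵐ z : ℂ, ∀ i l, z ∈ U → X z i l = X' z i l := by
        rw [eventually_all]; intro i
        rw [eventually_all]; intro l
        exact (ae_restrict_iff' hU.measurableSet).1 (hXY i l).mx.ae_eq_mk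
      filter_upwards [this] with z hz hzU
      funext i l
      exact (hz i l hzU).symm
    have eY : ∀ᵐ z : ℂ, z ∈ U → Y' z = Y z := by
      have : ∀ᵐ z : ℂ, ∀ i l, z ∈ U → Y z i l = Y' z i l := by
        rw [eventually_all]; intro i
        rw [eventually_all]; intro l
        exact (ae_restrict_iff' hU.measurableSet).1 (hXY i l).my.ae_eq_mk
      filter_upwards [this] with z hz hzU
      funext i l
      exact (hz i l hzU).symm
    set h1 : ℂ → ℝ≥0∞ := U.indicator (fun z => ENNReal.ofReal (Real.sqrt (nsq (X' z)))) with hh1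
    set h2 : ℂ → ℝ≥0∞ := U.indicator (fun z => ENNReal.ofReal (Real.sqrt (nsq (Y' z)))) with hh2
    have mn : ∀ Z : ℂ → Mat Q n, (∀ i l, Measurable (fun z => Z z i l)) →
        Measurable (U.indicator (fun z => ENNReal.ofReal (Real.sqrt (nsq (Z z))))) := by
      intro Z hZ
      refine Measurable.indicator ?_ hU.measurableSet
      unfold nsq
      fun_prop
    have m1 : Measurable h1 := mn X' mX
    have m2 : Measurable h2 := mn Y' mY
    have hloc : ∀ C : Set ℂ, C ⊆ U → IsCompact C → IntegrableOn (ed X Y) C := by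
      intro C hC hc
      have e : ed X Y = fun z => ∑ i, ∑ l, (X z i l ^ 2 + Y z i l ^ 2) := by
        funext z
        simp only [ed, nsq, Finset.sum_add_distrib]
      rw [e]
      refine integrable_finsetSum _ fun i _ => integrable_finsetSum _ fun l _ => ?_
      exact (hXY i l).loc C hC hc
    have hfin : ∀ Z Z' : ℂ → Mat Q n, (∀ᵐ z : ℂ, z ∈ U → Z' z = Z z) →
        (∀ z, nsq (Z z) ≤ ed X Y z) → ∀ C : Set ℂ, C ⊆ U → IsCompact C →
        ∫⁻ z in C, U.indicator (fun z => ENNReal.ofReal (Real.sqrt (nsq (Z' z)))) z < ⊤ := by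
      intro Z Z' hZ hle C hC hc
      have hb : ∫⁻ z in C, U.indicator (fun z => ENNReal.ofReal (Real.sqrt (nsq (Z' z)))) z ≤
          ∫⁻ z in C, (1 + ENNReal.ofReal (ed X Y z)) := by
        refine setLIntegral_mono_ae' hc.measurableSet ?_
        filter_upwards [hZ] with z hz hzC
        rw [indicator_of_mem (hC hzC), hz (hC hzC)]
        refine (le_one_add_sq _).trans ?_
        rw [ofReal_sqrt_sq (nsq_nonneg _)]
        gcongr
        exact hle z
      refine hb.trans_lt ?_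
      rw [lintegral_add_left measurable_const]
      refine ENNReal.add_lt_top.2 ⟨?_, (hloc C hC hc).lintegral_lt_top⟩
      rw [setLIntegral_one]
      exact hc.measure_lt_top
    have f1 := hfin X X' eX fun z => by
      have := nsq_nonneg (Y z); unfold ed; linarith
    have f2 := hfin Y Y' eY fun z => by
      have := nsq_nonneg (X z); unfold ed; linarith
    have L1 := dirLE hCOU cu (fun y t => ⟨t, y⟩) cl1 line1 eX fun i l => (hXY i l).hor
    have L2 := dirLE hCOU cu (fun y t => ⟨y, t⟩) cl2 line2 eY fun i l => (hXY i l).ver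
    have hadm : Adm U g h1 h2 := by
      refine ⟨m1, m2, fun T => ⟨?_, ?_⟩⟩
      · refine (hENB U _ h1 hU (cT T) m1 f1).1 ?_
        unfold LBH
        filter_upwards [L1] with y hy a b hab hseg
        refine le_trans (ENNReal.ofReal_le_ofReal ?_) (hy a b hab hseg)
        obtain ⟨t, rfl⟩ := (hSYB n).2.1 Q T
        rw [← hug _ (hseg a (left_mem_Icc.2 hab)), ← hug _ (hseg b (right_mem_Icc.2 hab)),
          ((hSYB n).1 Q _ _).1, ((hSYB n).1 Q _ _).1, (hMET Q n (u ⟨a, y⟩) (u ⟨b, y⟩) t).2.1]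
        exact dG_sub_le hMET _ _ _
      · refine (hENB U _ h2 hU (cT T) m2 f2).2 ?_
        unfold LBV
        filter_upwards [L2] with y hy a b hab hseg
        refine le_trans (ENNReal.ofReal_le_ofReal ?_) (hy a b hab hseg)
        obtain ⟨t, rfl⟩ := (hSYB n).2.1 Q T
        rw [← hug _ (hseg a (left_mem_Icc.2 hab)), ← hug _ (hseg b (right_mem_Icc.2 hab)),
          ((hSYB n).1 Q _ _).1, ((hSYB n).1 Q _ _).1, (hMET Q n (u ⟨y, a⟩) (u ⟨y, b⟩) t).2.1]
        exact dG_sub_le hMET _ _ _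
    unfold energy
    refine (iInf₂_le (h1, h2) hadm).trans (le_of_eq ?_)
    refine setLIntegral_congr_fun_ae hU.measurableSet ?_
    filter_upwards [eX, eY] with z hz1 hz2 hzU
    simp only [hh1, hh2, indicator_of_mem hzU, hz1 hzU, hz2 hzU]
    rw [ofReal_sqrt_sq (nsq_nonneg _), ofReal_sqrt_sq (nsq_nonneg _), ed,
      ENNReal.ofReal_add (nsq_nonneg _) (nsq_nonneg _)]
  · -- `en ≤ energy`
    unfold energy
    refine le_iInf fun h => le_iInf fun hadm => ?_
    obtain ⟨h1, h2⟩ := h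
    obtain ⟨m1, m2, hT⟩ := hadm
    simp only at m1 m2 hT ⊢
    by_cases htop : ∫⁻ z in U, (h1 z ^ 2 + h2 z ^ 2) = ⊤
    · rw [htop]; exact le_top
    have hlt : ∫⁻ z in U, (h1 z ^ 2 + h2 z ^ 2) < ⊤ := lt_top_iff_ne_top.2 htop
    have hltC : ∀ C : Set ℂ, C ⊆ U → IsCompact C → ∫⁻ z in C, (h1 z ^ 2 + h2 z ^ 2) < ⊤ :=
      fun C hC _ => (lintegral_mono_set hC).trans_lt hlt
    have hfin : ∀ h : ℂ → ℝ≥0∞, (∀ z, h z ^ 2 ≤ h1 z ^ 2 + h2 z ^ 2) → ∀ C : Set ℂ, C ⊆ U →
        IsCompact C → ∫⁻ z in C, h z < ⊤ := by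
      intro h hh C hC hc
      have hb : ∫⁻ z in C, h z ≤ ∫⁻ z in C, (1 + (h1 z ^ 2 + h2 z ^ 2)) := by
        refine lintegral_mono fun z => (le_one_add_sq _).trans ?_
        gcongr
        exact hh z
      refine hb.trans_lt ?_
      rw [lintegral_add_left measurable_const]
      refine ENNReal.add_lt_top.2 ⟨?_, hltC C hC hc⟩
      rw [setLIntegral_one]
      exact hc.measure_lt_top
    have f1 := hfin h1 fun z => le_self_add
    have f2 := hfin h2 fun z => le_add_self
    have L1 := dirGE hMET hXIL hSYB hug (fun y t => (⟨t, y⟩ : ℂ)) (h := h1) fun T =>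
      (hENA U _ h1 hU (cT T) m1 f1).1 (hT T).1
    have L2 := dirGE hMET hXIL hSYB hug (fun y t => (⟨y, t⟩ : ℂ)) (h := h2) fun T =>
      (hENA U _ h2 hU (cT T) m2 f2).2 (hT T).2
    obtain ⟨X, Y, hXY, hle⟩ := hGAB Q n U (fun z => xi (u z)) h1 h2 hU cxi m1 m2 hltC L1 L2
    unfold en
    refine le_trans (iInf_le_of_le X (iInf_le_of_le Y (iInf_le_of_le hXY le_rfl))) ?_
    refine setLIntegral_mono_ae' hU.measurableSet ?_
    filter_upwards [hle] with z hz hzU
    rw [ed, ENNReal.ofReal_add (nsq_nonneg _) (nsq_nonneg _)]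
    exact add_le_add (hz hzU).1 (hz hzU).2

end Pool.Agent.DMB
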