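import Pool.Agent.DMB.Api

/-!
# Squad DMB (MP_71cfa6_an): module END
-/

set_option autoImplicit false

namespace Pool.Agent.DMB

open MeasureTheory Set Metric Filter Topology

open scoped ENNReal

namespace END_

variable {K n : ℕ}

theorem hasGrad_congr {U : Set ℂ} {f g fx fy : ℂ → ℝ} (h : HasGrad U f fx fy)
    (hfg : ∀ z ∈ U, g z = f z) : HasGrad U g fx fy := by
  refine ⟨h.cont.congr hfg, h.mx, h.my, h.loc, ?_, ?_⟩
  · filter_upwards [h.hor] with y hy a b hab hU
    obtain ⟨h1, h2⟩ := hy a b hab hU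
    refine ⟨h1, ?_⟩
    rw [hfg _ (hU b ⟨hab, le_rfl⟩), hfg _ (hU a ⟨le_rfl, hab⟩)]
    exact h2
  · filter_upwards [h.ver] with y hy a b hab hU
    obtain ⟨h1, h2⟩ := hy a b hab hU
    refine ⟨h1, ?_⟩
    rw [hfg _ (hU b ⟨hab, le_rfl⟩), hfg _ (hU a ⟨le_rfl, hab⟩)]
    exact h2

theorem hasGrad_empty (f fx fy : ℂ → ℝ) : HasGrad ∅ f fx fy := by
  refine ⟨continuousOn_empty _, ?_, ?_, ?_, ?_, ?_⟩
  · rw [Measure.restrict_empty]
    exact aestronglyMeasurable_zero_measure _
  · rw [Measure.restrict_empty]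
    exact aestronglyMeasurable_zero_measure _
  · intro C hC _
    rw [subset_empty_iff.1 hC]
    exact integrableOn_empty
  · refine Eventually.of_forall fun y a b hab h => ?_
    exact absurd (h a ⟨le_rfl, hab⟩) (notMem_empty _)
  · refine Eventually.of_forall fun y a b hab h => ?_
    exact absurd (h a ⟨le_rfl, hab⟩) (notMem_empty _)

theorem en_empty (u : ℂ → Tup K n) : en ∅ u = 0 := by
  unfold en
  refine le_antisymm ?_ (zero_le)
  refine iInf_le_of_le (fun _ => 0) (iInf_le_of_le (fun _ => 0) (iInf_le_of_le ?_ ?_))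
  · exact fun i l => hasGrad_empty _ _ _
  · rw [Measure.restrict_empty, lintegral_zero_measure]

theorem ed_nonneg (X Y : ℂ → Mat K n) (z : ℂ) : 0 ≤ ed X Y z :=
  add_nonneg (nsq_nonneg _) (nsq_nonneg _)

theorem ed_congr (hGUN : Stmt_GUN) {U : Set ℂ} (hU : IsOpen U) {s X Y X' Y' : ℂ → Mat K n}
    (h : HasGradV U s X Y) (h' : HasGradV U s X' Y') :
    ∫⁻ z in U, ENNReal.ofReal (ed X Y z) = ∫⁻ z in U, ENNReal.ofReal (ed X' Y' z) := by
  refine lintegral_congr_ae ?_
  have h1 : ∀ᵐ z ∂(volume.restrict U), ∀ i l, X z i l = X' z i l ∧ Y z i l = Y' z i l := by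
    rw [ae_all_iff]; intro i
    rw [ae_all_iff]; intro l
    obtain ⟨h2, h3⟩ := hGUN U _ _ _ _ _ hU (h i l) (h' i l)
    filter_upwards [h2, h3] with z h4 h5
    exact ⟨h4, h5⟩
  filter_upwards [h1] with z hz
  have h2 : X z = X' z := by
    funext i l
    exact (hz i l).1
  have h3 : Y z = Y' z := by
    funext i l
    exact (hz i l).2
  unfold ed
  rw [h2, h3]

theorem aesm_ed {U : Set ℂ} {s X Y : ℂ → Mat K n} (h : HasGradV U s X Y) :
    AEStronglyMeasurable (ed X Y) (volume.restrict U) := by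
  unfold ed nsq
  refine AEStronglyMeasurable.add ?_ ?_
  · refine Finset.aestronglyMeasurable_fun_sum _ fun i _ => ?_
    refine Finset.aestronglyMeasurable_fun_sum _ fun l _ => ?_
    exact (h i l).mx.pow 2
  · refine Finset.aestronglyMeasurable_fun_sum _ fun i _ => ?_
    refine Finset.aestronglyMeasurable_fun_sum _ fun l _ => ?_
    exact (h i l).my.pow 2

theorem en_eq (hGUN : Stmt_GUN) {U : Set ℂ} (hU : IsOpen U) (u : ℂ → Tup K n)
    {X Y : ℂ → Mat K n} (h : HasGradV U (fun z => xi (u z)) X Y) :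
    en U u = ∫⁻ z in U, ENNReal.ofReal (ed X Y z) := by
  unfold en
  refine le_antisymm ?_ ?_
  · exact iInf_le_of_le X (iInf_le_of_le Y (iInf_le_of_le h le_rfl))
  · refine le_iInf fun X' => le_iInf fun Y' => le_iInf fun h' => ?_
    exact (ed_congr hGUN hU h h').le

theorem en_congr {U : Set ℂ} {u v : ℂ → Tup K n} (h : ∀ z ∈ U, xi (u z) = xi (v z)) :
    en U u = en U v := by
  unfold en
  refine iInf_congr fun X => iInf_congr fun Y => ?_
  refine iInf_congr_Prop ?_ fun _ => rfl
  constructor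
  · intro h1 i l
    exact hasGrad_congr (h1 i l) fun z hz => by simp only [h z hz]
  · intro h1 i l
    exact hasGrad_congr (h1 i l) fun z hz => by simp only [h z hz]

end END_

open END_

theorem end_proof (hGUN : Stmt_GUN) (hXIL : Stmt_XIL) (hSYB : Stmt_SYB) : Stmt_END := by
  intro K n U u hU
  refine ⟨fun X Y h => en_eq hGUN hU u h, ?_, ?_⟩
  · intro h
    have h1 : ∃ X Y : ℂ → Mat K n, HasGradV U (fun z => xi (u z)) X Y := by
      by_contra hne
      have h2 : en U u = ⊤ := by
        unfold en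
        rw [iInf_eq_top]
        intro X
        rw [iInf_eq_top]
        intro Y
        rw [iInf_eq_top]
        intro h3
        exact absurd ⟨X, Y, h3⟩ hne
      rw [h2] at h
      exact lt_irrefl _ h
    obtain ⟨X, Y, hXY⟩ := h1
    have h2 := en_eq hGUN hU u hXY
    have h3 : IntegrableOn (ed X Y) U := by
      refine ⟨aesm_ed hXY, ?_⟩
      rw [hasFiniteIntegral_iff_ofReal (Eventually.of_forall (ed_nonneg X Y)), ← h2]
      exact h
    refine ⟨X, Y, hXY, h3, ?_⟩
    rw [h2, ofReal_integral_eq_lintegral_ofReal h3 (Eventually.of_forall (ed_nonneg X Y))]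
  · intro K' v hv
    rcases U.eq_empty_or_nonempty with rfl | ⟨z0, hz0⟩
    · rw [en_empty, en_empty]
    · have hK : K = K' := by
        have h1 := congrArg Multiset.card (hv z0 hz0)
        simpa [ms] using h1
      subst hK
      refine en_congr fun z hz => ?_
      have h1 : Same (u z) (v z) := ((hSYB n).2.2.2.1 K (u z) (v z)).2 (hv z hz)
      exact (hXIL K n (u z) (v z)).2.1 h1

end Pool.Agent.DMB
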