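import Pool.Agent.DMB.Api

/-!
Squad DMB, module ENE: energies of concatenations.
-/

set_option autoImplicit false

namespace Pool.Agent.DMB

open MeasureTheory Set Metric Filter Topology
open scoped ENNReal

namespace ENE_

variable {K n K' n' L : ℕ}

theorem nsq_sub_comm (v w : Mat K n) : nsq (v - w) = nsq (w - v) := by
  unfold nsq
  refine Finset.sum_congr rfl fun i _ => Finset.sum_congr rfl fun l _ => ?_
  simp only [Pi.sub_apply]
  ring

theorem sq_le_nsq (v : Mat K n) (i : Fin K) (l : Fin n) : v i l ^ 2 ≤ nsq v := by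
  unfold nsq
  calc v i l ^ 2 ≤ ∑ l, v i l ^ 2 :=
        Finset.single_le_sum (f := fun l => v i l ^ 2) (fun _ _ => sq_nonneg _) (Finset.mem_univ l)
    _ ≤ _ := Finset.single_le_sum (f := fun i => ∑ l, v i l ^ 2)
        (fun _ _ => Finset.sum_nonneg fun _ _ => sq_nonneg _) (Finset.mem_univ i)

theorem sqrt_nsq_le (v : Mat K n) : Real.sqrt (nsq v) ≤ ∑ i, ∑ l, |v i l| := by
  have h0 : 0 ≤ ∑ i, ∑ l, |v i l| :=
    Finset.sum_nonneg fun _ _ => Finset.sum_nonneg fun _ _ => abs_nonneg _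
  rw [Real.sqrt_le_left h0]
  have h1 : ∀ i l, |v i l| ≤ ∑ i, ∑ l, |v i l| := by
    intro i l
    calc |v i l| ≤ ∑ l, |v i l| :=
          Finset.single_le_sum (f := fun l => |v i l|) (fun _ _ => abs_nonneg _) (Finset.mem_univ l)
      _ ≤ _ := Finset.single_le_sum (f := fun i => ∑ l, |v i l|)
          (fun _ _ => Finset.sum_nonneg fun _ _ => abs_nonneg _) (Finset.mem_univ i)
  set A := ∑ i, ∑ l, |v i l| with hA
  calc nsq v = ∑ i, ∑ l, |v i l| * |v i l| := by
        unfold nsq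
        refine Finset.sum_congr rfl fun i _ => Finset.sum_congr rfl fun l _ => ?_
        rw [← sq, sq_abs]
    _ ≤ ∑ i, ∑ l, |v i l| * A :=
        Finset.sum_le_sum fun i _ => Finset.sum_le_sum fun l _ =>
          mul_le_mul_of_nonneg_left (h1 i l) (abs_nonneg _)
    _ = A ^ 2 := by
        rw [sq]
        conv_rhs => rw [hA]
        rw [Finset.sum_mul]
        refine Finset.sum_congr rfl fun i _ => ?_
        rw [Finset.sum_mul]

theorem meas_nsq {α : Type*} [MeasurableSpace α] {T : α → Mat K n}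
    (hT : ∀ i l, Measurable (fun t => T t i l)) : Measurable (fun t => nsq (T t)) := by
  unfold nsq
  exact Finset.measurable_fun_sum _ fun i _ => Finset.measurable_fun_sum _ fun l _ =>
    (hT i l).pow_const 2

/-- the norm of an integral is at most the integral of the norm -/
theorem sqrt_nsq_integral {S : ℝ → Mat K n} {T : ℝ → Mat K n} {s t : ℝ} (hst : s ≤ t)
    (hTi : ∀ i l, IntervalIntegrable (fun x => T x i l) volume s t)
    (hg : IntervalIntegrable (fun x => Real.sqrt (nsq (T x))) volume s t)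
    (hS : ∀ i l, S t i l - S s i l = ∫ x in s..t, T x i l) :
    Real.sqrt (nsq (S t - S s)) ≤ ∫ x in s..t, Real.sqrt (nsq (T x)) := by
  set v : Mat K n := S t - S s with hv
  have h1 : nsq v = ∫ x in s..t, dt v (T x) := by
    unfold dt
    rw [intervalIntegral.integral_finsetSum]
    · unfold nsq
      refine Finset.sum_congr rfl fun i _ => ?_
      rw [intervalIntegral.integral_finsetSum]
      · refine Finset.sum_congr rfl fun l _ => ?_
        rw [intervalIntegral.integral_const_mul, ← hS i l, sq]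
        rfl
      · intro l _
        exact (hTi i l).const_mul _
    · intro i _
      have := IntervalIntegrable.sum (Finset.univ) (μ := volume) (a := s) (b := t)
        (f := fun (l : Fin n) x => v i l * T x i l) (fun l _ => (hTi i l).const_mul _)
      refine this.congr ?_
      exact fun x _ => by simp only [Finset.sum_apply]
  have hdi : IntervalIntegrable (fun x => dt v (T x)) volume s t := by
    have h2 : ∀ i, IntervalIntegrable (fun x => ∑ l, v i l * T x i l) volume s t := by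
      intro i
      have := IntervalIntegrable.sum (Finset.univ) (μ := volume) (a := s) (b := t)
        (f := fun (l : Fin n) x => v i l * T x i l) (fun l _ => (hTi i l).const_mul _)
      refine this.congr ?_
      exact fun x _ => by simp only [Finset.sum_apply]
    have := IntervalIntegrable.sum (Finset.univ) (μ := volume) (a := s) (b := t)
      (f := fun (i : Fin K) x => ∑ l, v i l * T x i l) (fun i _ => h2 i)
    refine this.congr ?_
    exact fun x _ => by simp only [Finset.sum_apply, dt]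
  have h3 : nsq v ≤ Real.sqrt (nsq v) * ∫ x in s..t, Real.sqrt (nsq (T x)) := by
    conv_lhs => rw [h1]
    rw [← intervalIntegral.integral_const_mul]
    refine intervalIntegral.integral_mono_on hst hdi (hg.const_mul _) fun x _ => ?_
    exact (le_abs_self _).trans (abs_dt_le v (T x))
  have h4 : 0 ≤ ∫ x in s..t, Real.sqrt (nsq (T x)) :=
    intervalIntegral.integral_nonneg hst fun x _ => Real.sqrt_nonneg _
  have h5 := nsq_nonneg v
  rcases eq_or_lt_of_le (Real.sqrt_nonneg (nsq v)) with h0 | h0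
  · rw [← h0]
    exact h4
  · have h6 : Real.sqrt (nsq v) * Real.sqrt (nsq v) = nsq v := Real.mul_self_sqrt h5
    nlinarith

theorem int_sqrt {T : ℝ → Mat K n} {a b : ℝ} (hab : a ≤ b)
    (hTm : ∀ i l, Measurable (fun t => T t i l))
    (hTi : ∀ i l, IntervalIntegrable (fun x => T x i l) volume a b) :
    IntervalIntegrable (fun x => Real.sqrt (nsq (T x))) volume a b := by
  rw [intervalIntegrable_iff_integrableOn_Ioc_of_le hab]
  have h1 : IntegrableOn (fun x => ∑ i, ∑ l, |T x i l|) (Ioc a b) := by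
    unfold IntegrableOn
    refine integrable_finsetSum _ fun i _ => integrable_finsetSum _ fun l _ => ?_
    have := (intervalIntegrable_iff_integrableOn_Ioc_of_le hab).1 (hTi i l)
    exact Integrable.abs this
  refine Integrable.mono' h1 ?_ ?_
  · exact ((meas_nsq hTm).sqrt).aestronglyMeasurable
  · refine Filter.Eventually.of_forall fun x => ?_
    rw [Real.norm_of_nonneg (Real.sqrt_nonneg _)]
    exact sqrt_nsq_le _

/-- local isometry on a line -/
theorem line_bound (S : ℝ → Mat K n) (w : ℝ → Mat K' n') (T : ℝ → Mat K n) (a b : ℝ) (hab : a ≤ b)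
    (hw : ∀ i l, ContinuousOn (fun t => w t i l) (Icc a b))
    (hloc : ∀ t ∈ Icc a b, ∀ᶠ s in 𝓝[Icc a b] t, nsq (w s - w t) = nsq (S s - S t))
    (hTm : ∀ i l, Measurable (fun t => T t i l))
    (hTi : ∀ i l, IntervalIntegrable (fun t => T t i l) volume a b)
    (hS : ∀ s ∈ Icc a b, ∀ t ∈ Icc a b, s ≤ t → ∀ i l, S t i l - S s i l = ∫ x in s..t, T x i l) :
    ENNReal.ofReal (Real.sqrt (nsq (w b - w a))) ≤
      ∫⁻ t in Icc a b, ENNReal.ofReal (Real.sqrt (nsq (T t))) := by
  set g : ℝ → ℝ := fun x => Real.sqrt (nsq (T x)) with hgdef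
  have hg : IntervalIntegrable g volume a b := int_sqrt hab hTm hTi
  have hmem : ∀ t ∈ Icc a b, t ∈ uIcc a b := fun t ht => by rwa [uIcc_of_le hab]
  have hint : ∀ s ∈ Icc a b, ∀ t ∈ Icc a b, IntervalIntegrable g volume s t := by
    intro s hs' t ht'
    exact hg.mono_set (uIcc_subset_uIcc (hmem s hs') (hmem t ht'))
  have hintT : ∀ i l, ∀ s ∈ Icc a b, ∀ t ∈ Icc a b,
      IntervalIntegrable (fun t => T t i l) volume s t := by
    intro i l s hs' t ht'
    exact (hTi i l).mono_set (uIcc_subset_uIcc (hmem s hs') (hmem t ht'))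
  set F : ℝ → ℝ := fun t => Real.sqrt (nsq (w t - w a)) - ∫ x in a..t, g x with hF
  have hc1 : ContinuousOn (fun t => Real.sqrt (nsq (w t - w a))) (Icc a b) := by
    refine ContinuousOn.sqrt ?_
    unfold nsq
    refine continuousOn_finsetSum _ fun i _ => continuousOn_finsetSum _ fun l _ => ?_
    simp only [Pi.sub_apply]
    exact ((hw i l).sub continuousOn_const).pow 2
  have hc2 : ContinuousOn (fun t => ∫ x in a..t, g x) (Icc a b) := by
    have := intervalIntegral.continuousOn_primitive_interval'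
      (μ := volume) (f := g) (b₁ := a) (b₂ := b) (a := a) hg left_mem_uIcc
    rwa [uIcc_of_le hab] at this
  have hc : ContinuousOn F (Icc a b) := hc1.sub hc2
  have hclosed : IsClosed ({t | F t ≤ 0} ∩ Icc a b) := by
    have := hc.preimage_isClosed_of_isClosed isClosed_Icc (isClosed_Iic (a := (0 : ℝ)))
    rw [inter_comm]
    exact this
  have hstart : a ∈ {t | F t ≤ 0} := by
    change Real.sqrt (nsq (w a - w a)) - ∫ x in a..a, g x ≤ 0
    rw [sub_self, nsq_zero, Real.sqrt_zero, intervalIntegral.integral_same, sub_zero]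
  have hsub : Icc a b ⊆ {t | F t ≤ 0} := by
    refine hclosed.Icc_subset_of_forall_mem_nhdsWithin hstart ?_
    rintro x ⟨hx, hxI⟩
    have hxI' : x ∈ Icc a b := ⟨hxI.1, hxI.2.le⟩
    have h2 := hloc x hxI'
    have h3 : ∀ᶠ s in 𝓝[>] x, nsq (w s - w x) = nsq (S s - S x) := by
      have h4 : 𝓝[>] x ≤ 𝓝[Icc a b] x := by
        rw [← nhdsWithin_Ioc_eq_nhdsGT hxI.2]
        exact nhdsWithin_mono _ fun t ht => ⟨hxI.1.trans ht.1.le, ht.2⟩
      exact h4 h2
    filter_upwards [h3, Ioc_mem_nhdsGT hxI.2] with t ht htI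
    have htI' : t ∈ Icc a b := ⟨hxI.1.trans htI.1.le, htI.2⟩
    have h6 := sqrt_nsq_integral (S := S) (T := T) htI.1.le (fun i l => hintT i l x hxI' t htI')
      (hint x hxI' t htI') (hS x hxI' t htI' htI.1.le)
    rw [← ht] at h6
    have h7 := sqrt_nsq_add_le (w t - w x) (w x - w a)
    rw [sub_add_sub_cancel] at h7
    have h8 := intervalIntegral.integral_add_adjacent_intervals
      (hint a (left_mem_Icc.2 hab) x hxI') (hint x hxI' t htI')
    have h9 : F x ≤ 0 := hx
    simp only [hF] at h9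
    change F t ≤ 0
    simp only [hF]
    linarith
  have hb : F b ≤ 0 := hsub (right_mem_Icc.2 hab)
  have h10 : Real.sqrt (nsq (w b - w a)) ≤ ∫ x in a..b, g x := by
    simp only [hF] at hb
    linarith
  have h11 : IntegrableOn g (Icc a b) := by
    rw [integrableOn_Icc_iff_integrableOn_Ioc]
    exact (intervalIntegrable_iff_integrableOn_Ioc_of_le hab).1 hg
  rw [← ofReal_integral_eq_lintegral_ofReal h11
    (Filter.Eventually.of_forall fun x => Real.sqrt_nonneg _),
    integral_Icc_eq_integral_Ioc, ← intervalIntegral.integral_of_le hab]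
  exact ENNReal.ofReal_le_ofReal h10

/-- transfer of gradients along local isometries, one inequality -/
theorem transfer (hGAL : Stmt_GAL) (hGAB : Stmt_GAB) {U : Set ℂ} (hU : IsOpen U)
    (S : ℂ → Mat K n) (w : ℂ → Mat K' n')
    (hloc : ∀ z ∈ U, ∀ᶠ z' in 𝓝[U] z, nsq (w z' - w z) = nsq (S z' - S z))
    (X Y : ℂ → Mat K n) (hS : HasGradV U S X Y) :
    ∃ X'' Y'' : ℂ → Mat K' n', HasGradV U w X'' Y'' ∧
      ∀ᵐ z : ℂ, z ∈ U → nsq (X'' z) ≤ nsq (X z) ∧ nsq (Y'' z) ≤ nsq (Y z) := by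
  have hcw : ∀ i l, ContinuousOn (fun z => w z i l) U := by
    intro i l z hz
    have h1 : Tendsto (fun z' => nsq (S z' - S z)) (𝓝[U] z) (𝓝 0) := by
      have : Tendsto (fun z' => nsq (S z' - S z)) (𝓝[U] z) (𝓝 (nsq (S z - S z))) := by
        unfold nsq
        refine tendsto_finsetSum _ fun i _ => tendsto_finsetSum _ fun l _ => ?_
        simp only [Pi.sub_apply]
        exact (((hS i l).cont z hz).tendsto.sub tendsto_const_nhds).pow 2
      rwa [sub_self, nsq_zero] at this
    have h2 : Tendsto (fun z' => nsq (w z' - w z)) (𝓝[U] z) (𝓝 0) :=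
      h1.congr' ((hloc z hz).mono fun z' h => h.symm)
    have h3 : Tendsto (fun z' => (w z' i l - w z i l) ^ 2) (𝓝[U] z) (𝓝 0) :=
      squeeze_zero (fun _ => sq_nonneg _) (fun z' => sq_le_nsq (w z' - w z) i l) h2
    rw [ContinuousWithinAt, tendsto_iff_dist_tendsto_zero]
    have h4 := h3.sqrt
    rw [Real.sqrt_zero] at h4
    refine h4.congr fun z' => ?_
    rw [Real.sqrt_sq_eq_abs, Real.dist_eq]
  -- measurable representatives
  set Xm : ℂ → Mat K n := fun z i l => (hS i l).mx.mk _ z with hXm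
  set Ym : ℂ → Mat K n := fun z i l => (hS i l).my.mk _ z with hYm
  have hXe : ∀ i l, (fun z => X z i l) =ᵐ[volume.restrict U] (fun z => Xm z i l) :=
    fun i l => (hS i l).mx.ae_eq_mk
  have hYe : ∀ i l, (fun z => Y z i l) =ᵐ[volume.restrict U] (fun z => Ym z i l) :=
    fun i l => (hS i l).my.ae_eq_mk
  have hXmm : ∀ i l, Measurable (fun z => Xm z i l) :=
    fun i l => (hS i l).mx.stronglyMeasurable_mk.measurable
  have hYmm : ∀ i l, Measurable (fun z => Ym z i l) :=
    fun i l => (hS i l).my.stronglyMeasurable_mk.measurable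
  have hm : HasGradV U S Xm Ym := fun i l =>
    (hGAL U hU).2.2.2.2 _ _ _ _ _ _ (hS i l) (fun _ _ => rfl) (hXe i l).symm (hYe i l).symm
  have hXall : ∀ᵐ z : ℂ, z ∈ U → Xm z = X z ∧ Ym z = Y z := by
    have h1 : ∀ᵐ z ∂(volume.restrict U), ∀ i l, X z i l = Xm z i l ∧ Y z i l = Ym z i l := by
      rw [ae_all_iff]
      intro i
      rw [ae_all_iff]
      intro l
      filter_upwards [hXe i l, hYe i l] with z h1 h2
      exact ⟨h1, h2⟩
    rw [ae_restrict_iff' hU.measurableSet] at h1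
    filter_upwards [h1] with z hz hzU
    exact ⟨funext fun i => funext fun l => ((hz hzU i l).1).symm,
      funext fun i => funext fun l => ((hz hzU i l).2).symm⟩
  set h1 : ℂ → ℝ≥0∞ := fun z => ENNReal.ofReal (Real.sqrt (nsq (Xm z))) with hh1
  set h2 : ℂ → ℝ≥0∞ := fun z => ENNReal.ofReal (Real.sqrt (nsq (Ym z))) with hh2
  have hm1 : Measurable h1 := (meas_nsq hXmm).sqrt.ennreal_ofReal
  have hm2 : Measurable h2 := (meas_nsq hYmm).sqrt.ennreal_ofReal
  have hsq1 : ∀ z, h1 z ^ 2 = ENNReal.ofReal (nsq (Xm z)) := by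
    intro z
    rw [hh1, ← ENNReal.ofReal_pow (Real.sqrt_nonneg _), Real.sq_sqrt (nsq_nonneg _)]
  have hsq2 : ∀ z, h2 z ^ 2 = ENNReal.ofReal (nsq (Ym z)) := by
    intro z
    rw [hh2, ← ENNReal.ofReal_pow (Real.sqrt_nonneg _), Real.sq_sqrt (nsq_nonneg _)]
  obtain ⟨X'', Y'', hG, hle⟩ := hGAB K' n' U w h1 h2 hU hcw hm1 hm2 (by
    intro C hCU hC
    have hi : IntegrableOn (fun z => ∑ i, ∑ l, (Xm z i l ^ 2 + Ym z i l ^ 2)) C := by
      unfold IntegrableOn
      exact integrable_finsetSum _ fun i _ => integrable_finsetSum _ fun l _ =>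
        (hm i l).loc C hCU hC
    have h3 : ∀ z, h1 z ^ 2 + h2 z ^ 2 =
        ENNReal.ofReal (∑ i, ∑ l, (Xm z i l ^ 2 + Ym z i l ^ 2)) := by
      intro z
      rw [hsq1, hsq2, ← ENNReal.ofReal_add (nsq_nonneg _) (nsq_nonneg _)]
      congr 1
      simp only [nsq, ← Finset.sum_add_distrib]
    simp only [h3]
    exact Integrable.lintegral_lt_top hi) (by
    have h3 : ∀ᵐ y : ℝ, ∀ (i : Fin K) (l : Fin n), ∀ a b : ℝ, a ≤ b →
        (∀ t ∈ Icc a b, (⟨t, y⟩ : ℂ) ∈ U) →
        IntervalIntegrable (fun t : ℝ => Xm ⟨t, y⟩ i l) volume a b ∧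
        S ⟨b, y⟩ i l - S ⟨a, y⟩ i l = ∫ t in a..b, Xm ⟨t, y⟩ i l := by
      rw [ae_all_iff]
      intro i
      rw [ae_all_iff]
      intro l
      exact (hm i l).hor
    filter_upwards [h3] with y hy a b hab hseg
    have hline : Continuous (fun t : ℝ => (⟨t, y⟩ : ℂ)) :=
      Complex.equivRealProdCLM.symm.continuous.comp (Continuous.prodMk_left y)
    have hmaps : MapsTo (fun t : ℝ => (⟨t, y⟩ : ℂ)) (Icc a b) U := hseg
    refine line_bound (fun t => S ⟨t, y⟩) (fun t => w ⟨t, y⟩) (fun t => Xm ⟨t, y⟩) a b hab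
      (fun i l => (hcw i l).comp hline.continuousOn hmaps) ?_ ?_ (fun i l => (hy i l a b hab hseg).1) ?_
    · intro t ht
      have h4 : Tendsto (fun t : ℝ => (⟨t, y⟩ : ℂ)) (𝓝[Icc a b] t) (𝓝[U] (⟨t, y⟩ : ℂ)) :=
        (hline.continuousWithinAt (s := Icc a b) (x := t)).tendsto_nhdsWithin hmaps
      exact h4.eventually (hloc _ (hseg t ht))
    · intro i l
      exact (hXmm i l).comp hline.measurable
    · intro s hs t ht hst i l
      exact (hy i l s t hst fun x hx => hseg x ⟨hs.1.trans hx.1, hx.2.trans ht.2⟩).2) (by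
    have h3 : ∀ᵐ x : ℝ, ∀ (i : Fin K) (l : Fin n), ∀ a b : ℝ, a ≤ b →
        (∀ t ∈ Icc a b, (⟨x, t⟩ : ℂ) ∈ U) →
        IntervalIntegrable (fun t : ℝ => Ym ⟨x, t⟩ i l) volume a b ∧
        S ⟨x, b⟩ i l - S ⟨x, a⟩ i l = ∫ t in a..b, Ym ⟨x, t⟩ i l := by
      rw [ae_all_iff]
      intro i
      rw [ae_all_iff]
      intro l
      exact (hm i l).ver
    filter_upwards [h3] with x hx a b hab hseg
    have hline : Continuous (fun t : ℝ => (⟨x, t⟩ : ℂ)) :=
      Complex.equivRealProdCLM.symm.continuous.comp (Continuous.prodMk_right x)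
    have hmaps : MapsTo (fun t : ℝ => (⟨x, t⟩ : ℂ)) (Icc a b) U := hseg
    refine line_bound (fun t => S ⟨x, t⟩) (fun t => w ⟨x, t⟩) (fun t => Ym ⟨x, t⟩) a b hab
      (fun i l => (hcw i l).comp hline.continuousOn hmaps) ?_ ?_ (fun i l => (hx i l a b hab hseg).1) ?_
    · intro t ht
      have h4 : Tendsto (fun t : ℝ => (⟨x, t⟩ : ℂ)) (𝓝[Icc a b] t) (𝓝[U] (⟨x, t⟩ : ℂ)) :=
        (hline.continuousWithinAt (s := Icc a b) (x := t)).tendsto_nhdsWithin hmaps
      exact h4.eventually (hloc _ (hseg t ht))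
    · intro i l
      exact (hYmm i l).comp hline.measurable
    · intro s hs t ht hst i l
      exact (hx i l s t hst fun x hx => hseg x ⟨hs.1.trans hx.1, hx.2.trans ht.2⟩).2)
  refine ⟨X'', Y'', hG, ?_⟩
  filter_upwards [hle, hXall] with z hz1 hz2 hzU
  have h3 := hz1 hzU
  rw [hsq1, hsq2, ENNReal.ofReal_le_ofReal_iff (nsq_nonneg _),
    ENNReal.ofReal_le_ofReal_iff (nsq_nonneg _), (hz2 hzU).1, (hz2 hzU).2] at h3
  exact h3

theorem ae_eq_of_grad (hGUN : Stmt_GUN) {U : Set ℂ} (hU : IsOpen U) {S X Y X' Y' : ℂ → Mat K n}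
    (h : HasGradV U S X Y) (h' : HasGradV U S X' Y') :
    ∀ᵐ z : ℂ, z ∈ U → X z = X' z ∧ Y z = Y' z := by
  have h1 : ∀ᵐ z ∂(volume.restrict U), ∀ i l, X z i l = X' z i l ∧ Y z i l = Y' z i l := by
    rw [ae_all_iff]
    intro i
    rw [ae_all_iff]
    intro l
    obtain ⟨e1, e2⟩ := hGUN U _ _ _ _ _ hU (h i l) (h' i l)
    filter_upwards [e1, e2] with z h1 h2
    exact ⟨h1, h2⟩
  rw [ae_restrict_iff' hU.measurableSet] at h1
  filter_upwards [h1] with z hz hzU
  exact ⟨funext fun i => funext fun l => (hz hzU i l).1,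
    funext fun i => funext fun l => (hz hzU i l).2⟩

/-- transfer of gradients along local isometries -/
theorem transfer_eq (hGAL : Stmt_GAL) (hGUN : Stmt_GUN) (hGAB : Stmt_GAB) {U : Set ℂ}
    (hU : IsOpen U) (S : ℂ → Mat K n) (w : ℂ → Mat K' n')
    (hloc : ∀ z ∈ U, ∀ᶠ z' in 𝓝[U] z, nsq (w z' - w z) = nsq (S z' - S z))
    (X Y : ℂ → Mat K n) (hS : HasGradV U S X Y) :
    ∃ X'' Y'' : ℂ → Mat K' n', HasGradV U w X'' Y'' ∧
      ∀ᵐ z : ℂ, z ∈ U → nsq (X'' z) = nsq (X z) ∧ nsq (Y'' z) = nsq (Y z) := by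
  obtain ⟨X1, Y1, hG1, hle1⟩ := transfer hGAL hGAB hU S w hloc X Y hS
  obtain ⟨X2, Y2, hG2, hle2⟩ := transfer hGAL hGAB hU w S
    (fun z hz => (hloc z hz).mono fun z' h => h.symm) X1 Y1 hG1
  refine ⟨X1, Y1, hG1, ?_⟩
  filter_upwards [hle1, hle2, ae_eq_of_grad hGUN hU hS hG2] with z h1 h2 h3 hzU
  have a1 := h1 hzU
  have a2 := h2 hzU
  rw [← (h3 hzU).1, ← (h3 hzU).2] at a2
  exact ⟨le_antisymm a1.1 a2.1, le_antisymm a1.2 a2.2⟩

theorem nsq_append (A : Mat K n) (B : Mat L n) :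
    nsq (Fin.append A B : Mat (K + L) n) = nsq A + nsq B := by
  unfold nsq
  rw [Fin.sum_univ_add]
  simp only [Fin.append_left, Fin.append_right]

theorem append_sub (A A' : Mat K n) (B B' : Mat L n) :
    (Fin.append A B : Mat (K + L) n) - Fin.append A' B' = Fin.append (A - A') (B - B') := by
  funext i
  refine Fin.addCases (fun j => ?_) (fun j => ?_) i
  · simp only [Pi.sub_apply, Fin.append_left]
  · simp only [Pi.sub_apply, Fin.append_right]

theorem grad_append {U : Set ℂ} {s X Y : ℂ → Mat K n} {r X' Y' : ℂ → Mat L n}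
    (h : HasGradV U s X Y) (h' : HasGradV U r X' Y') :
    HasGradV U (fun z => (Fin.append (s z) (r z) : Mat (K + L) n))
      (fun z => Fin.append (X z) (X' z)) (fun z => Fin.append (Y z) (Y' z)) := by
  intro i l
  refine Fin.addCases (fun j => ?_) (fun j => ?_) i
  · simp only [Fin.append_left]
    exact h j l
  · simp only [Fin.append_right]
    exact h' j l

theorem en_top {U : Set ℂ} {u : ℂ → Tup K n}
    (h : ¬ ∃ X Y : ℂ → Mat K n, HasGradV U (fun z => xi (u z)) X Y) : en U u = ⊤ := by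
  unfold en
  rw [iInf_eq_top]
  intro X
  rw [iInf_eq_top]
  intro Y
  rw [iInf_eq_top]
  intro hXY
  exact absurd ⟨X, Y, hXY⟩ h

theorem aem_ed {U : Set ℂ} {s X Y : ℂ → Mat K n} (h : HasGradV U s X Y) :
    AEMeasurable (fun z => ENNReal.ofReal (ed X Y z)) (volume.restrict U) := by
  refine AEMeasurable.ennreal_ofReal ?_
  unfold ed nsq
  refine AEMeasurable.add ?_ ?_
  · exact Finset.aemeasurable_fun_sum _ fun i _ => Finset.aemeasurable_fun_sum _ fun l _ =>
      (h i l).mx.aemeasurable.pow_const 2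
  · exact Finset.aemeasurable_fun_sum _ fun i _ => Finset.aemeasurable_fun_sum _ fun l _ =>
      (h i l).my.aemeasurable.pow_const 2

end ENE_

open ENE_ in
theorem ene_proof (_hMET : Stmt_MET) (_hXIL : Stmt_XIL) (_hISO : Stmt_ISO) (hCAT : Stmt_CAT)
    (hGAL : Stmt_GAL) (hGUN : Stmt_GUN) (hGAB : Stmt_GAB) (hEND : Stmt_END) : Stmt_ENE := by
  intro K L n U u v hU hu hv
  set S : ℂ → Mat (K + L) n := fun z => Fin.append (xi (u z)) (xi (v z)) with hS
  set w : ℂ → Mat (K + L) n := fun z => xi (Fin.append (u z) (v z)) with hw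
  have hcm : ∀ (m : ℕ) (x y : Tup m n), dG x y = dG y x := fun m x y => (_hMET m n x y y).2.1
  have hloc : ∀ z ∈ U, ∀ᶠ z' in 𝓝[U] z, nsq (w z' - w z) = nsq (S z' - S z) := by
    intro z hz
    obtain ⟨-, δ, hδ, h⟩ := hCAT K L n (u z) (v z)
    have h1 := (hu z hz).eventually (gt_mem_nhds hδ)
    have h2 := (hv z hz).eventually (gt_mem_nhds hδ)
    filter_upwards [h1, h2] with z' h3 h4
    have h5 := (h (u z') (v z') (by rw [hcm]; exact h3) (by rw [hcm]; exact h4)).1
    rw [nsq_sub_comm (w z') (w z)]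
    simp only [hw, hS]
    rw [h5, append_sub, nsq_append, nsq_sub_comm (xi (u z)), nsq_sub_comm (xi (v z))]
  have hloc' : ∀ z ∈ U, ∀ᶠ z' in 𝓝[U] z, nsq (S z' - S z) = nsq (w z' - w z) :=
    fun z hz => (hloc z hz).mono fun z' h => h.symm
  have part1 : ∀ (X Y : ℂ → Mat K n) (X' Y' : ℂ → Mat L n), HasGradV U (fun z => xi (u z)) X Y →
      HasGradV U (fun z => xi (v z)) X' Y' → ∃ X'' Y'' : ℂ → Mat (K + L) n,
      HasGradV U (fun z => xi (Fin.append (u z) (v z))) X'' Y'' ∧ ∀ᵐ z : ℂ, z ∈ U →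
        nsq (X'' z) = nsq (X z) + nsq (X' z) ∧ nsq (Y'' z) = nsq (Y z) + nsq (Y' z) := by
    intro X Y X' Y' h h'
    obtain ⟨X'', Y'', h1, h2⟩ := transfer_eq hGAL hGUN hGAB hU S w hloc _ _ (grad_append h h')
    refine ⟨X'', Y'', h1, ?_⟩
    filter_upwards [h2] with z hz hzU
    have := hz hzU
    rw [nsq_append, nsq_append] at this
    exact this
  have part2 : ∀ X'' Y'' : ℂ → Mat (K + L) n,
      HasGradV U (fun z => xi (Fin.append (u z) (v z))) X'' Y'' →
      ∃ (X Y : ℂ → Mat K n) (X' Y' : ℂ → Mat L n), HasGradV U (fun z => xi (u z)) X Y ∧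
        HasGradV U (fun z => xi (v z)) X' Y' := by
    intro X'' Y'' h
    obtain ⟨X1, Y1, h1, -⟩ := transfer_eq hGAL hGUN hGAB hU w S hloc' _ _ h
    refine ⟨fun z i l => X1 z (Fin.castAdd L i) l, fun z i l => Y1 z (Fin.castAdd L i) l,
      fun z i l => X1 z (Fin.natAdd K i) l, fun z i l => Y1 z (Fin.natAdd K i) l, ?_, ?_⟩
    · intro i l
      have := h1 (Fin.castAdd L i) l
      simpa only [hS, Fin.append_left] using this
    · intro i l
      have := h1 (Fin.natAdd K i) l
      simpa only [hS, Fin.append_right] using this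
  refine ⟨part1, part2, ?_⟩
  by_cases h1 : ∃ X Y : ℂ → Mat K n, HasGradV U (fun z => xi (u z)) X Y
  · by_cases h2 : ∃ X Y : ℂ → Mat L n, HasGradV U (fun z => xi (v z)) X Y
    · obtain ⟨X, Y, h1⟩ := h1
      obtain ⟨X', Y', h2⟩ := h2
      obtain ⟨X'', Y'', h3, h4⟩ := part1 X Y X' Y' h1 h2
      rw [(hEND K n U u hU).1 X Y h1, (hEND L n U v hU).1 X' Y' h2,
        (hEND (K + L) n U (fun z => Fin.append (u z) (v z)) hU).1 X'' Y'' h3,
        ← lintegral_add_left' (aem_ed h1)]
      refine lintegral_congr_ae ?_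
      have h5 : ∀ᵐ z ∂(volume.restrict U),
          nsq (X'' z) = nsq (X z) + nsq (X' z) ∧ nsq (Y'' z) = nsq (Y z) + nsq (Y' z) := by
        rw [ae_restrict_iff' hU.measurableSet]
        exact h4
      filter_upwards [h5] with z hz
      unfold ed
      rw [← ENNReal.ofReal_add (add_nonneg (nsq_nonneg _) (nsq_nonneg _))
        (add_nonneg (nsq_nonneg _) (nsq_nonneg _)), hz.1, hz.2]
      congr 1
      ring
    · rw [en_top h2, add_top]
      refine en_top ?_
      rintro ⟨X'', Y'', h⟩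
      obtain ⟨-, -, X', Y', -, h'⟩ := part2 X'' Y'' h
      exact h2 ⟨X', Y', h'⟩
  · rw [en_top h1, top_add]
    refine en_top ?_
    rintro ⟨X'', Y'', h⟩
    obtain ⟨X, Y, -, -, h', -⟩ := part2 X'' Y'' h
    exact h1 ⟨X, Y, h'⟩

end Pool.Agent.DMB
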