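import Pool.Agent.DMB.Api

/-!
Module ENF: gluing of fields of finite energy.
-/

set_option autoImplicit false

namespace Pool.Agent.DMB

open MeasureTheory Set Metric Filter Topology
open scoped ENNReal

namespace ENF_

open Classical in
/-- gluing of two fields -/
noncomputable def gl {K n : ℕ} (W : Set ℂ) (X' X : ℂ → Mat K n) (z : ℂ) : Mat K n :=
  if z ∈ W then X' z else X z

theorem gl_of_mem {K n : ℕ} {W : Set ℂ} {X' X : ℂ → Mat K n} {z : ℂ} (h : z ∈ W) :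
    gl W X' X z = X' z := if_pos h

theorem gl_of_not_mem {K n : ℕ} {W : Set ℂ} {X' X : ℂ → Mat K n} {z : ℂ} (h : z ∉ W) :
    gl W X' X z = X z := if_neg h

theorem glued {K n : ℕ} (hXIL : Stmt_XIL) (hGAL : Stmt_GAL) (hGUN : Stmt_GUN) (hGLO : Stmt_GLO)
    {U W C : Set ℂ} {u v : ℂ → Tup K n} (hU : IsOpen U) (hW : IsOpen W) (hWU : W ⊆ U)
    (hCW : C ⊆ W) (hUC : IsOpen (U \ C)) (hs : ∀ z ∈ U \ C, Same (v z) (u z))
    {X Y X' Y' : ℂ → Mat K n} (hX : HasGradV U (fun z => xi (u z)) X Y)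
    (hX' : HasGradV W (fun z => xi (v z)) X' Y') :
    HasGradV U (fun z => xi (v z)) (gl W X' X) (gl W Y' Y) := by
  intro i l
  refine hGLO U _ _ _ hU fun z hz => ?_
  by_cases hzW : z ∈ W
  · refine ⟨W, hW, hzW, hWU, ?_⟩
    refine (hGAL W hW).2.2.2.2 _ _ _ _ _ _ (hX' i l) (fun _ _ => rfl) ?_ ?_
    · filter_upwards [ae_restrict_mem hW.measurableSet] with w hw
      rw [gl_of_mem hw]
    · filter_upwards [ae_restrict_mem hW.measurableSet] with w hw
      rw [gl_of_mem hw]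
  · have hzC : z ∈ U \ C := ⟨hz, fun h => hzW (hCW h)⟩
    refine ⟨U \ C, hUC, hzC, sdiff_subset, ?_⟩
    have h1 : HasGrad (U \ C) (fun z => xi (v z) i l) (fun z => X z i l) (fun z => Y z i l) := by
      refine (hGAL (U \ C) hUC).2.2.2.2 _ _ _ _ _ _
        ((hGAL U hU).1 (U \ C) _ _ _ hUC sdiff_subset (hX i l)) (fun w hw => ?_)
        EventuallyEq.rfl EventuallyEq.rfl
      show xi (v w) i l = xi (u w) i l
      rw [(hXIL K n (v w) (u w)).2.1 (hs w hw)]
    have hN : IsOpen (W ∩ (U \ C)) := hW.inter hUC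
    have h2 := (hGAL (U \ C) hUC).1 (W ∩ (U \ C)) _ _ _ hN inter_subset_right h1
    have h3 := (hGAL W hW).1 (W ∩ (U \ C)) _ _ _ hN inter_subset_left (hX' i l)
    have h4 := hGUN _ _ _ _ _ _ hN h3 h2
    have key : ∀ (A A' : ℂ → Mat K n), ((fun z => A' z i l) =ᵐ[volume.restrict (W ∩ (U \ C))]
        fun z => A z i l) → (fun z => gl W A' A z i l) =ᵐ[volume.restrict (U \ C)]
        fun z => A z i l := by
      intro A A' hA
      have h5 := (ae_restrict_iff' hN.measurableSet).1 hA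
      rw [EventuallyEq, ae_restrict_iff' hUC.measurableSet]
      filter_upwards [h5] with w hw hwU
      by_cases hwW : w ∈ W
      · rw [gl_of_mem hwW]
        exact hw ⟨hwW, hwU⟩
      · rw [gl_of_not_mem hwW]
    exact (hGAL (U \ C) hUC).2.2.2.2 _ _ _ _ _ _ h1 (fun _ _ => rfl) (key X X' h4.1) (key Y Y' h4.2)

end ENF_

open ENF_ in
theorem enf_proof (hXIL : Stmt_XIL) (hGAL : Stmt_GAL) (hGUN : Stmt_GUN) (hGLO : Stmt_GLO)
    (hEND : Stmt_END) : Stmt_ENF := by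
  intro K n U W C u v hU hW hWU hCW hUC hs hu hv
  obtain ⟨X, Y, hX, -, -⟩ := (hEND K n U u hU).2.1 hu
  obtain ⟨X', Y', hX', -, -⟩ := (hEND K n W v hW).2.1 hv
  have hG := glued hXIL hGAL hGUN hGLO hU hW hWU hCW hUC hs hX hX'
  have hXW : HasGradV W (fun z => xi (u z)) X Y := fun i l =>
    (hGAL U hU).1 W _ _ _ hW hWU (hX i l)
  have e1 := (hEND K n U u hU).1 X Y hX
  have e2 := (hEND K n W v hW).1 X' Y' hX'
  have e3 := (hEND K n U v hU).1 _ _ hG
  have e4 := (hEND K n W u hW).1 X Y hXW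
  have hsplit : ∀ f : ℂ → ℝ≥0∞, ∫⁻ z in U, f z = (∫⁻ z in W, f z) + ∫⁻ z in U \ W, f z := by
    intro f
    have h1 := lintegral_inter_add_sdiff (μ := volume) f U hW.measurableSet
    rw [inter_eq_self_of_subset_right hWU] at h1
    exact h1.symm
  have s1 : ∫⁻ z in W, ENNReal.ofReal (ed (gl W X' X) (gl W Y' Y) z) =
      ∫⁻ z in W, ENNReal.ofReal (ed X' Y' z) := by
    refine setLIntegral_congr_fun hW.measurableSet fun z hz => ?_
    simp only [ed]
    rw [gl_of_mem hz, gl_of_mem hz]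
  have s2 : ∫⁻ z in U \ W, ENNReal.ofReal (ed (gl W X' X) (gl W Y' Y) z) =
      ∫⁻ z in U \ W, ENNReal.ofReal (ed X Y z) := by
    refine setLIntegral_congr_fun (hU.measurableSet.diff hW.measurableSet) fun z hz => ?_
    simp only [ed]
    rw [gl_of_not_mem hz.2, gl_of_not_mem hz.2]
  rw [hsplit, ← e4] at e1
  rw [hsplit, s1, s2, ← e2] at e3
  have hW1 : en W u < ⊤ := lt_of_le_of_lt (by rw [e1]; exact le_self_add) hu
  have hR : ∫⁻ z in U \ W, ENNReal.ofReal (ed X Y z) < ⊤ :=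
    lt_of_le_of_lt (by rw [e1]; exact le_add_self) hu
  refine ⟨hW1, ?_, ?_⟩
  · rw [e3]
    exact ENNReal.add_lt_top.2 ⟨hv, hR⟩
  · rw [e3, e1]
    ring

end Pool.Agent.DMB
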