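import Pool.Agent.DMB.Api

set_option autoImplicit false

namespace Pool.Agent.DMB

open MeasureTheory Set Metric Filter Topology
open scoped ENNReal

namespace ENV_

variable {k d n : ℕ}

/-- plain density -/
noncomputable def g0 (F : Flat k d n) (z : ℂ) : ℝ :=
  nsq (F.Px z) + nsq (F.Py z) + (nsq (F.Lx z) + nsq (F.Ly z))

/-- flux density -/
noncomputable def gy (F : Flat k d n) (j : Fin n) (z : ℂ) : ℝ := sm (F.Py z) j + sm (F.Ly z) j

/-- tilted density -/
noncomputable def gD (F : Flat k d n) (α : Fin n → ℝ) (z : ℂ) : ℝ :=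
  nsq (F.Px z) + nsq (sh (F.Py z) α) + (nsq (F.Lx z) + nsq (sh (F.Ly z) α))

theorem gD_eq (F : Flat k d n) (α : Fin n → ℝ) (z : ℂ) :
    gD F α z = g0 F z - 2 * ∑ j, α j * gy F j z + (2 * k + d) * vsq α := by
  have h : ∑ j, α j * gy F j z = vdt (sm (F.Py z)) α + vdt (sm (F.Ly z)) α := by
    unfold vdt gy
    rw [← Finset.sum_add_distrib]
    exact Finset.sum_congr rfl fun _ _ => by ring
  unfold gD g0
  rw [nsq_sh, nsq_sh, h]
  push_cast
  ring

theorem gD_nonneg (F : Flat k d n) (α : Fin n → ℝ) (z : ℂ) : 0 ≤ gD F α z := by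
  unfold gD
  have h1 := nsq_nonneg (F.Px z)
  have h2 := nsq_nonneg (sh (F.Py z) α)
  have h3 := nsq_nonneg (F.Lx z)
  have h4 := nsq_nonneg (sh (F.Ly z) α)
  linarith

theorem D_eq0 (F : Flat k d n) (q r : ℝ) (α : Fin n → ℝ) : F.D q r α = ∫ z in HD q r, gD F α z :=
  rfl

theorem Y_eq0 (F : Flat k d n) (q r : ℝ) (j : Fin n) : F.Y q r j = ∫ z in HD q r, gy F j z := rfl

theorem ii_sum {ι : Type} (s : Finset ι) {f : ι → ℝ → ℝ} {a b : ℝ}
    (h : ∀ i, IntervalIntegrable (f i) volume a b) :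
    IntervalIntegrable (fun θ => ∑ i ∈ s, f i θ) volume a b := by
  have h1 := IntervalIntegrable.sum s fun i _ => h i
  have h2 : (∑ i ∈ s, f i) = fun θ => ∑ i ∈ s, f i θ := by
    funext θ
    simp [Finset.sum_apply]
  rwa [h2] at h1

theorem HD_fin (q r : ℝ) : volume (HD q r) < ⊤ := by
  refine lt_of_le_of_lt (measure_mono (t := ball (q : ℂ) r) ?_) measure_ball_lt_top
  intro z hz
  rw [mem_ball, dist_eq_norm]
  exact hz.2

theorem sq_le_nsq {K : ℕ} (v : Mat K n) (i : Fin K) (l : Fin n) : v i l ^ 2 ≤ nsq v := by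
  unfold nsq
  calc v i l ^ 2 ≤ ∑ l', v i l' ^ 2 :=
        Finset.single_le_sum (f := fun l' => v i l' ^ 2) (fun _ _ => sq_nonneg _) (Finset.mem_univ l)
    _ ≤ _ := Finset.single_le_sum (f := fun i' => ∑ l', v i' l' ^ 2)
        (fun _ _ => Finset.sum_nonneg fun _ _ => sq_nonneg _) (Finset.mem_univ i)

theorem comp_int {K : ℕ} {R : ℝ} {s X Y : ℂ → Mat K n} (h : HasGradV (HD 0 R) s X Y)
    (hI : IntegrableOn (ed X Y) (HD 0 R)) (i : Fin K) (l : Fin n) :
    IntegrableOn (fun z => X z i l) (HD 0 R) ∧ IntegrableOn (fun z => Y z i l) (HD 0 R) := by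
  have h1 : IntegrableOn (fun _ : ℂ => (1 : ℝ)) (HD 0 R) :=
    integrableOn_const (hs := (HD_fin 0 R).ne)
  have h2 : IntegrableOn (fun z => 1 + ed X Y z) (HD 0 R) := h1.add hI
  have hb : ∀ z, |X z i l| ≤ 1 + ed X Y z ∧ |Y z i l| ≤ 1 + ed X Y z := by
    intro z
    have e1 := sq_le_nsq (X z) i l
    have e2 := sq_le_nsq (Y z) i l
    have e3 := nsq_nonneg (X z)
    have e4 := nsq_nonneg (Y z)
    unfold ed
    constructor
    · have := abs_nonneg (X z i l)
      have e5 : |X z i l| ^ 2 = X z i l ^ 2 := sq_abs _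
      nlinarith [sq_nonneg (|X z i l| - 1)]
    · have := abs_nonneg (Y z i l)
      have e5 : |Y z i l| ^ 2 = Y z i l ^ 2 := sq_abs _
      nlinarith [sq_nonneg (|Y z i l| - 1)]
  constructor
  · exact Integrable.mono' h2 (h i l).mx (Eventually.of_forall fun z => by
      rw [Real.norm_eq_abs]; exact (hb z).1)
  · exact Integrable.mono' h2 (h i l).my (Eventually.of_forall fun z => by
      rw [Real.norm_eq_abs]; exact (hb z).2)

theorem g0_int {F : Flat k d n} (hF : F.Ok0) : IntegrableOn (g0 F) (HD 0 F.R) :=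
  hF.pI.add hF.lI

theorem gy_int {F : Flat k d n} (hF : F.Ok0) (j : Fin n) : IntegrableOn (gy F j) (HD 0 F.R) := by
  have h1 : IntegrableOn (fun z => ∑ i, F.Py z i j) (HD 0 F.R) :=
    integrable_finsetSum _ fun i _ => (comp_int hF.pg hF.pI i j).2
  have h2 : IntegrableOn (fun z => ∑ i, F.Ly z i j) (HD 0 F.R) :=
    integrable_finsetSum _ fun i _ => (comp_int hF.lg hF.lI i j).2
  exact h1.add h2

theorem gD_int {F : Flat k d n} (hF : F.Ok0) (α : Fin n → ℝ) :
    IntegrableOn (gD F α) (HD 0 F.R) := by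
  have h1 : IntegrableOn (fun z => g0 F z - 2 * ∑ j, α j * gy F j z + (2 * k + d) * vsq α)
      (HD 0 F.R) := by
    refine ((g0_int hF).sub ((integrable_finsetSum _ fun j _ =>
      (gy_int hF j).const_mul (α j)).const_mul 2)).add
      (integrableOn_const (hs := (HD_fin 0 F.R).ne))
  refine h1.congr (Eventually.of_forall fun z => ?_)
  exact (gD_eq F α z).symm

theorem area (hPOL : Stmt_POL) (q r : ℝ) (hr : 0 < r) :
    ∫ _z in HD q r, (1 : ℝ) = Real.pi * r ^ 2 / 2 := by
  have h1 : IntegrableOn (fun _ : ℂ => (1 : ℝ)) (HD q r) :=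
    integrableOn_const (hs := (HD_fin q r).ne)
  have h2 := (hPOL q r (fun _ => 1) hr h1).2.2 r ⟨hr.le, le_rfl⟩
  rw [h2]
  simp only [intervalIntegral.integral_const, sub_zero, smul_eq_mul, mul_one]
  rw [intervalIntegral.integral_mul_const, integral_id]
  ring

theorem D_eq (hPOL : Stmt_POL) {F : Flat k d n} (hF : F.Ok0) {q r : ℝ} (hr : 0 < r)
    (hq : |q| + r ≤ F.R) (α : Fin n → ℝ) :
    F.D q r α = (∫ z in HD q r, g0 F z) - 2 * ∑ j, α j * F.Y q r j +
      (2 * k + d) * vsq α * (Real.pi * r ^ 2 / 2) := by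
  have hsub := HD_sub hq
  rw [D_eq0]
  have e0 := (g0_int hF).mono_set hsub
  have e1 : ∀ j, IntegrableOn (fun z => α j * gy F j z) (HD q r) := fun j =>
    ((gy_int hF j).mono_set hsub).const_mul (α j)
  have e2 : IntegrableOn (fun z => ∑ j, α j * gy F j z) (HD q r) :=
    integrable_finsetSum _ fun j _ => e1 j
  have e3 : IntegrableOn (fun z => 2 * ∑ j, α j * gy F j z) (HD q r) := e2.const_mul 2
  have e4 : IntegrableOn (fun z => g0 F z - 2 * ∑ j, α j * gy F j z) (HD q r) := e0.sub e3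
  have e5 : IntegrableOn (fun _ : ℂ => (2 * k + d) * vsq α) (HD q r) :=
    integrableOn_const (hs := (HD_fin q r).ne)
  calc ∫ z in HD q r, gD F α z
      = ∫ z in HD q r, (g0 F z - 2 * ∑ j, α j * gy F j z + (2 * k + d) * vsq α) := by
        refine integral_congr_ae (Eventually.of_forall fun z => ?_)
        exact gD_eq F α z
    _ = (∫ z in HD q r, (g0 F z - 2 * ∑ j, α j * gy F j z)) +
          ∫ _z in HD q r, (2 * k + d) * vsq α := integral_add e4 e5
    _ = ((∫ z in HD q r, g0 F z) - ∫ z in HD q r, 2 * ∑ j, α j * gy F j z) +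
          ∫ _z in HD q r, (2 * k + d) * vsq α * 1 := by
        rw [integral_sub e0 e3]; simp only [mul_one]
    _ = _ := by
        rw [integral_const_mul, integral_const_mul, integral_finsetSum _ fun j _ => e1 j,
          area hPOL q r hr]
        simp only [integral_const_mul]
        rfl

/-- `M` in closed form -/
theorem M_eq (hPOL : Stmt_POL) (hk : 0 < k) {F : Flat k d n} (hF : F.Ok0) {q r : ℝ} (hr : 0 < r)
    (hq : |q| + r ≤ F.R) (α : Fin n → ℝ) :
    F.D q r α = (∫ z in HD q r, g0 F z) + (2 * k + d) * (Real.pi * r ^ 2 / 2) *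
      (vsq (α - F.as q r) - vsq (F.as q r)) := by
  rw [D_eq hPOL hF hr hq]
  have hk' : (0 : ℝ) < k := by exact_mod_cast hk
  have hc : (0 : ℝ) < 2 * k + d := by positivity
  have hpi := Real.pi_pos
  have hY : ∀ j, F.Y q r j = (2 * k + d) * (Real.pi * r ^ 2 / 2) * F.as q r j := by
    intro j
    unfold Flat.as
    field_simp
  have h1 : vsq (α - F.as q r) = vsq α - 2 * ∑ j, α j * F.as q r j + vsq (F.as q r) := by
    unfold vsq
    rw [Finset.mul_sum, ← Finset.sum_sub_distrib, ← Finset.sum_add_distrib]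
    refine Finset.sum_congr rfl fun j _ => ?_
    simp only [Pi.sub_apply]
    ring
  have h2 : ∑ j, α j * F.Y q r j = (2 * k + d) * (Real.pi * r ^ 2 / 2) *
      ∑ j, α j * F.as q r j := by
    rw [Finset.mul_sum]
    refine Finset.sum_congr rfl fun j _ => ?_
    rw [hY j]
    ring
  rw [h1, h2]
  ring

/-- the angular integrals at a good radius -/
theorem nu_add_t {F : Flat k d n} {q r : ℝ} (hr : 0 < r)
    (hP : ∀ i l, IntervalIntegrable (fun θ => F.Px (cm q r θ) i l) volume 0 Real.pi ∧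
      IntervalIntegrable (fun θ => F.Py (cm q r θ) i l) volume 0 Real.pi)
    (hL : ∀ i l, IntervalIntegrable (fun θ => F.Lx (cm q r θ) i l) volume 0 Real.pi ∧
      IntervalIntegrable (fun θ => F.Ly (cm q r θ) i l) volume 0 Real.pi)
    (hg : IntervalIntegrable (fun θ => g0 F (cm q r θ)) volume 0 Real.pi)
    (α : Fin n → ℝ) :
    (F.nu q r α + F.t q r α) / r = r * (∫ θ in (0 : ℝ)..Real.pi, g0 F (cm q r θ)) -
      2 * ∑ j, α j * (r * ∫ θ in (0 : ℝ)..Real.pi, gy F j (cm q r θ)) +
      (2 * k + d) * vsq α * (Real.pi * r) := by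
  have hpi := Real.pi_pos
  have hb : ∀ j, IntervalIntegrable (fun θ => gy F j (cm q r θ)) volume 0 Real.pi := by
    intro j
    have h1 : IntervalIntegrable (fun θ => ∑ i, F.Py (cm q r θ) i j) volume 0 Real.pi :=
      ii_sum _ fun i => (hP i j).2
    have h2 : IntervalIntegrable (fun θ => ∑ i, F.Ly (cm q r θ) i j) volume 0 Real.pi :=
      ii_sum _ fun i => (hL i j).2
    exact h1.add h2
  have e1 : ∀ j, IntervalIntegrable (fun θ => α j * gy F j (cm q r θ)) volume 0 Real.pi :=
    fun j => (hb j).const_mul (α j)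
  have e2 : IntervalIntegrable (fun θ => ∑ j, α j * gy F j (cm q r θ)) volume 0 Real.pi :=
    ii_sum _ fun j => e1 j
  have e3 : IntervalIntegrable (fun θ => 2 * ∑ j, α j * gy F j (cm q r θ)) volume 0 Real.pi :=
    e2.const_mul 2
  have e4 : IntervalIntegrable (fun θ => g0 F (cm q r θ) - 2 * ∑ j, α j * gy F j (cm q r θ))
      volume 0 Real.pi := hg.sub e3
  have e5 : IntervalIntegrable (fun _ : ℝ => (2 * k + d) * vsq α) volume 0 Real.pi :=
    intervalIntegrable_const
  have e6 : IntervalIntegrable (fun θ => gD F α (cm q r θ)) volume 0 Real.pi := by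
    have h : (fun θ => gD F α (cm q r θ)) = fun θ =>
        g0 F (cm q r θ) - 2 * ∑ j, α j * gy F j (cm q r θ) + (2 * k + d) * vsq α := by
      funext θ; exact gD_eq F α _
    rw [h]
    exact e4.add e5
  -- the two parts
  set A : ℝ → ℝ := fun θ => nsq (Flat.rd θ (F.Px (cm q r θ)) (sh (F.Py (cm q r θ)) α)) +
      nsq (Flat.rd θ (F.Lx (cm q r θ)) (sh (F.Ly (cm q r θ)) α)) with hA
  set B : ℝ → ℝ := fun θ => nsq (Flat.tg θ (F.Px (cm q r θ)) (sh (F.Py (cm q r θ)) α)) +
      nsq (Flat.tg θ (F.Lx (cm q r θ)) (sh (F.Ly (cm q r θ)) α)) with hB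
  have hAB : ∀ θ, A θ + B θ = gD F α (cm q r θ) := by
    intro θ
    have h1 := nsq_rd_add_nsq_tg θ (F.Px (cm q r θ)) (sh (F.Py (cm q r θ)) α)
    have h2 := nsq_rd_add_nsq_tg θ (F.Lx (cm q r θ)) (sh (F.Ly (cm q r θ)) α)
    simp only [hA, hB, gD]
    linarith
  have hA0 : ∀ θ, 0 ≤ A θ := fun θ => add_nonneg (nsq_nonneg _) (nsq_nonneg _)
  have hB0 : ∀ θ, 0 ≤ B θ := fun θ => add_nonneg (nsq_nonneg _) (nsq_nonneg _)
  have hmA : AEStronglyMeasurable A (volume.restrict (Ioc 0 Real.pi)) := by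
    have m1 : ∀ i l, AEStronglyMeasurable (fun θ => Real.cos θ * F.Px (cm q r θ) i l +
        Real.sin θ * (F.Py (cm q r θ) i l - α l)) (volume.restrict (Ioc 0 Real.pi)) := fun i l =>
      ((Real.continuous_cos.aestronglyMeasurable).mul (hP i l).1.1.aestronglyMeasurable).add
        ((Real.continuous_sin.aestronglyMeasurable).mul
          ((hP i l).2.1.aestronglyMeasurable.sub aestronglyMeasurable_const))
    have m2 : ∀ i l, AEStronglyMeasurable (fun θ => Real.cos θ * F.Lx (cm q r θ) i l +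
        Real.sin θ * (F.Ly (cm q r θ) i l - α l)) (volume.restrict (Ioc 0 Real.pi)) := fun i l =>
      ((Real.continuous_cos.aestronglyMeasurable).mul (hL i l).1.1.aestronglyMeasurable).add
        ((Real.continuous_sin.aestronglyMeasurable).mul
          ((hL i l).2.1.aestronglyMeasurable.sub aestronglyMeasurable_const))
    exact (Finset.aestronglyMeasurable_fun_sum _ fun i _ =>
        Finset.aestronglyMeasurable_fun_sum _ fun l _ => (m1 i l).pow 2).add
      (Finset.aestronglyMeasurable_fun_sum _ fun i _ =>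
        Finset.aestronglyMeasurable_fun_sum _ fun l _ => (m2 i l).pow 2)
  have iA : IntervalIntegrable A volume 0 Real.pi := by
    rw [intervalIntegrable_iff_integrableOn_Ioc_of_le hpi.le] at e6 ⊢
    refine Integrable.mono' e6 hmA (Eventually.of_forall fun θ => ?_)
    rw [Real.norm_eq_abs, abs_of_nonneg (hA0 θ), ← hAB θ]
    linarith [hB0 θ]
  have iB : IntervalIntegrable B volume 0 Real.pi := by
    have h : B = fun θ => gD F α (cm q r θ) - A θ := by
      funext θ; rw [← hAB θ]; ring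
    rw [h]
    exact e6.sub iA
  have h1 : F.nu q r α = r ^ 2 * ∫ θ in (0 : ℝ)..Real.pi, A θ := rfl
  have h2 : F.t q r α = r ^ 2 * ∫ θ in (0 : ℝ)..Real.pi, B θ := rfl
  have h3 : (∫ θ in (0 : ℝ)..Real.pi, A θ) + ∫ θ in (0 : ℝ)..Real.pi, B θ =
      ∫ θ in (0 : ℝ)..Real.pi, gD F α (cm q r θ) := by
    rw [← intervalIntegral.integral_add iA iB]
    exact intervalIntegral.integral_congr fun θ _ => hAB θ
  have h4 : ∫ θ in (0 : ℝ)..Real.pi, gD F α (cm q r θ) =
      (∫ θ in (0 : ℝ)..Real.pi, g0 F (cm q r θ)) -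
      2 * ∑ j, α j * (∫ θ in (0 : ℝ)..Real.pi, gy F j (cm q r θ)) +
      (2 * k + d) * vsq α * Real.pi := by
    calc ∫ θ in (0 : ℝ)..Real.pi, gD F α (cm q r θ)
        = ∫ θ in (0 : ℝ)..Real.pi, (g0 F (cm q r θ) - 2 * ∑ j, α j * gy F j (cm q r θ) +
            (2 * k + d) * vsq α) := intervalIntegral.integral_congr fun θ _ => gD_eq F α _
      _ = (∫ θ in (0 : ℝ)..Real.pi, (g0 F (cm q r θ) - 2 * ∑ j, α j * gy F j (cm q r θ))) +
            ∫ _θ in (0 : ℝ)..Real.pi, (2 * k + d) * vsq α := intervalIntegral.integral_add e4 e5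
      _ = _ := by
          rw [intervalIntegral.integral_sub hg e3, intervalIntegral.integral_const_mul,
            intervalIntegral.integral_finsetSum fun j _ => e1 j, intervalIntegral.integral_const]
          simp only [intervalIntegral.integral_const_mul, sub_zero, smul_eq_mul]
          ring
  rw [h1, h2, ← mul_add, h3, h4]
  have h5 : ∑ j, α j * (r * ∫ θ in (0 : ℝ)..Real.pi, gy F j (cm q r θ)) =
      r * ∑ j, α j * ∫ θ in (0 : ℝ)..Real.pi, gy F j (cm q r θ) := by
    rw [Finset.mul_sum]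
    exact Finset.sum_congr rfl fun j _ => by ring
  rw [h5]
  field_simp

end ENV_

open ENV_ in
theorem env_proof (hPOL : Stmt_POL) : Stmt_ENV := by
  intro k d n F hk hF q hq
  have hF0 : F.Ok0 := hF.toOk0
  have hk' : (0 : ℝ) < k := by exact_mod_cast hk
  have hc : (0 : ℝ) < 2 * k + d := by positivity
  have hpi := Real.pi_pos
  have vsq0 : vsq (0 : Fin n → ℝ) = 0 := by simp [vsq]
  refine ⟨?_, ?_, ?_⟩
  · intro r hr hqr
    have hM := fun α => M_eq hPOL hk hF0 hr hqr.le α
    have hD0 : ∀ α, 0 ≤ F.D q r α := fun α => integral_nonneg fun z => gD_nonneg F α z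
    have hcr : 0 < (2 * (k : ℝ) + d) * (Real.pi * r ^ 2 / 2) := by positivity
    have hM1 : F.M q r = (∫ z in HD q r, g0 F z) - (2 * k + d) * (Real.pi * r ^ 2 / 2) *
        vsq (F.as q r) := by
      unfold Flat.M
      rw [hM (F.as q r), sub_self, vsq0]
      ring
    have hM0 : 0 ≤ F.M q r := hD0 _
    have hz : F.D q r 0 = ∫ z in HD q r, g0 F z := by
      rw [hM 0]
      have : vsq (0 - F.as q r) = vsq (F.as q r) := by simp [vsq]
      rw [this]
      ring
    refine ⟨hM0, fun α => ?_, ?_, fun j => ?_⟩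
    · rw [hM1, hM α]
      have := vsq_nonneg (α - F.as q r)
      nlinarith [mul_nonneg hcr.le this]
    · rw [hz, le_div_iff₀ (by positivity)]
      rw [hM1] at hM0
      nlinarith
    · have hsub := HD_sub hqr.le
      have e1 : IntegrableOn (fun z => gy F j z) (HD q r) := (gy_int hF0 j).mono_set hsub
      have e2 : IntegrableOn (fun _ : ℂ => (2 * k + d) * F.as q r j) (HD q r) :=
        integrableOn_const (hs := (HD_fin q r).ne)
      calc ∫ z in HD q r, (sm (F.Py z) j + sm (F.Ly z) j - (2 * k + d) * F.as q r j)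
          = (∫ z in HD q r, gy F j z) - ∫ _z in HD q r, (2 * k + d) * F.as q r j * 1 := by
            simp only [mul_one]
            exact integral_sub e1 e2
        _ = F.Y q r j - (2 * k + d) * F.as q r j * (Real.pi * r ^ 2 / 2) := by
            rw [integral_const_mul, area hPOL q r hr]
            rfl
        _ = 0 := by
            unfold Flat.as
            field_simp
            ring
  · intro r s hr hrs hqs α
    rw [D_eq0, D_eq0]
    refine setIntegral_mono_set ((gD_int hF0 α).mono_set (HD_sub hqs.le))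
      (Eventually.of_forall fun z => gD_nonneg F α z) ?_
    exact (HD_mono hrs).eventuallyLE
  · set R' : ℝ := F.R - |q| with hR'
    have hR'0 : 0 < R' := by rw [hR']; linarith
    have hsub : HD q R' ⊆ HD 0 F.R := HD_sub (by rw [hR']; linarith)
    have p0 := hPOL q R' (g0 F) hR'0 ((g0_int hF0).mono_set hsub)
    have pY := fun j => hPOL q R' (gy F j) hR'0 ((gy_int hF0 j).mono_set hsub)
    have pPx := fun i l => hPOL q R' (fun z => F.Px z i l) hR'0
      ((comp_int hF0.pg hF0.pI i l).1.mono_set hsub)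
    have pPy := fun i l => hPOL q R' (fun z => F.Py z i l) hR'0
      ((comp_int hF0.pg hF0.pI i l).2.mono_set hsub)
    have pLx := fun i l => hPOL q R' (fun z => F.Lx z i l) hR'0
      ((comp_int hF0.lg hF0.lI i l).1.mono_set hsub)
    have pLy := fun i l => hPOL q R' (fun z => F.Ly z i l) hR'0
      ((comp_int hF0.lg hF0.lI i l).2.mono_set hsub)
    have a1 := ae_all_iff.2 fun i => ae_all_iff.2 fun l => (pPx i l).1
    have a2 := ae_all_iff.2 fun i => ae_all_iff.2 fun l => (pPy i l).1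
    have a3 := ae_all_iff.2 fun i => ae_all_iff.2 fun l => (pLx i l).1
    have a4 := ae_all_iff.2 fun i => ae_all_iff.2 fun l => (pLy i l).1
    have a5 := p0.2.1.ae_hasDerivAt_integral
    have a6 := ae_all_iff.2 fun j => (pY j).2.1.ae_hasDerivAt_integral
    filter_upwards [a1, a2, a3, a4, a5, a6, p0.1] with r b1 b2 b3 b4 b5 b6 b7 hr hqr
    have hrI : r ∈ Ioo 0 R' := ⟨hr, by rw [hR']; linarith⟩
    have hrI' : r ∈ uIcc 0 R' := by
      rw [uIcc_of_le hR'0.le]; exact ⟨hr.le, hrI.2.le⟩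
    have h0I : (0 : ℝ) ∈ uIcc 0 R' := left_mem_uIcc
    have hnu := fun α => nu_add_t (F := F) (q := q) hr
      (fun i l => ⟨b1 i l hrI, b2 i l hrI⟩) (fun i l => ⟨b3 i l hrI, b4 i l hrI⟩) (b7 hrI) α
    set d0 : ℝ := r * ∫ θ in (0 : ℝ)..Real.pi, g0 F (cm q r θ) with hd0
    set y : Fin n → ℝ := fun j => r * ∫ θ in (0 : ℝ)..Real.pi, gy F j (cm q r θ) with hy
    have hnhds : ∀ᶠ s in 𝓝 r, s ∈ Ioo 0 R' := Ioo_mem_nhds hrI.1 hrI.2
    have dD : HasDerivAt (fun s => ∫ z in HD q s, g0 F z) d0 r := by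
      refine (b5 hrI' 0 h0I).congr_of_eventuallyEq ?_
      filter_upwards [hnhds] with s hs
      exact p0.2.2 s ⟨hs.1.le, hs.2.le⟩
    have dY : ∀ j, HasDerivAt (fun s => F.Y q s j) (y j) r := by
      intro j
      refine (b6 j hrI' 0 h0I).congr_of_eventuallyEq ?_
      filter_upwards [hnhds] with s hs
      rw [Y_eq0]
      exact (pY j).2.2 s ⟨hs.1.le, hs.2.le⟩
    constructor
    · -- derivative of M
      have hMs : ∀ s ∈ Ioo 0 R', F.M q s = (∫ z in HD q s, g0 F z) -
          2 / ((2 * k + d) * Real.pi) * ∑ j, F.Y q s j ^ 2 / s ^ 2 := by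
        intro s hs
        unfold Flat.M
        rw [M_eq hPOL hk hF0 hs.1 (by have := hs.2; rw [hR'] at this; linarith), sub_self, vsq0]
        have h1 : vsq (F.as q s) = 4 / ((2 * k + d) ^ 2 * Real.pi ^ 2 * s ^ 2) *
            ∑ j, F.Y q s j ^ 2 / s ^ 2 := by
          unfold vsq Flat.as
          rw [Finset.mul_sum]
          refine Finset.sum_congr rfl fun j _ => ?_
          have := hs.1
          field_simp
          ring
        rw [h1]
        have := hs.1
        field_simp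
        ring
      have hder : HasDerivAt (fun s => (∫ z in HD q s, g0 F z) -
          2 / ((2 * k + d) * Real.pi) * ∑ j, F.Y q s j ^ 2 / s ^ 2)
          (d0 - 2 / ((2 * k + d) * Real.pi) * ∑ j, ((2 * F.Y q r j * y j) * r ^ 2 -
            F.Y q r j ^ 2 * (2 * r)) / (r ^ 2) ^ 2) r := by
        refine dD.sub ((HasDerivAt.fun_sum fun j _ => ?_).const_mul _)
        have e1 : HasDerivAt (fun s => F.Y q s j ^ 2) (2 * F.Y q r j * y j) r := by
          simpa using (dY j).fun_pow 2
        have e2 : HasDerivAt (fun s : ℝ => s ^ 2) (2 * r) r := by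
          simpa using hasDerivAt_pow 2 r
        exact e1.div e2 (by positivity)
      have hder2 : HasDerivAt (fun s => F.M q s) (d0 - 2 / ((2 * k + d) * Real.pi) *
          ∑ j, ((2 * F.Y q r j * y j) * r ^ 2 - F.Y q r j ^ 2 * (2 * r)) / (r ^ 2) ^ 2) r := by
        refine hder.congr_of_eventuallyEq ?_
        filter_upwards [hnhds] with s hs
        exact hMs s hs
      have hval : (F.nu q r (F.as q r) + F.t q r (F.as q r)) / r =
          d0 - 2 / ((2 * k + d) * Real.pi) *
          ∑ j, ((2 * F.Y q r j * y j) * r ^ 2 - F.Y q r j ^ 2 * (2 * r)) / (r ^ 2) ^ 2 := by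
        rw [hnu (F.as q r)]
        have h1 : (2 * (k : ℝ) + d) * vsq (F.as q r) * (Real.pi * r) =
            ∑ j, (2 * (k : ℝ) + d) * (Real.pi * r) * (F.as q r j) ^ 2 := by
          rw [← Finset.mul_sum]; unfold vsq; ring
        rw [h1, Finset.mul_sum, Finset.mul_sum, sub_add, ← Finset.sum_sub_distrib]
        congr 1
        refine Finset.sum_congr rfl fun j _ => ?_
        unfold Flat.as
        field_simp
        ring
      rw [hval]
      exact hder2
    · have h1 := hnu 0
      have h2 : (F.nu q r 0 + F.t q r 0) / r = d0 := by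
        rw [h1, vsq0]
        simp
      rw [h2]
      refine dD.congr_of_eventuallyEq ?_
      filter_upwards [hnhds] with s hs
      rw [D_eq hPOL hF0 hs.1 (by have := hs.2; rw [hR'] at this; linarith), vsq0]
      simp

end Pool.Agent.DMB
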