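import Pool.Agent.DMB.Api

namespace Pool.Agent.DMB

open MeasureTheory Set Metric Filter Topology
open scoped ENNReal

theorem fin_proof (hSYS : Stmt_SYS) (hIND : Stmt_IND) (hRGP : Stmt_RGP) : Stmt_FIN := by
  intro n k Om Op Omi ga φ gp gm hs hφ hm
  obtain ⟨up, um, h1, h2, h3⟩ := hSYS n k Om Op Omi ga φ gp gm hs hm
  have := hIND k 1 n Om Op Omi ga φ up um le_rfl hs hφ h3
  refine measure_mono_null ?_ this
  rintro p ⟨hp, hn⟩
  exact ⟨hp, fun hr => hn (hRGP n k Op Omi ga gp gm up um p h1 h2 hr)⟩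

end Pool.Agent.DMB
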