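import Pool.Agent.DMB.Api

set_option autoImplicit false

/-!
FL1: the flattened system.
-/

namespace Pool.Agent.DMB

open MeasureTheory Set Metric Filter Topology
open scoped ENNReal

namespace FL1_

variable {K n : ℕ}

/-! ### the metric -/

theorem dG_shift (a b : Tup K n) (c : E n) : dG (fun i => a i - c) (fun i => b i - c) = dG a b := by
  unfold dG
  congr 1
  funext σ
  congr 1
  unfold sqd
  exact Finset.sum_congr rfl fun i _ => by simp

theorem dG_rshift (a b : Tup K n) (c : E n) :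
    dG (fun i => c - a i) (fun i => c - b i) = dG a b := by
  unfold dG
  congr 1
  funext σ
  congr 1
  unfold sqd
  refine Finset.sum_congr rfl fun i _ => ?_
  simp only [Function.comp]
  rw [show c - a i - (c - b (σ i)) = -(a i - b (σ i)) by abel, norm_neg]

theorem contG_comp {A S : Set ℂ} {u : ℂ → Tup K n} {Ψ : ℂ → ℂ} (hu : ContG A u)
    (hΨ : ContinuousOn Ψ S) (hm : MapsTo Ψ S A) : ContG S (fun z => u (Ψ z)) := by
  intro z hz
  exact (hu (Ψ z) (hm hz)).comp ((hΨ z hz).tendsto_nhdsWithin hm)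

theorem sub_tendsto {S : Set ℂ} {e : ℂ → E n} (he : ContinuousOn e S) {z : ℂ} (hz : z ∈ S) :
    Tendsto (fun w => Real.sqrt (K * ‖e w - e z‖ ^ 2)) (𝓝[S] z) (𝓝 0) := by
  have h1 : Tendsto (fun w => ‖e w - e z‖) (𝓝[S] z) (𝓝 0) := by
    have := ((he z hz).tendsto.sub_const (e z)).norm
    simpa using this
  have h2 := (Real.continuous_sqrt.tendsto _).comp ((h1.pow 2).const_mul (K : ℝ))
  simpa [Function.comp_def] using h2

theorem contG_sub (hMET : Stmt_MET) {S : Set ℂ} {u : ℂ → Tup K n} {e : ℂ → E n} (hu : ContG S u)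
    (he : ContinuousOn e S) : ContG S (fun z i => u z i - e z) := by
  intro z hz
  have h1 := (hu z hz).add (sub_tendsto (K := K) he hz)
  rw [add_zero] at h1
  refine squeeze_zero (fun w => (hMET K n _ _ (u z)).1) (fun w => ?_) h1
  have h2 := (hMET K n (fun i => u w i - e w) (fun i => u z i - e w) (fun i => u z i - e z)).2.2.1
  rw [dG_shift] at h2
  have h3 := (hMET K n (fun i => u z i - e w) (fun i => u z i - e z) (u z)).2.2.2.2.2.1
    (Equiv.refl _)
  have h4 : sqd (fun i => u z i - e w) ((fun i => u z i - e z) ∘ (Equiv.refl (Fin K))) =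
      K * ‖e w - e z‖ ^ 2 := by
    unfold sqd
    rw [Finset.sum_congr rfl (g := fun _ => ‖e w - e z‖ ^ 2)]
    · simp
    · intro i _
      simp only [Function.comp, Equiv.refl_apply]
      rw [show u z i - e w - (u z i - e z) = -(e w - e z) by abel, norm_neg]
  rw [h4] at h3
  linarith

theorem contG_rsub (hMET : Stmt_MET) {S : Set ℂ} {u : ℂ → Tup K n} {e : ℂ → E n} (hu : ContG S u)
    (he : ContinuousOn e S) : ContG S (fun z i => e z - u z i) := by
  intro z hz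
  have h1 := (hu z hz).add (sub_tendsto (K := K) he hz)
  rw [add_zero] at h1
  refine squeeze_zero (fun w => (hMET K n _ _ (u z)).1) (fun w => ?_) h1
  have h2 := (hMET K n (fun i => e w - u w i) (fun i => e w - u z i) (fun i => e z - u z i)).2.2.1
  rw [dG_rshift] at h2
  have h3 := (hMET K n (fun i => e w - u z i) (fun i => e z - u z i) (u z)).2.2.2.2.2.1
    (Equiv.refl _)
  have h4 : sqd (fun i => e w - u z i) ((fun i => e z - u z i) ∘ (Equiv.refl (Fin K))) =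
      K * ‖e w - e z‖ ^ 2 := by
    unfold sqd
    rw [Finset.sum_congr rfl (g := fun _ => ‖e w - e z‖ ^ 2)]
    · simp
    · intro i _
      simp only [Function.comp, Equiv.refl_apply]
      rw [show e w - u z i - (e z - u z i) = e w - e z by abel]
  rw [h4] at h3
  linarith

/-! ### gradients -/

theorem grad_sub (hGAL : Stmt_GAL) {U : Set ℂ} (hU : IsOpen U) {s X Y : ℂ → Mat K n}
    {η ηx ηy : ℂ → Fin n → ℝ} (hs : HasGradV U s X Y) (hη : HasGradW U η ηx ηy) :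
    HasGradV U (fun z => sh (s z) (η z)) (fun z => sh (X z) (ηx z)) (fun z => sh (Y z) (ηy z)) := by
  intro i l
  obtain ⟨-, -, hadd, hmul, -⟩ := hGAL U hU
  have h := hadd _ _ _ _ _ _ (hs i l) (hmul (-1) _ _ _ (hη l))
  have e : ∀ (f : ℂ → Mat K n) (g : ℂ → Fin n → ℝ),
      (fun z => sh (f z) (g z) i l) = fun z => f z i l + -1 * g z l := by
    intro f g
    funext z
    simp only [sh]
    ring
  rw [e, e, e]
  exact h

theorem grad_rev (hGAL : Stmt_GAL) {U : Set ℂ} (hU : IsOpen U) {s X Y : ℂ → Mat K n}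
    {η ηx ηy : ℂ → Fin n → ℝ} (hs : HasGradV U s X Y) (hη : HasGradW U η ηx ηy) :
    HasGradV U (fun z i l => -(s z (Fin.rev i) l) + η z l)
      (fun z i l => -(X z (Fin.rev i) l) + ηx z l)
      (fun z i l => -(Y z (Fin.rev i) l) + ηy z l) := by
  intro i l
  obtain ⟨-, -, hadd, hmul, -⟩ := hGAL U hU
  have h := hadd _ _ _ _ _ _ (hmul (-1) _ _ _ (hs (Fin.rev i) l)) (hη l)
  have e : ∀ (f : ℂ → Mat K n) (g : ℂ → Fin n → ℝ),
      (fun z => -(f z (Fin.rev i) l) + g z l) = fun z => -1 * f z (Fin.rev i) l + g z l := by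
    intro f g
    funext z
    ring
  simp only [e]
  exact h

theorem gradV_mono (hGAL : Stmt_GAL) {U V : Set ℂ} (hU : IsOpen U) (hV : IsOpen V) (h : V ⊆ U)
    {s X Y : ℂ → Mat K n} (hs : HasGradV U s X Y) : HasGradV V s X Y :=
  fun i l => (hGAL U hU).1 V _ _ _ hV h (hs i l)

theorem gradW_mono (hGAL : Stmt_GAL) {U V : Set ℂ} (hU : IsOpen U) (hV : IsOpen V) (h : V ⊆ U)
    {η ηx ηy : ℂ → Fin n → ℝ} (hs : HasGradW U η ηx ηy) : HasGradW V η ηx ηy :=
  fun l => (hGAL U hU).1 V _ _ _ hV h (hs l)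

theorem ed_meas {U : Set ℂ} {s X Y : ℂ → Mat K n} (h : HasGradV U s X Y) :
    AEStronglyMeasurable (ed X Y) (volume.restrict U) := by
  have h1 : AEStronglyMeasurable (fun z => ∑ i, ∑ l, X z i l ^ 2) (volume.restrict U) :=
    Finset.aestronglyMeasurable_fun_sum _ fun i _ =>
      Finset.aestronglyMeasurable_fun_sum _ fun l _ => (h i l).mx.pow 2
  have h2 : AEStronglyMeasurable (fun z => ∑ i, ∑ l, Y z i l ^ 2) (volume.restrict U) :=
    Finset.aestronglyMeasurable_fun_sum _ fun i _ =>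
      Finset.aestronglyMeasurable_fun_sum _ fun l _ => (h i l).my.pow 2
  exact h1.add h2

theorem nsq_add_le (v w : Mat K n) : nsq (v + w) ≤ 2 * nsq v + 2 * nsq w := by
  rw [nsq_add]
  have := two_dt_le v w
  linarith

theorem nsq_sh_le (v : Mat K n) (b : Fin n → ℝ) : nsq (sh v b) ≤ 2 * nsq v + 2 * (K * vsq b) := by
  rw [sh_eq, sub_eq_add_neg]
  have := nsq_add_le v (-rw' K b)
  rwa [nsq_neg, nsq_rw] at this

theorem nsq_rev_eq (v : Mat K n) : nsq (fun i l => -(v (Fin.rev i) l)) = nsq v := by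
  unfold nsq
  have h := Equiv.sum_comp (Fin.revPerm (n := K)) (fun i => ∑ l, v i l ^ 2)
  rw [← h]
  exact Finset.sum_congr rfl fun i _ => by simp

theorem nsq_rev_le (v : Mat K n) (b : Fin n → ℝ) :
    nsq (fun i l => -(v (Fin.rev i) l) + b l) ≤ 2 * nsq v + 2 * (K * vsq b) := by
  have := nsq_add_le (fun i l => -(v (Fin.rev i) l)) (rw' K b)
  rw [nsq_rev_eq, nsq_rw] at this
  exact this

/-- the energy density is dominated by the quadratic form -/
theorem ed_le (a : Fin 3 → ℝ) (h0 : |a 0 - 1| ≤ 1 / 4) (h1 : |a 1| ≤ 1 / 4)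
    (h2 : |a 2 - 1| ≤ 1 / 4) (X Y : Mat K n) : nsq X + nsq Y ≤ 2 * qd a X Y := by
  have := (abs_le.1 (qd_close a (1 / 4) h0 h1 h2 X Y)).1
  linarith

/-! ### sets -/

theorem HD_ball {r R : ℝ} (h : r ≤ R) : HD 0 r ⊆ ball (0 : ℂ) R := by
  intro z hz
  rw [mem_ball_zero_iff]
  have := hz.2
  simp only [Complex.ofReal_zero, sub_zero] at this
  linarith

theorem HDc_ball {r R : ℝ} (h : r ≤ R) : HDc 0 r ⊆ ball (0 : ℂ) R := by
  intro z hz
  rw [mem_ball_zero_iff]
  have := hz.2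
  simp only [Complex.ofReal_zero, sub_zero] at this
  linarith

theorem im_sq_le {r : ℝ} {z : ℂ} (hz : ‖z‖ < r) : z.im ^ 2 ≤ r ^ 2 := by
  have h1 := Complex.abs_im_le_norm z
  rw [← sq_abs]
  have h2 := abs_nonneg z.im
  nlinarith

/-- the lower half disc -/
def LD (r : ℝ) : Set ℂ := {z | starRingEnd ℂ z ∈ HD 0 r}

theorem LD_iff {r : ℝ} {z : ℂ} : z ∈ LD r ↔ z.im < 0 ∧ ‖z‖ < r := by
  have h : ‖(starRingEnd ℂ) z - ((0 : ℝ) : ℂ)‖ = ‖z‖ := by
    rw [Complex.ofReal_zero, sub_zero, Complex.norm_conj]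
  constructor
  · rintro ⟨h1, h2⟩
    rw [h] at h2
    rw [Complex.conj_im] at h1
    exact ⟨by linarith, h2⟩
  · rintro ⟨h1, h2⟩
    refine ⟨?_, ?_⟩
    · rw [Complex.conj_im]
      linarith
    · rw [h]
      exact h2

theorem LD_open (r : ℝ) : IsOpen (LD r) := (isOpen_HD 0 r).preimage Complex.continuous_conj

theorem LD_conj (r : ℝ) : {z : ℂ | starRingEnd ℂ z ∈ LD r} = HD 0 r := by
  ext z
  simp only [LD, mem_ofPred_eq, Complex.conj_conj]

theorem LD_ball {r R : ℝ} (h : r ≤ R) : LD r ⊆ ball (0 : ℂ) R := by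
  intro z hz
  rw [mem_ball_zero_iff]
  have := (LD_iff.1 hz).2
  linarith

/-! ### sorted sheets -/

theorem xi_sub (hAFF : Stmt_AFF) (a : Tup K n) (b : Fin n → ℝ) :
    xi (fun i => a i - WithLp.toLp 2 b) = sh (xi a) b := by
  have h := (hAFF K n a).1 1 (-WithLp.toLp 2 b) zero_le_one
  have e : (fun i => (1 : ℝ) • a i + -WithLp.toLp 2 b) = fun i => a i - WithLp.toLp 2 b := by
    funext i
    rw [one_smul, sub_eq_add_neg]
  rw [e] at h
  rw [h]
  funext i l
  simp [sh, sub_eq_add_neg]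

theorem xi_rsub (hAFF : Stmt_AFF) (a : Tup K n) (b : Fin n → ℝ) :
    xi (fun i => WithLp.toLp 2 b - a i) = fun i l => -(xi a (Fin.rev i) l) + b l := by
  have h := (hAFF K n (fun i => -(a i))).1 1 (WithLp.toLp 2 b) zero_le_one
  have e : (fun i => (1 : ℝ) • (-(a i)) + WithLp.toLp 2 b) = fun i => WithLp.toLp 2 b - a i := by
    funext i
    rw [one_smul]
    abel
  rw [e, (hAFF K n a).2] at h
  rw [h]
  funext i l
  simp

/-! ### energies -/

theorem side (hGAL : Stmt_GAL) (hFLB : Stmt_FLB) (hJCV : Stmt_JCV) {Op Omi ga : Set ℂ} {Φ : ℂ → ℂ}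
    {c1 : ℝ → ℂ} {R C : ℝ} (hc : Chart Op Omi ga Φ c1 R C) {O V : Set ℂ} (hO : IsOpen O)
    (hV : IsOpen V) (hVR : V ⊆ ball 0 R) (hVO : Φ '' V ⊆ O) {u : ℂ → Tup K n}
    {X Y : ℂ → Mat K n} (hg : HasGradV O (fun z => xi (u z)) X Y) (hI : IntegrableOn (ed X Y) O)
    (hA : ∀ z ∈ V, |cA Φ z 0 - 1| ≤ 1 / 4 ∧ |cA Φ z 1| ≤ 1 / 4 ∧ |cA Φ z 2 - 1| ≤ 1 / 4) :
    ∃ X' Y' : ℂ → Mat K n, HasGradV V (fun z => xi (u (Φ z))) X' Y' ∧
      IntegrableOn (ed X' Y') V := by
  have hop : IsOpen (Φ '' V) := hc.opn V hVR hV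
  obtain ⟨X', Y', hg', he⟩ := (hFLB K n Op Omi ga Φ c1 R C hc V hVR hV (fun z => xi (u z))).1 X Y
    (gradV_mono hGAL hO hop hVO hg)
  refine ⟨X', Y', hg', ?_⟩
  have hinj : InjOn Φ (ball 0 R) := by
    intro z hz w hw h
    have := hc.alip z hz w hw
    rw [h, sub_self, norm_zero, mul_zero] at this
    exact sub_eq_zero.1 (norm_le_zero_iff.1 this)
  have hC : 0 < C := lt_of_lt_of_le one_pos hc.hC
  have hj : ∀ z ∈ ball (0 : ℂ) R, 0 < jac Φ z := fun z hz =>
    lt_of_lt_of_le (inv_pos.2 hC) (hc.jacp z hz)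
  have h1 : IntegrableOn (fun z => jac Φ z * ed X Y (Φ z)) V :=
    ((hJCV (ball 0 R) Φ isOpen_ball hc.smooth hinj hj V hVR hV.measurableSet).2.2 (ed X Y)).1
      (hI.mono_set hVO)
  refine Integrable.mono' (h1.const_mul 2) (ed_meas hg') ?_
  rw [ae_restrict_iff' hV.measurableSet]
  refine Eventually.of_forall fun z hz => ?_
  have h2 : ed X' Y' z ≤ 2 * qd (cA Φ z) (X' z) (Y' z) :=
    ed_le _ (hA z hz).1 (hA z hz).2.1 (hA z hz).2.2 _ _
  have h3 : 0 ≤ ed X' Y' z := add_nonneg (nsq_nonneg _) (nsq_nonneg _)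
  rw [Real.norm_of_nonneg h3, he z hz]
  exact h2

theorem eta_int {R r : ℝ} {η ηx ηy : ℂ → Fin n → ℝ} (hη : HasGradW (ball 0 R) η ηx ηy)
    (h : r < R) : IntegrableOn (fun z => vsq (ηx z) + vsq (ηy z)) (closedBall (0 : ℂ) r) := by
  have h1 : ∀ l, IntegrableOn (fun z => ηx z l ^ 2 + ηy z l ^ 2) (closedBall (0 : ℂ) r) := fun l =>
    (hη l).loc _ (closedBall_subset_ball h) (isCompact_closedBall _ _)
  have h2 : (fun z => vsq (ηx z) + vsq (ηy z)) = fun z => ∑ l, (ηx z l ^ 2 + ηy z l ^ 2) := by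
    funext z
    unfold vsq
    rw [Finset.sum_add_distrib]
  rw [h2]
  exact integrable_finsetSum _ fun l _ => h1 l

end FL1_

open FL1_ in
theorem fl1_proof (hMET : Stmt_MET) (_hXIL : Stmt_XIL) (hAFF : Stmt_AFF) (hGAL : Stmt_GAL)
    (_hGUN : Stmt_GUN) (hEND : Stmt_END) (hFLA : Stmt_FLA) (hFLB : Stmt_FLB) (hJCV : Stmt_JCV)
    (hREF : Stmt_REF) : Stmt_FL1 := by
  classical
  intro k d n Op Omi ga φ up um Φ c1 R C C' η ηx ηy hOp hOmi hsys hc hφ
  obtain ⟨hcA, C2, hC2, hAb⟩ := hFLA Op Omi ga Φ c1 R C hc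
  have hR := hc.hR
  obtain ⟨C0, hC01, hC02, hC03⟩ : ∃ C0 : ℝ, 1 ≤ C0 ∧ C2 ≤ C0 ∧ C' ≤ C0 :=
    ⟨max 1 (max C2 C'), le_max_left _ _, (le_max_left _ _).trans (le_max_right _ _),
      (le_max_right _ _).trans (le_max_right _ _)⟩
  obtain ⟨R1, hR1, hR1R, hR1C⟩ : ∃ R1 : ℝ, 0 < R1 ∧ R1 < R ∧ C0 * R1 ^ 2 ≤ 1 / 4 := by
    refine ⟨min (R / 2) (1 / (2 * C0)), by positivity, ?_, ?_⟩
    · exact (min_le_left _ _).trans_lt (by linarith)
    · have h1 : min (R / 2) (1 / (2 * C0)) ≤ 1 / (2 * C0) := min_le_right _ _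
      have h2 : 0 ≤ min (R / 2) (1 / (2 * C0)) := by positivity
      have h3 : min (R / 2) (1 / (2 * C0)) ^ 2 ≤ (1 / (2 * C0)) ^ 2 := by gcongr
      calc C0 * min (R / 2) (1 / (2 * C0)) ^ 2 ≤ C0 * (1 / (2 * C0)) ^ 2 := by gcongr
        _ = 1 / (4 * C0) := by field_simp; norm_num
        _ ≤ 1 / 4 := by
          apply div_le_div_of_nonneg_left <;> linarith
  have hC0 : 0 < C0 := by linarith
  have hHDR : HD 0 R1 ⊆ ball (0 : ℂ) R := HD_ball hR1R.le
  have hHDcR : HDc 0 R1 ⊆ ball (0 : ℂ) R := HDc_ball hR1R.le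
  have hLDR : LD R1 ⊆ ball (0 : ℂ) R := LD_ball hR1R.le
  have hconj : ∀ z ∈ HDc 0 R1, starRingEnd ℂ z ∈ ball (0 : ℂ) R := by
    intro z hz
    have := hHDcR hz
    rw [mem_ball_zero_iff] at this ⊢
    rwa [Complex.norm_conj]
  -- bounds of the coefficients
  have hsm : ∀ z : ℂ, ‖z‖ < R1 → C2 * z.im ^ 2 ≤ 1 / 4 := by
    intro z hz
    have h1 := im_sq_le hz
    have h2 := sq_nonneg z.im
    calc C2 * z.im ^ 2 ≤ C0 * z.im ^ 2 := by gcongr
      _ ≤ C0 * R1 ^ 2 := by gcongr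
      _ ≤ 1 / 4 := hR1C
  have hA1 : ∀ z ∈ HD 0 R1,
      |cA Φ z 0 - 1| ≤ 1 / 4 ∧ |cA Φ z 1| ≤ 1 / 4 ∧ |cA Φ z 2 - 1| ≤ 1 / 4 := by
    intro z hz
    have h1 := hAb z (hHDR hz)
    have h2 := hsm z (by have := hz.2; simpa using this)
    exact ⟨h1.1.trans h2, h1.2.1.trans h2, h1.2.2.trans h2⟩
  have hA2 : ∀ z ∈ LD R1,
      |cA Φ z 0 - 1| ≤ 1 / 4 ∧ |cA Φ z 1| ≤ 1 / 4 ∧ |cA Φ z 2 - 1| ≤ 1 / 4 := by
    intro z hz
    have h1 := hAb z (hLDR hz)
    have h2 := hsm z (LD_iff.1 hz).2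
    exact ⟨h1.1.trans h2, h1.2.1.trans h2, h1.2.2.trans h2⟩
  -- images
  have himU : Φ '' HD 0 R1 ⊆ Op := by
    rintro _ ⟨z, hz, rfl⟩
    exact ((hc.side z (hHDR hz)).1).2 hz.1
  have himL : Φ '' LD R1 ⊆ Omi := by
    rintro _ ⟨z, hz, rfl⟩
    exact ((hc.side z (hLDR hz)).2.1).2 (LD_iff.1 hz).1
  -- gradients of the sheets
  obtain ⟨X, Y, hg, hI, -⟩ := (hEND (k + d) n Op up hOp).2.1 hsys.fp
  obtain ⟨X', Y', hg', hI', -⟩ := (hEND k n Omi um hOmi).2.1 hsys.fm
  obtain ⟨Xu, Yu, hgu, hIu⟩ := side hGAL hFLB hJCV hc hOp (isOpen_HD 0 R1) hHDR himU hg hI hA1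
  obtain ⟨Xl, Yl, hgl, hIl⟩ := side hGAL hFLB hJCV hc hOmi (LD_open R1) hLDR himL hg' hI' hA2
  have hgl2 := (hREF k n (LD R1) um (LD_open R1)).2.1 (fun z => xi (um (Φ z))) Xl Yl hgl
  rw [LD_conj] at hgl2
  have hIl2 : IntegrableOn (ed (fun z => Xl (starRingEnd ℂ z)) (fun z => -(Yl (starRingEnd ℂ z))))
      (HD 0 R1) := by
    refine ⟨ed_meas hgl2, ?_⟩
    have h1 := (hREF k n (LD R1) um (LD_open R1)).2.2.2 (fun z => ‖ed Xl Yl z‖ₑ) (LD R1)
      (LD_open R1).measurableSet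
    rw [LD_conj] at h1
    have h2 := hIl.2
    unfold HasFiniteIntegral at h2 ⊢
    rw [← h1] at h2
    refine lt_of_eq_of_lt (lintegral_congr fun z => ?_) h2
    unfold ed
    rw [nsq_neg]
  have hηU : HasGradW (HD 0 R1) η ηx ηy := gradW_mono hGAL isOpen_ball (isOpen_HD 0 R1) hHDR hφ.grad
  have hηI := (eta_int hφ.grad hR1R).mono_set (s := HD 0 R1) (by
    intro z hz
    rw [mem_closedBall_zero_iff]
    have := hz.2
    simp only [Complex.ofReal_zero, sub_zero] at this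
    exact this.le)
  have hPg := grad_sub hGAL (isOpen_HD 0 R1) hgu hηU
  have hLg := grad_rev hGAL (isOpen_HD 0 R1) hgl2 hηU
  -- continuity
  have hηc : ContinuousOn (fun z => (WithLp.toLp 2 (η z) : E n)) (HDc 0 R1) := by
    refine (PiLp.continuous_toLp 2 (fun _ : Fin n => ℝ)).comp_continuousOn ?_
    rw [continuousOn_pi]
    intro j
    exact (hφ.grad j).cont.mono hHDcR
  have hΦc : ContinuousOn Φ (ball 0 R) := hc.smooth.continuousOn
  have hpc : ContG (HDc 0 R1) (fun z i => up (Φ z) i - (WithLp.toLp 2 (η z) : E n)) := by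
    refine contG_sub hMET (contG_comp hsys.cp (hΦc.mono hHDcR) ?_) hηc
    intro z hz
    rcases hz.1.lt_or_eq with h | h
    · exact Or.inl (((hc.side z (hHDcR hz)).1).2 h)
    · exact Or.inr (((hc.side z (hHDcR hz)).2.2).2 h.symm)
  have hlc : ContG (HDc 0 R1) (fun z i => (WithLp.toLp 2 (η z) : E n) -
      um (Φ (starRingEnd ℂ z)) i) := by
    refine contG_rsub hMET (contG_comp (Ψ := fun z => Φ (starRingEnd ℂ z)) hsys.cm
      (hΦc.comp Complex.continuous_conj.continuousOn hconj) ?_) hηc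
    intro z hz
    have h2 : (starRingEnd ℂ z).im = -z.im := Complex.conj_im z
    rcases hz.1.lt_or_eq with h | h
    · exact Or.inl (((hc.side _ (hconj z hz)).2.1).2 (by rw [h2]; linarith))
    · exact Or.inr (((hc.side _ (hconj z hz)).2.2).2 (by rw [h2, ← h, neg_zero]))
  -- measurability of the coefficients
  have hAm : ∀ j, Measurable (fun z => (if z ∈ ball (0 : ℂ) R then cA Φ z else 0) j) := by
    intro j
    have h1 : Measurable ((ball (0 : ℂ) R).piecewise (fun z => cA Φ z j) (fun _ => 0)) :=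
      ContinuousOn.measurable_piecewise (hcA j) continuousOn_const measurableSet_ball
    refine Eq.mp (congrArg Measurable (funext fun z => ?_)) h1
    by_cases hz : z ∈ ball (0 : ℂ) R
    · rw [Set.piecewise_eq_of_mem _ _ _ hz, if_pos hz]
    · rw [Set.piecewise_eq_of_notMem _ _ _ hz, if_neg hz]
      rfl
  have hAcm : ∀ j, Measurable (fun z => (if starRingEnd ℂ z ∈ ball (0 : ℂ) R then
      cA Φ (starRingEnd ℂ z) else 0) j) := fun j => (hAm j).comp Complex.continuous_conj.measurable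
  let F : Flat k d n :=
    { R := R1
      C := C0
      A := fun z => if z ∈ ball (0 : ℂ) R then cA Φ z else 0
      B := fun z => ![(if starRingEnd ℂ z ∈ ball (0 : ℂ) R then cA Φ (starRingEnd ℂ z) else 0) 0,
        -((if starRingEnd ℂ z ∈ ball (0 : ℂ) R then cA Φ (starRingEnd ℂ z) else 0) 1),
        (if starRingEnd ℂ z ∈ ball (0 : ℂ) R then cA Φ (starRingEnd ℂ z) else 0) 2]
      η := η
      ηx := ηx
      ηy := ηy
      p := fun z i => up (Φ z) i - (WithLp.toLp 2 (η z) : E n)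
      l := fun z i => (WithLp.toLp 2 (η z) : E n) - um (Φ (starRingEnd ℂ z)) i
      Px := fun z => sh (Xu z) (ηx z)
      Py := fun z => sh (Yu z) (ηy z)
      Lx := fun z i l => -(Xl (starRingEnd ℂ z) (Fin.rev i) l) + ηx z l
      Ly := fun z i l => -((-(Yl (starRingEnd ℂ z))) (Fin.rev i) l) + ηy z l }
  have hconjR : ∀ z ∈ HD 0 R1, starRingEnd ℂ z ∈ ball (0 : ℂ) R := fun z hz =>
    hconj z (HD_subset_HDc _ _ hz)
  have hcoef : FCoef F Φ η ηx ηy := by
    refine ⟨rfl, rfl, rfl, fun z hz => ⟨?_, ?_⟩⟩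
    · show (if z ∈ ball (0 : ℂ) R then cA Φ z else 0) = cA Φ z
      rw [if_pos (hHDR hz)]
    · show ![(if starRingEnd ℂ z ∈ ball (0 : ℂ) R then cA Φ (starRingEnd ℂ z) else 0) 0,
        -((if starRingEnd ℂ z ∈ ball (0 : ℂ) R then cA Φ (starRingEnd ℂ z) else 0) 1),
        (if starRingEnd ℂ z ∈ ball (0 : ℂ) R then cA Φ (starRingEnd ℂ z) else 0) 2] = _
      rw [if_pos (hconjR z hz)]
  refine ⟨F, ?_, hR1R, hcoef, ?_⟩
  · refine
      { hR := hR1
        hC := hC0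
        small := hR1C
        Am := hAm
        Bm := ?_
        Ab := ?_
        Bb := ?_
        ηg := hηU
        ηc := fun j => (hφ.grad j).cont.mono hHDcR
        ηb := ?_
        pc := hpc
        lc := hlc
        pg := ?_
        lg := ?_
        pI := ?_
        lI := ?_
        bd := ?_ }
    · intro j
      fin_cases j
      · exact hAcm 0
      · exact (hAcm 1).neg
      · exact hAcm 2
    · intro z hz
      have h1 := hAb z (hHDR hz)
      have h2 : C2 * z.im ^ 2 ≤ C0 * z.im ^ 2 := mul_le_mul_of_nonneg_right hC02 (sq_nonneg _)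
      rw [((hcoef.2.2.2) z hz).1]
      exact ⟨h1.1.trans h2, h1.2.1.trans h2, h1.2.2.trans h2⟩
    · intro z hz
      have h1 := hAb _ (hconjR z hz)
      have h2 : C2 * z.im ^ 2 ≤ C0 * z.im ^ 2 := mul_le_mul_of_nonneg_right hC02 (sq_nonneg _)
      have h3 : (starRingEnd ℂ z).im ^ 2 = z.im ^ 2 := by rw [Complex.conj_im, neg_sq]
      rw [h3] at h1
      rw [((hcoef.2.2.2) z hz).2]
      refine ⟨h1.1.trans h2, ?_, h1.2.2.trans h2⟩
      show |-(cA Φ (starRingEnd ℂ z) 1)| ≤ C0 * z.im ^ 2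
      rw [abs_neg]
      exact h1.2.1.trans h2
    · intro q hq
      obtain ⟨a, b, ha, hb, hab⟩ := hφ.bd q (lt_trans hq hR1R)
      refine ⟨a, b, fun j => (ha j).trans hC03, fun j => (hb j).trans hC03, fun z hz j => ?_⟩
      have h1 := hab z (hHDR hz) j
      have h2 : C' * ‖z - q‖ ^ 2 ≤ C0 * ‖z - q‖ ^ 2 :=
        mul_le_mul_of_nonneg_right hC03 (sq_nonneg _)
      exact ⟨h1.1.trans h2, h1.2.trans h2⟩
    · show HasGradV (HD 0 R1) (fun z => xi (fun i => up (Φ z) i - (WithLp.toLp 2 (η z) : E n)))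
        (fun z => sh (Xu z) (ηx z)) (fun z => sh (Yu z) (ηy z))
      simp only [xi_sub hAFF]
      exact hPg
    · show HasGradV (HD 0 R1)
        (fun z => xi (fun i => (WithLp.toLp 2 (η z) : E n) - um (Φ (starRingEnd ℂ z)) i))
        (fun z i l => -(Xl (starRingEnd ℂ z) (Fin.rev i) l) + ηx z l)
        (fun z i l => -((-(Yl (starRingEnd ℂ z))) (Fin.rev i) l) + ηy z l)
      simp only [xi_rsub hAFF]
      exact hLg
    · refine Integrable.mono' ((hIu.const_mul 2).add (hηI.const_mul (2 * ((k + d : ℕ) : ℝ))))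
        (ed_meas hPg) (Eventually.of_forall fun z => ?_)
      have h3 : 0 ≤ ed F.Px F.Py z := add_nonneg (nsq_nonneg _) (nsq_nonneg _)
      rw [Real.norm_of_nonneg h3]
      have h4 := nsq_sh_le (Xu z) (ηx z)
      have h5 := nsq_sh_le (Yu z) (ηy z)
      show nsq (sh (Xu z) (ηx z)) + nsq (sh (Yu z) (ηy z)) ≤ 2 * (nsq (Xu z) + nsq (Yu z)) +
        2 * ((k + d : ℕ) : ℝ) * (vsq (ηx z) + vsq (ηy z))
      nlinarith
    · refine Integrable.mono' ((hIl2.const_mul 2).add (hηI.const_mul (2 * (k : ℝ))))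
        (ed_meas hLg) (Eventually.of_forall fun z => ?_)
      have h3 : 0 ≤ ed F.Lx F.Ly z := add_nonneg (nsq_nonneg _) (nsq_nonneg _)
      rw [Real.norm_of_nonneg h3]
      have h4 := nsq_rev_le (Xl (starRingEnd ℂ z)) (ηx z)
      have h5 := nsq_rev_le (-(Yl (starRingEnd ℂ z))) (ηy z)
      show nsq (fun i l => -(Xl (starRingEnd ℂ z) (Fin.rev i) l) + ηx z l) +
        nsq (fun i l => -((-(Yl (starRingEnd ℂ z))) (Fin.rev i) l) + ηy z l) ≤
        2 * (nsq (Xl (starRingEnd ℂ z)) + nsq (-(Yl (starRingEnd ℂ z)))) +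
        2 * (k : ℝ) * (vsq (ηx z) + vsq (ηy z))
      nlinarith
    · intro x hx
      have hxb : (x : ℂ) ∈ ball (0 : ℂ) R := by
        rw [mem_ball_zero_iff, Complex.norm_real, Real.norm_eq_abs]
        exact lt_trans hx hR1R
      have hxg : Φ x ∈ ga := ((hc.side _ hxb).2.2).2 (Complex.ofReal_im x)
      obtain ⟨σ, hσ⟩ := hsys.bd (Φ x) hxg
      refine ⟨σ, ?_⟩
      have hηx : (WithLp.toLp 2 (η x) : E n) = φ (Φ x) := by
        ext j
        exact hφ.val x (lt_trans hx hR1R) j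
      funext i
      show up (Φ x) i - (WithLp.toLp 2 (η x) : E n) =
        Fin.append (fun i => -((WithLp.toLp 2 (η x) : E n) - um (Φ (starRingEnd ℂ (x : ℂ))) i))
          (fun _ : Fin d => (0 : E n)) (σ i)
      rw [Complex.conj_ofReal, hηx, hσ]
      show Fin.append (um (Φ x)) (fun _ : Fin d => φ (Φ x)) (σ i) - φ (Φ x) = _
      refine Fin.addCases (fun j => ?_) (fun j => ?_) (σ i)
      · rw [Fin.append_left, Fin.append_left]
        abel
      · rw [Fin.append_right, Fin.append_right, sub_self]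
  · intro z hz
    exact ⟨fun i j => rfl, fun i j => rfl⟩

end Pool.Agent.DMB
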