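import Pool.Agent.DMB.Api

namespace Pool.Agent.DMB

open MeasureTheory Set Metric Filter Topology
open scoped ENNReal

namespace FL2_

variable {K n : ℕ}

theorem aesm_nsq {μ : Measure ℂ} {X : ℂ → Mat K n}
    (h : ∀ i l, AEStronglyMeasurable (fun z => X z i l) μ) :
    AEStronglyMeasurable (fun z => nsq (X z)) μ := by
  unfold nsq
  exact Finset.aestronglyMeasurable_fun_sum _ fun i _ =>
    Finset.aestronglyMeasurable_fun_sum _ fun l _ => (h i l).pow 2

theorem aesm_dt {μ : Measure ℂ} {X Y : ℂ → Mat K n}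
    (h : ∀ i l, AEStronglyMeasurable (fun z => X z i l) μ)
    (h' : ∀ i l, AEStronglyMeasurable (fun z => Y z i l) μ) :
    AEStronglyMeasurable (fun z => dt (X z) (Y z)) μ := by
  unfold dt
  exact Finset.aestronglyMeasurable_fun_sum _ fun i _ =>
    Finset.aestronglyMeasurable_fun_sum _ fun l _ => (h i l).mul (h' i l)

/-- a vector as a point of `E n` -/
noncomputable def toE (v : Fin n → ℝ) : E n := WithLp.toLp 2 v

theorem toE_apply (v : Fin n → ℝ) (l : Fin n) : toE v l = v l := rfl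

theorem qd_nonneg_of (a : Fin 3 → ℝ) (δ : ℝ) (hδ : δ ≤ 1 / 4) (h0 : |a 0 - 1| ≤ δ)
    (h1 : |a 1| ≤ δ) (h2 : |a 2 - 1| ≤ δ) (X Y : Mat K n) :
    0 ≤ qd a X Y ∧ qd a X Y ≤ 2 * (nsq X + nsq Y) := by
  have h := qd_close a δ h0 h1 h2 X Y
  have hX := nsq_nonneg X
  have hY := nsq_nonneg Y
  rw [abs_le] at h
  constructor <;> nlinarith

theorem nsq_ad_le (v : Mat K n) (b : Fin n → ℝ) : nsq (ad v b) ≤ 2 * nsq v + 2 * (K * vsq b) := by
  have h := nsq_nonneg (v - rw' K b)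
  rw [nsq_sub, dt_rw, nsq_rw] at h
  rw [nsq_ad]; linarith

theorem nsq_sh_le (v : Mat K n) (b : Fin n → ℝ) : nsq (sh v b) ≤ 2 * nsq v + 2 * (K * vsq b) := by
  have h := nsq_nonneg (v + rw' K b)
  rw [nsq_add, dt_rw, nsq_rw] at h
  rw [nsq_sh]; linarith

/-- bound for the gradient of `η` -/
theorem eta_bound {k d n : ℕ} (F : Flat k d n) (hF : F.Ok0) :
    ∃ M : ℝ, 0 ≤ M ∧ ∀ z ∈ HD 0 F.R, vsq (F.ηx z) ≤ M ∧ vsq (F.ηy z) ≤ M := by
  obtain ⟨a, b, ha, hb, h⟩ := hF.ηb 0 (by simpa using hF.hR)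
  have hC := hF.hC
  have hR := hF.hR
  set M0 : ℝ := F.C + F.R * F.C + F.C * F.R ^ 2 with hM0
  have hM0p : 0 ≤ M0 := by positivity
  refine ⟨n * M0 ^ 2, by positivity, fun z hz => ?_⟩
  have hzn : ‖z‖ < F.R := by simpa using hz.2
  have hre : |z.re| ≤ F.R := (Complex.abs_re_le_norm z).trans hzn.le
  have him : |z.im| ≤ F.R := (Complex.abs_im_le_norm z).trans hzn.le
  have hsq : F.C * ‖z - ((0 : ℝ) : ℂ)‖ ^ 2 ≤ F.C * F.R ^ 2 := by
    have : ‖z - ((0 : ℝ) : ℂ)‖ ≤ F.R := by simpa using hzn.le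
    gcongr
  have key : ∀ v : Fin n → ℝ, (∀ j, |v j| ≤ M0) → vsq v ≤ n * M0 ^ 2 := by
    intro v hv
    unfold vsq
    calc ∑ l, v l ^ 2 ≤ ∑ _l : Fin n, M0 ^ 2 := by
          refine Finset.sum_le_sum fun l _ => ?_
          rw [← sq_abs]
          exact pow_le_pow_left₀ (abs_nonneg _) (hv l) 2
      _ = n * M0 ^ 2 := by simp
  constructor
  · apply key
    intro j
    have h1 := (h z hz j).1
    have h2 : |(z.re - 0) * b j| ≤ F.R * F.C := by
      rw [sub_zero, abs_mul]; exact mul_le_mul hre (hb j) (abs_nonneg _) hR.le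
    calc |F.ηx z j| = |(F.ηx z j - (a j + (z.re - 0) * b j)) + (a j + (z.re - 0) * b j)| := by
          congr 1; ring
      _ ≤ |F.ηx z j - (a j + (z.re - 0) * b j)| + |a j + (z.re - 0) * b j| := abs_add_le _ _
      _ ≤ F.C * F.R ^ 2 + (F.C + F.R * F.C) :=
          add_le_add (h1.trans hsq) ((abs_add_le _ _).trans (add_le_add (ha j) h2))
      _ = M0 := by rw [hM0]; ring
  · apply key
    intro j
    have h1 := (h z hz j).2
    have h2 : |z.im * b j| ≤ F.R * F.C := by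
      rw [abs_mul]; exact mul_le_mul him (hb j) (abs_nonneg _) hR.le
    calc |F.ηy z j| = |(F.ηy z j + z.im * b j) - z.im * b j| := by congr 1; ring
      _ ≤ |F.ηy z j + z.im * b j| + |z.im * b j| := abs_sub _ _
      _ ≤ F.C * F.R ^ 2 + F.R * F.C := add_le_add (h1.trans hsq) h2
      _ ≤ M0 := by rw [hM0]; linarith

theorem measure_HD_lt_top (q R : ℝ) : volume (HD q R) < ⊤ := by
  refine lt_of_le_of_lt (measure_mono (t := ball (q : ℂ) R) ?_) measure_ball_lt_top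
  intro z hz
  simpa [dist_eq_norm] using hz.2

theorem coef_bound {k d n : ℕ} (F : Flat k d n) (hF : F.Ok0) {z : ℂ} (hz : z ∈ HD 0 F.R) :
    F.C * z.im ^ 2 ≤ 1 / 4 := by
  refine le_trans ?_ hF.small
  have hzn : ‖z‖ < F.R := by simpa using hz.2
  have him : |z.im| ≤ F.R := (Complex.abs_im_le_norm z).trans hzn.le
  have : z.im ^ 2 ≤ F.R ^ 2 := by
    rw [← sq_abs]; exact pow_le_pow_left₀ (abs_nonneg _) him 2
  exact mul_le_mul_of_nonneg_left this hF.hC.le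

/-- integrability of a quadratic form with bounded measurable coefficients -/
theorem integrable_qd {R : ℝ} {A : ℂ → Fin 3 → ℝ} (hA : ∀ j, Measurable (fun z => A z j))
    {X Y : ℂ → Mat K n}
    (hX : ∀ i l, AEStronglyMeasurable (fun z => X z i l) (volume.restrict (HD 0 R)))
    (hY : ∀ i l, AEStronglyMeasurable (fun z => Y z i l) (volume.restrict (HD 0 R)))
    (hI : IntegrableOn (fun z => nsq (X z) + nsq (Y z)) (HD 0 R))
    (hb : ∀ z ∈ HD 0 R, 0 ≤ qd (A z) (X z) (Y z) ∧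
      qd (A z) (X z) (Y z) ≤ 2 * (nsq (X z) + nsq (Y z))) :
    IntegrableOn (fun z => qd (A z) (X z) (Y z)) (HD 0 R) := by
  refine Integrable.mono' (hI.const_mul 2) ?_ ?_
  · unfold qd
    exact (((hA 0).aestronglyMeasurable.mul (aesm_nsq hX)).add
      (((hA 1).aestronglyMeasurable.const_mul 2).mul (aesm_dt hX hY))).add
      ((hA 2).aestronglyMeasurable.mul (aesm_nsq hY))
  · refine (ae_restrict_iff' (isOpen_HD 0 R).measurableSet).2 (Filter.Eventually.of_forall ?_)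
    intro z hz
    rw [Real.norm_eq_abs, abs_of_nonneg (hb z hz).1]
    exact (hb z hz).2

theorem injOn_chart {Op Omi ga : Set ℂ} {Φ : ℂ → ℂ} {c1 : ℝ → ℂ} {R C : ℝ}
    (hc : Chart Op Omi ga Φ c1 R C) : InjOn Φ (ball 0 R) := by
  intro z hz w hw h
  have := hc.alip z hz w hw
  rw [h, sub_self, norm_zero, mul_zero] at this
  exact sub_eq_zero.mp (norm_le_zero_iff.mp this)

/-- energy in the chart, abstract version: `V` open in the disc, `s` the sorted sheets -/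
theorem energy_image (hEND : Stmt_END) (hFLB : Stmt_FLB) (hJCV : Stmt_JCV)
    {Op Omi ga : Set ℂ} {Φ : ℂ → ℂ} {c1 : ℝ → ℂ} {R C : ℝ} (hc : Chart Op Omi ga Φ c1 R C)
    {V : Set ℂ} (hV : V ⊆ ball 0 R) (hVo : IsOpen V) (v : ℂ → Tup K n) (X Y : ℂ → Mat K n)
    (hg : HasGradV V (fun z => xi (v (Φ z))) X Y) :
    en (Φ '' V) v = ∫⁻ z in V, ENNReal.ofReal (qd (cA Φ z) (X z) (Y z)) := by
  obtain ⟨X', Y', h1, h2⟩ := (hFLB K n Op Omi ga Φ c1 R C hc V hV hVo (fun w => xi (v w))).2 X Y hg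
  rw [(hEND K n (Φ '' V) v (hc.opn V hV hVo)).1 X' Y' h1]
  have hj : ∀ z ∈ ball (0 : ℂ) R, 0 < jac Φ z := fun z hz =>
    lt_of_lt_of_le (inv_pos.mpr (lt_of_lt_of_le one_pos hc.hC)) (hc.jacp z hz)
  rw [((hJCV (ball 0 R) Φ isOpen_ball hc.smooth (injOn_chart hc) hj V hV
    hVo.measurableSet).1 _)]
  refine setLIntegral_congr_fun hVo.measurableSet ?_
  intro z hz
  show ENNReal.ofReal (jac Φ z) * ENNReal.ofReal (ed X' Y' (Φ z)) = _
  rw [← ENNReal.ofReal_mul (hj z (hV hz)).le, h2 z hz]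

/-- energy of a function in the chart, upper side -/
theorem upper_energy (hAFF : Stmt_AFF) (hGAL : Stmt_GAL) (hEND : Stmt_END) (hFLB : Stmt_FLB)
    (hJCV : Stmt_JCV) {k d : ℕ} {Op Omi ga : Set ℂ} {Φ : ℂ → ℂ} {c1 : ℝ → ℂ} {R C : ℝ}
    (hc : Chart Op Omi ga Φ c1 R C) (F : Flat k d n) (hF : F.Ok0) (hR : F.R < R)
    (hA : ∀ z ∈ HD 0 F.R, F.A z = cA Φ z) (q v : ℂ → Tup K n) (X Y : ℂ → Mat K n)
    (hq : HasGradV (HD 0 F.R) (fun z => xi (q z)) X Y) (hI : IntegrableOn (ed X Y) (HD 0 F.R))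
    (hv : ∀ z ∈ HD 0 F.R, ∀ i l, v (Φ z) i l = q z i l + F.η z l) :
    IntegrableOn (fun z => qd (F.A z) (ad (X z) (F.ηx z)) (ad (Y z) (F.ηy z))) (HD 0 F.R) ∧
    (∀ z ∈ HD 0 F.R, 0 ≤ qd (F.A z) (ad (X z) (F.ηx z)) (ad (Y z) (F.ηy z))) ∧
    en (Φ '' HD 0 F.R) v = ENNReal.ofReal
      (∫ z in HD 0 F.R, qd (F.A z) (ad (X z) (F.ηx z)) (ad (Y z) (F.ηy z))) := by
  have hVo := isOpen_HD 0 F.R
  have hV : HD 0 F.R ⊆ ball 0 R := by
    intro z hz; have := hz.2; rw [mem_ball_zero_iff]; simp at this; linarith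
  obtain ⟨-, -, hadd, -, hcongr⟩ := hGAL (HD 0 F.R) hVo
  have hxi : ∀ z ∈ HD 0 F.R, xi (v (Φ z)) = fun i l => xi (q z) i l + F.η z l := by
    intro z hz
    have e : v (Φ z) = fun i => (1 : ℝ) • q z i + toE (F.η z) := by
      funext i; ext l; simp [hv z hz i l, toE_apply]
    rw [e, (hAFF K n (q z)).1 1 (toE (F.η z)) zero_le_one]
    funext i l; simp [toE_apply]
  have hg : HasGradV (HD 0 F.R) (fun z => xi (v (Φ z))) (fun z => ad (X z) (F.ηx z))
      (fun z => ad (Y z) (F.ηy z)) := by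
    intro i l
    refine hcongr _ _ _ _ _ _ (hadd _ _ _ _ _ _ (hq i l) (hF.ηg l)) ?_ (by rfl) (by rfl)
    intro z hz
    show xi (v (Φ z)) i l = _
    rw [hxi z hz]
  have hen := energy_image hEND hFLB hJCV hc hV hVo v _ _ hg
  obtain ⟨M, hM, hMb⟩ := eta_bound F hF
  have mX : ∀ i l, AEStronglyMeasurable (fun z => ad (X z) (F.ηx z) i l)
      (volume.restrict (HD 0 F.R)) := fun i l => (hg i l).mx
  have mY : ∀ i l, AEStronglyMeasurable (fun z => ad (Y z) (F.ηy z) i l)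
      (volume.restrict (HD 0 F.R)) := fun i l => (hg i l).my
  have hI2 : IntegrableOn (fun z => nsq (ad (X z) (F.ηx z)) + nsq (ad (Y z) (F.ηy z)))
      (HD 0 F.R) := by
    have hfin : IntegrableOn (fun _ : ℂ => 4 * (K * M)) (HD 0 F.R) :=
      integrableOn_const (measure_HD_lt_top 0 F.R).ne
    refine Integrable.mono' ((hI.const_mul 2).add hfin) ((aesm_nsq mX).add (aesm_nsq mY)) ?_
    refine (ae_restrict_iff' hVo.measurableSet).2 (Filter.Eventually.of_forall ?_)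
    intro z hz
    rw [Real.norm_eq_abs, abs_of_nonneg (add_nonneg (nsq_nonneg _) (nsq_nonneg _))]
    have a1 := nsq_ad_le (X z) (F.ηx z)
    have a2 := nsq_ad_le (Y z) (F.ηy z)
    have b1 : (K : ℝ) * vsq (F.ηx z) ≤ K * M :=
      mul_le_mul_of_nonneg_left (hMb z hz).1 (Nat.cast_nonneg K)
    have b2 : (K : ℝ) * vsq (F.ηy z) ≤ K * M :=
      mul_le_mul_of_nonneg_left (hMb z hz).2 (Nat.cast_nonneg K)
    simp only [Pi.add_apply, ed]
    linarith
  have hb : ∀ z ∈ HD 0 F.R, 0 ≤ qd (F.A z) (ad (X z) (F.ηx z)) (ad (Y z) (F.ηy z)) ∧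
      qd (F.A z) (ad (X z) (F.ηx z)) (ad (Y z) (F.ηy z)) ≤
        2 * (nsq (ad (X z) (F.ηx z)) + nsq (ad (Y z) (F.ηy z))) := fun z hz =>
    qd_nonneg_of _ _ (coef_bound F hF hz) (hF.Ab z hz).1 (hF.Ab z hz).2.1 (hF.Ab z hz).2.2 _ _
  have hint := integrable_qd hF.Am mX mY hI2 hb
  refine ⟨hint, fun z hz => (hb z hz).1, ?_⟩
  rw [hen, ofReal_integral_eq_lintegral_ofReal hint
    ((ae_restrict_iff' hVo.measurableSet).2 (Filter.Eventually.of_forall fun z hz => (hb z hz).1))]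
  refine setLIntegral_congr_fun hVo.measurableSet ?_
  intro z hz
  show ENNReal.ofReal _ = ENNReal.ofReal _
  rw [hA z hz]

/-- reversed and negated rows -/
def rvn (b : Fin n → ℝ) (X : Mat K n) : Mat K n := fun i l => b l + (-1) * X (Fin.rev i) l

theorem nsq_rvn (b : Fin n → ℝ) (X : Mat K n) : nsq (rvn b X) = nsq (sh X b) := by
  unfold nsq
  rw [← Equiv.sum_comp Fin.revPerm]
  refine Finset.sum_congr rfl fun i _ => Finset.sum_congr rfl fun l _ => ?_
  simp only [rvn, sh, Fin.revPerm_apply, Fin.rev_rev]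
  ring

theorem dt_rvn (b b' : Fin n → ℝ) (X X' : Mat K n) :
    dt (rvn b X) (rvn b' X') = dt (sh X b) (sh X' b') := by
  unfold dt
  rw [← Equiv.sum_comp Fin.revPerm]
  refine Finset.sum_congr rfl fun i _ => Finset.sum_congr rfl fun l _ => ?_
  simp only [rvn, sh, Fin.revPerm_apply, Fin.rev_rev]
  ring

theorem isOpen_LD (R : ℝ) : IsOpen {z | starRingEnd ℂ z ∈ HD 0 R} :=
  (isOpen_HD 0 R).preimage Complex.continuous_conj

/-- energy of a function in the chart, lower side -/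
theorem lower_energy (hAFF : Stmt_AFF) (hGAL : Stmt_GAL) (hEND : Stmt_END) (hFLB : Stmt_FLB)
    (hJCV : Stmt_JCV) (hREF : Stmt_REF) {k d : ℕ} {Op Omi ga : Set ℂ} {Φ : ℂ → ℂ} {c1 : ℝ → ℂ}
    {R C : ℝ} (hc : Chart Op Omi ga Φ c1 R C) (F : Flat k d n) (hF : F.Ok0) (hR : F.R < R)
    (hB : ∀ z ∈ HD 0 F.R, F.B z = ![cA Φ (starRingEnd ℂ z) 0, -(cA Φ (starRingEnd ℂ z) 1),
      cA Φ (starRingEnd ℂ z) 2]) (q v : ℂ → Tup K n) (X Y : ℂ → Mat K n)
    (hq : HasGradV (HD 0 F.R) (fun z => xi (q z)) X Y) (hI : IntegrableOn (ed X Y) (HD 0 F.R))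
    (hv : ∀ z ∈ HD 0 F.R, ∀ i l, v (Φ (starRingEnd ℂ z)) i l = F.η z l - q z i l) :
    IntegrableOn (fun z => qd (F.B z) (sh (X z) (F.ηx z)) (sh (Y z) (F.ηy z))) (HD 0 F.R) ∧
    (∀ z ∈ HD 0 F.R, 0 ≤ qd (F.B z) (sh (X z) (F.ηx z)) (sh (Y z) (F.ηy z))) ∧
    en (Φ '' {z | starRingEnd ℂ z ∈ HD 0 F.R}) v = ENNReal.ofReal
      (∫ z in HD 0 F.R, qd (F.B z) (sh (X z) (F.ηx z)) (sh (Y z) (F.ηy z))) := by
  have hHo := isOpen_HD 0 F.R
  have hVo := isOpen_LD F.R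
  have hV : {z | starRingEnd ℂ z ∈ HD 0 F.R} ⊆ ball 0 R := by
    intro z hz
    have := hz.2
    rw [mem_ball_zero_iff]
    simp at this
    linarith
  obtain ⟨-, -, hadd, hmul, hcongr⟩ := hGAL (HD 0 F.R) hHo
  obtain ⟨-, -, -, -, hcongr'⟩ := hGAL _ hVo
  have hxi : ∀ z ∈ HD 0 F.R, xi (v (Φ (starRingEnd ℂ z))) = rvn (F.η z) (xi (q z)) := by
    intro z hz
    have e : v (Φ (starRingEnd ℂ z)) = fun i => (1 : ℝ) • (fun i => -(q z i)) i + toE (F.η z) := by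
      funext i; ext l; simp only [hv z hz i l, one_smul, PiLp.add_apply, PiLp.neg_apply, toE_apply]
      ring
    rw [e, (hAFF K n (fun i => -(q z i))).1 1 (toE (F.η z)) zero_le_one, (hAFF K n (q z)).2]
    funext i l; simp only [toE_apply, rvn]; ring
  have hg0 : HasGradV (HD 0 F.R) (fun z => rvn (F.η z) (xi (q z)))
      (fun z => rvn (F.ηx z) (X z)) (fun z => rvn (F.ηy z) (Y z)) := by
    intro i l
    exact hadd _ _ _ _ _ _ (hF.ηg l) (hmul (-1) _ _ _ (hq (Fin.rev i) l))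
  have hg1 := (hREF K n (HD 0 F.R) q hHo).2.1 _ _ _ hg0
  have hg : HasGradV {z | starRingEnd ℂ z ∈ HD 0 F.R} (fun z => xi (v (Φ z)))
      (fun z => rvn (F.ηx (starRingEnd ℂ z)) (X (starRingEnd ℂ z)))
      (fun z => -(rvn (F.ηy (starRingEnd ℂ z)) (Y (starRingEnd ℂ z)))) := by
    intro i l
    refine hcongr' _ _ _ _ _ _ (hg1 i l) ?_ (by rfl) (by rfl)
    intro z hz
    show xi (v (Φ z)) i l = _
    have := hxi (starRingEnd ℂ z) hz
    rw [Complex.conj_conj] at this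
    rw [this]
  have hen := energy_image hEND hFLB hJCV hc hV hVo v _ _ hg
  obtain ⟨M, hM, hMb⟩ := eta_bound F hF
  have m1 : ∀ l, AEStronglyMeasurable (fun z => F.ηx z l) (volume.restrict (HD 0 F.R)) :=
    fun l => (hF.ηg l).mx
  have m2 : ∀ l, AEStronglyMeasurable (fun z => F.ηy z l) (volume.restrict (HD 0 F.R)) :=
    fun l => (hF.ηg l).my
  have mX : ∀ i l, AEStronglyMeasurable (fun z => sh (X z) (F.ηx z) i l)
      (volume.restrict (HD 0 F.R)) := fun i l => (hq i l).mx.sub (m1 l)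
  have mY : ∀ i l, AEStronglyMeasurable (fun z => sh (Y z) (F.ηy z) i l)
      (volume.restrict (HD 0 F.R)) := fun i l => (hq i l).my.sub (m2 l)
  have hI2 : IntegrableOn (fun z => nsq (sh (X z) (F.ηx z)) + nsq (sh (Y z) (F.ηy z)))
      (HD 0 F.R) := by
    have hfin : IntegrableOn (fun _ : ℂ => 4 * (K * M)) (HD 0 F.R) :=
      integrableOn_const (measure_HD_lt_top 0 F.R).ne
    refine Integrable.mono' ((hI.const_mul 2).add hfin) ((aesm_nsq mX).add (aesm_nsq mY)) ?_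
    refine (ae_restrict_iff' hHo.measurableSet).2 (Filter.Eventually.of_forall ?_)
    intro z hz
    rw [Real.norm_eq_abs, abs_of_nonneg (add_nonneg (nsq_nonneg _) (nsq_nonneg _))]
    have a1 := nsq_sh_le (X z) (F.ηx z)
    have a2 := nsq_sh_le (Y z) (F.ηy z)
    have b1 : (K : ℝ) * vsq (F.ηx z) ≤ K * M :=
      mul_le_mul_of_nonneg_left (hMb z hz).1 (Nat.cast_nonneg K)
    have b2 : (K : ℝ) * vsq (F.ηy z) ≤ K * M :=
      mul_le_mul_of_nonneg_left (hMb z hz).2 (Nat.cast_nonneg K)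
    simp only [Pi.add_apply, ed]
    linarith
  have hb : ∀ z ∈ HD 0 F.R, 0 ≤ qd (F.B z) (sh (X z) (F.ηx z)) (sh (Y z) (F.ηy z)) ∧
      qd (F.B z) (sh (X z) (F.ηx z)) (sh (Y z) (F.ηy z)) ≤
        2 * (nsq (sh (X z) (F.ηx z)) + nsq (sh (Y z) (F.ηy z))) := fun z hz =>
    qd_nonneg_of _ _ (coef_bound F hF hz) (hF.Bb z hz).1 (hF.Bb z hz).2.1 (hF.Bb z hz).2.2 _ _
  have hint := integrable_qd hF.Bm mX mY hI2 hb
  refine ⟨hint, fun z hz => (hb z hz).1, ?_⟩
  rw [hen, ofReal_integral_eq_lintegral_ofReal hint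
    ((ae_restrict_iff' hHo.measurableSet).2 (Filter.Eventually.of_forall fun z hz => (hb z hz).1))]
  have h4 := (hREF K n (HD 0 F.R) q hHo).2.2.2 (fun z => ENNReal.ofReal
    (qd (cA Φ (starRingEnd ℂ z)) (rvn (F.ηx z) (X z)) (-(rvn (F.ηy z) (Y z))))) (HD 0 F.R)
    hHo.measurableSet
  simp only [Complex.conj_conj] at h4
  rw [h4]
  refine setLIntegral_congr_fun hHo.measurableSet ?_
  intro z hz
  show ENNReal.ofReal _ = ENNReal.ofReal _
  rw [hB z hz]
  congr 1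
  simp only [qd, nsq_neg, dt_neg_right, nsq_rvn, dt_rvn, Matrix.cons_val_zero, Matrix.cons_val_one,
    Matrix.cons_val]
  ring

theorem dG_add_le (hMET : Stmt_MET) (a b : Tup K n) (c c' : E n) :
    dG (fun i => a i + c) (fun i => b i + c') ≤ dG a b + Real.sqrt (K * ‖c - c'‖ ^ 2) := by
  obtain ⟨-, -, -, -, ⟨σ, hσ⟩, -, -⟩ := hMET K n a b b
  have h1 := (hMET K n (fun i => a i + c) (fun i => b i + c') b).2.2.2.2.2.1 σ
  refine h1.trans ?_
  rw [hσ, sqd_eq_nsq, sqd_eq_nsq]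
  have e : mt (fun i => a i + c) - mt ((fun i => b i + c') ∘ σ) =
      (mt a - mt (b ∘ σ)) + rw' K (fun l => c l - c' l) := by
    funext i l; simp [mt, rw']; ring
  rw [e]
  refine (sqrt_nsq_add_le _ _).trans ?_
  rw [nsq_rw, E_norm_sq]
  rfl

theorem same_add {a b : Tup K n} (h : Same a b) (c : E n) :
    Same (fun i => a i + c) (fun i => b i + c) := by
  obtain ⟨σ, rfl⟩ := h; exact ⟨σ, rfl⟩

theorem same_neg {a b : Tup K n} (h : Same a b) :
    Same (fun i => -(a i)) (fun i => -(b i)) := by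
  obtain ⟨σ, rfl⟩ := h; exact ⟨σ, rfl⟩

theorem dG_neg (a b : Tup K n) : dG (fun i => -(a i)) (fun i => -(b i)) = dG a b := by
  unfold dG
  refine iInf_congr fun σ => ?_
  congr 1
  unfold sqd
  refine Finset.sum_congr rfl fun i _ => ?_
  congr 1
  show ‖-(a i) - -(b (σ i))‖ = ‖a i - b (σ i)‖
  rw [neg_sub_neg, norm_sub_rev]

/-- transfer of continuity through the chart -/
theorem contG_transfer (hMET : Stmt_MET) {A T U0 Kc : Set ℂ} {Φ : ℂ → ℂ} {C : ℝ}
    {u v q : ℂ → Tup K n} {e : ℂ → Fin n → ℝ} (hu : ContG A u)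
    (hS : ∀ w ∈ A, w ∉ Kc → Same (v w) (u w)) (hKc : IsClosed Kc) (hq : ContG T q)
    (he : ∀ l, ContinuousOn (fun z => e z l) T)
    (hv : ∀ z ∈ T, v (Φ z) = fun i => q z i + toE (e z)) (hU0 : IsOpen U0) (hKU : Kc ⊆ U0)
    (hT : ∀ w ∈ A, w ∈ U0 → ∃ z ∈ T, Φ z = w)
    (halip : ∀ z ∈ T, ∀ w ∈ T, ‖z - w‖ ≤ C * ‖Φ z - Φ w‖) : ContG A v := by
  intro w0 hw0
  by_cases h0 : w0 ∈ Kc
  · obtain ⟨z0, hz0, rfl⟩ := hT w0 hw0 (hKU h0)
    have hcq := hq z0 hz0
    have hce : Tendsto (fun z => ‖toE (e z) - toE (e z0)‖) (𝓝[T] z0) (𝓝 0) := by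
      have h1 : Tendsto (fun z => Real.sqrt (∑ l, (e z l - e z0 l) ^ 2)) (𝓝[T] z0) (𝓝 0) := by
        have h2 : Tendsto (fun z => ∑ l, (e z l - e z0 l) ^ 2) (𝓝[T] z0) (𝓝 (∑ _l : Fin n, 0)) := by
          refine tendsto_finsetSum _ fun l _ => ?_
          have h3 : Tendsto (fun z => e z l) (𝓝[T] z0) (𝓝 (e z0 l)) := he l z0 hz0
          have h4 := (h3.sub_const (e z0 l)).pow 2
          simpa using h4
        have h5 := (Real.continuous_sqrt.tendsto _).comp h2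
        simpa [Function.comp_def] using h5
      refine h1.congr fun z => ?_
      rw [EuclideanSpace.norm_eq]
      congr 1
      refine Finset.sum_congr rfl fun l _ => ?_
      rw [Real.norm_eq_abs, sq_abs]; rfl
    have hlim : Tendsto (fun z => dG (q z) (q z0) + Real.sqrt (K * ‖toE (e z) - toE (e z0)‖ ^ 2))
        (𝓝[T] z0) (𝓝 0) := by
      have h1 : Tendsto (fun z => Real.sqrt (K * ‖toE (e z) - toE (e z0)‖ ^ 2)) (𝓝[T] z0) (𝓝 0) := by
        have h2 := (Real.continuous_sqrt.tendsto _).comp ((hce.pow 2).const_mul (K : ℝ))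
        simpa [Function.comp_def] using h2
      simpa using hcq.add h1
    rw [Metric.tendsto_nhdsWithin_nhds] at hlim ⊢
    intro ε hε
    obtain ⟨δ, hδ, h⟩ := hlim ε hε
    obtain ⟨δ1, hδ1, hb⟩ := Metric.isOpen_iff.1 hU0 _ (hKU h0)
    have hC' : 0 < |C| + 1 := by positivity
    refine ⟨min δ1 (δ / (|C| + 1)), lt_min hδ1 (by positivity), ?_⟩
    intro w hw hd
    obtain ⟨z, hz, rfl⟩ := hT w hw (hb (lt_of_lt_of_le hd (min_le_left _ _)))
    have hzd : dist z z0 < δ := by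
      rw [dist_eq_norm]
      calc ‖z - z0‖ ≤ C * ‖Φ z - Φ z0‖ := halip z hz z0 hz0
        _ ≤ (|C| + 1) * ‖Φ z - Φ z0‖ := by
            gcongr; exact (le_abs_self C).trans (by linarith)
        _ < (|C| + 1) * (δ / (|C| + 1)) := by
            have := lt_of_lt_of_le hd (min_le_right _ _)
            rw [dist_eq_norm] at this
            gcongr
        _ = δ := by field_simp
    have h2 := h hz hzd
    have hnn : 0 ≤ dG (v (Φ z)) (v (Φ z0)) := (hMET K n _ _ (v (Φ z0))).1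
    have hle : dG (v (Φ z)) (v (Φ z0)) ≤
        dG (q z) (q z0) + Real.sqrt (K * ‖toE (e z) - toE (e z0)‖ ^ 2) := by
      rw [hv z hz, hv z0 hz0]
      exact dG_add_le hMET _ _ _ _
    rw [dist_zero_right, Real.norm_eq_abs] at h2 ⊢
    rw [abs_of_nonneg hnn]
    exact lt_of_le_of_lt (hle.trans (le_abs_self _)) h2
  · have h1 := hu w0 hw0
    refine h1.congr' ?_
    have h2 : ∀ᶠ w in 𝓝[A] w0, w ∉ Kc := by
      refine mem_nhdsWithin_of_mem_nhds ?_
      exact hKc.isOpen_compl.mem_nhds h0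
    filter_upwards [h2, self_mem_nhdsWithin] with w hw hwA
    exact (hMET K n (u w) (u w0) (u w0)).2.2.2.2.2.2 _ _ (hS w hwA hw).symm' (hS w0 hw0 h0).symm'

end FL2_

open FL2_ in
theorem fl2_proof (hMET : Stmt_MET) (_hXIL : Stmt_XIL) (hAFF : Stmt_AFF) (_hSYB : Stmt_SYB)
    (hGAL : Stmt_GAL) (_hGUN : Stmt_GUN) (_hGLO : Stmt_GLO) (hEND : Stmt_END) (hENF : Stmt_ENF)
    (_hFLA : Stmt_FLA) (hFLB : Stmt_FLB) (hJCV : Stmt_JCV) (hREF : Stmt_REF) : Stmt_FL2 := by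
  classical
  intro k d n Om Op Omi ga φ up um Φ c1 R C C' η ηx ηy F hs hm hc hp hF hR hco hrel
  obtain ⟨e1, e2, e3, hAB⟩ := hco
  subst e1 e2 e3
  refine ⟨hF, ?_⟩
  intro r hr hrR p' l' X Y X' Y' hcp
  have hinj := injOn_chart hc
  have hsub : ball (0 : ℂ) F.R ⊆ ball 0 R := ball_subset_ball hR.le
  have hTsub : HDc 0 F.R ⊆ ball (0 : ℂ) F.R := by
    intro z hz; have := hz.2; rw [mem_ball_zero_iff]; simpa using this
  have hTsub' : {z | starRingEnd ℂ z ∈ HDc 0 F.R} ⊆ ball (0 : ℂ) F.R := by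
    intro z hz
    have := hz.2
    rw [mem_ball_zero_iff]
    simpa using this
  set Ψ : ℂ → ℂ := Function.invFunOn Φ (ball 0 R) with hΨdef
  have hΨ : ∀ z ∈ ball (0 : ℂ) R, Ψ (Φ z) = z := fun z hz => hinj.leftInvOn_invFunOn hz
  set vp : ℂ → Tup (k + d) n := fun w => if w ∈ Φ '' (HDc 0 F.R) then
    fun i => p' (Ψ w) i + toE (F.η (Ψ w)) else up w with hvpdef
  set vm : ℂ → Tup k n := fun w => if w ∈ Φ '' {z | starRingEnd ℂ z ∈ HDc 0 F.R} then
    fun i => -(l' (starRingEnd ℂ (Ψ w)) i) + toE (F.η (Ψ w)) else um w with hvmdef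
  have hvp : ∀ z ∈ HDc 0 F.R, vp (Φ z) = fun i => p' z i + toE (F.η z) := by
    intro z hz
    have h1 : Φ z ∈ Φ '' (HDc 0 F.R) := mem_image_of_mem _ hz
    simp only [hvpdef, if_pos h1, hΨ z (hsub (hTsub hz))]
  have hvm : ∀ z ∈ {z | starRingEnd ℂ z ∈ HDc 0 F.R}, vm (Φ z) =
      fun i => -(l' (starRingEnd ℂ z) i) + toE (F.η z) := by
    intro z hz
    have h1 : Φ z ∈ Φ '' {z | starRingEnd ℂ z ∈ HDc 0 F.R} := mem_image_of_mem _ hz
    simp only [hvmdef, if_pos h1, hΨ z (hsub (hTsub' hz))]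
  have hup : ∀ z ∈ HDc 0 F.R, up (Φ z) = fun i => F.p z i + toE (F.η z) := by
    intro z hz
    funext i; ext l
    have := (hrel z hz).1 i l
    simp only [PiLp.add_apply, toE_apply, this]; ring
  have hum : ∀ z ∈ {z | starRingEnd ℂ z ∈ HDc 0 F.R}, um (Φ z) =
      fun i => -(F.l (starRingEnd ℂ z) i) + toE (F.η z) := by
    intro z hz
    funext i; ext l
    have h1 := (hrel (starRingEnd ℂ z) hz).2 i l
    have h2 := hp.even z (hsub (hTsub' hz))
    rw [Complex.conj_conj, h2] at h1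
    simp only [PiLp.add_apply, PiLp.neg_apply, toE_apply, h1]; ring
  -- the compact set
  set Kc : Set ℂ := Φ '' closedBall 0 r with hKcdef
  have hcb : closedBall (0 : ℂ) r ⊆ ball 0 F.R := closedBall_subset_ball hrR
  have hΦc : ContinuousOn Φ (ball 0 R) := hc.smooth.continuousOn
  have hKcomp : IsCompact Kc :=
    (isCompact_closedBall (0 : ℂ) r).image_of_continuousOn (hΦc.mono (hcb.trans hsub))
  have hKOm : Kc ⊆ Om := by
    rintro _ ⟨z, hz, rfl⟩
    have hz' := hsub (hcb hz)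
    obtain ⟨h1, h2, h3⟩ := hc.side z hz'
    rw [hs.union]
    rcases lt_trichotomy z.im 0 with h | h | h
    · exact Or.inr (h2.2 h)
    · exact Or.inl (Or.inr (h3.2 h))
    · exact Or.inl (Or.inl (h1.2 h))
  have hU0 : IsOpen (Φ '' ball 0 F.R) := hc.opn _ hsub isOpen_ball
  have hKU : Kc ⊆ Φ '' ball 0 F.R := image_mono hcb
  have hTp : ∀ w ∈ Op ∪ ga, w ∈ Φ '' ball 0 F.R → ∃ z ∈ HDc 0 F.R, Φ z = w := by
    rintro w hw ⟨z, hz, rfl⟩
    refine ⟨z, ⟨?_, by simpa using hz⟩, rfl⟩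
    obtain ⟨h1, h2, h3⟩ := hc.side z (hsub hz)
    rcases hw with hw | hw
    · exact (h1.1 hw).le
    · exact (h3.1 hw).ge
  have hTm : ∀ w ∈ Omi ∪ ga, w ∈ Φ '' ball 0 F.R →
      ∃ z ∈ {z | starRingEnd ℂ z ∈ HDc 0 F.R}, Φ z = w := by
    rintro w hw ⟨z, hz, rfl⟩
    have hn : ‖starRingEnd ℂ z - ((0 : ℝ) : ℂ)‖ < F.R := by simpa using hz
    refine ⟨z, ⟨?_, hn⟩, rfl⟩
    obtain ⟨h1, h2, h3⟩ := hc.side z (hsub hz)
    rw [Complex.conj_im]
    rcases hw with hw | hw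
    · have := h2.1 hw; linarith
    · have := h3.1 hw; linarith
  have hSp : ∀ w ∈ Op ∪ ga, w ∉ Kc → Same (vp w) (up w) := by
    intro w hw hwK
    by_cases h : w ∈ Φ '' (HDc 0 F.R)
    · obtain ⟨z, hz, rfl⟩ := h
      have hrz : r ≤ ‖z - ((0 : ℝ) : ℂ)‖ := by
        by_contra hlt
        push Not at hlt
        exact hwK ⟨z, by simpa using hlt.le, rfl⟩
      rw [hvp z hz, hup z hz]
      exact same_add (hcp.eq z hz hrz).1 _
    · have : vp w = up w := by simp only [hvpdef, if_neg h]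
      rw [this]; exact Same.refl' _
  have hSm : ∀ w ∈ Omi ∪ ga, w ∉ Kc → Same (vm w) (um w) := by
    intro w hw hwK
    by_cases h : w ∈ Φ '' {z | starRingEnd ℂ z ∈ HDc 0 F.R}
    · obtain ⟨z, hz, rfl⟩ := h
      have hrz : r ≤ ‖starRingEnd ℂ z - ((0 : ℝ) : ℂ)‖ := by
        by_contra hlt
        push Not at hlt
        refine hwK ⟨z, ?_, rfl⟩
        simpa using hlt.le
      rw [hvm z hz, hum z hz]
      exact same_add (same_neg (hcp.eq _ hz hrz).2) _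
    · have : vm w = um w := by simp only [hvmdef, if_neg h]
      rw [this]; exact Same.refl' _
  have hηc : ∀ l, ContinuousOn (fun z => F.η z l) (ball 0 R) := fun l => (hp.grad l).cont
  have hcont_p : ContG (Op ∪ ga) vp :=
    contG_transfer hMET hm.1.cp hSp hKcomp.isClosed hcp.pc
      (fun l => (hηc l).mono (hTsub.trans hsub)) hvp hU0 hKU hTp
      (fun z hz w hw => hc.alip z (hsub (hTsub hz)) w (hsub (hTsub hw)))
  have hlc' : ContG {z | starRingEnd ℂ z ∈ HDc 0 F.R}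
      (fun z => fun i => -(l' (starRingEnd ℂ z) i)) := by
    have h1 := (hREF k n (HD 0 F.R) l' (isOpen_HD 0 F.R)).2.2.1 _ hcp.lc
    intro z hz
    have h2 := h1 z hz
    simp only [dG_neg]
    exact h2
  have hcont_m : ContG (Omi ∪ ga) vm :=
    contG_transfer hMET hm.1.cm hSm hKcomp.isClosed hlc'
      (fun l => (hηc l).mono (hTsub'.trans hsub)) hvm hU0 hKU hTm
      (fun z hz w hw => hc.alip z (hsub (hTsub' hz)) w (hsub (hTsub' hw)))
  have hbd : ∀ w ∈ ga, Same (vp w) (Fin.append (vm w) (fun _ : Fin d => φ w)) := by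
    intro w hw
    by_cases h : w ∈ Φ '' ball 0 F.R
    · obtain ⟨z, hz, rfl⟩ := h
      have him := ((hc.side z (hsub hz)).2.2).1 hw
      have hzx : z = ((z.re : ℝ) : ℂ) := by
        apply Complex.ext <;> simp [him]
      set x : ℝ := z.re with hx
      have hxR : |x| < F.R := by
        rw [hzx] at hz; simpa using hz
      rw [hzx]
      have hz1 : ((x : ℝ) : ℂ) ∈ HDc 0 F.R := ⟨by simp, by simpa using hxR⟩
      have hz2 : ((x : ℝ) : ℂ) ∈ {z | starRingEnd ℂ z ∈ HDc 0 F.R} := by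
        show starRingEnd ℂ (x : ℂ) ∈ HDc 0 F.R
        rw [Complex.conj_ofReal]; exact hz1
      rw [hvp _ hz1, hvm _ hz2, Complex.conj_ofReal]
      obtain ⟨σ, hσ⟩ := hcp.bd x hxR
      refine ⟨σ, ?_⟩
      funext i
      have hφ : toE (F.η (x : ℂ)) = φ (Φ x) := by
        ext l; rw [toE_apply]; exact hp.val x (hxR.trans hR) l
      have h1 : p' (x : ℂ) i =
          (Fin.append (fun i => -(l' x i)) (fun _ : Fin d => (0 : E n))) (σ i) := by
        rw [hσ]; rfl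
      show p' (x : ℂ) i + toE (F.η (x : ℂ)) = Fin.append _ _ (σ i)
      rw [h1]
      refine Fin.addCases (fun j => ?_) (fun j => ?_) (σ i)
      · rw [Fin.append_left, Fin.append_left]
      · rw [Fin.append_right, Fin.append_right, zero_add, hφ]
    · have h1 : w ∉ Φ '' (HDc 0 F.R) := fun hh => h (image_mono hTsub hh)
      have h2 : w ∉ Φ '' {z | starRingEnd ℂ z ∈ HDc 0 F.R} := fun hh => h (image_mono hTsub' hh)
      have e1 : vp w = up w := by simp only [hvpdef, if_neg h1]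
      have e2 : vm w = um w := by simp only [hvmdef, if_neg h2]
      rw [e1, e2]; exact hm.1.bd w hw
  -- energies
  have hHsub : HD 0 F.R ⊆ HDc 0 F.R := HD_subset_HDc 0 F.R
  have hA : ∀ z ∈ HD 0 F.R, F.A z = cA Φ z := fun z hz => (hAB z hz).1
  have hB := fun z hz => (hAB z hz).2
  obtain ⟨ip1, np1, ep1⟩ := upper_energy hAFF hGAL hEND hFLB hJCV hc F hF hR hA p' vp X Y hcp.pg
    hcp.pI (fun z hz i l => by rw [hvp z (hHsub hz)]; rfl)
  obtain ⟨ip0, np0, ep0⟩ := upper_energy hAFF hGAL hEND hFLB hJCV hc F hF hR hA F.p up F.Px F.Py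
    hF.pg hF.pI (fun z hz i l => by rw [hup z (hHsub hz)]; rfl)
  have hev : ∀ z ∈ HD 0 F.R, F.η (starRingEnd ℂ z) = F.η z := fun z hz =>
    hp.even z (hsub (hTsub (hHsub hz)))
  have hmemc : ∀ z ∈ HD 0 F.R, starRingEnd ℂ z ∈ {z | starRingEnd ℂ z ∈ HDc 0 F.R} := by
    intro z hz
    show starRingEnd ℂ (starRingEnd ℂ z) ∈ HDc 0 F.R
    rw [Complex.conj_conj]; exact hHsub hz
  obtain ⟨im1, nm1, em1⟩ := lower_energy hAFF hGAL hEND hFLB hJCV hREF hc F hF hR hB l' vm X' Y'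
    hcp.lg hcp.lI (fun z hz i l => by
      rw [hvm _ (hmemc z hz), Complex.conj_conj, hev z hz]
      simp only [PiLp.add_apply, PiLp.neg_apply, toE_apply]; ring)
  obtain ⟨im0, nm0, em0⟩ := lower_energy hAFF hGAL hEND hFLB hJCV hREF hc F hF hR hB F.l um F.Lx
    F.Ly hF.lg hF.lI (fun z hz i l => by
      rw [hum _ (hmemc z hz), Complex.conj_conj, hev z hz]
      simp only [PiLp.add_apply, PiLp.neg_apply, toE_apply]; ring)
  set Wp : Set ℂ := Φ '' HD 0 F.R with hWp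
  set Wm : Set ℂ := Φ '' {z | starRingEnd ℂ z ∈ HD 0 F.R} with hWm
  have hHball : HD 0 F.R ⊆ ball 0 R := (hHsub.trans hTsub).trans hsub
  have hLDsub : {z | starRingEnd ℂ z ∈ HD 0 F.R} ⊆ ball 0 R := fun z hz =>
    hsub (hTsub' (hHsub hz))
  have hWpo : IsOpen Wp := hc.opn _ hHball (isOpen_HD 0 F.R)
  have hWmo : IsOpen Wm := hc.opn _ hLDsub (isOpen_LD F.R)
  have hWpOp : Wp ⊆ Op := by
    rintro _ ⟨z, hz, rfl⟩; exact (hc.side z (hHball hz)).1.2 hz.1
  have hWmOm : Wm ⊆ Omi := by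
    rintro _ ⟨z, hz, rfl⟩
    refine (hc.side z (hLDsub hz)).2.1.2 ?_
    have := hz.1
    rw [Complex.conj_im] at this; linarith
  have fp := hENF (k + d) n Op Wp (Kc ∩ Op) up vp hs.openOp hWpo hWpOp
    (by
      rintro w ⟨⟨z, hz, rfl⟩, hw⟩
      have hz' := hsub (hcb hz)
      refine ⟨z, ⟨(hc.side z hz').1.1 hw, by simpa using hcb hz⟩, rfl⟩)
    (by
      have : Op \ (Kc ∩ Op) = Op \ Kc := by ext w; simp
      rw [this]; exact hs.openOp.sdiff hKcomp.isClosed)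
    (fun w hw => hSp w (Or.inl hw.1) (fun h => hw.2 ⟨h, hw.1⟩)) hm.1.fp
    (by rw [ep1]; exact ENNReal.ofReal_lt_top)
  have fm := hENF k n Omi Wm (Kc ∩ Omi) um vm hs.openOmi hWmo hWmOm
    (by
      rintro w ⟨⟨z, hz, rfl⟩, hw⟩
      have hz' := hsub (hcb hz)
      have him := (hc.side z hz').2.1.1 hw
      have hn : ‖starRingEnd ℂ z - ((0 : ℝ) : ℂ)‖ < F.R := by simpa using hcb hz
      refine ⟨z, ⟨?_, hn⟩, rfl⟩
      rw [Complex.conj_im]; linarith)
    (by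
      have : Omi \ (Kc ∩ Omi) = Omi \ Kc := by ext w; simp
      rw [this]; exact hs.openOmi.sdiff hKcomp.isClosed)
    (fun w hw => hSm w (Or.inl hw.1) (fun h => hw.2 ⟨h, hw.1⟩)) hm.1.fm
    (by rw [em1]; exact ENNReal.ofReal_lt_top)
  obtain ⟨fpW, fpv, fpe⟩ := fp
  obtain ⟨fmW, fmv, fme⟩ := fm
  have hsys : Sys k d n Op Omi ga φ vp vm := ⟨hcont_p, hcont_m, hbd, fpv, fmv⟩
  have hle := hm.2 vp vm hsys ⟨Kc, hKOm, hKcomp, fun w hw => hSp w hw.1 hw.2,
    fun w hw => hSm w hw.1 hw.2⟩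
  have hfin : en Op up + en Omi um ≠ ⊤ := ENNReal.add_ne_top.2 ⟨hm.1.fp.ne, hm.1.fm.ne⟩
  have hkey : en Wp up + en Wm um ≤ en Wp vp + en Wm vm := by
    have h1 : (en Op up + en Omi um) + (en Wp up + en Wm um) ≤
        (en Op up + en Omi um) + (en Wp vp + en Wm vm) := by
      calc (en Op up + en Omi um) + (en Wp up + en Wm um)
          ≤ (en Op vp + en Omi vm) + (en Wp up + en Wm um) := by gcongr
        _ = (en Op vp + en Wp up) + (en Omi vm + en Wm um) := by ring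
        _ = (en Op up + en Wp vp) + (en Omi um + en Wm vm) := by rw [fpe, fme]
        _ = (en Op up + en Omi um) + (en Wp vp + en Wm vm) := by ring
    exact (ENNReal.add_le_add_iff_left hfin).1 h1
  rw [ep0, em0, ep1, em1] at hkey
  have nn : ∀ f : ℂ → ℝ, (∀ z ∈ HD 0 F.R, 0 ≤ f z) → 0 ≤ ∫ z in HD 0 F.R, f z := fun f hf =>
    setIntegral_nonneg (isOpen_HD 0 F.R).measurableSet hf
  rw [← ENNReal.ofReal_add (nn _ np0) (nn _ nm0), ← ENNReal.ofReal_add (nn _ np1) (nn _ nm1),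
    ENNReal.ofReal_le_ofReal_iff (add_nonneg (nn _ np1) (nn _ nm1))] at hkey
  unfold Flat.En
  rw [integral_add ip0 im0, integral_add ip1 im1]
  exact hkey

end Pool.Agent.DMB
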