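import Pool.Agent.DMB.Api

/-!
Module FLA: the coefficients of the pulled back Dirichlet integral in a chart.
-/

set_option autoImplicit false

namespace Pool.Agent.DMB

open MeasureTheory Set Metric Filter Topology
open scoped ENNReal

namespace FLA_

variable {Op Omi ga : Set ℂ} {Φ : ℂ → ℂ} {c1 : ℝ → ℂ} {R C : ℝ}

theorem fd_le (h : Chart Op Omi ga Φ c1 R C) {z : ℂ} (hz : z ∈ ball (0 : ℂ) R) :
    ‖fderiv ℝ Φ z‖ ≤ C := by
  have hC : 0 ≤ C := le_trans zero_le_one h.hC
  have hd : DifferentiableAt ℝ Φ z :=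
    (h.smooth.differentiableOn one_ne_zero).differentiableAt (isOpen_ball.mem_nhds hz)
  have hl : LipschitzOnWith C.toNNReal Φ (ball 0 R) := by
    refine LipschitzOnWith.of_dist_le_mul fun x hx y hy => ?_
    rw [dist_eq_norm, dist_eq_norm, Real.coe_toNNReal C hC]
    exact h.lip x hx y hy
  have := hd.hasFDerivAt.le_of_lipschitzOn (isOpen_ball.mem_nhds hz) hl
  rwa [Real.coe_toNNReal C hC] at this

theorem px_le (h : Chart Op Omi ga Φ c1 R C) {z : ℂ} (hz : z ∈ ball (0 : ℂ) R) :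
    ‖px Φ z‖ ≤ C := by
  have := (fderiv ℝ Φ z).le_of_opNorm_le (fd_le h hz) 1
  simpa [px] using this

theorem py_le (h : Chart Op Omi ga Φ c1 R C) {z : ℂ} (hz : z ∈ ball (0 : ℂ) R) :
    ‖py Φ z‖ ≤ C := by
  have := (fderiv ℝ Φ z).le_of_opNorm_le (fd_le h hz) Complex.I
  simpa [py] using this

/-- the algebra behind the estimates -/
theorem alg (a b : ℂ) : ‖b‖ ^ 2 - (starRingEnd ℂ a * b).im =
      (starRingEnd ℂ a * (b - Complex.I * a)).im + ‖b - Complex.I * a‖ ^ 2 ∧
    ‖a‖ ^ 2 - (starRingEnd ℂ a * b).im = -(starRingEnd ℂ a * (b - Complex.I * a)).im ∧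
    (a * starRingEnd ℂ b).re = (a * starRingEnd ℂ (b - Complex.I * a)).re := by
  refine ⟨?_, ?_, ?_⟩
  · rw [← Complex.normSq_eq_norm_sq, ← Complex.normSq_eq_norm_sq, Complex.normSq_apply,
      Complex.normSq_apply]
    simp; ring
  · rw [← Complex.normSq_eq_norm_sq, Complex.normSq_apply]
    simp; ring
  · simp; ring

end FLA_

open FLA_ in
theorem fla_proof : Stmt_FLA := by
  intro Op Omi ga Φ c1 R C h
  have hC : 1 ≤ C := h.hC
  have hC0 : 0 < C := by linarith
  have hfd : ContinuousOn (fderiv ℝ Φ) (ball 0 R) :=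
    h.smooth.continuousOn_fderiv_of_isOpen isOpen_ball le_rfl
  have hpx : ContinuousOn (fun z => px Φ z) (ball 0 R) := hfd.clm_apply continuousOn_const
  have hpy : ContinuousOn (fun z => py Φ z) (ball 0 R) := hfd.clm_apply continuousOn_const
  have hj : ContinuousOn (fun z => jac Φ z) (ball 0 R) := by
    unfold jac
    exact Complex.continuous_im.comp_continuousOn
      ((Complex.continuous_conj.comp_continuousOn hpx).mul hpy)
  have hjp : ∀ z ∈ ball (0 : ℂ) R, 0 < jac Φ z := fun z hz =>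
    lt_of_lt_of_le (inv_pos.mpr hC0) (h.jacp z hz)
  have hj0 : ∀ z ∈ ball (0 : ℂ) R, jac Φ z ≠ 0 := fun z hz => (hjp z hz).ne'
  constructor
  · intro j
    fin_cases j
    · exact (hpy.norm.pow 2).div hj hj0
    · exact (Complex.continuous_re.comp_continuousOn
        (hpx.mul (Complex.continuous_conj.comp_continuousOn hpy))).neg.div hj hj0
    · exact (hpx.norm.pow 2).div hj hj0
  · refine ⟨3 * C ^ 3, by positivity, fun z hz => ?_⟩
    set a := px Φ z with ha
    set b := py Φ z with hb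
    set e := b - Complex.I * a with he
    have hae : ‖a‖ ≤ C := px_le h hz
    have hbe : ‖b‖ ≤ C := py_le h hz
    have hee : ‖e‖ ≤ C * z.im ^ 2 := h.conf z hz
    have hee2 : ‖e‖ ≤ 2 * C := by
      calc ‖e‖ ≤ ‖b‖ + ‖Complex.I * a‖ := norm_sub_le _ _
        _ = ‖b‖ + ‖a‖ := by rw [norm_mul, Complex.norm_I, one_mul]
        _ ≤ 2 * C := by linarith
    have hJ : C⁻¹ ≤ jac Φ z := h.jacp z hz
    have hJp := hjp z hz
    have hJ' : jac Φ z = (starRingEnd ℂ a * b).im := rfl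
    obtain ⟨e1, e2, e3⟩ := alg a b
    rw [← hJ', ← he] at e1 e2
    rw [← he] at e3
    have him : |(starRingEnd ℂ a * e).im| ≤ C * ‖e‖ := by
      refine (Complex.abs_im_le_norm _).trans ?_
      rw [norm_mul, RCLike.norm_conj]
      exact mul_le_mul_of_nonneg_right hae (norm_nonneg _)
    have hre : |(a * starRingEnd ℂ e).re| ≤ C * ‖e‖ := by
      refine (Complex.abs_re_le_norm _).trans ?_
      rw [norm_mul, RCLike.norm_conj]
      exact mul_le_mul_of_nonneg_right hae (norm_nonneg _)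
    have hn := norm_nonneg e
    have key : ∀ x : ℝ, |x| ≤ 3 * C * ‖e‖ → |x / jac Φ z| ≤ 3 * C ^ 3 * z.im ^ 2 := by
      intro x hx
      rw [abs_div, abs_of_pos hJp, div_le_iff₀ hJp]
      have h1 : 1 ≤ C * jac Φ z := by
        have := mul_le_mul_of_nonneg_left hJ hC0.le
        rwa [mul_inv_cancel₀ hC0.ne'] at this
      calc |x| ≤ 3 * C * ‖e‖ := hx
        _ ≤ 3 * C * (C * z.im ^ 2) := by gcongr
        _ = 3 * C ^ 2 * z.im ^ 2 * 1 := by ring
        _ ≤ 3 * C ^ 2 * z.im ^ 2 * (C * jac Φ z) := by gcongr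
        _ = _ := by ring
    have c0 : cA Φ z 0 - 1 = (‖b‖ ^ 2 - jac Φ z) / jac Φ z := by
      rw [sub_div, div_self hJp.ne']; rfl
    have c1' : cA Φ z 1 = -(a * starRingEnd ℂ b).re / jac Φ z := rfl
    have c2 : cA Φ z 2 - 1 = (‖a‖ ^ 2 - jac Φ z) / jac Φ z := by
      rw [sub_div, div_self hJp.ne']; rfl
    refine ⟨?_, ?_, ?_⟩
    · rw [c0, e1]
      apply key
      calc |(starRingEnd ℂ a * e).im + ‖e‖ ^ 2| ≤ |(starRingEnd ℂ a * e).im| + |‖e‖ ^ 2| :=
            abs_add_le _ _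
        _ ≤ C * ‖e‖ + ‖e‖ * ‖e‖ := by
            rw [abs_of_nonneg (sq_nonneg ‖e‖), sq]; linarith
        _ ≤ C * ‖e‖ + 2 * C * ‖e‖ := by gcongr
        _ = _ := by ring
    · rw [c1', e3]
      apply key
      rw [abs_neg]
      nlinarith
    · rw [c2, e2]
      apply key
      rw [abs_neg]
      nlinarith

end Pool.Agent.DMB
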