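import Pool.Agent.DMB.Api

namespace Pool.Agent.DMB

open MeasureTheory Set Metric Filter Topology
open scoped ENNReal

namespace FLB_

variable {K n : ℕ}

theorem det_eq (L : ℂ →L[ℝ] ℂ) : L.det = (starRingEnd ℂ (L 1) * L Complex.I).im := by
  have h : L.det = LinearMap.det (L : ℂ →ₗ[ℝ] ℂ) := rfl
  rw [h, ← LinearMap.det_toMatrix Complex.basisOneI, Matrix.det_fin_two]
  simp [LinearMap.toMatrix_apply, Complex.mul_im]
  ring

/-- the pulled back gradient -/
def pb (a : ℂ) (X Y : Mat K n) : Mat K n := fun i l => X i l * a.re + Y i l * a.im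

theorem pb_eq (a : ℂ) (X Y : Mat K n) : pb a X Y = a.re • X + a.im • Y := by
  funext i l; simp [pb]; ring

theorem algebra (a b : ℂ) (X Y : Mat K n) (hJ : (starRingEnd ℂ a * b).im ≠ 0) :
    (starRingEnd ℂ a * b).im * (nsq X + nsq Y) =
      qd ![‖b‖ ^ 2 / (starRingEnd ℂ a * b).im, -(a * starRingEnd ℂ b).re /
        (starRingEnd ℂ a * b).im, ‖a‖ ^ 2 / (starRingEnd ℂ a * b).im] (pb a X Y) (pb b X Y) := by
  have e1 : ‖a‖ ^ 2 = a.re ^ 2 + a.im ^ 2 := by rw [Complex.sq_norm, Complex.normSq_apply]; ring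
  have e2 : ‖b‖ ^ 2 = b.re ^ 2 + b.im ^ 2 := by rw [Complex.sq_norm, Complex.normSq_apply]; ring
  have e3 : (starRingEnd ℂ a * b).im = a.re * b.im - a.im * b.re := by simp; ring
  have e4 : (a * starRingEnd ℂ b).re = a.re * b.re + a.im * b.im := by simp
  rw [e3] at hJ ⊢
  rw [e1, e2, e4]
  have n1 : nsq (pb a X Y) = a.re ^ 2 * nsq X + 2 * (a.re * a.im * dt X Y) + a.im ^ 2 * nsq Y := by
    rw [pb_eq, nsq_add, nsq_smul, nsq_smul, dt_smul_left, dt_smul_right]; ring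
  have n2 : nsq (pb b X Y) = b.re ^ 2 * nsq X + 2 * (b.re * b.im * dt X Y) + b.im ^ 2 * nsq Y := by
    rw [pb_eq, nsq_add, nsq_smul, nsq_smul, dt_smul_left, dt_smul_right]; ring
  have n3 : dt (pb a X Y) (pb b X Y) = a.re * b.re * nsq X + (a.re * b.im + a.im * b.re) * dt X Y +
      a.im * b.im * nsq Y := by
    rw [pb_eq, pb_eq, dt_add_left, dt_add_right, dt_add_right, dt_smul_left, dt_smul_right,
      dt_smul_left, dt_smul_right, dt_smul_left, dt_smul_right, dt_smul_left, dt_smul_right,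
      ← nsq_eq_dt, ← nsq_eq_dt, dt_comm Y X]; ring
  simp only [qd, n1, n2, n3, Matrix.cons_val_zero, Matrix.cons_val_one, Matrix.cons_val]
  field_simp
  ring

theorem injOn_chart {Op Omi ga : Set ℂ} {Φ : ℂ → ℂ} {c1 : ℝ → ℂ} {R C : ℝ}
    (hc : Chart Op Omi ga Φ c1 R C) : InjOn Φ (ball 0 R) := by
  intro z hz w hw h
  have := hc.alip z hz w hw
  rw [h, sub_self, norm_zero, mul_zero] at this
  exact sub_eq_zero.mp (norm_le_zero_iff.mp this)

theorem jac_pos {Op Omi ga : Set ℂ} {Φ : ℂ → ℂ} {c1 : ℝ → ℂ} {R C : ℝ}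
    (hc : Chart Op Omi ga Φ c1 R C) {z : ℂ} (hz : z ∈ ball (0 : ℂ) R) : 0 < jac Φ z :=
  lt_of_lt_of_le (inv_pos.mpr (lt_of_lt_of_le one_pos hc.hC)) (hc.jacp z hz)

/-- the inverse chart -/
theorem inverse {Op Omi ga : Set ℂ} {Φ : ℂ → ℂ} {c1 : ℝ → ℂ} {R C : ℝ}
    (hc : Chart Op Omi ga Φ c1 R C) {V : Set ℂ} (hV : V ⊆ ball 0 R) (hVo : IsOpen V) :
    ∃ Ψ : ℂ → ℂ, (∀ z ∈ V, Ψ (Φ z) = z) ∧ ContDiffOn ℝ 1 Ψ (Φ '' V) ∧
      ∀ z ∈ V, ∀ v : ℂ, fderiv ℝ Ψ (Φ z) (fderiv ℝ Φ z v) = v := by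
  have hinj := (injOn_chart hc).mono hV
  have hcont : ContinuousOn Φ V := hc.smooth.continuousOn.mono hV
  let e := hinj.toPartialEquiv Φ V
  have hes : e.source = V := rfl
  have ho : IsOpenMap (e.source.domRestrict e) := by
    intro T hT
    obtain ⟨T', hT', rfl⟩ := hT
    have : e.source.domRestrict e '' (Subtype.val ⁻¹' T') = Φ '' (V ∩ T') := by
      ext w
      constructor
      · rintro ⟨⟨z, hz⟩, hzT, rfl⟩
        exact ⟨z, ⟨hz, hzT⟩, rfl⟩
      · rintro ⟨z, ⟨hz, hzT⟩, rfl⟩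
        exact ⟨⟨z, hz⟩, hzT, rfl⟩
    rw [this]
    exact hc.opn _ (inter_subset_left.trans hV) (hVo.inter hT')
  let P : OpenPartialHomeomorph ℂ ℂ :=
    OpenPartialHomeomorph.ofContinuousOpenRestrict e hcont ho hVo
  have hPs : P.source = V := rfl
  have hPt : P.target = Φ '' V := rfl
  have hPf : ∀ z, P z = Φ z := fun z => rfl
  have hleft : ∀ z ∈ V, P.symm (Φ z) = z := fun z hz => P.left_inv hz
  have hdiff : ∀ z ∈ V, ContDiffAt ℝ 1 Φ z := fun z hz =>
    hc.smooth.contDiffAt (isOpen_ball.mem_nhds (hV hz))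
  have hfd : ∀ z ∈ V, HasFDerivAt Φ (fderiv ℝ Φ z) z := fun z hz =>
    ((hdiff z hz).differentiableAt (by norm_num)).hasFDerivAt
  have hcd : ∀ w ∈ Φ '' V, ContDiffAt ℝ 1 P.symm w := by
    rintro w ⟨z, hz, rfl⟩
    have hdet : (fderiv ℝ Φ z).det ≠ 0 := by
      rw [det_eq]; exact (jac_pos hc (hV hz)).ne'
    refine P.contDiffAt_symm (f₀' := (fderiv ℝ Φ z).toContinuousLinearEquivOfDetNeZero hdet)
      (mem_image_of_mem _ hz) ?_ ?_
    · rw [hleft z hz]; exact hfd z hz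
    · rw [hleft z hz]; exact hdiff z hz
  refine ⟨P.symm, hleft, fun w hw => (hcd w hw).contDiffWithinAt, ?_⟩
  intro z hz v
  have h1 : HasFDerivAt P.symm (fderiv ℝ P.symm (Φ z)) (Φ z) :=
    ((hcd _ (mem_image_of_mem _ hz)).differentiableAt (by norm_num)).hasFDerivAt
  have h2 : HasFDerivAt (P.symm ∘ Φ) ((fderiv ℝ P.symm (Φ z)).comp (fderiv ℝ Φ z)) z :=
    h1.comp z (hfd z hz)
  have h3 : HasFDerivAt (P.symm ∘ Φ) (ContinuousLinearMap.id ℝ ℂ) z := by
    refine (hasFDerivAt_id z).congr_of_eventuallyEq ?_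
    filter_upwards [hVo.mem_nhds hz] with y hy
    exact hleft y hy
  have h4 := h2.unique h3
  have h5 := congrArg (fun L : ℂ →L[ℝ] ℂ => L v) h4
  simpa using h5

end FLB_

open FLB_ in
theorem flb_proof (hGAL : Stmt_GAL) (_hGUN : Stmt_GUN) (hGCO : Stmt_GCO) : Stmt_FLB := by
  intro K n Op Omi ga Φ c1 R C hc V hV hVo s
  have hinj := (injOn_chart hc).mono hV
  have hUo : IsOpen (Φ '' V) := hc.opn V hV hVo
  have halg : ∀ (X Y : ℂ → Mat K n), ∀ z ∈ V, jac Φ z * ed X Y (Φ z) =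
      qd (cA Φ z) (pb (px Φ z) (X (Φ z)) (Y (Φ z))) (pb (py Φ z) (X (Φ z)) (Y (Φ z))) := by
    intro X Y z hz
    exact algebra (px Φ z) (py Φ z) (X (Φ z)) (Y (Φ z)) (jac_pos hc (hV hz)).ne'
  refine ⟨fun X Y hg => ?_, fun X' Y' hg => ?_⟩
  · refine ⟨fun z => pb (px Φ z) (X (Φ z)) (Y (Φ z)), fun z => pb (py Φ z) (X (Φ z)) (Y (Φ z)),
      fun i l => ?_, halg X Y⟩
    exact hGCO (Φ '' V) V Φ _ _ _ hUo hVo (hc.smooth.mono hV) (mapsTo_image _ _) hinj
      (fun z hz => (jac_pos hc (hV hz)).ne') (hg i l)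
  · obtain ⟨Ψ, hΨ, hΨc, hΨd⟩ := inverse hc hV hVo
    set X : ℂ → Mat K n := fun w => pb (px Ψ w) (X' (Ψ w)) (Y' (Ψ w)) with hX
    set Y : ℂ → Mat K n := fun w => pb (py Ψ w) (X' (Ψ w)) (Y' (Ψ w)) with hY
    have hmaps : MapsTo Ψ (Φ '' V) V := by
      rintro w ⟨z, hz, rfl⟩; rw [hΨ z hz]; exact hz
    have hinjΨ : InjOn Ψ (Φ '' V) := by
      rintro w ⟨z, hz, rfl⟩ w' ⟨z', hz', rfl⟩ h
      rw [hΨ z hz, hΨ z' hz'] at h; rw [h]
    -- relations between the derivatives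
    have hrel : ∀ z ∈ V, ∀ v : ℂ, (fderiv ℝ Φ z v).re • px Ψ (Φ z) +
        (fderiv ℝ Φ z v).im • py Ψ (Φ z) = v := by
      intro z hz v
      have h := hΨd z hz v
      have h2 : fderiv ℝ Φ z v = (fderiv ℝ Φ z v).re • (1 : ℂ) +
          (fderiv ℝ Φ z v).im • Complex.I := by
        apply Complex.ext <;> simp
      rw [h2, map_add, map_smul, map_smul] at h
      exact h
    have hjac : ∀ w ∈ Φ '' V, jac Ψ w ≠ 0 := by
      rintro w ⟨z, hz, rfl⟩ h0
      have r1 := hrel z hz 1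
      have r2 := hrel z hz Complex.I
      have a1 := congrArg Complex.re r1
      have a2 := congrArg Complex.im r1
      have a3 := congrArg Complex.re r2
      have a4 := congrArg Complex.im r2
      simp only [Complex.add_re, Complex.add_im, Complex.real_smul, Complex.mul_re, Complex.mul_im,
        Complex.ofReal_re, Complex.ofReal_im, zero_mul, sub_zero, add_zero, Complex.one_re,
        Complex.one_im, Complex.I_re, Complex.I_im] at a1 a2 a3 a4
      have h1 : (px Ψ (Φ z)).re * (py Ψ (Φ z)).im - (px Ψ (Φ z)).im * (py Ψ (Φ z)).re = 0 := by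
        have := h0
        simp only [jac, Complex.mul_im, Complex.conj_re, Complex.conj_im] at this
        linarith
      set A := (fderiv ℝ Φ z 1).re
      set B := (fderiv ℝ Φ z 1).im
      set A' := (fderiv ℝ Φ z Complex.I).re
      set B' := (fderiv ℝ Φ z Complex.I).im
      have : (A * B' - B * A') * ((px Ψ (Φ z)).re * (py Ψ (Φ z)).im -
          (px Ψ (Φ z)).im * (py Ψ (Φ z)).re) = 1 := by
        linear_combination (A' * (px Ψ (Φ z)).im + B' * (py Ψ (Φ z)).im) * a1 + a4 -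
          (A' * (px Ψ (Φ z)).re + B' * (py Ψ (Φ z)).re) * a2
      rw [h1, mul_zero] at this
      exact zero_ne_one this
    refine ⟨X, Y, fun i l => ?_, ?_⟩
    · have h := hGCO V (Φ '' V) Ψ _ _ _ hVo hUo hΨc hmaps hinjΨ hjac (hg i l)
      refine (hGAL (Φ '' V) hUo).2.2.2.2 _ _ _ _ _ _ h ?_ (by rfl) (by rfl)
      rintro w ⟨z, hz, rfl⟩
      show s (Φ z) i l = s (Φ (Ψ (Φ z))) i l
      rw [hΨ z hz]
    · intro z hz
      rw [halg X Y z hz]
      have hkey : ∀ v : ℂ, pb (fderiv ℝ Φ z v) (X (Φ z)) (Y (Φ z)) =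
          v.re • X' z + v.im • Y' z := by
        intro v
        have r := hrel z hz v
        have a1 := congrArg Complex.re r
        have a2 := congrArg Complex.im r
        simp only [Complex.add_re, Complex.add_im, Complex.real_smul, Complex.mul_re,
          Complex.mul_im, Complex.ofReal_re, Complex.ofReal_im, zero_mul, sub_zero,
          add_zero] at a1 a2
        funext i l
        simp only [hX, hY, pb, hΨ z hz, Pi.add_apply, Pi.smul_apply, smul_eq_mul]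
        rw [← a1, ← a2]; ring
      have k1 : pb (px Φ z) (X (Φ z)) (Y (Φ z)) = X' z := by
        have := hkey 1; simpa [px] using this
      have k2 : pb (py Φ z) (X (Φ z)) (Y (Φ z)) = Y' z := by
        have := hkey Complex.I; simpa [py] using this
      rw [k1, k2]

end Pool.Agent.DMB
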