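import Pool.Agent.DMB.Api

/-!
Elementary estimates of the flat Poisson integral.
-/

namespace Pool.Agent.DMB

open MeasureTheory Set Metric Filter Topology
open scoped ENNReal

namespace FLP_

/-- the kernel -/
noncomputable def P (x y t : ℝ) : ℝ := y / ((x - t) ^ 2 + y ^ 2)

theorem P_nonneg {x y t : ℝ} (hy : 0 ≤ y) : 0 ≤ P x y t :=
  div_nonneg hy (by positivity)

theorem P_eq {x y : ℝ} (hy : 0 < y) :
    P x y = fun t => y⁻¹ * (1 + ((t - x) / y) ^ 2)⁻¹ := by
  funext t
  unfold P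
  have h1 : (x - t) ^ 2 + y ^ 2 ≠ 0 := by positivity
  have h2 : (1 + ((t - x) / y) ^ 2) ≠ 0 := by positivity
  field_simp
  ring

theorem P_integrable {x y : ℝ} (hy : 0 < y) : Integrable (P x y) := by
  rw [P_eq hy]
  have h1 : Integrable (fun s : ℝ => (1 + s ^ 2)⁻¹) := integrable_inv_one_add_sq
  have h2 : Integrable (fun s : ℝ => (1 + (s / y) ^ 2)⁻¹) := h1.comp_div hy.ne'
  have h3 : Integrable (fun s : ℝ => (1 + ((s - x) / y) ^ 2)⁻¹) := h2.comp_sub_right x
  exact h3.const_mul _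

theorem P_integral {x y : ℝ} (hy : 0 < y) : ∫ t, P x y t = Real.pi := by
  rw [P_eq hy]
  have h1 : ∫ s : ℝ, (1 + s ^ 2)⁻¹ = Real.pi := integral_univ_inv_one_add_sq
  rw [integral_const_mul]
  have h3 : ∫ s : ℝ, (1 + ((s - x) / y) ^ 2)⁻¹ = ∫ s : ℝ, (1 + (s / y) ^ 2)⁻¹ :=
    integral_sub_right_eq_self (fun s : ℝ => (1 + (s / y) ^ 2)⁻¹) x
  have h4 : ∫ s : ℝ, (1 + (s / y) ^ 2)⁻¹ = |y| • ∫ s : ℝ, (1 + s ^ 2)⁻¹ :=
    Measure.integral_comp_div (fun s : ℝ => (1 + s ^ 2)⁻¹) y
  rw [h3, h4, h1, abs_of_pos hy, smul_eq_mul]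
  field_simp

theorem P_window {x y a : ℝ} (hy : 0 < y) (ha : 0 ≤ a) :
    ∫ t in Ioc (x - a) (x + a), P x y t = 2 * Real.arctan (a / y) := by
  rw [← intervalIntegral.integral_of_le (by linarith)]
  have hd : ∀ t ∈ uIcc (x - a) (x + a),
      HasDerivAt (fun t => Real.arctan ((t - x) / y)) (P x y t) t := by
    intro t _
    have h1 : HasDerivAt (fun t => (t - x) / y) (1 / y) t :=
      ((hasDerivAt_id t).sub_const x).div_const y
    have h2 := h1.arctan
    rw [P_eq hy]
    convert h2 using 1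
    field_simp
  rw [intervalIntegral.integral_eq_sub_of_hasDerivAt hd
    ((P_integrable hy).intervalIntegrable)]
  have e1 : (x + a - x) / y = a / y := by ring
  have e2 : (x - a - x) / y = -(a / y) := by ring
  rw [e1, e2, Real.arctan_neg]
  ring

theorem P_outside {x y a : ℝ} (hy : 0 < y) (ha : 0 ≤ a) :
    ∫ t in (Ioc (x - a) (x + a))ᶜ, P x y t = Real.pi - 2 * Real.arctan (a / y) := by
  have h := integral_add_compl (measurableSet_Ioc (a := x - a) (b := x + a))
    (P_integrable (x := x) hy)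
  rw [P_window hy ha, P_integral hy] at h
  linarith

theorem PI_eq (E1 : Set ℝ) (z : ℂ) :
    PI E1 z = (1 / Real.pi) * ∫ t in E1, P z.re z.im t := rfl

theorem part1 (E1 : Set ℝ) (z : ℂ) (hz : 0 < z.im) :
    0 ≤ PI E1 z ∧ PI E1 z ≤ 1 := by
  rw [PI_eq]
  have hp := Real.pi_pos
  constructor
  · exact mul_nonneg (by positivity) (integral_nonneg fun t => P_nonneg hz.le)
  · have h : ∫ t in E1, P z.re z.im t ≤ ∫ t, P z.re z.im t :=
      setIntegral_le_integral (P_integrable hz)
        (Eventually.of_forall fun t => P_nonneg hz.le)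
    rw [P_integral hz] at h
    rw [div_mul_eq_mul_div, one_mul]
    rw [div_le_one hp]
    exact h

theorem part2 (E1 : Set ℝ) (z : ℂ) (hz : 0 < z.im)
    (h : ∀ t ∈ E1, z.im ≤ |z.re - t|) : PI E1 z ≤ 1 / 2 := by
  rw [PI_eq]
  have hp := Real.pi_pos
  have hsub : E1 ≤ᵐ[volume] ((Ioc (z.re - z.im) (z.re + z.im))ᶜ : Set ℝ) := by
    have hne : ∀ᵐ t : ℝ, t ≠ z.re + z.im := by
      have : volume ({z.re + z.im} : Set ℝ) = 0 := by simp
      rw [ae_iff]
      simpa using this
    filter_upwards [hne] with t ht hE1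
    intro h2
    obtain ⟨ha, hb⟩ := h2
    have hb' : t < z.re + z.im := lt_of_le_of_ne hb ht
    have := h t hE1
    have h3 : |z.re - t| < z.im := abs_lt.2 ⟨by linarith, by linarith⟩
    linarith
  have h1 : ∫ t in E1, P z.re z.im t ≤
      ∫ t in (Ioc (z.re - z.im) (z.re + z.im))ᶜ, P z.re z.im t :=
    setIntegral_mono_set (P_integrable hz).integrableOn
      (Eventually.of_forall fun t => P_nonneg hz.le) hsub
  rw [P_outside hz hz.le, div_self hz.ne', Real.arctan_one] at h1
  have h2 : ∫ t in E1, P z.re z.im t ≤ Real.pi / 2 := by linarith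
  calc (1 / Real.pi) * ∫ t in E1, P z.re z.im t ≤ (1 / Real.pi) * (Real.pi / 2) :=
        mul_le_mul_of_nonneg_left h2 (by positivity)
    _ = 1 / 2 := by field_simp

theorem setInt_le (E1 : Set ℝ) (hE : MeasurableSet E1) (hv : volume E1 < ⊤) (f : ℝ → ℝ) (c : ℝ)
    (hf : IntegrableOn f E1) (h : ∀ t ∈ E1, f t ≤ c) :
    ∫ t in E1, f t ≤ c * (volume E1).toReal := by
  have h1 : ∫ t in E1, f t ≤ ∫ t in E1, c :=
    setIntegral_mono_on hf (integrableOn_const hv.ne) hE h
  rw [setIntegral_const] at h1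
  simpa [Measure.real, mul_comm] using h1

theorem part3 (E1 : Set ℝ) (hE : MeasurableSet E1) (hv : volume E1 < ⊤) (z : ℂ)
    (hz : 0 < z.im) : PI E1 z ≤ (volume E1).toReal / (Real.pi * z.im) := by
  rw [PI_eq]
  have hp := Real.pi_pos
  have h := setInt_le E1 hE hv (P z.re z.im) (1 / z.im) (P_integrable hz).integrableOn (by
    intro t _
    unfold P
    rw [div_le_div_iff₀ (by positivity) hz]
    nlinarith [sq_nonneg (z.re - t)])
  calc (1 / Real.pi) * ∫ t in E1, P z.re z.im t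
      ≤ (1 / Real.pi) * (1 / z.im * (volume E1).toReal) :=
        mul_le_mul_of_nonneg_left h (by positivity)
    _ = (volume E1).toReal / (Real.pi * z.im) := by field_simp

theorem part4 (E1 : Set ℝ) (hE : MeasurableSet E1) (hv : volume E1 < ⊤) (z : ℂ) (a : ℝ)
    (ha : 0 < a) (h : ∀ t ∈ E1, a ≤ |z.re - t|) (hz : 0 ≤ z.im) :
    PI E1 z ≤ (volume E1).toReal / (2 * Real.pi * a) := by
  rw [PI_eq]
  have hp := Real.pi_pos
  rcases hz.eq_or_lt with h0 | h0
  · have : (fun t => P z.re z.im t) = fun _ => (0 : ℝ) := by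
      funext t
      simp [P, ← h0]
    rw [this]
    simp
    positivity
  · have h := setInt_le E1 hE hv (P z.re z.im) (1 / (2 * a)) (P_integrable h0).integrableOn (by
      intro t ht
      unfold P
      rw [div_le_div_iff₀ (by positivity) (by positivity)]
      have h1 := h t ht
      have h2 : a ^ 2 ≤ (z.re - t) ^ 2 := by
        rw [← sq_abs (z.re - t)]
        exact pow_le_pow_left₀ ha.le h1 2
      nlinarith [sq_nonneg (z.im - a)])
    calc (1 / Real.pi) * ∫ t in E1, P z.re z.im t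
        ≤ (1 / Real.pi) * (1 / (2 * a) * (volume E1).toReal) :=
          mul_le_mul_of_nonneg_left h (by positivity)
      _ = (volume E1).toReal / (2 * Real.pi * a) := by field_simp

theorem bad_vol (E1 : Set ℝ) (q r ε : ℝ)
    (h : volume (Ioo 0 r \ {ρ | q + ρ ∈ E1 ∧ q - ρ ∈ E1}) ≤ ENNReal.ofReal (ε * r)) :
    volume (Ioc (q - r) (q + r) \ E1) ≤ 2 * ENNReal.ofReal (ε * r) := by
  set B := Ioo 0 r \ {ρ | q + ρ ∈ E1 ∧ q - ρ ∈ E1} with hB
  have hsub : Ioc (q - r) (q + r) \ E1 ⊆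
      (((fun ρ => q + ρ) '' B) ∪ ((fun ρ => q - ρ) '' B)) ∪ {q, q + r} := by
    intro t ht
    obtain ⟨⟨h1, h2⟩, h3⟩ := ht
    rcases lt_trichotomy t q with h4 | h4 | h4
    · left; right
      refine ⟨q - t, ⟨⟨by linarith, by linarith⟩, ?_⟩, by ring⟩
      rintro ⟨_, h6⟩
      apply h3
      have : q - (q - t) = t := by ring
      rwa [this] at h6
    · right; left; exact h4
    · rcases h2.eq_or_lt with h5 | h5
      · right; right; exact h5
      left; left
      refine ⟨t - q, ⟨⟨by linarith, by linarith⟩, ?_⟩, by ring⟩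
      rintro ⟨h6, _⟩
      apply h3
      have : q + (t - q) = t := by ring
      rwa [this] at h6
  have e1 : volume ((fun ρ => q + ρ) '' B) = volume B := by
    rw [image_add_left]
    simp
  have e2 : volume ((fun ρ => q - ρ) '' B) = volume B := by
    have : (fun ρ => q - ρ) '' B = (fun ρ => q + ρ) '' (-B) := by
      ext t
      constructor
      · rintro ⟨ρ, h1, rfl⟩
        exact ⟨-ρ, by simpa using h1, by ring⟩
      · rintro ⟨ρ, h1, rfl⟩
        exact ⟨-ρ, h1, by ring⟩
    rw [this, image_add_left]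
    simp
  have e3 : volume ({q, q + r} : Set ℝ) = 0 := by
    apply Set.Countable.measure_zero
    exact (Set.toFinite _).countable
  calc volume (Ioc (q - r) (q + r) \ E1) ≤ volume ((((fun ρ => q + ρ) '' B) ∪
        ((fun ρ => q - ρ) '' B)) ∪ {q, q + r}) := measure_mono hsub
    _ ≤ volume (((fun ρ => q + ρ) '' B) ∪ ((fun ρ => q - ρ) '' B)) +
        volume ({q, q + r} : Set ℝ) := measure_union_le _ _
    _ ≤ (volume ((fun ρ => q + ρ) '' B) + volume ((fun ρ => q - ρ) '' B)) +
        volume ({q, q + r} : Set ℝ) := by gcongr; exact measure_union_le _ _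
    _ = volume B + volume B := by rw [e1, e2, e3, add_zero]
    _ ≤ ENNReal.ofReal (ε * r) + ENNReal.ofReal (ε * r) := by gcongr
    _ = 2 * ENNReal.ofReal (ε * r) := by ring

theorem part5 (E1 : Set ℝ) (hE : MeasurableSet E1) (q : ℝ) (hd : Dens E1 q) :
    Tendsto (fun y : ℝ => PI E1 ⟨q, y⟩) (𝓝[>] 0) (𝓝 1) := by
  have hp := Real.pi_pos
  rw [Metric.tendsto_nhdsWithin_nhds]
  intro δ hδ
  -- choose M
  have hM : ∀ᶠ M : ℝ in atTop, Real.pi / 2 - δ / 2 < Real.arctan M := by
    have := Real.tendsto_arctan_atTop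
    have h2 : Tendsto Real.arctan atTop (𝓝 (Real.pi / 2)) :=
      this.mono_right nhdsWithin_le_nhds
    exact h2.eventually (lt_mem_nhds (by linarith))
  obtain ⟨M, hM1, hM0⟩ := (hM.and (eventually_gt_atTop (0 : ℝ))).exists
  obtain ⟨r1, hr1, hr⟩ := hd (δ / (2 * M)) (by positivity)
  refine ⟨r1 / M, by positivity, ?_⟩
  intro y hy0 hy1
  have hy : 0 < y := hy0
  have hy2 : y < r1 / M := by
    rw [Real.dist_eq, sub_zero, abs_of_pos hy] at hy1
    exact hy1
  have hMy : M * y < r1 := by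
    rw [lt_div_iff₀ hM0] at hy2
    linarith
  have hv := bad_vol E1 q (M * y) (δ / (2 * M)) (hr (M * y) (by positivity) hMy)
  -- the complement
  have hP : Integrable (P q y) := P_integrable hy
  have h1 := integral_add_compl hE hP
  rw [P_integral hy] at h1
  set W := Ioc (q - M * y) (q + M * y) with hW
  have h2 : ∫ t in E1ᶜ, P q y t ≤ ∫ t in (W \ E1) ∪ Wᶜ, P q y t := by
    apply setIntegral_mono_set hP.integrableOn
      (Eventually.of_forall fun t => P_nonneg hy.le)
    apply LE.le.eventuallyLE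
    intro t ht
    by_cases h : t ∈ W
    · left; exact ⟨h, ht⟩
    · right; exact h
  have hWm : MeasurableSet (W \ E1) := measurableSet_Ioc.diff hE
  have h3 : ∫ t in (W \ E1) ∪ Wᶜ, P q y t =
      (∫ t in (W \ E1), P q y t) + ∫ t in Wᶜ, P q y t := by
    refine setIntegral_union ?_ (by rw [hW]; exact measurableSet_Ioc.compl)
      hP.integrableOn hP.integrableOn
    rw [Set.disjoint_left]
    intro t h4 h5
    exact h5 h4.1
  have h4 : ∫ t in Wᶜ, P q y t = Real.pi - 2 * Real.arctan M := by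
    rw [hW, P_outside hy (by positivity)]
    congr 3
    field_simp
  have hvt : volume (W \ E1) < ⊤ := by
    refine lt_of_le_of_lt hv ?_
    exact ENNReal.mul_lt_top (by simp) ENNReal.ofReal_lt_top
  have h5 : ∫ t in (W \ E1), P q y t ≤ (1 / y) * (volume (W \ E1)).toReal := by
    apply setInt_le _ hWm hvt _ _ hP.integrableOn
    intro t _
    unfold P
    rw [div_le_div_iff₀ (by positivity) hy]
    nlinarith [sq_nonneg (q - t)]
  have h6 : (volume (W \ E1)).toReal ≤ 2 * (δ / (2 * M) * (M * y)) := by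
    have h7 := ENNReal.toReal_mono
      (ENNReal.mul_lt_top (by simp : (2 : ℝ≥0∞) < ⊤) ENNReal.ofReal_lt_top).ne hv
    rw [ENNReal.toReal_mul, ENNReal.toReal_ofReal (by positivity)] at h7
    simpa using h7
  have h8 : 2 * (δ / (2 * M) * (M * y)) = δ * y := by field_simp
  rw [h8] at h6
  have h9 : ∫ t in (W \ E1), P q y t ≤ δ := by
    calc _ ≤ (1 / y) * (volume (W \ E1)).toReal := h5
      _ ≤ (1 / y) * (δ * y) := mul_le_mul_of_nonneg_left h6 (by positivity)
      _ = δ := by field_simp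
  have h10 : ∫ t in E1ᶜ, P q y t < δ + δ := by linarith
  have h11 : 0 ≤ ∫ t in E1ᶜ, P q y t := integral_nonneg fun t => P_nonneg hy.le
  have h12 : PI E1 ⟨q, y⟩ = 1 - (1 / Real.pi) * ∫ t in E1ᶜ, P q y t := by
    rw [PI_eq]
    have h13 : ∫ t in E1, P q y t = Real.pi - ∫ t in E1ᶜ, P q y t := by linarith
    show 1 / Real.pi * ∫ t in E1, P q y t = _
    rw [h13]
    field_simp
  rw [h12, Real.dist_eq]
  have h14 : (1 - (1 / Real.pi) * ∫ t in E1ᶜ, P q y t) - 1 =
      -((1 / Real.pi) * ∫ t in E1ᶜ, P q y t) := by ring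
  rw [h14, abs_neg, abs_of_nonneg (by positivity)]
  calc (1 / Real.pi) * ∫ t in E1ᶜ, P q y t ≤ (1 / Real.pi) * (δ + δ) :=
        mul_le_mul_of_nonneg_left h10.le (by positivity)
    _ = (2 / Real.pi) * δ := by ring
    _ < 1 * δ := by
        apply mul_lt_mul_of_pos_right _ hδ
        rw [div_lt_one hp]
        linarith [Real.pi_gt_three]
    _ = δ := one_mul δ

end FLP_

theorem flp_proof : Stmt_FLP := by
  intro E1 hE hv
  exact ⟨fun z hz => FLP_.part1 E1 z hz, fun z hz h => FLP_.part2 E1 z hz h,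
    fun z hz => FLP_.part3 E1 hE hv z hz,
    fun z a ha h hz => FLP_.part4 E1 hE hv z a ha h hz,
    fun q hd => FLP_.part5 E1 hE q hd⟩

end Pool.Agent.DMB
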