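import Pool.Agent.DMB.Api

/-!
Module FLX: the flux over a half disc through a half circle.
-/

namespace Pool.Agent.DMB

open MeasureTheory Set Metric Filter Topology
open scoped ENNReal

namespace FLX_

/-- half chord length -/
noncomputable def fsc (q r x : ℝ) : ℝ := Real.sqrt (r ^ 2 - (x - q) ^ 2)

theorem norm_sub_sq (x y q : ℝ) : ‖(⟨x, y⟩ : ℂ) - q‖ ^ 2 = (x - q) ^ 2 + y ^ 2 := by
  rw [← Complex.normSq_eq_norm_sq, Complex.normSq_apply]
  simp only [Complex.sub_re, Complex.ofReal_re, Complex.sub_im, Complex.ofReal_im, sub_zero]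
  ring

theorem norm_lt_iff {q r : ℝ} (hr : 0 < r) (x y : ℝ) :
    ‖(⟨x, y⟩ : ℂ) - q‖ < r ↔ (x - q) ^ 2 + y ^ 2 < r ^ 2 := by
  rw [← norm_sub_sq x y q]
  constructor
  · intro h
    exact pow_lt_pow_left₀ h (norm_nonneg _) two_ne_zero
  · intro h
    exact lt_of_pow_lt_pow_left₀ 2 hr.le h

theorem norm_le_iff {q r : ℝ} (hr : 0 < r) (x y : ℝ) :
    ‖(⟨x, y⟩ : ℂ) - q‖ ≤ r ↔ (x - q) ^ 2 + y ^ 2 ≤ r ^ 2 := by
  rw [← norm_sub_sq x y q]
  constructor
  · intro h
    exact pow_le_pow_left₀ (norm_nonneg _) h 2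
  · intro h
    exact le_of_sq_le_sq h hr.le

theorem fslice {q r : ℝ} (hr : 0 < r) (x y : ℝ) :
    (⟨x, y⟩ : ℂ) ∈ HD q r ↔ y ∈ Ioo 0 (fsc q r x) := by
  have : (⟨x, y⟩ : ℂ) ∈ HD q r ↔ 0 < y ∧ ‖(⟨x, y⟩ : ℂ) - q‖ < r := Iff.rfl
  rw [this, norm_lt_iff hr, mem_Ioo]
  constructor
  · rintro ⟨h0, h1⟩
    refine ⟨h0, ?_⟩
    rw [fsc, Real.lt_sqrt h0.le]
    linarith
  · rintro ⟨h0, h1⟩
    refine ⟨h0, ?_⟩
    rw [fsc, Real.lt_sqrt h0.le] at h1
    linarith

/-- points of the closed half disc -/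
theorem in_HDc {R q r : ℝ} (hr : 0 < r) (hq : |q| + r < R) {x y : ℝ} (hy : 0 ≤ y)
    (h : (x - q) ^ 2 + y ^ 2 ≤ r ^ 2) : (⟨x, y⟩ : ℂ) ∈ HDc 0 R := by
  refine ⟨hy, ?_⟩
  have h1 := (norm_le_iff hr x y).mpr h
  have h2 : ‖(⟨x, y⟩ : ℂ) - (0 : ℝ)‖ ≤ ‖(⟨x, y⟩ : ℂ) - q‖ + ‖(q : ℂ)‖ := by
    rw [Complex.ofReal_zero, sub_zero]
    exact norm_le_norm_sub_add _ _
  rw [Complex.norm_real, Real.norm_eq_abs] at h2
  linarith

theorem in_HD {R q r : ℝ} (hr : 0 < r) (hq : |q| + r < R) {x y : ℝ} (hy : 0 < y)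
    (h : (x - q) ^ 2 + y ^ 2 ≤ r ^ 2) : (⟨x, y⟩ : ℂ) ∈ HD 0 R :=
  ⟨hy, (in_HDc hr hq hy.le h).2⟩

theorem HD_open (q r : ℝ) : IsOpen (HD q r) := by
  have h1 : IsOpen {z : ℂ | 0 < z.im} := isOpen_lt continuous_const Complex.continuous_im
  have h2 : IsOpen {z : ℂ | ‖z - q‖ < r} :=
    isOpen_lt (continuous_norm.comp (continuous_id.sub continuous_const)) continuous_const
  exact h1.inter h2

theorem hdsub {R q r : ℝ} (hr : 0 < r) (hq : |q| + r < R) : HD q r ⊆ HD 0 R := by
  rintro ⟨x, y⟩ hz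
  have h1 := (fslice hr x y).mp hz
  have hz2 := (norm_lt_iff hr x y).mp hz.2
  exact in_HD hr hq h1.1 hz2.le

theorem fsc_nonneg (q r x : ℝ) : 0 ≤ fsc q r x := Real.sqrt_nonneg _

theorem fsc_sq {q r x : ℝ} (h : |x - q| ≤ r) : (x - q) ^ 2 + fsc q r x ^ 2 = r ^ 2 := by
  rw [fsc, Real.sq_sqrt]
  · ring
  · have := sq_le_sq' (abs_le.mp h).1 (abs_le.mp h).2
    linarith

theorem fsc_cont (q r : ℝ) : Continuous (fsc q r) := by
  unfold fsc
  fun_prop

theorem finite_HD (q r : ℝ) : volume (HD q r) < ⊤ := by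
  have : HD q r ⊆ ball (q : ℂ) r := by
    intro z hz
    rw [mem_ball, dist_eq_norm]
    exact hz.2
  exact lt_of_le_of_lt (measure_mono this) measure_ball_lt_top

theorem wy_int {R : ℝ} {w wx wy : ℂ → ℝ} (hg : HasGrad (HD 0 R) w wx wy)
    (hI : IntegrableOn (fun z => wx z ^ 2 + wy z ^ 2) (HD 0 R)) : IntegrableOn wy (HD 0 R) := by
  have h1 : IntegrableOn (fun z => 1 + (wx z ^ 2 + wy z ^ 2)) (HD 0 R) := by
    apply Integrable.add _ hI
    exact integrableOn_const (finite_HD 0 R).ne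
  refine Integrable.mono' h1 hg.my ?_
  refine Eventually.of_forall fun z => ?_
  rw [Real.norm_eq_abs]
  have h2 : |wy z| ≤ 1 + wy z ^ 2 := by
    rw [← sq_abs]
    nlinarith [sq_nonneg (|wy z| - 1), abs_nonneg (wy z)]
  nlinarith [sq_nonneg (wx z)]

end FLX_

open FLX_ in
theorem flx_proof : Stmt_FLX := by
  intro R q r w wx wy hr hq hc hg hI h0
  have hR : 0 < R := by linarith [abs_nonneg q]
  have hsub : HD q r ⊆ HD 0 R := hdsub hr hq
  have hwy : IntegrableOn wy (HD q r) := (wy_int hg hI).mono_set hsub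
  have hmeas : MeasurableSet (HD q r) := (HD_open q r).measurableSet
  set f : ℂ → ℝ := (HD q r).indicator wy with hf
  have hfi : Integrable f := by
    rw [hf, integrable_indicator_iff hmeas]
    exact hwy
  have hmp := Complex.volume_preserving_equiv_real_prod.symm
  have hfi2 : Integrable (fun p : ℝ × ℝ => f ⟨p.1, p.2⟩) (volume.prod volume) := by
    have := (hmp.integrable_comp_emb
      (Complex.measurableEquivRealProd.symm.measurableEmbedding)).mpr hfi
    exact this
  have hF : ∫ z in HD q r, wy z = ∫ x : ℝ, ∫ y : ℝ, f ⟨x, y⟩ := by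
    rw [← integral_indicator hmeas, ← integral_prod _ hfi2]
    have := hmp.integral_comp (Complex.measurableEquivRealProd.symm.measurableEmbedding) f
    rw [← this]
    rfl
  have hae : ∀ᵐ x : ℝ, ∫ y : ℝ, f ⟨x, y⟩ = (Ioo (q - r) (q + r)).indicator
      (fun x => w ⟨x, fsc q r x⟩) x := by
    filter_upwards [hg.ver, hfi2.prod_right_ae] with x hx hix
    have e1 : (fun y : ℝ => f ⟨x, y⟩) = (Ioo 0 (fsc q r x)).indicator (fun y => wy ⟨x, y⟩) := by
      funext y
      rw [hf]
      by_cases hy : y ∈ Ioo 0 (fsc q r x)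
      · rw [indicator_of_mem hy, indicator_of_mem ((fslice hr x y).mpr hy)]
      · rw [indicator_of_notMem hy, indicator_of_notMem]
        exact fun h => hy ((fslice hr x y).mp h)
    have hs := fsc_nonneg q r x
    have hix2 : IntegrableOn (fun y => wy ⟨x, y⟩) (Ioo 0 (fsc q r x)) := by
      have := hix
      rw [e1, integrable_indicator_iff measurableSet_Ioo] at this
      exact this
    have hii : IntervalIntegrable (fun y => wy ⟨x, y⟩) volume 0 (fsc q r x) := by
      rw [intervalIntegrable_iff_integrableOn_Ioo_of_le hs]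
      exact hix2
    rw [e1, integral_indicator measurableSet_Ioo, ← integral_Ioc_eq_integral_Ioo,
      ← intervalIntegral.integral_of_le hs]
    by_cases hxq : |x - q| < r
    · have hxm : x ∈ Ioo (q - r) (q + r) := by
        rw [abs_lt] at hxq
        exact ⟨by linarith, by linarith⟩
      rw [indicator_of_mem hxm]
      have hsq := fsc_sq hxq.le
      have hs0 : 0 < fsc q r x := by
        rcases hs.lt_or_eq with h | h
        · exact h
        · rw [← h] at hsq
          have : (x - q) ^ 2 < r ^ 2 := sq_lt_sq' (abs_lt.mp hxq).1 (abs_lt.mp hxq).2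
          nlinarith
      have hseg : ∀ a ∈ Ioo 0 (fsc q r x), w ⟨x, fsc q r x⟩ - w ⟨x, a⟩ =
          ∫ t in a..(fsc q r x), wy ⟨x, t⟩ := by
        intro a ha
        apply (hx a (fsc q r x) ha.2.le _).2
        intro t ht
        apply in_HD hr hq (lt_of_lt_of_le ha.1 ht.1)
        have : t ^ 2 ≤ fsc q r x ^ 2 := by
          apply pow_le_pow_left₀ _ ht.2
          linarith [ha.1, ht.1]
        linarith
      have hev : ∀ᶠ a in 𝓝[>] (0 : ℝ), a ∈ Ioo 0 (fsc q r x) := Ioo_mem_nhdsGT hs0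
      have hlim1 : Tendsto (fun a => ∫ t in a..(fsc q r x), wy ⟨x, t⟩) (𝓝[>] 0)
          (𝓝 (∫ t in (0 : ℝ)..(fsc q r x), wy ⟨x, t⟩)) := by
        have h1 : ContinuousOn (fun a => ∫ t in a..(fsc q r x), wy ⟨x, t⟩) (uIcc 0 (fsc q r x)) := by
          apply intervalIntegral.continuousOn_primitive_interval_left
          rw [uIcc_of_le hs, integrableOn_Icc_iff_integrableOn_Ioo]
          exact hix2
        have h2 := (h1 0 left_mem_uIcc)
        rw [uIcc_of_le hs] at h2
        apply h2.mono_left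
        rw [nhdsWithin_le_iff]
        filter_upwards [hev] with a ha
        exact ⟨ha.1.le, ha.2.le⟩
      have hlim2 : Tendsto (fun a : ℝ => w ⟨x, fsc q r x⟩ - w ⟨x, a⟩) (𝓝[>] 0)
          (𝓝 (w ⟨x, fsc q r x⟩ - w ⟨x, 0⟩)) := by
        apply Tendsto.const_sub
        have hx0 : (⟨x, 0⟩ : ℂ) ∈ HDc 0 R := by
          apply in_HDc hr hq le_rfl
          nlinarith [sq_nonneg (fsc q r x)]
        have h1 := hc _ hx0
        have h2 : Tendsto (fun a : ℝ => (⟨x, a⟩ : ℂ)) (𝓝[>] 0) (𝓝[HDc 0 R] ⟨x, 0⟩) := by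
          apply tendsto_nhdsWithin_of_tendsto_nhds_of_eventually_within
          · have : Continuous (fun a : ℝ => (⟨x, a⟩ : ℂ)) := by
              have e : (fun a : ℝ => (⟨x, a⟩ : ℂ)) = fun a : ℝ => (x : ℂ) + a * Complex.I := by
                funext a
                exact Complex.mk_eq_add_mul_I x a
              rw [e]
              fun_prop
            exact (this.tendsto 0).mono_left nhdsWithin_le_nhds
          · filter_upwards [hev] with a ha
            apply in_HDc hr hq ha.1.le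
            have : a ^ 2 ≤ fsc q r x ^ 2 := pow_le_pow_left₀ ha.1.le ha.2.le 2
            linarith
        exact h1.tendsto.comp h2
      have hw0 : w ⟨x, 0⟩ = 0 := by
        have : (⟨x, 0⟩ : ℂ) = (x : ℂ) := rfl
        rw [this]
        apply h0
        have h3 : |x| ≤ |x - q| + |q| := by
          have := abs_add_le (x - q) q
          simpa using this
        linarith
      rw [hw0, sub_zero] at hlim2
      have hlim3 := hlim2.congr' (hev.mono fun a ha => hseg a ha)
      exact tendsto_nhds_unique hlim1 hlim3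
    · have hs0 : fsc q r x = 0 := by
        rw [fsc, Real.sqrt_eq_zero']
        push Not at hxq
        have : r ^ 2 ≤ (x - q) ^ 2 := by
          rw [← sq_abs (x - q)]
          exact pow_le_pow_left₀ hr.le hxq 2
        linarith
      rw [hs0, intervalIntegral.integral_same, indicator_of_notMem]
      intro h
      apply hxq
      rw [abs_lt]
      exact ⟨by linarith [h.1], by linarith [h.2]⟩
  have hlr : q - r ≤ q + r := by linarith
  rw [hF, integral_congr_ae hae, integral_indicator measurableSet_Ioo,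
    ← integral_Ioc_eq_integral_Ioo, ← intervalIntegral.integral_of_le hlr]
  set g : ℝ → ℝ := fun x => w ⟨x, fsc q r x⟩ with hgd
  have hgc : ContinuousOn g (Icc (q - r) (q + r)) := by
    have hm : MapsTo (fun x : ℝ => (⟨x, fsc q r x⟩ : ℂ)) (Icc (q - r) (q + r)) (HDc 0 R) := by
      intro x hx
      apply in_HDc hr hq (fsc_nonneg q r x)
      apply le_of_eq
      apply fsc_sq
      rw [abs_le]
      exact ⟨by linarith [hx.1], by linarith [hx.2]⟩
    have hcm : Continuous (fun x : ℝ => (⟨x, fsc q r x⟩ : ℂ)) := by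
      have e : (fun x : ℝ => (⟨x, fsc q r x⟩ : ℂ)) =
          fun x : ℝ => (x : ℂ) + (fsc q r x : ℂ) * Complex.I := by
        funext x
        exact Complex.mk_eq_add_mul_I x _
      rw [e]
      have := fsc_cont q r
      fun_prop
    exact hc.comp hcm.continuousOn hm
  have hsubst := intervalIntegral.integral_comp_mul_deriv' (f := fun θ => q + r * Real.cos θ)
    (f' := fun θ => -(r * Real.sin θ)) (g := g) (a := 0) (b := Real.pi)
    (by
      intro θ _
      have := ((Real.hasDerivAt_cos θ).const_mul r).const_add q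
      simpa using this)
    (by fun_prop)
    (by
      apply hgc.mono
      rintro _ ⟨θ, _, rfl⟩
      have h1 := Real.cos_le_one θ
      have h2 := Real.neg_one_le_cos θ
      exact ⟨by nlinarith, by nlinarith⟩)
  simp only [Real.cos_zero, Real.cos_pi, mul_one, mul_neg] at hsubst
  have hqr : q + -r = q - r := by ring
  rw [hqr, intervalIntegral.integral_symm (q - r) (q + r)] at hsubst
  have hfin : ∫ x in (q - r)..(q + r), g x = ∫ θ in (0 : ℝ)..Real.pi,
      (g ∘ fun θ => q + r * Real.cos θ) θ * (r * Real.sin θ) := by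
    have := neg_eq_iff_eq_neg.mp hsubst.symm
    rw [this, ← intervalIntegral.integral_neg]
    congr 1
    funext θ
    exact neg_neg _
  rw [hfin, ← intervalIntegral.integral_const_mul]
  apply intervalIntegral.integral_congr
  intro θ hθ
  rw [uIcc_of_le Real.pi_pos.le] at hθ
  have hsin : 0 ≤ Real.sin θ := Real.sin_nonneg_of_nonneg_of_le_pi hθ.1 hθ.2
  have hfsc : fsc q r (q + r * Real.cos θ) = r * Real.sin θ := by
    rw [fsc]
    have : r ^ 2 - (q + r * Real.cos θ - q) ^ 2 = (r * Real.sin θ) ^ 2 := by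
      have := Real.sin_sq_add_cos_sq θ
      have h1 : Real.sin θ ^ 2 = 1 - Real.cos θ ^ 2 := by linarith
      rw [mul_pow, h1]
      ring
    rw [this, Real.sqrt_sq (mul_nonneg hr.le hsin)]
  have hcmθ : (⟨q + r * Real.cos θ, r * Real.sin θ⟩ : ℂ) = cm q r θ := by
    rw [cm, Complex.exp_mul_I, ← Complex.ofReal_cos, ← Complex.ofReal_sin]
    rw [Complex.mk_eq_add_mul_I]
    push_cast
    ring
  simp only [Function.comp, hgd]
  rw [hfsc, hcmθ]
  ring

end Pool.Agent.DMB
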