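import Pool.Agent.DMB.Api

/-!
Module GAB: gradients from upper bounds along almost every line.
-/

namespace Pool.Agent.DMB

open MeasureTheory Set Metric Filter Topology
open scoped ENNReal

namespace GAB_

variable {K n : ℕ}

theorem abs_le_sqrt_nsq (v : Mat K n) (i : Fin K) (l : Fin n) : |v i l| ≤ Real.sqrt (nsq v) := by
  rw [← Real.sqrt_sq_eq_abs]
  apply Real.sqrt_le_sqrt
  calc v i l ^ 2 ≤ ∑ l, v i l ^ 2 :=
        Finset.single_le_sum (f := fun l => v i l ^ 2) (fun _ _ => sq_nonneg _)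
          (Finset.mem_univ l)
    _ ≤ nsq v := Finset.single_le_sum (f := fun i => ∑ l, v i l ^ 2)
        (fun _ _ => Finset.sum_nonneg fun _ _ => sq_nonneg _) (Finset.mem_univ i)

theorem le_one_add_sq (x : ℝ≥0∞) : x ≤ 1 + x ^ 2 := by
  rcases le_total x 1 with h | h
  · exact h.trans le_self_add
  · calc x = x * 1 := (mul_one x).symm
      _ ≤ x * x := by gcongr
      _ = x ^ 2 := (sq x).symm
      _ ≤ 1 + x ^ 2 := le_add_self

theorem ac_of_le {g η : ℝ → ℝ} {a b : ℝ} (hab : a ≤ b) (hη : IntervalIntegrable η volume a b)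
    (h : ∀ s ∈ Icc a b, ∀ t ∈ Icc a b, s ≤ t → |g t - g s| ≤ ∫ x in s..t, η x) :
    AbsolutelyContinuousOnInterval g a b := by
  have h1 := hη.absolutelyContinuousOnInterval_intervalIntegral (c := a) left_mem_uIcc
  have hint : ∀ t ∈ Icc a b, IntervalIntegrable η volume a t := fun t ht =>
    hη.mono_set (by
      rw [uIcc_of_le ht.1, uIcc_of_le hab]
      exact Icc_subset_Icc_right ht.2)
  have key : ∀ s ∈ Icc a b, ∀ t ∈ Icc a b, dist (g s) (g t) ≤
      dist (∫ x in a..s, η x) (∫ x in a..t, η x) := by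
    intro s hs t ht
    wlog hst : s ≤ t with H
    · rw [dist_comm, dist_comm (∫ x in a..s, η x)]
      exact H hab hη h h1 hint t ht s hs (le_of_not_ge hst)
    · have h2 : ∫ x in s..t, η x = (∫ x in a..t, η x) - ∫ x in a..s, η x := by
        rw [intervalIntegral.integral_interval_sub_left (hint t ht) (hint s hs)]
      have h3 := h s hs t ht hst
      rw [h2] at h3
      rw [dist_comm, Real.dist_eq, dist_comm, Real.dist_eq]
      exact h3.trans (le_abs_self _)
  unfold AbsolutelyContinuousOnInterval at h1 ⊢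
  refine squeeze_zero' ?_ ?_ h1
  · filter_upwards with E
    exact Finset.sum_nonneg fun _ _ => dist_nonneg
  · have : ∀ᶠ (E : ℕ × (ℕ → ℝ × ℝ)) in AbsolutelyContinuousOnInterval.totalLengthFilter ⊓
        𝓟 (AbsolutelyContinuousOnInterval.disjWithin a b),
        E ∈ AbsolutelyContinuousOnInterval.disjWithin a b :=
      eventually_inf_principal.mpr (by simp)
    filter_upwards [this] with E hE
    refine Finset.sum_le_sum fun i hi => ?_
    have h4 := hE.1 i hi
    rw [uIcc_of_le hab] at h4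
    exact key _ h4.1 _ h4.2

/-- Local integrability on almost every line, all compact sets at once. -/
theorem lines_compact {U : Set (ℝ × ℝ)} (hU : IsOpen U) {h : ℝ × ℝ → ℝ≥0∞} (hh : Measurable h)
    (hloc : ∀ C : Set (ℝ × ℝ), C ⊆ U → IsCompact C → ∫⁻ z in C, h z < ⊤) :
    ∀ᵐ y : ℝ, ∀ C : Set ℝ, IsCompact C → (∀ t ∈ C, (y, t) ∈ U) → ∫⁻ t in C, h (y, t) < ⊤ := by
  set Kj : ℕ → Set (ℝ × ℝ) := fun j =>
    {z | dist z 0 ≤ j ∧ ∀ w, w ∉ U → 1 / ((j : ℝ) + 1) ≤ dist z w} with hKj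
  have hKc : ∀ j, IsClosed (Kj j) := by
    intro j
    have e : Kj j = {z | dist z 0 ≤ j} ∩ ⋂ w, ⋂ (_ : w ∉ U), {z | 1 / ((j : ℝ) + 1) ≤ dist z w} := by
      ext z; simp [hKj]
    rw [e]
    refine (isClosed_le (continuous_id.dist continuous_const) continuous_const).inter ?_
    exact isClosed_iInter fun w => isClosed_iInter fun _ =>
      isClosed_le continuous_const (continuous_id.dist continuous_const)
  have hKK : ∀ j, IsCompact (Kj j) := by
    intro j
    refine (isCompact_closedBall (0 : ℝ × ℝ) j).of_isClosed_subset (hKc j) ?_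
    intro z hz
    exact hz.1
  have hKU : ∀ j, Kj j ⊆ U := by
    intro j z hz
    by_contra hzU
    have := hz.2 z hzU
    rw [dist_self] at this
    have : 0 < 1 / ((j : ℝ) + 1) := by positivity
    linarith
  have hfin : ∀ j, ∀ᵐ y : ℝ, ∫⁻ t, (Kj j).indicator h (y, t) < ⊤ := by
    intro j
    have h1 := hloc _ (hKU j) (hKK j)
    rw [← lintegral_indicator (hKc j).measurableSet, Measure.volume_eq_prod,
      lintegral_prod _ (hh.indicator (hKc j).measurableSet).aemeasurable] at h1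
    refine ae_lt_top ?_ h1.ne
    exact (hh.indicator (hKc j).measurableSet).lintegral_prod_right'
  filter_upwards [ae_all_iff.2 hfin] with y hy C hC hCU
  have hC2 : IsCompact ((fun t : ℝ => (y, t)) '' C) := hC.image (by fun_prop)
  have hC3 : (fun t : ℝ => (y, t)) '' C ⊆ U := by
    rintro _ ⟨t, ht, rfl⟩
    exact hCU t ht
  obtain ⟨δ, hδ, hthick⟩ := hC2.exists_cthickening_subset_open hU hC3
  obtain ⟨B, hB⟩ := hC2.isBounded.subset_closedBall (0 : ℝ × ℝ)
  obtain ⟨j, hj⟩ := exists_nat_gt (max B (1 / δ))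
  have hsub : ∀ t ∈ C, (y, t) ∈ Kj j := by
    intro t ht
    have hmem : (y, t) ∈ (fun t : ℝ => (y, t)) '' C := ⟨t, ht, rfl⟩
    refine ⟨?_, ?_⟩
    · have := hB hmem
      rw [mem_closedBall] at this
      exact this.trans ((le_max_left _ _).trans hj.le)
    · intro w hw
      by_contra hlt
      push Not at hlt
      apply hw
      apply hthick
      apply mem_cthickening_of_dist_le w (y, t) δ _ hmem
      rw [dist_comm]
      refine hlt.le.trans ?_
      have h5 : 1 / δ < (j : ℝ) := (le_max_right _ _).trans_lt hj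
      rw [div_le_iff₀ (by positivity)]
      rw [div_lt_iff₀ hδ] at h5
      nlinarith
  calc ∫⁻ t in C, h (y, t) = ∫⁻ t in C, (Kj j).indicator h (y, t) := by
        refine setLIntegral_congr_fun hC.measurableSet fun t ht => ?_
        rw [indicator_of_mem (hsub t ht)]
    _ ≤ ∫⁻ t, (Kj j).indicator h (y, t) := setLIntegral_le_lintegral _ _
    _ < ⊤ := hy j

/-- consequences on a single good line -/
theorem line_ac {U : Set ℝ} {s : ℝ → Mat K n} {h : ℝ → ℝ≥0∞} (hh : Measurable h)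
    (hfin : ∀ C : Set ℝ, IsCompact C → (∀ t ∈ C, t ∈ U) → ∫⁻ t in C, h t < ⊤)
    (hl : ∀ a b : ℝ, a ≤ b → (∀ t ∈ Icc a b, t ∈ U) →
      ENNReal.ofReal (Real.sqrt (nsq (s b - s a))) ≤ ∫⁻ t in Icc a b, h t)
    {a b : ℝ} (hab : a ≤ b) (hU : ∀ t ∈ Icc a b, t ∈ U) :
    IntervalIntegrable (fun t => (h t).toReal) volume a b ∧
    (∀ r ∈ Icc a b, ∀ t ∈ Icc a b, r ≤ t →
      Real.sqrt (nsq (s t - s r)) ≤ ∫ x in r..t, (h x).toReal) ∧
    ∀ i l, AbsolutelyContinuousOnInterval (fun t => s t i l) a b := by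
  have hI : ∀ r ∈ Icc a b, ∀ t ∈ Icc a b, r ≤ t →
      IntegrableOn (fun t => (h t).toReal) (Icc r t) := by
    intro r hr t ht hrt
    exact integrable_toReal_of_lintegral_ne_top hh.aemeasurable
      (hfin _ isCompact_Icc fun x hx => hU x ⟨hr.1.trans hx.1, hx.2.trans ht.2⟩).ne
  have hII : IntervalIntegrable (fun t => (h t).toReal) volume a b := by
    rw [intervalIntegrable_iff_integrableOn_Icc_of_le hab]
    exact hI a (left_mem_Icc.2 hab) b (right_mem_Icc.2 hab) hab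
  have hle : ∀ r ∈ Icc a b, ∀ t ∈ Icc a b, r ≤ t →
      Real.sqrt (nsq (s t - s r)) ≤ ∫ x in r..t, (h x).toReal := by
    intro r hr t ht hrt
    have hsub : ∀ x ∈ Icc r t, x ∈ U := fun x hx => hU x ⟨hr.1.trans hx.1, hx.2.trans ht.2⟩
    have h1 := hl r t hrt hsub
    have h2 := hfin _ isCompact_Icc hsub
    rw [intervalIntegral.integral_of_le hrt, ← integral_Icc_eq_integral_Ioc,
      integral_toReal hh.aemeasurable (ae_lt_top hh h2.ne)]
    have h3 := ENNReal.toReal_mono h2.ne h1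
    rwa [ENNReal.toReal_ofReal (Real.sqrt_nonneg _)] at h3
  refine ⟨hII, hle, fun i l => ac_of_le hab hII fun r hr t ht hrt => ?_⟩
  exact (abs_le_sqrt_nsq (s t - s r) i l).trans (hle r hr t ht hrt)

/-- differentiability and the bound almost everywhere on a good line -/
theorem line_ae {U : Set ℝ} (hUo : IsOpen U) {s : ℝ → Mat K n} {h : ℝ → ℝ≥0∞} (hh : Measurable h)
    (hfin : ∀ C : Set ℝ, IsCompact C → (∀ t ∈ C, t ∈ U) → ∫⁻ t in C, h t < ⊤)
    (hl : ∀ a b : ℝ, a ≤ b → (∀ t ∈ Icc a b, t ∈ U) →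
      ENNReal.ofReal (Real.sqrt (nsq (s b - s a))) ≤ ∫⁻ t in Icc a b, h t) :
    ∀ᵐ t : ℝ, t ∈ U → (∀ i l, DifferentiableAt ℝ (fun t => s t i l) t) ∧
      ENNReal.ofReal (nsq (fun i l => deriv (fun t => s t i l) t)) ≤ h t ^ 2 := by
  have key : ∀ a b : ℝ, a ≤ b → (∀ t ∈ Icc a b, t ∈ U) → ∀ᵐ t : ℝ, t ∈ Ioo a b →
      (∀ i l, DifferentiableAt ℝ (fun t => s t i l) t) ∧
      ENNReal.ofReal (nsq (fun i l => deriv (fun t => s t i l) t)) ≤ h t ^ 2 := by
    intro a b hab hU
    obtain ⟨h1, h2, h3⟩ := line_ac hh hfin hl hab hU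
    have h4 : ∀ᵐ t : ℝ, ∀ i l, t ∈ uIcc a b → DifferentiableAt ℝ (fun t => s t i l) t := by
      rw [ae_all_iff]; intro i
      rw [ae_all_iff]; intro l
      exact (h3 i l).ae_differentiableAt
    filter_upwards [h4, h1.ae_hasDerivAt_integral] with t ht4 ht5 ht
    have htI : t ∈ Icc a b := Ioo_subset_Icc_self ht
    have htu : t ∈ uIcc a b := by rwa [uIcc_of_le hab]
    have hd : ∀ i l, DifferentiableAt ℝ (fun t => s t i l) t := fun i l => ht4 i l htu
    refine ⟨hd, ?_⟩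
    have hη := ht5 htu t htu
    -- difference quotients from the right
    have hq1 : Tendsto (fun r : ℝ => r⁻¹ * ∫ x in t..(t + r), (h x).toReal) (𝓝[>] 0)
        (𝓝 ((h t).toReal)) := by
      have := hη.tendsto_slope_zero_right
      simpa [intervalIntegral.integral_same] using this
    have hq2 : Tendsto (fun r : ℝ => Real.sqrt (nsq (r⁻¹ • (s (t + r) - s t)))) (𝓝[>] 0)
        (𝓝 (Real.sqrt (nsq (fun i l => deriv (fun t => s t i l) t)))) := by
      refine (Real.continuous_sqrt.tendsto _).comp ?_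
      unfold nsq
      refine tendsto_finsetSum _ fun i _ => tendsto_finsetSum _ fun l _ => ?_
      refine Tendsto.pow ?_ 2
      have := (hd i l).hasDerivAt.tendsto_slope_zero_right
      simpa using this
    have hle : ∀ᶠ r : ℝ in 𝓝[>] 0, Real.sqrt (nsq (r⁻¹ • (s (t + r) - s t))) ≤
        r⁻¹ * ∫ x in t..(t + r), (h x).toReal := by
      have hb : ∀ᶠ r : ℝ in 𝓝[>] 0, r < b - t :=
        nhdsWithin_le_nhds (gt_mem_nhds (by linarith [ht.2]))
      filter_upwards [self_mem_nhdsWithin, hb] with r hr hrb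
      have hr0 : 0 < r := hr
      rw [nsq_smul, Real.sqrt_mul (sq_nonneg _), Real.sqrt_sq (inv_nonneg.2 hr0.le)]
      refine mul_le_mul_of_nonneg_left ?_ (inv_nonneg.2 hr0.le)
      exact h2 t htI (t + r) ⟨by linarith [ht.1], by linarith⟩ (by linarith)
    have hlim := le_of_tendsto_of_tendsto hq2 hq1 hle
    rcases eq_or_ne (h t) ⊤ with htop | htop
    · rw [htop]; simp
    · have h6 : nsq (fun i l => deriv (fun t => s t i l) t) ≤ (h t).toReal ^ 2 := by
        have := pow_le_pow_left₀ (Real.sqrt_nonneg _) hlim 2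
        rwa [Real.sq_sqrt (nsq_nonneg _)] at this
      calc ENNReal.ofReal (nsq (fun i l => deriv (fun t => s t i l) t))
          ≤ ENNReal.ofReal ((h t).toReal ^ 2) := ENNReal.ofReal_le_ofReal h6
        _ = h t ^ 2 := by
          rw [ENNReal.ofReal_pow ENNReal.toReal_nonneg, ENNReal.ofReal_toReal htop]
  have hall : ∀ᵐ t : ℝ, ∀ a b : ℚ, (a : ℝ) ≤ b → (∀ t ∈ Icc (a : ℝ) b, t ∈ U) →
      t ∈ Ioo (a : ℝ) b → (∀ i l, DifferentiableAt ℝ (fun t => s t i l) t) ∧
      ENNReal.ofReal (nsq (fun i l => deriv (fun t => s t i l) t)) ≤ h t ^ 2 := by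
    rw [ae_all_iff]; intro a
    rw [ae_all_iff]; intro b
    by_cases hab : (a : ℝ) ≤ b
    · by_cases hU : ∀ t ∈ Icc (a : ℝ) b, t ∈ U
      · filter_upwards [key a b hab hU] with t ht _ _ h7
        exact ht h7
      · exact Eventually.of_forall fun t _ h8 => absurd h8 hU
    · exact Eventually.of_forall fun t h8 => absurd h8 hab
  filter_upwards [hall] with t ht htU
  obtain ⟨ε, hε, hball⟩ := Metric.isOpen_iff.1 hUo t htU
  obtain ⟨a, ha1, ha2⟩ := exists_rat_btwn (show t - ε < t by linarith)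
  obtain ⟨b, hb1, hb2⟩ := exists_rat_btwn (show t < t + ε by linarith)
  refine ht a b (by linarith) ?_ ⟨ha2, hb1⟩
  intro x hx
  apply hball
  rw [Real.ball_eq_Ioo]
  exact ⟨by linarith [hx.1], by linarith [hx.2]⟩

/-- the difference quotients -/
noncomputable def DQ (U : Set (ℝ × ℝ)) (s : ℝ × ℝ → Mat K n) (j : ℕ) (z : ℝ × ℝ) (i : Fin K)
    (l : Fin n) : ℝ :=
  open Classical in
  (U ∩ (fun z : ℝ × ℝ => (z.1, z.2 + 1 / ((j : ℝ) + 1))) ⁻¹' U).piecewise
    (fun z => (1 / ((j : ℝ) + 1))⁻¹ * (s (z.1, z.2 + 1 / ((j : ℝ) + 1)) i l - s z i l))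
    (fun _ => 0) z

theorem measurable_DQ {U : Set (ℝ × ℝ)} (hU : IsOpen U) {s : ℝ × ℝ → Mat K n}
    (hs : ∀ i l, ContinuousOn (fun z => s z i l) U) (j : ℕ) (i : Fin K) (l : Fin n) :
    Measurable (fun z => DQ U s j z i l) := by
  classical
  have hc : Continuous (fun z : ℝ × ℝ => (z.1, z.2 + 1 / ((j : ℝ) + 1))) := by fun_prop
  have hV : IsOpen (U ∩ (fun z : ℝ × ℝ => (z.1, z.2 + 1 / ((j : ℝ) + 1))) ⁻¹' U) :=
    hU.inter (hU.preimage hc)
  unfold DQ
  have h1 : ContinuousOn (fun z : ℝ × ℝ => (1 / ((j : ℝ) + 1))⁻¹ *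
      (s (z.1, z.2 + 1 / ((j : ℝ) + 1)) i l - s z i l))
      (U ∩ (fun z : ℝ × ℝ => (z.1, z.2 + 1 / ((j : ℝ) + 1))) ⁻¹' U) := by
    refine continuousOn_const.mul (ContinuousOn.sub ?_ ?_)
    · exact (hs i l).comp hc.continuousOn fun z hz => hz.2
    · exact (hs i l).mono inter_subset_left
  exact h1.measurable_piecewise continuousOn_const hV.measurableSet

theorem tendsto_DQ {U : Set (ℝ × ℝ)} (hU : IsOpen U) {s : ℝ × ℝ → Mat K n} {y t : ℝ}
    (hyt : (y, t) ∈ U) (i : Fin K) (l : Fin n)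
    (hd : DifferentiableAt ℝ (fun t => s (y, t) i l) t) :
    Tendsto (fun j => DQ U s j (y, t) i l) atTop (𝓝 (deriv (fun t => s (y, t) i l) t)) := by
  classical
  have h0 : Tendsto (fun j : ℕ => 1 / ((j : ℝ) + 1)) atTop (𝓝[>] 0) := by
    refine tendsto_nhdsWithin_iff.2 ⟨tendsto_one_div_add_atTop_nhds_zero_nat, ?_⟩
    exact Eventually.of_forall fun j => by
      have : (0 : ℝ) < 1 / ((j : ℝ) + 1) := by positivity
      exact this
  have h1 := hd.hasDerivAt.tendsto_slope_zero_right.comp h0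
  refine h1.congr' ?_
  have hc : Continuous (fun r : ℝ => ((y, t + r) : ℝ × ℝ)) := by fun_prop
  have h2 : ∀ᶠ r : ℝ in 𝓝 0, (y, t + r) ∈ U := by
    have h3 : Tendsto (fun r : ℝ => ((y, t + r) : ℝ × ℝ)) (𝓝 0) (𝓝 (y, t)) := by
      have := hc.tendsto 0
      simpa using this
    exact h3.eventually (hU.mem_nhds hyt)
  have h4 := h0.eventually (nhdsWithin_le_nhds h2)
  filter_upwards [h4] with j hj
  have hm : (y, t) ∈ U ∩ (fun z : ℝ × ℝ => (z.1, z.2 + 1 / ((j : ℝ) + 1))) ⁻¹' U := ⟨hyt, hj⟩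
  unfold DQ
  rw [piecewise_eq_of_mem _ _ _ hm]
  simp only [Function.comp_apply, smul_eq_mul]

theorem core {U : Set (ℝ × ℝ)} (hU : IsOpen U) {s : ℝ × ℝ → Mat K n} {h : ℝ × ℝ → ℝ≥0∞}
    (hs : ∀ i l, ContinuousOn (fun z => s z i l) U) (hh : Measurable h)
    (hloc : ∀ C : Set (ℝ × ℝ), C ⊆ U → IsCompact C → ∫⁻ z in C, h z ^ 2 < ⊤)
    (hl : ∀ᵐ y : ℝ, ∀ a b : ℝ, a ≤ b → (∀ t ∈ Icc a b, (y, t) ∈ U) →
      ENNReal.ofReal (Real.sqrt (nsq (s (y, b) - s (y, a)))) ≤ ∫⁻ t in Icc a b, h (y, t)) :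
    ∃ X : ℝ × ℝ → Mat K n, (∀ i l, Measurable (fun z => X z i l)) ∧
      (∀ᵐ z : ℝ × ℝ, z ∈ U → ENNReal.ofReal (nsq (X z)) ≤ h z ^ 2) ∧
      ∀ᵐ y : ℝ, ∀ a b : ℝ, a ≤ b → (∀ t ∈ Icc a b, (y, t) ∈ U) → ∀ i l,
        IntervalIntegrable (fun t => X (y, t) i l) volume a b ∧
        s (y, b) i l - s (y, a) i l = ∫ t in a..b, X (y, t) i l := by
  have hloc1 : ∀ C : Set (ℝ × ℝ), C ⊆ U → IsCompact C → ∫⁻ z in C, h z < ⊤ := by
    intro C hC hCc
    calc ∫⁻ z in C, h z ≤ ∫⁻ z in C, (1 + h z ^ 2) := lintegral_mono fun z => le_one_add_sq _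
      _ = (∫⁻ _ in C, 1) + ∫⁻ z in C, h z ^ 2 := lintegral_add_left measurable_const _
      _ < ⊤ := by
        rw [setLIntegral_one]
        exact ENNReal.add_lt_top.2 ⟨hCc.measure_lt_top, hloc C hC hCc⟩
  have hfin := lines_compact hU hh hloc1
  have hsec : ∀ y : ℝ, IsOpen {t : ℝ | (y, t) ∈ U} := fun y => by
    have hc : Continuous (fun t : ℝ => ((y, t) : ℝ × ℝ)) := by fun_prop
    exact hU.preimage hc
  have hhs : ∀ y : ℝ, Measurable fun t : ℝ => h (y, t) := fun y => hh.comp measurable_prodMk_left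
  -- good lines
  have hgood : ∀ᵐ y : ℝ, (∀ C : Set ℝ, IsCompact C → (∀ t ∈ C, t ∈ {t : ℝ | (y, t) ∈ U}) →
      ∫⁻ t in C, h (y, t) < ⊤) ∧ (∀ a b : ℝ, a ≤ b → (∀ t ∈ Icc a b, t ∈ {t : ℝ | (y, t) ∈ U}) →
      ENNReal.ofReal (Real.sqrt (nsq (s (y, b) - s (y, a)))) ≤ ∫⁻ t in Icc a b, h (y, t)) := by
    filter_upwards [hfin, hl] with y h1 h2
    exact ⟨h1, h2⟩
  have hline : ∀ᵐ y : ℝ, ∀ᵐ t : ℝ, (y, t) ∈ U →
      (∀ i l, DifferentiableAt ℝ (fun t => s (y, t) i l) t) ∧
      ENNReal.ofReal (nsq (fun i l => deriv (fun t => s (y, t) i l) t)) ≤ h (y, t) ^ 2 := by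
    filter_upwards [hgood] with y hy
    exact line_ae (s := fun t => s (y, t)) (hsec y) (hhs y) hy.1 hy.2
  -- limits of the difference quotients
  have hlim : ∀ i l, ∃ g : ℝ × ℝ → ℝ, Measurable g ∧ ∀ᵐ z : ℝ × ℝ, z ∈ U →
      Tendsto (fun j => DQ U s j z i l) atTop (𝓝 (g z)) := by
    intro i l
    have hms : MeasurableSet {z : ℝ × ℝ | z ∈ U → ∃ c, Tendsto (fun j => DQ U s j z i l) atTop
        (𝓝 c)} := by
      have h1 : MeasurableSet {z : ℝ × ℝ | ∃ c, Tendsto (fun j => DQ U s j z i l) atTop (𝓝 c)} :=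
        measurableSet_exists_tendsto fun j => measurable_DQ hU hs j i l
      have e : {z : ℝ × ℝ | z ∈ U → ∃ c, Tendsto (fun j => DQ U s j z i l) atTop (𝓝 c)} =
          Uᶜ ∪ {z : ℝ × ℝ | ∃ c, Tendsto (fun j => DQ U s j z i l) atTop (𝓝 c)} := by
        ext z
        simp only [mem_ofPred_eq, mem_union, mem_compl_iff]
        tauto
      rw [e]
      exact hU.measurableSet.compl.union h1
    have hex : ∀ᵐ z : ℝ × ℝ, z ∈ U → ∃ c, Tendsto (fun j => DQ U s j z i l) atTop (𝓝 c) := by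
      rw [Measure.volume_eq_prod, Measure.ae_prod_iff_ae_ae hms]
      filter_upwards [hline] with y hy
      filter_upwards [hy] with t ht hU'
      exact ⟨_, tendsto_DQ hU hU' i l ((ht hU').1 i l)⟩
    obtain ⟨g, hg, hg2⟩ := measurable_limit_of_tendsto_metrizable_ae (μ := volume.restrict U)
      (f := fun j z => DQ U s j z i l) (L := atTop)
      (fun j => (measurable_DQ hU hs j i l).aemeasurable)
      ((ae_restrict_iff' hU.measurableSet).2 hex)
    exact ⟨g, hg, (ae_restrict_iff' hU.measurableSet).1 hg2⟩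
  choose g hgm hg using hlim
  have hgl : ∀ᵐ y : ℝ, ∀ᵐ t : ℝ, (y, t) ∈ U → ∀ i l,
      g i l (y, t) = deriv (fun t => s (y, t) i l) t := by
    have h1 : ∀ᵐ z : ℝ × ℝ, ∀ i l, z ∈ U →
        Tendsto (fun j => DQ U s j z i l) atTop (𝓝 (g i l z)) := by
      rw [ae_all_iff]; intro i
      rw [ae_all_iff]; intro l
      exact hg i l
    rw [Measure.volume_eq_prod] at h1
    have h2 := Measure.ae_ae_of_ae_prod h1
    filter_upwards [h2, hline] with y hy1 hy2
    filter_upwards [hy1, hy2] with t ht1 ht2 hU' i l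
    exact tendsto_nhds_unique (ht1 i l hU') (tendsto_DQ hU hU' i l ((ht2 hU').1 i l))
  refine ⟨fun z i l => g i l z, hgm, ?_, ?_⟩
  · have hms : MeasurableSet {z : ℝ × ℝ | z ∈ U →
        ENNReal.ofReal (nsq (fun i l => g i l z)) ≤ h z ^ 2} := by
      have h1 : MeasurableSet {z : ℝ × ℝ | ENNReal.ofReal (nsq (fun i l => g i l z)) ≤ h z ^ 2} := by
        refine measurableSet_le (ENNReal.measurable_ofReal.comp ?_) (hh.pow_const 2)
        unfold nsq
        exact Finset.measurable_fun_sum _ fun i _ => Finset.measurable_fun_sum _ fun l _ =>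
          (hgm i l).pow_const 2
      have e : {z : ℝ × ℝ | z ∈ U → ENNReal.ofReal (nsq (fun i l => g i l z)) ≤ h z ^ 2} =
          Uᶜ ∪ {z : ℝ × ℝ | ENNReal.ofReal (nsq (fun i l => g i l z)) ≤ h z ^ 2} := by
        ext z
        simp only [mem_ofPred_eq, mem_union, mem_compl_iff]
        tauto
      rw [e]
      exact hU.measurableSet.compl.union h1
    rw [Measure.volume_eq_prod, Measure.ae_prod_iff_ae_ae hms]
    filter_upwards [hline, hgl] with y hy1 hy2
    filter_upwards [hy1, hy2] with t ht1 ht2 hU'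
    have e : (fun i l => g i l (y, t)) = fun i l => deriv (fun t => s (y, t) i l) t := by
      funext i l
      exact ht2 hU' i l
    rw [e]
    exact (ht1 hU').2
  · filter_upwards [hgood, hgl] with y hy1 hy2 a b hab hU' i l
    obtain ⟨-, -, hac⟩ := line_ac (s := fun t => s (y, t)) (hhs y) hy1.1 hy1.2 hab hU'
    have hac := hac i l
    have he : ∀ᵐ t : ℝ, t ∈ uIoc a b → deriv (fun t => s (y, t) i l) t = g i l (y, t) := by
      filter_upwards [hy2] with t ht htm
      rw [uIoc_of_le hab] at htm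
      exact (ht (hU' t (Ioc_subset_Icc_self htm)) i l).symm
    refine ⟨?_, ?_⟩
    · refine hac.intervalIntegrable_deriv.congr_ae ?_
      exact (ae_restrict_iff' measurableSet_uIoc).2 he
    · rw [← intervalIntegral.integral_congr_ae he]
      exact hac.integral_deriv_eq_sub.symm

/-- transfer to the plane -/
theorem plane (e : ℝ × ℝ ≃ₜ ℂ) (he : MeasurePreserving e volume volume) {U : Set ℂ}
    (hU : IsOpen U) {s : ℂ → Mat K n} {h : ℂ → ℝ≥0∞}
    (hs : ∀ i l, ContinuousOn (fun z => s z i l) U) (hh : Measurable h)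
    (hloc : ∀ C : Set ℂ, C ⊆ U → IsCompact C → ∫⁻ z in C, h z ^ 2 < ⊤)
    (hl : ∀ᵐ y : ℝ, ∀ a b : ℝ, a ≤ b → (∀ t ∈ Icc a b, e (y, t) ∈ U) →
      ENNReal.ofReal (Real.sqrt (nsq (s (e (y, b)) - s (e (y, a))))) ≤
        ∫⁻ t in Icc a b, h (e (y, t))) :
    ∃ X : ℂ → Mat K n, (∀ i l, Measurable (fun z => X z i l)) ∧
      (∀ᵐ z : ℂ, z ∈ U → ENNReal.ofReal (nsq (X z)) ≤ h z ^ 2) ∧
      ∀ᵐ y : ℝ, ∀ a b : ℝ, a ≤ b → (∀ t ∈ Icc a b, e (y, t) ∈ U) → ∀ i l,
        IntervalIntegrable (fun t => X (e (y, t)) i l) volume a b ∧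
        s (e (y, b)) i l - s (e (y, a)) i l = ∫ t in a..b, X (e (y, t)) i l := by
  have hem : MeasurableEmbedding e := e.measurableEmbedding
  obtain ⟨X, hX1, hX2, hX3⟩ := core (U := e ⁻¹' U) (s := fun p => s (e p)) (h := fun p => h (e p))
    (hU.preimage e.continuous)
    (fun i l => (hs i l).comp e.continuous.continuousOn fun p hp => hp)
    (hh.comp e.continuous.measurable)
    (by
      intro C hC hCc
      have h1 := hloc (e '' C) (by rintro _ ⟨p, hp, rfl⟩; exact hC hp) (hCc.image e.continuous)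
      rwa [he.setLIntegral_comp_emb hem (fun z => h z ^ 2) C] at *)
    hl
  refine ⟨fun z => X (e.symm z), fun i l => (hX1 i l).comp e.symm.continuous.measurable, ?_, ?_⟩
  · have he2 : MeasurePreserving e.symm volume volume := by
      have := he.symm (e := e.toMeasurableEquiv)
      exact this
    have h2 := he2.quasiMeasurePreserving.ae hX2
    filter_upwards [h2] with z hz hzU
    have := hz (by simpa using hzU)
    simpa using this
  · filter_upwards [hX3] with y hy a b hab hU' i l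
    have := hy a b hab hU' i l
    simpa using this

end GAB_

open GAB_ in
theorem gab_proof : Stmt_GAB := by
  intro K n U s h1 h2 hU hs hm1 hm2 hloc hhor hver
  have he2 : MeasurePreserving Complex.equivRealProdCLM.symm.toHomeomorph volume volume :=
    Complex.volume_preserving_equiv_real_prod.symm (e := Complex.measurableEquivRealProd)
  have he1 : MeasurePreserving ((Homeomorph.prodComm ℝ ℝ).trans
      Complex.equivRealProdCLM.symm.toHomeomorph) volume volume := by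
    have h3 : MeasurePreserving (Prod.swap : ℝ × ℝ → ℝ × ℝ) volume volume :=
      Measure.measurePreserving_swap
    exact he2.comp h3
  have hle1 : ∀ C : Set ℂ, C ⊆ U → IsCompact C → ∫⁻ z in C, h1 z ^ 2 < ⊤ := fun C hC hCc =>
    (lintegral_mono fun z => le_self_add).trans_lt (hloc C hC hCc)
  have hle2 : ∀ C : Set ℂ, C ⊆ U → IsCompact C → ∫⁻ z in C, h2 z ^ 2 < ⊤ := fun C hC hCc =>
    (lintegral_mono fun z => le_add_self).trans_lt (hloc C hC hCc)
  obtain ⟨X, hX1, hX2, hX3⟩ := plane _ he1 hU hs hm1 hle1 hhor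
  obtain ⟨Y, hY1, hY2, hY3⟩ := plane _ he2 hU hs hm2 hle2 hver
  refine ⟨X, Y, ?_, ?_⟩
  · intro i l
    refine ⟨hs i l, (hX1 i l).aestronglyMeasurable, (hY1 i l).aestronglyMeasurable, ?_, ?_, ?_⟩
    · intro C hC hCc
      refine ⟨((hX1 i l).pow_const 2).add ((hY1 i l).pow_const 2) |>.aestronglyMeasurable, ?_⟩
      rw [hasFiniteIntegral_iff_ofReal (Eventually.of_forall fun z => by positivity)]
      refine lt_of_le_of_lt ?_ (hloc C hC hCc)
      refine lintegral_mono_ae ?_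
      rw [ae_restrict_iff' hCc.measurableSet]
      filter_upwards [hX2, hY2] with z hz1 hz2 hzC
      have hsq : ∀ v : Mat K n, v i l ^ 2 ≤ nsq v := fun v => by
        have h5 := abs_le_sqrt_nsq v i l
        have h6 := pow_le_pow_left₀ (abs_nonneg _) h5 2
        rwa [sq_abs, Real.sq_sqrt (nsq_nonneg _)] at h6
      rw [ENNReal.ofReal_add (sq_nonneg _) (sq_nonneg _)]
      exact add_le_add ((ENNReal.ofReal_le_ofReal (hsq _)).trans (hz1 (hC hzC)))
        ((ENNReal.ofReal_le_ofReal (hsq _)).trans (hz2 (hC hzC)))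
    · filter_upwards [hX3] with y hy a b hab hU'
      exact hy a b hab hU' i l
    · filter_upwards [hY3] with y hy a b hab hU'
      exact hy a b hab hU' i l
  · filter_upwards [hX2, hY2] with z hz1 hz2 hzU
    exact ⟨hz1 hzU, hz2 hzU⟩

end Pool.Agent.DMB
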