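import Pool.Agent.DMB.Api

/-!
MP_71cfa6_an, squad DMB: module GAL, algebra of functions with a gradient along lines.
-/

set_option autoImplicit false

namespace Pool.Agent.DMB

open MeasureTheory Set Metric Filter Topology
open scoped ENNReal

namespace GAL_

theorem ae_ver {p : ℂ → Prop} (h : ∀ᵐ z : ℂ, p z) : ∀ᵐ x : ℝ, ∀ᵐ y : ℝ, p ⟨x, y⟩ := by
  have h1 : ∀ᵐ q : ℝ × ℝ, p (Complex.measurableEquivRealProd.symm q) :=
    (Complex.volume_preserving_equiv_real_prod.symm
      Complex.measurableEquivRealProd).quasiMeasurePreserving.ae h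
  rw [Measure.volume_eq_prod] at h1
  exact Measure.ae_ae_of_ae_prod h1

theorem ae_hor {p : ℂ → Prop} (h : ∀ᵐ z : ℂ, p z) : ∀ᵐ y : ℝ, ∀ᵐ x : ℝ, p ⟨x, y⟩ := by
  have h1 : ∀ᵐ q : ℝ × ℝ, p (Complex.measurableEquivRealProd.symm q) :=
    (Complex.volume_preserving_equiv_real_prod.symm
      Complex.measurableEquivRealProd).quasiMeasurePreserving.ae h
  rw [Measure.volume_eq_prod] at h1
  have h2 : ∀ᵐ q : ℝ × ℝ ∂(Measure.prod volume volume),
      p (Complex.measurableEquivRealProd.symm q.swap) :=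
    (Measure.measurePreserving_swap (μ := (volume : Measure ℝ))
      (ν := (volume : Measure ℝ))).quasiMeasurePreserving.ae h1
  exact Measure.ae_ae_of_ae_prod h2

theorem sq_int {U C : Set ℂ} (hC : C ⊆ U) {fx fy gx gy : ℂ → ℝ}
    (mfx : AEStronglyMeasurable fx (volume.restrict U))
    (mfy : AEStronglyMeasurable fy (volume.restrict U))
    (mgx : AEStronglyMeasurable gx (volume.restrict U))
    (mgy : AEStronglyMeasurable gy (volume.restrict U))
    (h1 : IntegrableOn (fun z => fx z ^ 2 + fy z ^ 2) C)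
    (h2 : IntegrableOn (fun z => gx z ^ 2 + gy z ^ 2) C) :
    IntegrableOn (fun z => (fx z + gx z) ^ 2 + (fy z + gy z) ^ 2) C := by
  have hm : AEStronglyMeasurable (fun z => (fx z + gx z) ^ 2 + (fy z + gy z) ^ 2)
      (volume.restrict C) :=
    (((mfx.mono_set hC).add (mgx.mono_set hC)).pow 2).add
      (((mfy.mono_set hC).add (mgy.mono_set hC)).pow 2)
  refine Integrable.mono' ((h1.const_mul 2).add (h2.const_mul 2)) hm ?_
  refine Eventually.of_forall fun z => ?_
  rw [Real.norm_of_nonneg (by positivity)]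
  simp only [Pi.add_apply]
  nlinarith [sq_nonneg (fx z - gx z), sq_nonneg (fy z - gy z)]

end GAL_

open GAL_ in
theorem gal_proof : Stmt_GAL := by
  intro U hU
  refine ⟨?_, ?_, ?_, ?_, ?_⟩
  · intro V f fx fy _ hVU h
    refine ⟨h.cont.mono hVU, h.mx.mono_set hVU, h.my.mono_set hVU, ?_, ?_, ?_⟩
    · intro C hC hCc
      exact h.loc C (hC.trans hVU) hCc
    · filter_upwards [h.hor] with y hy a b hab hs
      exact hy a b hab fun t ht => hVU (hs t ht)
    · filter_upwards [h.ver] with x hx a b hab hs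
      exact hx a b hab fun t ht => hVU (hs t ht)
  · intro c
    refine ⟨continuousOn_const, aestronglyMeasurable_const, aestronglyMeasurable_const, ?_, ?_, ?_⟩
    · intro C _ _
      simp
    · refine Eventually.of_forall fun y a b hab _ => ⟨intervalIntegrable_const, by simp⟩
    · refine Eventually.of_forall fun y a b hab _ => ⟨intervalIntegrable_const, by simp⟩
  · intro f fx fy g gx gy hf hg
    refine ⟨hf.cont.add hg.cont, hf.mx.add hg.mx, hf.my.add hg.my, ?_, ?_, ?_⟩
    · intro C hC hCc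
      exact sq_int hC hf.mx hf.my hg.mx hg.my (hf.loc C hC hCc) (hg.loc C hC hCc)
    · filter_upwards [hf.hor, hg.hor] with y h1 h2 a b hab hs
      obtain ⟨i1, e1⟩ := h1 a b hab hs
      obtain ⟨i2, e2⟩ := h2 a b hab hs
      refine ⟨i1.add i2, ?_⟩
      rw [intervalIntegral.integral_add i1 i2, ← e1, ← e2]
      ring
    · filter_upwards [hf.ver, hg.ver] with y h1 h2 a b hab hs
      obtain ⟨i1, e1⟩ := h1 a b hab hs
      obtain ⟨i2, e2⟩ := h2 a b hab hs
      refine ⟨i1.add i2, ?_⟩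
      rw [intervalIntegral.integral_add i1 i2, ← e1, ← e2]
      ring
  · intro c f fx fy hf
    refine ⟨continuousOn_const.mul hf.cont, hf.mx.const_mul c, hf.my.const_mul c, ?_, ?_, ?_⟩
    · intro C hC hCc
      refine ((hf.loc C hC hCc).const_mul (c ^ 2)).congr ?_
      refine Eventually.of_forall fun z => ?_
      show c ^ 2 * (fx z ^ 2 + fy z ^ 2) = (c * fx z) ^ 2 + (c * fy z) ^ 2
      ring
    · filter_upwards [hf.hor] with y h1 a b hab hs
      obtain ⟨i1, e1⟩ := h1 a b hab hs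
      refine ⟨i1.const_mul c, ?_⟩
      rw [intervalIntegral.integral_const_mul, ← e1]
      ring
    · filter_upwards [hf.ver] with y h1 a b hab hs
      obtain ⟨i1, e1⟩ := h1 a b hab hs
      refine ⟨i1.const_mul c, ?_⟩
      rw [intervalIntegral.integral_const_mul, ← e1]
      ring
  · intro f fx fy g gx gy hf hfg hx hy
    have hx' : ∀ᵐ z : ℂ, z ∈ U → gx z = fx z := (ae_restrict_iff' hU.measurableSet).1 hx
    have hy' : ∀ᵐ z : ℂ, z ∈ U → gy z = fy z := (ae_restrict_iff' hU.measurableSet).1 hy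
    refine ⟨hf.cont.congr fun z hz => hfg z hz, hf.mx.congr hx.symm, hf.my.congr hy.symm, ?_, ?_, ?_⟩
    · intro C hC hCc
      refine (hf.loc C hC hCc).congr ?_
      have h1 : gx =ᵐ[volume.restrict C] fx := ae_restrict_of_ae_restrict_of_subset hC hx
      have h2 : gy =ᵐ[volume.restrict C] fy := ae_restrict_of_ae_restrict_of_subset hC hy
      filter_upwards [h1, h2] with z e1 e2
      rw [e1, e2]
    · filter_upwards [hf.hor, ae_hor hx'] with y h1 h2 a b hab hs
      obtain ⟨i1, e1⟩ := h1 a b hab hs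
      have h3 : ∀ᵐ t : ℝ, t ∈ Set.uIoc a b → fx ⟨t, y⟩ = gx ⟨t, y⟩ := by
        filter_upwards [h2] with t ht hm
        rw [Set.uIoc_of_le hab] at hm
        exact (ht (hs t ⟨hm.1.le, hm.2⟩)).symm
      refine ⟨i1.congr_ae ((ae_restrict_iff' measurableSet_uIoc).2 h3), ?_⟩
      rw [← intervalIntegral.integral_congr_ae h3, ← e1,
        hfg _ (hs b ⟨hab, le_rfl⟩), hfg _ (hs a ⟨le_rfl, hab⟩)]
    · filter_upwards [hf.ver, ae_ver hy'] with y h1 h2 a b hab hs
      obtain ⟨i1, e1⟩ := h1 a b hab hs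
      have h3 : ∀ᵐ t : ℝ, t ∈ Set.uIoc a b → fy ⟨y, t⟩ = gy ⟨y, t⟩ := by
        filter_upwards [h2] with t ht hm
        rw [Set.uIoc_of_le hab] at hm
        exact (ht (hs t ⟨hm.1.le, hm.2⟩)).symm
      refine ⟨i1.congr_ae ((ae_restrict_iff' measurableSet_uIoc).2 h3), ?_⟩
      rw [← intervalIntegral.integral_congr_ae h3, ← e1,
        hfg _ (hs b ⟨hab, le_rfl⟩), hfg _ (hs a ⟨le_rfl, hab⟩)]

end Pool.Agent.DMB
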