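import Pool.Agent.DMB.Api

/-!
Squad DMB, module GC1: functions of class `C¹` have a gradient along almost every line.
-/

namespace Pool.Agent.DMB

open MeasureTheory Set Metric Filter Topology
open scoped ENNReal

namespace GC1_

theorem hor_deriv (y t : ℝ) : HasDerivAt (fun t : ℝ => (⟨t, y⟩ : ℂ)) 1 t := by
  have h1 : HasDerivAt (fun t : ℝ => (t : ℂ)) 1 t := Complex.ofRealCLM.hasDerivAt
  have h2 := h1.add_const ((y : ℂ) * Complex.I)
  have e : (fun t : ℝ => (⟨t, y⟩ : ℂ)) = fun t : ℝ => (t : ℂ) + (y : ℂ) * Complex.I := by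
    funext s
    apply Complex.ext <;> simp
  rw [e]
  exact h2

theorem ver_deriv (x t : ℝ) : HasDerivAt (fun t : ℝ => (⟨x, t⟩ : ℂ)) Complex.I t := by
  have h1 : HasDerivAt (fun t : ℝ => (t : ℂ)) 1 t := Complex.ofRealCLM.hasDerivAt
  have h2 := (h1.mul_const Complex.I).const_add (x : ℂ)
  have e : (fun t : ℝ => (⟨x, t⟩ : ℂ)) = fun t : ℝ => (x : ℂ) + (t : ℂ) * Complex.I := by
    funext s
    apply Complex.ext <;> simp
  rw [e]
  simpa using h2

theorem line {U : Set ℂ} {f : ℂ → ℝ} (hU : IsOpen U) (hf : ContDiffOn ℝ 1 f U) (γ : ℝ → ℂ) (v : ℂ)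
    (hγ : ∀ t, HasDerivAt γ v t) (a b : ℝ) (hab : a ≤ b) (h : ∀ t ∈ Icc a b, γ t ∈ U) :
    IntervalIntegrable (fun t : ℝ => fderiv ℝ f (γ t) v) volume a b ∧
    f (γ b) - f (γ a) = ∫ t in a..b, fderiv ℝ f (γ t) v := by
  have hfd : ContinuousOn (fderiv ℝ f) U := hf.continuousOn_fderiv_of_isOpen hU le_rfl
  have hγc : Continuous γ := continuous_iff_continuousAt.2 fun t => (hγ t).continuousAt
  have hcont : ContinuousOn (fun t : ℝ => fderiv ℝ f (γ t) v) (uIcc a b) := by
    rw [uIcc_of_le hab]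
    have h1 : ContinuousOn (fun t : ℝ => fderiv ℝ f (γ t)) (Icc a b) :=
      hfd.comp hγc.continuousOn (fun t ht => h t ht)
    exact h1.clm_apply continuousOn_const
  have hint : IntervalIntegrable (fun t : ℝ => fderiv ℝ f (γ t) v) volume a b := hcont.intervalIntegrable
  refine ⟨hint, ?_⟩
  have hder : ∀ t ∈ uIcc a b, HasDerivAt (fun t => f (γ t)) (fderiv ℝ f (γ t) v) t := by
    intro t ht
    rw [uIcc_of_le hab] at ht
    have h1 : HasFDerivAt f (fderiv ℝ f (γ t)) (γ t) :=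
      ((hf.differentiableOn (by norm_num)).differentiableAt (hU.mem_nhds (h t ht))).hasFDerivAt
    exact h1.comp_hasDerivAt t (hγ t)
  exact (intervalIntegral.integral_eq_sub_of_hasDerivAt hder hint).symm

end GC1_

theorem gc1_proof : Stmt_GC1 := by
  intro U f hU hf
  have hfd : ContinuousOn (fderiv ℝ f) U := hf.continuousOn_fderiv_of_isOpen hU le_rfl
  have hc : ∀ v : ℂ, ContinuousOn (fun z => fderiv ℝ f z v) U :=
    fun v => hfd.clm_apply continuousOn_const
  refine ⟨hf.continuousOn, (hc 1).aestronglyMeasurable hU.measurableSet,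
    (hc Complex.I).aestronglyMeasurable hU.measurableSet, ?_, ?_, ?_⟩
  · intro C hCU hC
    exact ((((hc 1).pow 2).add ((hc Complex.I).pow 2)).mono hCU).integrableOn_compact hC
  · refine ae_of_all _ (fun y a b hab h => ?_)
    exact GC1_.line hU hf (fun t : ℝ => (⟨t, y⟩ : ℂ)) 1 (GC1_.hor_deriv y) a b hab h
  · refine ae_of_all _ (fun x a b hab h => ?_)
    exact GC1_.line hU hf (fun t : ℝ => (⟨x, t⟩ : ℂ)) Complex.I (GC1_.ver_deriv x) a b hab h

end Pool.Agent.DMB
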