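import Pool.Agent.DMB.Api

/-!
MP_71cfa6_an, squad DMB: module GCH, chain rule for functions with a gradient along lines.
-/

set_option autoImplicit false

namespace Pool.Agent.DMB

open MeasureTheory Set Metric Filter Topology
open scoped ENNReal

namespace GCH_

theorem ac_comp {I h : ℝ → ℝ} {a b K : ℝ} (hI : AbsolutelyContinuousOnInterval I a b)
    (hl : ∀ x ∈ uIcc a b, ∀ y ∈ uIcc a b, dist (h x) (h y) ≤ K * dist (I x) (I y)) :
    AbsolutelyContinuousOnInterval h a b := by
  unfold AbsolutelyContinuousOnInterval at *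
  refine squeeze_zero' ?_ ?_ (by simpa using hI.const_mul K)
  · exact Filter.Eventually.of_forall fun _ => Finset.sum_nonneg fun i hi => dist_nonneg
  rw [eventually_inf_principal]
  filter_upwards with (n, J) hnI
  simp only [Finset.mul_sum]
  refine Finset.sum_le_sum fun i hi => ?_
  exact hl _ (hnI.left i hi).left _ (hnI.left i hi).right

theorem chain {F u g : ℝ → ℝ} {V : Set ℝ} {a b : ℝ} (hab : a ≤ b)
    (hu : IntervalIntegrable u volume a b) (hF : ∀ t ∈ Icc a b, F t - F a = ∫ s in a..t, u s)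
    (cF : ContinuousOn F (Icc a b)) (hV : IsOpen V) (hg : ContDiffOn ℝ 1 g V)
    (hFV : ∀ t ∈ Icc a b, F t ∈ V) :
    IntervalIntegrable (fun t => deriv g (F t) * u t) volume a b ∧
      g (F b) - g (F a) = ∫ t in a..b, deriv g (F t) * u t := by
  have hdg : ContinuousOn (deriv g) V := hg.continuousOn_deriv_of_isOpen hV le_rfl
  have cdF : ContinuousOn (fun t => deriv g (F t)) (uIcc a b) := by
    rw [uIcc_of_le hab]
    exact hdg.comp cF hFV
  refine ⟨hu.continuousOn_mul cdF, ?_⟩
  have hJc : IsCompact (F '' Icc a b) := isCompact_Icc.image_of_continuousOn cF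
  have hJv : Convex ℝ (F '' Icc a b) := (isPreconnected_Icc.image F cF).ordConnected.convex
  have hJV : F '' Icc a b ⊆ V := by
    rintro _ ⟨t, ht, rfl⟩
    exact hFV t ht
  obtain ⟨K, hK⟩ := (hg.mono hJV).exists_lipschitzOnWith (by decide) hJv hJc
  have hI := hu.absolutelyContinuousOnInterval_intervalIntegral (c := a) (by simp)
  have hF' : ∀ t ∈ Icc a b, F t = F a + ∫ s in a..t, u s := by
    intro t ht
    rw [← hF t ht]
    ring
  have hac : AbsolutelyContinuousOnInterval (fun t => g (F a + ∫ s in a..t, u s)) a b := by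
    refine ac_comp (K := K) hI ?_
    intro x hx y hy
    rw [uIcc_of_le hab] at hx hy
    have h1 := hK.dist_le_mul (F x) ⟨x, hx, rfl⟩ (F y) ⟨y, hy, rfl⟩
    rw [hF' x hx, hF' y hy, dist_add_left] at h1
    exact h1
  have h := hac.integral_deriv_eq_sub
  rw [intervalIntegral.integral_same, add_zero, ← hF' b ⟨hab, le_rfl⟩] at h
  rw [← h]
  refine intervalIntegral.integral_congr_ae ?_
  filter_upwards [hu.ae_hasDerivAt_integral] with t h1 ht
  have ht' : t ∈ uIcc a b := uIoc_subset_uIcc ht
  have htI : t ∈ Icc a b := by rwa [uIcc_of_le hab] at ht'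
  have h2 : HasDerivAt (fun t => F a + ∫ s in a..t, u s) (u t) t :=
    (h1 ht' a (by simp)).const_add (F a)
  have h3 : HasDerivAt g (deriv g (F t)) (F a + ∫ s in a..t, u s) := by
    rw [← hF' t htI]
    exact ((hg.differentiableOn (by norm_num)).differentiableAt
      (hV.mem_nhds (hFV t htI))).hasDerivAt
  exact (h3.comp t h2).deriv

end GCH_

open GCH_ in
theorem gch_proof (_hGAL : Stmt_GAL) : Stmt_GCH := by
  intro U f fx fy V g hU hV hg hfV hf
  have hdg : ContinuousOn (deriv g) V := hg.continuousOn_deriv_of_isOpen hV le_rfl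
  have cd : ContinuousOn (fun z => deriv g (f z)) U := hdg.comp hf.cont hfV
  have md : AEStronglyMeasurable (fun z => deriv g (f z)) (volume.restrict U) :=
    cd.aestronglyMeasurable hU.measurableSet
  refine ⟨hg.continuousOn.comp hf.cont hfV, md.mul hf.mx, md.mul hf.my, ?_, ?_, ?_⟩
  · intro C hC hCc
    obtain ⟨B, hB⟩ := hCc.exists_bound_of_continuousOn (cd.mono hC)
    have hm : AEStronglyMeasurable (fun z => (deriv g (f z) * fx z) ^ 2
        + (deriv g (f z) * fy z) ^ 2) (volume.restrict C) :=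
      (((md.mul hf.mx).pow 2).add ((md.mul hf.my).pow 2)).mono_set hC
    refine Integrable.mono' ((hf.loc C hC hCc).const_mul (B ^ 2)) hm ?_
    refine (ae_restrict_iff' hCc.measurableSet).2 (Eventually.of_forall fun z hz => ?_)
    have h1 := hB z hz
    rw [Real.norm_eq_abs] at h1
    have h3 : deriv g (f z) ^ 2 ≤ B ^ 2 := by
      rw [← sq_abs]
      exact pow_le_pow_left₀ (abs_nonneg _) h1 2
    rw [Real.norm_of_nonneg (by positivity)]
    have i3 : 0 ≤ (fx z ^ 2 + fy z ^ 2) * (B ^ 2 - deriv g (f z) ^ 2) :=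
      mul_nonneg (by positivity) (by linarith)
    nlinarith
  · filter_upwards [hf.hor] with y h1 a b hab hs
    have hline : ContinuousOn (fun t : ℝ => (⟨t, y⟩ : ℂ)) (Icc a b) := by
      have : Continuous (fun t : ℝ => (⟨t, y⟩ : ℂ)) :=
        Complex.equivRealProdCLM.symm.continuous.comp (continuous_id.prodMk continuous_const)
      exact this.continuousOn
    have hmaps : MapsTo (fun t : ℝ => (⟨t, y⟩ : ℂ)) (Icc a b) U := fun t ht => hs t ht
    exact chain (F := fun t : ℝ => f ⟨t, y⟩) hab (h1 a b hab hs).1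
      (fun t ht => (h1 a t ht.1 fun s hs' => hs s ⟨hs'.1, hs'.2.trans ht.2⟩).2)
      (hf.cont.comp hline hmaps) hV hg (fun t ht => hfV _ (hs t ht))
  · filter_upwards [hf.ver] with x h1 a b hab hs
    have hline : ContinuousOn (fun t : ℝ => (⟨x, t⟩ : ℂ)) (Icc a b) := by
      have : Continuous (fun t : ℝ => (⟨x, t⟩ : ℂ)) :=
        Complex.equivRealProdCLM.symm.continuous.comp (continuous_const.prodMk continuous_id)
      exact this.continuousOn
    have hmaps : MapsTo (fun t : ℝ => (⟨x, t⟩ : ℂ)) (Icc a b) U := fun t ht => hs t ht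
    exact chain (F := fun t : ℝ => f ⟨x, t⟩) hab (h1 a b hab hs).1
      (fun t ht => (h1 a t ht.1 fun s hs' => hs s ⟨hs'.1, hs'.2.trans ht.2⟩).2)
      (hf.cont.comp hline hmaps) hV hg (fun t ht => hfV _ (hs t ht))

end Pool.Agent.DMB
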