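import Pool.Agent.DMB.Api

/-!
Module GCL: closedness of the gradient under local uniform and `L²` approximation.
-/

set_option autoImplicit false

namespace Pool.Agent.DMB

open MeasureTheory Set Metric Filter Topology
open scoped ENNReal

namespace GCL_

/-- exhaustion by compact sets -/
def KK (U : Set ℂ) (n : ℕ) : Set ℂ :=
  closedBall 0 n ∩ {z | ∀ w, w ∉ U → 1 / ((n : ℝ) + 1) ≤ dist z w}

theorem KK_compact (U : Set ℂ) (n : ℕ) : IsCompact (KK U n) := by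
  refine (isCompact_closedBall _ _).inter_right ?_
  have h1 : {z : ℂ | ∀ w, w ∉ U → 1 / ((n : ℝ) + 1) ≤ dist z w} =
      ⋂ w, ⋂ (_ : w ∉ U), {z | 1 / ((n : ℝ) + 1) ≤ dist z w} := by
    ext z
    simp
  rw [h1]
  refine isClosed_iInter fun w => isClosed_iInter fun _ => ?_
  exact isClosed_le continuous_const (continuous_id.dist continuous_const)

theorem KK_sub (U : Set ℂ) (n : ℕ) : KK U n ⊆ U := by
  intro z hz
  by_contra h
  have h1 := hz.2 z h
  rw [dist_self] at h1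
  have h2 : (0 : ℝ) < 1 / ((n : ℝ) + 1) := by positivity
  linarith

theorem KK_exh (U S : Set ℂ) (hU : IsOpen U) (hS : IsCompact S) (hSU : S ⊆ U) : ∃ n, S ⊆ KK U n := by
  obtain ⟨R, hR⟩ := hS.isBounded.subset_closedBall 0
  obtain ⟨δ, hδ, hδ2⟩ := hS.exists_thickening_subset_open hU hSU
  obtain ⟨n, hn⟩ := exists_nat_gt (max R (1 / δ))
  refine ⟨n, fun z hz => ⟨?_, fun w hw => ?_⟩⟩
  · have h1 := hR hz
    rw [mem_closedBall] at h1 ⊢
    exact h1.trans ((le_max_left _ _).trans hn.le)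
  · by_contra hlt
    push Not at hlt
    refine hw (hδ2 ?_)
    rw [mem_thickening_iff]
    refine ⟨z, hz, ?_⟩
    rw [dist_comm]
    refine hlt.trans ?_
    have h2 : 1 / δ < (n : ℝ) := (le_max_right _ _).trans_lt hn
    rw [div_lt_iff₀ (by positivity)]
    rw [div_lt_iff₀ hδ] at h2
    nlinarith

theorem fub (U : Set ℂ) (φ : ℂ → ℝ) (hU : IsOpen U)
    (hφ : ∀ C : Set ℂ, C ⊆ U → IsCompact C → IntegrableOn φ C) :
    (∀ᵐ y : ℝ, ∀ a b : ℝ, a ≤ b → (∀ t ∈ Icc a b, (⟨t, y⟩ : ℂ) ∈ U) →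
      IntervalIntegrable (fun t : ℝ => φ ⟨t, y⟩) volume a b) ∧
    (∀ᵐ x : ℝ, ∀ a b : ℝ, a ≤ b → (∀ t ∈ Icc a b, (⟨x, t⟩ : ℂ) ∈ U) →
      IntervalIntegrable (fun t : ℝ => φ ⟨x, t⟩) volume a b) := by
  have hI : ∀ n, Integrable ((KK U n).indicator φ) (volume : Measure ℂ) := fun n =>
    (hφ _ (KK_sub U n) (KK_compact U n)).integrable_indicator (KK_compact U n).measurableSet
  have hI2 : ∀ n, Integrable (fun p : ℝ × ℝ => (KK U n).indicator φ (⟨p.1, p.2⟩ : ℂ))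
      ((volume : Measure ℝ).prod volume) := by
    intro n
    have h1 := (Complex.volume_preserving_equiv_real_prod.symm _).integrable_comp_of_integrable (hI n)
    exact h1
  have hcx : ∀ y : ℝ, Continuous (fun t : ℝ => (⟨t, y⟩ : ℂ)) := by
    intro y
    have h1 : (fun t : ℝ => (⟨t, y⟩ : ℂ)) = fun t : ℝ => (t : ℂ) + y * Complex.I := by
      funext t
      apply Complex.ext <;> simp
    rw [h1]
    fun_prop
  have hcy : ∀ x : ℝ, Continuous (fun t : ℝ => (⟨x, t⟩ : ℂ)) := by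
    intro x
    have h1 : (fun t : ℝ => (⟨x, t⟩ : ℂ)) = fun t : ℝ => (x : ℂ) + t * Complex.I := by
      funext t
      apply Complex.ext <;> simp
    rw [h1]
    fun_prop
  have key : ∀ (γ : ℝ → ℂ), Continuous γ →
      (∀ n, Integrable (fun t => (KK U n).indicator φ (γ t)) volume) →
      ∀ a b : ℝ, a ≤ b → (∀ t ∈ Icc a b, γ t ∈ U) →
      IntervalIntegrable (fun t : ℝ => φ (γ t)) volume a b := by
    intro γ hγ hin a b hab hseg
    obtain ⟨n, hn⟩ := KK_exh U (γ '' Icc a b) hU (isCompact_Icc.image hγ) (by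
      rintro _ ⟨t, ht, rfl⟩
      exact hseg t ht)
    rw [intervalIntegrable_iff_integrableOn_Icc_of_le hab]
    refine ((hin n).integrableOn (s := Icc a b)).congr_fun (fun t ht => ?_) measurableSet_Icc
    show (KK U n).indicator φ (γ t) = φ (γ t)
    rw [indicator_of_mem (hn ⟨t, ht, rfl⟩)]
  constructor
  · have h1 : ∀ᵐ y : ℝ, ∀ n, Integrable (fun t => (KK U n).indicator φ (⟨t, y⟩ : ℂ)) volume :=
      ae_all_iff.2 fun n => (hI2 n).prod_left_ae
    filter_upwards [h1] with y hy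
    exact key (fun t => ⟨t, y⟩) (hcx y) hy
  · have h1 : ∀ᵐ x : ℝ, ∀ n, Integrable (fun t => (KK U n).indicator φ (⟨x, t⟩ : ℂ)) volume :=
      ae_all_iff.2 fun n => (hI2 n).prod_right_ae
    filter_upwards [h1] with x hx
    exact key (fun t => ⟨x, t⟩) (hcy x) hx

theorem intg (U : Set ℂ) (fx fy : ℂ → ℝ) (hm : AEStronglyMeasurable fx (volume.restrict U))
    (hl : ∀ C : Set ℂ, C ⊆ U → IsCompact C → IntegrableOn (fun z => fx z ^ 2 + fy z ^ 2) C) :
    ∀ C : Set ℂ, C ⊆ U → IsCompact C → IntegrableOn fx C := by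
  intro C hCU hC
  have hfin : volume C < ⊤ := hC.measure_lt_top
  have h1 : IntegrableOn (fun z => (fx z ^ 2 + fy z ^ 2) + 1) C :=
    (hl C hCU hC).add (integrableOn_const hfin.ne)
  refine h1.mono' (hm.mono_measure (Measure.restrict_mono hCU le_rfl))
    (Eventually.of_forall fun z => ?_)
  rw [Real.norm_eq_abs]
  nlinarith [sq_nonneg (|fx z| - 1), sq_abs (fx z), sq_nonneg (fy z), abs_nonneg (fx z)]


theorem tend0 (H : ℕ → ℝ → ℝ) (c : ℝ) (hH : ∀ j, Integrable (H j) volume)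
    (h0 : ∀ j y, 0 ≤ H j y) (hb : ∀ j, ∫ y, H j y ≤ c * (1 / 2 : ℝ) ^ j) :
    ∀ᵐ y : ℝ, Tendsto (fun j => H j y) atTop (𝓝 0) := by
  have h1 : ∫⁻ y, ∑' j, ENNReal.ofReal (H j y) ≠ ⊤ := by
    rw [lintegral_tsum (fun j => (hH j).1.aemeasurable.ennreal_ofReal)]
    have h2 : ∀ j, ∫⁻ y, ENNReal.ofReal (H j y) = ENNReal.ofReal (∫ y, H j y) := fun j =>
      (ofReal_integral_eq_lintegral_ofReal (hH j) (Eventually.of_forall (h0 j))).symm
    simp_rw [h2]
    have hs : Summable fun j : ℕ => c * (1 / 2 : ℝ) ^ j :=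
      (summable_geometric_of_lt_one (by norm_num) (by norm_num)).mul_left c
    exact ne_top_of_le_ne_top hs.tsum_ofReal_ne_top
      (ENNReal.tsum_le_tsum fun j => ENNReal.ofReal_le_ofReal (hb j))
  have h2 := ae_lt_top' (AEMeasurable.tsum fun j =>
    (hH j).1.aemeasurable.ennreal_ofReal) h1
  filter_upwards [h2] with y hy
  have h3 := ENNReal.tendsto_atTop_zero_of_tsum_ne_top hy.ne
  have h4 := (ENNReal.tendsto_toReal ENNReal.zero_ne_top).comp h3
  have h5 : (ENNReal.toReal ∘ fun j => ENNReal.ofReal (H j y)) = fun j => H j y := by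
    funext j
    exact ENNReal.toReal_ofReal (h0 j y)
  rw [h5] at h4
  simpa using h4

theorem lines (h : ℕ → ℂ → ℝ) (c : ℝ) (hI : ∀ j, Integrable (h j) volume)
    (h0 : ∀ j z, 0 ≤ h j z) (hb : ∀ j, ∫ z, h j z ≤ c * (1 / 2 : ℝ) ^ j) :
    (∀ᵐ y : ℝ, (∀ j, Integrable (fun t : ℝ => h j ⟨t, y⟩) volume) ∧
      Tendsto (fun j => ∫ t : ℝ, h j ⟨t, y⟩) atTop (𝓝 0)) ∧
    (∀ᵐ x : ℝ, (∀ j, Integrable (fun t : ℝ => h j ⟨x, t⟩) volume) ∧
      Tendsto (fun j => ∫ t : ℝ, h j ⟨x, t⟩) atTop (𝓝 0)) := by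
  have hI2 : ∀ j, Integrable (fun p : ℝ × ℝ => h j (⟨p.1, p.2⟩ : ℂ))
      ((volume : Measure ℝ).prod volume) := fun j =>
    (Complex.volume_preserving_equiv_real_prod.symm _).integrable_comp_of_integrable (hI j)
  have hi : ∀ j, ∫ z, h j z = ∫ p : ℝ × ℝ, h j (⟨p.1, p.2⟩ : ℂ) := fun j =>
    ((Complex.volume_preserving_equiv_real_prod.symm _).integral_comp
      (MeasurableEquiv.measurableEmbedding _) (h j)).symm
  constructor
  · have h1 : ∀ᵐ y : ℝ, ∀ j, Integrable (fun t : ℝ => h j ⟨t, y⟩) volume :=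
      ae_all_iff.2 fun j => (hI2 j).prod_left_ae
    have h2 := tend0 (fun j y => ∫ t : ℝ, h j ⟨t, y⟩) c
      (fun j => (hI2 j).integral_prod_right) (fun j y => integral_nonneg fun t => h0 j _)
      (fun j => by
        have h3 := integral_prod_symm (fun p : ℝ × ℝ => h j (⟨p.1, p.2⟩ : ℂ)) (hI2 j)
        have h4 := hb j
        rw [hi j, Measure.volume_eq_prod, h3] at h4
        exact h4)
    filter_upwards [h1, h2] with y ha hb
    exact ⟨ha, hb⟩
  · have h1 : ∀ᵐ x : ℝ, ∀ j, Integrable (fun t : ℝ => h j ⟨x, t⟩) volume :=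
      ae_all_iff.2 fun j => (hI2 j).prod_right_ae
    have h2 := tend0 (fun j x => ∫ t : ℝ, h j ⟨x, t⟩) c
      (fun j => (hI2 j).integral_prod_left) (fun j y => integral_nonneg fun t => h0 j _)
      (fun j => by
        have h3 := integral_prod (fun p : ℝ × ℝ => h j (⟨p.1, p.2⟩ : ℂ)) (hI2 j)
        have h4 := hb j
        rw [hi j, Measure.volume_eq_prod, h3] at h4
        exact h4)
    filter_upwards [h1, h2] with y ha hb
    exact ⟨ha, hb⟩

theorem bnd (C : Set ℂ) (hC : IsCompact C) (g s : ℂ → ℝ)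
    (hgm : AEStronglyMeasurable g (volume.restrict C)) (hs : IntegrableOn s C)
    (hgs : ∀ z, g z ^ 2 ≤ s z) (j : ℕ) (hb : ∫ z in C, s z ≤ (1 / 4 : ℝ) ^ j) :
    Integrable (C.indicator fun z => |g z|) volume ∧
    ∫ z, C.indicator (fun z => |g z|) z ≤ (1 + (volume C).toReal) * (1 / 2 : ℝ) ^ j := by
  have hfin : volume C < ⊤ := hC.measure_lt_top
  have hdom : IntegrableOn (fun z => (2 : ℝ) ^ j * s z + (1 / 2 : ℝ) ^ j) C :=
    (hs.const_mul _).add (integrableOn_const hfin.ne)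
  have hp : ((2 : ℝ) ^ j) * (1 / 2 : ℝ) ^ j = 1 := by
    rw [← mul_pow]
    norm_num
  have hp1 : (0 : ℝ) < 2 ^ j := by positivity
  have hp2 : (0 : ℝ) < (1 / 2 : ℝ) ^ j := by positivity
  have hle : ∀ z, |g z| ≤ (2 : ℝ) ^ j * s z + (1 / 2 : ℝ) ^ j := by
    intro z
    have h1 : 0 ≤ (2 : ℝ) ^ j * (|g z| - (1 / 2 : ℝ) ^ j) ^ 2 := by positivity
    have h2 : (2 : ℝ) ^ j * (|g z| - (1 / 2 : ℝ) ^ j) ^ 2 =
        (2 : ℝ) ^ j * |g z| ^ 2 - 2 * (((2 : ℝ) ^ j) * (1 / 2 : ℝ) ^ j) * |g z| +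
          (((2 : ℝ) ^ j) * (1 / 2 : ℝ) ^ j) * (1 / 2 : ℝ) ^ j := by ring
    rw [h2, hp, sq_abs] at h1
    have h3 : (2 : ℝ) ^ j * g z ^ 2 ≤ (2 : ℝ) ^ j * s z :=
      mul_le_mul_of_nonneg_left (hgs z) hp1.le
    have h4 := abs_nonneg (g z)
    linarith
  have hgi : IntegrableOn (fun z => |g z|) C := by
    refine hdom.mono' hgm.norm (Eventually.of_forall fun z => ?_)
    rw [Real.norm_eq_abs, abs_abs]
    exact hle z
  refine ⟨hgi.integrable_indicator hC.measurableSet, ?_⟩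
  rw [integral_indicator hC.measurableSet]
  have h5 := setIntegral_mono (μ := volume) (s := C) hgi hdom hle
  refine h5.trans ?_
  rw [integral_add (hs.const_mul _) (integrableOn_const hfin.ne), integral_const_mul,
    setIntegral_const, smul_eq_mul, measureReal_def]
  have h6 : (2 : ℝ) ^ j * ∫ z in C, s z ≤ (2 : ℝ) ^ j * (1 / 4 : ℝ) ^ j :=
    mul_le_mul_of_nonneg_left hb hp1.le
  have h7 : (2 : ℝ) ^ j * (1 / 4 : ℝ) ^ j = (1 / 2 : ℝ) ^ j := by
    rw [← mul_pow]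
    norm_num
  rw [h7] at h6
  linarith

/-- passing to the limit on one segment -/
theorem pass (f fx : ℝ → ℝ) (F G : ℕ → ℝ → ℝ) (h : ℕ → ℝ → ℝ) (a b : ℝ) (hab : a ≤ b)
    (hfx : IntervalIntegrable fx volume a b)
    (hG : ∀ j, IntervalIntegrable (G j) volume a b ∧ F j b - F j a = ∫ t in a..b, G j t)
    (hF : ∀ j, ∀ t ∈ Icc a b, |F j t - f t| ≤ (1 / 4 : ℝ) ^ j)
    (hh : ∀ j, ∀ t ∈ Icc a b, |G j t - fx t| ≤ h j t) (hhn : ∀ j t, 0 ≤ h j t)
    (hhi : ∀ j, Integrable (h j) volume) (hlim : Tendsto (fun j => ∫ t, h j t) atTop (𝓝 0)) :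
    f b - f a = ∫ t in a..b, fx t := by
  have hpt : ∀ t ∈ Icc a b, Tendsto (fun j => F j t) atTop (𝓝 (f t)) := by
    intro t ht
    rw [tendsto_iff_norm_sub_tendsto_zero]
    refine squeeze_zero (fun j => norm_nonneg _) (fun j => ?_)
      (tendsto_pow_atTop_nhds_zero_of_lt_one (r := (1 / 4 : ℝ)) (by norm_num) (by norm_num))
    rw [Real.norm_eq_abs]
    exact hF j t ht
  have hint : Tendsto (fun j => ∫ t in a..b, G j t) atTop (𝓝 (∫ t in a..b, fx t)) := by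
    rw [tendsto_iff_norm_sub_tendsto_zero]
    refine squeeze_zero (fun j => norm_nonneg _) (fun j => ?_) hlim
    rw [← intervalIntegral.integral_sub (hG j).1 hfx]
    refine (intervalIntegral.norm_integral_le_integral_norm hab).trans ?_
    rw [intervalIntegral.integral_of_le hab]
    have h1 : ∫ t in Ioc a b, ‖G j t - fx t‖ ≤ ∫ t in Ioc a b, h j t := by
      refine setIntegral_mono_on ?_ (hhi j).integrableOn measurableSet_Ioc fun t ht => ?_
      · have := ((hG j).1.sub hfx).norm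
        exact (intervalIntegrable_iff_integrableOn_Ioc_of_le hab).1 this
      · rw [Real.norm_eq_abs]
        exact hh j t (Ioc_subset_Icc_self ht)
    exact h1.trans (setIntegral_le_integral (hhi j) (Eventually.of_forall (hhn j)))
  have h2 : Tendsto (fun j => F j b - F j a) atTop (𝓝 (f b - f a)) :=
    (hpt b (right_mem_Icc.2 hab)).sub (hpt a (left_mem_Icc.2 hab))
  have h3 : (fun j => F j b - F j a) = fun j => ∫ t in a..b, G j t :=
    funext fun j => (hG j).2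
  rw [h3] at h2
  exact tendsto_nhds_unique h2 hint

theorem hcx (y : ℝ) : Continuous (fun t : ℝ => (⟨t, y⟩ : ℂ)) := by
  have h1 : (fun t : ℝ => (⟨t, y⟩ : ℂ)) = fun t : ℝ => (t : ℂ) + y * Complex.I := by
    funext t
    apply Complex.ext <;> simp
  rw [h1]
  fun_prop

theorem hcy (x : ℝ) : Continuous (fun t : ℝ => (⟨x, t⟩ : ℂ)) := by
  have h1 : (fun t : ℝ => (⟨x, t⟩ : ℂ)) = fun t : ℝ => (x : ℂ) + t * Complex.I := by
    funext t
    apply Complex.ext <;> simp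
  rw [h1]
  fun_prop

end GCL_

open GCL_ in
theorem gcl_proof (_hGAL : Stmt_GAL) : Stmt_GCL := by
  intro U f fx fy hU hf hmx hmy hl happ
  have hch : ∀ n j : ℕ, ∃ (V : Set ℂ) (F Fx Fy : ℂ → ℝ), IsOpen V ∧
    KK U n ⊆ V ∧ V ⊆ U ∧ HasGrad V F Fx Fy ∧ (∀ z ∈ KK U n, |F z - f z| ≤ (1 / 4 : ℝ) ^ j) ∧
    ∫ z in KK U n, ((Fx z - fx z) ^ 2 + (Fy z - fy z) ^ 2) ≤ (1 / 4 : ℝ) ^ j := fun n j =>
    happ (KK U n) (KK_sub U n) (KK_compact U n) _ (by positivity)
  choose V F Fx Fy hVo hKV hVU hgrad hval hint using hch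
  have hl' : ∀ C : Set ℂ, C ⊆ U → IsCompact C → IntegrableOn (fun z => fy z ^ 2 + fx z ^ 2) C := by
    intro C h1 h2
    have h3 := hl C h1 h2
    refine h3.congr (Eventually.of_forall fun z => ?_)
    show fx z ^ 2 + fy z ^ 2 = fy z ^ 2 + fx z ^ 2
    ring
  have hfx := (fub U fx hU (intg U fx fy hmx hl)).1
  have hfy := (fub U fy hU (intg U fy fx hmy hl')).2
  -- square integrability of the difference
  have hmx1 : ∀ n j, AEStronglyMeasurable (fun z => Fx n j z - fx z)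
      (volume.restrict (KK U n)) := fun n j =>
    ((hgrad n j).mx.mono_measure (Measure.restrict_mono (hKV n j) le_rfl)).sub
      (hmx.mono_measure (Measure.restrict_mono (KK_sub U n) le_rfl))
  have hmy1 : ∀ n j, AEStronglyMeasurable (fun z => Fy n j z - fy z)
      (volume.restrict (KK U n)) := fun n j =>
    ((hgrad n j).my.mono_measure (Measure.restrict_mono (hKV n j) le_rfl)).sub
      (hmy.mono_measure (Measure.restrict_mono (KK_sub U n) le_rfl))
  have hsq : ∀ n j, IntegrableOn (fun z => (Fx n j z - fx z) ^ 2 + (Fy n j z - fy z) ^ 2)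
      (KK U n) := by
    intro n j
    have h1 := (hgrad n j).loc (KK U n) (hKV n j) (KK_compact U n)
    have h2 := hl (KK U n) (KK_sub U n) (KK_compact U n)
    have h3 : IntegrableOn (fun z => 2 * (Fx n j z ^ 2 + Fy n j z ^ 2) +
        2 * (fx z ^ 2 + fy z ^ 2)) (KK U n) := (h1.const_mul 2).add (h2.const_mul 2)
    refine h3.mono' (((hmx1 n j).pow 2).add ((hmy1 n j).pow 2)) (Eventually.of_forall fun z => ?_)
    rw [Real.norm_eq_abs, abs_of_nonneg (by positivity)]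
    nlinarith [sq_nonneg (Fx n j z + fx z), sq_nonneg (Fy n j z + fy z)]
  have hX : ∀ n, _ := fun n => lines
    (fun j => (KK U n).indicator fun z => |Fx n j z - fx z|) (1 + (volume (KK U n)).toReal)
    (fun j => (bnd (KK U n) (KK_compact U n) _ _ (hmx1 n j) (hsq n j)
      (fun z => by nlinarith [sq_nonneg (Fy n j z - fy z)]) j (hint n j)).1)
    (fun j z => indicator_nonneg (fun _ _ => abs_nonneg _) z)
    (fun j => (bnd (KK U n) (KK_compact U n) _ _ (hmx1 n j) (hsq n j)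
      (fun z => by nlinarith [sq_nonneg (Fy n j z - fy z)]) j (hint n j)).2)
  have hY : ∀ n, _ := fun n => lines
    (fun j => (KK U n).indicator fun z => |Fy n j z - fy z|) (1 + (volume (KK U n)).toReal)
    (fun j => (bnd (KK U n) (KK_compact U n) _ _ (hmy1 n j) (hsq n j)
      (fun z => by nlinarith [sq_nonneg (Fx n j z - fx z)]) j (hint n j)).1)
    (fun j z => indicator_nonneg (fun _ _ => abs_nonneg _) z)
    (fun j => (bnd (KK U n) (KK_compact U n) _ _ (hmy1 n j) (hsq n j)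
      (fun z => by nlinarith [sq_nonneg (Fx n j z - fx z)]) j (hint n j)).2)
  refine ⟨hf, hmx, hmy, hl, ?_, ?_⟩
  · have h1 : ∀ᵐ y : ℝ, ∀ n j, ∀ a b : ℝ, a ≤ b → (∀ t ∈ Icc a b, (⟨t, y⟩ : ℂ) ∈ V n j) →
        IntervalIntegrable (fun t : ℝ => Fx n j ⟨t, y⟩) volume a b ∧
        F n j ⟨b, y⟩ - F n j ⟨a, y⟩ = ∫ t in a..b, Fx n j ⟨t, y⟩ :=
      ae_all_iff.2 fun n => ae_all_iff.2 fun j => (hgrad n j).hor
    have h2 := ae_all_iff.2 fun n => (hX n).1
    filter_upwards [h1, h2, hfx] with y k1 k2 k3 a b hab hseg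
    refine ⟨k3 a b hab hseg, ?_⟩
    obtain ⟨n, hn⟩ := KK_exh U ((fun t : ℝ => (⟨t, y⟩ : ℂ)) '' Icc a b) hU
      (isCompact_Icc.image (hcx y)) (by
        rintro _ ⟨t, ht, rfl⟩
        exact hseg t ht)
    have hn' : ∀ t ∈ Icc a b, (⟨t, y⟩ : ℂ) ∈ KK U n := fun t ht => hn ⟨t, ht, rfl⟩
    refine pass (fun t => f ⟨t, y⟩) (fun t => fx ⟨t, y⟩) (fun j t => F n j ⟨t, y⟩)
      (fun j t => Fx n j ⟨t, y⟩) _ a b hab (k3 a b hab hseg)
      (fun j => k1 n j a b hab fun t ht => hKV n j (hn' t ht))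
      (fun j t ht => hval n j _ (hn' t ht)) (fun j t ht => ?_) (fun j t => ?_)
      (k2 n).1 (k2 n).2
    · rw [indicator_of_mem (hn' t ht)]
    · exact indicator_nonneg (fun _ _ => abs_nonneg _) _
  · have h1 : ∀ᵐ x : ℝ, ∀ n j, ∀ a b : ℝ, a ≤ b → (∀ t ∈ Icc a b, (⟨x, t⟩ : ℂ) ∈ V n j) →
        IntervalIntegrable (fun t : ℝ => Fy n j ⟨x, t⟩) volume a b ∧
        F n j ⟨x, b⟩ - F n j ⟨x, a⟩ = ∫ t in a..b, Fy n j ⟨x, t⟩ :=
      ae_all_iff.2 fun n => ae_all_iff.2 fun j => (hgrad n j).ver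
    have h2 := ae_all_iff.2 fun n => (hY n).2
    filter_upwards [h1, h2, hfy] with x k1 k2 k3 a b hab hseg
    refine ⟨k3 a b hab hseg, ?_⟩
    obtain ⟨n, hn⟩ := KK_exh U ((fun t : ℝ => (⟨x, t⟩ : ℂ)) '' Icc a b) hU
      (isCompact_Icc.image (hcy x)) (by
        rintro _ ⟨t, ht, rfl⟩
        exact hseg t ht)
    have hn' : ∀ t ∈ Icc a b, (⟨x, t⟩ : ℂ) ∈ KK U n := fun t ht => hn ⟨t, ht, rfl⟩
    refine pass (fun t => f ⟨x, t⟩) (fun t => fy ⟨x, t⟩) (fun j t => F n j ⟨x, t⟩)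
      (fun j t => Fy n j ⟨x, t⟩) _ a b hab (k3 a b hab hseg)
      (fun j => k1 n j a b hab fun t ht => hKV n j (hn' t ht))
      (fun j t ht => hval n j _ (hn' t ht)) (fun j t ht => ?_) (fun j t => ?_)
      (k2 n).1 (k2 n).2
    · rw [indicator_of_mem (hn' t ht)]
    · exact indicator_nonneg (fun _ _ => abs_nonneg _) _

end Pool.Agent.DMB
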