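import Pool.Agent.DMB.Defs

/-!
Exact statements of the modules.
-/

namespace Pool.Agent.DMB

open MeasureTheory Set Metric Filter Topology
open scoped ENNReal

/-- a labelled tuple as a matrix -/
def mt {K n : ℕ} (a : Tup K n) : Mat K n := fun i l => a i l

/-- the mean of a labelled tuple -/
noncomputable def mnE {K n : ℕ} (a : Tup K n) : E n := (K : ℝ)⁻¹ • ∑ i, a i

/-- `S` = sorted sheets minus their mean -/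
noncomputable def SS {K n : ℕ} (u : ℂ → Tup K n) (z : ℂ) : Mat K n := sh (xi (u z)) (mn (xi (u z)))

/-! ### A. tuples -/

def Stmt_MET : Prop := ∀ (K n : ℕ) (a b c : Tup K n),
  0 ≤ dG a b ∧ dG a b = dG b a ∧ dG a c ≤ dG a b + dG b c ∧ (dG a b = 0 ↔ Same a b) ∧
  (∃ σ : Equiv.Perm (Fin K), dG a b = Real.sqrt (sqd a (b ∘ σ))) ∧
  (∀ σ : Equiv.Perm (Fin K), dG a b ≤ Real.sqrt (sqd a (b ∘ σ))) ∧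
  (∀ a' b' : Tup K n, Same a a' → Same b b' → dG a b = dG a' b')

def Stmt_XIL : Prop := ∀ (K n : ℕ) (a b : Tup K n),
  nsq (xi a - xi b) ≤ dG a b ^ 2 ∧ (Same a b → xi a = xi b) ∧
  (∀ l, ∑ i, xi a i l = ∑ i, a i l) ∧ nsq (xi a) = ∑ i, ‖a i‖ ^ 2 ∧
  (∀ c : E n, (∀ i, a i = c) ↔ ∀ i l, xi a i l = c l)

def Stmt_ISO : Prop := ∀ (K n : ℕ) (a : Tup K n), ∃ δ > 0, ∀ b : Tup K n,
  ((∀ i, ‖a i - b i‖ < δ) → nsq (xi a - xi b) = sqd a b ∧ dG a b ^ 2 = sqd a b) ∧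
  (dG a b < δ → nsq (xi a - xi b) = dG a b ^ 2)

def Stmt_AFF : Prop := ∀ (K n : ℕ) (a : Tup K n),
  (∀ (c : ℝ) (b : E n), 0 ≤ c → xi (fun i => c • a i + b) = fun i l => c * xi a i l + b l) ∧
  (xi (fun i => -(a i)) = fun i l => -(xi a (Fin.rev i) l))

def Stmt_COU : Prop := ∀ (K n : ℕ) (u : ℝ → Tup K n) (g : ℝ → ℝ) (a b : ℝ), a ≤ b →
  (∀ t ∈ Icc a b, Tendsto (fun s => dG (u s) (u t)) (𝓝[Icc a b] t) (𝓝 0)) →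
  IntervalIntegrable g volume a b →
  (∀ s ∈ Icc a b, ∀ t ∈ Icc a b, s ≤ t →
    Real.sqrt (nsq (xi (u t) - xi (u s))) ≤ ∫ x in s..t, g x) →
  dG (u a) (u b) ≤ ∫ x in a..b, g x

def Stmt_SEL : Prop := ∀ (K n : ℕ) (u : ℝ → Tup K n) (H : ℝ → ℝ) (a b : ℝ), a ≤ b →
  (∀ s ∈ Icc a b, ∀ t ∈ Icc a b, s ≤ t → dG (u s) (u t) ≤ H t - H s) →
  ∃ f : ℝ → Tup K n, (∀ t ∈ Icc a b, Same (f t) (u t)) ∧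
    ∀ s ∈ Icc a b, ∀ t ∈ Icc a b, s ≤ t → Real.sqrt (sqd (f s) (f t)) ≤ H t - H s

def Stmt_CAT : Prop := ∀ (K L n : ℕ) (a : Tup K n) (b : Tup L n),
  (∀ (a' : Tup K n) (b' : Tup L n),
    dG (Fin.append a b) (Fin.append a' b') ^ 2 ≤ dG a a' ^ 2 + dG b b' ^ 2) ∧
  ∃ δ > 0, ∀ (a' : Tup K n) (b' : Tup L n), dG a a' < δ → dG b b' < δ →
    nsq (xi (Fin.append a b) - xi (Fin.append a' b')) = nsq (xi a - xi a') + nsq (xi b - xi b') ∧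
    dG (Fin.append a b) (Fin.append a' b') ^ 2 = dG a a' ^ 2 + dG b b' ^ 2

def Stmt_SYB : Prop := ∀ n : ℕ,
  (∀ (Q : ℕ) (a b : Tup Q n), GG (tup a) (tup b) = dG a b ∧ (tup a = tup b ↔ Same a b)) ∧
  (∀ (Q : ℕ) (S : AQ n Q), ∃ a : Tup Q n, tup a = S) ∧
  (∀ (Q : ℕ) (a : Tup Q n) (c : E n),
    (c ::ₛ (tup a : AQ n Q) : AQ n (Q + 1)) = tup (Fin.append a (fun _ : Fin 1 => c))) ∧
  (∀ (Q : ℕ) (a b : Tup Q n), Same a b ↔ ms a = ms b) ∧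
  (∀ (K L : ℕ) (a : Tup K n) (b : Tup L n), ms (Fin.append a b) = ms a + ms b)

/-! ### B. gradients along lines -/

def Stmt_GAL : Prop := ∀ U : Set ℂ, IsOpen U →
  (∀ (V : Set ℂ) (f fx fy : ℂ → ℝ), IsOpen V → V ⊆ U → HasGrad U f fx fy → HasGrad V f fx fy) ∧
  (∀ c : ℝ, HasGrad U (fun _ => c) (fun _ => 0) (fun _ => 0)) ∧
  (∀ f fx fy g gx gy : ℂ → ℝ, HasGrad U f fx fy → HasGrad U g gx gy →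
    HasGrad U (fun z => f z + g z) (fun z => fx z + gx z) (fun z => fy z + gy z)) ∧
  (∀ (c : ℝ) (f fx fy : ℂ → ℝ), HasGrad U f fx fy →
    HasGrad U (fun z => c * f z) (fun z => c * fx z) (fun z => c * fy z)) ∧
  (∀ f fx fy g gx gy : ℂ → ℝ, HasGrad U f fx fy → (∀ z ∈ U, g z = f z) →
    gx =ᵐ[volume.restrict U] fx → gy =ᵐ[volume.restrict U] fy → HasGrad U g gx gy)

def Stmt_GMU : Prop := ∀ (U : Set ℂ) (f fx fy g gx gy : ℂ → ℝ), IsOpen U →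
  HasGrad U f fx fy → HasGrad U g gx gy →
  HasGrad U (fun z => f z * g z) (fun z => fx z * g z + f z * gx z)
    (fun z => fy z * g z + f z * gy z)

def Stmt_GCH : Prop := ∀ (U : Set ℂ) (f fx fy : ℂ → ℝ) (V : Set ℝ) (g : ℝ → ℝ), IsOpen U →
  IsOpen V → ContDiffOn ℝ 1 g V → (∀ z ∈ U, f z ∈ V) → HasGrad U f fx fy →
  HasGrad U (fun z => g (f z)) (fun z => deriv g (f z) * fx z) (fun z => deriv g (f z) * fy z)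

def Stmt_GC1 : Prop := ∀ (U : Set ℂ) (f : ℂ → ℝ), IsOpen U → ContDiffOn ℝ 1 f U →
  HasGrad U f (fun z => fderiv ℝ f z 1) (fun z => fderiv ℝ f z Complex.I)

def Stmt_GUN : Prop := ∀ (U : Set ℂ) (f fx fy gx gy : ℂ → ℝ), IsOpen U →
  HasGrad U f fx fy → HasGrad U f gx gy →
  fx =ᵐ[volume.restrict U] gx ∧ fy =ᵐ[volume.restrict U] gy

def Stmt_GIB : Prop := ∀ (U C : Set ℂ) (f fx fy : ℂ → ℝ), IsOpen U → C ⊆ U → IsCompact C →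
  HasGrad U f fx fy → (∀ z ∈ U \ C, f z = 0) →
  IntegrableOn fx U ∧ IntegrableOn fy U ∧ IntegrableOn (fun z => fx z ^ 2 + fy z ^ 2) U ∧
  ∫ z in U, fx z = 0 ∧ ∫ z in U, fy z = 0 ∧ ∀ᵐ z : ℂ, z ∈ U \ C → fx z = 0 ∧ fy z = 0

open scoped Convolution in
/-- mollification converges in `L²` -/
def Stmt_MOL : Prop := ∀ g : ℂ → ℝ, AEStronglyMeasurable g volume →
  Integrable (fun z => g z ^ 2) → ∀ ε > 0, ∃ δ > 0, ∀ φ : ContDiffBump (0 : ℂ), φ.rOut < δ →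
    Integrable (fun z =>
      ((φ.normed volume ⋆[ContinuousLinearMap.lsmul ℝ ℝ, volume] g) z - g z) ^ 2) ∧
    ∫ z, ((φ.normed volume ⋆[ContinuousLinearMap.lsmul ℝ ℝ, volume] g) z - g z) ^ 2 ≤ ε

def Stmt_GMO : Prop := ∀ (U C : Set ℂ) (f fx fy : ℂ → ℝ), IsOpen U → C ⊆ U → IsCompact C →
  HasGrad U f fx fy → ∀ ε > 0, ∃ F : ℂ → ℝ, ContDiff ℝ (⊤ : ℕ∞) F ∧
    (∀ z ∈ C, |F z - f z| ≤ ε) ∧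
    ∫ z in C, ((fderiv ℝ F z 1 - fx z) ^ 2 + (fderiv ℝ F z Complex.I - fy z) ^ 2) ≤ ε

def Stmt_GCL : Prop := ∀ (U : Set ℂ) (f fx fy : ℂ → ℝ), IsOpen U → ContinuousOn f U →
  AEStronglyMeasurable fx (volume.restrict U) → AEStronglyMeasurable fy (volume.restrict U) →
  (∀ C : Set ℂ, C ⊆ U → IsCompact C → IntegrableOn (fun z => fx z ^ 2 + fy z ^ 2) C) →
  (∀ C : Set ℂ, C ⊆ U → IsCompact C → ∀ ε > 0, ∃ (V : Set ℂ) (F Fx Fy : ℂ → ℝ), IsOpen V ∧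
    C ⊆ V ∧ V ⊆ U ∧ HasGrad V F Fx Fy ∧ (∀ z ∈ C, |F z - f z| ≤ ε) ∧
    ∫ z in C, ((Fx z - fx z) ^ 2 + (Fy z - fy z) ^ 2) ≤ ε) →
  HasGrad U f fx fy

def Stmt_GCO : Prop := ∀ (U W : Set ℂ) (Φ : ℂ → ℂ) (f fx fy : ℂ → ℝ), IsOpen U → IsOpen W →
  ContDiffOn ℝ 1 Φ W → MapsTo Φ W U → InjOn Φ W → (∀ z ∈ W, jac Φ z ≠ 0) →
  HasGrad U f fx fy →
  HasGrad W (fun z => f (Φ z)) (fun z => fx (Φ z) * (px Φ z).re + fy (Φ z) * (px Φ z).im)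
    (fun z => fx (Φ z) * (py Φ z).re + fy (Φ z) * (py Φ z).im)

def Stmt_GGL : Prop := ∀ (U Z : Set ℂ) (f fx fy : ℂ → ℝ), IsOpen U → IsClosed Z →
  (∀ᵐ y : ℝ, {t : ℝ | (⟨t, y⟩ : ℂ) ∈ Z}.Finite) →
  (∀ᵐ x : ℝ, {t : ℝ | (⟨x, t⟩ : ℂ) ∈ Z}.Finite) → ContinuousOn f U →
  (∀ C : Set ℂ, C ⊆ U → IsCompact C → IntegrableOn (fun z => fx z ^ 2 + fy z ^ 2) C) →
  HasGrad (U \ Z) f fx fy → HasGrad U f fx fy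

def Stmt_GLO : Prop := ∀ (U : Set ℂ) (f fx fy : ℂ → ℝ), IsOpen U →
  (∀ z ∈ U, ∃ V : Set ℂ, IsOpen V ∧ z ∈ V ∧ V ⊆ U ∧ HasGrad V f fx fy) → HasGrad U f fx fy

def Stmt_GAB : Prop := ∀ (K n : ℕ) (U : Set ℂ) (s : ℂ → Mat K n) (h1 h2 : ℂ → ℝ≥0∞), IsOpen U →
  (∀ i l, ContinuousOn (fun z => s z i l) U) → Measurable h1 → Measurable h2 →
  (∀ C : Set ℂ, C ⊆ U → IsCompact C → ∫⁻ z in C, (h1 z ^ 2 + h2 z ^ 2) < ⊤) →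
  (∀ᵐ y : ℝ, ∀ a b : ℝ, a ≤ b → (∀ t ∈ Icc a b, (⟨t, y⟩ : ℂ) ∈ U) →
    ENNReal.ofReal (Real.sqrt (nsq (s ⟨b, y⟩ - s ⟨a, y⟩))) ≤ ∫⁻ t in Icc a b, h1 ⟨t, y⟩) →
  (∀ᵐ x : ℝ, ∀ a b : ℝ, a ≤ b → (∀ t ∈ Icc a b, (⟨x, t⟩ : ℂ) ∈ U) →
    ENNReal.ofReal (Real.sqrt (nsq (s ⟨x, b⟩ - s ⟨x, a⟩))) ≤ ∫⁻ t in Icc a b, h2 ⟨x, t⟩) →
  ∃ X Y : ℂ → Mat K n, HasGradV U s X Y ∧ ∀ᵐ z : ℂ, z ∈ U →
    ENNReal.ofReal (nsq (X z)) ≤ h1 z ^ 2 ∧ ENNReal.ofReal (nsq (Y z)) ≤ h2 z ^ 2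

def Stmt_JCV : Prop := ∀ (W : Set ℂ) (Φ : ℂ → ℂ), IsOpen W → ContDiffOn ℝ 1 Φ W → InjOn Φ W →
  (∀ z ∈ W, 0 < jac Φ z) → ∀ V : Set ℂ, V ⊆ W → MeasurableSet V →
  (∀ g : ℂ → ℝ≥0∞, ∫⁻ w in Φ '' V, g w = ∫⁻ z in V, ENNReal.ofReal (jac Φ z) * g (Φ z)) ∧
  (∀ g : ℂ → ℝ, ∫ w in Φ '' V, g w = ∫ z in V, jac Φ z * g (Φ z)) ∧
  (∀ g : ℂ → ℝ, IntegrableOn g (Φ '' V) ↔ IntegrableOn (fun z => jac Φ z * g (Φ z)) V)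

/-! ### C. energies of multivalued functions -/

/-- horizontal line bound -/
def LBH (U : Set ℂ) (f : ℂ → ℝ) (h : ℂ → ℝ≥0∞) : Prop :=
  ∀ᵐ y : ℝ, ∀ a b : ℝ, a ≤ b → (∀ t ∈ Icc a b, (⟨t, y⟩ : ℂ) ∈ U) →
    ENNReal.ofReal |f ⟨b, y⟩ - f ⟨a, y⟩| ≤ ∫⁻ t in Icc a b, h ⟨t, y⟩

/-- vertical line bound -/
def LBV (U : Set ℂ) (f : ℂ → ℝ) (h : ℂ → ℝ≥0∞) : Prop :=
  ∀ᵐ x : ℝ, ∀ a b : ℝ, a ≤ b → (∀ t ∈ Icc a b, (⟨x, t⟩ : ℂ) ∈ U) →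
    ENNReal.ofReal |f ⟨x, b⟩ - f ⟨x, a⟩| ≤ ∫⁻ t in Icc a b, h ⟨x, t⟩

def Stmt_ENA : Prop := ∀ (U : Set ℂ) (f : ℂ → ℝ) (h : ℂ → ℝ≥0∞), IsOpen U → ContinuousOn f U →
  Measurable h → (∀ C : Set ℂ, C ⊆ U → IsCompact C → ∫⁻ z in C, h z < ⊤) →
  (DerivBound U 1 f h → LBH U f h) ∧ (DerivBound U Complex.I f h → LBV U f h)

def Stmt_ENB : Prop := ∀ (U : Set ℂ) (f : ℂ → ℝ) (h : ℂ → ℝ≥0∞), IsOpen U → ContinuousOn f U →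
  Measurable h → (∀ C : Set ℂ, C ⊆ U → IsCompact C → ∫⁻ z in C, h z < ⊤) →
  (LBH U f h → DerivBound U 1 f h) ∧ (LBV U f h → DerivBound U Complex.I f h)

def Stmt_ENC : Prop := ∀ (n Q : ℕ) (U : Set ℂ) (g : ℂ → AQ n Q) (u : ℂ → Tup Q n), IsOpen U →
  ContQ U g → (∀ z ∈ U, tup (u z) = g z) → energy U g = en U u

def Stmt_END : Prop := ∀ (K n : ℕ) (U : Set ℂ) (u : ℂ → Tup K n), IsOpen U →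
  (∀ X Y : ℂ → Mat K n, HasGradV U (fun z => xi (u z)) X Y →
    en U u = ∫⁻ z in U, ENNReal.ofReal (ed X Y z)) ∧
  (en U u < ⊤ → ∃ X Y : ℂ → Mat K n, HasGradV U (fun z => xi (u z)) X Y ∧
    IntegrableOn (ed X Y) U ∧ en U u = ENNReal.ofReal (∫ z in U, ed X Y z)) ∧
  (∀ (K' : ℕ) (v : ℂ → Tup K' n), (∀ z ∈ U, ms (u z) = ms (v z)) → en U u = en U v)

def Stmt_ENE : Prop := ∀ (K L n : ℕ) (U : Set ℂ) (u : ℂ → Tup K n) (v : ℂ → Tup L n), IsOpen U →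
  ContG U u → ContG U v →
  (∀ (X Y : ℂ → Mat K n) (X' Y' : ℂ → Mat L n), HasGradV U (fun z => xi (u z)) X Y →
    HasGradV U (fun z => xi (v z)) X' Y' → ∃ X'' Y'' : ℂ → Mat (K + L) n,
      HasGradV U (fun z => xi (Fin.append (u z) (v z))) X'' Y'' ∧ ∀ᵐ z : ℂ, z ∈ U →
        nsq (X'' z) = nsq (X z) + nsq (X' z) ∧ nsq (Y'' z) = nsq (Y z) + nsq (Y' z)) ∧
  (∀ X'' Y'' : ℂ → Mat (K + L) n, HasGradV U (fun z => xi (Fin.append (u z) (v z))) X'' Y'' →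
    ∃ (X Y : ℂ → Mat K n) (X' Y' : ℂ → Mat L n), HasGradV U (fun z => xi (u z)) X Y ∧
      HasGradV U (fun z => xi (v z)) X' Y') ∧
  en U (fun z => Fin.append (u z) (v z)) = en U u + en U v

def Stmt_ENF : Prop := ∀ (K n : ℕ) (U W C : Set ℂ) (u v : ℂ → Tup K n), IsOpen U → IsOpen W →
  W ⊆ U → C ⊆ W → IsOpen (U \ C) → (∀ z ∈ U \ C, Same (v z) (u z)) → en U u < ⊤ →
  en W v < ⊤ →
  en W u < ⊤ ∧ en U v < ⊤ ∧ en U v + en W u = en U u + en W v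

def Stmt_TUP : Prop := ∀ (K n : ℕ) (U : Set ℂ) (v : ℂ → Tup K n) (X Y : ℂ → Mat K n), IsOpen U →
  HasGradV U (fun z => mt (v z)) X Y → ContG U v ∧
  ∃ X' Y' : ℂ → Mat K n, HasGradV U (fun z => xi (v z)) X' Y' ∧ ∀ᵐ z : ℂ, z ∈ U →
    nsq (X' z) = nsq (X z) ∧ nsq (Y' z) = nsq (Y z) ∧ sm (X' z) = sm (X z) ∧
    sm (Y' z) = sm (Y z)

/-! ### D. systems -/

def Stmt_IM1 : Prop := ∀ (k d n : ℕ) (Om Op Omi ga : Set ℂ) (φ : ℂ → E n)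
  (up : ℂ → Tup (k + d) n) (um : ℂ → Tup k n), IsSplit Om Op Omi ga →
  SysMin k d n Om Op Omi ga φ up um → IntMin Op up ∧ IntMin Omi um

def Stmt_IM2 : Prop := ∀ (K n : ℕ) (U H : Set ℂ) (u : ℂ → Tup K n), IsOpen U → IsOpen H →
  H ⊆ U → IntMin U u → IntMin H u

def Stmt_MSB : Prop := ∀ (k n : ℕ) (Om Op Omi ga : Set ℂ) (φ : ℂ → E n)
  (up : ℂ → Tup (k + 0) n) (um : ℂ → Tup k n), 0 < k → IsSplit Om Op Omi ga →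
  SysMin k 0 n Om Op Omi ga φ up um →
  SysMin k 0 n Om Op Omi ga (fun _ => 0) (fun z i => up z i - mnE (up z))
    (fun z i => um z i - mnE (um z))

def Stmt_CL1 : Prop := ∀ (K n : ℕ) (A : Set ℂ) (u : ℂ → Tup K n) (p : ℂ) (P : E n) (δ : ℝ),
  ContG A u → p ∈ A → 0 < δ → (∀ i, u p i = P ∨ 3 * δ < ‖u p i - P‖) →
  ∃ ρ > 0, ∃ (K1 K2 : ℕ) (u1 : ℂ → Tup K1 n) (u2 : ℂ → Tup K2 n), K1 + K2 = K ∧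
    K1 = Nat.card {i // u p i = P} ∧
    ContG (A ∩ ball p ρ) u1 ∧ ContG (A ∩ ball p ρ) u2 ∧ ∀ z ∈ A ∩ ball p ρ,
      ms (u z) = ms (u1 z) + ms (u2 z) ∧ (∀ i, ‖u1 z i - P‖ < δ) ∧
      (∀ j, 2 * δ < ‖u2 z j - P‖)

/-- the cluster `1` of a decomposed minimising system is minimising -/
def Stmt_CLM : Prop := ∀ (k d k1 d1 k2 d2 n : ℕ) (Om Op Omi ga B : Set ℂ) (φ : ℂ → E n)
  (up : ℂ → Tup (k + d) n) (um : ℂ → Tup k n) (up1 : ℂ → Tup (k1 + d1) n)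
  (um1 : ℂ → Tup k1 n) (up2 : ℂ → Tup (k2 + d2) n) (um2 : ℂ → Tup k2 n),
  k1 + k2 = k → d1 + d2 = d → IsSplit Om Op Omi ga → SysMin k d n Om Op Omi ga φ up um →
  IsOpen B → B ⊆ Om → ContG ((Op ∪ ga) ∩ B) up1 → ContG ((Omi ∪ ga) ∩ B) um1 →
  ContG ((Op ∪ ga) ∩ B) up2 → ContG ((Omi ∪ ga) ∩ B) um2 →
  (∀ z ∈ B ∩ (Op ∪ ga), ms (up z) = ms (up1 z) + ms (up2 z)) →
  (∀ z ∈ B ∩ (Omi ∪ ga), ms (um z) = ms (um1 z) + ms (um2 z)) →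
  (∀ z ∈ B ∩ ga, Same (up1 z) (Fin.append (um1 z) (fun _ : Fin d1 => φ z))) →
  (∀ z ∈ B ∩ ga, Same (up2 z) (Fin.append (um2 z) (fun _ : Fin d2 => φ z))) →
  SysMin k1 d1 n B (Op ∩ B) (Omi ∩ B) (ga ∩ B) φ up1 um1

def Stmt_CLU : Prop := ∀ (k d n : ℕ) (Om Op Omi ga : Set ℂ) (φ : ℂ → E n)
  (up : ℂ → Tup (k + d) n) (um : ℂ → Tup k n) (p : ℂ), d ≤ 1 → IsSplit Om Op Omi ga →
  ContinuousOn φ ga → SysMin k d n Om Op Omi ga φ up um → p ∈ ga →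
  ¬ (∀ i j, up p i = up p j) →
  ∃ ρ > 0, ball p ρ ⊆ Om ∧ ∃ k1 d1 k2 d2 : ℕ, k1 + k2 = k ∧ d1 + d2 = d ∧
    2 * k1 + d1 < 2 * k + d ∧ 2 * k2 + d2 < 2 * k + d ∧
    ∃ (up1 : ℂ → Tup (k1 + d1) n) (um1 : ℂ → Tup k1 n) (up2 : ℂ → Tup (k2 + d2) n)
      (um2 : ℂ → Tup k2 n),
      SysMin k1 d1 n (ball p ρ) (Op ∩ ball p ρ) (Omi ∩ ball p ρ) (ga ∩ ball p ρ) φ up1 um1 ∧
      SysMin k2 d2 n (ball p ρ) (Op ∩ ball p ρ) (Omi ∩ ball p ρ) (ga ∩ ball p ρ) φ up2 um2 ∧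
      (∀ z ∈ ball p ρ ∩ (Op ∪ ga), ms (up z) = ms (up1 z) + ms (up2 z) ∧
        ∀ i j, up1 z i ≠ up2 z j) ∧
      (∀ z ∈ ball p ρ ∩ (Omi ∪ ga), ms (um z) = ms (um1 z) + ms (um2 z) ∧
        ∀ i j, um1 z i ≠ um2 z j)

def Stmt_RGL : Prop := ∀ (k d n : ℕ) (Om Op Omi ga : Set ℂ) (φ : ℂ → E n)
  (up : ℂ → Tup (k + d) n) (um : ℂ → Tup k n) (z : ℂ), 0 < k → IsSplit Om Op Omi ga →
  Sys k d n Op Omi ga φ up um → z ∈ ga → LC Op Omi up um z → Reg k d n Op Omi ga up um z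

def Stmt_RG0 : Prop := ∀ (d n : ℕ) (Om Op Omi ga : Set ℂ) (φ : ℂ → E n)
  (up : ℂ → Tup (0 + d) n) (um : ℂ → Tup 0 n) (z : ℂ), d ≤ 1 → IsSplit Om Op Omi ga →
  Sys 0 d n Op Omi ga φ up um → z ∈ ga → Reg 0 d n Op Omi ga up um z

def Stmt_RGC : Prop := ∀ (k d k1 d1 k2 d2 n : ℕ) (Om Op Omi ga B : Set ℂ)
  (up : ℂ → Tup (k + d) n) (um : ℂ → Tup k n) (up1 : ℂ → Tup (k1 + d1) n)
  (um1 : ℂ → Tup k1 n) (up2 : ℂ → Tup (k2 + d2) n) (um2 : ℂ → Tup k2 n) (p : ℂ),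
  k1 + k2 = k → d1 + d2 = d → IsSplit Om Op Omi ga → IsOpen B → p ∈ B ∩ ga →
  (∀ z ∈ B ∩ (Op ∪ ga), ms (up z) = ms (up1 z) + ms (up2 z) ∧ ∀ i j, up1 z i ≠ up2 z j) →
  (∀ z ∈ B ∩ (Omi ∪ ga), ms (um z) = ms (um1 z) + ms (um2 z) ∧ ∀ i j, um1 z i ≠ um2 z j) →
  Reg k1 d1 n (Op ∩ B) (Omi ∩ B) (ga ∩ B) up1 um1 p →
  Reg k2 d2 n (Op ∩ B) (Omi ∩ B) (ga ∩ B) up2 um2 p →
  Reg k d n Op Omi ga up um p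

def Stmt_REF : Prop := ∀ (K n : ℕ) (H : Set ℂ) (u : ℂ → Tup K n), IsOpen H →
  (IntMin H u → IntMin {z | starRingEnd ℂ z ∈ H} (fun z => u (starRingEnd ℂ z))) ∧
  (∀ (s X Y : ℂ → Mat K n), HasGradV H s X Y →
    HasGradV {z | starRingEnd ℂ z ∈ H} (fun z => s (starRingEnd ℂ z))
      (fun z => X (starRingEnd ℂ z)) (fun z => -(Y (starRingEnd ℂ z)))) ∧
  (∀ A : Set ℂ, ContG A u →
    ContG {z | starRingEnd ℂ z ∈ A} (fun z => u (starRingEnd ℂ z))) ∧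
  (∀ (g : ℂ → ℝ≥0∞) (A : Set ℂ), MeasurableSet A →
    ∫⁻ z in {z | starRingEnd ℂ z ∈ A}, g (starRingEnd ℂ z) = ∫⁻ z in A, g z)

/-! ### E. charts and flattening -/

def Stmt_CHA : Prop := ∀ (U : Set ℂ) (f : ℂ → ℝ) (p : ℂ), IsOpen U → p ∈ U →
  ContDiffOn ℝ 3 f U → f p = 0 → fderiv ℝ f p ≠ 0 →
  ∃ (c : ℝ → ℂ) (ρ : ℝ), 0 < ρ ∧ ContDiffOn ℝ 3 c (Ioo (-ρ) ρ) ∧ c 0 = p ∧
    ∀ t ∈ Ioo (-ρ) ρ, c t ∈ U ∧ f (c t) = 0 ∧ deriv c t ≠ 0 ∧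
      0 < fderiv ℝ f (c t) (Complex.I * deriv c t)

def Stmt_CHB : Prop := ∀ (Op Omi ga U : Set ℂ) (f : ℂ → ℝ) (c : ℝ → ℂ) (ρ : ℝ), IsOpen U →
  ContDiffOn ℝ 3 f U →
  (∀ z ∈ U, (z ∈ Op ↔ 0 < f z) ∧ (z ∈ Omi ↔ f z < 0) ∧ (z ∈ ga ↔ f z = 0)) → 0 < ρ →
  ContDiffOn ℝ 3 c (Ioo (-ρ) ρ) →
  (∀ t ∈ Ioo (-ρ) ρ, c t ∈ U ∧ f (c t) = 0 ∧ deriv c t ≠ 0 ∧
    0 < fderiv ℝ f (c t) (Complex.I * deriv c t)) →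
  ∃ (Φ : ℂ → ℂ) (R C : ℝ), R < ρ ∧ Chart Op Omi ga Φ (deriv c) R C ∧
    ∀ t : ℝ, |t| < R → Φ t = c t

def Stmt_CHC : Prop := ∀ (n : ℕ) (φ ψ : ℂ → E n) (U : Set ℂ) (c : ℝ → ℂ) (ρ R : ℝ) (Φ : ℂ → ℂ),
  IsOpen U → ContDiffOn ℝ 3 ψ U → 0 < R → R < ρ → ContDiffOn ℝ 3 c (Ioo (-ρ) ρ) →
  (∀ t ∈ Ioo (-ρ) ρ, c t ∈ U) → (∀ t : ℝ, |t| < R → φ (Φ t) = ψ (c t)) →
  ∃ (C : ℝ) (η ηx ηy : ℂ → Fin n → ℝ), ChartPhi φ Φ R C η ηx ηy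

def Stmt_HCH : Prop := ∀ (Op Omi ga : Set ℂ) (Φ : ℂ → ℂ) (c1 : ℝ → ℂ) (R C x0 ρ : ℝ),
  Chart Op Omi ga Φ c1 R C → 0 < ρ → |x0| + ρ ≤ R →
  HChart (fun z => Φ (z + x0)) (fun t => c1 (t + x0)) ρ C ∧
  HChart (fun z => starRingEnd ℂ (Φ (starRingEnd ℂ z + x0)))
    (fun t => starRingEnd ℂ (c1 (t + x0))) ρ C

def Stmt_FLA : Prop := ∀ (Op Omi ga : Set ℂ) (Φ : ℂ → ℂ) (c1 : ℝ → ℂ) (R C : ℝ),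
  Chart Op Omi ga Φ c1 R C → (∀ j, ContinuousOn (fun z => cA Φ z j) (ball 0 R)) ∧
  ∃ C' > 0, ∀ z ∈ ball (0 : ℂ) R,
    |cA Φ z 0 - 1| ≤ C' * z.im ^ 2 ∧ |cA Φ z 1| ≤ C' * z.im ^ 2 ∧ |cA Φ z 2 - 1| ≤ C' * z.im ^ 2

def Stmt_FLB : Prop := ∀ (K n : ℕ) (Op Omi ga : Set ℂ) (Φ : ℂ → ℂ) (c1 : ℝ → ℂ) (R C : ℝ),
  Chart Op Omi ga Φ c1 R C → ∀ V : Set ℂ, V ⊆ ball 0 R → IsOpen V → ∀ s : ℂ → Mat K n,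
  (∀ X Y : ℂ → Mat K n, HasGradV (Φ '' V) s X Y → ∃ X' Y' : ℂ → Mat K n,
    HasGradV V (fun z => s (Φ z)) X' Y' ∧
    ∀ z ∈ V, jac Φ z * ed X Y (Φ z) = qd (cA Φ z) (X' z) (Y' z)) ∧
  (∀ X' Y' : ℂ → Mat K n, HasGradV V (fun z => s (Φ z)) X' Y' → ∃ X Y : ℂ → Mat K n,
    HasGradV (Φ '' V) s X Y ∧
    ∀ z ∈ V, jac Φ z * ed X Y (Φ z) = qd (cA Φ z) (X' z) (Y' z))

/-- the flat data come from the system in the chart -/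
def FRel {k d n : ℕ} (F : Flat k d n) (Φ : ℂ → ℂ) (up : ℂ → Tup (k + d) n)
    (um : ℂ → Tup k n) : Prop :=
  ∀ z ∈ HDc 0 F.R, (∀ i j, F.p z i j = up (Φ z) i j - F.η z j) ∧
    (∀ i j, F.l z i j = F.η z j - um (Φ (starRingEnd ℂ z)) i j)

/-- the coefficients of `F` are those of the chart -/
def FCoef {k d n : ℕ} (F : Flat k d n) (Φ : ℂ → ℂ) (η ηx ηy : ℂ → Fin n → ℝ) : Prop :=
  F.η = η ∧ F.ηx = ηx ∧ F.ηy = ηy ∧ ∀ z ∈ HD 0 F.R, F.A z = cA Φ z ∧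
    F.B z = ![cA Φ (starRingEnd ℂ z) 0, -(cA Φ (starRingEnd ℂ z) 1), cA Φ (starRingEnd ℂ z) 2]

def Stmt_FL1 : Prop := ∀ (k d n : ℕ) (Op Omi ga : Set ℂ) (φ : ℂ → E n)
  (up : ℂ → Tup (k + d) n) (um : ℂ → Tup k n) (Φ : ℂ → ℂ) (c1 : ℝ → ℂ) (R C C' : ℝ)
  (η ηx ηy : ℂ → Fin n → ℝ), IsOpen Op → IsOpen Omi → Sys k d n Op Omi ga φ up um →
  Chart Op Omi ga Φ c1 R C → ChartPhi φ Φ R C' η ηx ηy →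
  ∃ F : Flat k d n, F.Ok0 ∧ F.R < R ∧ FCoef F Φ η ηx ηy ∧ FRel F Φ up um

def Stmt_FL2 : Prop := ∀ (k d n : ℕ) (Om Op Omi ga : Set ℂ) (φ : ℂ → E n)
  (up : ℂ → Tup (k + d) n) (um : ℂ → Tup k n) (Φ : ℂ → ℂ) (c1 : ℝ → ℂ) (R C C' : ℝ)
  (η ηx ηy : ℂ → Fin n → ℝ) (F : Flat k d n), IsSplit Om Op Omi ga →
  SysMin k d n Om Op Omi ga φ up um → Chart Op Omi ga Φ c1 R C →
  ChartPhi φ Φ R C' η ηx ηy → F.Ok0 → F.R < R → FCoef F Φ η ηx ηy → FRel F Φ up um → F.Ok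

/-! ### F. decay at density points -/

def Stmt_POL : Prop := ∀ (q R : ℝ) (g : ℂ → ℝ), 0 < R → IntegrableOn g (HD q R) →
  (∀ᵐ ρ : ℝ, ρ ∈ Ioo 0 R → IntervalIntegrable (fun θ => g (cm q ρ θ)) volume 0 Real.pi) ∧
  IntervalIntegrable (fun ρ => ρ * ∫ θ in (0 : ℝ)..Real.pi, g (cm q ρ θ)) volume 0 R ∧
  ∀ r ∈ Icc 0 R, ∫ z in HD q r, g z =
    ∫ ρ in (0 : ℝ)..r, ρ * ∫ θ in (0 : ℝ)..Real.pi, g (cm q ρ θ)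

def Stmt_SLC : Prop := ∀ (q R : ℝ) (f fx fy : ℂ → ℝ), 0 < R → ContinuousOn f (HDc q R) →
  HasGrad (HD q R) f fx fy → IntegrableOn (fun z => fx z ^ 2 + fy z ^ 2) (HD q R) →
  ∀ᵐ ρ : ℝ, ρ ∈ Ioo 0 R →
    IntervalIntegrable (fun θ => fx (cm q ρ θ)) volume 0 Real.pi ∧
    IntervalIntegrable (fun θ => fy (cm q ρ θ)) volume 0 Real.pi ∧
    IntervalIntegrable (fun θ => fx (cm q ρ θ) ^ 2 + fy (cm q ρ θ) ^ 2) volume 0 Real.pi ∧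
    ∀ θ₁ ∈ Icc 0 Real.pi, ∀ θ₂ ∈ Icc 0 Real.pi, f (cm q ρ θ₂) - f (cm q ρ θ₁) =
      ∫ θ in θ₁..θ₂, ρ * (-(Real.sin θ) * fx (cm q ρ θ) + Real.cos θ * fy (cm q ρ θ))

/-- the cone over the boundary values `f` with vertex value `A` -/
noncomputable def cone (q r A : ℝ) (f : ℝ → ℝ) (z : ℂ) : ℝ :=
  (‖z - q‖ / r) * f (Complex.arg (z - q)) + (1 - ‖z - q‖ / r) * A

def Stmt_CON : Prop := ∀ (q r A : ℝ) (f f' : ℝ → ℝ), 0 < r →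
  AEStronglyMeasurable f' (volume.restrict (Ioc 0 Real.pi)) →
  IntervalIntegrable (fun θ => f' θ ^ 2) volume 0 Real.pi →
  (∀ θ ∈ Icc 0 Real.pi, f θ = f 0 + ∫ t in (0 : ℝ)..θ, f' t) →
  ContinuousOn (cone q r A f) {z | 0 ≤ z.im ∧ ‖z - q‖ ≤ r} ∧
  ∃ wx wy : ℂ → ℝ, HasGrad (HD q r) (cone q r A f) wx wy ∧
    IntegrableOn (fun z => wx z ^ 2 + wy z ^ 2) (HD q r) ∧
    ∀ α : ℝ, ∫ z in HD q r, (wx z ^ 2 + (wy z - α) ^ 2) =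
      (1 / 2) * ∫ θ in (0 : ℝ)..Real.pi, ((f θ - A - α * r * Real.sin θ) ^ 2 +
        (f' θ - α * r * Real.cos θ) ^ 2)

def Stmt_LFT : Prop := ∀ (K n : ℕ) (u : ℝ → Tup K n) (T : ℝ → Mat K n),
  (∀ t ∈ Icc 0 Real.pi, Tendsto (fun s => dG (u s) (u t)) (𝓝[Icc 0 Real.pi] t) (𝓝 0)) →
  (∀ i l, AEStronglyMeasurable (fun θ => T θ i l) (volume.restrict (Ioc 0 Real.pi))) →
  IntervalIntegrable (fun θ => nsq (T θ)) volume 0 Real.pi →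
  (∀ i l, ∀ s ∈ Icc 0 Real.pi, ∀ t ∈ Icc 0 Real.pi,
    xi (u t) i l - xi (u s) i l = ∫ θ in s..t, T θ i l) →
  (∀ i, u 0 i = 0) → (∀ i, u Real.pi i = 0) → ∃ f f', Lift u T f f'

/-- boundary integrand of the cone energy -/
noncomputable def cI {K n : ℕ} (r : ℝ) (α : Fin n → ℝ) (f : ℝ → Tup K n) (f' : ℝ → Mat K n)
    (θ : ℝ) : ℝ :=
  nsq (sh (mt (f θ)) ((r * Real.sin θ) • α)) + nsq (sh (f' θ) ((r * Real.cos θ) • α))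

def Stmt_CPT : Prop := ∀ (k d n : ℕ) (F : Flat k d n), F.Ok → ∀ q r : ℝ, 0 < r →
  |q| + r < F.R → ∀ (T : ℝ → Mat (k + d) n) (T' : ℝ → Mat k n) (f : ℝ → Tup (k + d) n)
  (f' : ℝ → Mat (k + d) n) (g : ℝ → Tup k n) (g' : ℝ → Mat k n),
  Lift (fun θ => F.p (cm q r θ)) T f f' → Lift (fun θ => F.l (cm q r θ)) T' g g' →
  ∀ (i0 : Fin (k + d)) (j0 : Fin k),
  ∃ (p' : ℂ → Tup (k + d) n) (l' : ℂ → Tup k n) (X Y : ℂ → Mat (k + d) n)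
    (X' Y' : ℂ → Mat k n), F.Cp q r p' l' X Y X' Y' ∧ ∀ α : Fin n → ℝ,
    ∫ z in HD q r, (nsq (X z) + nsq (sh (Y z) α) + (nsq (X' z) + nsq (sh (Y' z) α))) ≤
      (1 / 2) * (∫ θ in (0 : ℝ)..Real.pi, (cI r α f f' θ + cI r α g g' θ)) -
        (1 / (4 * Real.pi)) *
          vsq (fun l => ∫ θ in (0 : ℝ)..Real.pi, (f θ i0 l - g θ j0 l))

def Stmt_CMP : Prop := ∀ (k d n : ℕ) (F : Flat k d n), F.Ok → ∃ C' > 0, ∃ r0 > 0, ∀ q r : ℝ,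
  0 < r → r < r0 → |q| + r < F.R → ∀ (p' : ℂ → Tup (k + d) n) (l' : ℂ → Tup k n)
  (X Y : ℂ → Mat (k + d) n) (X' Y' : ℂ → Mat k n), F.Cp q r p' l' X Y X' Y' →
  ∀ α : Fin n → ℝ, F.D q r α ≤ (1 + C' * r ^ 2) *
    (∫ z in HD q r, (nsq (X z) + nsq (sh (Y z) α) + (nsq (X' z) + nsq (sh (Y' z) α)))) +
    C' * (1 + vsq α) * r ^ 4

def Stmt_HLF : Prop := ∀ (R q r : ℝ) (w wx wy : ℂ → ℝ), 0 < r → |q| + r < R →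
  ContinuousOn w (HDc 0 R) → HasGrad (HD 0 R) w wx wy →
  IntegrableOn (fun z => wx z ^ 2 + wy z ^ 2) (HD 0 R) →
  (∀ z ∈ HDc 0 R, r ≤ ‖z - q‖ → w z = 0) →
  IntegrableOn wx (HD 0 R) ∧ IntegrableOn wy (HD 0 R) ∧
  (∀ᵐ z : ℂ, z ∈ HD 0 R → r < ‖z - q‖ → wx z = 0 ∧ wy z = 0) ∧
  ∫ z in HD 0 R, wx z = 0 ∧
  ∫ z in HD 0 R, (wx z * (z.re - q) - wy z * z.im) = 0 ∧
  ∫ z in HD 0 R, wy z = -∫ x in (-R)..R, w (x : ℂ)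

def Stmt_FLX : Prop := ∀ (R q r : ℝ) (w wx wy : ℂ → ℝ), 0 < r → |q| + r < R →
  ContinuousOn w (HDc 0 R) → HasGrad (HD 0 R) w wx wy →
  IntegrableOn (fun z => wx z ^ 2 + wy z ^ 2) (HD 0 R) →
  (∀ x : ℝ, |x| < R → w (x : ℂ) = 0) →
  ∫ z in HD q r, wy z = r * ∫ θ in (0 : ℝ)..Real.pi, w (cm q r θ) * Real.sin θ

def Stmt_OU1 : Prop := ∀ (k d n : ℕ) (F : Flat k d n), F.Ok → ∀ (q r : ℝ) (α : Fin n → ℝ)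
  (χ : ℂ → ℝ), 0 < r → |q| + r < F.R → ContDiff ℝ 1 χ →
  (∀ z : ℂ, r ≤ ‖z - q‖ → χ z = 0) →
  ∫ z in HD 0 F.R,
    (bl (F.A z) (ad (F.Px z) (F.ηx z)) (ad (F.Py z) (F.ηy z))
      (χ z • F.Px z + fderiv ℝ χ z 1 • sh (xi (F.p z)) (z.im • α))
      (χ z • sh (F.Py z) α + fderiv ℝ χ z Complex.I • sh (xi (F.p z)) (z.im • α)) +
    bl (F.B z) (sh (F.Lx z) (F.ηx z)) (sh (F.Ly z) (F.ηy z))
      (χ z • F.Lx z + fderiv ℝ χ z 1 • sh (xi (F.l z)) (z.im • α))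
      (χ z • sh (F.Ly z) α + fderiv ℝ χ z Complex.I • sh (xi (F.l z)) (z.im • α))) = 0

def Stmt_RAD : Prop := ∀ (q R : ℝ) (a b1 b2 : ℂ → ℝ), 0 < R → IntegrableOn a (HD q R) →
  IntegrableOn b1 (HD q R) → IntegrableOn b2 (HD q R) →
  (∀ χ : ℂ → ℝ, ContDiff ℝ 1 χ → (∃ r < R, ∀ z : ℂ, r ≤ ‖z - q‖ → χ z = 0) →
    ∫ z in HD q R, (χ z * a z + (fderiv ℝ χ z 1 * b1 z + fderiv ℝ χ z Complex.I * b2 z)) = 0) →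
  ∀ᵐ r : ℝ, r ∈ Ioo 0 R → ∫ z in HD q r, a z =
    r * ∫ θ in (0 : ℝ)..Real.pi,
      (Real.cos θ * b1 (cm q r θ) + Real.sin θ * b2 (cm q r θ))

def Stmt_OUT : Prop := ∀ (k d n : ℕ) (F : Flat k d n), F.Ok → ∃ C' > 0, ∀ q : ℝ, |q| < F.R →
  ∀ α : Fin n → ℝ, ∀ᵐ r : ℝ, 0 < r → |q| + r < F.R →
    F.D q r α ≤ Real.sqrt (F.h q r α * F.nu q r α) +
      C' * r ^ 2 * (F.D q r α + F.h q r α + F.nu q r α + F.t q r α) +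
      C' * (1 + vsq α) * r ^ 4

/-- optimal tilt -/
noncomputable def Flat.as {k d n : ℕ} (F : Flat k d n) (q r : ℝ) : Fin n → ℝ :=
  fun j => 2 * F.Y q r j / ((2 * k + d) * Real.pi * r ^ 2)

/-- minimal tilted energy -/
noncomputable def Flat.M {k d n : ℕ} (F : Flat k d n) (q r : ℝ) : ℝ := F.D q r (F.as q r)

def Stmt_ENV : Prop := ∀ (k d n : ℕ) (F : Flat k d n), 0 < k → F.Ok → ∀ q : ℝ, |q| < F.R →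
  (∀ r, 0 < r → |q| + r < F.R → 0 ≤ F.M q r ∧ (∀ α, F.M q r ≤ F.D q r α) ∧
    vsq (F.as q r) ≤ 2 * F.D q r 0 / ((2 * k + d) * Real.pi * r ^ 2) ∧
    ∀ j, ∫ z in HD q r, (sm (F.Py z) j + sm (F.Ly z) j - (2 * k + d) * F.as q r j) = 0) ∧
  (∀ r s, 0 < r → r ≤ s → |q| + s < F.R → ∀ α, F.D q r α ≤ F.D q s α) ∧
  (∀ᵐ r : ℝ, 0 < r → |q| + r < F.R →
    HasDerivAt (fun s => F.M q s) ((F.nu q r (F.as q r) + F.t q r (F.as q r)) / r) r ∧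
    HasDerivAt (fun s => F.D q s 0) ((F.nu q r 0 + F.t q r 0) / r) r)

/-- hypotheses of the Wirtinger inequality -/
def Wir (f f' : ℝ → ℝ) : Prop :=
  AEStronglyMeasurable f' (volume.restrict (Ioc 0 Real.pi)) ∧
  IntervalIntegrable (fun θ => f' θ ^ 2) volume 0 Real.pi ∧
  (∀ θ ∈ Icc 0 Real.pi, f θ = ∫ t in (0 : ℝ)..θ, f' t) ∧ f Real.pi = 0

/-- first sine coefficient -/
noncomputable def sc (f : ℝ → ℝ) : ℝ :=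
  (2 / Real.pi) * ∫ θ in (0 : ℝ)..Real.pi, f θ * Real.sin θ

/-- `∫ f²` on `(0, π)` -/
noncomputable def l2 (f : ℝ → ℝ) : ℝ := ∫ θ in (0 : ℝ)..Real.pi, f θ ^ 2

def Stmt_WIR : Prop := ∀ f f' : ℝ → ℝ, Wir f f' →
  (Real.pi / 2) * sc f ^ 2 ≤ l2 f ∧ l2 f + 3 * (l2 f - (Real.pi / 2) * sc f ^ 2) ≤ l2 f' ∧
  ((∫ θ in (0 : ℝ)..Real.pi, f θ) - 2 * sc f) ^ 2 ≤
    Real.pi * (l2 f - (Real.pi / 2) * sc f ^ 2)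

def Stmt_ALG : Prop := ∀ K k n : ℕ, 0 < k → k ≤ K → ∃ c : ℝ, 0 < c ∧ c ≤ 1 / 2 ∧
  ∀ (f f' : Fin K → Fin n → ℝ → ℝ) (g g' : Fin k → Fin n → ℝ → ℝ) (D ν t e : ℝ),
  (∀ i l, Wir (f i l) (f' i l)) → (∀ j l, Wir (g j l) (g' j l)) →
  (∀ l, ∑ i, sc (f i l) + ∑ j, sc (g j l) = 0) → 0 ≤ ν → 0 ≤ e →
  (∑ i, ∑ l, l2 (f' i l)) + (∑ j, ∑ l, l2 (g' j l)) ≤ t →
  D ≤ Real.sqrt (((∑ i, ∑ l, l2 (f i l)) + (∑ j, ∑ l, l2 (g j l))) * ν) + e →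
  (∀ i j, D ≤ (1 / 2) * (((∑ i, ∑ l, l2 (f i l)) + (∑ j, ∑ l, l2 (g j l))) + t) -
    (1 / (4 * Real.pi)) * (∑ l, ((∫ θ in (0 : ℝ)..Real.pi, f i l θ) -
      (∫ θ in (0 : ℝ)..Real.pi, g j l θ)) ^ 2) + e) →
  D ≤ (1 - c) * (ν + t) / 2 + e

def Stmt_GRI : Prop := ∀ k d n : ℕ, 0 < k → ∃ c : ℝ, 0 < c ∧ c ≤ 1 / 2 ∧
  ∀ F : Flat k d n, F.Ok → ∃ C' > 0, ∃ r0 > 0, ∀ q : ℝ, |q| < F.R →
  ∀ᵐ r : ℝ, 0 < r → r < r0 → |q| + r < F.R → q + r ∈ F.Z → q - r ∈ F.Z →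
    F.D q r 0 ≤ (1 / 2 + C' * r ^ 2) * (F.nu q r 0 + F.t q r 0) + C' * r ^ 4 ∧
    F.M q r ≤ ((1 - c) / 2 + C' * r ^ 2) * (F.nu q r (F.as q r) + F.t q r (F.as q r)) +
      C' * (1 + vsq (F.as q r)) * r ^ 4

def Stmt_ODE : Prop := ∀ a β p : ℝ, 0 < a → 1 < a * β → 0 < p → p * a < 1 → ∃ ε > 0,
  ∀ (M : ℝ → ℝ) (G : Set ℝ) (R C : ℝ), 0 < R → 0 ≤ C → (∀ r ∈ Ioo 0 R, 0 ≤ M r) →
  MonotoneOn M (Ioo 0 R) → MeasurableSet G →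
  (∃ r1 > 0, ∀ r, 0 < r → r < r1 → volume (Ioo 0 r \ G) ≤ ENNReal.ofReal (ε * r)) →
  (∀ᵐ r : ℝ, r ∈ G → r ∈ Ioo 0 R → ∃ m : ℝ, HasDerivAt M m r ∧ M r ≤ a * r * m + C * r ^ β) →
  ∃ N r0 : ℝ, 0 < r0 ∧ r0 < R ∧ ∀ r, 0 < r → r < r0 → M r ≤ N * r ^ p

def Stmt_DEN : Prop := ∀ S : Set ℝ, MeasurableSet S → ∀ᵐ q : ℝ, q ∈ S → Dens S q

def Stmt_DCY : Prop := ∀ k d n : ℕ, 0 < k → ∃ κ : ℝ, 0 < κ ∧ ∀ F : Flat k d n, F.Ok →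
  ∀ q : ℝ, |q| < F.R → Dens F.Z q → ∃ N r0 : ℝ, 0 < r0 ∧ |q| + r0 < F.R ∧
    ∀ r, 0 < r → r < r0 → ∃ α, F.D q r α ≤ N * r ^ (2 + κ)

/-! ### G. uniqueness -/

def Stmt_BIL : Prop := ∀ (Φ : ℂ → ℂ) (c1 : ℝ → ℂ) (R C : ℝ), HChart Φ c1 R C →
  ∀ (z : ℂ) (ρ : ℝ), 0 < ρ → closedBall z ρ ⊆ HD 0 R → ball (Φ z) (ρ / C) ⊆ Φ '' ball z ρ

def Stmt_OUV : Prop := ∀ (K n : ℕ) (H : Set ℂ) (u : ℂ → Tup K n) (X Y : ℂ → Mat K n)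
  (χ χx χy : ℂ → ℝ), 0 < K → IsOpen H → IntMin H u → HasGradV H (fun z => xi (u z)) X Y →
  HasGrad H χ χx χy → (∃ C ⊆ H, IsCompact C ∧ ∀ z ∈ H \ C, χ z = 0) →
  ∫ z in H, (χ z * (dev (X z) + dev (Y z)) + χx z * dt (SS u z) (sh (X z) (mn (X z))) +
    χy z * dt (SS u z) (sh (Y z) (mn (Y z)))) = 0

def Stmt_MEV : Prop := ∀ (K n : ℕ) (H : Set ℂ) (u : ℂ → Tup K n) (X Y : ℂ → Mat K n)
  (ζ : ℂ → ℝ) (l : Fin n), 0 < K → IsOpen H → IntMin H u →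
  HasGradV H (fun z => xi (u z)) X Y → TF H ζ →
  ∫ z in H, (mn (X z) l * fderiv ℝ ζ z 1 + mn (Y z) l * fderiv ℝ ζ z Complex.I) = 0

def Stmt_INV : Prop := ∀ (K n : ℕ) (H : Set ℂ) (u : ℂ → Tup K n) (X Y : ℂ → Mat K n)
  (ζ : ℂ → ℝ), IsOpen H → IntMin H u → HasGradV H (fun z => xi (u z)) X Y → TF H ζ →
  ∫ z in H, ((nsq (X z) - nsq (Y z)) * fderiv ℝ ζ z 1 +
    2 * dt (X z) (Y z) * fderiv ℝ ζ z Complex.I) = 0 ∧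
  ∫ z in H, ((nsq (Y z) - nsq (X z)) * fderiv ℝ ζ z Complex.I +
    2 * dt (X z) (Y z) * fderiv ℝ ζ z 1) = 0

def Stmt_WEY : Prop := ∀ (H : Set ℂ) (Ψ : ℂ → ℂ), IsOpen H → IntegrableOn Ψ H →
  (∀ ζ : ℂ → ℝ, TF H ζ → ∫ z in H, Ψ z *
    ((fderiv ℝ ζ z 1 : ℂ) + Complex.I * (fderiv ℝ ζ z Complex.I : ℂ)) = 0) →
  ∃ G : ℂ → ℂ, DifferentiableOn ℂ G H ∧ ∀ᵐ z : ℂ, z ∈ H → Ψ z = G z

def Stmt_HOP : Prop := ∀ (K n : ℕ) (H : Set ℂ) (u : ℂ → Tup K n) (X Y : ℂ → Mat K n), 0 < K →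
  IsOpen H → Bornology.IsBounded H → IntMin H u → HasGradV H (fun z => xi (u z)) X Y →
  ∃ G : ℂ → ℂ, DifferentiableOn ℂ G H ∧ ∀ᵐ z : ℂ, z ∈ H →
    G z = ((dev (X z) - dev (Y z) : ℝ) : ℂ) -
      2 * Complex.I * ((dt (sh (X z) (mn (X z))) (sh (Y z) (mn (Y z))) : ℝ) : ℂ)

def Stmt_MVB : Prop := ∀ (H : Set ℂ) (G : ℂ → ℂ) (g : ℂ → ℝ), IsOpen H →
  DifferentiableOn ℂ G H → IntegrableOn g H → (∀ᵐ z : ℂ, z ∈ H → ‖G z‖ ≤ g z) →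
  ∀ (z : ℂ) (ρ : ℝ), 0 < ρ → ball z ρ ⊆ H →
    ‖G z‖ ≤ (Real.pi * ρ ^ 2)⁻¹ * ∫ w in ball z ρ, g w

/-- Cauchy integral of the indicator of `E1` along the curve -/
noncomputable def CI (c1 : ℝ → ℂ) (Φ : ℂ → ℂ) (E1 : Set ℝ) (w : ℂ) : ℂ :=
  (1 / (Real.pi : ℂ)) * ∫ t in E1, c1 t / (Φ t - w)

/-- flat Poisson integral of the indicator of `E1` -/
noncomputable def PI (E1 : Set ℝ) (z : ℂ) : ℝ :=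
  (1 / Real.pi) * ∫ t in E1, z.im / ((z.re - t) ^ 2 + z.im ^ 2)

def Stmt_CAU : Prop := ∀ (Φ : ℂ → ℂ) (c1 : ℝ → ℂ) (R C : ℝ), HChart Φ c1 R C →
  ∀ E1 : Set ℝ, IsCompact E1 → E1 ⊆ Ioo (-R) R →
  DifferentiableOn ℂ (CI c1 Φ E1) (Φ '' ((fun t : ℝ => (t : ℂ)) '' E1))ᶜ ∧
  ∀ z ∈ HDc 0 R, z ∉ (fun t : ℝ => (t : ℂ)) '' E1 →
    |(CI c1 Φ E1 (Φ z)).im - PI E1 z| ≤ C ^ 2 * (volume E1).toReal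

def Stmt_FLP : Prop := ∀ E1 : Set ℝ, MeasurableSet E1 → volume E1 < ⊤ →
  (∀ z : ℂ, 0 < z.im → 0 ≤ PI E1 z ∧ PI E1 z ≤ 1) ∧
  (∀ z : ℂ, 0 < z.im → (∀ t ∈ E1, z.im ≤ |z.re - t|) → PI E1 z ≤ 1 / 2) ∧
  (∀ z : ℂ, 0 < z.im → PI E1 z ≤ (volume E1).toReal / (Real.pi * z.im)) ∧
  (∀ (z : ℂ) (a : ℝ), 0 < a → (∀ t ∈ E1, a ≤ |z.re - t|) → 0 ≤ z.im →
    PI E1 z ≤ (volume E1).toReal / (2 * Real.pi * a)) ∧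
  (∀ q : ℝ, Dens E1 q → Tendsto (fun y : ℝ => PI E1 ⟨q, y⟩) (𝓝[>] 0) (𝓝 1))

def Stmt_PRI : Prop := ∀ (Φ : ℂ → ℂ) (c1 : ℝ → ℂ) (R C : ℝ), HChart Φ c1 R C →
  ∀ G : ℂ → ℂ, DifferentiableOn ℂ G (Φ '' HD 0 R) → ∀ (E1 : Set ℝ) (N κ r0 : ℝ),
  IsCompact E1 → E1 ⊆ Ioo (-R) R → 0 < volume E1 → 0 < κ → 0 < r0 →
  (∀ x ∈ E1, ∀ ζ ∈ HD 0 R, ‖ζ - x‖ ≤ 2 * ζ.im → ‖ζ - x‖ < r0 →
    ‖G (Φ ζ)‖ ≤ N * ‖ζ - x‖ ^ κ) →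
  ∀ z ∈ Φ '' HD 0 R, G z = 0

def Stmt_LOG : Prop := ∀ (K n : ℕ) (H : Set ℂ) (u : ℂ → Tup K n) (X Y : ℂ → Mat K n), 0 < K →
  IsOpen H → IntMin H u → HasGradV H (fun z => xi (u z)) X Y →
  (∀ᵐ z : ℂ, z ∈ H → dev (X z) = dev (Y z) ∧
    dt (sh (X z) (mn (X z))) (sh (Y z) (mn (Y z))) = 0) →
  ∀ ε > 0, WSub H (fun z => Real.log (dev (xi (u z)) + ε))

def Stmt_MAX : Prop := ∀ (D : Set ℂ) (g : ℂ → ℝ) (M : ℝ), IsOpen D → Bornology.IsBounded D →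
  ContinuousOn g (closure D) → WSub D g → (∀ z ∈ frontier D, g z ≤ M) → ∀ z ∈ D, g z ≤ M

def Stmt_HWK : Prop := ∀ (D : Set ℂ) (w : ℂ → ℝ), IsOpen D →
  (∀ z ∈ D, InnerProductSpace.HarmonicAt w z) → ∀ ζ, TF D ζ → ∫ z, w z * lap ζ z = 0

def Stmt_SPR : Prop := ∀ (H : Set ℂ) (f : ℂ → ℝ), IsOpen H → IsPreconnected H →
  (∀ z, 0 ≤ f z) → ContinuousOn f H → (∀ ε > 0, WSub H (fun z => Real.log (f z + ε))) →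
  (∃ V : Set ℂ, IsOpen V ∧ V.Nonempty ∧ V ⊆ H ∧ ∀ z ∈ V, f z = 0) → ∀ z ∈ H, f z = 0

def Stmt_BAR : Prop := ∀ (Φ : ℂ → ℂ) (c1 : ℝ → ℂ) (R C : ℝ), HChart Φ c1 R C →
  ∀ f : ℂ → ℝ, (∀ z, 0 ≤ f z) → ContinuousOn f (Φ '' HDc 0 R) →
  (∀ ε > 0, WSub (Φ '' HD 0 R) (fun z => Real.log (f z + ε))) →
  ∀ E1 : Set ℝ, IsCompact E1 → E1 ⊆ Ioo (-R) R → 0 < volume E1 → (∀ x ∈ E1, f (Φ x) = 0) →
  ∃ V : Set ℂ, IsOpen V ∧ V.Nonempty ∧ V ⊆ Φ '' HD 0 R ∧ ∀ z ∈ V, f z = 0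

def Stmt_UNQ : Prop := ∀ (K n : ℕ) (Φ : ℂ → ℂ) (c1 : ℝ → ℂ) (R C κ : ℝ) (u : ℂ → Tup K n)
  (X Y : ℂ → Mat K n), 0 < K → HChart Φ c1 R C → IntMin (Φ '' HD 0 R) u →
  ContG (Φ '' HDc 0 R) u → HasGradV (Φ '' HD 0 R) (fun z => xi (u z)) X Y → 0 < κ →
  ∀ E1 : Set ℝ, E1 ⊆ Ioo (-R) R → volume E1 ≠ 0 →
  (∀ x ∈ E1, (∀ i j, u (Φ x) i = u (Φ x) j) ∧ ∃ N r0 : ℝ, 0 < r0 ∧ ∀ r, 0 < r → r < r0 →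
    ∫⁻ w in Φ '' (HD x r ∩ HD 0 R), ENNReal.ofReal (dev (X w) + dev (Y w)) ≤
      ENNReal.ofReal (N * r ^ (2 + κ))) →
  ∀ z ∈ Φ '' HD 0 R, ∀ i j, u z i = u z j

/-! ### H. assembly -/

def Stmt_COA : Prop := ∀ (k d n : ℕ) (Om Op Omi ga : Set ℂ) (φ : ℂ → E n)
  (up : ℂ → Tup (k + d) n) (um : ℂ → Tup k n) (Φ : ℂ → ℂ) (c1 : ℝ → ℂ) (R C : ℝ)
  (F : Flat k d n), 0 < k → IsSplit Om Op Omi ga → SysMin k d n Om Op Omi ga φ up um →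
  Chart Op Omi ga Φ c1 R C → F.Ok → F.R ≤ R → FRel F Φ up um →
  ∀ᵐ x : ℝ, x ∈ F.Z → LC Op Omi up um (Φ x)

def Stmt_COL : Prop := ∀ (k d n : ℕ) (Om Op Omi ga : Set ℂ) (φ : ℂ → E n)
  (up : ℂ → Tup (k + d) n) (um : ℂ → Tup k n), 0 < k → IsSplit Om Op Omi ga → IsC3On ga φ →
  SysMin k d n Om Op Omi ga φ up um → ∀ p ∈ ga, ∃ ρ > 0,
    Measure.hausdorffMeasure 1 {z | z ∈ ball p ρ ∩ ga ∧ (∀ i, um z i = φ z) ∧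
      ¬ LC Op Omi up um z} = 0

def Stmt_IND : Prop := ∀ (k d n : ℕ) (Om Op Omi ga : Set ℂ) (φ : ℂ → E n)
  (up : ℂ → Tup (k + d) n) (um : ℂ → Tup k n), d ≤ 1 → IsSplit Om Op Omi ga → IsC3On ga φ →
  SysMin k d n Om Op Omi ga φ up um →
  Measure.hausdorffMeasure 1 {p | p ∈ ga ∧ ¬ Reg k d n Op Omi ga up um p} = 0

def Stmt_SYS : Prop := ∀ (n k : ℕ) (Om Op Omi ga : Set ℂ) (φ : ℂ → E n)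
  (gp : ℂ → AQ n (k + 1)) (gm : ℂ → AQ n k), IsSplit Om Op Omi ga →
  DirMin Om Op Omi ga φ gp gm → ∃ (up : ℂ → Tup (k + 1) n) (um : ℂ → Tup k n),
    (∀ z, tup (up z) = gp z) ∧ (∀ z, tup (um z) = gm z) ∧ SysMin k 1 n Om Op Omi ga φ up um

def Stmt_RGP : Prop := ∀ (n k : ℕ) (Op Omi ga : Set ℂ) (gp : ℂ → AQ n (k + 1))
  (gm : ℂ → AQ n k) (up : ℂ → Tup (k + 1) n) (um : ℂ → Tup k n) (p : ℂ),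
  (∀ z, tup (up z) = gp z) → (∀ z, tup (um z) = gm z) → Reg k 1 n Op Omi ga up um p →
  RegPt Op Omi ga gp gm p

/-- the final theorem -/
def Stmt_FIN : Prop := ∀ (n k : ℕ) (Om Op Omi ga : Set ℂ) (φ : ℂ → E n)
  (gp : ℂ → AQ n (k + 1)) (gm : ℂ → AQ n k), IsSplit Om Op Omi ga → IsC3On ga φ →
  DirMin Om Op Omi ga φ gp gm →
  Measure.hausdorffMeasure 1 {p | p ∈ ga ∧ ¬ RegPt Op Omi ga gp gm p} = 0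

end Pool.Agent.DMB
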