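import Pool.Agent.DMB.Api
import Pool.Agent.DMB.Stmts

/-!
Module GCO: change of variables for gradients along lines.
-/

set_option autoImplicit false

namespace Pool.Agent.DMB

open MeasureTheory Set Metric Filter Topology
open scoped ENNReal

namespace GCO_

lemma clm_apply (L : ℂ →L[ℝ] ℝ) (w : ℂ) : L w = w.re * L 1 + w.im * L Complex.I := by
  have h : w = w.re • (1 : ℂ) + w.im • Complex.I := by
    apply Complex.ext <;> simp
  calc L w = L (w.re • (1 : ℂ) + w.im • Complex.I) := by rw [← h]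
    _ = w.re * L 1 + w.im * L Complex.I := by
        rw [map_add, map_smul, map_smul, smul_eq_mul, smul_eq_mul]

lemma det_eq (L : ℂ →L[ℝ] ℂ) :
    L.det = (starRingEnd ℂ (L 1) * L Complex.I).im := by
  have h : L.det = LinearMap.det (L : ℂ →ₗ[ℝ] ℂ) := rfl
  rw [h, ← LinearMap.det_toMatrix Complex.basisOneI, Matrix.det_fin_two]
  simp only [LinearMap.toMatrix_apply, Complex.coe_basisOneI, Complex.coe_basisOneI_repr,
    Matrix.cons_val_zero, Matrix.cons_val_one, Complex.mul_im, Complex.conj_re, Complex.conj_im]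
  simp
  ring

lemma det_jac (Φ : ℂ → ℂ) (z : ℂ) : (fderiv ℝ Φ z).det = jac Φ z := det_eq _

lemma cs (a b u v : ℝ) : (a * u + b * v) ^ 2 ≤ (a ^ 2 + b ^ 2) * (u ^ 2 + v ^ 2) := by
  nlinarith [sq_nonneg (a * v - b * u)]

lemma reim_sq (w : ℂ) : w.re ^ 2 + w.im ^ 2 = ‖w‖ ^ 2 := by
  rw [← Complex.normSq_eq_norm_sq, Complex.normSq_apply]
  ring

section

variable {W : Set ℂ} {Φ : ℂ → ℂ}

lemma hasF (hW : IsOpen W) (hΦ : ContDiffOn ℝ 1 Φ W) {z : ℂ} (hz : z ∈ W) :
    HasFDerivAt Φ (fderiv ℝ Φ z) z :=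
  ((hΦ.contDiffAt (hW.mem_nhds hz)).differentiableAt one_ne_zero).hasFDerivAt

lemma cont_px (hW : IsOpen W) (hΦ : ContDiffOn ℝ 1 Φ W) (v : ℂ) :
    ContinuousOn (fun z => fderiv ℝ Φ z v) W := by
  have h := hΦ.continuousOn_fderiv_of_isOpen hW le_rfl
  exact h.clm_apply continuousOn_const

lemma cont_jac (hW : IsOpen W) (hΦ : ContDiffOn ℝ 1 Φ W) : ContinuousOn (jac Φ) W := by
  have h1 := cont_px hW hΦ 1
  have h2 := cont_px hW hΦ Complex.I
  unfold jac px py
  exact Complex.continuous_im.comp_continuousOn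
    ((Complex.continuous_conj.comp_continuousOn h1).mul h2)

/-- preimages of null sets are null -/
lemma null_pre (hW : IsOpen W) (hΦ : ContDiffOn ℝ 1 Φ W) (hi : InjOn Φ W)
    (hj : ∀ z ∈ W, jac Φ z ≠ 0) (s : Set ℂ) (hs : MeasurableSet s)
    (h0 : volume (s ∩ Φ '' W) = 0) : volume (Φ ⁻¹' s ∩ W) = 0 := by
  have hmS : MeasurableSet (Φ ⁻¹' s ∩ W) := by
    have h1 : Measurable (W.domRestrict Φ) := (hΦ.continuousOn.domRestrict).measurable
    have h2 : MeasurableSet ((W.domRestrict Φ) ⁻¹' s) := h1 hs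
    have h3 := MeasurableSet.subtype_image hW.measurableSet h2
    have h4 : (Subtype.val '' ((W.domRestrict Φ) ⁻¹' s)) = Φ ⁻¹' s ∩ W := by
      ext z
      constructor
      · rintro ⟨⟨y, hy⟩, h, rfl⟩
        exact ⟨h, hy⟩
      · rintro ⟨h, hy⟩
        exact ⟨⟨z, hy⟩, h, rfl⟩
    rw [← h4]
    exact h3
  have hcv := lintegral_image_eq_lintegral_abs_det_fderiv_mul volume hmS
    (fun x hx => (hasF hW hΦ hx.2).hasFDerivWithinAt) (hi.mono inter_subset_right)
    (fun _ => (1 : ℝ≥0∞))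
  have hL : ∫⁻ _ in Φ '' (Φ ⁻¹' s ∩ W), (1 : ℝ≥0∞) = 0 := by
    rw [lintegral_one, Measure.restrict_apply_univ]
    refine measure_mono_null ?_ h0
    rintro y ⟨x, hx, rfl⟩
    exact ⟨hx.1, x, hx.2, rfl⟩
  rw [hL] at hcv
  have hme : AEMeasurable (fun z => ENNReal.ofReal |(fderiv ℝ Φ z).det| * 1)
      (volume.restrict (Φ ⁻¹' s ∩ W)) := by
    have hc : ContinuousOn (fun z => |(fderiv ℝ Φ z).det|) W := by
      have h := (cont_jac hW hΦ).abs
      exact h.congr fun z _ => by rw [det_jac]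
    have h2 := (hc.mono inter_subset_right).aemeasurable (μ := volume) hmS
    exact h2.ennreal_ofReal.mul_const 1
  have h5 := (lintegral_eq_zero_iff' hme).1 hcv.symm
  have h6 : ∀ᵐ z ∂(volume.restrict (Φ ⁻¹' s ∩ W)), False := by
    filter_upwards [h5, ae_restrict_mem hmS] with z hz hzS
    have h7 : ENNReal.ofReal |(fderiv ℝ Φ z).det| * 1 = 0 := hz
    rw [mul_one, ENNReal.ofReal_eq_zero, det_jac] at h7
    exact hj z hzS.2 (abs_eq_zero.1 (le_antisymm h7 (abs_nonneg _)))
  have h8 : (volume.restrict (Φ ⁻¹' s ∩ W)) univ = 0 := by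
    have h9 := ae_iff.1 h6
    simpa using h9
  rwa [Measure.restrict_apply_univ] at h8

lemma meas_comp (hW : IsOpen W) (hΦ : ContDiffOn ℝ 1 Φ W) (hi : InjOn Φ W)
    (hj : ∀ z ∈ W, jac Φ z ≠ 0) {U : Set ℂ} (hU : IsOpen U) (hm : MapsTo Φ W U) {g : ℂ → ℝ}
    (hg : AEStronglyMeasurable g (volume.restrict U)) :
    AEStronglyMeasurable (fun z => g (Φ z)) (volume.restrict W) := by
  have hΦm : AEMeasurable Φ (volume.restrict W) := hΦ.continuousOn.aemeasurable hW.measurableSet
  have hac : Measure.map Φ (volume.restrict W) ≪ volume.restrict U := by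
    refine Measure.AbsolutelyContinuous.mk fun s hs h0 => ?_
    rw [Measure.map_apply_of_aemeasurable hΦm hs, Measure.restrict_apply' hW.measurableSet]
    rw [Measure.restrict_apply' hU.measurableSet] at h0
    refine null_pre hW hΦ hi hj s hs (measure_mono_null ?_ h0)
    rintro y ⟨hy, x, hx, rfl⟩
    exact ⟨hy, hm hx⟩
  exact (hg.mono_ac hac).comp_aemeasurable hΦm

/-- bounds on a compact set -/
lemma bounds (hW : IsOpen W) (hΦ : ContDiffOn ℝ 1 Φ W) (hj : ∀ z ∈ W, jac Φ z ≠ 0)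
    {C : Set ℂ} (hC : C ⊆ W) (hCc : IsCompact C) :
    ∃ B : ℝ, 0 ≤ B ∧ ∀ z ∈ C, ‖px Φ z‖ ^ 2 + ‖py Φ z‖ ^ 2 ≤ B * |(fderiv ℝ Φ z).det| := by
  rcases C.eq_empty_or_nonempty with h | hne
  · exact ⟨0, le_rfl, fun z hz => by rw [h] at hz; exact absurd hz (notMem_empty z)⟩
  have h1 : ContinuousOn (fun z => (‖px Φ z‖ ^ 2 + ‖py Φ z‖ ^ 2) / |jac Φ z|) C := by
    have ha := (cont_px hW hΦ 1).mono hC
    have hb := (cont_px hW hΦ Complex.I).mono hC
    have hc := ((cont_jac hW hΦ).mono hC).abs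
    refine ContinuousOn.div ((ha.norm.pow 2).add (hb.norm.pow 2)) hc ?_
    intro z hz
    exact abs_ne_zero.2 (hj z (hC hz))
  obtain ⟨z0, -, hz0⟩ := hCc.exists_isMaxOn hne h1
  refine ⟨(‖px Φ z0‖ ^ 2 + ‖py Φ z0‖ ^ 2) / |jac Φ z0|, by positivity, fun z hz => ?_⟩
  have h2 := hz0 hz
  have h3 : 0 < |jac Φ z| := abs_pos.2 (hj z (hC hz))
  have h4 : (‖px Φ z‖ ^ 2 + ‖py Φ z‖ ^ 2) / |jac Φ z| ≤
      (‖px Φ z0‖ ^ 2 + ‖py Φ z0‖ ^ 2) / |jac Φ z0| := h2
  rw [div_le_iff₀ h3] at h4
  rw [det_jac]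
  exact h4

/-- pointwise bound -/
lemma pw {B : ℝ} (z : ℂ) (a b : ℝ)
    (h : ‖px Φ z‖ ^ 2 + ‖py Φ z‖ ^ 2 ≤ B * |(fderiv ℝ Φ z).det|) :
    (a * (px Φ z).re + b * (px Φ z).im) ^ 2 + (a * (py Φ z).re + b * (py Φ z).im) ^ 2 ≤
      B * (|(fderiv ℝ Φ z).det| • (a ^ 2 + b ^ 2)) := by
  have h1 := cs a b (px Φ z).re (px Φ z).im
  have h2 := cs a b (py Φ z).re (py Φ z).im
  rw [reim_sq] at h1 h2
  have h3 : 0 ≤ a ^ 2 + b ^ 2 := by positivity
  have h4 := mul_le_mul_of_nonneg_left h h3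
  rw [smul_eq_mul]
  nlinarith

end

end GCO_

open GCO_ in
theorem gco_proof (hGAL : Stmt_GAL) (hGC1 : Stmt_GC1) (hGMO : Stmt_GMO) (hGCL : Stmt_GCL)
    (_hJCV : Stmt_JCV) : Stmt_GCO := by
  intro U W Φ f fx fy hU hW hΦ hm hi hj hf
  have _ := hGAL
  have hgx : AEStronglyMeasurable
      (fun z => fx (Φ z) * (px Φ z).re + fy (Φ z) * (px Φ z).im) (volume.restrict W) := by
    have h1 := meas_comp hW hΦ hi hj hU hm hf.mx
    have h2 := meas_comp hW hΦ hi hj hU hm hf.my
    have h3 : AEStronglyMeasurable (fun z => (px Φ z).re) (volume.restrict W) :=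
      (Complex.continuous_re.comp_continuousOn (cont_px hW hΦ 1)).aestronglyMeasurable
        hW.measurableSet
    have h4 : AEStronglyMeasurable (fun z => (px Φ z).im) (volume.restrict W) :=
      (Complex.continuous_im.comp_continuousOn (cont_px hW hΦ 1)).aestronglyMeasurable
        hW.measurableSet
    exact (h1.mul h3).add (h2.mul h4)
  have hgy : AEStronglyMeasurable
      (fun z => fx (Φ z) * (py Φ z).re + fy (Φ z) * (py Φ z).im) (volume.restrict W) := by
    have h1 := meas_comp hW hΦ hi hj hU hm hf.mx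
    have h2 := meas_comp hW hΦ hi hj hU hm hf.my
    have h3 : AEStronglyMeasurable (fun z => (py Φ z).re) (volume.restrict W) :=
      (Complex.continuous_re.comp_continuousOn (cont_px hW hΦ Complex.I)).aestronglyMeasurable
        hW.measurableSet
    have h4 : AEStronglyMeasurable (fun z => (py Φ z).im) (volume.restrict W) :=
      (Complex.continuous_im.comp_continuousOn (cont_px hW hΦ Complex.I)).aestronglyMeasurable
        hW.measurableSet
    exact (h1.mul h3).add (h2.mul h4)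
  refine hGCL W _ _ _ hW (hf.cont.comp hΦ.continuousOn hm) hgx hgy ?_ ?_
  · intro C hC hCc
    obtain ⟨B, hB0, hB⟩ := bounds hW hΦ hj hC hCc
    have hK : IsCompact (Φ '' C) := hCc.image_of_continuousOn (hΦ.continuousOn.mono hC)
    have hKU : Φ '' C ⊆ U := by
      rintro _ ⟨z, hz, rfl⟩
      exact hm (hC hz)
    have hI := hf.loc _ hKU hK
    rw [integrableOn_image_iff_integrableOn_abs_det_fderiv_smul volume hCc.measurableSet
      (fun x hx => (hasF hW hΦ (hC hx)).hasFDerivWithinAt) (hi.mono hC)] at hI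
    refine Integrable.mono' (hI.const_mul B)
      (((hgx.mono_measure (Measure.restrict_mono hC le_rfl)).pow 2).add
        ((hgy.mono_measure (Measure.restrict_mono hC le_rfl)).pow 2)) ?_
    filter_upwards [ae_restrict_mem hCc.measurableSet] with z hz
    rw [Real.norm_of_nonneg (by positivity)]
    exact pw z _ _ (hB z hz)
  · intro C hC hCc ε hε
    obtain ⟨B, hB0, hB⟩ := bounds hW hΦ hj hC hCc
    have hK : IsCompact (Φ '' C) := hCc.image_of_continuousOn (hΦ.continuousOn.mono hC)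
    have hKU : Φ '' C ⊆ U := by
      rintro _ ⟨z, hz, rfl⟩
      exact hm (hC hz)
    have hε' : 0 < ε / (B + 1) := by positivity
    have hεε : ε / (B + 1) ≤ ε := div_le_self hε.le (by linarith)
    obtain ⟨F, hF, hFf, hFg⟩ := hGMO U (Φ '' C) f fx fy hU hKU hK hf (ε / (B + 1)) hε'
    have hF1 : ContDiff ℝ 1 F := hF.of_le (by exact_mod_cast le_top)
    have hFd : ∀ w, HasFDerivAt F (fderiv ℝ F w) w := fun w =>
      (hF1.differentiable one_ne_zero w).hasFDerivAt
    have hcomp : ContDiffOn ℝ 1 (fun z => F (Φ z)) W := hF1.comp_contDiffOn hΦ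
    refine ⟨W, fun z => F (Φ z), _, _, hW, hC, le_rfl, hGC1 W _ hW hcomp, ?_, ?_⟩
    · intro z hz
      exact (hFf _ ⟨z, hz, rfl⟩).trans hεε
    · have hchain : ∀ z ∈ C, ∀ v : ℂ, fderiv ℝ (fun z => F (Φ z)) z v =
          fderiv ℝ F (Φ z) (fderiv ℝ Φ z v) := by
        intro z hz v
        have h := (hFd (Φ z)).comp z (hasF hW hΦ (hC hz))
        have h2 : fderiv ℝ (fun z => F (Φ z)) z = (fderiv ℝ F (Φ z)).comp (fderiv ℝ Φ z) :=
          h.fderiv
        rw [h2]
        rfl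
      have hIK : IntegrableOn (fun w => (fderiv ℝ F w 1 - fx w) ^ 2 +
          (fderiv ℝ F w Complex.I - fy w) ^ 2) (Φ '' C) := by
        have hI := hf.loc _ hKU hK
        have hcF : Continuous (fderiv ℝ F) := hF1.continuous_fderiv one_ne_zero
        have hc1 : Continuous fun w => fderiv ℝ F w 1 := hcF.clm_apply continuous_const
        have hc2 : Continuous fun w => fderiv ℝ F w Complex.I := hcF.clm_apply continuous_const
        have hI2 : IntegrableOn (fun w => fderiv ℝ F w 1 ^ 2 + fderiv ℝ F w Complex.I ^ 2)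
            (Φ '' C) := ((hc1.pow 2).add (hc2.pow 2)).continuousOn.integrableOn_compact hK
        refine Integrable.mono' ((hI2.const_mul 2).add (hI.const_mul 2))
          ((((hc1.aestronglyMeasurable).sub
            (hf.mx.mono_measure (Measure.restrict_mono hKU le_rfl))).pow 2).add
          (((hc2.aestronglyMeasurable).sub
            (hf.my.mono_measure (Measure.restrict_mono hKU le_rfl))).pow 2)) ?_
        refine Eventually.of_forall fun w => ?_
        rw [Real.norm_of_nonneg (by positivity)]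
        simp only [Pi.add_apply]
        nlinarith [sq_nonneg (fderiv ℝ F w 1 + fx w), sq_nonneg (fderiv ℝ F w Complex.I + fy w)]
      have hcv := integral_image_eq_integral_abs_det_fderiv_smul volume hCc.measurableSet
        (fun x hx => (hasF hW hΦ (hC hx)).hasFDerivWithinAt) (hi.mono hC)
        (fun w => (fderiv ℝ F w 1 - fx w) ^ 2 + (fderiv ℝ F w Complex.I - fy w) ^ 2)
      rw [integrableOn_image_iff_integrableOn_abs_det_fderiv_smul volume hCc.measurableSet
        (fun x hx => (hasF hW hΦ (hC hx)).hasFDerivWithinAt) (hi.mono hC)] at hIK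
      have hle : ∫ z in C, ((fderiv ℝ (fun z => F (Φ z)) z 1 -
            (fx (Φ z) * (px Φ z).re + fy (Φ z) * (px Φ z).im)) ^ 2 +
          (fderiv ℝ (fun z => F (Φ z)) z Complex.I -
            (fx (Φ z) * (py Φ z).re + fy (Φ z) * (py Φ z).im)) ^ 2) ≤
          ∫ z in C, B * (|(fderiv ℝ Φ z).det| • ((fderiv ℝ F (Φ z) 1 - fx (Φ z)) ^ 2 +
            (fderiv ℝ F (Φ z) Complex.I - fy (Φ z)) ^ 2)) := by
        refine integral_mono_of_nonneg (Eventually.of_forall fun z => by positivity)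
          (hIK.const_mul B) ?_
        filter_upwards [ae_restrict_mem hCc.measurableSet] with z hz
        have h1 := pw z (fderiv ℝ F (Φ z) 1 - fx (Φ z)) (fderiv ℝ F (Φ z) Complex.I - fy (Φ z))
          (hB z hz)
        refine le_trans (le_of_eq ?_) h1
        rw [hchain z hz 1, hchain z hz Complex.I, clm_apply _ (fderiv ℝ Φ z 1),
          clm_apply _ (fderiv ℝ Φ z Complex.I)]
        simp only [px, py]
        ring
      refine hle.trans ?_
      rw [integral_const_mul, ← hcv]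
      have h5 : B * (ε / (B + 1)) ≤ ε := by
        rw [mul_div_assoc', div_le_iff₀ (by linarith)]
        nlinarith
      exact (mul_le_mul_of_nonneg_left hFg hB0).trans h5

end Pool.Agent.DMB
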