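import Pool.Agent.DMB.Api

/-!
Module GGL: a closed set with finite sections on almost every line is removable.
-/

set_option autoImplicit false

namespace Pool.Agent.DMB

open MeasureTheory Set Metric Filter Topology
open scoped ENNReal

namespace GGL_

theorem glue1 (F g : ℝ → ℝ) (Zy : Set ℝ) (hZc : IsClosed Zy) (hZf : Zy.Finite) (a b : ℝ)
    (hab : a ≤ b) (hF : ContinuousOn F (Icc a b)) (hg : IntervalIntegrable g volume a b)
    (hloc : ∀ c d, a ≤ c → c ≤ d → d ≤ b → (∀ t ∈ Icc c d, t ∉ Zy) →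
      F d - F c = ∫ t in c..d, g t) : F b - F a = ∫ t in a..b, g t := by
  have hsub : ∀ c d, a ≤ c → c ≤ d → d ≤ b → IntervalIntegrable g volume c d := by
    intro c d h1 h2 h3
    refine hg.mono_set ?_
    rw [uIcc_of_le h2, uIcc_of_le hab]
    exact Icc_subset_Icc h1 h3
  set Φ : ℝ → ℝ := fun t => F t - ∫ s in a..t, g s with hΦ
  have hc : ContinuousOn Φ (Icc a b) := by
    refine hF.sub ?_
    have h1 := intervalIntegral.continuousOn_primitive_interval' hg left_mem_uIcc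
    rwa [uIcc_of_le hab] at h1
  have hd : ∀ x ∈ Ioo a b \ Zy, HasDerivAt Φ ((fun _ => (0 : ℝ)) x) x := by
    intro x hx
    have hn : Zyᶜ ∩ Ioo a b ∈ 𝓝 x :=
      inter_mem (hZc.isOpen_compl.mem_nhds hx.2) (isOpen_Ioo.mem_nhds hx.1)
    obtain ⟨l, u, hlu, hsubs⟩ := mem_nhds_iff_exists_Ioo_subset.1 hn
    have he : Φ =ᶠ[𝓝 x] fun _ => Φ x := by
      filter_upwards [isOpen_Ioo.mem_nhds hlu] with t ht
      have hseg : ∀ c d, c ∈ Ioo l u → d ∈ Ioo l u → c ≤ d → Φ d = Φ c := by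
        intro c d hc hd hcd
        have hca : c ∈ Ioo a b := (hsubs hc).2
        have hda : d ∈ Ioo a b := (hsubs hd).2
        have h1 : F d - F c = ∫ t in c..d, g t :=
          hloc c d hca.1.le hcd hda.2.le fun t ht =>
            (hsubs ⟨hc.1.trans_le ht.1, ht.2.trans_lt hd.2⟩).1
        have h2 := intervalIntegral.integral_add_adjacent_intervals
          (hsub a c le_rfl hca.1.le hca.2.le) (hsub c d hca.1.le hcd hda.2.le)
        simp only [hΦ]
        linarith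
      rcases le_total x t with h | h
      · exact hseg x t hlu ht h
      · exact (hseg t x ht hlu h).symm
    exact (hasDerivAt_const x (Φ x)).congr_of_eventuallyEq he
  have h1 := integral_eq_of_hasDerivAt_off_countable_of_le Φ (fun _ => 0) hab
    hZf.countable hc hd intervalIntegrable_const
  simp only [hΦ, intervalIntegral.integral_zero, intervalIntegral.integral_same] at h1
  linarith

/-- exhaustion by compact sets -/
def KK (U : Set ℂ) (n : ℕ) : Set ℂ :=
  closedBall 0 n ∩ {z | ∀ w, w ∉ U → 1 / ((n : ℝ) + 1) ≤ dist z w}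

theorem KK_compact (U : Set ℂ) (n : ℕ) : IsCompact (KK U n) := by
  refine (isCompact_closedBall _ _).inter_right ?_
  have h1 : {z : ℂ | ∀ w, w ∉ U → 1 / ((n : ℝ) + 1) ≤ dist z w} =
      ⋂ w, ⋂ (_ : w ∉ U), {z | 1 / ((n : ℝ) + 1) ≤ dist z w} := by
    ext z
    simp
  rw [h1]
  refine isClosed_iInter fun w => isClosed_iInter fun _ => ?_
  exact isClosed_le continuous_const (continuous_id.dist continuous_const)

theorem KK_sub (U : Set ℂ) (n : ℕ) : KK U n ⊆ U := by
  intro z hz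
  by_contra h
  have h1 := hz.2 z h
  rw [dist_self] at h1
  have h2 : (0 : ℝ) < 1 / ((n : ℝ) + 1) := by positivity
  linarith

theorem KK_exh (U S : Set ℂ) (hU : IsOpen U) (hS : IsCompact S) (hSU : S ⊆ U) : ∃ n, S ⊆ KK U n := by
  obtain ⟨R, hR⟩ := hS.isBounded.subset_closedBall 0
  obtain ⟨δ, hδ, hδ2⟩ := hS.exists_thickening_subset_open hU hSU
  obtain ⟨n, hn⟩ := exists_nat_gt (max R (1 / δ))
  refine ⟨n, fun z hz => ⟨?_, fun w hw => ?_⟩⟩
  · have h1 := hR hz
    rw [mem_closedBall] at h1 ⊢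
    exact h1.trans ((le_max_left _ _).trans hn.le)
  · by_contra hlt
    push Not at hlt
    refine hw (hδ2 ?_)
    rw [mem_thickening_iff]
    refine ⟨z, hz, ?_⟩
    rw [dist_comm]
    refine hlt.trans ?_
    have h2 : 1 / δ < (n : ℝ) := (le_max_right _ _).trans_lt hn
    rw [div_lt_iff₀ (by positivity)]
    rw [div_lt_iff₀ hδ] at h2
    nlinarith

theorem fub (U : Set ℂ) (φ : ℂ → ℝ) (hU : IsOpen U)
    (hφ : ∀ C : Set ℂ, C ⊆ U → IsCompact C → IntegrableOn φ C) :
    (∀ᵐ y : ℝ, ∀ a b : ℝ, a ≤ b → (∀ t ∈ Icc a b, (⟨t, y⟩ : ℂ) ∈ U) →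
      IntervalIntegrable (fun t : ℝ => φ ⟨t, y⟩) volume a b) ∧
    (∀ᵐ x : ℝ, ∀ a b : ℝ, a ≤ b → (∀ t ∈ Icc a b, (⟨x, t⟩ : ℂ) ∈ U) →
      IntervalIntegrable (fun t : ℝ => φ ⟨x, t⟩) volume a b) := by
  have hI : ∀ n, Integrable ((KK U n).indicator φ) (volume : Measure ℂ) := fun n =>
    (hφ _ (KK_sub U n) (KK_compact U n)).integrable_indicator (KK_compact U n).measurableSet
  have hI2 : ∀ n, Integrable (fun p : ℝ × ℝ => (KK U n).indicator φ (⟨p.1, p.2⟩ : ℂ))
      ((volume : Measure ℝ).prod volume) := by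
    intro n
    have h1 := (Complex.volume_preserving_equiv_real_prod.symm _).integrable_comp_of_integrable (hI n)
    exact h1
  have hcx : ∀ y : ℝ, Continuous (fun t : ℝ => (⟨t, y⟩ : ℂ)) := by
    intro y
    have h1 : (fun t : ℝ => (⟨t, y⟩ : ℂ)) = fun t : ℝ => (t : ℂ) + y * Complex.I := by
      funext t
      apply Complex.ext <;> simp
    rw [h1]
    fun_prop
  have hcy : ∀ x : ℝ, Continuous (fun t : ℝ => (⟨x, t⟩ : ℂ)) := by
    intro x
    have h1 : (fun t : ℝ => (⟨x, t⟩ : ℂ)) = fun t : ℝ => (x : ℂ) + t * Complex.I := by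
      funext t
      apply Complex.ext <;> simp
    rw [h1]
    fun_prop
  have key : ∀ (γ : ℝ → ℂ), Continuous γ →
      (∀ n, Integrable (fun t => (KK U n).indicator φ (γ t)) volume) →
      ∀ a b : ℝ, a ≤ b → (∀ t ∈ Icc a b, γ t ∈ U) →
      IntervalIntegrable (fun t : ℝ => φ (γ t)) volume a b := by
    intro γ hγ hin a b hab hseg
    obtain ⟨n, hn⟩ := KK_exh U (γ '' Icc a b) hU (isCompact_Icc.image hγ) (by
      rintro _ ⟨t, ht, rfl⟩
      exact hseg t ht)
    rw [intervalIntegrable_iff_integrableOn_Icc_of_le hab]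
    refine ((hin n).integrableOn (s := Icc a b)).congr_fun (fun t ht => ?_) measurableSet_Icc
    show (KK U n).indicator φ (γ t) = φ (γ t)
    rw [indicator_of_mem (hn ⟨t, ht, rfl⟩)]
  constructor
  · have h1 : ∀ᵐ y : ℝ, ∀ n, Integrable (fun t => (KK U n).indicator φ (⟨t, y⟩ : ℂ)) volume :=
      ae_all_iff.2 fun n => (hI2 n).prod_left_ae
    filter_upwards [h1] with y hy
    exact key (fun t => ⟨t, y⟩) (hcx y) hy
  · have h1 : ∀ᵐ x : ℝ, ∀ n, Integrable (fun t => (KK U n).indicator φ (⟨x, t⟩ : ℂ)) volume :=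
      ae_all_iff.2 fun n => (hI2 n).prod_right_ae
    filter_upwards [h1] with x hx
    exact key (fun t => ⟨x, t⟩) (hcy x) hx

theorem null (Z : Set ℂ) (hZ : IsClosed Z) (h : ∀ᵐ x : ℝ, {t : ℝ | (⟨x, t⟩ : ℂ) ∈ Z}.Finite) :
    volume Z = 0 := by
  rw [← (Complex.volume_preserving_equiv_real_prod.symm).measure_preimage
    hZ.measurableSet.nullMeasurableSet, Measure.volume_eq_prod, Measure.measure_prod_null]
  · filter_upwards [h] with x hx
    exact hx.measure_zero _
  · exact Complex.measurableEquivRealProd.symm.measurable hZ.measurableSet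

theorem intg (U : Set ℂ) (fx fy : ℂ → ℝ) (hm : AEStronglyMeasurable fx (volume.restrict U))
    (hl : ∀ C : Set ℂ, C ⊆ U → IsCompact C → IntegrableOn (fun z => fx z ^ 2 + fy z ^ 2) C) :
    ∀ C : Set ℂ, C ⊆ U → IsCompact C → IntegrableOn fx C := by
  intro C hCU hC
  have hfin : volume C < ⊤ := hC.measure_lt_top
  have h1 : IntegrableOn (fun z => (fx z ^ 2 + fy z ^ 2) + 1) C :=
    (hl C hCU hC).add (integrableOn_const hfin.ne)
  refine h1.mono' (hm.mono_measure (Measure.restrict_mono hCU le_rfl))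
    (Eventually.of_forall fun z => ?_)
  rw [Real.norm_eq_abs]
  nlinarith [sq_nonneg (|fx z| - 1), sq_abs (fx z), sq_nonneg (fy z), abs_nonneg (fx z)]

end GGL_

open GGL_ in
theorem ggl_proof (_hGAL : Stmt_GAL) : Stmt_GGL := by
  intro U Z f fx fy hU hZ hZh hZv hf hl h
  have hnull := null Z hZ hZv
  have hres : (volume : Measure ℂ).restrict (U \ Z) = volume.restrict U :=
    Measure.restrict_congr_set (sdiff_null_ae_eq_self hnull)
  have hmx : AEStronglyMeasurable fx (volume.restrict U) := hres ▸ h.mx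
  have hmy : AEStronglyMeasurable fy (volume.restrict U) := hres ▸ h.my
  have hcx : ∀ y : ℝ, Continuous (fun t : ℝ => (⟨t, y⟩ : ℂ)) := by
    intro y
    have h1 : (fun t : ℝ => (⟨t, y⟩ : ℂ)) = fun t : ℝ => (t : ℂ) + y * Complex.I := by
      funext t
      apply Complex.ext <;> simp
    rw [h1]
    fun_prop
  have hcy : ∀ x : ℝ, Continuous (fun t : ℝ => (⟨x, t⟩ : ℂ)) := by
    intro x
    have h1 : (fun t : ℝ => (⟨x, t⟩ : ℂ)) = fun t : ℝ => (x : ℂ) + t * Complex.I := by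
      funext t
      apply Complex.ext <;> simp
    rw [h1]
    fun_prop
  have hfx := (fub U fx hU (intg U fx fy hmx hl)).1
  have hl' : ∀ C : Set ℂ, C ⊆ U → IsCompact C → IntegrableOn (fun z => fy z ^ 2 + fx z ^ 2) C := by
    intro C h1 h2
    have h3 := hl C h1 h2
    refine h3.congr (Eventually.of_forall fun z => ?_)
    show fx z ^ 2 + fy z ^ 2 = fy z ^ 2 + fx z ^ 2
    ring
  have hfy := (fub U fy hU (intg U fy fx hmy hl')).2
  refine ⟨hf, hmx, hmy, hl, ?_, ?_⟩
  · filter_upwards [hZh, h.hor, hfx] with y h1 h2 h3 a b hab hseg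
    refine ⟨h3 a b hab hseg, ?_⟩
    refine glue1 (fun t => f ⟨t, y⟩) (fun t => fx ⟨t, y⟩) {t : ℝ | (⟨t, y⟩ : ℂ) ∈ Z}
      (hZ.preimage (hcx y)) h1 a b hab (hf.comp (hcx y).continuousOn hseg) (h3 a b hab hseg) ?_
    intro c d hac hcd hdb hno
    exact (h2 c d hcd fun t ht => ⟨hseg t ⟨hac.trans ht.1, ht.2.trans hdb⟩, hno t ht⟩).2
  · filter_upwards [hZv, h.ver, hfy] with x h1 h2 h3 a b hab hseg
    refine ⟨h3 a b hab hseg, ?_⟩
    refine glue1 (fun t => f ⟨x, t⟩) (fun t => fy ⟨x, t⟩) {t : ℝ | (⟨x, t⟩ : ℂ) ∈ Z}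
      (hZ.preimage (hcy x)) h1 a b hab (hf.comp (hcy x).continuousOn hseg) (h3 a b hab hseg) ?_
    intro c d hac hcd hdb hno
    exact (h2 c d hcd fun t ht => ⟨hseg t ⟨hac.trans ht.1, ht.2.trans hdb⟩, hno t ht⟩).2

end Pool.Agent.DMB
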