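import Pool.Agent.DMB.Api

/-!
GIB: functions with compact support: the integrals of the partial derivatives vanish.
-/

set_option autoImplicit false

namespace Pool.Agent.DMB

open MeasureTheory Set Metric Filter Topology
open scoped ENNReal

namespace GIB_

/-- Fubini in the plane, inner integral over the real part -/
theorem fub_x (g : ℂ → ℝ) (hg : Integrable g) : ∫ z, g z = ∫ y : ℝ, ∫ x : ℝ, g ⟨x, y⟩ := by
  have h1 := (Complex.volume_preserving_equiv_real_prod.symm)
  have h2 : ∫ z, g z = ∫ p : ℝ × ℝ, g (Complex.measurableEquivRealProd.symm p) :=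
    (h1.integral_comp' g).symm
  have h3 : Integrable (fun p : ℝ × ℝ => g (Complex.measurableEquivRealProd.symm p))
      ((volume : Measure ℝ).prod volume) :=
    (h1.integrable_comp_emb Complex.measurableEquivRealProd.symm.measurableEmbedding).mpr hg
  rw [h2]
  have h4 := integral_prod_symm (fun p : ℝ × ℝ => g (Complex.measurableEquivRealProd.symm p)) h3
  exact h4

theorem fub_y (g : ℂ → ℝ) (hg : Integrable g) : ∫ z, g z = ∫ x : ℝ, ∫ y : ℝ, g ⟨x, y⟩ := by
  have h1 := (Complex.volume_preserving_equiv_real_prod.symm)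
  have h2 : ∫ z, g z = ∫ p : ℝ × ℝ, g (Complex.measurableEquivRealProd.symm p) :=
    (h1.integral_comp' g).symm
  have h3 : Integrable (fun p : ℝ × ℝ => g (Complex.measurableEquivRealProd.symm p))
      ((volume : Measure ℝ).prod volume) :=
    (h1.integrable_comp_emb Complex.measurableEquivRealProd.symm.measurableEmbedding).mpr hg
  rw [h2]
  have h4 := integral_prod (fun p : ℝ × ℝ => g (Complex.measurableEquivRealProd.symm p)) h3
  exact h4

/-- a function on the line vanishing outside `[-R, R]` whose interval integral vanishes -/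
theorem line (g : ℝ → ℝ) (R : ℝ) (hR : 0 ≤ R) (h0 : ∀ t, R < |t| → g t = 0)
    (h : ∫ t in (-R)..R, g t = 0) : ∫ t, g t = 0 := by
  rw [intervalIntegral.integral_of_le (by linarith)] at h
  rw [← integral_Icc_eq_integral_Ioc] at h
  rw [← setIntegral_eq_integral_of_forall_compl_eq_zero (s := Icc (-R) R)]
  · exact h
  · intro t ht
    apply h0
    by_contra hc
    exact ht (abs_le.mp (not_lt.mp hc))

end GIB_

open GIB_ in
theorem gib_proof (hGAL : Stmt_GAL) (hGUN : Stmt_GUN) (hGLO : Stmt_GLO) : Stmt_GIB := by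
  classical
  intro U C f fx fy hU hCU hC hg h0
  have hCm : MeasurableSet C := hC.measurableSet
  have hUC : IsOpen (U \ C) := hU.sdiff hC.isClosed
  -- the gradient vanishes off `C`
  have h1 : HasGrad (U \ C) f fx fy := (hGAL U hU).1 (U \ C) f fx fy hUC sdiff_subset hg
  have h2 : HasGrad (U \ C) f (fun _ => 0) (fun _ => 0) :=
    (hGAL _ hUC).2.2.2.2 _ _ _ f _ _ ((hGAL _ hUC).2.1 0) (fun z hz => h0 z hz)
      (Eventually.of_forall fun _ => rfl) (Eventually.of_forall fun _ => rfl)
  obtain ⟨h3, h4⟩ := hGUN _ _ _ _ _ _ hUC h1 h2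
  have h5 : ∀ᵐ z : ℂ, z ∈ U \ C → fx z = 0 ∧ fy z = 0 := by
    have a1 := (ae_restrict_iff' hUC.measurableSet).mp h3
    have a2 := (ae_restrict_iff' hUC.measurableSet).mp h4
    filter_upwards [a1, a2] with z b1 b2 hz using ⟨b1 hz, b2 hz⟩
  -- extension by zero
  set F : ℂ → ℝ := C.indicator f with hF
  set Gx : ℂ → ℝ := C.indicator fx with hGx
  set Gy : ℂ → ℝ := C.indicator fy with hGy
  have h6 : HasGrad univ F Gx Gy := by
    refine hGLO univ F Gx Gy isOpen_univ fun z _ => ?_
    by_cases hz : z ∈ U
    · refine ⟨U, hU, hz, subset_univ _, (hGAL U hU).2.2.2.2 f fx fy F Gx Gy hg ?_ ?_ ?_⟩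
      · intro w hw
        by_cases hwC : w ∈ C
        · simp only [hF, indicator_of_mem hwC]
        · simp only [hF, indicator_of_notMem hwC, h0 w ⟨hw, hwC⟩]
      · refine (ae_restrict_iff' hU.measurableSet).mpr ?_
        filter_upwards [h5] with w hw hwU
        by_cases hwC : w ∈ C
        · simp only [hGx, indicator_of_mem hwC]
        · simp only [hGx, indicator_of_notMem hwC, (hw ⟨hwU, hwC⟩).1]
      · refine (ae_restrict_iff' hU.measurableSet).mpr ?_
        filter_upwards [h5] with w hw hwU
        by_cases hwC : w ∈ C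
        · simp only [hGy, indicator_of_mem hwC]
        · simp only [hGy, indicator_of_notMem hwC, (hw ⟨hwU, hwC⟩).2]
    · have hCo : IsOpen Cᶜ := hC.isClosed.isOpen_compl
      refine ⟨Cᶜ, hCo, fun h => hz (hCU h), subset_univ _,
        (hGAL _ hCo).2.2.2.2 _ _ _ F Gx Gy ((hGAL _ hCo).2.1 0) ?_ ?_ ?_⟩
      · intro w hw
        simp only [hF, indicator_of_notMem hw]
      · refine (ae_restrict_iff' hCo.measurableSet).mpr (Eventually.of_forall fun w hw => ?_)
        simp only [hGx, indicator_of_notMem hw]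
      · refine (ae_restrict_iff' hCo.measurableSet).mpr (Eventually.of_forall fun w hw => ?_)
        simp only [hGy, indicator_of_notMem hw]
  -- integrability
  have hsq : IntegrableOn (fun z => fx z ^ 2 + fy z ^ 2) C := hg.loc C hCU hC
  have hone : IntegrableOn (fun _ : ℂ => (1 : ℝ)) C := by
    have : volume C < ⊤ := hC.measure_lt_top
    exact integrableOn_const (by exact this.ne)
  have ix : IntegrableOn fx C := by
    refine Integrable.mono' (hone.add hsq) (hg.mx.mono_set hCU) (Eventually.of_forall fun z => ?_)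
    simp only [Pi.add_apply, Real.norm_eq_abs]
    nlinarith [sq_nonneg (|fx z| - 1), sq_abs (fx z), sq_nonneg (fy z), abs_nonneg (fx z)]
  have iy : IntegrableOn fy C := by
    refine Integrable.mono' (hone.add hsq) (hg.my.mono_set hCU) (Eventually.of_forall fun z => ?_)
    simp only [Pi.add_apply, Real.norm_eq_abs]
    nlinarith [sq_nonneg (|fy z| - 1), sq_abs (fy z), sq_nonneg (fx z), abs_nonneg (fy z)]
  have hsplit : ∀ g : ℂ → ℝ, (∀ᵐ z : ℂ, z ∈ U \ C → g z = 0) → IntegrableOn g C →
      IntegrableOn g U := by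
    intro g h hi
    have : IntegrableOn g (U \ C) := by
      have hz0 : IntegrableOn (fun _ : ℂ => (0 : ℝ)) (U \ C) := integrableOn_zero
      refine Integrable.congr hz0 ?_
      refine (ae_restrict_iff' hUC.measurableSet).mpr ?_
      filter_upwards [h] with z hz hz' using (hz hz').symm
    have h2 := hi.union this
    rwa [union_sdiff_cancel hCU] at h2
  have hI : ∀ g : ℂ → ℝ, (∀ᵐ z : ℂ, z ∈ U \ C → g z = 0) →
      ∫ z in U, g z = ∫ z, C.indicator g z := by
    intro g h
    rw [integral_indicator hCm]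
    refine setIntegral_eq_of_subset_of_ae_sdiff_eq_zero hU.measurableSet.nullMeasurableSet hCU ?_
    filter_upwards [h] with z hz hz' using hz hz'
  -- a ball containing `C`
  obtain ⟨R, hR0, hR⟩ : ∃ R : ℝ, 0 ≤ R ∧ ∀ z ∈ C, ‖z‖ ≤ R := by
    obtain ⟨R, hR⟩ := hC.isBounded.exists_norm_le
    exact ⟨max R 0, le_max_right _ _, fun z hz => (hR z hz).trans (le_max_left _ _)⟩
  have hout : ∀ (g : ℂ → ℝ) (x y : ℝ), (R < |x| ∨ R < |y|) → C.indicator g ⟨x, y⟩ = 0 := by
    intro g x y h
    refine indicator_of_notMem (fun hm => ?_) _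
    have hn := hR _ hm
    rcases h with h | h
    · have := Complex.abs_re_le_norm (⟨x, y⟩ : ℂ)
      simp only at this
      linarith
    · have := Complex.abs_im_le_norm (⟨x, y⟩ : ℂ)
      simp only at this
      linarith
  have hR1 : R < |R + 1| := by rw [abs_of_pos (by linarith)]; linarith
  have hR2 : R < |-(R + 1)| := by rw [abs_neg]; exact hR1
  have ex : ∫ z in U, fx z = 0 := by
    rw [hI fx (by filter_upwards [h5] with z hz hz' using (hz hz').1),
      fub_x _ ((integrable_indicator_iff hCm).mpr ix)]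
    refine integral_eq_zero_of_ae ?_
    filter_upwards [h6.hor] with y hy
    have h7 := (hy (-(R + 1)) (R + 1) (by linarith) (fun _ _ => mem_univ _)).2
    simp only [hF, hGx, hout f (R + 1) y (Or.inl hR1), hout f (-(R + 1)) y (Or.inl hR2),
      sub_zero] at h7
    refine line _ (R + 1) (by linarith) (fun t ht => hout fx t y (Or.inl (by linarith))) h7.symm
  have ey : ∫ z in U, fy z = 0 := by
    rw [hI fy (by filter_upwards [h5] with z hz hz' using (hz hz').2),
      fub_y _ ((integrable_indicator_iff hCm).mpr iy)]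
    refine integral_eq_zero_of_ae ?_
    filter_upwards [h6.ver] with x hx
    have h7 := (hx (-(R + 1)) (R + 1) (by linarith) (fun _ _ => mem_univ _)).2
    simp only [hF, hGy, hout f x (R + 1) (Or.inr hR1), hout f x (-(R + 1)) (Or.inr hR2),
      sub_zero] at h7
    refine line _ (R + 1) (by linarith) (fun t ht => hout fy x t (Or.inr (by linarith))) h7.symm
  refine ⟨hsplit fx (by filter_upwards [h5] with z hz hz' using (hz hz').1) ix,
    hsplit fy (by filter_upwards [h5] with z hz hz' using (hz hz').2) iy,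
    hsplit _ (by filter_upwards [h5] with z hz hz'; rw [(hz hz').1, (hz hz').2]; simp) hsq,
    ex, ey, h5⟩

end Pool.Agent.DMB
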