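import Pool.Agent.DMB.Api

/-!
Module GLO: gradients along lines can be glued from an open cover.
-/

namespace Pool.Agent.DMB

open MeasureTheory Set Metric Filter Topology
open scoped ENNReal

namespace GLO_

/-- one dimensional gluing of the fundamental theorem of calculus -/
theorem oneD {ι : Type*} (c : ι → Set ℝ) (g φ : ℝ → ℝ) (a b : ℝ) (hab : a ≤ b)
    (hc : ∀ i, IsOpen (c i)) (hcov : Icc a b ⊆ ⋃ i, c i)
    (h : ∀ i, ∀ p q : ℝ, p ≤ q → (∀ t ∈ Icc p q, t ∈ c i) →
      IntervalIntegrable φ volume p q ∧ g q - g p = ∫ t in p..q, φ t) :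
    IntervalIntegrable φ volume a b ∧ g b - g a = ∫ t in a..b, φ t := by
  obtain ⟨δ, hδ, hδc⟩ := lebesgue_number_lemma_of_metric isCompact_Icc hc hcov
  obtain ⟨N, hN⟩ := exists_nat_gt ((b - a) / δ)
  have hN0 : (0 : ℝ) < N := lt_of_le_of_lt (div_nonneg (by linarith) hδ.le) hN
  set s : ℝ := (b - a) / N with hs
  have hs0 : 0 ≤ s := div_nonneg (by linarith) hN0.le
  have hsδ : s < δ := by
    rw [hs, div_lt_iff₀ hN0]
    rw [div_lt_iff₀ hδ] at hN
    linarith
  have hNs : (N : ℝ) * s = b - a := by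
    rw [hs]; field_simp
  have key : ∀ k : ℕ, k ≤ N → IntervalIntegrable φ volume a (a + k * s) ∧
      g (a + k * s) - g a = ∫ t in a..(a + k * s), φ t := by
    intro k
    induction k with
    | zero => intro _; simp
    | succ k ih =>
      intro hk
      obtain ⟨i1, i2⟩ := ih (by omega)
      have hk' : ((k : ℝ) + 1) ≤ N := by exact_mod_cast hk
      have hk0 : (0 : ℝ) ≤ k := Nat.cast_nonneg k
      have hmem : a + k * s ∈ Icc a b := by
        refine ⟨by nlinarith, ?_⟩
        nlinarith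
      obtain ⟨i, hi⟩ := hδc _ hmem
      have hle : a + k * s ≤ a + (k + 1 : ℕ) * s := by push_cast; nlinarith
      obtain ⟨j1, j2⟩ := h i (a + k * s) (a + (k + 1 : ℕ) * s) hle (by
        intro t ht
        apply hi
        rw [mem_ball, Real.dist_eq, abs_of_nonneg (by linarith [ht.1])]
        have := ht.2
        push_cast at this
        linarith)
      refine ⟨i1.trans j1, ?_⟩
      rw [← intervalIntegral.integral_add_adjacent_intervals i1 j1, ← i2, ← j2]
      ring
  have := key N le_rfl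
  rw [hNs] at this
  have hb : a + (b - a) = b := by ring
  rwa [hb] at this

end GLO_

open GLO_ in
theorem glo_proof : Stmt_GLO := by
  intro U f fx fy hU hloc
  choose! V hVo hzV hVU hV using hloc
  obtain ⟨T, hTU, hTc, hTcov⟩ := TopologicalSpace.isOpen_biUnion_countable U V hVo
  have hcovU : U ⊆ ⋃ z ∈ T, V z := by
    rw [hTcov]
    intro z hz
    exact mem_biUnion hz (hzV z hz)
  have hUeq : (⋃ z ∈ T, V z) = U := by
    apply Subset.antisymm _ hcovU
    exact iUnion₂_subset fun z hz => hVU z (hTU hz)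
  have hTc' : Countable T := hTc.to_subtype
  have hmeas : ∀ g : ℂ → ℝ, (∀ z ∈ U, AEStronglyMeasurable g (volume.restrict (V z))) →
      AEStronglyMeasurable g (volume.restrict U) := by
    intro g hg
    rw [← hUeq, biUnion_eq_iUnion, aestronglyMeasurable_iUnion_iff]
    intro z
    exact hg z (hTU z.2)
  have hline : ∀ (L : ℝ → ℝ → ℂ) (G Gx : ℂ → ℝ), (∀ y, Continuous (fun t => L y t)) →
      (∀ z ∈ U, ∀ᵐ y : ℝ, ∀ a b : ℝ, a ≤ b → (∀ t ∈ Icc a b, L y t ∈ V z) →
        IntervalIntegrable (fun t : ℝ => Gx (L y t)) volume a b ∧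
        G (L y b) - G (L y a) = ∫ t in a..b, Gx (L y t)) →
      ∀ᵐ y : ℝ, ∀ a b : ℝ, a ≤ b → (∀ t ∈ Icc a b, L y t ∈ U) →
        IntervalIntegrable (fun t : ℝ => Gx (L y t)) volume a b ∧
        G (L y b) - G (L y a) = ∫ t in a..b, Gx (L y t) := by
    intro L G Gx hL hall
    have h1 : ∀ᵐ y : ℝ, ∀ z : T, ∀ a b : ℝ, a ≤ b → (∀ t ∈ Icc a b, L y t ∈ V z) →
        IntervalIntegrable (fun t : ℝ => Gx (L y t)) volume a b ∧
        G (L y b) - G (L y a) = ∫ t in a..b, Gx (L y t) :=
      ae_all_iff.mpr fun z => hall z (hTU z.2)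
    filter_upwards [h1] with y hy a b hab hseg
    refine oneD (fun z : T => (fun t => L y t) ⁻¹' V z) (fun t => G (L y t))
      (fun t => Gx (L y t)) a b hab ?_ ?_ ?_
    · intro z
      exact (hVo z (hTU z.2)).preimage (hL y)
    · intro t ht
      have := hcovU (hseg t ht)
      rw [mem_iUnion₂] at this
      obtain ⟨z, hz, hzt⟩ := this
      exact mem_iUnion.mpr ⟨⟨z, hz⟩, hzt⟩
    · intro z p q hpq hpt
      exact hy z p q hpq hpt
  refine ⟨?_, ?_, ?_, ?_, ?_, ?_⟩
  · intro z hz
    exact ((hV z hz).cont.continuousAt ((hVo z hz).mem_nhds (hzV z hz))).continuousWithinAt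
  · exact hmeas fx fun z hz => (hV z hz).mx
  · exact hmeas fy fun z hz => (hV z hz).my
  · intro C hCU hC
    have hl : LocallyIntegrableOn (fun z => fx z ^ 2 + fy z ^ 2) C := by
      intro z hz
      obtain ⟨r, hr, hrV⟩ := Metric.nhds_basis_closedBall.mem_iff.mp
        ((hVo z (hCU hz)).mem_nhds (hzV z (hCU hz)))
      refine ⟨closedBall z r, mem_nhdsWithin_of_mem_nhds (closedBall_mem_nhds z hr), ?_⟩
      exact (hV z (hCU hz)).loc _ hrV (isCompact_closedBall z r)
    exact hl.integrableOn_isCompact hC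
  · have := hline (fun y t => (⟨t, y⟩ : ℂ)) f fx (fun y => ?_) (fun z hz => (hV z hz).hor)
    · exact this
    · have : (fun t : ℝ => (⟨t, y⟩ : ℂ)) = fun t : ℝ => (t : ℂ) + y * Complex.I := by
        funext t; apply Complex.ext <;> simp
      rw [this]; fun_prop
  · have := hline (fun x t => (⟨x, t⟩ : ℂ)) f fy (fun x => ?_) (fun z hz => (hV z hz).ver)
    · exact this
    · have : (fun t : ℝ => (⟨x, t⟩ : ℂ)) = fun t : ℝ => (x : ℂ) + t * Complex.I := by
        funext t; apply Complex.ext <;> simp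
      rw [this]; fun_prop

end Pool.Agent.DMB
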