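import Pool.Agent.DMB.Api

/-!
Module GMO: smooth approximation of a function with line gradients on a compact set.
-/

set_option autoImplicit false

namespace Pool.Agent.DMB

open MeasureTheory Set Metric Filter Topology
open scoped ENNReal Convolution ContDiff

namespace GMO_

theorem exists_cut (U C : Set ℂ) (hU : IsOpen U) (hCU : C ⊆ U) (hC : IsCompact C) :
    ∃ ψ : ℂ → ℝ, ContDiff ℝ (⊤ : ℕ∞) ψ ∧ HasCompactSupport ψ ∧ tsupport ψ ⊆ U ∧
      (∀ z ∈ C, ψ z = 1) ∧ (∀ z ∈ C, fderiv ℝ ψ z = 0) := by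
  obtain ⟨K, hK, hCK, hKU⟩ := exists_compact_between hC hU hCU
  obtain ⟨f, h1, h0, -⟩ := exists_contMDiffMap_one_nhds_of_subset_interior
    (modelWithCornersSelf ℝ ℂ) (n := (⊤ : ℕ∞)) hC.isClosed hCK
  have hsup : tsupport f ⊆ K := by
    apply closure_minimal _ hK.isClosed
    intro x hx
    by_contra hxK
    exact hx (h0 x hxK)
  refine ⟨f, f.contMDiff.contDiff, ?_, hsup.trans hKU, fun z hz => ?_, fun z hz => ?_⟩
  · exact IsCompact.of_isClosed_subset hK (isClosed_tsupport _) hsup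
  · exact h1.self_of_nhdsSet z hz
  · have h2 : ∀ᶠ x in 𝓝 z, f x = 1 := h1.filter_mono (nhds_le_nhdsSet hz)
    have h3 : (f : ℂ → ℝ) =ᶠ[𝓝 z] fun _ => (1 : ℝ) := h2
    rw [h3.fderiv_eq]
    simp

/-- the cut off function -/
theorem cut_grad (hGAL : Stmt_GAL) (hGMU : Stmt_GMU) (hGC1 : Stmt_GC1) (hGLO : Stmt_GLO)
    (U : Set ℂ) (f fx fy ψ : ℂ → ℝ) (hU : IsOpen U) (hf : HasGrad U f fx fy)
    (hψ : ContDiff ℝ (⊤ : ℕ∞) ψ) (hs : tsupport ψ ⊆ U) :
    HasGrad univ (fun z => ψ z * f z) (fun z => fderiv ℝ ψ z 1 * f z + ψ z * fx z)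
      (fun z => fderiv ℝ ψ z Complex.I * f z + ψ z * fy z) := by
  have h1 : HasGrad U ψ (fun z => fderiv ℝ ψ z 1) (fun z => fderiv ℝ ψ z Complex.I) :=
    hGC1 U ψ hU ((hψ.of_le (by exact_mod_cast le_top)).contDiffOn)
  have h2 := hGMU U ψ _ _ f fx fy hU h1 hf
  apply hGLO univ _ _ _ isOpen_univ
  intro z _
  by_cases hz : z ∈ U
  · exact ⟨U, hU, hz, subset_univ _, h2⟩
  · have hz' : z ∉ tsupport ψ := fun h => hz (hs h)
    refine ⟨(tsupport ψ)ᶜ, (isClosed_tsupport ψ).isOpen_compl, hz', subset_univ _, ?_⟩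
    have hV : IsOpen (tsupport ψ)ᶜ := (isClosed_tsupport ψ).isOpen_compl
    obtain ⟨-, hc, -, -, he⟩ := hGAL _ hV
    have e0 : ∀ w ∈ (tsupport ψ)ᶜ, ψ w = 0 := fun w hw => image_eq_zero_of_notMem_tsupport hw
    have e1 : ∀ w ∈ (tsupport ψ)ᶜ, fderiv ℝ ψ w = 0 := by
      intro w hw
      have : ψ =ᶠ[𝓝 w] fun _ => (0 : ℝ) := by
        filter_upwards [hV.mem_nhds hw] with x hx using e0 x hx
      rw [this.fderiv_eq]
      simp
    refine he _ _ _ _ _ _ (hc 0) (fun w hw => ?_) ?_ ?_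
    · simp [e0 w hw]
    · filter_upwards [ae_restrict_mem hV.measurableSet] with w hw
      simp [e0 w hw, e1 w hw]
    · filter_upwards [ae_restrict_mem hV.measurableSet] with w hw
      simp [e0 w hw, e1 w hw]

/-- square integrable and compactly supported functions are integrable -/
theorem int_of_sq (K : Set ℂ) (hK : IsCompact K) (g : ℂ → ℝ) (hm : AEStronglyMeasurable g volume)
    (h2 : Integrable (fun z => g z ^ 2)) (h0 : ∀ z ∉ K, g z = 0) : Integrable g := by
  have h1 : IntegrableOn g K := by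
    have hfin : volume K < ⊤ := hK.measure_lt_top
    have hc : IntegrableOn (fun _ : ℂ => (1 : ℝ)) K := by
      rw [integrableOn_const_iff]
      right; exact hfin
    refine Integrable.mono' (hc.add h2.integrableOn) hm.restrict ?_
    refine Eventually.of_forall fun z => ?_
    simp only [Pi.add_apply]
    rw [Real.norm_eq_abs]
    nlinarith [sq_abs (g z), sq_nonneg (|g z| - 1), abs_nonneg (g z)]
  have := h1.integrable_of_forall_notMem_eq_zero h0
  exact this

theorem fd_swap (ρ : ℂ → ℝ) (hρ : ContDiff ℝ (⊤ : ℕ∞) ρ) (z w v : ℂ) :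
    fderiv ℝ (fun w => ρ (z - w)) w v = -(fderiv ℝ ρ (z - w) v) := by
  have hd : Differentiable ℝ ρ := hρ.differentiable (by simp)
  have h1 : HasFDerivAt (fun w : ℂ => z - w) (-(ContinuousLinearMap.id ℝ ℂ)) w :=
    (hasFDerivAt_id w).const_sub z
  have h2 : HasFDerivAt (fun w => ρ (z - w)) ((fderiv ℝ ρ (z - w)).comp
      (-(ContinuousLinearMap.id ℝ ℂ))) w := (hd (z - w)).hasFDerivAt.comp w h1
  rw [h2.fderiv]
  simp

/-- derivative of the mollification -/
theorem conv_deriv (hGMU : Stmt_GMU) (hGC1 : Stmt_GC1) (hGIB : Stmt_GIB)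
    (g gx gy : ℂ → ℝ) (K : Set ℂ) (hK : IsCompact K) (hg : HasGrad univ g gx gy)
    (h0 : ∀ z ∉ K, g z = 0) (hx0 : Integrable gx) (hy0 : Integrable gy)
    (ρ : ℂ → ℝ) (hρ : ContDiff ℝ (⊤ : ℕ∞) ρ) (hρc : HasCompactSupport ρ) (z : ℂ) :
    fderiv ℝ (ρ ⋆[ContinuousLinearMap.lsmul ℝ ℝ, volume] g) z 1 =
      (ρ ⋆[ContinuousLinearMap.lsmul ℝ ℝ, volume] gx) z ∧
    fderiv ℝ (ρ ⋆[ContinuousLinearMap.lsmul ℝ ℝ, volume] g) z Complex.I =
      (ρ ⋆[ContinuousLinearMap.lsmul ℝ ℝ, volume] gy) z := by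
  have hgc : Continuous g := by
    have := hg.cont
    rwa [← continuousOn_univ]
  have hgs : HasCompactSupport g := HasCompactSupport.intro hK (fun z hz => h0 z hz)
  have hgi : Integrable g := hgc.integrable_of_hasCompactSupport hgs
  have hρ1 : ContDiff ℝ 1 ρ := hρ.of_le (by exact_mod_cast le_top)
  have hρd : Continuous (fderiv ℝ ρ) := hρ.continuous_fderiv (by simp)
  have hder := hρc.hasFDerivAt_convolution_left (ContinuousLinearMap.lsmul ℝ ℝ) hρ1
    hgi.locallyIntegrable (μ := volume) z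
  have hbd : ∃ M, ∀ z, ‖ρ z‖ ≤ M := hρ.continuous.bounded_above_of_compact_support hρc
  obtain ⟨M, hM⟩ := hbd
  -- the function `w ↦ ρ (z - w)`
  set r : ℂ → ℝ := fun w => ρ (z - w) with hr
  have hrs : ContDiff ℝ (⊤ : ℕ∞) r := hρ.comp (contDiff_const.sub contDiff_id)
  have hrg : HasGrad univ r (fun w => fderiv ℝ r w 1) (fun w => fderiv ℝ r w Complex.I) :=
    hGC1 univ r isOpen_univ (hrs.of_le (by exact_mod_cast le_top)).contDiffOn
  have hprod := hGMU univ g gx gy r _ _ isOpen_univ hg hrg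
  obtain ⟨-, -, -, hI1, hI2, -⟩ := hGIB univ K _ _ _ isOpen_univ (subset_univ _) hK hprod
    (fun w hw => by
      have : w ∉ K := hw.2
      simp [h0 w this])
  rw [setIntegral_univ] at hI1 hI2
  have key : ∀ (v : ℂ) (gv : ℂ → ℝ), Integrable gv →
      ∫ w, (gv w * r w + g w * fderiv ℝ r w v) = 0 →
      fderiv ℝ (ρ ⋆[ContinuousLinearMap.lsmul ℝ ℝ, volume] g) z v =
      (ρ ⋆[ContinuousLinearMap.lsmul ℝ ℝ, volume] gv) z := by
    intro v gv hgv hI
    have i1 : Integrable (fun w => gv w * r w) := by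
      refine hgv.mul_bdd (c := M) hrs.continuous.aestronglyMeasurable ?_
      exact Eventually.of_forall fun w => hM _
    have i2 : Integrable (fun w => g w * fderiv ℝ r w v) := by
      have hcont : Continuous (fun w => g w * fderiv ℝ r w v) :=
        hgc.mul ((hrs.continuous_fderiv (by simp)).clm_apply continuous_const)
      exact hcont.integrable_of_hasCompactSupport hgs.mul_right
    rw [integral_add i1 i2] at hI
    have e1 : (fderiv ℝ ρ ⋆[ContinuousLinearMap.precompL ℂ (ContinuousLinearMap.lsmul ℝ ℝ), volume] g) z v =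
        ∫ t, fderiv ℝ ρ t v * g (z - t) := by
      have hconv : ConvolutionExistsAt (fderiv ℝ ρ) g z
          (ContinuousLinearMap.precompL ℂ (ContinuousLinearMap.lsmul ℝ ℝ)) volume :=
        (hρc.fderiv ℝ).convolutionExists_left _ hρd hgi.locallyIntegrable z
      rw [convolution, ContinuousLinearMap.integral_apply hconv]
      rfl
    have e2 : ∫ t, fderiv ℝ ρ t v * g (z - t) = ∫ w, fderiv ℝ ρ (z - w) v * g w := by
      rw [← integral_sub_left_eq_self (fun t => fderiv ℝ ρ t v * g (z - t)) volume z]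
      simp
    have e3 : (ρ ⋆[ContinuousLinearMap.lsmul ℝ ℝ, volume] gv) z = ∫ w, gv w * r w := by
      rw [convolution, ← integral_sub_left_eq_self _ volume z]
      refine integral_congr_ae (Eventually.of_forall fun w => ?_)
      simp [hr, mul_comm]
    have e4 : ∫ w, g w * fderiv ℝ r w v = -∫ w, fderiv ℝ ρ (z - w) v * g w := by
      rw [← integral_neg]
      refine integral_congr_ae (Eventually.of_forall fun w => ?_)
      simp only [hr, fd_swap ρ hρ z w v]
      ring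
    rw [hder.fderiv, e1, e2, e3]
    linarith
  exact ⟨key 1 gx hx0 hI1, key Complex.I gy hy0 hI2⟩

end GMO_

theorem gmo_proof (hGAL : Stmt_GAL) (hGMU : Stmt_GMU) (hGC1 : Stmt_GC1) (_hGUN : Stmt_GUN)
    (hGLO : Stmt_GLO) (hGIB : Stmt_GIB) (hMOL : Stmt_MOL) : Stmt_GMO := by
  intro U C f fx fy hU hCU hC hf ε hε
  obtain ⟨ψ, hψ, hψc, hψU, hψ1, hψd⟩ := GMO_.exists_cut U C hU hCU hC
  have hg := GMO_.cut_grad hGAL hGMU hGC1 hGLO U f fx fy ψ hU hf hψ hψU
  set g : ℂ → ℝ := fun z => ψ z * f z with hgdef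
  set gx : ℂ → ℝ := fun z => fderiv ℝ ψ z 1 * f z + ψ z * fx z with hgxdef
  set gy : ℂ → ℝ := fun z => fderiv ℝ ψ z Complex.I * f z + ψ z * fy z with hgydef
  have hKc : IsCompact (tsupport ψ) := hψc
  have e0 : ∀ w ∉ tsupport ψ, ψ w = 0 := fun w hw => image_eq_zero_of_notMem_tsupport hw
  have e1 : ∀ w ∉ tsupport ψ, fderiv ℝ ψ w = 0 := by
    intro w hw
    have : ψ =ᶠ[𝓝 w] fun _ => (0 : ℝ) := by
      filter_upwards [(isClosed_tsupport ψ).isOpen_compl.mem_nhds hw] with x hx using e0 x hx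
    rw [this.fderiv_eq]
    simp
  have g0 : ∀ z ∉ tsupport ψ, g z = 0 := fun z hz => by simp [hgdef, e0 z hz]
  have gx0 : ∀ z ∉ tsupport ψ, gx z = 0 := fun z hz => by simp [hgxdef, e0 z hz, e1 z hz]
  have gy0 : ∀ z ∉ tsupport ψ, gy z = 0 := fun z hz => by simp [hgydef, e0 z hz, e1 z hz]
  obtain ⟨hx1, hy1, hxy, -⟩ := hGIB univ (tsupport ψ) g gx gy isOpen_univ (subset_univ _) hKc hg
    (fun z hz => g0 z hz.2)
  rw [integrableOn_univ] at hx1 hy1 hxy
  have hgc : Continuous g := by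
    have := hg.cont
    rwa [← continuousOn_univ]
  have hgs : HasCompactSupport g := HasCompactSupport.intro hKc (fun z hz => g0 z hz)
  have hx2 : Integrable (fun z => gx z ^ 2) := by
    refine hxy.mono' (hx1.aestronglyMeasurable.pow 2) (Eventually.of_forall fun z => ?_)
    rw [Real.norm_eq_abs, abs_of_nonneg (sq_nonneg _)]
    nlinarith [sq_nonneg (gy z)]
  have hy2 : Integrable (fun z => gy z ^ 2) := by
    refine hxy.mono' (hy1.aestronglyMeasurable.pow 2) (Eventually.of_forall fun z => ?_)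
    rw [Real.norm_eq_abs, abs_of_nonneg (sq_nonneg _)]
    nlinarith [sq_nonneg (gx z)]
  obtain ⟨δ1, hδ1, hmx⟩ := hMOL gx hx1.aestronglyMeasurable hx2 (ε / 2) (by positivity)
  obtain ⟨δ2, hδ2, hmy⟩ := hMOL gy hy1.aestronglyMeasurable hy2 (ε / 2) (by positivity)
  have huc : UniformContinuous g := hgs.uniformContinuous_of_continuous hgc
  obtain ⟨δ3, hδ3, hu⟩ := Metric.uniformContinuous_iff.mp huc ε hε
  set δ := min δ1 (min δ2 δ3) with hδdef
  have hδ : 0 < δ := lt_min hδ1 (lt_min hδ2 hδ3)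
  let φ : ContDiffBump (0 : ℂ) := ⟨δ / 4, δ / 2, by positivity, by linarith⟩
  have hφ : φ.rOut = δ / 2 := rfl
  have hφ1 : φ.rOut < δ1 := by rw [hφ]; linarith [min_le_left δ1 (min δ2 δ3)]
  have hφ2 : φ.rOut < δ2 := by
    rw [hφ]; linarith [min_le_right δ1 (min δ2 δ3), min_le_left δ2 δ3]
  have hφ3 : φ.rOut < δ3 := by
    rw [hφ]; linarith [min_le_right δ1 (min δ2 δ3), min_le_right δ2 δ3]
  obtain ⟨hix, hlex⟩ := hmx φ hφ1
  obtain ⟨hiy, hley⟩ := hmy φ hφ2
  have hρ : ContDiff ℝ (⊤ : ℕ∞) (φ.normed volume) := φ.contDiff_normed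
  have hρc : HasCompactSupport (φ.normed volume) := φ.hasCompactSupport_normed
  have hgi : Integrable g := hgc.integrable_of_hasCompactSupport hgs
  refine ⟨φ.normed volume ⋆[ContinuousLinearMap.lsmul ℝ ℝ, volume] g, ?_, ?_, ?_⟩
  · exact hρc.contDiff_convolution_left _ hρ hgi.locallyIntegrable
  · intro z hz
    have h1 : f z = g z := by simp [hgdef, hψ1 z hz]
    rw [h1, ← Real.dist_eq]
    apply ContDiffBump.dist_normed_convolution_le hgc.aestronglyMeasurable
    intro x hx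
    exact (hu (lt_trans hx hφ3)).le
  · have hcd := fun z => GMO_.conv_deriv hGMU hGC1 hGIB g gx gy (tsupport ψ) hKc hg g0 hx1 hy1
      (φ.normed volume) hρ hρc z
    have e : ∫ z in C, ((fderiv ℝ (φ.normed volume ⋆[ContinuousLinearMap.lsmul ℝ ℝ, volume] g)
        z 1 - fx z) ^ 2 + (fderiv ℝ (φ.normed volume ⋆[ContinuousLinearMap.lsmul ℝ ℝ, volume] g)
        z Complex.I - fy z) ^ 2) =
        ∫ z in C, (((φ.normed volume ⋆[ContinuousLinearMap.lsmul ℝ ℝ, volume] gx) z - gx z) ^ 2 +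
          ((φ.normed volume ⋆[ContinuousLinearMap.lsmul ℝ ℝ, volume] gy) z - gy z) ^ 2) := by
      refine setIntegral_congr_fun hC.measurableSet fun z hz => ?_
      have a1 : fx z = gx z := by simp [hgxdef, hψ1 z hz, hψd z hz]
      have a2 : fy z = gy z := by simp [hgydef, hψ1 z hz, hψd z hz]
      simp only [(hcd z).1, (hcd z).2, a1, a2]
    rw [e]
    calc ∫ z in C, (((φ.normed volume ⋆[ContinuousLinearMap.lsmul ℝ ℝ, volume] gx) z - gx z) ^ 2 +
          ((φ.normed volume ⋆[ContinuousLinearMap.lsmul ℝ ℝ, volume] gy) z - gy z) ^ 2)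
        ≤ ∫ z, (((φ.normed volume ⋆[ContinuousLinearMap.lsmul ℝ ℝ, volume] gx) z - gx z) ^ 2 +
          ((φ.normed volume ⋆[ContinuousLinearMap.lsmul ℝ ℝ, volume] gy) z - gy z) ^ 2) :=
          setIntegral_le_integral (hix.add hiy) (Eventually.of_forall fun z => by positivity)
      _ ≤ ε := by
          rw [integral_add hix hiy]
          linarith

end Pool.Agent.DMB
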