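import Pool.Agent.DMB.Api

/-!
MP_71cfa6_an, squad DMB: module GMU, products of functions with a gradient along lines.
-/

set_option autoImplicit false

namespace Pool.Agent.DMB

open MeasureTheory Set Metric Filter Topology
open scoped ENNReal

namespace GMU_

theorem prod_int {u w : ℝ → ℝ} {a b : ℝ} (hab : a ≤ b) (hu : IntervalIntegrable u volume a b)
    (hw : IntervalIntegrable w volume a b) :
    ∫ t in a..b, (u t * (∫ s in a..t, w s) + (∫ s in a..t, u s) * w t) =
      (∫ s in a..b, u s) * ∫ s in a..b, w s := by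
  have hU := hu.absolutelyContinuousOnInterval_intervalIntegral (c := a) (by simp)
  have hW := hw.absolutelyContinuousOnInterval_intervalIntegral (c := a) (by simp)
  have h := AbsolutelyContinuousOnInterval.integral_deriv_mul_eq_sub hU hW
  rw [intervalIntegral.integral_same, zero_mul, sub_zero] at h
  rw [← h]
  refine intervalIntegral.integral_congr_ae ?_
  filter_upwards [hu.ae_hasDerivAt_integral, hw.ae_hasDerivAt_integral] with t h1 h2 ht
  have ht' : t ∈ uIcc a b := uIoc_subset_uIcc ht
  have e1 := (h1 ht' a (by simp)).deriv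
  have e2 := (h2 ht' a (by simp)).deriv
  rw [e1, e2]

theorem prod_rule {F G u w : ℝ → ℝ} {a b : ℝ} (hab : a ≤ b) (hu : IntervalIntegrable u volume a b)
    (hw : IntervalIntegrable w volume a b)
    (hF : ∀ t ∈ Icc a b, F t - F a = ∫ s in a..t, u s)
    (hG : ∀ t ∈ Icc a b, G t - G a = ∫ s in a..t, w s)
    (cF : ContinuousOn F (Icc a b)) (cG : ContinuousOn G (Icc a b)) :
    IntervalIntegrable (fun t => u t * G t + F t * w t) volume a b ∧
      F b * G b - F a * G a = ∫ t in a..b, (u t * G t + F t * w t) := by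
  have cF' : ContinuousOn F (uIcc a b) := by rwa [uIcc_of_le hab]
  have cG' : ContinuousOn G (uIcc a b) := by rwa [uIcc_of_le hab]
  have hI : ContinuousOn (fun t => ∫ s in a..t, u s) (uIcc a b) := by
    rw [uIcc_of_le hab]
    exact (cF.sub continuousOn_const).congr fun t ht => (hF t ht).symm
  have hJ : ContinuousOn (fun t => ∫ s in a..t, w s) (uIcc a b) := by
    rw [uIcc_of_le hab]
    exact (cG.sub continuousOn_const).congr fun t ht => (hG t ht).symm
  refine ⟨(hu.mul_continuousOn cG').add (hw.continuousOn_mul cF'), ?_⟩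
  have h1 := prod_int hab hu hw
  have e : ∫ t in a..b, (u t * G t + F t * w t) = ∫ t in a..b, ((G a * u t + F a * w t) +
      (u t * (∫ s in a..t, w s) + (∫ s in a..t, u s) * w t)) := by
    refine intervalIntegral.integral_congr ?_
    intro t ht
    rw [uIcc_of_le hab] at ht
    have e1 := hF t ht
    have e2 := hG t ht
    show u t * G t + F t * w t = (G a * u t + F a * w t) +
      (u t * (∫ s in a..t, w s) + (∫ s in a..t, u s) * w t)
    rw [← e1, ← e2]
    ring
  rw [e, intervalIntegral.integral_add ((hu.const_mul _).add (hw.const_mul _))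
    ((hu.mul_continuousOn hJ).add (hw.continuousOn_mul hI)), h1,
    intervalIntegral.integral_add (hu.const_mul _) (hw.const_mul _),
    intervalIntegral.integral_const_mul, intervalIntegral.integral_const_mul,
    ← hF b ⟨hab, le_rfl⟩, ← hG b ⟨hab, le_rfl⟩]
  ring

end GMU_

open GMU_ in
theorem gmu_proof (_hGAL : Stmt_GAL) : Stmt_GMU := by
  intro U f fx fy g gx gy hU hf hg
  have mf : AEStronglyMeasurable f (volume.restrict U) :=
    hf.cont.aestronglyMeasurable hU.measurableSet
  have mg : AEStronglyMeasurable g (volume.restrict U) :=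
    hg.cont.aestronglyMeasurable hU.measurableSet
  refine ⟨hf.cont.mul hg.cont, (hf.mx.mul mg).add (mf.mul hg.mx), (hf.my.mul mg).add (mf.mul hg.my),
    ?_, ?_, ?_⟩
  · intro C hC hCc
    obtain ⟨A, hA⟩ := hCc.exists_bound_of_continuousOn (hf.cont.mono hC)
    obtain ⟨B, hB⟩ := hCc.exists_bound_of_continuousOn (hg.cont.mono hC)
    have hm : AEStronglyMeasurable (fun z => (fx z * g z + f z * gx z) ^ 2
        + (fy z * g z + f z * gy z) ^ 2) (volume.restrict C) :=
      ((((hf.mx.mul mg).add (mf.mul hg.mx)).pow 2).add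
        (((hf.my.mul mg).add (mf.mul hg.my)).pow 2)).mono_set hC
    refine Integrable.mono' (((hf.loc C hC hCc).const_mul (2 * B ^ 2)).add
      ((hg.loc C hC hCc).const_mul (2 * A ^ 2))) hm ?_
    refine (ae_restrict_iff' hCc.measurableSet).2 (Eventually.of_forall fun z hz => ?_)
    have h1 := hA z hz
    have h2 := hB z hz
    rw [Real.norm_eq_abs] at h1 h2
    have h3 : f z ^ 2 ≤ A ^ 2 := by
      rw [← sq_abs]
      exact pow_le_pow_left₀ (abs_nonneg _) h1 2
    have h4 : g z ^ 2 ≤ B ^ 2 := by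
      rw [← sq_abs]
      exact pow_le_pow_left₀ (abs_nonneg _) h2 2
    rw [Real.norm_of_nonneg (by positivity)]
    simp only [Pi.add_apply]
    have i1 := sq_nonneg (fx z * g z - f z * gx z)
    have i2 := sq_nonneg (fy z * g z - f z * gy z)
    have i3 : 0 ≤ (fx z ^ 2 + fy z ^ 2) * (B ^ 2 - g z ^ 2) :=
      mul_nonneg (by positivity) (by linarith)
    have i4 : 0 ≤ (gx z ^ 2 + gy z ^ 2) * (A ^ 2 - f z ^ 2) :=
      mul_nonneg (by positivity) (by linarith)
    nlinarith
  · filter_upwards [hf.hor, hg.hor] with y h1 h2 a b hab hs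
    have hline : ContinuousOn (fun t : ℝ => (⟨t, y⟩ : ℂ)) (Icc a b) := by
      have : Continuous (fun t : ℝ => (⟨t, y⟩ : ℂ)) :=
        Complex.equivRealProdCLM.symm.continuous.comp (continuous_id.prodMk continuous_const)
      exact this.continuousOn
    have hmaps : MapsTo (fun t : ℝ => (⟨t, y⟩ : ℂ)) (Icc a b) U := fun t ht => hs t ht
    exact prod_rule (F := fun t : ℝ => f ⟨t, y⟩) (G := fun t : ℝ => g ⟨t, y⟩) hab
      (h1 a b hab hs).1 (h2 a b hab hs).1
      (fun t ht => (h1 a t ht.1 fun s hs' => hs s ⟨hs'.1, hs'.2.trans ht.2⟩).2)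
      (fun t ht => (h2 a t ht.1 fun s hs' => hs s ⟨hs'.1, hs'.2.trans ht.2⟩).2)
      (hf.cont.comp hline hmaps) (hg.cont.comp hline hmaps)
  · filter_upwards [hf.ver, hg.ver] with x h1 h2 a b hab hs
    have hline : ContinuousOn (fun t : ℝ => (⟨x, t⟩ : ℂ)) (Icc a b) := by
      have : Continuous (fun t : ℝ => (⟨x, t⟩ : ℂ)) :=
        Complex.equivRealProdCLM.symm.continuous.comp (continuous_const.prodMk continuous_id)
      exact this.continuousOn
    have hmaps : MapsTo (fun t : ℝ => (⟨x, t⟩ : ℂ)) (Icc a b) U := fun t ht => hs t ht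
    exact prod_rule (F := fun t : ℝ => f ⟨x, t⟩) (G := fun t : ℝ => g ⟨x, t⟩) hab
      (h1 a b hab hs).1 (h2 a b hab hs).1
      (fun t ht => (h1 a t ht.1 fun s hs' => hs s ⟨hs'.1, hs'.2.trans ht.2⟩).2)
      (fun t ht => (h2 a t ht.1 fun s hs' => hs s ⟨hs'.1, hs'.2.trans ht.2⟩).2)
      (hf.cont.comp hline hmaps) (hg.cont.comp hline hmaps)

end Pool.Agent.DMB
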