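import Pool.Agent.DMB.Api

set_option autoImplicit false

/-!
Module GRI of the squad DMB: the growth inequalities on good radii.
-/

namespace Pool.Agent.DMB

open MeasureTheory Set Metric Filter Topology
open scoped ENNReal

namespace GRI_

variable {K n : ℕ}

/-! ### algebra -/

theorem rd_sh (θ : ℝ) (X Y : Mat K n) (α : Fin n → ℝ) :
    Flat.rd θ X (sh Y α) = sh (Flat.rd θ X Y) (Real.sin θ • α) := by
  funext i l
  simp only [Flat.rd, sh, Pi.add_apply, Pi.smul_apply, smul_eq_mul]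
  ring

theorem tg_sh (θ : ℝ) (X Y : Mat K n) (α : Fin n → ℝ) :
    Flat.tg θ X (sh Y α) = sh (Flat.tg θ X Y) (Real.cos θ • α) := by
  funext i l
  simp only [Flat.tg, sh, Pi.add_apply, Pi.smul_apply, smul_eq_mul]
  ring

theorem sq_le_nsq (V : Mat K n) (i : Fin K) (l : Fin n) : V i l ^ 2 ≤ nsq V := by
  have h1 : V i l ^ 2 ≤ ∑ l, V i l ^ 2 :=
    Finset.single_le_sum (f := fun l => V i l ^ 2) (fun _ _ => sq_nonneg _) (Finset.mem_univ l)
  have h2 : ∑ l, V i l ^ 2 ≤ nsq V :=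
    Finset.single_le_sum (f := fun i => ∑ l, V i l ^ 2)
      (fun _ _ => Finset.sum_nonneg fun _ _ => sq_nonneg _) (Finset.mem_univ i)
  exact h1.trans h2

theorem nsq_sh_expand (V : Mat K n) (b : Fin n → ℝ) :
    nsq (sh V b) = ∑ i, ∑ l, (V i l - b l) ^ 2 := rfl

/-- quadratic dependence on the tilt -/
theorem quad_int {X : Type*} [MeasurableSpace X] {μ : Measure X} [IsFiniteMeasure μ]
    {V : X → Mat K n} {u : X → ℝ} {B : ℝ}
    (hVm : ∀ i l, AEStronglyMeasurable (fun x => V x i l) μ)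
    (hV : Integrable (fun x => nsq (V x)) μ) (hum : AEStronglyMeasurable u μ)
    (huB : ∀ x, |u x| ≤ B) :
    (∀ α : Fin n → ℝ, Integrable (fun x => nsq (sh (V x) (u x • α))) μ) ∧
    Continuous (fun α : Fin n → ℝ => ∫ x, nsq (sh (V x) (u x • α)) ∂μ) := by
  have hM : ∀ i l, MemLp (fun x => V x i l) 2 μ := by
    intro i l
    rw [memLp_two_iff_integrable_sq (hVm i l)]
    refine hV.mono ((hVm i l).pow 2) (ae_of_all _ fun x => ?_)
    rw [Real.norm_of_nonneg (sq_nonneg _), Real.norm_of_nonneg (nsq_nonneg _)]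
    exact sq_le_nsq _ i l
  have hu2 : MemLp u 2 μ := MemLp.of_bound hum B (ae_of_all _ fun x => by
    rw [Real.norm_eq_abs]; exact huB x)
  have hVV : ∀ i l, Integrable (fun x => V x i l ^ 2) μ := fun i l => (hM i l).integrable_sq
  have huV : ∀ i l, Integrable (fun x => u x * V x i l) μ := fun i l =>
    hu2.integrable_mul (hM i l)
  have huu : Integrable (fun x => u x ^ 2) μ := hu2.integrable_sq
  have key : ∀ i l (a : ℝ), Integrable (fun x => (V x i l - u x * a) ^ 2) μ ∧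
      ∫ x, (V x i l - u x * a) ^ 2 ∂μ = ∫ x, V x i l ^ 2 ∂μ - 2 * a * ∫ x, u x * V x i l ∂μ +
        a ^ 2 * ∫ x, u x ^ 2 ∂μ := by
    intro i l a
    have e : (fun x => (V x i l - u x * a) ^ 2) = fun x => (V x i l ^ 2 -
        (2 * a) * (u x * V x i l)) + a ^ 2 * u x ^ 2 := by
      funext x; ring
    rw [e]
    have i1 : Integrable (fun x => V x i l ^ 2 - (2 * a) * (u x * V x i l)) μ :=
      (hVV i l).sub ((huV i l).const_mul (2 * a))
    have i2 := huu.const_mul (a ^ 2)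
    refine ⟨i1.add i2, ?_⟩
    rw [integral_add i1 i2, integral_sub (hVV i l) ((huV i l).const_mul (2 * a)),
      integral_const_mul, integral_const_mul]
  have hI : ∀ α : Fin n → ℝ, Integrable (fun x => nsq (sh (V x) (u x • α))) μ := by
    intro α
    simp only [nsq_sh_expand, Pi.smul_apply, smul_eq_mul]
    exact integrable_finsetSum _ fun i _ => integrable_finsetSum _ fun l _ => (key i l (α l)).1
  refine ⟨hI, ?_⟩
  have e : (fun α : Fin n → ℝ => ∫ x, nsq (sh (V x) (u x • α)) ∂μ) =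
      fun α => ∑ i, ∑ l, (∫ x, V x i l ^ 2 ∂μ - 2 * α l * ∫ x, u x * V x i l ∂μ +
        α l ^ 2 * ∫ x, u x ^ 2 ∂μ) := by
    funext α
    simp only [nsq_sh_expand, Pi.smul_apply, smul_eq_mul]
    rw [integral_finsetSum _ fun i _ => integrable_finsetSum _ fun l _ => (key i l (α l)).1]
    refine Finset.sum_congr rfl fun i _ => ?_
    rw [integral_finsetSum _ fun l _ => (key i l (α l)).1]
    exact Finset.sum_congr rfl fun l _ => (key i l (α l)).2
  rw [e]
  refine continuous_finsetSum _ fun i _ => continuous_finsetSum _ fun l _ => ?_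
  have hc : Continuous fun α : Fin n → ℝ => α l := continuous_apply l
  exact (continuous_const.sub ((continuous_const.mul hc).mul continuous_const)).add
    ((hc.pow 2).mul continuous_const)

/-- the version for interval integrals on `(0, π)` -/
theorem quad_ii {V : ℝ → Mat K n} {u : ℝ → ℝ} {B : ℝ}
    (hVm : ∀ i l, AEStronglyMeasurable (fun x => V x i l) (volume.restrict (Ioc 0 Real.pi)))
    (hV : IntervalIntegrable (fun x => nsq (V x)) volume 0 Real.pi) (hum : Continuous u)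
    (huB : ∀ x, |u x| ≤ B) :
    (∀ α : Fin n → ℝ,
      IntervalIntegrable (fun x => nsq (sh (V x) (u x • α))) volume 0 Real.pi) ∧
    Continuous (fun α : Fin n → ℝ => ∫ x in (0 : ℝ)..Real.pi, nsq (sh (V x) (u x • α))) := by
  have hpi := Real.pi_pos.le
  rw [intervalIntegrable_iff_integrableOn_Ioc_of_le hpi] at hV
  obtain ⟨h1, h2⟩ := quad_int (μ := volume.restrict (Ioc 0 Real.pi)) hVm hV
    hum.aestronglyMeasurable huB
  refine ⟨fun α => (intervalIntegrable_iff_integrableOn_Ioc_of_le hpi).2 (h1 α), ?_⟩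
  simp only [intervalIntegral.integral_of_le hpi]
  exact h2

/-- functions with the same primitive agree almost everywhere -/
theorem ae_eq_of_prim {u v : ℝ → ℝ} (hu : IntervalIntegrable u volume 0 Real.pi)
    (hv : IntervalIntegrable v volume 0 Real.pi)
    (h : ∀ θ ∈ Icc 0 Real.pi, ∫ t in (0 : ℝ)..θ, u t = ∫ t in (0 : ℝ)..θ, v t) :
    ∀ᵐ θ : ℝ, θ ∈ Ioo 0 Real.pi → u θ = v θ := by
  filter_upwards [hu.ae_hasDerivAt_integral, hv.ae_hasDerivAt_integral] with θ h1 h2 hθ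
  have hm : θ ∈ uIcc 0 Real.pi := by
    rw [uIcc_of_le Real.pi_pos.le]; exact Ioo_subset_Icc_self hθ
  have hl : (0 : ℝ) ∈ uIcc 0 Real.pi := left_mem_uIcc
  have d1 := h1 hm 0 hl
  have d2 := h2 hm 0 hl
  have e : (fun x => ∫ t in (0 : ℝ)..x, u t) =ᶠ[𝓝 θ] fun x => ∫ t in (0 : ℝ)..x, v t := by
    filter_upwards [Ioo_mem_nhds hθ.1 hθ.2] with x hx
    exact h x (Ioo_subset_Icc_self hx)
  exact d1.unique (d2.congr_of_eventuallyEq e)

/-! ### the circle -/

theorem cm_zero (q r : ℝ) : cm q r 0 = ((q + r : ℝ) : ℂ) := by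
  simp [cm]

theorem cm_pi (q r : ℝ) : cm q r Real.pi = ((q - r : ℝ) : ℂ) := by
  simp [cm, Complex.exp_pi_mul_I, sub_eq_add_neg]

theorem cm_mem {q r R θ : ℝ} (hr : 0 < r) (h : |q| + r < R) (hθ : θ ∈ Icc 0 Real.pi) :
    cm q r θ ∈ HDc 0 R := by
  refine ⟨?_, ?_⟩
  · rw [cm_im]
    exact mul_nonneg hr.le (Real.sin_nonneg_of_nonneg_of_le_pi hθ.1 hθ.2)
  · have h1 : ‖(q : ℂ)‖ = |q| := by simp
    calc ‖cm q r θ - ((0 : ℝ) : ℂ)‖ = ‖(cm q r θ - q) + q‖ := by simp
      _ ≤ ‖cm q r θ - q‖ + ‖(q : ℂ)‖ := norm_add_le _ _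
      _ = r + |q| := by rw [norm_cm_sub, h1, abs_of_pos hr]
      _ < R := by linarith

theorem cm_cont (q r : ℝ) : Continuous (cm q r) := by
  unfold cm
  fun_prop

theorem HDc_sub {q r R : ℝ} (h : |q| + r ≤ R) : HDc q r ⊆ HDc 0 R := fun z hz => by
  refine ⟨hz.1, ?_⟩
  have h1 : ‖(q : ℂ)‖ = |q| := by simp
  calc ‖z - ((0 : ℝ) : ℂ)‖ = ‖(z - q) + q‖ := by simp
    _ ≤ ‖z - q‖ + ‖(q : ℂ)‖ := norm_add_le _ _
    _ < r + |q| := by rw [h1]; linarith [hz.2]
    _ ≤ R := by linarith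

/-- components of the sorted sheets are continuous -/
theorem xi_cont (hMET : Stmt_MET) (hXIL : Stmt_XIL) {A : Set ℂ} {u : ℂ → Tup K n}
    (hu : ContG A u) (i : Fin K) (l : Fin n) : ContinuousOn (fun z => xi (u z) i l) A := by
  intro z hz
  rw [ContinuousWithinAt, tendsto_iff_norm_sub_tendsto_zero]
  refine squeeze_zero (fun w => norm_nonneg _) (fun w => ?_) (hu z hz)
  obtain ⟨h1, -⟩ := hXIL K n (u w) (u z)
  obtain ⟨h0, -⟩ := hMET K n (u w) (u z) (u z)
  have h2 := sq_le_nsq (xi (u w) - xi (u z)) i l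
  rw [Real.norm_eq_abs]
  refine abs_le_of_sq_le_sq ?_ h0
  calc (xi (u w) i l - xi (u z) i l) ^ 2 = (xi (u w) - xi (u z)) i l ^ 2 := rfl
    _ ≤ dG (u w) (u z) ^ 2 := h2.trans h1

/-- a good slice -/
def SL (u : ℂ → Tup K n) (X Y : ℂ → Mat K n) (q r : ℝ) : Prop :=
  ∀ i l, IntervalIntegrable (fun θ => X (cm q r θ) i l) volume 0 Real.pi ∧
    IntervalIntegrable (fun θ => Y (cm q r θ) i l) volume 0 Real.pi ∧
    IntervalIntegrable (fun θ => X (cm q r θ) i l ^ 2 + Y (cm q r θ) i l ^ 2) volume 0 Real.pi ∧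
    ∀ θ₁ ∈ Icc 0 Real.pi, ∀ θ₂ ∈ Icc 0 Real.pi,
      xi (u (cm q r θ₂)) i l - xi (u (cm q r θ₁)) i l =
      ∫ θ in θ₁..θ₂, r * (-(Real.sin θ) * X (cm q r θ) i l + Real.cos θ * Y (cm q r θ) i l)

theorem SL_ae (hMET : Stmt_MET) (hXIL : Stmt_XIL) (hGAL : Stmt_GAL) (hSLC : Stmt_SLC)
    {u : ℂ → Tup K n} {X Y : ℂ → Mat K n} {R q : ℝ} (hq : |q| < R)
    (hu : ContG (HDc 0 R) u) (hg : HasGradV (HD 0 R) (fun z => xi (u z)) X Y)
    (hI : IntegrableOn (ed X Y) (HD 0 R)) :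
    ∀ᵐ r : ℝ, r ∈ Ioo 0 (R - |q|) → SL u X Y q r := by
  have hsub : HD q (R - |q|) ⊆ HD 0 R := HD_sub (by linarith)
  have hsubc : HDc q (R - |q|) ⊆ HDc 0 R := HDc_sub (by linarith)
  have h : ∀ i l, ∀ᵐ ρ : ℝ, ρ ∈ Ioo 0 (R - |q|) →
    IntervalIntegrable (fun θ => X (cm q ρ θ) i l) volume 0 Real.pi ∧
    IntervalIntegrable (fun θ => Y (cm q ρ θ) i l) volume 0 Real.pi ∧
    IntervalIntegrable (fun θ => X (cm q ρ θ) i l ^ 2 + Y (cm q ρ θ) i l ^ 2) volume 0 Real.pi ∧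
    ∀ θ₁ ∈ Icc 0 Real.pi, ∀ θ₂ ∈ Icc 0 Real.pi,
      xi (u (cm q ρ θ₂)) i l - xi (u (cm q ρ θ₁)) i l =
      ∫ θ in θ₁..θ₂, ρ * (-(Real.sin θ) * X (cm q ρ θ) i l +
        Real.cos θ * Y (cm q ρ θ) i l) := by
    intro i l
    have hg1 := (hGAL (HD 0 R) (isOpen_HD 0 R)).1 (HD q (R - |q|)) _ _ _ (isOpen_HD _ _) hsub
      (hg i l)
    refine hSLC q (R - |q|) (fun z => xi (u z) i l) (fun z => X z i l) (fun z => Y z i l)
      (by linarith) ((xi_cont hMET hXIL hu i l).mono hsubc) hg1 ?_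
    refine Integrable.mono (hI.mono_set hsub) ?_ (ae_of_all _ fun z => ?_)
    · exact (hg1.mx.pow 2).add (hg1.my.pow 2)
    · have h1 := sq_le_nsq (X z) i l
      have h2 := sq_le_nsq (Y z) i l
      have h3 := nsq_nonneg (X z)
      have h4 := nsq_nonneg (Y z)
      rw [Real.norm_of_nonneg (by positivity), ed, Real.norm_of_nonneg (by positivity)]
      linarith
  have h2 : ∀ᵐ ρ : ℝ, ∀ i l, ρ ∈ Ioo 0 (R - |q|) → _ :=
    ae_all_iff.2 fun i => ae_all_iff.2 fun l => h i l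
  filter_upwards [h2] with r hr hmem i l
  exact hr i l hmem

/-! ### measurability and integrability on the half circle -/

theorem memLp_comp {V : ℝ → Mat K n}
    (hVm : ∀ i l, AEStronglyMeasurable (fun x => V x i l) (volume.restrict (Ioc 0 Real.pi)))
    (hV : IntervalIntegrable (fun x => nsq (V x)) volume 0 Real.pi) (i : Fin K) (l : Fin n) :
    MemLp (fun x => V x i l) 2 (volume.restrict (Ioc 0 Real.pi)) := by
  rw [intervalIntegrable_iff_integrableOn_Ioc_of_le Real.pi_pos.le] at hV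
  rw [memLp_two_iff_integrable_sq (hVm i l)]
  refine Integrable.mono hV ((hVm i l).pow 2) (ae_of_all _ fun x => ?_)
  rw [Real.norm_of_nonneg (sq_nonneg _), Real.norm_of_nonneg (nsq_nonneg _)]
  exact sq_le_nsq _ i l

theorem ii_of_memLp {f : ℝ → ℝ} (h : MemLp f 2 (volume.restrict (Ioc 0 Real.pi))) :
    IntervalIntegrable f volume 0 Real.pi ∧
    IntervalIntegrable (fun x => f x ^ 2) volume 0 Real.pi :=
  ⟨(intervalIntegrable_iff_integrableOn_Ioc_of_le Real.pi_pos.le).2 (h.integrable one_le_two),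
    (intervalIntegrable_iff_integrableOn_Ioc_of_le Real.pi_pos.le).2 h.integrable_sq⟩

theorem ii_mono {f g : ℝ → ℝ}
    (hf : AEStronglyMeasurable f (volume.restrict (Ioc 0 Real.pi)))
    (hg : IntervalIntegrable g volume 0 Real.pi) (h0 : ∀ x, 0 ≤ f x) (h : ∀ x, f x ≤ g x) :
    IntervalIntegrable f volume 0 Real.pi := by
  rw [intervalIntegrable_iff_integrableOn_Ioc_of_le Real.pi_pos.le] at *
  refine Integrable.mono hg hf (ae_of_all _ fun x => ?_)
  rw [Real.norm_of_nonneg (h0 x), Real.norm_of_nonneg ((h0 x).trans (h x))]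
  exact h x

theorem nsq_meas {V : ℝ → Mat K n}
    (hVm : ∀ i l, AEStronglyMeasurable (fun x => V x i l) (volume.restrict (Ioc 0 Real.pi))) :
    AEStronglyMeasurable (fun x => nsq (V x)) (volume.restrict (Ioc 0 Real.pi)) := by
  unfold nsq
  exact Finset.aestronglyMeasurable_fun_sum _ fun i _ =>
    Finset.aestronglyMeasurable_fun_sum _ fun l _ => (hVm i l).pow 2

theorem SL_meas {u : ℂ → Tup K n} {X Y : ℂ → Mat K n} {q r : ℝ} (h : SL u X Y q r) :
    (∀ i l, AEStronglyMeasurable (fun θ => X (cm q r θ) i l)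
      (volume.restrict (Ioc 0 Real.pi))) ∧
    (∀ i l, AEStronglyMeasurable (fun θ => Y (cm q r θ) i l)
      (volume.restrict (Ioc 0 Real.pi))) ∧
    IntervalIntegrable (fun θ => nsq (X (cm q r θ)) + nsq (Y (cm q r θ))) volume 0 Real.pi := by
  refine ⟨fun i l => (h i l).1.1.aestronglyMeasurable,
    fun i l => (h i l).2.1.1.aestronglyMeasurable, ?_⟩
  have e : (fun θ => nsq (X (cm q r θ)) + nsq (Y (cm q r θ))) = fun θ =>
      ∑ i, ∑ l, (X (cm q r θ) i l ^ 2 + Y (cm q r θ) i l ^ 2) := by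
    funext θ
    simp only [nsq, Finset.sum_add_distrib]
  rw [e, intervalIntegrable_iff_integrableOn_Ioc_of_le Real.pi_pos.le]
  exact integrable_finsetSum _ fun i _ => integrable_finsetSum _ fun l _ =>
    (intervalIntegrable_iff_integrableOn_Ioc_of_le Real.pi_pos.le).1 (h i l).2.2.1

theorem rd_meas {u : ℂ → Tup K n} {X Y : ℂ → Mat K n} {q r : ℝ} (h : SL u X Y q r) :
    (∀ i l, AEStronglyMeasurable (fun θ => Flat.rd θ (X (cm q r θ)) (Y (cm q r θ)) i l)
      (volume.restrict (Ioc 0 Real.pi))) ∧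
    IntervalIntegrable (fun θ => nsq (Flat.rd θ (X (cm q r θ)) (Y (cm q r θ))))
      volume 0 Real.pi := by
  obtain ⟨h1, h2, h3⟩ := SL_meas h
  have hm : ∀ i l, AEStronglyMeasurable (fun θ => Flat.rd θ (X (cm q r θ)) (Y (cm q r θ)) i l)
      (volume.restrict (Ioc 0 Real.pi)) := by
    intro i l
    simp only [Flat.rd, Pi.add_apply, Pi.smul_apply, smul_eq_mul]
    exact (Real.continuous_cos.aestronglyMeasurable.mul (h1 i l)).add
      (Real.continuous_sin.aestronglyMeasurable.mul (h2 i l))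
  refine ⟨hm, ii_mono (nsq_meas hm) h3 (fun θ => nsq_nonneg _) fun θ => ?_⟩
  have := nsq_rd_add_nsq_tg θ (X (cm q r θ)) (Y (cm q r θ))
  have h4 := nsq_nonneg (Flat.tg θ (X (cm q r θ)) (Y (cm q r θ)))
  linarith

theorem tg_meas {u : ℂ → Tup K n} {X Y : ℂ → Mat K n} {q r : ℝ} (h : SL u X Y q r) :
    (∀ i l, AEStronglyMeasurable (fun θ => Flat.tg θ (X (cm q r θ)) (Y (cm q r θ)) i l)
      (volume.restrict (Ioc 0 Real.pi))) ∧
    IntervalIntegrable (fun θ => nsq (Flat.tg θ (X (cm q r θ)) (Y (cm q r θ))))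
      volume 0 Real.pi := by
  obtain ⟨h1, h2, h3⟩ := SL_meas h
  have hm : ∀ i l, AEStronglyMeasurable (fun θ => Flat.tg θ (X (cm q r θ)) (Y (cm q r θ)) i l)
      (volume.restrict (Ioc 0 Real.pi)) := by
    intro i l
    simp only [Flat.tg, Pi.add_apply, Pi.smul_apply, smul_eq_mul]
    exact (Real.continuous_sin.neg.aestronglyMeasurable.mul (h1 i l)).add
      (Real.continuous_cos.aestronglyMeasurable.mul (h2 i l))
  refine ⟨hm, ii_mono (nsq_meas hm) h3 (fun θ => nsq_nonneg _) fun θ => ?_⟩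
  have := nsq_rd_add_nsq_tg θ (X (cm q r θ)) (Y (cm q r θ))
  have h4 := nsq_nonneg (Flat.rd θ (X (cm q r θ)) (Y (cm q r θ)))
  linarith

theorem nu_cont {u : ℂ → Tup K n} {X Y : ℂ → Mat K n} {q r : ℝ} (h : SL u X Y q r) :
    (∀ α : Fin n → ℝ, IntervalIntegrable
      (fun θ => nsq (Flat.rd θ (X (cm q r θ)) (sh (Y (cm q r θ)) α))) volume 0 Real.pi) ∧
    Continuous (fun α : Fin n → ℝ =>
      ∫ θ in (0 : ℝ)..Real.pi, nsq (Flat.rd θ (X (cm q r θ)) (sh (Y (cm q r θ)) α))) := by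
  obtain ⟨h1, h2⟩ := rd_meas h
  simp only [rd_sh]
  exact quad_ii h1 h2 Real.continuous_sin Real.abs_sin_le_one

theorem t_cont {u : ℂ → Tup K n} {X Y : ℂ → Mat K n} {q r : ℝ} (h : SL u X Y q r) :
    (∀ α : Fin n → ℝ, IntervalIntegrable
      (fun θ => nsq (Flat.tg θ (X (cm q r θ)) (sh (Y (cm q r θ)) α))) volume 0 Real.pi) ∧
    Continuous (fun α : Fin n → ℝ =>
      ∫ θ in (0 : ℝ)..Real.pi, nsq (Flat.tg θ (X (cm q r θ)) (sh (Y (cm q r θ)) α))) := by
  obtain ⟨h1, h2⟩ := tg_meas h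
  simp only [tg_sh]
  exact quad_ii h1 h2 Real.continuous_cos Real.abs_cos_le_one

theorem xi_slice (hMET : Stmt_MET) (hXIL : Stmt_XIL) {u : ℂ → Tup K n} {R q r : ℝ}
    (hu : ContG (HDc 0 R) u) (hr : 0 < r) (hqr : |q| + r < R) (i : Fin K) (l : Fin n) :
    ContinuousOn (fun θ => xi (u (cm q r θ)) i l) (Icc 0 Real.pi) :=
  (xi_cont hMET hXIL hu i l).comp (cm_cont q r).continuousOn fun _ hθ => cm_mem hr hqr hθ

theorem cont_meas {f : ℝ → ℝ} (hf : ContinuousOn f (Icc 0 Real.pi)) :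
    AEStronglyMeasurable f (volume.restrict (Ioc 0 Real.pi)) :=
  (hf.mono Ioc_subset_Icc_self).aestronglyMeasurable measurableSet_Ioc

theorem cont_ii {f : ℝ → ℝ} (hf : ContinuousOn f (Icc 0 Real.pi)) :
    IntervalIntegrable f volume 0 Real.pi :=
  ContinuousOn.intervalIntegrable (by rwa [uIcc_of_le Real.pi_pos.le])

theorem h_cont (hMET : Stmt_MET) (hXIL : Stmt_XIL) {u : ℂ → Tup K n} {R q r : ℝ}
    (hu : ContG (HDc 0 R) u) (hr : 0 < r) (hqr : |q| + r < R) :
    (∀ α : Fin n → ℝ, IntervalIntegrable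
      (fun θ => nsq (sh (xi (u (cm q r θ))) ((r * Real.sin θ) • α))) volume 0 Real.pi) ∧
    Continuous (fun α : Fin n → ℝ =>
      ∫ θ in (0 : ℝ)..Real.pi, nsq (sh (xi (u (cm q r θ))) ((r * Real.sin θ) • α))) := by
  have hc := xi_slice hMET hXIL hu hr hqr
  refine quad_ii (B := r) (fun i l => cont_meas (hc i l)) (cont_ii ?_)
    (continuous_const.mul Real.continuous_sin) fun θ => ?_
  · unfold nsq
    exact continuousOn_finsetSum _ fun i _ => continuousOn_finsetSum _ fun l _ => (hc i l).pow 2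
  · rw [abs_mul, abs_of_pos hr]
    have := Real.abs_sin_le_one θ
    nlinarith

/-! ### lifts -/

theorem lift_ex (hLFT : Stmt_LFT) {u : ℂ → Tup K n} {X Y : ℂ → Mat K n} {R q r : ℝ}
    (hu : ContG (HDc 0 R) u) (hr : 0 < r) (hqr : |q| + r < R) (hS : SL u X Y q r)
    (h0 : ∀ i, u ((q + r : ℝ) : ℂ) i = 0) (hp : ∀ i, u ((q - r : ℝ) : ℂ) i = 0) :
    ∃ f f', Lift (fun θ => u (cm q r θ))
      (fun θ => r • Flat.tg θ (X (cm q r θ)) (Y (cm q r θ))) f f' := by
  obtain ⟨h1, h2⟩ := tg_meas hS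
  refine hLFT K n _ _ ?_ ?_ ?_ ?_ ?_ ?_
  · intro t ht
    have h3 := hu (cm q r t) (cm_mem hr hqr ht)
    have h4 : Tendsto (cm q r) (𝓝[Icc 0 Real.pi] t) (𝓝[HDc 0 R] (cm q r t)) := by
      refine tendsto_nhdsWithin_iff.2 ⟨((cm_cont q r).tendsto t).mono_left nhdsWithin_le_nhds, ?_⟩
      filter_upwards [self_mem_nhdsWithin] with s hs
      exact cm_mem hr hqr hs
    exact h3.comp h4
  · intro i l
    simp only [Pi.smul_apply, smul_eq_mul]
    exact (h1 i l).const_mul r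
  · simp only [nsq_smul]
    exact h2.const_mul _
  · intro i l s hs t ht
    have h3 := (hS i l).2.2.2 s hs t ht
    rw [h3]
    refine intervalIntegral.integral_congr fun θ _ => ?_
    simp only [Flat.tg, Pi.add_apply, Pi.smul_apply, smul_eq_mul]
  · intro i
    simp only [cm_zero]
    exact h0 i
  · intro i
    simp only [cm_pi]
    exact hp i

theorem Same_nsq (hXIL : Stmt_XIL) {a b : Tup K n} (h : Same a b) (v : Fin n → ℝ) :
    nsq (sh (mt a) v) = nsq (sh (xi b) v) ∧ ∀ l, ∑ i, a i l = ∑ i, xi b i l := by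
  obtain ⟨-, h2, h3, h4, -⟩ := hXIL K n a b
  have e := h2 h
  have hs : ∀ l, ∑ i, a i l = ∑ i, xi b i l := fun l => by rw [← h3 l, e]
  refine ⟨?_, hs⟩
  have e1 : nsq (mt a) = nsq (xi b) := by
    rw [← e, h4]
    simp only [nsq, mt, E_norm_sq]
  have e2 : sm (mt a) = sm (xi b) := by
    funext l
    exact hs l
  rw [nsq_sh, nsq_sh, e1, e2]

theorem lift_cont {u : ℝ → Tup K n} {T : ℝ → Mat K n} {f : ℝ → Tup K n} {f' : ℝ → Mat K n}
    (hL : Lift u T f f') (i : Fin K) (l : Fin n) :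
    ContinuousOn (fun θ => f θ i l) (Icc 0 Real.pi) := by
  have h1 := (ii_of_memLp (memLp_comp hL.meas hL.int i l)).1
  have h2 : IntegrableOn (fun θ => f' θ i l) (uIcc 0 Real.pi) := by
    rw [uIcc_of_le Real.pi_pos.le]
    exact (intervalIntegrable_iff_integrableOn_Icc_of_le Real.pi_pos.le).1 h1
  have h3 := intervalIntegral.continuousOn_primitive_interval h2
  rw [uIcc_of_le Real.pi_pos.le] at h3
  exact h3.congr fun θ hθ => hL.ftc i l θ hθ

theorem ii_sub_interval {g : ℝ → ℝ} (hg : IntervalIntegrable g volume 0 Real.pi) {θ : ℝ}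
    (hθ : θ ∈ Icc 0 Real.pi) : IntervalIntegrable g volume 0 θ := by
  refine hg.mono_set ?_
  rw [uIcc_of_le Real.pi_pos.le, uIcc_of_le hθ.1]
  exact Icc_subset_Icc_right hθ.2

theorem lift_wir {u : ℝ → Tup K n} {T : ℝ → Mat K n} {f : ℝ → Tup K n} {f' : ℝ → Mat K n}
    (hL : Lift u T f f') (r : ℝ) (α : Fin n → ℝ) (i : Fin K) (l : Fin n) :
    Wir (fun θ => f θ i l - r * Real.sin θ * α l) (fun θ => f' θ i l - r * Real.cos θ * α l) := by
  have hM := memLp_comp hL.meas hL.int i l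
  have hc : Continuous fun θ : ℝ => r * Real.cos θ * α l := by fun_prop
  have hM2 : MemLp (fun θ : ℝ => r * Real.cos θ * α l) 2 (volume.restrict (Ioc 0 Real.pi)) :=
    MemLp.of_bound hc.aestronglyMeasurable (|r| * |α l|) (ae_of_all _ fun θ => by
      rw [Real.norm_eq_abs, abs_mul, abs_mul]
      have := Real.abs_cos_le_one θ
      have h1 := abs_nonneg r
      have h2 := abs_nonneg (α l)
      exact mul_le_mul_of_nonneg_right (by nlinarith) h2)
  refine ⟨(hL.meas i l).sub hc.aestronglyMeasurable, ?_, ?_, ?_⟩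
  · exact (ii_of_memLp (hM.sub hM2)).2
  · intro θ hθ
    have h1 := ii_sub_interval (ii_of_memLp hM).1 hθ
    rw [intervalIntegral.integral_sub h1 (hc.intervalIntegrable _ _), ← hL.ftc i l θ hθ]
    have h2 : ∫ t in (0 : ℝ)..θ, r * Real.cos t * α l = r * Real.sin θ * α l := by
      rw [intervalIntegral.integral_mul_const, intervalIntegral.integral_const_mul, integral_cos]
      simp
    rw [h2]
  · simp [hL.zp]

/-- sum of the squares -/
theorem lift_l2 {u : ℝ → Tup K n} {T : ℝ → Mat K n} {f : ℝ → Tup K n} {f' : ℝ → Mat K n}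
    (hL : Lift u T f f') (r : ℝ) (α : Fin n → ℝ) :
    IntervalIntegrable (fun θ => nsq (sh (mt (f θ)) ((r * Real.sin θ) • α)))
      volume 0 Real.pi ∧
    ∑ i, ∑ l, l2 (fun θ => f θ i l - r * Real.sin θ * α l) =
      ∫ θ in (0 : ℝ)..Real.pi, nsq (sh (mt (f θ)) ((r * Real.sin θ) • α)) := by
  have h1 : ∀ i l, IntervalIntegrable (fun θ => (f θ i l - r * Real.sin θ * α l) ^ 2)
      volume 0 Real.pi := fun i l => cont_ii (((lift_cont hL i l).sub
        (Continuous.continuousOn (by fun_prop))).pow 2)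
  have e : (fun θ => nsq (sh (mt (f θ)) ((r * Real.sin θ) • α))) = fun θ =>
      ∑ i, ∑ l, (f θ i l - r * Real.sin θ * α l) ^ 2 := by
    funext θ
    simp only [nsq_sh_expand, mt, Pi.smul_apply, smul_eq_mul]
  have h2 : ∀ i, IntervalIntegrable (fun θ => ∑ l, (f θ i l - r * Real.sin θ * α l) ^ 2)
      volume 0 Real.pi := fun i => by
    rw [intervalIntegrable_iff_integrableOn_Ioc_of_le Real.pi_pos.le]
    exact integrable_finsetSum _ fun l _ =>
      (intervalIntegrable_iff_integrableOn_Ioc_of_le Real.pi_pos.le).1 (h1 i l)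
  rw [e]
  constructor
  · rw [intervalIntegrable_iff_integrableOn_Ioc_of_le Real.pi_pos.le]
    exact integrable_finsetSum _ fun i _ =>
      (intervalIntegrable_iff_integrableOn_Ioc_of_le Real.pi_pos.le).1 (h2 i)
  · rw [intervalIntegral.integral_finsetSum fun i _ => h2 i]
    refine Finset.sum_congr rfl fun i _ => ?_
    rw [intervalIntegral.integral_finsetSum fun l _ => h1 i l]
    rfl

theorem lift_l2' {u : ℝ → Tup K n} {T : ℝ → Mat K n} {f : ℝ → Tup K n} {f' : ℝ → Mat K n}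
    (hL : Lift u T f f') (r : ℝ) (α : Fin n → ℝ) :
    IntervalIntegrable (fun θ => nsq (sh (f' θ) ((r * Real.cos θ) • α))) volume 0 Real.pi ∧
    ∑ i, ∑ l, l2 (fun θ => f' θ i l - r * Real.cos θ * α l) =
      ∫ θ in (0 : ℝ)..Real.pi, nsq (sh (f' θ) ((r * Real.cos θ) • α)) := by
  have h1 : ∀ i l, IntervalIntegrable (fun θ => (f' θ i l - r * Real.cos θ * α l) ^ 2)
      volume 0 Real.pi := fun i l => (lift_wir hL r α i l).2.1
  have e : (fun θ => nsq (sh (f' θ) ((r * Real.cos θ) • α))) = fun θ =>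
      ∑ i, ∑ l, (f' θ i l - r * Real.cos θ * α l) ^ 2 := by
    funext θ
    simp only [nsq_sh_expand, Pi.smul_apply, smul_eq_mul]
  have h2 : ∀ i, IntervalIntegrable (fun θ => ∑ l, (f' θ i l - r * Real.cos θ * α l) ^ 2)
      volume 0 Real.pi := fun i => by
    rw [intervalIntegrable_iff_integrableOn_Ioc_of_le Real.pi_pos.le]
    exact integrable_finsetSum _ fun l _ =>
      (intervalIntegrable_iff_integrableOn_Ioc_of_le Real.pi_pos.le).1 (h1 i l)
  rw [e]
  constructor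
  · rw [intervalIntegrable_iff_integrableOn_Ioc_of_le Real.pi_pos.le]
    exact integrable_finsetSum _ fun i _ =>
      (intervalIntegrable_iff_integrableOn_Ioc_of_le Real.pi_pos.le).1 (h2 i)
  · rw [intervalIntegral.integral_finsetSum fun i _ => h2 i]
    refine Finset.sum_congr rfl fun i _ => ?_
    rw [intervalIntegral.integral_finsetSum fun l _ => h1 i l]
    rfl

/-- the boundary integrand of the cone energy -/
theorem lift_cI {u : ℝ → Tup K n} {T : ℝ → Mat K n} {f : ℝ → Tup K n} {f' : ℝ → Mat K n}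
    (hL : Lift u T f f') (r : ℝ) (α : Fin n → ℝ) :
    IntervalIntegrable (cI r α f f') volume 0 Real.pi ∧
    ∫ θ in (0 : ℝ)..Real.pi, cI r α f f' θ =
      ∑ i, ∑ l, l2 (fun θ => f θ i l - r * Real.sin θ * α l) +
      ∑ i, ∑ l, l2 (fun θ => f' θ i l - r * Real.cos θ * α l) := by
  obtain ⟨h1, e1⟩ := lift_l2 hL r α
  obtain ⟨h2, e2⟩ := lift_l2' hL r α
  refine ⟨h1.add h2, ?_⟩
  rw [e1, e2, ← intervalIntegral.integral_add h1 h2]
  rfl

/-- comparison of the tangential energies -/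
theorem lift_t {u : ℝ → Tup K n} {T : ℝ → Mat K n} {f : ℝ → Tup K n} {f' : ℝ → Mat K n}
    (hXIL : Stmt_XIL) (hL : Lift u T f f')
    (hTm : ∀ i l, AEStronglyMeasurable (fun θ => T θ i l) (volume.restrict (Ioc 0 Real.pi)))
    (hTi : IntervalIntegrable (fun θ => nsq (T θ)) volume 0 Real.pi)
    (hT : ∀ i l, ∀ s ∈ Icc 0 Real.pi, ∀ t ∈ Icc 0 Real.pi,
      xi (u t) i l - xi (u s) i l = ∫ θ in s..t, T θ i l) (r : ℝ) (α : Fin n → ℝ) :
    ∑ i, ∑ l, l2 (fun θ => f' θ i l - r * Real.cos θ * α l) ≤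
      ∫ θ in (0 : ℝ)..Real.pi, nsq (sh (T θ) ((r * Real.cos θ) • α)) := by
  obtain ⟨h1, e1⟩ := lift_l2' hL r α
  have hpi := Real.pi_pos.le
  have hT1 : ∀ i l, IntervalIntegrable (fun θ => T θ i l) volume 0 Real.pi := fun i l =>
    (ii_of_memLp (memLp_comp hTm hTi i l)).1
  have hf1 : ∀ i l, IntervalIntegrable (fun θ => f' θ i l) volume 0 Real.pi := fun i l =>
    (ii_of_memLp (memLp_comp hL.meas hL.int i l)).1
  have hs : ∀ l, ∀ᵐ θ : ℝ, θ ∈ Ioo 0 Real.pi → ∑ i, f' θ i l = ∑ i, T θ i l := by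
    intro l
    have i1 : IntervalIntegrable (fun θ => ∑ i, f' θ i l) volume 0 Real.pi := by
      rw [intervalIntegrable_iff_integrableOn_Ioc_of_le hpi]
      exact integrable_finsetSum _ fun i _ =>
        (intervalIntegrable_iff_integrableOn_Ioc_of_le hpi).1 (hf1 i l)
    have i2 : IntervalIntegrable (fun θ => ∑ i, T θ i l) volume 0 Real.pi := by
      rw [intervalIntegrable_iff_integrableOn_Ioc_of_le hpi]
      exact integrable_finsetSum _ fun i _ =>
        (intervalIntegrable_iff_integrableOn_Ioc_of_le hpi).1 (hT1 i l)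
    refine ae_eq_of_prim i1 i2 fun θ hθ => ?_
    have z0 : (0 : ℝ) ∈ Icc 0 Real.pi := ⟨le_rfl, hpi⟩
    rw [intervalIntegral.integral_finsetSum fun i _ => ii_sub_interval (hf1 i l) hθ,
      intervalIntegral.integral_finsetSum fun i _ => ii_sub_interval (hT1 i l) hθ]
    have a1 : ∑ i, ∫ t in (0 : ℝ)..θ, f' t i l = ∑ i, f θ i l :=
      Finset.sum_congr rfl fun i _ => (hL.ftc i l θ hθ).symm
    have a2 : ∑ i, ∫ t in (0 : ℝ)..θ, T t i l = ∑ i, (xi (u θ) i l - xi (u 0) i l) :=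
      Finset.sum_congr rfl fun i _ => (hT i l 0 z0 θ hθ).symm
    rw [a1, a2, Finset.sum_sub_distrib, (Same_nsq hXIL (hL.same θ hθ) 0).2 l,
      ← (Same_nsq hXIL (hL.same 0 z0) 0).2 l, hL.z0]
    simp
  have hs2 : ∀ᵐ θ : ℝ, ∀ l, θ ∈ Ioo 0 Real.pi → ∑ i, f' θ i l = ∑ i, T θ i l :=
    ae_all_iff.2 hs
  have hB : ∀ θ : ℝ, |r * Real.cos θ| ≤ |r| := fun θ => by
    rw [abs_mul]
    have := Real.abs_cos_le_one θ
    nlinarith [abs_nonneg r]
  have h2 := (quad_ii (n := n) (u := fun θ => r * Real.cos θ) hTm hTi (by fun_prop) hB).1 α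
  rw [e1]
  refine intervalIntegral.integral_mono_ae_restrict hpi h1 h2 ?_
  rw [← restrict_Ioo_eq_restrict_Icc, EventuallyLE, ae_restrict_iff' measurableSet_Ioo]
  filter_upwards [hL.le, hs2] with θ h3 h4 hθ
  have e2 : sm (f' θ) = sm (T θ) := by
    funext l
    exact h4 l hθ
  rw [nsq_sh, nsq_sh, e2]
  linarith [h3 hθ]

theorem lift_sc {u : ℝ → Tup K n} {T : ℝ → Mat K n} {f : ℝ → Tup K n} {f' : ℝ → Mat K n}
    (hXIL : Stmt_XIL) (hL : Lift u T f f') (r : ℝ) (α : Fin n → ℝ) (l : Fin n) :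
    ∑ i, sc (fun θ => f θ i l - r * Real.sin θ * α l) =
      (2 / Real.pi) * (∫ θ in (0 : ℝ)..Real.pi, (∑ i, xi (u θ) i l) * Real.sin θ) -
        K * (α l * r) := by
  have hpi := Real.pi_pos.le
  have hc : ∀ i, IntervalIntegrable (fun θ => f θ i l * Real.sin θ) volume 0 Real.pi :=
    fun i => cont_ii ((lift_cont hL i l).mul Real.continuous_sin.continuousOn)
  have h1 : ∀ i, sc (fun θ => f θ i l - r * Real.sin θ * α l) =
      (2 / Real.pi) * (∫ θ in (0 : ℝ)..Real.pi, f θ i l * Real.sin θ) - α l * r := by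
    intro i
    unfold sc
    have e : (fun θ : ℝ => (f θ i l - r * Real.sin θ * α l) * Real.sin θ) = fun θ =>
        f θ i l * Real.sin θ - (r * α l) * Real.sin θ ^ 2 := by
      funext θ; ring
    have hc2 : IntervalIntegrable (fun θ : ℝ => (r * α l) * Real.sin θ ^ 2) volume 0 Real.pi :=
      Continuous.intervalIntegrable (by fun_prop) _ _
    rw [e, intervalIntegral.integral_sub (hc i) hc2, intervalIntegral.integral_const_mul,
      integral_sin_sq]
    simp only [Real.sin_zero, Real.sin_pi, zero_mul, sub_zero, zero_add]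
    have := Real.pi_pos.ne'
    field_simp
  have h2 : ∑ i, ∫ θ in (0 : ℝ)..Real.pi, f θ i l * Real.sin θ =
      ∫ θ in (0 : ℝ)..Real.pi, (∑ i, xi (u θ) i l) * Real.sin θ := by
    rw [← intervalIntegral.integral_finsetSum fun i _ => hc i]
    refine intervalIntegral.integral_congr fun θ hθ => ?_
    rw [uIcc_of_le hpi] at hθ
    simp only
    rw [← Finset.sum_mul, (Same_nsq hXIL (hL.same θ hθ) 0).2 l]
  simp only [h1]
  rw [Finset.sum_sub_distrib, ← Finset.mul_sum, h2]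
  simp

/-! ### the plane part -/

theorem HD_finite (q r : ℝ) : IsFiniteMeasure (volume.restrict (HD q r)) := by
  refine ⟨?_⟩
  rw [Measure.restrict_apply_univ]
  have h : HD q r ⊆ ball (q : ℂ) r := fun z hz => by
    rw [mem_ball, dist_eq_norm]; exact hz.2
  exact (measure_mono h).trans_lt measure_ball_lt_top

theorem comp_int {X Y : ℂ → Mat K n} {s : ℂ → Mat K n} {R q r : ℝ}
    (hsub : HD q r ⊆ HD 0 R) (hg : HasGradV (HD 0 R) s X Y) (hI : IntegrableOn (ed X Y) (HD 0 R)) :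
    (∀ i l, AEStronglyMeasurable (fun z => X z i l) (volume.restrict (HD q r))) ∧
    (∀ i l, AEStronglyMeasurable (fun z => Y z i l) (volume.restrict (HD q r))) ∧
    IntegrableOn (fun z => nsq (X z)) (HD q r) ∧ IntegrableOn (fun z => nsq (Y z)) (HD q r) := by
  have m1 : ∀ i l, AEStronglyMeasurable (fun z => X z i l) (volume.restrict (HD q r)) :=
    fun i l => (hg i l).mx.mono_measure (Measure.restrict_mono hsub le_rfl)
  have m2 : ∀ i l, AEStronglyMeasurable (fun z => Y z i l) (volume.restrict (HD q r)) :=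
    fun i l => (hg i l).my.mono_measure (Measure.restrict_mono hsub le_rfl)
  have n1 : AEStronglyMeasurable (fun z => nsq (X z)) (volume.restrict (HD q r)) := by
    unfold nsq
    exact Finset.aestronglyMeasurable_fun_sum _ fun i _ =>
      Finset.aestronglyMeasurable_fun_sum _ fun l _ => (m1 i l).pow 2
  have n2 : AEStronglyMeasurable (fun z => nsq (Y z)) (volume.restrict (HD q r)) := by
    unfold nsq
    exact Finset.aestronglyMeasurable_fun_sum _ fun i _ =>
      Finset.aestronglyMeasurable_fun_sum _ fun l _ => (m2 i l).pow 2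
  have hI2 : IntegrableOn (ed X Y) (HD q r) := hI.mono_set hsub
  refine ⟨m1, m2, Integrable.mono hI2 n1 (ae_of_all _ fun z => ?_),
    Integrable.mono hI2 n2 (ae_of_all _ fun z => ?_)⟩
  · have h1 := nsq_nonneg (X z)
    have h2 := nsq_nonneg (Y z)
    rw [Real.norm_of_nonneg h1, ed, Real.norm_of_nonneg (by positivity)]
    linarith
  · have h1 := nsq_nonneg (X z)
    have h2 := nsq_nonneg (Y z)
    rw [Real.norm_of_nonneg h2, ed, Real.norm_of_nonneg (by positivity)]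
    linarith

theorem D_part {X Y : ℂ → Mat K n} {s : ℂ → Mat K n} {R q r : ℝ} (hqr : |q| + r < R)
    (hg : HasGradV (HD 0 R) s X Y) (hI : IntegrableOn (ed X Y) (HD 0 R)) :
    (∀ α : Fin n → ℝ, IntegrableOn (fun z => nsq (X z) + nsq (sh (Y z) α)) (HD q r)) ∧
    Continuous (fun α : Fin n → ℝ => ∫ z in HD q r, (nsq (X z) + nsq (sh (Y z) α))) := by
  obtain ⟨-, m2, i1, i2⟩ := comp_int (HD_sub hqr.le) hg hI
  have := HD_finite q r
  obtain ⟨h1, h2⟩ := quad_int (n := n) (μ := volume.restrict (HD q r)) (u := fun _ => (1 : ℝ))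
    (B := 1) m2 i2 aestronglyMeasurable_const (fun _ => by simp)
  simp only [one_smul] at h1 h2
  refine ⟨fun α => i1.add (h1 α), ?_⟩
  have e : (fun α : Fin n → ℝ => ∫ z in HD q r, (nsq (X z) + nsq (sh (Y z) α))) = fun α =>
      (∫ z in HD q r, nsq (X z)) + ∫ z in HD q r, nsq (sh (Y z) α) := by
    funext α
    exact integral_add i1 (h1 α)
  rw [e]
  exact continuous_const.add h2

/-- finite sums of functions with gradients -/
theorem hasGrad_sum (hGAL : Stmt_GAL) {ι : Type*} {U : Set ℂ} (hU : IsOpen U) (s : Finset ι)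
    {f fx fy : ι → ℂ → ℝ} (h : ∀ i, HasGrad U (f i) (fx i) (fy i)) :
    HasGrad U (fun z => ∑ i ∈ s, f i z) (fun z => ∑ i ∈ s, fx i z)
      (fun z => ∑ i ∈ s, fy i z) := by
  classical
  obtain ⟨-, h0, ha, -, -⟩ := hGAL U hU
  induction s using Finset.induction_on with
  | empty => simpa using h0 0
  | insert i s hi ih =>
    simp only [Finset.sum_insert hi]
    exact ha _ _ _ _ _ _ (h i) ih

/-! ### arithmetic -/

theorem arith1 {D h ν t C1 w r : ℝ} (hh : 0 ≤ h) (hν : 0 ≤ ν) (hht : h ≤ t) (hC : 0 ≤ C1)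
    (hw : 0 ≤ w) (hr : C1 * r ^ 2 ≤ 1 / 2)
    (h1 : D ≤ Real.sqrt (h * ν) + C1 * r ^ 2 * (D + h + ν + t) + C1 * w * r ^ 4) :
    D ≤ (1 / 2 + 5 * C1 * r ^ 2) * (ν + t) + 2 * C1 * w * r ^ 4 ∧
    D ≤ Real.sqrt (h * ν) + (5 * C1 * r ^ 2 * (ν + t) + 2 * C1 * w * r ^ 4) := by
  have ht : 0 ≤ t := hh.trans hht
  have hs : Real.sqrt (h * ν) ≤ (ν + t) / 2 := by
    have h2 : Real.sqrt (h * ν) ≤ (h + ν) / 2 := by
      rw [Real.sqrt_le_left (by linarith)]
      nlinarith [sq_nonneg (h - ν)]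
    linarith
  set a := C1 * r ^ 2 with ha
  have ha0 : 0 ≤ a := by positivity
  set b := C1 * w * r ^ 4 with hb
  have hb0 : 0 ≤ b := by positivity
  set N := ν + t with hN
  have hN0 : 0 ≤ N := by linarith
  have e1 : a * (D + h + ν + t) ≤ a * (D + 2 * N) := by
    apply mul_le_mul_of_nonneg_left _ ha0
    linarith
  have h2 : D ≤ N / 2 + a * (D + 2 * N) + b := by linarith
  have h3 : (1 - a) * D ≤ (1 / 2 + 2 * a) * N + b := by linarith
  have haN : 0 ≤ a * N := mul_nonneg ha0 hN0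
  have haaN : a * (a * N) ≤ 1 / 2 * (a * N) := mul_le_mul_of_nonneg_right hr haN
  have hab : a * b ≤ 1 / 2 * b := mul_le_mul_of_nonneg_right hr hb0
  have h4 : D ≤ (1 / 2 + 5 * a) * N + 2 * b := by
    by_contra hcon
    push Not at hcon
    have h5 : (1 - a) * ((1 / 2 + 5 * a) * N + 2 * b) < (1 - a) * D :=
      mul_lt_mul_of_pos_left hcon (by linarith)
    have h6 : (1 / 2 + 2 * a) * N + b ≤ (1 - a) * ((1 / 2 + 5 * a) * N + 2 * b) := by
      nlinarith
    linarith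
  have e5 : 5 * C1 * r ^ 2 = 5 * a := by rw [ha]; ring
  have e6 : 2 * C1 * w * r ^ 4 = 2 * b := by rw [hb]; ring
  rw [e5, e6]
  refine ⟨h4, ?_⟩
  have h7 : D ≤ 3 * N + 2 * b := by nlinarith
  have h8 : a * (D + h + ν + t) ≤ a * (5 * N + 2 * b) := by
    apply mul_le_mul_of_nonneg_left _ ha0
    linarith
  nlinarith

theorem arith2 {D h t T E x C2 w r : ℝ} (hC : 0 ≤ C2) (hht : h ≤ t) (hT : T ≤ t)
    (hx : 0 ≤ x) (hE : E ≤ (1 / 2) * (h + T) - x)
    (h1 : D ≤ (1 + C2 * r ^ 2) * E + C2 * w * r ^ 4) :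
    D ≤ (1 / 2) * (h + t) - x + (C2 * r ^ 2 * t + C2 * w * r ^ 4) := by
  have ha : 0 ≤ C2 * r ^ 2 := by positivity
  have h2 : E ≤ (1 / 2) * (h + t) - x := by linarith
  have h3 : (1 + C2 * r ^ 2) * E ≤ (1 + C2 * r ^ 2) * ((1 / 2) * (h + t) - x) :=
    mul_le_mul_of_nonneg_left h2 (by linarith)
  have h4 : C2 * r ^ 2 * ((1 / 2) * (h + t) - x) ≤ C2 * r ^ 2 * t :=
    mul_le_mul_of_nonneg_left (by linarith) ha
  nlinarith

/-! ### the flattened system -/

variable {k d : ℕ}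

theorem p_zero {F : Flat k d n} (hF : F.Ok) {x : ℝ} (hx : x ∈ F.Z) (i : Fin (k + d)) :
    F.p x i = 0 := by
  obtain ⟨σ, hσ⟩ := hF.bd x hx.1
  rw [hσ, Function.comp_apply]
  refine Fin.addCases (fun j => ?_) (fun j => ?_) (σ i)
  · rw [Fin.append_left, hx.2 j, neg_zero]
  · rw [Fin.append_right]

theorem w_zero (hXIL : Stmt_XIL) {F : Flat k d n} (hF : F.Ok) {x : ℝ} (hx : |x| < F.R)
    (l : Fin n) : ∑ i, xi (F.p x) i l + ∑ i, xi (F.l x) i l = 0 := by
  obtain ⟨σ, hσ⟩ := hF.bd x hx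
  rw [(hXIL (k + d) n (F.p x) (F.p x)).2.2.1 l, (hXIL k n (F.l x) (F.l x)).2.2.1 l, hσ]
  have h1 : ∑ i, ((Fin.append (fun i => -(F.l x i)) (fun _ : Fin d => (0 : E n))) ∘ σ) i l =
      ∑ i, (Fin.append (fun i => -(F.l x i)) (fun _ : Fin d => (0 : E n))) i l :=
    Equiv.sum_comp σ fun i => (Fin.append (fun i => -(F.l x i)) (fun _ : Fin d => (0 : E n))) i l
  rw [h1, Fin.sum_univ_add]
  simp only [Fin.append_left, Fin.append_right]
  simp [Finset.sum_neg_distrib]

theorem D_eq {F : Flat k d n} (hF : F.Ok) {q r : ℝ} (hqr : |q| + r < F.R) (α : Fin n → ℝ) :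
    F.D q r α = (∫ z in HD q r, (nsq (F.Px z) + nsq (sh (F.Py z) α))) +
      ∫ z in HD q r, (nsq (F.Lx z) + nsq (sh (F.Ly z) α)) :=
  integral_add ((D_part hqr hF.pg hF.pI).1 α) ((D_part hqr hF.lg hF.lI).1 α)

theorem D_continuous {F : Flat k d n} (hF : F.Ok) {q r : ℝ} (hqr : |q| + r < F.R) :
    Continuous (fun α => F.D q r α) := by
  simp only [D_eq hF hqr]
  exact (D_part hqr hF.pg hF.pI).2.add (D_part hqr hF.lg hF.lI).2

theorem h_eq (hMET : Stmt_MET) (hXIL : Stmt_XIL) {F : Flat k d n} (hF : F.Ok) {q r : ℝ}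
    (hr : 0 < r) (hqr : |q| + r < F.R) (α : Fin n → ℝ) :
    F.h q r α = (∫ θ in (0 : ℝ)..Real.pi,
      nsq (sh (xi (F.p (cm q r θ))) ((r * Real.sin θ) • α))) +
      ∫ θ in (0 : ℝ)..Real.pi, nsq (sh (xi (F.l (cm q r θ))) ((r * Real.sin θ) • α)) :=
  intervalIntegral.integral_add ((h_cont hMET hXIL hF.pc hr hqr).1 α)
    ((h_cont hMET hXIL hF.lc hr hqr).1 α)

theorem nu_eq {F : Flat k d n} {q r : ℝ} (sp : SL F.p F.Px F.Py q r)
    (sl : SL F.l F.Lx F.Ly q r) (α : Fin n → ℝ) :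
    F.nu q r α = r ^ 2 * ((∫ θ in (0 : ℝ)..Real.pi,
      nsq (Flat.rd θ (F.Px (cm q r θ)) (sh (F.Py (cm q r θ)) α))) +
      ∫ θ in (0 : ℝ)..Real.pi,
        nsq (Flat.rd θ (F.Lx (cm q r θ)) (sh (F.Ly (cm q r θ)) α))) := by
  rw [← intervalIntegral.integral_add ((nu_cont sp).1 α) ((nu_cont sl).1 α)]
  rfl

theorem t_eq {F : Flat k d n} {q r : ℝ} (sp : SL F.p F.Px F.Py q r)
    (sl : SL F.l F.Lx F.Ly q r) (α : Fin n → ℝ) :
    F.t q r α = r ^ 2 * ((∫ θ in (0 : ℝ)..Real.pi,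
      nsq (Flat.tg θ (F.Px (cm q r θ)) (sh (F.Py (cm q r θ)) α))) +
      ∫ θ in (0 : ℝ)..Real.pi,
        nsq (Flat.tg θ (F.Lx (cm q r θ)) (sh (F.Ly (cm q r θ)) α))) := by
  rw [← intervalIntegral.integral_add ((t_cont sp).1 α) ((t_cont sl).1 α)]
  rfl

theorem T_eq (θ r : ℝ) (X Y : Mat K n) (α : Fin n → ℝ) :
    r ^ 2 * nsq (Flat.tg θ X (sh Y α)) =
      nsq (sh (r • Flat.tg θ X Y) ((r * Real.cos θ) • α)) := by
  rw [tg_sh, ← nsq_smul]
  congr 1
  funext i l
  simp only [Pi.smul_apply, smul_eq_mul, sh]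
  ring

theorem T_int (r q : ℝ) (X Y : ℂ → Mat K n) (α : Fin n → ℝ) :
    r ^ 2 * (∫ θ in (0 : ℝ)..Real.pi,
      nsq (Flat.tg θ (X (cm q r θ)) (sh (Y (cm q r θ)) α))) =
      ∫ θ in (0 : ℝ)..Real.pi, nsq (sh (r • Flat.tg θ (X (cm q r θ)) (Y (cm q r θ)))
        ((r * Real.cos θ) • α)) := by
  rw [← intervalIntegral.integral_const_mul]
  simp only [T_eq]

/-- the inequality of `OUT` for all tilts -/
theorem out_all (hMET : Stmt_MET) (hXIL : Stmt_XIL) {F : Flat k d n} (hF : F.Ok) {q r C1 : ℝ}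
    (hr : 0 < r) (hqr : |q| + r < F.R) (sp : SL F.p F.Px F.Py q r)
    (sl : SL F.l F.Lx F.Ly q r) {S : Set (Fin n → ℝ)} (hS : Dense S)
    (h : ∀ α ∈ S, F.D q r α ≤ Real.sqrt (F.h q r α * F.nu q r α) +
      C1 * r ^ 2 * (F.D q r α + F.h q r α + F.nu q r α + F.t q r α) +
      C1 * (1 + vsq α) * r ^ 4) (α : Fin n → ℝ) :
    F.D q r α ≤ Real.sqrt (F.h q r α * F.nu q r α) +
      C1 * r ^ 2 * (F.D q r α + F.h q r α + F.nu q r α + F.t q r α) +
      C1 * (1 + vsq α) * r ^ 4 := by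
  have cD := D_continuous hF hqr
  have ch : Continuous (fun α => F.h q r α) := by
    simp only [h_eq hMET hXIL hF hr hqr]
    exact (h_cont hMET hXIL hF.pc hr hqr).2.add (h_cont hMET hXIL hF.lc hr hqr).2
  have cν : Continuous (fun α => F.nu q r α) := by
    simp only [nu_eq sp sl]
    exact continuous_const.mul ((nu_cont sp).2.add (nu_cont sl).2)
  have ct : Continuous (fun α => F.t q r α) := by
    simp only [t_eq sp sl]
    exact continuous_const.mul ((t_cont sp).2.add (t_cont sl).2)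
  have cv : Continuous (fun α : Fin n → ℝ => vsq α) := by
    unfold vsq
    fun_prop
  have hcl : IsClosed {α : Fin n → ℝ | F.D q r α ≤ Real.sqrt (F.h q r α * F.nu q r α) +
      C1 * r ^ 2 * (F.D q r α + F.h q r α + F.nu q r α + F.t q r α) +
      C1 * (1 + vsq α) * r ^ 4} :=
    isClosed_le cD (((ch.mul cν).sqrt.add (continuous_const.mul
      (((cD.add ch).add cν).add ct))).add ((continuous_const.mul
        (continuous_const.add cv)).mul continuous_const))
  have h2 : closure S ⊆ {α : Fin n → ℝ | F.D q r α ≤ Real.sqrt (F.h q r α * F.nu q r α) +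
      C1 * r ^ 2 * (F.D q r α + F.h q r α + F.nu q r α + F.t q r α) +
      C1 * (1 + vsq α) * r ^ 4} := closure_minimal (fun α hα => h α hα) hcl
  exact h2 (hS α)

/-- the flux identity -/
theorem flux (hMET : Stmt_MET) (hXIL : Stmt_XIL) (hGAL : Stmt_GAL) (hFLX : Stmt_FLX)
    {F : Flat k d n} (hF : F.Ok) {q r : ℝ} (hr : 0 < r) (hqr : |q| + r < F.R) (l : Fin n) :
    F.Y q r l = r * ((∫ θ in (0 : ℝ)..Real.pi,
      (∑ i, xi (F.p (cm q r θ)) i l) * Real.sin θ) +
      ∫ θ in (0 : ℝ)..Real.pi, (∑ i, xi (F.l (cm q r θ)) i l) * Real.sin θ) := by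
  have hU := isOpen_HD 0 F.R
  have g1 := hasGrad_sum hGAL hU Finset.univ (f := fun i z => xi (F.p z) i l)
    (fx := fun i z => F.Px z i l) (fy := fun i z => F.Py z i l) fun i => hF.pg i l
  have g2 := hasGrad_sum hGAL hU Finset.univ (f := fun i z => xi (F.l z) i l)
    (fx := fun i z => F.Lx z i l) (fy := fun i z => F.Ly z i l) fun i => hF.lg i l
  have g3 := (hGAL _ hU).2.2.1 _ _ _ _ _ _ g1 g2
  obtain ⟨m1, m2, i1, i2⟩ := comp_int (q := 0) (r := F.R) le_rfl hF.pg hF.pI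
  obtain ⟨m3, m4, i3, i4⟩ := comp_int (q := 0) (r := F.R) le_rfl hF.lg hF.lI
  have hL2 : ∀ {K' : ℕ} (V : ℂ → Mat K' n),
      (∀ i l, AEStronglyMeasurable (fun z => V z i l) (volume.restrict (HD 0 F.R))) →
      IntegrableOn (fun z => nsq (V z)) (HD 0 F.R) →
      MemLp (fun z => ∑ i, V z i l) 2 (volume.restrict (HD 0 F.R)) := by
    intro K' V hm hi
    refine memLp_finsetSum _ fun i _ => ?_
    rw [memLp_two_iff_integrable_sq (hm i l)]
    refine Integrable.mono hi ((hm i l).pow 2) (ae_of_all _ fun x => ?_)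
    rw [Real.norm_of_nonneg (sq_nonneg _), Real.norm_of_nonneg (nsq_nonneg _)]
    exact sq_le_nsq _ i l
  have hI : IntegrableOn (fun z => (∑ i, F.Px z i l + ∑ i, F.Lx z i l) ^ 2 +
      (∑ i, F.Py z i l + ∑ i, F.Ly z i l) ^ 2) (HD 0 F.R) :=
    ((hL2 _ m1 i1).add (hL2 _ m3 i3)).integrable_sq.add
      ((hL2 _ m2 i2).add (hL2 _ m4 i4)).integrable_sq
  have hc : ContinuousOn (fun z => ∑ i, xi (F.p z) i l + ∑ i, xi (F.l z) i l) (HDc 0 F.R) :=
    (continuousOn_finsetSum _ fun i _ => xi_cont hMET hXIL hF.pc i l).add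
      (continuousOn_finsetSum _ fun i _ => xi_cont hMET hXIL hF.lc i l)
  have key := hFLX F.R q r _ _ _ hr hqr hc g3 hI fun x hx => w_zero hXIL hF hx l
  have c1 : IntervalIntegrable (fun θ => (∑ i, xi (F.p (cm q r θ)) i l) * Real.sin θ)
      volume 0 Real.pi := cont_ii ((continuousOn_finsetSum _ fun i _ =>
        xi_slice hMET hXIL hF.pc hr hqr i l).mul Real.continuous_sin.continuousOn)
  have c2 : IntervalIntegrable (fun θ => (∑ i, xi (F.l (cm q r θ)) i l) * Real.sin θ)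
      volume 0 Real.pi := cont_ii ((continuousOn_finsetSum _ fun i _ =>
        xi_slice hMET hXIL hF.lc hr hqr i l).mul Real.continuous_sin.continuousOn)
  rw [← intervalIntegral.integral_add c1 c2]
  have e : F.Y q r l = ∫ z in HD q r, (∑ i, F.Py z i l + ∑ i, F.Ly z i l) := rfl
  rw [e, key]
  congr 1
  refine intervalIntegral.integral_congr fun θ _ => ?_
  exact add_mul _ _ _

theorem l2_nonneg (f : ℝ → ℝ) : 0 ≤ l2 f :=
  intervalIntegral.integral_nonneg Real.pi_pos.le fun _ _ => sq_nonneg _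

theorem wir_le (hWIR : Stmt_WIR) {f f' : ℝ → ℝ} (h : Wir f f') : l2 f ≤ l2 f' := by
  obtain ⟨h1, h2, -⟩ := hWIR f f' h
  linarith

end GRI_

/-- GRI: the growth inequalities on good radii. -/
theorem gri_proof (hMET : Stmt_MET) (hXIL : Stmt_XIL) (hGAL : Stmt_GAL) (_hGC1 : Stmt_GC1)
    (hOUT : Stmt_OUT) (hSLC : Stmt_SLC) (hLFT : Stmt_LFT) (hCPT : Stmt_CPT) (hCMP : Stmt_CMP)
    (hFLX : Stmt_FLX) (_hENV : Stmt_ENV) (_hPOL : Stmt_POL) (hWIR : Stmt_WIR)
    (hALG : Stmt_ALG) : Stmt_GRI := by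
  intro k d n hk
  obtain ⟨c, hc0, hc1, hA⟩ := hALG (k + d) k n hk (Nat.le_add_right k d)
  refine ⟨c, hc0, hc1, fun F hF => ?_⟩
  obtain ⟨C1, hC1, hO⟩ := hOUT k d n F hF
  obtain ⟨C2, hC2, r1, hr1, hM⟩ := hCMP k d n F hF
  refine ⟨5 * C1 + C2, by positivity, min r1 (1 / (1 + 2 * C1)),
    lt_min hr1 (by positivity), fun q hq => ?_⟩
  obtain ⟨S, hSc, hSd⟩ := TopologicalSpace.exists_countable_dense (Fin n → ℝ)
  have a1 := (ae_ball_iff hSc).2 fun α _ => hO q hq α
  have a2 := GRI_.SL_ae hMET hXIL hGAL hSLC hq hF.pc hF.pg hF.pI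
  have a3 := GRI_.SL_ae hMET hXIL hGAL hSLC hq hF.lc hF.lg hF.lI
  filter_upwards [a1, a2, a3] with r b1 b2 b3 hr hrr hqr hZ1 hZ2
  have hm : r ∈ Ioo 0 (F.R - |q|) := ⟨hr, by linarith⟩
  have sp := b2 hm
  have sl := b3 hm
  have hout := GRI_.out_all hMET hXIL hF hr hqr sp sl hSd fun α hα => b1 α hα hr hqr
  have hrr1 : r < r1 := hrr.trans_le (min_le_left _ _)
  have hCr : C1 * r ^ 2 ≤ 1 / 2 := by
    have h1 : r < 1 / (1 + 2 * C1) := hrr.trans_le (min_le_right _ _)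
    rw [lt_div_iff₀ (by positivity)] at h1
    have h2 : r ≤ 1 := by nlinarith
    nlinarith
  obtain ⟨f, f', Lf⟩ := GRI_.lift_ex hLFT hF.pc hr hqr sp (GRI_.p_zero hF hZ1)
    (GRI_.p_zero hF hZ2)
  obtain ⟨g, g', Lg⟩ := GRI_.lift_ex hLFT hF.lc hr hqr sl hZ1.2 hZ2.2
  obtain ⟨mp, ip⟩ := GRI_.tg_meas sp
  obtain ⟨ml, il⟩ := GRI_.tg_meas sl
  -- the identities for the lifts
  have eh : ∀ α, F.h q r α =
      (∑ i, ∑ l, l2 (fun θ => f θ i l - r * Real.sin θ * α l)) +
      ∑ i, ∑ l, l2 (fun θ => g θ i l - r * Real.sin θ * α l) := by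
    intro α
    rw [GRI_.h_eq hMET hXIL hF hr hqr, (GRI_.lift_l2 Lf r α).2, (GRI_.lift_l2 Lg r α).2]
    congr 1
    · refine intervalIntegral.integral_congr fun θ hθ => ?_
      rw [uIcc_of_le Real.pi_pos.le] at hθ
      exact ((GRI_.Same_nsq hXIL (Lf.same θ hθ) _).1).symm
    · refine intervalIntegral.integral_congr fun θ hθ => ?_
      rw [uIcc_of_le Real.pi_pos.le] at hθ
      exact ((GRI_.Same_nsq hXIL (Lg.same θ hθ) _).1).symm
  have et : ∀ α, (∑ i, ∑ l, l2 (fun θ => f' θ i l - r * Real.cos θ * α l)) +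
      ∑ i, ∑ l, l2 (fun θ => g' θ i l - r * Real.cos θ * α l) ≤ F.t q r α := by
    intro α
    rw [GRI_.t_eq sp sl, mul_add, GRI_.T_int, GRI_.T_int]
    refine add_le_add ?_ ?_
    · refine GRI_.lift_t hXIL Lf (fun i l => (mp i l).const_mul r) ?_ ?_ r α
      · simp only [nsq_smul]
        exact ip.const_mul _
      · intro i l s hs t ht
        rw [(sp i l).2.2.2 s hs t ht]
        refine intervalIntegral.integral_congr fun θ _ => ?_
        simp only [Flat.tg, Pi.add_apply, Pi.smul_apply, smul_eq_mul]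
    · refine GRI_.lift_t hXIL Lg (fun i l => (ml i l).const_mul r) ?_ ?_ r α
      · simp only [nsq_smul]
        exact il.const_mul _
      · intro i l s hs t ht
        rw [(sl i l).2.2.2 s hs t ht]
        refine intervalIntegral.integral_congr fun θ _ => ?_
        simp only [Flat.tg, Pi.add_apply, Pi.smul_apply, smul_eq_mul]
  have hh0 : ∀ α, 0 ≤ F.h q r α := by
    intro α
    rw [eh α]
    exact add_nonneg (Finset.sum_nonneg fun _ _ => Finset.sum_nonneg fun _ _ => GRI_.l2_nonneg _)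
      (Finset.sum_nonneg fun _ _ => Finset.sum_nonneg fun _ _ => GRI_.l2_nonneg _)
  have hht : ∀ α, F.h q r α ≤ F.t q r α := by
    intro α
    rw [eh α]
    refine le_trans (add_le_add ?_ ?_) (et α)
    · exact Finset.sum_le_sum fun i _ => Finset.sum_le_sum fun l _ =>
        GRI_.wir_le hWIR (GRI_.lift_wir Lf r α i l)
    · exact Finset.sum_le_sum fun i _ => Finset.sum_le_sum fun l _ =>
        GRI_.wir_le hWIR (GRI_.lift_wir Lg r α i l)
  have hν0 : ∀ α, 0 ≤ F.nu q r α := by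
    intro α
    unfold Flat.nu
    exact mul_nonneg (sq_nonneg r) (intervalIntegral.integral_nonneg Real.pi_pos.le
      fun _ _ => add_nonneg (nsq_nonneg _) (nsq_nonneg _))
  have hw0 : ∀ α : Fin n → ℝ, 0 ≤ 1 + vsq α := fun α => by
    have := vsq_nonneg α
    linarith
  constructor
  · have h1 := (GRI_.arith1 (hh0 0) (hν0 0) (hht 0) hC1.le (hw0 0) hCr (hout 0)).1
    have hv : vsq (0 : Fin n → ℝ) = 0 := by simp [vsq]
    rw [hv] at h1
    have hN : 0 ≤ F.nu q r 0 + F.t q r 0 := add_nonneg (hν0 0) ((hh0 0).trans (hht 0))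
    have h2 : 0 ≤ C2 * r ^ 2 * (F.nu q r 0 + F.t q r 0) := by positivity
    have h3 : 0 ≤ (3 * C1 + C2) * r ^ 4 := by positivity
    nlinarith
  · set α := F.as q r with hα
    have h1 := (GRI_.arith1 (hh0 α) (hν0 α) (hht α) hC1.le (hw0 α) hCr (hout α)).2
    have hN : 0 ≤ F.nu q r α + F.t q r α := add_nonneg (hν0 α) ((hh0 α).trans (hht α))
    have hw := hw0 α
    set e : ℝ := (5 * C1 + C2) * r ^ 2 * (F.nu q r α + F.t q r α) +
      (5 * C1 + C2) * (1 + vsq α) * r ^ 4 with he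
    have he0 : 0 ≤ e := by positivity
    have hsc : ∀ l, ∑ i, sc (fun θ => f θ i l - r * Real.sin θ * α l) +
        ∑ j, sc (fun θ => g θ j l - r * Real.sin θ * α l) = 0 := by
      intro l
      rw [GRI_.lift_sc hXIL Lf r α l, GRI_.lift_sc hXIL Lg r α l]
      have h2 := GRI_.flux hMET hXIL hGAL hFLX hF hr hqr l
      have h3 : α l = 2 * F.Y q r l / ((2 * k + d) * Real.pi * r ^ 2) := rfl
      have hkd : (0 : ℝ) < 2 * k + d := by
        have : (0 : ℝ) < k := by exact_mod_cast hk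
        positivity
      have hpi := Real.pi_pos
      have h4 : (2 * (k : ℝ) + d) * (α l * r) = (2 / Real.pi) *
          ((∫ θ in (0 : ℝ)..Real.pi, (∑ i, xi (F.p (cm q r θ)) i l) * Real.sin θ) +
          ∫ θ in (0 : ℝ)..Real.pi, (∑ i, xi (F.l (cm q r θ)) i l) * Real.sin θ) := by
        rw [h3, h2]
        field_simp
      push_cast
      linarith
    have hmain := hA (fun i l θ => f θ i l - r * Real.sin θ * α l)
      (fun i l θ => f' θ i l - r * Real.cos θ * α l)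
      (fun i l θ => g θ i l - r * Real.sin θ * α l)
      (fun i l θ => g' θ i l - r * Real.cos θ * α l) (F.D q r α) (F.nu q r α) (F.t q r α) e
      (fun i l => GRI_.lift_wir Lf r α i l) (fun j l => GRI_.lift_wir Lg r α j l) hsc
      (hν0 α) he0 (et α) ?_ ?_
    · have hMD : F.M q r = F.D q r α := rfl
      rw [hMD]
      have : (1 - c) * (F.nu q r α + F.t q r α) / 2 + e =
          ((1 - c) / 2 + (5 * C1 + C2) * r ^ 2) * (F.nu q r α + F.t q r α) +
          (5 * C1 + C2) * (1 + vsq α) * r ^ 4 := by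
        rw [he]; ring
      linarith
    · rw [← eh α]
      have h2 : 0 ≤ C2 * r ^ 2 * (F.nu q r α + F.t q r α) := by positivity
      have h3 : 0 ≤ (3 * C1 + C2) * (1 + vsq α) * r ^ 4 := by positivity
      have h4 : 5 * C1 * r ^ 2 * (F.nu q r α + F.t q r α) + 2 * C1 * (1 + vsq α) * r ^ 4 ≤
          e := by
        rw [he]
        nlinarith
      linarith
    · intro i0 j0
      obtain ⟨p', l', X, Y, X', Y', hCp, hE⟩ := hCPT k d n F hF q r hr hqr _ _ f f' g g' Lf Lg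
        i0 j0
      have h2 := hM q r hr hrr1 hqr p' l' X Y X' Y' hCp α
      have h3 := hE α
      obtain ⟨c1, c2⟩ := GRI_.lift_cI Lf r α
      obtain ⟨c3, c4⟩ := GRI_.lift_cI Lg r α
      rw [intervalIntegral.integral_add c1 c3, c2, c4] at h3
      set Hf := ∑ i, ∑ l, l2 (fun θ => f θ i l - r * Real.sin θ * α l)
      set Hg := ∑ i, ∑ l, l2 (fun θ => g θ i l - r * Real.sin θ * α l)
      set Hf' := ∑ i, ∑ l, l2 (fun θ => f' θ i l - r * Real.cos θ * α l)
      set Hg' := ∑ i, ∑ l, l2 (fun θ => g' θ i l - r * Real.cos θ * α l)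
      have hTT : Hf' + Hg' ≤ F.t q r α := et α
      have hx : (∑ l, ((∫ θ in (0 : ℝ)..Real.pi, (f θ i0 l - r * Real.sin θ * α l)) -
          (∫ θ in (0 : ℝ)..Real.pi, (g θ j0 l - r * Real.sin θ * α l))) ^ 2) =
          vsq (fun l => ∫ θ in (0 : ℝ)..Real.pi, (f θ i0 l - g θ j0 l)) := by
        unfold vsq
        refine Finset.sum_congr rfl fun l _ => ?_
        have u1 := GRI_.cont_ii (GRI_.lift_cont Lf i0 l)
        have u2 := GRI_.cont_ii (GRI_.lift_cont Lg j0 l)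
        have u3 : IntervalIntegrable (fun θ : ℝ => r * Real.sin θ * α l) volume 0 Real.pi :=
          Continuous.intervalIntegrable (by fun_prop) _ _
        have u4 := intervalIntegral.integral_sub u1 u2
        rw [intervalIntegral.integral_sub u1 u3, intervalIntegral.integral_sub u2 u3]
        simp only
        rw [u4]
        ring
      rw [hx]
      have hx0 : 0 ≤ (1 / (4 * Real.pi)) *
          vsq (fun l => ∫ θ in (0 : ℝ)..Real.pi, (f θ i0 l - g θ j0 l)) :=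
        mul_nonneg (by have := Real.pi_pos; positivity) (vsq_nonneg _)
      have h4 : F.h q r α = Hf + Hg := eh α
      have h5 := GRI_.arith2 (D := F.D q r α) (h := Hf + Hg) (t := F.t q r α)
        (T := Hf' + Hg') (w := 1 + vsq α) hC2.le (by rw [← h4]; exact hht α) hTT hx0
        (by linarith) h2
      have h6 : 0 ≤ 5 * C1 * r ^ 2 * (F.nu q r α + F.t q r α) := by positivity
      have h7 : 0 ≤ 5 * C1 * (1 + vsq α) * r ^ 4 := by positivity
      have h8 : 0 ≤ C2 * r ^ 2 * F.nu q r α := by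
        have := hν0 α
        positivity
      have h9 : C2 * r ^ 2 * F.t q r α + C2 * (1 + vsq α) * r ^ 4 ≤ e := by
        rw [he]
        nlinarith
      linarith

end Pool.Agent.DMB
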