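import Pool.Agent.DMB.Api

set_option autoImplicit false

namespace Pool.Agent.DMB

open MeasureTheory Set Metric Filter Topology
open scoped ENNReal

namespace GUN_

/-- `P` parametrises lines -/
structure Lines (P : ℝ → ℝ → ℂ) : Prop where
  cont : ∀ y, Continuous (P y)
  fwd : ∀ N : Set ℂ, volume N = 0 → ∀ᵐ y : ℝ, ∀ᵐ t : ℝ, P y t ∉ N
  bwd : ∀ S : Set ℂ, MeasurableSet S → (∀ᵐ y : ℝ, ∀ᵐ t : ℝ, P y t ∉ S) → volume S = 0

lemma ver_lines : Lines (fun x t => (⟨x, t⟩ : ℂ)) := by
  refine ⟨?_, ?_, ?_⟩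
  · intro x
    have : (fun t : ℝ => (⟨x, t⟩ : ℂ)) = fun t : ℝ => (x : ℂ) + t * Complex.I := by
      funext t
      apply Complex.ext <;> simp
    rw [this]
    exact continuous_const.add (Complex.continuous_ofReal.mul continuous_const)
  · intro N hN
    have h1 : ∀ᵐ z : ℂ, z ∉ N := measure_eq_zero_iff_ae_notMem.1 hN
    have h2 := (Complex.volume_preserving_equiv_real_prod.symm).quasiMeasurePreserving.ae h1
    rw [Measure.volume_eq_prod] at h2
    have h3 := Measure.ae_ae_of_ae_prod h2
    exact h3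
  · intro S hS h
    rw [← (Complex.volume_preserving_equiv_real_prod.symm).measure_preimage hS.nullMeasurableSet,
      Measure.volume_eq_prod]
    apply Measure.measure_prod_null_of_ae_null
    · exact Complex.measurableEquivRealProd.symm.measurable hS
    · filter_upwards [h] with x hx
      exact measure_eq_zero_iff_ae_notMem.2 hx

lemma hor_lines : Lines (fun y t => (⟨t, y⟩ : ℂ)) := by
  refine ⟨?_, ?_, ?_⟩
  · intro y
    have : (fun t : ℝ => (⟨t, y⟩ : ℂ)) = fun t : ℝ => (t : ℂ) + y * Complex.I := by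
      funext t
      apply Complex.ext <;> simp
    rw [this]
    exact Complex.continuous_ofReal.add continuous_const
  · intro N hN
    have h1 : ∀ᵐ z : ℂ, z ∉ N := measure_eq_zero_iff_ae_notMem.1 hN
    have h2 := (Complex.volume_preserving_equiv_real_prod.symm).quasiMeasurePreserving.ae h1
    rw [Measure.volume_eq_prod] at h2
    have h3 := (Measure.measurePreserving_swap (μ := (volume : Measure ℝ))
      (ν := (volume : Measure ℝ))).quasiMeasurePreserving.ae h2
    have h4 := Measure.ae_ae_of_ae_prod h3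
    exact h4
  · intro S hS h
    rw [← (Complex.volume_preserving_equiv_real_prod.symm).measure_preimage hS.nullMeasurableSet,
      Measure.volume_eq_prod]
    have hm : MeasurableSet (Complex.measurableEquivRealProd.symm ⁻¹' S) :=
      Complex.measurableEquivRealProd.symm.measurable hS
    rw [← (Measure.measurePreserving_swap (μ := (volume : Measure ℝ))
      (ν := (volume : Measure ℝ))).measure_preimage hm.nullMeasurableSet]
    apply Measure.measure_prod_null_of_ae_null
    · exact measurable_swap hm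
    · filter_upwards [h] with x hx
      exact measure_eq_zero_iff_ae_notMem.2 hx

lemma zero_of_int {h : ℝ → ℝ} {a b : ℝ} (hab : a ≤ b) (hi : IntervalIntegrable h volume a b)
    (h0 : ∀ c ∈ Icc a b, ∫ t in a..c, h t = 0) : ∀ᵐ t : ℝ, t ∈ Ioo a b → h t = 0 := by
  filter_upwards [hi.ae_hasDerivAt_integral] with x hx hxab
  have h1 := hx (by rw [uIcc_of_le hab]; exact ⟨hxab.1.le, hxab.2.le⟩) a
    (by rw [uIcc_of_le hab]; exact ⟨le_refl _, hab⟩)
  have h2 : (fun x => ∫ t in a..x, h t) =ᶠ[𝓝 x] fun _ => (0:ℝ) := by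
    filter_upwards [Ioo_mem_nhds hxab.1 hxab.2] with c hc
    exact h0 c ⟨hc.1.le, hc.2.le⟩
  have h3 := h1.congr_of_eventuallyEq h2.symm
  exact h3.unique (hasDerivAt_const x (0:ℝ))

lemma main {U : Set ℂ} (hU : IsOpen U) {P : ℝ → ℝ → ℂ} (hP : Lines P) {f fx gx : ℂ → ℝ}
    (hmf : AEStronglyMeasurable fx (volume.restrict U))
    (hmg : AEStronglyMeasurable gx (volume.restrict U))
    (hf : ∀ᵐ y : ℝ, ∀ a b : ℝ, a ≤ b → (∀ t ∈ Icc a b, P y t ∈ U) →
      IntervalIntegrable (fun t : ℝ => fx (P y t)) volume a b ∧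
      f (P y b) - f (P y a) = ∫ t in a..b, fx (P y t))
    (hg : ∀ᵐ y : ℝ, ∀ a b : ℝ, a ≤ b → (∀ t ∈ Icc a b, P y t ∈ U) →
      IntervalIntegrable (fun t : ℝ => gx (P y t)) volume a b ∧
      f (P y b) - f (P y a) = ∫ t in a..b, gx (P y t)) :
    fx =ᵐ[volume.restrict U] gx := by
  -- measurable representative of the difference
  have hm : AEStronglyMeasurable (fun z => fx z - gx z) (volume.restrict U) := hmf.sub hmg
  set F := hm.mk (fun z => fx z - gx z) with hF
  have hFm : StronglyMeasurable F := hm.stronglyMeasurable_mk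
  have hFe : (fun z => fx z - gx z) =ᵐ[volume.restrict U] F := hm.ae_eq_mk
  rw [Filter.EventuallyEq, ae_restrict_iff' hU.measurableSet] at hFe
  have hN : volume {z | ¬ (z ∈ U → fx z - gx z = F z)} = 0 := hFe
  set S : Set ℂ := {z | z ∈ U ∧ F z ≠ 0} with hS
  have hSm : MeasurableSet S := by
    apply hU.measurableSet.inter
    exact (hFm.measurable (measurableSet_singleton (0:ℝ))).compl
  have hS0 : volume S = 0 := by
    apply hP.bwd S hSm
    filter_upwards [hf, hg, hP.fwd _ hN] with y hyf hyg hyN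
    -- rational intervals
    have key : ∀ q : ℚ × ℚ, ∀ᵐ t : ℝ, t ∈ Ioo (q.1 : ℝ) q.2 →
        (∀ s ∈ Icc (q.1 : ℝ) q.2, P y s ∈ U) → fx (P y t) - gx (P y t) = 0 := by
      intro q
      by_cases hq : (q.1 : ℝ) ≤ q.2 ∧ ∀ s ∈ Icc (q.1 : ℝ) q.2, P y s ∈ U
      · obtain ⟨hq1, hq2⟩ := hq
        have h1 := (hyf _ _ hq1 hq2).1
        have h2 := (hyg _ _ hq1 hq2).1
        have h3 := zero_of_int hq1 (h1.sub h2) (by
          intro c hc
          have hsub : ∀ s ∈ Icc (q.1 : ℝ) c, P y s ∈ U := fun s hs =>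
            hq2 s ⟨hs.1, hs.2.trans hc.2⟩
          have h4 := hyf _ _ hc.1 hsub
          have h5 := hyg _ _ hc.1 hsub
          rw [intervalIntegral.integral_sub h4.1 h5.1, ← h4.2, ← h5.2, sub_self])
        filter_upwards [h3] with t ht ht1 _
        exact ht ht1
      · filter_upwards with t ht1 ht2
        exfalso
        apply hq
        exact ⟨(lt_trans ht1.1 ht1.2).le, ht2⟩
    have key2 := ae_all_iff.2 key
    filter_upwards [key2, hyN] with t ht htN htS
    obtain ⟨htU, htF⟩ := htS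
    have h1 : fx (P y t) - gx (P y t) = F (P y t) := by
      by_contra h
      exact htN (fun h' => h (h' htU))
    -- find a rational interval
    have hopen : IsOpen ((P y) ⁻¹' U) := hU.preimage (hP.cont y)
    obtain ⟨δ, hδ, hδU⟩ := Metric.isOpen_iff.1 hopen t htU
    obtain ⟨q1, hq1a, hq1b⟩ := exists_rat_btwn (show t - δ < t by linarith)
    obtain ⟨q2, hq2a, hq2b⟩ := exists_rat_btwn (show t < t + δ by linarith)
    have h2 := ht (q1, q2) ⟨hq1b, hq2a⟩ (by
      intro s hs
      apply hδU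
      rw [mem_ball, Real.dist_eq, abs_lt]
      constructor <;> linarith [hs.1, hs.2])
    rw [h1] at h2
    exact htF h2
  rw [Filter.EventuallyEq, ae_restrict_iff' hU.measurableSet]
  have h1 : ∀ᵐ z : ℂ, z ∉ S := measure_eq_zero_iff_ae_notMem.1 hS0
  filter_upwards [h1, hFe] with z hz1 hz2 hzU
  have h3 : F z = 0 := by
    by_contra h
    exact hz1 ⟨hzU, h⟩
  have h4 := hz2 hzU
  linarith

end GUN_

open GUN_ in
theorem gun_proof : Stmt_GUN := by
  intro U f fx fy gx gy hU hf hg
  exact ⟨main hU hor_lines hf.mx hg.mx hf.hor hg.hor,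
    main hU ver_lines hf.my hg.my hf.ver hg.ver⟩

end Pool.Agent.DMB
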