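import Pool.Agent.DMB.Api

/-!
Squad DMB, module HCH: one sided charts from charts.
-/

set_option autoImplicit false

namespace Pool.Agent.DMB

open MeasureTheory Set Metric Filter Topology
open scoped ENNReal

namespace HCH_

theorem norm_conj_sub (a b : ℂ) : ‖starRingEnd ℂ a - starRingEnd ℂ b‖ = ‖a - b‖ := by
  rw [← map_sub, Complex.norm_conj]

theorem open_trans (V : Set ℂ) (hV : IsOpen V) (c : ℂ) : IsOpen ((fun z => z + c) '' V) :=
  (Homeomorph.addRight c).isOpenMap V hV

theorem open_conj (V : Set ℂ) (hV : IsOpen V) : IsOpen ((fun z => starRingEnd ℂ z) '' V) :=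
  Complex.conjCLE.toHomeomorph.isOpenMap V hV

end HCH_

open HCH_ in
theorem hch_proof : Stmt_HCH := by
  intro Op Omi ga Φ c1 R C x0 ρ h hρ hx
  have hin : ∀ z : ℂ, ‖z‖ < ρ → z + x0 ∈ ball (0 : ℂ) R := by
    intro z hz
    rw [mem_ball_zero_iff]
    have h1 := norm_add_le z (x0 : ℂ)
    rw [Complex.norm_real, Real.norm_eq_abs] at h1
    linarith
  have hin' : ∀ z ∈ HDc 0 ρ, z + x0 ∈ ball (0 : ℂ) R := by
    intro z hz
    exact hin z (by simpa using hz.2)
  have hinc : ∀ z ∈ HDc 0 ρ, starRingEnd ℂ z + x0 ∈ ball (0 : ℂ) R := by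
    intro z hz
    exact hin _ (by rw [Complex.norm_conj]; simpa using hz.2)
  have ht : ∀ t : ℝ, |t| < ρ → |t + x0| < R := by
    intro t ht
    have := abs_add_le t x0
    linarith
  have hcc : ContinuousOn (fun t => c1 (t + x0)) (Ioo (-ρ) ρ) := by
    refine h.c1c.comp (continuous_id.add continuous_const).continuousOn ?_
    intro t htI
    have h1 := ht t (abs_lt.2 htI)
    exact abs_lt.1 h1
  constructor
  · refine ⟨hρ, h.hC, ?_, ?_, ?_, hcc, ?_⟩
    · intro z hz w hw
      have := h.lip _ (hin' z hz) _ (hin' w hw)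
      rwa [add_sub_add_right_eq_sub] at this
    · intro z hz w hw
      have := h.alip _ (hin' z hz) _ (hin' w hw)
      rwa [add_sub_add_right_eq_sub] at this
    · intro V hV hVo
      have h1 := h.opn ((fun z => z + (x0 : ℂ)) '' V) ?_ (open_trans V hVo x0)
      · rwa [image_image] at h1
      · rintro _ ⟨z, hz, rfl⟩
        exact hin' z (HD_subset_HDc _ _ (hV hz))
    · intro t htρ z hz
      have h1 := h.ker (t + x0) (ht t htρ) (z + x0) (hin' z hz)
      push_cast at h1
      rwa [add_sub_add_right_eq_sub] at h1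
  · refine ⟨hρ, h.hC, ?_, ?_, ?_, ?_, ?_⟩
    · intro z hz w hw
      have := h.lip _ (hinc z hz) _ (hinc w hw)
      rw [add_sub_add_right_eq_sub, norm_conj_sub] at this
      rwa [norm_conj_sub]
    · intro z hz w hw
      have := h.alip _ (hinc z hz) _ (hinc w hw)
      rw [add_sub_add_right_eq_sub, norm_conj_sub] at this
      rwa [norm_conj_sub]
    · intro V hV hVo
      have h1 := h.opn ((fun z => z + (x0 : ℂ)) '' ((fun z => starRingEnd ℂ z) '' V)) ?_
        (open_trans _ (open_conj V hVo) x0)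
      · have h2 := open_conj _ h1
        rwa [image_image, image_image, image_image] at h2
      · rintro _ ⟨_, ⟨z, hz, rfl⟩, rfl⟩
        exact hinc z (HD_subset_HDc _ _ (hV hz))
    · exact Complex.continuous_conj.comp_continuousOn hcc
    · intro t htρ z hz
      have h1 := h.ker (t + x0) (ht t htρ) (starRingEnd ℂ z + x0) (hinc z hz)
      push_cast at h1
      rw [add_sub_add_right_eq_sub] at h1
      have e1 : ‖starRingEnd ℂ z - (t : ℂ)‖ = ‖z - t‖ := by
        rw [← norm_conj_sub z t, Complex.conj_ofReal]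
      rw [e1] at h1
      rw [Complex.conj_ofReal]
      have e2 : starRingEnd ℂ (Φ (starRingEnd ℂ z + x0)) - starRingEnd ℂ (Φ (t + x0)) -
          starRingEnd ℂ (c1 (t + x0)) * (z - t) =
          starRingEnd ℂ (Φ (starRingEnd ℂ z + x0) - Φ (t + x0) -
            c1 (t + x0) * (starRingEnd ℂ z - t)) := by
        simp only [map_sub, map_mul, Complex.conj_conj, Complex.conj_ofReal]
      rw [e2, Complex.norm_conj]
      exact h1

end Pool.Agent.DMB
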