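import Pool.Agent.DMB.Api

/-!
Module HLF: integrals of the gradient of a function on a half disc which vanishes near the
half circle.
-/

set_option autoImplicit false

namespace Pool.Agent.DMB

open MeasureTheory Set Metric Filter Topology
open scoped ENNReal

namespace HLF_

/-! ### uniqueness of the gradient (copied from GUN) -/

/-- `P` parametrises lines -/
structure Lines (P : ℝ → ℝ → ℂ) : Prop where
  cont : ∀ y, Continuous (P y)
  fwd : ∀ N : Set ℂ, volume N = 0 → ∀ᵐ y : ℝ, ∀ᵐ t : ℝ, P y t ∉ N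
  bwd : ∀ S : Set ℂ, MeasurableSet S → (∀ᵐ y : ℝ, ∀ᵐ t : ℝ, P y t ∉ S) → volume S = 0

lemma ver_lines : Lines (fun x t => (⟨x, t⟩ : ℂ)) := by
  refine ⟨?_, ?_, ?_⟩
  · intro x
    have : (fun t : ℝ => (⟨x, t⟩ : ℂ)) = fun t : ℝ => (x : ℂ) + t * Complex.I := by
      funext t
      apply Complex.ext <;> simp
    rw [this]
    exact continuous_const.add (Complex.continuous_ofReal.mul continuous_const)
  · intro N hN
    have h1 : ∀ᵐ z : ℂ, z ∉ N := measure_eq_zero_iff_ae_notMem.1 hN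
    have h2 := (Complex.volume_preserving_equiv_real_prod.symm).quasiMeasurePreserving.ae h1
    rw [Measure.volume_eq_prod] at h2
    have h3 := Measure.ae_ae_of_ae_prod h2
    exact h3
  · intro S hS h
    rw [← (Complex.volume_preserving_equiv_real_prod.symm).measure_preimage hS.nullMeasurableSet,
      Measure.volume_eq_prod]
    apply Measure.measure_prod_null_of_ae_null
    · exact Complex.measurableEquivRealProd.symm.measurable hS
    · filter_upwards [h] with x hx
      exact measure_eq_zero_iff_ae_notMem.2 hx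

lemma hor_lines : Lines (fun y t => (⟨t, y⟩ : ℂ)) := by
  refine ⟨?_, ?_, ?_⟩
  · intro y
    have : (fun t : ℝ => (⟨t, y⟩ : ℂ)) = fun t : ℝ => (t : ℂ) + y * Complex.I := by
      funext t
      apply Complex.ext <;> simp
    rw [this]
    exact Complex.continuous_ofReal.add continuous_const
  · intro N hN
    have h1 : ∀ᵐ z : ℂ, z ∉ N := measure_eq_zero_iff_ae_notMem.1 hN
    have h2 := (Complex.volume_preserving_equiv_real_prod.symm).quasiMeasurePreserving.ae h1
    rw [Measure.volume_eq_prod] at h2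
    have h3 := (Measure.measurePreserving_swap (μ := (volume : Measure ℝ))
      (ν := (volume : Measure ℝ))).quasiMeasurePreserving.ae h2
    have h4 := Measure.ae_ae_of_ae_prod h3
    exact h4
  · intro S hS h
    rw [← (Complex.volume_preserving_equiv_real_prod.symm).measure_preimage hS.nullMeasurableSet,
      Measure.volume_eq_prod]
    have hm : MeasurableSet (Complex.measurableEquivRealProd.symm ⁻¹' S) :=
      Complex.measurableEquivRealProd.symm.measurable hS
    rw [← (Measure.measurePreserving_swap (μ := (volume : Measure ℝ))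
      (ν := (volume : Measure ℝ))).measure_preimage hm.nullMeasurableSet]
    apply Measure.measure_prod_null_of_ae_null
    · exact measurable_swap hm
    · filter_upwards [h] with x hx
      exact measure_eq_zero_iff_ae_notMem.2 hx

lemma zero_of_int {h : ℝ → ℝ} {a b : ℝ} (hab : a ≤ b) (hi : IntervalIntegrable h volume a b)
    (h0 : ∀ c ∈ Icc a b, ∫ t in a..c, h t = 0) : ∀ᵐ t : ℝ, t ∈ Ioo a b → h t = 0 := by
  filter_upwards [hi.ae_hasDerivAt_integral] with x hx hxab
  have h1 := hx (by rw [uIcc_of_le hab]; exact ⟨hxab.1.le, hxab.2.le⟩) a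
    (by rw [uIcc_of_le hab]; exact ⟨le_refl _, hab⟩)
  have h2 : (fun x => ∫ t in a..x, h t) =ᶠ[𝓝 x] fun _ => (0:ℝ) := by
    filter_upwards [Ioo_mem_nhds hxab.1 hxab.2] with c hc
    exact h0 c ⟨hc.1.le, hc.2.le⟩
  have h3 := h1.congr_of_eventuallyEq h2.symm
  exact h3.unique (hasDerivAt_const x (0:ℝ))

lemma main {U : Set ℂ} (hU : IsOpen U) {P : ℝ → ℝ → ℂ} (hP : Lines P) {f fx gx : ℂ → ℝ}
    (hmf : AEStronglyMeasurable fx (volume.restrict U))
    (hmg : AEStronglyMeasurable gx (volume.restrict U))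
    (hf : ∀ᵐ y : ℝ, ∀ a b : ℝ, a ≤ b → (∀ t ∈ Icc a b, P y t ∈ U) →
      IntervalIntegrable (fun t : ℝ => fx (P y t)) volume a b ∧
      f (P y b) - f (P y a) = ∫ t in a..b, fx (P y t))
    (hg : ∀ᵐ y : ℝ, ∀ a b : ℝ, a ≤ b → (∀ t ∈ Icc a b, P y t ∈ U) →
      IntervalIntegrable (fun t : ℝ => gx (P y t)) volume a b ∧
      f (P y b) - f (P y a) = ∫ t in a..b, gx (P y t)) :
    fx =ᵐ[volume.restrict U] gx := by
  -- measurable representative of the difference
  have hm : AEStronglyMeasurable (fun z => fx z - gx z) (volume.restrict U) := hmf.sub hmg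
  set F := hm.mk (fun z => fx z - gx z) with hF
  have hFm : StronglyMeasurable F := hm.stronglyMeasurable_mk
  have hFe : (fun z => fx z - gx z) =ᵐ[volume.restrict U] F := hm.ae_eq_mk
  rw [Filter.EventuallyEq, ae_restrict_iff' hU.measurableSet] at hFe
  have hN : volume {z | ¬ (z ∈ U → fx z - gx z = F z)} = 0 := hFe
  set S : Set ℂ := {z | z ∈ U ∧ F z ≠ 0} with hS
  have hSm : MeasurableSet S := by
    apply hU.measurableSet.inter
    exact (hFm.measurable (measurableSet_singleton (0:ℝ))).compl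
  have hS0 : volume S = 0 := by
    apply hP.bwd S hSm
    filter_upwards [hf, hg, hP.fwd _ hN] with y hyf hyg hyN
    -- rational intervals
    have key : ∀ q : ℚ × ℚ, ∀ᵐ t : ℝ, t ∈ Ioo (q.1 : ℝ) q.2 →
        (∀ s ∈ Icc (q.1 : ℝ) q.2, P y s ∈ U) → fx (P y t) - gx (P y t) = 0 := by
      intro q
      by_cases hq : (q.1 : ℝ) ≤ q.2 ∧ ∀ s ∈ Icc (q.1 : ℝ) q.2, P y s ∈ U
      · obtain ⟨hq1, hq2⟩ := hq
        have h1 := (hyf _ _ hq1 hq2).1
        have h2 := (hyg _ _ hq1 hq2).1
        have h3 := zero_of_int hq1 (h1.sub h2) (by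
          intro c hc
          have hsub : ∀ s ∈ Icc (q.1 : ℝ) c, P y s ∈ U := fun s hs =>
            hq2 s ⟨hs.1, hs.2.trans hc.2⟩
          have h4 := hyf _ _ hc.1 hsub
          have h5 := hyg _ _ hc.1 hsub
          rw [intervalIntegral.integral_sub h4.1 h5.1, ← h4.2, ← h5.2, sub_self])
        filter_upwards [h3] with t ht ht1 _
        exact ht ht1
      · filter_upwards with t ht1 ht2
        exfalso
        apply hq
        exact ⟨(lt_trans ht1.1 ht1.2).le, ht2⟩
    have key2 := ae_all_iff.2 key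
    filter_upwards [key2, hyN] with t ht htN htS
    obtain ⟨htU, htF⟩ := htS
    have h1 : fx (P y t) - gx (P y t) = F (P y t) := by
      by_contra h
      exact htN (fun h' => h (h' htU))
    -- find a rational interval
    have hopen : IsOpen ((P y) ⁻¹' U) := hU.preimage (hP.cont y)
    obtain ⟨δ, hδ, hδU⟩ := Metric.isOpen_iff.1 hopen t htU
    obtain ⟨q1, hq1a, hq1b⟩ := exists_rat_btwn (show t - δ < t by linarith)
    obtain ⟨q2, hq2a, hq2b⟩ := exists_rat_btwn (show t < t + δ by linarith)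
    have h2 := ht (q1, q2) ⟨hq1b, hq2a⟩ (by
      intro s hs
      apply hδU
      rw [mem_ball, Real.dist_eq, abs_lt]
      constructor <;> linarith [hs.1, hs.2])
    rw [h1] at h2
    exact htF h2
  rw [Filter.EventuallyEq, ae_restrict_iff' hU.measurableSet]
  have h1 : ∀ᵐ z : ℂ, z ∉ S := measure_eq_zero_iff_ae_notMem.1 hS0
  filter_upwards [h1, hFe] with z hz1 hz2 hzU
  have h3 : F z = 0 := by
    by_contra h
    exact hz1 ⟨hzU, h⟩
  have h4 := hz2 hzU
  linarith

/-! ### one dimensional lemmas -/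

lemma ibp {W h : ℝ → ℝ} {a b q : ℝ} (hab : a ≤ b) (hi : IntervalIntegrable h volume a b)
    (hW : ∀ t ∈ Icc a b, W t - W a = ∫ u in a..t, h u) :
    ∫ t in a..b, h t * (t - q) = W b * (b - q) - W a * (a - q) - ∫ t in a..b, W t := by
  have hF : AbsolutelyContinuousOnInterval (fun x => ∫ u in a..x, h u) a b :=
    hi.absolutelyContinuousOnInterval_intervalIntegral left_mem_uIcc
  have hG : AbsolutelyContinuousOnInterval (fun x : ℝ => x - q) a b := by
    apply ContDiffOn.absolutelyContinuousOnInterval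
    fun_prop
  have h1 := hF.integral_mul_deriv_eq_deriv_mul hG
  have hd : ∀ t : ℝ, deriv (fun x : ℝ => x - q) t = 1 := by
    intro t
    simp
  simp only [hd, mul_one, intervalIntegral.integral_same, zero_mul, sub_zero] at h1
  have h2 : ∫ t in a..b, deriv (fun x => ∫ u in a..x, h u) t * (t - q) =
      ∫ t in a..b, h t * (t - q) := by
    apply intervalIntegral.integral_congr_ae
    filter_upwards [hi.ae_hasDerivAt_integral] with t ht htm
    rw [(ht (uIoc_subset_uIcc htm) a left_mem_uIcc).deriv]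
  have hFc : ContinuousOn (fun x => ∫ u in a..x, h u) (uIcc a b) := hF.continuousOn
  have h3 : ∫ t in a..b, W t = (∫ t in a..b, ∫ u in a..t, h u) + W a * (b - a) := by
    have h4 : ∫ t in a..b, W t = ∫ t in a..b, ((∫ u in a..t, h u) + W a) := by
      apply intervalIntegral.integral_congr
      intro t ht
      rw [uIcc_of_le hab] at ht
      have := hW t ht
      simp only
      linarith
    rw [h4, intervalIntegral.integral_add hFc.intervalIntegrable
      intervalIntegrable_const, intervalIntegral.integral_const]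
    simp only [smul_eq_mul]
    ring
  have h5 := hW b ⟨hab, le_rfl⟩
  rw [h2] at h1
  rw [← h5] at h1
  rw [h3]
  linarith

lemma lim0 {W h : ℝ → ℝ} {t : ℝ} (ht : 0 < t) (hW : ContinuousOn W (Icc 0 t))
    (hi : IntervalIntegrable h volume 0 t)
    (hab : ∀ a ∈ Ioo 0 t, W t - W a = ∫ u in a..t, h u) : W t - W 0 = ∫ u in (0 : ℝ)..t, h u := by
  have hev : ∀ᶠ a in 𝓝[>] (0 : ℝ), a ∈ Ioo 0 t := Ioo_mem_nhdsGT ht
  have hlim1 : Tendsto (fun a => ∫ u in a..t, h u) (𝓝[>] 0) (𝓝 (∫ u in (0 : ℝ)..t, h u)) := by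
    have h1 : ContinuousOn (fun a => ∫ u in a..t, h u) (uIcc 0 t) := by
      apply intervalIntegral.continuousOn_primitive_interval_left
      rw [uIcc_of_le ht.le, ← intervalIntegrable_iff_integrableOn_Icc_of_le ht.le]
      exact hi
    have h2 := (h1 0 left_mem_uIcc)
    rw [uIcc_of_le ht.le] at h2
    apply h2.mono_left
    rw [nhdsWithin_le_iff]
    filter_upwards [hev] with a ha
    exact ⟨ha.1.le, ha.2.le⟩
  have hlim2 : Tendsto (fun a : ℝ => W t - W a) (𝓝[>] 0) (𝓝 (W t - W 0)) := by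
    apply Tendsto.const_sub
    have h2 := hW 0 ⟨le_rfl, ht.le⟩
    apply h2.mono_left
    rw [nhdsWithin_le_iff]
    filter_upwards [hev] with a ha
    exact ⟨ha.1.le, ha.2.le⟩
  have hlim3 := hlim2.congr' (hev.mono fun a ha => hab a ha)
  exact tendsto_nhds_unique hlim3 hlim1

/-! ### slices of half discs (partly copied from FLX) -/

/-- half chord length -/
noncomputable def fsc (q r x : ℝ) : ℝ := Real.sqrt (r ^ 2 - (x - q) ^ 2)

theorem norm_sub_sq (x y q : ℝ) : ‖(⟨x, y⟩ : ℂ) - q‖ ^ 2 = (x - q) ^ 2 + y ^ 2 := by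
  rw [← Complex.normSq_eq_norm_sq, Complex.normSq_apply]
  simp only [Complex.sub_re, Complex.ofReal_re, Complex.sub_im, Complex.ofReal_im, sub_zero]
  ring

theorem norm_lt_iff {q r : ℝ} (hr : 0 < r) (x y : ℝ) :
    ‖(⟨x, y⟩ : ℂ) - q‖ < r ↔ (x - q) ^ 2 + y ^ 2 < r ^ 2 := by
  rw [← norm_sub_sq x y q]
  constructor
  · intro h
    exact pow_lt_pow_left₀ h (norm_nonneg _) two_ne_zero
  · intro h
    exact lt_of_pow_lt_pow_left₀ 2 hr.le h

theorem norm_le_iff {q r : ℝ} (hr : 0 < r) (x y : ℝ) :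
    ‖(⟨x, y⟩ : ℂ) - q‖ ≤ r ↔ (x - q) ^ 2 + y ^ 2 ≤ r ^ 2 := by
  rw [← norm_sub_sq x y q]
  constructor
  · intro h
    exact pow_le_pow_left₀ (norm_nonneg _) h 2
  · intro h
    exact le_of_sq_le_sq h hr.le

theorem le_norm_iff {q r : ℝ} (hr : 0 < r) (x y : ℝ) :
    r ≤ ‖(⟨x, y⟩ : ℂ) - q‖ ↔ r ^ 2 ≤ (x - q) ^ 2 + y ^ 2 := by
  rw [← not_lt, norm_lt_iff hr, not_lt]

theorem fslice {q r : ℝ} (hr : 0 < r) (x y : ℝ) :
    (⟨x, y⟩ : ℂ) ∈ HD q r ↔ y ∈ Ioo 0 (fsc q r x) := by
  have : (⟨x, y⟩ : ℂ) ∈ HD q r ↔ 0 < y ∧ ‖(⟨x, y⟩ : ℂ) - q‖ < r := Iff.rfl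
  rw [this, norm_lt_iff hr, mem_Ioo]
  constructor
  · rintro ⟨h0, h1⟩
    refine ⟨h0, ?_⟩
    rw [fsc, Real.lt_sqrt h0.le]
    linarith
  · rintro ⟨h0, h1⟩
    refine ⟨h0, ?_⟩
    rw [fsc, Real.lt_sqrt h0.le] at h1
    linarith

/-- horizontal slice -/
theorem hslice {q r : ℝ} (hr : 0 < r) (x : ℝ) {y : ℝ} (hy : 0 < y) :
    (⟨x, y⟩ : ℂ) ∈ HD q r ↔ x ∈ Ioo (q - fsc 0 r y) (q + fsc 0 r y) := by
  have : (⟨x, y⟩ : ℂ) ∈ HD q r ↔ 0 < y ∧ ‖(⟨x, y⟩ : ℂ) - q‖ < r := Iff.rfl
  rw [this, norm_lt_iff hr, mem_Ioo]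
  have h1 : (x - q) ^ 2 + y ^ 2 < r ^ 2 ↔ |x - q| < fsc 0 r y := by
    rw [fsc, Real.lt_sqrt (abs_nonneg _), sq_abs, sub_zero]
    constructor <;> intro h <;> linarith
  rw [h1, abs_lt]
  constructor
  · rintro ⟨-, h2, h3⟩
    exact ⟨by linarith, by linarith⟩
  · rintro ⟨h2, h3⟩
    exact ⟨hy, by linarith, by linarith⟩

/-- points of the closed half disc -/
theorem in_HDc {R q r : ℝ} (hr : 0 < r) (hq : |q| + r < R) {x y : ℝ} (hy : 0 ≤ y)
    (h : (x - q) ^ 2 + y ^ 2 ≤ r ^ 2) : (⟨x, y⟩ : ℂ) ∈ HDc 0 R := by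
  refine ⟨hy, ?_⟩
  have h1 := (norm_le_iff hr x y).mpr h
  have h2 : ‖(⟨x, y⟩ : ℂ) - (0 : ℝ)‖ ≤ ‖(⟨x, y⟩ : ℂ) - q‖ + ‖(q : ℂ)‖ := by
    rw [Complex.ofReal_zero, sub_zero]
    exact norm_le_norm_sub_add _ _
  rw [Complex.norm_real, Real.norm_eq_abs] at h2
  linarith

theorem in_HD {R q r : ℝ} (hr : 0 < r) (hq : |q| + r < R) {x y : ℝ} (hy : 0 < y)
    (h : (x - q) ^ 2 + y ^ 2 ≤ r ^ 2) : (⟨x, y⟩ : ℂ) ∈ HD 0 R :=
  ⟨hy, (in_HDc hr hq hy.le h).2⟩

theorem HD_open (q r : ℝ) : IsOpen (HD q r) := by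
  have h1 : IsOpen {z : ℂ | 0 < z.im} := isOpen_lt continuous_const Complex.continuous_im
  have h2 : IsOpen {z : ℂ | ‖z - q‖ < r} :=
    isOpen_lt (continuous_norm.comp (continuous_id.sub continuous_const)) continuous_const
  exact h1.inter h2

theorem hdsub {R q r : ℝ} (hr : 0 < r) (hq : |q| + r < R) : HD q r ⊆ HD 0 R := by
  rintro ⟨x, y⟩ hz
  have h1 := (fslice hr x y).mp hz
  have hz2 := (norm_lt_iff hr x y).mp hz.2
  exact in_HD hr hq h1.1 hz2.le

theorem fsc_nonneg (q r x : ℝ) : 0 ≤ fsc q r x := Real.sqrt_nonneg _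

theorem fsc_sq {q r x : ℝ} (h : |x - q| ≤ r) : (x - q) ^ 2 + fsc q r x ^ 2 = r ^ 2 := by
  rw [fsc, Real.sq_sqrt]
  · ring
  · have := sq_le_sq' (abs_le.mp h).1 (abs_le.mp h).2
    linarith

theorem fsc_pos {q r x : ℝ} (h : |x - q| < r) : 0 < fsc q r x := by
  rw [fsc]
  apply Real.sqrt_pos.2
  have := sq_lt_sq' (abs_lt.mp h).1 (abs_lt.mp h).2
  linarith

theorem fsc_zero {q r x : ℝ} (hr : 0 < r) (h : ¬ |x - q| < r) : fsc q r x = 0 := by
  rw [fsc, Real.sqrt_eq_zero']
  push Not at h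
  have : r ^ 2 ≤ (x - q) ^ 2 := by
    rw [← sq_abs (x - q)]
    exact pow_le_pow_left₀ hr.le h 2
  linarith

theorem finite_HD (q r : ℝ) : volume (HD q r) < ⊤ := by
  have : HD q r ⊆ ball (q : ℂ) r := by
    intro z hz
    rw [mem_ball, dist_eq_norm]
    exact hz.2
  exact lt_of_le_of_lt (measure_mono this) measure_ball_lt_top

theorem int_of_sq {R : ℝ} {f g : ℂ → ℝ} (hm : AEStronglyMeasurable f (volume.restrict (HD 0 R)))
    (hI : IntegrableOn g (HD 0 R)) (h : ∀ z, f z ^ 2 ≤ g z) : IntegrableOn f (HD 0 R) := by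
  have h1 : IntegrableOn (fun z => 1 + g z) (HD 0 R) := by
    apply Integrable.add _ hI
    exact integrableOn_const (finite_HD 0 R).ne
  refine Integrable.mono' h1 hm ?_
  refine Eventually.of_forall fun z => ?_
  rw [Real.norm_eq_abs]
  have h2 : |f z| ≤ 1 + f z ^ 2 := by
    rw [← sq_abs]
    nlinarith [sq_nonneg (|f z| - 1), abs_nonneg (f z)]
  exact h2.trans (by linarith [h z])

/-- Fubini, vertical slices -/
theorem fub_ver {q r : ℝ} (hr : 0 < r) {f : ℂ → ℝ} (hfI : IntegrableOn f (HD q r)) {g : ℝ → ℝ}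
    (h : ∀ᵐ x : ℝ, IntervalIntegrable (fun y : ℝ => f ⟨x, y⟩) volume 0 (fsc q r x) →
      ∫ y in (0 : ℝ)..fsc q r x, f ⟨x, y⟩ = g x) : ∫ z in HD q r, f z = ∫ x : ℝ, g x := by
  have hmeas : MeasurableSet (HD q r) := (HD_open q r).measurableSet
  set F : ℂ → ℝ := (HD q r).indicator f with hF
  have hfi : Integrable F := by
    rw [hF, integrable_indicator_iff hmeas]
    exact hfI
  have hmp := Complex.volume_preserving_equiv_real_prod.symm
  have hfi2 : Integrable (fun p : ℝ × ℝ => F ⟨p.1, p.2⟩) (volume.prod volume) := by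
    have := (hmp.integrable_comp_emb
      (Complex.measurableEquivRealProd.symm.measurableEmbedding)).mpr hfi
    exact this
  have hFF : ∫ z in HD q r, f z = ∫ x : ℝ, ∫ y : ℝ, F ⟨x, y⟩ := by
    rw [← integral_indicator hmeas, ← integral_prod _ hfi2]
    have := hmp.integral_comp (Complex.measurableEquivRealProd.symm.measurableEmbedding) F
    rw [← this]
    rfl
  rw [hFF]
  apply integral_congr_ae
  filter_upwards [h, hfi2.prod_right_ae] with x hx hix
  have e1 : (fun y : ℝ => F ⟨x, y⟩) = (Ioo 0 (fsc q r x)).indicator (fun y => f ⟨x, y⟩) := by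
    funext y
    rw [hF]
    by_cases hy : y ∈ Ioo 0 (fsc q r x)
    · rw [indicator_of_mem hy, indicator_of_mem ((fslice hr x y).mpr hy)]
    · rw [indicator_of_notMem hy, indicator_of_notMem]
      exact fun h => hy ((fslice hr x y).mp h)
  have hs := fsc_nonneg q r x
  have hix2 : IntegrableOn (fun y => f ⟨x, y⟩) (Ioo 0 (fsc q r x)) := by
    have := hix
    rw [e1, integrable_indicator_iff measurableSet_Ioo] at this
    exact this
  have hii : IntervalIntegrable (fun y => f ⟨x, y⟩) volume 0 (fsc q r x) := by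
    rw [intervalIntegrable_iff_integrableOn_Ioo_of_le hs]
    exact hix2
  rw [e1, integral_indicator measurableSet_Ioo, ← integral_Ioc_eq_integral_Ioo,
    ← intervalIntegral.integral_of_le hs]
  exact hx hii

/-- Fubini, horizontal slices -/
theorem fub_hor {q r : ℝ} (hr : 0 < r) {f : ℂ → ℝ} (hfI : IntegrableOn f (HD q r))
    (h : ∀ᵐ y : ℝ, 0 < y → y < r → IntervalIntegrable (fun x : ℝ => f ⟨x, y⟩) volume
      (q - fsc 0 r y) (q + fsc 0 r y) →
      ∫ x in (q - fsc 0 r y)..(q + fsc 0 r y), f ⟨x, y⟩ = 0) : ∫ z in HD q r, f z = 0 := by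
  have hmeas : MeasurableSet (HD q r) := (HD_open q r).measurableSet
  set F : ℂ → ℝ := (HD q r).indicator f with hF
  have hfi : Integrable F := by
    rw [hF, integrable_indicator_iff hmeas]
    exact hfI
  have hmp := Complex.volume_preserving_equiv_real_prod.symm
  have hfi2 : Integrable (fun p : ℝ × ℝ => F ⟨p.1, p.2⟩) (volume.prod volume) := by
    have := (hmp.integrable_comp_emb
      (Complex.measurableEquivRealProd.symm.measurableEmbedding)).mpr hfi
    exact this
  have hFF : ∫ z in HD q r, f z = ∫ y : ℝ, ∫ x : ℝ, F ⟨x, y⟩ := by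
    rw [← integral_indicator hmeas, ← integral_prod_symm _ hfi2]
    have := hmp.integral_comp (Complex.measurableEquivRealProd.symm.measurableEmbedding) F
    rw [← this]
    rfl
  rw [hFF]
  have h0 : (0 : ℝ) = ∫ _ : ℝ, (0 : ℝ) := by simp
  rw [h0]
  apply integral_congr_ae
  filter_upwards [h, hfi2.prod_left_ae] with y hx hix
  by_cases hy : 0 < y ∧ y < r
  · obtain ⟨hy, hyr⟩ := hy
    have e1 : (fun x : ℝ => F ⟨x, y⟩) =
        (Ioo (q - fsc 0 r y) (q + fsc 0 r y)).indicator (fun x => f ⟨x, y⟩) := by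
      funext x
      rw [hF]
      by_cases hx : x ∈ Ioo (q - fsc 0 r y) (q + fsc 0 r y)
      · rw [indicator_of_mem hx, indicator_of_mem ((hslice hr x hy).mpr hx)]
      · rw [indicator_of_notMem hx, indicator_of_notMem]
        exact fun h => hx ((hslice hr x hy).mp h)
    have hs : q - fsc 0 r y ≤ q + fsc 0 r y := by linarith [fsc_nonneg 0 r y]
    have hix2 : IntegrableOn (fun x => f ⟨x, y⟩) (Ioo (q - fsc 0 r y) (q + fsc 0 r y)) := by
      have := hix
      rw [e1, integrable_indicator_iff measurableSet_Ioo] at this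
      exact this
    have hii : IntervalIntegrable (fun x => f ⟨x, y⟩) volume (q - fsc 0 r y)
        (q + fsc 0 r y) := by
      rw [intervalIntegrable_iff_integrableOn_Ioo_of_le hs]
      exact hix2
    rw [e1, integral_indicator measurableSet_Ioo, ← integral_Ioc_eq_integral_Ioo,
      ← intervalIntegral.integral_of_le hs]
    exact hx hy hyr hii
  · have e1 : (fun x : ℝ => F ⟨x, y⟩) = fun _ => 0 := by
      funext x
      rw [hF, indicator_of_notMem]
      intro hm
      apply hy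
      have h1 := (fslice hr x y).mp hm
      refine ⟨h1.1, ?_⟩
      have h2 : fsc q r x ≤ r := by
        rw [fsc]
        apply Real.sqrt_le_iff.mpr
        exact ⟨hr.le, by nlinarith [sq_nonneg (x - q)]⟩
      exact lt_of_lt_of_le h1.2 h2
    rw [e1]
    simp


/-- integrability of vertical slices -/
theorem fub_slice {q r : ℝ} (hr : 0 < r) {f : ℂ → ℝ} (hfI : IntegrableOn f (HD q r)) :
    ∀ᵐ x : ℝ, IntervalIntegrable (fun y : ℝ => f ⟨x, y⟩) volume 0 (fsc q r x) := by
  have hmeas : MeasurableSet (HD q r) := (HD_open q r).measurableSet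
  set F : ℂ → ℝ := (HD q r).indicator f with hF
  have hfi : Integrable F := by
    rw [hF, integrable_indicator_iff hmeas]
    exact hfI
  have hmp := Complex.volume_preserving_equiv_real_prod.symm
  have hfi2 : Integrable (fun p : ℝ × ℝ => F ⟨p.1, p.2⟩) (volume.prod volume) := by
    have := (hmp.integrable_comp_emb
      (Complex.measurableEquivRealProd.symm.measurableEmbedding)).mpr hfi
    exact this
  filter_upwards [hfi2.prod_right_ae] with x hix
  have e1 : (fun y : ℝ => F ⟨x, y⟩) = (Ioo 0 (fsc q r x)).indicator (fun y => f ⟨x, y⟩) := by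
    funext y
    rw [hF]
    by_cases hy : y ∈ Ioo 0 (fsc q r x)
    · rw [indicator_of_mem hy, indicator_of_mem ((fslice hr x y).mpr hy)]
    · rw [indicator_of_notMem hy, indicator_of_notMem]
      exact fun h => hy ((fslice hr x y).mp h)
  rw [e1, integrable_indicator_iff measurableSet_Ioo] at hix
  rw [intervalIntegrable_iff_integrableOn_Ioo_of_le (fsc_nonneg q r x)]
  exact hix


theorem int_mul {q s : ℝ} {f g : ℂ → ℝ} (hf : IntegrableOn f (HD q s)) (hg : Continuous g)
    (hb : ∀ z ∈ HD q s, |g z| ≤ s) : IntegrableOn (fun z => f z * g z) (HD q s) := by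
  have h1 : Integrable (fun z => s * |f z|) (volume.restrict (HD q s)) := hf.abs.const_mul s
  refine Integrable.mono' h1 (hf.aestronglyMeasurable.mul hg.aestronglyMeasurable) ?_
  rw [ae_restrict_iff' (HD_open q s).measurableSet]
  refine Eventually.of_forall fun z hz => ?_
  rw [Real.norm_eq_abs, abs_mul, mul_comm]
  exact mul_le_mul_of_nonneg_right (hb z hz) (abs_nonneg _)

/-- the gradient vanishes where the function vanishes -/
theorem ae_zero {R q r : ℝ} {w wx wy : ℂ → ℝ} (hg : HasGrad (HD 0 R) w wx wy)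
    (h0 : ∀ z ∈ HDc 0 R, r ≤ ‖z - q‖ → w z = 0) :
    ∀ᵐ z : ℂ, z ∈ HD 0 R → r < ‖z - q‖ → wx z = 0 ∧ wy z = 0 := by
  set V : Set ℂ := HD 0 R ∩ {z | r < ‖z - q‖} with hV
  have hVo : IsOpen V := by
    apply (HD_open 0 R).inter
    exact isOpen_lt continuous_const (continuous_norm.comp (continuous_id.sub continuous_const))
  have hVs : V ⊆ HD 0 R := inter_subset_left
  have hVw : ∀ z ∈ V, w z = 0 := fun z hz => h0 z ⟨hz.1.1.le, hz.1.2⟩ hz.2.le
  have hx : wx =ᵐ[volume.restrict V] fun _ => 0 := by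
    apply main (f := w) hVo hor_lines (hg.mx.mono_set hVs) aestronglyMeasurable_const
    · filter_upwards [hg.hor] with y hy a b hab ht
      exact hy a b hab fun t h => hVs (ht t h)
    · refine Eventually.of_forall fun y a b hab ht => ⟨intervalIntegrable_const, ?_⟩
      rw [hVw _ (ht b ⟨hab, le_rfl⟩), hVw _ (ht a ⟨le_rfl, hab⟩)]
      simp
  have hy : wy =ᵐ[volume.restrict V] fun _ => 0 := by
    apply main (f := w) hVo ver_lines (hg.my.mono_set hVs) aestronglyMeasurable_const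
    · filter_upwards [hg.ver] with y hy a b hab ht
      exact hy a b hab fun t h => hVs (ht t h)
    · refine Eventually.of_forall fun y a b hab ht => ⟨intervalIntegrable_const, ?_⟩
      rw [hVw _ (ht b ⟨hab, le_rfl⟩), hVw _ (ht a ⟨le_rfl, hab⟩)]
      simp
  rw [Filter.EventuallyEq, ae_restrict_iff' hVo.measurableSet] at hx hy
  filter_upwards [hx, hy] with z h1 h2 h3 h4
  exact ⟨h1 ⟨h3, h4⟩, h2 ⟨h3, h4⟩⟩

theorem w_int {R q s : ℝ} {w : ℂ → ℝ} (hs : 0 < s) (hq : |q| + s < R)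
    (hc : ContinuousOn w (HDc 0 R)) : IntegrableOn w (HD q s) := by
  set K : Set ℂ := {z | 0 ≤ z.im} ∩ closedBall (q : ℂ) s with hK
  have hKc : IsCompact K := by
    rw [hK, inter_comm]
    exact (isCompact_closedBall _ _).inter_right (isClosed_le continuous_const Complex.continuous_im)
  have hKs : K ⊆ HDc 0 R := by
    rintro ⟨x, y⟩ ⟨h1, h2⟩
    rw [mem_closedBall, dist_eq_norm, norm_le_iff hs] at h2
    exact in_HDc hs hq h1 h2
  have h1 : IntegrableOn w K := (hc.mono hKs).integrableOn_compact hKc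
  apply h1.mono_set
  intro z hz
  refine ⟨hz.1.le, ?_⟩
  rw [mem_closedBall, dist_eq_norm]
  exact hz.2.le

theorem cont_ver (x : ℝ) : Continuous (fun a : ℝ => (⟨x, a⟩ : ℂ)) := by
  have e : (fun a : ℝ => (⟨x, a⟩ : ℂ)) = fun a : ℝ => (x : ℂ) + a * Complex.I := by
    funext a
    exact Complex.mk_eq_add_mul_I x a
  rw [e]
  fun_prop

theorem cont_hor (y : ℝ) : Continuous (fun a : ℝ => (⟨a, y⟩ : ℂ)) := by
  have e : (fun a : ℝ => (⟨a, y⟩ : ℂ)) = fun a : ℝ => (a : ℂ) + y * Complex.I := by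
    funext a
    exact Complex.mk_eq_add_mul_I a y
  rw [e]
  fun_prop

end HLF_

open HLF_ in
theorem hlf_proof : Stmt_HLF := by
  intro R q r w wx wy hr hq hc hg hI h0
  have hwx : IntegrableOn wx (HD 0 R) :=
    int_of_sq hg.mx hI fun z => by nlinarith [sq_nonneg (wy z)]
  have hwy : IntegrableOn wy (HD 0 R) :=
    int_of_sq hg.my hI fun z => by nlinarith [sq_nonneg (wx z)]
  have hae := ae_zero hg h0
  set s : ℝ := (r + (R - |q|)) / 2 with hsd
  have hrs : r < s := by linarith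
  have hqs : |q| + s < R := by linarith
  have hs : 0 < s := hr.trans hrs
  have hsub : HD q s ⊆ HD 0 R := hdsub hs hqs
  have hmeas : MeasurableSet (HD q s) := (HD_open q s).measurableSet
  have hwxs := hwx.mono_set hsub
  have hwys := hwy.mono_set hsub
  have hws : IntegrableOn w (HD q s) := w_int hs hqs hc
  have hzero : ∀ᵐ z : ℂ, z ∈ HD 0 R \ HD q s → wx z = 0 ∧ wy z = 0 := by
    filter_upwards [hae] with z hz hz1
    apply hz hz1.1
    by_contra h
    apply hz1.2
    push Not at h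
    exact ⟨hz1.1.1, h.trans_lt hrs⟩
  have hred : ∀ g : ℂ → ℝ, (∀ z, wx z = 0 ∧ wy z = 0 → g z = 0) →
      ∫ z in HD 0 R, g z = ∫ z in HD q s, g z := by
    intro g hgz
    apply setIntegral_eq_of_subset_of_ae_sdiff_eq_zero
      (HD_open 0 R).measurableSet.nullMeasurableSet hsub
    filter_upwards [hzero] with z hz hz1
    exact hgz z (hz hz1)
  -- horizontal slices
  have hhor : ∀ᵐ y : ℝ, 0 < y → y < s →
      IntervalIntegrable (fun x : ℝ => wx ⟨x, y⟩) volume (q - fsc 0 s y) (q + fsc 0 s y) ∧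
      IntervalIntegrable (fun x : ℝ => w ⟨x, y⟩) volume (q - fsc 0 s y) (q + fsc 0 s y) ∧
      ∫ x in (q - fsc 0 s y)..(q + fsc 0 s y), wx ⟨x, y⟩ = 0 ∧
      ∫ x in (q - fsc 0 s y)..(q + fsc 0 s y), wx ⟨x, y⟩ * (x - q) =
        -∫ x in (q - fsc 0 s y)..(q + fsc 0 s y), w ⟨x, y⟩ := by
    filter_upwards [hg.hor] with y hy hy0 hys
    have hc0 : 0 < fsc 0 s y := fsc_pos (by rw [sub_zero, abs_of_pos hy0]; exact hys)
    have hcsq := fsc_sq (q := 0) (r := s) (x := y) (by rw [sub_zero, abs_of_pos hy0]; exact hys.le)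
    rw [sub_zero] at hcsq
    have hab : q - fsc 0 s y ≤ q + fsc 0 s y := by linarith
    have hin : ∀ t ∈ Icc (q - fsc 0 s y) (q + fsc 0 s y), (⟨t, y⟩ : ℂ) ∈ HD 0 R := by
      intro t ht
      apply in_HD hs hqs hy0
      have : (t - q) ^ 2 ≤ fsc 0 s y ^ 2 :=
        sq_le_sq' (by linarith [ht.1]) (by linarith [ht.2])
      linarith
    obtain ⟨hi, -⟩ := hy _ _ hab hin
    have hW : ∀ t ∈ Icc (q - fsc 0 s y) (q + fsc 0 s y),
        w ⟨t, y⟩ - w ⟨q - fsc 0 s y, y⟩ = ∫ u in (q - fsc 0 s y)..t, wx ⟨u, y⟩ := by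
      intro t ht
      exact (hy _ _ ht.1 fun u hu => hin u ⟨hu.1, hu.2.trans ht.2⟩).2
    have hwa : w ⟨q - fsc 0 s y, y⟩ = 0 := by
      apply h0 _ _ ((le_norm_iff hr _ _).mpr _)
      · exact ⟨hy0.le, (hin _ ⟨le_rfl, hab⟩).2⟩
      · have : r ^ 2 ≤ s ^ 2 := pow_le_pow_left₀ hr.le hrs.le 2
        nlinarith
    have hwb : w ⟨q + fsc 0 s y, y⟩ = 0 := by
      apply h0 _ _ ((le_norm_iff hr _ _).mpr _)
      · exact ⟨hy0.le, (hin _ ⟨hab, le_rfl⟩).2⟩
      · have : r ^ 2 ≤ s ^ 2 := pow_le_pow_left₀ hr.le hrs.le 2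
        nlinarith
    refine ⟨hi, ?_, ?_, ?_⟩
    · apply ContinuousOn.intervalIntegrable
      rw [uIcc_of_le hab]
      apply hc.comp (cont_hor y).continuousOn
      intro t ht
      exact ⟨hy0.le, (hin t ht).2⟩
    · rw [← hW _ ⟨hab, le_rfl⟩, hwa, hwb, sub_zero]
    · have := ibp (W := fun t => w ⟨t, y⟩) (q := q) hab hi hW
      rw [this, hwa, hwb]
      ring
  -- vertical slices
  have hver : ∀ᵐ x : ℝ, |x - q| < s →
      IntervalIntegrable (fun y : ℝ => wy ⟨x, y⟩) volume 0 (fsc q s x) →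
      IntervalIntegrable (fun y : ℝ => w ⟨x, y⟩) volume 0 (fsc q s x) ∧
      ∫ y in (0 : ℝ)..fsc q s x, wy ⟨x, y⟩ = -w ⟨x, 0⟩ ∧
      ∫ y in (0 : ℝ)..fsc q s x, wy ⟨x, y⟩ * y =
        -∫ y in (0 : ℝ)..fsc q s x, w ⟨x, y⟩ := by
    filter_upwards [hg.ver] with x hx hxq hi
    have hc0 : 0 < fsc q s x := fsc_pos hxq
    have hcsq := fsc_sq (q := q) (r := s) (x := x) hxq.le
    have hinc : ∀ t ∈ Icc 0 (fsc q s x), (⟨x, t⟩ : ℂ) ∈ HDc 0 R := by
      intro t ht
      apply in_HDc hs hqs ht.1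
      have : t ^ 2 ≤ fsc q s x ^ 2 := pow_le_pow_left₀ ht.1 ht.2 2
      linarith
    have hWc : ContinuousOn (fun t : ℝ => w ⟨x, t⟩) (Icc 0 (fsc q s x)) :=
      hc.comp (cont_ver x).continuousOn hinc
    have hW : ∀ t ∈ Icc 0 (fsc q s x), w ⟨x, t⟩ - w ⟨x, 0⟩ = ∫ u in (0 : ℝ)..t, wy ⟨x, u⟩ := by
      intro t ht
      rcases ht.1.eq_or_lt with h | h
      · rw [← h]
        simp
      · apply lim0 (W := fun t => w ⟨x, t⟩) h (hWc.mono (Icc_subset_Icc_right ht.2))
          (hi.mono_set ?_) ?_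
        · rw [uIcc_of_le hc0.le, uIcc_of_le h.le]
          exact Icc_subset_Icc_right ht.2
        · intro a ha
          refine (hx a t ha.2.le fun u hu => ?_).2
          exact ⟨lt_of_lt_of_le ha.1 hu.1, (hinc u ⟨(lt_of_lt_of_le ha.1 hu.1).le,
            hu.2.trans ht.2⟩).2⟩
    have hwb : w ⟨x, fsc q s x⟩ = 0 := by
      apply h0 _ (hinc _ ⟨hc0.le, le_rfl⟩) ((le_norm_iff hr _ _).mpr _)
      have : r ^ 2 ≤ s ^ 2 := pow_le_pow_left₀ hr.le hrs.le 2
      nlinarith
    refine ⟨?_, ?_, ?_⟩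
    · apply ContinuousOn.intervalIntegrable
      rw [uIcc_of_le hc0.le]
      exact hWc
    · rw [← hW _ ⟨hc0.le, le_rfl⟩, hwb, zero_sub]
    · have := ibp (W := fun t => w ⟨x, t⟩) (q := 0) hc0.le hi hW
      simp only [sub_zero] at this
      rw [this, hwb]
      ring
  have hbre : ∀ z ∈ HD q s, |z.re - q| ≤ s := by
    intro z hz
    have h1 := Complex.abs_re_le_norm (z - q)
    rw [Complex.sub_re, Complex.ofReal_re] at h1
    exact h1.trans hz.2.le
  have hbim : ∀ z ∈ HD q s, |z.im| ≤ s := by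
    intro z hz
    have h1 := Complex.abs_im_le_norm (z - q)
    rw [Complex.sub_im, Complex.ofReal_im, sub_zero] at h1
    exact h1.trans hz.2.le
  have hix : IntegrableOn (fun z => wx z * (z.re - q)) (HD q s) :=
    int_mul hwxs (Complex.continuous_re.sub continuous_const) hbre
  have hiy : IntegrableOn (fun z => wy z * z.im) (HD q s) :=
    int_mul hwys Complex.continuous_im hbim
  refine ⟨hwx, hwy, hae, ?_, ?_, ?_⟩
  · rw [hred wx fun z h => h.1]
    apply fub_hor hs hwxs
    filter_upwards [hhor] with y hy hy0 hys _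
    exact (hy hy0 hys).2.2.1
  · rw [hred _ fun z h => by rw [h.1, h.2]; ring]
    have hA : ∫ z in HD q s, (wx z * (z.re - q) + w z) = 0 := by
      apply fub_hor hs (hix.add hws)
      filter_upwards [hhor] with y hy hy0 hys _
      obtain ⟨h1, h2, -, h4⟩ := hy hy0 hys
      have h5 : IntervalIntegrable (fun x : ℝ => wx ⟨x, y⟩ * (x - q)) volume
          (q - fsc 0 s y) (q + fsc 0 s y) :=
        h1.mul_continuousOn (by fun_prop)
      change ∫ x in (q - fsc 0 s y)..(q + fsc 0 s y), (wx ⟨x, y⟩ * (x - q) + w ⟨x, y⟩) = 0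
      rw [intervalIntegral.integral_add h5 h2, h4]
      ring
    have hB : ∫ z in HD q s, (wy z * z.im + w z) = 0 := by
      have h0' : (0 : ℝ) = ∫ _ : ℝ, (0 : ℝ) := by simp
      rw [h0']
      apply fub_ver hs (hiy.add hws)
      have hfy := fub_slice hs hwys
      filter_upwards [hver, hfy] with x hx hiyx _
      by_cases hxq : |x - q| < s
      · obtain ⟨h1, h2, h3⟩ := hx hxq hiyx
        have h5 : IntervalIntegrable (fun y : ℝ => wy ⟨x, y⟩ * y) volume 0 (fsc q s x) :=
          hiyx.mul_continuousOn (by fun_prop)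
        change ∫ y in (0 : ℝ)..fsc q s x, (wy ⟨x, y⟩ * y + w ⟨x, y⟩) = 0
        rw [intervalIntegral.integral_add h5 h1, h3]
        ring
      · rw [fsc_zero hs hxq, intervalIntegral.integral_same]
    have hC : ∫ z in HD q s, (wx z * (z.re - q) - wy z * z.im) =
        ∫ z in HD q s, ((wx z * (z.re - q) + w z) - (wy z * z.im + w z)) := by
      congr 1
      funext z
      ring
    have hD := integral_sub (hix.add hws) (hiy.add hws)
    have hE : ∫ z in HD q s, ((wx z * (z.re - q) + w z) - (wy z * z.im + w z)) =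
        (∫ z in HD q s, (wx z * (z.re - q) + w z)) - ∫ z in HD q s, (wy z * z.im + w z) := hD
    rw [hC, hE, hA, hB, sub_zero]
  · rw [hred wy fun z h => h.2]
    rw [fub_ver hs hwys (g := (Ioo (q - s) (q + s)).indicator fun x => -w ⟨x, 0⟩)]
    · rw [integral_indicator measurableSet_Ioo, integral_neg]
      congr 1
      have hle : -R ≤ R := by linarith [abs_nonneg q]
      rw [intervalIntegral.integral_of_le hle, integral_Ioc_eq_integral_Ioo]
      have hq1 := neg_abs_le q
      have hq2 := le_abs_self q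
      symm
      apply setIntegral_eq_of_subset_of_forall_sdiff_eq_zero measurableSet_Ioo
        (Ioo_subset_Ioo (by linarith) (by linarith))
      intro x hx
      apply h0
      · refine ⟨le_rfl, ?_⟩
        rw [Complex.ofReal_zero, sub_zero]
        rw [Complex.norm_real, Real.norm_eq_abs, abs_lt]
        exact hx.1
      · rw [← Complex.ofReal_sub, Complex.norm_real, Real.norm_eq_abs]
        by_contra h
        push Not at h
        apply hx.2
        rw [abs_lt] at h
        exact ⟨by linarith, by linarith⟩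
    · filter_upwards [hver] with x hx hii
      by_cases hxq : |x - q| < s
      · rw [(hx hxq hii).2.1, indicator_of_mem]
        rw [abs_lt] at hxq
        exact ⟨by linarith, by linarith⟩
      · rw [fsc_zero hs hxq, intervalIntegral.integral_same, indicator_of_notMem]
        intro h
        apply hxq
        rw [abs_lt]
        exact ⟨by linarith [h.1], by linarith [h.2]⟩

end Pool.Agent.DMB
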