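import Pool.Agent.DMB.Api

/-!
Module HOP: the Hopf differential.
-/

set_option autoImplicit false

namespace Pool.Agent.DMB

open MeasureTheory Set Metric Filter Topology
open scoped ENNReal

namespace HOP_

variable {K n : ℕ}

theorem dt_sh_mn (v w : Mat K n) :
    dt (sh v (mn v)) (sh w (mn w)) = dt v w - K * vdt (mn v) (mn w) := by
  have h1 : ∀ b c : Fin n → ℝ, dt (sh v b) (sh w c) =
      dt v w - vdt (sm v) c - (vdt (sm w) b - K * vdt b c) := by
    intro b c
    rw [sh_eq, sh_eq, dt_sub_left, dt_sub_right, dt_rw, dt_sub_right, dt_comm (rw' K b) w, dt_rw,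
      dt_rw]
    congr 2
    unfold vdt sm rw'
    simp only [Finset.sum_const, Finset.card_univ, Fintype.card_fin, nsmul_eq_mul, Finset.mul_sum,
      mul_assoc]
  rw [h1, ← K_smul_mn v, ← K_smul_mn w]
  have h2 : ∀ b c : Fin n → ℝ, vdt ((K : ℝ) • b) c = K * vdt b c := by
    intro b c
    unfold vdt
    simp only [Pi.smul_apply, smul_eq_mul, Finset.mul_sum, mul_assoc]
  have h3 : ∀ b c : Fin n → ℝ, vdt b c = vdt c b := by
    intro b c
    unfold vdt
    simp only [mul_comm]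
  rw [h2, h2, h3 (mn w) (mn v)]
  ring

theorem mn_sq_le (hK : 0 < K) (v : Mat K n) (l : Fin n) : (mn v l) ^ 2 ≤ nsq v := by
  have h1 := dev_nonneg v
  rw [dev_eq] at h1
  have h2 : (mn v l) ^ 2 ≤ vsq (mn v) :=
    Finset.single_le_sum (f := fun l => (mn v l) ^ 2) (fun _ _ => sq_nonneg _) (Finset.mem_univ l)
  have h3 : (1 : ℝ) ≤ K := by exact_mod_cast hK
  have h4 := vsq_nonneg (mn v)
  nlinarith

theorem meas_nsq {H : Set ℂ} {X : ℂ → Mat K n}
    (hX : ∀ i l, AEStronglyMeasurable (fun z => X z i l) (volume.restrict H)) :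
    AEStronglyMeasurable (fun z => nsq (X z)) (volume.restrict H) := by
  unfold nsq
  exact Finset.aestronglyMeasurable_fun_sum _ fun i _ =>
    Finset.aestronglyMeasurable_fun_sum _ fun l _ => (hX i l).pow 2

theorem meas_dt {H : Set ℂ} {X Y : ℂ → Mat K n}
    (hX : ∀ i l, AEStronglyMeasurable (fun z => X z i l) (volume.restrict H))
    (hY : ∀ i l, AEStronglyMeasurable (fun z => Y z i l) (volume.restrict H)) :
    AEStronglyMeasurable (fun z => dt (X z) (Y z)) (volume.restrict H) := by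
  unfold dt
  exact Finset.aestronglyMeasurable_fun_sum _ fun i _ =>
    Finset.aestronglyMeasurable_fun_sum _ fun l _ => (hX i l).mul (hY i l)

theorem meas_mn {H : Set ℂ} {X : ℂ → Mat K n}
    (hX : ∀ i l, AEStronglyMeasurable (fun z => X z i l) (volume.restrict H)) (l : Fin n) :
    AEStronglyMeasurable (fun z => mn (X z) l) (volume.restrict H) := by
  have h : (fun z => mn (X z) l) = fun z => (K : ℝ)⁻¹ * ∑ i, X z i l := by
    funext z
    unfold mn
    rw [div_eq_inv_mul]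
  rw [h]
  exact (Finset.aestronglyMeasurable_fun_sum _ fun i _ => hX i l).const_mul _

/-- a complex integral vanishes if the integrals of its real and imaginary parts vanish -/
theorem integral_zero {H : Set ℂ} (f : ℂ → ℂ) (h1 : ∫ z in H, (f z).re = 0)
    (h2 : ∫ z in H, (f z).im = 0) : ∫ z in H, f z = 0 := by
  by_cases hf : IntegrableOn f H
  · have h3 := integral_re_add_im (𝕜 := ℂ) hf
    rw [← h3]
    have e1 : ∫ a in H, (RCLike.re (f a) : ℝ) = 0 := h1
    have e2 : ∫ a in H, (RCLike.im (f a) : ℝ) = 0 := h2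
    rw [e1, e2]
    simp
  · exact integral_undef hf

theorem grad_mn (hGAL : Stmt_GAL) {H : Set ℂ} (hH : IsOpen H) (s X Y : ℂ → Mat K n)
    (h : HasGradV H s X Y) (l : Fin n) :
    HasGrad H (fun z => mn (s z) l) (fun z => mn (X z) l) (fun z => mn (Y z) l) := by
  obtain ⟨_, hconst, hadd, hmul, _⟩ := hGAL H hH
  have key : ∀ S : Finset (Fin K), HasGrad H (fun z => ∑ i ∈ S, s z i l)
      (fun z => ∑ i ∈ S, X z i l) (fun z => ∑ i ∈ S, Y z i l) := by
    intro S
    induction S using Finset.induction_on with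
    | empty => simpa using hconst 0
    | insert a S ha ih =>
      have h1 := hadd _ _ _ _ _ _ (h a l) ih
      simpa only [Finset.sum_insert ha] using h1
  have h2 := hmul ((K : ℝ)⁻¹) _ _ _ (key Finset.univ)
  unfold mn
  simpa only [div_eq_inv_mul] using h2

theorem fderiv_zero_of_notMem {f : ℂ → ℝ} {z : ℂ} (hz : z ∉ tsupport f) : fderiv ℝ f z = 0 := by
  by_contra h
  exact hz (support_fderiv_subset ℝ h)

/-- the curl identity -/
theorem curl (hGMU : Stmt_GMU) (hGC1 : Stmt_GC1) (hGIB : Stmt_GIB) {H : Set ℂ} (hH : IsOpen H)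
    (m mx my ζ : ℂ → ℝ) (hm : HasGrad H m mx my) (hζ : TF H ζ) :
    ∫ z in H, (mx z * fderiv ℝ ζ z Complex.I - my z * fderiv ℝ ζ z 1) = 0 := by
  obtain ⟨hs, hc, hsup⟩ := hζ
  have h2 : ContDiff ℝ 2 ζ := by exact_mod_cast contDiff_infty.mp hs 2
  have hfd : ∀ w : ℂ, ContDiff ℝ 1 fun z => fderiv ℝ ζ z w := by
    intro w
    have h1 : ContDiff ℝ 1 (fderiv ℝ ζ) := h2.fderiv_right (by norm_num)
    exact h1.clm_apply contDiff_const
  have hz0 : ∀ w : ℂ, ∀ z ∈ H \ tsupport ζ, m z * fderiv ℝ ζ z w = 0 := by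
    intro w z hz
    rw [fderiv_zero_of_notMem hz.2]
    simp
  have g1 := hGMU H _ _ _ _ _ _ hH hm (hGC1 H (fun z => fderiv ℝ ζ z Complex.I) hH
    (hfd Complex.I).contDiffOn)
  have g2 := hGMU H _ _ _ _ _ _ hH hm (hGC1 H (fun z => fderiv ℝ ζ z 1) hH (hfd 1).contDiffOn)
  obtain ⟨i1, _, _, j1, _, _⟩ := hGIB H (tsupport ζ) _ _ _ hH hsup hc g1 (hz0 Complex.I)
  obtain ⟨_, i2, _, _, j2, _⟩ := hGIB H (tsupport ζ) _ _ _ hH hsup hc g2 (hz0 1)
  have hsym : ∀ z, fderiv ℝ (fun z => fderiv ℝ ζ z Complex.I) z 1 =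
      fderiv ℝ (fun z => fderiv ℝ ζ z 1) z Complex.I := by
    intro z
    have hsy : IsSymmSndFDerivAt ℝ ζ z := h2.contDiffAt.isSymmSndFDerivAt (by simp)
    have hdf : DifferentiableAt ℝ (fderiv ℝ ζ) z :=
      ((h2.fderiv_right (m := 1) (by norm_num)).differentiable (by simp)).differentiableAt
    have e : ∀ w : ℂ, fderiv ℝ (fun z => fderiv ℝ ζ z w) z =
        (fderiv ℝ (fderiv ℝ ζ) z).flip w := by
      intro w
      have h3 := (hdf.hasFDerivAt.clm_apply (hasFDerivAt_const w z)).fderiv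
      rw [h3]
      ext v
      simp
    rw [e, e]
    exact hsy 1 Complex.I
  have h4 : ∫ z in H, (mx z * fderiv ℝ ζ z Complex.I - my z * fderiv ℝ ζ z 1) =
      (∫ z in H, (mx z * fderiv ℝ ζ z Complex.I +
        m z * fderiv ℝ (fun z => fderiv ℝ ζ z Complex.I) z 1)) -
      ∫ z in H, (my z * fderiv ℝ ζ z 1 + m z * fderiv ℝ (fun z => fderiv ℝ ζ z 1) z Complex.I) := by
    rw [← integral_sub i1 i2]
    apply integral_congr_ae
    refine Eventually.of_forall fun z => ?_
    show mx z * fderiv ℝ ζ z Complex.I - my z * fderiv ℝ ζ z 1 =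
      (mx z * fderiv ℝ ζ z Complex.I + m z * fderiv ℝ (fun z => fderiv ℝ ζ z Complex.I) z 1) -
      (my z * fderiv ℝ ζ z 1 + m z * fderiv ℝ (fun z => fderiv ℝ ζ z 1) z Complex.I)
    rw [hsym z]
    ring
  rw [h4, j1, j2, sub_zero]

end HOP_

theorem hop_proof (hMEV : Stmt_MEV) (hINV : Stmt_INV) (hWEY : Stmt_WEY) (hGAL : Stmt_GAL)
    (hGMU : Stmt_GMU) (hGC1 : Stmt_GC1) (hGIB : Stmt_GIB) (hEND : Stmt_END) (_hGUN : Stmt_GUN) :
    Stmt_HOP := by
  intro K n H u X Y hK hH hb hmin hgr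
  have hX : ∀ i l, AEStronglyMeasurable (fun z => X z i l) (volume.restrict H) :=
    fun i l => (hgr i l).mx
  have hY : ∀ i l, AEStronglyMeasurable (fun z => Y z i l) (volume.restrict H) :=
    fun i l => (hgr i l).my
  have hmX := HOP_.meas_nsq hX
  have hmY := HOP_.meas_nsq hY
  have hed : IntegrableOn (ed X Y) H := by
    have h1 := (hEND K n H u hH).1 X Y hgr
    refine ⟨hmX.add hmY, ?_⟩
    have h0 : 0 ≤ᵐ[volume.restrict H] ed X Y := Eventually.of_forall fun z =>
      add_nonneg (nsq_nonneg _) (nsq_nonneg _)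
    rw [hasFiniteIntegral_iff_ofReal h0, ← h1]
    exact hmin.2.1
  have hle : ∀ z, nsq (X z) ≤ ed X Y z ∧ nsq (Y z) ≤ ed X Y z := by
    intro z
    have h1 := nsq_nonneg (X z)
    have h2 := nsq_nonneg (Y z)
    unfold ed
    constructor <;> linarith
  have hiX : IntegrableOn (fun z => nsq (X z)) H := by
    refine Integrable.mono' hed hmX (Eventually.of_forall fun z => ?_)
    rw [Real.norm_of_nonneg (nsq_nonneg _)]
    exact (hle z).1
  have hiY : IntegrableOn (fun z => nsq (Y z)) H := by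
    refine Integrable.mono' hed hmY (Eventually.of_forall fun z => ?_)
    rw [Real.norm_of_nonneg (nsq_nonneg _)]
    exact (hle z).2
  have hid : IntegrableOn (fun z => dt (X z) (Y z)) H := by
    refine Integrable.mono' hed (HOP_.meas_dt hX hY) (Eventually.of_forall fun z => ?_)
    rw [Real.norm_eq_abs]
    have h1 := two_abs_dt_le (X z) (Y z)
    have h2 := nsq_nonneg (X z)
    have h3 := nsq_nonneg (Y z)
    unfold ed
    linarith
  -- the quadratic differential
  obtain ⟨Ψ, hΨ⟩ : ∃ Ψ : ℂ → ℂ, Ψ = fun z => ((nsq (X z) - nsq (Y z) : ℝ) : ℂ) -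
      2 * Complex.I * ((dt (X z) (Y z) : ℝ) : ℂ) := ⟨_, rfl⟩
  have hΨi : IntegrableOn Ψ H := by
    rw [hΨ]
    exact (hiX.sub hiY).ofReal.sub (hid.ofReal.const_mul _)
  obtain ⟨G1, hG1, hG1e⟩ := hWEY H Ψ hH hΨi (by
    intro ζ hζ
    obtain ⟨v1, v2⟩ := hINV K n H u X Y ζ hH hmin hgr hζ
    apply HOP_.integral_zero
    · rw [← v1]
      apply integral_congr_ae
      refine Eventually.of_forall fun z => ?_
      simp [hΨ]
    · have v3 : ∫ z in H, -((nsq (Y z) - nsq (X z)) * fderiv ℝ ζ z Complex.I +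
          2 * dt (X z) (Y z) * fderiv ℝ ζ z 1) = 0 := by
        rw [integral_neg, v2, neg_zero]
      rw [← v3]
      apply integral_congr_ae
      refine Eventually.of_forall fun z => ?_
      simp [hΨ]
      ring)
  -- the linear differentials
  have hfin : volume H < ⊤ := hb.measure_lt_top
  have hlin : ∀ l : Fin n, ∃ g : ℂ → ℂ, DifferentiableOn ℂ g H ∧ ∀ᵐ z : ℂ, z ∈ H →
      ((mn (X z) l : ℝ) : ℂ) - Complex.I * ((mn (Y z) l : ℝ) : ℂ) = g z := by
    intro l
    have hone : IntegrableOn (fun _ : ℂ => (1 : ℝ)) H :=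
      integrableOn_const (hs := hfin.ne)
    have habs : ∀ x N : ℝ, x ^ 2 ≤ N → |x| ≤ 1 + N := by
      intro x N hx
      rw [← sq_abs] at hx
      nlinarith [sq_nonneg (|x| - 1)]
    have hi1 : IntegrableOn (fun z => mn (X z) l) H := by
      refine Integrable.mono' (hone.add hiX) (HOP_.meas_mn hX l) (Eventually.of_forall fun z => ?_)
      rw [Real.norm_eq_abs]
      exact habs _ _ (HOP_.mn_sq_le hK (X z) l)
    have hi2 : IntegrableOn (fun z => mn (Y z) l) H := by
      refine Integrable.mono' (hone.add hiY) (HOP_.meas_mn hY l) (Eventually.of_forall fun z => ?_)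
      rw [Real.norm_eq_abs]
      exact habs _ _ (HOP_.mn_sq_le hK (Y z) l)
    have hgm := HOP_.grad_mn hGAL hH _ X Y hgr l
    refine hWEY H (fun z => ((mn (X z) l : ℝ) : ℂ) - Complex.I * ((mn (Y z) l : ℝ) : ℂ)) hH
      (hi1.ofReal.sub (hi2.ofReal.const_mul _)) ?_
    intro ζ hζ
    have v1 := hMEV K n H u X Y ζ l hK hH hmin hgr hζ
    have v2 := HOP_.curl hGMU hGC1 hGIB hH _ _ _ ζ hgm hζ
    apply HOP_.integral_zero
    · rw [← v1]
      apply integral_congr_ae
      refine Eventually.of_forall fun z => ?_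
      simp
    · rw [← v2]
      apply integral_congr_ae
      refine Eventually.of_forall fun z => ?_
      simp
      ring
  choose g hg hge using hlin
  refine ⟨fun z => G1 z - (K : ℂ) * ∑ l, g l z ^ 2, ?_, ?_⟩
  · refine hG1.sub ((DifferentiableOn.fun_sum fun l _ => (hg l).pow 2).const_mul _)
  · filter_upwards [hG1e, ae_all_iff.mpr hge] with z h1 h2 hz
    show G1 z - (K : ℂ) * ∑ l, g l z ^ 2 = _
    have e1 : ∑ l, g l z ^ 2 = ((vsq (mn (X z)) - vsq (mn (Y z)) : ℝ) : ℂ) -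
        2 * Complex.I * ((vdt (mn (X z)) (mn (Y z)) : ℝ) : ℂ) := by
      unfold vsq vdt
      push_cast
      rw [← Finset.sum_sub_distrib, Finset.mul_sum, ← Finset.sum_sub_distrib]
      apply Finset.sum_congr rfl
      intro l _
      rw [← h2 l hz]
      ring_nf
      rw [Complex.I_sq]
      ring
    rw [← h1 hz, e1, hΨ, HOP_.dt_sh_mn, dev_eq, dev_eq]
    push_cast
    ring

end Pool.Agent.DMB
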