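import Pool.Agent.DMB.Api

/-!
Harmonic functions are weakly harmonic.
-/

namespace Pool.Agent.DMB

open MeasureTheory Set Metric Filter Topology
open scoped ENNReal

namespace HWK_

/-- second directional derivative -/
noncomputable def dd (v : ℂ) (f : ℂ → ℝ) (z : ℂ) : ℝ :=
  fderiv ℝ (fun w => fderiv ℝ f w v) z v

theorem cont_mul {D : Set ℂ} {f g : ℂ → ℝ} (hD : IsOpen D) (hf : ContinuousOn f D)
    (hg : Continuous g) (hs : tsupport g ⊆ D) : Continuous (fun z => f z * g z) := by
  have h1 : ContinuousOn (fun z => f z * g z) D := hf.mul hg.continuousOn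
  refine h1.continuous_of_tsupport_subset hD ?_
  refine subset_trans ?_ hs
  exact tsupport_mul_subset_right

theorem int_mul {D : Set ℂ} {f g : ℂ → ℝ} (hD : IsOpen D) (hf : ContinuousOn f D)
    (hg : Continuous g) (hs : tsupport g ⊆ D) (hc : HasCompactSupport g) :
    Integrable (fun z => f z * g z) := by
  refine (cont_mul hD hf hg hs).integrable_of_hasCompactSupport ?_
  exact hc.mul_left

theorem parts {D : Set ℂ} {w ζ : ℂ → ℝ} (hD : IsOpen D) (hw : ContDiffOn ℝ 2 w D)
    (hζ : TF D ζ) (v : ℂ) : ∫ z, w z * dd v ζ z = ∫ z, dd v w z * ζ z := by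
  obtain ⟨h1, h2, h3⟩ := hζ
  have hd1 : ContDiffOn ℝ 1 (fderiv ℝ w) D :=
    hw.fderiv_of_isOpen hD (by norm_num)
  have hdv : ContDiffOn ℝ 1 (fun z => fderiv ℝ w z v) D :=
    hd1.clm_apply contDiffOn_const
  have hddv : ContinuousOn (dd v w) D := by
    have h4 : ContDiffOn ℝ 0 (fderiv ℝ (fun z => fderiv ℝ w z v)) D :=
      hdv.fderiv_of_isOpen hD (by norm_num)
    have h5 := h4.continuousOn
    exact h5.clm_apply continuousOn_const
  have hζ1 : ContDiff ℝ (⊤ : ℕ∞) (fderiv ℝ ζ) := h1.fderiv_right (by simp)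
  have hζv : ContDiff ℝ (⊤ : ℕ∞) (fun z => fderiv ℝ ζ z v) := hζ1.clm_apply contDiff_const
  have hζ2 : ContDiff ℝ (⊤ : ℕ∞) (fderiv ℝ (fun z => fderiv ℝ ζ z v)) :=
    hζv.fderiv_right (by simp)
  have hζvv : ContDiff ℝ (⊤ : ℕ∞) (dd v ζ) := hζ2.clm_apply contDiff_const
  have s1 : tsupport (fun z => fderiv ℝ ζ z v) ⊆ tsupport ζ := tsupport_fderiv_apply_subset ℝ v
  have s2 : tsupport (dd v ζ) ⊆ tsupport ζ :=
    (tsupport_fderiv_apply_subset ℝ v).trans s1
  have c1 : HasCompactSupport (fun z => fderiv ℝ ζ z v) := h2.fderiv_apply ℝ v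
  have c2 : HasCompactSupport (dd v ζ) := c1.fderiv_apply ℝ v
  have e1 : ∫ z, w z * dd v ζ z = -∫ z, fderiv ℝ w z v * fderiv ℝ ζ z v := by
    refine integral_mul_fderiv_eq_neg_fderiv_mul_of_integrable ?_ ?_ ?_ ?_ ?_
    · exact int_mul hD hdv.continuousOn hζv.continuous (s1.trans h3) c1
    · exact int_mul hD hw.continuousOn hζvv.continuous (s2.trans h3) c2
    · exact int_mul hD hw.continuousOn hζv.continuous (s1.trans h3) c1
    · intro x hx
      have hxD := h3 (s1 hx)
      exact (hw.differentiableOn (by norm_num)).differentiableAt (hD.mem_nhds hxD)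
    · intro x _
      exact (hζv.differentiable (by simp)) x
  have e2 : ∫ z, fderiv ℝ w z v * fderiv ℝ ζ z v = -∫ z, dd v w z * ζ z := by
    refine integral_mul_fderiv_eq_neg_fderiv_mul_of_integrable
      (f := fun z => fderiv ℝ w z v) ?_ ?_ ?_ ?_ ?_
    · exact int_mul hD hddv h1.continuous h3 h2
    · exact int_mul hD hdv.continuousOn hζv.continuous (s1.trans h3) c1
    · exact int_mul hD hdv.continuousOn h1.continuous h3 h2
    · intro x hx
      exact (hdv.differentiableOn (by norm_num)).differentiableAt (hD.mem_nhds (h3 hx))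
    · intro x _
      exact (h1.differentiable (by simp)) x
  rw [e1, e2, neg_neg]

end HWK_

open HWK_ in
theorem hwk_proof : Stmt_HWK := by
  intro D w hD hw ζ hζ
  have hw2 : ContDiffOn ℝ 2 w D := fun z hz => (hw z hz).1.contDiffWithinAt
  have hlap : ∀ z, lap ζ z = dd 1 ζ z + dd Complex.I ζ z := fun z => rfl
  obtain ⟨h1, h2, h3⟩ := id hζ
  have hI : ∀ v : ℂ, Integrable (fun z => w z * dd v ζ z) := by
    intro v
    have hζ1 : ContDiff ℝ (⊤ : ℕ∞) (fderiv ℝ ζ) := h1.fderiv_right (by simp)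
    have hζv : ContDiff ℝ (⊤ : ℕ∞) (fun z => fderiv ℝ ζ z v) := hζ1.clm_apply contDiff_const
    have hζ2 : ContDiff ℝ (⊤ : ℕ∞) (fderiv ℝ (fun z => fderiv ℝ ζ z v)) :=
      hζv.fderiv_right (by simp)
    have hζvv : ContDiff ℝ (⊤ : ℕ∞) (dd v ζ) := hζ2.clm_apply contDiff_const
    have s1 : tsupport (fun z => fderiv ℝ ζ z v) ⊆ tsupport ζ := tsupport_fderiv_apply_subset ℝ v
    have s2 : tsupport (dd v ζ) ⊆ tsupport ζ :=
      (tsupport_fderiv_apply_subset ℝ v).trans s1
    have c1 : HasCompactSupport (fun z => fderiv ℝ ζ z v) := h2.fderiv_apply ℝ v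
    have c2 : HasCompactSupport (dd v ζ) := c1.fderiv_apply ℝ v
    exact int_mul hD hw2.continuousOn hζvv.continuous (s2.trans h3) c2
  have hJ : ∀ v : ℂ, Integrable (fun z => dd v w z * ζ z) := by
    intro v
    have hd1 : ContDiffOn ℝ 1 (fderiv ℝ w) D :=
      hw2.fderiv_of_isOpen hD (by norm_num)
    have hdv : ContDiffOn ℝ 1 (fun z => fderiv ℝ w z v) D :=
      hd1.clm_apply contDiffOn_const
    have hddv : ContinuousOn (dd v w) D := by
      have h4 : ContDiffOn ℝ 0 (fderiv ℝ (fun z => fderiv ℝ w z v)) D :=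
        hdv.fderiv_of_isOpen hD (by norm_num)
      have h5 := h4.continuousOn
      exact h5.clm_apply continuousOn_const
    exact int_mul hD hddv h1.continuous h3 h2
  have e1 : ∫ z, w z * lap ζ z =
      (∫ z, w z * dd 1 ζ z) + ∫ z, w z * dd Complex.I ζ z := by
    rw [← integral_add (hI 1) (hI Complex.I)]
    congr 1
    funext z
    rw [hlap]
    ring
  rw [e1, parts hD hw2 hζ, parts hD hw2 hζ, ← integral_add (hJ 1) (hJ Complex.I)]
  have e2 : ∀ z, dd 1 w z * ζ z + dd Complex.I w z * ζ z = 0 := by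
    intro z
    by_cases hz : z ∈ D
    · have h4 : dd 1 w z + dd Complex.I w z = 0 := by
        have h5 : Laplacian.laplacian w z = 0 := (hw z hz).2.self_of_nhds
        rw [InnerProductSpace.laplacian_eq_iteratedFDeriv_complexPlane] at h5
        simp only [iteratedFDeriv_two_apply] at h5
        have h6 : ∀ v : ℂ, dd v w z = fderiv ℝ (fderiv ℝ w) z v v := by
          intro v
          unfold dd
          have h7 : DifferentiableAt ℝ (fderiv ℝ w) z :=
            ((hw2.fderiv_of_isOpen hD (m := 1) (by norm_num)).differentiableOn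
              (by norm_num)).differentiableAt (hD.mem_nhds hz)
          rw [fderiv_clm_apply h7 (differentiableAt_const v)]
          simp
        rw [h6, h6]
        simpa using h5
      rw [← add_mul, h4, zero_mul]
    · have : ζ z = 0 := by
        by_contra h
        exact hz (h3 (subset_tsupport ζ h))
      simp [this]
  simp [e2]

end Pool.Agent.DMB
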