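import Pool.Agent.DMB.Api

namespace Pool.Agent.DMB

open MeasureTheory Set Metric Filter Topology
open scoped ENNReal

namespace IM1_

open Classical in
/-- extension of `v` by `u` outside `U` -/
noncomputable def exF {K n : ℕ} (U : Set ℂ) (v u : ℂ → Tup K n) : ℂ → Tup K n :=
  fun z => if z ∈ U then v z else u z

theorem contG_ext (hMET : Stmt_MET) {K n : ℕ} {U G C : Set ℂ} {u v : ℂ → Tup K n}
    (hU : IsOpen U) (_hd : Disjoint U G) (hu : ContG (U ∪ G) u) (hv : ContG U v) (hC : C ⊆ U)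
    (hCc : IsCompact C) (hS : ∀ z ∈ U \ C, Same (v z) (u z)) : ContG (U ∪ G) (exF U v u) := by
  intro z0 hz0
  by_cases h0 : z0 ∈ U
  · have e1 : 𝓝[U ∪ G] z0 = 𝓝 z0 :=
      nhdsWithin_eq_nhds.2 (Filter.mem_of_superset (hU.mem_nhds h0) subset_union_left)
    have e2 : 𝓝[U] z0 = 𝓝 z0 := hU.nhdsWithin_eq h0
    rw [e1]
    have h1 := hv z0 h0
    rw [e2] at h1
    refine h1.congr' ?_
    filter_upwards [hU.mem_nhds h0] with w hw
    simp only [exF, if_pos h0, if_pos hw]
  · have hCn : z0 ∉ C := fun h => h0 (hC h)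
    refine (hu z0 hz0).congr' ?_
    have h2 : ∀ᶠ w in 𝓝[U ∪ G] z0, w ∉ C :=
      mem_nhdsWithin_of_mem_nhds (hCc.isClosed.isOpen_compl.mem_nhds hCn)
    filter_upwards [h2] with w hw
    have hs : Same (u w) (exF U v u w) := by
      by_cases hwU : w ∈ U
      · simp only [exF, if_pos hwU]; exact (hS w ⟨hwU, hw⟩).symm'
      · simp only [exF, if_neg hwU]; exact Same.refl' _
    have hs0 : Same (u z0) (exF U v u z0) := by
      simp only [exF, if_neg h0]; exact Same.refl' _
    exact (hMET K n (u w) (u z0) (u z0)).2.2.2.2.2.2 _ _ hs hs0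

theorem en_ext (hEND : Stmt_END) {K n : ℕ} {U : Set ℂ} {u v : ℂ → Tup K n} (hU : IsOpen U) :
    en U (exF U v u) = en U v :=
  (hEND K n U _ hU).2.2 K v fun z hz => by simp only [exF, if_pos hz]

end IM1_

open IM1_ in
theorem im1_proof (hMET : Stmt_MET) (hEND : Stmt_END) : Stmt_IM1 := by
  intro k d n Om Op Omi ga φ up um hs hm
  refine ⟨⟨?_, hm.1.fp, ?_⟩, ⟨?_, hm.1.fm, ?_⟩⟩
  · intro z hz
    exact (hm.1.cp z (Or.inl hz)).mono_left (nhdsWithin_mono _ subset_union_left)
  · rintro v hv ⟨C, hC, hCc, hS⟩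
    by_cases htop : en Op v = ⊤
    · rw [htop]; exact le_top
    have hcont := contG_ext hMET hs.openOp hs.disj1 hm.1.cp hv hC hCc hS
    have hen := en_ext hEND (u := up) (v := v) hs.openOp
    have hsys : Sys k d n Op Omi ga φ (exF Op v up) um := by
      refine ⟨hcont, hm.1.cm, ?_, ?_, hm.1.fm⟩
      · intro z hz
        have : z ∉ Op := fun h => Set.disjoint_left.1 hs.disj1 h hz
        simp only [exF, if_neg this]
        exact hm.1.bd z hz
      · rw [hen]; exact lt_top_iff_ne_top.2 htop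
    have hCOm : C ⊆ Om := by
      rw [hs.union]; exact fun z hz => Or.inl (Or.inl (hC hz))
    have h := hm.2 _ _ hsys ⟨C, hCOm, hCc, ?_, fun z _ => Same.refl' _⟩
    · rw [hen] at h
      exact (ENNReal.add_le_add_iff_right hm.1.fm.ne).1 h
    · rintro z ⟨_, hzC⟩
      by_cases hz : z ∈ Op
      · simp only [exF, if_pos hz]; exact hS z ⟨hz, hzC⟩
      · simp only [exF, if_neg hz]; exact Same.refl' _
  · intro z hz
    exact (hm.1.cm z (Or.inl hz)).mono_left (nhdsWithin_mono _ subset_union_left)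
  · rintro v hv ⟨C, hC, hCc, hS⟩
    by_cases htop : en Omi v = ⊤
    · rw [htop]; exact le_top
    have hcont := contG_ext hMET hs.openOmi hs.disj2 hm.1.cm hv hC hCc hS
    have hen := en_ext hEND (u := um) (v := v) hs.openOmi
    have hsys : Sys k d n Op Omi ga φ up (exF Omi v um) := by
      refine ⟨hm.1.cp, hcont, ?_, hm.1.fp, ?_⟩
      · intro z hz
        have : z ∉ Omi := fun h => Set.disjoint_left.1 hs.disj2 h hz
        simp only [exF, if_neg this]
        exact hm.1.bd z hz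
      · rw [hen]; exact lt_top_iff_ne_top.2 htop
    have hCOm : C ⊆ Om := by
      rw [hs.union]; exact fun z hz => Or.inr (hC hz)
    have h := hm.2 _ _ hsys ⟨C, hCOm, hCc, fun z _ => Same.refl' _, ?_⟩
    · rw [hen] at h
      exact (ENNReal.add_le_add_iff_left hm.1.fp.ne).1 h
    · rintro z ⟨_, hzC⟩
      by_cases hz : z ∈ Omi
      · simp only [exF, if_pos hz]; exact hS z ⟨hz, hzC⟩
      · simp only [exF, if_neg hz]; exact Same.refl' _

end Pool.Agent.DMB
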