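import Pool.Agent.DMB.Api

namespace Pool.Agent.DMB

open MeasureTheory Set Metric Filter Topology
open scoped ENNReal

theorem im2_proof (hMET : Stmt_MET) (_hXIL : Stmt_XIL) (hEND : Stmt_END) (hENF : Stmt_ENF) :
    Stmt_IM2 := by
  classical
  intro K n U H u hU hH hHU hu
  obtain ⟨hc, hf, hmin⟩ := hu
  have hfH : en H u < ⊤ := by
    -- finiteness on `H` from the gradient on `U`
    obtain ⟨X, Y, hg, hI, he⟩ := (hEND K n U u hU).2.1 hf
    have hgH : HasGradV H (fun z => xi (u z)) X Y := by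
      intro i l
      have g := hg i l
      refine ⟨g.cont.mono hHU, g.mx.mono_measure (Measure.restrict_mono hHU le_rfl),
        g.my.mono_measure (Measure.restrict_mono hHU le_rfl), fun C hC => g.loc C (hC.trans hHU),
        ?_, ?_⟩
      · filter_upwards [g.hor] with y hy a b hab ht
        exact hy a b hab fun t htt => hHU (ht t htt)
      · filter_upwards [g.ver] with y hy a b hab ht
        exact hy a b hab fun t htt => hHU (ht t htt)
    rw [(hEND K n H u hH).1 X Y hgH]
    exact ((hI.mono_set hHU).lintegral_lt_top)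
  refine ⟨fun z hz => (hc z (hHU hz)).mono_left (nhdsWithin_mono _ hHU), hfH, ?_⟩
  rintro v hv ⟨C, hC, hCc, hS⟩
  by_cases htop : en H v = ⊤
  · rw [htop]; exact le_top
  set w : ℂ → Tup K n := fun z => if z ∈ H then v z else u z with hw
  have hwH : ∀ z ∈ H, w z = v z := fun z hz => by simp only [hw, if_pos hz]
  have hwn : ∀ z, z ∉ H → w z = u z := fun z hz => by simp only [hw, if_neg hz]
  have hSw : ∀ z ∈ U \ C, Same (w z) (u z) := by
    rintro z ⟨_, hzC⟩
    by_cases hz : z ∈ H
    · rw [hwH z hz]; exact hS z ⟨hz, hzC⟩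
    · rw [hwn z hz]; exact Same.refl' _
  have hcw : ContG U w := by
    intro z0 hz0
    by_cases h0 : z0 ∈ H
    · have e2 : 𝓝[H] z0 = 𝓝 z0 := hH.nhdsWithin_eq h0
      have h1 := hv z0 h0
      rw [e2] at h1
      rw [hU.nhdsWithin_eq hz0]
      refine h1.congr' ?_
      filter_upwards [hH.mem_nhds h0] with x hx
      rw [hwH x hx, hwH z0 h0]
    · have hCn : z0 ∉ C := fun h => h0 (hC h)
      refine (hc z0 hz0).congr' ?_
      have h2 : ∀ᶠ x in 𝓝[U] z0, x ∉ C :=
        mem_nhdsWithin_of_mem_nhds (hCc.isClosed.isOpen_compl.mem_nhds hCn)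
      filter_upwards [h2, self_mem_nhdsWithin] with x hx hxU
      exact (hMET K n (u x) (u z0) (u z0)).2.2.2.2.2.2 _ _ (hSw x ⟨hxU, hx⟩).symm'
        (hSw z0 ⟨hz0, hCn⟩).symm'
  have hle := hmin w hcw ⟨C, hC.trans hHU, hCc, hSw⟩
  have henw : en H w = en H v := (hEND K n H w hH).2.2 K v fun z hz => by rw [hwH z hz]
  obtain ⟨-, h2, h3⟩ := hENF K n U H C u w hU hH hHU hC (hU.sdiff hCc.isClosed) hSw hf
    (by rw [henw]; exact lt_top_iff_ne_top.2 htop)
  rw [henw] at h3
  have h4 : en U u + en H u ≤ en U u + en H v := by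
    rw [← h3]; gcongr
  exact (ENNReal.add_le_add_iff_left hf.ne).1 h4

end Pool.Agent.DMB
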