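import Pool.Agent.DMB.Api

set_option autoImplicit false

/-!
IND: the induction on the number of sheets.
-/

namespace Pool.Agent.DMB

open MeasureTheory Set Metric Filter Topology
open scoped ENNReal

namespace IND_

theorem split_ball {Om Op Omi ga : Set ℂ} (hs : IsSplit Om Op Omi ga) {p : ℂ} {ρ : ℝ}
    (hb : ball p ρ ⊆ Om) :
    IsSplit (ball p ρ) (Op ∩ ball p ρ) (Omi ∩ ball p ρ) (ga ∩ ball p ρ) where
  openOm := isOpen_ball
  openOp := hs.openOp.inter isOpen_ball
  openOmi := hs.openOmi.inter isOpen_ball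
  union := by
    ext z
    constructor
    · intro hz
      have h := hb hz
      rw [hs.union] at h
      rcases h with (h | h) | h
      · exact Or.inl (Or.inl ⟨h, hz⟩)
      · exact Or.inl (Or.inr ⟨h, hz⟩)
      · exact Or.inr ⟨h, hz⟩
    · rintro ((h | h) | h) <;> exact h.2
  disj1 := hs.disj1.mono inter_subset_left inter_subset_left
  disj2 := hs.disj2.mono inter_subset_left inter_subset_left
  disj3 := hs.disj3.mono inter_subset_left inter_subset_left
  loc := by
    intro q hq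
    obtain ⟨U, hU, hqU, f, hf, hf0, hz⟩ := hs.loc q hq.1
    refine ⟨U ∩ ball p ρ, hU.inter isOpen_ball, ⟨hqU, hq.2⟩, f, hf.mono inter_subset_left, hf0, ?_⟩
    intro z hz'
    obtain ⟨a, b, c⟩ := hz z hz'.1
    exact ⟨⟨fun h => a.1 h.1, fun h => ⟨a.2 h, hz'.2⟩⟩, ⟨fun h => b.1 h.1, fun h => ⟨b.2 h, hz'.2⟩⟩,
      ⟨fun h => c.1 h.1, fun h => ⟨c.2 h, hz'.2⟩⟩⟩

theorem c3_mono {n : ℕ} {ga ga' : Set ℂ} {φ : ℂ → E n} (h : IsC3On ga φ) (hs : ga' ⊆ ga) :
    IsC3On ga' φ := by
  intro p hp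
  obtain ⟨U, hU, hpU, ψ, hψ, he⟩ := h p (hs hp)
  exact ⟨U, hU, hpU, ψ, hψ, fun z hz => he z ⟨hz.1, hs hz.2⟩⟩

theorem c3_cont {n : ℕ} {ga : Set ℂ} {φ : ℂ → E n} (h : IsC3On ga φ) : ContinuousOn φ ga := by
  intro p hp
  obtain ⟨U, hU, hpU, ψ, hψ, he⟩ := h p hp
  have h1 : ContinuousAt ψ p := hψ.continuousOn.continuousAt (hU.mem_nhds hpU)
  have h2 : φ =ᶠ[𝓝[ga] p] ψ := by
    have h3 : U ∈ 𝓝[ga] p := nhdsWithin_le_nhds (hU.mem_nhds hpU)
    filter_upwards [h3, self_mem_nhdsWithin] with z hz1 hz2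
    exact he z ⟨hz1, hz2⟩
  exact h1.continuousWithinAt.congr_of_eventuallyEq h2 (he p ⟨hpU, hp⟩)

/-- all upper sheets agree at a point of the interface -/
theorem coll {k d n : ℕ} {a : Tup (k + d) n} {b : Tup k n} {P : E n}
    (h : Same a (Fin.append b (fun _ : Fin d => P))) (ha : ∀ i j, a i = a j) :
    ∀ i j, Fin.append b (fun _ : Fin d => P) i = Fin.append b (fun _ : Fin d => P) j := by
  intro i j
  obtain ⟨i', hi⟩ := (h.symm').mem i
  obtain ⟨j', hj⟩ := (h.symm').mem j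
  rw [hi, hj]
  exact ha i' j'

end IND_

open IND_ in
theorem ind_proof (_hMET : Stmt_MET) (_hSYB : Stmt_SYB) (hMSB : Stmt_MSB) (hCOL : Stmt_COL)
    (hCLU : Stmt_CLU) (hRGL : Stmt_RGL) (hRG0 : Stmt_RG0) (hRGC : Stmt_RGC) : Stmt_IND := by
  intro k d n Om Op Omi ga φ up um hd hs hφ hm
  suffices H : ∀ N : ℕ, ∀ (k d : ℕ) (Om Op Omi ga : Set ℂ) (φ : ℂ → E n)
      (up : ℂ → Tup (k + d) n) (um : ℂ → Tup k n), 2 * k + d = N → d ≤ 1 →
      IsSplit Om Op Omi ga → IsC3On ga φ → SysMin k d n Om Op Omi ga φ up um →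
      Measure.hausdorffMeasure 1 {p | p ∈ ga ∧ ¬ Reg k d n Op Omi ga up um p} = 0 from
    H _ k d Om Op Omi ga φ up um rfl hd hs hφ hm
  clear hd hs hφ hm up um φ ga Omi Op Om d k
  intro N
  induction N using Nat.strong_induction_on with
  | _ N ih =>
  intro k d Om Op Omi ga φ up um hN hd hs hφ hm
  have hA : Measure.hausdorffMeasure 1 {p | (p ∈ ga ∧ ¬ Reg k d n Op Omi ga up um p) ∧
      ¬ (∀ i j, up p i = up p j)} = 0 := by
    refine measure_null_of_locally_null _ ?_
    intro p hp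
    obtain ⟨⟨hpg, -⟩, hne⟩ := hp
    obtain ⟨ρ, hρ, hb, k1, d1, k2, d2, hk, hdd, h1, h2, up1, um1, up2, um2, s1, s2, m1, m2⟩ :=
      hCLU k d n Om Op Omi ga φ up um p hd hs (c3_cont hφ) hm hpg hne
    have hsb := split_ball hs hb
    have hφb : IsC3On (ga ∩ ball p ρ) φ := c3_mono hφ inter_subset_left
    have n1 := ih (2 * k1 + d1) (by omega) k1 d1 _ _ _ _ φ up1 um1 rfl (by omega) hsb hφb s1
    have n2 := ih (2 * k2 + d2) (by omega) k2 d2 _ _ _ _ φ up2 um2 rfl (by omega) hsb hφb s2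
    refine ⟨{p | (p ∈ ga ∧ ¬ Reg k d n Op Omi ga up um p) ∧
      ¬ (∀ i j, up p i = up p j)} ∩ ball p ρ, ?_, ?_⟩
    · exact inter_mem self_mem_nhdsWithin (nhdsWithin_le_nhds (ball_mem_nhds p hρ))
    · refine measure_mono_null ?_ (measure_union_null n1 n2)
      rintro z ⟨⟨⟨hzg, hzr⟩, -⟩, hzb⟩
      by_contra hcon
      rw [mem_union, not_or] at hcon
      have r1 : Reg k1 d1 n (Op ∩ ball p ρ) (Omi ∩ ball p ρ) (ga ∩ ball p ρ) up1 um1 z := by
        by_contra hr
        exact hcon.1 ⟨⟨hzg, hzb⟩, hr⟩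
      have r2 : Reg k2 d2 n (Op ∩ ball p ρ) (Omi ∩ ball p ρ) (ga ∩ ball p ρ) up2 um2 z := by
        by_contra hr
        exact hcon.2 ⟨⟨hzg, hzb⟩, hr⟩
      exact hzr (hRGC k d k1 d1 k2 d2 n Om Op Omi ga (ball p ρ) up um up1 um1 up2 um2 z hk hdd hs
        isOpen_ball ⟨hzb, hzg⟩ m1 m2 r1 r2)
  have hB : Measure.hausdorffMeasure 1 {p | (p ∈ ga ∧ ¬ Reg k d n Op Omi ga up um p) ∧
      (∀ i j, up p i = up p j)} = 0 := by
    rcases Nat.eq_zero_or_pos k with hk | hk
    · subst hk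
      have : {p | (p ∈ ga ∧ ¬ Reg 0 d n Op Omi ga up um p) ∧ (∀ i j, up p i = up p j)} = ∅ := by
        ext p
        constructor
        · rintro ⟨⟨hp, hr⟩, -⟩
          exact (hr (hRG0 d n Om Op Omi ga φ up um p hd hs hm.1 hp)).elim
        · intro h
          exact h.elim
      rw [this, measure_empty]
    · refine measure_null_of_locally_null _ ?_
      intro p hp
      obtain ⟨⟨hpg, -⟩, -⟩ := hp
      obtain hd0 | hd1 : d = 0 ∨ d = 1 := by omega
      · subst hd0
        have hm' := hMSB k n Om Op Omi ga φ up um hk hs hm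
        have hφ' : IsC3On (n := n) ga (fun _ => 0) := by
          intro q _
          exact ⟨univ, isOpen_univ, mem_univ _, fun _ => 0, contDiffOn_const, fun z _ => rfl⟩
        obtain ⟨ρ, hρ, hnull⟩ := hCOL k 0 n Om Op Omi ga (fun _ => 0) _ _ hk hs hφ' hm' p hpg
        refine ⟨{p | (p ∈ ga ∧ ¬ Reg k 0 n Op Omi ga up um p) ∧
          (∀ i j, up p i = up p j)} ∩ ball p ρ, ?_, ?_⟩
        · exact inter_mem self_mem_nhdsWithin (nhdsWithin_le_nhds (ball_mem_nhds p hρ))
        · refine measure_mono_null ?_ hnull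
          rintro z ⟨⟨⟨hzg, hzr⟩, hall⟩, hzb⟩
          have hc := coll (hm.1.bd z hzg) hall
          have hu : ∀ i j, um z i = um z j := by
            intro i j
            have := hc (Fin.castAdd 0 i) (Fin.castAdd 0 j)
            rwa [Fin.append_left, Fin.append_left] at this
          refine ⟨⟨hzb, hzg⟩, ?_, ?_⟩
          · intro i
            have hmn : mnE (um z) = um z i := by
              unfold mnE
              have h1 : ∑ j, um z j = (k : ℝ) • um z i := by
                rw [Finset.sum_congr rfl (fun j _ => hu j i), Finset.sum_const, Finset.card_univ,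
                  Fintype.card_fin]
                exact (Nat.cast_smul_eq_nsmul ℝ k (um z i)).symm
              rw [h1, smul_smul, inv_mul_cancel₀, one_smul]
              exact_mod_cast hk.ne'
            show um z i - mnE (um z) = 0
            rw [hmn, sub_self]
          · rintro ⟨r, hr, h1, h2⟩
            refine hzr (hRGL k 0 n Om Op Omi ga φ up um z hk hs hm.1 hzg ⟨r, hr, ?_, ?_⟩)
            · intro w hw i j
              exact sub_left_injective (h1 w hw i j)
            · intro w hw i j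
              exact sub_left_injective (h2 w hw i j)
      · subst hd1
        obtain ⟨ρ, hρ, hnull⟩ := hCOL k 1 n Om Op Omi ga φ up um hk hs hφ hm p hpg
        refine ⟨{p | (p ∈ ga ∧ ¬ Reg k 1 n Op Omi ga up um p) ∧
          (∀ i j, up p i = up p j)} ∩ ball p ρ, ?_, ?_⟩
        · exact inter_mem self_mem_nhdsWithin (nhdsWithin_le_nhds (ball_mem_nhds p hρ))
        · refine measure_mono_null ?_ hnull
          rintro z ⟨⟨⟨hzg, hzr⟩, hall⟩, hzb⟩
          have hc := coll (hm.1.bd z hzg) hall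
          refine ⟨⟨hzb, hzg⟩, ?_, ?_⟩
          · intro i
            have := hc (Fin.castAdd 1 i) (Fin.natAdd k (0 : Fin 1))
            rwa [Fin.append_left, Fin.append_right] at this
          · intro hlc
            exact hzr (hRGL k 1 n Om Op Omi ga φ up um z hk hs hm.1 hzg hlc)
  refine measure_mono_null ?_ (measure_union_null hA hB)
  intro p hp
  by_cases h : ∀ i j, up p i = up p j
  · exact Or.inr ⟨hp, h⟩
  · exact Or.inl ⟨hp, h⟩

end Pool.Agent.DMB
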