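import Pool.Agent.DMB.Api

/-!
Inner variations.
-/

set_option autoImplicit false

namespace Pool.Agent.DMB

open MeasureTheory Set Metric Filter Topology
open scoped ENNReal NNReal

namespace INV_

/-- bounded and Lipschitz with constant `L` -/
def BL (L : ℝ) (ψ : ℂ → ℝ) : Prop := (∀ z, |ψ z| ≤ L) ∧ ∀ z w, |ψ z - ψ w| ≤ L * ‖z - w‖

lemma exBL (ψ : ℂ → ℝ) (h1 : ContDiff ℝ 1 ψ) (h2 : HasCompactSupport ψ) :
    ∃ L : ℝ, 0 ≤ L ∧ BL L ψ := by
  obtain ⟨A, hA⟩ := h1.continuous.bounded_above_of_compact_support h2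
  obtain ⟨B, hB⟩ := (h1.continuous_fderiv (by norm_num)).bounded_above_of_compact_support
    (h2.fderiv (𝕜 := ℝ))
  refine ⟨max 0 (max A B), le_max_left _ _, fun z => ?_, fun z w => ?_⟩
  · exact (hA z).trans ((le_max_left _ _).trans (le_max_right _ _))
  · have := convex_univ.norm_image_sub_le_of_norm_fderiv_le (𝕜 := ℝ) (f := ψ) (C := B)
      (fun x _ => h1.contDiffAt.differentiableAt (by norm_num)) (fun x _ => hB x)
      (mem_univ w) (mem_univ z)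
    exact this.trans (mul_le_mul_of_nonneg_right ((le_max_right _ _).trans (le_max_right _ _))
      (norm_nonneg _))

lemma BL.mono {L L' : ℝ} {ψ : ℂ → ℝ} (h : BL L ψ) (hL : L ≤ L') : BL L' ψ :=
  ⟨fun z => (h.1 z).trans hL, fun z w => (h.2 z w).trans
    (mul_le_mul_of_nonneg_right hL (norm_nonneg _))⟩

/-- the inner variation -/
noncomputable def Th (e : ℂ) (ζ : ℂ → ℝ) (ε : ℝ) (z : ℂ) : ℂ := z + (ε * ζ z) • e

lemma Th_fderiv {e : ℂ} {ζ : ℂ → ℝ} (ε : ℝ) {z : ℂ} (h : DifferentiableAt ℝ ζ z) :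
    HasFDerivAt (Th e ζ ε) (ContinuousLinearMap.id ℝ ℂ + (ε • fderiv ℝ ζ z).smulRight e) z := by
  have h1 := (h.hasFDerivAt.const_mul ε).smul_const e
  exact (hasFDerivAt_id z).add h1

lemma px_Th {e : ℂ} {ζ : ℂ → ℝ} (ε : ℝ) {z : ℂ} (h : DifferentiableAt ℝ ζ z) :
    px (Th e ζ ε) z = 1 + ((ε * fderiv ℝ ζ z 1 : ℝ) : ℂ) * e := by
  rw [px, (Th_fderiv ε h).fderiv]; simp

lemma py_Th {e : ℂ} {ζ : ℂ → ℝ} (ε : ℝ) {z : ℂ} (h : DifferentiableAt ℝ ζ z) :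
    py (Th e ζ ε) z = Complex.I + ((ε * fderiv ℝ ζ z Complex.I : ℝ) : ℂ) * e := by
  rw [py, (Th_fderiv ε h).fderiv]; simp

lemma Th_sub {e : ℂ} (he : ‖e‖ = 1) {ζ : ℂ → ℝ} {L ε : ℝ} (hζ : BL L ζ) (z : ℂ) :
    ‖Th e ζ ε z - z‖ ≤ |ε| * L := by
  have : Th e ζ ε z - z = (ε * ζ z) • e := by rw [Th]; ring
  rw [this, norm_smul, he, mul_one, Real.norm_eq_abs, abs_mul]
  exact mul_le_mul_of_nonneg_left (hζ.1 z) (abs_nonneg _)

lemma Th_inj {e : ℂ} (he : ‖e‖ = 1) {ζ : ℂ → ℝ} {L ε : ℝ} (hζ : BL L ζ) (hε : |ε| * L ≤ 1 / 2) :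
    Function.Injective (Th e ζ ε) := by
  intro z w h
  have h1 : z - w = (ε * (ζ w - ζ z)) • e := by
    rw [Th, Th] at h
    have : z - w = (ε * ζ w) • e - (ε * ζ z) • e := by linear_combination h
    rw [this, ← sub_smul]
    congr 1
    ring
  have h2 : ‖z - w‖ ≤ 1 / 2 * ‖z - w‖ := by
    calc ‖z - w‖ = |ε| * |ζ w - ζ z| := by
          rw [h1, norm_smul, he, mul_one, Real.norm_eq_abs, abs_mul]
      _ ≤ |ε| * (L * ‖w - z‖) := mul_le_mul_of_nonneg_left (hζ.2 w z) (abs_nonneg _)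
      _ = |ε| * L * ‖z - w‖ := by rw [norm_sub_rev]; ring
      _ ≤ 1 / 2 * ‖z - w‖ := mul_le_mul_of_nonneg_right hε (norm_nonneg _)
  have h3 : ‖z - w‖ = 0 := le_antisymm (by linarith) (norm_nonneg _)
  exact sub_eq_zero.1 (norm_eq_zero.1 h3)

lemma Th_surj {e : ℂ} (he : ‖e‖ = 1) {ζ : ℂ → ℝ} {L ε : ℝ} (hζ : BL L ζ)
    (hε : |ε| * L ≤ 1 / 2) : Function.Surjective (Th e ζ ε) := by
  intro w
  have hc : ContractingWith (1 / 2 : ℝ≥0) (fun z : ℂ => w - (ε * ζ z) • e) := by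
    refine ⟨by
      rw [← NNReal.coe_lt_coe]; norm_num, LipschitzWith.of_dist_le_mul fun x y => ?_⟩
    rw [dist_eq_norm, dist_eq_norm]
    have h1 : w - (ε * ζ x) • e - (w - (ε * ζ y) • e) = (ε * (ζ y - ζ x)) • e := by
      have : w - (ε * ζ x) • e - (w - (ε * ζ y) • e) = (ε * ζ y) • e - (ε * ζ x) • e := by ring
      rw [this, ← sub_smul]
      congr 1
      ring
    rw [h1, norm_smul, he, mul_one, Real.norm_eq_abs, abs_mul]
    calc |ε| * |ζ y - ζ x| ≤ |ε| * (L * ‖y - x‖) :=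
          mul_le_mul_of_nonneg_left (hζ.2 y x) (abs_nonneg _)
      _ = |ε| * L * ‖x - y‖ := by rw [norm_sub_rev]; ring
      _ ≤ ((1 / 2 : ℝ≥0) : ℝ) * ‖x - y‖ := by
          apply mul_le_mul_of_nonneg_right _ (norm_nonneg _)
          rw [NNReal.coe_div]
          simpa using hε
  have := hc.fixedPoint_isFixedPt
  refine ⟨ContractingWith.fixedPoint _ hc, ?_⟩
  rw [Function.IsFixedPt] at this
  rw [Th]
  linear_combination -this

lemma Th_out {e : ℂ} {ζ : ℂ → ℝ} (ε : ℝ) {z : ℂ} (hz : z ∉ tsupport ζ) : Th e ζ ε z = z := by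
  rw [Th, image_eq_zero_of_notMem_tsupport hz]; simp

lemma Th_maps {e : ℂ} (he : ‖e‖ = 1) {ζ : ℂ → ℝ} {L ε : ℝ} (hζ : BL L ζ)
    (hε : |ε| * L ≤ 1 / 2) {H : Set ℂ} (hs : tsupport ζ ⊆ H) : MapsTo (Th e ζ ε) H H := by
  intro z hz
  by_contra h
  have h1 : Th e ζ ε z ∉ tsupport ζ := fun h' => h (hs h')
  have h2 := Th_out (e := e) ε h1
  have h3 := Th_inj he hζ hε h2
  rw [h3] at h
  exact h hz

lemma Th_img {e : ℂ} (he : ‖e‖ = 1) {ζ : ℂ → ℝ} {L ε : ℝ} (hζ : BL L ζ)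
    (hε : |ε| * L ≤ 1 / 2) {H : Set ℂ} (hs : tsupport ζ ⊆ H) : Th e ζ ε '' H = H := by
  apply Subset.antisymm (Th_maps he hζ hε hs).image_subset
  intro w hw
  obtain ⟨z, rfl⟩ := Th_surj he hζ hε w
  by_cases hz : z ∈ H
  · exact mem_image_of_mem _ hz
  · have h1 : z ∉ tsupport ζ := fun h' => hz (hs h')
    rw [Th_out ε h1] at hw
    exact absurd hw hz

/-- standing data -/
structure Dat (H : Set ℂ) (ζ : ℂ → ℝ) (e : ℂ) (J : ℂ → ℝ) (L ε : ℝ) : Prop where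
  hH : IsOpen H
  hs : tsupport ζ ⊆ H
  he : ‖e‖ = 1
  hζ : BL L ζ
  hJ : BL L J
  hJc : Continuous J
  hε : |ε| * L ≤ 1 / 2
  hsm : ContDiff ℝ 1 ζ
  hjac : ∀ z, jac (Th e ζ ε) z = 1 + ε * J z

lemma bmul {g h : ℂ → ℝ} {H : Set ℂ} {B : ℝ} (hg : IntegrableOn g H) (hh : Continuous h)
    (hb : ∀ z, |h z| ≤ B) : IntegrableOn (fun z => g z * h z) H := by
  refine Integrable.mono' (hg.norm.mul_const B)
    (hg.aestronglyMeasurable.mul hh.aestronglyMeasurable) (ae_of_all _ fun z => ?_)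
  rw [norm_mul]
  exact mul_le_mul_of_nonneg_left (hb z) (norm_nonneg _)

namespace Dat

variable {H : Set ℂ} {ζ : ℂ → ℝ} {e : ℂ} {J : ℂ → ℝ} {L ε : ℝ}

lemma epsJ (D : Dat H ζ e J L ε) (z : ℂ) : |ε * J z| ≤ 1 / 2 := by
  rw [abs_mul]
  exact (mul_le_mul_of_nonneg_left (D.hJ.1 z) (abs_nonneg _)).trans D.hε

lemma jlow (D : Dat H ζ e J L ε) (z : ℂ) : 1 / 2 ≤ 1 + ε * J z := by
  have := abs_le.1 (D.epsJ z); linarith [this.1]

lemma smTh (D : Dat H ζ e J L ε) : ContDiff ℝ 1 (Th e ζ ε) :=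
  contDiff_id.add ((contDiff_const.mul D.hsm).smul contDiff_const)

lemma ctTh (D : Dat H ζ e J L ε) : Continuous (Th e ζ ε) := D.smTh.continuous

lemma jcv (hJCV : Stmt_JCV) (D : Dat H ζ e J L ε) (g : ℂ → ℝ) :
    ∫ w in H, g w = ∫ z in H, (1 + ε * J z) * g (Th e ζ ε z) := by
  obtain ⟨-, h2, -⟩ := hJCV H (Th e ζ ε) D.hH D.smTh.contDiffOn (Th_inj D.he D.hζ D.hε).injOn
    (fun z _ => by rw [D.hjac]; linarith [D.jlow z]) H Subset.rfl D.hH.measurableSet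
  have := h2 g
  rw [Th_img D.he D.hζ D.hε D.hs] at this
  rw [this]
  simp only [D.hjac]

lemma int_jcv (hJCV : Stmt_JCV) (D : Dat H ζ e J L ε) {g : ℂ → ℝ} (hg : IntegrableOn g H) :
    IntegrableOn (fun z => (1 + ε * J z) * g (Th e ζ ε z)) H := by
  obtain ⟨-, -, h3⟩ := hJCV H (Th e ζ ε) D.hH D.smTh.contDiffOn (Th_inj D.he D.hζ D.hε).injOn
    (fun z _ => by rw [D.hjac]; linarith [D.jlow z]) H Subset.rfl D.hH.measurableSet
  have := (h3 g).1 (by rw [Th_img D.he D.hζ D.hε D.hs]; exact hg)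
  simpa only [D.hjac] using this

lemma int_comp (hJCV : Stmt_JCV) (D : Dat H ζ e J L ε) {g : ℂ → ℝ} (hg : IntegrableOn g H) :
    IntegrableOn (fun z => g (Th e ζ ε z)) H := by
  have h1 := D.int_jcv hJCV hg
  have hne : ∀ z, (1 + ε * J z) ≠ 0 := fun z => by
    have := D.jlow z; linarith
  have hc0 : Continuous (fun z => 1 + ε * J z) := continuous_const.add (continuous_const.mul D.hJc)
  have hc : Continuous (fun z => (1 + ε * J z)⁻¹) := hc0.inv₀ hne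
  have h2 := bmul (B := 2) h1 hc (fun z => by
    have := D.jlow z
    rw [abs_of_nonneg (by positivity)]
    rw [inv_le_comm₀ (by linarith) (by norm_num)]
    linarith)
  refine h2.congr_fun (fun z _ => ?_) D.hH.measurableSet
  have := D.jlow z
  have h3 : (1 + ε * J z) ≠ 0 := by linarith
  field_simp

lemma int_abs (hJCV : Stmt_JCV) (D : Dat H ζ e J L ε) {g : ℂ → ℝ} (hg : IntegrableOn g H) :
    ∫ z in H, |g (Th e ζ ε z)| ≤ 2 * ∫ z in H, |g z| := by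
  rw [D.jcv hJCV (fun z => |g z|), ← integral_const_mul]
  apply integral_mono (D.int_comp hJCV hg).abs ((D.int_jcv hJCV hg.abs).const_mul 2)
  intro z
  have := D.jlow z
  have h1 := abs_nonneg (g (Th e ζ ε z))
  simp only
  nlinarith

lemma lim (hJCV : Stmt_JCV) (D : Dat H ζ e J L ε) {g ψ : ℂ → ℝ} (hg : IntegrableOn g H)
    (hψ : BL L ψ) (hψc : Continuous ψ) :
    |(∫ z in H, g (Th e ζ ε z) * ψ z) - ∫ z in H, g z * ψ z| ≤
      4 * L ^ 2 * |ε| * ∫ z in H, |g z| := by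
  have i1 := bmul (D.int_comp hJCV hg) hψc hψ.1
  have i2 := D.int_jcv hJCV (bmul hg hψc hψ.1)
  rw [D.jcv hJCV (fun z => g z * ψ z), ← integral_sub i1 i2]
  have hL : 0 ≤ L := (abs_nonneg _).trans (hψ.1 0)
  have hb : ∀ z, |ψ z - (1 + ε * J z) * ψ (Th e ζ ε z)| ≤ 2 * L ^ 2 * |ε| := by
    intro z
    have e1 : ψ z - (1 + ε * J z) * ψ (Th e ζ ε z) =
        (ψ z - ψ (Th e ζ ε z)) - (ε * J z) * ψ (Th e ζ ε z) := by ring
    have e2 : |ψ z - ψ (Th e ζ ε z)| ≤ L * (|ε| * L) :=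
      (hψ.2 _ _).trans (mul_le_mul_of_nonneg_left
        (by rw [norm_sub_rev]; exact Th_sub D.he D.hζ z) hL)
    have e3 : |(ε * J z) * ψ (Th e ζ ε z)| ≤ |ε| * L * L := by
      rw [abs_mul, abs_mul]
      exact mul_le_mul (mul_le_mul_of_nonneg_left (D.hJ.1 z) (abs_nonneg _)) (hψ.1 _)
        (abs_nonneg _) (by positivity)
    rw [e1]
    calc _ ≤ |ψ z - ψ (Th e ζ ε z)| + |(ε * J z) * ψ (Th e ζ ε z)| := abs_sub _ _
      _ ≤ _ := by nlinarith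
  have h3 : ∀ z, |g (Th e ζ ε z) * ψ z - (1 + ε * J z) * (g (Th e ζ ε z) * ψ (Th e ζ ε z))| ≤
      |g (Th e ζ ε z)| * (2 * L ^ 2 * |ε|) := by
    intro z
    have e1 : g (Th e ζ ε z) * ψ z - (1 + ε * J z) * (g (Th e ζ ε z) * ψ (Th e ζ ε z)) =
        g (Th e ζ ε z) * (ψ z - (1 + ε * J z) * ψ (Th e ζ ε z)) := by ring
    rw [e1, abs_mul]
    exact mul_le_mul_of_nonneg_left (hb z) (abs_nonneg _)
  calc |∫ z in H, (g (Th e ζ ε z) * ψ z - (1 + ε * J z) * (g (Th e ζ ε z) * ψ (Th e ζ ε z)))|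
      ≤ ∫ z in H, |g (Th e ζ ε z) * ψ z -
          (1 + ε * J z) * (g (Th e ζ ε z) * ψ (Th e ζ ε z))| := abs_integral_le_integral_abs
    _ ≤ ∫ z in H, |g (Th e ζ ε z)| * (2 * L ^ 2 * |ε|) :=
        integral_mono (i1.sub i2).abs ((D.int_comp hJCV hg).abs.mul_const _) h3
    _ = (∫ z in H, |g (Th e ζ ε z)|) * (2 * L ^ 2 * |ε|) := integral_mul_const _ _
    _ ≤ (2 * ∫ z in H, |g z|) * (2 * L ^ 2 * |ε|) :=
        mul_le_mul_of_nonneg_right (D.int_abs hJCV hg) (by positivity)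
    _ = 4 * L ^ 2 * |ε| * ∫ z in H, |g z| := by ring

end Dat

lemma fin_ {I0 K ε0 : ℝ} (h0 : 0 < ε0) (hK : 0 ≤ K)
    (h : ∀ ε : ℝ, |ε| ≤ ε0 → 0 ≤ ε * I0 + K * ε ^ 2) : I0 = 0 := by
  by_contra hne
  have hp : 0 < |I0| := abs_pos.2 hne
  set δ := min ε0 (|I0| / (2 * (K + 1))) with hδ
  have hδ0 : 0 < δ := lt_min h0 (by positivity)
  have h1 : δ ≤ ε0 := min_le_left _ _
  have h2 : δ ≤ |I0| / (2 * (K + 1)) := min_le_right _ _
  have h3 : δ * (2 * (K + 1)) ≤ |I0| := by rwa [le_div_iff₀ (by positivity)] at h2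
  have h4 : K * δ ^ 2 < δ * |I0| := by nlinarith
  rcases abs_cases I0 with ⟨ha, _⟩ | ⟨ha, _⟩
  · have := h (-δ) (by rw [abs_neg, abs_of_pos hδ0]; exact h1)
    rw [ha] at h4
    nlinarith
  · have := h δ (by rw [abs_of_pos hδ0]; exact h1)
    rw [ha] at h4
    nlinarith

lemma contMul {x y : ℂ → ℝ} (hx : Continuous x) (hy : Continuous y) :
    Continuous (fun z => x z ^ 2 + y z ^ 2) := (hx.pow 2).add (hy.pow 2)

lemma mXY {K n : ℕ} {H : Set ℂ} {s X Y : ℂ → Mat K n} (h : HasGradV H s X Y) :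
    AEStronglyMeasurable (fun z => nsq (X z)) (volume.restrict H) ∧
    AEStronglyMeasurable (fun z => nsq (Y z)) (volume.restrict H) ∧
    AEStronglyMeasurable (fun z => dt (X z) (Y z)) (volume.restrict H) := by
  refine ⟨?_, ?_, ?_⟩
  · exact Finset.aestronglyMeasurable_fun_sum _ fun i _ =>
      Finset.aestronglyMeasurable_fun_sum _ fun l _ => (h i l).mx.pow 2
  · exact Finset.aestronglyMeasurable_fun_sum _ fun i _ =>
      Finset.aestronglyMeasurable_fun_sum _ fun l _ => (h i l).my.pow 2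
  · exact Finset.aestronglyMeasurable_fun_sum _ fun i _ =>
      Finset.aestronglyMeasurable_fun_sum _ fun l _ => (h i l).mx.mul (h i l).my

lemma intXY {K n : ℕ} {H : Set ℂ} {s X Y : ℂ → Mat K n} (h : HasGradV H s X Y)
    (hI : IntegrableOn (ed X Y) H) :
    IntegrableOn (fun z => nsq (X z)) H ∧ IntegrableOn (fun z => nsq (Y z)) H ∧
    IntegrableOn (fun z => dt (X z) (Y z)) H := by
  obtain ⟨m1, m2, m3⟩ := mXY h
  refine ⟨Integrable.mono' hI m1 (ae_of_all _ fun z => ?_),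
    Integrable.mono' hI m2 (ae_of_all _ fun z => ?_),
    Integrable.mono' hI m3 (ae_of_all _ fun z => ?_)⟩
  · rw [Real.norm_eq_abs, abs_of_nonneg (nsq_nonneg _)]
    have := nsq_nonneg (Y z)
    rw [ed]; linarith
  · rw [Real.norm_eq_abs, abs_of_nonneg (nsq_nonneg _)]
    have := nsq_nonneg (X z)
    rw [ed]; linarith
  · rw [Real.norm_eq_abs]
    have := two_abs_dt_le (X z) (Y z)
    have h1 := nsq_nonneg (X z)
    have h2 := nsq_nonneg (Y z)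
    have h3 := abs_nonneg (dt (X z) (Y z))
    rw [ed]; linarith

lemma edI {K n : ℕ} (hEND : Stmt_END) {H : Set ℂ} {u : ℂ → Tup K n} {X Y : ℂ → Mat K n}
    (hH : IsOpen H) (hX : HasGradV H (fun z => xi (u z)) X Y) (hf : en H u < ⊤) :
    IntegrableOn (ed X Y) H ∧ en H u = ENNReal.ofReal (∫ z in H, ed X Y z) := by
  obtain ⟨m1, m2, -⟩ := mXY hX
  have hm : AEStronglyMeasurable (ed X Y) (volume.restrict H) := m1.add m2
  have hn : ∀ z, 0 ≤ ed X Y z := fun z => add_nonneg (nsq_nonneg _) (nsq_nonneg _)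
  have h1 := (hEND K n H u hH).1 X Y hX
  have h2 : IntegrableOn (ed X Y) H := by
    refine (lintegral_ofReal_ne_top_iff_integrable hm (ae_of_all _ hn)).1 ?_
    rw [← h1]; exact hf.ne
  refine ⟨h2, ?_⟩
  rw [h1, ofReal_integral_eq_lintegral_ofReal h2 (ae_of_all _ hn)]

section core
variable {K n : ℕ} {H : Set ℂ} {u : ℂ → Tup K n} {X Y : ℂ → Mat K n} {ζ : ℂ → ℝ} {e : ℂ}
  {J : ℂ → ℝ} {L ε : ℝ}

/-- the gradient of the variation -/
noncomputable def gX (e : ℂ) (ζ : ℂ → ℝ) (ε : ℝ) (z : ℂ) (x y : Mat K n) : Mat K n :=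
  fun i l => x i l * (px (Th e ζ ε) z).re + y i l * (px (Th e ζ ε) z).im

/-- the gradient of the variation -/
noncomputable def gY (e : ℂ) (ζ : ℂ → ℝ) (ε : ℝ) (z : ℂ) (x y : Mat K n) : Mat K n :=
  fun i l => x i l * (py (Th e ζ ε) z).re + y i l * (py (Th e ζ ε) z).im

lemma compare (hGCO : Stmt_GCO) (hEND : Stmt_END) (D : Dat H ζ e J L ε)
    (hcs : HasCompactSupport ζ) (hu : IntMin H u) (hX : HasGradV H (fun z => xi (u z)) X Y)
    (hI : IntegrableOn (fun z => nsq (gX e ζ ε z (X (Th e ζ ε z)) (Y (Th e ζ ε z))) +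
      nsq (gY e ζ ε z (X (Th e ζ ε z)) (Y (Th e ζ ε z)))) H) :
    ∫ z in H, ed X Y z ≤ ∫ z in H, (nsq (gX e ζ ε z (X (Th e ζ ε z)) (Y (Th e ζ ε z))) +
      nsq (gY e ζ ε z (X (Th e ζ ε z)) (Y (Th e ζ ε z)))) := by
  have hmaps := Th_maps D.he D.hζ D.hε D.hs
  have hv : HasGradV H (fun z => xi (u (Th e ζ ε z)))
      (fun z => gX e ζ ε z (X (Th e ζ ε z)) (Y (Th e ζ ε z)))
      (fun z => gY e ζ ε z (X (Th e ζ ε z)) (Y (Th e ζ ε z))) := by
    intro i l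
    exact hGCO H H (Th e ζ ε) (fun z => xi (u z) i l) (fun z => X z i l) (fun z => Y z i l)
      D.hH D.hH D.smTh.contDiffOn hmaps (Th_inj D.he D.hζ D.hε).injOn
      (fun z _ => by rw [D.hjac]; linarith [D.jlow z]) (hX i l)
  have hc : ContG H (fun z => u (Th e ζ ε z)) := by
    intro z hz
    have h1 := hu.1 (Th e ζ ε z) (hmaps hz)
    have h2 : Tendsto (Th e ζ ε) (𝓝[H] z) (𝓝[H] (Th e ζ ε z)) :=
      D.ctTh.continuousWithinAt.tendsto_nhdsWithin hmaps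
    exact h1.comp h2
  have hle := hu.2.2 (fun z => u (Th e ζ ε z)) hc ⟨tsupport ζ, D.hs, hcs, fun z hz => by
    have h0 : Th e ζ ε z = z := Th_out ε hz.2
    rw [h0]
    exact Same.refl' _⟩
  obtain ⟨-, h1⟩ := edI hEND D.hH hX hu.2.1
  have h2 := (hEND K n H _ D.hH).1 _ _ hv
  have hn : ∀ z, 0 ≤ nsq (gX e ζ ε z (X (Th e ζ ε z)) (Y (Th e ζ ε z))) +
      nsq (gY e ζ ε z (X (Th e ζ ε z)) (Y (Th e ζ ε z))) :=
    fun z => add_nonneg (nsq_nonneg _) (nsq_nonneg _)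
  have h3 : en H (fun z => u (Th e ζ ε z)) = ENNReal.ofReal (∫ z in H,
      (nsq (gX e ζ ε z (X (Th e ζ ε z)) (Y (Th e ζ ε z))) +
      nsq (gY e ζ ε z (X (Th e ζ ε z)) (Y (Th e ζ ε z))))) := by
    rw [h2, ofReal_integral_eq_lintegral_ofReal hI (ae_of_all _ hn)]
    rfl
  rw [h1, h3] at hle
  exact (ENNReal.ofReal_le_ofReal_iff (integral_nonneg hn)).1 hle

lemma step (hGCO : Stmt_GCO) (hJCV : Stmt_JCV) (hEND : Stmt_END) (D : Dat H ζ e J L ε)
    (hcs : HasCompactSupport ζ) (hu : IntMin H u) (hX : HasGradV H (fun z => xi (u z)) X Y)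
    {ψ1 ψ2 : ℂ → ℝ} {G1 G2 cc : Mat K n → Mat K n → ℝ} (h1 : BL L ψ1) (h1c : Continuous ψ1)
    (h2 : BL L ψ2) (h2c : Continuous ψ2)
    (hid : ∀ z, ∀ x y : Mat K n, nsq (gX e ζ ε z x y) + nsq (gY e ζ ε z x y) =
      (1 + ε * J z) * (nsq x + nsq y) + ε * (G1 x y * ψ1 z + G2 x y * ψ2 z) +
      ε ^ 2 * (cc x y * (ψ1 z ^ 2 + ψ2 z ^ 2)))
    (hG1 : IntegrableOn (fun z => G1 (X z) (Y z)) H)
    (hG2 : IntegrableOn (fun z => G2 (X z) (Y z)) H)
    (hcc : IntegrableOn (fun z => cc (X z) (Y z)) H) :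
    0 ≤ ε * (∫ z in H, (G1 (X z) (Y z) * ψ1 z + G2 (X z) (Y z) * ψ2 z)) +
      4 * L ^ 2 * ((∫ z in H, |G1 (X z) (Y z)|) + (∫ z in H, |G2 (X z) (Y z)|) +
        ∫ z in H, |cc (X z) (Y z)|) * ε ^ 2 := by
  obtain ⟨hE, -⟩ := edI hEND D.hH hX hu.2.1
  have hL : 0 ≤ L := (abs_nonneg _).trans (h1.1 0)
  have a0 := D.int_jcv hJCV hE
  have a1 := bmul (D.int_comp hJCV hG1) h1c h1.1
  have a2 := bmul (D.int_comp hJCV hG2) h2c h2.1
  have b3 : ∀ z, |ψ1 z ^ 2 + ψ2 z ^ 2| ≤ 2 * L ^ 2 := fun z => by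
    have i1 := sq_le_sq' (abs_le.1 (h1.1 z)).1 (abs_le.1 (h1.1 z)).2
    have i2 := sq_le_sq' (abs_le.1 (h2.1 z)).1 (abs_le.1 (h2.1 z)).2
    rw [abs_of_nonneg (by positivity)]
    linarith
  have a3 := bmul (D.int_comp hJCV hcc) (contMul h1c h2c) b3
  have hI : IntegrableOn (fun z => nsq (gX e ζ ε z (X (Th e ζ ε z)) (Y (Th e ζ ε z))) +
      nsq (gY e ζ ε z (X (Th e ζ ε z)) (Y (Th e ζ ε z)))) H := by
    simp only [hid]
    exact (a0.add ((a1.add a2).const_mul ε)).add (a3.const_mul (ε ^ 2))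
  have hle := compare hGCO hEND D hcs hu hX hI
  simp only [hid] at hle
  have s1 := integral_add (a0.add ((a1.add a2).const_mul ε)) (a3.const_mul (ε ^ 2))
  have s2 := integral_add a0 ((a1.add a2).const_mul ε)
  have s3 := integral_add a1 a2
  have s4 := D.jcv hJCV (ed X Y)
  have s5 := D.lim hJCV hG1 h1 h1c
  have s6 := D.lim hJCV hG2 h2 h2c
  have s7 : ∫ z in H, cc (X (Th e ζ ε z)) (Y (Th e ζ ε z)) * (ψ1 z ^ 2 + ψ2 z ^ 2) ≤
      4 * L ^ 2 * ∫ z in H, |cc (X z) (Y z)| := by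
    calc _ ≤ ∫ z in H, |cc (X (Th e ζ ε z)) (Y (Th e ζ ε z))| * (2 * L ^ 2) := by
          apply integral_mono a3 ((D.int_comp hJCV hcc).abs.mul_const _)
          intro z
          simp only
          calc _ ≤ |cc (X (Th e ζ ε z)) (Y (Th e ζ ε z)) * (ψ1 z ^ 2 + ψ2 z ^ 2)| :=
                le_abs_self _
            _ ≤ _ := by
                rw [abs_mul]
                exact mul_le_mul_of_nonneg_left (b3 z) (abs_nonneg _)
      _ = (∫ z in H, |cc (X (Th e ζ ε z)) (Y (Th e ζ ε z))|) * (2 * L ^ 2) :=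
          integral_mul_const _ _
      _ ≤ (2 * ∫ z in H, |cc (X z) (Y z)|) * (2 * L ^ 2) :=
          mul_le_mul_of_nonneg_right (D.int_abs hJCV hcc) (by positivity)
      _ = _ := by ring
  have s8 := integral_add (bmul hG1 h1c h1.1) (bmul hG2 h2c h2.1)
  have s9 := integral_const_mul (μ := volume.restrict H) ε (fun z =>
    G1 (X (Th e ζ ε z)) (Y (Th e ζ ε z)) * ψ1 z + G2 (X (Th e ζ ε z)) (Y (Th e ζ ε z)) * ψ2 z)
  have s10 := integral_const_mul (μ := volume.restrict H) (ε ^ 2) (fun z =>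
    cc (X (Th e ζ ε z)) (Y (Th e ζ ε z)) * (ψ1 z ^ 2 + ψ2 z ^ 2))
  simp only [Pi.add_apply] at s1 s2 s3 s8 s9 s10
  simp only [ed] at s1 s2 s4 hle
  rw [s4, s1, s2, s9, s10, s3] at hle
  rw [s8]
  have key : ∀ A I N : ℝ, |A - I| ≤ 4 * L ^ 2 * |ε| * N → ε * (A - I) ≤ 4 * L ^ 2 * N * ε ^ 2 := by
    intro A I N h
    calc ε * (A - I) ≤ |ε * (A - I)| := le_abs_self _
      _ = |ε| * |A - I| := abs_mul _ _
      _ ≤ |ε| * (4 * L ^ 2 * |ε| * N) := mul_le_mul_of_nonneg_left h (abs_nonneg _)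
      _ = 4 * L ^ 2 * N * |ε| ^ 2 := by ring
      _ = _ := by rw [sq_abs]
  have k1 := key _ _ _ s5
  have k2 := key _ _ _ s6
  have k3 := mul_le_mul_of_nonneg_left s7 (sq_nonneg ε)
  linarith

lemma fin2 (hGCO : Stmt_GCO) (hJCV : Stmt_JCV) (hEND : Stmt_END) (hH : IsOpen H)
    (hTF : TF H ζ) (he : ‖e‖ = 1) (hu : IntMin H u)
    (hX : HasGradV H (fun z => xi (u z)) X Y)
    {ψ1 ψ2 : ℂ → ℝ} {G1 G2 cc : Mat K n → Mat K n → ℝ}
    (s1 : ContDiff ℝ 1 ψ1) (c1 : HasCompactSupport ψ1)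
    (s2 : ContDiff ℝ 1 ψ2) (c2 : HasCompactSupport ψ2)
    (hj : ∀ ε z, jac (Th e ζ ε) z = 1 + ε * ψ1 z)
    (hid : ∀ ε z, ∀ x y : Mat K n, nsq (gX e ζ ε z x y) + nsq (gY e ζ ε z x y) =
      (1 + ε * ψ1 z) * (nsq x + nsq y) + ε * (G1 x y * ψ1 z + G2 x y * ψ2 z) +
      ε ^ 2 * (cc x y * (ψ1 z ^ 2 + ψ2 z ^ 2)))
    (hG1 : IntegrableOn (fun z => G1 (X z) (Y z)) H)
    (hG2 : IntegrableOn (fun z => G2 (X z) (Y z)) H)
    (hcc : IntegrableOn (fun z => cc (X z) (Y z)) H) :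
    ∫ z in H, (G1 (X z) (Y z) * ψ1 z + G2 (X z) (Y z) * ψ2 z) = 0 := by
  obtain ⟨L0, hL0, b0⟩ := exBL ζ (hTF.1.of_le (by exact_mod_cast le_top)) hTF.2.1
  obtain ⟨L1, hL1, b1⟩ := exBL ψ1 s1 c1
  obtain ⟨L2, hL2, b2⟩ := exBL ψ2 s2 c2
  set L := L0 + L1 + L2 with hL
  have hLn : 0 ≤ L := by positivity
  have hp : (0 : ℝ) < 1 / (2 * (L + 1)) := by positivity
  refine fin_ hp (K := 4 * L ^ 2 * ((∫ z in H, |G1 (X z) (Y z)|) +
    (∫ z in H, |G2 (X z) (Y z)|) + ∫ z in H, |cc (X z) (Y z)|)) ?_ ?_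
  · have i1 : 0 ≤ ∫ z in H, |G1 (X z) (Y z)| := integral_nonneg fun _ => abs_nonneg _
    have i2 : 0 ≤ ∫ z in H, |G2 (X z) (Y z)| := integral_nonneg fun _ => abs_nonneg _
    have i3 : 0 ≤ ∫ z in H, |cc (X z) (Y z)| := integral_nonneg fun _ => abs_nonneg _
    positivity
  · intro ε hε
    have D : Dat H ζ e ψ1 L ε :=
      { hH := hH
        hs := hTF.2.2
        he := he
        hζ := b0.mono (by linarith)
        hJ := b1.mono (by linarith)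
        hJc := s1.continuous
        hε := by
          calc |ε| * L ≤ 1 / (2 * (L + 1)) * L := mul_le_mul_of_nonneg_right hε hLn
            _ ≤ 1 / 2 := by
              rw [div_mul_eq_mul_div, div_le_div_iff₀ (by positivity) (by norm_num)]
              linarith
        hsm := hTF.1.of_le (by exact_mod_cast le_top)
        hjac := hj ε }
    exact step hGCO hJCV hEND D hTF.2.1 hu hX D.hJ s1.continuous (b2.mono (by linarith))
      s2.continuous (hid ε) hG1 hG2 hcc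

end core

lemma cd1 {ζ : ℂ → ℝ} (h : ContDiff ℝ (⊤ : ℕ∞) ζ) (v : ℂ) :
    ContDiff ℝ 1 (fun z => fderiv ℝ ζ z v) :=
  ContDiff.clm_apply (h.fderiv_right (m := 1)
    (WithTop.coe_le_coe.2 (le_top : (1 + 1 : ℕ∞) ≤ ⊤))) contDiff_const

end INV_

open INV_ in
theorem inv_proof (_hMET : Stmt_MET) (_hXIL : Stmt_XIL) (_hGAL : Stmt_GAL) (hGCO : Stmt_GCO)
    (hJCV : Stmt_JCV) (hEND : Stmt_END) (_hGUN : Stmt_GUN) : Stmt_INV := by
  intro K n H u X Y ζ hH hu hX hTF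
  obtain ⟨hE, -⟩ := edI hEND hH hX hu.2.1
  obtain ⟨i1, i2, i3⟩ := intXY hX hE
  have hd : Differentiable ℝ ζ := hTF.1.differentiable (by norm_num)
  have c1 := cd1 hTF.1 1
  have cI := cd1 hTF.1 Complex.I
  have k1 : HasCompactSupport (fun z => fderiv ℝ ζ z 1) := hTF.2.1.fderiv_apply ℝ 1
  have kI : HasCompactSupport (fun z => fderiv ℝ ζ z Complex.I) := hTF.2.1.fderiv_apply ℝ Complex.I
  constructor
  · refine fin2 (e := 1) (G1 := fun x y => nsq x - nsq y) (G2 := fun x y => 2 * dt x y)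
      (cc := fun x _ => nsq x) (ψ1 := fun z => fderiv ℝ ζ z 1)
      (ψ2 := fun z => fderiv ℝ ζ z Complex.I)
      hGCO hJCV hEND hH hTF (by simp) hu hX c1 k1 cI kI ?_ ?_ (i1.sub i2) (i3.const_mul 2) i1
    · intro ε z
      rw [jac, px_Th ε (hd z), py_Th ε (hd z)]
      simp
    · intro ε z x y
      have e1 : gX 1 ζ ε z x y = (1 + ε * fderiv ℝ ζ z 1) • x := by
        funext i l
        simp only [gX, px_Th ε (hd z), Pi.smul_apply, smul_eq_mul]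
        simp
        ring
      have e2 : gY 1 ζ ε z x y = (ε * fderiv ℝ ζ z Complex.I) • x + y := by
        funext i l
        simp only [gY, py_Th ε (hd z), Pi.smul_apply, smul_eq_mul, Pi.add_apply]
        simp
        ring
      rw [e1, e2, nsq_smul, nsq_add, nsq_smul, dt_smul_left]
      ring
  · refine fin2 (e := Complex.I) (G1 := fun x y => nsq y - nsq x) (G2 := fun x y => 2 * dt x y)
      (cc := fun _ y => nsq y) (ψ1 := fun z => fderiv ℝ ζ z Complex.I)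
      (ψ2 := fun z => fderiv ℝ ζ z 1)
      hGCO hJCV hEND hH hTF (by simp) hu hX cI kI c1 k1 ?_ ?_ (i2.sub i1) (i3.const_mul 2) i2
    · intro ε z
      rw [jac, px_Th ε (hd z), py_Th ε (hd z)]
      simp
    · intro ε z x y
      have e1 : gX Complex.I ζ ε z x y = x + (ε * fderiv ℝ ζ z 1) • y := by
        funext i l
        simp only [gX, px_Th ε (hd z), Pi.smul_apply, smul_eq_mul, Pi.add_apply]
        simp
        ring
      have e2 : gY Complex.I ζ ε z x y = (1 + ε * fderiv ℝ ζ z Complex.I) • y := by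
        funext i l
        simp only [gY, py_Th ε (hd z), Pi.smul_apply, smul_eq_mul]
        simp
        ring
      rw [e1, e2, nsq_smul, nsq_add, nsq_smul, dt_smul_right]
      ring

end Pool.Agent.DMB
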