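import Pool.Agent.DMB.Api

/-!
MP_71cfa6_an, squad DMB: module ISO, the sorted matrix is a local isometry.
-/

set_option autoImplicit false

namespace Pool.Agent.DMB

open MeasureTheory Set Metric Filter Topology
open scoped ENNReal

namespace ISO_

variable {K n : ℕ}

theorem exists_gap (a : Tup K n) :
    ∃ ε > 0, ∀ i j : Fin K, ∀ l : Fin n, a i l < a j l → ε ≤ a j l - a i l := by
  have h : ∀ s : Finset (Fin K × Fin K × Fin n),
      ∃ ε > (0 : ℝ), ∀ p ∈ s, a p.1 p.2.2 < a p.2.1 p.2.2 → ε ≤ a p.2.1 p.2.2 - a p.1 p.2.2 := by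
    classical
    intro s
    induction s using Finset.induction_on with
    | empty => exact ⟨1, one_pos, fun p hp => absurd hp (Finset.notMem_empty p)⟩
    | insert q s _ ih =>
      obtain ⟨ε, hε, h⟩ := ih
      by_cases hq : a q.1 q.2.2 < a q.2.1 q.2.2
      · refine ⟨min ε (a q.2.1 q.2.2 - a q.1 q.2.2), lt_min hε (sub_pos.2 hq), ?_⟩
        intro p hp hlt
        rcases Finset.mem_insert.1 hp with rfl | hp
        · exact min_le_right _ _
        · exact (min_le_left _ _).trans (h p hp hlt)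
      · refine ⟨ε, hε, ?_⟩
        intro p hp hlt
        rcases Finset.mem_insert.1 hp with rfl | hp
        · exact absurd hlt hq
        · exact h p hp hlt
  obtain ⟨ε, hε, h⟩ := h Finset.univ
  exact ⟨ε, hε, fun i j l hlt => h (i, j, l) (Finset.mem_univ _) hlt⟩

theorem coord_le (v : E n) (l : Fin n) : |v l| ≤ ‖v‖ := by
  rw [← Real.sqrt_sq_eq_abs, ← Real.sqrt_sq (norm_nonneg v)]
  refine Real.sqrt_le_sqrt ?_
  rw [E_norm_sq]
  exact Finset.single_le_sum (f := fun l => v l ^ 2) (fun _ _ => sq_nonneg _) (Finset.mem_univ l)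

theorem near {a b : Tup K n} {ε : ℝ}
    (hg : ∀ i j : Fin K, ∀ l : Fin n, a i l < a j l → ε ≤ a j l - a i l)
    (hb : ∀ i, ‖a i - b i‖ < ε / 2) : nsq (xi a - xi b) = sqd a b := by
  have hc : ∀ i l, |a i l - b i l| < ε / 2 := by
    intro i l
    have h := coord_le (a i - b i) l
    have h2 : (a i - b i) l = a i l - b i l := rfl
    rw [h2] at h
    exact lt_of_le_of_lt h (hb i)
  have hlt : ∀ i j l, a i l < a j l → b i l < b j l := by
    intro i j l h
    have h1 := hg i j l h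
    have h2 := abs_lt.1 (hc i l)
    have h3 := abs_lt.1 (hc j l)
    linarith
  have hxa : ∀ i l, xi a i l = a (Tuple.sort (fun k => b k l) i) l := by
    intro i l
    have hm : Monotone ((fun k => a k l) ∘ (Tuple.sort (fun k => b k l))) := by
      intro i' j' hij
      have hbm := Tuple.monotone_sort (fun k => b k l) hij
      simp only [Function.comp_apply] at hbm ⊢
      by_contra hcon
      exact absurd (hlt _ _ l (not_le.1 hcon)) (not_lt.2 hbm)
    have hm2 : Monotone ((fun k => a k l) ∘ (Tuple.sort (fun k => a k l))) :=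
      Tuple.monotone_sort (fun k => a k l)
    have he := Tuple.unique_monotone hm2 hm
    exact congrFun he i
  have h1 : nsq (xi a - xi b) = ∑ i, ∑ l, (a (Tuple.sort (fun k => b k l) i) l
      - b (Tuple.sort (fun k => b k l) i) l) ^ 2 := by
    unfold nsq
    refine Finset.sum_congr rfl fun i _ => Finset.sum_congr rfl fun l _ => ?_
    have h2 : (xi a - xi b) i l = xi a i l - xi b i l := rfl
    rw [h2, hxa]
    rfl
  have h3 : sqd a b = ∑ i, ∑ l, (a i l - b i l) ^ 2 := by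
    unfold sqd
    refine Finset.sum_congr rfl fun i _ => ?_
    rw [E_norm_sq]
    rfl
  rw [h1, h3, Finset.sum_comm, Finset.sum_comm (f := fun i l => (a i l - b i l) ^ 2)]
  refine Finset.sum_congr rfl fun l _ => ?_
  exact Equiv.sum_comp (Tuple.sort (fun k => b k l)) (fun k => (a k l - b k l) ^ 2)

end ISO_

open ISO_ in
theorem iso_proof (hMET : Stmt_MET) (hXIL : Stmt_XIL) : Stmt_ISO := by
  intro K n a
  obtain ⟨ε, hε, hg⟩ := exists_gap a
  have key : ∀ b : Tup K n, (∀ i, ‖a i - b i‖ < ε / 2) →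
      nsq (xi a - xi b) = sqd a b ∧ dG a b ^ 2 = sqd a b := by
    intro b hb
    have h1 := near hg hb
    refine ⟨h1, le_antisymm ?_ ?_⟩
    · obtain ⟨h0, _, _, _, _, h5, _⟩ := hMET K n a b b
      have h6 := h5 (Equiv.refl _)
      have h7 : sqd a (b ∘ (Equiv.refl (Fin K))) = sqd a b := rfl
      rw [h7] at h6
      calc dG a b ^ 2 ≤ Real.sqrt (sqd a b) ^ 2 := pow_le_pow_left₀ h0 h6 2
        _ = sqd a b := Real.sq_sqrt (sqd_nonneg a b)
    · rw [← h1]
      exact (hXIL K n a b).1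
  refine ⟨ε / 2, by positivity, fun b => ⟨key b, fun hd => ?_⟩⟩
  obtain ⟨h0, _, _, _, ⟨σ, hσ⟩, _, _⟩ := hMET K n a b b
  have hnear : ∀ i, ‖a i - (b ∘ σ) i‖ < ε / 2 := by
    intro i
    have h1 : ‖a i - (b ∘ σ) i‖ ^ 2 ≤ sqd a (b ∘ σ) :=
      Finset.single_le_sum (f := fun i => ‖a i - (b ∘ σ) i‖ ^ 2) (fun _ _ => sq_nonneg _)
        (Finset.mem_univ i)
    have h2 : ‖a i - (b ∘ σ) i‖ ≤ Real.sqrt (sqd a (b ∘ σ)) := Real.le_sqrt_of_sq_le h1
    rw [← hσ] at h2
    exact lt_of_le_of_lt h2 hd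
  obtain ⟨k1, _⟩ := key (b ∘ σ) hnear
  have hx : xi (b ∘ σ) = xi b := (hXIL K n (b ∘ σ) b).2.1 ⟨σ, rfl⟩
  rw [hx] at k1
  rw [k1, hσ, Real.sq_sqrt (sqd_nonneg _ _)]

end Pool.Agent.DMB
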