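import Pool.Agent.DMB.Api

/-!
Squad DMB, module JCV: change of variables in the plane.
-/

set_option autoImplicit false

namespace Pool.Agent.DMB

open MeasureTheory Set Metric Filter Topology
open scoped ENNReal

namespace JCV_

theorem det_eq (A : ℂ →L[ℝ] ℂ) : A.det = (starRingEnd ℂ (A 1) * A Complex.I).im := by
  have h : A.det = LinearMap.det (A : ℂ →ₗ[ℝ] ℂ) := rfl
  rw [h, ← LinearMap.det_toMatrix Complex.basisOneI, Matrix.det_fin_two]
  simp only [LinearMap.toMatrix_apply, Complex.coe_basisOneI_repr, Complex.coe_basisOneI,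
    Matrix.cons_val_zero, Matrix.cons_val_one, ContinuousLinearMap.coe_coe]
  rw [Complex.mul_im, Complex.conj_re, Complex.conj_im]
  ring

end JCV_

open JCV_ in
theorem jcv_proof : Stmt_JCV := by
  intro W Φ hW hΦ hinj hjac V hV hVm
  have hd : ∀ z ∈ V, HasFDerivWithinAt Φ (fderiv ℝ Φ z) V z := by
    intro z hz
    have h1 : DifferentiableAt ℝ Φ z :=
      (hΦ.differentiableOn (by norm_num)).differentiableAt (hW.mem_nhds (hV hz))
    exact h1.hasFDerivAt.hasFDerivWithinAt
  have hdet : ∀ z ∈ V, |(fderiv ℝ Φ z).det| = jac Φ z := by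
    intro z hz
    rw [det_eq]
    exact abs_of_pos (hjac z (hV hz))
  refine ⟨fun g => ?_, fun g => ?_, fun g => ?_⟩
  · rw [lintegral_image_eq_lintegral_abs_det_fderiv_mul volume hVm hd (hinj.mono hV) g]
    refine setLIntegral_congr_fun hVm fun z hz => ?_
    simp only [hdet z hz]
  · rw [integral_image_eq_integral_abs_det_fderiv_smul volume hVm hd (hinj.mono hV) g]
    refine setIntegral_congr_fun hVm fun z hz => ?_
    simp only [hdet z hz, smul_eq_mul]
  · rw [integrableOn_image_iff_integrableOn_abs_det_fderiv_smul volume hVm hd (hinj.mono hV) g]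
    refine integrableOn_congr_fun (fun z hz => ?_) hVm
    simp only [hdet z hz, smul_eq_mul]

end Pool.Agent.DMB
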