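import Pool.Agent.DMB.Api

/-!
# Squad DMB (MP_71cfa6_an): module LFT
-/

set_option autoImplicit false

namespace Pool.Agent.DMB

open MeasureTheory Set Metric Filter Topology

open scoped ENNReal

namespace LFT_

variable {K n : ℕ}

theorem abs_le_sqrt_nsq (v : Mat K n) (i : Fin K) (l : Fin n) : |v i l| ≤ Real.sqrt (nsq v) := by
  refine Real.abs_le_sqrt ?_
  unfold nsq
  have h1 : v i l ^ 2 ≤ ∑ l, v i l ^ 2 :=
    Finset.single_le_sum (f := fun l => v i l ^ 2) (fun _ _ => sq_nonneg _) (Finset.mem_univ l)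
  have h2 : ∑ l, v i l ^ 2 ≤ ∑ i, ∑ l, v i l ^ 2 :=
    Finset.single_le_sum (f := fun i => ∑ l, v i l ^ 2)
      (fun _ _ => Finset.sum_nonneg fun _ _ => sq_nonneg _) (Finset.mem_univ i)
  exact h1.trans h2

theorem aesm_nsq {μ : Measure ℝ} {T : ℝ → Mat K n}
    (h : ∀ i l, AEStronglyMeasurable (fun θ => T θ i l) μ) :
    AEStronglyMeasurable (fun θ => nsq (T θ)) μ := by
  unfold nsq
  refine Finset.aestronglyMeasurable_fun_sum _ fun i _ => ?_
  refine Finset.aestronglyMeasurable_fun_sum _ fun l _ => ?_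
  exact (h i l).pow 2

theorem aesm_sqrt {μ : Measure ℝ} {g : ℝ → ℝ} (h : AEStronglyMeasurable g μ) :
    AEStronglyMeasurable (fun θ => Real.sqrt (g θ)) μ :=
  Real.continuous_sqrt.comp_aestronglyMeasurable h

theorem sqrt_le_one_add {x : ℝ} (hx : 0 ≤ x) : Real.sqrt x ≤ 1 + x := by
  rw [Real.sqrt_le_left (by linarith)]
  nlinarith

theorem ii_sum {ι : Type*} (S : Finset ι) {f : ι → ℝ → ℝ} {s t : ℝ}
    (h : ∀ i ∈ S, IntervalIntegrable (f i) volume s t) :
    IntervalIntegrable (fun x => ∑ i ∈ S, f i x) volume s t := by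
  have h1 := IntervalIntegrable.sum S h
  have h2 : (fun x => ∑ i ∈ S, f i x) = ∑ i ∈ S, f i := by
    funext x
    rw [Finset.sum_apply]
  rw [h2]
  exact h1

/-- norm of an integral -/
theorem norm_int {s t : ℝ} (hst : s ≤ t) {T : ℝ → Mat K n}
    (hT : ∀ i l, IntervalIntegrable (fun θ => T θ i l) volume s t)
    (hG : IntervalIntegrable (fun θ => Real.sqrt (nsq (T θ))) volume s t) (v : Mat K n)
    (hv : ∀ i l, v i l = ∫ θ in s..t, T θ i l) :
    Real.sqrt (nsq v) ≤ ∫ θ in s..t, Real.sqrt (nsq (T θ)) := by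
  have h1 : nsq v = ∫ θ in s..t, dt v (T θ) := by
    unfold nsq dt
    rw [intervalIntegral.integral_finsetSum]
    · refine Finset.sum_congr rfl fun i _ => ?_
      rw [intervalIntegral.integral_finsetSum]
      · refine Finset.sum_congr rfl fun l _ => ?_
        rw [intervalIntegral.integral_const_mul, ← hv, sq]
      · exact fun l _ => (hT i l).const_mul _
    · intro i _
      exact ii_sum _ fun l _ => (hT i l).const_mul _
  have hdt : IntervalIntegrable (fun θ => dt v (T θ)) volume s t := by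
    unfold dt
    exact ii_sum _ fun i _ => ii_sum _ fun l _ => (hT i l).const_mul _
  have h2 : ∫ θ in s..t, dt v (T θ) ≤ ∫ θ in s..t, Real.sqrt (nsq v) * Real.sqrt (nsq (T θ)) := by
    refine intervalIntegral.integral_mono_on hst hdt (hG.const_mul _) fun θ _ => ?_
    exact (le_abs_self _).trans (abs_dt_le v (T θ))
  rw [intervalIntegral.integral_const_mul] at h2
  have h3 : Real.sqrt (nsq v) * Real.sqrt (nsq v) ≤
      Real.sqrt (nsq v) * ∫ θ in s..t, Real.sqrt (nsq (T θ)) := by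
    rw [Real.mul_self_sqrt (nsq_nonneg v)]
    linarith
  rcases (Real.sqrt_nonneg (nsq v)).eq_or_lt with h0 | h0
  · rw [← h0]
    exact intervalIntegral.integral_nonneg hst fun θ _ => Real.sqrt_nonneg _
  · exact le_of_mul_le_mul_left h3 h0

theorem ac_of_le {f H : ℝ → ℝ} {a b : ℝ} (hab : a ≤ b)
    (hH : AbsolutelyContinuousOnInterval H a b)
    (h : ∀ s ∈ Icc a b, ∀ t ∈ Icc a b, s ≤ t → |f s - f t| ≤ H t - H s) :
    AbsolutelyContinuousOnInterval f a b := by
  rw [absolutelyContinuousOnInterval_iff] at hH ⊢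
  intro ε hε
  obtain ⟨δ, hδ, h1⟩ := hH ε hε
  refine ⟨δ, hδ, fun E hE hs => ?_⟩
  refine lt_of_le_of_lt (Finset.sum_le_sum fun i hi => ?_) (h1 E hE hs)
  have h2 := hE.1 i hi
  rw [uIcc_of_le hab] at h2
  rw [Real.dist_eq, Real.dist_eq]
  rcases le_total (E.2 i).1 (E.2 i).2 with h3 | h3
  · refine (h _ h2.1 _ h2.2 h3).trans ?_
    rw [abs_sub_comm]
    exact le_abs_self _
  · rw [abs_sub_comm]
    exact (h _ h2.2 _ h2.1 h3).trans (le_abs_self _)

/-- limits of slopes from the right -/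
theorem slope_tendsto {f : ℝ → ℝ} {f' x : ℝ} (h : HasDerivAt f f' x) :
    Tendsto (fun s => (s - x)⁻¹ * (f s - f x)) (𝓝[>] x) (𝓝 f') := by
  have h1 := h.hasDerivWithinAt (s := Ioi x)
  rw [hasDerivWithinAt_iff_tendsto_slope' self_notMem_Ioi] at h1
  refine h1.congr fun s => ?_
  rw [slope_def_field, div_eq_inv_mul]

theorem sqd_comm' (a b : Tup K n) : sqd a b = nsq (mt b - mt a) := by
  rw [sqd_eq_nsq, ← nsq_neg, neg_sub]

end LFT_

open LFT_

theorem lft_proof (_hMET : Stmt_MET) (_hXIL : Stmt_XIL) (hCOU : Stmt_COU) (hSEL : Stmt_SEL) :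
    Stmt_LFT := by
  intro K n u T hu hTm hTi hxi h0 hp
  have hpi : (0 : ℝ) ≤ Real.pi := Real.pi_pos.le
  have hsub : ∀ s ∈ Icc 0 Real.pi, ∀ t ∈ Icc 0 Real.pi, uIcc s t ⊆ uIcc 0 Real.pi := by
    intro s hs t ht
    rw [uIcc_of_le hpi]
    exact uIcc_subset_Icc hs ht
  -- the function `G`
  have hGm : AEStronglyMeasurable (fun θ => Real.sqrt (nsq (T θ)))
      (volume.restrict (Ioc 0 Real.pi)) := aesm_sqrt (aesm_nsq hTm)
  have hGi : IntervalIntegrable (fun θ => Real.sqrt (nsq (T θ))) volume 0 Real.pi := by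
    rw [intervalIntegrable_iff_integrableOn_Ioc_of_le hpi] at hTi ⊢
    refine Integrable.mono' ((integrable_const (1 : ℝ)).add hTi) hGm ?_
    refine Eventually.of_forall fun θ => ?_
    rw [Real.norm_of_nonneg (Real.sqrt_nonneg _)]
    exact sqrt_le_one_add (nsq_nonneg _)
  have hTil : ∀ i l, IntervalIntegrable (fun θ => T θ i l) volume 0 Real.pi := by
    intro i l
    rw [intervalIntegrable_iff_integrableOn_Ioc_of_le hpi] at hGi ⊢
    refine Integrable.mono' hGi (hTm i l) ?_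
    refine Eventually.of_forall fun θ => ?_
    rw [Real.norm_eq_abs]
    exact abs_le_sqrt_nsq _ i l
  set H : ℝ → ℝ := fun t => ∫ θ in (0 : ℝ)..t, Real.sqrt (nsq (T θ)) with hH
  have hmem0 : (0 : ℝ) ∈ Icc 0 Real.pi := ⟨le_rfl, hpi⟩
  have hHsub : ∀ s ∈ Icc 0 Real.pi, ∀ t ∈ Icc 0 Real.pi,
      H t - H s = ∫ θ in s..t, Real.sqrt (nsq (T θ)) := by
    intro s hs t ht
    exact intervalIntegral.integral_interval_sub_left (hGi.mono_set (hsub 0 hmem0 t ht))
      (hGi.mono_set (hsub 0 hmem0 s hs))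
  have hd : ∀ s ∈ Icc 0 Real.pi, ∀ t ∈ Icc 0 Real.pi, s ≤ t → dG (u s) (u t) ≤ H t - H s := by
    intro s hs t ht hst
    rw [hHsub s hs t ht]
    have hst' : Icc s t ⊆ Icc 0 Real.pi := Icc_subset_Icc hs.1 ht.2
    refine hCOU K n u _ s t hst ?_ (hGi.mono_set (hsub s hs t ht)) ?_
    · intro x hx
      exact (hu x (hst' hx)).mono_left (nhdsWithin_mono _ hst')
    · intro x hx y hy hxy
      refine norm_int hxy (fun i l => (hTil i l).mono_set (hsub x (hst' hx) y (hst' hy)))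
        (hGi.mono_set (hsub x (hst' hx) y (hst' hy))) _ ?_
      intro i l
      exact hxi i l x (hst' hx) y (hst' hy)
  obtain ⟨f, hfs, hfH⟩ := hSEL K n u H 0 Real.pi hpi hd
  have hHac : AbsolutelyContinuousOnInterval H 0 Real.pi :=
    hGi.absolutelyContinuousOnInterval_intervalIntegral left_mem_uIcc
  have hfil : ∀ i l, ∀ s ∈ Icc 0 Real.pi, ∀ t ∈ Icc 0 Real.pi, s ≤ t →
      |f s i l - f t i l| ≤ H t - H s := by
    intro i l s hs t ht hst
    refine le_trans ?_ (hfH s hs t ht hst)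
    rw [sqd_eq_nsq]
    exact abs_le_sqrt_nsq (mt (f s) - mt (f t)) i l
  have hfac : ∀ i l, AbsolutelyContinuousOnInterval (fun s => f s i l) 0 Real.pi :=
    fun i l => ac_of_le hpi hHac (hfil i l)
  have hf0 : f 0 = 0 := by
    obtain ⟨σ, hσ⟩ := hfs 0 hmem0
    rw [hσ]
    funext i
    exact h0 _
  have hfp : f Real.pi = 0 := by
    obtain ⟨σ, hσ⟩ := hfs Real.pi ⟨hpi, le_rfl⟩
    rw [hσ]
    funext i
    exact hp _
  have hmeas : ∀ i l, AEStronglyMeasurable (fun θ => deriv (fun s => f s i l) θ)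
      (volume.restrict (Ioc 0 Real.pi)) :=
    fun i l => (measurable_deriv _).aestronglyMeasurable
  have hle : ∀ᵐ θ : ℝ, θ ∈ Ioo 0 Real.pi →
      nsq (fun i l => deriv (fun s => f s i l) θ : Mat K n) ≤ nsq (T θ) := by
    have hdiff : ∀ᵐ θ : ℝ, ∀ i l, θ ∈ uIcc 0 Real.pi →
        DifferentiableAt ℝ (fun s => f s i l) θ := by
      rw [ae_all_iff]; intro i
      rw [ae_all_iff]; intro l
      exact (hfac i l).ae_differentiableAt
    filter_upwards [hdiff, hGi.ae_hasDerivAt_integral] with θ h1 h2 hθ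
    have hθ' : θ ∈ Icc 0 Real.pi := Ioo_subset_Icc_self hθ
    have hθu : θ ∈ uIcc 0 Real.pi := by rw [uIcc_of_le hpi]; exact hθ'
    have h3 : HasDerivAt H (Real.sqrt (nsq (T θ))) θ := h2 hθu 0 left_mem_uIcc
    have h4 := slope_tendsto h3
    have h5 : Tendsto (fun s => Real.sqrt (nsq (fun i l => (s - θ)⁻¹ *
        (f s i l - f θ i l) : Mat K n))) (𝓝[>] θ)
        (𝓝 (Real.sqrt (nsq (fun i l => deriv (fun s => f s i l) θ : Mat K n)))) := by
      refine (Real.continuous_sqrt.tendsto _).comp ?_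
      unfold nsq
      refine tendsto_finsetSum _ fun i _ => ?_
      refine tendsto_finsetSum _ fun l _ => ?_
      exact (slope_tendsto ((h1 i l hθu).hasDerivAt)).pow 2
    have h6 : Real.sqrt (nsq (fun i l => deriv (fun s => f s i l) θ : Mat K n)) ≤
        Real.sqrt (nsq (T θ)) := by
      refine le_of_tendsto_of_tendsto h5 h4 ?_
      have h7 : ∀ᶠ s in 𝓝[>] θ, s ∈ Ioo θ Real.pi := Ioo_mem_nhdsGT hθ.2
      filter_upwards [h7] with s hs
      have hs' : s ∈ Icc 0 Real.pi := ⟨(hθ.1.trans hs.1).le, hs.2.le⟩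
      have h8 := hfH θ hθ' s hs' hs.1.le
      have hpos : 0 ≤ (s - θ)⁻¹ := inv_nonneg.2 (by linarith [hs.1])
      have h9 : (fun i l => (s - θ)⁻¹ * (f s i l - f θ i l) : Mat K n) =
          (s - θ)⁻¹ • (mt (f s) - mt (f θ)) := rfl
      rw [h9, nsq_smul, Real.sqrt_mul (sq_nonneg _), Real.sqrt_sq hpos, ← sqd_comm']
      exact mul_le_mul_of_nonneg_left h8 hpos
    exact (Real.sqrt_le_sqrt_iff (nsq_nonneg _)).1 h6
  refine ⟨f, fun θ i l => deriv (fun s => f s i l) θ, ?_⟩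
  refine ⟨hfs, hf0, hfp, hmeas, ?_, ?_, hle⟩
  · rw [intervalIntegrable_iff_integrableOn_Ioc_of_le hpi] at hTi ⊢
    refine Integrable.mono' hTi (aesm_nsq hmeas) ?_
    rw [ae_restrict_iff' measurableSet_Ioc]
    have hne : ∀ᵐ θ : ℝ, θ ≠ Real.pi := by simp [ae_iff, measure_singleton]
    filter_upwards [hle, hne] with θ h1 h2 h3
    rw [Real.norm_of_nonneg (nsq_nonneg _)]
    exact h1 ⟨h3.1, lt_of_le_of_ne h3.2 h2⟩
  · intro i l θ hθ
    have h1 := ((hfac i l).mono (hsub 0 hmem0 θ hθ)).integral_deriv_eq_sub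
    rw [h1, hf0]
    simp

end Pool.Agent.DMB
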