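import Pool.Agent.DMB.Api

/-!
LOG: the logarithm of the squared deviation of a conformal minimiser is weakly subharmonic.
-/

set_option autoImplicit false

namespace Pool.Agent.DMB

open MeasureTheory Set Metric Filter Topology
open scoped ENNReal

namespace LOG_

variable {K n : ℕ}

theorem hg_congr {U : Set ℂ} {f fx fy f' fx' fy' : ℂ → ℝ} (h : HasGrad U f fx fy)
    (h1 : ∀ z, f z = f' z) (h2 : ∀ z, fx z = fx' z) (h3 : ∀ z, fy z = fy' z) :
    HasGrad U f' fx' fy' := by
  have e1 : f = f' := funext h1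
  have e2 : fx = fx' := funext h2
  have e3 : fy = fy' := funext h3
  subst e1; subst e2; subst e3; exact h

theorem hg_sum (hGAL : Stmt_GAL) {U : Set ℂ} (hU : IsOpen U) {ι : Type} (s : Finset ι)
    (f fx fy : ι → ℂ → ℝ) (h : ∀ i, HasGrad U (f i) (fx i) (fy i)) :
    HasGrad U (fun z => ∑ i ∈ s, f i z) (fun z => ∑ i ∈ s, fx i z) (fun z => ∑ i ∈ s, fy i z) := by
  classical
  induction s using Finset.induction_on with
  | empty => exact hg_congr ((hGAL U hU).2.1 0) (by simp) (by simp) (by simp)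
  | insert a s ha ih =>
    exact hg_congr ((hGAL U hU).2.2.1 _ _ _ _ _ _ (h a) ih)
      (fun z => by rw [Finset.sum_insert ha]) (fun z => by rw [Finset.sum_insert ha])
      (fun z => by rw [Finset.sum_insert ha])

theorem hg_SS (hGAL : Stmt_GAL) {H : Set ℂ} (hH : IsOpen H) (u : ℂ → Tup K n) (X Y : ℂ → Mat K n)
    (hg : HasGradV H (fun z => xi (u z)) X Y) (i : Fin K) (l : Fin n) :
    HasGrad H (fun z => SS u z i l) (fun z => sh (X z) (mn (X z)) i l)
      (fun z => sh (Y z) (mn (Y z)) i l) := by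
  have h1 := hg_sum hGAL hH (Finset.univ : Finset (Fin K)) (fun j z => xi (u z) j l)
    (fun j z => X z j l) (fun j z => Y z j l) (fun j => hg j l)
  have h2 := (hGAL H hH).2.2.2.1 (-(K : ℝ)⁻¹) _ _ _ h1
  have h3 := (hGAL H hH).2.2.1 _ _ _ _ _ _ (hg i l) h2
  refine hg_congr h3 ?_ ?_ ?_ <;> intro z <;> simp only [SS, sh, mn] <;> ring

theorem hg_f (hGAL : Stmt_GAL) (hGMU : Stmt_GMU) {H : Set ℂ} (hH : IsOpen H) (u : ℂ → Tup K n)
    (X Y : ℂ → Mat K n) (hg : HasGradV H (fun z => xi (u z)) X Y) :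
    HasGrad H (fun z => nsq (SS u z)) (fun z => 2 * dt (SS u z) (sh (X z) (mn (X z))))
      (fun z => 2 * dt (SS u z) (sh (Y z) (mn (Y z)))) := by
  have h1 : ∀ i : Fin K, HasGrad H (fun z => ∑ l : Fin n, SS u z i l * SS u z i l)
      (fun z => ∑ l : Fin n, (sh (X z) (mn (X z)) i l * SS u z i l +
        SS u z i l * sh (X z) (mn (X z)) i l))
      (fun z => ∑ l : Fin n, (sh (Y z) (mn (Y z)) i l * SS u z i l +
        SS u z i l * sh (Y z) (mn (Y z)) i l)) := fun i =>
    hg_sum hGAL hH (Finset.univ : Finset (Fin n)) (fun l z => SS u z i l * SS u z i l)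
      (fun l z => sh (X z) (mn (X z)) i l * SS u z i l + SS u z i l * sh (X z) (mn (X z)) i l)
      (fun l z => sh (Y z) (mn (Y z)) i l * SS u z i l + SS u z i l * sh (Y z) (mn (Y z)) i l)
      (fun l => hGMU H _ _ _ _ _ _ hH (hg_SS hGAL hH u X Y hg i l) (hg_SS hGAL hH u X Y hg i l))
  have h2 := hg_sum hGAL hH (Finset.univ : Finset (Fin K)) _ _ _ h1
  refine hg_congr h2 ?_ ?_ ?_ <;> intro z
  · simp [nsq, sq]
  · simp only [dt, Finset.mul_sum]
    exact Finset.sum_congr rfl fun i _ => Finset.sum_congr rfl fun l _ => by ring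
  · simp only [dt, Finset.mul_sum]
    exact Finset.sum_congr rfl fun i _ => Finset.sum_congr rfl fun l _ => by ring

/-- Bessel: two orthogonal vectors of the same length -/
theorem bessel (s a b : Mat K n) (h : nsq a = nsq b) (h0 : dt a b = 0) :
    dt s a ^ 2 + dt s b ^ 2 ≤ nsq s * nsq a := by
  have hs := nsq_nonneg s
  have ha := nsq_nonneg a
  rcases ha.lt_or_eq with hpos | hz
  · have h1 := nsq_nonneg ((nsq a) • s - (dt s a • a + dt s b • b))
    rw [nsq_sub, nsq_smul, dt_smul_left, nsq_add, nsq_smul, nsq_smul, dt_add_right, dt_smul_right,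
      dt_smul_right, dt_smul_left, dt_smul_right, h0, ← h] at h1
    have h2 : 0 ≤ nsq a * (nsq s * nsq a - (dt s a ^ 2 + dt s b ^ 2)) := by nlinarith
    have h3 := nonneg_of_mul_nonneg_right h2 hpos
    linarith
  · have h1 := dt_sq_le s a
    have h2 := dt_sq_le s b
    rw [← h, ← hz, mul_zero] at h2
    rw [← hz, mul_zero] at h1 ⊢
    linarith

/-- pointwise inequality -/
theorem point (f a b p q ε ζ : ℝ) (hf : 0 ≤ f) (hε : 0 < ε) (hζ : 0 ≤ ζ) (hab : a = b)
    (ha : 0 ≤ a) (hb : p ^ 2 + q ^ 2 ≤ f * a) :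
    0 ≤ ζ * (f + ε)⁻¹ * (a + b) - 2 * ζ * ((f + ε)⁻¹) ^ 2 * (p ^ 2 + q ^ 2) := by
  subst hab
  have h1 : 0 < f + ε := by linarith
  set w := (f + ε)⁻¹ with hw
  have hwpos : 0 < w := inv_pos.mpr h1
  have h2 : f * w ≤ 1 := by
    rw [hw, ← div_eq_mul_inv, div_le_one h1]; linarith
  have h3 : w ^ 2 * (p ^ 2 + q ^ 2) ≤ w * a := by
    calc w ^ 2 * (p ^ 2 + q ^ 2) ≤ w ^ 2 * (f * a) := by gcongr
      _ = (f * w) * (w * a) := by ring
      _ ≤ 1 * (w * a) := by gcongr
      _ = w * a := one_mul _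
  have h4 : ζ * (w ^ 2 * (p ^ 2 + q ^ 2)) ≤ ζ * (w * a) := mul_le_mul_of_nonneg_left h3 hζ
  nlinarith

theorem ptle (f a b p q ε ζ : ℝ) (hf : 0 ≤ f) (hε : 0 < ε) (hζ : 0 ≤ ζ)
    (ha : 0 ≤ a) (hb : 0 ≤ b) :
    ζ * (f + ε)⁻¹ * (a + b) - 2 * ζ * ((f + ε)⁻¹) ^ 2 * (p ^ 2 + q ^ 2) ≤ ζ * ε⁻¹ * (a + b) := by
  have h1 : 0 < f + ε := by linarith
  have h2 : (f + ε)⁻¹ ≤ ε⁻¹ := inv_anti₀ hε (by linarith)
  have h3 : 0 ≤ 2 * ζ * ((f + ε)⁻¹) ^ 2 * (p ^ 2 + q ^ 2) := by positivity
  have h4 : ζ * (f + ε)⁻¹ * (a + b) ≤ ζ * ε⁻¹ * (a + b) := by gcongr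
  linarith


/-- a function continuous on `H` and vanishing off a compact subset is integrable -/
theorem int_cont {H C : Set ℂ} (hH : IsOpen H) (hC : C ⊆ H) (hc : IsCompact C) {f : ℂ → ℝ}
    (hf : ContinuousOn f H) (h0 : ∀ z ∈ H \ C, f z = 0) : IntegrableOn f H :=
  ((hf.mono hC).integrableOn_compact hc).of_forall_sdiff_eq_zero hH.measurableSet h0

theorem meas_nsq {H : Set ℂ} (V : ℂ → Mat K n)
    (h : ∀ i l, AEStronglyMeasurable (fun z => V z i l) (volume.restrict H)) :
    AEStronglyMeasurable (fun z => nsq (V z)) (volume.restrict H) := by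
  unfold nsq
  exact Finset.aestronglyMeasurable_fun_sum _ fun i _ =>
    Finset.aestronglyMeasurable_fun_sum _ fun l _ => (h i l).pow 2

theorem ed_int {H C : Set ℂ} (hC : C ⊆ H) (hc : IsCompact C) (s X Y : ℂ → Mat K n)
    (hg : HasGradV H s X Y) : IntegrableOn (ed X Y) C := by
  have h : ∀ i l, IntegrableOn (fun z => X z i l ^ 2 + Y z i l ^ 2) C := fun i l =>
    (hg i l).loc C hC hc
  have h2 : ed X Y = fun z => ∑ i, ∑ l, (X z i l ^ 2 + Y z i l ^ 2) := by
    funext z; simp only [ed, nsq, Finset.sum_add_distrib]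
  rw [h2]
  exact integrable_finsetSum _ fun i _ => integrable_finsetSum _ fun l _ => h i l

end LOG_

open LOG_ in
theorem log_proof (_hXIL : Stmt_XIL) (hGAL : Stmt_GAL) (hGMU : Stmt_GMU) (hGCH : Stmt_GCH)
    (hGC1 : Stmt_GC1) (hGIB : Stmt_GIB) (hOUV : Stmt_OUV) (_hEND : Stmt_END)
    (_hGUN : Stmt_GUN) : Stmt_LOG := by
  intro K n H u X Y hK hH hmin hg hae ε hε ζ hζ hζ0
  obtain ⟨hζs, hζc, hζH⟩ := hζ
  -- notation
  set C := tsupport ζ with hCdef
  have hCc : IsCompact C := hζc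
  set f : ℂ → ℝ := fun z => nsq (SS u z) with hfdef
  set fx : ℂ → ℝ := fun z => 2 * dt (SS u z) (sh (X z) (mn (X z))) with hfx
  set fy : ℂ → ℝ := fun z => 2 * dt (SS u z) (sh (Y z) (mn (Y z))) with hfy
  have hf0 : ∀ z, 0 ≤ f z := fun z => nsq_nonneg _
  have hfe : ∀ z, 0 < f z + ε := fun z => by linarith [hf0 z]
  have hfg : HasGrad H f fx fy := hg_f hGAL hGMU hH u X Y hg
  set w : ℂ → ℝ := fun z => (f z + ε)⁻¹ with hw
  have hw0 : ∀ z, 0 < w z := fun z => inv_pos.mpr (hfe z)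
  -- the logarithm
  have hL : HasGrad H (fun z => Real.log (f z + ε)) (fun z => w z * fx z) (fun z => w z * fy z) := by
    have h1 : ∀ t ∈ Ioi (-ε), HasDerivAt (fun t : ℝ => Real.log (t + ε)) (t + ε)⁻¹ t := by
      intro t ht
      have ht' : t + ε ≠ 0 := by
        have : -ε < t := ht
        linarith
      simpa using ((hasDerivAt_id t).add_const ε).log ht'
    have h2 : ContDiffOn ℝ 1 (fun t : ℝ => Real.log (t + ε)) (Ioi (-ε)) := by
      refine ContDiffOn.log (contDiffOn_id.add contDiffOn_const) ?_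
      intro t ht
      have h4 : -ε < t := ht
      have h5 : 0 < t + ε := by linarith
      exact h5.ne'
    have h3 := hGCH H f fx fy (Ioi (-ε)) (fun t : ℝ => Real.log (t + ε)) hH isOpen_Ioi h2
      (fun z _ => by show -ε < f z; linarith [hf0 z]) hfg
    refine hg_congr h3 (fun z => rfl) ?_ ?_ <;> intro z <;>
      rw [(h1 (f z) (by show -ε < f z; linarith [hf0 z])).deriv]
  -- the inverse
  have hI : HasGrad H w (fun z => -(w z ^ 2) * fx z) (fun z => -(w z ^ 2) * fy z) := by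
    have h1 : ∀ t ∈ Ioi (-ε), HasDerivAt (fun t : ℝ => (t + ε)⁻¹) (-((t + ε)⁻¹ ^ 2)) t := by
      intro t ht
      have ht' : t + ε ≠ 0 := by
        have : -ε < t := ht
        linarith
      have := ((hasDerivAt_id t).add_const ε).inv ht'
      refine this.congr_deriv ?_
      simp only [id]
      rw [inv_pow, neg_div, one_div]
    have h2 : ContDiffOn ℝ 1 (fun t : ℝ => (t + ε)⁻¹) (Ioi (-ε)) := by
      refine ContDiffOn.inv (contDiffOn_id.add contDiffOn_const) ?_
      intro t ht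
      have h4 : -ε < t := ht
      have h5 : 0 < t + ε := by linarith
      exact h5.ne'
    have h3 := hGCH H f fx fy (Ioi (-ε)) (fun t : ℝ => (t + ε)⁻¹) hH isOpen_Ioi h2
      (fun z _ => by show -ε < f z; linarith [hf0 z]) hfg
    refine hg_congr h3 (fun z => rfl) ?_ ?_ <;> intro z <;>
      rw [(h1 (f z) (by show -ε < f z; linarith [hf0 z])).deriv]
  -- the test function and its derivatives
  set ζx : ℂ → ℝ := fun z => fderiv ℝ ζ z 1 with hζx
  set ζy : ℂ → ℝ := fun z => fderiv ℝ ζ z Complex.I with hζy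
  have hζxs : ContDiff ℝ 1 ζx := by
    have h2 : ContDiff ℝ 2 ζ := contDiff_infty.mp hζs 2
    have : ContDiff ℝ 1 (fderiv ℝ ζ) := h2.fderiv_right (by norm_num)
    exact this.clm_apply contDiff_const
  have hζys : ContDiff ℝ 1 ζy := by
    have h2 : ContDiff ℝ 2 ζ := contDiff_infty.mp hζs 2
    have : ContDiff ℝ 1 (fderiv ℝ ζ) := h2.fderiv_right (by norm_num)
    exact this.clm_apply contDiff_const
  have hζ1 : ContDiff ℝ 1 ζ := hζs.of_le (by exact_mod_cast le_top)
  have z0 : ∀ z, z ∉ C → ζ z = 0 := fun z hz => image_eq_zero_of_notMem_tsupport hz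
  have zx0 : ∀ z, z ∉ C → ζx z = 0 := fun z hz =>
    image_eq_zero_of_notMem_tsupport fun h => hz (tsupport_fderiv_apply_subset ℝ (1 : ℂ) h)
  have zy0 : ∀ z, z ∉ C → ζy z = 0 := fun z hz =>
    image_eq_zero_of_notMem_tsupport fun h => hz (tsupport_fderiv_apply_subset ℝ Complex.I h)
  have sx : tsupport ζx ⊆ C := tsupport_fderiv_apply_subset ℝ (1 : ℂ)
  have sy : tsupport ζy ⊆ C := tsupport_fderiv_apply_subset ℝ Complex.I
  have zxx0 : ∀ z, z ∉ C → fderiv ℝ ζx z 1 = 0 := fun z hz =>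
    image_eq_zero_of_notMem_tsupport (f := fun z => fderiv ℝ ζx z 1)
      fun h => hz (sx (tsupport_fderiv_apply_subset ℝ (1 : ℂ) h))
  have zyy0 : ∀ z, z ∉ C → fderiv ℝ ζy z Complex.I = 0 := fun z hz =>
    image_eq_zero_of_notMem_tsupport (f := fun z => fderiv ℝ ζy z Complex.I)
      fun h => hz (sy (tsupport_fderiv_apply_subset ℝ Complex.I h))
  have gζ : HasGrad H ζ ζx ζy := hGC1 H ζ hH hζ1.contDiffOn
  have gζx := hGC1 H ζx hH hζxs.contDiffOn
  have gζy := hGC1 H ζy hH hζys.contDiffOn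
  -- integration by parts
  have ibx := hGIB H C _ _ _ hH hζH hCc (hGMU H _ _ _ _ _ _ hH gζx hL)
    (fun z hz => by simp only [zx0 z hz.2, zero_mul])
  have iby := hGIB H C _ _ _ hH hζH hCc (hGMU H _ _ _ _ _ _ hH gζy hL)
    (fun z hz => by simp only [zy0 z hz.2, zero_mul])
  have cxx : IntegrableOn (fun z => fderiv ℝ ζx z 1 * Real.log (f z + ε)) H := by
    refine int_cont hH hζH hCc (ContinuousOn.mul ?_ hL.cont)
      (fun z hz => by rw [zxx0 z hz.2, zero_mul])
    exact ((hζxs.continuous_fderiv (by norm_num)).clm_apply continuous_const).continuousOn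
  have cyy : IntegrableOn (fun z => fderiv ℝ ζy z Complex.I * Real.log (f z + ε)) H := by
    refine int_cont hH hζH hCc (ContinuousOn.mul ?_ hL.cont)
      (fun z hz => by rw [zyy0 z hz.2, zero_mul])
    exact ((hζys.continuous_fderiv (by norm_num)).clm_apply continuous_const).continuousOn
  have ix : IntegrableOn (fun z => ζx z * (w z * fx z)) H := by
    refine (ibx.1.sub cxx).congr (Eventually.of_forall fun z => ?_)
    simp only [Pi.sub_apply]; ring
  have iy : IntegrableOn (fun z => ζy z * (w z * fy z)) H := by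
    refine (iby.2.1.sub cyy).congr (Eventually.of_forall fun z => ?_)
    simp only [Pi.sub_apply]; ring
  have ex : ∫ z in H, ζx z * (w z * fx z) = -∫ z in H, fderiv ℝ ζx z 1 * Real.log (f z + ε) := by
    have h1 := ibx.2.2.2.1
    rw [integral_add cxx ix] at h1
    linarith
  have ey : ∫ z in H, ζy z * (w z * fy z) =
      -∫ z in H, fderiv ℝ ζy z Complex.I * Real.log (f z + ε) := by
    have h1 := iby.2.2.2.2.1
    rw [integral_add cyy iy] at h1
    linarith
  -- outer variation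
  have gχ := hGMU H _ _ _ _ _ _ hH gζ hI
  have hO := hOUV K n H u X Y _ _ _ hK hH hmin hg gχ
    ⟨C, hζH, hCc, fun z hz => by simp only [z0 z hz.2, zero_mul]⟩
  set a : ℂ → ℝ := fun z => dev (X z) with ha
  set b : ℂ → ℝ := fun z => dev (Y z) with hb
  set N : ℂ → ℝ := fun z => ζ z * w z * (a z + b z) -
    2 * ζ z * (w z) ^ 2 * ((fx z / 2) ^ 2 + (fy z / 2) ^ 2) with hN
  set M : ℂ → ℝ := fun z => (1 / 2) * (ζx z * (w z * fx z) + ζy z * (w z * fy z)) with hM
  have hNM : ∀ z, ζ z * w z * (dev (X z) + dev (Y z)) +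
      (ζx z * w z + ζ z * (-(w z ^ 2) * fx z)) * dt (SS u z) (sh (X z) (mn (X z))) +
      (ζy z * w z + ζ z * (-(w z ^ 2) * fy z)) * dt (SS u z) (sh (Y z) (mn (Y z))) =
      N z + M z := by
    intro z
    simp only [hN, hM, ha, hb, hfx, hfy]
    ring
  have hMi : IntegrableOn M H := (ix.add iy).const_mul (1 / 2)
  have hNn : ∀ᵐ z : ℂ, z ∈ H → 0 ≤ N z := by
    filter_upwards [hae] with z hz hzH
    obtain ⟨h1, h2⟩ := hz hzH
    have hB := bessel (SS u z) (sh (X z) (mn (X z))) (sh (Y z) (mn (Y z))) h1 h2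
    refine point (f z) (a z) (b z) (fx z / 2) (fy z / 2) ε (ζ z) (hf0 z) hε (hζ0 z) h1
      (dev_nonneg _) ?_
    have e1 : fx z / 2 = dt (SS u z) (sh (X z) (mn (X z))) := by simp only [hfx]; ring
    have e2 : fy z / 2 = dt (SS u z) (sh (Y z) (mn (Y z))) := by simp only [hfy]; ring
    rw [e1, e2]
    exact hB
  obtain ⟨B, hB⟩ := hζ1.continuous.bounded_above_of_compact_support hζc
  have hNm : AEStronglyMeasurable N (volume.restrict H) := by
    have m1 : AEStronglyMeasurable ζ (volume.restrict H) := hζ1.continuous.aestronglyMeasurable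
    have m2 : AEStronglyMeasurable w (volume.restrict H) :=
      hI.cont.aestronglyMeasurable hH.measurableSet
    have m3 : AEStronglyMeasurable a (volume.restrict H) :=
      meas_nsq _ fun i l => (hg_SS hGAL hH u X Y hg i l).mx
    have m4 : AEStronglyMeasurable b (volume.restrict H) :=
      meas_nsq _ fun i l => (hg_SS hGAL hH u X Y hg i l).my
    have m5 := hfg.mx
    have m6 := hfg.my
    have m7 : AEStronglyMeasurable (fun z => (fx z / 2) ^ 2 + (fy z / 2) ^ 2)
        (volume.restrict H) := by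
      have := ((m5.mul_const (1 / 2)).pow 2).add ((m6.mul_const (1 / 2)).pow 2)
      refine this.congr (Eventually.of_forall fun z => ?_)
      simp only [Pi.add_apply, Pi.pow_apply]; ring
    exact ((m1.mul m2).mul (m3.add m4)).sub (((m1.const_mul 2).mul (m2.pow 2)).mul m7)
  have hNi : IntegrableOn N H := by
    have h1 : IntegrableOn N C := by
      have hed := (ed_int hζH hCc _ X Y hg).const_mul (B * ε⁻¹)
      refine Integrable.mono' hed (hNm.mono_set hζH) ?_
      have hNn' : ∀ᵐ z : ℂ ∂(volume.restrict C), 0 ≤ N z := by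
        refine (ae_restrict_iff' hCc.measurableSet).mpr ?_
        filter_upwards [hNn] with z hz hzC using hz (hζH hzC)
      filter_upwards [hNn'] with z hz
      rw [Real.norm_of_nonneg hz]
      have h2 := ptle (f z) (a z) (b z) (fx z / 2) (fy z / 2) ε (ζ z) (hf0 z) hε (hζ0 z)
        (dev_nonneg _) (dev_nonneg _)
      have h3 : a z + b z ≤ ed X Y z := add_le_add (dev_le_nsq _) (dev_le_nsq _)
      have h4 : ζ z ≤ B := (le_abs_self _).trans (hB z)
      have h5 : 0 ≤ a z + b z := add_nonneg (dev_nonneg _) (dev_nonneg _)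
      have h6 : 0 ≤ ε⁻¹ := (inv_pos.mpr hε).le
      calc N z ≤ ζ z * ε⁻¹ * (a z + b z) := h2
        _ ≤ B * ε⁻¹ * (a z + b z) := by gcongr
        _ ≤ B * ε⁻¹ * ed X Y z := by
            have : 0 ≤ B := (hζ0 z).trans h4
            gcongr
    refine h1.of_forall_sdiff_eq_zero hH.measurableSet fun z hz => ?_
    simp only [hN, z0 z hz.2]; ring
  have hsum : ∫ z in H, (N z + M z) = 0 := by
    rw [← hO]
    exact integral_congr_ae (Eventually.of_forall fun z => (hNM z).symm)
  have hN0 : 0 ≤ ∫ z in H, N z :=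
    setIntegral_nonneg_of_ae_restrict ((ae_restrict_iff' hH.measurableSet).mpr hNn)
  rw [integral_add hNi hMi] at hsum
  have hM1 : ∫ z in H, M z = (1 / 2) * ((∫ z in H, ζx z * (w z * fx z)) +
      ∫ z in H, ζy z * (w z * fy z)) := by
    rw [← integral_add ix iy, ← integral_const_mul]
  -- conclusion
  have hfin : ∫ z, Real.log (dev (xi (u z)) + ε) * lap ζ z =
      (∫ z in H, fderiv ℝ ζx z 1 * Real.log (f z + ε)) +
        ∫ z in H, fderiv ℝ ζy z Complex.I * Real.log (f z + ε) := by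
    rw [← integral_add cxx cyy, ← setIntegral_eq_integral_of_forall_compl_eq_zero (s := H)]
    · refine integral_congr_ae (Eventually.of_forall fun z => ?_)
      show Real.log (f z + ε) * (fderiv ℝ ζx z 1 + fderiv ℝ ζy z Complex.I) = _
      ring
    · intro z hz
      have hzC : z ∉ C := fun h => hz (hζH h)
      have : lap ζ z = fderiv ℝ ζx z 1 + fderiv ℝ ζy z Complex.I := rfl
      rw [this, zxx0 z hzC, zyy0 z hzC]; ring
  rw [hfin]
  linarith

end Pool.Agent.DMB
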