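import Pool.Agent.DMB.Api

set_option autoImplicit false

namespace Pool.Agent.DMB

open MeasureTheory Set Metric Filter Topology
open scoped ENNReal

namespace MAX_

/-- one dimensional bump -/
noncomputable def χ (s : ℝ) : ℝ := Real.smoothTransition (1 - s)

lemma χ_nonneg (s : ℝ) : 0 ≤ χ s := Real.smoothTransition.nonneg _
lemma χ_le_one (s : ℝ) : χ s ≤ 1 := Real.smoothTransition.le_one _
lemma χ_zero {s : ℝ} (h : 1 ≤ s) : χ s = 0 := Real.smoothTransition.zero_of_nonpos (by linarith)
lemma χ_pos {s : ℝ} (h : s < 1) : 0 < χ s := Real.smoothTransition.pos_of_pos (by linarith)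

lemma χ_smooth : ContDiff ℝ (⊤ : ℕ∞) χ := by
  unfold χ
  exact Real.smoothTransition.contDiff.comp (contDiff_const.sub contDiff_id)

lemma χ_cont : Continuous χ := χ_smooth.continuous

lemma χ_deriv (s : ℝ) : HasDerivAt χ (deriv χ s) s :=
  ((χ_smooth.differentiable (by simp)) s).hasDerivAt

lemma χ'_cont : Continuous (deriv χ) := by
  exact χ_smooth.continuous_deriv (by simp)

lemma χ'_zero {s : ℝ} (h : 1 < s) : deriv χ s = 0 := by
  have : χ =ᶠ[𝓝 s] fun _ => 0 := by
    filter_upwards [Ioi_mem_nhds h] with x hx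
    exact χ_zero (le_of_lt hx)
  rw [this.deriv_eq]; simp

lemma χ'_bound : ∃ C : ℝ, 0 ≤ C ∧ ∀ s, 0 ≤ s → |s * deriv χ s| ≤ C := by
  obtain ⟨C, hC⟩ := (isCompact_Icc (a := (0:ℝ)) (b := 1)).exists_bound_of_continuousOn
    (f := fun s => s * deriv χ s) ((continuous_id.mul χ'_cont).continuousOn)
  refine ⟨max C 0, le_max_right _ _, ?_⟩
  intro s hs
  by_cases h : s ≤ 1
  · exact le_trans (hC s ⟨hs, h⟩) (le_max_left _ _)
  · rw [χ'_zero (not_le.1 h)]; simp

/-- primitive -/
noncomputable def Φ (s : ℝ) : ℝ := ∫ u in s..1, χ u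

lemma Φ_deriv (s : ℝ) : HasDerivAt Φ (-χ s) s := by
  unfold Φ
  exact intervalIntegral.integral_hasDerivAt_left (χ_cont.intervalIntegrable _ _)
    (χ_cont.stronglyMeasurableAtFilter _ _) χ_cont.continuousAt

lemma Φ_zero {s : ℝ} (h : 1 ≤ s) : Φ s = 0 := by
  unfold Φ
  rw [intervalIntegral.integral_symm, intervalIntegral.integral_congr (g := fun _ => (0:ℝ))]
  · simp
  · intro x hx
    rw [uIcc_of_le h] at hx
    exact χ_zero hx.1

lemma Φ_nonneg (s : ℝ) : 0 ≤ Φ s := by
  rcases le_total 1 s with h | h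
  · rw [Φ_zero h]
  · unfold Φ
    exact intervalIntegral.integral_nonneg h (fun x _ => χ_nonneg x)

lemma Φ_smooth : ContDiff ℝ (⊤ : ℕ∞) Φ := by
  rw [contDiff_infty_iff_deriv]
  have h : deriv Φ = fun s => -χ s := funext fun s => (Φ_deriv s).deriv
  refine ⟨fun s => (Φ_deriv s).differentiableAt, ?_⟩
  rw [h]
  exact χ_smooth.neg

/-- squared distance -/
noncomputable def q (a w : ℂ) : ℝ := (w.re - a.re) ^ 2 + (w.im - a.im) ^ 2

lemma q_eq (a w : ℂ) : q a w = ‖w - a‖ ^ 2 := by
  rw [← Complex.normSq_eq_norm_sq, Complex.normSq_apply]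
  unfold q
  simp only [Complex.sub_re, Complex.sub_im]; ring

lemma q_nonneg (a w : ℂ) : 0 ≤ q a w := by unfold q; positivity

lemma q_smooth (a : ℂ) : ContDiff ℝ (⊤ : ℕ∞) (q a) := by
  unfold q
  exact ((Complex.reCLM.contDiff.sub contDiff_const).pow 2).add
    ((Complex.imCLM.contDiff.sub contDiff_const).pow 2)

lemma q_deriv (a w : ℂ) : HasFDerivAt (q a)
    ((2 * (w.re - a.re)) • Complex.reCLM + (2 * (w.im - a.im)) • Complex.imCLM) w := by
  have h1 : HasFDerivAt (fun w : ℂ => w.re - a.re) Complex.reCLM w :=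
    (Complex.reCLM.hasFDerivAt).sub_const _
  have h2 : HasFDerivAt (fun w : ℂ => w.im - a.im) Complex.imCLM w :=
    (Complex.imCLM.hasFDerivAt).sub_const _
  have h3 := (h1.pow 2).add (h2.pow 2)
  refine h3.congr_fderiv ?_
  ext v
  simp

noncomputable def ζ (a : ℂ) (t : ℝ) (w : ℂ) : ℝ := (1 / (4 * t)) * Φ (q a w / t)

noncomputable def ψ (a : ℂ) (t : ℝ) (w : ℂ) : ℝ := t⁻¹ * χ (q a w / t)

noncomputable def ψ' (a : ℂ) (t : ℝ) (w : ℂ) : ℝ :=
  -(1 / t ^ 2) * (χ (q a w / t) + (q a w / t) * deriv χ (q a w / t))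

lemma ψ_deriv (a : ℂ) {t : ℝ} (ht : 0 < t) (w : ℂ) :
    HasDerivAt (fun t => ψ a t w) (ψ' a t w) t := by
  unfold ψ ψ'
  have h1 : HasDerivAt (fun t : ℝ => q a w / t) (-(q a w) / t ^ 2) t := by
    have := (hasDerivAt_inv ht.ne').const_mul (q a w)
    refine (this.congr_deriv ?_).congr_of_eventuallyEq ?_
    · ring
    · filter_upwards with x
      rw [div_eq_mul_inv]
  have h2 := (hasDerivAt_inv ht.ne').mul ((χ_deriv (q a w / t)).comp t h1)
  refine h2.congr_deriv ?_
  simp only [Function.comp_apply]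
  field_simp
  ring

lemma ζ_fderiv (a : ℂ) {t : ℝ} (ht : 0 < t) (w v : ℂ) :
    fderiv ℝ (ζ a t) w v = -(1 / (2 * t ^ 2)) * χ (q a w / t) *
      ((w.re - a.re) * v.re + (w.im - a.im) * v.im) := by
  have h1 : HasFDerivAt (fun w => q a w / t)
      (t⁻¹ • ((2 * (w.re - a.re)) • Complex.reCLM + (2 * (w.im - a.im)) • Complex.imCLM)) w := by
    have := (q_deriv a w).const_mul t⁻¹
    refine this.congr_of_eventuallyEq ?_
    filter_upwards with x
    rw [div_eq_inv_mul]
  have h2 := (Φ_deriv (q a w / t)).comp_hasFDerivAt w h1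
  have h3 : HasFDerivAt (ζ a t) _ w := h2.const_mul (1 / (4 * t))
  rw [h3.fderiv]
  simp
  field_simp
  ring

lemma ζ_lap (a : ℂ) {t : ℝ} (ht : 0 < t) (w : ℂ) : lap (ζ a t) w = ψ' a t w := by
  have hχ : HasFDerivAt (fun w => χ (q a w / t)) (deriv χ (q a w / t) •
      (t⁻¹ • ((2 * (w.re - a.re)) • Complex.reCLM + (2 * (w.im - a.im)) • Complex.imCLM))) w := by
    have h1 : HasFDerivAt (fun w => q a w / t)
        (t⁻¹ • ((2 * (w.re - a.re)) • Complex.reCLM + (2 * (w.im - a.im)) • Complex.imCLM)) w := by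
      have := (q_deriv a w).const_mul t⁻¹
      refine this.congr_of_eventuallyEq ?_
      filter_upwards with x
      rw [div_eq_inv_mul]
    have h := (χ_deriv (q a w / t)).comp_hasFDerivAt w h1
    exact h
  have hre : HasFDerivAt (fun w : ℂ => w.re - a.re) Complex.reCLM w :=
    (Complex.reCLM.hasFDerivAt).sub_const _
  have him : HasFDerivAt (fun w : ℂ => w.im - a.im) Complex.imCLM w :=
    (Complex.imCLM.hasFDerivAt).sub_const _
  have e1 : (fun w => fderiv ℝ (ζ a t) w 1) =
      fun w => -(1 / (2 * t ^ 2)) * (χ (q a w / t) * (w.re - a.re)) := by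
    funext w
    rw [ζ_fderiv a ht]; simp; ring
  have e2 : (fun w => fderiv ℝ (ζ a t) w Complex.I) =
      fun w => -(1 / (2 * t ^ 2)) * (χ (q a w / t) * (w.im - a.im)) := by
    funext w
    rw [ζ_fderiv a ht]; simp; ring
  unfold lap
  rw [e1, e2]
  have h1 := (hχ.mul hre).const_mul (-(1 / (2 * t ^ 2)))
  have h2 := (hχ.mul him).const_mul (-(1 / (2 * t ^ 2)))
  have h1' : HasFDerivAt (fun w => -(1 / (2 * t ^ 2)) * (χ (q a w / t) * (w.re - a.re))) _ w := h1
  have h2' : HasFDerivAt (fun w => -(1 / (2 * t ^ 2)) * (χ (q a w / t) * (w.im - a.im))) _ w := h2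
  rw [h1'.fderiv, h2'.fderiv]
  unfold ψ'
  simp
  unfold q
  field_simp
  ring

lemma ψ'_zero (a : ℂ) {t : ℝ} (ht : 0 < t) {w : ℂ} (h : t < q a w) : ψ' a t w = 0 := by
  have h1 : 1 < q a w / t := by rw [lt_div_iff₀ ht]; linarith
  unfold ψ'
  rw [χ_zero h1.le, χ'_zero h1]; simp

lemma ψ_zero (a : ℂ) {t : ℝ} (ht : 0 < t) {w : ℂ} (h : t ≤ q a w) : ψ a t w = 0 := by
  have h1 : 1 ≤ q a w / t := by rw [le_div_iff₀ ht]; linarith
  unfold ψ
  rw [χ_zero h1]; simp

lemma ψ_nonneg (a : ℂ) {t : ℝ} (ht : 0 < t) (w : ℂ) : 0 ≤ ψ a t w := by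
  unfold ψ
  exact mul_nonneg (inv_nonneg.2 ht.le) (χ_nonneg _)

lemma ψ_cont (a : ℂ) (t : ℝ) : Continuous (ψ a t) := by
  unfold ψ
  exact continuous_const.mul (χ_cont.comp ((q_smooth a).continuous.div_const _))

lemma ψ'_cont (a : ℂ) (t : ℝ) : Continuous (ψ' a t) := by
  unfold ψ'
  have h : Continuous (fun w => q a w / t) := (q_smooth a).continuous.div_const _
  exact continuous_const.mul ((χ_cont.comp h).add (h.mul (χ'_cont.comp h)))

lemma ζ_TF (a : ℂ) {t : ℝ} (ht : 0 < t) (D : Set ℂ) (hD : closedBall a (Real.sqrt t) ⊆ D) :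
    TF D (ζ a t) := by
  have hts : tsupport (ζ a t) ⊆ closedBall a (Real.sqrt t) := by
    apply closure_minimal _ isClosed_closedBall
    intro w hw
    rw [Function.mem_support] at hw
    rw [mem_closedBall, dist_eq_norm]
    by_contra h
    push Not at h
    apply hw
    unfold ζ
    rw [Φ_zero, mul_zero]
    rw [le_div_iff₀ ht, one_mul, q_eq]
    have h1 := Real.sqrt_nonneg t
    calc t = Real.sqrt t ^ 2 := (Real.sq_sqrt ht.le).symm
      _ ≤ _ := pow_le_pow_left₀ h1 h.le 2
  refine ⟨?_, ?_, hts.trans hD⟩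
  · unfold ζ
    exact contDiff_const.mul (Φ_smooth.comp ((q_smooth a).div_const _))
  · exact (isCompact_closedBall a (Real.sqrt t)).of_isClosed_subset (isClosed_tsupport _) hts

lemma ζ_nonneg (a : ℂ) {t : ℝ} (ht : 0 < t) (w : ℂ) : 0 ≤ ζ a t w := by
  unfold ζ
  exact mul_nonneg (by positivity) (Φ_nonneg _)

/-- total mass -/
noncomputable def Cχ : ℝ := ∫ u : ℂ, χ (‖u‖ ^ 2)

lemma mass (a : ℂ) {t r : ℝ} (ht : 0 < t) (hr : Real.sqrt t ≤ r) :
    ∫ w in closedBall a r, ψ a t w = Cχ := by
  rw [setIntegral_eq_integral_of_forall_compl_eq_zero]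
  · have h1 : ∀ w, ψ a t w = (fun x => ψ 0 t x) (w - a) := by
      intro w
      simp only [ψ, q]
      simp
    rw [integral_congr_ae (Eventually.of_forall h1), integral_sub_right_eq_self (fun x => ψ 0 t x)]
    have hs : 0 < Real.sqrt t := Real.sqrt_pos.2 ht
    have h2 : ∀ w, ψ 0 t w = t⁻¹ * (fun u : ℂ => χ (‖u‖ ^ 2)) ((Real.sqrt t)⁻¹ • w) := by
      intro w
      simp only [ψ]
      rw [q_eq, sub_zero, norm_smul, mul_pow, Real.norm_eq_abs, abs_of_pos (inv_pos.2 hs), inv_pow,
        Real.sq_sqrt ht.le]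
      congr 2
      field_simp
    rw [integral_congr_ae (Eventually.of_forall h2), integral_const_mul]
    have h4 := Measure.integral_comp_smul (volume : Measure ℂ) (fun u : ℂ => χ (‖u‖ ^ 2))
      (Real.sqrt t)⁻¹
    rw [h4, Complex.finrank_real_complex]
    unfold Cχ
    have h3 : (((Real.sqrt t)⁻¹ ^ 2)⁻¹ : ℝ) = t := by
      rw [inv_pow, inv_inv, Real.sq_sqrt ht.le]
    rw [h3, abs_of_pos ht, smul_eq_mul, ← mul_assoc, inv_mul_cancel₀ ht.ne', one_mul]
  · intro w hw
    apply ψ_zero a ht
    rw [mem_closedBall, dist_eq_norm, not_le] at hw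
    rw [q_eq]
    have h1 := Real.sqrt_nonneg t
    calc t = Real.sqrt t ^ 2 := (Real.sq_sqrt ht.le).symm
      _ ≤ _ := pow_le_pow_left₀ h1 (hr.trans hw.le) 2

/-- monotonicity of the averages -/
lemma mono (a : ℂ) (D : Set ℂ) (g : ℂ → ℝ) {r : ℝ} (hr : 0 < r)
    (hD : closedBall a r ⊆ D) (hg : ContinuousOn g (closedBall a r)) (hW : WSub D g) :
    MonotoneOn (fun t => ∫ w in closedBall a r, g w * ψ a t w) (Ioo 0 (r ^ 2)) := by
  have hcomp : IsCompact (closedBall a r) := isCompact_closedBall a r
  obtain ⟨Mg, hMg⟩ := hcomp.exists_bound_of_continuousOn hg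
  obtain ⟨Cb, hCb0, hCb⟩ := χ'_bound
  have hmeas : MeasurableSet (closedBall a r) := measurableSet_closedBall
  have hgm : AEStronglyMeasurable g (volume.restrict (closedBall a r)) :=
    hg.aestronglyMeasurable hmeas
  have hfin : volume (closedBall a r) < ⊤ := hcomp.measure_lt_top
  have hderiv : ∀ t ∈ Ioo 0 (r ^ 2), HasDerivAt
      (fun t => ∫ w in closedBall a r, g w * ψ a t w)
      (∫ w in closedBall a r, g w * ψ' a t w) t := by
    intro t ht
    have hMg0 : 0 ≤ Mg := le_trans (norm_nonneg _) (hMg a (mem_closedBall_self hr.le))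
    have := hasDerivAt_integral_of_dominated_loc_of_deriv_le
      (μ := volume.restrict (closedBall a r)) (F := fun t w => g w * ψ a t w)
      (F' := fun t w => g w * ψ' a t w) (x₀ := t) (s := Ioi (t / 2))
      (bound := fun _ => Mg * ((1 / (t / 2) ^ 2) * (1 + Cb)))
      (Ioi_mem_nhds (by linarith [ht.1]))
      (by
        filter_upwards with x
        exact hgm.mul (ψ_cont a x).aestronglyMeasurable)
      (by
        refine (ContinuousOn.integrableOn_compact hcomp ?_)
        exact hg.mul (ψ_cont a t).continuousOn)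
      (hgm.mul (ψ'_cont a t).aestronglyMeasurable)
      (by
        rw [ae_restrict_iff' hmeas]
        filter_upwards with w hw x hx
        have hx0 : t / 2 < x := hx
        have ht0 := ht.1
        have hxpos : 0 < x := by linarith
        rw [norm_mul]
        apply mul_le_mul (hMg w hw) _ (norm_nonneg _) hMg0
        unfold ψ'
        rw [norm_mul, norm_neg, Real.norm_of_nonneg (by positivity)]
        apply mul_le_mul
        · apply one_div_le_one_div_of_le (by positivity)
          exact pow_le_pow_left₀ (by positivity) hx0.le 2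
        · calc ‖χ (q a w / x) + q a w / x * deriv χ (q a w / x)‖ ≤
              ‖χ (q a w / x)‖ + ‖q a w / x * deriv χ (q a w / x)‖ := norm_add_le _ _
            _ ≤ _ := by
              apply add_le_add
              · rw [Real.norm_of_nonneg (χ_nonneg _)]; exact χ_le_one _
              · exact hCb _ (div_nonneg (q_nonneg _ _) hxpos.le)
        · exact norm_nonneg _
        · positivity)
      (by
        exact integrableOn_const (hs := hfin.ne))
      (by
        filter_upwards with w x hx
        have hx0 : t / 2 < x := hx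
        have ht0 := ht.1
        exact (ψ_deriv a (by linarith) w).const_mul (g w))
    exact this.2
  have hnn : ∀ t ∈ Ioo 0 (r ^ 2), 0 ≤ ∫ w in closedBall a r, g w * ψ' a t w := by
    intro t ht
    have hst : Real.sqrt t ≤ r := by
      rw [Real.sqrt_le_left hr.le]; exact ht.2.le
    have h1 := hW (ζ a t) (ζ_TF a ht.1 D ((closedBall_subset_closedBall hst).trans hD))
      (ζ_nonneg a ht.1)
    rw [setIntegral_eq_integral_of_forall_compl_eq_zero]
    · refine le_trans h1 (le_of_eq ?_)
      apply integral_congr_ae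
      filter_upwards with w
      rw [ζ_lap a ht.1]
    · intro w hw
      rw [ψ'_zero a ht.1, mul_zero]
      rw [mem_closedBall, dist_eq_norm, not_le] at hw
      rw [q_eq]
      have h2 : r ^ 2 < ‖w - a‖ ^ 2 := pow_lt_pow_left₀ hw hr.le (by norm_num)
      linarith [ht.2]
  apply monotoneOn_of_deriv_nonneg (convex_Ioo _ _)
  · intro t ht
    exact (hderiv t ht).continuousAt.continuousWithinAt
  · intro t ht
    rw [interior_Ioo] at ht
    exact (hderiv t ht).differentiableAt.differentiableWithinAt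
  · intro t ht
    rw [interior_Ioo] at ht
    rw [(hderiv t ht).deriv]
    exact hnn t ht

end MAX_

open MAX_ in
theorem max_proof : Stmt_MAX := by
  intro D g M hDo hDb hgc hW hfr z hz
  by_contra hcon
  push Not at hcon
  have hKc : IsCompact (closure D) := hDb.isCompact_closure
  obtain ⟨z1, hz1, hmax⟩ := hKc.exists_isMaxOn ⟨z, subset_closure hz⟩ hgc
  set m := g z1 with hm
  have hmM : M < m := lt_of_lt_of_le hcon (hmax (subset_closure hz))
  have hle : ∀ w ∈ closure D, g w ≤ m := fun w hw => hmax hw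
  set K := {w ∈ closure D | g w = m} with hK
  have hKcl : IsCompact K := by
    have h1 : K = closure D ∩ g ⁻¹' {m} := by
      ext w; simp [hK]
    rw [h1]
    exact hKc.of_isClosed_subset (hgc.preimage_isClosed_of_isClosed isClosed_closure
      isClosed_singleton) inter_subset_left
  have hKD : K ⊆ D := by
    intro w hw
    by_contra h
    have h2 : w ∈ frontier D := by
      rw [frontier, hDo.interior_eq]
      exact ⟨hw.1, h⟩
    have := hfr w h2
    have h3 : g w = m := hw.2
    linarith
  obtain ⟨a, haK, hamax⟩ := hKcl.exists_isMaxOn ⟨z1, hz1, rfl⟩ (Complex.continuous_re.continuousOn)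
  have haD := hKD haK
  have hga : g a = m := haK.2
  obtain ⟨r, hr, hrD⟩ : ∃ r > 0, closedBall a r ⊆ D :=
    (nhds_basis_closedBall.mem_iff).1 (hDo.mem_nhds haD)
  have hgb : ContinuousOn g (closedBall a r) := hgc.mono (hrD.trans subset_closure)
  have hmono := mono a D g hr hrD hgb hW
  have hcomp : IsCompact (closedBall a r) := isCompact_closedBall a r
  have hint : ∀ t, IntegrableOn (fun w => g w * ψ a t w) (closedBall a r) := fun t =>
    ContinuousOn.integrableOn_compact hcomp (hgb.mul (ψ_cont a t).continuousOn)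
  have hintψ : ∀ t, IntegrableOn (fun w => m * ψ a t w) (closedBall a r) := fun t =>
    ContinuousOn.integrableOn_compact hcomp (continuousOn_const.mul (ψ_cont a t).continuousOn)
  have hdiff : ∀ t, 0 < t → Real.sqrt t ≤ r → ∫ w in closedBall a r, (m - g w) * ψ a t w =
      m * Cχ - ∫ w in closedBall a r, g w * ψ a t w := by
    intro t ht hst
    rw [← mass a ht hst, ← integral_const_mul, ← integral_sub (hintψ t) (hint t)]
    congr 1
    funext w; ring
  set t0 := (r / 2) ^ 2 with ht0
  have ht0pos : 0 < t0 := by positivity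
  have hst0 : Real.sqrt t0 = r / 2 := by rw [ht0]; exact Real.sqrt_sq (by linarith)
  have ht0r : t0 < r ^ 2 := by rw [ht0]; nlinarith
  have hpos : 0 < ∫ w in closedBall a r, (m - g w) * ψ a t0 w := by
    rw [setIntegral_pos_iff_support_of_nonneg_ae]
    · set O := {w : ℂ | a.re < w.re} ∩ ball a (r / 2) with hO
      have hOo : IsOpen O := (isOpen_lt continuous_const Complex.continuous_re).inter isOpen_ball
      have hOne : O.Nonempty := by
        refine ⟨a + ((r / 4 : ℝ) : ℂ), ?_, ?_⟩
        · simp; linarith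
        · rw [mem_ball, dist_eq_norm, add_sub_cancel_left, Complex.norm_real, Real.norm_of_nonneg
            (by positivity)]
          linarith
      refine lt_of_lt_of_le (hOo.measure_pos volume hOne) (measure_mono ?_)
      intro w hw
      have hwb : w ∈ ball a (r / 2) := hw.2
      have hwD : w ∈ closedBall a r := by
        rw [mem_ball] at hwb
        rw [mem_closedBall]; linarith
      refine ⟨?_, hwD⟩
      rw [Function.mem_support]
      apply ne_of_gt
      apply mul_pos
      · have h1 := hle w (subset_closure (hrD hwD))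
        rcases eq_or_lt_of_le h1 with h | h
        · exfalso
          have h2 : w ∈ K := ⟨subset_closure (hrD hwD), h⟩
          have h3 : w.re ≤ a.re := hamax h2
          have h4 : a.re < w.re := hw.1
          linarith
        · linarith
      · unfold ψ
        apply mul_pos (inv_pos.2 ht0pos)
        apply χ_pos
        rw [div_lt_one ht0pos, q_eq, ht0]
        rw [mem_ball, dist_eq_norm] at hwb
        exact pow_lt_pow_left₀ hwb (norm_nonneg _) (by norm_num)
    · have : ∀ w ∈ closedBall a r, 0 ≤ (m - g w) * ψ a t0 w := by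
        intro w hw
        apply mul_nonneg _ (ψ_nonneg a ht0pos w)
        have := hle w (subset_closure (hrD hw))
        linarith
      rw [Filter.EventuallyLE, ae_restrict_iff' measurableSet_closedBall]
      filter_upwards with w hw
      exact this w hw
    · exact ContinuousOn.integrableOn_compact hcomp
        ((continuousOn_const.sub hgb).mul (ψ_cont a t0).continuousOn)
  set I0 := ∫ w in closedBall a r, (m - g w) * ψ a t0 w with hI0
  have hC0 : 0 ≤ Cχ := by
    unfold Cχ
    exact integral_nonneg (fun u => χ_nonneg _)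
  -- continuity at `a`
  obtain ⟨η, hη, hηI⟩ : ∃ η > 0, η * (Cχ + 1) ≤ I0 / 2 := by
    refine ⟨I0 / 2 / (Cχ + 1), by positivity, ?_⟩
    apply le_of_eq; field_simp
  have hcont : ContinuousAt g a := hgb.continuousAt (closedBall_mem_nhds a hr)
  obtain ⟨ρ, hρ, hρb⟩ := Metric.continuousAt_iff.1 hcont η hη
  set s := (min ρ r / 2) ^ 2 with hs
  have hmin : 0 < min ρ r := lt_min hρ hr
  have hspos : 0 < s := by positivity
  have hss : Real.sqrt s = min ρ r / 2 := by rw [hs]; exact Real.sqrt_sq (by linarith)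
  have hsr : Real.sqrt s ≤ r := by
    rw [hss]
    have := min_le_right ρ r
    linarith
  have hst : s ≤ t0 := by
    rw [hs, ht0]
    apply pow_le_pow_left₀ (by linarith)
    have := min_le_right ρ r
    linarith
  have h1 := hmono ⟨hspos, lt_of_le_of_lt hst ht0r⟩ ⟨ht0pos, ht0r⟩ hst
  have h2 := hdiff s hspos hsr
  have h3 := hdiff t0 ht0pos (by rw [hst0]; linarith)
  have h4 : ∫ w in closedBall a r, (m - g w) * ψ a s w ≤ η * Cχ := by
    rw [← mass a hspos hsr, ← integral_const_mul]
    apply setIntegral_mono_on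
    · exact ContinuousOn.integrableOn_compact hcomp
        ((continuousOn_const.sub hgb).mul (ψ_cont a s).continuousOn)
    · exact ContinuousOn.integrableOn_compact hcomp
        (continuousOn_const.mul (ψ_cont a s).continuousOn)
    · exact measurableSet_closedBall
    · intro w hw
      by_cases hws : s ≤ q a w
      · rw [ψ_zero a hspos hws]; simp
      · apply mul_le_mul_of_nonneg_right _ (ψ_nonneg a hspos w)
        push Not at hws
        have h5 : dist w a < ρ := by
          rw [dist_eq_norm]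
          rw [q_eq] at hws
          have h6 : ‖w - a‖ < Real.sqrt s := Real.lt_sqrt_of_sq_lt hws
          rw [hss] at h6
          have := min_le_left ρ r
          linarith
        have h6 := hρb h5
        rw [hga, Real.dist_eq] at h6
        have := (abs_lt.1 h6).1
        linarith
  simp only at h1
  have h5 : I0 ≤ η * Cχ := by
    rw [← hI0] at h3
    linarith
  nlinarith

end Pool.Agent.DMB
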