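import Pool.Agent.DMB.Api

/-!
Squad DMB, module MET: the metric on unordered tuples.
-/

set_option autoImplicit false

namespace Pool.Agent.DMB

open MeasureTheory Set Metric Filter Topology
open scoped ENNReal

namespace MET_

variable {K n : ℕ}

theorem sqd_nonneg (a b : Tup K n) : 0 ≤ sqd a b :=
  Finset.sum_nonneg fun _ _ => by positivity

theorem sqd_comm (a b : Tup K n) : sqd a b = sqd b a := by
  unfold sqd
  refine Finset.sum_congr rfl fun i _ => ?_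
  rw [norm_sub_rev]

theorem sqd_comp (a b : Tup K n) (σ : Equiv.Perm (Fin K)) : sqd (a ∘ σ) (b ∘ σ) = sqd a b :=
  Equiv.sum_comp σ (fun i => ‖a i - b i‖ ^ 2)

theorem sqrt_sqd (a b : Tup K n) :
    Real.sqrt (sqd a b) = ‖(WithLp.toLp 2 a : PiLp 2 (fun _ : Fin K => E n)) - WithLp.toLp 2 b‖ := by
  rw [PiLp.norm_eq_of_L2]
  rfl

theorem sqrt_tri (a b c : Tup K n) :
    Real.sqrt (sqd a c) ≤ Real.sqrt (sqd a b) + Real.sqrt (sqd b c) := by
  rw [sqrt_sqd, sqrt_sqd, sqrt_sqd]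
  exact norm_sub_le_norm_sub_add_norm_sub _ _ _

theorem exists_min (a b : Tup K n) :
    ∃ σ : Equiv.Perm (Fin K), dG a b = Real.sqrt (sqd a (b ∘ σ)) := by
  obtain ⟨σ, hσ⟩ := exists_eq_ciInf_of_finite
    (f := fun σ : Equiv.Perm (Fin K) => Real.sqrt (sqd a (b ∘ σ)))
  exact ⟨σ, hσ.symm⟩

theorem dG_le (a b : Tup K n) (σ : Equiv.Perm (Fin K)) : dG a b ≤ Real.sqrt (sqd a (b ∘ σ)) :=
  ciInf_le (Set.finite_range (fun σ : Equiv.Perm (Fin K) => Real.sqrt (sqd a (b ∘ σ)))).bddBelow σ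

theorem dG_nonneg (a b : Tup K n) : 0 ≤ dG a b := by
  obtain ⟨σ, h⟩ := exists_min a b
  rw [h]
  exact Real.sqrt_nonneg _

theorem dG_comm_le (a b : Tup K n) : dG a b ≤ dG b a := by
  obtain ⟨σ, h⟩ := exists_min b a
  rw [h]
  refine (dG_le a b σ⁻¹).trans (le_of_eq ?_)
  rw [sqd_comm, ← sqd_comp _ _ σ]
  have e : (b ∘ ⇑(σ⁻¹ : Equiv.Perm (Fin K))) ∘ ⇑σ = b := by
    funext i
    simp
  rw [e]

theorem dG_comm (a b : Tup K n) : dG a b = dG b a := le_antisymm (dG_comm_le a b) (dG_comm_le b a)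

theorem dG_tri (a b c : Tup K n) : dG a c ≤ dG a b + dG b c := by
  obtain ⟨σ, h1⟩ := exists_min a b
  obtain ⟨τ, h2⟩ := exists_min b c
  rw [h1, h2]
  refine (dG_le a c (τ * σ)).trans ?_
  refine (sqrt_tri a (b ∘ σ) (c ∘ ⇑(τ * σ))).trans (le_of_eq ?_)
  have e : c ∘ ⇑(τ * σ) = (c ∘ τ) ∘ σ := rfl
  rw [e, sqd_comp]

theorem dG_eq_zero (a b : Tup K n) : dG a b = 0 ↔ Same a b := by
  constructor
  · intro h
    obtain ⟨σ, h1⟩ := exists_min a b
    rw [h] at h1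
    refine ⟨σ, ?_⟩
    have h2 : sqd a (b ∘ σ) = 0 := by
      have := (Real.sqrt_eq_zero (sqd_nonneg a (b ∘ σ))).1 h1.symm
      exact this
    funext i
    have h3 := (Finset.sum_eq_zero_iff_of_nonneg (fun i _ => by positivity)).1 h2 i
      (Finset.mem_univ i)
    have h4 : ‖a i - (b ∘ σ) i‖ = 0 := by
      simpa using h3
    exact sub_eq_zero.1 (norm_eq_zero.1 h4)
  · rintro ⟨σ, h⟩
    refine le_antisymm ((dG_le a b σ).trans (le_of_eq ?_)) (dG_nonneg a b)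
    rw [← h]
    simp [sqd]

theorem dG_congr_le {a a' b b' : Tup K n} (h1 : Same a a') (h2 : Same b b') :
    dG a b ≤ dG a' b' := by
  have e1 := (dG_eq_zero a a').2 h1
  have e2 := (dG_eq_zero b b').2 h2
  have t1 := dG_tri a a' b
  have t2 := dG_tri a' b' b
  rw [dG_comm b' b] at t2
  linarith

theorem Same_symm {a b : Tup K n} (h : Same a b) : Same b a := by
  rw [← dG_eq_zero, dG_comm, dG_eq_zero]
  exact h

end MET_

open MET_ in
theorem met_proof : Stmt_MET := by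
  intro K n a b c
  refine ⟨dG_nonneg a b, dG_comm a b, dG_tri a b c, dG_eq_zero a b, exists_min a b, dG_le a b, ?_⟩
  intro a' b' h1 h2
  exact le_antisymm (dG_congr_le h1 h2) (dG_congr_le (Same_symm h1) (Same_symm h2))

end Pool.Agent.DMB
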