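import Pool.Agent.DMB.Api

/-!
DMB, module MEV: first variation with equal shifts of all sheets.
-/

namespace Pool.Agent.DMB

open MeasureTheory Set Metric Filter Topology
open scoped ENNReal

namespace MEV_

variable {K n : ℕ}

theorem grad_sum (hGAL : Stmt_GAL) {U : Set ℂ} (hU : IsOpen U) {ι : Type} (t : Finset ι)
    (f fx fy : ι → ℂ → ℝ) (h : ∀ i ∈ t, HasGrad U (f i) (fx i) (fy i)) :
    HasGrad U (fun z => ∑ i ∈ t, f i z) (fun z => ∑ i ∈ t, fx i z)
      (fun z => ∑ i ∈ t, fy i z) := by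
  classical
  induction t using Finset.induction_on with
  | empty => simpa using (hGAL U hU).2.1 0
  | insert i t hi ih =>
    simp only [Finset.sum_insert hi]
    exact (hGAL U hU).2.2.1 _ _ _ _ _ _ (h i (Finset.mem_insert_self _ _))
      (ih fun j hj => h j (Finset.mem_insert_of_mem hj))

theorem dt_meas {U : Set ℂ} {X W : ℂ → Mat K n}
    (hX : ∀ i l, AEStronglyMeasurable (fun z => X z i l) (volume.restrict U))
    (hW : ∀ i l, AEStronglyMeasurable (fun z => W z i l) (volume.restrict U)) :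
    AEStronglyMeasurable (fun z => dt (X z) (W z)) (volume.restrict U) := by
  unfold dt
  exact Finset.aestronglyMeasurable_fun_sum _ fun i _ =>
    Finset.aestronglyMeasurable_fun_sum _ fun l _ => (hX i l).mul (hW i l)

theorem ed_meas {U : Set ℂ} {X Y : ℂ → Mat K n}
    (hX : ∀ i l, AEStronglyMeasurable (fun z => X z i l) (volume.restrict U))
    (hY : ∀ i l, AEStronglyMeasurable (fun z => Y z i l) (volume.restrict U)) :
    AEStronglyMeasurable (ed X Y) (volume.restrict U) := by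
  have h := (dt_meas hX hX).add (dt_meas hY hY)
  refine h.congr (Filter.Eventually.of_forall fun z => ?_)
  simp only [Pi.add_apply, ed, nsq_eq_dt]

theorem ed_nonneg (X Y : ℂ → Mat K n) (z : ℂ) : 0 ≤ ed X Y z :=
  add_nonneg (nsq_nonneg _) (nsq_nonneg _)

theorem ed_int (hEND : Stmt_END) {H : Set ℂ} (hH : IsOpen H) {u : ℂ → Tup K n}
    {X Y : ℂ → Mat K n} (hfin : en H u < ⊤) (hg : HasGradV H (fun z => xi (u z)) X Y) :
    IntegrableOn (ed X Y) H := by
  refine ⟨ed_meas (fun i l => (hg i l).mx) (fun i l => (hg i l).my), ?_⟩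
  rw [hasFiniteIntegral_iff_ofReal (Filter.Eventually.of_forall fun z => ed_nonneg X Y z)]
  have h := (hEND K n H u hH).1 X Y hg
  rw [← h]
  exact hfin

theorem first_var (hGAL : Stmt_GAL) (hEND : Stmt_END) {H : Set ℂ} (hH : IsOpen H)
    {u : ℂ → Tup K n} (hu : IntMin H u) {X Y : ℂ → Mat K n}
    (hg : HasGradV H (fun z => xi (u z)) X Y) {w Wx Wy : ℂ → Mat K n}
    (hw : HasGradV H w Wx Wy) (hWi : IntegrableOn (ed Wx Wy) H) {ε₀ : ℝ} (hε₀ : 0 < ε₀)
    (hv : ∀ ε : ℝ, |ε| < ε₀ → ∃ v : ℂ → Tup K n, ContG H v ∧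
      (∃ C ⊆ H, IsCompact C ∧ ∀ z ∈ H \ C, Same (v z) (u z)) ∧
      ∀ z ∈ H, xi (v z) = xi (u z) + ε • w z) :
    ∫ z in H, (dt (X z) (Wx z) + dt (Y z) (Wy z)) = 0 := by
  have hXi : IntegrableOn (ed X Y) H := ed_int hEND hH hu.2.1 hg
  have hci : IntegrableOn (fun z => dt (X z) (Wx z) + dt (Y z) (Wy z)) H := by
    refine Integrable.mono' (hXi.add hWi) ?_ ?_
    · exact (dt_meas (fun i l => (hg i l).mx) (fun i l => (hw i l).mx)).add
        (dt_meas (fun i l => (hg i l).my) (fun i l => (hw i l).my))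
    · refine Filter.Eventually.of_forall fun z => ?_
      rw [Real.norm_eq_abs]
      have h1 := two_abs_dt_le (X z) (Wx z)
      have h2 := two_abs_dt_le (Y z) (Wy z)
      have h3 := abs_add_le (dt (X z) (Wx z)) (dt (Y z) (Wy z))
      have h4 := nsq_nonneg (X z)
      have h5 := nsq_nonneg (Wx z)
      have h6 := nsq_nonneg (Y z)
      have h7 := nsq_nonneg (Wy z)
      simp only [Pi.add_apply, ed]
      linarith
  set A := ∫ z in H, (dt (X z) (Wx z) + dt (Y z) (Wy z)) with hA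
  set B := ∫ z in H, ed Wx Wy z with hB
  have hB0 : 0 ≤ B := integral_nonneg fun z => ed_nonneg _ _ z
  have key : ∀ ε : ℝ, |ε| < ε₀ → 0 ≤ 2 * ε * A + ε ^ 2 * B := by
    intro ε hε
    obtain ⟨v, hvc, hvs, hvx⟩ := hv ε hε
    have hle := hu.2.2 v hvc hvs
    have hgv : HasGradV H (fun z => xi (v z)) (fun z => X z + ε • Wx z)
        (fun z => Y z + ε • Wy z) := by
      intro i l
      have h1 := (hGAL H hH).2.2.1 _ _ _ _ _ _ (hg i l)
        ((hGAL H hH).2.2.2.1 ε _ _ _ (hw i l))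
      refine (hGAL H hH).2.2.2.2 _ _ _ _ _ _ h1 ?_ (Filter.Eventually.of_forall fun z => ?_)
        (Filter.Eventually.of_forall fun z => ?_)
      · intro z hz
        show xi (v z) i l = xi (u z) i l + ε * w z i l
        rw [hvx z hz]
        simp
      · simp
      · simp
    have hed : ∀ z, ed (fun z => X z + ε • Wx z) (fun z => Y z + ε • Wy z) z =
        ed X Y z + 2 * ε * (dt (X z) (Wx z) + dt (Y z) (Wy z)) + ε ^ 2 * ed Wx Wy z := by
      intro z
      simp only [ed, nsq_add, dt_smul_right, nsq_smul]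
      ring
    have hvi : IntegrableOn (ed (fun z => X z + ε • Wx z) (fun z => Y z + ε • Wy z)) H := by
      have h1 : IntegrableOn (fun z => ed X Y z +
          2 * ε * (dt (X z) (Wx z) + dt (Y z) (Wy z)) + ε ^ 2 * ed Wx Wy z) H :=
        (hXi.add (hci.const_mul (2 * ε))).add (hWi.const_mul (ε ^ 2))
      refine h1.congr (Filter.Eventually.of_forall fun z => ?_)
      exact (hed z).symm
    have e1 : en H u = ENNReal.ofReal (∫ z in H, ed X Y z) := by
      rw [(hEND K n H u hH).1 X Y hg, ofReal_integral_eq_lintegral_ofReal hXi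
        (Filter.Eventually.of_forall fun z => ed_nonneg _ _ z)]
    have e2 : en H v = ENNReal.ofReal
        (∫ z in H, ed (fun z => X z + ε • Wx z) (fun z => Y z + ε • Wy z) z) := by
      rw [(hEND K n H v hH).1 _ _ hgv, ofReal_integral_eq_lintegral_ofReal hvi
        (Filter.Eventually.of_forall fun z => ed_nonneg _ _ z)]
    rw [e1, e2, ENNReal.ofReal_le_ofReal_iff (integral_nonneg fun z => ed_nonneg _ _ z)] at hle
    have e3 : ∫ z in H, ed (fun z => X z + ε • Wx z) (fun z => Y z + ε • Wy z) z =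
        (∫ z in H, ed X Y z) + 2 * ε * A + ε ^ 2 * B := by
      simp only [hed]
      have i1 : IntegrableOn (fun z => 2 * ε * (dt (X z) (Wx z) + dt (Y z) (Wy z))) H :=
        hci.const_mul (2 * ε)
      have i2 : IntegrableOn (fun z => ed X Y z +
          2 * ε * (dt (X z) (Wx z) + dt (Y z) (Wy z))) H := hXi.add i1
      have i3 : IntegrableOn (fun z => ε ^ 2 * ed Wx Wy z) H := hWi.const_mul (ε ^ 2)
      rw [integral_add i2 i3, integral_add hXi i1, integral_const_mul, integral_const_mul]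
    rw [e3] at hle
    linarith
  by_contra hne
  have hA2 : 0 < A ^ 2 := by positivity
  set τ : ℝ := min (ε₀ / (2 * (|A| + 1))) (1 / (B + 1)) with hτ
  have hτ0 : 0 < τ := lt_min (by positivity) (by positivity)
  have hτ1 : |A| * τ < ε₀ := by
    have h1 : τ ≤ ε₀ / (2 * (|A| + 1)) := min_le_left _ _
    rw [le_div_iff₀ (by positivity)] at h1
    nlinarith [abs_nonneg A]
  have hτ2 : τ * B < 2 := by
    have h1 : τ ≤ 1 / (B + 1) := min_le_right _ _
    rw [le_div_iff₀ (by positivity)] at h1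
    nlinarith
  have h := key (-(A * τ)) (by rw [abs_neg, abs_mul, abs_of_pos hτ0]; exact hτ1)
  have e : 2 * -(A * τ) * A + (-(A * τ)) ^ 2 * B = A ^ 2 * τ * (τ * B - 2) := by ring
  rw [e] at h
  have h9 : A ^ 2 * τ * (τ * B - 2) < 0 :=
    mul_neg_of_pos_of_neg (by positivity) (by linarith)
  linarith

theorem contG_of (hMET : Stmt_MET) {A : Set ℂ} {u v : ℂ → Tup K n} (hu : ContG A u)
    (h : ∀ z ∈ A, ∃ C : ℝ, ∃ g : ℂ → ℝ, Tendsto g (𝓝[A] z) (𝓝 0) ∧ ∀ w ∈ A,
      ∀ σ : Equiv.Perm (Fin K), (∀ i, ‖u w i - u z (σ i)‖ ≤ dG (u w) (u z)) →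
        ∀ i, ‖v w i - v z (σ i)‖ ≤ C * dG (u w) (u z) + g w) : ContG A v := by
  intro z hz
  obtain ⟨C, g, hg, hb⟩ := h z hz
  have h1 : Tendsto (fun w => (K : ℝ) * (C * dG (u w) (u z) + g w)) (𝓝[A] z) (𝓝 0) := by
    have := (((hu z hz).const_mul C).add hg).const_mul (K : ℝ)
    simpa using this
  refine squeeze_zero' (Filter.Eventually.of_forall fun w => (hMET K n (v w) (v z) (v z)).1) ?_ h1
  filter_upwards [self_mem_nhdsWithin] with w hw
  obtain ⟨σ, hσ⟩ := (hMET K n (u w) (u z) (u z)).2.2.2.2.1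
  have h2 : ∀ i, ‖u w i - u z (σ i)‖ ≤ dG (u w) (u z) := by
    intro i
    rw [hσ]
    apply Real.le_sqrt_of_sq_le
    exact Finset.single_le_sum (f := fun i => ‖u w i - (u z ∘ σ) i‖ ^ 2)
      (fun j _ => sq_nonneg _) (Finset.mem_univ i)
  have h3 := hb w hw σ h2
  have h4 := (hMET K n (v w) (v z) (v z)).2.2.2.2.2.1 σ
  refine h4.trans ?_
  have h5 : Real.sqrt (sqd (v w) (v z ∘ σ)) ≤ ∑ i, ‖v w i - v z (σ i)‖ := by
    apply Real.sqrt_le_iff.2
    refine ⟨Finset.sum_nonneg fun _ _ => norm_nonneg _, ?_⟩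
    exact Finset.sum_sq_le_sq_sum_of_nonneg fun _ _ => norm_nonneg _
  refine h5.trans ?_
  calc ∑ i, ‖v w i - v z (σ i)‖ ≤ ∑ _i : Fin K, (C * dG (u w) (u z) + g w) :=
        Finset.sum_le_sum fun i _ => h3 i
    _ = (K : ℝ) * (C * dG (u w) (u z) + g w) := by
        rw [Finset.sum_const, Finset.card_univ, Fintype.card_fin, nsmul_eq_mul]

end MEV_

open MEV_ in
theorem mev_proof (hMET : Stmt_MET) (_hXIL : Stmt_XIL) (hAFF : Stmt_AFF) (hGAL : Stmt_GAL)
    (_hGMU : Stmt_GMU) (hGC1 : Stmt_GC1) (_hGUN : Stmt_GUN) (hEND : Stmt_END) : Stmt_MEV := by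
  intro K n H u X Y ζ l hK hH hu hg hζ
  obtain ⟨hζ1, hζ2, hζ3⟩ := hζ
  set w : ℂ → Mat K n := fun z _ l' => if l' = l then ζ z else 0 with hw
  set Wx : ℂ → Mat K n := fun z _ l' => if l' = l then fderiv ℝ ζ z 1 else 0 with hWx
  set Wy : ℂ → Mat K n := fun z _ l' => if l' = l then fderiv ℝ ζ z Complex.I else 0 with hWy
  have hdt : ∀ (M : Mat K n) (c : ℝ), dt M (fun _ l' => if l' = l then c else 0) =
      K * (mn M l * c) := by
    intro M c
    have hK' : (K : ℝ) ≠ 0 := by positivity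
    simp only [dt, mn, mul_ite, mul_zero, Finset.sum_ite_eq', Finset.mem_univ, if_true]
    rw [← Finset.sum_mul]
    field_simp
  have hζd : ContDiff ℝ 1 ζ := hζ1.of_le (by exact_mod_cast le_top)
  have hgrad : HasGradV H w Wx Wy := by
    intro i l'
    by_cases hl : l' = l
    · simp only [hw, hWx, hWy, if_pos hl]
      exact hGC1 H ζ hH hζd.contDiffOn
    · simp only [hw, hWx, hWy, if_neg hl]
      exact (hGAL H hH).2.1 0
  have hcd : Continuous (fderiv ℝ ζ) := hζd.continuous_fderiv one_ne_zero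
  have hcs : HasCompactSupport (fderiv ℝ ζ) := hζ2.fderiv ℝ
  have hnsq : ∀ c : ℝ, nsq (fun _ l' => if l' = l then c else 0 : Mat K n) = K * c ^ 2 := by
    intro c
    simp [nsq]
  have hWi : IntegrableOn (ed Wx Wy) H := by
    have h1 : Continuous fun z => (K : ℝ) * (fderiv ℝ ζ z 1) ^ 2 +
        K * (fderiv ℝ ζ z Complex.I) ^ 2 := by fun_prop
    have h2 : HasCompactSupport fun z => (K : ℝ) * (fderiv ℝ ζ z 1) ^ 2 +
        K * (fderiv ℝ ζ z Complex.I) ^ 2 := by
      refine hcs.mono' (Function.support_subset_iff'.2 fun z hz => ?_) |>.mono subset_rfl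
      have : fderiv ℝ ζ z = 0 := image_eq_zero_of_notMem_tsupport hz
      rw [this]
      simp
    have h3 := (h1.integrable_of_hasCompactSupport h2 (μ := volume)).integrableOn (s := H)
    refine h3.congr (Filter.Eventually.of_forall fun z => ?_)
    simp only [ed, hWx, hWy, hnsq]
  have h := first_var hGAL hEND hH hu hg hgrad hWi one_pos ?_
  · have h1 : ∀ z, dt (X z) (Wx z) + dt (Y z) (Wy z) =
        K * (mn (X z) l * fderiv ℝ ζ z 1 + mn (Y z) l * fderiv ℝ ζ z Complex.I) := by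
      intro z
      simp only [hWx, hWy, hdt]
      ring
    simp only [h1] at h
    rw [integral_const_mul] at h
    have hK' : (K : ℝ) ≠ 0 := by positivity
    exact (mul_eq_zero.1 h).resolve_left hK'
  · intro ε _
    refine ⟨fun z i => (1 : ℝ) • u z i + (ε * ζ z) • EuclideanSpace.single l (1 : ℝ), ?_, ?_, ?_⟩
    · refine contG_of hMET hu.1 fun z hz => ⟨1, fun w => |ε * ζ w - ε * ζ z|, ?_, ?_⟩
      · have h1 : Continuous fun w => |ε * ζ w - ε * ζ z| := by
          have := hζd.continuous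
          fun_prop
        have h2 := h1.tendsto z
        rw [sub_self, abs_zero] at h2
        exact h2.mono_left nhdsWithin_le_nhds
      · intro w hw σ hσ i
        have e : (1 : ℝ) • u w i + (ε * ζ w) • EuclideanSpace.single l (1 : ℝ) -
            ((1 : ℝ) • u z (σ i) + (ε * ζ z) • EuclideanSpace.single l (1 : ℝ)) =
            (u w i - u z (σ i)) + (ε * ζ w - ε * ζ z) • EuclideanSpace.single l (1 : ℝ) := by
          rw [sub_smul, one_smul, one_smul]
          abel
        rw [e]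
        refine (norm_add_le _ _).trans ?_
        rw [norm_smul, Real.norm_eq_abs]
        have h3 : ‖(EuclideanSpace.single l (1 : ℝ) : E n)‖ = 1 := by simp
        rw [h3, mul_one, one_mul]
        exact add_le_add (hσ i) le_rfl
    · refine ⟨tsupport ζ, hζ3, hζ2, fun z hz => ?_⟩
      have h0 : ζ z = 0 := image_eq_zero_of_notMem_tsupport hz.2
      refine ⟨Equiv.refl _, ?_⟩
      funext i
      simp [h0]
    · intro z hz
      rw [(hAFF K n (u z)).1 1 ((ε * ζ z) • EuclideanSpace.single l (1 : ℝ)) zero_le_one]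
      funext i l'
      by_cases hl : l' = l
      · simp [hw, hl]
      · simp [hw, hl]

end Pool.Agent.DMB
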