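import Pool.Agent.DMB.Api

/-!
DMB, module MOL: mollification in L2.
-/

set_option autoImplicit false

namespace Pool.Agent.DMB

open MeasureTheory Set Metric Filter Topology
open scoped ENNReal Convolution

namespace MOL_

lemma sq_eLpNorm (u : ℂ → ℝ) : eLpNorm u 2 volume ^ (2 : ℝ) = ∫⁻ z, ‖u z‖ₑ ^ (2 : ℝ) := by
  have := eLpNorm_nnreal_pow_eq_lintegral (f := u) (μ := (volume : Measure ℂ)) (p := 2)
    (by norm_num)
  simpa using this

/-- continuity of translations in L2 -/
lemma trans_small (g : ℂ → ℝ) (hg : MemLp g 2 volume) (ε : ℝ≥0∞) (hε : 0 < ε) :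
    ∃ δ > 0, ∀ t : ℂ, ‖t‖ < δ → ∫⁻ z, ‖g (z - t) - g z‖ₑ ^ (2 : ℝ) ≤ ε ^ (2 : ℝ) := by
  haveI : Fact ((1 : ℝ≥0∞) ≤ 2) := ⟨by norm_num⟩
  set f : Lp ℝ 2 (volume : Measure ℂ) := hg.toLp g with hf
  let τ : ℂ → C(ℂ, ℂ) := fun t => ⟨fun z => z - t, by fun_prop⟩
  have hτ : Continuous τ := ContinuousMap.continuous_of_continuous_uncurry _ (by
    show Continuous fun p : ℂ × ℂ => p.2 - p.1
    fun_prop)
  have hm : ∀ t, MeasurePreserving (τ t) volume volume := fun t =>
    measurePreserving_sub_right volume t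
  have hc : Continuous fun t => Lp.compMeasurePreserving (τ t) (hm t) f :=
    continuous_const.compMeasurePreservingLp hτ hm (by norm_num)
  have h0 := hc.tendsto 0
  rw [EMetric.tendsto_nhds] at h0
  obtain ⟨δ, hδ, hδ2⟩ := Metric.eventually_nhds_iff.1 (h0 ε hε)
  refine ⟨δ, hδ, fun t ht => ?_⟩
  have h1 := hδ2 (y := t) (by simpa using ht)
  have e1 : Lp.compMeasurePreserving (τ t) (hm t) f =
      (hg.comp_measurePreserving (hm t)).toLp (g ∘ τ t) := rfl
  have e2 : Lp.compMeasurePreserving (τ 0) (hm 0) f =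
      (hg.comp_measurePreserving (hm 0)).toLp (g ∘ τ 0) := rfl
  rw [e1, e2, Lp.edist_toLp_toLp] at h1
  have e3 : (g ∘ τ t - g ∘ τ 0) = fun z => g (z - t) - g z := by
    funext z
    simp [τ]
  rw [e3] at h1
  rw [← sq_eLpNorm]
  exact ENNReal.rpow_le_rpow h1.le (by norm_num)

lemma jensen (φ : ContDiffBump (0 : ℂ)) (u : ℂ → ℝ) (hu : AEStronglyMeasurable u volume) :
    ‖∫ t, φ.normed volume t * u t‖ₑ ^ (2 : ℝ) ≤
      ∫⁻ t, ENNReal.ofReal (φ.normed volume t) * ‖u t‖ₑ ^ (2 : ℝ) := by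
  set ρ : ℂ → ℝ := φ.normed volume with hρ
  have hρm : Measurable fun t => ENNReal.ofReal (ρ t) :=
    (φ.continuous_normed.measurable).ennreal_ofReal
  have hρn : ∀ t, 0 ≤ ρ t := fun t => φ.nonneg_normed t
  set ν : Measure ℂ := volume.withDensity fun t => ENNReal.ofReal (ρ t) with hν
  have hν1 : ν univ = 1 := by
    rw [hν, withDensity_apply _ MeasurableSet.univ, Measure.restrict_univ,
      ← ofReal_integral_eq_lintegral_ofReal φ.integrable_normed (Eventually.of_forall hρn),
      φ.integral_normed, ENNReal.ofReal_one]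
  haveI : IsProbabilityMeasure ν := ⟨hν1⟩
  have hac : ν ≪ volume := withDensity_absolutelyContinuous _ _
  have h1 : ‖∫ t, ρ t * u t‖ₑ ≤ ∫⁻ t, ‖u t‖ₑ ∂ν := by
    refine (enorm_integral_le_lintegral_enorm _).trans (le_of_eq ?_)
    rw [hν, lintegral_withDensity_eq_lintegral_mul₀ hρm.aemeasurable hu.enorm]
    refine lintegral_congr fun t => ?_
    simp only [Pi.mul_apply, enorm_mul]
    rw [Real.enorm_of_nonneg (hρn t)]
  have h2 : ∫⁻ t, ‖u t‖ₑ ∂ν ≤ eLpNorm u 2 ν := by
    rw [← eLpNorm_one_eq_lintegral_enorm]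
    exact eLpNorm_le_eLpNorm_of_exponent_le (by norm_num) (hu.mono_ac hac)
  have h3 : eLpNorm u 2 ν ^ (2 : ℝ) = ∫⁻ t, ENNReal.ofReal (ρ t) * ‖u t‖ₑ ^ (2 : ℝ) := by
    have := eLpNorm_nnreal_pow_eq_lintegral (f := u) (μ := ν) (p := 2) (by norm_num)
    have e : eLpNorm u 2 ν ^ (2 : ℝ) = ∫⁻ t, ‖u t‖ₑ ^ (2 : ℝ) ∂ν := by simpa using this
    rw [e, hν, lintegral_withDensity_eq_lintegral_mul₀ hρm.aemeasurable
      (hu.enorm.pow_const _)]
    rfl
  rw [← h3]
  exact ENNReal.rpow_le_rpow (h1.trans h2) (by norm_num)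

end MOL_

open MOL_ in
theorem mol_proof : Stmt_MOL := by
  intro g hg hg2 ε hε
  have hmem : MemLp g 2 volume := (memLp_two_iff_integrable_sq hg).2 hg2
  set η : ℝ≥0∞ := ENNReal.ofReal (Real.sqrt ε) with hη
  have hηpos : 0 < η := ENNReal.ofReal_pos.2 (Real.sqrt_pos.2 hε)
  have hη2 : η ^ (2 : ℝ) = ENNReal.ofReal ε := by
    rw [hη, ENNReal.ofReal_rpow_of_nonneg (Real.sqrt_nonneg _) (by norm_num)]
    congr 1
    rw [Real.rpow_two, Real.sq_sqrt hε.le]
  obtain ⟨δ, hδ, hδ2⟩ := trans_small g hmem η hηpos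
  rw [hη2] at hδ2
  refine ⟨δ, hδ, fun φ hφ => ?_⟩
  have hloc : LocallyIntegrable g volume := hmem.locallyIntegrable (by norm_num)
  set ρ : ℂ → ℝ := φ.normed volume with hρ
  have hρc : Continuous ρ := φ.continuous_normed
  have hρs : HasCompactSupport ρ := φ.hasCompactSupport_normed
  have hρn : ∀ t, 0 ≤ ρ t := fun t => φ.nonneg_normed t
  have hρi : Integrable ρ volume := φ.integrable_normed
  have hcont : Continuous (ρ ⋆[ContinuousLinearMap.lsmul ℝ ℝ, volume] g) :=
    hρs.continuous_convolution_left _ hρc hloc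
  have hex : ConvolutionExists ρ g (ContinuousLinearMap.lsmul ℝ ℝ) volume :=
    hρs.convolutionExists_left _ hρc hloc
  have hid : ∀ z, (ρ ⋆[ContinuousLinearMap.lsmul ℝ ℝ, volume] g) z - g z =
      ∫ t, ρ t * (g (z - t) - g z) := by
    intro z
    have i1 : Integrable (fun t => ρ t * g (z - t)) volume := by
      have := hex z
      simpa [ConvolutionExistsAt] using this
    have i2 : Integrable (fun t => ρ t * g z) volume := hρi.mul_const _
    have e : ∀ t, ρ t * (g (z - t) - g z) = ρ t * g (z - t) - ρ t * g z := fun t => by ring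
    simp only [e]
    rw [integral_sub i1 i2, integral_mul_const, φ.integral_normed, one_mul]
    simp [convolution]
  have hmeas : AEStronglyMeasurable (fun z =>
      (ρ ⋆[ContinuousLinearMap.lsmul ℝ ℝ, volume] g) z - g z) volume :=
    hcont.aestronglyMeasurable.sub hg
  have hjm : AEStronglyMeasurable (fun p : ℂ × ℂ => g (p.1 - p.2) - g p.1)
      (volume.prod volume) := by
    refine AEStronglyMeasurable.sub ?_ hg.comp_fst
    exact hg.comp_quasiMeasurePreserving
      (quasiMeasurePreserving_sub_of_right_invariant volume volume)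
  have hkey : ∫⁻ z, ‖(ρ ⋆[ContinuousLinearMap.lsmul ℝ ℝ, volume] g) z - g z‖ₑ ^ (2 : ℝ) ≤
      ENNReal.ofReal ε := by
    calc ∫⁻ z, ‖(ρ ⋆[ContinuousLinearMap.lsmul ℝ ℝ, volume] g) z - g z‖ₑ ^ (2 : ℝ)
        ≤ ∫⁻ z, ∫⁻ t, ENNReal.ofReal (ρ t) * ‖g (z - t) - g z‖ₑ ^ (2 : ℝ) := by
          refine lintegral_mono fun z => ?_
          rw [hid z]
          refine jensen φ (fun t => g (z - t) - g z) ?_
          refine AEStronglyMeasurable.sub ?_ aestronglyMeasurable_const
          exact hg.comp_quasiMeasurePreserving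
            (quasiMeasurePreserving_sub_left volume z)
      _ = ∫⁻ t, ∫⁻ z, ENNReal.ofReal (ρ t) * ‖g (z - t) - g z‖ₑ ^ (2 : ℝ) := by
          refine lintegral_lintegral_swap ?_
          refine AEMeasurable.mul ?_ (hjm.enorm.pow_const _)
          exact ((hρc.measurable.ennreal_ofReal).comp measurable_snd).aemeasurable
      _ = ∫⁻ t, ENNReal.ofReal (ρ t) * ∫⁻ z, ‖g (z - t) - g z‖ₑ ^ (2 : ℝ) := by
          refine lintegral_congr fun t => ?_
          rw [lintegral_const_mul' _ _ ENNReal.ofReal_ne_top]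
      _ ≤ ∫⁻ t, ENNReal.ofReal (ρ t) * ENNReal.ofReal ε := by
          refine lintegral_mono fun t => ?_
          by_cases ht : ‖t‖ < δ
          · exact mul_le_mul_right (hδ2 t ht) _
          · have : ρ t = 0 := by
              by_contra h
              have hs : t ∈ Function.support ρ := h
              rw [hρ, φ.support_normed_eq, mem_ball_zero_iff] at hs
              exact ht (hs.trans hφ)
            rw [this]
            simp
      _ = ENNReal.ofReal ε := by
          rw [lintegral_mul_const' _ _ ENNReal.ofReal_ne_top,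
            ← ofReal_integral_eq_lintegral_ofReal hρi (Eventually.of_forall hρn),
            φ.integral_normed, ENNReal.ofReal_one, one_mul]
  have hfin : MemLp (fun z => (ρ ⋆[ContinuousLinearMap.lsmul ℝ ℝ, volume] g) z - g z) 2 volume := by
    refine ⟨hmeas, ?_⟩
    by_contra h
    rw [not_lt, top_le_iff] at h
    have := sq_eLpNorm (fun z => (ρ ⋆[ContinuousLinearMap.lsmul ℝ ℝ, volume] g) z - g z)
    rw [h] at this
    rw [← this] at hkey
    simp at hkey
  have hint := (memLp_two_iff_integrable_sq hmeas).1 hfin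
  refine ⟨hint, ?_⟩
  rw [← ENNReal.ofReal_le_ofReal_iff hε.le,
    ofReal_integral_eq_lintegral_ofReal hint (Eventually.of_forall fun z => sq_nonneg _)]
  refine le_trans (le_of_eq ?_) hkey
  refine lintegral_congr fun z => ?_
  rw [← ofReal_norm_eq_enorm, ENNReal.ofReal_rpow_of_nonneg (norm_nonneg _) (by norm_num)]
  congr 1
  rw [Real.rpow_two, Real.norm_eq_abs, sq_abs]

end Pool.Agent.DMB
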