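import Pool.Agent.DMB.Api

/-!
Subtracting the mean from a minimising system of type `(k, 0)` (module MSB, MP_71cfa6_an).
-/

namespace Pool.Agent.DMB

open MeasureTheory Set Metric Filter Topology
open scoped ENNReal

namespace MSB_

variable {K n : ℕ}

/-- all sheets shifted by a vector function -/
def shf (u : ℂ → Tup K n) (b : ℂ → E n) (z : ℂ) : Tup K n := fun i => u z i + b z

/-! ### metric estimates -/

theorem norm_le_sqrt_sqd (a b : Tup K n) (i : Fin K) : ‖a i - b i‖ ≤ Real.sqrt (sqd a b) := by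
  apply Real.le_sqrt_of_sq_le
  exact Finset.single_le_sum (f := fun i => ‖a i - b i‖ ^ 2) (fun _ _ => sq_nonneg _)
    (Finset.mem_univ i)

theorem sum_sub_le (hMET : Stmt_MET) (a b : Tup K n) :
    ‖∑ i, a i - ∑ i, b i‖ ≤ K * dG a b := by
  obtain ⟨σ, hσ⟩ := (hMET K n a b b).2.2.2.2.1
  have h1 : ∑ i, b i = ∑ i, (b ∘ σ) i := (Equiv.sum_comp σ b).symm
  rw [h1, ← Finset.sum_sub_distrib, hσ]
  refine (norm_sum_le _ _).trans ?_
  refine (Finset.sum_le_sum fun i _ => norm_le_sqrt_sqd a (b ∘ σ) i).trans ?_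
  simp

theorem dG_shf (hMET : Stmt_MET) (a b : Tup K n) (c c' : E n) :
    dG (fun i => a i + c) (fun i => b i + c') ≤ 2 * dG a b + 2 * K * ‖c - c'‖ := by
  obtain ⟨σ, hσ⟩ := (hMET K n a b b).2.2.2.2.1
  have h0 : 0 ≤ dG a b := (hMET K n a b b).1
  refine ((hMET K n (fun i => a i + c) (fun i => b i + c') a).2.2.2.2.2.1 σ).trans ?_
  apply Real.sqrt_le_iff.mpr
  have hK : (0 : ℝ) ≤ K := by positivity
  refine ⟨by positivity, ?_⟩
  have h1 : sqd (fun i => a i + c) ((fun i => b i + c') ∘ σ) ≤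
      2 * sqd a (b ∘ σ) + 2 * K * ‖c - c'‖ ^ 2 := by
    unfold sqd
    calc _ ≤ ∑ i, (2 * ‖a i - (b ∘ σ) i‖ ^ 2 + 2 * ‖c - c'‖ ^ 2) := by
          refine Finset.sum_le_sum fun i _ => ?_
          have e : a i + c - ((fun i => b i + c') ∘ σ) i = (a i - (b ∘ σ) i) + (c - c') := by
            simp only [Function.comp]; abel
          rw [e]
          have h1 := norm_add_le (a i - (b ∘ σ) i) (c - c')
          have h2 := norm_nonneg ((a i - (b ∘ σ) i) + (c - c'))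
          nlinarith [norm_nonneg (a i - (b ∘ σ) i), norm_nonneg (c - c'),
            sq_nonneg (‖a i - (b ∘ σ) i‖ - ‖c - c'‖)]
      _ = _ := by
          rw [Finset.sum_add_distrib, ← Finset.mul_sum]
          simp
          ring
  have h2 : sqd a (b ∘ σ) = dG a b ^ 2 := by rw [hσ, Real.sq_sqrt (sqd_nonneg _ _)]
  rw [h2] at h1
  refine h1.trans ?_
  have h3 : (K : ℝ) ≤ K ^ 2 := by exact_mod_cast Nat.le_self_pow two_ne_zero K
  have h4 := norm_nonneg (c - c')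
  nlinarith [mul_nonneg (mul_nonneg hK h0) h4,
    mul_nonneg (sub_nonneg.2 h3) (sq_nonneg ‖c - c'‖), sq_nonneg (dG a b),
    mul_nonneg (sq_nonneg (K : ℝ)) (sq_nonneg ‖c - c'‖)]

theorem contG_shf (hMET : Stmt_MET) {A : Set ℂ} {u : ℂ → Tup K n} {b : ℂ → E n}
    (hu : ContG A u) (hb : ContinuousOn b A) : ContG A (shf u b) := by
  intro z hz
  have h1 := hu z hz
  have h2 : Tendsto (fun w => ‖b w - b z‖) (𝓝[A] z) (𝓝 0) :=
    tendsto_iff_norm_sub_tendsto_zero.1 (hb z hz)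
  have h3 : Tendsto (fun w => 2 * dG (u w) (u z) + 2 * K * ‖b w - b z‖) (𝓝[A] z)
      (𝓝 (2 * 0 + 2 * K * 0)) := (h1.const_mul 2).add (h2.const_mul (2 * (K : ℝ)))
  rw [mul_zero, mul_zero, add_zero] at h3
  exact squeeze_zero (fun w => (hMET K n _ _ (u z)).1) (fun w => dG_shf hMET _ _ _ _) h3

theorem cont_sum (hMET : Stmt_MET) {A : Set ℂ} {u : ℂ → Tup K n} (hu : ContG A u) :
    ContinuousOn (fun z => ∑ i, u z i) A := by
  intro z hz
  refine tendsto_iff_norm_sub_tendsto_zero.2 ?_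
  have h3 : Tendsto (fun w => K * dG (u w) (u z)) (𝓝[A] z) (𝓝 (K * 0)) :=
    (hu z hz).const_mul (K : ℝ)
  rw [mul_zero] at h3
  exact squeeze_zero (fun w => norm_nonneg _) (fun w => sum_sub_le hMET _ _) h3

/-! ### gradients -/

theorem grad_shf (hAFF : Stmt_AFF) (hGAL : Stmt_GAL) {U : Set ℂ} (hU : IsOpen U)
    {u : ℂ → Tup K n} {b : ℂ → E n} {X Y : ℂ → Mat K n} {bx bz : ℂ → Fin n → ℝ}
    (hu : HasGradV U (fun z => xi (u z)) X Y) (hb : HasGradW U (fun z l => b z l) bx bz) :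
    HasGradV U (fun z => xi (shf u b z)) (fun z => ad (X z) (bx z))
      (fun z => ad (Y z) (bz z)) := by
  intro i l
  have h1 := (hGAL U hU).2.2.1 _ _ _ _ _ _ (hu i l) (hb l)
  refine (hGAL U hU).2.2.2.2 _ _ _ _ _ _ h1 (fun z _ => ?_) EventuallyEq.rfl EventuallyEq.rfl
  have h2 := (hAFF K n (u z)).1 1 (b z) zero_le_one
  have h3 : shf u b z = fun i => (1 : ℝ) • u z i + b z := by funext i; simp [shf]
  simp only [h3, h2, one_mul]

theorem grad_sum (hGAL : Stmt_GAL) {U : Set ℂ} (hU : IsOpen U) {s X Y : ℂ → Mat K n}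
    (h : HasGradV U s X Y) (T : Finset (Fin K)) (l : Fin n) :
    HasGrad U (fun z => ∑ i ∈ T, s z i l) (fun z => ∑ i ∈ T, X z i l)
      (fun z => ∑ i ∈ T, Y z i l) := by
  classical
  induction T using Finset.induction_on with
  | empty => simpa using (hGAL U hU).2.1 0
  | insert i T hi ih =>
    simp only [Finset.sum_insert hi]
    exact (hGAL U hU).2.2.1 _ _ _ _ _ _ (h i l) ih

theorem sum_apply (a : Tup K n) (l : Fin n) : (∑ i, a i) l = ∑ i, a i l := by
  simp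

theorem grad_sm (hXIL : Stmt_XIL) (hGAL : Stmt_GAL) {U : Set ℂ} (hU : IsOpen U)
    {u : ℂ → Tup K n} {X Y : ℂ → Mat K n} (c : ℝ)
    (hu : HasGradV U (fun z => xi (u z)) X Y) :
    HasGradW U (fun z l => (c • ∑ i, u z i : E n) l) (fun z => c • sm (X z))
      (fun z => c • sm (Y z)) := by
  intro l
  have h1 := (hGAL U hU).2.2.2.1 c _ _ _ (grad_sum hGAL hU hu Finset.univ l)
  refine (hGAL U hU).2.2.2.2 _ _ _ _ _ _ h1 (fun z _ => ?_) EventuallyEq.rfl EventuallyEq.rfl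
  show (c • ∑ i, u z i : E n) l = c * ∑ i, xi (u z) i l
  rw [(hXIL K n (u z) (u z)).2.2.1 l, PiLp.smul_apply, sum_apply, smul_eq_mul]

/-! ### energies -/

theorem vdt_abs_le (v w : Fin n → ℝ) : |vdt v w| ≤ (vsq v + vsq w) / 2 := by
  have h1 : ∀ t : ℝ, t ^ 2 = 1 → t * vdt v w ≤ (vsq v + vsq w) / 2 := by
    intro t ht
    unfold vdt vsq
    rw [Finset.mul_sum, ← Finset.sum_add_distrib, Finset.sum_div]
    refine Finset.sum_le_sum fun l _ => ?_
    nlinarith [sq_nonneg (v l - t * w l)]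
  rw [abs_le]
  constructor
  · have := h1 (-1) (by norm_num)
    linarith
  · have := h1 1 (by norm_num)
    linarith

/-- the cross term -/
def cr (X Y : ℂ → Mat K n) (bx bz : ℂ → Fin n → ℝ) (z : ℂ) : ℝ :=
  vdt (sm (X z)) (bx z) + vdt (sm (Y z)) (bz z)

/-- the square term -/
def qq (bx bz : ℂ → Fin n → ℝ) (z : ℂ) : ℝ := vsq (bx z) + vsq (bz z)

theorem ed_nonneg (X Y : ℂ → Mat K n) (z : ℂ) : 0 ≤ ed X Y z :=
  add_nonneg (nsq_nonneg _) (nsq_nonneg _)

theorem ed_ad (X Y : ℂ → Mat K n) (bx bz : ℂ → Fin n → ℝ) (z : ℂ) :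
    ed (fun z => ad (X z) (bx z)) (fun z => ad (Y z) (bz z)) z =
      ed X Y z + 2 * cr X Y bx bz z + K * qq bx bz z := by
  unfold ed cr qq
  rw [nsq_ad, nsq_ad]
  ring

theorem int_cr {U : Set ℂ} {X Y : ℂ → Mat K n} {bx bz : ℂ → Fin n → ℝ}
    (mX : ∀ i l, AEStronglyMeasurable (fun z => X z i l) (volume.restrict U))
    (mY : ∀ i l, AEStronglyMeasurable (fun z => Y z i l) (volume.restrict U))
    (mbx : ∀ l, AEStronglyMeasurable (fun z => bx z l) (volume.restrict U))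
    (mbz : ∀ l, AEStronglyMeasurable (fun z => bz z l) (volume.restrict U))
    (hi : IntegrableOn (ed X Y) U) (hq : IntegrableOn (qq bx bz) U) :
    IntegrableOn (cr X Y bx bz) U := by
  have hg : IntegrableOn (fun z => (K * ed X Y z + qq bx bz z) / 2) U :=
    ((hi.const_mul (K : ℝ)).add hq).div_const 2
  refine Integrable.mono' hg ?_ (Eventually.of_forall fun z => ?_)
  · have h1 : AEStronglyMeasurable (fun z => ∑ l, (∑ i, X z i l) * bx z l)
        (volume.restrict U) :=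
      Finset.aestronglyMeasurable_fun_sum _ fun l _ =>
        (Finset.aestronglyMeasurable_fun_sum _ fun i _ => mX i l).mul (mbx l)
    have h2 : AEStronglyMeasurable (fun z => ∑ l, (∑ i, Y z i l) * bz z l)
        (volume.restrict U) :=
      Finset.aestronglyMeasurable_fun_sum _ fun l _ =>
        (Finset.aestronglyMeasurable_fun_sum _ fun i _ => mY i l).mul (mbz l)
    exact h1.add h2
  · rw [Real.norm_eq_abs]
    unfold cr
    refine (abs_add_le _ _).trans ?_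
    have a1 := vdt_abs_le (sm (X z)) (bx z)
    have a2 := vdt_abs_le (sm (Y z)) (bz z)
    have a3 := vsq_sm_le (X z)
    have a4 := vsq_sm_le (Y z)
    unfold ed qq
    linarith

theorem int_qq {U : Set ℂ} {X Y : ℂ → Mat K n} (c : ℝ)
    (mX : ∀ i l, AEStronglyMeasurable (fun z => X z i l) (volume.restrict U))
    (mY : ∀ i l, AEStronglyMeasurable (fun z => Y z i l) (volume.restrict U))
    (hi : IntegrableOn (ed X Y) U) :
    (∀ l, AEStronglyMeasurable (fun z => (c • sm (X z)) l) (volume.restrict U)) ∧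
    (∀ l, AEStronglyMeasurable (fun z => (c • sm (Y z)) l) (volume.restrict U)) ∧
    IntegrableOn (qq (fun z => c • sm (X z)) (fun z => c • sm (Y z))) U := by
  have m1 : ∀ l, AEStronglyMeasurable (fun z => c * ∑ i, X z i l) (volume.restrict U) :=
    fun l => (Finset.aestronglyMeasurable_fun_sum _ fun i _ => mX i l).const_mul c
  have m2 : ∀ l, AEStronglyMeasurable (fun z => c * ∑ i, Y z i l) (volume.restrict U) :=
    fun l => (Finset.aestronglyMeasurable_fun_sum _ fun i _ => mY i l).const_mul c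
  refine ⟨m1, m2, ?_⟩
  have hg : IntegrableOn (fun z => c ^ 2 * (K * ed X Y z)) U :=
    (hi.const_mul (K : ℝ)).const_mul (c ^ 2)
  refine Integrable.mono' hg ?_ (Eventually.of_forall fun z => ?_)
  · have h1 : AEStronglyMeasurable (fun z => ∑ l, (c * ∑ i, X z i l) ^ 2)
        (volume.restrict U) :=
      Finset.aestronglyMeasurable_fun_sum _ fun l _ => (m1 l).pow 2
    have h2 : AEStronglyMeasurable (fun z => ∑ l, (c * ∑ i, Y z i l) ^ 2)
        (volume.restrict U) :=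
      Finset.aestronglyMeasurable_fun_sum _ fun l _ => (m2 l).pow 2
    exact h1.add h2
  · have v1 : ∀ v : Mat K n, vsq (c • sm v) = c ^ 2 * vsq (sm v) := by
      intro v
      simp [vsq, mul_pow, Finset.mul_sum]
    have hn : 0 ≤ qq (fun z => c • sm (X z)) (fun z => c • sm (Y z)) z :=
      add_nonneg (vsq_nonneg _) (vsq_nonneg _)
    rw [Real.norm_of_nonneg hn]
    unfold qq
    rw [v1, v1]
    have a3 := vsq_sm_le (X z)
    have a4 := vsq_sm_le (Y z)
    unfold ed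
    nlinarith [sq_nonneg c]

theorem en_real (hEND : Stmt_END) {U : Set ℂ} (hU : IsOpen U) {u : ℂ → Tup K n}
    {X Y : ℂ → Mat K n} (hu : HasGradV U (fun z => xi (u z)) X Y)
    (hi : IntegrableOn (ed X Y) U) : en U u = ENNReal.ofReal (∫ z in U, ed X Y z) := by
  rw [(hEND K n U u hU).1 X Y hu]
  rw [ofReal_integral_eq_lintegral_ofReal hi (Eventually.of_forall fun z => ed_nonneg X Y z)]

theorem en_shf (hAFF : Stmt_AFF) (hGAL : Stmt_GAL) (hEND : Stmt_END) {U : Set ℂ}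
    (hU : IsOpen U) {u : ℂ → Tup K n} {b : ℂ → E n} {X Y : ℂ → Mat K n}
    {bx bz : ℂ → Fin n → ℝ} (hu : HasGradV U (fun z => xi (u z)) X Y)
    (hi : IntegrableOn (ed X Y) U) (hb : HasGradW U (fun z l => b z l) bx bz)
    (hq : IntegrableOn (qq bx bz) U) :
    0 ≤ (∫ z in U, ed X Y z) + 2 * (∫ z in U, cr X Y bx bz z) + K * (∫ z in U, qq bx bz z) ∧
    en U (shf u b) = ENNReal.ofReal ((∫ z in U, ed X Y z) + 2 * (∫ z in U, cr X Y bx bz z) +
      K * (∫ z in U, qq bx bz z)) := by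
  have hc := int_cr (fun i l => (hu i l).mx) (fun i l => (hu i l).my) (fun l => (hb l).mx)
    (fun l => (hb l).my) hi hq
  have he : ed (fun z => ad (X z) (bx z)) (fun z => ad (Y z) (bz z)) =
      fun z => ed X Y z + 2 * cr X Y bx bz z + K * qq bx bz z := by
    funext z
    exact ed_ad X Y bx bz z
  have hI : IntegrableOn (fun z => ed X Y z + 2 * cr X Y bx bz z + K * qq bx bz z) U :=
    (hi.add (hc.const_mul 2)).add (hq.const_mul (K : ℝ))
  have h1 : ∫ z in U, (ed X Y z + 2 * cr X Y bx bz z + K * qq bx bz z) =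
      (∫ z in U, ed X Y z) + 2 * (∫ z in U, cr X Y bx bz z) + K * (∫ z in U, qq bx bz z) := by
    have i1 : IntegrableOn (fun z => ed X Y z + 2 * cr X Y bx bz z) U :=
      hi.add (hc.const_mul 2)
    have i2 : IntegrableOn (fun z => 2 * cr X Y bx bz z) U := hc.const_mul 2
    have i3 : IntegrableOn (fun z => K * qq bx bz z) U := hq.const_mul (K : ℝ)
    rw [integral_add i1 i3, integral_add hi i2, integral_const_mul, integral_const_mul]
  have h2 := en_real hEND hU (grad_shf hAFF hGAL hU hu hb) (by rw [he]; exact hI)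
  rw [he, h1] at h2
  refine ⟨?_, h2⟩
  rw [← h1]
  refine integral_nonneg fun z => ?_
  rw [← ed_ad X Y bx bz z]
  exact ed_nonneg _ _ z

/-! ### systems -/

theorem append_zero {k : ℕ} (a : Tup k n) (x : Fin 0 → E n) (i : Fin k) :
    (Fin.append a x : Fin (k + 0) → E n) i = a i := Fin.append_left a x i

theorem bd_sum {k : ℕ} {a : Tup (k + 0) n} {b : Tup k n} {x : Fin 0 → E n}
    (h : Same a (Fin.append b x)) : ∑ i, a i = ∑ i, b i := by
  obtain ⟨σ, rfl⟩ := h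
  rw [show ∑ i, (Fin.append b x ∘ σ) i = ∑ i, Fin.append b x i from
    Equiv.sum_comp σ (Fin.append b x)]
  exact Finset.sum_congr rfl fun i _ => append_zero b x i

theorem cs {A : Set ℂ} {f : ℂ → E n} (h : ContinuousOn f A) (c : ℝ) :
    ContinuousOn (fun z => c • f z) A := h.const_smul c

theorem same_shf {k : ℕ} {u v : ℂ → Tup k n} {b : ℂ → E n} {z : ℂ} (h : Same (u z) (v z)) :
    Same (shf u b z) (shf v b z) := by
  obtain ⟨σ, h⟩ := h
  refine ⟨σ, ?_⟩
  funext i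
  simp [shf, h]

theorem sys_shf (hMET : Stmt_MET) {k : ℕ} {Op Omi ga : Set ℂ} {φ φ' : ℂ → E n}
    {up : ℂ → Tup (k + 0) n} {um : ℂ → Tup k n} {bp bm : ℂ → E n}
    (h : Sys k 0 n Op Omi ga φ up um) (cbp : ContinuousOn bp (Op ∪ ga))
    (cbm : ContinuousOn bm (Omi ∪ ga)) (he : ∀ z ∈ ga, bp z = bm z)
    (fp : en Op (shf up bp) < ⊤) (fm : en Omi (shf um bm) < ⊤) :
    Sys k 0 n Op Omi ga φ' (shf up bp) (shf um bm) := by
  refine ⟨contG_shf hMET h.cp cbp, contG_shf hMET h.cm cbm, fun z hz => ?_, fp, fm⟩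
  obtain ⟨σ, hσ⟩ := h.bd z hz
  refine ⟨σ, ?_⟩
  funext i
  have h1 : up z i = um z (σ i) := by
    rw [hσ]
    exact append_zero (um z) _ (σ i)
  have h2 : (Fin.append (shf um bm z) (fun _ : Fin 0 => φ' z) ∘ σ) i = shf um bm z (σ i) :=
    append_zero (shf um bm z) _ (σ i)
  rw [h2]
  simp only [shf]
  rw [h1, he z hz]

theorem mn_eq (v : Mat K n) : mn v = (K : ℝ)⁻¹ • sm v := by
  funext l
  simp [mn, sm, div_eq_inv_mul]

theorem toReal_le {a b c d : ℝ} (ha : 0 ≤ a) (hb : 0 ≤ b) (hc : 0 ≤ c) (hd : 0 ≤ d)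
    (h : ENNReal.ofReal a + ENNReal.ofReal b ≤ ENNReal.ofReal c + ENNReal.ofReal d) :
    a + b ≤ c + d := by
  rw [← ENNReal.ofReal_add ha hb, ← ENNReal.ofReal_add hc hd,
    ENNReal.ofReal_le_ofReal_iff (by positivity)] at h
  exact h

/-- a linear term dominated by a quadratic one vanishes -/
theorem lin_zero {L Q : ℝ} (h : ∀ ε : ℝ, 0 ≤ 2 * (ε * L) + ε ^ 2 * Q) : L = 0 := by
  by_contra hL
  have hL2 : 0 < L ^ 2 := by positivity
  have h1 := h (-(L / (|Q| + 1)))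
  have hQ : 0 < |Q| + 1 := by positivity
  have h2 : 2 * (-(L / (|Q| + 1)) * L) + (-(L / (|Q| + 1))) ^ 2 * Q =
      L ^ 2 / (|Q| + 1) * (Q / (|Q| + 1) - 2) := by
    field_simp
    ring
  rw [h2] at h1
  have h3 : 0 < L ^ 2 / (|Q| + 1) := by positivity
  have h4 : Q / (|Q| + 1) < 1 := by
    rw [div_lt_one hQ]
    linarith [le_abs_self Q]
  nlinarith

end MSB_

open MSB_

theorem msb_proof (hMET : Stmt_MET) (hXIL : Stmt_XIL) (hAFF : Stmt_AFF) (hGAL : Stmt_GAL)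
    (_hGUN : Stmt_GUN) (hEND : Stmt_END) : Stmt_MSB := by
  intro k n Om Op Omi ga φ up um hk hsp hmin
  obtain ⟨hs, hm⟩ := hmin
  have oP := hsp.openOp
  have oM := hsp.openOmi
  obtain ⟨Xp, Yp, gp, ip, -⟩ := (hEND (k + 0) n Op up oP).2.1 hs.fp
  obtain ⟨Xm, Ym, gm, im, -⟩ := (hEND k n Omi um oM).2.1 hs.fm
  have hk0 : (k : ℝ) ≠ 0 := by positivity
  have hkk : ((k + 0 : ℕ) : ℝ) = k := by simp
  -- the means
  have e1 : (fun z i => up z i - mnE (up z)) =
      shf up (fun z => (-(k : ℝ)⁻¹) • ∑ i, up z i) := by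
    funext z i
    simp [shf, mnE, sub_eq_add_neg]
  have e2 : (fun z i => um z i - mnE (um z)) =
      shf um (fun z => (-(k : ℝ)⁻¹) • ∑ i, um z i) := by
    funext z i
    simp [shf, mnE, sub_eq_add_neg]
  rw [e1, e2]
  have cup := cont_sum hMET hs.cp
  have cum := cont_sum hMET hs.cm
  have sgp := fun c : ℝ => grad_sm hXIL hGAL oP c gp
  have sgm := fun c : ℝ => grad_sm hXIL hGAL oM c gm
  have qp := fun c : ℝ => (int_qq c (fun i l => (gp i l).mx) (fun i l => (gp i l).my) ip).2.2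
  have qm := fun c : ℝ => (int_qq c (fun i l => (gm i l).mx) (fun i l => (gm i l).my) im).2.2
  have Ep' := en_shf hAFF hGAL hEND oP gp ip (sgp (-(k : ℝ)⁻¹)) (qp _)
  have Em' := en_shf hAFF hGAL hEND oM gm im (sgm (-(k : ℝ)⁻¹)) (qm _)
  have hs' : Sys k 0 n Op Omi ga (fun _ => 0)
      (shf up (fun z => (-(k : ℝ)⁻¹) • ∑ i, up z i))
      (shf um (fun z => (-(k : ℝ)⁻¹) • ∑ i, um z i)) := by
    refine sys_shf hMET hs (cs cup _) (cs cum _) (fun z hz => ?_) ?_ ?_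
    · rw [bd_sum (hs.bd z hz)]
    · rw [Ep'.2]; exact ENNReal.ofReal_lt_top
    · rw [Em'.2]; exact ENNReal.ofReal_lt_top
  refine ⟨hs', ?_⟩
  intro vp vm hv ⟨C, hC, hCc, hagp, hagm⟩
  obtain ⟨Xv, Yv, gv, iv, -⟩ := (hEND (k + 0) n Op vp oP).2.1 hv.fp
  obtain ⟨Xw, Yw, gw, iw, -⟩ := (hEND k n Omi vm oM).2.1 hv.fm
  have cvp := cont_sum hMET hv.cp
  have cvm := cont_sum hMET hv.cm
  have sgv := fun c : ℝ => grad_sm hXIL hGAL oP c gv
  have sgw := fun c : ℝ => grad_sm hXIL hGAL oM c gw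
  have qv := fun c : ℝ => (int_qq c (fun i l => (gv i l).mx) (fun i l => (gv i l).my) iv).2.2
  have qw := fun c : ℝ => (int_qq c (fun i l => (gw i l).mx) (fun i l => (gw i l).my) iw).2.2
  have Eu := en_real hEND oP gp ip
  have Eu' := en_real hEND oM gm im
  have Ev := en_real hEND oP gv iv
  have Ew := en_real hEND oM gw iw
  set A := ∫ z in Op, ed Xp Yp z with hA
  set A' := ∫ z in Omi, ed Xm Ym z with hA'
  set B := ∫ z in Op, ed Xv Yv z with hB
  set B' := ∫ z in Omi, ed Xw Yw z with hB'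
  have A0 : 0 ≤ A := integral_nonneg fun z => ed_nonneg _ _ z
  have A0' : 0 ≤ A' := integral_nonneg fun z => ed_nonneg _ _ z
  have B0 : 0 ≤ B := integral_nonneg fun z => ed_nonneg _ _ z
  have B0' : 0 ≤ B' := integral_nonneg fun z => ed_nonneg _ _ z
  -- scaling of the integrals
  have cr_s : ∀ (U : Set ℂ) (K' : ℕ) (X Y X' Y' : ℂ → Mat K' n) (c : ℝ),
      ∫ z in U, cr X Y (fun z => c • sm (X' z)) (fun z => c • sm (Y' z)) z =
        c * ∫ z in U, (vdt (sm (X z)) (sm (X' z)) + vdt (sm (Y z)) (sm (Y' z))) := by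
    intro U K' X Y X' Y' c
    rw [← integral_const_mul]
    congr 1
    funext z
    simp only [cr, vdt, Pi.smul_apply, smul_eq_mul, Finset.mul_sum, mul_add]
    congr 1 <;> exact Finset.sum_congr rfl fun _ _ => by ring
  have qq_s : ∀ (U : Set ℂ) (K' : ℕ) (X Y : ℂ → Mat K' n) (c : ℝ),
      ∫ z in U, qq (fun z => c • sm (X z)) (fun z => c • sm (Y z)) z =
        c ^ 2 * ∫ z in U, (vsq (sm (X z)) + vsq (sm (Y z))) := by
    intro U K' X Y c
    rw [← integral_const_mul]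
    congr 1
    funext z
    simp only [qq, vsq, Pi.smul_apply, smul_eq_mul, Finset.mul_sum, mul_add]
    congr 1 <;> exact Finset.sum_congr rfl fun _ _ => by ring
  set L := ∫ z in Op, (vdt (sm (Xp z)) (sm (Xv z)) + vdt (sm (Yp z)) (sm (Yv z))) with hL
  set L' := ∫ z in Omi, (vdt (sm (Xm z)) (sm (Xw z)) + vdt (sm (Ym z)) (sm (Yw z))) with hL'
  set Q := ∫ z in Op, (vsq (sm (Xv z)) + vsq (sm (Yv z))) with hQ
  set Q' := ∫ z in Omi, (vsq (sm (Xw z)) + vsq (sm (Yw z))) with hQ'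
  set S := ∫ z in Op, (vsq (sm (Xp z)) + vsq (sm (Yp z))) with hS
  set S' := ∫ z in Omi, (vsq (sm (Xm z)) + vsq (sm (Ym z))) with hS'
  -- sums of `v` vanish outside `C`
  have sumz : ∀ a : Tup (k + 0) n, ∑ i, (a i + (-(k : ℝ)⁻¹) • ∑ j, a j) = 0 := by
    intro a
    rw [Finset.sum_add_distrib, Finset.sum_const, Finset.card_univ, Fintype.card_fin,
      ← Nat.cast_smul_eq_nsmul ℝ, smul_smul, hkk, mul_neg, mul_inv_cancel₀ hk0, neg_smul,
      one_smul, add_neg_cancel]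
  have zp : ∀ z ∈ (Op ∪ ga) \ C, ∑ i, vp z i = 0 := by
    intro z hz
    obtain ⟨σ, hσ⟩ := hagp z hz
    rw [hσ]
    rw [show ∑ i, ((shf up (fun z => (-(k : ℝ)⁻¹) • ∑ i, up z i) z) ∘ σ) i =
      ∑ i, shf up (fun z => (-(k : ℝ)⁻¹) • ∑ i, up z i) z i from
      Equiv.sum_comp σ (shf up (fun z => (-(k : ℝ)⁻¹) • ∑ i, up z i) z)]
    exact sumz (up z)
  have zm : ∀ z ∈ (Omi ∪ ga) \ C, ∑ i, vm z i = 0 := by
    intro z hz
    obtain ⟨σ, hσ⟩ := hagm z hz
    rw [hσ]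
    rw [show ∑ i, ((shf um (fun z => (-(k : ℝ)⁻¹) • ∑ i, um z i) z) ∘ σ) i =
      ∑ i, shf um (fun z => (-(k : ℝ)⁻¹) • ∑ i, um z i) z i from
      Equiv.sum_comp σ (shf um (fun z => (-(k : ℝ)⁻¹) • ∑ i, um z i) z)]
    exact sumz (um z)
  have vga : ∀ z ∈ ga, ∑ i, vp z i = ∑ i, vm z i := fun z hz => bd_sum (hv.bd z hz)
  have uga : ∀ z ∈ ga, ∑ i, up z i = ∑ i, um z i := fun z hz => bd_sum (hs.bd z hz)
  -- first variation
  have hvar : ∀ ε : ℝ, 0 ≤ 2 * (ε * (L + L')) + ε ^ 2 * (k * (Q + Q')) := by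
    intro ε
    have F1 := en_shf hAFF hGAL hEND oP gp ip (sgv ε) (qv ε)
    have F2 := en_shf hAFF hGAL hEND oM gm im (sgw ε) (qw ε)
    rw [cr_s, qq_s, hkk, ← hA, ← hL, ← hQ] at F1
    rw [cr_s, qq_s, ← hA', ← hL', ← hQ'] at F2
    have sy := sys_shf (φ' := φ) (bp := fun z => ε • ∑ i, vp z i)
      (bm := fun z => ε • ∑ i, vm z i) hMET hs (cs cvp ε) (cs cvm ε)
      (fun z hz => by rw [vga z hz])
      (by rw [F1.2]; exact ENNReal.ofReal_lt_top) (by rw [F2.2]; exact ENNReal.ofReal_lt_top)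
    have h1 := hm _ _ sy ⟨C, hC, hCc, fun z hz => ?_, fun z hz => ?_⟩
    · rw [Eu, Eu', F1.2, F2.2] at h1
      have h2 := toReal_le A0 A0' F1.1 F2.1 h1
      linarith
    · refine ⟨Equiv.refl _, ?_⟩
      funext i
      show up z i + ε • ∑ j, vp z j = up z i
      rw [zp z hz, smul_zero, add_zero]
    · refine ⟨Equiv.refl _, ?_⟩
      funext i
      show um z i + ε • ∑ j, vm z j = um z i
      rw [zm z hz, smul_zero, add_zero]
  have hLL : L + L' = 0 := lin_zero hvar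
  -- comparison
  have G1 := en_shf hAFF hGAL hEND oP gv iv (sgp (k : ℝ)⁻¹) (qp _)
  have G2 := en_shf hAFF hGAL hEND oM gw iw (sgm (k : ℝ)⁻¹) (qm _)
  rw [cr_s, qq_s, hkk, ← hB, ← hS] at G1
  rw [cr_s, qq_s, ← hB', ← hS'] at G2
  have cL : ∫ z in Op, (vdt (sm (Xv z)) (sm (Xp z)) + vdt (sm (Yv z)) (sm (Yp z))) = L := by
    rw [hL]
    congr 1
    funext z
    simp only [vdt, mul_comm]
  have cL' : ∫ z in Omi, (vdt (sm (Xw z)) (sm (Xm z)) + vdt (sm (Yw z)) (sm (Ym z))) = L' := by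
    rw [hL']
    congr 1
    funext z
    simp only [vdt, mul_comm]
  rw [cL] at G1
  rw [cL'] at G2
  have sy := sys_shf (φ' := φ) (bp := fun z => (k : ℝ)⁻¹ • ∑ i, up z i)
      (bm := fun z => (k : ℝ)⁻¹ • ∑ i, um z i) hMET hv (cs cup _) (cs cum _)
      (fun z hz => by rw [uga z hz])
      (by rw [G1.2]; exact ENNReal.ofReal_lt_top) (by rw [G2.2]; exact ENNReal.ofReal_lt_top)
  have h1 := hm _ _ sy ⟨C, hC, hCc, fun z hz => ?_, fun z hz => ?_⟩
  · rw [Eu, Eu', G1.2, G2.2] at h1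
    have h2 := toReal_le A0 A0' G1.1 G2.1 h1
    -- energies of the shifted function
    have self1 : ∫ z in Op, (vdt (sm (Xp z)) (sm (Xp z)) + vdt (sm (Yp z)) (sm (Yp z))) = S := by
      rw [hS]
      congr 1
      funext z
      simp only [vdt, vsq, sq]
    have self2 : ∫ z in Omi, (vdt (sm (Xm z)) (sm (Xm z)) + vdt (sm (Ym z)) (sm (Ym z))) =
        S' := by
      rw [hS']
      congr 1
      funext z
      simp only [vdt, vsq, sq]
    rw [cr_s, qq_s, hkk, ← hS, self1] at Ep'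
    rw [cr_s, qq_s, ← hS', self2] at Em'
    rw [Ep'.2, Em'.2, Ev, Ew, ← ENNReal.ofReal_add Ep'.1 Em'.1, ← ENNReal.ofReal_add B0 B0']
    refine ENNReal.ofReal_le_ofReal ?_
    have hki : (k : ℝ) * ((k : ℝ)⁻¹) ^ 2 = (k : ℝ)⁻¹ := by
      field_simp
    have hki' : (k : ℝ) * (-(k : ℝ)⁻¹) ^ 2 = (k : ℝ)⁻¹ := by
      rw [neg_sq]; exact hki
    have r1 : (k : ℝ) * ((-(k : ℝ)⁻¹) ^ 2 * S) = (k : ℝ)⁻¹ * S := by
      rw [← mul_assoc, hki']
    have r2 : (k : ℝ) * ((-(k : ℝ)⁻¹) ^ 2 * S') = (k : ℝ)⁻¹ * S' := by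
      rw [← mul_assoc, hki']
    have r3 : (k : ℝ) * (((k : ℝ)⁻¹) ^ 2 * S) = (k : ℝ)⁻¹ * S := by
      rw [← mul_assoc, hki]
    have r4 : (k : ℝ) * (((k : ℝ)⁻¹) ^ 2 * S') = (k : ℝ)⁻¹ * S' := by
      rw [← mul_assoc, hki]
    rw [r1, r2]
    rw [r3, r4] at h2
    have r5 : (k : ℝ)⁻¹ * L + (k : ℝ)⁻¹ * L' = 0 := by rw [← mul_add, hLL, mul_zero]
    linarith
  · have := same_shf (b := fun z => (k : ℝ)⁻¹ • ∑ i, up z i) (hagp z hz)
    refine Same.trans' this ⟨Equiv.refl _, ?_⟩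
    funext i
    simp [shf]
  · have := same_shf (b := fun z => (k : ℝ)⁻¹ • ∑ i, um z i) (hagm z hz)
    refine Same.trans' this ⟨Equiv.refl _, ?_⟩
    funext i
    simp [shf]

end Pool.Agent.DMB
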