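import Pool.Agent.DMB.Api

/-!
Module MVB: area mean value bound.
-/

set_option autoImplicit false

namespace Pool.Agent.DMB

open MeasureTheory Set Metric Filter Topology
open scoped ENNReal

namespace MVB_

theorem circ (G : ℂ → ℂ) (z : ℂ) (ρ s : ℝ) (hs : 0 < s) (hsρ : s < ρ)
    (hG : DifferentiableOn ℂ G (ball z ρ)) :
    2 * Real.pi * ‖G z‖ ≤ ∫ θ in (-Real.pi)..Real.pi, ‖G (z + s * Complex.exp (θ * Complex.I))‖ := by
  have hcl : closedBall z |s| ⊆ ball z ρ := by
    rw [abs_of_pos hs]
    exact closedBall_subset_ball hsρ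
  have h1 : DiffContOnCl ℂ G (ball z |s|) := (hG.mono hcl).diffContOnCl_ball subset_rfl
  have h2 := h1.circleAverage
  rw [Real.circleAverage_def] at h2
  have h3 : ∫ θ in (0 : ℝ)..(2 * Real.pi), G (circleMap z s θ) = ((2 * Real.pi : ℝ) : ℂ) * G z := by
    rw [← h2]
    have hpi : (Real.pi : ℂ) ≠ 0 := by exact_mod_cast Real.pi_ne_zero
    simp
    field_simp
  have hper : Function.Periodic (fun θ => G (circleMap z s θ)) (2 * Real.pi) := by
    intro θ
    simp only [periodic_circleMap z s θ]
  have h4 := hper.intervalIntegral_add_eq (-Real.pi) 0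
  rw [zero_add, show -Real.pi + 2 * Real.pi = Real.pi by ring] at h4
  have h5 : ‖∫ θ in (-Real.pi)..Real.pi, G (circleMap z s θ)‖ = 2 * Real.pi * ‖G z‖ := by
    rw [h4, h3, norm_mul]
    rw [Complex.norm_real, Real.norm_of_nonneg (by positivity)]
  rw [← h5]
  exact intervalIntegral.norm_integral_le_integral_norm (by linarith [Real.pi_pos])

end MVB_

theorem mvb_proof : Stmt_MVB := by
  intro H G g hH hG hg hle z ρ hρ hb
  have hGc : ContinuousOn G H := hG.continuousOn
  set G' : ℂ → ℂ := H.indicator G with hG'
  have hG'm : Measurable G' := by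
    classical
    have := hGc.measurable_piecewise (g := (0 : ℂ → ℂ)) continuousOn_const hH.measurableSet
    rwa [piecewise_eq_indicator] at this
  have hGG : ∀ w ∈ H, G' w = G w := fun w hw => by rw [hG', indicator_of_mem hw]
  set h : ℂ → ℝ≥0∞ := (ball (0 : ℂ) ρ).indicator (fun w => ENNReal.ofReal ‖G' (z + w)‖) with hh
  have hhm : Measurable h := by
    refine Measurable.indicator ?_ measurableSet_ball
    exact (hG'm.comp (measurable_const_add z)).norm.ennreal_ofReal
  -- step 1: integral over the ball
  have h1 : ∫⁻ w, h w = ∫⁻ w in ball z ρ, ENNReal.ofReal ‖G w‖ := by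
    have e1 : ∫⁻ w, h w = ∫⁻ w, h (w - z) := (lintegral_sub_right_eq_self h z).symm
    rw [e1, ← lintegral_indicator measurableSet_ball]
    refine lintegral_congr fun w => ?_
    by_cases hw : w ∈ ball z ρ
    · have hw' : w - z ∈ ball (0 : ℂ) ρ := by
        rw [mem_ball_zero_iff]; rwa [mem_ball_iff_norm] at hw
      rw [indicator_of_mem hw, hh, indicator_of_mem hw', add_sub_cancel, hGG w (hb hw)]
    · have hw' : w - z ∉ ball (0 : ℂ) ρ := by
        rw [mem_ball_zero_iff]; rwa [mem_ball_iff_norm] at hw
      rw [indicator_of_notMem hw, hh, indicator_of_notMem hw']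
  -- step 2: polar coordinates
  have h2 : ENNReal.ofReal (Real.pi * ρ ^ 2 * ‖G z‖) ≤ ∫⁻ w, h w := by
    rw [← Complex.lintegral_comp_polarCoord_symm]
    have ht : polarCoord.target = Ioi (0 : ℝ) ×ˢ Ioo (-Real.pi) Real.pi := rfl
    rw [ht, Measure.volume_eq_prod, ← Measure.prod_restrict, lintegral_prod]
    · have hin : ∀ s ∈ Ioo (0 : ℝ) ρ, ENNReal.ofReal (2 * Real.pi * ‖G z‖ * s) ≤
          ∫⁻ θ in Ioo (-Real.pi) Real.pi,
            ENNReal.ofReal s • h (Complex.polarCoord.symm (s, θ)) := by
        intro s hs
        have hmem : ∀ θ : ℝ, z + s * Complex.exp (θ * Complex.I) ∈ ball z ρ := by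
          intro θ
          rw [mem_ball_iff_norm, add_sub_cancel_left, norm_mul, Complex.norm_exp_ofReal_mul_I,
            Complex.norm_real, Real.norm_of_nonneg hs.1.le, mul_one]
          exact hs.2
        have e1 : ∀ θ : ℝ, h (Complex.polarCoord.symm (s, θ)) =
            ENNReal.ofReal ‖G (z + s * Complex.exp (θ * Complex.I))‖ := by
          intro θ
          have e2 : Complex.polarCoord.symm (s, θ) = s * Complex.exp (θ * Complex.I) := by
            rw [Complex.polarCoord_symm_apply, Complex.exp_mul_I]
            simp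
          have e3 : (s * Complex.exp (θ * Complex.I) : ℂ) ∈ ball (0 : ℂ) ρ := by
            have := hmem θ
            rw [mem_ball_iff_norm, add_sub_cancel_left] at this
            rwa [mem_ball_zero_iff]
          rw [e2, hh, indicator_of_mem e3, hGG _ (hb (hmem θ))]
        have hcont : Continuous (fun θ : ℝ => ‖G (z + s * Complex.exp (θ * Complex.I))‖) := by
          have hc : Continuous (fun θ : ℝ => z + s * Complex.exp (θ * Complex.I)) := by fun_prop
          have := hGc.comp_continuous hc (fun θ => hb (hmem θ))
          exact this.norm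
        calc ENNReal.ofReal (2 * Real.pi * ‖G z‖ * s)
            = ENNReal.ofReal s * ENNReal.ofReal (2 * Real.pi * ‖G z‖) := by
              rw [← ENNReal.ofReal_mul hs.1.le]; congr 1; ring
          _ ≤ ENNReal.ofReal s * ENNReal.ofReal
                (∫ θ in (-Real.pi)..Real.pi, ‖G (z + s * Complex.exp (θ * Complex.I))‖) := by
              gcongr
              exact MVB_.circ G z ρ s hs.1 hs.2 (hG.mono hb)
          _ = ENNReal.ofReal s * ∫⁻ θ in Ioo (-Real.pi) Real.pi,
                ENNReal.ofReal ‖G (z + s * Complex.exp (θ * Complex.I))‖ := by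
              rw [intervalIntegral.integral_of_le (by linarith [Real.pi_pos]),
                integral_Ioc_eq_integral_Ioo, ofReal_integral_eq_lintegral_ofReal]
              · exact (hcont.integrableOn_Icc (a := -Real.pi) (b := Real.pi)).mono_set
                  Ioo_subset_Icc_self
              · exact Eventually.of_forall fun θ => norm_nonneg _
          _ = ∫⁻ θ in Ioo (-Real.pi) Real.pi,
                ENNReal.ofReal s • h (Complex.polarCoord.symm (s, θ)) := by
              rw [← lintegral_const_mul _ hcont.measurable.ennreal_ofReal]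
              refine lintegral_congr fun θ => ?_
              rw [e1 θ, smul_eq_mul]
      calc ENNReal.ofReal (Real.pi * ρ ^ 2 * ‖G z‖)
          = ∫⁻ s in Ioo (0 : ℝ) ρ, ENNReal.ofReal (2 * Real.pi * ‖G z‖ * s) := by
            rw [← ofReal_integral_eq_lintegral_ofReal]
            · congr 1
              rw [← integral_Ioc_eq_integral_Ioo, ← intervalIntegral.integral_of_le hρ.le,
                intervalIntegral.integral_const_mul, integral_id]
              ring
            · exact (Continuous.integrableOn_Icc (by fun_prop) (a := 0) (b := ρ)).mono_set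
                Ioo_subset_Icc_self
            · filter_upwards [ae_restrict_mem measurableSet_Ioo] with s hs
              have := hs.1
              positivity
        _ ≤ ∫⁻ s in Ioo (0 : ℝ) ρ, ∫⁻ θ in Ioo (-Real.pi) Real.pi,
              ENNReal.ofReal s • h (Complex.polarCoord.symm (s, θ)) :=
            setLIntegral_mono' measurableSet_Ioo hin
        _ ≤ _ := lintegral_mono_set Ioo_subset_Ioi_self
    · refine Measurable.aemeasurable ?_
      have hm : Measurable (fun p : ℝ × ℝ => Complex.polarCoord.symm p) := by
        have : (fun p : ℝ × ℝ => Complex.polarCoord.symm p) =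
            fun p => (p.1 : ℂ) * (Real.cos p.2 + Real.sin p.2 * Complex.I) := by
          funext p; rw [Complex.polarCoord_symm_apply]
        rw [this]
        fun_prop
      exact (measurable_fst.ennreal_ofReal).smul (hhm.comp hm)
  -- step 3: compare with `g`
  have h3 : ∫⁻ w in ball z ρ, ENNReal.ofReal ‖G w‖ ≤ ENNReal.ofReal (∫ w in ball z ρ, g w) := by
    have hgb : IntegrableOn g (ball z ρ) := hg.mono_set hb
    have hle' : ∀ᵐ w ∂(volume.restrict (ball z ρ)), ‖G w‖ ≤ g w := by
      rw [ae_restrict_iff' measurableSet_ball]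
      filter_upwards [hle] with w hw hwb using hw (hb hwb)
    rw [ofReal_integral_eq_lintegral_ofReal hgb
      (hle'.mono fun w hw => le_trans (norm_nonneg _) hw)]
    exact lintegral_mono_ae (hle'.mono fun w hw => ENNReal.ofReal_le_ofReal hw)
  have h4 := le_trans h2 (h1.le.trans h3)
  have hgn : 0 ≤ ∫ w in ball z ρ, g w := by
    refine integral_nonneg_of_ae ?_
    have hle' : ∀ᵐ w ∂(volume.restrict (ball z ρ)), ‖G w‖ ≤ g w := by
      rw [ae_restrict_iff' measurableSet_ball]
      filter_upwards [hle] with w hw hwb using hw (hb hwb)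
    filter_upwards [hle'] with w hw using le_trans (norm_nonneg _) hw
  rw [ENNReal.ofReal_le_ofReal_iff hgn] at h4
  have hp : 0 < Real.pi * ρ ^ 2 := by positivity
  rw [inv_mul_eq_div, le_div_iff₀ hp]
  linarith

end Pool.Agent.DMB
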