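import Pool.Agent.DMB.Api

namespace Pool.Agent.DMB

open MeasureTheory Set Metric Filter Topology
open scoped ENNReal

namespace ODE_

theorem core {F : ℝ → ℝ} {s c ε : ℝ} {G : Set ℝ} (hs : 0 < s) (hc : 0 ≤ c) (hε : 0 ≤ ε)
    (hG : MeasurableSet G) (hF : MonotoneOn F (Icc (s / 2) s))
    (hae : ∀ᵐ t : ℝ, t ∈ G → t ∈ Ioo (s / 2) s → c / t ≤ deriv F t)
    (hv : volume (Ioo 0 s \ G) ≤ ENNReal.ofReal (ε * s)) :
    c * (Real.log 2 - 2 * ε) ≤ F s - F (s / 2) := by
  have hs2 : s / 2 ≤ s := by linarith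
  have hs20 : 0 < s / 2 := by linarith
  have hF' : MonotoneOn F (uIcc (s / 2) s) := by rwa [uIcc_of_le hs2]
  have h1 := hF'.intervalIntegral_deriv_mem_uIcc
  have hmono : F (s / 2) ≤ F s := hF (left_mem_Icc.mpr hs2) (right_mem_Icc.mpr hs2) hs2
  rw [uIcc_of_le (by linarith), mem_Icc] at h1
  have hint := hF'.intervalIntegrable_deriv
  have hnn : ∀ x ∈ Ioo (s / 2) s, 0 ≤ deriv F x := by
    intro x hx
    rw [← derivWithin_of_mem_nhds (Icc_mem_nhds hx.1 hx.2)]
    exact hF.derivWithin_nonneg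
  set μ := volume.restrict (Ioo (s / 2) s) with hμ
  have hIoo : ∫ x in (s / 2)..s, deriv F x = ∫ x in Ioo (s / 2) s, deriv F x := by
    rw [intervalIntegral.integral_of_le hs2, integral_Ioc_eq_integral_Ioo]
  have hintI : IntegrableOn (deriv F) (Ioo (s / 2) s) :=
    ((intervalIntegrable_iff_integrableOn_Ioo_of_le hs2).mp hint)
  have hlogI : ∫ x in Ioo (s / 2) s, c / x = c * Real.log 2 := by
    rw [← integral_Ioc_eq_integral_Ioo, ← intervalIntegral.integral_of_le hs2]
    have hfe : (fun x : ℝ => c / x) = fun x => c * x⁻¹ := by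
      funext x; rw [div_eq_mul_inv]
    rw [hfe, intervalIntegral.integral_const_mul, integral_inv_of_pos hs20 hs]
    congr 2
    field_simp
  have hinvI : IntegrableOn (fun x : ℝ => c / x) (Ioo (s / 2) s) := by
    have : ContinuousOn (fun x : ℝ => c / x) (Icc (s / 2) s) := by
      apply ContinuousOn.div continuousOn_const continuousOn_id
      intro x hx
      have : s / 2 ≤ x := hx.1
      simp only [id_eq, ne_eq]
      linarith
    exact (this.integrableOn_Icc).mono_set Ioo_subset_Icc_self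
  have hindI : IntegrableOn (Gᶜ.indicator (fun _ : ℝ => 2 * c / s)) (Ioo (s / 2) s) := by
    have : IntegrableOn (fun _ : ℝ => 2 * c / s) (Ioo (s / 2) s) := by
      apply integrableOn_const
      · rw [Real.volume_Ioo]; exact ENNReal.ofReal_ne_top
      · exact enorm_ne_top
    exact this.indicator hG.compl
  have hle : ∫ x in Ioo (s / 2) s, (c / x - Gᶜ.indicator (fun _ : ℝ => 2 * c / s) x)
      ≤ ∫ x in Ioo (s / 2) s, deriv F x := by
    apply setIntegral_mono_on_ae (hinvI.sub hindI) hintI measurableSet_Ioo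
    filter_upwards [hae] with t ht htI
    show c / t - Gᶜ.indicator (fun _ : ℝ => 2 * c / s) t ≤ deriv F t
    by_cases hGt : t ∈ G
    · have : t ∉ Gᶜ := fun h => h hGt
      rw [indicator_of_notMem this, sub_zero]
      exact ht hGt htI
    · have : t ∈ Gᶜ := hGt
      rw [indicator_of_mem this]
      have h2 : c / t ≤ 2 * c / s := by
        have ht0 : 0 < t := lt_trans hs20 htI.1
        rw [div_le_div_iff₀ ht0 hs]
        have : s / 2 < t := htI.1
        nlinarith
      have := hnn t htI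
      linarith
  have hind : ∫ x in Ioo (s / 2) s, Gᶜ.indicator (fun _ : ℝ => 2 * c / s) x ≤ 2 * c * ε := by
    rw [setIntegral_indicator hG.compl, setIntegral_const]
    have hsub : Ioo (s / 2) s ∩ Gᶜ ⊆ Ioo 0 s \ G := by
      rintro x ⟨hx, hxG⟩
      exact ⟨⟨lt_trans hs20 hx.1, hx.2⟩, hxG⟩
    have hm : volume.real (Ioo (s / 2) s ∩ Gᶜ) ≤ ε * s := by
      rw [Measure.real]
      apply ENNReal.toReal_le_of_le_ofReal (by positivity)
      exact (measure_mono hsub).trans hv
    rw [smul_eq_mul]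
    have h3 : 0 ≤ 2 * c / s := by positivity
    calc volume.real (Ioo (s / 2) s ∩ Gᶜ) * (2 * c / s) ≤ (ε * s) * (2 * c / s) :=
          mul_le_mul_of_nonneg_right hm h3
      _ = 2 * c * ε := by field_simp
  rw [integral_sub hinvI hindI, hlogI] at hle
  rw [hIoo] at h1
  have := h1.2
  nlinarith

end ODE_

open ODE_ in
theorem ode_proof : Stmt_ODE := by
  intro a β p ha haβ hp hpa
  have hl2 : 0 < Real.log 2 := Real.log_pos (by norm_num)
  set ε : ℝ := Real.log 2 * (1 - p * a) / 2 with hεdef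
  have hε : 0 < ε := by
    rw [hεdef]
    have : 0 < 1 - p * a := by linarith
    positivity
  refine ⟨ε, hε, ?_⟩
  intro M G R C hR hC hM0 hMm hG hvol hder
  obtain ⟨r1, hr1, hvol⟩ := hvol
  have hβ : 0 < β := by
    by_contra h
    push Not at h
    nlinarith
  set C1 : ℝ := (C + 1) / (a * β - 1) with hC1
  have hden : 0 < a * β - 1 := by linarith
  have hC1p : 0 < C1 := by rw [hC1]; positivity
  have hC1e : C1 * (a * β - 1) = C + 1 := by
    rw [hC1]; field_simp
  set N : ℝ → ℝ := fun r => M r + C1 * r ^ β with hN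
  have hNpos : ∀ r ∈ Ioo 0 R, 0 < N r := by
    intro r hr
    have h1 := hM0 r hr
    have h2 : 0 < r ^ β := Real.rpow_pos_of_pos hr.1 β
    simp only [hN]
    have : 0 < C1 * r ^ β := mul_pos hC1p h2
    linarith
  have hNm : MonotoneOn N (Ioo 0 R) := by
    intro x hx y hy hxy
    simp only [hN]
    have h1 := hMm hx hy hxy
    have h2 : x ^ β ≤ y ^ β := Real.rpow_le_rpow hx.1.le hxy hβ.le
    have h3 := mul_le_mul_of_nonneg_left h2 hC1p.le
    linarith
  set R1 : ℝ := min R r1 / 2 with hR1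
  have hR1p : 0 < R1 := by
    rw [hR1]
    have : 0 < min R r1 := lt_min hR hr1
    linarith
  have hR1R : R1 < R := by
    rw [hR1]
    have : 0 < min R r1 := lt_min hR hr1
    have := min_le_left R r1
    linarith
  have hR1r : R1 < r1 := by
    rw [hR1]
    have : 0 < min R r1 := lt_min hR hr1
    have := min_le_right R r1
    linarith
  have hstep : ∀ s, 0 < s → s ≤ R1 → N (s / 2) ≤ (1 / 2 : ℝ) ^ p * N s := by
    intro s hs hsR
    have hsub : Icc (s / 2) s ⊆ Ioo 0 R := fun x hx => ⟨by linarith [hx.1], by linarith [hx.2]⟩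
    have hFm : MonotoneOn (fun r => Real.log (N r)) (Icc (s / 2) s) := by
      intro x hx y hy hxy
      exact Real.log_le_log (hNpos x (hsub hx)) (hNm (hsub hx) (hsub hy) hxy)
    have hae : ∀ᵐ t : ℝ, t ∈ G → t ∈ Ioo (s / 2) s →
        (1 / a) / t ≤ deriv (fun r => Real.log (N r)) t := by
      filter_upwards [hder] with t ht hGt htI
      have htR : t ∈ Ioo 0 R := hsub ⟨htI.1.le, htI.2.le⟩
      obtain ⟨m, hm, hle⟩ := ht hGt htR
      have hd : HasDerivAt N (m + C1 * (β * t ^ (β - 1))) t := by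
        have h1 : HasDerivAt (fun r : ℝ => r ^ β) (β * t ^ (β - 1)) t :=
          Real.hasDerivAt_rpow_const (Or.inl htR.1.ne')
        exact hm.add (h1.const_mul C1)
      have hNt := hNpos t htR
      rw [(hd.log hNt.ne').deriv]
      rw [div_div, div_le_div_iff₀ (mul_pos ha htR.1) hNt]
      have h4 : t * t ^ (β - 1) = t ^ β := by
        rw [mul_comm, Real.rpow_sub_one htR.1.ne', div_mul_cancel₀ _ htR.1.ne']
      have h5 : (m + C1 * (β * t ^ (β - 1))) * (a * t) = a * t * m + C1 * (a * β) * t ^ β := by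
        rw [← h4]; ring
      rw [h5, one_mul]
      simp only [hN]
      have h6 : 0 < t ^ β := Real.rpow_pos_of_pos htR.1 β
      have h7 : C * t ^ β + C1 * t ^ β ≤ C1 * (a * β) * t ^ β := by
        have : C + C1 ≤ C1 * (a * β) := by linarith
        nlinarith
      linarith
    have hc := core (c := 1 / a) hs (by positivity) hε.le hG hFm hae (hvol s hs (by linarith))
    have h8 : Real.log 2 - 2 * ε = Real.log 2 * (p * a) := by rw [hεdef]; ring
    rw [h8] at hc
    have h9 : 1 / a * (Real.log 2 * (p * a)) = p * Real.log 2 := by field_simp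
    rw [h9] at hc
    have hNs := hNpos s (hsub (right_mem_Icc.mpr (by linarith)))
    have hNs2 := hNpos (s / 2) (hsub (left_mem_Icc.mpr (by linarith)))
    have h10 : Real.log (N (s / 2)) ≤ Real.log ((1 / 2 : ℝ) ^ p * N s) := by
      rw [Real.log_mul (by positivity) hNs.ne', Real.log_rpow (by norm_num)]
      have : Real.log (1 / 2 : ℝ) = - Real.log 2 := by
        rw [one_div, Real.log_inv]
      rw [this]
      have hc' : p * Real.log 2 ≤ Real.log (N s) - Real.log (N (s / 2)) := hc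
      linarith
    exact (Real.log_le_log_iff hNs2 (by positivity)).mp h10
  have hiter : ∀ k : ℕ, N (R1 / 2 ^ k) ≤ ((1 / 2 : ℝ) ^ p) ^ k * N R1 := by
    intro k
    induction k with
    | zero => simp
    | succ k ih =>
      have h1 : R1 / 2 ^ (k + 1) = (R1 / 2 ^ k) / 2 := by
        rw [pow_succ]; field_simp
      rw [h1]
      have h2 : R1 / 2 ^ k ≤ R1 := by
        apply div_le_self hR1p.le
        exact one_le_pow₀ (by norm_num)
      have h3 := hstep (R1 / 2 ^ k) (by positivity) h2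
      calc N (R1 / 2 ^ k / 2) ≤ (1 / 2 : ℝ) ^ p * N (R1 / 2 ^ k) := h3
        _ ≤ (1 / 2 : ℝ) ^ p * (((1 / 2 : ℝ) ^ p) ^ k * N R1) :=
            mul_le_mul_of_nonneg_left ih (by positivity)
        _ = ((1 / 2 : ℝ) ^ p) ^ (k + 1) * N R1 := by rw [pow_succ]; ring
  refine ⟨N R1 * (2 / R1) ^ p, R1, hR1p, hR1R, ?_⟩
  intro r hr hrR
  obtain ⟨k, hk1, hk2⟩ : ∃ k : ℕ, R1 / 2 ^ (k + 1) < r ∧ r ≤ R1 / 2 ^ k := by
    have hex : ∃ k : ℕ, R1 / 2 ^ (k + 1) < r := by
      obtain ⟨k, hk⟩ := pow_unbounded_of_one_lt (R1 / r) (by norm_num : (1 : ℝ) < 2)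
      refine ⟨k, ?_⟩
      rw [div_lt_iff₀ (by positivity)]
      rw [div_lt_iff₀ hr] at hk
      have : (2 : ℝ) ^ k ≤ 2 ^ (k + 1) := pow_le_pow_right₀ (by norm_num) (by omega)
      nlinarith
    classical
    refine ⟨Nat.find hex, Nat.find_spec hex, ?_⟩
    rcases Nat.eq_zero_or_pos (Nat.find hex) with h0 | h0
    · rw [h0]; simp only [pow_zero, div_one]; exact hrR.le
    · have := Nat.find_min hex (m := Nat.find hex - 1) (by omega)
      have e : Nat.find hex - 1 + 1 = Nat.find hex := by omega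
      rw [e] at this
      exact not_lt.mp this
  have hmem : R1 / 2 ^ k ∈ Ioo 0 R := by
    refine ⟨by positivity, lt_of_le_of_lt ?_ hR1R⟩
    apply div_le_self hR1p.le
    exact one_le_pow₀ (by norm_num)
  have hrmem : r ∈ Ioo 0 R := ⟨hr, by linarith⟩
  have h1 : M r ≤ N r := by
    simp only [hN]
    have : 0 < r ^ β := Real.rpow_pos_of_pos hr β
    have : 0 < C1 * r ^ β := mul_pos hC1p this
    linarith
  have h2 : N r ≤ N (R1 / 2 ^ k) := hNm hrmem hmem hk2
  have h3 := hiter k
  have h4 : ((1 / 2 : ℝ) ^ p) ^ k ≤ (2 / R1) ^ p * r ^ p := by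
    rw [← Real.rpow_natCast, ← Real.rpow_mul (by norm_num), mul_comm p, Real.rpow_mul (by norm_num),
      Real.rpow_natCast, ← Real.mul_rpow (by positivity) hr.le]
    apply Real.rpow_le_rpow (by positivity) _ hp.le
    rw [div_lt_iff₀ (by positivity)] at hk1
    rw [one_div, inv_pow, inv_le_iff_one_le_mul₀ (by positivity)]
    rw [pow_succ] at hk1
    have : 1 ≤ 2 / R1 * r * 2 ^ k := by
      rw [div_mul_eq_mul_div, div_mul_eq_mul_div, le_div_iff₀ hR1p]
      nlinarith
    linarith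
  have hNR1 : 0 < N R1 := hNpos R1 ⟨hR1p, hR1R⟩
  calc M r ≤ N r := h1
    _ ≤ N (R1 / 2 ^ k) := h2
    _ ≤ ((1 / 2 : ℝ) ^ p) ^ k * N R1 := h3
    _ ≤ ((2 / R1) ^ p * r ^ p) * N R1 := mul_le_mul_of_nonneg_right h4 hNR1.le
    _ = N R1 * (2 / R1) ^ p * r ^ p := by ring

end Pool.Agent.DMB
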