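import Pool.Agent.DMB.Api

set_option autoImplicit false

/-!
First variation: outer variations of a flattened minimising system.
-/

namespace Pool.Agent.DMB

open MeasureTheory Set Metric Filter Topology
open scoped ENNReal

namespace OU1_

/-! ### square integrable matrix functions -/

/-- entrywise square integrable -/
def L2V {K n : ℕ} (μ : Measure ℂ) (X : ℂ → Mat K n) : Prop :=
  ∀ i l, MemLp (fun z => X z i l) 2 μ

variable {K n : ℕ} {μ : Measure ℂ}

theorem L2V.add {X Y : ℂ → Mat K n} (hX : L2V μ X) (hY : L2V μ Y) :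
    L2V μ (fun z => X z + Y z) := fun i l => (hX i l).add (hY i l)

theorem L2V.sub {X Y : ℂ → Mat K n} (hX : L2V μ X) (hY : L2V μ Y) :
    L2V μ (fun z => X z - Y z) := fun i l => (hX i l).sub (hY i l)

theorem L2V.smul {X : ℂ → Mat K n} (hX : L2V μ X) (c : ℝ) :
    L2V μ (fun z => c • X z) := fun i l => (hX i l).const_mul c

theorem L2V.dt {X Y : ℂ → Mat K n} (hX : L2V μ X) (hY : L2V μ Y) :
    Integrable (fun z => DMB.dt (X z) (Y z)) μ := by
  unfold DMB.dt
  refine integrable_finsetSum _ fun i _ => integrable_finsetSum _ fun l _ => ?_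
  exact (hX i l).integrable_mul (hY i l)

theorem L2V.rw' {b : ℂ → Fin n → ℝ} (hb : ∀ l, MemLp (fun z => b z l) 2 μ) :
    L2V μ (fun z => DMB.rw' K (b z)) := fun _ l => hb l

theorem L2V.of_ed {X Y : ℂ → Mat K n} (hX : ∀ i l, AEStronglyMeasurable (fun z => X z i l) μ)
    (hY : ∀ i l, AEStronglyMeasurable (fun z => Y z i l) μ) (h : Integrable (ed X Y) μ) :
    L2V μ X ∧ L2V μ Y := by
  have hle : ∀ (V : Mat K n) (i : Fin K) (l : Fin n), V i l ^ 2 ≤ nsq V := by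
    intro V i l
    unfold nsq
    have h1 : V i l ^ 2 ≤ ∑ l, V i l ^ 2 :=
      Finset.single_le_sum (f := fun l => V i l ^ 2) (fun _ _ => sq_nonneg _) (Finset.mem_univ l)
    have h2 : ∑ l, V i l ^ 2 ≤ ∑ i, ∑ l, V i l ^ 2 :=
      Finset.single_le_sum (f := fun i => ∑ l, V i l ^ 2)
        (fun _ _ => Finset.sum_nonneg fun _ _ => sq_nonneg _) (Finset.mem_univ i)
    exact h1.trans h2
  refine ⟨fun i l => ?_, fun i l => ?_⟩
  · rw [memLp_two_iff_integrable_sq (hX i l)]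
    refine h.mono' ((hX i l).pow 2) (Eventually.of_forall fun z => ?_)
    rw [Real.norm_of_nonneg (sq_nonneg _)]
    exact (hle (X z) i l).trans (le_add_of_nonneg_right (nsq_nonneg _))
  · rw [memLp_two_iff_integrable_sq (hY i l)]
    refine h.mono' ((hY i l).pow 2) (Eventually.of_forall fun z => ?_)
    rw [Real.norm_of_nonneg (sq_nonneg _)]
    exact (hle (Y z) i l).trans (le_add_of_nonneg_left (nsq_nonneg _))

theorem L2V.ed {X Y : ℂ → Mat K n} (hX : L2V μ X) (hY : L2V μ Y) : Integrable (DMB.ed X Y) μ := by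
  have h := (hX.dt hX).add (hY.dt hY)
  refine h.congr (Eventually.of_forall fun z => ?_)
  simp only [Pi.add_apply, DMB.ed, nsq_eq_dt]

theorem bl_int {X Y X' Y' : ℂ → Mat K n} {A : ℂ → Fin 3 → ℝ} {B : ℝ}
    (hA : ∀ j, AEStronglyMeasurable (fun z => A z j) μ) (hB : ∀ j, ∀ᵐ z ∂μ, ‖A z j‖ ≤ B)
    (hX : L2V μ X) (hY : L2V μ Y) (hX' : L2V μ X') (hY' : L2V μ Y') :
    Integrable (fun z => bl (A z) (X z) (Y z) (X' z) (Y' z)) μ := by
  unfold bl
  refine ((Integrable.bdd_mul (hX.dt hX') (hA 0) (hB 0)).add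
    (Integrable.bdd_mul ((hX.dt hY').add (hY.dt hX')) (hA 1) (hB 1))).add
    (Integrable.bdd_mul (hY.dt hY') (hA 2) (hB 2))

theorem qd_eq_bl (a : Fin 3 → ℝ) (X Y : Mat K n) : qd a X Y = bl a X Y X Y := by
  unfold qd bl
  rw [nsq_eq_dt, nsq_eq_dt, dt_comm Y X]
  ring

theorem qd_expand (a : Fin 3 → ℝ) (X Y V W : Mat K n) (ε : ℝ) :
    qd a (X - ε • V) (Y - ε • W) = qd a X Y - 2 * ε * bl a X Y V W + ε ^ 2 * qd a V W := by
  unfold qd bl
  rw [nsq_sub, nsq_sub, nsq_smul, nsq_smul, dt_sub_left, dt_sub_right, dt_sub_right]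
  simp only [dt_smul_left, dt_smul_right]
  rw [dt_comm V Y]
  ring

theorem ad_sub (X V : Mat K n) (b : Fin n → ℝ) : ad (X - V) b = ad X b - V := by
  funext i l
  simp [ad]
  ring

theorem sh_sub (X V : Mat K n) (b : Fin n → ℝ) : sh (X - V) b = sh X b - V := by
  funext i l
  simp [sh]
  ring

/-- A quadratic polynomial with minimum at `0`. -/
theorem linear_zero {L Q ε0 : ℝ} (h0 : 0 < ε0)
    (h : ∀ ε : ℝ, |ε| ≤ ε0 → 0 ≤ -2 * ε * L + ε ^ 2 * Q) : L = 0 := by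
  by_contra hL
  have hQ : 0 ≤ Q := by
    have h1 := h ε0 (by rw [abs_of_pos h0])
    have h2 := h (-ε0) (by rw [abs_neg, abs_of_pos h0])
    have h3 : 0 < ε0 ^ 2 := by positivity
    nlinarith
  have hL2 : 0 < |L| := abs_pos.2 hL
  set t : ℝ := min ε0 (|L| / (Q + 1)) with ht
  have ht0 : 0 < t := lt_min h0 (by positivity)
  have htQ : t * Q < 2 * |L| := by
    have h1 : t ≤ |L| / (Q + 1) := min_le_right _ _
    have h2 : t * (Q + 1) ≤ |L| := by
      rwa [le_div_iff₀ (by linarith)] at h1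
    nlinarith
  rcases lt_or_gt_of_ne hL with hneg | hpos
  · have h1 := h (-t) (by rw [abs_neg, abs_of_pos ht0]; exact min_le_left _ _)
    rw [abs_of_neg hneg] at htQ
    nlinarith
  · have h1 := h t (by rw [abs_of_pos ht0]; exact min_le_left _ _)
    rw [abs_of_pos hpos] at htQ
    nlinarith

/-! ### continuity -/

theorem xi_contOn (hXIL : Stmt_XIL) {A : Set ℂ} {u : ℂ → Tup K n} (h : ContG A u) (i : Fin K)
    (l : Fin n) : ContinuousOn (fun z => xi (u z) i l) A := by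
  intro z hz
  have h1 := (h z hz).abs
  rw [abs_zero] at h1
  refine tendsto_iff_dist_tendsto_zero.2 (squeeze_zero (fun _ => dist_nonneg) (fun w => ?_) h1)
  have h2 := (hXIL K n (u w) (u z)).1
  have h3 : (xi (u w) i l - xi (u z) i l) ^ 2 ≤ nsq (xi (u w) - xi (u z)) := by
    unfold nsq
    have h4 : ((xi (u w) - xi (u z)) i l) ^ 2 ≤ ∑ l, (xi (u w) - xi (u z)) i l ^ 2 :=
      Finset.single_le_sum (f := fun l => (xi (u w) - xi (u z)) i l ^ 2)
        (fun _ _ => sq_nonneg _) (Finset.mem_univ l)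
    have h5 : ∑ l, (xi (u w) - xi (u z)) i l ^ 2 ≤ ∑ i, ∑ l, (xi (u w) - xi (u z)) i l ^ 2 :=
      Finset.single_le_sum (f := fun i => ∑ l, (xi (u w) - xi (u z)) i l ^ 2)
        (fun _ _ => Finset.sum_nonneg fun _ _ => sq_nonneg _) (Finset.mem_univ i)
    exact h4.trans h5
  rw [Real.dist_eq]
  exact sq_le_sq.1 (h3.trans h2)

theorem contG_aff (hMET : Stmt_MET) {A : Set ℂ} {u : ℂ → Tup K n} (h : ContG A u) (a : ℂ → ℝ)
    (b : ℂ → E n) (ha : Continuous a) (hb : Continuous b) :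
    ContG A (fun z i => a z • u z i + b z) := by
  intro z hz
  have key : ∀ w, dG (fun i => a w • u w i + b w) (fun i => a z • u z i + b z) ≤
      |a w| * (K * dG (u w) (u z)) + |a w - a z| * ∑ i, ‖u z i‖ + K * ‖b w - b z‖ := by
    intro w
    obtain ⟨σ, hσ⟩ := (hMET K n (u w) (u z) (u z)).2.2.2.2.1
    have h2 := (hMET K n (fun i => a w • u w i + b w) (fun i => a z • u z i + b z)
      (fun i => a z • u z i + b z)).2.2.2.2.2.1 σ
    refine h2.trans ?_
    have h3 : ∀ i, ‖(a w • u w i + b w) - (a z • u z (σ i) + b z)‖ ≤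
        |a w| * dG (u w) (u z) + |a w - a z| * ‖u z (σ i)‖ + ‖b w - b z‖ := by
      intro i
      have e : (a w • u w i + b w) - (a z • u z (σ i) + b z) =
          a w • (u w i - u z (σ i)) + (a w - a z) • u z (σ i) + (b w - b z) := by
        rw [smul_sub, sub_smul]
        abel
      rw [e]
      refine (norm_add₃_le).trans ?_
      rw [norm_smul, norm_smul, Real.norm_eq_abs, Real.norm_eq_abs]
      have h4 : ‖u w i - u z (σ i)‖ ≤ dG (u w) (u z) := by
        rw [hσ]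
        apply Real.le_sqrt_of_sq_le
        unfold sqd
        exact Finset.single_le_sum (f := fun i => ‖u w i - (u z ∘ σ) i‖ ^ 2)
          (fun _ _ => sq_nonneg _) (Finset.mem_univ i)
      gcongr
    have h5 : Real.sqrt (sqd (fun i => a w • u w i + b w)
        ((fun i => a z • u z i + b z) ∘ σ)) ≤
        ∑ i, ‖(a w • u w i + b w) - (a z • u z (σ i) + b z)‖ := by
      rw [Real.sqrt_le_left (Finset.sum_nonneg fun _ _ => norm_nonneg _)]
      unfold sqd
      exact Finset.sum_sq_le_sq_sum_of_nonneg (fun i _ => norm_nonneg _)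
    refine h5.trans ((Finset.sum_le_sum fun i _ => h3 i).trans (le_of_eq ?_))
    rw [Finset.sum_add_distrib, Finset.sum_add_distrib, Finset.sum_const, Finset.sum_const,
      Finset.card_univ, Fintype.card_fin, nsmul_eq_mul, nsmul_eq_mul, ← Finset.mul_sum,
      Equiv.sum_comp σ (fun i => ‖u z i‖)]
    ring
  refine squeeze_zero (fun w => (hMET K n _ _ (u z)).1) key ?_
  have t1 : Tendsto a (𝓝[A] z) (𝓝 (a z)) := (ha.tendsto z).mono_left nhdsWithin_le_nhds
  have t2 : Tendsto b (𝓝[A] z) (𝓝 (b z)) := (hb.tendsto z).mono_left nhdsWithin_le_nhds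
  have t3 : Tendsto (fun w => |a w| * (K * dG (u w) (u z)) + |a w - a z| * ∑ i, ‖u z i‖ +
      K * ‖b w - b z‖) (𝓝[A] z)
      (𝓝 (|a z| * (K * 0) + |a z - a z| * ∑ i, ‖u z i‖ + K * ‖b z - b z‖)) :=
    ((t1.abs.mul ((h z hz).const_mul _)).add
      ((t1.sub tendsto_const_nhds).abs.mul_const _)).add
      ((t2.sub tendsto_const_nhds).norm.const_mul _)
  simpa using t3

/-! ### one side -/

/-- the variation of a multivalued function -/
noncomputable def ue {K n : ℕ} (u : ℂ → Tup K n) (α : Fin n → ℝ) (χ : ℂ → ℝ) (ε : ℝ) (z : ℂ) :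
    Tup K n :=
  fun i => (1 - ε * χ z) • u z i + (ε * (χ z * z.im)) • (WithLp.toLp 2 α : E n)

/-- `x`-derivative of the variation -/
noncomputable def vx {K n : ℕ} (u : ℂ → Tup K n) (X : ℂ → Mat K n) (α : Fin n → ℝ) (χ : ℂ → ℝ)
    (z : ℂ) : Mat K n :=
  χ z • X z + fderiv ℝ χ z 1 • sh (xi (u z)) (z.im • α)

/-- `y`-derivative of the variation -/
noncomputable def vy {K n : ℕ} (u : ℂ → Tup K n) (Y : ℂ → Mat K n) (α : Fin n → ℝ) (χ : ℂ → ℝ)
    (z : ℂ) : Mat K n :=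
  χ z • sh (Y z) α + fderiv ℝ χ z Complex.I • sh (xi (u z)) (z.im • α)

theorem vol_HD (R : ℝ) : volume (HD 0 R) < ⊤ := by
  refine lt_of_le_of_lt (measure_mono (t := ball (0 : ℂ) R) ?_) measure_ball_lt_top
  intro z hz
  have := hz.2
  rw [mem_ball_zero_iff]
  simpa using this

theorem meas_HD (R : ℝ) : MeasurableSet (HD 0 R) := (isOpen_HD 0 R).measurableSet

instance finite_HD (R : ℝ) : IsFiniteMeasure (volume.restrict (HD 0 R)) :=
  ⟨by rw [Measure.restrict_apply_univ]; exact vol_HD R⟩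

theorem compact_half (r : ℝ) : IsCompact {z : ℂ | 0 ≤ z.im ∧ ‖z‖ ≤ r} := by
  have h : {z : ℂ | 0 ≤ z.im ∧ ‖z‖ ≤ r} = {z : ℂ | 0 ≤ z.im} ∩ closedBall (0 : ℂ) r := by
    ext z; simp
  rw [h]
  exact (isCompact_closedBall (0 : ℂ) r).inter_left (isClosed_le continuous_const
    Complex.continuous_im)

theorem cutoff_compact {q r : ℝ} {χ : ℂ → ℝ} (h0 : ∀ z : ℂ, r ≤ ‖z - q‖ → χ z = 0) :
    HasCompactSupport χ := by
  refine HasCompactSupport.intro (isCompact_closedBall (q : ℂ) r) fun z hz => h0 z ?_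
  rw [mem_closedBall, not_le, dist_eq_norm] at hz
  exact hz.le

theorem fderiv_zero_out {q r : ℝ} {χ : ℂ → ℝ} (h0 : ∀ z : ℂ, r ≤ ‖z - q‖ → χ z = 0) {z : ℂ}
    (hz : r < ‖z - q‖) : fderiv ℝ χ z = 0 := by
  have h1 : χ =ᶠ[𝓝 z] fun _ => 0 := by
    have h2 : IsOpen {w : ℂ | r < ‖w - q‖} :=
      isOpen_lt continuous_const (continuous_id.sub continuous_const).norm
    filter_upwards [h2.mem_nhds hz] with w hw
    exact h0 w (le_of_lt hw)
  rw [h1.fderiv_eq]
  simp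

section side

variable {R q r : ℝ} {u : ℂ → Tup K n} {X Y : ℂ → Mat K n} (α : Fin n → ℝ) {χ : ℂ → ℝ}

theorem part_memLp (hXIL : Stmt_XIL) (hqr : |q| + r < R) (hχ : ContDiff ℝ 1 χ)
    (hχ0 : ∀ z : ℂ, r ≤ ‖z - q‖ → χ z = 0) (hu : ContG (HDc 0 R) u) (v : ℂ) (i : Fin K)
    (l : Fin n) :
    MemLp (fun z => fderiv ℝ χ z v * (xi (u z) i l - z.im * α l)) 2
      (volume.restrict (HD 0 R)) := by
  have hc := xi_contOn hXIL hu i l
  have hsub : {z : ℂ | 0 ≤ z.im ∧ ‖z‖ ≤ |q| + r} ⊆ HDc 0 R := fun z hz =>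
    ⟨hz.1, by
      have := hz.2
      simp only [Complex.ofReal_zero, sub_zero]
      linarith⟩
  have hc2 : ContinuousOn (fun z => xi (u z) i l - z.im * α l) (HDc 0 R) :=
    hc.sub (Complex.continuous_im.continuousOn.mul continuousOn_const)
  obtain ⟨B2, hB2⟩ := (compact_half (|q| + r)).exists_bound_of_continuousOn (hc2.mono hsub)
  have hfc : Continuous (fun z => fderiv ℝ χ z v) :=
    (hχ.continuous_fderiv (by norm_num)).clm_apply continuous_const
  have hfs : HasCompactSupport (fun z => fderiv ℝ χ z v) :=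
    (cutoff_compact hχ0).fderiv_apply (𝕜 := ℝ) v
  obtain ⟨B1, hB1⟩ := hfs.exists_bound_of_continuous hfc
  have hB10 : 0 ≤ B1 := (norm_nonneg _).trans (hB1 0)
  refine MemLp.of_bound (C := B1 * |B2|) ?_ ?_
  · exact (hfc.continuousOn.mul (hc2.mono (HD_subset_HDc 0 R))).aestronglyMeasurable (meas_HD R)
  · rw [ae_restrict_iff' (meas_HD R)]
    refine Eventually.of_forall fun z hz => ?_
    by_cases h : r < ‖z - q‖
    · rw [fderiv_zero_out hχ0 h]
      simp only [zero_apply, zero_mul, norm_zero]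
      positivity
    · push Not at h
      have h1 : ‖z‖ ≤ |q| + r := by
        have : ‖z‖ ≤ ‖z - q‖ + ‖(q : ℂ)‖ := by
          have := norm_add_le (z - q) (q : ℂ)
          simpa using this
        rw [Complex.norm_real, Real.norm_eq_abs] at this
        linarith
      rw [norm_mul]
      exact mul_le_mul (hB1 z) ((hB2 z ⟨hz.1.le, h1⟩).trans (le_abs_self _)) (norm_nonneg _) hB10

theorem bdd_memLp {R : ℝ} {f : ℂ → ℝ} (hχ : Continuous χ) (hcs : HasCompactSupport χ)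
    (hf : MemLp f 2 (volume.restrict (HD 0 R))) :
    MemLp (fun z => χ z * f z) 2 (volume.restrict (HD 0 R)) := by
  obtain ⟨B1, hB1⟩ := hcs.exists_bound_of_continuous hχ
  refine hf.of_le_mul (c := B1) (hχ.aestronglyMeasurable.mul hf.aestronglyMeasurable)
    (Eventually.of_forall fun z => ?_)
  rw [norm_mul]
  exact mul_le_mul_of_nonneg_right (hB1 z) (norm_nonneg _)

theorem side_L2 (hXIL : Stmt_XIL) (hqr : |q| + r < R) (hχ : ContDiff ℝ 1 χ)
    (hχ0 : ∀ z : ℂ, r ≤ ‖z - q‖ → χ z = 0) (hu : ContG (HDc 0 R) u)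
    (hX : L2V (volume.restrict (HD 0 R)) X) (hY : L2V (volume.restrict (HD 0 R)) Y) :
    L2V (volume.restrict (HD 0 R)) (vx u X α χ) ∧ L2V (volume.restrict (HD 0 R)) (vy u Y α χ) := by
  refine ⟨fun i l => ?_, fun i l => ?_⟩
  · exact (bdd_memLp hχ.continuous (cutoff_compact hχ0) (hX i l)).add
      (part_memLp α hXIL hqr hχ hχ0 hu 1 i l)
  · exact (bdd_memLp hχ.continuous (cutoff_compact hχ0)
      ((hY i l).sub (memLp_const (α l)))).add (part_memLp α hXIL hqr hχ hχ0 hu Complex.I i l)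

theorem side_cont (hMET : Stmt_MET) (hχ : ContDiff ℝ 1 χ) (hu : ContG (HDc 0 R) u) (ε : ℝ) :
    ContG (HDc 0 R) (ue u α χ ε) := by
  refine contG_aff hMET hu (fun z => 1 - ε * χ z)
    (fun z => (ε * (χ z * z.im)) • (WithLp.toLp 2 α : E n)) ?_ ?_
  · exact continuous_const.sub (continuous_const.mul hχ.continuous)
  · exact (continuous_const.mul (hχ.continuous.mul Complex.continuous_im)).smul continuous_const

theorem xi_ue (hAFF : Stmt_AFF) {ε : ℝ} {z : ℂ} (h : 0 ≤ 1 - ε * χ z) :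
    xi (ue u α χ ε z) =
      fun i l => (1 - ε * χ z) * xi (u z) i l + (ε * (χ z * z.im)) * α l := by
  have h1 := (hAFF K n (u z)).1 (1 - ε * χ z) ((ε * (χ z * z.im)) • (WithLp.toLp 2 α : E n)) h
  unfold ue
  rw [h1]
  funext i l
  simp

theorem side_grad (hAFF : Stmt_AFF) (hGAL : Stmt_GAL) (hGMU : Stmt_GMU) (hGC1 : Stmt_GC1)
    (hχ : ContDiff ℝ 1 χ) (hg : HasGradV (HD 0 R) (fun z => xi (u z)) X Y) {ε : ℝ}
    (h : ∀ z, 0 ≤ 1 - ε * χ z) :
    HasGradV (HD 0 R) (fun z => xi (ue u α χ ε z)) (fun z => X z - ε • vx u X α χ z)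
      (fun z => Y z - ε • vy u Y α χ z) := by
  intro i l
  have hU := isOpen_HD 0 R
  obtain ⟨-, -, gadd, -, gcongr'⟩ := hGAL (HD 0 R) hU
  have ha : ContDiff ℝ 1 (fun z : ℂ => 1 - ε * χ z) := contDiff_const.sub (contDiff_const.mul hχ)
  have him : ContDiff ℝ 1 (fun z : ℂ => z.im) := Complex.imCLM.contDiff
  have hb : ContDiff ℝ 1 (fun z : ℂ => (ε * (χ z * z.im)) * α l) :=
    (contDiff_const.mul (hχ.mul him)).mul contDiff_const
  have g1 := hGC1 (HD 0 R) _ hU ha.contDiffOn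
  have g2 := hGC1 (HD 0 R) _ hU hb.contDiffOn
  have g3 := hGMU (HD 0 R) _ _ _ _ _ _ hU g1 (hg i l)
  have g4 := gadd _ _ _ _ _ _ g3 g2
  have hχd : ∀ z, HasFDerivAt χ (fderiv ℝ χ z) z := fun z =>
    (hχ.differentiable (by norm_num) z).hasFDerivAt
  have hd1 : ∀ z, HasFDerivAt (fun z : ℂ => 1 - ε * χ z) (-(ε • fderiv ℝ χ z)) z := fun z =>
    ((hχd z).const_mul ε).const_sub 1
  have hd2 : ∀ z : ℂ, HasFDerivAt (fun z : ℂ => (ε * (χ z * z.im)) * α l)
      (α l • (ε • (χ z • Complex.imCLM + z.im • fderiv ℝ χ z))) z := fun z => by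
    have h1 : HasFDerivAt (fun z : ℂ => z.im) Complex.imCLM z := Complex.imCLM.hasFDerivAt
    exact (((hχd z).mul h1).const_mul ε).mul_const (α l)
  refine gcongr' _ _ _ _ _ _ g4 ?_ ?_ ?_
  · intro z _
    show xi (ue u α χ ε z) i l = _
    rw [xi_ue α hAFF (h z)]
  · refine Eventually.of_forall fun z => ?_
    simp only [(hd1 z).fderiv, (hd2 z).fderiv]
    simp only [vx, sh, Pi.sub_apply, Pi.smul_apply, Pi.add_apply, smul_eq_mul,
      _root_.neg_apply, _root_.smul_apply, _root_.add_apply,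
      Complex.imCLM_apply, Complex.one_im]
    ring
  · refine Eventually.of_forall fun z => ?_
    simp only [(hd1 z).fderiv, (hd2 z).fderiv]
    simp only [vy, sh, Pi.sub_apply, Pi.smul_apply, Pi.add_apply, smul_eq_mul,
      _root_.neg_apply, _root_.smul_apply, _root_.add_apply,
      Complex.imCLM_apply, Complex.I_im]
    ring

theorem ue_eq {ε : ℝ} {z : ℂ} (h : χ z = 0) : ue u α χ ε z = u z := by
  funext i
  simp [ue, h]

end side

theorem coef_bound {R C : ℝ} {A : ℂ → Fin 3 → ℝ} (hR : 0 < R) (hs : C * R ^ 2 ≤ 1 / 4)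
    (hC : 0 < C)
    (hA : ∀ z ∈ HD 0 R, |A z 0 - 1| ≤ C * z.im ^ 2 ∧ |A z 1| ≤ C * z.im ^ 2 ∧
      |A z 2 - 1| ≤ C * z.im ^ 2) (j : Fin 3) :
    ∀ᵐ z ∂(volume.restrict (HD 0 R)), ‖A z j‖ ≤ 2 := by
  rw [ae_restrict_iff' (meas_HD R)]
  refine Eventually.of_forall fun z hz => ?_
  obtain ⟨h0, h1, h2⟩ := hA z hz
  have h3 : z.im ^ 2 ≤ R ^ 2 := by
    have h4 : |z.im| ≤ ‖z‖ := Complex.abs_im_le_norm z
    have h5 : ‖z‖ < R := by simpa using hz.2
    rw [← sq_abs]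
    nlinarith [abs_nonneg z.im]
  have h4 : C * z.im ^ 2 ≤ 1 / 4 := le_trans (by nlinarith) hs
  rw [Real.norm_eq_abs]
  have hh : ∀ x : ℝ, |x - 1| ≤ 1 / 4 → |x| ≤ 2 := by
    intro x hx
    rw [abs_le] at hx ⊢
    constructor <;> linarith [hx.1, hx.2]
  fin_cases j
  · exact hh _ (h0.trans h4)
  · exact (h1.trans h4).trans (by norm_num)
  · exact hh _ (h2.trans h4)

theorem eta_memLp {k d n : ℕ} {F : Flat k d n} (hF : F.Ok) :
    (∀ j, MemLp (fun z => F.ηx z j) 2 (volume.restrict (HD 0 F.R))) ∧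
    (∀ j, MemLp (fun z => F.ηy z j) 2 (volume.restrict (HD 0 F.R))) := by
  have hR := hF.hR
  obtain ⟨a, b, ha, hb, hab⟩ := hF.ηb 0 (by rw [abs_zero]; exact hR)
  have hC := hF.hC
  have hbd : ∀ z ∈ HD 0 F.R, |z.re| ≤ F.R ∧ |z.im| ≤ F.R ∧ ‖z - ((0 : ℝ) : ℂ)‖ ^ 2 ≤ F.R ^ 2 := by
    intro z hz
    have h5 : ‖z‖ < F.R := by simpa using hz.2
    refine ⟨(Complex.abs_re_le_norm z).trans h5.le, (Complex.abs_im_le_norm z).trans h5.le, ?_⟩
    have : ‖z - ((0 : ℝ) : ℂ)‖ = ‖z‖ := by simp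
    rw [this]
    nlinarith [norm_nonneg z]
  refine ⟨fun j => ?_, fun j => ?_⟩
  · refine MemLp.of_bound (C := F.C * F.R ^ 2 + F.C + F.R * F.C) ((hF.ηg j).mx) ?_
    rw [ae_restrict_iff' (meas_HD F.R)]
    refine Eventually.of_forall fun z hz => ?_
    obtain ⟨h1, h2, h3⟩ := hbd z hz
    have h4 := (hab z hz j).1
    rw [Real.norm_eq_abs]
    have h5 : |(z.re - 0) * b j| ≤ F.R * F.C := by
      rw [abs_mul, sub_zero]
      exact mul_le_mul h1 (hb j) (abs_nonneg _) hR.le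
    have h6 : |F.ηx z j - (a j + (z.re - 0) * b j)| ≤ F.C * F.R ^ 2 :=
      h4.trans (mul_le_mul_of_nonneg_left h3 hC.le)
    have e : F.ηx z j = (F.ηx z j - (a j + (z.re - 0) * b j)) + a j + (z.re - 0) * b j := by ring
    rw [e]
    refine (abs_add_three _ _ _).trans ?_
    have := ha j
    linarith
  · refine MemLp.of_bound (C := F.C * F.R ^ 2 + F.R * F.C) ((hF.ηg j).my) ?_
    rw [ae_restrict_iff' (meas_HD F.R)]
    refine Eventually.of_forall fun z hz => ?_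
    obtain ⟨h1, h2, h3⟩ := hbd z hz
    have h4 := (hab z hz j).2
    rw [Real.norm_eq_abs]
    have h5 : |z.im * b j| ≤ F.R * F.C := by
      rw [abs_mul]
      exact mul_le_mul h2 (hb j) (abs_nonneg _) hR.le
    have h6 : |F.ηy z j + z.im * b j| ≤ F.C * F.R ^ 2 :=
      h4.trans (mul_le_mul_of_nonneg_left h3 hC.le)
    have e : F.ηy z j = (F.ηy z j + z.im * b j) - z.im * b j := by ring
    rw [e]
    refine (abs_sub _ _).trans ?_
    linarith

end OU1_

open OU1_ in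
theorem ou1_proof (hMET : Stmt_MET) (hXIL : Stmt_XIL) (hAFF : Stmt_AFF) (hGAL : Stmt_GAL)
    (hGMU : Stmt_GMU) (hGC1 : Stmt_GC1) (_hGUN : Stmt_GUN) : Stmt_OU1 := by
  intro k d n F hF q r α χ hr hqr hχ hχ0
  have hR := hF.hR
  have hC := hF.hC
  set μ := volume.restrict (HD 0 F.R) with hμ
  -- square integrability
  obtain ⟨hPx, hPy⟩ := L2V.of_ed (μ := μ) (fun i l => (hF.pg i l).mx) (fun i l => (hF.pg i l).my)
    hF.pI
  obtain ⟨hLx, hLy⟩ := L2V.of_ed (μ := μ) (fun i l => (hF.lg i l).mx) (fun i l => (hF.lg i l).my)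
    hF.lI
  obtain ⟨hηx, hηy⟩ := eta_memLp hF
  obtain ⟨hV, hW⟩ := side_L2 α hXIL hqr hχ hχ0 hF.pc hPx hPy
  obtain ⟨hV', hW'⟩ := side_L2 α hXIL hqr hχ hχ0 hF.lc hLx hLy
  have hPx' : L2V μ (fun z => ad (F.Px z) (F.ηx z)) := hPx.add (L2V.rw' hηx)
  have hPy' : L2V μ (fun z => ad (F.Py z) (F.ηy z)) := hPy.add (L2V.rw' hηy)
  have hLx' : L2V μ (fun z => sh (F.Lx z) (F.ηx z)) := hLx.sub (L2V.rw' hηx)
  have hLy' : L2V μ (fun z => sh (F.Ly z) (F.ηy z)) := hLy.sub (L2V.rw' hηy)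
  have hAb := coef_bound hR hF.small hC hF.Ab
  have hBb := coef_bound hR hF.small hC hF.Bb
  have hAm : ∀ j, AEStronglyMeasurable (fun z => F.A z j) μ :=
    fun j => (hF.Am j).aestronglyMeasurable
  have hBm : ∀ j, AEStronglyMeasurable (fun z => F.B z j) μ :=
    fun j => (hF.Bm j).aestronglyMeasurable
  -- the three integrands
  set V := vx F.p F.Px α χ with hVdef
  set W := vy F.p F.Py α χ with hWdef
  set V' := vx F.l F.Lx α χ with hVdef'
  set W' := vy F.l F.Ly α χ with hWdef'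
  have iE := (bl_int hAm hAb hPx' hPy' hPx' hPy').add (bl_int hBm hBb hLx' hLy' hLx' hLy')
  have iL := (bl_int hAm hAb hPx' hPy' hV hW).add (bl_int hBm hBb hLx' hLy' hV' hW')
  have iQ := (bl_int hAm hAb hV hW hV hW).add (bl_int hBm hBb hV' hW' hV' hW')
  set E0 := fun z => bl (F.A z) (ad (F.Px z) (F.ηx z)) (ad (F.Py z) (F.ηy z))
    (ad (F.Px z) (F.ηx z)) (ad (F.Py z) (F.ηy z)) + bl (F.B z) (sh (F.Lx z) (F.ηx z))
    (sh (F.Ly z) (F.ηy z)) (sh (F.Lx z) (F.ηx z)) (sh (F.Ly z) (F.ηy z)) with hE0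
  set L0 := fun z => bl (F.A z) (ad (F.Px z) (F.ηx z)) (ad (F.Py z) (F.ηy z)) (V z) (W z) +
    bl (F.B z) (sh (F.Lx z) (F.ηx z)) (sh (F.Ly z) (F.ηy z)) (V' z) (W' z) with hL0
  set Q0 := fun z => bl (F.A z) (V z) (W z) (V z) (W z) + bl (F.B z) (V' z) (W' z) (V' z) (W' z)
    with hQ0
  have iE' : Integrable E0 μ := iE
  have iL' : Integrable L0 μ := iL
  have iQ' : Integrable Q0 μ := iQ
  have hexp : ∀ ε : ℝ, F.En (fun z => F.Px z - ε • V z) (fun z => F.Py z - ε • W z)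
      (fun z => F.Lx z - ε • V' z) (fun z => F.Ly z - ε • W' z) =
      (∫ z, E0 z ∂μ) + (-2 * ε * (∫ z, L0 z ∂μ) + ε ^ 2 * ∫ z, Q0 z ∂μ) := by
    intro ε
    have h1 : ∀ z, qd (F.A z) (ad (F.Px z - ε • V z) (F.ηx z)) (ad (F.Py z - ε • W z) (F.ηy z)) +
        qd (F.B z) (sh (F.Lx z - ε • V' z) (F.ηx z)) (sh (F.Ly z - ε • W' z) (F.ηy z)) =
        E0 z + (-2 * ε * L0 z + ε ^ 2 * Q0 z) := by
      intro z
      rw [ad_sub, ad_sub, sh_sub, sh_sub, qd_expand, qd_expand, hE0, hL0, hQ0]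
      simp only [qd_eq_bl]
      ring
    have h2 : ∫ z, (E0 z + (-2 * ε * L0 z + ε ^ 2 * Q0 z)) ∂μ =
        (∫ z, E0 z ∂μ) + (-2 * ε * (∫ z, L0 z ∂μ) + ε ^ 2 * ∫ z, Q0 z ∂μ) := by
      have i1 : Integrable (fun z => -2 * ε * L0 z) μ := iL'.const_mul (-2 * ε)
      have i2 : Integrable (fun z => ε ^ 2 * Q0 z) μ := iQ'.const_mul (ε ^ 2)
      have i3 : Integrable (fun z => -2 * ε * L0 z + ε ^ 2 * Q0 z) μ := i1.add i2
      rw [integral_add iE' i3, integral_add i1 i2, integral_const_mul, integral_const_mul]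
    unfold Flat.En
    simp only [h1]
    exact h2
  have hexp0 : F.En F.Px F.Py F.Lx F.Ly = ∫ z, E0 z ∂μ := by
    unfold Flat.En
    simp only [qd_eq_bl, hE0]
    rfl
  -- bound for the cutoff
  obtain ⟨B, hB⟩ := (cutoff_compact hχ0).exists_bound_of_continuous hχ.continuous
  have hB0 : 0 ≤ B := (norm_nonneg _).trans (hB 0)
  have hpos : ∀ ε : ℝ, |ε| ≤ 1 / (B + 1) → ∀ z, 0 ≤ 1 - ε * χ z := by
    intro ε hε z
    have h1 : |ε * χ z| ≤ 1 := by
      rw [abs_mul]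
      have h2 := hB z
      rw [Real.norm_eq_abs] at h2
      rw [le_div_iff₀ (by linarith)] at hε
      nlinarith [abs_nonneg ε, abs_nonneg (χ z)]
    have := (abs_le.1 h1).2
    linarith
  have hmain : (∫ z, L0 z ∂μ) = 0 := by
    refine linear_zero (Q := ∫ z, Q0 z ∂μ) (ε0 := 1 / (B + 1)) (by positivity) fun ε hε => ?_
    have hp := hpos ε hε
    have hr' : 0 < |q| + r := by positivity
    have hout : ∀ z : ℂ, |q| + r ≤ ‖z - ((0 : ℝ) : ℂ)‖ → χ z = 0 := by
      intro z hz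
      refine hχ0 z ?_
      have h1 : ‖z‖ ≤ ‖z - q‖ + ‖(q : ℂ)‖ := by
        have := norm_add_le (z - q) (q : ℂ)
        simpa using this
      rw [Complex.norm_real, Real.norm_eq_abs] at h1
      have h2 : ‖z - ((0 : ℝ) : ℂ)‖ = ‖z‖ := by simp
      rw [h2] at hz
      linarith
    have hCp : F.Cp 0 (|q| + r) (ue F.p α χ ε) (ue F.l α χ ε) (fun z => F.Px z - ε • V z)
        (fun z => F.Py z - ε • W z) (fun z => F.Lx z - ε • V' z)
        (fun z => F.Ly z - ε • W' z) := by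
      refine ⟨side_cont α hMET hχ hF.pc ε, side_cont α hMET hχ hF.lc ε,
        side_grad α hAFF hGAL hGMU hGC1 hχ hF.pg hp, side_grad α hAFF hGAL hGMU hGC1 hχ hF.lg hp,
        (hPx.sub (hV.smul ε)).ed (hPy.sub (hW.smul ε)),
        (hLx.sub (hV'.smul ε)).ed (hLy.sub (hW'.smul ε)), ?_, ?_⟩
      · intro x hx
        obtain ⟨σ, hσ⟩ := hF.bd x hx
        refine ⟨σ, ?_⟩
        funext i
        have h1 := congrFun hσ i
        simp only [Function.comp_apply] at h1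
        simp only [ue, Function.comp_apply, Complex.ofReal_im, mul_zero, zero_smul, add_zero]
        rw [h1]
        generalize σ i = j
        refine Fin.addCases (fun j => ?_) (fun j => ?_) j
        · simp only [Fin.append_left, smul_neg]
        · simp only [Fin.append_right, smul_zero]
      · intro z hz hz2
        have h0 : χ z = 0 := hout z hz2
        rw [ue_eq α h0, ue_eq α h0]
        exact ⟨Same.refl' _, Same.refl' _⟩
    have h1 := hF.min (|q| + r) hr' hqr _ _ _ _ _ _ hCp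
    rw [hexp ε, hexp0] at h1
    linarith
  exact hmain

end Pool.Agent.DMB
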