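import Pool.Agent.DMB.Api

/-!
The outer variation inequality on half circles (module OUT of squad DMB).
-/

namespace Pool.Agent.DMB

open MeasureTheory Set Metric Filter Topology
open scoped ENNReal

namespace OUT_

variable {K n : ℕ}

/-- linear form of the first variation minus its harmonic part -/
noncomputable def fb (c : Fin 3 → ℝ) (X Y S1 S2 : Mat K n) (e1 e2 h1 h2 : Fin n → ℝ) : ℝ :=
  bl c (X + rw' K e1) (Y + rw' K e2) S1 S2 - (vdt (sm S1) h1 + vdt (sm S2) h2)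

theorem vdt_sub (v e h : Fin n → ℝ) : vdt v (e - h) = vdt v e - vdt v h := by
  simp [vdt, mul_sub, Finset.sum_sub_distrib]

theorem abs_vdt_le (v w : Fin n → ℝ) (δ ρ : ℝ) (hδ : 0 ≤ δ) (hρ : 0 ≤ ρ) (hw : ∀ j, |w j| ≤ δ) :
    ρ * |vdt v w| ≤ δ * ((n : ℝ) * ρ ^ 2 + vsq v) / 2 := by
  have h1 : |vdt v w| ≤ ∑ j, |v j| * |w j| := by
    unfold vdt
    refine (Finset.abs_sum_le_sum_abs _ _).trans (le_of_eq ?_)
    exact Finset.sum_congr rfl fun j _ => abs_mul _ _
  calc ρ * |vdt v w| ≤ ρ * ∑ j, |v j| * |w j| := mul_le_mul_of_nonneg_left h1 hρ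
    _ = ∑ j, ρ * (|v j| * |w j|) := Finset.mul_sum _ _ _
    _ ≤ ∑ j, δ * (ρ ^ 2 + v j ^ 2) / 2 := by
        refine Finset.sum_le_sum fun j _ => ?_
        have h2 : ρ * (|v j| * |w j|) ≤ ρ * (|v j| * δ) :=
          mul_le_mul_of_nonneg_left (mul_le_mul_of_nonneg_left (hw j) (abs_nonneg _)) hρ
        have h3 : 2 * (ρ * |v j|) ≤ ρ ^ 2 + v j ^ 2 := by
          have := sq_nonneg (ρ - |v j|)
          have h4 := sq_abs (v j)
          nlinarith
        nlinarith [mul_le_mul_of_nonneg_left h3 hδ]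
    _ = δ * ((n : ℝ) * ρ ^ 2 + vsq v) / 2 := by
        rw [← Finset.sum_div, ← Finset.mul_sum, Finset.sum_add_distrib, vsq]
        simp

theorem fb_close (c : Fin 3 → ℝ) (X Y S1 S2 : Mat K n) (e1 e2 h1 h2 : Fin n → ℝ)
    (δ δ' E ρ : ℝ) (c0 : |c 0 - 1| ≤ δ) (c1 : |c 1| ≤ δ) (c2 : |c 2 - 1| ≤ δ)
    (d1 : ∀ j, |e1 j - h1 j| ≤ δ') (d2 : ∀ j, |e2 j - h2 j| ≤ δ') (hδ' : 0 ≤ δ')
    (hE : vsq e1 + vsq e2 ≤ E) (hρ : 0 ≤ ρ) :
    ρ * |fb c X Y S1 S2 e1 e2 h1 h2 - (dt X S1 + dt Y S2)| ≤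
      δ * (ρ ^ 2 * (2 * (nsq X + nsq Y) + 2 * K * E) + (nsq S1 + nsq S2)) +
      δ' * ((n : ℝ) * ρ ^ 2 + K * (nsq S1 + nsq S2)) := by
  have hδ : 0 ≤ δ := le_trans (abs_nonneg _) c1
  have e : fb c X Y S1 S2 e1 e2 h1 h2 - (dt X S1 + dt Y S2) =
      (bl c (X + rw' K e1) (Y + rw' K e2) S1 S2 -
        (dt (X + rw' K e1) S1 + dt (Y + rw' K e2) S2)) +
      (vdt (sm S1) (e1 - h1) + vdt (sm S2) (e2 - h2)) := by
    rw [fb, vdt_sub, vdt_sub, dt_add_left, dt_add_left, dt_comm (rw' K e1), dt_comm (rw' K e2),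
      dt_rw, dt_rw]
    ring
  set A := nsq (X + rw' K e1) + nsq (Y + rw' K e2) with hA
  set B := nsq S1 + nsq S2 with hB
  have hA0 : 0 ≤ A := add_nonneg (nsq_nonneg _) (nsq_nonneg _)
  have hB0 : 0 ≤ B := add_nonneg (nsq_nonneg _) (nsq_nonneg _)
  have hbl := bl_close c δ c0 c1 c2 (X + rw' K e1) (Y + rw' K e2) S1 S2
  have v1 := abs_vdt_le (sm S1) (e1 - h1) δ' ρ hδ' hρ (fun j => by simpa using d1 j)
  have v2 := abs_vdt_le (sm S2) (e2 - h2) δ' ρ hδ' hρ (fun j => by simpa using d2 j)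
  have s1 := vsq_sm_le S1
  have s2 := vsq_sm_le S2
  have hAle : A ≤ 2 * (nsq X + nsq Y) + 2 * K * E := by
    have a1 : nsq (X + rw' K e1) ≤ 2 * nsq X + 2 * (K * vsq e1) := by
      rw [nsq_add, ← nsq_rw (K := K) e1]
      linarith [two_dt_le X (rw' K e1)]
    have a2 : nsq (Y + rw' K e2) ≤ 2 * nsq Y + 2 * (K * vsq e2) := by
      rw [nsq_add, ← nsq_rw (K := K) e2]
      linarith [two_dt_le Y (rw' K e2)]
    have hK : (0 : ℝ) ≤ K := Nat.cast_nonneg K
    have := mul_le_mul_of_nonneg_left hE hK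
    nlinarith
  have hs : ρ * (2 * (Real.sqrt A * Real.sqrt B)) ≤ ρ ^ 2 * A + B := by
    have h1 := Real.sq_sqrt hA0
    have h2 := Real.sq_sqrt hB0
    nlinarith [sq_nonneg (ρ * Real.sqrt A - Real.sqrt B)]
  have hAE : ρ ^ 2 * A ≤ ρ ^ 2 * (2 * (nsq X + nsq Y) + 2 * K * E) :=
    mul_le_mul_of_nonneg_left hAle (sq_nonneg ρ)
  have m1 : ρ * |bl c (X + rw' K e1) (Y + rw' K e2) S1 S2 -
        (dt (X + rw' K e1) S1 + dt (Y + rw' K e2) S2)| ≤
      δ * (ρ ^ 2 * (2 * (nsq X + nsq Y) + 2 * K * E) + B) := by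
    have h1 := mul_le_mul_of_nonneg_left hbl hρ
    have h2 : ρ * (2 * δ * (Real.sqrt A * Real.sqrt B)) ≤ δ * (ρ ^ 2 * A + B) := by
      have := mul_le_mul_of_nonneg_left hs hδ
      linarith
    have h3 := mul_le_mul_of_nonneg_left hAE hδ
    linarith
  have m2 : ρ * |vdt (sm S1) (e1 - h1) + vdt (sm S2) (e2 - h2)| ≤
      δ' * ((n : ℝ) * ρ ^ 2 + K * B) := by
    have h1 := mul_le_mul_of_nonneg_left (abs_add_le (vdt (sm S1) (e1 - h1))
      (vdt (sm S2) (e2 - h2))) hρ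
    have h2 : δ' * (vsq (sm S1) + vsq (sm S2)) ≤ δ' * (K * B) := by
      refine mul_le_mul_of_nonneg_left ?_ hδ'
      rw [hB]
      linarith
    have h3 : 0 ≤ δ' * (K * B) := mul_nonneg hδ' (mul_nonneg (Nat.cast_nonneg K) hB0)
    linarith
  rw [e]
  have h4 := mul_le_mul_of_nonneg_left (abs_add_le (bl c (X + rw' K e1) (Y + rw' K e2) S1 S2 -
        (dt (X + rw' K e1) S1 + dt (Y + rw' K e2) S2))
      (vdt (sm S1) (e1 - h1) + vdt (sm S2) (e2 - h2))) hρ
  linarith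

theorem sm_lin (s t : ℝ) (X Z : Mat K n) (h : Fin n → ℝ) :
    vdt (sm (s • X + t • Z)) h = s * vdt (sm X) h + t * vdt (sm Z) h := by
  rw [sm_add, sm_smul, sm_smul]
  simp only [vdt, Pi.add_apply, Pi.smul_apply, smul_eq_mul, Finset.mul_sum]
  rw [← Finset.sum_add_distrib]
  exact Finset.sum_congr rfl fun j _ => by ring

theorem fb_lin (c : Fin 3 → ℝ) (X Y Z : Mat K n) (e1 e2 h1 h2 : Fin n → ℝ) (s sx sy : ℝ) :
    fb c X Y (s • X + sx • Z) (s • Y + sy • Z) e1 e2 h1 h2 =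
      s * fb c X Y X Y e1 e2 h1 h2 +
        (sx * fb c X Y Z 0 e1 e2 h1 h2 + sy * fb c X Y 0 Z e1 e2 h1 h2) := by
  have z1 : ∀ v : Mat K n, dt v 0 = 0 := fun v => by simp [dt]
  have z2 : ∀ h : Fin n → ℝ, vdt (sm (0 : Mat K n)) h = 0 := fun v => by simp [vdt, sm]
  simp only [fb, bl, dt_add_right, dt_smul_right, sm_lin, z1, z2]
  ring

theorem fb_circ (c : Fin 3 → ℝ) (X Y Z : Mat K n) (e1 e2 h1 h2 : Fin n → ℝ) (s t : ℝ) :
    fb c X Y (s • Z) (t • Z) e1 e2 h1 h2 =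
      s * fb c X Y Z 0 e1 e2 h1 h2 + t * fb c X Y 0 Z e1 e2 h1 h2 := by
  have := fb_lin c X Y Z e1 e2 h1 h2 0 s t
  simpa using this

/-- a one sided part of a flattened system -/
structure Sd (K n : ℕ) (R C q : ℝ) (η1 η2 : ℂ → Fin n → ℝ) (a b : Fin n → ℝ) (σ : ℝ)
    (c : ℂ → Fin 3 → ℝ) (T X Y : ℂ → Mat K n) : Prop where
  hR : 0 < R
  hC : 0 < C
  small : C * R ^ 2 ≤ 1 / 4
  hq : |q| < R
  hσ : σ ^ 2 = 1
  cm : ∀ j, Measurable (fun z => c z j)
  cb : ∀ z ∈ HD 0 R, |c z 0 - 1| ≤ C * z.im ^ 2 ∧ |c z 1| ≤ C * z.im ^ 2 ∧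
    |c z 2 - 1| ≤ C * z.im ^ 2
  m1 : ∀ j, AEStronglyMeasurable (fun z => η1 z j) (volume.restrict (HD 0 R))
  m2 : ∀ j, AEStronglyMeasurable (fun z => η2 z j) (volume.restrict (HD 0 R))
  ha : ∀ j, |a j| ≤ C
  hb : ∀ j, |b j| ≤ C
  hη : ∀ z ∈ HD 0 R, ∀ j, |η1 z j - (a j + (z.re - q) * b j)| ≤ C * ‖z - q‖ ^ 2 ∧
    |η2 z j + z.im * b j| ≤ C * ‖z - q‖ ^ 2
  grad : HasGradV (HD 0 R) T X Y
  cont : ∀ i l, ContinuousOn (fun z => T z i l) (HDc 0 R)
  int : IntegrableOn (ed X Y) (HD 0 R)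

section

variable {R C q σ : ℝ} {η1 η2 : ℂ → Fin n → ℝ} {a b : Fin n → ℝ} {c : ℂ → Fin 3 → ℝ}
  {T X Y : ℂ → Mat K n} (S : Sd K n R C q η1 η2 a b σ c T X Y) (α : Fin n → ℝ)

theorem nsub_le {z : ℂ} (hq : |q| < R) (hz : z ∈ HD 0 R) : ‖z - q‖ ≤ 2 * R := by
  have h1 : ‖(q : ℂ)‖ = |q| := by simp
  have h2 := hz.2
  rw [Complex.ofReal_zero, sub_zero] at h2
  have := norm_sub_le z (q : ℂ)
  linarith

theorem im_le {z : ℂ} (q : ℝ) : |z.im| ≤ ‖z - q‖ := by
  have := Complex.abs_im_le_norm (z - q)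
  simpa using this

theorem re_le {z : ℂ} (q : ℝ) : |z.re - q| ≤ ‖z - q‖ := by
  have := Complex.abs_re_le_norm (z - q)
  simpa using this

/-- bound of the extension -/
noncomputable def E1 (C R : ℝ) : ℝ := C * (1 + 2 * R + 4 * R ^ 2)

include S in
theorem eta_bound {z : ℂ} (hz : z ∈ HD 0 R) (j : Fin n) :
    |η1 z j| ≤ E1 C R ∧ |η2 z j| ≤ E1 C R := by
  have h0 := nsub_le S.hq hz
  have h0' := norm_nonneg (z - q)
  have hC := S.hC
  have hR := S.hR
  obtain ⟨h1, h2⟩ := S.hη z hz j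
  have ha := S.ha j
  have hb := S.hb j
  have hsq : ‖z - q‖ ^ 2 ≤ 4 * R ^ 2 := by nlinarith
  have hsqC : C * ‖z - q‖ ^ 2 ≤ C * (4 * R ^ 2) := mul_le_mul_of_nonneg_left hsq hC.le
  constructor
  · have e : η1 z j = (η1 z j - (a j + (z.re - q) * b j)) + (a j + (z.re - q) * b j) := by ring
    rw [e]
    refine (abs_add_le _ _).trans ?_
    have h3 := abs_add_le (a j) ((z.re - q) * b j)
    have h4 : |(z.re - q) * b j| ≤ 2 * R * C := by
      rw [abs_mul]
      exact mul_le_mul ((re_le q).trans h0) hb (abs_nonneg _) (by linarith)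
    unfold E1
    linarith
  · have e : η2 z j = (η2 z j + z.im * b j) - z.im * b j := by ring
    rw [e]
    refine (abs_sub _ _).trans ?_
    have h4 : |z.im * b j| ≤ 2 * R * C := by
      rw [abs_mul]
      exact mul_le_mul ((im_le q).trans h0) hb (abs_nonneg _) (by linarith)
    unfold E1
    linarith

/-- constant for the energy of the extension -/
noncomputable def E2 (n : ℕ) (C R : ℝ) : ℝ := 3 * n * E1 C R ^ 2 + 2

include S in
theorem e_bound {z : ℂ} (hz : z ∈ HD 0 R) :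
    vsq (σ • η1 z) + vsq (α + σ • η2 z) ≤ E2 n C R * (1 + vsq α) := by
  have hσ := S.hσ
  have hE : 0 ≤ E1 C R := by
    have := S.hC
    have := S.hR
    unfold E1
    positivity
  have h1 : vsq (σ • η1 z) ≤ n * E1 C R ^ 2 := by
    have : ∀ j : Fin n, (σ • η1 z) j ^ 2 ≤ E1 C R ^ 2 := fun j => by
      have h2 := (eta_bound S hz j).1
      have h3 : (σ • η1 z) j ^ 2 = σ ^ 2 * η1 z j ^ 2 := by
        simp only [Pi.smul_apply, smul_eq_mul]; ring
      rw [h3, hσ, one_mul, ← sq_abs]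
      exact pow_le_pow_left₀ (abs_nonneg _) h2 2
    calc vsq (σ • η1 z) ≤ ∑ _j : Fin n, E1 C R ^ 2 := Finset.sum_le_sum fun j _ => this j
      _ = n * E1 C R ^ 2 := by simp
  have h2 : vsq (α + σ • η2 z) ≤ 2 * vsq α + 2 * (n * E1 C R ^ 2) := by
    have : ∀ j : Fin n, (α + σ • η2 z) j ^ 2 ≤ 2 * α j ^ 2 + 2 * E1 C R ^ 2 := fun j => by
      have h2 := (eta_bound S hz j).2
      have h4 : η2 z j ^ 2 ≤ E1 C R ^ 2 := by
        rw [← sq_abs]
        exact pow_le_pow_left₀ (abs_nonneg _) h2 2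
      have h3 : (α + σ • η2 z) j ^ 2 ≤ 2 * α j ^ 2 + 2 * (σ ^ 2 * η2 z j ^ 2) := by
        simp only [Pi.add_apply, Pi.smul_apply, smul_eq_mul]
        nlinarith [sq_nonneg (α j - σ * η2 z j)]
      rw [hσ, one_mul] at h3
      linarith
    calc vsq (α + σ • η2 z) ≤ ∑ j : Fin n, (2 * α j ^ 2 + 2 * E1 C R ^ 2) :=
          Finset.sum_le_sum fun j _ => this j
      _ = 2 * vsq α + 2 * (n * E1 C R ^ 2) := by
          rw [Finset.sum_add_distrib, ← Finset.mul_sum, vsq]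
          simp
          ring
  have h3 := vsq_nonneg α
  have h4 : 0 ≤ (n : ℝ) * E1 C R ^ 2 := by positivity
  unfold E2
  nlinarith [mul_nonneg h4 h3]

include S in
theorem d_bound {z : ℂ} (hz : z ∈ HD 0 R) (j : Fin n) :
    |(σ • η1 z) j - (σ • (a + (z.re - q) • b)) j| ≤ C * ‖z - q‖ ^ 2 ∧
    |(α + σ • η2 z) j - (α - (σ * z.im) • b) j| ≤ C * ‖z - q‖ ^ 2 := by
  have hσ : |σ| = 1 := by
    have h1 := sq_abs σ
    rw [S.hσ] at h1
    nlinarith [abs_nonneg σ, sq_nonneg (|σ| - 1)]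
  obtain ⟨h1, h2⟩ := S.hη z hz j
  constructor
  · have e : (σ • η1 z) j - (σ • (a + (z.re - q) • b)) j =
        σ * (η1 z j - (a j + (z.re - q) * b j)) := by
      simp only [Pi.smul_apply, Pi.add_apply, smul_eq_mul]; ring
    rw [e, abs_mul, hσ, one_mul]
    exact h1
  · have e : (α + σ • η2 z) j - (α - (σ * z.im) • b) j = σ * (η2 z j + z.im * b j) := by
      simp only [Pi.smul_apply, Pi.add_apply, Pi.sub_apply, smul_eq_mul]; ring
    rw [e, abs_mul, hσ, one_mul]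
    exact h2

end

theorem meas_fb {μ : Measure ℂ} {c : ℂ → Fin 3 → ℝ} {X Y S1 S2 : ℂ → Mat K n}
    {e1 e2 h1 h2 : ℂ → Fin n → ℝ} (mc : ∀ j, AEMeasurable (fun z => c z j) μ)
    (mX : ∀ i l, AEMeasurable (fun z => X z i l) μ) (mY : ∀ i l, AEMeasurable (fun z => Y z i l) μ)
    (m1 : ∀ i l, AEMeasurable (fun z => S1 z i l) μ)
    (m2 : ∀ i l, AEMeasurable (fun z => S2 z i l) μ)
    (me1 : ∀ l, AEMeasurable (fun z => e1 z l) μ) (me2 : ∀ l, AEMeasurable (fun z => e2 z l) μ)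
    (mh1 : ∀ l, AEMeasurable (fun z => h1 z l) μ) (mh2 : ∀ l, AEMeasurable (fun z => h2 z l) μ) :
    AEMeasurable (fun z => fb (c z) (X z) (Y z) (S1 z) (S2 z) (e1 z) (e2 z) (h1 z) (h2 z)) μ := by
  have mdt : ∀ A B : ℂ → Mat K n, (∀ i l, AEMeasurable (fun z => A z i l) μ) →
      (∀ i l, AEMeasurable (fun z => B z i l) μ) → AEMeasurable (fun z => dt (A z) (B z)) μ := by
    intro A B hA hB
    unfold dt
    exact Finset.aemeasurable_fun_sum _ fun i _ => Finset.aemeasurable_fun_sum _ fun l _ =>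
      (hA i l).mul (hB i l)
  have mv : ∀ (A : ℂ → Mat K n) (h : ℂ → Fin n → ℝ), (∀ i l, AEMeasurable (fun z => A z i l) μ) →
      (∀ l, AEMeasurable (fun z => h z l) μ) → AEMeasurable (fun z => vdt (sm (A z)) (h z)) μ := by
    intro A h hA hh
    unfold vdt sm
    exact Finset.aemeasurable_fun_sum _ fun l _ =>
      (Finset.aemeasurable_fun_sum _ fun i _ => hA i l).mul (hh l)
  have mX' : ∀ i l, AEMeasurable (fun z => (X z + rw' K (e1 z)) i l) μ := fun i l =>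
    (mX i l).add (me1 l)
  have mY' : ∀ i l, AEMeasurable (fun z => (Y z + rw' K (e2 z)) i l) μ := fun i l =>
    (mY i l).add (me2 l)
  unfold fb bl
  exact ((((mc 0).mul (mdt _ _ mX' m1)).add
    ((mc 1).mul ((mdt _ _ mX' m2).add (mdt _ _ mY' m1)))).add
      ((mc 2).mul (mdt _ _ mY' m2))).sub ((mv _ _ m1 mh1).add (mv _ _ m2 mh2))

section

variable {R C q σ : ℝ} {η1 η2 : ℂ → Fin n → ℝ} {a b : Fin n → ℝ} {c : ℂ → Fin 3 → ℝ}
  {T X Y : ℂ → Mat K n} (S : Sd K n R C q η1 η2 a b σ c T X Y) (α : Fin n → ℝ)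

/-- the integrand with general last entries -/
noncomputable def FB (q : ℝ) (η1 η2 : ℂ → Fin n → ℝ) (a b : Fin n → ℝ) (σ : ℝ)
    (c : ℂ → Fin 3 → ℝ) (X Y : ℂ → Mat K n) (α : Fin n → ℝ) (S1 S2 : ℂ → Mat K n) (z : ℂ) : ℝ :=
  fb (c z) (X z) (sh (Y z) α) (S1 z) (S2 z) (σ • η1 z) (α + σ • η2 z)
    (σ • (a + (z.re - q) • b)) (α - (σ * z.im) • b)

include S in
theorem FB_close {z : ℂ} (hz : z ∈ HD 0 R) (S1 S2 : ℂ → Mat K n) {ρ δ : ℝ} (hρ : 0 ≤ ρ)
    (hδ1 : C * z.im ^ 2 ≤ δ) {δ' : ℝ} (hδ2 : C * ‖z - q‖ ^ 2 ≤ δ') :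
    ρ * |FB q η1 η2 a b σ c X Y α S1 S2 z - (dt (X z) (S1 z) + dt (sh (Y z) α) (S2 z))| ≤
      δ * (ρ ^ 2 * (2 * (nsq (X z) + nsq (sh (Y z) α)) + 2 * K * (E2 n C R * (1 + vsq α))) +
        (nsq (S1 z) + nsq (S2 z))) +
      δ' * ((n : ℝ) * ρ ^ 2 + K * (nsq (S1 z) + nsq (S2 z))) := by
  obtain ⟨c0, c1, c2⟩ := S.cb z hz
  have hδ' : 0 ≤ δ' := le_trans (mul_nonneg S.hC.le (sq_nonneg _)) hδ2
  exact fb_close (c z) (X z) (sh (Y z) α) (S1 z) (S2 z) _ _ _ _ δ δ' _ ρ (c0.trans hδ1)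
    (c1.trans hδ1) (c2.trans hδ1) (fun j => (d_bound S α hz j).1.trans hδ2)
    (fun j => (d_bound S α hz j).2.trans hδ2) hδ' (e_bound S α hz) hρ

include S in
theorem mX (i : Fin K) (l : Fin n) : AEMeasurable (fun z => X z i l) (volume.restrict (HD 0 R)) :=
  (S.grad i l).mx.aemeasurable

include S in
theorem mY (i : Fin K) (l : Fin n) :
    AEMeasurable (fun z => (sh (Y z) α) i l) (volume.restrict (HD 0 R)) :=
  (S.grad i l).my.aemeasurable.sub_const _

theorem mnsq {μ : Measure ℂ} {A : ℂ → Mat K n} (h : ∀ i l, AEMeasurable (fun z => A z i l) μ) :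
    AEMeasurable (fun z => nsq (A z)) μ := by
  unfold nsq
  exact Finset.aemeasurable_fun_sum _ fun i _ => Finset.aemeasurable_fun_sum _ fun l _ =>
    (h i l).pow_const 2

theorem vol_HD (q R : ℝ) : volume (HD q R) < ⊤ := by
  refine lt_of_le_of_lt (measure_mono ?_) (measure_ball_lt_top (x := (q : ℂ)) (r := R))
  intro z hz
  rw [mem_ball, dist_eq_norm]
  exact hz.2

/-- the tilted energy density -/
noncomputable def G (X Y : ℂ → Mat K n) (α : Fin n → ℝ) (z : ℂ) : ℝ :=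
  nsq (X z) + nsq (sh (Y z) α)

theorem G_nonneg (z : ℂ) : 0 ≤ G X Y α z := add_nonneg (nsq_nonneg _) (nsq_nonneg _)

include S in
theorem G_int : IntegrableOn (G X Y α) (HD 0 R) := by
  have h1 : IntegrableOn (fun z => 2 * ed X Y z + 2 * (K * vsq α)) (HD 0 R) := by
    refine (S.int.const_mul 2).add ?_
    exact integrableOn_const (vol_HD 0 R).ne
  refine Integrable.mono' h1 ?_ (ae_of_all _ fun z => ?_)
  · exact ((mnsq (mX S)).add (mnsq (mY S α))).aestronglyMeasurable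
  · rw [Real.norm_of_nonneg (G_nonneg α z), G, ed]
    have h2 : nsq (sh (Y z) α) ≤ 2 * nsq (Y z) + 2 * (K * vsq α) := by
      rw [nsq_sh]
      have h3 := two_dt_le (-(Y z)) (rw' K α)
      rw [dt_neg_left, dt_rw, nsq_neg, nsq_rw] at h3
      linarith
    have := nsq_nonneg (X z)
    linarith

include S in
/-- integrability of the linear form -/
theorem FB_int {V : Set ℂ} (hV : V ⊆ HD 0 R) (hVm : MeasurableSet V) (S1 S2 : ℂ → Mat K n)
    (m1 : ∀ i l, AEMeasurable (fun z => S1 z i l) (volume.restrict V))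
    (m2 : ∀ i l, AEMeasurable (fun z => S2 z i l) (volume.restrict V)) (g : ℂ → ℝ)
    (hg : IntegrableOn g V) (hS : ∀ z ∈ V, nsq (S1 z) + nsq (S2 z) ≤ g z) :
    IntegrableOn (FB q η1 η2 a b σ c X Y α S1 S2) V := by
  have hmono : volume.restrict V ≤ volume.restrict (HD (0 : ℝ) R) := Measure.restrict_mono hV le_rfl
  have hf : volume V ≠ ⊤ := ((measure_mono hV).trans_lt (vol_HD 0 R)).ne
  have h1 : IntegrableOn (fun z => G X Y α z + (1 + K) * g z +
      (K * (E2 n C R * (1 + vsq α)) + n)) V :=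
    (((G_int S α).mono_set hV).add (hg.const_mul _)).add (integrableOn_const hf)
  refine Integrable.mono' h1 ?_ ?_
  · refine (meas_fb (fun j => (S.cm j).aemeasurable) (fun i l => (mX S i l).mono_measure hmono)
      (fun i l => (mY S α i l).mono_measure hmono) m1 m2 ?_ ?_ ?_ ?_).aestronglyMeasurable
    · intro l
      exact ((S.m1 l).aemeasurable.mono_measure hmono).const_mul σ
    · intro l
      exact (((S.m2 l).aemeasurable.mono_measure hmono).const_mul σ).const_add (α l)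
    · intro l
      have : Measurable fun z : ℂ => σ * (a l + (z.re - q) * b l) := by fun_prop
      exact this.aemeasurable
    · intro l
      have : Measurable fun z : ℂ => α l - (σ * z.im) * b l := by fun_prop
      exact this.aemeasurable
  · refine (ae_restrict_iff' hVm).2 (ae_of_all _ fun z hz => ?_)
    have hzR := hV hz
    have hC := S.hC
    have hR := S.hR
    have him : C * z.im ^ 2 ≤ 1 / 4 := by
      have h2 : |z.im| ≤ R := by
        have := Complex.abs_im_le_norm z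
        have h3 := hzR.2
        rw [Complex.ofReal_zero, sub_zero] at h3
        linarith
      have h4 : z.im ^ 2 ≤ R ^ 2 := by
        rw [← sq_abs]
        exact pow_le_pow_left₀ (abs_nonneg _) h2 2
      exact (mul_le_mul_of_nonneg_left h4 hC.le).trans S.small
    have hn : C * ‖z - q‖ ^ 2 ≤ 1 := by
      have h2 := nsub_le S.hq hzR
      have h4 : ‖z - q‖ ^ 2 ≤ (2 * R) ^ 2 := pow_le_pow_left₀ (norm_nonneg _) h2 2
      have := mul_le_mul_of_nonneg_left h4 hC.le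
      have := S.small
      nlinarith
    have hcl := FB_close S α hzR S1 S2 (ρ := 1) zero_le_one him hn
    have d1 := two_abs_dt_le (X z) (S1 z)
    have d2 := two_abs_dt_le (sh (Y z) α) (S2 z)
    have hB := hS z hz
    have hB0 : 0 ≤ nsq (S1 z) + nsq (S2 z) := add_nonneg (nsq_nonneg _) (nsq_nonneg _)
    have hG0 := G_nonneg (X := X) (Y := Y) α z
    have hGd : G X Y α z = nsq (X z) + nsq (sh (Y z) α) := rfl
    have hKg : (K : ℝ) * (nsq (S1 z) + nsq (S2 z)) ≤ K * g z :=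
      mul_le_mul_of_nonneg_left hB (Nat.cast_nonneg K)
    have hE0 : 0 ≤ (K : ℝ) * (E2 n C R * (1 + vsq α)) := by
      have := vsq_nonneg α
      unfold E2
      positivity
    rw [Real.norm_eq_abs]
    have h5 : |FB q η1 η2 a b σ c X Y α S1 S2 z| ≤
        |FB q η1 η2 a b σ c X Y α S1 S2 z - (dt (X z) (S1 z) + dt (sh (Y z) α) (S2 z))| +
          (|dt (X z) (S1 z)| + |dt (sh (Y z) α) (S2 z)|) := by
      have h6 := abs_add_le (FB q η1 η2 a b σ c X Y α S1 S2 z -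
        (dt (X z) (S1 z) + dt (sh (Y z) α) (S2 z))) (dt (X z) (S1 z) + dt (sh (Y z) α) (S2 z))
      rw [sub_add_cancel] at h6
      linarith [abs_add_le (dt (X z) (S1 z)) (dt (sh (Y z) α) (S2 z))]
    linarith

end

/-- derivative of a cut-off outside the disc -/
theorem chi_out {χ : ℂ → ℝ} {q r : ℝ} (h0 : ∀ z : ℂ, r ≤ ‖z - q‖ → χ z = 0) {z : ℂ}
    (hz : r < ‖z - q‖) : fderiv ℝ χ z = 0 := by
  have h1 : χ =ᶠ[𝓝 z] fun _ => (0 : ℝ) := by
    have h2 : {w : ℂ | r < ‖w - q‖} ∈ 𝓝 z :=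
      (isOpen_lt continuous_const (by fun_prop)).mem_nhds hz
    filter_upwards [h2] with w hw
    exact h0 w (le_of_lt hw)
  rw [h1.fderiv_eq]
  simp

theorem chi_bdd {χ : ℂ → ℝ} {q r : ℝ} (hχ : ContDiff ℝ 1 χ)
    (h0 : ∀ z : ℂ, r ≤ ‖z - q‖ → χ z = 0) :
    ∃ M : ℝ, 0 ≤ M ∧ ∀ z, |χ z| ≤ M ∧ |fderiv ℝ χ z 1| ≤ M ∧ |fderiv ℝ χ z Complex.I| ≤ M := by
  have hc : IsCompact (closedBall (q : ℂ) r) := isCompact_closedBall _ _
  have hf := hχ.continuous_fderiv one_ne_zero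
  obtain ⟨M1, hM1⟩ := hc.exists_bound_of_continuousOn hχ.continuous.continuousOn
  obtain ⟨M2, hM2⟩ := hc.exists_bound_of_continuousOn
    (f := fun z => fderiv ℝ χ z 1) (hf.clm_apply continuous_const).continuousOn
  obtain ⟨M3, hM3⟩ := hc.exists_bound_of_continuousOn
    (f := fun z => fderiv ℝ χ z Complex.I) (hf.clm_apply continuous_const).continuousOn
  refine ⟨|M1| + |M2| + |M3|, by positivity, fun z => ?_⟩
  have a1 := le_abs_self M1
  have a2 := le_abs_self M2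
  have a3 := le_abs_self M3
  have b1 := abs_nonneg M1
  have b2 := abs_nonneg M2
  have b3 := abs_nonneg M3
  by_cases hz : ‖z - q‖ ≤ r
  · have hm : z ∈ closedBall (q : ℂ) r := by rwa [mem_closedBall, dist_eq_norm]
    have c1 := hM1 z hm
    have c2 := hM2 z hm
    have c3 := hM3 z hm
    rw [Real.norm_eq_abs] at c1 c2 c3
    exact ⟨by linarith, by linarith, by linarith⟩
  · rw [not_le] at hz
    rw [h0 z hz.le, chi_out h0 hz]
    simp
    positivity

section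

variable {R C q σ : ℝ} {η1 η2 : ℂ → Fin n → ℝ} {a b : Fin n → ℝ} {c : ℂ → Fin 3 → ℝ}
  {T X Y : ℂ → Mat K n} (S : Sd K n R C q η1 η2 a b σ c T X Y) (α : Fin n → ℝ)

/-- the tilted sheets -/
noncomputable def Zm (T : ℂ → Mat K n) (α : Fin n → ℝ) (z : ℂ) : Mat K n :=
  sh (T z) (z.im • α)

include S in
theorem Zm_cont (i : Fin K) (l : Fin n) : ContinuousOn (fun z => Zm T α z i l) (HDc 0 R) := by
  have h1 : ContinuousOn (fun z : ℂ => z.im * α l) (HDc 0 R) := by fun_prop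
  exact (S.cont i l).sub h1

theorem nsq_cont {A : ℂ → Mat K n} {V : Set ℂ} (h : ∀ i l, ContinuousOn (fun z => A z i l) V) :
    ContinuousOn (fun z => nsq (A z)) V := by
  unfold nsq
  exact continuousOn_finsetSum _ fun i _ => continuousOn_finsetSum _ fun l _ =>
    (h i l).pow 2

include S in
theorem Zm_bdd {r : ℝ} (hr : |q| + r < R) :
    ∃ B : ℝ, 0 ≤ B ∧ ∀ z : ℂ, 0 ≤ z.im → ‖z - q‖ ≤ r → nsq (Zm T α z) ≤ B := by
  have hc : IsCompact ({z : ℂ | 0 ≤ z.im} ∩ closedBall (q : ℂ) r) :=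
    (isCompact_closedBall _ _).inter_left (isClosed_le continuous_const Complex.continuous_im)
  have hsub : ({z : ℂ | 0 ≤ z.im} ∩ closedBall (q : ℂ) r) ⊆ HDc 0 R := by
    intro z hz
    refine ⟨hz.1, ?_⟩
    have h1 : ‖(q : ℂ)‖ = |q| := by simp
    have h2 := hz.2
    rw [mem_closedBall, dist_eq_norm] at h2
    rw [Complex.ofReal_zero, sub_zero]
    have h3 := norm_add_le (z - q) (q : ℂ)
    rw [sub_add_cancel] at h3
    linarith
  obtain ⟨B, hB⟩ := hc.exists_bound_of_continuousOn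
    ((nsq_cont (Zm_cont S α)).mono hsub)
  refine ⟨|B|, abs_nonneg B, fun z h1 h2 => ?_⟩
  have h3 := hB z ⟨h1, by rwa [mem_closedBall, dist_eq_norm]⟩
  rw [Real.norm_of_nonneg (nsq_nonneg _)] at h3
  exact h3.trans (le_abs_self B)

include S in
theorem mZ (i : Fin K) (l : Fin n) :
    AEMeasurable (fun z => Zm T α z i l) (volume.restrict (HD 0 R)) :=
  (((Zm_cont S α i l).mono (HD_subset_HDc 0 R)).aestronglyMeasurable
    (isOpen_HD 0 R).measurableSet).aemeasurable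

theorem grad_sum (hGAL : Stmt_GAL) {U : Set ℂ} (hU : IsOpen U) {ι : Type*} (s : Finset ι)
    (f fx fy : ι → ℂ → ℝ) (h : ∀ i ∈ s, HasGrad U (f i) (fx i) (fy i)) :
    HasGrad U (fun z => ∑ i ∈ s, f i z) (fun z => ∑ i ∈ s, fx i z) (fun z => ∑ i ∈ s, fy i z) := by
  classical
  induction s using Finset.induction_on with
  | empty => simpa using (hGAL U hU).2.1 0
  | insert i s hi ih =>
    have h1 := h i (Finset.mem_insert_self i s)
    have h2 := ih fun j hj => h j (Finset.mem_insert_of_mem hj)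
    have h3 := (hGAL U hU).2.2.1 _ _ _ _ _ _ h1 h2
    simpa only [Finset.sum_insert hi] using h3

theorem grad_im (hGC1 : Stmt_GC1) {U : Set ℂ} (hU : IsOpen U) :
    HasGrad U (fun z => z.im) (fun _ => 0) (fun _ => 1) := by
  have h1 := hGC1 U (fun z => z.im) hU (Complex.imCLM.contDiff.contDiffOn)
  have h2 : ∀ z : ℂ, fderiv ℝ (fun z : ℂ => z.im) z = Complex.imCLM := fun z =>
    Complex.imCLM.fderiv
  simpa [h2] using h1

/-- the first component of the gradient of the cut off sheets -/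
noncomputable def V1 (T X : ℂ → Mat K n) (α : Fin n → ℝ) (χ : ℂ → ℝ) (z : ℂ) : Mat K n :=
  χ z • X z + fderiv ℝ χ z 1 • Zm T α z

/-- the second component -/
noncomputable def V2 (T Y : ℂ → Mat K n) (α : Fin n → ℝ) (χ : ℂ → ℝ) (z : ℂ) : Mat K n :=
  χ z • sh (Y z) α + fderiv ℝ χ z Complex.I • Zm T α z

theorem sm_comb (s t : ℝ) (A B : Mat K n) (l : Fin n) :
    sm (s • A + t • B) l = s * sm A l + t * sm B l := by
  rw [sm_add, sm_smul, sm_smul]
  rfl

theorem sm_Zm (z : ℂ) (l : Fin n) : sm (Zm T α z) l = sm (T z) l - K * (z.im * α l) := by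
  rw [Zm, sm_sh]
  rfl

include S in
theorem W_grad (hGAL : Stmt_GAL) (hGMU : Stmt_GMU) (hGC1 : Stmt_GC1) {χ : ℂ → ℝ}
    (hχ : ContDiff ℝ 1 χ) (l : Fin n) :
    HasGrad (HD 0 R) (fun z => χ z * sm (Zm T α z) l) (fun z => sm (V1 T X α χ z) l)
      (fun z => sm (V2 T Y α χ z) l) := by
  have hU := isOpen_HD (0 : ℝ) R
  have h1 := grad_sum hGAL hU Finset.univ _ _ _ fun i _ => S.grad i l
  have h2 := (hGAL _ hU).2.2.2.1 (-(K * α l)) _ _ _ (grad_im hGC1 hU)
  have h3 := (hGAL _ hU).2.2.1 _ _ _ _ _ _ h1 h2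
  have h4 := hGMU _ _ _ _ _ _ _ hU h3 (hGC1 _ χ hU hχ.contDiffOn)
  refine (hGAL _ hU).2.2.2.2 _ _ _ _ _ _ h4 (fun z _ => ?_) ?_ ?_
  · rw [sm_Zm]
    simp only [sm]
    ring
  · refine ae_of_all _ fun z => ?_
    simp only [V1]
    rw [sm_comb, sm_Zm]
    simp only [sm]
    ring
  · refine ae_of_all _ fun z => ?_
    simp only [V2]
    rw [sm_comb, sm_Zm, sm_sh]
    simp only [sm, Pi.sub_apply, Pi.smul_apply, smul_eq_mul]
    ring

include S in
theorem W_cont {χ : ℂ → ℝ} (hχ : ContDiff ℝ 1 χ) (l : Fin n) :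
    ContinuousOn (fun z => χ z * sm (Zm T α z) l) (HDc 0 R) := by
  refine hχ.continuous.continuousOn.mul ?_
  unfold sm
  exact continuousOn_finsetSum _ fun i _ => Zm_cont S α i l

include S in
theorem W_int {χ : ℂ → ℝ} (hχ : ContDiff ℝ 1 χ) {r : ℝ} (hr : |q| + r < R)
    (h0 : ∀ z : ℂ, r ≤ ‖z - q‖ → χ z = 0) (l : Fin n)
    (hW : HasGrad (HD 0 R) (fun z => χ z * sm (Zm T α z) l) (fun z => sm (V1 T X α χ z) l)
      (fun z => sm (V2 T Y α χ z) l)) :
    IntegrableOn (fun z => sm (V1 T X α χ z) l ^ 2 + sm (V2 T Y α χ z) l ^ 2) (HD 0 R) := by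
  obtain ⟨M, hM0, hM⟩ := chi_bdd hχ h0
  obtain ⟨B, hB0, hB⟩ := Zm_bdd S α hr
  have hf : volume (HD (0 : ℝ) R) ≠ ⊤ := (vol_HD 0 R).ne
  have h1 : IntegrableOn (fun z => K * (2 * M ^ 2) * G X Y α z + K * (4 * M ^ 2 * B)) (HD 0 R) :=
    ((G_int S α).const_mul _).add (integrableOn_const hf)
  refine Integrable.mono' h1 ((hW.mx.pow 2).add (hW.my.pow 2)) ?_
  refine (ae_restrict_iff' (isOpen_HD 0 R).measurableSet).2 (ae_of_all _ fun z hz => ?_)
  have key : ∀ (s t : ℝ) (A : Mat K n), |s| ≤ M → |t| ≤ M → (r < ‖z - q‖ → t = 0) →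
      sm (s • A + t • Zm T α z) l ^ 2 ≤ K * (2 * M ^ 2 * nsq A + 2 * M ^ 2 * B) := by
    intro s t A hs ht hout
    have e1 : sm (s • A + t • Zm T α z) l ^ 2 ≤ vsq (sm (s • A + t • Zm T α z)) :=
      Finset.single_le_sum (f := fun l => sm (s • A + t • Zm T α z) l ^ 2)
        (fun l _ => sq_nonneg _) (Finset.mem_univ l)
    have e2 := vsq_sm_le (s • A + t • Zm T α z)
    have e3 : nsq (s • A + t • Zm T α z) ≤ 2 * nsq (s • A) + 2 * nsq (t • Zm T α z) := by
      rw [nsq_add]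
      linarith [two_dt_le (s • A) (t • Zm T α z)]
    rw [nsq_smul, nsq_smul] at e3
    have hs2 : s ^ 2 ≤ M ^ 2 := by
      rw [← sq_abs]
      exact pow_le_pow_left₀ (abs_nonneg _) hs 2
    have ht2 : t ^ 2 ≤ M ^ 2 := by
      rw [← sq_abs]
      exact pow_le_pow_left₀ (abs_nonneg _) ht 2
    have e4 : t ^ 2 * nsq (Zm T α z) ≤ M ^ 2 * B := by
      by_cases hzr : ‖z - q‖ ≤ r
      · exact mul_le_mul ht2 (hB z hz.1.le hzr) (nsq_nonneg _) (sq_nonneg M)
      · rw [hout (not_le.1 hzr)]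
        have : (0 : ℝ) ≤ M ^ 2 * B := by positivity
        simpa using this
    have e5 := mul_le_mul_of_nonneg_right hs2 (nsq_nonneg A)
    have hK : (0 : ℝ) ≤ K := Nat.cast_nonneg K
    calc _ ≤ (K : ℝ) * nsq (s • A + t • Zm T α z) := e1.trans e2
      _ ≤ _ := mul_le_mul_of_nonneg_left (by linarith) hK
  have k1 := key (χ z) (fderiv ℝ χ z 1) (X z) (hM z).1 (hM z).2.1
    (fun h => by rw [chi_out h0 h]; simp)
  have k2 := key (χ z) (fderiv ℝ χ z Complex.I) (sh (Y z) α) (hM z).1 (hM z).2.2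
    (fun h => by rw [chi_out h0 h]; simp)
  rw [Real.norm_of_nonneg (by positivity)]
  unfold V1 V2 G
  linarith

/-- the harmonic part of the first variation -/
noncomputable def HP (q : ℝ) (a b : Fin n → ℝ) (σ : ℝ) (T X Y : ℂ → Mat K n) (α : Fin n → ℝ)
    (χ : ℂ → ℝ) (z : ℂ) : ℝ :=
  vdt (sm (V1 T X α χ z)) (σ • (a + (z.re - q) • b)) +
    vdt (sm (V2 T Y α χ z)) (α - (σ * z.im) • b)

include S in
theorem harm (hGAL : Stmt_GAL) (hGMU : Stmt_GMU) (hGC1 : Stmt_GC1) (hHLF : Stmt_HLF) {χ : ℂ → ℝ}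
    (hχ : ContDiff ℝ 1 χ) {r : ℝ} (hr0 : 0 < r) (hr : |q| + r < R)
    (h0 : ∀ z : ℂ, r ≤ ‖z - q‖ → χ z = 0) :
    IntegrableOn (HP q a b σ T X Y α χ) (HD 0 R) ∧
    ∫ z in HD 0 R, HP q a b σ T X Y α χ z =
      -∑ l, α l * ∫ x in (-R)..R, χ (x : ℂ) * sm (T (x : ℂ)) l := by
  have hl : ∀ l, IntegrableOn (fun z => sm (V1 T X α χ z) l) (HD 0 R) ∧
      IntegrableOn (fun z => sm (V2 T Y α χ z) l) (HD 0 R) ∧
      ∫ z in HD 0 R, sm (V1 T X α χ z) l = 0 ∧
      ∫ z in HD 0 R, (sm (V1 T X α χ z) l * (z.re - q) - sm (V2 T Y α χ z) l * z.im) = 0 ∧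
      ∫ z in HD 0 R, sm (V2 T Y α χ z) l = -∫ x in (-R)..R, χ (x : ℂ) * sm (T (x : ℂ)) l := by
    intro l
    have hW := W_grad S α hGAL hGMU hGC1 hχ l
    obtain ⟨i1, i2, -, i3, i4, i5⟩ := hHLF R q r _ _ _ hr0 hr (W_cont S α hχ l) hW
      (W_int S α hχ hr h0 l hW) (fun z _ hz => by rw [h0 z hz, zero_mul])
    refine ⟨i1, i2, i3, i4, ?_⟩
    rw [i5]
    congr 1
    refine intervalIntegral.integral_congr fun x _ => ?_
    simp [Zm, sh, sm]
  have him : ∀ l, IntegrableOn (fun z => sm (V1 T X α χ z) l * (z.re - q) -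
      sm (V2 T Y α χ z) l * z.im) (HD 0 R) := by
    intro l
    obtain ⟨i1, i2, -, -, -⟩ := hl l
    refine Integrable.sub ?_ ?_
    · refine Integrable.mono' (i1.norm.mul_const (2 * R)) (i1.aestronglyMeasurable.mul
        (by fun_prop : Continuous fun z : ℂ => z.re - q).aestronglyMeasurable) ?_
      refine (ae_restrict_iff' (isOpen_HD 0 R).measurableSet).2 (ae_of_all _ fun z hz => ?_)
      rw [norm_mul]
      exact mul_le_mul_of_nonneg_left ((re_le q).trans (nsub_le S.hq hz)) (norm_nonneg _)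
    · refine Integrable.mono' (i2.norm.mul_const (2 * R)) (i2.aestronglyMeasurable.mul
        Complex.continuous_im.aestronglyMeasurable) ?_
      refine (ae_restrict_iff' (isOpen_HD 0 R).measurableSet).2 (ae_of_all _ fun z hz => ?_)
      rw [norm_mul]
      exact mul_le_mul_of_nonneg_left ((im_le q).trans (nsub_le S.hq hz)) (norm_nonneg _)
  have e : HP q a b σ T X Y α χ = fun z => ∑ l, (σ * a l * sm (V1 T X α χ z) l +
      σ * b l * (sm (V1 T X α χ z) l * (z.re - q) - sm (V2 T Y α χ z) l * z.im) +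
      α l * sm (V2 T Y α χ z) l) := by
    funext z
    unfold HP vdt
    rw [← Finset.sum_add_distrib]
    refine Finset.sum_congr rfl fun l _ => ?_
    simp only [Pi.smul_apply, Pi.add_apply, Pi.sub_apply, smul_eq_mul]
    ring
  have hint : ∀ l ∈ (Finset.univ : Finset (Fin n)), Integrable (fun z =>
      (σ * a l * sm (V1 T X α χ z) l +
      σ * b l * (sm (V1 T X α χ z) l * (z.re - q) - sm (V2 T Y α χ z) l * z.im) +
      α l * sm (V2 T Y α χ z) l)) (volume.restrict (HD 0 R)) := fun l _ =>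
    (((hl l).1.const_mul _).add ((him l).const_mul _)).add ((hl l).2.1.const_mul _)
  refine ⟨?_, ?_⟩
  · rw [e]
    exact integrable_finsetSum _ hint
  · rw [e, integral_finsetSum _ hint, ← Finset.sum_neg_distrib]
    refine Finset.sum_congr rfl fun l _ => ?_
    obtain ⟨i1, i2, i3, i4, i5⟩ := hl l
    have A1 : Integrable (fun z => σ * a l * sm (V1 T X α χ z) l) (volume.restrict (HD 0 R)) :=
      i1.const_mul _
    have A2 : Integrable (fun z => σ * b l * (sm (V1 T X α χ z) l * (z.re - q) -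
        sm (V2 T Y α χ z) l * z.im)) (volume.restrict (HD 0 R)) := (him l).const_mul _
    have A3 : Integrable (fun z => α l * sm (V2 T Y α χ z) l) (volume.restrict (HD 0 R)) :=
      i2.const_mul _
    have A12 : Integrable (fun z => σ * a l * sm (V1 T X α χ z) l + σ * b l *
        (sm (V1 T X α χ z) l * (z.re - q) - sm (V2 T Y α χ z) l * z.im))
        (volume.restrict (HD 0 R)) := A1.add A2
    rw [integral_add A12 A3, integral_add A1 A2, integral_const_mul,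
      integral_const_mul, integral_const_mul, i3, i4, i5]
    ring

end

theorem sqrt_of_forall {x h ν e : ℝ} (hh : 0 ≤ h) (hν : 0 ≤ ν)
    (H : ∀ t : ℝ, 0 < t → x ≤ t / 2 * ν + h / (2 * t) + e) : x ≤ Real.sqrt (h * ν) + e := by
  have h1 : ∀ ε : ℝ, 0 < ε → x ≤ Real.sqrt ((h + ε) * (ν + ε)) + e := by
    intro ε hε
    have p1 : 0 < h + ε := by linarith
    have p2 : 0 < ν + ε := by linarith
    set u := Real.sqrt (h + ε) with hu
    set v := Real.sqrt (ν + ε) with hv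
    have u0 : 0 < u := Real.sqrt_pos.2 p1
    have v0 : 0 < v := Real.sqrt_pos.2 p2
    have u2 : u ^ 2 = h + ε := Real.sq_sqrt p1.le
    have v2 : v ^ 2 = ν + ε := Real.sq_sqrt p2.le
    have h2 := H (u / v) (by positivity)
    have h3 : Real.sqrt ((h + ε) * (ν + ε)) = u * v := Real.sqrt_mul p1.le _
    rw [h3]
    have h4 : u / v / 2 * ν ≤ u * v / 2 := by
      have : u / v / 2 * (ν + ε) = u * v / 2 := by
        rw [← v2]
        field_simp
      have h5 : u / v / 2 * ν ≤ u / v / 2 * (ν + ε) :=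
        mul_le_mul_of_nonneg_left (by linarith) (by positivity)
      linarith
    have h5 : h / (2 * (u / v)) ≤ u * v / 2 := by
      have : (h + ε) / (2 * (u / v)) = u * v / 2 := by
        rw [← u2]
        field_simp
      have h6 : h / (2 * (u / v)) ≤ (h + ε) / (2 * (u / v)) :=
        div_le_div_of_nonneg_right (by linarith) (by positivity)
      linarith
    linarith
  have h2 : Tendsto (fun ε : ℝ => Real.sqrt ((h + ε) * (ν + ε)) + e) (𝓝[>] 0)
      (𝓝 (Real.sqrt ((h + 0) * (ν + 0)) + e)) := by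
    refine (Continuous.tendsto ?_ 0).mono_left nhdsWithin_le_nhds
    fun_prop
  rw [add_zero, add_zero] at h2
  exact ge_of_tendsto h2 (eventually_mem_nhdsWithin.mono fun ε hε => h1 ε hε)

section

variable {R C q σ : ℝ} {η1 η2 : ℂ → Fin n → ℝ} {a b : Fin n → ℝ} {c : ℂ → Fin 3 → ℝ}
  {T X Y : ℂ → Mat K n} (S : Sd K n R C q η1 η2 a b σ c T X Y) (α : Fin n → ℝ)

include S in
theorem FA_int {V : Set ℂ} (hV : V ⊆ HD 0 R) (hVm : MeasurableSet V) :
    IntegrableOn (FB q η1 η2 a b σ c X Y α X (fun z => sh (Y z) α)) V :=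
  FB_int S α hV hVm _ _
    (fun i l => (mX S i l).mono_measure (Measure.restrict_mono hV le_rfl))
    (fun i l => (mY S α i l).mono_measure (Measure.restrict_mono hV le_rfl)) (G X Y α)
    ((G_int S α).mono_set hV) (fun _ _ => le_rfl)

include S in
theorem FZ_int {r : ℝ} (hr : |q| + r < R) :
    IntegrableOn (FB q η1 η2 a b σ c X Y α (Zm T α) 0) (HD q r) ∧
    IntegrableOn (FB q η1 η2 a b σ c X Y α 0 (Zm T α)) (HD q r) := by
  obtain ⟨B, hB0, hB⟩ := Zm_bdd S α hr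
  have hV : HD q r ⊆ HD 0 R := HD_sub hr.le
  have hVm := (isOpen_HD q r).measurableSet
  have hz : nsq (0 : Mat K n) = 0 := nsq_zero
  have hf : volume (HD q r) ≠ ⊤ := (vol_HD q r).ne
  have mz : ∀ (i : Fin K) (l : Fin n), AEMeasurable (fun z => Zm T α z i l)
      (volume.restrict (HD q r)) := fun i l =>
    (mZ S α i l).mono_measure (Measure.restrict_mono hV le_rfl)
  constructor
  · refine FB_int S α hV hVm _ _ mz (fun i l => ?_) (fun _ => B) (integrableOn_const hf)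
      (fun z hz' => ?_)
    · simp only [Pi.zero_apply]
      exact aemeasurable_const
    · rw [Pi.zero_apply, hz, add_zero]
      exact hB z hz'.1.le hz'.2.le
  · refine FB_int S α hV hVm _ _ (fun i l => ?_) mz (fun _ => B) (integrableOn_const hf)
      (fun z hz' => ?_)
    · simp only [Pi.zero_apply]
      exact aemeasurable_const
    · rw [Pi.zero_apply, hz, zero_add]
      exact hB z hz'.1.le hz'.2.le

include S in
theorem FA_low {r : ℝ} (hr : |q| + r ≤ R) {z : ℂ} (hz : z ∈ HD q r) :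
    G X Y α z - C * r ^ 2 * ((3 + K) * G X Y α z + (2 * K * (E2 n C R * (1 + vsq α)) + n)) ≤
      FB q η1 η2 a b σ c X Y α X (fun z => sh (Y z) α) z := by
  have hC := S.hC
  have h1 : ‖z - q‖ ^ 2 ≤ r ^ 2 := pow_le_pow_left₀ (norm_nonneg _) hz.2.le 2
  have h2 : z.im ^ 2 ≤ r ^ 2 := by
    have := pow_le_pow_left₀ (abs_nonneg _) (im_le (z := z) q) 2
    rw [sq_abs] at this
    exact this.trans h1
  have h3 := FB_close S α (HD_sub hr hz) X (fun z => sh (Y z) α) (ρ := 1) zero_le_one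
    (mul_le_mul_of_nonneg_left h2 hC.le) (mul_le_mul_of_nonneg_left h1 hC.le)
  rw [← nsq_eq_dt, ← nsq_eq_dt] at h3
  have h4 := (abs_le.1 ((one_mul _).symm.le.trans h3)).1
  unfold G
  linarith

include S in
theorem circ_up {r θ : ℝ} (hr0 : 0 < r) (hr : |q| + r < R) (hθ : θ ∈ Ioo 0 Real.pi) {t : ℝ}
    (ht : 0 < t) :
    r * (Real.cos θ * FB q η1 η2 a b σ c X Y α (Zm T α) 0 (cm q r θ) +
      Real.sin θ * FB q η1 η2 a b σ c X Y α 0 (Zm T α) (cm q r θ)) ≤
    t / 2 * (r ^ 2 * nsq (Flat.rd θ (X (cm q r θ)) (sh (Y (cm q r θ)) α))) +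
      nsq (Zm T α (cm q r θ)) / (2 * t) +
    C * r ^ 2 * (2 * (r ^ 2 * G X Y α (cm q r θ)) + (1 + K) * nsq (Zm T α (cm q r θ)) +
      (2 * K * (E2 n C R * (1 + vsq α)) + n) * r ^ 2) := by
  set z := cm q r θ with hz
  have hC := S.hC
  have hn : ‖z - q‖ = r := by rw [hz, norm_cm_sub, abs_of_pos hr0]
  have hzR : z ∈ HD 0 R := by
    have him : 0 < z.im := by
      rw [hz, cm_im]
      exact mul_pos hr0 (Real.sin_pos_of_mem_Ioo hθ)
    refine ⟨him, ?_⟩
    have h1 : ‖(q : ℂ)‖ = |q| := by simp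
    rw [Complex.ofReal_zero, sub_zero]
    have h3 := norm_add_le (z - q) (q : ℂ)
    rw [sub_add_cancel] at h3
    linarith
  have h1 : ‖z - q‖ ^ 2 ≤ r ^ 2 := by rw [hn]
  have h2 : z.im ^ 2 ≤ r ^ 2 := by
    have := pow_le_pow_left₀ (abs_nonneg _) (im_le (z := z) q) 2
    rw [sq_abs] at this
    exact this.trans h1
  have h3 := FB_close S α hzR (fun z => Real.cos θ • Zm T α z) (fun z => Real.sin θ • Zm T α z)
    (ρ := r) hr0.le (mul_le_mul_of_nonneg_left h2 hC.le) (mul_le_mul_of_nonneg_left h1 hC.le)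
  have e1 : FB q η1 η2 a b σ c X Y α (fun z => Real.cos θ • Zm T α z)
      (fun z => Real.sin θ • Zm T α z) z =
      Real.cos θ * FB q η1 η2 a b σ c X Y α (Zm T α) 0 z +
      Real.sin θ * FB q η1 η2 a b σ c X Y α 0 (Zm T α) z := fb_circ _ _ _ _ _ _ _ _ _ _
  have e2 : dt (X z) (Real.cos θ • Zm T α z) + dt (sh (Y z) α) (Real.sin θ • Zm T α z) =
      dt (Flat.rd θ (X z) (sh (Y z) α)) (Zm T α z) := by
    rw [Flat.rd, dt_add_left, dt_smul_left, dt_smul_left, dt_smul_right, dt_smul_right]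
  have e3 : nsq (Real.cos θ • Zm T α z) + nsq (Real.sin θ • Zm T α z) = nsq (Zm T α z) := by
    rw [nsq_smul, nsq_smul, ← add_mul, Real.cos_sq_add_sin_sq, one_mul]
  rw [e1, e2, e3] at h3
  have h4 : r * (Real.cos θ * FB q η1 η2 a b σ c X Y α (Zm T α) 0 z +
      Real.sin θ * FB q η1 η2 a b σ c X Y α 0 (Zm T α) z) -
      r * dt (Flat.rd θ (X z) (sh (Y z) α)) (Zm T α z) ≤
      C * r ^ 2 * (r ^ 2 * (2 * (nsq (X z) + nsq (sh (Y z) α)) +
        2 * K * (E2 n C R * (1 + vsq α))) + nsq (Zm T α z)) +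
      C * r ^ 2 * ((n : ℝ) * r ^ 2 + K * nsq (Zm T α z)) := by
    rw [← mul_sub]
    exact (mul_le_mul_of_nonneg_left (le_abs_self _) hr0.le).trans h3
  have h5 : r * dt (Flat.rd θ (X z) (sh (Y z) α)) (Zm T α z) ≤
      t / 2 * (r ^ 2 * nsq (Flat.rd θ (X z) (sh (Y z) α))) + nsq (Zm T α z) / (2 * t) := by
    have h6 := two_dt_le ((t * r) • Flat.rd θ (X z) (sh (Y z) α)) (Zm T α z)
    rw [dt_smul_left, nsq_smul] at h6
    have h7 : r * dt (Flat.rd θ (X z) (sh (Y z) α)) (Zm T α z) =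
        (2 * (t * r * dt (Flat.rd θ (X z) (sh (Y z) α)) (Zm T α z))) / (2 * t) := by
      field_simp
    rw [h7]
    have h8 : t / 2 * (r ^ 2 * nsq (Flat.rd θ (X z) (sh (Y z) α))) +
        nsq (Zm T α z) / (2 * t) =
        ((t * r) ^ 2 * nsq (Flat.rd θ (X z) (sh (Y z) α)) + nsq (Zm T α z)) / (2 * t) := by
      field_simp
    rw [h8]
    exact div_le_div_of_nonneg_right h6 (by positivity)
  unfold G
  linarith

/-- direction cosine -/
noncomputable def cc (q : ℝ) (z : ℂ) : ℝ := (z.re - q) / ‖z - q‖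

/-- direction sine -/
noncomputable def ss (q : ℝ) (z : ℂ) : ℝ := z.im / ‖z - q‖

theorem cc_cm {q r : ℝ} (hr : 0 < r) (θ : ℝ) : cc q (cm q r θ) = Real.cos θ := by
  rw [cc, norm_cm_sub, cm_re, abs_of_pos hr]
  field_simp
  ring

theorem ss_cm {q r : ℝ} (hr : 0 < r) (θ : ℝ) : ss q (cm q r θ) = Real.sin θ := by
  rw [ss, norm_cm_sub, cm_im, abs_of_pos hr]
  field_simp

theorem cc_le (q : ℝ) (z : ℂ) : cc q z ^ 2 ≤ 1 := by
  rw [cc, div_pow]
  refine div_le_one_of_le₀ ?_ (by positivity)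
  rw [← sq_abs]
  exact pow_le_pow_left₀ (abs_nonneg _) (re_le q) 2

theorem ss_le (q : ℝ) (z : ℂ) : ss q z ^ 2 ≤ 1 := by
  rw [ss, div_pow]
  refine div_le_one_of_le₀ ?_ (by positivity)
  rw [← sq_abs]
  exact pow_le_pow_left₀ (abs_nonneg _) (im_le q) 2

/-- the radial energy density -/
noncomputable def G2 (q : ℝ) (X Y : ℂ → Mat K n) (α : Fin n → ℝ) (z : ℂ) : ℝ :=
  nsq (cc q z • X z + ss q z • sh (Y z) α)

include S in
theorem G2_int : IntegrableOn (G2 q X Y α) (HD 0 R) := by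
  have mc : Measurable (cc q) := by unfold cc; fun_prop
  have ms : Measurable (ss q) := by unfold ss; fun_prop
  refine Integrable.mono' ((G_int S α).const_mul 2) ?_ (ae_of_all _ fun z => ?_)
  · refine (mnsq fun i l => ?_).aestronglyMeasurable
    exact (mc.aemeasurable.mul (mX S i l)).add (ms.aemeasurable.mul (mY S α i l))
  · unfold G2
    rw [Real.norm_of_nonneg (nsq_nonneg _), G, nsq_add]
    have h1 := two_dt_le (cc q z • X z) (ss q z • sh (Y z) α)
    rw [nsq_smul, nsq_smul] at *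
    have h2 := mul_le_mul_of_nonneg_right (cc_le q z) (nsq_nonneg (X z))
    have h3 := mul_le_mul_of_nonneg_right (ss_le q z) (nsq_nonneg (sh (Y z) α))
    linarith

theorem G2_cm {r : ℝ} (hr : 0 < r) (θ : ℝ) :
    G2 q X Y α (cm q r θ) = nsq (Flat.rd θ (X (cm q r θ)) (sh (Y (cm q r θ)) α)) := by
  rw [G2, cc_cm hr, ss_cm hr, Flat.rd]

include S in
theorem H_int {r : ℝ} (hr0 : 0 < r) (hr : |q| + r < R) :
    IntervalIntegrable (fun θ => nsq (Zm T α (cm q r θ))) volume 0 Real.pi := by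
  refine ContinuousOn.intervalIntegrable ?_
  rw [uIcc_of_le Real.pi_pos.le]
  have h1 : Continuous fun θ : ℝ => cm q r θ := by unfold cm; fun_prop
  refine (nsq_cont (Zm_cont S α)).comp h1.continuousOn ?_
  intro θ hθ
  refine ⟨?_, ?_⟩
  · rw [cm_im]
    exact mul_nonneg hr0.le (Real.sin_nonneg_of_mem_Icc hθ)
  · have h1 : ‖(q : ℂ)‖ = |q| := by simp
    rw [Complex.ofReal_zero, sub_zero]
    have h3 := norm_add_le (cm q r θ - q) (q : ℂ)
    rw [sub_add_cancel, norm_cm_sub, abs_of_pos hr0] at h3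
    linarith

end

theorem cont_xi (hMET : Stmt_MET) (hXIL : Stmt_XIL) {A : Set ℂ} {u : ℂ → Tup K n}
    (hu : ContG A u) (i : Fin K) (l : Fin n) : ContinuousOn (fun z => xi (u z) i l) A := by
  intro z hz
  have h1 := hu z hz
  have h2 : ∀ w, |xi (u w) i l - xi (u z) i l| ≤ dG (u w) (u z) := by
    intro w
    have h3 := (hXIL K n (u w) (u z)).1
    have h4 := (hMET K n (u w) (u z) (u z)).1
    have h5 : (xi (u w) i l - xi (u z) i l) ^ 2 ≤ nsq (xi (u w) - xi (u z)) := by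
      have h6 : (xi (u w) i l - xi (u z) i l) ^ 2 ≤ ∑ l, (xi (u w) - xi (u z)) i l ^ 2 :=
        Finset.single_le_sum (f := fun l => (xi (u w) - xi (u z)) i l ^ 2)
          (fun l _ => sq_nonneg _) (Finset.mem_univ l)
      exact h6.trans (Finset.single_le_sum (f := fun i => ∑ l, (xi (u w) - xi (u z)) i l ^ 2)
          (fun i _ => Finset.sum_nonneg fun l _ => sq_nonneg _) (Finset.mem_univ i))
    exact abs_le_of_sq_le_sq (h5.trans h3) h4
  have h3 : Tendsto (fun w => xi (u w) i l - xi (u z) i l) (𝓝[A] z) (𝓝 0) :=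
    squeeze_zero_norm h2 h1
  have h4 := h3.add_const (xi (u z) i l)
  unfold ContinuousWithinAt
  simpa using h4

theorem bmul {V : Set ℂ} {f g : ℂ → ℝ} {M : ℝ} (hf : IntegrableOn f V) (hg : Continuous g)
    (hb : ∀ z, |g z| ≤ M) : IntegrableOn (fun z => g z * f z) V := by
  refine Integrable.mono' (hf.norm.const_mul M)
    (hg.aestronglyMeasurable.mul hf.aestronglyMeasurable) (ae_of_all _ fun z => ?_)
  rw [norm_mul]
  exact mul_le_mul_of_nonneg_right (hb z) (norm_nonneg _)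

theorem sm_bd (hXIL : Stmt_XIL) {k d : ℕ} {p : Tup (k + d) n} {m : Tup k n}
    (h : Same p (Fin.append (fun i => -(m i)) (fun _ : Fin d => 0))) (l : Fin n) :
    sm (xi p) l = -sm (xi m) l := by
  have h1 := (hXIL _ _ _ _).2.1 h
  rw [h1]
  have h2 := (hXIL _ _ (Fin.append (fun i => -(m i)) (fun _ : Fin d => (0 : E n)))
    (Fin.append (fun i => -(m i)) (fun _ : Fin d => (0 : E n)))).2.2.1 l
  have h3 := (hXIL _ _ m m).2.2.1 l
  unfold sm
  rw [h2, h3, Fin.sum_univ_add]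
  simp

end OUT_

open OUT_

theorem out_proof (hMET : Stmt_MET) (hXIL : Stmt_XIL) (hGAL : Stmt_GAL) (hGMU : Stmt_GMU)
    (hGC1 : Stmt_GC1) (hOU1 : Stmt_OU1) (hHLF : Stmt_HLF) (hRAD : Stmt_RAD)
    (hPOL : Stmt_POL) : Stmt_OUT := by
  intro k d n F hF
  have hC := hF.hC
  have hR := hF.hR
  set KK : ℝ := ((k + d : ℕ) : ℝ) + (k : ℝ) with hKK
  have hKK0 : 0 ≤ KK := by positivity
  have hE2 : 0 ≤ E2 n F.C F.R := by unfold E2; positivity
  refine ⟨F.C * (3 + KK + Real.pi * (4 * KK * E2 n F.C F.R + 4 * n)), by positivity,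
    fun q hq α => ?_⟩
  obtain ⟨a, b, ha, hb, hη⟩ := hF.ηb q hq
  have Sp : Sd (k + d) n F.R F.C q F.ηx F.ηy a b 1 F.A (fun z => xi (F.p z)) F.Px F.Py :=
    ⟨hF.hR, hF.hC, hF.small, hq, by norm_num, hF.Am, hF.Ab, fun j => (hF.ηg j).mx,
      fun j => (hF.ηg j).my, ha, hb, hη, hF.pg, cont_xi hMET hXIL hF.pc, hF.pI⟩
  have Sl : Sd k n F.R F.C q F.ηx F.ηy a b (-1) F.B (fun z => xi (F.l z)) F.Lx F.Ly :=
    ⟨hF.hR, hF.hC, hF.small, hq, by norm_num, hF.Bm, hF.Bb, fun j => (hF.ηg j).mx,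
      fun j => (hF.ηg j).my, ha, hb, hη, hF.lg, cont_xi hMET hXIL hF.lc, hF.lI⟩
  -- totals
  obtain ⟨aT, haT⟩ : ∃ g : ℂ → ℝ, g = fun z =>
    FB q F.ηx F.ηy a b 1 F.A F.Px F.Py α F.Px (fun z => sh (F.Py z) α) z +
    FB q F.ηx F.ηy a b (-1) F.B F.Lx F.Ly α F.Lx (fun z => sh (F.Ly z) α) z := ⟨_, rfl⟩
  obtain ⟨b1, hb1⟩ : ∃ g : ℂ → ℝ, g = fun z =>
    FB q F.ηx F.ηy a b 1 F.A F.Px F.Py α (Zm (fun z => xi (F.p z)) α) 0 z +
    FB q F.ηx F.ηy a b (-1) F.B F.Lx F.Ly α (Zm (fun z => xi (F.l z)) α) 0 z := ⟨_, rfl⟩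
  obtain ⟨b2, hb2⟩ : ∃ g : ℂ → ℝ, g = fun z =>
    FB q F.ηx F.ηy a b 1 F.A F.Px F.Py α 0 (Zm (fun z => xi (F.p z)) α) z +
    FB q F.ηx F.ηy a b (-1) F.B F.Lx F.Ly α 0 (Zm (fun z => xi (F.l z)) α) z := ⟨_, rfl⟩
  obtain ⟨g1, hg1⟩ : ∃ g : ℂ → ℝ, g = fun z => G F.Px F.Py α z + G F.Lx F.Ly α z := ⟨_, rfl⟩
  obtain ⟨g2, hg2⟩ : ∃ g : ℂ → ℝ, g = fun z => G2 q F.Px F.Py α z + G2 q F.Lx F.Ly α z :=
    ⟨_, rfl⟩
  have ig1 : IntegrableOn g1 (HD 0 F.R) := by
    rw [hg1]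
    exact (G_int Sp α).add (G_int Sl α)
  have ig2 : IntegrableOn g2 (HD 0 F.R) := by
    rw [hg2]
    exact (G2_int Sp α).add (G2_int Sl α)
  have hmem : ∀ {s : ℝ}, |q| + s ≤ F.R → HD q s ⊆ HD 0 F.R := fun h => HD_sub h
  -- the identity on a smaller disc
  have key : ∀ s : ℝ, 0 < s → |q| + s < F.R → ∀ᵐ r : ℝ, r ∈ Ioo 0 s →
      (∫ z in HD q r, aT z = r * ∫ θ in (0 : ℝ)..Real.pi,
        (Real.cos θ * b1 (cm q r θ) + Real.sin θ * b2 (cm q r θ))) ∧
      IntervalIntegrable (fun θ => g1 (cm q r θ)) volume 0 Real.pi ∧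
      IntervalIntegrable (fun θ => g2 (cm q r θ)) volume 0 Real.pi := by
    intro s hs0 hs
    have hV : HD q s ⊆ HD 0 F.R := hmem hs.le
    have hVm := (isOpen_HD q s).measurableSet
    have iA : IntegrableOn aT (HD q s) := by
      rw [haT]
      exact (FA_int Sp α hV hVm).add (FA_int Sl α hV hVm)
    have iB1 : IntegrableOn b1 (HD q s) := by
      rw [hb1]
      exact (FZ_int Sp α hs).1.add (FZ_int Sl α hs).1
    have iB2 : IntegrableOn b2 (HD q s) := by
      rw [hb2]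
      exact (FZ_int Sp α hs).2.add (FZ_int Sl α hs).2
    have hR1 := hRAD q s aT b1 b2 hs0 iA iB1 iB2 ?_
    · have hP1 := (hPOL q s g1 hs0 (ig1.mono_set hV)).1
      have hP2 := (hPOL q s g2 hs0 (ig2.mono_set hV)).1
      filter_upwards [hR1, hP1, hP2] with r h1 h2 h3 hr
      exact ⟨h1 hr, h2 hr, h3 hr⟩
    · intro χ hχ hr'
      obtain ⟨r', hr's, hχ0⟩ := hr'
      obtain ⟨r, hr⟩ : ∃ r, r = max r' (s / 2) := ⟨_, rfl⟩
      have hr0 : 0 < r := by
        rw [hr]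
        exact lt_max_of_lt_right (by linarith)
      have hrs : r < s := by
        rw [hr]
        exact max_lt hr's (by linarith)
      have hrR : |q| + r < F.R := by linarith
      have h0 : ∀ z : ℂ, r ≤ ‖z - q‖ → χ z = 0 := fun z hz =>
        hχ0 z ((le_max_left r' (s / 2)).trans (by rwa [← hr]))
      obtain ⟨M, hM0, hM⟩ := chi_bdd hχ h0
      have hf := hχ.continuous_fderiv one_ne_zero
      obtain ⟨Φ, hΦ⟩ : ∃ g : ℂ → ℝ, g = fun z => χ z * aT z +
        (fderiv ℝ χ z 1 * b1 z + fderiv ℝ χ z Complex.I * b2 z) := ⟨_, rfl⟩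
      have iΦ : IntegrableOn Φ (HD q s) := by
        rw [hΦ]
        exact (bmul iA hχ.continuous fun z => (hM z).1).add
          ((bmul iB1 (hf.clm_apply continuous_const) fun z => (hM z).2.1).add
            (bmul iB2 (hf.clm_apply continuous_const) fun z => (hM z).2.2))
      have hΦ0 : ∀ z ∈ HD 0 F.R \ HD q s, Φ z = 0 := by
        intro z hz
        have h1 : s ≤ ‖z - q‖ := by
          by_contra hc
          exact hz.2 ⟨hz.1.1, not_le.1 hc⟩
        rw [hΦ]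
        simp only []
        rw [h0 z (by linarith), chi_out h0 (by linarith)]
        simp
      have hRm := (isOpen_HD 0 F.R).measurableSet
      have iΦR : IntegrableOn Φ (HD 0 F.R) := iΦ.of_forall_sdiff_eq_zero hRm hΦ0
      obtain ⟨iHp, vHp⟩ := harm Sp α hGAL hGMU hGC1 hHLF hχ hr0 hrR h0
      obtain ⟨iHl, vHl⟩ := harm Sl α hGAL hGMU hGC1 hHLF hχ hr0 hrR h0
      have hOU := hOU1 k d n F hF q r α χ hr0 hrR hχ h0
      have hsum : (∫ z in HD 0 F.R,
          HP q a b 1 (fun z => xi (F.p z)) F.Px F.Py α χ z) +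
          ∫ z in HD 0 F.R, HP q a b (-1) (fun z => xi (F.l z)) F.Lx F.Ly α χ z = 0 := by
        rw [vHp, vHl, ← neg_add, neg_eq_zero, ← Finset.sum_add_distrib]
        refine Finset.sum_eq_zero fun l _ => ?_
        have h1 : ∫ x in (-F.R)..F.R, χ (x : ℂ) * sm (xi (F.p (x : ℂ))) l =
            -∫ x in (-F.R)..F.R, χ (x : ℂ) * sm (xi (F.l (x : ℂ))) l := by
          rw [← intervalIntegral.integral_neg]
          refine intervalIntegral.integral_congr fun x _ => ?_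
          by_cases hxR : |x| < F.R
          · rw [sm_bd hXIL (hF.bd x hxR) l]
            ring
          · have h2 : χ (x : ℂ) = 0 := by
              refine h0 _ ?_
              have h3 : ‖(x : ℂ) - (q : ℂ)‖ = |x - q| := by
                rw [← Complex.ofReal_sub, Complex.norm_real, Real.norm_eq_abs]
              rw [h3]
              have h4 := abs_sub_abs_le_abs_sub x q
              rw [not_lt] at hxR
              linarith
            rw [h2]
            ring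
        rw [h1]
        ring
      have hpt : ∀ z, (bl (F.A z) (ad (F.Px z) (F.ηx z)) (ad (F.Py z) (F.ηy z))
            (χ z • F.Px z + fderiv ℝ χ z 1 • sh (xi (F.p z)) (z.im • α))
            (χ z • sh (F.Py z) α + fderiv ℝ χ z Complex.I • sh (xi (F.p z)) (z.im • α)) +
          bl (F.B z) (sh (F.Lx z) (F.ηx z)) (sh (F.Ly z) (F.ηy z))
            (χ z • F.Lx z + fderiv ℝ χ z 1 • sh (xi (F.l z)) (z.im • α))
            (χ z • sh (F.Ly z) α + fderiv ℝ χ z Complex.I • sh (xi (F.l z)) (z.im • α))) =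
          Φ z + (HP q a b 1 (fun z => xi (F.p z)) F.Px F.Py α χ z +
            HP q a b (-1) (fun z => xi (F.l z)) F.Lx F.Ly α χ z) := by
        intro z
        have e1 : ad (F.Px z) (F.ηx z) = F.Px z + rw' (k + d) ((1 : ℝ) • F.ηx z) := by
          rw [one_smul, ad_eq]
        have e2 : ad (F.Py z) (F.ηy z) = sh (F.Py z) α +
            rw' (k + d) (α + (1 : ℝ) • F.ηy z) := by
          rw [one_smul]
          funext i l
          simp only [ad, sh, rw', Pi.add_apply]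
          ring
        have e3 : sh (F.Lx z) (F.ηx z) = F.Lx z + rw' k ((-1 : ℝ) • F.ηx z) := by
          funext i l
          simp only [sh, rw', Pi.add_apply, Pi.smul_apply, smul_eq_mul]
          ring
        have e4 : sh (F.Ly z) (F.ηy z) = sh (F.Ly z) α + rw' k (α + (-1 : ℝ) • F.ηy z) := by
          funext i l
          simp only [sh, rw', Pi.add_apply, Pi.smul_apply, smul_eq_mul]
          ring
        have l1 := fb_lin (F.A z) (F.Px z) (sh (F.Py z) α) (Zm (fun z => xi (F.p z)) α z)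
          ((1 : ℝ) • F.ηx z) (α + (1 : ℝ) • F.ηy z) ((1 : ℝ) • (a + (z.re - q) • b))
          (α - ((1 : ℝ) * z.im) • b) (χ z) (fderiv ℝ χ z 1) (fderiv ℝ χ z Complex.I)
        have l2 := fb_lin (F.B z) (F.Lx z) (sh (F.Ly z) α) (Zm (fun z => xi (F.l z)) α z)
          ((-1 : ℝ) • F.ηx z) (α + (-1 : ℝ) • F.ηy z) ((-1 : ℝ) • (a + (z.re - q) • b))
          (α - ((-1 : ℝ) * z.im) • b) (χ z) (fderiv ℝ χ z 1) (fderiv ℝ χ z Complex.I)
        rw [hΦ, haT, hb1, hb2, e1, e2, e3, e4]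
        simp only [FB, HP, V1, V2, Zm, Pi.zero_apply] at l1 l2 ⊢
        rw [fb] at l1 l2
        linarith
      have h5 : ∫ z in HD 0 F.R, (Φ z + (HP q a b 1 (fun z => xi (F.p z)) F.Px F.Py α χ z +
            HP q a b (-1) (fun z => xi (F.l z)) F.Lx F.Ly α χ z)) = 0 := by
        exact (integral_congr_ae (ae_of_all _ fun z => (hpt z).symm)).trans hOU
      have iH : IntegrableOn (fun z => HP q a b 1 (fun z => xi (F.p z)) F.Px F.Py α χ z +
            HP q a b (-1) (fun z => xi (F.l z)) F.Lx F.Ly α χ z) (HD 0 F.R) := iHp.add iHl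
      rw [integral_add iΦR iH, integral_add iHp iHl, hsum, add_zero] at h5
      rw [setIntegral_eq_of_subset_of_forall_sdiff_eq_zero hRm hV hΦ0] at h5
      rw [hΦ] at h5
      exact h5
  have hRq : 0 < F.R - |q| := by linarith
  have hall : ∀ᵐ r : ℝ, ∀ m : ℕ, r ∈ Ioo 0 ((F.R - |q|) * (1 - 1 / ((m : ℝ) + 2))) →
      (∫ z in HD q r, aT z = r * ∫ θ in (0 : ℝ)..Real.pi,
        (Real.cos θ * b1 (cm q r θ) + Real.sin θ * b2 (cm q r θ))) ∧
      IntervalIntegrable (fun θ => g1 (cm q r θ)) volume 0 Real.pi ∧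
      IntervalIntegrable (fun θ => g2 (cm q r θ)) volume 0 Real.pi := by
    refine ae_all_iff.2 fun m => key _ ?_ ?_
    · have h1 : 1 / ((m : ℝ) + 2) < 1 := by
        rw [div_lt_one (by positivity)]
        have : (0 : ℝ) ≤ m := Nat.cast_nonneg m
        linarith
      exact mul_pos hRq (by linarith)
    · have h1 : 0 < 1 / ((m : ℝ) + 2) := by positivity
      nlinarith
  filter_upwards [hall] with r hr hr0 hrR
  obtain ⟨m, hm⟩ : ∃ m : ℕ, r < (F.R - |q|) * (1 - 1 / ((m : ℝ) + 2)) := by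
    have h1 : 0 < F.R - |q| - r := by linarith
    obtain ⟨m, hm⟩ := exists_nat_gt ((F.R - |q|) / (F.R - |q| - r))
    refine ⟨m, ?_⟩
    rw [div_lt_iff₀ h1] at hm
    have h2 : (F.R - |q|) / ((m : ℝ) + 2) < F.R - |q| - r := by
      rw [div_lt_iff₀ (by positivity)]
      nlinarith
    have h3 : (F.R - |q|) * (1 - 1 / ((m : ℝ) + 2)) = (F.R - |q|) -
        (F.R - |q|) / ((m : ℝ) + 2) := by ring
    rw [h3]
    linarith
  obtain ⟨I1, I2, I3⟩ := hr m ⟨hr0, hm⟩
  obtain ⟨E, hE⟩ : ∃ e, e = E2 n F.C F.R * (1 + vsq α) := ⟨_, rfl⟩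
  have hv := vsq_nonneg α
  have hE0 : 0 ≤ E := by rw [hE]; positivity
  obtain ⟨c0, hc0⟩ : ∃ e, e = 2 * KK * E + 2 * n := ⟨_, rfl⟩
  have hc00 : 0 ≤ c0 := by rw [hc0]; positivity
  have hV : HD q r ⊆ HD 0 F.R := hmem hrR.le
  have hVm := (isOpen_HD q r).measurableSet
  have g1nn : ∀ z, 0 ≤ g1 z := fun z => by
    rw [hg1]
    exact add_nonneg (G_nonneg α z) (G_nonneg α z)
  have hD : F.D q r α = ∫ z in HD q r, g1 z := by
    rw [hg1]
    rfl
  have hD0 : 0 ≤ F.D q r α := by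
    rw [hD]
    exact integral_nonneg g1nn
  -- interior estimate
  have hlow : F.D q r α - F.C * r ^ 2 * ((3 + KK) * F.D q r α + c0 * (Real.pi * r ^ 2)) ≤
      ∫ z in HD q r, aT z := by
    have i1 : IntegrableOn g1 (HD q r) := ig1.mono_set hV
    have hf : volume (HD q r) ≠ ⊤ := (vol_HD q r).ne
    have ic : IntegrableOn (fun _ : ℂ => c0) (HD q r) := integrableOn_const hf
    have ik : IntegrableOn (fun z => (3 + KK) * g1 z) (HD q r) := i1.const_mul _
    have ij : IntegrableOn (fun z => (3 + KK) * g1 z + c0) (HD q r) := ik.add ic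
    have il : IntegrableOn (fun z => F.C * r ^ 2 * ((3 + KK) * g1 z + c0)) (HD q r) :=
      ij.const_mul _
    have i2 : IntegrableOn (fun z => g1 z - F.C * r ^ 2 * ((3 + KK) * g1 z + c0)) (HD q r) :=
      i1.sub il
    have i3 : IntegrableOn aT (HD q r) := by
      rw [haT]
      exact (FA_int Sp α hV hVm).add (FA_int Sl α hV hVm)
    have h1 := setIntegral_mono_on i2 i3 hVm fun z hz => by
      have h2 := FA_low Sp α hrR.le hz
      have h3 := FA_low Sl α hrR.le hz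
      have h4 := G_nonneg (X := F.Px) (Y := F.Py) α z
      have h5 := G_nonneg (X := F.Lx) (Y := F.Ly) α z
      have hk1 : (((k + d : ℕ) : ℝ)) ≤ KK := by
        rw [hKK]
        have : (0 : ℝ) ≤ k := Nat.cast_nonneg k
        linarith
      have hk2 : (k : ℝ) ≤ KK := by
        rw [hKK]
        have : (0 : ℝ) ≤ ((k + d : ℕ) : ℝ) := Nat.cast_nonneg _
        linarith
      have h6 := mul_le_mul_of_nonneg_right hk1 h4
      have h7 := mul_le_mul_of_nonneg_right hk2 h5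
      have hCr : 0 ≤ F.C * r ^ 2 := by positivity
      have h8 : F.C * r ^ 2 * ((3 + ((k + d : ℕ) : ℝ)) * G F.Px F.Py α z +
          (2 * ((k + d : ℕ) : ℝ) * (E2 n F.C F.R * (1 + vsq α)) + n)) +
          F.C * r ^ 2 * ((3 + (k : ℝ)) * G F.Lx F.Ly α z +
          (2 * (k : ℝ) * (E2 n F.C F.R * (1 + vsq α)) + n)) ≤
          F.C * r ^ 2 * ((3 + KK) * g1 z + c0) := by
        rw [← mul_add]
        refine mul_le_mul_of_nonneg_left ?_ hCr
        rw [hg1, hc0, ← hE, hKK]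
        rw [hKK] at h6 h7
        linarith
      rw [haT]
      rw [hg1] at h8 ⊢
      simp only [] at h8 ⊢
      linarith
    rw [integral_sub i1 il, integral_const_mul, integral_add ik ic,
      integral_const_mul, ← hD, setIntegral_const, smul_eq_mul] at h1
    have h2 : volume.real (HD q r) ≤ Real.pi * r ^ 2 := by
      have h3 : volume (HD q r) ≤ volume (ball (q : ℂ) r) := by
        refine measure_mono fun z hz => ?_
        rw [mem_ball, dist_eq_norm]
        exact hz.2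
      rw [Complex.volume_ball] at h3
      have h4 := ENNReal.toReal_mono (by finiteness) h3
      rw [measureReal_def]
      refine h4.trans (le_of_eq ?_)
      rw [ENNReal.toReal_mul, ENNReal.toReal_pow, ENNReal.toReal_ofReal hr0.le]
      simp
      ring
    have h5 : F.C * r ^ 2 * ((3 + KK) * F.D q r α + volume.real (HD q r) * c0) ≤
        F.C * r ^ 2 * ((3 + KK) * F.D q r α + c0 * (Real.pi * r ^ 2)) := by
      refine mul_le_mul_of_nonneg_left ?_ (by positivity)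
      have := mul_le_mul_of_nonneg_right h2 hc00
      linarith
    linarith
  -- circle quantities
  obtain ⟨Hf, hHf⟩ : ∃ g : ℝ → ℝ, g = fun θ =>
    nsq (Zm (fun z => xi (F.p z)) α (cm q r θ)) + nsq (Zm (fun z => xi (F.l z)) α (cm q r θ)) :=
    ⟨_, rfl⟩
  have iH : IntervalIntegrable Hf volume 0 Real.pi := by
    rw [hHf]
    exact (H_int Sp α hr0 hrR).add (H_int Sl α hr0 hrR)
  have hh : F.h q r α = ∫ θ in (0 : ℝ)..Real.pi, Hf θ := by
    rw [hHf]
    simp only [Zm, cm_im]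
    rfl
  have hνe : F.nu q r α = r ^ 2 * ∫ θ in (0 : ℝ)..Real.pi, g2 (cm q r θ) := by
    rw [hg2]
    simp only [G2_cm α hr0]
    rfl
  have hte : F.t q r α = r ^ 2 * ∫ θ in (0 : ℝ)..Real.pi, (g1 (cm q r θ) - g2 (cm q r θ)) := by
    unfold Flat.t
    congr 1
    refine intervalIntegral.integral_congr fun θ _ => ?_
    rw [hg1, hg2]
    simp only [G2_cm α hr0, G]
    have h1 := nsq_rd_add_nsq_tg θ (F.Px (cm q r θ)) (sh (F.Py (cm q r θ)) α)
    have h2 := nsq_rd_add_nsq_tg θ (F.Lx (cm q r θ)) (sh (F.Ly (cm q r θ)) α)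
    linarith
  have hνt : F.nu q r α + F.t q r α = r ^ 2 * ∫ θ in (0 : ℝ)..Real.pi, g1 (cm q r θ) := by
    rw [hνe, hte, intervalIntegral.integral_sub I2 I3]
    ring
  have hh0 : 0 ≤ F.h q r α := by
    rw [hh, hHf]
    exact intervalIntegral.integral_nonneg Real.pi_pos.le fun θ _ =>
      add_nonneg (nsq_nonneg _) (nsq_nonneg _)
  have hν0 : 0 ≤ F.nu q r α := by
    unfold Flat.nu
    exact mul_nonneg (sq_nonneg r) (intervalIntegral.integral_nonneg Real.pi_pos.le fun θ _ =>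
      add_nonneg (nsq_nonneg _) (nsq_nonneg _))
  have ht0 : 0 ≤ F.t q r α := by
    unfold Flat.t
    exact mul_nonneg (sq_nonneg r) (intervalIntegral.integral_nonneg Real.pi_pos.le fun θ _ =>
      add_nonneg (nsq_nonneg _) (nsq_nonneg _))
  have hup : ∀ t : ℝ, 0 < t → ∫ z in HD q r, aT z ≤ t / 2 * F.nu q r α + F.h q r α / (2 * t) +
      F.C * r ^ 2 * (2 * (F.nu q r α + F.t q r α) + (1 + KK) * F.h q r α +
        Real.pi * (c0 * r ^ 2)) := by
    intro t ht
    rw [I1, ← intervalIntegral.integral_const_mul]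
    obtain ⟨Ψ, hΨ⟩ : ∃ g : ℝ → ℝ, g = fun θ => t / 2 * (r ^ 2 * g2 (cm q r θ)) + Hf θ / (2 * t) +
      F.C * r ^ 2 * (2 * (r ^ 2 * g1 (cm q r θ)) + (1 + KK) * Hf θ + c0 * r ^ 2) := ⟨_, rfl⟩
    have j1 : IntervalIntegrable (fun θ => t / 2 * (r ^ 2 * g2 (cm q r θ))) volume 0 Real.pi :=
      (I3.const_mul _).const_mul _
    have j2 : IntervalIntegrable (fun θ => Hf θ / (2 * t)) volume 0 Real.pi := iH.div_const _
    have j3 : IntervalIntegrable (fun θ => 2 * (r ^ 2 * g1 (cm q r θ))) volume 0 Real.pi :=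
      (I2.const_mul _).const_mul _
    have j4 : IntervalIntegrable (fun θ => (1 + KK) * Hf θ) volume 0 Real.pi := iH.const_mul _
    have j5 : IntervalIntegrable (fun _ : ℝ => c0 * r ^ 2) volume 0 Real.pi :=
      intervalIntegrable_const
    have iΨ : IntervalIntegrable Ψ volume 0 Real.pi := by
      rw [hΨ]
      exact (j1.add j2).add (((j3.add j4).add j5).const_mul _)
    have vΨ : ∫ θ in (0 : ℝ)..Real.pi, Ψ θ = t / 2 * F.nu q r α + F.h q r α / (2 * t) +
      F.C * r ^ 2 * (2 * (F.nu q r α + F.t q r α) + (1 + KK) * F.h q r α +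
        Real.pi * (c0 * r ^ 2)) := by
      rw [hΨ, intervalIntegral.integral_add (j1.add j2) (((j3.add j4).add j5).const_mul _),
        intervalIntegral.integral_add j1 j2, intervalIntegral.integral_const_mul,
        intervalIntegral.integral_const_mul, intervalIntegral.integral_div,
        intervalIntegral.integral_const_mul, intervalIntegral.integral_add (j3.add j4) j5,
        intervalIntegral.integral_add j3 j4, intervalIntegral.integral_const_mul,
        intervalIntegral.integral_const_mul, intervalIntegral.integral_const_mul,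
        intervalIntegral.integral_const, ← hνe, ← hh, ← hνt, sub_zero, smul_eq_mul]
    have hpw : ∀ θ ∈ Ioo 0 Real.pi, r * (Real.cos θ * b1 (cm q r θ) +
        Real.sin θ * b2 (cm q r θ)) ≤ Ψ θ := by
      intro θ hθ
      have h2 := circ_up Sp α hr0 hrR hθ ht
      have h3 := circ_up Sl α hr0 hrR hθ ht
      have h4 := nsq_nonneg (Zm (fun z => xi (F.p z)) α (cm q r θ))
      have h5 := nsq_nonneg (Zm (fun z => xi (F.l z)) α (cm q r θ))
      have hk1 : (((k + d : ℕ) : ℝ)) ≤ KK := by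
        rw [hKK]
        have : (0 : ℝ) ≤ k := Nat.cast_nonneg k
        linarith
      have hk2 : (k : ℝ) ≤ KK := by
        rw [hKK]
        have : (0 : ℝ) ≤ ((k + d : ℕ) : ℝ) := Nat.cast_nonneg _
        linarith
      have h6 := mul_le_mul_of_nonneg_right hk1 h4
      have h7 := mul_le_mul_of_nonneg_right hk2 h5
      have hCr : 0 ≤ F.C * r ^ 2 := by positivity
      rw [← hE] at h2 h3
      have h8 : F.C * r ^ 2 * (2 * (r ^ 2 * G F.Px F.Py α (cm q r θ)) +
          (1 + ((k + d : ℕ) : ℝ)) * nsq (Zm (fun z => xi (F.p z)) α (cm q r θ)) +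
          (2 * ((k + d : ℕ) : ℝ) * E + n) * r ^ 2) +
          F.C * r ^ 2 * (2 * (r ^ 2 * G F.Lx F.Ly α (cm q r θ)) +
          (1 + (k : ℝ)) * nsq (Zm (fun z => xi (F.l z)) α (cm q r θ)) +
          (2 * (k : ℝ) * E + n) * r ^ 2) ≤
          F.C * r ^ 2 * (2 * (r ^ 2 * g1 (cm q r θ)) + (1 + KK) * Hf θ + c0 * r ^ 2) := by
        rw [← mul_add]
        refine mul_le_mul_of_nonneg_left ?_ hCr
        rw [hg1, hc0, hHf]
        have h9 : (2 * ((k + d : ℕ) : ℝ) * E + n) * r ^ 2 + (2 * (k : ℝ) * E + n) * r ^ 2 =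
            (2 * KK * E + 2 * n) * r ^ 2 := by
          rw [hKK]
          ring
        simp only []
        linarith
      have e9 : g2 (cm q r θ) = nsq (Flat.rd θ (F.Px (cm q r θ)) (sh (F.Py (cm q r θ)) α)) +
          nsq (Flat.rd θ (F.Lx (cm q r θ)) (sh (F.Ly (cm q r θ)) α)) := by
        rw [hg2]
        simp only [G2_cm α hr0]
      have e10 : Hf θ = nsq (Zm (fun z => xi (F.p z)) α (cm q r θ)) +
          nsq (Zm (fun z => xi (F.l z)) α (cm q r θ)) := by rw [hHf]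
      have e11 : Hf θ / (2 * t) = nsq (Zm (fun z => xi (F.p z)) α (cm q r θ)) / (2 * t) +
          nsq (Zm (fun z => xi (F.l z)) α (cm q r θ)) / (2 * t) := by
        rw [e10]
        ring
      have e12 : t / 2 * (r ^ 2 * g2 (cm q r θ)) =
          t / 2 * (r ^ 2 * nsq (Flat.rd θ (F.Px (cm q r θ)) (sh (F.Py (cm q r θ)) α))) +
          t / 2 * (r ^ 2 * nsq (Flat.rd θ (F.Lx (cm q r θ)) (sh (F.Ly (cm q r θ)) α))) := by
        rw [e9]
        ring
      have e13 : r * (Real.cos θ * b1 (cm q r θ) + Real.sin θ * b2 (cm q r θ)) =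
          r * (Real.cos θ * FB q F.ηx F.ηy a b 1 F.A F.Px F.Py α
              (Zm (fun z => xi (F.p z)) α) 0 (cm q r θ) +
            Real.sin θ * FB q F.ηx F.ηy a b 1 F.A F.Px F.Py α 0
              (Zm (fun z => xi (F.p z)) α) (cm q r θ)) +
          r * (Real.cos θ * FB q F.ηx F.ηy a b (-1) F.B F.Lx F.Ly α
              (Zm (fun z => xi (F.l z)) α) 0 (cm q r θ) +
            Real.sin θ * FB q F.ηx F.ηy a b (-1) F.B F.Lx F.Ly α 0
              (Zm (fun z => xi (F.l z)) α) (cm q r θ)) := by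
        rw [hb1, hb2]
        ring
      rw [e13, hΨ]
      simp only []
      rw [e11, e12]
      linarith
    rw [← vΨ]
    by_cases hI : IntervalIntegrable (fun θ => r * (Real.cos θ * b1 (cm q r θ) +
        Real.sin θ * b2 (cm q r θ))) volume 0 Real.pi
    · exact intervalIntegral.integral_mono_on_of_le_Ioo Real.pi_pos.le hI iΨ hpw
    · rw [intervalIntegral.integral_undef hI, vΨ]
      have : 0 ≤ F.nu q r α + F.t q r α := by linarith
      positivity
  have hfin := sqrt_of_forall (x := F.D q r α) (e := F.C * r ^ 2 * ((3 + KK) * F.D q r α +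
      c0 * (Real.pi * r ^ 2)) + F.C * r ^ 2 * (2 * (F.nu q r α + F.t q r α) +
      (1 + KK) * F.h q r α + Real.pi * (c0 * r ^ 2))) hh0 hν0 (fun t ht => by
        have := hup t ht
        linarith)
  refine hfin.trans ?_
  obtain ⟨P, hP⟩ : ∃ x, x = Real.pi * (4 * KK * E2 n F.C F.R + 4 * n) := ⟨_, rfl⟩
  have hP0 : 0 ≤ P := by
    rw [hP]
    positivity
  rw [← hP]
  have hCr : 0 ≤ F.C * r ^ 2 := by positivity
  have hc1 : 2 * (Real.pi * c0) ≤ P * (1 + vsq α) := by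
    rw [hP, hc0, hE]
    have h1 : 0 ≤ Real.pi * (4 * n) * vsq α := by positivity
    nlinarith
  have h2 : F.C * r ^ 2 * ((3 + KK) * F.D q r α + c0 * (Real.pi * r ^ 2)) +
      F.C * r ^ 2 * (2 * (F.nu q r α + F.t q r α) +
      (1 + KK) * F.h q r α + Real.pi * (c0 * r ^ 2)) =
      F.C * r ^ 2 * ((3 + KK) * F.D q r α + (1 + KK) * F.h q r α +
        2 * (F.nu q r α + F.t q r α) + 2 * (Real.pi * c0) * r ^ 2) := by ring
  have h3 : F.C * (3 + KK + P) * r ^ 2 *
      (F.D q r α + F.h q r α + F.nu q r α + F.t q r α) + F.C * (3 + KK + P) * (1 + vsq α) * r ^ 4 =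
      F.C * r ^ 2 * ((3 + KK + P) * (F.D q r α + F.h q r α + F.nu q r α + F.t q r α) +
        (3 + KK + P) * (1 + vsq α) * r ^ 2) := by ring
  have h4 : (3 + KK) * F.D q r α + (1 + KK) * F.h q r α +
        2 * (F.nu q r α + F.t q r α) + 2 * (Real.pi * c0) * r ^ 2 ≤
      (3 + KK + P) * (F.D q r α + F.h q r α + F.nu q r α + F.t q r α) +
        (3 + KK + P) * (1 + vsq α) * r ^ 2 := by
    have k1 : 2 * (Real.pi * c0) * r ^ 2 ≤ P * (1 + vsq α) * r ^ 2 :=
      mul_le_mul_of_nonneg_right hc1 (sq_nonneg r)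
    have k2 : 0 ≤ (3 + KK) * (1 + vsq α) * r ^ 2 := by positivity
    have k3 : 0 ≤ P * (F.D q r α + F.h q r α + F.nu q r α + F.t q r α) := by positivity
    have k4 : 0 ≤ KK * (F.nu q r α + F.t q r α) := by positivity
    nlinarith
  have h5 := mul_le_mul_of_nonneg_left h4 hCr
  linarith

end Pool.Agent.DMB
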