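import Pool.Agent.DMB.Api

/-!
DMB, module OUV: outer variation with cut-off towards the mean.
-/

namespace Pool.Agent.DMB

open MeasureTheory Set Metric Filter Topology
open scoped ENNReal

namespace OUV_

variable {K n : ℕ}

theorem grad_sum (hGAL : Stmt_GAL) {U : Set ℂ} (hU : IsOpen U) {ι : Type} (t : Finset ι)
    (f fx fy : ι → ℂ → ℝ) (h : ∀ i ∈ t, HasGrad U (f i) (fx i) (fy i)) :
    HasGrad U (fun z => ∑ i ∈ t, f i z) (fun z => ∑ i ∈ t, fx i z)
      (fun z => ∑ i ∈ t, fy i z) := by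
  classical
  induction t using Finset.induction_on with
  | empty => simpa using (hGAL U hU).2.1 0
  | insert i t hi ih =>
    simp only [Finset.sum_insert hi]
    exact (hGAL U hU).2.2.1 _ _ _ _ _ _ (h i (Finset.mem_insert_self _ _))
      (ih fun j hj => h j (Finset.mem_insert_of_mem hj))

theorem dt_meas {U : Set ℂ} {X W : ℂ → Mat K n}
    (hX : ∀ i l, AEStronglyMeasurable (fun z => X z i l) (volume.restrict U))
    (hW : ∀ i l, AEStronglyMeasurable (fun z => W z i l) (volume.restrict U)) :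
    AEStronglyMeasurable (fun z => dt (X z) (W z)) (volume.restrict U) := by
  unfold dt
  exact Finset.aestronglyMeasurable_fun_sum _ fun i _ =>
    Finset.aestronglyMeasurable_fun_sum _ fun l _ => (hX i l).mul (hW i l)

theorem ed_meas {U : Set ℂ} {X Y : ℂ → Mat K n}
    (hX : ∀ i l, AEStronglyMeasurable (fun z => X z i l) (volume.restrict U))
    (hY : ∀ i l, AEStronglyMeasurable (fun z => Y z i l) (volume.restrict U)) :
    AEStronglyMeasurable (ed X Y) (volume.restrict U) := by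
  have h := (dt_meas hX hX).add (dt_meas hY hY)
  refine h.congr (Filter.Eventually.of_forall fun z => ?_)
  simp only [Pi.add_apply, ed, nsq_eq_dt]

theorem ed_nonneg (X Y : ℂ → Mat K n) (z : ℂ) : 0 ≤ ed X Y z :=
  add_nonneg (nsq_nonneg _) (nsq_nonneg _)

theorem ed_int (hEND : Stmt_END) {H : Set ℂ} (hH : IsOpen H) {u : ℂ → Tup K n}
    {X Y : ℂ → Mat K n} (hfin : en H u < ⊤) (hg : HasGradV H (fun z => xi (u z)) X Y) :
    IntegrableOn (ed X Y) H := by
  refine ⟨ed_meas (fun i l => (hg i l).mx) (fun i l => (hg i l).my), ?_⟩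
  rw [hasFiniteIntegral_iff_ofReal (Filter.Eventually.of_forall fun z => ed_nonneg X Y z)]
  have h := (hEND K n H u hH).1 X Y hg
  rw [← h]
  exact hfin

theorem first_var (hGAL : Stmt_GAL) (hEND : Stmt_END) {H : Set ℂ} (hH : IsOpen H)
    {u : ℂ → Tup K n} (hu : IntMin H u) {X Y : ℂ → Mat K n}
    (hg : HasGradV H (fun z => xi (u z)) X Y) {w Wx Wy : ℂ → Mat K n}
    (hw : HasGradV H w Wx Wy) (hWi : IntegrableOn (ed Wx Wy) H) {ε₀ : ℝ} (hε₀ : 0 < ε₀)
    (hv : ∀ ε : ℝ, |ε| < ε₀ → ∃ v : ℂ → Tup K n, ContG H v ∧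
      (∃ C ⊆ H, IsCompact C ∧ ∀ z ∈ H \ C, Same (v z) (u z)) ∧
      ∀ z ∈ H, xi (v z) = xi (u z) + ε • w z) :
    ∫ z in H, (dt (X z) (Wx z) + dt (Y z) (Wy z)) = 0 := by
  have hXi : IntegrableOn (ed X Y) H := ed_int hEND hH hu.2.1 hg
  have hci : IntegrableOn (fun z => dt (X z) (Wx z) + dt (Y z) (Wy z)) H := by
    refine Integrable.mono' (hXi.add hWi) ?_ ?_
    · exact (dt_meas (fun i l => (hg i l).mx) (fun i l => (hw i l).mx)).add
        (dt_meas (fun i l => (hg i l).my) (fun i l => (hw i l).my))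
    · refine Filter.Eventually.of_forall fun z => ?_
      rw [Real.norm_eq_abs]
      have h1 := two_abs_dt_le (X z) (Wx z)
      have h2 := two_abs_dt_le (Y z) (Wy z)
      have h3 := abs_add_le (dt (X z) (Wx z)) (dt (Y z) (Wy z))
      have h4 := nsq_nonneg (X z)
      have h5 := nsq_nonneg (Wx z)
      have h6 := nsq_nonneg (Y z)
      have h7 := nsq_nonneg (Wy z)
      simp only [Pi.add_apply, ed]
      linarith
  set A := ∫ z in H, (dt (X z) (Wx z) + dt (Y z) (Wy z)) with hA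
  set B := ∫ z in H, ed Wx Wy z with hB
  have hB0 : 0 ≤ B := integral_nonneg fun z => ed_nonneg _ _ z
  have key : ∀ ε : ℝ, |ε| < ε₀ → 0 ≤ 2 * ε * A + ε ^ 2 * B := by
    intro ε hε
    obtain ⟨v, hvc, hvs, hvx⟩ := hv ε hε
    have hle := hu.2.2 v hvc hvs
    have hgv : HasGradV H (fun z => xi (v z)) (fun z => X z + ε • Wx z)
        (fun z => Y z + ε • Wy z) := by
      intro i l
      have h1 := (hGAL H hH).2.2.1 _ _ _ _ _ _ (hg i l)
        ((hGAL H hH).2.2.2.1 ε _ _ _ (hw i l))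
      refine (hGAL H hH).2.2.2.2 _ _ _ _ _ _ h1 ?_ (Filter.Eventually.of_forall fun z => ?_)
        (Filter.Eventually.of_forall fun z => ?_)
      · intro z hz
        show xi (v z) i l = xi (u z) i l + ε * w z i l
        rw [hvx z hz]
        simp
      · simp
      · simp
    have hed : ∀ z, ed (fun z => X z + ε • Wx z) (fun z => Y z + ε • Wy z) z =
        ed X Y z + 2 * ε * (dt (X z) (Wx z) + dt (Y z) (Wy z)) + ε ^ 2 * ed Wx Wy z := by
      intro z
      simp only [ed, nsq_add, dt_smul_right, nsq_smul]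
      ring
    have hvi : IntegrableOn (ed (fun z => X z + ε • Wx z) (fun z => Y z + ε • Wy z)) H := by
      have h1 : IntegrableOn (fun z => ed X Y z +
          2 * ε * (dt (X z) (Wx z) + dt (Y z) (Wy z)) + ε ^ 2 * ed Wx Wy z) H :=
        (hXi.add (hci.const_mul (2 * ε))).add (hWi.const_mul (ε ^ 2))
      refine h1.congr (Filter.Eventually.of_forall fun z => ?_)
      exact (hed z).symm
    have e1 : en H u = ENNReal.ofReal (∫ z in H, ed X Y z) := by
      rw [(hEND K n H u hH).1 X Y hg, ofReal_integral_eq_lintegral_ofReal hXi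
        (Filter.Eventually.of_forall fun z => ed_nonneg _ _ z)]
    have e2 : en H v = ENNReal.ofReal
        (∫ z in H, ed (fun z => X z + ε • Wx z) (fun z => Y z + ε • Wy z) z) := by
      rw [(hEND K n H v hH).1 _ _ hgv, ofReal_integral_eq_lintegral_ofReal hvi
        (Filter.Eventually.of_forall fun z => ed_nonneg _ _ z)]
    rw [e1, e2, ENNReal.ofReal_le_ofReal_iff (integral_nonneg fun z => ed_nonneg _ _ z)] at hle
    have e3 : ∫ z in H, ed (fun z => X z + ε • Wx z) (fun z => Y z + ε • Wy z) z =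
        (∫ z in H, ed X Y z) + 2 * ε * A + ε ^ 2 * B := by
      simp only [hed]
      have i1 : IntegrableOn (fun z => 2 * ε * (dt (X z) (Wx z) + dt (Y z) (Wy z))) H :=
        hci.const_mul (2 * ε)
      have i2 : IntegrableOn (fun z => ed X Y z +
          2 * ε * (dt (X z) (Wx z) + dt (Y z) (Wy z))) H := hXi.add i1
      have i3 : IntegrableOn (fun z => ε ^ 2 * ed Wx Wy z) H := hWi.const_mul (ε ^ 2)
      rw [integral_add i2 i3, integral_add hXi i1, integral_const_mul, integral_const_mul]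
    rw [e3] at hle
    linarith
  by_contra hne
  have hA2 : 0 < A ^ 2 := by positivity
  set τ : ℝ := min (ε₀ / (2 * (|A| + 1))) (1 / (B + 1)) with hτ
  have hτ0 : 0 < τ := lt_min (by positivity) (by positivity)
  have hτ1 : |A| * τ < ε₀ := by
    have h1 : τ ≤ ε₀ / (2 * (|A| + 1)) := min_le_left _ _
    rw [le_div_iff₀ (by positivity)] at h1
    nlinarith [abs_nonneg A]
  have hτ2 : τ * B < 2 := by
    have h1 : τ ≤ 1 / (B + 1) := min_le_right _ _
    rw [le_div_iff₀ (by positivity)] at h1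
    nlinarith
  have h := key (-(A * τ)) (by rw [abs_neg, abs_mul, abs_of_pos hτ0]; exact hτ1)
  have e : 2 * -(A * τ) * A + (-(A * τ)) ^ 2 * B = A ^ 2 * τ * (τ * B - 2) := by ring
  rw [e] at h
  have h9 : A ^ 2 * τ * (τ * B - 2) < 0 :=
    mul_neg_of_pos_of_neg (by positivity) (by linarith)
  linarith

theorem contG_of (hMET : Stmt_MET) {A : Set ℂ} {u v : ℂ → Tup K n} (hu : ContG A u)
    (h : ∀ z ∈ A, ∃ C : ℝ, ∃ g : ℂ → ℝ, Tendsto g (𝓝[A] z) (𝓝 0) ∧ ∀ w ∈ A,
      ∀ σ : Equiv.Perm (Fin K), (∀ i, ‖u w i - u z (σ i)‖ ≤ dG (u w) (u z)) →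
        ∀ i, ‖v w i - v z (σ i)‖ ≤ C * dG (u w) (u z) + g w) : ContG A v := by
  intro z hz
  obtain ⟨C, g, hg, hb⟩ := h z hz
  have h1 : Tendsto (fun w => (K : ℝ) * (C * dG (u w) (u z) + g w)) (𝓝[A] z) (𝓝 0) := by
    have := (((hu z hz).const_mul C).add hg).const_mul (K : ℝ)
    simpa using this
  refine squeeze_zero' (Filter.Eventually.of_forall fun w => (hMET K n (v w) (v z) (v z)).1) ?_ h1
  filter_upwards [self_mem_nhdsWithin] with w hw
  obtain ⟨σ, hσ⟩ := (hMET K n (u w) (u z) (u z)).2.2.2.2.1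
  have h2 : ∀ i, ‖u w i - u z (σ i)‖ ≤ dG (u w) (u z) := by
    intro i
    rw [hσ]
    apply Real.le_sqrt_of_sq_le
    exact Finset.single_le_sum (f := fun i => ‖u w i - (u z ∘ σ) i‖ ^ 2)
      (fun j _ => sq_nonneg _) (Finset.mem_univ i)
  have h3 := hb w hw σ h2
  have h4 := (hMET K n (v w) (v z) (v z)).2.2.2.2.2.1 σ
  refine h4.trans ?_
  have h5 : Real.sqrt (sqd (v w) (v z ∘ σ)) ≤ ∑ i, ‖v w i - v z (σ i)‖ := by
    apply Real.sqrt_le_iff.2
    refine ⟨Finset.sum_nonneg fun _ _ => norm_nonneg _, ?_⟩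
    exact Finset.sum_sq_le_sq_sum_of_nonneg fun _ _ => norm_nonneg _
  refine h5.trans ?_
  calc ∑ i, ‖v w i - v z (σ i)‖ ≤ ∑ _i : Fin K, (C * dG (u w) (u z) + g w) :=
        Finset.sum_le_sum fun i _ => h3 i
    _ = (K : ℝ) * (C * dG (u w) (u z) + g w) := by
        rw [Finset.sum_const, Finset.card_univ, Fintype.card_fin, nsmul_eq_mul]

theorem mn_xi (hXIL : Stmt_XIL) (a : Tup K n) (l : Fin n) : mn (xi a) l = mnE a l := by
  have h := (hXIL K n a a).2.2.1 l
  simp only [mn, mnE]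
  rw [h]
  simp [div_eq_inv_mul]

theorem dt_sh_left (M N : Mat K n) (hN : sm N = 0) (b : Fin n → ℝ) : dt (sh M b) N = dt M N := by
  rw [sh_eq, dt_sub_left, dt_comm (rw' K b), dt_rw, hN]
  simp [vdt]

theorem dt_sh_mn (M : Mat K n) : dt M (sh M (mn M)) = dev M := by
  rw [← dt_sh_left M (sh M (mn M)) (sm_sh_mn M) (mn M), dev, nsq_eq_dt]

theorem norm_mnE_sub (hK : 0 < K) (a b : Tup K n) (σ : Equiv.Perm (Fin K)) {r : ℝ}
    (h : ∀ i, ‖a i - b (σ i)‖ ≤ r) : ‖mnE a - mnE b‖ ≤ r := by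
  have hK' : (0 : ℝ) < K := by exact_mod_cast hK
  have e : mnE a - mnE b = (K : ℝ)⁻¹ • ∑ i, (a i - b (σ i)) := by
    simp only [mnE]
    rw [Finset.sum_sub_distrib, Equiv.sum_comp σ b, smul_sub]
  rw [e, norm_smul, norm_inv, Real.norm_of_nonneg hK'.le]
  have h1 : ‖∑ i, (a i - b (σ i))‖ ≤ K * r := by
    refine (norm_sum_le _ _).trans ?_
    calc ∑ i, ‖a i - b (σ i)‖ ≤ ∑ _i : Fin K, r := Finset.sum_le_sum fun i _ => h i
      _ = K * r := by rw [Finset.sum_const, Finset.card_univ, Fintype.card_fin, nsmul_eq_mul]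
  rw [inv_mul_le_iff₀ hK']
  exact h1

end OUV_

open OUV_ in
theorem ouv_proof (hMET : Stmt_MET) (hXIL : Stmt_XIL) (hAFF : Stmt_AFF) (hGAL : Stmt_GAL)
    (hGMU : Stmt_GMU) (hGUN : Stmt_GUN) (hEND : Stmt_END) : Stmt_OUV := by
  intro K n H u X Y χ χx χy hK hH hu hg hχ hχC
  obtain ⟨C, hCH, hC, hχ0⟩ := hχC
  have hK' : (0 : ℝ) < K := by exact_mod_cast hK
  -- the gradient of the deviation
  have hS : HasGradV H (fun z => SS u z) (fun z => sh (X z) (mn (X z)))
      (fun z => sh (Y z) (mn (Y z))) := by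
    intro i l
    have h1 := grad_sum hGAL hH (Finset.univ : Finset (Fin K)) (fun j z => xi (u z) j l)
      (fun j z => X z j l) (fun j z => Y z j l) (fun j _ => hg j l)
    have h2 := (hGAL H hH).2.2.2.1 (-(K : ℝ)⁻¹) _ _ _ h1
    have h3 := (hGAL H hH).2.2.1 _ _ _ _ _ _ (hg i l) h2
    refine (hGAL H hH).2.2.2.2 _ _ _ _ _ _ h3 ?_ (Filter.Eventually.of_forall fun z => ?_)
      (Filter.Eventually.of_forall fun z => ?_)
    · intro z _
      simp only [SS, sh, mn]
      ring
    · simp only [sh, mn]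
      ring
    · simp only [sh, mn]
      ring
  set w : ℂ → Mat K n := fun z i l => χ z * SS u z i l with hw
  set Wx : ℂ → Mat K n := fun z i l => χx z * SS u z i l + χ z * sh (X z) (mn (X z)) i l with hWx
  set Wy : ℂ → Mat K n := fun z i l => χy z * SS u z i l + χ z * sh (Y z) (mn (Y z)) i l with hWy
  have hgrad : HasGradV H w Wx Wy := fun i l => hGMU H χ χx χy _ _ _ hH hχ (hS i l)
  have eWx : ∀ z, Wx z = χx z • SS u z + χ z • sh (X z) (mn (X z)) := fun z => by
    funext i l; simp [hWx]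
  have eWy : ∀ z, Wy z = χy z • SS u z + χ z • sh (Y z) (mn (Y z)) := fun z => by
    funext i l; simp [hWy]
  -- bounds on the compact set
  have hXi : IntegrableOn (ed X Y) H := ed_int hEND hH hu.2.1 hg
  obtain ⟨M1, hM1⟩ : ∃ M1, ∀ z ∈ C, ‖χ z‖ ≤ M1 := hC.exists_bound_of_continuousOn (hχ.cont.mono hCH)
  have hScont : ContinuousOn (fun z => nsq (SS u z)) H := by
    simp only [nsq]
    exact continuousOn_finsetSum _ fun i _ => continuousOn_finsetSum _ fun l _ =>
      (hS i l).cont.pow 2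
  obtain ⟨M2, hM2⟩ : ∃ M2, ∀ z ∈ C, ‖nsq (SS u z)‖ ≤ M2 :=
    hC.exists_bound_of_continuousOn (hScont.mono hCH)
  set N1 : ℝ := max M1 0 with hN1
  set N2 : ℝ := max M2 0 with hN2
  have hN1' : 0 ≤ N1 := le_max_right _ _
  have hN2' : 0 ≤ N2 := le_max_right _ _
  have hχb : ∀ z ∈ H, |χ z| ≤ N1 := by
    intro z hz
    by_cases hzC : z ∈ C
    · exact (hM1 z hzC).trans (le_max_left _ _)
    · rw [hχ0 z ⟨hz, hzC⟩, abs_zero]; exact hN1'
  have hSb : ∀ z ∈ C, nsq (SS u z) ≤ N2 := fun z hz =>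
    (le_abs_self _).trans ((hM2 z hz).trans (le_max_left _ _))
  -- the gradient of the cut-off vanishes outside `C`
  have hOpen : IsOpen (H \ C) := hH.sdiff hC.isClosed
  have hz1 := (hGAL H hH).1 (H \ C) χ χx χy hOpen sdiff_subset hχ
  have hz2 : HasGrad (H \ C) χ (fun _ => 0) (fun _ => 0) :=
    (hGAL _ hOpen).2.2.2.2 _ _ _ _ _ _ ((hGAL _ hOpen).2.1 0) (fun z hz => hχ0 z hz)
      Filter.EventuallyEq.rfl Filter.EventuallyEq.rfl
  obtain ⟨hzx, hzy⟩ := hGUN _ _ _ _ _ _ hOpen hz1 hz2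
  have hzx' := (ae_restrict_iff' hOpen.measurableSet).1 hzx
  have hzy' := (ae_restrict_iff' hOpen.measurableSet).1 hzy
  have hWi : IntegrableOn (ed Wx Wy) H := by
    have hCi : IntegrableOn (fun z => χx z ^ 2 + χy z ^ 2) C := hχ.loc C hCH hC
    have hCi' : IntegrableOn (C.indicator fun z => χx z ^ 2 + χy z ^ 2) H :=
      (hCi.integrable_indicator hC.measurableSet).integrableOn
    refine Integrable.mono' ((hCi'.const_mul (2 * N2)).add (hXi.const_mul (2 * N1 ^ 2))) ?_ ?_
    · exact ed_meas (fun i l => (hgrad i l).mx) (fun i l => (hgrad i l).my)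
    · rw [ae_restrict_iff' hH.measurableSet]
      filter_upwards [hzx', hzy'] with z h1 h2 hz
      rw [Real.norm_of_nonneg (ed_nonneg _ _ z)]
      have hdX : dev (X z) ≤ nsq (X z) := dev_le_nsq _
      have hdY : dev (Y z) ≤ nsq (Y z) := dev_le_nsq _
      have hdX0 : 0 ≤ dev (X z) := dev_nonneg _
      have hdY0 : 0 ≤ dev (Y z) := dev_nonneg _
      have hχ2 : χ z ^ 2 ≤ N1 ^ 2 := by
        have := hχb z hz
        rw [← sq_abs]
        exact pow_le_pow_left₀ (abs_nonneg _) this 2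
      have b1 : nsq (Wx z) ≤ 2 * (χx z ^ 2 * nsq (SS u z)) + 2 * (χ z ^ 2 * dev (X z)) := by
        rw [eWx]
        have h3 := two_dt_le (χx z • SS u z) (χ z • sh (X z) (mn (X z)))
        rw [nsq_add]
        rw [nsq_smul, nsq_smul] at h3 ⊢
        rw [show nsq (sh (X z) (mn (X z))) = dev (X z) from rfl] at h3 ⊢
        linarith
      have b2 : nsq (Wy z) ≤ 2 * (χy z ^ 2 * nsq (SS u z)) + 2 * (χ z ^ 2 * dev (Y z)) := by
        rw [eWy]
        have h3 := two_dt_le (χy z • SS u z) (χ z • sh (Y z) (mn (Y z)))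
        rw [nsq_add]
        rw [nsq_smul, nsq_smul] at h3 ⊢
        rw [show nsq (sh (Y z) (mn (Y z))) = dev (Y z) from rfl] at h3 ⊢
        linarith
      have b3 : χ z ^ 2 * dev (X z) ≤ N1 ^ 2 * nsq (X z) :=
        mul_le_mul hχ2 hdX hdX0 (sq_nonneg _)
      have b4 : χ z ^ 2 * dev (Y z) ≤ N1 ^ 2 * nsq (Y z) :=
        mul_le_mul hχ2 hdY hdY0 (sq_nonneg _)
      have b5 : (χx z ^ 2 + χy z ^ 2) * nsq (SS u z) ≤
          N2 * (C.indicator (fun z => χx z ^ 2 + χy z ^ 2) z) := by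
        by_cases hzC : z ∈ C
        · rw [indicator_of_mem hzC]
          have := mul_le_mul_of_nonneg_left (hSb z hzC)
            (by positivity : (0 : ℝ) ≤ χx z ^ 2 + χy z ^ 2)
          linarith
        · have h3 : χx z = 0 := h1 ⟨hz, hzC⟩
          have h4 : χy z = 0 := h2 ⟨hz, hzC⟩
          rw [indicator_of_notMem hzC, h3, h4]
          simp
      simp only [Pi.add_apply, ed]
      nlinarith [b1, b2, b3, b4, b5]
  have h := first_var hGAL hEND hH hu hg hgrad hWi (ε₀ := 1 / (N1 + 1)) (by positivity) ?_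
  · have hSS : ∀ z, sm (SS u z) = 0 := fun z => sm_sh_mn _
    have h1 : ∀ z, dt (X z) (Wx z) + dt (Y z) (Wy z) =
        χ z * (dev (X z) + dev (Y z)) + χx z * dt (SS u z) (sh (X z) (mn (X z))) +
          χy z * dt (SS u z) (sh (Y z) (mn (Y z))) := by
      intro z
      rw [eWx, eWy, dt_add_right, dt_add_right, dt_smul_right, dt_smul_right, dt_smul_right,
        dt_smul_right, dt_sh_mn, dt_sh_mn, dt_comm (SS u z) (sh (X z) (mn (X z))),
        dt_comm (SS u z) (sh (Y z) (mn (Y z))), dt_sh_left _ _ (hSS z), dt_sh_left _ _ (hSS z)]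
      ring
    simp only [h1] at h
    exact h
  · intro ε hε
    have hεχ : ∀ z ∈ H, |ε * χ z| ≤ 1 := by
      intro z hz
      rw [lt_div_iff₀ (by positivity)] at hε
      rw [abs_mul]
      have h1 := hχb z hz
      have h2 := mul_le_mul_of_nonneg_left h1 (abs_nonneg ε)
      nlinarith [abs_nonneg ε]
    refine ⟨fun z i => (1 + ε * χ z) • u z i + (-(ε * χ z)) • mnE (u z), ?_, ?_, ?_⟩
    · refine contG_of hMET hu.1 fun z hz => ⟨3, fun w' =>
        |ε * χ w' - ε * χ z| * (∑ j, ‖u z j‖ + ‖mnE (u z)‖), ?_, ?_⟩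
      · have h1 : ContinuousWithinAt (fun w' => |ε * χ w' - ε * χ z| *
            (∑ j, ‖u z j‖ + ‖mnE (u z)‖)) H z := by
          have h2 := hχ.cont z hz
          exact ((((continuousWithinAt_const.mul h2).sub continuousWithinAt_const).abs).mul
            continuousWithinAt_const)
        have h2 := h1.tendsto
        rw [sub_self, abs_zero, zero_mul] at h2
        exact h2
      · intro w' hw' σ hσ i
        have e : (1 + ε * χ w') • u w' i + (-(ε * χ w')) • mnE (u w') -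
            ((1 + ε * χ z) • u z (σ i) + (-(ε * χ z)) • mnE (u z)) =
            (1 + ε * χ w') • (u w' i - u z (σ i)) + (ε * χ w' - ε * χ z) • u z (σ i) +
            ((-(ε * χ w')) • (mnE (u w') - mnE (u z)) +
              (-(ε * χ w' - ε * χ z)) • mnE (u z)) := by
          module
        rw [e]
        have hm := norm_mnE_sub hK (u w') (u z) σ hσ
        have h1 : ‖(1 + ε * χ w') • (u w' i - u z (σ i))‖ ≤ 2 * dG (u w') (u z) := by
          rw [norm_smul, Real.norm_eq_abs]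
          have h2 : |1 + ε * χ w'| ≤ 2 := by
            have := abs_add_le (1 : ℝ) (ε * χ w')
            rw [abs_one] at this
            linarith [hεχ w' hw']
          exact mul_le_mul h2 (hσ i) (norm_nonneg _) (by norm_num)
        have h2 : ‖(-(ε * χ w')) • (mnE (u w') - mnE (u z))‖ ≤ 1 * dG (u w') (u z) := by
          rw [norm_smul, Real.norm_eq_abs, abs_neg]
          exact mul_le_mul (hεχ w' hw') hm (norm_nonneg _) zero_le_one
        have h3 : ‖(ε * χ w' - ε * χ z) • u z (σ i)‖ ≤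
            |ε * χ w' - ε * χ z| * ∑ j, ‖u z j‖ := by
          rw [norm_smul, Real.norm_eq_abs]
          refine mul_le_mul_of_nonneg_left ?_ (abs_nonneg _)
          exact Finset.single_le_sum (f := fun j => ‖u z j‖) (fun j _ => norm_nonneg _)
            (Finset.mem_univ (σ i))
        have h4 : ‖(-(ε * χ w' - ε * χ z)) • mnE (u z)‖ =
            |ε * χ w' - ε * χ z| * ‖mnE (u z)‖ := by
          rw [norm_smul, Real.norm_eq_abs, abs_neg]
        have h5 := norm_add_le ((1 + ε * χ w') • (u w' i - u z (σ i)) +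
          (ε * χ w' - ε * χ z) • u z (σ i)) ((-(ε * χ w')) • (mnE (u w') - mnE (u z)) +
              (-(ε * χ w' - ε * χ z)) • mnE (u z))
        have h6 := norm_add_le ((1 + ε * χ w') • (u w' i - u z (σ i)))
          ((ε * χ w' - ε * χ z) • u z (σ i))
        have h7 := norm_add_le ((-(ε * χ w')) • (mnE (u w') - mnE (u z)))
          ((-(ε * χ w' - ε * χ z)) • mnE (u z))
        nlinarith [h1, h2, h3, h4, h5, h6, h7]
    · refine ⟨C, hCH, hC, fun z hz => ?_⟩
      refine ⟨Equiv.refl _, ?_⟩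
      funext i
      simp [hχ0 z hz]
    · intro z hz
      have h1 : 0 ≤ 1 + ε * χ z := by
        have := neg_abs_le (ε * χ z)
        linarith [hεχ z hz]
      rw [(hAFF K n (u z)).1 (1 + ε * χ z) ((-(ε * χ z)) • mnE (u z)) h1]
      funext i l
      have h2 := mn_xi hXIL (u z) l
      show (1 + ε * χ z) * xi (u z) i l + ((-(ε * χ z)) • mnE (u z)) l =
        xi (u z) i l + ε * (χ z * SS u z i l)
      have h3 : ((-(ε * χ z)) • mnE (u z)) l = -(ε * χ z) * mnE (u z) l := rfl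
      rw [h3, ← h2]
      simp only [SS, sh]
      ring

end Pool.Agent.DMB
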