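import Pool.Agent.DMB.Api

/-!
Squad DMB (MP_71cfa6_an), module POL: polar coordinates in a half disc.
-/

namespace Pool.Agent.DMB

open MeasureTheory Set Metric Filter Topology
open scoped ENNReal

namespace POL_

/-- the parametrisation of the plane -/
noncomputable def em (q : ℝ) (p : ℝ × ℝ) : ℂ := Complex.measurableEquivRealProd.symm p + (q : ℂ)

lemma em_apply (q : ℝ) (p : ℝ × ℝ) : em q p = ⟨p.1, p.2⟩ + (q : ℂ) := rfl

lemma em_mp (q : ℝ) : MeasurePreserving (em q) (volume : Measure (ℝ × ℝ)) volume :=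
  (measurePreserving_add_right (volume : Measure ℂ) (q : ℂ)).comp
    (Complex.volume_preserving_equiv_real_prod.symm)

lemma em_emb (q : ℝ) : MeasurableEmbedding (em q) :=
  (measurableEmbedding_addRight (q : ℂ)).comp
    (Complex.measurableEquivRealProd.symm.measurableEmbedding)

/-- the rectangle of polar coordinates -/
def sr (r : ℝ) : Set (ℝ × ℝ) := Ioo 0 r ×ˢ Ioo 0 Real.pi

lemma sr_meas (r : ℝ) : MeasurableSet (sr r) := measurableSet_Ioo.prod measurableSet_Ioo

lemma sr_sub (r : ℝ) : sr r ⊆ polarCoord.target := by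
  rintro ⟨a, b⟩ ⟨ha, hb⟩
  exact ⟨ha.1, ⟨by linarith [hb.1, Real.pi_pos], hb.2⟩⟩

lemma em_polar (q ρ θ : ℝ) : em q (polarCoord.symm (ρ, θ)) = cm q ρ θ := by
  rw [em_apply]
  unfold cm
  rw [Complex.exp_mul_I]
  apply Complex.ext
  · simp [Complex.cos_ofReal_re, Complex.sin_ofReal_im, add_comm]
  · simp [Complex.sin_ofReal_re]

lemma image_sr (q r : ℝ) : em q ⁻¹' (HD q r) = polarCoord.symm '' (sr r) := by
  ext p
  simp only [mem_preimage, mem_image]
  constructor
  · rintro ⟨h1, h2⟩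
    rw [em_apply] at h1 h2
    have hy : 0 < p.2 := by simpa using h1
    have e1 : ((⟨p.1, p.2⟩ : ℂ) + (q : ℂ)) - (q : ℂ) = ⟨p.1, p.2⟩ := by ring
    rw [e1] at h2
    have hsrc : p ∈ polarCoord.source := Or.inr hy.ne'
    refine ⟨polarCoord p, ?_, polarCoord.left_inv hsrc⟩
    have hn : ‖(⟨p.1, p.2⟩ : ℂ)‖ = Real.sqrt (p.1 ^ 2 + p.2 ^ 2) := by
      rw [Complex.norm_def, Complex.normSq_mk]
      ring_nf
    have e2 : polarCoord p = (Real.sqrt (p.1 ^ 2 + p.2 ^ 2),
        Complex.arg (Complex.equivRealProd.symm p)) := rfl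
    rw [e2]
    refine ⟨⟨?_, ?_⟩, ⟨?_, ?_⟩⟩
    · exact Real.sqrt_pos.2 (by positivity)
    · rw [← hn]; exact h2
    · have h3 : 0 ≤ Complex.arg (Complex.equivRealProd.symm p) :=
        Complex.arg_nonneg_iff.2 (by simpa using hy.le)
      refine lt_of_le_of_ne h3 fun h4 => ?_
      have h5 := Complex.arg_eq_zero_iff.1 h4.symm
      have : p.2 = 0 := by simpa using h5.2
      exact hy.ne' this
    · refine Complex.arg_lt_pi_iff.2 (Or.inr ?_)
      have : (Complex.equivRealProd.symm p).im = p.2 := by simp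
      rw [this]
      exact hy.ne'
  · rintro ⟨⟨ρ, θ⟩, ⟨hρ, hθ⟩, rfl⟩
    rw [em_polar]
    simp only at hρ hθ
    refine ⟨?_, ?_⟩
    · unfold cm
      rw [Complex.exp_mul_I]
      have : ((q : ℂ) + ρ * (Complex.cos θ + Complex.sin θ * Complex.I)).im = ρ * Real.sin θ := by
        simp [Complex.sin_ofReal_re]
      rw [this]
      exact mul_pos hρ.1 (Real.sin_pos_of_pos_of_lt_pi hθ.1 hθ.2)
    · unfold cm
      rw [add_sub_cancel_left, norm_mul, Complex.norm_exp_ofReal_mul_I, mul_one,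
        Complex.norm_real, Real.norm_of_nonneg hρ.1.le]
      exact hρ.2

lemma det_eq (p : ℝ × ℝ) : (fderivPolarCoordSymm p).det = p.1 := det_fderivPolarCoordSymm p

lemma integrable_polar (q r : ℝ) (g : ℂ → ℝ) (hg : IntegrableOn g (HD q r)) :
    IntegrableOn (fun p : ℝ × ℝ => p.1 * g (cm q p.1 p.2)) (sr r) := by
  have h1 : IntegrableOn (g ∘ em q) (em q ⁻¹' (HD q r)) :=
    ((em_mp q).integrableOn_comp_preimage (em_emb q)).2 hg
  rw [image_sr, integrableOn_image_iff_integrableOn_abs_det_fderiv_smul volume (sr_meas r)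
    (fun p _ => (hasFDerivAt_polarCoord_symm p).hasFDerivWithinAt)
    (polarCoord.symm.injOn.mono (sr_sub r))] at h1
  refine h1.congr_fun (fun p hp => ?_) (sr_meas r)
  obtain ⟨ρ, θ⟩ := p
  simp only [det_eq, Function.comp_apply, smul_eq_mul, em_polar]
  rw [abs_of_pos hp.1.1]

lemma integral_polar (q r : ℝ) (g : ℂ → ℝ) :
    ∫ z in HD q r, g z = ∫ p in sr r, p.1 * g (cm q p.1 p.2) := by
  rw [← (em_mp q).setIntegral_preimage_emb (em_emb q) g (HD q r), image_sr,
    integral_image_eq_integral_abs_det_fderiv_smul volume (sr_meas r)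
    (fun p _ => (hasFDerivAt_polarCoord_symm p).hasFDerivWithinAt)
    (polarCoord.symm.injOn.mono (sr_sub r))]
  refine setIntegral_congr_fun (sr_meas r) fun p hp => ?_
  obtain ⟨ρ, θ⟩ := p
  simp only [det_eq, smul_eq_mul, em_polar]
  rw [abs_of_pos hp.1.1]

lemma restrict_sr (r : ℝ) : (volume : Measure (ℝ × ℝ)).restrict (sr r) =
    (volume.restrict (Ioo 0 r)).prod (volume.restrict (Ioo 0 Real.pi)) := by
  rw [Measure.prod_restrict]
  rfl

lemma inner_eq (q ρ : ℝ) (g : ℂ → ℝ) : ∫ θ in Ioo 0 Real.pi, ρ * g (cm q ρ θ) =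
    ρ * ∫ θ in (0 : ℝ)..Real.pi, g (cm q ρ θ) := by
  rw [integral_const_mul, intervalIntegral.integral_of_le Real.pi_pos.le,
    integral_Ioc_eq_integral_Ioo]

end POL_

open POL_ in
theorem pol_proof : Stmt_POL := by
  intro q R g hR hg
  have h1 := integrable_polar q R g hg
  rw [IntegrableOn, restrict_sr] at h1
  refine ⟨?_, ?_, ?_⟩
  · have h2 := h1.prod_right_ae
    rw [ae_restrict_iff' measurableSet_Ioo] at h2
    filter_upwards [h2] with ρ hρ hmem
    have h3 := hρ hmem
    rw [intervalIntegrable_iff_integrableOn_Ioo_of_le Real.pi_pos.le]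
    have h4 := h3.const_mul (1 / ρ)
    refine h4.congr (Eventually.of_forall fun θ => ?_)
    have : ρ ≠ 0 := hmem.1.ne'
    simp only
    field_simp
  · have h2 := h1.integral_prod_left
    simp only [inner_eq] at h2
    rw [intervalIntegrable_iff_integrableOn_Ioo_of_le hR.le]
    exact h2
  · intro r hr
    rw [integral_polar, restrict_sr]
    have hsub : sr r ⊆ sr R := prod_mono (Ioo_subset_Ioo_right hr.2) subset_rfl
    have h2 : IntegrableOn (fun p : ℝ × ℝ => p.1 * g (cm q p.1 p.2)) (sr r) :=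
      (integrable_polar q R g hg).mono_set hsub
    rw [IntegrableOn, restrict_sr] at h2
    rw [integral_prod _ h2]
    simp only [inner_eq]
    rw [intervalIntegral.integral_of_le hr.1, integral_Ioc_eq_integral_Ioo]

end Pool.Agent.DMB
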