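import Pool.Agent.DMB.Api

/-!
Module PRI: a Privalov type uniqueness theorem.
The sub namespace contains lemmas which are also used by BAR.
-/

set_option autoImplicit false

namespace Pool.Agent.DMB

open MeasureTheory Set Metric Filter Topology
open scoped ENNReal

namespace PRI_

/-- real points -/
def re' (E : Set ℝ) : Set ℂ := (fun t : ℝ => (t : ℂ)) '' E

theorem mem_re' {E : Set ℝ} {z : ℂ} : z ∈ re' E ↔ z.im = 0 ∧ z.re ∈ E := by
  constructor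
  · rintro ⟨t, ht, rfl⟩; exact ⟨by simp, by simpa using ht⟩
  · rintro ⟨h1, h2⟩; exact ⟨z.re, h2, by apply Complex.ext <;> simp [h1]⟩

/-- local configuration at a density point -/
structure Loc (R C : ℝ) (E1 : Set ℝ) (r0 q0 l : ℝ) (E2 : Set ℝ) : Prop where
  hl : 0 < l
  hq : q0 ∈ E2
  sub : E2 ⊆ E1
  cpt : IsCompact E2
  near : ∀ t ∈ E2, |t - q0| ≤ l
  vol : (volume E2).toReal ≤ 2 * l
  R : |q0| + 6 * l < R
  C : C ^ 2 * (2 * l) ≤ 1 / 16
  r0 : 4 * l < r0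
  dens : Dens E2 q0

theorem exists_loc (hDEN : Stmt_DEN) (R C : ℝ) (hC : 1 ≤ C) (E1 : Set ℝ) (r0 : ℝ) (hr0 : 0 < r0)
    (hE : IsCompact E1) (hsub : E1 ⊆ Ioo (-R) R) (hv : 0 < volume E1) :
    ∃ q0 l E2, Loc R C E1 r0 q0 l E2 := by
  have h1 := hDEN E1 hE.measurableSet
  have h2 : ∃ q ∈ E1, Dens E1 q := by
    by_contra hcon
    push Not at hcon
    have h3 : ∀ᵐ q : ℝ, q ∉ E1 := by
      filter_upwards [h1] with q hq hqE
      exact hcon q hqE (hq hqE)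
    have h4 : volume E1 = 0 := by
      have := ae_iff.mp h3
      simpa using this
    exact hv.ne' h4
  obtain ⟨q, hq, hd⟩ := h2
  have hqR := hsub hq
  have hqa : |q| < R := abs_lt.mpr ⟨hqR.1, hqR.2⟩
  have hC2 : 0 < C ^ 2 := by positivity
  obtain ⟨l, hl0, hl1, hl2, hl3⟩ : ∃ l : ℝ, 0 < l ∧ l ≤ (R - |q|) / 7 ∧ l ≤ 1 / (32 * C ^ 2) ∧
      l ≤ r0 / 8 := by
    refine ⟨min ((R - |q|) / 7) (min (1 / (32 * C ^ 2)) (r0 / 8)), ?_, min_le_left _ _,
      (min_le_right _ _).trans (min_le_left _ _), (min_le_right _ _).trans (min_le_right _ _)⟩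
    refine lt_min (by linarith) (lt_min (by positivity) (by positivity))
  have hfin : volume (Icc (q - l) (q + l)) = ENNReal.ofReal (2 * l) := by
    rw [Real.volume_Icc]; congr 1; ring
  refine ⟨q, l, E1 ∩ Icc (q - l) (q + l), ⟨hl0, ⟨hq, by constructor <;> linarith⟩,
    inter_subset_left, hE.inter_right isClosed_Icc, ?_, ?_, ?_, ?_, ?_, ?_⟩⟩
  · rintro t ⟨_, h⟩
    rw [abs_le]; constructor <;> linarith [h.1, h.2]
  · have : volume (E1 ∩ Icc (q - l) (q + l)) ≤ ENNReal.ofReal (2 * l) :=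
      hfin ▸ measure_mono inter_subset_right
    calc (volume (E1 ∩ Icc (q - l) (q + l))).toReal
        ≤ (ENNReal.ofReal (2 * l)).toReal := ENNReal.toReal_mono ENNReal.ofReal_ne_top this
      _ = 2 * l := ENNReal.toReal_ofReal (by linarith)
  · linarith
  · have : l * (32 * C ^ 2) ≤ 1 := by
      have := (le_div_iff₀ (by positivity : (0 : ℝ) < 32 * C ^ 2)).mp hl2
      exact this
    nlinarith
  · linarith
  · intro ε hε
    obtain ⟨r1, hr1, h⟩ := hd ε hε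
    refine ⟨min r1 l, lt_min hr1 hl0, fun r hr hrm => ?_⟩
    refine (measure_mono ?_).trans (h r hr (hrm.trans_le (min_le_left _ _)))
    rintro ρ ⟨hρ, hn⟩
    refine ⟨hρ, fun hc => hn ?_⟩
    have hrl : r < l := hrm.trans_le (min_le_right _ _)
    refine ⟨⟨hc.1, ?_⟩, ⟨hc.2, ?_⟩⟩ <;> constructor <;> linarith [hρ.1, hρ.2]

section chart

variable {Φ : ℂ → ℂ} {c1 : ℝ → ℂ} {R C : ℝ}

theorem HD_subc : HD 0 R ⊆ HDc 0 R := fun _ hz => ⟨hz.1.le, hz.2⟩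

theorem mem_HDc {q : ℝ} {l : ℝ} (hR : |q| + 6 * l < R) {z : ℂ} (h0 : 0 ≤ z.im)
    (h1 : z.im ≤ 2 * l) (h2 : |z.re - q| ≤ 3 * l) : z ∈ HDc 0 R := by
  refine ⟨h0, ?_⟩
  have h3 : ‖z‖ ≤ |z.re| + |z.im| := Complex.norm_le_abs_re_add_abs_im z
  have h4 : |z.re| ≤ |q| + |z.re - q| := by
    have := abs_add_le q (z.re - q); simpa using this
  rw [abs_of_nonneg h0] at h3
  have h5 : 0 ≤ |z.re - q| := abs_nonneg _
  have : ‖z - ((0 : ℝ) : ℂ)‖ = ‖z‖ := by simp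
  rw [this]
  have h6 : 0 ≤ l := by linarith
  linarith

theorem cont (h : HChart Φ c1 R C) : ContinuousOn Φ (HDc 0 R) := by
  have hl : LipschitzOnWith (Real.toNNReal C) Φ (HDc 0 R) := by
    refine LipschitzOnWith.of_dist_le_mul fun z hz w hw => ?_
    rw [dist_eq_norm, dist_eq_norm, Real.coe_toNNReal C (by linarith [h.hC])]
    exact h.lip z hz w hw
  exact hl.continuousOn

theorem inj (h : HChart Φ c1 R C) : InjOn Φ (HDc 0 R) := by
  intro z hz w hw hzw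
  have := h.alip z hz w hw
  rw [hzw, sub_self, norm_zero, mul_zero] at this
  exact sub_eq_zero.mp (norm_le_zero_iff.mp this)

theorem closure_image (h : HChart Φ c1 R C) {S : Set ℂ} (hc : closure S ⊆ HDc 0 R)
    (hb : Bornology.IsBounded S) : closure (Φ '' S) ⊆ Φ '' closure S := by
  have hcpt : IsCompact (closure S) := hb.isCompact_closure
  have : IsCompact (Φ '' closure S) := hcpt.image_of_continuousOn ((cont h).mono hc)
  exact closure_minimal (image_mono subset_closure) this.isClosed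

theorem frontier_image (h : HChart Φ c1 R C) {S : Set ℂ} (hS : IsOpen S) (h1 : S ⊆ HD 0 R)
    (hc : closure S ⊆ HDc 0 R) (hb : Bornology.IsBounded S) :
    frontier (Φ '' S) ⊆ Φ '' (closure S \ S) := by
  intro w hw
  have ho : IsOpen (Φ '' S) := h.opn S h1 hS
  rw [ho.frontier_eq] at hw
  obtain ⟨z, hz, rfl⟩ := closure_image h hc hb hw.1
  exact ⟨z, ⟨hz, fun hzS => hw.2 ⟨z, hzS, rfl⟩⟩, rfl⟩

theorem HD_open (R : ℝ) : IsOpen (HD 0 R) := by
  have : HD 0 R = {z : ℂ | 0 < z.im} ∩ {z : ℂ | ‖z - ((0 : ℝ) : ℂ)‖ < R} := rfl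
  rw [this]
  exact (isOpen_lt continuous_const Complex.continuous_im).inter
    (isOpen_lt (by fun_prop) continuous_const)

theorem HD_conn (R : ℝ) : IsPreconnected (HD 0 R) := by
  have : HD 0 R = {z : ℂ | 0 < z.im} ∩ ball 0 R := by
    ext z; simp [HD]
  rw [this]
  exact ((convex_halfSpace_im_gt 0).inter (convex_ball 0 R)).isPreconnected

/-- the imaginary part of the Cauchy integral is close to the Poisson integral -/
theorem P_close (hCAU : Stmt_CAU) (h : HChart Φ c1 R C) {E1 : Set ℝ} {r0 q0 l : ℝ} {E2 : Set ℝ}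
    (hE1 : E1 ⊆ Ioo (-R) R) (L : Loc R C E1 r0 q0 l E2) {z : ℂ} (hz : z ∈ HDc 0 R)
    (hn : z ∉ re' E2) : |(CI c1 Φ E2 (Φ z)).im - PI E2 z| ≤ 1 / 16 := by
  have := (hCAU Φ c1 R C h E2 L.cpt (L.sub.trans hE1)).2 z hz hn
  have h2 : C ^ 2 * (volume E2).toReal ≤ C ^ 2 * (2 * l) :=
    mul_le_mul_of_nonneg_left L.vol (sq_nonneg _)
  linarith [L.C]

theorem P_diff (hCAU : Stmt_CAU) (h : HChart Φ c1 R C) {E1 : Set ℝ} {r0 q0 l : ℝ} {E2 : Set ℝ}
    (hE1 : E1 ⊆ Ioo (-R) R) (L : Loc R C E1 r0 q0 l E2) :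
    DifferentiableOn ℂ (CI c1 Φ E2) (Φ '' re' E2)ᶜ :=
  (hCAU Φ c1 R C h E2 L.cpt (L.sub.trans hE1)).1

theorem re'_sub {E1 : Set ℝ} {r0 q0 l : ℝ} {E2 : Set ℝ}
    (L : Loc R C E1 r0 q0 l E2) : re' E2 ⊆ HDc 0 R := by
  rintro _ ⟨t, ht, rfl⟩
  exact mem_HDc L.R (by simp) (by simpa using L.hl.le)
    (by simpa using (L.near t ht).trans (by linarith [L.hl]))

theorem closed_im (h : HChart Φ c1 R C) {E1 : Set ℝ} {r0 q0 l : ℝ} {E2 : Set ℝ}
    (L : Loc R C E1 r0 q0 l E2) : IsClosed (Φ '' re' E2) := by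
  have h1 : IsCompact (re' E2) := L.cpt.image Complex.continuous_ofReal
  exact (h1.image_of_continuousOn ((cont h).mono (re'_sub L))).isClosed

theorem not_mem_im (h : HChart Φ c1 R C) {E1 : Set ℝ} {r0 q0 l : ℝ} {E2 : Set ℝ}
    (L : Loc R C E1 r0 q0 l E2) {z : ℂ} (hz : z ∈ HDc 0 R) (hn : z ∉ re' E2) :
    Φ z ∉ Φ '' re' E2 := by
  rintro ⟨w, hw, hwz⟩
  exact hn ((inj h (re'_sub L hw) hz hwz) ▸ hw)

theorem P_cont (hCAU : Stmt_CAU) (h : HChart Φ c1 R C) {E1 : Set ℝ} {r0 q0 l : ℝ} {E2 : Set ℝ}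
    (hE1 : E1 ⊆ Ioo (-R) R) (L : Loc R C E1 r0 q0 l E2) {z : ℂ} (hz : z ∈ HDc 0 R)
    (hn : z ∉ re' E2) : DifferentiableAt ℂ (CI c1 Φ E2) (Φ z) :=
  (P_diff hCAU h hE1 L).differentiableAt
    ((closed_im h L).isOpen_compl.mem_nhds (not_mem_im h L hz hn))

/-- a point where the harmonic function is large, and a neighbourhood of it -/
theorem exists_large (hCAU : Stmt_CAU) (hFLP : Stmt_FLP) (h : HChart Φ c1 R C) {E1 : Set ℝ}
    {r0 q0 l : ℝ} {E2 : Set ℝ} (hE1 : E1 ⊆ Ioo (-R) R) (L : Loc R C E1 r0 q0 l E2)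
    (S : Set ℂ) (hS : IsOpen S) (hS1 : S ⊆ HD 0 R)
    (hSq : ∃ y0 > 0, ∀ y : ℝ, 0 < y → y < y0 → (⟨q0, y⟩ : ℂ) ∈ S) :
    ∃ V : Set ℂ, IsOpen V ∧ V.Nonempty ∧ V ⊆ Φ '' S ∧
      ∀ w ∈ V, 9 / 16 + 1 / 4 < (CI c1 Φ E2 w).im := by
  have hfin : volume E2 < ⊤ := L.cpt.measure_lt_top
  have h5 := (hFLP E2 L.cpt.measurableSet hfin).2.2.2.2 q0 L.dens
  have h6 : ∀ᶠ y in 𝓝[>] (0 : ℝ), 15 / 16 < PI E2 ⟨q0, y⟩ :=
    h5.eventually_const_lt (by norm_num)
  obtain ⟨y0, hy0, hy⟩ := hSq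
  have h7 : ∀ᶠ y in 𝓝[>] (0 : ℝ), y ∈ Ioo 0 y0 := Ioo_mem_nhdsGT hy0
  obtain ⟨y, hy1, hy2⟩ := (h6.and h7).exists
  have hzS : (⟨q0, y⟩ : ℂ) ∈ S := hy y hy2.1 hy2.2
  have hzc := HD_subc (hS1 hzS)
  have hn : (⟨q0, y⟩ : ℂ) ∉ re' E2 := by
    rw [mem_re']; rintro ⟨h, _⟩; exact hy2.1.ne' h
  have hcl := P_close hCAU h hE1 L hzc hn
  have hbig : 9 / 16 + 1 / 4 < (CI c1 Φ E2 (Φ ⟨q0, y⟩)).im := by
    have := (abs_le.mp hcl).1; linarith
  have ho : IsOpen (Φ '' S) := h.opn S hS1 hS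
  have hcont : ContinuousOn (fun w => (CI c1 Φ E2 w).im) (Φ '' S) := by
    rintro w ⟨z, hz, rfl⟩
    have hz1 := hS1 hz
    have hzn : z ∉ re' E2 := by
      rw [mem_re']; rintro ⟨h, _⟩; exact hz1.1.ne' h
    exact (Complex.continuous_im.continuousAt.comp
      (P_cont hCAU h hE1 L (HD_subc hz1) hzn).continuousAt).continuousWithinAt
  refine ⟨Φ '' S ∩ (fun w => (CI c1 Φ E2 w).im) ⁻¹' Ioi (9 / 16 + 1 / 4),
    hcont.isOpen_inter_preimage ho isOpen_Ioi, ⟨_, ⟨⟨q0, y⟩, hzS, rfl⟩, hbig⟩,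
    inter_subset_left, fun w hw => hw.2⟩

/-! ### the saw tooth -/

/-- the saw tooth domain over `E2` -/
def St (E2 : Set ℝ) (l : ℝ) : Set ℂ := {z | 0 < z.im ∧ z.im < 2 * l ∧ ∃ t ∈ E2, |z.re - t| < z.im}

theorem St_open (E2 : Set ℝ) (l : ℝ) : IsOpen (St E2 l) := by
  have : St E2 l = {z : ℂ | 0 < z.im} ∩ ({z : ℂ | z.im < 2 * l} ∩
      ⋃ t ∈ E2, {z : ℂ | |z.re - t| < z.im}) := by
    ext z; simp [St]
  rw [this]
  refine (isOpen_lt continuous_const Complex.continuous_im).inter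
    ((isOpen_lt Complex.continuous_im continuous_const).inter ?_)
  exact isOpen_biUnion fun t _ => isOpen_lt
    ((Complex.continuous_re.sub continuous_const).abs) Complex.continuous_im

/-- the closed version -/
def Stc (E2 : Set ℝ) (l : ℝ) : Set ℂ := {z | z.im ≤ 2 * l ∧ ∃ t ∈ E2, |z.re - t| ≤ z.im}

theorem Stc_closed {E2 : Set ℝ} (l : ℝ) (hc : IsCompact E2) : IsClosed (Stc E2 l) := by
  have h1 : IsClosed {p : ℂ × E2 | p.1.im ≤ 2 * l ∧ |p.1.re - (p.2 : ℝ)| ≤ p.1.im} := by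
    refine (isClosed_le (Complex.continuous_im.comp continuous_fst) continuous_const).inter
      (isClosed_le ?_ (Complex.continuous_im.comp continuous_fst))
    exact ((Complex.continuous_re.comp continuous_fst).sub
      (continuous_subtype_val.comp continuous_snd)).abs
  have : CompactSpace E2 := isCompact_iff_compactSpace.mp hc
  have h2 : Stc E2 l = Prod.fst '' {p : ℂ × E2 | p.1.im ≤ 2 * l ∧ |p.1.re - (p.2 : ℝ)| ≤ p.1.im} := by
    ext z
    constructor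
    · rintro ⟨ha, t, ht, hb⟩
      exact ⟨(z, ⟨t, ht⟩), ⟨ha, hb⟩, rfl⟩
    · rintro ⟨⟨w, t⟩, ⟨ha, hb⟩, rfl⟩
      exact ⟨ha, t, t.2, hb⟩
  rw [h2]
  exact isClosedMap_fst_of_compactSpace _ h1

theorem St_closure {E2 : Set ℝ} (l : ℝ) (hc : IsCompact E2) : closure (St E2 l) ⊆ Stc E2 l := by
  refine closure_minimal ?_ (Stc_closed l hc)
  rintro z ⟨_, h2, t, ht, h3⟩
  exact ⟨h2.le, t, ht, h3.le⟩

theorem Stc_im {E2 : Set ℝ} {l : ℝ} {z : ℂ} (hz : z ∈ Stc E2 l) : 0 ≤ z.im := by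
  obtain ⟨_, t, _, h⟩ := hz
  exact (abs_nonneg _).trans h

theorem Stc_HDc {E1 : Set ℝ} {r0 q0 l : ℝ} {E2 : Set ℝ} (L : Loc R C E1 r0 q0 l E2) :
    Stc E2 l ⊆ HDc 0 R := by
  intro z hz
  have h0 := Stc_im hz
  obtain ⟨h1, t, ht, h2⟩ := hz
  refine mem_HDc L.R h0 h1 ?_
  have h3 : |z.re - q0| ≤ |z.re - t| + |t - q0| := abs_sub_le _ _ _
  have h4 := L.near t ht
  linarith

theorem Stc_pos {E2 : Set ℝ} {l : ℝ} {z : ℂ} (hz : z ∈ Stc E2 l) (hn : z ∉ re' E2) :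
    0 < z.im := by
  rcases (Stc_im hz).lt_or_eq with h | h
  · exact h
  · exfalso
    obtain ⟨_, t, ht, h2⟩ := hz
    rw [← h] at h2
    have h3 : z.re - t = 0 := abs_nonpos_iff.mp h2
    apply hn
    rw [mem_re']
    refine ⟨h.symm, ?_⟩
    rwa [sub_eq_zero.mp h3]

theorem St_bdd {E1 : Set ℝ} {r0 q0 l : ℝ} {E2 : Set ℝ} (L : Loc R C E1 r0 q0 l E2) :
    Bornology.IsBounded (St E2 l) := by
  refine (Metric.isBounded_ball (x := (0 : ℂ)) (r := R)).subset ?_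
  intro z hz
  have := (Stc_HDc L (St_closure l L.cpt (subset_closure hz))).2
  simpa using this

theorem St_HD {E1 : Set ℝ} {r0 q0 l : ℝ} {E2 : Set ℝ} (L : Loc R C E1 r0 q0 l E2) :
    St E2 l ⊆ HD 0 R := fun _ hz =>
  ⟨hz.1, (Stc_HDc L (St_closure l L.cpt (subset_closure hz))).2⟩

/-- the cone bound for `G` -/
theorem G_bound {G : ℂ → ℂ} {E1 : Set ℝ} {N κ r0 q0 l : ℝ} {E2 : Set ℝ}
    (L : Loc R C E1 r0 q0 l E2) (hκ : 0 < κ)
    (hG : ∀ x ∈ E1, ∀ ζ ∈ HD 0 R, ‖ζ - x‖ ≤ 2 * ζ.im → ‖ζ - x‖ < r0 →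
      ‖G (Φ ζ)‖ ≤ N * ‖ζ - x‖ ^ κ) {z : ℂ} (hz : z ∈ Stc E2 l) (hn : z ∉ re' E2) :
    ‖G (Φ z)‖ ≤ |N| * (2 * z.im) ^ κ := by
  have h0 := Stc_pos hz hn
  have hHD : z ∈ HD 0 R := ⟨h0, (Stc_HDc L hz).2⟩
  obtain ⟨h1, t, ht, h2⟩ := hz
  have h3 : ‖z - t‖ ≤ 2 * z.im := by
    have := Complex.norm_le_abs_re_add_abs_im (z - t)
    simp only [Complex.sub_re, Complex.ofReal_re, Complex.sub_im, Complex.ofReal_im, sub_zero] at this
    rw [abs_of_pos h0] at this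
    linarith
  have h4 : ‖z - t‖ < r0 := by linarith [L.r0]
  refine (hG t (L.sub ht) z hHD h3 h4).trans ?_
  have h5 : ‖z - t‖ ^ κ ≤ (2 * z.im) ^ κ := Real.rpow_le_rpow (norm_nonneg _) h3 hκ.le
  have h6 : 0 ≤ ‖z - t‖ ^ κ := Real.rpow_nonneg (norm_nonneg _) _
  calc N * ‖z - t‖ ^ κ ≤ |N| * ‖z - t‖ ^ κ := mul_le_mul_of_nonneg_right (le_abs_self N) h6
    _ ≤ |N| * (2 * z.im) ^ κ := mul_le_mul_of_nonneg_left h5 (abs_nonneg N)

/-- auxiliary function -/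
noncomputable def Hf (Φ : ℂ → ℂ) (c1 : ℝ → ℂ) (G : ℂ → ℂ) (E2 : Set ℝ) (Λ : ℝ) : ℂ → ℂ :=
  (Φ '' re' E2)ᶜ.indicator
    (fun w => G w * Complex.exp (Λ * (-Complex.I * CI c1 Φ E2 w - 9 / 16)))

theorem norm_Hf {Φ : ℂ → ℂ} {c1 : ℝ → ℂ} {G : ℂ → ℂ} {E2 : Set ℝ} {Λ : ℝ} {w : ℂ}
    (hw : w ∉ Φ '' re' E2) :
    ‖Hf Φ c1 G E2 Λ w‖ = ‖G w‖ * Real.exp (Λ * ((CI c1 Φ E2 w).im - 9 / 16)) := by
  rw [Hf, indicator_of_mem (by simpa using hw), norm_mul, Complex.norm_exp]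
  congr 2
  simp

theorem P_le (hCAU : Stmt_CAU) (hFLP : Stmt_FLP) (h : HChart Φ c1 R C) {E1 : Set ℝ}
    {r0 q0 l : ℝ} {E2 : Set ℝ} (hE1 : E1 ⊆ Ioo (-R) R) (L : Loc R C E1 r0 q0 l E2) {z : ℂ}
    (hz : z ∈ HDc 0 R) (hn : z ∉ re' E2) : (CI c1 Φ E2 (Φ z)).im ≤ 17 / 16 := by
  have h1 := (abs_le.mp (P_close hCAU h hE1 L hz hn)).2
  have h2 : PI E2 z ≤ 1 := by
    rcases hz.1.lt_or_eq with h0 | h0
    · exact ((hFLP E2 L.cpt.measurableSet L.cpt.measure_lt_top).1 z h0).2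
    · simp [PI, ← h0]
  linarith

/-- `G` vanishes on an open set -/
theorem key (hCAU : Stmt_CAU) (hFLP : Stmt_FLP) (h : HChart Φ c1 R C) {G : ℂ → ℂ}
    (hGd : DifferentiableOn ℂ G (Φ '' HD 0 R)) {E1 : Set ℝ} {N κ r0 q0 l : ℝ} {E2 : Set ℝ}
    (hE1 : E1 ⊆ Ioo (-R) R) (L : Loc R C E1 r0 q0 l E2) (hκ : 0 < κ)
    (hG : ∀ x ∈ E1, ∀ ζ ∈ HD 0 R, ‖ζ - x‖ ≤ 2 * ζ.im → ‖ζ - x‖ < r0 →
      ‖G (Φ ζ)‖ ≤ N * ‖ζ - x‖ ^ κ) {Λ : ℝ} (hΛ : 0 ≤ Λ) :
    ∀ w ∈ Φ '' St E2 l, ‖Hf Φ c1 G E2 Λ w‖ ≤ |N| * (4 * l) ^ κ := by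
  have hM0 : 0 ≤ |N| * (4 * l) ^ κ :=
    mul_nonneg (abs_nonneg _) (Real.rpow_nonneg (by linarith [L.hl]) _)
  have hclS : closure (St E2 l) ⊆ HDc 0 R := (St_closure l L.cpt).trans (Stc_HDc L)
  have hopen : IsOpen (Φ '' HD 0 R) := h.opn _ subset_rfl (HD_open R)
  have hcomp : IsOpen (Φ '' re' E2)ᶜ := (closed_im h L).isOpen_compl
  -- differentiability off `E2`
  have hdiff : ∀ z ∈ HD 0 R, DifferentiableAt ℂ (Hf Φ c1 G E2 Λ) (Φ z) := by
    intro z hz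
    have hn : z ∉ re' E2 := by
      rw [mem_re']; rintro ⟨h, _⟩; exact hz.1.ne' h
    have h1 : DifferentiableAt ℂ G (Φ z) := hGd.differentiableAt (hopen.mem_nhds ⟨z, hz, rfl⟩)
    have h2 : DifferentiableAt ℂ (CI c1 Φ E2) (Φ z) := P_cont hCAU h hE1 L (HD_subc hz) hn
    have h3 : DifferentiableAt ℂ
        (fun w => G w * Complex.exp (Λ * (-Complex.I * CI c1 Φ E2 w - 9 / 16))) (Φ z) := by
      fun_prop
    refine h3.congr_of_eventuallyEq ?_
    filter_upwards [hcomp.mem_nhds (not_mem_im h L (HD_subc hz) hn)] with w hw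
    rw [Hf, indicator_of_mem hw]
  have hDC : DiffContOnCl ℂ (Hf Φ c1 G E2 Λ) (Φ '' St E2 l) := by
    refine ⟨?_, ?_⟩
    · rintro w ⟨z, hz, rfl⟩
      exact (hdiff z (St_HD L hz)).differentiableWithinAt
    · intro w hw
      obtain ⟨z, hz, rfl⟩ := closure_image h hclS (St_bdd L) hw
      have hzc := St_closure l L.cpt hz
      by_cases hzE : z ∈ re' E2
      · have hz0 : Hf Φ c1 G E2 Λ (Φ z) = 0 := by
          rw [Hf, indicator_of_notMem]; simpa using mem_image_of_mem Φ hzE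
        rw [ContinuousWithinAt, hz0]
        have hbd : ∀ᶠ w in 𝓝[closure (Φ '' St E2 l)] (Φ z),
            ‖Hf Φ c1 G E2 Λ w‖ ≤ |N| * (2 * (C * ‖w - Φ z‖)) ^ κ * Real.exp (Λ * (1 / 2)) := by
          filter_upwards [self_mem_nhdsWithin] with w hw
          obtain ⟨z', hz', rfl⟩ := closure_image h hclS (St_bdd L) hw
          have hzc' := St_closure l L.cpt hz'
          by_cases hzE' : z' ∈ re' E2
          · have : Hf Φ c1 G E2 Λ (Φ z') = 0 := by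
              rw [Hf, indicator_of_notMem]; simpa using mem_image_of_mem Φ hzE'
            rw [this, norm_zero]
            have : 0 ≤ C := by linarith [h.hC]
            positivity
          · rw [norm_Hf (not_mem_im h L (Stc_HDc L hzc') hzE')]
            have hp := P_le hCAU hFLP h hE1 L (Stc_HDc L hzc') hzE'
            have hg := G_bound L hκ hG hzc' hzE'
            have him : z'.im ≤ C * ‖Φ z' - Φ z‖ := by
              have h1 := h.alip z' (Stc_HDc L hzc') z (Stc_HDc L hzc)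
              have h2 : z'.im = (z' - z).im := by simp [(mem_re'.mp hzE).1]
              rw [h2]
              exact (le_abs_self _).trans ((Complex.abs_im_le_norm _).trans h1)
            have hpos := Stc_pos hzc' hzE'
            have h3 : (2 * z'.im) ^ κ ≤ (2 * (C * ‖Φ z' - Φ z‖)) ^ κ :=
              Real.rpow_le_rpow (by linarith) (by linarith) hκ.le
            have h4 : Real.exp (Λ * ((CI c1 Φ E2 (Φ z')).im - 9 / 16)) ≤ Real.exp (Λ * (1 / 2)) :=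
              Real.exp_le_exp.mpr (mul_le_mul_of_nonneg_left (by linarith) hΛ)
            refine mul_le_mul (hg.trans (mul_le_mul_of_nonneg_left h3 (abs_nonneg _))) h4
              (Real.exp_pos _).le ?_
            have : 0 ≤ C := by linarith [h.hC]
            positivity
        refine squeeze_zero_norm' hbd ?_
        have hc : Continuous fun w : ℂ => |N| * (2 * (C * ‖w - Φ z‖)) ^ κ *
            Real.exp (Λ * (1 / 2)) := by
          refine (continuous_const.mul ?_).mul continuous_const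
          exact (by fun_prop : Continuous fun w : ℂ => 2 * (C * ‖w - Φ z‖)).rpow_const
            fun _ => Or.inr hκ.le
        have := hc.tendsto (Φ z)
        simp only [sub_self, norm_zero, mul_zero, Real.zero_rpow hκ.ne', zero_mul] at this
        exact this.mono_left nhdsWithin_le_nhds
      · have hzH : z ∈ HD 0 R := ⟨Stc_pos hzc hzE, (Stc_HDc L hzc).2⟩
        exact (hdiff z hzH).continuousAt.continuousWithinAt
  have hbd : Bornology.IsBounded (Φ '' St E2 l) := by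
    have hcpt : IsCompact (closure (St E2 l)) := (St_bdd L).isCompact_closure
    exact (hcpt.image_of_continuousOn ((cont h).mono hclS)).isBounded.subset
      (image_mono subset_closure)
  intro w hw
  refine Complex.norm_le_of_forall_mem_frontier_norm_le hbd hDC (fun w' hw' => ?_)
    (subset_closure hw)
  obtain ⟨z, ⟨hz1, hz2⟩, rfl⟩ := frontier_image h (St_open E2 l) (St_HD L) hclS (St_bdd L) hw'
  have hzc := St_closure l L.cpt hz1
  by_cases hzE : z ∈ re' E2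
  · have : Hf Φ c1 G E2 Λ (Φ z) = 0 := by
      rw [Hf, indicator_of_notMem]; simpa using mem_image_of_mem Φ hzE
    rw [this, norm_zero]; exact hM0
  · have hpos := Stc_pos hzc hzE
    have hzH := Stc_HDc L hzc
    rw [norm_Hf (not_mem_im h L hzH hzE)]
    have hg := G_bound L hκ hG hzc hzE
    have hg2 : (2 * z.im) ^ κ ≤ (4 * l) ^ κ :=
      Real.rpow_le_rpow (by linarith) (by linarith [hzc.1]) hκ.le
    have hfl := hFLP E2 L.cpt.measurableSet L.cpt.measure_lt_top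
    have hPI : PI E2 z ≤ 1 / 2 := by
      by_cases htop : z.im < 2 * l
      · refine hfl.2.1 z hpos fun t ht => ?_
        by_contra hcon
        exact hz2 ⟨hpos, htop, t, ht, not_le.mp hcon⟩
      · have heq : z.im = 2 * l := le_antisymm hzc.1 (not_lt.mp htop)
        refine (hfl.2.2.1 z hpos).trans ?_
        rw [heq, div_le_iff₀ (by have := L.hl; positivity)]
        have h1 := L.vol
        have h2 := Real.pi_gt_three
        have h3 := L.hl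
        nlinarith
    have hP : (CI c1 Φ E2 (Φ z)).im ≤ 9 / 16 := by
      have := (abs_le.mp (P_close hCAU h hE1 L hzH hzE)).2
      linarith
    have he : Real.exp (Λ * ((CI c1 Φ E2 (Φ z)).im - 9 / 16)) ≤ 1 := by
      rw [← Real.exp_zero]
      exact Real.exp_le_exp.mpr (mul_nonpos_of_nonneg_of_nonpos hΛ (by linarith))
    calc ‖G (Φ z)‖ * Real.exp (Λ * ((CI c1 Φ E2 (Φ z)).im - 9 / 16))
        ≤ ‖G (Φ z)‖ * 1 := mul_le_mul_of_nonneg_left he (norm_nonneg _)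
      _ = ‖G (Φ z)‖ := mul_one _
      _ ≤ |N| * (4 * l) ^ κ := hg.trans (mul_le_mul_of_nonneg_left hg2 (abs_nonneg _))

end chart

end PRI_

open PRI_ in
theorem pri_proof (hCAU : Stmt_CAU) (hFLP : Stmt_FLP) (hDEN : Stmt_DEN) : Stmt_PRI := by
  intro Φ c1 R C h G hGd E1 N κ r0 hE hE1 hv hκ hr0 hG
  obtain ⟨q0, l, E2, L⟩ := exists_loc hDEN R C h.hC E1 r0 hr0 hE hE1 hv
  obtain ⟨V, hVo, hVn, hVs, hV⟩ := exists_large hCAU hFLP h hE1 L (St E2 l) (St_open E2 l)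
    (St_HD L) ⟨2 * l, by linarith [L.hl], fun y hy0 hy1 =>
      ⟨hy0, hy1, q0, L.hq, by simpa using hy0⟩⟩
  -- `G = 0` on `V`
  have hG0 : ∀ w ∈ V, G w = 0 := by
    intro w hw
    obtain ⟨z, hz, rfl⟩ := hVs hw
    have hzH := St_HD L hz
    have hn : z ∉ re' E2 := by
      rw [mem_re']; rintro ⟨h, _⟩; exact hzH.1.ne' h
    have hnm := not_mem_im h L (HD_subc hzH) hn
    have hbig := hV _ hw
    by_contra hne
    have hpos : 0 < ‖G (Φ z)‖ := norm_pos_iff.mpr hne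
    set M0 := |N| * (4 * l) ^ κ with hM0
    have hM0' : 0 ≤ M0 := mul_nonneg (abs_nonneg _) (Real.rpow_nonneg (by linarith [L.hl]) _)
    -- choose `Λ` large
    have hlim : Tendsto (fun Λ : ℝ => ‖G (Φ z)‖ * (Λ * (1 / 4))) atTop atTop :=
      (tendsto_id.atTop_mul_const (by norm_num)).const_mul_atTop hpos
    obtain ⟨Λ, hΛ1, hΛ0⟩ := ((hlim.eventually_gt_atTop M0).and (eventually_ge_atTop 0)).exists
    have h1 := key hCAU hFLP h hGd hE1 L hκ hG hΛ0 _ ⟨z, hz, rfl⟩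
    rw [norm_Hf hnm] at h1
    have h2 : Λ * (1 / 4) ≤ Real.exp (Λ * ((CI c1 Φ E2 (Φ z)).im - 9 / 16)) := by
      have h3 : Λ * (1 / 4) ≤ Λ * ((CI c1 Φ E2 (Φ z)).im - 9 / 16) :=
        mul_le_mul_of_nonneg_left (by linarith) hΛ0
      have h4 := Real.add_one_le_exp (Λ * ((CI c1 Φ E2 (Φ z)).im - 9 / 16))
      linarith
    have h3 := mul_le_mul_of_nonneg_left h2 hpos.le
    linarith
  have hopen : IsOpen (Φ '' HD 0 R) := h.opn _ subset_rfl (HD_open R)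
  have hconn : IsPreconnected (Φ '' HD 0 R) :=
    (HD_conn R).image Φ ((cont h).mono HD_subc)
  have hanal : AnalyticOnNhd ℂ G (Φ '' HD 0 R) := hGd.analyticOnNhd hopen
  obtain ⟨w0, hw0⟩ := hVn
  have hw0' : w0 ∈ Φ '' HD 0 R := image_mono (St_HD L) (hVs hw0)
  have hev : G =ᶠ[𝓝 w0] 0 := by
    filter_upwards [hVo.mem_nhds hw0] with w hw
    exact hG0 w hw
  intro z hz
  exact hanal.eqOn_zero_of_preconnected_of_eventuallyEq_zero hconn hw0' hev hz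

end Pool.Agent.DMB
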