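import Pool.Agent.DMB.Api

set_option autoImplicit false

namespace Pool.Agent.DMB

open MeasureTheory Set Metric Filter Topology
open scoped ENNReal

namespace REF_

/-- conjugation -/
def c (z : ℂ) : ℂ := starRingEnd ℂ z

theorem cc (z : ℂ) : c (c z) = z := Complex.conj_conj z

theorem c_cont : Continuous c := Complex.continuous_conj

theorem c_mp : MeasurePreserving c volume volume :=
  Complex.conjLIE.measurePreserving

theorem c_emb : MeasurableEmbedding c :=
  Complex.conjLIE.toHomeomorph.measurableEmbedding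

theorem c_mk (x y : ℝ) : c ⟨x, y⟩ = ⟨x, -y⟩ := rfl

theorem image_c (C : Set ℂ) : c '' C = c ⁻¹' C := by
  ext z
  constructor
  · rintro ⟨w, hw, rfl⟩
    show c (c w) ∈ C
    rw [cc]; exact hw
  · intro hz
    exact ⟨c z, hz, cc z⟩

theorem pre_pre (C : Set ℂ) : c ⁻¹' (c ⁻¹' C) = C := by
  ext z
  show c (c z) ∈ C ↔ z ∈ C
  rw [cc]

theorem grad {U : Set ℂ} {f fx fy : ℂ → ℝ} (h : HasGrad U f fx fy) :
    HasGrad (c ⁻¹' U) (fun z => f (c z)) (fun z => fx (c z)) (fun z => -(fy (c z))) where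
  cont := h.cont.comp c_cont.continuousOn fun z hz => hz
  mx := h.mx.comp_measurePreserving (c_mp.restrict_preimage_emb c_emb U)
  my := (h.my.comp_measurePreserving (c_mp.restrict_preimage_emb c_emb U)).neg
  loc := by
    intro C hC hCc
    have h1 : c '' C ⊆ U := by
      rintro _ ⟨z, hz, rfl⟩
      exact hC hz
    have h2 := h.loc (c '' C) h1 (hCc.image c_cont)
    rw [image_c] at h2
    have h3 := (c_mp.integrableOn_comp_preimage c_emb (s := c ⁻¹' C)
      (f := fun z => fx z ^ 2 + fy z ^ 2)).2 h2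
    rw [pre_pre] at h3
    refine h3.congr_fun_ae ?_
    refine Filter.Eventually.of_forall fun z => ?_
    show fx (c z) ^ 2 + fy (c z) ^ 2 = fx (c z) ^ 2 + (-(fy (c z))) ^ 2
    ring
  hor := by
    have h1 := (Measure.measurePreserving_neg (volume : Measure ℝ)).quasiMeasurePreserving.ae h.hor
    filter_upwards [h1] with y hy a b hab hmem
    exact hy a b hab hmem
  ver := by
    filter_upwards [h.ver] with x hx a b hab hmem
    have h1 := hx (-b) (-a) (neg_le_neg hab) fun t ht => by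
      have h2 := hmem (-t) ⟨by linarith [ht.2], by linarith [ht.1]⟩
      have h3 : c ⟨x, -t⟩ = ⟨x, t⟩ := by rw [c_mk, neg_neg]
      have h4 : c ⟨x, -t⟩ ∈ U := h2
      rwa [h3] at h4
    obtain ⟨h2, h3⟩ := h1
    have h4 : IntervalIntegrable (fun t : ℝ => fy (c ⟨x, t⟩)) volume a b := by
      have h5 := (IntervalIntegrable.iff_comp_neg (f := fun t : ℝ => fy ⟨x, t⟩) (a := -b)
        (b := -a)).1 h2
      rw [neg_neg, neg_neg] at h5
      exact h5.symm
    refine ⟨h4.neg, ?_⟩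
    have h5 : ∫ t in a..b, -(fy (c ⟨x, t⟩)) = -∫ t in (-b)..(-a), fy ⟨x, t⟩ := by
      rw [intervalIntegral.integral_neg]
      congr 1
      exact intervalIntegral.integral_comp_neg (fun t : ℝ => fy ⟨x, t⟩)
    rw [h5, ← h3]
    show f (c ⟨x, b⟩) - f (c ⟨x, a⟩) = _
    rw [c_mk, c_mk]
    ring

theorem gradV {K n : ℕ} {H : Set ℂ} {s X Y : ℂ → Mat K n} (h : HasGradV H s X Y) :
    HasGradV (c ⁻¹' H) (fun z => s (c z)) (fun z => X (c z)) (fun z => -(Y (c z))) :=
  fun i l => grad (h i l)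

theorem contG {K n : ℕ} {A : Set ℂ} {u : ℂ → Tup K n} (h : ContG A u) :
    ContG (c ⁻¹' A) (fun z => u (c z)) := by
  intro z hz
  have h1 := h (c z) hz
  refine h1.comp ?_
  refine tendsto_nhdsWithin_iff.2 ⟨(c_cont.tendsto z).mono_left nhdsWithin_le_nhds, ?_⟩
  exact eventually_nhdsWithin_of_forall fun w hw => hw

theorem lint (g : ℂ → ℝ≥0∞) (A : Set ℂ) :
    ∫⁻ z in c ⁻¹' A, g (c z) = ∫⁻ z in A, g z :=
  c_mp.setLIntegral_comp_preimage_emb c_emb g A

theorem en_le {K n : ℕ} (H : Set ℂ) (v : ℂ → Tup K n) :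
    en (c ⁻¹' H) (fun z => v (c z)) ≤ en H v := by
  unfold en
  refine le_iInf fun X => le_iInf fun Y => le_iInf fun hg => ?_
  refine iInf_le_of_le (fun z => X (c z)) (iInf_le_of_le (fun z => -(Y (c z)))
    (iInf_le_of_le (gradV hg) ?_))
  have h1 : ∀ z, ENNReal.ofReal (ed (fun z => X (c z)) (fun z => -(Y (c z))) z) =
      (fun z => ENNReal.ofReal (ed X Y z)) (c z) := by
    intro z
    show ENNReal.ofReal (nsq (X (c z)) + nsq (-(Y (c z)))) =
      ENNReal.ofReal (nsq (X (c z)) + nsq (Y (c z)))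
    rw [nsq_neg]
  calc ∫⁻ z in c ⁻¹' H, ENNReal.ofReal (ed (fun z => X (c z)) (fun z => -(Y (c z))) z)
      = ∫⁻ z in c ⁻¹' H, (fun z => ENNReal.ofReal (ed X Y z)) (c z) := by simp_rw [h1]
    _ = ∫⁻ z in H, ENNReal.ofReal (ed X Y z) :=
        lint (fun z => ENNReal.ofReal (ed X Y z)) H
    _ ≤ _ := le_rfl

theorem en_eq {K n : ℕ} (H : Set ℂ) (v : ℂ → Tup K n) :
    en (c ⁻¹' H) (fun z => v (c z)) = en H v := by
  refine le_antisymm (en_le H v) ?_
  have h := en_le (c ⁻¹' H) (fun z => v (c z))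
  rw [pre_pre] at h
  have h1 : (fun z => v (c (c z))) = v := by
    funext z; rw [cc]
  rwa [h1] at h

theorem intMin {K n : ℕ} {H : Set ℂ} {u : ℂ → Tup K n} (h : IntMin H u) :
    IntMin (c ⁻¹' H) (fun z => u (c z)) := by
  obtain ⟨h1, h2, h3⟩ := h
  refine ⟨contG h1, ?_, ?_⟩
  · rw [en_eq]; exact h2
  · intro v hv ⟨C, hCH, hC, hsame⟩
    rw [en_eq]
    have h4 : ContG H (fun z => v (c z)) := by
      have := contG hv
      rwa [pre_pre] at this
    have h5 : en H (fun z => v (c z)) = en (c ⁻¹' H) v := by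
      have := en_eq H (fun z => v (c z))
      rw [← this]
      congr 1
      funext z; rw [cc]
    rw [← h5]
    refine h3 _ h4 ⟨c '' C, ?_, hC.image c_cont, ?_⟩
    · rintro _ ⟨z, hz, rfl⟩
      exact hCH hz
    · intro z hz
      have h6 : c z ∈ (c ⁻¹' H) \ C := by
        refine ⟨?_, fun h7 => hz.2 ⟨c z, h7, cc z⟩⟩
        show c (c z) ∈ H
        rw [cc]; exact hz.1
      have h7 := hsame (c z) h6
      have h8 : u (c (c z)) = u z := by rw [cc]
      rw [← h8]
      exact h7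

end REF_

theorem ref_proof : Stmt_REF := by
  intro K n H u _
  exact ⟨fun h => REF_.intMin h, fun s X Y h => REF_.gradV h, fun A h => REF_.contG h,
    fun g A _ => REF_.lint g A⟩

end Pool.Agent.DMB
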