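import Pool.Agent.DMB.Api

/-!
MP_71cfa6_an, squad DMB: module RG0, regularity when there is no lower sheet.
-/

set_option autoImplicit false

namespace Pool.Agent.DMB

open MeasureTheory Set Metric Filter Topology
open scoped ENNReal

namespace RG0_

theorem sheet_le (hMET : Stmt_MET) {K n : ℕ} (hK : K ≤ 1) (a b : Tup K n) (i : Fin K) :
    ‖a i - b i‖ ≤ dG a b := by
  have hs : Subsingleton (Fin K) := Fin.subsingleton_iff_le_one.2 hK
  obtain ⟨h0, _, _, _, ⟨σ, hσ⟩, _, _⟩ := hMET K n a b b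
  rw [hσ]
  refine Real.le_sqrt_of_sq_le ?_
  have h1 : ‖a i - (b ∘ σ) i‖ ^ 2 ≤ sqd a (b ∘ σ) :=
    Finset.single_le_sum (f := fun i => ‖a i - (b ∘ σ) i‖ ^ 2) (fun _ _ => sq_nonneg _)
      (Finset.mem_univ i)
  have h2 : (b ∘ σ) i = b i := congrArg b (Subsingleton.elim (σ i) i)
  rwa [h2] at h1

end RG0_

open RG0_ in
theorem rg0_proof (hMET : Stmt_MET) (_hSYB : Stmt_SYB) : Stmt_RG0 := by
  intro d n Om Op Omi ga φ up um p hd hsplit hsys hp
  have hpOm : p ∈ Om := by
    rw [hsplit.union]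
    exact Or.inl (Or.inr hp)
  obtain ⟨r, hr, hball⟩ := Metric.isOpen_iff.1 hsplit.openOm p hpOm
  refine ⟨r, hr, by rw [← hsplit.union]; exact hball, fun i => i.elim0,
    fun j z => up z (Fin.natAdd 0 j), fun i => i.elim0, ?_, ?_, ?_, fun i => i.elim0,
    fun i => i.elim0⟩
  · intro j z hz
    have h1 := hsys.cp z hz.2
    have h2 : Tendsto (fun w => dG (up w) (up z)) (𝓝[ball p r ∩ (Op ∪ ga)] z) (𝓝 0) :=
      h1.mono_left (nhdsWithin_mono z inter_subset_right)
    rw [ContinuousWithinAt, tendsto_iff_norm_sub_tendsto_zero]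
    refine squeeze_zero (fun _ => norm_nonneg _) (fun w => ?_) h2
    exact sheet_le hMET (by omega) (up w) (up z) (Fin.natAdd 0 j)
  · intro z _
    refine ⟨Equiv.refl _, ?_⟩
    funext i
    refine Fin.addCases (fun i => i.elim0) (fun j => ?_) i
    show up z (Fin.natAdd 0 j) = Fin.append _ _ (Fin.natAdd 0 j)
    rw [Fin.append_right]
  · intro z _
    exact ⟨Equiv.refl _, funext fun i => i.elim0⟩

end Pool.Agent.DMB
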