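import Pool.Agent.DMB.Api

/-!
Squad DMB, module RGC: regular points of two separated subsystems give a regular point of the
whole system.
-/

namespace Pool.Agent.DMB

open MeasureTheory Set Metric Filter Topology
open scoped ENNReal

namespace RGC_

theorem app_fun {a b n : ℕ} (u : Fin a → ℂ → E n) (v : Fin b → ℂ → E n) (z : ℂ) :
    (fun i => Fin.append u v i z) = Fin.append (fun i => u i z) (fun i => v i z) := by
  funext i
  refine Fin.addCases (fun i => ?_) (fun i => ?_) i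
  · simp
  · simp

/-- entries of `b` are entries of `a` -/
theorem entry {K n : ℕ} {a b : Tup K n} (h : Same a b) (i : Fin K) : ∃ j, a j = b i := by
  obtain ⟨σ, hσ⟩ := h
  refine ⟨σ.symm i, ?_⟩
  rw [hσ]
  simp

theorem entryL {K L n : ℕ} {a : Tup (K + L) n} {b : Tup K n} {c : Tup L n}
    (h : Same a (Fin.append b c)) (i : Fin K) : ∃ j, a j = b i := by
  obtain ⟨j, hj⟩ := entry h (Fin.castAdd L i)
  exact ⟨j, by simpa using hj⟩

theorem entryR {K L n : ℕ} {a : Tup (K + L) n} {b : Tup K n} {c : Tup L n}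
    (h : Same a (Fin.append b c)) (i : Fin L) : ∃ j, a j = c i := by
  obtain ⟨j, hj⟩ := entry h (Fin.natAdd K i)
  exact ⟨j, by simpa using hj⟩

end RGC_

open RGC_ in
theorem rgc_proof (hSYB : Stmt_SYB) : Stmt_RGC := by
  intro k d k1 d1 k2 d2 n Om Op Omi ga B up um up1 um1 up2 um2 p hk hd hS hB hp hP hM hR1 hR2
  subst hk
  subst hd
  obtain ⟨-, -, -, hms, happ⟩ := hSYB n
  obtain ⟨r1, hr1, hb1, u1, w1, hu1, hw1, hA1, hB1, hC1, hD1⟩ := hR1
  obtain ⟨r2, hr2, hb2, u2, w2, hu2, hw2, hA2, hB2, hC2, hD2⟩ := hR2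
  have hrm : 0 < min r1 r2 := lt_min hr1 hr2
  have hs1 : ball p (min r1 r2) ⊆ ball p r1 := ball_subset_ball (min_le_left _ _)
  have hs2 : ball p (min r1 r2) ⊆ ball p r2 := ball_subset_ball (min_le_right _ _)
  have hinB : ∀ z ∈ ball p (min r1 r2), z ∈ B := by
    intro z hz
    rcases hb1 (hs1 hz) with (h | h) | h
    · exact h.2
    · exact h.2
    · exact h.2
  have up_mem1 : ∀ z ∈ ball p (min r1 r2) ∩ (Op ∪ ga), z ∈ ball p r1 ∩ (Op ∩ B ∪ ga ∩ B) := by
    rintro z ⟨hz, h | h⟩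
    · exact ⟨hs1 hz, Or.inl ⟨h, hinB z hz⟩⟩
    · exact ⟨hs1 hz, Or.inr ⟨h, hinB z hz⟩⟩
  have up_mem2 : ∀ z ∈ ball p (min r1 r2) ∩ (Op ∪ ga), z ∈ ball p r2 ∩ (Op ∩ B ∪ ga ∩ B) := by
    rintro z ⟨hz, h | h⟩
    · exact ⟨hs2 hz, Or.inl ⟨h, hinB z hz⟩⟩
    · exact ⟨hs2 hz, Or.inr ⟨h, hinB z hz⟩⟩
  have lo_mem1 : ∀ z ∈ ball p (min r1 r2) ∩ (Omi ∪ ga), z ∈ ball p r1 ∩ (Omi ∩ B ∪ ga ∩ B) := by
    rintro z ⟨hz, h | h⟩
    · exact ⟨hs1 hz, Or.inl ⟨h, hinB z hz⟩⟩
    · exact ⟨hs1 hz, Or.inr ⟨h, hinB z hz⟩⟩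
  have lo_mem2 : ∀ z ∈ ball p (min r1 r2) ∩ (Omi ∪ ga), z ∈ ball p r2 ∩ (Omi ∩ B ∪ ga ∩ B) := by
    rintro z ⟨hz, h | h⟩
    · exact ⟨hs2 hz, Or.inl ⟨h, hinB z hz⟩⟩
    · exact ⟨hs2 hz, Or.inr ⟨h, hinB z hz⟩⟩
  have hcov : ∀ z ∈ ball p (min r1 r2), z ∈ Op ∪ ga ∨ z ∈ Omi ∪ ga := by
    intro z hz
    rcases hb1 (hs1 hz) with (h | h) | h
    · exact Or.inl (Or.inl h.1)
    · exact Or.inl (Or.inr h.1)
    · exact Or.inr (Or.inl h.1)
  -- sheets of different parts differ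
  have huu : ∀ i j, ∀ z ∈ ball p (min r1 r2), u1 i z ≠ u2 j z := by
    intro i j z hz
    rcases hcov z hz with h | h
    · obtain ⟨a, ha⟩ := entryL (hA1 z (up_mem1 z ⟨hz, h⟩)) i
      obtain ⟨b, hb⟩ := entryL (hA2 z (up_mem2 z ⟨hz, h⟩)) j
      have := (hP z ⟨hinB z hz, h⟩).2 a b
      rw [ha, hb] at this
      exact this
    · obtain ⟨a, ha⟩ := entry (hB1 z (lo_mem1 z ⟨hz, h⟩)) i
      obtain ⟨b, hb⟩ := entry (hB2 z (lo_mem2 z ⟨hz, h⟩)) j
      have := (hM z ⟨hinB z hz, h⟩).2 a b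
      rw [ha, hb] at this
      exact this
  have hwu12 : ∀ i j, ∀ z ∈ ball p (min r1 r2) ∩ (Op ∪ ga), w1 j z ≠ u2 i z := by
    rintro i j z ⟨hz, h⟩
    obtain ⟨a, ha⟩ := entryR (hA1 z (up_mem1 z ⟨hz, h⟩)) j
    obtain ⟨b, hb⟩ := entryL (hA2 z (up_mem2 z ⟨hz, h⟩)) i
    have := (hP z ⟨hinB z hz, h⟩).2 a b
    rw [ha, hb] at this
    exact this
  have hwu21 : ∀ i j, ∀ z ∈ ball p (min r1 r2) ∩ (Op ∪ ga), w2 j z ≠ u1 i z := by
    rintro i j z ⟨hz, h⟩
    obtain ⟨a, ha⟩ := entryL (hA1 z (up_mem1 z ⟨hz, h⟩)) i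
    obtain ⟨b, hb⟩ := entryR (hA2 z (up_mem2 z ⟨hz, h⟩)) j
    have := (hP z ⟨hinB z hz, h⟩).2 a b
    rw [ha, hb] at this
    exact this.symm
  refine ⟨min r1 r2, hrm, ?_, Fin.append u1 u2, Fin.append w1 w2, ?_, ?_, ?_, ?_, ?_, ?_⟩
  · intro z hz
    rcases hb1 (hs1 hz) with (h | h) | h
    · exact Or.inl (Or.inl h.1)
    · exact Or.inl (Or.inr h.1)
    · exact Or.inr h.1
  · intro i
    refine Fin.addCases (fun i => ?_) (fun i => ?_) i
    · rw [Fin.append_left]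
      exact (hu1 i).mono hs1
    · rw [Fin.append_right]
      exact (hu2 i).mono hs2
  · intro i
    refine Fin.addCases (fun i => ?_) (fun i => ?_) i
    · rw [Fin.append_left]
      exact (hw1 i).mono up_mem1
    · rw [Fin.append_right]
      exact (hw2 i).mono up_mem2
  · intro z hz
    rw [hms, (hP z ⟨hinB z hz.1, hz.2⟩).1, app_fun, app_fun, happ, happ, happ,
      (hms _ _ _).1 (hA1 z (up_mem1 z hz)), (hms _ _ _).1 (hA2 z (up_mem2 z hz)), happ, happ]
    abel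
  · intro z hz
    rw [hms, (hM z ⟨hinB z hz.1, hz.2⟩).1, app_fun, happ,
      (hms _ _ _).1 (hB1 z (lo_mem1 z hz)), (hms _ _ _).1 (hB2 z (lo_mem2 z hz))]
  · intro i j
    refine Fin.addCases (fun i => ?_) (fun i => ?_) i
    · refine Fin.addCases (fun j => ?_) (fun j => ?_) j
      · rw [Fin.append_left, Fin.append_left]
        rcases hC1 i j with h | h
        · exact Or.inl fun z hz => h z (hs1 hz)
        · exact Or.inr fun z hz => h z (hs1 hz)
      · rw [Fin.append_left, Fin.append_right]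
        exact Or.inr (huu i j)
    · refine Fin.addCases (fun j => ?_) (fun j => ?_) j
      · rw [Fin.append_left, Fin.append_right]
        exact Or.inr fun z hz => (huu j i z hz).symm
      · rw [Fin.append_right, Fin.append_right]
        rcases hC2 i j with h | h
        · exact Or.inl fun z hz => h z (hs2 hz)
        · exact Or.inr fun z hz => h z (hs2 hz)
  · intro i j
    refine Fin.addCases (fun i => ?_) (fun i => ?_) i
    · refine Fin.addCases (fun j => ?_) (fun j => ?_) j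
      · rw [Fin.append_left, Fin.append_left]
        rcases hD1 i j with h | h
        · exact Or.inl fun z hz => h z (up_mem1 z hz)
        · exact Or.inr fun z hz => h z (up_mem1 z hz)
      · rw [Fin.append_left, Fin.append_right]
        exact Or.inr (hwu21 i j)
    · refine Fin.addCases (fun j => ?_) (fun j => ?_) j
      · rw [Fin.append_left, Fin.append_right]
        exact Or.inr (hwu12 i j)
      · rw [Fin.append_right, Fin.append_right]
        rcases hD2 i j with h | h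
        · exact Or.inl fun z hz => h z (up_mem2 z hz)
        · exact Or.inr fun z hz => h z (up_mem2 z hz)

end Pool.Agent.DMB
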