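import Pool.Agent.DMB.Api

set_option autoImplicit false

/-!
Squad DMB, module RGL: locally collapsed points are regular.
-/

namespace Pool.Agent.DMB

open MeasureTheory Set Metric Filter Topology
open scoped ENNReal

namespace RGL_

/-- points of the interface are limits of points of `Op` -/
lemma freq_op {Om Op Omi ga : Set ℂ} (hs : IsSplit Om Op Omi ga) {w : ℂ} (hw : w ∈ ga) :
    ∃ᶠ z in 𝓝 w, z ∈ Op := by
  obtain ⟨U, hU, hwU, f, -, hdf, hf⟩ := hs.loc w hw
  intro h
  apply hdf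
  have hfw : f w = 0 := (hf w hwU).2.2.mp hw
  have hmax : IsLocalMax f w := by
    show ∀ᶠ z in 𝓝 w, f z ≤ f w
    filter_upwards [h, hU.mem_nhds hwU] with z hz hzU
    rw [hfw]
    by_contra hcon
    push Not at hcon
    exact hz ((hf z hzU).1.mpr hcon)
  exact hmax.fderiv_eq_zero

lemma freq_om {Om Op Omi ga : Set ℂ} (hs : IsSplit Om Op Omi ga) {w : ℂ} (hw : w ∈ ga) :
    ∃ᶠ z in 𝓝 w, z ∈ Omi := by
  obtain ⟨U, hU, hwU, f, -, hdf, hf⟩ := hs.loc w hw
  intro h
  apply hdf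
  have hfw : f w = 0 := (hf w hwU).2.2.mp hw
  have hmin : IsLocalMin f w := by
    show ∀ᶠ z in 𝓝 w, f w ≤ f z
    filter_upwards [h, hU.mem_nhds hwU] with z hz hzU
    rw [hfw]
    by_contra hcon
    push Not at hcon
    exact hz ((hf z hzU).2.1.mpr hcon)
  exact hmin.fderiv_eq_zero

/-- matching of two tuples -/
lemma match_ {K n : ℕ} (hMET : Stmt_MET) (a b : Tup K n) :
    ∃ σ : Equiv.Perm (Fin K), ∀ i, ‖a i - b (σ i)‖ ≤ dG a b := by
  obtain ⟨-, -, -, -, ⟨σ, hσ⟩, -, -⟩ := hMET K n a b a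
  refine ⟨σ, fun i => ?_⟩
  rw [hσ]
  apply Real.le_sqrt_of_sq_le
  unfold sqd
  exact Finset.single_le_sum (f := fun i => ‖a i - (b ∘ σ) i‖ ^ 2)
    (fun _ _ => sq_nonneg _) (Finset.mem_univ i)

/-- limits of collapsed tuples are collapsed -/
lemma collapse {K n : ℕ} (hMET : Stmt_MET) {A O B : Set ℂ} {u : ℂ → Tup K n} (hu : ContG A u)
    (hOA : O ⊆ A) {w : ℂ} (hwA : w ∈ A) (hB : B ∈ 𝓝 w) (hfr : ∃ᶠ z in 𝓝 w, z ∈ O)
    (hcol : ∀ z ∈ B ∩ O, ∀ i j, u z i = u z j) (i j : Fin K) : u w i = u w j := by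
  have hlim := hu w hwA
  have hkey : ∀ ε : ℝ, 0 < ε → ‖u w i - u w j‖ ≤ ε + ε := by
    intro ε hε
    have h1 : ∀ᶠ z in 𝓝[A] w, dG (u z) (u w) < ε := hlim.eventually (gt_mem_nhds hε)
    rw [eventually_nhdsWithin_iff] at h1
    obtain ⟨z, hzO, hz1, hzB⟩ := (hfr.and_eventually (h1.and hB)).exists
    have hz2 := hz1 (hOA hzO)
    obtain ⟨σ, hσ⟩ := match_ hMET (u z) (u w)
    have h2 := hσ (σ.symm i)
    have h3 := hσ (σ.symm j)
    rw [Equiv.apply_symm_apply] at h2 h3
    have h4 : u z (σ.symm i) = u z (σ.symm j) := hcol z ⟨hzB, hzO⟩ _ _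
    have h5 : u w i - u w j = (u z (σ.symm j) - u w j) - (u z (σ.symm i) - u w i) := by
      rw [h4]
      abel
    rw [h5]
    exact (norm_sub_le _ _).trans (add_le_add (h3.trans hz2.le) (h2.trans hz2.le))
  have h0 : ‖u w i - u w j‖ = 0 := by
    apply le_antisymm _ (norm_nonneg _)
    apply le_of_forall_pos_le_add
    intro ε hε
    have := hkey (ε / 2) (by linarith)
    linarith
  exact sub_eq_zero.mp (norm_eq_zero.mp h0)

/-- continuity of an entry of a collapsed function -/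
lemma cont_entry {K n : ℕ} (hMET : Stmt_MET) {A B : Set ℂ} {u : ℂ → Tup K n} (hu : ContG A u)
    (hcol : ∀ z ∈ B ∩ A, ∀ i j, u z i = u z j) (i : Fin K) :
    ContinuousOn (fun z => u z i) (B ∩ A) := by
  intro w hw
  have hlim := hu w hw.2
  have h1 : Tendsto (fun z => dG (u z) (u w)) (𝓝[B ∩ A] w) (𝓝 0) :=
    hlim.mono_left (nhdsWithin_mono w Set.inter_subset_right)
  unfold ContinuousWithinAt
  rw [tendsto_iff_norm_sub_tendsto_zero]
  apply squeeze_zero' (Eventually.of_forall fun _ => norm_nonneg _) _ h1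
  filter_upwards [self_mem_nhdsWithin] with z hz
  obtain ⟨σ, hσ⟩ := match_ hMET (u z) (u w)
  have h2 := hσ i
  rw [hcol w hw (σ i) i] at h2
  exact h2

end RGL_

theorem rgl_proof (hMET : Stmt_MET) (_hSYB : Stmt_SYB) : Stmt_RGL := by
  classical
  intro k d n Om Op Omi ga φ up um z0 hk hs hsys hz0 hLC
  obtain ⟨r1, hr1, hLp, hLm⟩ := hLC
  have hz0Om : z0 ∈ Om := by
    rw [hs.union]
    exact Or.inl (Or.inr hz0)
  obtain ⟨r2, hr2, hball⟩ := Metric.isOpen_iff.mp hs.openOm z0 hz0Om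
  set r : ℝ := min r1 r2 with hr
  have hr0 : 0 < r := lt_min hr1 hr2
  have hb1 : ball z0 r ⊆ ball z0 r1 := ball_subset_ball (min_le_left _ _)
  have hb2 : ball z0 r ⊆ Op ∪ ga ∪ Omi := by
    rw [← hs.union]
    exact (ball_subset_ball (min_le_right _ _)).trans hball
  have hcp : ∀ z ∈ ball z0 r ∩ (Op ∪ ga), ∀ i j, up z i = up z j := by
    rintro z ⟨hzb, hz | hz⟩ i j
    · exact hLp z ⟨hb1 hzb, hz⟩ i j
    · exact RGL_.collapse hMET hsys.cp Set.subset_union_left (Or.inr hz)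
        (isOpen_ball.mem_nhds hzb) (RGL_.freq_op hs hz)
        (fun w hw => hLp w ⟨hb1 hw.1, hw.2⟩) i j
  have hcm : ∀ z ∈ ball z0 r ∩ (Omi ∪ ga), ∀ i j, um z i = um z j := by
    rintro z ⟨hzb, hz | hz⟩ i j
    · exact hLm z ⟨hb1 hzb, hz⟩ i j
    · exact RGL_.collapse hMET hsys.cm Set.subset_union_left (Or.inr hz)
        (isOpen_ball.mem_nhds hzb) (RGL_.freq_om hs hz)
        (fun w hw => hLm w ⟨hb1 hw.1, hw.2⟩) i j
  set ip : Fin (k + d) := ⟨0, by omega⟩ with hip
  set im : Fin k := ⟨0, hk⟩ with him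
  set v : ℂ → E n := fun w => if w ∈ Op ∪ ga then up w ip else um w im with hv
  have hvp : ∀ z ∈ Op ∪ ga, v z = up z ip := by
    intro z hz
    rw [hv]
    dsimp only
    rw [if_pos hz]
  have hvm : ∀ z ∈ ball z0 r ∩ (Omi ∪ ga), v z = um z im := by
    rintro z ⟨hzb, hz | hz⟩
    · have : z ∉ Op ∪ ga := by
        rintro (h | h)
        · exact Set.disjoint_left.mp hs.disj3 h hz
        · exact Set.disjoint_left.mp hs.disj2 hz h
      rw [hv]
      dsimp only
      rw [if_neg this]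
    · rw [hvp z (Or.inr hz)]
      obtain ⟨σ, hσ⟩ := hsys.bd z hz
      have h1 : ∀ j, up z j = up z ip := fun j => hcp z ⟨hzb, Or.inr hz⟩ _ _
      have h2 : up z (σ.symm (Fin.castAdd d im)) = um z im := by
        rw [hσ]
        simp [Fin.append_left]
      rw [← h2]
      exact (h1 _).symm
  refine ⟨r, hr0, hb2, fun _ => v, fun _ => v, ?_, ?_, ?_, ?_, ?_, ?_⟩
  · intro _
    have c1 : ContinuousOn v (ball z0 r ∩ (Op ∪ ga)) :=
      (RGL_.cont_entry hMET hsys.cp hcp ip).congr (fun z hz => hvp z hz.2)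
    have c2 : ContinuousOn v (ball z0 r ∩ (Omi ∪ ga)) :=
      (RGL_.cont_entry hMET hsys.cm hcm im).congr (fun z hz => hvm z hz)
    intro z hz
    have hun : ball z0 r = (ball z0 r ∩ (Op ∪ ga)) ∪ (ball z0 r ∩ (Omi ∪ ga)) := by
      rw [← Set.inter_union_distrib_left]
      apply (Set.inter_eq_left.mpr _).symm
      intro w hw
      rcases hb2 hw with (h | h) | h
      · exact Or.inl (Or.inl h)
      · exact Or.inl (Or.inr h)
      · exact Or.inr (Or.inl h)
    rw [hun]
    have hbot : ∀ (O A : Set ℂ), IsOpen O → z ∈ O → Disjoint O A →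
        ContinuousWithinAt v A z := by
      intro O A hO hzO hdis
      have : 𝓝[A] z = ⊥ := by
        rw [← notMem_closure_iff_nhdsWithin_eq_bot, mem_closure_iff_nhds]
        push Not
        refine ⟨O, hO.mem_nhds hzO, ?_⟩
        exact Set.disjoint_iff_inter_eq_empty.mp hdis
      unfold ContinuousWithinAt
      rw [this]
      exact tendsto_bot
    rcases hb2 hz with (h | h) | h
    · apply ContinuousWithinAt.union (c1 z ⟨hz, Or.inl h⟩)
      apply hbot Op _ hs.openOp h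
      apply Set.disjoint_left.mpr
      rintro w hw ⟨-, h1 | h1⟩
      · exact Set.disjoint_left.mp hs.disj3 hw h1
      · exact Set.disjoint_left.mp hs.disj1 hw h1
    · exact ContinuousWithinAt.union (c1 z ⟨hz, Or.inr h⟩) (c2 z ⟨hz, Or.inr h⟩)
    · apply ContinuousWithinAt.union _ (c2 z ⟨hz, Or.inl h⟩)
      apply hbot Omi _ hs.openOmi h
      apply Set.disjoint_left.mpr
      rintro w hw ⟨-, h1 | h1⟩
      · exact Set.disjoint_left.mp hs.disj3 h1 hw
      · exact Set.disjoint_left.mp hs.disj2 hw h1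
  · intro _
    exact (RGL_.cont_entry hMET hsys.cp hcp ip).congr (fun z hz => hvp z hz.2)
  · intro z hz
    have : up z = Fin.append (fun _ : Fin k => v z) (fun _ : Fin d => v z) := by
      funext i
      rw [hcp z hz i ip, ← hvp z hz.2]
      refine Fin.addCases (fun i => ?_) (fun i => ?_) i
      · rw [Fin.append_left]
      · rw [Fin.append_right]
    rw [this]
    exact Same.refl' _
  · intro z hz
    have : um z = fun _ : Fin k => v z := by
      funext i
      rw [hcm z hz i im, ← hvm z hz]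
    rw [this]
    exact Same.refl' _
  · intro _ _
    left
    intro _ _
    rfl
  · intro _ _
    left
    intro _ _
    rfl

end Pool.Agent.DMB
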