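import Pool.Agent.DMB.Api

set_option autoImplicit false

namespace Pool.Agent.DMB

open MeasureTheory Set Metric Filter Topology
open scoped ENNReal

theorem rgp_proof (hSYB : Stmt_SYB) : Stmt_RGP := by
  intro n k Op Omi ga gp gm up um p hp hm hR
  obtain ⟨r, hr, hball, u, w, h1, h2, h3, h4, h5, h6⟩ := hR
  obtain ⟨s1, -, s3, -, -⟩ := hSYB n
  refine ⟨r, hr, hball, u, w 0, h1, h2 0, ?_, ?_, h5, fun i => h6 i 0⟩
  · intro z hz
    have e := h3 z hz
    have hw : (fun j : Fin 1 => w j z) = fun _ => w 0 z := by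
      funext j
      rw [Subsingleton.elim j 0]
    rw [hw] at e
    rw [← hp z, s3 k (fun i => u i z) (w 0 z)]
    exact ((s1 (k + 1) _ _).2).2 e
  · intro z hz
    rw [← hm z]
    exact ((s1 k _ _).2).2 (h4 z hz)

end Pool.Agent.DMB
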