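import Pool.Agent.DMB.Api

set_option autoImplicit false

/-!
SEL: a labelling of a curve of unordered tuples of bounded variation.
-/

namespace Pool.Agent.DMB

open MeasureTheory Set Metric Filter Topology
open scoped ENNReal

namespace SEL_

variable {K n : ℕ}

theorem sqd_perm (a b : Tup K n) (σ : Equiv.Perm (Fin K)) : sqd (a ∘ σ) (b ∘ σ) = sqd a b := by
  unfold sqd
  simp only [Function.comp_apply]
  exact Equiv.sum_comp σ (fun i => ‖a i - b i‖ ^ 2)

theorem sqd_self (a : Tup K n) : sqd a a = 0 := by simp [sqd]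

theorem tri (a b c : Tup K n) :
    Real.sqrt (sqd a c) ≤ Real.sqrt (sqd a b) + Real.sqrt (sqd b c) := by
  have e : mt a - mt c = (mt a - mt b) + (mt b - mt c) := by abel
  rw [sqd_eq_nsq a c, e, sqd_eq_nsq a b, sqd_eq_nsq b c]
  exact sqrt_nsq_add_le _ _

theorem finite_sel (hMET : Stmt_MET) (u : ℝ → Tup K n) (H : ℝ → ℝ) (a b : ℝ)
    (hu : ∀ s ∈ Icc a b, ∀ t ∈ Icc a b, s ≤ t → dG (u s) (u t) ≤ H t - H s) (T : Finset ℝ) :
    (∀ x ∈ T, x ∈ Icc a b) → ∃ τ : ℝ → Equiv.Perm (Fin K), ∀ s ∈ T, ∀ t ∈ T, s ≤ t →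
      Real.sqrt (sqd (u s ∘ τ s) (u t ∘ τ t)) ≤ H t - H s := by
  classical
  induction T using Finset.induction_on_max with
  | empty =>
    intro _
    exact ⟨fun _ => 1, by simp⟩
  | insert m T hm ih =>
    intro hT
    obtain ⟨τ, hτ⟩ := ih fun x hx => hT x (Finset.mem_insert_of_mem hx)
    have hmI : m ∈ Icc a b := hT m (Finset.mem_insert_self _ _)
    rcases T.eq_empty_or_nonempty with hE | hne
    · refine ⟨τ, ?_⟩
      subst hE
      intro s hs t ht _
      simp only [Finset.mem_insert, Finset.notMem_empty, or_false] at hs ht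
      subst hs
      subst ht
      rw [sqd_self]
      simp
    · obtain ⟨s0, hs0⟩ : ∃ s0, s0 = T.max' hne := ⟨_, rfl⟩
      have hs0T : s0 ∈ T := by rw [hs0]; exact T.max'_mem hne
      have hs0I : s0 ∈ Icc a b := hT s0 (Finset.mem_insert_of_mem hs0T)
      have hs0m : s0 < m := hm s0 hs0T
      obtain ⟨σ, hσ⟩ := (hMET K n (u s0) (u m) (u m)).2.2.2.2.1
      have hH := hu s0 hs0I m hmI hs0m.le
      rw [hσ] at hH
      refine ⟨Function.update τ m ((τ s0).trans σ), ?_⟩
      have hne' : ∀ s ∈ T, Function.update τ m ((τ s0).trans σ) s = τ s := fun s hs =>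
        Function.update_of_ne (hm s hs).ne _ _
      have hmm : Function.update τ m ((τ s0).trans σ) m = (τ s0).trans σ :=
        Function.update_self _ _ _
      intro s hs t ht hst
      rcases Finset.mem_insert.1 hs with rfl | hs'
      · rcases Finset.mem_insert.1 ht with rfl | ht'
        · rw [sqd_self]
          simp
        · exact absurd hst (not_le.2 (hm t ht'))
      · rcases Finset.mem_insert.1 ht with rfl | ht'
        · rw [hne' s hs', hmm]
          have h1 : s ≤ s0 := by rw [hs0]; exact T.le_max' s hs'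
          have h2 := hτ s hs' s0 hs0T h1
          have h3 : sqd (u s0 ∘ τ s0) (u t ∘ ((τ s0).trans σ)) = sqd (u s0) (u t ∘ σ) :=
            sqd_perm (u s0) (u t ∘ σ) (τ s0)
          refine (tri _ (u s0 ∘ τ s0) _).trans ?_
          rw [h3]
          linarith
        · rw [hne' s hs', hne' t ht']
          exact hτ s hs' t ht' hst

end SEL_

open SEL_ in
theorem sel_proof (hMET : Stmt_MET) : Stmt_SEL := by
  classical
  intro K n u H a b _ hu
  have h1 : ∀ T : Finset ℝ, ∃ τ : ℝ → Equiv.Perm (Fin K), ∀ s ∈ T, ∀ t ∈ T, s ∈ Icc a b →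
      t ∈ Icc a b → s ≤ t → Real.sqrt (sqd (u s ∘ τ s) (u t ∘ τ t)) ≤ H t - H s := by
    intro T
    obtain ⟨τ, hτ⟩ := finite_sel hMET u H a b hu (T.filter fun x => x ∈ Icc a b)
      (fun x hx => (Finset.mem_filter.1 hx).2)
    exact ⟨τ, fun s hs t ht hsI htI hst => hτ s (Finset.mem_filter.2 ⟨hs, hsI⟩) t
      (Finset.mem_filter.2 ⟨ht, htI⟩) hst⟩
  choose g hg using h1
  obtain ⟨χ, hχ⟩ := Finset.rado_selection g
  refine ⟨fun t => u t ∘ χ t, fun t _ => ⟨χ t, rfl⟩, ?_⟩
  intro s hs t ht hst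
  obtain ⟨T, hT, hT'⟩ := hχ {s, t}
  have hsT : s ∈ ({s, t} : Finset ℝ) := by simp
  have htT : t ∈ ({s, t} : Finset ℝ) := by simp
  show Real.sqrt (sqd (u s ∘ χ s) (u t ∘ χ t)) ≤ H t - H s
  rw [hT' s hsT, hT' t htT]
  exact hg T s (hT hsT) t (hT htT) hs ht hst

end Pool.Agent.DMB
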