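import Pool.Agent.DMB.Api

/-!
Squad DMB, module SLC.
-/

namespace Pool.Agent.DMB

open MeasureTheory Set Metric Filter Topology
open scoped ENNReal

namespace SLC_

/-- the polar map -/
noncomputable def Ph (q : ℝ) (z : ℂ) : ℂ := cm q z.re z.im

theorem hasFDerivAt_Ph (q : ℝ) (z : ℂ) :
    HasFDerivAt (Ph q) (((z.re : ℝ) : ℂ) • (Complex.exp ((z.im : ℂ) * Complex.I) •
        (Complex.I • (Complex.ofRealCLM.comp Complex.imCLM))) +
      Complex.exp ((z.im : ℂ) * Complex.I) • (Complex.ofRealCLM.comp Complex.reCLM)) z := by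
  have h1 : HasFDerivAt (fun z : ℂ => ((z.re : ℝ) : ℂ)) (Complex.ofRealCLM.comp Complex.reCLM) z :=
    (Complex.ofRealCLM.comp Complex.reCLM).hasFDerivAt
  have h2 : HasFDerivAt (fun z : ℂ => ((z.im : ℝ) : ℂ)) (Complex.ofRealCLM.comp Complex.imCLM) z :=
    (Complex.ofRealCLM.comp Complex.imCLM).hasFDerivAt
  have h3 := (h2.mul_const Complex.I).cexp
  exact (h1.mul h3).const_add (q : ℂ)

theorem contDiff_Ph (q : ℝ) : ContDiff ℝ 1 (Ph q) := by
  unfold Ph cm
  have h1 : ContDiff ℝ 1 (fun z : ℂ => ((z.re : ℝ) : ℂ)) :=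
    (Complex.ofRealCLM.comp Complex.reCLM).contDiff
  have h2 : ContDiff ℝ 1 (fun z : ℂ => ((z.im : ℝ) : ℂ)) :=
    (Complex.ofRealCLM.comp Complex.imCLM).contDiff
  exact contDiff_const.add (h1.mul (h2.mul contDiff_const).cexp)

theorem px_Ph (q : ℝ) (z : ℂ) : px (Ph q) z = Complex.exp ((z.im : ℂ) * Complex.I) := by
  unfold px
  rw [(hasFDerivAt_Ph q z).fderiv]
  simp

theorem py_Ph (q : ℝ) (z : ℂ) :
    py (Ph q) z = z.re * (Complex.exp ((z.im : ℂ) * Complex.I) * Complex.I) := by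
  unfold py
  rw [(hasFDerivAt_Ph q z).fderiv]
  simp

theorem norm_cm (q ρ θ : ℝ) (hρ : 0 ≤ ρ) : ‖cm q ρ θ - q‖ = ρ := by
  unfold cm
  rw [add_sub_cancel_left, norm_mul, Complex.norm_exp_ofReal_mul_I, mul_one, Complex.norm_real,
    Real.norm_of_nonneg hρ]

theorem im_cm (q ρ θ : ℝ) : (cm q ρ θ).im = ρ * Real.sin θ := by
  unfold cm
  simp [Complex.exp_ofReal_mul_I_im, Complex.exp_ofReal_mul_I_re]

theorem continuous_cm (q ρ : ℝ) : Continuous (fun θ : ℝ => cm q ρ θ) := by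
  unfold cm
  fun_prop

theorem isOpen_HD (q R : ℝ) : IsOpen (HD q R) := by
  unfold HD
  apply IsOpen.inter
  · exact isOpen_lt continuous_const Complex.continuous_im
  · exact isOpen_lt (continuous_id.sub continuous_const).norm continuous_const

theorem jac_Ph (q : ℝ) (z : ℂ) : jac (Ph q) z = z.re := by
  unfold jac
  rw [px_Ph, py_Ph]
  have h : (starRingEnd ℂ) (Complex.exp ((z.im : ℂ) * Complex.I)) *
      Complex.exp ((z.im : ℂ) * Complex.I) = 1 := by
    rw [← Complex.exp_conj, ← Complex.exp_add]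
    simp
  have : (starRingEnd ℂ) (Complex.exp ((z.im : ℂ) * Complex.I)) *
      (z.re * (Complex.exp ((z.im : ℂ) * Complex.I) * Complex.I)) = z.re * Complex.I := by
    calc _ = z.re * ((starRingEnd ℂ) (Complex.exp ((z.im : ℂ) * Complex.I)) *
          Complex.exp ((z.im : ℂ) * Complex.I)) * Complex.I := by ring
      _ = _ := by rw [h]; ring
  rw [this]
  simp

end SLC_

open SLC_ in
theorem slc_proof (hGCO : Stmt_GCO) (hPOL : Stmt_POL) : Stmt_SLC := by
  intro q R f fx fy hR hfc hg hint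
  have hpi := Real.pi_pos
  have hfin : volume (HD q R) < ⊤ := by
    refine lt_of_le_of_lt (measure_mono (t := ball (q : ℂ) R) ?_) measure_ball_lt_top
    intro z hz
    rw [mem_ball, dist_eq_norm]
    exact hz.2
  -- integrability of the components
  have hone : IntegrableOn (fun z => 1 + (fx z ^ 2 + fy z ^ 2)) (HD q R) :=
    (integrableOn_const hfin.ne).add hint
  have hfx : IntegrableOn fx (HD q R) := by
    refine Integrable.mono' hone hg.mx (Eventually.of_forall (fun z => ?_))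
    rw [Real.norm_eq_abs]
    nlinarith [sq_nonneg (|fx z| - 1), sq_abs (fx z), sq_nonneg (fy z), abs_nonneg (fx z)]
  have hfy : IntegrableOn fy (HD q R) := by
    refine Integrable.mono' hone hg.my (Eventually.of_forall (fun z => ?_))
    rw [Real.norm_eq_abs]
    nlinarith [sq_nonneg (|fy z| - 1), sq_abs (fy z), sq_nonneg (fx z), abs_nonneg (fy z)]
  have p1 := (hPOL q R fx hR hfx).1
  have p2 := (hPOL q R fy hR hfy).1
  have p3 := (hPOL q R _ hR hint).1
  -- the change of variables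
  set W : Set ℂ := {z | (0 < z.re ∧ z.re < R) ∧ (0 < z.im ∧ z.im < Real.pi)} with hW
  have hWo : IsOpen W := by
    rw [hW]
    apply IsOpen.inter
    · exact (isOpen_lt continuous_const Complex.continuous_re).inter
        (isOpen_lt Complex.continuous_re continuous_const)
    · exact (isOpen_lt continuous_const Complex.continuous_im).inter
        (isOpen_lt Complex.continuous_im continuous_const)
  have hmaps : MapsTo (Ph q) W (HD q R) := by
    rintro z ⟨⟨h1, h2⟩, h3, h4⟩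
    refine ⟨?_, ?_⟩
    · show 0 < (cm q z.re z.im).im
      rw [im_cm]
      exact mul_pos h1 (Real.sin_pos_of_pos_of_lt_pi h3 h4)
    · show ‖cm q z.re z.im - q‖ < R
      rw [norm_cm _ _ _ h1.le]
      exact h2
  have hinj : InjOn (Ph q) W := by
    rintro z ⟨⟨h1, h2⟩, h3, h4⟩ w ⟨⟨h1', h2'⟩, h3', h4'⟩ hzw
    have e1 : cm q z.re z.im = cm q w.re w.im := hzw
    have e2 : z.re = w.re := by
      rw [← norm_cm q z.re z.im h1.le, ← norm_cm q w.re w.im h1'.le, e1]
    have e3 : z.im = w.im := by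
      have a1 := Complex.arg_mul_cos_add_sin_mul_I h1 (θ := z.im) ⟨by linarith, h4.le⟩
      have a2 := Complex.arg_mul_cos_add_sin_mul_I h1' (θ := w.im) ⟨by linarith, h4'.le⟩
      rw [← a1, ← a2]
      congr 1
      unfold cm at e1
      have := add_left_cancel e1
      rw [Complex.exp_mul_I, Complex.exp_mul_I] at this
      exact this
    exact Complex.ext e2 e3
  have hG := hGCO (HD q R) W (Ph q) f fx fy (isOpen_HD q R) hWo (contDiff_Ph q).contDiffOn hmaps hinj
    (by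
      rintro z ⟨⟨h1, -⟩, -⟩
      rw [jac_Ph]
      exact h1.ne') hg
  have p4 := hG.ver
  filter_upwards [p1, p2, p3, p4] with ρ q1 q2 q3 q4 hρ
  refine ⟨q1 hρ, q2 hρ, q3 hρ, ?_⟩
  -- the integrand
  set G : ℝ → ℝ := fun θ => ρ * (-(Real.sin θ) * fx (cm q ρ θ) + Real.cos θ * fy (cm q ρ θ)) with hGdef
  have hGi : IntervalIntegrable G volume 0 Real.pi := by
    apply IntervalIntegrable.const_mul
    apply IntervalIntegrable.add
    · exact (q1 hρ).continuousOn_mul (Real.continuous_sin.neg.continuousOn)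
    · exact (q2 hρ).continuousOn_mul (Real.continuous_cos.continuousOn)
  have hFc : ContinuousOn (fun θ => f (cm q ρ θ)) (Icc 0 Real.pi) := by
    apply hfc.comp (continuous_cm q ρ).continuousOn
    intro θ hθ
    refine ⟨?_, ?_⟩
    · show 0 ≤ (cm q ρ θ).im
      rw [im_cm]
      exact mul_nonneg hρ.1.le (Real.sin_nonneg_of_nonneg_of_le_pi hθ.1 hθ.2)
    · show ‖cm q ρ θ - q‖ < R
      rw [norm_cm _ _ _ hρ.1.le]
      exact hρ.2
  have hIc : ContinuousOn (fun θ => ∫ t in (0 : ℝ)..θ, G t) (Icc 0 Real.pi) := by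
    have := intervalIntegral.continuousOn_primitive_interval (μ := volume) (f := G) (a := 0)
      (b := Real.pi) (by
        rw [uIcc_of_le hpi.le]
        exact (intervalIntegrable_iff_integrableOn_Icc_of_le hpi.le).mp hGi)
    rwa [uIcc_of_le hpi.le] at this
  have hsub : ∀ a ∈ Icc (0 : ℝ) Real.pi, ∀ b ∈ Icc (0 : ℝ) Real.pi, IntervalIntegrable G volume a b := by
    intro a ha b hb
    apply hGi.mono_set
    rw [uIcc_of_le hpi.le]
    exact uIcc_subset_Icc ha hb
  have hFTC : ∀ a b : ℝ, 0 < a → a ≤ b → b < Real.pi →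
      f (cm q ρ b) - f (cm q ρ a) = ∫ t in a..b, G t := by
    intro a b ha hab hb
    have h := (q4 a b hab (fun t ht => ⟨⟨hρ.1, hρ.2⟩, lt_of_lt_of_le ha ht.1, lt_of_le_of_lt ht.2 hb⟩)).2
    have e1 : f (Ph q ⟨ρ, b⟩) - f (Ph q ⟨ρ, a⟩) = f (cm q ρ b) - f (cm q ρ a) := rfl
    rw [e1] at h
    rw [h]
    apply intervalIntegral.integral_congr
    intro t _
    simp only [hGdef, py_Ph]
    have e2 : Ph q ⟨ρ, t⟩ = cm q ρ t := rfl
    rw [e2]
    have e3 : (((⟨ρ, t⟩ : ℂ).re : ℂ) * (Complex.exp (((⟨ρ, t⟩ : ℂ).im : ℂ) * Complex.I) * Complex.I)).re =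
        -(ρ * Real.sin t) := by
      simp [Complex.exp_ofReal_mul_I_im, Complex.exp_ofReal_mul_I_re]
    have e4 : (((⟨ρ, t⟩ : ℂ).re : ℂ) * (Complex.exp (((⟨ρ, t⟩ : ℂ).im : ℂ) * Complex.I) * Complex.I)).im =
        ρ * Real.cos t := by
      simp [Complex.exp_ofReal_mul_I_im, Complex.exp_ofReal_mul_I_re]
    rw [e3, e4]
    ring
  -- constancy
  have hconst : EqOn (fun θ => f (cm q ρ θ) - ∫ t in (0 : ℝ)..θ, G t)
      (fun _ => f (cm q ρ (Real.pi / 2)) - ∫ t in (0 : ℝ)..(Real.pi / 2), G t) (Icc 0 Real.pi) := by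
    apply Set.EqOn.of_subset_closure (s := Ioo 0 Real.pi) _ (hFc.sub hIc) continuousOn_const
      Ioo_subset_Icc_self
    · rw [closure_Ioo hpi.ne]
    · intro θ hθ
      have hm : Real.pi / 2 ∈ Icc (0 : ℝ) Real.pi := ⟨by linarith, by linarith⟩
      have h0 : (0 : ℝ) ∈ Icc (0 : ℝ) Real.pi := ⟨le_rfl, hpi.le⟩
      have hθ' : θ ∈ Icc (0 : ℝ) Real.pi := Ioo_subset_Icc_self hθ
      show f (cm q ρ θ) - ∫ t in (0 : ℝ)..θ, G t =
        f (cm q ρ (Real.pi / 2)) - ∫ t in (0 : ℝ)..(Real.pi / 2), G t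
      rcases le_total θ (Real.pi / 2) with h | h
      · have k1 := hFTC θ (Real.pi / 2) hθ.1 h (by linarith)
        have k2 := intervalIntegral.integral_interval_sub_left (hsub 0 h0 _ hm) (hsub 0 h0 _ hθ')
        linarith
      · have k1 := hFTC (Real.pi / 2) θ (by linarith) h hθ.2
        have k2 := intervalIntegral.integral_interval_sub_left (hsub 0 h0 _ hθ') (hsub 0 h0 _ hm)
        linarith
  intro θ₁ h₁ θ₂ h₂
  have h0 : (0 : ℝ) ∈ Icc (0 : ℝ) Real.pi := ⟨le_rfl, hpi.le⟩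
  have k1 := hconst h₁
  have k2 := hconst h₂
  simp only at k1 k2
  have k3 := intervalIntegral.integral_interval_sub_left (hsub 0 h0 _ h₂) (hsub 0 h0 _ h₁)
  show f (cm q ρ θ₂) - f (cm q ρ θ₁) = ∫ θ in θ₁..θ₂, G θ
  linarith

end Pool.Agent.DMB
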