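import Pool.Agent.DMB.Api

set_option autoImplicit false

namespace Pool.Agent.DMB

open MeasureTheory Set Metric Filter Topology
open scoped ENNReal

namespace SPR_

lemma lap_zero {ζ : ℂ → ℝ} {x : ℂ} (hx : x ∉ tsupport ζ) : lap ζ x = 0 := by
  unfold lap
  have h1 : x ∉ tsupport (fun w => fderiv ℝ ζ w 1) := fun h =>
    hx (tsupport_fderiv_apply_subset ℝ 1 h)
  have h2 : x ∉ tsupport (fun w => fderiv ℝ ζ w Complex.I) := fun h =>
    hx (tsupport_fderiv_apply_subset ℝ Complex.I h)
  have h3 : fderiv ℝ (fun w => fderiv ℝ ζ w 1) x = 0 := by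
    by_contra h
    exact h1 (support_fderiv_subset ℝ h)
  have h4 : fderiv ℝ (fun w => fderiv ℝ ζ w Complex.I) x = 0 := by
    by_contra h
    exact h2 (support_fderiv_subset ℝ h)
  rw [h3, h4]; simp

lemma lap_cont {ζ : ℂ → ℝ} (h : ContDiff ℝ (⊤ : ℕ∞) ζ) : Continuous (lap ζ) := by
  unfold lap
  have key : ∀ (f : ℂ → ℝ) (v : ℂ), ContDiff ℝ (⊤ : ℕ∞) f →
      ContDiff ℝ (⊤ : ℕ∞) (fun w => fderiv ℝ f w v) := by
    intro f v hf
    exact (hf.fderiv_right (by simp)).clm_apply contDiff_const
  exact ((key _ 1 (key ζ 1 h)).add (key _ Complex.I (key ζ Complex.I h))).continuous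

lemma int_mul {U : Set ℂ} (hU : IsOpen U) {g : ℂ → ℝ} (hg : ContinuousOn g U) {ζ : ℂ → ℝ}
    (hζ : TF U ζ) : Integrable (fun z => g z * lap ζ z) := by
  have hts : tsupport (fun z => g z * lap ζ z) ⊆ tsupport ζ := by
    apply closure_minimal _ (isClosed_tsupport _)
    intro x hx
    by_contra h
    apply hx
    simp only [lap_zero h, mul_zero]
  apply Continuous.integrable_of_hasCompactSupport
  · apply continuous_of_tsupport
    intro x hx
    exact (hg.continuousAt (hU.mem_nhds (hζ.2.2 (hts hx)))).mul (lap_cont hζ.1).continuousAt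
  · exact hζ.2.1.of_isClosed_subset (isClosed_tsupport _) hts

lemma wsub_sub (hHWK : Stmt_HWK) {D : Set ℂ} (hD : IsOpen D) {g w : ℂ → ℝ}
    (hg : ContinuousOn g D) (hw : ContinuousOn w D) (hwh : ∀ z ∈ D, InnerProductSpace.HarmonicAt w z)
    (hW : WSub D g) : WSub D (fun z => g z - w z) := by
  intro ζ hζ hζ0
  have h1 : ∫ z, (g z - w z) * lap ζ z = (∫ z, g z * lap ζ z) - (∫ z, w z * lap ζ z) := by
    rw [← integral_sub (int_mul hD hg hζ) (int_mul hD hw hζ)]
    congr 1
    funext z; ring
  rw [h1, hHWK D w hD hwh ζ hζ, sub_zero]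
  exact hW ζ hζ hζ0

lemma wsub_mono {H D : Set ℂ} (hDH : D ⊆ H) {g : ℂ → ℝ} (hW : WSub H g) : WSub D g := by
  intro ζ hζ hζ0
  exact hW ζ ⟨hζ.1, hζ.2.1, hζ.2.2.trans hDH⟩ hζ0

end SPR_

open SPR_ in
theorem spr_proof (hMAX : Stmt_MAX) (hHWK : Stmt_HWK) : Stmt_SPR := by
  intro H f hHo hHp hf0 hfc hW hV
  set S := interior {z ∈ H | f z = 0} with hS
  have hSo : IsOpen S := isOpen_interior
  have hSsub : ∀ z ∈ S, z ∈ H ∧ f z = 0 := by
    intro z hz
    rw [hS] at hz
    have h : z ∈ {z | z ∈ H ∧ f z = 0} := interior_subset hz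
    exact h
  obtain ⟨V, hVo, ⟨v, hv⟩, hVH, hVf⟩ := hV
  have hvS : v ∈ S := by
    rw [hS, mem_interior]
    exact ⟨V, fun z hz => ⟨hVH hz, hVf z hz⟩, hVo, hv⟩
  -- key step
  have key : ∀ z0 ∈ H, z0 ∈ closure S → z0 ∈ S := by
    intro z0 hz0 hz0c
    obtain ⟨δ, hδ, hδH⟩ := (nhds_basis_closedBall.mem_iff).1 (hHo.mem_nhds hz0)
    obtain ⟨ρ, hρ⟩ : ∃ ρ : ℝ, ρ = δ / 3 := ⟨_, rfl⟩
    have hρ0 : 0 < ρ := by rw [hρ]; positivity
    obtain ⟨a, haS, hda⟩ := Metric.mem_closure_iff.1 hz0c ρ hρ0
    have hcb : closedBall a (2 * ρ) ⊆ H := by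
      intro w hw
      apply hδH
      rw [mem_closedBall] at hw ⊢
      have h1 := dist_triangle w a z0
      rw [dist_comm] at hda
      linarith
    obtain ⟨r0, hr0, hr0S⟩ := (nhds_basis_closedBall.mem_iff).1 (hSo.mem_nhds haS)
    obtain ⟨r1, hr1⟩ : ∃ r1 : ℝ, r1 = min r0 ρ := ⟨_, rfl⟩
    have hr1p : 0 < r1 := by rw [hr1]; exact lt_min hr0 hρ0
    have hr1ρ : r1 ≤ ρ := by rw [hr1]; exact min_le_right _ _
    have hr1S : closedBall a r1 ⊆ S := by
      refine (closedBall_subset_closedBall ?_).trans hr0S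
      rw [hr1]; exact min_le_left _ _
    have hcomp : IsCompact (closedBall a (2 * ρ)) := isCompact_closedBall _ _
    obtain ⟨Mf, hMf⟩ := hcomp.exists_bound_of_continuousOn (hfc.mono hcb)
    have hMf' : ∀ z ∈ closedBall a (2 * ρ), f z ≤ Mf := fun z hz =>
      le_trans (le_abs_self _) (hMf z hz)
    have hMf0 : 0 ≤ Mf := le_trans (hf0 a) (hMf' a (mem_closedBall_self (by positivity)))
    obtain ⟨M', hM'⟩ : ∃ M' : ℝ, M' = Real.log (Mf + 1) := ⟨_, rfl⟩
    have hlogr : 0 < Real.log (2 * ρ) - Real.log r1 := by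
      have := Real.log_lt_log hr1p (show r1 < 2 * ρ by linarith)
      linarith
    set D : Set ℂ := {z | r1 < ‖z - a‖ ∧ ‖z - a‖ < 2 * ρ} with hD
    have hDo : IsOpen D := by
      have hn : Continuous (fun z : ℂ => ‖z - a‖) := (continuous_id.sub continuous_const).norm
      exact (isOpen_lt continuous_const hn).inter (isOpen_lt hn continuous_const)
    have hDcl : closure D ⊆ {z | r1 ≤ ‖z - a‖ ∧ ‖z - a‖ ≤ 2 * ρ} := by
      apply closure_minimal
      · intro z hz; exact ⟨hz.1.le, hz.2.le⟩
      · have hn : Continuous (fun z : ℂ => ‖z - a‖) := (continuous_id.sub continuous_const).norm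
        exact (isClosed_le continuous_const hn).inter (isClosed_le hn continuous_const)
    have hDclb : closure D ⊆ closedBall a (2 * ρ) := by
      intro z hz
      rw [mem_closedBall, dist_eq_norm]
      exact (hDcl hz).2
    have hDb : Bornology.IsBounded D := isBounded_closedBall.subset (subset_closure.trans hDclb)
    have hcmp : ∀ ε, 0 < ε → ε < 1 → ∀ z ∈ D, Real.log (f z + ε) ≤
        M' - (M' - Real.log ε) / (Real.log (2 * ρ) - Real.log r1) *
          (Real.log (2 * ρ) - Real.log ‖z - a‖) := by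
      intro ε hε hε1 z hz
      obtain ⟨c2, hc2⟩ : ∃ c2 : ℝ, c2 = (M' - Real.log ε) / (Real.log (2 * ρ) - Real.log r1) :=
        ⟨_, rfl⟩
      rw [← hc2]
      set w : ℂ → ℝ := fun z => (M' - c2 * Real.log (2 * ρ)) + c2 * Real.log ‖z - a‖ with hw
      have hg1 : ContinuousOn (fun z => Real.log (f z + ε)) (closure D) := by
        apply ContinuousOn.log
        · exact (hfc.mono (hDclb.trans hcb)).add continuousOn_const
        · intro z _
          have := hf0 z
          linarith
      have hw1 : ContinuousOn w (closure D) := by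
        apply continuousOn_const.add
        apply continuousOn_const.mul
        apply ContinuousOn.log
        · exact ((continuous_id.sub continuous_const).norm).continuousOn
        · intro z hz
          have h3 : r1 ≤ ‖z - a‖ := (hDcl hz).1
          have h4 : 0 < ‖z - a‖ := lt_of_lt_of_le hr1p h3
          exact h4.ne'
      have hwh : ∀ z ∈ D, InnerProductSpace.HarmonicAt w z := by
        intro z hz
        have h1 : InnerProductSpace.HarmonicAt (fun z : ℂ => Real.log ‖z - a‖) z := by
          apply AnalyticAt.harmonicAt_log_norm (f := fun z => z - a)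
          · exact analyticAt_id.sub analyticAt_const
          · intro h
            have h2 := hz.1
            rw [h] at h2
            simp at h2
            linarith
        have h2 := (InnerProductSpace.harmonicAt_const (E := ℂ) (x := z)
          (M' - c2 * Real.log (2 * ρ))).add (h1.const_smul (c := c2))
        exact h2
      have hgW := wsub_sub hHWK hDo (hg1.mono subset_closure) (hw1.mono subset_closure) hwh
        (wsub_mono (subset_closure.trans (hDclb.trans hcb)) (hW ε hε))
      have := hMAX D (fun z => Real.log (f z + ε) - w z) 0 hDo hDb (hg1.sub hw1) hgW (by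
        intro z hz
        have hzc : z ∈ closure D := frontier_subset_closure hz
        have hzD : z ∉ D := by
          rw [frontier, hDo.interior_eq] at hz
          exact hz.2
        have hzz := hDcl hzc
        have hcase : ‖z - a‖ = r1 ∨ ‖z - a‖ = 2 * ρ := by
          by_contra hcon
          push Not at hcon
          exact hzD ⟨lt_of_le_of_ne hzz.1 (Ne.symm hcon.1), lt_of_le_of_ne hzz.2 hcon.2⟩
        rcases hcase with h | h
        · have hfz : f z = 0 := (hSsub z (hr1S (by rw [mem_closedBall, dist_eq_norm, h]))).2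
          have h2 : w z = Real.log ε := by
            simp only [hw]
            rw [h, hc2]
            field_simp
            ring
          rw [hfz, zero_add, h2, sub_self]
        · have h2 : w z = M' := by
            simp only [hw]
            rw [h]; ring
          rw [h2, hM']
          have h3 : f z + ε ≤ Mf + 1 := by
            have := hMf' z (hDclb hzc)
            linarith
          have h4 := Real.log_le_log (by have := hf0 z; linarith) h3
          linarith) z hz
      simp only [hw] at this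
      linarith
    have hfD : ∀ z ∈ D, f z = 0 := by
      intro z hz
      obtain ⟨θ, hθ⟩ : ∃ θ : ℝ, θ = (Real.log (2 * ρ) - Real.log ‖z - a‖) /
        (Real.log (2 * ρ) - Real.log r1) := ⟨_, rfl⟩
      have hza : 0 < ‖z - a‖ := lt_trans hr1p hz.1
      have hθ0 : 0 < θ := by
        rw [hθ]
        apply div_pos _ hlogr
        have := Real.log_lt_log hza hz.2
        linarith
      by_contra hne
      have hfpos : 0 < f z := lt_of_le_of_ne (hf0 z) (Ne.symm hne)
      -- take ε small
      obtain ⟨ε, hε⟩ : ∃ ε : ℝ, ε = min (1 / 2)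
        (Real.exp (-((|M' * (1 - θ)| + |Real.log (f z)| + 1) / θ))) := ⟨_, rfl⟩
      have hε0 : 0 < ε := by rw [hε]; exact lt_min (by norm_num) (Real.exp_pos _)
      have hε1 : ε < 1 := by
        rw [hε]
        exact lt_of_le_of_lt (min_le_left _ _) (by norm_num)
      have h1 := hcmp ε hε0 hε1 z hz
      have h2 : M' - (M' - Real.log ε) / (Real.log (2 * ρ) - Real.log r1) *
          (Real.log (2 * ρ) - Real.log ‖z - a‖) = M' * (1 - θ) + θ * Real.log ε := by
        rw [hθ]; field_simp; ring
      rw [h2] at h1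
      have h3 : Real.log ε ≤ -((|M' * (1 - θ)| + |Real.log (f z)| + 1) / θ) := by
        calc Real.log ε ≤ Real.log (Real.exp (-((|M' * (1 - θ)| + |Real.log (f z)| + 1) / θ))) := by
              apply Real.log_le_log hε0
              rw [hε]; exact min_le_right _ _
          _ = _ := Real.log_exp _
      have h4 : θ * Real.log ε ≤ -(|M' * (1 - θ)| + |Real.log (f z)| + 1) := by
        calc θ * Real.log ε ≤ θ * -((|M' * (1 - θ)| + |Real.log (f z)| + 1) / θ) :=
              mul_le_mul_of_nonneg_left h3 hθ0.le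
          _ = _ := by field_simp
      have h5 : Real.log (f z) ≤ Real.log (f z + ε) := Real.log_le_log hfpos (by linarith)
      have h6 := le_abs_self (M' * (1 - θ))
      have h7 := neg_abs_le (Real.log (f z))
      linarith
    rw [hS, mem_interior]
    refine ⟨ball a (2 * ρ), ?_, isOpen_ball, ?_⟩
    · intro z hz
      rw [mem_ball, dist_eq_norm] at hz
      refine ⟨hcb (by rw [mem_closedBall, dist_eq_norm]; exact hz.le), ?_⟩
      by_cases h : r1 < ‖z - a‖
      · exact hfD z ⟨h, hz⟩
      · exact (hSsub z (hr1S (by rw [mem_closedBall, dist_eq_norm]; exact not_lt.1 h))).2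
    · rw [mem_ball]
      linarith
  -- connectedness
  have hsub : H ⊆ S := by
    apply hHp.subset_of_closure_inter_subset hSo ⟨v, hVH hv, hvS⟩
    rintro z ⟨hz1, hz2⟩
    exact key z hz2 hz1
  intro z hz
  exact (hSsub z (hsub hz)).2

end Pool.Agent.DMB
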