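import Pool.Agent.DMB.Api

/-!
Squad DMB, module SYB: unordered tuples and labelled tuples.
-/

namespace Pool.Agent.DMB

open MeasureTheory Set Metric Filter Topology
open scoped ENNReal

namespace SYB_

open Classical in
theorem same_of_ms {Q n : ℕ} {a b : Tup Q n} (h : ms a = ms b) : Same a b := by
  have hc : ∀ v : E n, Fintype.card {i // a i = v} = Fintype.card {i // b i = v} := by
    intro v
    have h1 := congrArg (Multiset.count v) h
    unfold ms at h1
    rw [Multiset.count_map, Multiset.count_map] at h1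
    rw [Fintype.card_subtype, Fintype.card_subtype, Finset.card_def, Finset.card_def,
      Finset.filter_val, Finset.filter_val]
    simpa only [eq_comm] using h1
  let e : ∀ v : E n, {i // a i = v} ≃ {i // b i = v} := fun v => Fintype.equivOfCardEq (hc v)
  refine ⟨Equiv.ofFiberEquiv e, ?_⟩
  funext i
  exact (Equiv.ofFiberEquiv_map e i).symm

theorem ms_comp {Q n : ℕ} (b : Tup Q n) (σ : Equiv.Perm (Fin Q)) : ms (b ∘ σ) = ms b := by
  unfold ms
  have h := Multiset.map_univ_val_equiv σ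
  rw [← Multiset.map_map, h]

theorem same_iff {Q n : ℕ} (a b : Tup Q n) : Same a b ↔ ms a = ms b := by
  constructor
  · rintro ⟨σ, rfl⟩
    exact ms_comp b σ
  · exact same_of_ms

theorem tup_iff {Q n : ℕ} (a b : Tup Q n) : tup a = tup b ↔ Same a b := by
  rw [same_iff]
  constructor
  · intro h
    exact congrArg Subtype.val h
  · intro h
    exact Subtype.ext h

theorem ms_append {K L n : ℕ} (a : Tup K n) (b : Tup L n) : ms (Fin.append a b) = ms a + ms b := by
  unfold ms
  rw [Fin.univ_val_map, Fin.univ_val_map, Fin.univ_val_map, List.ofFn_fin_append, Multiset.coe_add]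

theorem sqd_comp {Q n : ℕ} (a b : Tup Q n) (s : Equiv.Perm (Fin Q)) :
    sqd (a ∘ s) b = sqd a (b ∘ s.symm) := by
  unfold sqd
  rw [← Equiv.sum_comp s (fun i => ‖a i - (b ∘ s.symm) i‖ ^ 2)]
  refine Finset.sum_congr rfl fun i _ => ?_
  simp

theorem GG_eq {Q n : ℕ} (a b : Tup Q n) : GG (tup a) (tup b) = dG a b := by
  unfold GG dG
  have hset : {r : ℝ | ∃ a' b' : Fin Q → E n, tup a' = tup a ∧ tup b' = tup b ∧
      r = Real.sqrt (∑ i, ‖a' i - b' i‖ ^ 2)} =
      Set.range (fun σ : Equiv.Perm (Fin Q) => Real.sqrt (sqd a (b ∘ σ))) := by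
    ext r
    constructor
    · rintro ⟨a', b', ha, hb, rfl⟩
      obtain ⟨s, rfl⟩ := (tup_iff _ _).1 ha
      obtain ⟨t, rfl⟩ := (tup_iff _ _).1 hb
      refine ⟨s.symm.trans t, ?_⟩
      have h := sqd_comp a (b ∘ t) s
      have h2 : sqd a (b ∘ (s.symm.trans t)) = sqd a ((b ∘ t) ∘ s.symm) := rfl
      show Real.sqrt (sqd a (b ∘ (s.symm.trans t))) = _
      rw [h2, ← h]
      rfl
    · rintro ⟨σ, rfl⟩
      exact ⟨a, b ∘ σ, rfl, (tup_iff _ _).2 ⟨σ, rfl⟩, rfl⟩
  rw [hset]
  rfl

theorem exists_tup {Q n : ℕ} (S : AQ n Q) : ∃ a : Tup Q n, tup a = S := by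
  obtain ⟨s, hs⟩ := S
  induction s using Quot.inductionOn with
  | h l =>
    have hl : l.length = Q := by simpa using hs
    subst hl
    refine ⟨l.get, ?_⟩
    apply Subtype.ext
    show Multiset.map l.get Finset.univ.val = _
    rw [Fin.univ_val_map, List.ofFn_get]
    rfl

end SYB_

open SYB_ in
theorem syb_proof (_hMET : Stmt_MET) : Stmt_SYB := by
  intro n
  refine ⟨fun Q a b => ⟨GG_eq a b, tup_iff a b⟩, fun Q S => exists_tup S, ?_,
    fun Q a b => same_iff a b, fun K L a b => ms_append a b⟩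
  intro Q a c
  apply Subtype.ext
  have h := ms_append a (fun _ : Fin 1 => c)
  have h2 : (tup (Fin.append a (fun _ : Fin 1 => c)) : AQ n (Q + 1)).1 =
      ms (Fin.append a (fun _ : Fin 1 => c)) := rfl
  rw [h2, h]
  have h3 : ms (fun _ : Fin 1 => c) = {c} := by
    simp [ms]
  rw [h3, add_comm, Multiset.singleton_add]
  rfl

end Pool.Agent.DMB
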