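import Pool.Agent.DMB.Api

set_option autoImplicit false

/-!
Squad DMB, module SYS: the labelled system of a pair.
-/

namespace Pool.Agent.DMB

open MeasureTheory Set Metric Filter Topology
open scoped ENNReal

namespace SYS_

lemma contQ_of {n Q : ℕ} (hSYB : Stmt_SYB) (A : Set ℂ) (g : ℂ → AQ n Q) (u : ℂ → Tup Q n)
    (h : ∀ z, tup (u z) = g z) : ContQ A g ↔ ContG A u := by
  unfold ContQ ContG
  have e : ∀ w z, GG (g w) (g z) = dG (u w) (u z) := by
    intro w z
    rw [← h w, ← h z]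
    exact (((hSYB n).1 Q (u w) (u z))).1
  simp only [e]

lemma contQ_mono {n Q : ℕ} {A B : Set ℂ} {g : ℂ → AQ n Q} (h : ContQ B g) (hAB : A ⊆ B) :
    ContQ A g := by
  intro z hz
  exact (h z (hAB hz)).mono_left (nhdsWithin_mono z hAB)

lemma energy_eq {n Q : ℕ} (hENC : Stmt_ENC) (U : Set ℂ) (g : ℂ → AQ n Q) (u : ℂ → Tup Q n)
    (h : ∀ z, tup (u z) = g z) (hU : IsOpen U) (hg : ContQ U g) : energy U g = en U u :=
  hENC n Q U g u hU hg (fun z _ => h z)

end SYS_

theorem sys_proof (_hMET : Stmt_MET) (hSYB : Stmt_SYB) (hENC : Stmt_ENC) : Stmt_SYS := by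
  intro n k Om Op Omi ga φ gp gm hs hD
  obtain ⟨hP, hmin⟩ := hD
  choose up hup using fun z => (hSYB n).2.1 (k + 1) (gp z)
  choose um hum using fun z => (hSYB n).2.1 k (gm z)
  have hcons : ∀ (a : Tup k n) (c : E n),
      (c ::ₛ (tup a : AQ n k) : AQ n (k + 1)) = tup (Fin.append a (fun _ : Fin 1 => c)) :=
    fun a c => (hSYB n).2.2.1 k a c
  have hsame : ∀ (Q : ℕ) (a b : Tup Q n), tup a = tup b ↔ Same a b :=
    fun Q a b => ((hSYB n).1 Q a b).2
  have hOp : Op ⊆ Op ∪ ga := Set.subset_union_left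
  have hOm : Omi ⊆ Omi ∪ ga := Set.subset_union_left
  have eup : energy Op gp = en Op up :=
    SYS_.energy_eq hENC Op gp up hup hs.openOp (SYS_.contQ_mono hP.cp hOp)
  have eum : energy Omi gm = en Omi um :=
    SYS_.energy_eq hENC Omi gm um hum hs.openOmi (SYS_.contQ_mono hP.cm hOm)
  refine ⟨up, um, hup, hum, ⟨?_, ?_, ?_, ?_, ?_⟩, ?_⟩
  · exact (SYS_.contQ_of hSYB _ gp up hup).mp hP.cp
  · exact (SYS_.contQ_of hSYB _ gm um hum).mp hP.cm
  · intro z hz
    rw [← hsame, hup, ← hcons, hum]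
    exact hP.bd z hz
  · rw [← eup]
    exact hP.fp
  · rw [← eum]
    exact hP.fm
  · intro vp vm hV hC
    obtain ⟨C, hC1, hC2, hC3, hC4⟩ := hC
    have hcp : ContQ (Op ∪ ga) (fun z => tup (vp z)) :=
      (SYS_.contQ_of hSYB _ (fun z => tup (vp z)) vp (fun _ => rfl)).mpr hV.cp
    have hcm : ContQ (Omi ∪ ga) (fun z => tup (vm z)) :=
      (SYS_.contQ_of hSYB _ (fun z => tup (vm z)) vm (fun _ => rfl)).mpr hV.cm
    have evp : energy Op (fun z => tup (vp z)) = en Op vp :=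
      SYS_.energy_eq hENC Op _ vp (fun _ => rfl) hs.openOp (SYS_.contQ_mono hcp hOp)
    have evm : energy Omi (fun z => tup (vm z)) = en Omi vm :=
      SYS_.energy_eq hENC Omi _ vm (fun _ => rfl) hs.openOmi (SYS_.contQ_mono hcm hOm)
    have h := hmin (fun z => tup (vp z)) (fun z => tup (vm z)) ⟨hcp, hcm, ?_, ?_, ?_⟩
      ⟨C, hC1, hC2, ?_, ?_⟩
    · rw [eup, eum, evp, evm] at h
      exact h
    · intro z hz
      rw [hcons, hsame]
      exact hV.bd z hz
    · rw [evp]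
      exact hV.fp
    · rw [evm]
      exact hV.fm
    · intro z hz
      rw [← hup z, hsame]
      exact hC3 z hz
    · intro z hz
      rw [← hum z, hsame]
      exact hC4 z hz

end Pool.Agent.DMB
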