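import Pool.Agent.DMB.Api

/-!
Module TUP: gradients of sorted tuples of functions.
-/

set_option autoImplicit false

namespace Pool.Agent.DMB

open MeasureTheory Set Metric Filter Topology
open scoped ENNReal

namespace TUP_

theorem ac_of_le {ι : Type} [Fintype ι] {F : ι → ℝ → ℝ} {g : ℝ → ℝ} {a b : ℝ}
    (hF : ∀ k, AbsolutelyContinuousOnInterval (F k) a b)
    (hg : ∀ s ∈ uIcc a b, ∀ t ∈ uIcc a b, |g t - g s| ≤ ∑ k, |F k t - F k s|) :
    AbsolutelyContinuousOnInterval g a b := by
  have h1 : Tendsto (fun E : ℕ × (ℕ → ℝ × ℝ) => ∑ k, ∑ i ∈ Finset.range E.1,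
      dist (F k (E.2 i).1) (F k (E.2 i).2))
      (AbsolutelyContinuousOnInterval.totalLengthFilter ⊓
        𝓟 (AbsolutelyContinuousOnInterval.disjWithin a b)) (𝓝 (∑ _k : ι, (0 : ℝ))) :=
    tendsto_finsetSum _ fun k _ => hF k
  rw [Finset.sum_const_zero] at h1
  refine squeeze_zero' (Eventually.of_forall fun E =>
    Finset.sum_nonneg fun _ _ => dist_nonneg) ?_ h1
  have h2 : ∀ᶠ E in AbsolutelyContinuousOnInterval.totalLengthFilter ⊓
      𝓟 (AbsolutelyContinuousOnInterval.disjWithin a b),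
      E ∈ AbsolutelyContinuousOnInterval.disjWithin a b := eventually_inf_principal.mpr (by simp)
  filter_upwards [h2] with E hE
  rw [Finset.sum_comm]
  apply Finset.sum_le_sum
  intro i hi
  have hm := hE.1 i hi
  have h3 := hg _ hm.2 _ hm.1
  simpa only [Real.dist_eq] using h3

theorem line {ι : Type} [Fintype ι] (f x : ι → ℝ → ℝ) (g : ℝ → ℝ) (κ : ℝ → ι) (a b : ℝ)
    (hab : a ≤ b) (hx : ∀ k, IntervalIntegrable (x k) volume a b)
    (hf : ∀ k, ∀ t ∈ Icc a b, f k t - f k a = ∫ s in a..t, x k s)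
    (hg : ∀ s ∈ Icc a b, ∀ t ∈ Icc a b, |g t - g s| ≤ ∑ k, |f k t - f k s|)
    (hκ : ∀ t ∈ Icc a b, g t = f (κ t) t) :
    IntervalIntegrable (fun t => x (κ t) t) volume a b ∧
      g b - g a = ∫ t in a..b, x (κ t) t := by
  have huIcc : uIcc a b = Icc a b := uIcc_of_le hab
  have ha : a ∈ uIcc a b := left_mem_uIcc
  obtain ⟨F, hF⟩ : ∃ F : ι → ℝ → ℝ, F = fun k t => ∫ s in a..t, x k s := ⟨_, rfl⟩
  have hFf : ∀ k, ∀ t ∈ Icc a b, f k t = F k t + f k a := by
    intro k t ht
    have h := hf k t ht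
    rw [hF]
    show f k t = (∫ s in a..t, x k s) + f k a
    linarith
  have hac : ∀ k, AbsolutelyContinuousOnInterval (F k) a b := by
    intro k
    rw [hF]
    exact (hx k).absolutelyContinuousOnInterval_intervalIntegral ha
  have hgac : AbsolutelyContinuousOnInterval g a b := by
    apply ac_of_le hac
    intro s hs t ht
    rw [huIcc] at hs ht
    refine (hg s hs t ht).trans (le_of_eq ?_)
    apply Finset.sum_congr rfl
    intro k _
    rw [hFf k t ht, hFf k s hs]
    congr 1
    ring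
  -- the derivative
  have hder : ∀ᵐ t, t ∈ Icc a b → deriv g t = x (κ t) t := by
    have h1 : ∀ k : ι, ∀ᵐ t, t ∈ uIcc a b → HasDerivAt (F k) (x k t) t := by
      intro k
      filter_upwards [(hx k).ae_hasDerivAt_integral] with t ht htm
      rw [hF]
      exact ht htm a ha
    have h2 : ∀ k : ι, ∀ᵐ t : ℝ, t ∉ {t ∈ {s | s ∈ Icc a b ∧ g s = f k s} |
        𝓝[{s | s ∈ Icc a b ∧ g s = f k s} ∩ Ioi t] t = ⊥} := by
      intro k
      exact (countable_setOfPred_isolated_right_within
        (s := {s | s ∈ Icc a b ∧ g s = f k s})).ae_notMem volume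
    filter_upwards [ae_all_iff.mpr h1, ae_all_iff.mpr h2, hgac.ae_differentiableAt] with t t1 t2 t3 ht
    have htu : t ∈ uIcc a b := by rw [huIcc]; exact ht
    obtain ⟨k, hk⟩ : ∃ k, k = κ t := ⟨_, rfl⟩
    rw [← hk]
    have hgk : g t = f k t := by rw [hk]; exact hκ t ht
    have hgd : HasDerivAt g (deriv g t) t := (t3 htu).hasDerivAt
    have hd : HasDerivAt (fun s => g s - F k s) (deriv g t - x k t) t := hgd.sub (t1 k htu)
    have hne : (𝓝[{s | s ∈ Icc a b ∧ g s = f k s} ∩ Ioi t] t).NeBot := by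
      rw [neBot_iff]
      intro hbot
      exact t2 k ⟨⟨ht, hgk⟩, hbot⟩
    have hslope := hasDerivAt_iff_tendsto_slope.mp hd
    have hsub : 𝓝[{s | s ∈ Icc a b ∧ g s = f k s} ∩ Ioi t] t ≤ 𝓝[≠] t :=
      nhdsWithin_mono t (fun s hs => (ne_of_gt hs.2 : s ≠ t))
    have h4 := hslope.mono_left hsub
    have h5 : (slope (fun s => g s - F k s) t) =ᶠ[𝓝[{s | s ∈ Icc a b ∧ g s = f k s} ∩ Ioi t] t]
        fun _ => (0 : ℝ) := by
      filter_upwards [self_mem_nhdsWithin] with s hs
      have e1 : g s - F k s = g t - F k t := by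
        have e2 := hFf k s hs.1.1
        have e3 := hFf k t ht
        have e4 : g s = f k s := hs.1.2
        linarith
      rw [slope_def_field]
      show (g s - F k s - (g t - F k t)) / (s - t) = 0
      rw [e1, sub_self, zero_div]
    have h6 : Tendsto (fun _ : ℝ => (0 : ℝ)) (𝓝[{s | s ∈ Icc a b ∧ g s = f k s} ∩ Ioi t] t)
        (𝓝 (deriv g t - x k t)) := h4.congr' h5
    have h7 := tendsto_nhds_unique h6 tendsto_const_nhds
    linarith
  have hii : IntervalIntegrable (deriv g) volume a b := hgac.intervalIntegrable_deriv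
  have hcongr : ∀ᵐ t, t ∈ uIoc a b → deriv g t = x (κ t) t := by
    filter_upwards [hder] with t ht htm
    apply ht
    rw [uIoc_of_le hab] at htm
    exact Ioc_subset_Icc_self htm
  refine ⟨hii.congr_ae ?_, ?_⟩
  · exact (ae_restrict_iff' measurableSet_uIoc).mpr hcongr
  · rw [← hgac.integral_deriv_eq_sub]
    exact intervalIntegral.integral_congr_ae hcongr


theorem sort_lip (hMET : Stmt_MET) (hXIL : Stmt_XIL) {K n : ℕ} (a b : Tup K n) (i : Fin K)
    (l : Fin n) : |xi a i l - xi b i l| ≤ ∑ k, |a k l - b k l| := by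
  have key : ∀ c : Tup K n, xi (fun k => (EuclideanSpace.single (0 : Fin 1) (c k l) : E 1)) i 0 =
      xi c i l := by
    intro c
    have h1 : (fun k => (EuclideanSpace.single (0 : Fin 1) (c k l) : E 1) 0) = fun k => c k l := by
      funext k
      simp
    show (EuclideanSpace.single (0 : Fin 1)
      (c (Tuple.sort (fun k => (EuclideanSpace.single (0 : Fin 1) (c k l) : E 1) 0) i) l) : E 1) 0 = _
    rw [h1]
    simp [xi]
  obtain ⟨a', ha'⟩ : ∃ a' : Tup K 1, a' = fun k => (EuclideanSpace.single (0 : Fin 1) (a k l) : E 1) :=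
    ⟨_, rfl⟩
  obtain ⟨b', hb'⟩ : ∃ b' : Tup K 1, b' = fun k => (EuclideanSpace.single (0 : Fin 1) (b k l) : E 1) :=
    ⟨_, rfl⟩
  have h1 := (hXIL K 1 a' b').1
  obtain ⟨h0, _, _, _, _, h2, _⟩ := hMET K 1 a' b' b'
  have h3 := h2 (Equiv.refl _)
  have h4 : dG a' b' ^ 2 ≤ sqd a' b' := by
    have h5 := pow_le_pow_left₀ h0 h3 2
    have h6 : (b' ∘ (Equiv.refl (Fin K))) = b' := rfl
    rw [h6, Real.sq_sqrt (sqd_nonneg _ _)] at h5
    exact h5
  have h5 : sqd a' b' = ∑ k, (a k l - b k l) ^ 2 := by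
    unfold sqd
    apply Finset.sum_congr rfl
    intro k _
    rw [ha', hb', E_norm_sq]
    simp
  have h6 : (xi a i l - xi b i l) ^ 2 ≤ nsq (xi a' - xi b') := by
    have e1 : xi a i l - xi b i l = (xi a' - xi b') i 0 := by
      rw [Pi.sub_apply, Pi.sub_apply, ha', hb', key a, key b]
    rw [e1]
    unfold nsq
    refine le_trans ?_ (Finset.single_le_sum (f := fun i => ∑ l, (xi a' - xi b') i l ^ 2)
      (fun _ _ => Finset.sum_nonneg fun _ _ => sq_nonneg _) (Finset.mem_univ i))
    exact Finset.single_le_sum (f := fun l => (xi a' - xi b') i l ^ 2)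
      (fun _ _ => sq_nonneg _) (Finset.mem_univ (0 : Fin 1))
  have h7 : ∑ k, (a k l - b k l) ^ 2 ≤ (∑ k, |a k l - b k l|) ^ 2 := by
    rw [sq (∑ k, |a k l - b k l|), Finset.sum_mul]
    apply Finset.sum_le_sum
    intro k _
    rw [← sq_abs, sq]
    exact mul_le_mul_of_nonneg_left (Finset.single_le_sum (f := fun k => |a k l - b k l|)
      (fun _ _ => abs_nonneg _) (Finset.mem_univ k)) (abs_nonneg _)
  apply abs_le_of_sq_le_sq
  · linarith
  · exact Finset.sum_nonneg fun _ _ => abs_nonneg _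

theorem meas_sort {K : ℕ} (F : ℂ → Fin K → ℝ) (hF : ∀ k, Measurable (fun z => F z k))
    (σ : Equiv.Perm (Fin K)) : MeasurableSet {z | Tuple.sort (F z) = σ} := by
  have h1 : {z | Tuple.sort (F z) = σ} =
      (⋂ i, ⋂ j, {z | i ≤ j → F z (σ i) ≤ F z (σ j)}) ∩
        ⋂ i, ⋂ j, {z | i < j → F z (σ i) = F z (σ j) → σ i < σ j} := by
    ext z
    simp only [mem_ofPred_eq, mem_inter_iff, mem_iInter]
    rw [eq_comm, Tuple.eq_sort_iff]
    constructor
    · rintro ⟨h1, h2⟩
      exact ⟨fun i j hij => h1 hij, h2⟩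
    · rintro ⟨h1, h2⟩
      exact ⟨fun i j hij => h1 i j hij, h2⟩
  rw [h1]
  refine MeasurableSet.inter ?_ ?_
  · refine MeasurableSet.iInter fun i => MeasurableSet.iInter fun j => ?_
    by_cases h : i ≤ j
    · simpa only [h, forall_const] using measurableSet_le (hF (σ i)) (hF (σ j))
    · simp [h]
  · refine MeasurableSet.iInter fun i => MeasurableSet.iInter fun j => ?_
    by_cases h : i < j
    · by_cases h' : σ i < σ j
      · simp [h']
      · simp only [h, h', forall_const, imp_false]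
        exact (measurableSet_eq_fun (hF (σ i)) (hF (σ j))).compl
    · simp [h]

open Classical in
theorem meas_perm {K n : ℕ} {U : Set ℂ} (hU : IsOpen U) (v : ℂ → Tup K n)
    (hc : ∀ k l, ContinuousOn (fun z => v z k l) U) (G : ℂ → Mat K n)
    (hG : ∀ i l, AEStronglyMeasurable (fun z => G z i l) (volume.restrict U)) (i : Fin K)
    (l : Fin n) :
    AEStronglyMeasurable (fun z => G z (Tuple.sort (fun k => v z k l) i) l)
      (volume.restrict U) := by
  obtain ⟨F, hF⟩ : ∃ F : ℂ → Fin K → ℝ, F = fun z k => U.piecewise (fun z => v z k l) (fun _ => 0) z :=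
    ⟨_, rfl⟩
  have hFm : ∀ k, Measurable (fun z => F z k) := by
    intro k
    rw [hF]
    exact ContinuousOn.measurable_piecewise (hc k l) continuousOn_const hU.measurableSet
  have hFU : ∀ z ∈ U, F z = fun k => v z k l := by
    intro z hz
    rw [hF]
    funext k
    exact piecewise_eq_of_mem U _ _ hz
  have h1 : AEStronglyMeasurable (fun z => ∑ σ : Equiv.Perm (Fin K),
      ({z | Tuple.sort (F z) = σ}.indicator (fun z => G z (σ i) l)) z) (volume.restrict U) := by
    apply Finset.aestronglyMeasurable_fun_sum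
    intro σ _
    exact (hG (σ i) l).indicator (meas_sort F hFm σ)
  refine h1.congr ?_
  refine (ae_restrict_iff' hU.measurableSet).mpr (Eventually.of_forall fun z hz => ?_)
  show ∑ σ : Equiv.Perm (Fin K), ({z | Tuple.sort (F z) = σ}.indicator (fun z => G z (σ i) l)) z = _
  rw [Finset.sum_eq_single (Tuple.sort (F z))]
  · rw [indicator_of_mem (by exact rfl), hFU z hz]
  · intro σ _ hσ
    have h : z ∉ {z | Tuple.sort (F z) = σ} := fun h => hσ (Eq.symm h)
    exact indicator_of_notMem h (fun z => G z (σ i) l)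
  · intro h
    exact absurd (Finset.mem_univ _) h

theorem tendsto_aux {K n : ℕ} {U : Set ℂ} (v : ℂ → Tup K n)
    (hc : ∀ k l, ContinuousOn (fun z => v z k l) U) {z : ℂ} (hz : z ∈ U) (k : Fin K) (l : Fin n) :
    Tendsto (fun w => |v w k l - v z k l|) (𝓝[U] z) (𝓝 0) := by
  have h := ((hc k l z hz).sub_const (v z k l)).abs
  simpa using h

end TUP_

theorem tup_proof (hMET : Stmt_MET) (hXIL : Stmt_XIL) (_hISO : Stmt_ISO) (_hGAL : Stmt_GAL)
    (_hGUN : Stmt_GUN) (_hGAB : Stmt_GAB) : Stmt_TUP := by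
  intro K n U v X Y hU hv
  have hc : ∀ k l, ContinuousOn (fun z => v z k l) U := fun k l => (hv k l).cont
  refine ⟨?_, fun z i l => X z (Tuple.sort (fun k => v z k l) i) l,
    fun z i l => Y z (Tuple.sort (fun k => v z k l) i) l, ?_, ?_⟩
  · intro z hz
    have h1 : Tendsto (fun w => Real.sqrt (sqd (v w) (v z))) (𝓝[U] z) (𝓝 0) := by
      have h2 : Tendsto (fun w => ∑ k, ∑ l, |v w k l - v z k l| ^ 2) (𝓝[U] z)
          (𝓝 (∑ _k : Fin K, ∑ _l : Fin n, (0 : ℝ) ^ 2)) :=
        tendsto_finsetSum _ fun k _ => tendsto_finsetSum _ fun l _ =>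
          (TUP_.tendsto_aux v hc hz k l).pow 2
      have h3 := h2.sqrt
      have h4 : ∀ w, sqd (v w) (v z) = ∑ k, ∑ l, |v w k l - v z k l| ^ 2 := by
        intro w
        rw [sqd_eq_nsq]
        unfold nsq mt
        simp only [sq_abs]
        rfl
      simp only [h4]
      simpa using h3
    refine squeeze_zero (fun w => (hMET K n (v w) (v z) (v z)).1) (fun w => ?_) h1
    have h5 := (hMET K n (v w) (v z) (v z)).2.2.2.2.2.1 (Equiv.refl _)
    exact h5
  · intro i l
    refine ⟨?_, ?_, ?_, ?_, ?_, ?_⟩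
    · intro z hz
      have h1 : Tendsto (fun w => ∑ k, |v w k l - v z k l|) (𝓝[U] z)
          (𝓝 (∑ _k : Fin K, (0 : ℝ))) :=
        tendsto_finsetSum _ fun k _ => TUP_.tendsto_aux v hc hz k l
      rw [Finset.sum_const_zero] at h1
      show Tendsto (fun w => xi (v w) i l) (𝓝[U] z) (𝓝 (xi (v z) i l))
      rw [tendsto_iff_dist_tendsto_zero]
      refine squeeze_zero (fun w => dist_nonneg) (fun w => ?_) h1
      rw [Real.dist_eq]
      exact TUP_.sort_lip hMET hXIL (v w) (v z) i l
    · exact TUP_.meas_perm hU v hc X (fun i l => (hv i l).mx) i l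
    · exact TUP_.meas_perm hU v hc Y (fun i l => (hv i l).my) i l
    · intro C hCU hC
      have hint : IntegrableOn (fun z => ∑ k, (X z k l ^ 2 + Y z k l ^ 2)) C :=
        integrable_finsetSum _ fun k _ => (hv k l).loc C hCU hC
      have hle : volume.restrict C ≤ volume.restrict U := Measure.restrict_mono hCU le_rfl
      have hmX := (TUP_.meas_perm hU v hc X (fun i l => (hv i l).mx) i l).mono_measure hle
      have hmY := (TUP_.meas_perm hU v hc Y (fun i l => (hv i l).my) i l).mono_measure hle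
      refine Integrable.mono' hint ((hmX.pow 2).add (hmY.pow 2)) ?_
      refine Eventually.of_forall fun z => ?_
      rw [Real.norm_of_nonneg (add_nonneg (sq_nonneg _) (sq_nonneg _))]
      exact Finset.single_le_sum (f := fun k => X z k l ^ 2 + Y z k l ^ 2)
        (fun _ _ => add_nonneg (sq_nonneg _) (sq_nonneg _)) (Finset.mem_univ _)
    · have h1 := fun k => (hv k l).hor
      filter_upwards [ae_all_iff.mpr h1] with y hy
      intro a b hab hseg
      refine TUP_.line (fun k t => v ⟨t, y⟩ k l) (fun k t => X ⟨t, y⟩ k l)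
        (fun t => xi (v ⟨t, y⟩) i l) (fun t => Tuple.sort (fun k => v ⟨t, y⟩ k l) i) a b hab
        (fun k => (hy k a b hab hseg).1) ?_ ?_ (fun t _ => rfl)
      · intro k t ht
        exact (hy k a t ht.1 (fun s hs => hseg s ⟨hs.1, hs.2.trans ht.2⟩)).2
      · intro s _ t _
        exact TUP_.sort_lip hMET hXIL (v ⟨t, y⟩) (v ⟨s, y⟩) i l
    · have h1 := fun k => (hv k l).ver
      filter_upwards [ae_all_iff.mpr h1] with x hx
      intro a b hab hseg
      refine TUP_.line (fun k t => v ⟨x, t⟩ k l) (fun k t => Y ⟨x, t⟩ k l)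
        (fun t => xi (v ⟨x, t⟩) i l) (fun t => Tuple.sort (fun k => v ⟨x, t⟩ k l) i) a b hab
        (fun k => (hx k a b hab hseg).1) ?_ ?_ (fun t _ => rfl)
      · intro k t ht
        exact (hx k a t ht.1 (fun s hs => hseg s ⟨hs.1, hs.2.trans ht.2⟩)).2
      · intro s _ t _
        exact TUP_.sort_lip hMET hXIL (v ⟨x, t⟩) (v ⟨x, s⟩) i l
  · have hns : ∀ (G : Mat K n) (z : ℂ),
        nsq (fun i l => G (Tuple.sort (fun k => v z k l) i) l) = nsq G := by
      intro G z
      unfold nsq
      rw [Finset.sum_comm, Finset.sum_comm (f := fun i l => G i l ^ 2)]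
      apply Finset.sum_congr rfl
      intro l _
      exact Equiv.sum_comp (Tuple.sort fun k => v z k l) (fun k => G k l ^ 2)
    have hsm : ∀ (G : Mat K n) (z : ℂ),
        sm (fun i l => G (Tuple.sort (fun k => v z k l) i) l) = sm G := by
      intro G z
      funext l
      unfold sm
      exact Equiv.sum_comp (Tuple.sort fun k => v z k l) (fun k => G k l)
    exact Eventually.of_forall fun z _ => ⟨hns _ z, hns _ z, hsm _ z, hsm _ z⟩

end Pool.Agent.DMB
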