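import Pool.Agent.DMB.Api

/-!
Uniqueness part: a minimiser which is collapsed on a boundary set of positive length, with decay
there, is collapsed everywhere (module UNQ).
-/

namespace Pool.Agent.DMB

open MeasureTheory Set Metric Filter Topology
open scoped ENNReal

namespace UNQ_

variable {K n : ℕ}

theorem continuous_dev : Continuous (dev : Mat K n → ℝ) := by
  unfold dev nsq sh mn
  fun_prop

theorem aesm_dev {H : Set ℂ} {X : ℂ → Mat K n}
    (hX : ∀ i l, AEStronglyMeasurable (fun z => X z i l) (volume.restrict H)) :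
    AEStronglyMeasurable (fun z => dev (X z)) (volume.restrict H) := by
  have h1 : AEMeasurable X (volume.restrict H) :=
    aemeasurable_pi_iff.2 fun i => aemeasurable_pi_iff.2 fun l => (hX i l).aemeasurable
  exact ((continuous_dev (K := K) (n := n)).measurable.comp_aemeasurable h1).aestronglyMeasurable

theorem dev_zero_of_rows {v : Mat K n} {c : Fin n → ℝ} (hK : 0 < K)
    (h : ∀ i l, v i l = c l) : dev v = 0 := by
  have hm : mn v = c := by
    funext l
    have hK' : (K : ℝ) ≠ 0 := by positivity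
    simp only [mn, h, Finset.sum_const, Finset.card_univ, Fintype.card_fin, nsmul_eq_mul]
    field_simp
  unfold dev nsq sh
  rw [hm]
  simp [h]

theorem rows_of_dev_zero {v : Mat K n} (h : dev v = 0) (i : Fin K) (l : Fin n) :
    v i l = mn v l := by
  unfold dev nsq at h
  have h1 := (Finset.sum_eq_zero_iff_of_nonneg (fun i _ =>
    Finset.sum_nonneg fun l _ => sq_nonneg (sh v (mn v) i l))).1 h i (Finset.mem_univ _)
  have h2 := (Finset.sum_eq_zero_iff_of_nonneg (fun l _ =>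
    sq_nonneg (sh v (mn v) i l))).1 h1 l (Finset.mem_univ _)
  have h3 : sh v (mn v) i l = 0 := by
    simpa using h2
  unfold sh at h3
  linarith

theorem continuousOn_xi (hXIL : Stmt_XIL) (hMET : Stmt_MET) {A : Set ℂ} {u : ℂ → Tup K n}
    (hu : ContG A u) : ContinuousOn (fun z => xi (u z)) A := by
  intro z hz
  refine tendsto_pi_nhds.2 fun i => tendsto_pi_nhds.2 fun l => ?_
  rw [tendsto_iff_dist_tendsto_zero]
  refine squeeze_zero (fun _ => dist_nonneg) (fun w => ?_) (hu z hz)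
  have h1 := (hXIL K n (u w) (u z)).1
  have h2 := (hMET K n (u w) (u z) (u z)).1
  rw [Real.dist_eq]
  refine abs_le_of_sq_le_sq' ?_ h2 |> fun h => abs_le.2 h
  refine le_trans ?_ h1
  unfold nsq
  have h3 : (xi (u w) i l - xi (u z) i l) ^ 2 ≤ ∑ l, (xi (u w) - xi (u z)) i l ^ 2 :=
    Finset.single_le_sum (f := fun l => (xi (u w) - xi (u z)) i l ^ 2)
      (fun l _ => sq_nonneg _) (Finset.mem_univ l)
  exact h3.trans (Finset.single_le_sum (f := fun i => ∑ l, (xi (u w) - xi (u z)) i l ^ 2)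
    (fun i _ => Finset.sum_nonneg fun l _ => sq_nonneg _) (Finset.mem_univ i))

theorem norm_hopf_le (v w : Mat K n) :
    ‖((dev v - dev w : ℝ) : ℂ) -
      2 * Complex.I * ((dt (sh v (mn v)) (sh w (mn w)) : ℝ) : ℂ)‖ ≤ dev v + dev w := by
  have h1 := dt_sq_le (sh v (mn v)) (sh w (mn w))
  change _ ≤ dev v * dev w at h1
  have h2 := dev_nonneg v
  have h3 := dev_nonneg w
  set c := dt (sh v (mn v)) (sh w (mn w)) with hc
  have h4 : ((dev v - dev w : ℝ) : ℂ) - 2 * Complex.I * ((c : ℝ) : ℂ) =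
      ⟨dev v - dev w, -2 * c⟩ := by
    apply Complex.ext <;> simp
  rw [h4, Complex.norm_def, Real.sqrt_le_left (by linarith), Complex.normSq_mk]
  nlinarith

theorem hopf_zero {v w : Mat K n} (h : ((dev v - dev w : ℝ) : ℂ) -
      2 * Complex.I * ((dt (sh v (mn v)) (sh w (mn w)) : ℝ) : ℂ) = 0) :
    dev v = dev w ∧ dt (sh v (mn v)) (sh w (mn w)) = 0 := by
  set c := dt (sh v (mn v)) (sh w (mn w)) with hc
  have h1 := congrArg Complex.re h
  have h2 := congrArg Complex.im h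
  simp at h1 h2
  exact ⟨by linarith, h2⟩

theorem real_mem_HDc {R x : ℝ} (h : |x| < R) : (x : ℂ) ∈ HDc 0 R := by
  refine ⟨by simp, ?_⟩
  simpa using h

theorem HD_sub_shift {x x' r : ℝ} (h : |x - x'| < r) : HD x r ⊆ HD x' (2 * r) := by
  intro z hz
  refine ⟨hz.1, ?_⟩
  have h1 : ‖(x : ℂ) - x'‖ = |x - x'| := by
    rw [← Complex.ofReal_sub, Complex.norm_real, Real.norm_eq_abs]
  calc ‖z - x'‖ = ‖(z - x) + ((x : ℂ) - x')‖ := by congr 1; ring
    _ ≤ ‖z - x‖ + ‖(x : ℂ) - x'‖ := norm_add_le _ _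
    _ < r + r := add_lt_add hz.2 (h1 ▸ h)
    _ = 2 * r := by ring

end UNQ_

open UNQ_ in
theorem unq_proof (hMET : Stmt_MET) (hXIL : Stmt_XIL) (hEND : Stmt_END) (_hGUN : Stmt_GUN)
    (_hGAL : Stmt_GAL) (hHOP : Stmt_HOP) (hMVB : Stmt_MVB) (hBIL : Stmt_BIL) (hPRI : Stmt_PRI)
    (hLOG : Stmt_LOG) (hBAR : Stmt_BAR) (hSPR : Stmt_SPR) : Stmt_UNQ := by
  intro K n Φ c1 R C κ u X Y hK hch hmin hcont hgrad hκ E1 hE1 hvol hE
  have hR := hch.hR
  have hC := hch.hC
  set H := Φ '' HD 0 R with hH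
  have hHo : IsOpen H := hch.opn _ Subset.rfl (isOpen_HD 0 R)
  have hΦc : ContinuousOn Φ (HDc 0 R) := by
    have : LipschitzOnWith (Real.toNNReal C) Φ (HDc 0 R) := by
      refine LipschitzOnWith.of_dist_le_mul fun z hz w hw => ?_
      rw [Real.coe_toNNReal _ (by linarith), dist_eq_norm, dist_eq_norm]
      exact hch.lip z hz w hw
    exact this.continuousOn
  have h0mem : ((0 : ℝ) : ℂ) ∈ HDc 0 R := real_mem_HDc (by simpa using hR)
  have hHb : Bornology.IsBounded H := by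
    refine (isBounded_closedBall (x := Φ ((0 : ℝ) : ℂ)) (r := C * R)).subset ?_
    rintro _ ⟨z, hz, rfl⟩
    rw [mem_closedBall, dist_eq_norm]
    refine (hch.lip z (HD_subset_HDc _ _ hz) _ h0mem).trans ?_
    have := hz.2
    gcongr
  have hHp : IsPreconnected H :=
    (convex_HD 0 R).isPreconnected.image _ (hΦc.mono (HD_subset_HDc _ _))
  -- the function f
  set f : ℂ → ℝ := fun z => dev (xi (u z)) with hf
  have hf0 : ∀ z, 0 ≤ f z := fun z => dev_nonneg _
  have hfc : ContinuousOn f (Φ '' HDc 0 R) :=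
    (continuous_dev (K := K) (n := n)).comp_continuousOn (continuousOn_xi hXIL hMET hcont)
  have hfr : ContinuousOn (fun x : ℝ => f (Φ x)) (Ioo (-R) R) := by
    have h1 : ContinuousOn (fun x : ℝ => Φ (x : ℂ)) (Ioo (-R) R) :=
      hΦc.comp Complex.continuous_ofReal.continuousOn fun x hx => real_mem_HDc (abs_lt.2 hx)
    exact hfc.comp h1 fun x hx => ⟨_, real_mem_HDc (abs_lt.2 hx), rfl⟩
  -- integrability
  set g : ℂ → ℝ := fun w => dev (X w) + dev (Y w) with hg
  have hg0 : ∀ w, 0 ≤ g w := fun w => add_nonneg (dev_nonneg _) (dev_nonneg _)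
  have hgm : AEStronglyMeasurable g (volume.restrict H) :=
    (aesm_dev fun i l => (hgrad i l).mx).add (aesm_dev fun i l => (hgrad i l).my)
  have hgi : IntegrableOn g H := by
    refine ⟨hgm, ?_⟩
    rw [hasFiniteIntegral_iff_ofReal (Eventually.of_forall hg0)]
    refine lt_of_le_of_lt (lintegral_mono fun w => ?_) (((hEND K n H u hHo).1 X Y hgrad) ▸ hmin.2.1)
    exact ENNReal.ofReal_le_ofReal (add_le_add (dev_le_nsq _) (dev_le_nsq _))
  set J : ℝ → ℝ → ℝ≥0∞ := fun x r => ∫⁻ w in Φ '' (HD x r ∩ HD 0 R), ENNReal.ofReal (g w) with hJ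
  -- the sets E_N
  set EN : ℕ → Set ℝ := fun N => {x | |x| ≤ R - 1 / ((N : ℝ) + 1) ∧ f (Φ x) = 0 ∧
    ∀ r, 0 < r → r < 1 / ((N : ℝ) + 1) → J x r ≤ ENNReal.ofReal ((N : ℝ) * r ^ (2 + κ))} with hEN
  have hcover : E1 ⊆ ⋃ N, EN N := by
    intro x hx
    obtain ⟨hall, N0, r0, hr0, hJx⟩ := hE x hx
    have hxR : |x| < R := abs_lt.2 (hE1 hx)
    obtain ⟨N, hN⟩ := exists_nat_gt (max N0 (max (1 / r0) (1 / (R - |x|))))
    have hN1 : N0 < N := (le_max_left _ _).trans_lt hN
    have hN2 : 1 / r0 < N := ((le_max_left _ _).trans (le_max_right _ _)).trans_lt hN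
    have hN3 : 1 / (R - |x|) < N := ((le_max_right _ _).trans (le_max_right _ _)).trans_lt hN
    have hNp : (0 : ℝ) < N := lt_trans (by positivity) hN2
    refine mem_iUnion.2 ⟨N, ?_, ?_, ?_⟩
    · have h1 : 0 < R - |x| := by linarith
      have h2 : 1 / ((N : ℝ) + 1) ≤ R - |x| := by
        rw [div_le_iff₀ (by positivity)]
        rw [div_lt_iff₀ h1] at hN3
        nlinarith
      linarith
    · have h1 := (hXIL K n (u (Φ x)) (u (Φ x))).2.2.2.2 (u (Φ x) ⟨0, hK⟩)
      exact dev_zero_of_rows hK (h1.1 fun i => hall i _)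
    · intro r hr hr1
      have h2 : 1 / ((N : ℝ) + 1) ≤ r0 := by
        rw [div_le_iff₀ (by positivity)]
        rw [div_lt_iff₀ hr0] at hN2
        nlinarith
      refine (hJx r hr (hr1.trans_le h2)).trans (ENNReal.ofReal_le_ofReal ?_)
      have : 0 ≤ r ^ (2 + κ) := by positivity
      nlinarith
  obtain ⟨N, hN⟩ : ∃ N, volume (EN N) ≠ 0 := by
    by_contra hcon
    push Not at hcon
    exact hvol (measure_mono_null hcover (measure_iUnion_null hcon))
  have hENsub : EN N ⊆ Icc (-(R - 1 / ((N : ℝ) + 1))) (R - 1 / ((N : ℝ) + 1)) :=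
    fun x hx => abs_le.1 hx.1
  set E := closure (EN N) with hEdef
  have hEsub : E ⊆ Icc (-(R - 1 / ((N : ℝ) + 1))) (R - 1 / ((N : ℝ) + 1)) :=
    closure_minimal hENsub isClosed_Icc
  have hEc : IsCompact E := isCompact_Icc.of_isClosed_subset isClosed_closure hEsub
  have hδ : 0 < 1 / ((N : ℝ) + 1) := by positivity
  have hEIoo : E ⊆ Ioo (-R) R := by
    intro x hx
    have := hEsub hx
    exact ⟨by linarith [this.1], by linarith [this.2]⟩
  have hEvol : 0 < volume E :=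
    lt_of_lt_of_le (pos_iff_ne_zero.2 hN) (measure_mono subset_closure)
  have hEf : ∀ x ∈ E, f (Φ x) = 0 := by
    intro x hx
    obtain ⟨s, hs1, hs2⟩ := mem_closure_iff_seq_limit.1 hx
    have h1 : ContinuousAt (fun x : ℝ => f (Φ x)) x :=
      hfr.continuousAt (isOpen_Ioo.mem_nhds (hEIoo hx))
    have h2 := h1.tendsto.comp hs2
    have h3 : ((fun x : ℝ => f (Φ x)) ∘ s) = fun _ => 0 := funext fun j => (hs1 j).2.1
    rw [h3] at h2
    exact (tendsto_nhds_unique tendsto_const_nhds h2).symm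
  have hEJ : ∀ x ∈ E, ∀ r, 0 < r → 2 * r < 1 / ((N : ℝ) + 1) →
      J x r ≤ ENNReal.ofReal ((N : ℝ) * (2 * r) ^ (2 + κ)) := by
    intro x hx r hr hr1
    obtain ⟨x', hx', hxx⟩ := Metric.mem_closure_iff.1 hx r hr
    rw [Real.dist_eq] at hxx
    refine le_trans ?_ (hx'.2.2 (2 * r) (by linarith) hr1)
    exact lintegral_mono_set (image_mono (inter_subset_inter_left _ (HD_sub_shift hxx)))
  -- the Hopf differential
  obtain ⟨G, hGd, hGae⟩ := hHOP K n H u X Y hK hHo hHb hmin hgrad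
  have hGle : ∀ᵐ z : ℂ, z ∈ H → ‖G z‖ ≤ g z := by
    filter_upwards [hGae] with z hz hzH
    rw [hz hzH]
    exact norm_hopf_le _ _
  set δ := 1 / ((N : ℝ) + 1) with hδdef
  set r0 : ℝ := δ / 4 with hr0
  have hr0p : 0 < r0 := by positivity
  set N' : ℝ := (Real.pi * (1 / (4 * C)) ^ 2)⁻¹ * (N * 3 ^ (2 + κ)) with hN'
  have hGdec : ∀ x ∈ E, ∀ ζ ∈ HD 0 R, ‖ζ - x‖ ≤ 2 * ζ.im → ‖ζ - x‖ < r0 →
      ‖G (Φ ζ)‖ ≤ N' * ‖ζ - x‖ ^ κ := by
    intro x hx ζ hζ hζ1 hζ2
    set s := ‖ζ - x‖ with hs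
    have him : 0 < ζ.im := hζ.1
    have hims : ζ.im ≤ s := by
      have := Complex.abs_im_le_norm (ζ - x)
      simp only [Complex.sub_im, Complex.ofReal_im, sub_zero, abs_of_pos him] at this
      exact this
    have hsp : 0 < s := him.trans_le hims
    set ρ := ζ.im / 2 with hρ
    have hρp : 0 < ρ := by positivity
    have hxabs : |x| ≤ R - δ := abs_le.2 (hEsub hx)
    have hsub1 : closedBall ζ ρ ⊆ HD x (3 / 2 * s + r0 / 8) ∩ HD 0 R := by
      intro w hw
      rw [mem_closedBall, dist_eq_norm] at hw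
      have hwim : 0 < w.im := by
        have h1 := Complex.abs_im_le_norm (w - ζ)
        rw [Complex.sub_im] at h1
        have h2 := (abs_le.1 (h1.trans hw)).1
        linarith
      have hwx : ‖w - x‖ ≤ 3 / 2 * s := by
        calc ‖w - x‖ = ‖(w - ζ) + (ζ - x)‖ := by congr 1; ring
          _ ≤ ‖w - ζ‖ + ‖ζ - x‖ := norm_add_le _ _
          _ ≤ ρ + s := add_le_add hw le_rfl
          _ ≤ 3 / 2 * s := by linarith
      refine ⟨⟨hwim, by linarith⟩, hwim, ?_⟩
      have h3 : ‖(x : ℂ)‖ = |x| := by simp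
      calc ‖w - ((0 : ℝ) : ℂ)‖ = ‖(w - x) + x‖ := by congr 1; simp
        _ ≤ ‖w - x‖ + ‖(x : ℂ)‖ := norm_add_le _ _
        _ < R := by rw [h3]; linarith
    have hsub2 : ball ζ ρ ⊆ HD x (3 / 2 * s) ∩ HD 0 R := by
      intro w hw
      have hw' := (hsub1 (ball_subset_closedBall hw)).2
      refine ⟨⟨hw'.1, ?_⟩, hw'⟩
      rw [mem_ball, dist_eq_norm] at hw
      calc ‖w - x‖ = ‖(w - ζ) + (ζ - x)‖ := by congr 1; ring
        _ ≤ ‖w - ζ‖ + ‖ζ - x‖ := norm_add_le _ _
        _ < ρ + s := add_lt_add_of_lt_of_le hw le_rfl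
        _ ≤ 3 / 2 * s := by linarith
    have hball := hBIL Φ c1 R C hch ζ ρ hρp (hsub1.trans inter_subset_right)
    have hballJ : ball (Φ ζ) (ρ / C) ⊆ Φ '' (HD x (3 / 2 * s) ∩ HD 0 R) :=
      hball.trans (image_mono hsub2)
    have hballH : ball (Φ ζ) (ρ / C) ⊆ H :=
      hballJ.trans (image_mono inter_subset_right)
    have h1 := hMVB H G g hHo hGd hgi hGle (Φ ζ) (ρ / C) (by positivity) hballH
    have h2 : ∫ w in ball (Φ ζ) (ρ / C), g w ≤ N * (3 * s) ^ (2 + κ) := by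
      rw [integral_eq_lintegral_of_nonneg_ae (Eventually.of_forall hg0)
        (hgm.mono_measure (Measure.restrict_mono hballH le_rfl))]
      refine ENNReal.toReal_le_of_le_ofReal (by positivity) ?_
      refine (lintegral_mono_set hballJ).trans ?_
      have := hEJ x hx (3 / 2 * s) (by positivity) (by linarith)
      rwa [show 2 * (3 / 2 * s) = 3 * s by ring] at this
    refine h1.trans ?_
    have hCp : 0 < C := by linarith
    have h3 : (Real.pi * (ρ / C) ^ 2)⁻¹ ≤ (Real.pi * (1 / (4 * C)) ^ 2)⁻¹ * (s ^ 2)⁻¹ := by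
      rw [← mul_inv]
      apply inv_anti₀ (by positivity)
      have h4 : 1 / (4 * C) * s ≤ ρ / C := by
        rw [div_mul_eq_mul_div, one_mul, div_le_div_iff₀ (by positivity) hCp]
        nlinarith
      calc Real.pi * (1 / (4 * C)) ^ 2 * s ^ 2 = Real.pi * (1 / (4 * C) * s) ^ 2 := by ring
        _ ≤ Real.pi * (ρ / C) ^ 2 := by gcongr
    have h5 : (3 * s) ^ (2 + κ) = 3 ^ (2 + κ) * (s ^ 2 * s ^ κ) := by
      rw [Real.mul_rpow (by norm_num) hsp.le, Real.rpow_add hsp, Real.rpow_two]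
    have hI0 : 0 ≤ ∫ w in ball (Φ ζ) (ρ / C), g w := integral_nonneg hg0
    calc (Real.pi * (ρ / C) ^ 2)⁻¹ * ∫ w in ball (Φ ζ) (ρ / C), g w
        ≤ ((Real.pi * (1 / (4 * C)) ^ 2)⁻¹ * (s ^ 2)⁻¹) * (N * (3 * s) ^ (2 + κ)) := by
          gcongr
      _ = N' * s ^ κ := by
          rw [h5, hN']
          field_simp
  have hG0 := hPRI Φ c1 R C hch G hGd E N' κ r0 hEc hEIoo hEvol hκ hr0p hGdec
  -- logarithm
  have hae : ∀ᵐ z : ℂ, z ∈ H → dev (X z) = dev (Y z) ∧
      dt (sh (X z) (mn (X z))) (sh (Y z) (mn (Y z))) = 0 := by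
    filter_upwards [hGae] with z hz hzH
    have h1 := hz hzH
    rw [hG0 z hzH] at h1
    exact hopf_zero h1.symm
  have hlog := hLOG K n H u X Y hK hHo hmin hgrad hae
  have hV := hBAR Φ c1 R C hch f hf0 hfc hlog E hEc hEIoo hEvol hEf
  have hfin := hSPR H f hHo hHp hf0 (hfc.mono (image_mono (HD_subset_HDc _ _))) hlog hV
  intro z hz i j
  have h1 : dev (xi (u z)) = 0 := hfin z hz
  have h2 := rows_of_dev_zero h1
  have h3 := (hXIL K n (u z) (u z)).2.2.2.2
    (WithLp.toLp 2 (mn (xi (u z))))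
  have h4 := h3.2 fun i l => h2 i l
  rw [h4 i, h4 j]

end Pool.Agent.DMB
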