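import Pool.Agent.DMB.Api

set_option autoImplicit false

namespace Pool.Agent.DMB
open MeasureTheory Metric Set Filter
open scoped Topology Convolution

namespace WEY_

/-- radial bump -/
noncomputable def bb (δ : ℝ) (z : ℂ) : ℝ := Real.smoothTransition (1 - ‖z‖ ^ 2 / δ ^ 2)

noncomputable def nb (δ : ℝ) : ℝ := ∫ z : ℂ, bb δ z

noncomputable def rr (δ : ℝ) (z : ℂ) : ℝ := bb δ z / nb δ

lemma bb_contDiff (δ : ℝ) : ContDiff ℝ (⊤ : ℕ∞) (bb δ) := by
  unfold bb
  exact Real.smoothTransition.contDiff.comp (contDiff_const.sub ((contDiff_norm_sq ℝ).div_const _))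

lemma bb_nonneg (δ : ℝ) (z : ℂ) : 0 ≤ bb δ z := Real.smoothTransition.nonneg _

lemma bb_le_one (δ : ℝ) (z : ℂ) : bb δ z ≤ 1 := Real.smoothTransition.le_one _

lemma bb_zero {δ : ℝ} (hδ : 0 < δ) {z : ℂ} (h : δ ≤ ‖z‖) : bb δ z = 0 := by
  unfold bb
  apply Real.smoothTransition.zero_of_nonpos
  have : 1 ≤ ‖z‖ ^ 2 / δ ^ 2 := by
    rw [le_div_iff₀ (by positivity)]
    nlinarith [norm_nonneg z]
  linarith

lemma bb_compact {δ : ℝ} (hδ : 0 < δ) : HasCompactSupport (bb δ) := by
  refine HasCompactSupport.intro (isCompact_closedBall (0 : ℂ) δ) fun z hz => bb_zero hδ ?_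
  rw [mem_closedBall, dist_zero_right] at hz
  exact (not_le.1 hz).le

lemma nb_pos {δ : ℝ} (hδ : 0 < δ) : 0 < nb δ := by
  unfold nb
  refine Continuous.integral_pos_of_hasCompactSupport_nonneg_nonzero (x := (0:ℂ)) (bb_contDiff δ).continuous
    (bb_compact hδ) (bb_nonneg δ) ?_
  unfold bb
  have : (0:ℝ) < Real.smoothTransition (1 - ‖(0:ℂ)‖ ^ 2 / δ ^ 2) := by
    apply Real.smoothTransition.pos_of_pos
    simp
  exact this.ne'

lemma rr_contDiff (δ : ℝ) : ContDiff ℝ (⊤ : ℕ∞) (rr δ) := by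
  unfold rr
  exact (bb_contDiff δ).div_const _

lemma rr_nonneg (δ : ℝ) (hδ : 0 < δ) (z : ℂ) : 0 ≤ rr δ z :=
  div_nonneg (bb_nonneg δ z) (nb_pos hδ).le

lemma rr_zero {δ : ℝ} (hδ : 0 < δ) {z : ℂ} (h : δ ≤ ‖z‖) : rr δ z = 0 := by
  unfold rr
  rw [bb_zero hδ h, zero_div]

lemma rr_compact {δ : ℝ} (hδ : 0 < δ) : HasCompactSupport (rr δ) := by
  refine HasCompactSupport.intro (isCompact_closedBall (0 : ℂ) δ) fun z hz => rr_zero hδ ?_
  rw [mem_closedBall, dist_zero_right] at hz
  exact (not_le.1 hz).le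

lemma rr_integral {δ : ℝ} (hδ : 0 < δ) : ∫ z : ℂ, rr δ z = 1 := by
  unfold rr
  rw [integral_div]
  exact div_self (nb_pos hδ).ne'

lemma rr_norm {δ : ℝ} {z w : ℂ} (h : ‖z‖ = ‖w‖) : rr δ z = rr δ w := by
  unfold rr bb
  rw [h]

/-- the mollification -/
noncomputable def cv (δ : ℝ) (F : ℂ → ℂ) : ℂ → ℂ :=
  F ⋆[(ContinuousLinearMap.lsmul ℝ ℝ).flip, volume] rr δ

lemma cv_apply (δ : ℝ) (F : ℂ → ℂ) (z : ℂ) : cv δ F z = ∫ t, rr δ (z - t) • F t := by
  unfold cv
  rw [convolution_def]
  rfl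

lemma nb_scale {δ : ℝ} (hδ : 0 < δ) : nb δ = δ ^ 2 * nb 1 := by
  have h := Measure.integral_comp_smul (volume : Measure ℂ) (bb 1) δ⁻¹
  have h1 : (fun z : ℂ => bb 1 (δ⁻¹ • z)) = bb δ := by
    funext z
    unfold bb
    congr 1
    rw [norm_smul, Real.norm_of_nonneg (by positivity)]
    field_simp
  rw [h1] at h
  unfold nb
  rw [h, Complex.finrank_real_complex, smul_eq_mul]
  congr 1
  rw [abs_of_nonneg (by positivity)]
  field_simp

lemma cv_tendsto (F : ℂ → ℂ) (hF : Integrable F) (d : ℕ → ℝ) (hd : ∀ n, 0 < d n)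
    (hd0 : Tendsto d atTop (𝓝 0)) :
    ∀ᵐ z : ℂ, Tendsto (fun n => cv (d n) F z) atTop (𝓝 (F z)) := by
  filter_upwards [(Besicovitch.vitaliFamily (volume : Measure ℂ)).ae_tendsto_average_norm_sub
    hF.locallyIntegrable] with x₀ h₀
  have hd' : Tendsto d atTop (𝓝[>] 0) :=
    tendsto_nhdsWithin_iff.2 ⟨hd0, Eventually.of_forall hd⟩
  have h1 := (h₀.comp (Besicovitch.tendsto_filterAt volume x₀)).comp hd'
  simp only [cv_apply]
  refine tendsto_integral_smul_of_tendsto_average_norm_sub (Real.pi / nb 1) h1 ?_ ?_ ?_ ?_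
  · exact Eventually.of_forall fun i => hF.integrableOn
  · refine tendsto_const_nhds.congr fun i => ?_
    have : ∫ y : ℂ, rr (d i) (x₀ - y) = ∫ y : ℂ, rr (d i) y :=
      integral_sub_left_eq_self (fun y => rr (d i) y) volume x₀
    rw [this, rr_integral (hd i)]
  · refine Eventually.of_forall fun i => ?_
    intro y hy
    rw [Function.mem_support] at hy
    by_contra hc
    apply hy
    apply rr_zero (hd i)
    simp only [mem_closedBall, not_le] at hc
    rw [dist_comm, dist_eq_norm] at hc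
    exact hc.le
  · refine Eventually.of_forall fun i y => ?_
    rw [abs_of_nonneg (rr_nonneg _ (hd i) _)]
    have hv : volume.real (closedBall x₀ (d i)) = Real.pi * (d i) ^ 2 := by
      rw [measureReal_def, Complex.volume_closedBall]
      simp only [ENNReal.toReal_mul, ENNReal.toReal_pow, ENNReal.toReal_ofReal (hd i).le]
      rw [ENNReal.coe_toReal, NNReal.coe_real_pi]
      ring
    rw [hv]
    unfold rr
    rw [nb_scale (hd i)]
    have h2 := hd i
    have h3 := nb_pos (one_pos)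
    have h4 := bb_le_one (d i) (x₀ - y)
    have h5 : Real.pi / nb 1 / (Real.pi * d i ^ 2) = 1 / (d i ^ 2 * nb 1) := by
      have := Real.pi_pos
      field_simp
    rw [h5]
    gcongr

lemma cv_hasFDerivAt {δ : ℝ} (hδ : 0 < δ) {F : ℂ → ℂ} (hF : LocallyIntegrable F) (z : ℂ) :
    ∃ L : ℂ →L[ℝ] ℂ, HasFDerivAt (cv δ F) L z ∧
      ∀ v : ℂ, L v = ∫ t, (fderiv ℝ (rr δ) (z - t) v) • F t := by
  have h1 : ContDiff ℝ 1 (rr δ) := (rr_contDiff δ).of_le (by exact_mod_cast le_top)
  refine ⟨_, (rr_compact hδ).hasFDerivAt_convolution_right _ hF h1 z, fun v => ?_⟩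
  rw [convolution_precompR_apply _ hF ((rr_compact hδ).fderiv ℝ) (h1.continuous_fderiv one_ne_zero),
    convolution_def]
  rfl

lemma cv_continuous {δ : ℝ} (hδ : 0 < δ) {F : ℂ → ℂ} (hF : LocallyIntegrable F) :
    Continuous (cv δ F) := by
  rw [continuous_iff_continuousAt]
  intro z
  obtain ⟨L, hL, -⟩ := cv_hasFDerivAt hδ hF z
  exact hL.continuousAt

/-- integrability of a bounded continuous function times an integrable one -/
lemma int_smul {g : ℂ → ℝ} (hg : Continuous g) (hc : HasCompactSupport g) {F : ℂ → ℂ}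
    (hF : Integrable F) : Integrable (fun t => g t • F t) := by
  obtain ⟨C, hC⟩ := hg.bounded_above_of_compact_support hc
  exact hF.bdd_smul C hg.aestronglyMeasurable (Eventually.of_forall hC)

lemma cv_cr {δ : ℝ} (hδ : 0 < δ) {H : Set ℂ} (hH : IsOpen H) {Ψ : ℂ → ℂ} (hΨ : IntegrableOn Ψ H)
    (hw : ∀ ζ : ℂ → ℝ, TF H ζ → ∫ z in H, Ψ z *
      ((fderiv ℝ ζ z 1 : ℂ) + Complex.I * (fderiv ℝ ζ z Complex.I : ℂ)) = 0)
    {z : ℂ} (hz : closedBall z δ ⊆ H) : DifferentiableAt ℂ (cv δ (H.indicator Ψ)) z := by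
  have hF : Integrable (H.indicator Ψ) := (integrable_indicator_iff hH.measurableSet).2 hΨ
  obtain ⟨L, hL, hLv⟩ := cv_hasFDerivAt hδ hF.locallyIntegrable z
  rw [differentiableAt_complex_iff_differentiableAt_real]
  refine ⟨hL.differentiableAt, ?_⟩
  rw [hL.fderiv, hLv, hLv]
  have h1 : ContDiff ℝ 1 (rr δ) := (rr_contDiff δ).of_le (by exact_mod_cast le_top)
  -- the test function
  have hζ : TF H (fun t => rr δ (z - t)) := by
    refine ⟨(rr_contDiff δ).comp (contDiff_const.sub contDiff_id), ?_, ?_⟩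
    · refine HasCompactSupport.intro (isCompact_closedBall z δ) fun t ht => rr_zero hδ ?_
      rw [mem_closedBall, dist_comm, dist_eq_norm] at ht
      exact (not_le.1 ht).le
    · refine (closure_minimal ?_ isClosed_closedBall).trans hz
      intro t ht
      rw [Function.mem_support] at ht
      by_contra hc
      apply ht
      apply rr_zero hδ
      rw [mem_closedBall, dist_comm, dist_eq_norm] at hc
      exact (not_le.1 hc).le
  have hd : ∀ t v : ℂ, fderiv ℝ (fun t => rr δ (z - t)) t v = - fderiv ℝ (rr δ) (z - t) v := by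
    intro t v
    have ha : HasFDerivAt (fun t : ℂ => z - t) (-(ContinuousLinearMap.id ℝ ℂ)) t := by
      simpa using (hasFDerivAt_id (𝕜 := ℝ) t).const_sub z
    have hb : HasFDerivAt (rr δ) (fderiv ℝ (rr δ) (z - t)) (z - t) :=
      ((h1.differentiable one_ne_zero) (z - t)).hasFDerivAt
    have hc := hb.comp t ha
    have hc' : fderiv ℝ (fun t => rr δ (z - t)) t = (fderiv ℝ (rr δ) (z - t)).comp (-(ContinuousLinearMap.id ℝ ℂ)) :=
      hc.fderiv
    rw [hc']
    simp
  have h2 := hw _ hζ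
  rw [← integral_indicator hH.measurableSet] at h2
  have hcf : ∀ v : ℂ, Continuous (fun t => fderiv ℝ (rr δ) (z - t) v) := fun v =>
    ((h1.continuous_fderiv one_ne_zero).comp (continuous_const.sub continuous_id)).clm_apply continuous_const
  have hcs : ∀ v : ℂ, HasCompactSupport (fun t => fderiv ℝ (rr δ) (z - t) v) := by
    intro v
    refine HasCompactSupport.intro (isCompact_closedBall z δ) fun t ht => ?_
    have hnot : z - t ∉ tsupport (rr δ) := by
      intro hmem
      have hsub : tsupport (rr δ) ⊆ closedBall 0 δ := by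
        refine closure_minimal ?_ isClosed_closedBall
        intro y hy
        rw [Function.mem_support] at hy
        by_contra hc
        apply hy
        apply rr_zero hδ
        rw [mem_closedBall, dist_zero_right] at hc
        exact (not_le.1 hc).le
      have := hsub hmem
      rw [mem_closedBall, dist_zero_right] at this
      apply ht
      rwa [mem_closedBall, dist_comm, dist_eq_norm]
    have h0 : fderiv ℝ (rr δ) (z - t) = 0 := by
      have := support_fderiv_subset ℝ (f := rr δ)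
      by_contra hne
      exact hnot (this hne)
    rw [h0]
    rfl
  have hi1 := int_smul (hcf 1) (hcs 1) hF
  have hi2 := int_smul (hcf Complex.I) (hcs Complex.I) hF
  have h3 : (∫ t, (fderiv ℝ (rr δ) (z - t) 1) • H.indicator Ψ t) +
      Complex.I * ∫ t, (fderiv ℝ (rr δ) (z - t) Complex.I) • H.indicator Ψ t = 0 := by
    rw [← integral_const_mul, ← integral_add hi1 (hi2.const_mul _), ← neg_eq_zero, ← integral_neg, ← h2]
    refine integral_congr_ae (Eventually.of_forall fun t => ?_)
    by_cases ht : t ∈ H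
    · simp only [Set.indicator_of_mem ht, hd, Complex.real_smul]
      push_cast
      ring
    · simp [Set.indicator_of_notMem ht]
  have h4 := congrArg (fun w => Complex.I * w) h3
  simp only [mul_add, mul_zero, ← mul_assoc, Complex.I_mul_I] at h4
  rw [smul_eq_mul]
  linear_combination -h4

/-- the radial profile -/
noncomputable def pf (δ s : ℝ) : ℝ := Real.smoothTransition (1 - s ^ 2 / δ ^ 2) / nb δ

lemma rr_eq_pf {δ : ℝ} (z : ℂ) : rr δ z = pf δ ‖z‖ := rfl

lemma pf_continuous (δ : ℝ) : Continuous (pf δ) := by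
  unfold pf
  exact (Real.smoothTransition.continuous.comp (by fun_prop)).div_const _

lemma pf_zero {δ : ℝ} (hδ : 0 < δ) {s : ℝ} (h : δ ≤ s) : pf δ s = 0 := by
  unfold pf
  rw [Real.smoothTransition.zero_of_nonpos, zero_div]
  have : 1 ≤ s ^ 2 / δ ^ 2 := by
    rw [le_div_iff₀ (by positivity)]
    nlinarith
  linarith

lemma angle_int {h : ℂ → ℂ} (hc : Continuous h) {z : ℂ} {R : ℝ} (hd : DifferentiableOn ℂ h (ball z R))
    {s : ℝ} (hs : 0 < s) (hsR : s < R) :
    ∫ θ in Ioo (-Real.pi) Real.pi, h (circleMap z s θ) = (2 * Real.pi) • h z := by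
  have h1 : DiffContOnCl ℂ h (ball z |s|) := by
    refine ⟨hd.mono ?_, hc.continuousOn⟩
    rw [abs_of_pos hs]
    exact ball_subset_ball hsR.le
  have h2 := h1.circleAverage
  rw [Real.circleAverage_def] at h2
  have hper : Function.Periodic (fun θ => h (circleMap z s θ)) (2 * Real.pi) := by
    intro θ
    simp only
    rw [periodic_circleMap z s θ]
  have h3 := hper.intervalIntegral_add_eq 0 (-Real.pi)
  have e1 : (0:ℝ) + 2 * Real.pi = 2 * Real.pi := by ring
  have e2 : -Real.pi + 2 * Real.pi = Real.pi := by ring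
  rw [e1, e2] at h3
  rw [← integral_Ioc_eq_integral_Ioo, ← intervalIntegral.integral_of_le (by linarith [Real.pi_pos]), ← h3,
    ← h2, smul_smul, mul_inv_cancel₀ (by positivity), one_smul]

lemma polar_form {δ : ℝ} (hδ : 0 < δ) {h : ℂ → ℂ} (hc : Continuous h) {z : ℂ} {R : ℝ}
    (hd : DifferentiableOn ℂ h (ball z R)) (hR : δ < R) :
    ∫ w, rr δ w • h (z + w) = (∫ s in Ioi (0:ℝ), s * pf δ s * (2 * Real.pi)) • h z := by
  rw [← Complex.integral_comp_polarCoord_symm, polarCoord_target]
  have e1 : ∀ p ∈ Ioi (0 : ℝ) ×ˢ Ioo (-Real.pi) Real.pi,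
      p.1 • (rr δ (Complex.polarCoord.symm p) • h (z + Complex.polarCoord.symm p)) =
      (p.1 * pf δ p.1) • h (circleMap z p.1 p.2) := by
    intro p hp
    have hp1 : 0 < p.1 := hp.1
    have h1 : rr δ (Complex.polarCoord.symm p) = pf δ p.1 := by
      rw [rr_eq_pf, Complex.norm_polarCoord_symm, abs_of_pos hp1]
    have h2 : z + Complex.polarCoord.symm p = circleMap z p.1 p.2 := by
      rw [Complex.polarCoord_symm_apply, circleMap, Complex.exp_mul_I]
      push_cast
      rfl
    rw [h1, h2, smul_smul]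
  rw [setIntegral_congr_fun (measurableSet_Ioi.prod measurableSet_Ioo) e1]
  have hcont : Continuous (fun p : ℝ × ℝ => (p.1 * pf δ p.1) • h (circleMap z p.1 p.2)) := by
    have hm : Continuous (fun p : ℝ × ℝ => circleMap z p.1 p.2) := by
      unfold circleMap
      fun_prop
    have hp := pf_continuous δ
    exact (continuous_fst.mul (hp.comp continuous_fst)).smul (hc.comp hm)
  have hint : IntegrableOn (fun p : ℝ × ℝ => (p.1 * pf δ p.1) • h (circleMap z p.1 p.2))
      (Ioi (0 : ℝ) ×ˢ Ioo (-Real.pi) Real.pi) (volume.prod volume) := by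
    have hK : IntegrableOn (fun p : ℝ × ℝ => (p.1 * pf δ p.1) • h (circleMap z p.1 p.2))
        (Icc (0:ℝ) δ ×ˢ Icc (-Real.pi) Real.pi) (volume.prod volume) :=
      hcont.continuousOn.integrableOn_compact (isCompact_Icc.prod isCompact_Icc)
    have hZ : IntegrableOn (fun p : ℝ × ℝ => (p.1 * pf δ p.1) • h (circleMap z p.1 p.2))
        (Ioi δ ×ˢ Ioo (-Real.pi) Real.pi) (volume.prod volume) := by
      refine (integrableOn_zero (ε' := ℂ)).congr_fun (g := fun p : ℝ × ℝ => (p.1 * pf δ p.1) • h (circleMap z p.1 p.2)) ?_ (measurableSet_Ioi.prod measurableSet_Ioo)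
      intro p hp
      have hp1 : δ < p.1 := hp.1
      simp [pf_zero hδ hp1.le]
    refine (hK.union hZ).mono_set ?_
    rintro ⟨s, θ⟩ ⟨hs, hθ⟩
    by_cases hsd : s ≤ δ
    · exact Or.inl ⟨⟨(mem_Ioi.1 hs).le, hsd⟩, ⟨hθ.1.le, hθ.2.le⟩⟩
    · exact Or.inr ⟨not_le.1 hsd, hθ⟩
  rw [Measure.volume_eq_prod, setIntegral_prod _ hint, ← integral_smul_const]
  refine setIntegral_congr_fun measurableSet_Ioi fun s hs => ?_
  have hs0 : 0 < s := hs
  simp only
  rw [integral_smul]
  by_cases hsd : s < δ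
  · rw [angle_int hc hd hs0 (hsd.trans hR), smul_smul]
  · rw [pf_zero hδ (not_lt.1 hsd)]
    simp

lemma kappa {δ : ℝ} (hδ : 0 < δ) : (∫ s in Ioi (0:ℝ), s * pf δ s * (2 * Real.pi)) = 1 := by
  have h := polar_form hδ (h := fun _ => (1:ℂ)) continuous_const (z := 0) (R := δ + 1)
    (differentiableOn_const _) (by linarith)
  have h2 : ∫ w : ℂ, rr δ w • (1:ℂ) = 1 := by
    rw [integral_smul_const, rr_integral hδ, one_smul]
  rw [h2] at h
  have h3 : ((∫ s in Ioi (0:ℝ), s * pf δ s * (2 * Real.pi) : ℝ) : ℂ) = 1 := by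
    rw [Complex.real_smul, mul_one] at h
    exact h.symm
  exact_mod_cast h3

lemma mean_value {δ : ℝ} (hδ : 0 < δ) {h : ℂ → ℂ} (hc : Continuous h) {z : ℂ} {R : ℝ}
    (hd : DifferentiableOn ℂ h (ball z R)) (hR : δ < R) : cv δ h z = h z := by
  rw [cv_apply, ← integral_add_left_eq_self (fun t => rr δ (z - t) • h t) z]
  have e : (fun w => rr δ (z - (z + w)) • h (z + w)) = fun w => rr δ w • h (z + w) := by
    funext w
    rw [rr_norm (z := z - (z + w)) (w := w)]
    rw [show z - (z + w) = -w by ring, norm_neg]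
  rw [e, polar_form hδ hc hd hR, kappa hδ, one_smul]

lemma cv_comm {δ δ' : ℝ} (hδ : 0 < δ) (hδ' : 0 < δ') {F : ℂ → ℂ} (hF : Integrable F) (z : ℂ) :
    cv δ (cv δ' F) z = cv δ' (cv δ F) z := by
  have key : ∀ {a b : ℝ}, 0 < a → 0 < b → cv a (cv b F) z =
      (F ⋆[(ContinuousLinearMap.lsmul ℝ ℝ).flip, volume] (rr b ⋆[ContinuousLinearMap.mul ℝ ℝ, volume] rr a)) z := by
    intro a b ha hb
    unfold cv
    refine convolution_assoc _ _ _ _ ?_ hF.aestronglyMeasurable
      (rr_contDiff b).continuous.aestronglyMeasurable (rr_contDiff a).continuous.aestronglyMeasurable ?_ ?_ ?_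
    · intro x y w
      simp only [ContinuousLinearMap.flip_apply, ContinuousLinearMap.lsmul_apply, ContinuousLinearMap.mul_apply']
      rw [smul_smul, mul_comm]
    · refine Eventually.of_forall fun y => ?_
      exact (rr_compact hb).convolutionExists_right _ hF.locallyIntegrable (rr_contDiff b).continuous y
    · refine Eventually.of_forall fun y => ?_
      exact (rr_compact ha).norm.convolutionExists_right _ (rr_contDiff b).continuous.norm.locallyIntegrable
        (rr_contDiff a).continuous.norm y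
    · have hcs : HasCompactSupport ((fun x => ‖rr b x‖) ⋆[ContinuousLinearMap.mul ℝ ℝ, volume] fun x => ‖rr a x‖) :=
        (rr_compact hb).norm.convolution _ (rr_compact ha).norm
      have hct : Continuous ((fun x => ‖rr b x‖) ⋆[ContinuousLinearMap.mul ℝ ℝ, volume] fun x => ‖rr a x‖) :=
        (rr_compact ha).norm.continuous_convolution_right _ (rr_contDiff b).continuous.norm.locallyIntegrable
          (rr_contDiff a).continuous.norm
      exact hcs.convolutionExists_right _ hF.norm.locallyIntegrable hct z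
  rw [key hδ hδ', key hδ' hδ]
  congr 1
  have hfl : (ContinuousLinearMap.mul ℝ ℝ).flip = ContinuousLinearMap.mul ℝ ℝ := by
    ext
    simp
  have := convolution_flip (L := ContinuousLinearMap.mul ℝ ℝ) (f := rr δ) (g := rr δ') (μ := (volume : Measure ℂ))
  rw [hfl] at this
  rw [this]

end WEY_

open WEY_ in
theorem wey_proof : Stmt_WEY := by
  intro H Ψ hH hΨ hw
  set F : ℂ → ℂ := H.indicator Ψ with hFdef
  have hF : Integrable F := (integrable_indicator_iff hH.measurableSet).2 hΨ
  -- holomorphy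
  have hol : ∀ (z : ℂ) (δ : ℝ), 0 < δ → closedBall z δ ⊆ H → DifferentiableAt ℂ (cv δ F) z :=
    fun z δ hδ hz => cv_cr hδ hH hΨ hw hz
  -- consistency
  have one : ∀ (z : ℂ) (ε δ δ' : ℝ), ball z ε ⊆ H → 0 < δ → 0 < δ' → δ + δ' < ε →
      cv δ' (cv δ F) z = cv δ F z := by
    intro z ε δ δ' hz hδ hδ' hs
    refine mean_value hδ' (cv_continuous hδ hF.locallyIntegrable) (R := ε - δ) ?_ (by linarith)
    intro w hw'
    refine (hol w δ hδ ?_).differentiableWithinAt
    intro y hy
    apply hz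
    rw [mem_ball] at hw' ⊢
    rw [mem_closedBall] at hy
    have := dist_triangle y w z
    linarith
  have two : ∀ (z : ℂ) (ε δ δ' : ℝ), ball z ε ⊆ H → 0 < δ → 0 < δ' → δ + δ' < ε →
      cv δ F z = cv δ' F z := by
    intro z ε δ δ' hz hδ hδ' hs
    rw [← one z ε δ δ' hz hδ hδ' hs, cv_comm hδ' hδ hF, one z ε δ' δ hz hδ' hδ (by linarith)]
  set d : ℕ → ℝ := fun n => 1 / ((n:ℝ) + 1) with hd
  have hdpos : ∀ n, 0 < d n := fun n => by
    rw [hd]
    positivity
  have hd0 : Tendsto d atTop (𝓝 0) := tendsto_one_div_add_atTop_nhds_zero_nat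
  set G : ℂ → ℂ := fun z => limUnder atTop (fun n => cv (d n) F z) with hG
  refine ⟨G, ?_, ?_⟩
  · intro z0 hz0
    obtain ⟨ε, hε, hball⟩ := Metric.isOpen_iff.1 hH z0 hz0
    have hev : ∀ᶠ n in atTop, d n < ε / 4 := (tendsto_order.1 hd0).2 _ (by positivity)
    obtain ⟨N, hN⟩ := eventually_atTop.1 hev
    have hloc : ∀ z ∈ ball z0 (ε / 2), G z = cv (d N) F z := by
      intro z hz
      have hzb : ball z (ε / 2) ⊆ H := by
        intro y hy
        apply hball
        rw [mem_ball] at hy hz ⊢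
        have := dist_triangle y z z0
        linarith
      rw [hG]
      apply Tendsto.limUnder_eq
      refine tendsto_const_nhds.congr' ?_
      filter_upwards [eventually_ge_atTop N] with n hn
      refine two z (ε / 2) (d N) (d n) hzb (hdpos N) (hdpos n) ?_
      have h1 := hN N le_rfl
      have h2 := hN n hn
      linarith
    have hdiff : DifferentiableAt ℂ (cv (d N) F) z0 := by
      refine hol z0 (d N) (hdpos N) ?_
      intro y hy
      apply hball
      rw [mem_ball]
      rw [mem_closedBall] at hy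
      have := hN N le_rfl
      linarith
    have hev2 : G =ᶠ[𝓝 z0] cv (d N) F := by
      filter_upwards [ball_mem_nhds z0 (by positivity : (0:ℝ) < ε / 2)] with z hz
      exact hloc z hz
    exact (hdiff.congr_of_eventuallyEq hev2).differentiableWithinAt
  · filter_upwards [cv_tendsto F hF d hdpos hd0] with z hz hzH
    rw [hG]
    simp only
    rw [hz.limUnder_eq, hFdef, Set.indicator_of_mem hzH]

end Pool.Agent.DMB
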