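import Pool.Agent.DMB.Api

set_option autoImplicit false

namespace Pool.Agent.DMB

open MeasureTheory Set Metric Filter Topology

open scoped ENNReal

namespace WIR_

/-- the sine integrals -/
noncomputable def S (f : ℝ → ℝ) (n : ℤ) : ℝ := ∫ θ in (0 : ℝ)..Real.pi, f θ * Real.sin (n * θ)

variable {f f' : ℝ → ℝ}

theorem int' (h : Wir f f') : IntervalIntegrable f' volume 0 Real.pi := by
  obtain ⟨h1, h2, -, -⟩ := h
  rw [intervalIntegrable_iff_integrableOn_Ioc_of_le Real.pi_pos.le] at h2 ⊢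
  have hm : MemLp f' 2 (volume.restrict (Ioc 0 Real.pi)) := (memLp_two_iff_integrable_sq h1).2 h2
  exact hm.integrable (by norm_num)

theorem cont (h : Wir f f') : ContinuousOn f (Icc 0 Real.pi) := by
  have h1 := intervalIntegral.continuousOn_primitive_interval (a := 0) (b := Real.pi) (f := f')
    (μ := volume) (by
      rw [uIcc_of_le Real.pi_pos.le, integrableOn_Icc_iff_integrableOn_Ioc]
      exact (intervalIntegrable_iff_integrableOn_Ioc_of_le Real.pi_pos.le).1 (int' h))
  rw [uIcc_of_le Real.pi_pos.le] at h1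
  exact h1.congr fun θ hθ => h.2.2.1 θ hθ

theorem f_zero (h : Wir f f') : f 0 = 0 := by
  rw [h.2.2.1 0 ⟨le_rfl, Real.pi_pos.le⟩, intervalIntegral.integral_same]

/-- integration by parts -/
theorem parts (h : Wir f f') (n : ℤ) :
    ∫ θ in (0 : ℝ)..Real.pi, f' θ * Real.cos (n * θ) = n * S f n := by
  have hi := int' h
  set P : ℝ → ℝ := fun x => ∫ t in (0 : ℝ)..x, f' t with hP
  have hac : AbsolutelyContinuousOnInterval P 0 Real.pi :=
    hi.absolutelyContinuousOnInterval_intervalIntegral left_mem_uIcc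
  have hcos : AbsolutelyContinuousOnInterval (fun x : ℝ => Real.cos (n * x)) 0 Real.pi := by
    have hd : ∀ x : ℝ, HasDerivAt (fun x : ℝ => Real.cos (n * x)) (-(n * Real.sin (n * x))) x := by
      intro x
      have h1 := ((hasDerivAt_id x).const_mul (n : ℝ)).cos
      refine h1.congr_deriv ?_
      simp
      ring
    have h2 : LipschitzWith (Real.toNNReal |(n : ℝ)|) (fun x : ℝ => Real.cos (n * x)) := by
      refine lipschitzWith_of_nnnorm_deriv_le (fun x => (hd x).differentiableAt) fun x => ?_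
      rw [← NNReal.coe_le_coe, coe_nnnorm, (hd x).deriv, Real.coe_toNNReal _ (abs_nonneg _),
        norm_neg, norm_mul, Real.norm_eq_abs, Real.norm_eq_abs]
      have := Real.abs_sin_le_one (n * x)
      nlinarith [abs_nonneg (n : ℝ)]
    exact (h2.lipschitzOnWith (s := uIcc 0 Real.pi)).absolutelyContinuousOnInterval
  have hparts := hac.integral_mul_deriv_eq_deriv_mul hcos
  have hdP : ∫ x in (0 : ℝ)..Real.pi, deriv P x * Real.cos (n * x) =
      ∫ x in (0 : ℝ)..Real.pi, f' x * Real.cos (n * x) := by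
    apply intervalIntegral.integral_congr_ae
    filter_upwards [hi.ae_hasDerivAt_integral] with x hx hx2
    have := hx (uIoc_subset_uIcc hx2) 0 left_mem_uIcc
    rw [this.deriv]
  have hdc : ∀ x : ℝ, deriv (fun x : ℝ => Real.cos (n * x)) x = -(n * Real.sin (n * x)) := by
    intro x
    have h1 := ((hasDerivAt_id x).const_mul (n : ℝ)).cos
    rw [show (fun x : ℝ => Real.cos (n * x)) = fun x : ℝ => Real.cos (n * id x) from rfl, h1.deriv]
    simp
    ring
  have hP0 : P 0 = 0 := by simp [hP]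
  have hPp : P Real.pi = 0 := by
    rw [hP]
    simp only
    rw [← h.2.2.1 Real.pi ⟨Real.pi_pos.le, le_rfl⟩]
    exact h.2.2.2
  rw [hP0, hPp, hdP] at hparts
  simp only [hdc] at hparts
  have h3 : ∫ x in (0 : ℝ)..Real.pi, P x * -(n * Real.sin (n * x)) = -(n * S f n) := by
    unfold S
    rw [← intervalIntegral.integral_const_mul, ← intervalIntegral.integral_neg]
    apply intervalIntegral.integral_congr
    intro x hx
    rw [uIcc_of_le Real.pi_pos.le] at hx
    simp only
    rw [h.2.2.1 x hx]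
    ring
  rw [h3] at hparts
  linarith

/-- extension to `(-π, π]` with sign `e` -/
noncomputable def Ex (e : ℝ) (g : ℝ → ℝ) (θ : ℝ) : ℂ :=
  if 0 < θ then (g θ : ℂ) else ((e * g (-θ) : ℝ) : ℂ)

theorem negpi : -Real.pi < Real.pi := by linarith [Real.pi_pos]

variable {g : ℝ → ℝ} {e : ℝ}

theorem neg_mp : MeasurePreserving (fun x : ℝ => -x) (volume.restrict (Ioc (-Real.pi) 0))
    (volume.restrict (Ico 0 Real.pi)) := by
  have h1 := (Measure.measurePreserving_neg (volume : Measure ℝ)).restrict_preimage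
    (measurableSet_Ico (a := (0 : ℝ)) (b := Real.pi))
  have h2 : (fun x : ℝ => -x) ⁻¹' Ico 0 Real.pi = Ioc (-Real.pi) 0 := by
    ext x
    simp only [mem_preimage, mem_Ico, mem_Ioc]
    constructor <;> rintro ⟨a, b⟩ <;> constructor <;> linarith
  rw [← h2]
  exact h1

theorem ico_ioc : (volume.restrict (Ico 0 Real.pi) : Measure ℝ) = volume.restrict (Ioc 0 Real.pi) :=
  Measure.restrict_congr_set Ico_ae_eq_Ioc

theorem ex_memLp (h1 : AEStronglyMeasurable g (volume.restrict (Ioc 0 Real.pi)))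
    (h2 : IntegrableOn (fun θ => g θ ^ 2) (Ioc 0 Real.pi)) :
    MemLp (Ex e g) 2 (volume.restrict (Ioc (-Real.pi) Real.pi)) := by
  have hg : MemLp g 2 (volume.restrict (Ioc 0 Real.pi)) := (memLp_two_iff_integrable_sq h1).2 h2
  have hgn : MemLp (fun x => e * g (-x)) 2 (volume.restrict (Ioc (-Real.pi) 0)) := by
    rw [← ico_ioc] at hg
    exact (hg.comp_measurePreserving neg_mp).const_mul e
  have ha : MemLp (Ex e g) 2 (volume.restrict (Ioc 0 Real.pi)) := by
    refine (hg.ofReal (K := ℂ)).ae_eq ?_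
    filter_upwards [ae_restrict_mem measurableSet_Ioc] with x hx
    simp [Ex, hx.1]
  have hb : MemLp (Ex e g) 2 (volume.restrict (Ioc (-Real.pi) 0)) := by
    refine (hgn.ofReal (K := ℂ)).ae_eq ?_
    filter_upwards [ae_restrict_mem measurableSet_Ioc] with x hx
    simp [Ex, not_lt.2 hx.2]
  have hu : Ioc (-Real.pi) Real.pi = Ioc (-Real.pi) 0 ∪ Ioc 0 Real.pi :=
    (Ioc_union_Ioc_eq_Ioc (by linarith [Real.pi_pos]) Real.pi_pos.le).symm
  have hd : Disjoint (Ioc (-Real.pi) 0) (Ioc 0 Real.pi) := Ioc_disjoint_Ioc_of_le le_rfl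
  rw [hu, Measure.restrict_union hd measurableSet_Ioc]
  have hae : AEStronglyMeasurable (Ex e g)
      (volume.restrict (Ioc (-Real.pi) 0) + volume.restrict (Ioc 0 Real.pi)) :=
    aestronglyMeasurable_add_measure_iff.2 ⟨hb.1, ha.1⟩
  rw [memLp_two_iff_integrable_sq_norm hae]
  exact integrable_add_measure.2 ⟨(memLp_two_iff_integrable_sq_norm hb.1).1 hb,
    (memLp_two_iff_integrable_sq_norm ha.1).1 ha⟩

/-- splitting an integral over `(-π, π)` -/
theorem split (h : ℝ → ℂ) (hi : IntervalIntegrable h volume (-Real.pi) Real.pi) :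
    ∫ x in (-Real.pi)..Real.pi, h x = ∫ x in (0 : ℝ)..Real.pi, (h (-x) + h x) := by
  have h0 : (0 : ℝ) ∈ uIcc (-Real.pi) Real.pi := by
    rw [uIcc_of_le negpi.le]
    exact ⟨by linarith [Real.pi_pos], Real.pi_pos.le⟩
  have i1 := hi.mono_set (uIcc_subset_uIcc_left h0)
  have i2 := hi.mono_set (uIcc_subset_uIcc_right h0)
  have e1 := intervalIntegral.integral_comp_neg (a := 0) (b := Real.pi) h
  rw [neg_zero] at e1
  rw [← intervalIntegral.integral_add_adjacent_intervals i1 i2, ← e1,
    intervalIntegral.integral_add _ i2]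
  have := (IntervalIntegrable.iff_comp_neg (by simp)).1 i1
  rw [neg_neg, neg_zero] at this
  exact this.symm

theorem coeff_ex (h1 : AEStronglyMeasurable g (volume.restrict (Ioc 0 Real.pi)))
    (h2 : IntegrableOn (fun θ => g θ ^ 2) (Ioc 0 Real.pi)) (n : ℤ) :
    fourierCoeffOn negpi (Ex e g) n = (1 / (2 * Real.pi) : ℂ) * ∫ x in (0 : ℝ)..Real.pi,
      (e * Complex.exp (n * x * Complex.I) + Complex.exp (-(n * x * Complex.I))) * (g x : ℂ) := by
  have hm := ex_memLp (e := e) h1 h2
  have hint : IntegrableOn (Ex e g) (Ioc (-Real.pi) Real.pi) := hm.integrable (by norm_num)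
  rw [fourierCoeffOn_eq_integral]
  have hf : ∀ x : ℝ, fourier (-n) (x : AddCircle (Real.pi - -Real.pi)) =
      Complex.exp (-(n * x * Complex.I)) := by
    intro x
    rw [fourier_coe_apply]
    congr 1
    have : (Real.pi : ℂ) ≠ 0 := by exact_mod_cast Real.pi_ne_zero
    push_cast
    field_simp
    ring
  simp only [hf, smul_eq_mul]
  have hii : IntervalIntegrable (fun x : ℝ => Complex.exp (-(n * x * Complex.I)) * Ex e g x)
      volume (-Real.pi) Real.pi := by
    refine IntervalIntegrable.continuousOn_mul ?_ (by fun_prop)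
    exact (intervalIntegrable_iff_integrableOn_Ioc_of_le negpi.le).2 hint
  rw [split _ hii]
  have h3 : ∫ x in (0 : ℝ)..Real.pi, (Complex.exp (-(n * ((-x : ℝ) : ℂ) * Complex.I)) * Ex e g (-x)
      + Complex.exp (-(n * x * Complex.I)) * Ex e g x) = ∫ x in (0 : ℝ)..Real.pi,
      (e * Complex.exp (n * x * Complex.I) + Complex.exp (-(n * x * Complex.I))) * (g x : ℂ) := by
    rw [intervalIntegral.integral_of_le Real.pi_pos.le,
      intervalIntegral.integral_of_le Real.pi_pos.le]
    refine setIntegral_congr_fun measurableSet_Ioc fun x hx => ?_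
    have hx1 : ¬ 0 < -x := by linarith [hx.1]
    simp only [Ex, hx.1, hx1, if_true, if_false, neg_neg]
    push_cast
    rw [show -((n : ℂ) * -(x : ℂ) * Complex.I) = n * x * Complex.I by ring]
    ring
  rw [h3]
  rw [show (1 / (Real.pi - -Real.pi) : ℝ) = 1 / (2 * Real.pi) by ring]
  rw [Complex.real_smul]
  push_cast
  ring

theorem norm_sq_ex (h1 : AEStronglyMeasurable g (volume.restrict (Ioc 0 Real.pi)))
    (h2 : IntegrableOn (fun θ => g θ ^ 2) (Ioc 0 Real.pi)) (he : e ^ 2 = 1) :
    ∫ x in (-Real.pi)..Real.pi, ‖Ex e g x‖ ^ 2 = 2 * ∫ x in (0 : ℝ)..Real.pi, g x ^ 2 := by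
  have hm := ex_memLp (e := e) h1 h2
  have hint := (memLp_two_iff_integrable_sq_norm hm.1).1 hm
  have hii : IntervalIntegrable (fun x => ‖Ex e g x‖ ^ 2) volume (-Real.pi) Real.pi :=
    (intervalIntegrable_iff_integrableOn_Ioc_of_le negpi.le).2 hint
  have h0 : (0 : ℝ) ∈ uIcc (-Real.pi) Real.pi := by
    rw [uIcc_of_le negpi.le]
    exact ⟨by linarith [Real.pi_pos], Real.pi_pos.le⟩
  have i1 := hii.mono_set (uIcc_subset_uIcc_left h0)
  have i2 := hii.mono_set (uIcc_subset_uIcc_right h0)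
  have e1 := intervalIntegral.integral_comp_neg (a := 0) (b := Real.pi)
    (fun x => ‖Ex e g x‖ ^ 2)
  rw [neg_zero] at e1
  rw [← intervalIntegral.integral_add_adjacent_intervals i1 i2, ← e1]
  have e2 : ∫ x in (0 : ℝ)..Real.pi, ‖Ex e g (-x)‖ ^ 2 = ∫ x in (0 : ℝ)..Real.pi, g x ^ 2 := by
    rw [intervalIntegral.integral_of_le Real.pi_pos.le,
      intervalIntegral.integral_of_le Real.pi_pos.le]
    refine setIntegral_congr_fun measurableSet_Ioc fun x hx => ?_
    have hx1 : ¬ 0 < -x := by linarith [hx.1]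
    simp only [Ex, hx1, if_false, neg_neg, Complex.norm_real, Real.norm_eq_abs, sq_abs]
    rw [mul_pow, he, one_mul]
  have e3 : ∫ x in (0 : ℝ)..Real.pi, ‖Ex e g x‖ ^ 2 = ∫ x in (0 : ℝ)..Real.pi, g x ^ 2 := by
    rw [intervalIntegral.integral_of_le Real.pi_pos.le,
      intervalIntegral.integral_of_le Real.pi_pos.le]
    refine setIntegral_congr_fun measurableSet_Ioc fun x hx => ?_
    simp only [Ex, hx.1, if_true, Complex.norm_real, Real.norm_eq_abs, sq_abs]
  rw [e2, e3]
  ring

theorem memf (h : Wir f f') : AEStronglyMeasurable f (volume.restrict (Ioc 0 Real.pi)) ∧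
    IntegrableOn (fun θ => f θ ^ 2) (Ioc 0 Real.pi) := by
  have hc := cont h
  refine ⟨?_, ?_⟩
  · exact (hc.mono Ioc_subset_Icc_self).aestronglyMeasurable measurableSet_Ioc
  · exact ((hc.pow 2).integrableOn_Icc).mono_set Ioc_subset_Icc_self

theorem memf' (h : Wir f f') : AEStronglyMeasurable f' (volume.restrict (Ioc 0 Real.pi)) ∧
    IntegrableOn (fun θ => f' θ ^ 2) (Ioc 0 Real.pi) :=
  ⟨h.1, (intervalIntegrable_iff_integrableOn_Ioc_of_le Real.pi_pos.le).1 h.2.1⟩

theorem normf (h : Wir f f') (n : ℤ) :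
    ‖fourierCoeffOn negpi (Ex (-1) f) n‖ ^ 2 = S f n ^ 2 / Real.pi ^ 2 := by
  rw [coeff_ex (memf h).1 (memf h).2]
  have h1 : ∫ x in (0 : ℝ)..Real.pi, (((-1 : ℝ) : ℂ) * Complex.exp (n * x * Complex.I) +
      Complex.exp (-(n * x * Complex.I))) * (f x : ℂ) = (-2 * Complex.I) * (S f n : ℂ) := by
    unfold S
    rw [← intervalIntegral.integral_ofReal, ← intervalIntegral.integral_const_mul]
    apply intervalIntegral.integral_congr
    intro x _
    simp only
    rw [show (n : ℂ) * (x : ℂ) * Complex.I = ((n * x : ℝ) : ℂ) * Complex.I by push_cast; ring,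
      Complex.exp_mul_I, ← neg_mul, Complex.exp_mul_I, Complex.cos_neg, Complex.sin_neg]
    push_cast
    ring
  rw [h1]
  rw [norm_mul, norm_mul, Complex.norm_real, norm_mul, Complex.norm_I]
  rw [show (1 / (2 * Real.pi) : ℂ) = ((1 / (2 * Real.pi) : ℝ) : ℂ) by push_cast; ring,
    Complex.norm_real, Real.norm_eq_abs, Real.norm_eq_abs,
    show ‖(-2 : ℂ)‖ = 2 by simp]
  rw [mul_one, mul_pow, mul_pow, sq_abs, sq_abs]
  field_simp

theorem normf' (h : Wir f f') (n : ℤ) :
    ‖fourierCoeffOn negpi (Ex 1 f') n‖ ^ 2 = n ^ 2 * S f n ^ 2 / Real.pi ^ 2 := by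
  rw [coeff_ex (memf' h).1 (memf' h).2]
  have h1 : ∫ x in (0 : ℝ)..Real.pi, (((1 : ℝ) : ℂ) * Complex.exp (n * x * Complex.I) +
      Complex.exp (-(n * x * Complex.I))) * (f' x : ℂ) = 2 * ((n * S f n : ℝ) : ℂ) := by
    rw [← parts h n]
    rw [← intervalIntegral.integral_ofReal, ← intervalIntegral.integral_const_mul]
    apply intervalIntegral.integral_congr
    intro x _
    simp only
    rw [show (n : ℂ) * (x : ℂ) * Complex.I = ((n * x : ℝ) : ℂ) * Complex.I by push_cast; ring,
      Complex.exp_mul_I, ← neg_mul, Complex.exp_mul_I, Complex.cos_neg, Complex.sin_neg]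
    push_cast
    ring
  rw [h1]
  rw [norm_mul, norm_mul, Complex.norm_real]
  rw [show (1 / (2 * Real.pi) : ℂ) = ((1 / (2 * Real.pi) : ℝ) : ℂ) by push_cast; ring,
    Complex.norm_real, Real.norm_eq_abs, Real.norm_eq_abs,
    show ‖(2 : ℂ)‖ = 2 by simp]
  rw [mul_pow, mul_pow, sq_abs, sq_abs]
  field_simp

theorem S_zero (f : ℝ → ℝ) : S f 0 = 0 := by
  unfold S
  simp

theorem S_neg (f : ℝ → ℝ) : S f (-1) = -S f 1 := by
  unfold S
  rw [← intervalIntegral.integral_neg]
  apply intervalIntegral.integral_congr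
  intro x _
  simp

theorem sc_eq (f : ℝ → ℝ) : sc f = 2 / Real.pi * S f 1 := by
  unfold sc S
  simp

/-- the spectral gap -/
theorem gap (h : Wir f f') : 4 * l2 f - 3 * (Real.pi / 2) * sc f ^ 2 ≤ l2 f' := by
  have hpi := Real.pi_pos
  have h1 := hasSum_sq_fourierCoeffOn negpi (ex_memLp (e := -1) (memf h).1 (memf h).2)
  have h2 := hasSum_sq_fourierCoeffOn negpi (ex_memLp (e := 1) (memf' h).1 (memf' h).2)
  rw [norm_sq_ex (memf h).1 (memf h).2 (by norm_num)] at h1
  rw [norm_sq_ex (memf' h).1 (memf' h).2 (by norm_num)] at h2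
  simp only [normf h] at h1
  simp only [normf' h] at h2
  have h3 : HasSum (fun n : ℤ => if n = 1 then 3 * S f 1 ^ 2 / Real.pi ^ 2 else 0)
      (3 * S f 1 ^ 2 / Real.pi ^ 2) := hasSum_ite_eq _ _
  have h4 : HasSum (fun n : ℤ => if n = -1 then 3 * S f 1 ^ 2 / Real.pi ^ 2 else 0)
      (3 * S f 1 ^ 2 / Real.pi ^ 2) := hasSum_ite_eq _ _
  have h5 := ((h1.mul_left 4).sub h3).sub h4
  have h6 := hasSum_le (fun n : ℤ => ?_) h5 h2
  · rw [smul_eq_mul, smul_eq_mul] at h6
    change 4 * ((Real.pi - -Real.pi)⁻¹ * (2 * l2 f)) - _ - _ ≤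
      (Real.pi - -Real.pi)⁻¹ * (2 * l2 f') at h6
    have h7 : (Real.pi - -Real.pi)⁻¹ = 1 / (2 * Real.pi) := by rw [one_div]; congr 1; ring
    rw [h7] at h6
    have h8 : S f 1 = Real.pi / 2 * sc f := by
      rw [sc_eq]; field_simp
    rw [h8] at h6
    have h9 : 4 * (1 / (2 * Real.pi) * (2 * l2 f)) - 3 * (Real.pi / 2 * sc f) ^ 2 / Real.pi ^ 2 -
        3 * (Real.pi / 2 * sc f) ^ 2 / Real.pi ^ 2 =
        (4 * l2 f - 3 * (Real.pi / 2) * sc f ^ 2) / Real.pi := by
      field_simp
      ring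
    have h10 : 1 / (2 * Real.pi) * (2 * l2 f') = l2 f' / Real.pi := by field_simp
    rw [h9, h10, div_le_div_iff_of_pos_right hpi] at h6
    exact h6
  · have hS : 0 ≤ S f n ^ 2 / Real.pi ^ 2 := by positivity
    by_cases a1 : n = 1
    · subst a1
      simp
      rw [mul_div_assoc]
      linarith
    by_cases a2 : n = -1
    · subst a2
      simp [S_neg]
      rw [mul_div_assoc]
      linarith
    by_cases a3 : n = 0
    · subst a3
      simp [S_zero]
    simp only [a1, a2, if_false, sub_zero]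
    have hn : (4 : ℝ) ≤ (n : ℝ) ^ 2 := by
      have h5 : (4 : ℤ) ≤ n ^ 2 := by
        rcases lt_or_ge n 0 with hn | hn
        · have : n ≤ -2 := by omega
          nlinarith
        · have : 2 ≤ n := by omega
          nlinarith
      exact_mod_cast h5
    rw [mul_div_assoc]
    nlinarith

end WIR_

open WIR_ in
theorem wir_proof : Stmt_WIR := by
  intro f f' h
  have hpi := Real.pi_pos
  have hc := cont h
  have hcu : ContinuousOn f (uIcc 0 Real.pi) := by rwa [uIcc_of_le hpi.le]
  have hf : IntervalIntegrable f volume 0 Real.pi := hcu.intervalIntegrable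
  have hf2 : IntervalIntegrable (fun x => f x ^ 2) volume 0 Real.pi :=
    (hcu.pow 2).intervalIntegrable
  have hfs : IntervalIntegrable (fun x => f x * Real.sin x) volume 0 Real.pi :=
    (hcu.mul Real.continuous_sin.continuousOn).intervalIntegrable
  have hsin : ∫ x in (0 : ℝ)..Real.pi, Real.sin x = 2 := by
    rw [integral_sin, Real.cos_zero, Real.cos_pi]; norm_num
  have hsin2 : ∫ x in (0 : ℝ)..Real.pi, Real.sin x ^ 2 = Real.pi / 2 := by
    rw [integral_sin_sq]
    simp
  have hS : ∫ x in (0 : ℝ)..Real.pi, f x * Real.sin x = Real.pi / 2 * sc f := by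
    unfold sc
    field_simp
  -- the part orthogonal to the sine
  have hw : ∫ x in (0 : ℝ)..Real.pi, (f x - sc f * Real.sin x) ^ 2 =
      l2 f - Real.pi / 2 * sc f ^ 2 := by
    have h1 : (fun x : ℝ => (f x - sc f * Real.sin x) ^ 2) = fun x =>
        f x ^ 2 - 2 * sc f * (f x * Real.sin x) + sc f ^ 2 * Real.sin x ^ 2 := by
      funext x; ring
    rw [h1, intervalIntegral.integral_add (hf2.sub (hfs.const_mul _))
      ((by fun_prop : Continuous fun x : ℝ => sc f ^ 2 * Real.sin x ^ 2).intervalIntegrable _ _),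
      intervalIntegral.integral_sub hf2 (hfs.const_mul _), intervalIntegral.integral_const_mul,
      intervalIntegral.integral_const_mul, hS, hsin2]
    unfold l2
    ring
  have hw1 : ∫ x in (0 : ℝ)..Real.pi, (f x - sc f * Real.sin x) =
      (∫ x in (0 : ℝ)..Real.pi, f x) - 2 * sc f := by
    rw [intervalIntegral.integral_sub hf
      ((by fun_prop : Continuous fun x : ℝ => sc f * Real.sin x).intervalIntegrable _ _),
      intervalIntegral.integral_const_mul, hsin]
    ring
  have hw0 : 0 ≤ ∫ x in (0 : ℝ)..Real.pi, (f x - sc f * Real.sin x) ^ 2 :=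
    intervalIntegral.integral_nonneg hpi.le fun x _ => sq_nonneg _
  refine ⟨?_, ?_, ?_⟩
  · rw [hw] at hw0; linarith
  · have := gap h; linarith
  · rw [← hw, ← hw1]
    set w : ℝ → ℝ := fun x => f x - sc f * Real.sin x with hwd
    have hcw : ContinuousOn w (uIcc 0 Real.pi) :=
      hcu.sub (by fun_prop)
    have i1 : IntervalIntegrable w volume 0 Real.pi := hcw.intervalIntegrable
    have i2 : IntervalIntegrable (fun x => w x ^ 2) volume 0 Real.pi :=
      (hcw.pow 2).intervalIntegrable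
    set I := ∫ x in (0 : ℝ)..Real.pi, w x with hI
    have h1 : 0 ≤ ∫ x in (0 : ℝ)..Real.pi, (w x - I / Real.pi) ^ 2 :=
      intervalIntegral.integral_nonneg hpi.le fun x _ => sq_nonneg _
    have h2 : (fun x : ℝ => (w x - I / Real.pi) ^ 2) = fun x =>
        w x ^ 2 - 2 * (I / Real.pi) * w x + (I / Real.pi) ^ 2 := by
      funext x; ring
    rw [h2, intervalIntegral.integral_add (i2.sub (i1.const_mul _)) intervalIntegrable_const,
      intervalIntegral.integral_sub i2 (i1.const_mul _), intervalIntegral.integral_const_mul,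
      intervalIntegral.integral_const, ← hI, smul_eq_mul, sub_zero] at h1
    have h3 : Real.pi * ((∫ x in (0 : ℝ)..Real.pi, w x ^ 2) - 2 * (I / Real.pi) * I +
        Real.pi * (I / Real.pi) ^ 2) = Real.pi * (∫ x in (0 : ℝ)..Real.pi, w x ^ 2) - I ^ 2 := by
      field_simp
      ring
    have h4 := mul_nonneg hpi.le h1
    rw [h3] at h4
    linarith

end Pool.Agent.DMB
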