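import Pool.Agent.DMB.Api

/-!
Squad DMB, module XIL: the coordinatewise sorted matrix of a tuple.
-/

namespace Pool.Agent.DMB

open MeasureTheory Set Metric Filter Topology
open scoped ENNReal

namespace XIL_

theorem same_xi {K n : ℕ} (b : Tup K n) (σ : Equiv.Perm (Fin K)) : xi (b ∘ σ) = xi b := by
  funext i l
  have h := Tuple.comp_perm_comp_sort_eq_comp_sort (f := fun k => b k l) (σ := σ)
  have h2 := congrFun h i
  simpa [xi, Function.comp_def] using h2

theorem sum_xi {K n : ℕ} (a : Tup K n) (l : Fin n) (F : ℝ → ℝ) :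
    ∑ i, F (xi a i l) = ∑ i, F (a i l) := by
  unfold xi
  exact Equiv.sum_comp (Tuple.sort (fun k => a k l)) (fun i => F (a i l))

theorem rearr {K n : ℕ} (a b : Tup K n) (σ : Equiv.Perm (Fin K)) (l : Fin n) :
    ∑ i, a i l * b (σ i) l ≤ ∑ i, xi a i l * xi b i l := by
  set sa := Tuple.sort (fun k => a k l) with hsa
  set sb := Tuple.sort (fun k => b k l) with hsb
  have ma : Monotone ((fun k => a k l) ∘ sa) := Tuple.monotone_sort _
  have mb : Monotone ((fun k => b k l) ∘ sb) := Tuple.monotone_sort _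
  have hv : Monovary ((fun k => a k l) ∘ sa) ((fun k => b k l) ∘ sb) := ma.monovary mb
  have h1 := hv.sum_mul_comp_perm_le_sum_mul (σ := sa.trans (σ.trans sb.symm))
  have e1 : ∑ i, ((fun k => a k l) ∘ sa) i * ((fun k => b k l) ∘ sb)
      ((sa.trans (σ.trans sb.symm)) i) = ∑ i, a i l * b (σ i) l := by
    rw [← Equiv.sum_comp sa (fun i => a i l * b (σ i) l)]
    refine Finset.sum_congr rfl fun i _ => ?_
    simp
  rw [e1] at h1
  exact h1

end XIL_

open XIL_ in
theorem xil_proof (hMET : Stmt_MET) : Stmt_XIL := by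
  intro K n a b
  refine ⟨?_, ?_, ?_, ?_, ?_⟩
  · obtain ⟨-, -, -, -, ⟨σ, hσ⟩, -, -⟩ := hMET K n a b b
    have hs0 : 0 ≤ sqd a (b ∘ σ) := Finset.sum_nonneg fun _ _ => sq_nonneg _
    rw [hσ, Real.sq_sqrt hs0]
    have e1 : sqd a (b ∘ σ) = ∑ l, ∑ i, (a i l - b (σ i) l) ^ 2 := by
      unfold sqd
      rw [Finset.sum_comm]
      refine Finset.sum_congr rfl fun i _ => ?_
      rw [EuclideanSpace.norm_sq_eq]
      refine Finset.sum_congr rfl fun l _ => ?_
      simp [Real.norm_eq_abs, sq_abs]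
    have e2 : nsq (xi a - xi b) = ∑ l, ∑ i, (xi a i l - xi b i l) ^ 2 := by
      unfold nsq
      rw [Finset.sum_comm]
      rfl
    rw [e1, e2]
    refine Finset.sum_le_sum fun l _ => ?_
    have h1 := rearr a b σ l
    have h2 := sum_xi a l (fun x => x ^ 2)
    have h3 := sum_xi b l (fun x => x ^ 2)
    have h4 : ∑ i, (b (σ i) l) ^ 2 = ∑ i, (b i l) ^ 2 :=
      Equiv.sum_comp σ (fun i => (b i l) ^ 2)
    have e3 : ∑ i, (xi a i l - xi b i l) ^ 2 =
        ∑ i, (xi a i l) ^ 2 + ∑ i, (xi b i l) ^ 2 - 2 * ∑ i, xi a i l * xi b i l := by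
      rw [Finset.mul_sum, ← Finset.sum_add_distrib, ← Finset.sum_sub_distrib]
      refine Finset.sum_congr rfl fun i _ => ?_
      ring
    have e4 : ∑ i, (a i l - b (σ i) l) ^ 2 =
        ∑ i, (a i l) ^ 2 + ∑ i, (b (σ i) l) ^ 2 - 2 * ∑ i, a i l * b (σ i) l := by
      rw [Finset.mul_sum, ← Finset.sum_add_distrib, ← Finset.sum_sub_distrib]
      refine Finset.sum_congr rfl fun i _ => ?_
      ring
    rw [e3, e4, h4]
    linarith
  · rintro ⟨σ, rfl⟩
    exact same_xi b σ
  · intro l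
    exact sum_xi a l (fun x => x)
  · have e : nsq (xi a) = ∑ l, ∑ i, (xi a i l) ^ 2 := by
      unfold nsq
      rw [Finset.sum_comm]
    rw [e]
    have e2 : ∀ l, ∑ i, (xi a i l) ^ 2 = ∑ i, (a i l) ^ 2 := fun l =>
      sum_xi a l (fun x => x ^ 2)
    simp only [e2]
    rw [Finset.sum_comm]
    refine Finset.sum_congr rfl fun i _ => ?_
    rw [EuclideanSpace.norm_sq_eq]
    refine Finset.sum_congr rfl fun l _ => ?_
    simp [Real.norm_eq_abs, sq_abs]
  · intro c
    constructor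
    · intro h i l
      simp only [xi, h]
    · intro h k
      ext l
      have := h ((Tuple.sort (fun k => a k l)).symm k) l
      simpa [xi] using this

end Pool.Agent.DMB
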