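import Pool.Agent.DMB.AFF
import Pool.Agent.DMB.ALG
import Pool.Agent.DMB.BAR
import Pool.Agent.DMB.BIL
import Pool.Agent.DMB.CAT
import Pool.Agent.DMB.CAU
import Pool.Agent.DMB.CHA
import Pool.Agent.DMB.CHB
import Pool.Agent.DMB.CHC
import Pool.Agent.DMB.CL1
import Pool.Agent.DMB.CLM
import Pool.Agent.DMB.CLU
import Pool.Agent.DMB.CMP
import Pool.Agent.DMB.COA
import Pool.Agent.DMB.COL
import Pool.Agent.DMB.CONI
import Pool.Agent.DMB.COU
import Pool.Agent.DMB.CPT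
import Pool.Agent.DMB.DCY
import Pool.Agent.DMB.DEN
import Pool.Agent.DMB.ENA
import Pool.Agent.DMB.ENB
import Pool.Agent.DMB.ENC
import Pool.Agent.DMB.END
import Pool.Agent.DMB.ENE
import Pool.Agent.DMB.ENF
import Pool.Agent.DMB.ENV
import Pool.Agent.DMB.FIN
import Pool.Agent.DMB.FL1
import Pool.Agent.DMB.FL2
import Pool.Agent.DMB.FLA
import Pool.Agent.DMB.FLB
import Pool.Agent.DMB.FLP
import Pool.Agent.DMB.FLX
import Pool.Agent.DMB.GAB
import Pool.Agent.DMB.GAL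
import Pool.Agent.DMB.GC1
import Pool.Agent.DMB.GCH
import Pool.Agent.DMB.GCL
import Pool.Agent.DMB.GCO
import Pool.Agent.DMB.GGL
import Pool.Agent.DMB.GIB
import Pool.Agent.DMB.GLO
import Pool.Agent.DMB.GMO
import Pool.Agent.DMB.GMU
import Pool.Agent.DMB.GRI
import Pool.Agent.DMB.GUN
import Pool.Agent.DMB.HCH
import Pool.Agent.DMB.HLF
import Pool.Agent.DMB.HOP
import Pool.Agent.DMB.HWK
import Pool.Agent.DMB.IM1
import Pool.Agent.DMB.IM2
import Pool.Agent.DMB.IND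
import Pool.Agent.DMB.INV
import Pool.Agent.DMB.ISO
import Pool.Agent.DMB.JCV
import Pool.Agent.DMB.LFT
import Pool.Agent.DMB.LOG
import Pool.Agent.DMB.MAX
import Pool.Agent.DMB.MET
import Pool.Agent.DMB.MEV
import Pool.Agent.DMB.MOL
import Pool.Agent.DMB.MSB
import Pool.Agent.DMB.MVB
import Pool.Agent.DMB.ODE
import Pool.Agent.DMB.OU1
import Pool.Agent.DMB.OUT
import Pool.Agent.DMB.OUV
import Pool.Agent.DMB.POL
import Pool.Agent.DMB.PRI
import Pool.Agent.DMB.RAD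
import Pool.Agent.DMB.REF
import Pool.Agent.DMB.RG0
import Pool.Agent.DMB.RGC
import Pool.Agent.DMB.RGL
import Pool.Agent.DMB.RGP
import Pool.Agent.DMB.SEL
import Pool.Agent.DMB.SLC
import Pool.Agent.DMB.SPR
import Pool.Agent.DMB.SYB
import Pool.Agent.DMB.SYS
import Pool.Agent.DMB.TUP
import Pool.Agent.DMB.UNQ
import Pool.Agent.DMB.WEY
import Pool.Agent.DMB.WIR
import Pool.Agent.DMB.XIL

namespace Pool.Agent.DMB

/-- the final theorem, assembled from the modules -/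
theorem main : Stmt_FIN := by
  have hMET : Stmt_MET := met_proof 
  have hSYB : Stmt_SYB := syb_proof hMET
  have hXIL : Stmt_XIL := xil_proof hMET
  have hISO : Stmt_ISO := iso_proof hMET hXIL
  have hCOU : Stmt_COU := cou_proof hMET hXIL hISO
  have hGAL : Stmt_GAL := gal_proof 
  have hGUN : Stmt_GUN := gun_proof 
  have hGAB : Stmt_GAB := gab_proof 
  have hENA : Stmt_ENA := ena_proof 
  have hENB : Stmt_ENB := enb_proof 
  have hEND : Stmt_END := end_proof hGUN hXIL hSYB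
  have hENC : Stmt_ENC := enc_proof hMET hXIL hCOU hSYB hGAL hGUN hGAB hENA hENB hEND
  have hSYS : Stmt_SYS := sys_proof hMET hSYB hENC
  have hAFF : Stmt_AFF := aff_proof 
  have hMSB : Stmt_MSB := msb_proof hMET hXIL hAFF hGAL hGUN hEND
  have hCHA : Stmt_CHA := cha_proof 
  have hCHB : Stmt_CHB := chb_proof 
  have hGC1 : Stmt_GC1 := gc1_proof 
  have hCHC : Stmt_CHC := chc_proof hGC1
  have hFLA : Stmt_FLA := fla_proof 
  have hGMU : Stmt_GMU := gmu_proof hGAL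
  have hGLO : Stmt_GLO := glo_proof 
  have hGIB : Stmt_GIB := gib_proof hGAL hGUN hGLO
  have hMOL : Stmt_MOL := mol_proof 
  have hGMO : Stmt_GMO := gmo_proof hGAL hGMU hGC1 hGUN hGLO hGIB hMOL
  have hGCL : Stmt_GCL := gcl_proof hGAL
  have hJCV : Stmt_JCV := jcv_proof 
  have hGCO : Stmt_GCO := gco_proof hGAL hGC1 hGMO hGCL hJCV
  have hFLB : Stmt_FLB := flb_proof hGAL hGUN hGCO
  have hREF : Stmt_REF := ref_proof 
  have hFL1 : Stmt_FL1 := fl1_proof hMET hXIL hAFF hGAL hGUN hEND hFLA hFLB hJCV hREF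
  have hENF : Stmt_ENF := enf_proof hXIL hGAL hGUN hGLO hEND
  have hFL2 : Stmt_FL2 := fl2_proof hMET hXIL hAFF hSYB hGAL hGUN hGLO hEND hENF hFLA hFLB hJCV hREF
  have hIM1 : Stmt_IM1 := im1_proof hMET hEND
  have hIM2 : Stmt_IM2 := im2_proof hMET hXIL hEND hENF
  have hHCH : Stmt_HCH := hch_proof 
  have hDEN : Stmt_DEN := den_proof 
  have hOU1 : Stmt_OU1 := ou1_proof hMET hXIL hAFF hGAL hGMU hGC1 hGUN
  have hHLF : Stmt_HLF := hlf_proof 
  have hPOL : Stmt_POL := pol_proof 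
  have hRAD : Stmt_RAD := rad_proof hPOL
  have hOUT : Stmt_OUT := out_proof hMET hXIL hGAL hGMU hGC1 hOU1 hHLF hRAD hPOL
  have hSLC : Stmt_SLC := slc_proof hGCO hPOL
  have hSEL : Stmt_SEL := sel_proof hMET
  have hLFT : Stmt_LFT := lft_proof hMET hXIL hCOU hSEL
  have hGGL : Stmt_GGL := ggl_proof hGAL
  have hTUP : Stmt_TUP := tup_proof hMET hXIL hISO hGAL hGUN hGAB
  have hCON : Stmt_CON := con_proof hGAL hGMU hGCO hPOL
  have hCPT : Stmt_CPT := cpt_proof hMET hXIL hGAL hGUN hGLO hGGL hTUP hCON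
  have hCMP : Stmt_CMP := cmp_proof hMET hXIL hGAL hGUN hHLF
  have hFLX : Stmt_FLX := flx_proof 
  have hENV : Stmt_ENV := env_proof hPOL
  have hWIR : Stmt_WIR := wir_proof 
  have hALG : Stmt_ALG := alg_proof hWIR
  have hGRI : Stmt_GRI := gri_proof hMET hXIL hGAL hGC1 hOUT hSLC hLFT hCPT hCMP hFLX hENV hPOL hWIR hALG
  have hODE : Stmt_ODE := ode_proof 
  have hDCY : Stmt_DCY := dcy_proof hGRI hODE hENV
  have hMEV : Stmt_MEV := mev_proof hMET hXIL hAFF hGAL hGMU hGC1 hGUN hEND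
  have hINV : Stmt_INV := inv_proof hMET hXIL hGAL hGCO hJCV hEND hGUN
  have hWEY : Stmt_WEY := wey_proof 
  have hHOP : Stmt_HOP := hop_proof hMEV hINV hWEY hGAL hGMU hGC1 hGIB hEND hGUN
  have hMVB : Stmt_MVB := mvb_proof 
  have hBIL : Stmt_BIL := bil_proof 
  have hCAU : Stmt_CAU := cau_proof 
  have hFLP : Stmt_FLP := flp_proof 
  have hPRI : Stmt_PRI := pri_proof hCAU hFLP hDEN
  have hGCH : Stmt_GCH := gch_proof hGAL
  have hOUV : Stmt_OUV := ouv_proof hMET hXIL hAFF hGAL hGMU hGUN hEND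
  have hLOG : Stmt_LOG := log_proof hXIL hGAL hGMU hGCH hGC1 hGIB hOUV hEND hGUN
  have hMAX : Stmt_MAX := max_proof 
  have hHWK : Stmt_HWK := hwk_proof 
  have hBAR : Stmt_BAR := bar_proof hCAU hFLP hDEN hMAX hHWK
  have hSPR : Stmt_SPR := spr_proof hMAX hHWK
  have hUNQ : Stmt_UNQ := unq_proof hMET hXIL hEND hGUN hGAL hHOP hMVB hBIL hPRI hLOG hBAR hSPR
  have hCOA : Stmt_COA := coa_proof hMET hXIL hAFF hGAL hGUN hEND hJCV hFLB hFLA hIM1 hIM2 hREF hHCH hDEN hDCY hUNQ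
  have hCOL : Stmt_COL := col_proof hCHA hCHB hCHC hFL1 hFL2 hCOA
  have hCL1 : Stmt_CL1 := cl1_proof hMET
  have hCAT : Stmt_CAT := cat_proof hMET hXIL hISO
  have hENE : Stmt_ENE := ene_proof hMET hXIL hISO hCAT hGAL hGUN hGAB hEND
  have hCLM : Stmt_CLM := clm_proof hMET hSYB hCAT hEND hENE hENF
  have hCLU : Stmt_CLU := clu_proof hMET hSYB hCL1 hCLM
  have hRGL : Stmt_RGL := rgl_proof hMET hSYB
  have hRG0 : Stmt_RG0 := rg0_proof hMET hSYB
  have hRGC : Stmt_RGC := rgc_proof hSYB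
  have hIND : Stmt_IND := ind_proof hMET hSYB hMSB hCOL hCLU hRGL hRG0 hRGC
  have hRGP : Stmt_RGP := rgp_proof hSYB
  have hFIN : Stmt_FIN := fin_proof hSYS hIND hRGP
  exact hFIN

end Pool.Agent.DMB
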