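import Pool.Agent.DMB.Api

/-!
DMB, module RAD: radial test functions.
-/

set_option autoImplicit false

namespace Pool.Agent.DMB

open MeasureTheory Set Metric Filter Topology
open scoped ENNReal

namespace RAD_

lemma parts (R : ℝ) (hR : 0 < R) (A' : ℝ → ℝ) (hA : IntervalIntegrable A' volume 0 R)
    (ψ : ℝ → ℝ) (hψ : Continuous ψ) :
    ∫ ρ in (0 : ℝ)..R, (∫ s in ρ..R, ψ s) * A' ρ =
      ∫ ρ in (0 : ℝ)..R, ψ ρ * ∫ s in (0 : ℝ)..ρ, A' s := by
  set G : ℝ → ℝ := fun ρ => ∫ s in ρ..R, ψ s with hG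
  set F : ℝ → ℝ := fun ρ => ∫ s in (0 : ℝ)..ρ, A' s with hF
  have hGd : ∀ ρ, HasDerivAt G (-ψ ρ) ρ := by
    intro ρ
    exact intervalIntegral.integral_hasDerivAt_left (hψ.intervalIntegrable _ _)
      (hψ.stronglyMeasurableAtFilter _ _) hψ.continuousAt
  have hG1 : ContDiff ℝ 1 G := by
    rw [contDiff_one_iff_deriv]
    refine ⟨fun ρ => (hGd ρ).differentiableAt, ?_⟩
    have : deriv G = fun ρ => -ψ ρ := by
      funext ρ
      exact (hGd ρ).deriv
    rw [this]
    exact hψ.neg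
  have hGac : AbsolutelyContinuousOnInterval G 0 R :=
    hG1.contDiffOn.absolutelyContinuousOnInterval
  have hFac : AbsolutelyContinuousOnInterval F 0 R :=
    hA.absolutelyContinuousOnInterval_intervalIntegral (c := 0) (by simp)
  have h := hGac.integral_mul_deriv_eq_deriv_mul hFac
  have e1 : ∫ x in (0 : ℝ)..R, G x * deriv F x = ∫ x in (0 : ℝ)..R, G x * A' x := by
    refine intervalIntegral.integral_congr_ae ?_
    filter_upwards [hA.ae_hasDerivAt_integral] with x hx hx2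
    rw [(hx (uIoc_subset_uIcc hx2) 0 (by simp)).deriv]
  have e2 : ∫ x in (0 : ℝ)..R, deriv G x * F x = - ∫ x in (0 : ℝ)..R, ψ x * F x := by
    rw [← intervalIntegral.integral_neg]
    refine intervalIntegral.integral_congr fun x _ => ?_
    show deriv G x * F x = -(ψ x * F x)
    rw [(hGd x).deriv]
    ring
  have e3 : G R = 0 := by simp [hG]
  have e4 : F 0 = 0 := by simp [hF]
  rw [e1, e2, e3, e4] at h
  rw [h]
  ring

lemma cm_sub (q ρ θ : ℝ) : cm q ρ θ - q = ρ * Complex.exp (θ * Complex.I) := by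
  unfold cm
  ring

lemma cmq_re (q ρ θ : ℝ) : (cm q ρ θ - q).re = ρ * Real.cos θ := by
  rw [cm_sub, Complex.re_ofReal_mul, Complex.exp_ofReal_mul_I_re]

lemma cmq_im (q ρ θ : ℝ) : (cm q ρ θ - q).im = ρ * Real.sin θ := by
  rw [cm_sub, Complex.im_ofReal_mul, Complex.exp_ofReal_mul_I_im]

lemma cm_norm (q ρ θ : ℝ) (hρ : 0 ≤ ρ) : ‖cm q ρ θ - q‖ = ρ := by
  rw [cm_sub, norm_mul, Complex.norm_exp_ofReal_mul_I, mul_one, Complex.norm_real,
    Real.norm_eq_abs, abs_of_nonneg hρ]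

/-- derivative of a radial function -/
lemma radial (q : ℝ) (G : ℝ → ℝ) (c : ℝ) (z : ℂ) (hz : z ≠ q) (hG : HasDerivAt G c ‖z - q‖) :
    HasFDerivAt (fun z : ℂ => G ‖z - q‖) ((c / ‖z - q‖) • innerSL ℝ (z - (q : ℂ))) z := by
  have hne : z - (q : ℂ) ≠ 0 := sub_ne_zero.2 hz
  have hn : ‖z - (q : ℂ)‖ ≠ 0 := norm_ne_zero_iff.2 hne
  have h1 : HasFDerivAt (fun z : ℂ => ‖z - q‖ ^ 2) (2 • innerSL ℝ (z - (q : ℂ))) z := by
    have a1 := (hasStrictFDerivAt_norm_sq (z - (q : ℂ))).hasFDerivAt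
    have a2 : HasFDerivAt (fun z : ℂ => z - (q : ℂ)) (ContinuousLinearMap.id ℝ ℂ) z :=
      (hasFDerivAt_id z).sub_const _
    have a3 := a1.comp z a2
    rw [ContinuousLinearMap.comp_id] at a3
    exact a3
  have h2 := h1.sqrt (pow_ne_zero 2 hn)
  have e : (fun z : ℂ => Real.sqrt (‖z - q‖ ^ 2)) = fun z : ℂ => ‖z - q‖ := by
    funext w
    exact Real.sqrt_sq (norm_nonneg _)
  rw [e, Real.sqrt_sq (norm_nonneg _)] at h2
  have h3 := hG.comp_hasFDerivAt z h2
  have e2 : c • (1 / (2 * ‖z - (q : ℂ)‖)) • (2 • innerSL ℝ (z - (q : ℂ))) =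
      (c / ‖z - q‖) • innerSL ℝ (z - (q : ℂ)) := by
    ext
    simp
    field_simp
  rw [e2] at h3
  exact h3

end RAD_

open RAD_ in
theorem rad_proof (hP : Stmt_POL) : Stmt_RAD := by
  intro q R a b1 b2 hR ha hb1 hb2 H
  set g2 : ℂ → ℝ := fun z => (z - q).re / ‖z - q‖ * b1 z + (z - q).im / ‖z - q‖ * b2 z with hg2d
  have hHDm : MeasurableSet (HD q R) := by
    have : HD q R = {z : ℂ | 0 < z.im} ∩ ball (q : ℂ) R := by
      ext z
      simp [HD, dist_eq_norm]
    rw [this]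
    exact (isOpen_lt continuous_const Complex.continuous_im).measurableSet.inter measurableSet_ball
  have hm1 : Measurable fun z : ℂ => (z - q).re / ‖z - q‖ := by fun_prop
  have hm2 : Measurable fun z : ℂ => (z - q).im / ‖z - q‖ := by fun_prop
  have hbd1 : ∀ z : ℂ, ‖(z - q).re / ‖z - q‖‖ ≤ 1 := by
    intro z
    rw [norm_div, norm_norm]
    exact div_le_one_of_le₀ (Complex.abs_re_le_norm _) (norm_nonneg _)
  have hbd2 : ∀ z : ℂ, ‖(z - q).im / ‖z - q‖‖ ≤ 1 := by
    intro z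
    rw [norm_div, norm_norm]
    exact div_le_one_of_le₀ (Complex.abs_im_le_norm _) (norm_nonneg _)
  have hg2 : IntegrableOn g2 (HD q R) := by
    refine Integrable.add ?_ ?_
    · exact Integrable.bdd_mul hb1 hm1.aestronglyMeasurable (Eventually.of_forall hbd1)
    · exact Integrable.bdd_mul hb2 hm2.aestronglyMeasurable (Eventually.of_forall hbd2)
  obtain ⟨a1, a2, a3⟩ := hP q R a hR ha
  obtain ⟨c1, c2, c3⟩ := hP q R g2 hR hg2
  set Ad : ℝ → ℝ := fun ρ => ρ * ∫ θ in (0 : ℝ)..Real.pi, a (cm q ρ θ) with hAd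
  set Bd : ℝ → ℝ := fun ρ => ρ * ∫ θ in (0 : ℝ)..Real.pi, g2 (cm q ρ θ) with hBd
  have main : ∀ ψ : ℝ → ℝ, ContDiff ℝ (⊤ : ℕ∞) ψ → HasCompactSupport ψ → tsupport ψ ⊆ Ioo 0 R →
      ∫ ρ, ψ ρ • ((∫ s in (0 : ℝ)..ρ, Ad s) - Bd ρ) = 0 := by
    intro ψ hψ hψc hψs
    obtain ⟨ε, hε, hεs⟩ := hψc.isCompact.exists_thickening_subset_open isOpen_Ioo hψs
    have hψ0 : ∀ s : ℝ, s ≤ ε / 2 → ψ s = 0 := by
      intro s hs
      by_contra h
      have h1 : s ∈ tsupport ψ := subset_tsupport _ h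
      have h2 : s - ε / 2 ∈ thickening ε (tsupport ψ) := by
        rw [mem_thickening_iff]
        refine ⟨s, h1, ?_⟩
        rw [Real.dist_eq, show s - ε / 2 - s = -(ε / 2) by ring, abs_neg,
          abs_of_pos (by linarith)]
        linarith
      have := (hεs h2).1
      linarith
    have hψR : ∀ s : ℝ, R - ε / 2 ≤ s → ψ s = 0 := by
      intro s hs
      by_contra h
      have h1 : s ∈ tsupport ψ := subset_tsupport _ h
      have h2 : s + ε / 2 ∈ thickening ε (tsupport ψ) := by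
        rw [mem_thickening_iff]
        refine ⟨s, h1, ?_⟩
        rw [Real.dist_eq, show s + ε / 2 - s = ε / 2 by ring, abs_of_pos (by linarith)]
        linarith
      have := (hεs h2).2
      linarith
    have hψc' : Continuous ψ := hψ.continuous
    set G : ℝ → ℝ := fun ρ => ∫ s in ρ..R, ψ s with hG
    have hGd : ∀ ρ, HasDerivAt G (-ψ ρ) ρ := by
      intro ρ
      exact intervalIntegral.integral_hasDerivAt_left (hψc'.intervalIntegrable _ _)
        (hψc'.stronglyMeasurableAtFilter _ _) hψc'.continuousAt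
    have hG1 : ContDiff ℝ 1 G := by
      rw [contDiff_one_iff_deriv]
      refine ⟨fun ρ => (hGd ρ).differentiableAt, ?_⟩
      have : deriv G = fun ρ => -ψ ρ := by
        funext ρ
        exact (hGd ρ).deriv
      rw [this]
      exact hψc'.neg
    have hG0 : ∀ ρ, ρ ≤ ε / 2 → G ρ = G 0 := by
      intro ρ hρ
      have h1 : G ρ = (∫ s in ρ..(0 : ℝ), ψ s) + G 0 :=
        (intervalIntegral.integral_add_adjacent_intervals (hψc'.intervalIntegrable _ _)
          (hψc'.intervalIntegrable _ _)).symm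
      have h2 : ∫ s in ρ..(0 : ℝ), ψ s = ∫ s in ρ..(0 : ℝ), (0 : ℝ) := by
        refine intervalIntegral.integral_congr fun s hs => ?_
        have h3 : s ≤ ε / 2 := by
          rcases hs.2 with h
          exact h.trans (max_le hρ (by linarith))
        exact hψ0 s h3
      rw [h1, h2]
      simp
    have hGR : ∀ ρ, R - ε / 2 ≤ ρ → G ρ = 0 := by
      intro ρ hρ
      have h2 : ∫ s in ρ..R, ψ s = ∫ s in ρ..R, (0 : ℝ) := by
        refine intervalIntegral.integral_congr fun s hs => ?_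
        have h3 : R - ε / 2 ≤ s := by
          rcases hs.1 with h
          exact (le_min hρ (by linarith)).trans h
        exact hψR s h3
      rw [hG]
      simp only
      rw [h2]
      simp
    set χ : ℂ → ℝ := fun z => G ‖z - q‖ with hχ
    have hχq : χ =ᶠ[𝓝 (q : ℂ)] fun _ => G 0 := by
      filter_upwards [ball_mem_nhds (q : ℂ) (half_pos hε)] with z hz
      rw [mem_ball, dist_eq_norm] at hz
      exact hG0 _ hz.le
    have hχd : ∀ z : ℂ, z ≠ q →
        HasFDerivAt χ ((-ψ ‖z - q‖ / ‖z - q‖) • innerSL ℝ (z - (q : ℂ))) z := fun z hz =>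
      radial q G (-ψ ‖z - q‖) z hz (hGd _)
    have hχ1 : ContDiff ℝ 1 χ := by
      rw [contDiff_iff_contDiffAt]
      intro z
      by_cases hz : z = q
      · rw [hz]
        exact contDiffAt_const.congr_of_eventuallyEq hχq
      · have h1 : ContDiffAt ℝ 1 (fun z : ℂ => ‖z - q‖) z := by
          refine ContDiffAt.norm ℝ ?_ (sub_ne_zero.2 hz)
          fun_prop
        exact hG1.contDiffAt.comp z h1
    have hH := H χ hχ1 ⟨R - ε / 2, by linarith, fun z hz => hGR _ hz⟩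
    have hin : ∀ w : ℂ, innerSL ℝ w (1 : ℂ) = w.re := by
      intro w
      simp [Complex.inner]
    have hin2 : ∀ w : ℂ, innerSL ℝ w Complex.I = w.im := by
      intro w
      simp [Complex.inner]
    have e1 : ∫ z in HD q R, (χ z * a z + (fderiv ℝ χ z 1 * b1 z + fderiv ℝ χ z Complex.I * b2 z)) =
        ∫ z in HD q R, (χ z * a z - ψ ‖z - q‖ * g2 z) := by
      refine setIntegral_congr_fun hHDm fun z hz => ?_
      have hz' : z ≠ q := by
        rintro rfl
        have := hz.1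
        simp at this
      have hn : ‖z - (q : ℂ)‖ ≠ 0 := norm_ne_zero_iff.2 (sub_ne_zero.2 hz')
      show χ z * a z + (fderiv ℝ χ z 1 * b1 z + fderiv ℝ χ z Complex.I * b2 z) =
        χ z * a z - ψ ‖z - q‖ * ((z - q).re / ‖z - q‖ * b1 z + (z - q).im / ‖z - q‖ * b2 z)
      rw [(hχd z hz').fderiv, ContinuousLinearMap.smul_apply, ContinuousLinearMap.smul_apply,
        hin, hin2, smul_eq_mul, smul_eq_mul]
      field_simp
      ring
    rw [e1] at hH
    -- bounds
    obtain ⟨Cψ, hCψ⟩ : ∃ C, ∀ s, ‖ψ s‖ ≤ C := hψc.exists_bound_of_continuous hψc'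
    have hχc : HasCompactSupport χ := by
      refine HasCompactSupport.intro (isCompact_closedBall (q : ℂ) R) fun z hz => ?_
      rw [mem_closedBall, dist_eq_norm, not_le] at hz
      exact hGR _ (by linarith)
    obtain ⟨Cχ, hCχ⟩ : ∃ C, ∀ s, ‖χ s‖ ≤ C := hχc.exists_bound_of_continuous hχ1.continuous
    have i1 : IntegrableOn (fun z => χ z * a z) (HD q R) :=
      Integrable.bdd_mul ha hχ1.continuous.aestronglyMeasurable (Eventually.of_forall hCχ)
    have i2 : IntegrableOn (fun z : ℂ => ψ ‖z - q‖ * g2 z) (HD q R) := by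
      refine Integrable.bdd_mul hg2 ?_ (Eventually.of_forall fun z => hCψ _)
      have : Continuous fun z : ℂ => ψ ‖z - q‖ := by fun_prop
      exact this.aestronglyMeasurable
    rw [integral_sub i1 i2] at hH
    obtain ⟨-, -, d3⟩ := hP q R _ hR i1
    obtain ⟨-, -, f3⟩ := hP q R _ hR i2
    have hRm : R ∈ Icc 0 R := ⟨hR.le, le_rfl⟩
    rw [d3 R hRm, f3 R hRm] at hH
    have e2 : ∫ ρ in (0 : ℝ)..R, ρ * ∫ θ in (0 : ℝ)..Real.pi, χ (cm q ρ θ) * a (cm q ρ θ) =
        ∫ ρ in (0 : ℝ)..R, G ρ * Ad ρ := by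
      refine intervalIntegral.integral_congr fun ρ hρ => ?_
      rw [uIcc_of_le hR.le] at hρ
      have : ∀ θ, χ (cm q ρ θ) = G ρ := fun θ => by
        rw [hχ]
        simp only
        rw [cm_norm q ρ θ hρ.1]
      simp only [this, intervalIntegral.integral_const_mul, hAd]
      ring
    have e3 : ∫ ρ in (0 : ℝ)..R, ρ * ∫ θ in (0 : ℝ)..Real.pi,
        ψ ‖cm q ρ θ - q‖ * g2 (cm q ρ θ) = ∫ ρ in (0 : ℝ)..R, ψ ρ * Bd ρ := by
      refine intervalIntegral.integral_congr fun ρ hρ => ?_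
      rw [uIcc_of_le hR.le] at hρ
      have : ∀ θ, ψ ‖cm q ρ θ - q‖ = ψ ρ := fun θ => by
        rw [cm_norm q ρ θ hρ.1]
      simp only [this, intervalIntegral.integral_const_mul, hBd]
      ring
    rw [e2, e3, parts R hR Ad a2 ψ hψc'] at hH
    have i3 : IntervalIntegrable (fun ρ => ψ ρ * ∫ s in (0 : ℝ)..ρ, Ad s) volume 0 R := by
      refine ContinuousOn.intervalIntegrable ?_
      refine hψc'.continuousOn.mul ?_
      exact intervalIntegral.continuousOn_primitive_interval' a2 (by simp)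
    have i4 : IntervalIntegrable (fun ρ => ψ ρ * Bd ρ) volume 0 R :=
      c2.continuousOn_mul hψc'.continuousOn
    rw [← intervalIntegral.integral_sub i3 i4] at hH
    rw [intervalIntegral.integral_of_le hR.le] at hH
    have e4 : ∫ ρ in Ioc 0 R, (ψ ρ * (∫ s in (0 : ℝ)..ρ, Ad s) - ψ ρ * Bd ρ) =
        ∫ ρ, (ψ ρ * (∫ s in (0 : ℝ)..ρ, Ad s) - ψ ρ * Bd ρ) := by
      refine setIntegral_eq_integral_of_forall_compl_eq_zero fun ρ hρ => ?_
      have : ψ ρ = 0 := by
        by_contra h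
        have h1 : ρ ∈ tsupport ψ := subset_tsupport _ h
        exact hρ ⟨(hψs h1).1, (hψs h1).2.le⟩
      rw [this]
      ring
    rw [e4] at hH
    refine Eq.trans ?_ hH
    refine integral_congr_ae (Eventually.of_forall fun ρ => ?_)
    show ψ ρ * ((∫ s in (0 : ℝ)..ρ, Ad s) - Bd ρ) = ψ ρ * (∫ s in (0 : ℝ)..ρ, Ad s) - ψ ρ * Bd ρ
    rw [mul_sub]
  have hloc : LocallyIntegrableOn (fun ρ => (∫ s in (0 : ℝ)..ρ, Ad s) - Bd ρ) (Ioo 0 R) volume := by
    have i3 : IntervalIntegrable (fun ρ => ∫ s in (0 : ℝ)..ρ, Ad s) volume 0 R :=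
      (intervalIntegral.continuousOn_primitive_interval' a2 (by simp)).intervalIntegrable
    have i4 := i3.sub c2
    rw [intervalIntegrable_iff_integrableOn_Ioo_of_le hR.le] at i4
    exact i4.locallyIntegrableOn
  have hfin := isOpen_Ioo.ae_eq_zero_of_integral_contDiff_smul_eq_zero hloc main
  filter_upwards [hfin] with r hr hr2
  have h1 := hr hr2
  have h2 := a3 r ⟨hr2.1.le, hr2.2.le⟩
  rw [h2, sub_eq_zero.1 h1, hBd]
  simp only
  congr 1
  refine intervalIntegral.integral_congr fun θ _ => ?_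
  simp only [hg2d]
  rw [cmq_re, cmq_im, cm_norm q r θ hr2.1.le]
  have := hr2.1.ne'
  field_simp

end Pool.Agent.DMB
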