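import Mathlib

/-!
Public definitions for the boundary regularity of linearised `(Q - 1/2)`-valued Dir-minimisers in
the plane (`ℂ` is the Euclidean plane).
-/

namespace Pool.Agent.DMB

open MeasureTheory Set Metric Filter Topology
open scoped ENNReal

/-- The Euclidean space `ℝⁿ`. -/
abbrev E (n : ℕ) := EuclideanSpace ℝ (Fin n)

/-- `𝒜_Q(ℝⁿ)`: unordered `Q`-tuples of points of `ℝⁿ`. -/
abbrev AQ (n Q : ℕ) := Sym (E n) Q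

/-- The unordered tuple `∑ᵢ ⟦aᵢ⟧`. -/
def tup {n Q : ℕ} (a : Fin Q → E n) : AQ n Q :=
  ⟨Multiset.map a Finset.univ.val, by simp⟩

/-- The metric `𝒢` of `𝒜_Q(ℝⁿ)`: the least value of `(∑ᵢ |aᵢ - bᵢ|²)^(1/2)` over all ways of
listing the two tuples. -/
noncomputable def GG {n Q : ℕ} (S T : AQ n Q) : ℝ :=
  sInf {r : ℝ | ∃ a b : Fin Q → E n, tup a = S ∧ tup b = T ∧
    r = Real.sqrt (∑ i, ‖a i - b i‖ ^ 2)}

/-- The distributional derivative of `f` in the direction `v` is a function bounded by `h` on the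
open set `U`. -/
def DerivBound (U : Set ℂ) (v : ℂ) (f : ℂ → ℝ) (h : ℂ → ℝ≥0∞) : Prop :=
  ∀ ζ : ℂ → ℝ, ContDiff ℝ (⊤ : ℕ∞) ζ → HasCompactSupport ζ → tsupport ζ ⊆ U →
    ENNReal.ofReal |∫ z, f z * fderiv ℝ ζ z v| ≤ ∫⁻ z, h z * ENNReal.ofReal |ζ z|

/-- `h₁, h₂` are admissible in Almgren's definition of the Sobolev class of `g` on `U`:
`|∂_j 𝒢(g, T)| ≤ h_j` for all `T`. -/
def Adm {n Q : ℕ} (U : Set ℂ) (g : ℂ → AQ n Q) (h₁ h₂ : ℂ → ℝ≥0∞) : Prop :=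
  Measurable h₁ ∧ Measurable h₂ ∧ ∀ T : AQ n Q,
    DerivBound U 1 (fun z => GG (g z) T) h₁ ∧ DerivBound U Complex.I (fun z => GG (g z) T) h₂

/-- The Dirichlet energy of `g` on the open set `U`: the least value of `∫ h₁² + h₂²`. -/
noncomputable def energy {n Q : ℕ} (U : Set ℂ) (g : ℂ → AQ n Q) : ℝ≥0∞ :=
  ⨅ (h : (ℂ → ℝ≥0∞) × (ℂ → ℝ≥0∞)) (_ : Adm U g h.1 h.2), ∫⁻ z in U, (h.1 z ^ 2 + h.2 z ^ 2)

/-- Continuity of a `Q`-valued function on a set. -/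
def ContQ {n Q : ℕ} (A : Set ℂ) (g : ℂ → AQ n Q) : Prop :=
  ∀ z ∈ A, Tendsto (fun w => GG (g w) (g z)) (𝓝[A] z) (𝓝 0)

/-- `ga` is a `C³` curve in the open set `Om` which splits it into the disjoint open sets
`Op` and `Omi`: near each point of `ga` the three sets are `{f > 0}`, `{f < 0}` and `{f = 0}`
for a `C³` function `f` with non-zero differential. -/
structure IsSplit (Om Op Omi ga : Set ℂ) : Prop where
  openOm : IsOpen Om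
  openOp : IsOpen Op
  openOmi : IsOpen Omi
  union : Om = Op ∪ ga ∪ Omi
  disj1 : Disjoint Op ga
  disj2 : Disjoint Omi ga
  disj3 : Disjoint Op Omi
  loc : ∀ p ∈ ga, ∃ U : Set ℂ, IsOpen U ∧ p ∈ U ∧ ∃ f : ℂ → ℝ, ContDiffOn ℝ 3 f U ∧
    fderiv ℝ f p ≠ 0 ∧ ∀ z ∈ U, (z ∈ Op ↔ 0 < f z) ∧ (z ∈ Omi ↔ f z < 0) ∧ (z ∈ ga ↔ f z = 0)

/-- `φ` is a `C³` function on the curve `ga`. -/
def IsC3On {n : ℕ} (ga : Set ℂ) (φ : ℂ → E n) : Prop :=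
  ∀ p ∈ ga, ∃ U : Set ℂ, IsOpen U ∧ p ∈ U ∧ ∃ ψ : ℂ → E n, ContDiffOn ℝ 3 ψ U ∧
    ∀ z ∈ U ∩ ga, φ z = ψ z

/-- A (continuous) `(Q - 1/2)`-valued function of finite energy with interface `(ga, φ)`, where
`Q = k + 1`. -/
structure IsPair {n k : ℕ} (Op Omi ga : Set ℂ) (φ : ℂ → E n) (gp : ℂ → AQ n (k + 1))
    (gm : ℂ → AQ n k) : Prop where
  cp : ContQ (Op ∪ ga) gp
  cm : ContQ (Omi ∪ ga) gm
  bd : ∀ z ∈ ga, gp z = φ z ::ₛ gm z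
  fp : energy Op gp < ⊤
  fm : energy Omi gm < ⊤

/-- The pair is Dir-minimising in `Om`. -/
def DirMin {n k : ℕ} (Om Op Omi ga : Set ℂ) (φ : ℂ → E n) (gp : ℂ → AQ n (k + 1))
    (gm : ℂ → AQ n k) : Prop :=
  IsPair Op Omi ga φ gp gm ∧ ∀ (hp : ℂ → AQ n (k + 1)) (hm : ℂ → AQ n k),
    IsPair Op Omi ga φ hp hm →
    (∃ K ⊆ Om, IsCompact K ∧ (∀ z ∈ (Op ∪ ga) \ K, hp z = gp z) ∧
      (∀ z ∈ (Omi ∪ ga) \ K, hm z = gm z)) →
    energy Op gp + energy Omi gm ≤ energy Op hp + energy Omi hm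

/-- The point `p` is a regular boundary point of the pair: near `p` there are continuous sheets
`u i` (on the whole ball) and `w` (on the upper side, up to `ga`) with (i), (ii), (iii). -/
def RegPt {n k : ℕ} (Op Omi ga : Set ℂ) (gp : ℂ → AQ n (k + 1)) (gm : ℂ → AQ n k)
    (p : ℂ) : Prop :=
  ∃ r > 0, ball p r ⊆ Op ∪ ga ∪ Omi ∧ ∃ (u : Fin k → ℂ → E n) (w : ℂ → E n),
    (∀ i, ContinuousOn (u i) (ball p r)) ∧ ContinuousOn w (ball p r ∩ (Op ∪ ga)) ∧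
    (∀ z ∈ ball p r ∩ (Op ∪ ga), gp z = w z ::ₛ tup (fun i => u i z)) ∧
    (∀ z ∈ ball p r ∩ (Omi ∪ ga), gm z = tup (fun i => u i z)) ∧
    (∀ i j, (∀ z ∈ ball p r, u i z = u j z) ∨ (∀ z ∈ ball p r, u i z ≠ u j z)) ∧
    (∀ i, (∀ z ∈ ball p r ∩ (Op ∪ ga), w z = u i z) ∨
      (∀ z ∈ ball p r ∩ (Op ∪ ga), w z ≠ u i z))

end Pool.Agent.DMB
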